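import Pool.Agent.SSE.B7

/-!
# SSE project, part IRR: any two vertices on closed walks are connected

This property of the graph of a matrix is an invariant of strong shift equivalence; a presentation
equivalent to a primitive (irreducible) matrix has it.
-/

set_option autoImplicit false

open scoped BigOperators
open Matrix Polynomial

namespace Pool.Agent.SSE

open Pool.Agent.helper52.SSE

attribute [local instance] Classical.propDecidable

/-- the arcs of the graph of a matrix -/
def Arc {α R : Type} [Zero R] (X : Matrix α α R) (i j : α) : Prop := X i j ≠ 0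

/-- any two vertices on closed walks are connected -/
def Irr {α R : Type} [Zero R] (X : Matrix α α R) : Prop :=
  ∀ i j, Relation.TransGen (Arc X) i i → Relation.TransGen (Arc X) j j →
    Relation.TransGen (Arc X) i j

section elementary

variable {n m : ℕ} {R : Matrix (Fin n) (Fin m) ℕ} {S : Matrix (Fin m) (Fin n) ℕ}

lemma arc_mul {a b c : ℕ} (R : Matrix (Fin a) (Fin b) ℕ) (S : Matrix (Fin b) (Fin c) ℕ) {i : Fin a}
    {j : Fin c} : (R * S) i j ≠ 0 ↔ ∃ k, R i k ≠ 0 ∧ S k j ≠ 0 := by
  rw [Matrix.mul_apply]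
  constructor
  · intro h
    by_contra hne
    push Not at hne
    refine h (Finset.sum_eq_zero fun k _ => ?_)
    by_cases hk : R i k = 0
    · rw [hk, zero_mul]
    · rw [hne k hk, mul_zero]
  · rintro ⟨k, h1, h2⟩ h
    rw [Finset.sum_eq_zero_iff] at h
    exact mul_ne_zero h1 h2 (h k (Finset.mem_univ _))

/-- walks in `S R` give walks in `R S` -/
lemma walk_down {i j : Fin m} (h : Relation.TransGen (Arc (S * R)) i j) :
    ∃ x y, S i x ≠ 0 ∧ R y j ≠ 0 ∧ Relation.ReflTransGen (Arc (R * S)) x y := by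
  induction h with
  | single h =>
    obtain ⟨x, h1, h2⟩ := (arc_mul S R).1 h
    exact ⟨x, x, h1, h2, Relation.ReflTransGen.refl⟩
  | tail _ h ih =>
    obtain ⟨x, y, h1, h2, h3⟩ := ih
    obtain ⟨z, h4, h5⟩ := (arc_mul S R).1 h
    exact ⟨x, z, h1, h5, h3.tail ((arc_mul R S).2 ⟨_, h2, h4⟩)⟩

lemma walk_up {x y : Fin n} (h : Relation.ReflTransGen (Arc (R * S)) x y) {i : Fin m}
    (hi : S i x ≠ 0) : ∀ {j : Fin m}, R y j ≠ 0 → Relation.TransGen (Arc (S * R)) i j := by
  induction h with
  | refl =>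
    intro j hj
    exact Relation.TransGen.single ((arc_mul S R).2 ⟨x, hi, hj⟩)
  | tail _ h ih =>
    intro j hj
    obtain ⟨k, h1, h2⟩ := (arc_mul R S).1 h
    exact (ih h1).tail ((arc_mul S R).2 ⟨_, h2, hj⟩)

theorem irr_step (h : Irr (R * S)) : Irr (S * R) := by
  intro i j hi hj
  obtain ⟨x, x', h1, h2, h3⟩ := walk_down hi
  obtain ⟨y, y', h4, h5, h6⟩ := walk_down hj
  have hx : Relation.TransGen (Arc (R * S)) x x :=
    Relation.TransGen.tail' h3 ((arc_mul R S).2 ⟨i, h2, h1⟩)
  have hy : Relation.TransGen (Arc (R * S)) y' y' :=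
    Relation.TransGen.head' ((arc_mul R S).2 ⟨j, h5, h4⟩) h6
  exact walk_up (h x y' hx hy).to_reflTransGen h1 h5

end elementary

theorem irr_sse {X Y : NM} (h : SSE X Y) : Irr X.2 ↔ Irr Y.2 := by
  induction h with
  | rel X Y h =>
    obtain ⟨R, S, h1, h2⟩ := h
    rw [h1, h2]
    exact ⟨irr_step, irr_step⟩
  | refl X => exact Iff.rfl
  | symm X Y _ ih => exact ih.symm
  | trans X Y Z _ _ ih1 ih2 => exact ih1.trans ih2

lemma transGen_map {α β : Type} {r : α → α → Prop} {s : β → β → Prop} (f : α → β)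
    (hf : ∀ a b, r a b → s (f a) (f b)) {a b : α} (h : Relation.TransGen r a b) :
    Relation.TransGen s (f a) (f b) := by
  induction h with
  | single h => exact Relation.TransGen.single (hf _ _ h)
  | tail _ h ih => exact ih.tail (hf _ _ h)

lemma irr_submatrix {α β : Type} {X : Matrix α α ℕ} (e : β ≃ α) (h : Irr (X.submatrix e e)) :
    Irr X := by
  intro i j hi hj
  have h1 : ∀ {a b}, Relation.TransGen (Arc X) a b →
      Relation.TransGen (Arc (X.submatrix e e)) (e.symm a) (e.symm b) := fun {a b} hab =>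
    transGen_map e.symm (fun a b hab => by simpa [Arc] using hab) hab
  have h2 := h _ _ (h1 hi) (h1 hj)
  have h3 := transGen_map (s := Arc X) e (fun a b hab => hab) h2
  simpa using h3

lemma irr_submatrix' {α β : Type} {X : Matrix α α ℕ} (e : β ≃ α) (h : Irr X) :
    Irr (X.submatrix e e) := by
  refine irr_submatrix e.symm ?_
  simpa using h

theorem irr_eqv {α β : Type} [Fintype α] [Fintype β] {X : Matrix α α ℕ} {Y : Matrix β β ℕ}
    (h : Eqv X Y) (hX : Irr X) : Irr Y :=
  irr_submatrix _ ((irr_sse h).1 (irr_submatrix' _ hX))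

variable {ι : Type} [Fintype ι]

/-- the arc of a presentation as a walk of its companion matrix -/
lemma walk_comp {d : ℕ} {P : Matrix ι ι ℕ[X]} (hP : IsPres P) (hd : DegLe' d P) (h0 : 0 < d)
    {i j : ι} (h : Arc P i j) :
    Relation.TransGen (Arc (comp d P)) (i, ⟨0, h0⟩) (j, ⟨0, h0⟩) := by
  have down : ∀ b (hb : b < d), Relation.ReflTransGen (Arc (comp d P)) (j, ⟨b, hb⟩) (j, ⟨0, h0⟩) := by
    intro b
    induction b with
    | zero => exact fun _ => Relation.ReflTransGen.refl
    | succ b ih =>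
      intro hb
      refine Relation.ReflTransGen.head ?_ (ih (by omega))
      simp [Arc, comp]
  obtain ⟨k, hk⟩ : ∃ k, (P i j).coeff k ≠ 0 := by
    by_contra hne
    push Not at hne
    exact h (Polynomial.ext fun k => by simpa using hne k)
  have hk0 : k ≠ 0 := fun h => hk (h ▸ hP i j)
  have hkd : k ≤ d := (Polynomial.le_natDegree_of_ne_zero hk).trans (hd i j)
  obtain ⟨b, rfl⟩ := Nat.exists_eq_succ_of_ne_zero hk0
  refine Relation.TransGen.head' (b := (j, ⟨b, by omega⟩)) ?_ (down b _)
  simpa [Arc, comp] using hk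

/-- a walk of the companion matrix projects to a walk of the presentation -/
lemma walk_proj {d : ℕ} {P : Matrix ι ι ℕ[X]} {x y : ι × Fin d}
    (h : Relation.ReflTransGen (Arc (comp d P)) x y) : Relation.ReflTransGen (Arc P) x.1 y.1 := by
  induction h with
  | refl => exact Relation.ReflTransGen.refl
  | @tail y z _ h ih =>
    simp only [Arc, comp] at h
    split_ifs at h with h1 h2
    · refine ih.tail fun h0 => h ?_
      rw [h0]
      simp
    · rw [← h2.1]
      exact ih
    · exact absurd rfl h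

theorem irr_of_comp {d : ℕ} {P : Matrix ι ι ℕ[X]} (hP : IsPres P) (hd : DegLe' d P) (h0 : 0 < d)
    (h : Irr (comp d P)) : Irr P := by
  intro i j hi hj
  have h1 : ∀ {a b}, Relation.TransGen (Arc P) a b →
      Relation.TransGen (Arc (comp d P)) (a, ⟨0, h0⟩) (b, ⟨0, h0⟩) := by
    intro a b hab
    induction hab with
    | single h => exact walk_comp hP hd h0 h
    | tail _ h ih => exact ih.trans (walk_comp hP hd h0 h)
  have h2 := h _ _ (h1 hi) (h1 hj)
  obtain ⟨z, h3, h4⟩ := Relation.TransGen.head'_iff.1 h2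
  refine Relation.TransGen.head' ?_ (walk_proj h4)
  intro h0'
  refine h3 ?_
  simp only [comp, if_true]
  rw [h0']
  simp

/-- a presentation equivalent to a matrix all of whose vertices are connected -/
theorem irr_of_peqv {V : Type} [Fintype V] {A : Matrix V V ℕ}
    (hA : ∀ i j, Relation.TransGen (Arc A) i j) {P : Matrix ι ι ℕ[X]} (hP : IsPres P)
    (h : PEqv P (ofMat A)) : Irr P := by
  have h1 : Eqv A (comp (bd P) P) := (eqv_ofMat A).trans h.symm
  exact irr_of_comp hP (degLe_bd P) (bd_pos P) (irr_eqv h1 fun i j _ _ => hA i j)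

lemma transGen_of_pow {V : Type} [Fintype V] {A : Matrix V V ℕ} {k : ℕ} (i : V) :
    ∀ j, (A ^ (k + 1)) i j ≠ 0 → Relation.TransGen (Arc A) i j := by
  induction k with
  | zero =>
    intro j h
    exact Relation.TransGen.single (by simpa [Arc] using h)
  | succ k ih =>
    intro j h
    rw [pow_succ, Matrix.mul_apply] at h
    obtain ⟨l, -, hl⟩ := Finset.exists_ne_zero_of_sum_ne_zero h
    exact (ih l (left_ne_zero_of_mul hl)).tail (right_ne_zero_of_mul hl)

/-- the form for primitive matrices -/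
theorem irr_of_prim {V : Type} [Fintype V] {A : Matrix V V ℕ} {k : ℕ} (hk : 0 < k)
    (hA : ∀ i j, 0 < (A ^ k) i j) {P : Matrix ι ι ℕ[X]} (hP : IsPres P)
    (h : PEqv P (ofMat A)) : Irr P := by
  obtain ⟨k, rfl⟩ := Nat.exists_eq_succ_of_ne_zero hk.ne'
  exact irr_of_peqv (fun i j => transGen_of_pow i j (hA i j).ne') hP h

end Pool.Agent.SSE
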