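import Pool.Agent.SSE.BR2
import Pool.Agent.SSE.IRR

/-!
# SSE bridge, BR4: the vertices which are not reachable from the hub carry no cycle

`Arc P i j : P i j ≠ 0`, `Irr P` from the module IRR (invariance of irreducibility of the
nonwandering part).

Paper: `(M ^ i) z v ≠ 0` (`ℕ[X]`: no cancellation) iff there is a walk of length `i` from `z` to `v`
avoiding `x`. If `i ≥ card I` the walk has a repeated vertex `a`: `a` is on a closed walk, and `x` is
on a closed walk (`P x x ≠ 0`), so there is a walk from `x` to `a` and on to `v`; take it after its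
last visit of `x`: `(y M^i') v ≠ 0` for some `i'`. `n` = maximum of `card I` and these `i'`.
-/

set_option autoImplicit false

open scoped BigOperators
open Matrix Polynomial

namespace Pool.Agent.SSE

attribute [local instance] Classical.propDecidable

variable {I : Type} [Fintype I]

private lemma BR4_sum_ne {α : Type} (s : Finset α) (f : α → ℕ[X]) :
    (∑ i ∈ s, f i) ≠ 0 ↔ ∃ i ∈ s, f i ≠ 0 := by
  constructor
  · intro h
    by_contra hne
    push Not at hne
    exact h (Finset.sum_eq_zero hne)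
  · rintro ⟨i, hi, h1⟩ h
    apply h1
    ext d
    have h2 : (∑ i ∈ s, f i).coeff d = 0 := by rw [h, Polynomial.coeff_zero]
    rw [Polynomial.finsetSum_coeff, Finset.sum_eq_zero_iff] at h2
    rw [h2 i hi, Polynomial.coeff_zero]

private lemma BR4_mul_ne (A B : Matrix I I ℕ[X]) (i j : I) :
    (A * B) i j ≠ 0 ↔ ∃ k, A i k ≠ 0 ∧ B k j ≠ 0 := by
  rw [Matrix.mul_apply, BR4_sum_ne]
  constructor
  · rintro ⟨k, -, h⟩
    exact ⟨k, left_ne_zero_of_mul h, right_ne_zero_of_mul h⟩
  · rintro ⟨k, h1, h2⟩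
    exact ⟨k, Finset.mem_univ _, mul_ne_zero h1 h2⟩

private lemma BR4_vec_ne (y : I → ℕ[X]) (B : Matrix I I ℕ[X]) (j : I) :
    (y ᵥ* B) j ≠ 0 ↔ ∃ k, y k ≠ 0 ∧ B k j ≠ 0 := by
  change (∑ k, y k * B k j) ≠ 0 ↔ _
  rw [BR4_sum_ne]
  constructor
  · rintro ⟨k, -, h⟩
    exact ⟨k, left_ne_zero_of_mul h, right_ne_zero_of_mul h⟩
  · rintro ⟨k, h1, h2⟩
    exact ⟨k, Finset.mem_univ _, mul_ne_zero h1 h2⟩

/-- a nonzero entry of a power gives a walk -/
private lemma BR4_walk (M : Matrix I I ℕ[X]) (i : ℕ) : ∀ (z v : I), (M ^ i) z v ≠ 0 →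
    ∃ f : ℕ → I, f i = v ∧ ∀ k, k < i → M (f k) (f (k + 1)) ≠ 0 := by
  induction i with
  | zero =>
    intro z v _
    exact ⟨fun _ => v, rfl, fun k hk => absurd hk (Nat.not_lt_zero k)⟩
  | succ i ih =>
    intro z v h
    rw [pow_succ, BR4_mul_ne] at h
    obtain ⟨w, h1, h2⟩ := h
    obtain ⟨f, hf, hs⟩ := ih z w h1
    refine ⟨fun k => if k ≤ i then f k else v, ?_, ?_⟩
    · simp
    · intro k hk
      rcases Nat.lt_succ_iff_lt_or_eq.1 hk with hk | rfl
      · have e1 : k ≤ i := hk.le
        have e2 : k + 1 ≤ i := hk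
        simp only [e1, e2, if_true]
        exact hs k hk
      · simp only [le_refl, if_true]
        rw [if_neg (by omega), hf]
        exact h2

omit [Fintype I] in
private lemma BR4_vM_arc {P : Matrix I I ℕ[X]} {x i j : I} (h : vM P x i j ≠ 0) : Arc P i j := by
  unfold vM at h
  split_ifs at h with hc
  · exact absurd rfl h
  · exact h

omit [Fintype I] in
private lemma BR4_seg {P : Matrix I I ℕ[X]} {x : I} {f : ℕ → I} {n : ℕ}
    (hs : ∀ k, k < n → vM P x (f k) (f (k + 1)) ≠ 0) (k : ℕ) :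
    ∀ l, k + l ≤ n → Relation.ReflTransGen (Arc P) (f k) (f (k + l)) := by
  intro l
  induction l with
  | zero => intro _; exact Relation.ReflTransGen.refl
  | succ l ih =>
    intro h
    exact (ih (by omega)).tail (BR4_vM_arc (hs (k + l) (by omega)))

/-- after the last visit of `x` -/
private lemma BR4_last {P : Matrix I I ℕ[X]} {x v : I} (h : Relation.TransGen (Arc P) x v) :
    v = x ∨ ∃ i, (vy P x ᵥ* (vM P x) ^ i) v ≠ 0 := by
  have base : ∀ w, Arc P x w → w = x ∨ ∃ i, (vy P x ᵥ* (vM P x) ^ i) w ≠ 0 := by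
    intro w hw
    by_cases hwx : w = x
    · exact Or.inl hwx
    · refine Or.inr ⟨0, ?_⟩
      rw [pow_zero, Matrix.vecMul_one]
      unfold vy
      rw [if_neg hwx]
      exact hw
  induction h with
  | single h => exact base _ h
  | @tail b c _ h ih =>
    by_cases hc : c = x
    · exact Or.inl hc
    · rcases ih with rfl | ⟨i, hi⟩
      · exact base _ h
      · by_cases hb : b = x
        · subst hb
          exact base _ h
        · refine Or.inr ⟨i + 1, ?_⟩
          rw [pow_succ, ← Matrix.vecMul_vecMul, BR4_vec_ne]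
          refine ⟨b, hi, ?_⟩
          unfold vM
          rw [if_neg (by tauto)]
          exact h

theorem exists_reach (P : Matrix I I ℕ[X]) (x : I) (irr : Irr P) (hx : P x x ≠ 0) :
    ∃ n : ℕ, ∀ v, v ≠ x → (∃ i, i ≤ n ∧ (vy P x ᵥ* (vM P x) ^ i) v ≠ 0) ∨
      ∀ i, n ≤ i → ∀ z, ((vM P x) ^ i) z v = 0 := by
  choose! e he using fun (v : I) (h : ∃ i, (vy P x ᵥ* (vM P x) ^ i) v ≠ 0) => h
  refine ⟨Fintype.card I + ∑ v, e v, fun v hv => ?_⟩
  by_cases hr : ∃ i, (vy P x ᵥ* (vM P x) ^ i) v ≠ 0
  · refine Or.inl ⟨e v, ?_, he v hr⟩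
    exact (Finset.single_le_sum (fun i _ => Nat.zero_le (e i)) (Finset.mem_univ v)).trans
      (Nat.le_add_left _ _)
  · refine Or.inr fun i hi z => ?_
    by_contra hne
    apply hr
    obtain ⟨f, hf, hs⟩ := BR4_walk (vM P x) i z v hne
    have hc : Fintype.card I < Fintype.card (Fin (i + 1)) := by
      rw [Fintype.card_fin]
      omega
    obtain ⟨k, l, hkl, hfkl⟩ := Fintype.exists_ne_map_eq_of_card_lt (fun k : Fin (i + 1) => f k) hc
    have key : ∀ k l : ℕ, k < l → l ≤ i → f k = f l → ∃ i, (vy P x ᵥ* (vM P x) ^ i) v ≠ 0 := by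
      intro k l h1 h2 h3
      have s1 : Relation.TransGen (Arc P) (f k) (f k) := by
        have s2 := BR4_seg hs (k + 1) (l - (k + 1)) (by omega)
        rw [show k + 1 + (l - (k + 1)) = l by omega, ← h3] at s2
        exact Relation.TransGen.head' (BR4_vM_arc (hs k (by omega))) s2
      have s3 : Relation.ReflTransGen (Arc P) (f k) v := by
        have s4 := BR4_seg hs k (i - k) (by omega)
        rw [show k + (i - k) = i by omega, hf] at s4
        exact s4
      have s5 := (irr x (f k) (Relation.TransGen.single hx) s1).trans_left s3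
      rcases BR4_last s5 with h | h
      · exact absurd h hv
      · exact h
    rcases lt_or_gt_of_ne (fun h => hkl (Fin.ext h) : (k : ℕ) ≠ l) with h | h
    · exact key k l h (by omega) hfkl
    · exact key l k h (by omega) hfkl.symm

end Pool.Agent.SSE
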