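import Pool.Agent.SSE.BR5

/-!
# SSE bridge, BR6: norms at the smaller radius `r < ρ`
-/

set_option autoImplicit false

open scoped BigOperators
open Matrix Polynomial

namespace Pool.Agent.SSE

attribute [local instance] Classical.propDecidable

variable {I : Type} [Fintype I]

theorem sN_nonneg {r : ℝ} (hr : 0 ≤ r) (D : ℕ) (G : PowerSeries ℤ) : 0 ≤ sN r D G :=
  Finset.sum_nonneg fun _ _ => mul_nonneg (abs_nonneg _) (pow_nonneg hr _)

theorem sN_add {r : ℝ} (hr : 0 ≤ r) (D : ℕ) (G G' : PowerSeries ℤ) :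
    sN r D (G + G') ≤ sN r D G + sN r D G' := by
  unfold sN
  rw [← Finset.sum_add_distrib]
  refine Finset.sum_le_sum fun d _ => ?_
  rw [← add_mul, map_add, Int.cast_add]
  exact mul_le_mul_of_nonneg_right (abs_add_le _ _) (pow_nonneg hr _)

theorem BR6_sN_zero (r : ℝ) (D : ℕ) : sN r D 0 = 0 := by
  unfold sN
  simp

theorem BR6_sN_sum {r : ℝ} (hr : 0 ≤ r) (D : ℕ) {α : Type} (s : Finset α)
    (f : α → PowerSeries ℤ) : sN r D (∑ i ∈ s, f i) ≤ ∑ i ∈ s, sN r D (f i) := by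
  induction s using Finset.induction_on with
  | empty => simp [BR6_sN_zero]
  | insert a s ha ih =>
    rw [Finset.sum_insert ha, Finset.sum_insert ha]
    exact (sN_add hr D _ _).trans (by linarith)

/-- partial sums of the norm of a polynomial -/
theorem BR6_part_le {r : ℝ} (hr : 0 ≤ r) (p : ℕ[X]) (n : ℕ) :
    ∑ k ∈ Finset.range n, (p.coeff k : ℝ) * r ^ k ≤ wn r (toR (toZ p)) := by
  rw [wn_toZ_range r (D := n + (p.natDegree + 1)) (by omega)]
  exact Finset.sum_le_sum_of_subset_of_nonneg (Finset.range_mono (by omega))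
    fun k _ _ => mul_nonneg (Nat.cast_nonneg _) (pow_nonneg hr _)

theorem sN_mul_poly {r : ℝ} (hr : 0 ≤ r) (D : ℕ) (G : PowerSeries ℤ) (p : ℕ[X]) :
    sN r D (G * ps (toZ p)) ≤ sN r D G * wn r (toR (toZ p)) := by
  unfold sN
  have h1 : ∀ d ∈ Finset.range D,
      |((PowerSeries.coeff d (G * ps (toZ p)) : ℤ) : ℝ)| * r ^ d ≤
        ∑ k ∈ Finset.range (d + 1), (|((PowerSeries.coeff k G : ℤ) : ℝ)| * r ^ k) *
          ((p.coeff (d - k) : ℝ) * r ^ (d - k)) := by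
    intro d _
    rw [PowerSeries.coeff_mul, Finset.Nat.sum_antidiagonal_eq_sum_range_succ_mk, Int.cast_sum]
    calc |∑ k ∈ Finset.range (d + 1), ((PowerSeries.coeff k G *
          PowerSeries.coeff (d - k) (ps (toZ p)) : ℤ) : ℝ)| * r ^ d
        ≤ (∑ k ∈ Finset.range (d + 1), |((PowerSeries.coeff k G *
          PowerSeries.coeff (d - k) (ps (toZ p)) : ℤ) : ℝ)|) * r ^ d :=
          mul_le_mul_of_nonneg_right (Finset.abs_sum_le_sum_abs _ _) (pow_nonneg hr _)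
      _ = _ := by
          rw [Finset.sum_mul]
          refine Finset.sum_congr rfl fun k hk => ?_
          have hk' : k ≤ d := by
            have := Finset.mem_range.1 hk
            omega
          have h2 : r ^ d = r ^ k * r ^ (d - k) := by
            rw [← pow_add, Nat.add_sub_cancel' hk']
          rw [Int.cast_mul, abs_mul, coeff_ps, coeff_toZ, h2]
          have h3 : |(((p.coeff (d - k) : ℕ) : ℤ) : ℝ)| = (p.coeff (d - k) : ℝ) := by
            rw [Int.cast_natCast]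
            exact abs_of_nonneg (Nat.cast_nonneg _)
          rw [h3]
          ring
  refine (Finset.sum_le_sum h1).trans ?_
  rw [Finset.sum_range_diag_flip D (fun k l =>
    (|((PowerSeries.coeff k G : ℤ) : ℝ)| * r ^ k) * ((p.coeff l : ℝ) * r ^ l)), Finset.sum_mul]
  refine Finset.sum_le_sum fun k _ => ?_
  rw [← Finset.mul_sum]
  exact mul_le_mul_of_nonneg_left (BR6_part_le hr p _)
    (mul_nonneg (abs_nonneg _) (pow_nonneg hr _))

theorem BR6_wn_X_pow (r : ℝ) (j : ℕ) : wn r (toR (toZ (X ^ j : ℕ[X]))) = r ^ j := by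
  rw [wn_toZ, Polynomial.support_X_pow]
  simp

theorem BR6_wn_zero (r : ℝ) : wn r (toR (toZ (0 : ℕ[X]))) = 0 := by
  rw [wn_toZ]
  simp

theorem BR6_wn_sum (r : ℝ) {α : Type} (s : Finset α) (f : α → ℕ[X]) :
    wn r (toR (toZ (∑ i ∈ s, f i))) = ∑ i ∈ s, wn r (toR (toZ (f i))) := by
  induction s using Finset.induction_on with
  | empty => rw [Finset.sum_empty, Finset.sum_empty, BR6_wn_zero]
  | insert a s ha ih => rw [Finset.sum_insert ha, Finset.sum_insert ha, wn_toZ_add, ih]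

theorem sN_X_pow_mul {r : ℝ} (hr : 0 ≤ r) (hr1 : r ≤ 1) (D j : ℕ) (G : PowerSeries ℤ) :
    sN r D (PowerSeries.X ^ j * G) ≤ sN r D G := by
  have h : PowerSeries.X ^ j * G = G * ps (toZ (X ^ j : ℕ[X])) := by
    rw [mul_comm]
    congr 1
    simp [ps, toZ]
  rw [h]
  refine (sN_mul_poly hr D G _).trans ?_
  rw [BR6_wn_X_pow]
  exact mul_le_of_le_one_right (sN_nonneg hr D G) (pow_le_one₀ hr hr1)

theorem BR6_geom {x : ℝ} (h0 : 0 ≤ x) (h1 : x < 1) (n : ℕ) :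
    ∑ i ∈ Finset.range n, x ^ i ≤ (1 - x)⁻¹ := by
  have h2 : (0 : ℝ) < 1 - x := by linarith
  rw [← mul_one (1 - x)⁻¹, le_inv_mul_iff₀ h2]
  have h3 := mul_neg_geom_sum x n
  rw [h3]
  have := pow_nonneg h0 n
  linarith

/-- `g_d ≤ ρ^(-d)` gives `‖g‖_r ≤ 1/(1 - r/ρ)` -/
theorem sN_geom {r ρ : ℝ} (hr : 0 < r) (hrρ : r < ρ) (G : PowerSeries ℤ)
    (h0 : ∀ d, 0 ≤ PowerSeries.coeff d G)
    (h : ∀ d, ((PowerSeries.coeff d G : ℤ) : ℝ) ≤ (ρ⁻¹) ^ d) (D : ℕ) :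
    sN r D G ≤ (1 - r / ρ)⁻¹ := by
  have hρ : 0 < ρ := hr.trans hrρ
  have h1 : r / ρ < 1 := (div_lt_one hρ).2 hrρ
  refine le_trans ?_ (BR6_geom (by positivity) h1 D)
  unfold sN
  refine Finset.sum_le_sum fun d _ => ?_
  have h2 : (0 : ℝ) ≤ ((PowerSeries.coeff d G : ℤ) : ℝ) := by exact_mod_cast h0 d
  rw [abs_of_nonneg h2, div_pow, div_eq_inv_mul, ← inv_pow]
  exact mul_le_mul_of_nonneg_right (h d) (by positivity)

/-- the expansion coefficients -/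
theorem sN_GV {P : Matrix I I ℕ[X]} {x : I} {g : PowerSeries ℤ} {ρ κ : ℝ} {N u : ℕ}
    (R : Res g ρ κ N u) {r θ : ℝ} (hr : 0 < r) (hrρ : r < ρ) (hr1 : r ≤ 1) (hθ0 : 0 ≤ θ)
    (hθ1 : θ < 1) (hθ : ∀ i, ∑ j, wn r (toR (toZ (vM P x i j))) ≤ θ) (n D : ℕ) :
    ∑ l, sN r D (GV P x g u n l) ≤
      (1 - r / ρ)⁻¹ * ((1 - θ)⁻¹ * ∑ j, wn r (toR (toZ (vy P x j)))) := by
  have hρ : 0 < ρ := hr.trans hrρ
  have hS : 0 ≤ ∑ j, wn r (toR (toZ (vy P x j))) :=
    Finset.sum_nonneg fun j _ => wn_toZ_nonneg hr _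
  have hg := sN_geom hr hrρ g R.nonneg R.up D
  have hg0 := sN_nonneg hr.le D g
  have h1 : ∀ l, sN r D (GV P x g u n l) ≤ ∑ i ∈ Finset.range (n + 1),
      sN r D g * wn r (toR (toZ ((vy P x ᵥ* (vM P x) ^ i) l))) := by
    intro l
    unfold GV
    refine (BR6_sN_sum hr.le D _ _).trans (Finset.sum_le_sum fun i _ => ?_)
    exact (sN_X_pow_mul hr.le hr1 D _ _).trans (sN_mul_poly hr.le D _ _)
  calc ∑ l, sN r D (GV P x g u n l)
      ≤ ∑ l, ∑ i ∈ Finset.range (n + 1),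
        sN r D g * wn r (toR (toZ ((vy P x ᵥ* (vM P x) ^ i) l))) :=
        Finset.sum_le_sum fun l _ => h1 l
    _ = sN r D g * ∑ i ∈ Finset.range (n + 1), ∑ l,
        wn r (toR (toZ ((vy P x ᵥ* (vM P x) ^ i) l))) := by
        rw [Finset.sum_comm, Finset.mul_sum]
        refine Finset.sum_congr rfl fun i _ => ?_
        rw [Finset.mul_sum]
    _ ≤ sN r D g * ∑ i ∈ Finset.range (n + 1),
        (∑ j, wn r (toR (toZ (vy P x j)))) * θ ^ i :=
        mul_le_mul_of_nonneg_left (Finset.sum_le_sum fun i _ => pow_bound hr hθ0 hθ _ i) hg0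
    _ = sN r D g * ((∑ i ∈ Finset.range (n + 1), θ ^ i) *
        ∑ j, wn r (toR (toZ (vy P x j)))) := by
        rw [← Finset.mul_sum, mul_comm (∑ j, wn r (toR (toZ (vy P x j))))]
    _ ≤ (1 - r / ρ)⁻¹ * ((1 - θ)⁻¹ * ∑ j, wn r (toR (toZ (vy P x j)))) := by
        have h2 := BR6_geom hθ0 hθ1 (n + 1)
        have h3 : 0 ≤ ∑ i ∈ Finset.range (n + 1), θ ^ i :=
          Finset.sum_nonneg fun i _ => pow_nonneg hθ0 _
        have h4 := mul_le_mul_of_nonneg_right h2 hS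
        exact mul_le_mul hg h4 (mul_nonneg h3 hS) (hg0.trans hg)

/-- the un-push coefficients -/
theorem wn_Wm {P : Matrix I I ℕ[X]} {x : I} {r θ : ℝ} (hr : 0 < r) (hr1 : r ≤ 1) (hθ0 : 0 ≤ θ)
    (hθ1 : θ < 1) (hθ : ∀ i, ∑ j, wn r (toR (toZ (vM P x i j))) ≤ θ) (a : I → ℕ) (m : ℕ) :
    ∑ l, wn r (toR (toZ (Wm P x a m l))) ≤ (1 - θ)⁻¹ * Fintype.card I := by
  have h1 : ∀ l, wn r (toR (toZ (Wm P x a m l))) ≤ ∑ i ∈ Finset.range m,
      wn r (toR (toZ ((vt x a ᵥ* (vM P x) ^ i) l))) := by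
    intro l
    unfold Wm
    rw [BR6_wn_sum]
  have h3 : ∑ j, wn r (toR (toZ (vt x a j))) ≤ Fintype.card I := by
    have h4 : ∀ j ∈ (Finset.univ : Finset I), wn r (toR (toZ (vt x a j))) ≤ 1 := by
      intro j _
      unfold vt
      split_ifs
      · rw [BR6_wn_zero]
        exact zero_le_one
      · rw [BR6_wn_X_pow]
        exact pow_le_one₀ hr.le hr1
    refine (Finset.sum_le_sum h4).trans ?_
    simp
  have hS : 0 ≤ ∑ j, wn r (toR (toZ (vt x a j))) :=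
    Finset.sum_nonneg fun j _ => wn_toZ_nonneg hr _
  calc ∑ l, wn r (toR (toZ (Wm P x a m l)))
      ≤ ∑ l, ∑ i ∈ Finset.range m, wn r (toR (toZ ((vt x a ᵥ* (vM P x) ^ i) l))) :=
        Finset.sum_le_sum fun l _ => h1 l
    _ = ∑ i ∈ Finset.range m, ∑ l, wn r (toR (toZ ((vt x a ᵥ* (vM P x) ^ i) l))) :=
        Finset.sum_comm
    _ ≤ ∑ i ∈ Finset.range m, (∑ j, wn r (toR (toZ (vt x a j)))) * θ ^ i :=
        Finset.sum_le_sum fun i _ => pow_bound hr hθ0 hθ _ i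
    _ = (∑ i ∈ Finset.range m, θ ^ i) * ∑ j, wn r (toR (toZ (vt x a j))) := by
        rw [← Finset.mul_sum, mul_comm]
    _ ≤ (1 - θ)⁻¹ * Fintype.card I := by
        have h2 := BR6_geom hθ0 hθ1 m
        have h5 : 0 ≤ ∑ i ∈ Finset.range m, θ ^ i :=
          Finset.sum_nonneg fun i _ => pow_nonneg hθ0 _
        exact mul_le_mul h2 h3 hS (h5.trans h2)

/-- `n' / (1 - s)`, `t^K n' ≤ s`: its norm -/
theorem sN_geo {s : ℕ[X]} {ρ c : ℝ} {n0 : ℕ} (R : Ren s ρ c n0) {r : ℝ} (hr : 0 < r)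
    (hrρ : r < ρ) (n' : ℕ[X]) (D : ℕ) :
    sN r D (ps (toZ n') * geo s) ≤ wn r (toR (toZ n')) * (1 - r / ρ)⁻¹ := by
  rw [mul_comm (ps (toZ n')), mul_comm (wn r (toR (toZ n')))]
  refine (sN_mul_poly hr.le D _ _).trans ?_
  exact mul_le_mul_of_nonneg_right
    (sN_geom hr hrρ _ (geo_nonneg R.s0) R.up D) (wn_toZ_nonneg hr _)

end Pool.Agent.SSE
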