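import Pool.Agent.SSE.V6

/-!
# SSE bridge, BR1: the reservoir series `(1 - t^k)/(1 - s)`

`s = t^k + s'`, `s' ≠ 0`, `s` a renewal polynomial (`Ren`).

Paper: `g = 1 + s' / (1 - s)` (from `geo_eq`), hence `g ≥ 0`, `g 0 = 1`; `g_d ≤ geo_d ≤ r^(-d)`
(`g = geo - t^k geo`); if `s'.coeff k' ≠ 0` then `g_d ≥ geo_(d-k') ≥ c r^k' r^(-d)` for
`d ≥ n0 + k'`. `half`: take `u ≥ N` with `2 r^u ≤ κ`: `2 g_(d-u) ≤ 2 r^u r^(-d) ≤ κ r^(-d) ≤ g_d`
for `d ≥ u`; for `d < u` the left side is `0`.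
-/

set_option autoImplicit false

open scoped BigOperators
open Matrix Polynomial

namespace Pool.Agent.SSE

attribute [local instance] Classical.propDecidable

/-- `(1 - t^k) / (1 - s)` -/
noncomputable def gk (s : ℕ[X]) (k : ℕ) : PowerSeries ℤ := (1 - PowerSeries.X ^ k) * geo s

/-- properties of the reservoir series which are used -/
structure Res (g : PowerSeries ℤ) (ρ κ : ℝ) (N u : ℕ) : Prop where
  ρ0 : 0 < ρ
  κ0 : 0 < κ
  upos : 0 < u
  one : PowerSeries.coeff 0 g = 1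
  nonneg : ∀ n, 0 ≤ PowerSeries.coeff n g
  low : ∀ n, N ≤ n → κ * (ρ⁻¹) ^ n ≤ ((PowerSeries.coeff n g : ℤ) : ℝ)
  up : ∀ n, ((PowerSeries.coeff n g : ℤ) : ℝ) ≤ (ρ⁻¹) ^ n
  half : ∀ n, 2 * PowerSeries.coeff n (PowerSeries.X ^ u * g) ≤ PowerSeries.coeff n g

theorem gk_eq {s s' : ℕ[X]} {k : ℕ} (h0 : s.coeff 0 = 0) (hs : s = X ^ k + s') :
    gk s k = 1 + ps (toZ s') * geo s := by
  have hps : ps (toZ s) = PowerSeries.X ^ k + ps (toZ s') := by
    rw [hs]
    ext n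
    rw [map_add, coeff_ps, coeff_ps, coeff_toZ, coeff_toZ, PowerSeries.coeff_X_pow,
      Polynomial.coeff_add, Polynomial.coeff_X_pow]
    split_ifs <;> simp
  have h1 := geo_mul h0
  have h2 : (1 : PowerSeries ℤ) - PowerSeries.X ^ k = (1 - ps (toZ s)) + ps (toZ s') := by
    rw [hps]
    ring
  unfold gk
  rw [h2, add_mul, mul_comm (1 - ps (toZ s)) (geo s), h1]

/-- `g (1 - s) = 1 - t^k` -/
theorem gk_mul {s : ℕ[X]} {k : ℕ} (h0 : s.coeff 0 = 0) :
    gk s k * (1 - ps (toZ s)) = 1 - PowerSeries.X ^ k := by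
  unfold gk
  rw [mul_assoc, geo_mul h0, mul_one]

theorem exists_res {s s' : ℕ[X]} {k n0 : ℕ} {r c : ℝ} (R : Ren s r c n0) (hk : 0 < k)
    (hs : s = X ^ k + s') (hs' : s' ≠ 0) : ∃ κ N u, Res (gk s k) r κ N u := by
  have h0 := R.s0
  have hr0 : 0 < r := R.r0
  have hrinv : 0 < r⁻¹ := inv_pos.2 hr0
  -- the exponent `k'`
  obtain ⟨k', hk'⟩ : ∃ k', s'.coeff k' ≠ 0 := by
    by_contra h
    push Not at h
    exact hs' (Polynomial.ext fun n => by simpa using h n)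
  have hk1 : 1 ≤ s'.coeff k' := Nat.one_le_iff_ne_zero.2 hk'
  have hgeo := geo_nonneg h0
  have heq := gk_eq h0 hs
  have hone : ∀ n, (0 : ℤ) ≤ PowerSeries.coeff n (1 : PowerSeries ℤ) := fun n => by
    rw [PowerSeries.coeff_one]
    split_ifs <;> simp
  have hnn : ∀ n, 0 ≤ PowerSeries.coeff n (gk s k) := fun n => by
    rw [heq, map_add, mul_comm]
    exact add_nonneg (hone n) (coeff_mul_nonneg hgeo s' n)
  have hge : ∀ n, k' ≤ n → PowerSeries.coeff (n - k') (geo s) ≤ PowerSeries.coeff n (gk s k) :=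
    fun n hn => by
      rw [heq, map_add, mul_comm]
      have h1 := le_coeff_mul hgeo hk1 hn
      have h2 := hone n
      linarith
  have hup : ∀ n, ((PowerSeries.coeff n (gk s k) : ℤ) : ℝ) ≤ (r⁻¹) ^ n := fun n => by
    refine le_trans ?_ (R.up n)
    have h1 : PowerSeries.coeff n (gk s k) ≤ PowerSeries.coeff n (geo s) := by
      unfold gk
      rw [sub_mul, one_mul, map_sub, PowerSeries.coeff_X_pow_mul']
      split_ifs
      · have := hgeo (n - k)
        linarith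
      · simp
    exact_mod_cast h1
  have hlow : ∀ n, n0 + k' ≤ n → c * r ^ k' * (r⁻¹) ^ n ≤
      ((PowerSeries.coeff n (gk s k) : ℤ) : ℝ) := fun n hn => by
    have h1 := R.low (n - k') (by omega)
    have h2 : ((PowerSeries.coeff (n - k') (geo s) : ℤ) : ℝ) ≤
        ((PowerSeries.coeff n (gk s k) : ℤ) : ℝ) := by exact_mod_cast hge n (by omega)
    refine le_trans (le_of_eq ?_) (h1.trans h2)
    obtain ⟨m, rfl⟩ : ∃ m, n = m + k' := ⟨n - k', by omega⟩
    rw [Nat.add_sub_cancel, pow_add, mul_assoc, mul_left_comm (r ^ k'), ← mul_pow,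
      mul_inv_cancel₀ hr0.ne', one_pow, mul_one]
  have hκ : 0 < c * r ^ k' := mul_pos R.cpos (pow_pos hr0 _)
  obtain ⟨u0, hu0⟩ := exists_pow_lt_of_lt_one (half_pos hκ) R.r1
  refine ⟨c * r ^ k', n0 + k', max u0 (n0 + k') + 1, hr0, hκ, Nat.succ_pos _, ?_, hnn, hlow, hup,
    ?_⟩
  · unfold gk
    rw [sub_mul, one_mul, map_sub, PowerSeries.coeff_X_pow_mul', if_neg (by omega), geo_zero h0,
      sub_zero]
  · intro n
    set u := max u0 (n0 + k') + 1 with hu
    rw [PowerSeries.coeff_X_pow_mul']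
    split_ifs with hun
    · have h1 := hup (n - u)
      have h2 := hlow n (by omega)
      have h3 : r ^ u ≤ c * r ^ k' / 2 :=
        (pow_le_pow_of_le_one hr0.le R.r1.le (by omega)).trans hu0.le
      have h4 : (r⁻¹) ^ (n - u) = r ^ u * (r⁻¹) ^ n := by
        obtain ⟨m, rfl⟩ : ∃ m, n = m + u := ⟨n - u, by omega⟩
        rw [Nat.add_sub_cancel, pow_add (r⁻¹) m u, mul_left_comm, ← mul_pow,
          mul_inv_cancel₀ hr0.ne', one_pow, mul_one]
      have h5 : 2 * ((PowerSeries.coeff (n - u) (gk s k) : ℤ) : ℝ) ≤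
          ((PowerSeries.coeff n (gk s k) : ℤ) : ℝ) := by
        rw [h4] at h1
        have h6 : r ^ u * (r⁻¹) ^ n ≤ c * r ^ k' / 2 * (r⁻¹) ^ n :=
          mul_le_mul_of_nonneg_right h3 (pow_pos hrinv _).le
        linarith
      exact_mod_cast h5
    · rw [mul_zero]
      exact hnn n

end Pool.Agent.SSE
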