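import Pool.Agent.SSE.Reach0
import Pool.Agent.SSE.BR1

/-!
# SSE bridge, BR8a: choice of the reservoir loops

`H` the hub series of the uncovered limit, `qB` the reserved loops.

Paper: `D` large (`hval`, and larger than two consecutive degrees `≥ d0, 3, deg qB + 1`); `s` = the
polynomial with coefficients `H_d - qB_d` for `3 ≤ d < D` (`0` otherwise), `k` its least degree,
`s = X^k + X n'`. `wn r s > 1`, so by continuity there is a root `0 < ρ < r` of `wn ρ s = 1`;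
two consecutive degrees give the gcd condition of `exists_ren`. `exists_res`. `e` any degree
`≥ D, d0`. `g (H - s)`: nonnegative coefficients `≥ g_(d-e)`, so its value at `r' < ρ` is at least
`r'^e g(r')` and `g(r') = (1 - r'^k)/(1 - s(r'))` is unbounded as `r' → ρ` (or: from the lower bound
`g_d ≥ κ ρ^(-d)` choose first `D'` and then `r'` close to `ρ`).
-/

set_option autoImplicit false

open scoped BigOperators
open Matrix Polynomial

namespace Pool.Agent.SSE

attribute [local instance] Classical.propDecidable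

/-- a series over `ℕ` as a series over `ℤ` -/
noncomputable def zS (f : PowerSeries ℕ) : PowerSeries ℤ := PowerSeries.map (Nat.castRingHom ℤ) f

private lemma br8a_coeff_zS (f : PowerSeries ℕ) (n : ℕ) :
    PowerSeries.coeff n (zS f) = ((PowerSeries.coeff n f : ℕ) : ℤ) := by
  unfold zS
  rw [PowerSeries.coeff_map]
  rfl

private lemma br8a_coeff_mul {f g : PowerSeries ℤ} (hf : ∀ n, 0 ≤ PowerSeries.coeff n f)
    (hg : ∀ n, 0 ≤ PowerSeries.coeff n g) (d : ℕ) : 0 ≤ PowerSeries.coeff d (f * g) := by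
  rw [PowerSeries.coeff_mul]
  exact Finset.sum_nonneg fun a _ => mul_nonneg (hf _) (hg _)

private lemma br8a_coeff_mul_ge {f g : PowerSeries ℤ} (hf : ∀ n, 0 ≤ PowerSeries.coeff n f)
    (hg : ∀ n, 0 ≤ PowerSeries.coeff n g) {e : ℕ} (he : 1 ≤ PowerSeries.coeff e g) (n : ℕ) :
    PowerSeries.coeff n f ≤ PowerSeries.coeff (n + e) (f * g) := by
  rw [PowerSeries.coeff_mul]
  have h1 : PowerSeries.coeff n f ≤ PowerSeries.coeff n f * PowerSeries.coeff e g := by
    nlinarith [hf n, he]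
  refine h1.trans ?_
  exact Finset.single_le_sum (f := fun a : ℕ × ℕ => PowerSeries.coeff a.1 f * PowerSeries.coeff a.2 g)
    (fun a _ => mul_nonneg (hf _) (hg _))
    (Finset.HasAntidiagonal.mem_antidiagonal.2 (rfl : (n, e).1 + (n, e).2 = n + e))

/-- the value of `g f` can be made large -/
private lemma br8a_large {g f : PowerSeries ℤ} {ρ κ : ℝ} {N u e : ℕ} (R : Res g ρ κ N u)
    (hf : ∀ n, 0 ≤ PowerSeries.coeff n f) (he : 1 ≤ PowerSeries.coeff e f) (Z : ℝ) :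
    ∃ r' : ℝ, 0 < r' ∧ r' < ρ ∧ ∃ D, Z < ∑ d ∈ Finset.range D,
        ((PowerSeries.coeff d (g * f) : ℤ) : ℝ) * r' ^ d := by
  have hρ := R.ρ0
  have hκ := R.κ0
  set q : ℝ := κ * (1 / 2) * (ρ / 2) ^ e with hq
  have hq0 : 0 < q := by positivity
  obtain ⟨M, hM⟩ := exists_nat_gt (Z / q)
  have hMq : Z < (M : ℝ) * q := by
    rwa [div_lt_iff₀ hq0] at hM
  set t : ℝ := 1 - 1 / (2 * ((N + M : ℕ) : ℝ) + 2) with ht
  have hden : (0 : ℝ) < 2 * ((N + M : ℕ) : ℝ) + 2 := by positivity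
  have hx0 : (0 : ℝ) < 1 / (2 * ((N + M : ℕ) : ℝ) + 2) := by positivity
  have hx1 : 1 / (2 * ((N + M : ℕ) : ℝ) + 2) ≤ (1 / 2 : ℝ) := by
    rw [div_le_div_iff₀ hden (by norm_num)]
    have : (0 : ℝ) ≤ ((N + M : ℕ) : ℝ) := Nat.cast_nonneg _
    linarith
  have ht0 : (1 / 2 : ℝ) ≤ t := by linarith
  have ht1 : t < 1 := by linarith
  have htp : (1 / 2 : ℝ) ≤ t ^ (N + M) := by
    have h1 := one_add_mul_le_pow (a := -(1 / (2 * ((N + M : ℕ) : ℝ) + 2))) (by linarith) (N + M)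
    have h2 : 1 + -(1 / (2 * ((N + M : ℕ) : ℝ) + 2)) = t := by rw [ht]; ring
    rw [h2] at h1
    refine le_trans ?_ h1
    have h3 : ((N + M : ℕ) : ℝ) * (1 / (2 * ((N + M : ℕ) : ℝ) + 2)) ≤ 1 / 2 := by
      rw [mul_one_div, div_le_div_iff₀ hden (by norm_num)]
      linarith
    linarith
  refine ⟨ρ * t, by positivity, by nlinarith, e + N + M, ?_⟩
  have hnn : ∀ d, 0 ≤ ((PowerSeries.coeff d (g * f) : ℤ) : ℝ) * (ρ * t) ^ d := fun d =>
    mul_nonneg (by exact_mod_cast br8a_coeff_mul R.nonneg hf d) (by positivity)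
  have h1 : ∑ d ∈ Finset.Ico (e + N) (e + N + M), ((PowerSeries.coeff d (g * f) : ℤ) : ℝ) *
      (ρ * t) ^ d ≤ ∑ d ∈ Finset.range (e + N + M), ((PowerSeries.coeff d (g * f) : ℤ) : ℝ) *
      (ρ * t) ^ d := by
    refine Finset.sum_le_sum_of_subset_of_nonneg ?_ fun d _ _ => hnn d
    intro d hd
    rw [Finset.mem_Ico] at hd
    exact Finset.mem_range.2 hd.2
  refine lt_of_lt_of_le ?_ h1
  have h2 : ∀ d ∈ Finset.Ico (e + N) (e + N + M), q ≤ ((PowerSeries.coeff d (g * f) : ℤ) : ℝ) *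
      (ρ * t) ^ d := by
    intro d hd
    rw [Finset.mem_Ico] at hd
    obtain ⟨n, rfl⟩ : ∃ n, d = n + e := ⟨d - e, by omega⟩
    have hn1 : N ≤ n := by omega
    have hn2 : n ≤ N + M := by omega
    have h3 : κ * (ρ⁻¹) ^ n ≤ ((PowerSeries.coeff (n + e) (g * f) : ℤ) : ℝ) :=
      (R.low n hn1).trans (by exact_mod_cast br8a_coeff_mul_ge R.nonneg hf he n)
    have h4 : κ * (ρ⁻¹) ^ n * (ρ * t) ^ (n + e) ≤ ((PowerSeries.coeff (n + e) (g * f) : ℤ) : ℝ) *
        (ρ * t) ^ (n + e) := mul_le_mul_of_nonneg_right h3 (by positivity)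
    refine le_trans ?_ h4
    have h5 : κ * (ρ⁻¹) ^ n * (ρ * t) ^ (n + e) = κ * t ^ n * (ρ * t) ^ e := by
      have h6 : (ρ⁻¹) ^ n * ρ ^ n = 1 := by
        rw [← mul_pow, inv_mul_cancel₀ hρ.ne', one_pow]
      calc κ * (ρ⁻¹) ^ n * (ρ * t) ^ (n + e) = κ * ((ρ⁻¹) ^ n * ρ ^ n) * t ^ n * (ρ * t) ^ e := by
            rw [pow_add, mul_pow ρ t n]; ring
        _ = κ * t ^ n * (ρ * t) ^ e := by rw [h6]; ring
    rw [h5, hq]
    have h7 : (1 / 2 : ℝ) ≤ t ^ n := htp.trans (pow_le_pow_of_le_one (by linarith) ht1.le hn2)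
    have h8 : (ρ / 2) ^ e ≤ (ρ * t) ^ e := pow_le_pow_left₀ (by positivity) (by nlinarith) e
    exact mul_le_mul (mul_le_mul_of_nonneg_left h7 hκ.le) h8 (by positivity) (by positivity)
  calc Z < (M : ℝ) * q := hMq
    _ = ∑ _d ∈ Finset.Ico (e + N) (e + N + M), q := by
        rw [Finset.sum_const, Nat.card_Ico, nsmul_eq_mul]
        congr 2
        omega
    _ ≤ _ := Finset.sum_le_sum h2

theorem choose_params {H : PowerSeries ℕ} {qB : ℕ[X]} {r : ℝ} (r0 : 0 < r) (r1 : r < 1)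
    (hq : ∀ d, qB.coeff d ≤ PowerSeries.coeff d H)
    (large : ∃ d0, ∀ d, d0 ≤ d → 1 ≤ PowerSeries.coeff d H)
    (hval : ∃ D, 1 < ∑ d ∈ Finset.Ico 3 D,
      (((PowerSeries.coeff d H : ℕ) : ℝ) - (qB.coeff d : ℝ)) * r ^ d) (Z : ℝ) :
    ∃ (s n' : ℕ[X]) (k e N u n0 : ℕ) (ρ c κ rm r' : ℝ),
      s = X ^ k + X ^ 1 * n' ∧ 3 ≤ k ∧ n' ≠ 0 ∧ n'.coeff 0 = 0 ∧ n'.coeff 1 = 0 ∧
      (∀ d, s.coeff d + qB.coeff d ≤ PowerSeries.coeff d H) ∧
      Ren s ρ c n0 ∧ Res (gk s k) ρ κ N u ∧ ρ < rm ∧ rm < r ∧ 0 < r' ∧ r' < ρ ∧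
      s.coeff e < PowerSeries.coeff e H ∧
      ∃ D, 2 * Z < ∑ d ∈ Finset.range D,
        ((PowerSeries.coeff d (gk s k * (zS H - ps (toZ s))) : ℤ) : ℝ) * r' ^ d := by
  obtain ⟨d0, hd0⟩ := large
  obtain ⟨D, hD⟩ := hval
  set m : ℕ := max d0 (max 3 (qB.natDegree + 1)) with hm
  have hm0 : d0 ≤ m := le_max_left _ _
  have hm4 : 3 ≤ m := le_trans (le_max_left _ _) (le_max_right _ _)
  have hmq : qB.natDegree + 1 ≤ m := le_trans (le_max_right _ _) (le_max_right _ _)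
  set D1 : ℕ := max D (m + 2) with hD1
  have hD1a : D ≤ D1 := le_max_left _ _
  have hD1b : m + 2 ≤ D1 := le_max_right _ _
  -- the polynomial `s`
  set s : ℕ[X] := ∑ d ∈ Finset.Ico 3 D1, monomial d (PowerSeries.coeff d H - qB.coeff d) with hs
  have hsc : ∀ n, s.coeff n = if 3 ≤ n ∧ n < D1 then PowerSeries.coeff n H - qB.coeff n else 0 := by
    intro n
    rw [hs, finsetSum_coeff]
    simp only [coeff_monomial]
    rw [Finset.sum_ite_eq']
    simp only [Finset.mem_Ico]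
  have hsle : ∀ d, s.coeff d + qB.coeff d ≤ PowerSeries.coeff d H := by
    intro d
    have := hq d
    rw [hsc]
    split_ifs <;> omega
  have hs0 : s.coeff 0 = 0 := by rw [hsc, if_neg (by omega)]
  have hsm : ∀ d, m ≤ d → d < D1 → s.coeff d ≠ 0 := by
    intro d hd1 hd2
    rw [hsc, if_pos ⟨by omega, hd2⟩]
    have h1 := hd0 d (by omega)
    have h2 : qB.coeff d = 0 := coeff_eq_zero_of_natDegree_lt (by omega)
    omega
  have hdeg : s.natDegree < D1 := by
    rw [Nat.lt_iff_add_one_le]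
    by_contra h
    push Not at h
    have h1 : s.coeff s.natDegree = 0 := by
      rw [hsc, if_neg (by omega)]
    have h2 : s ≠ 0 := fun h0 => hsm m le_rfl (by omega) (by rw [h0, coeff_zero])
    exact h2 (leadingCoeff_eq_zero.1 h1)
  have hwn : ∀ x : ℝ, wn x (toR (toZ s)) = ∑ d ∈ Finset.range D1, (s.coeff d : ℝ) * x ^ d :=
    fun x => wn_toZ_range x hdeg
  have hgt : 1 < wn r (toR (toZ s)) := by
    rw [hwn]
    have h1 : ∑ d ∈ Finset.Ico 3 D, (((PowerSeries.coeff d H : ℕ) : ℝ) - (qB.coeff d : ℝ)) * r ^ d ≤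
        ∑ d ∈ Finset.Ico 3 D1, (((PowerSeries.coeff d H : ℕ) : ℝ) - (qB.coeff d : ℝ)) * r ^ d := by
      refine Finset.sum_le_sum_of_subset_of_nonneg (Finset.Ico_subset_Ico_right hD1a)
        fun d _ _ => mul_nonneg ?_ (pow_nonneg r0.le _)
      have := hq d
      have h2 : ((qB.coeff d : ℕ) : ℝ) ≤ ((PowerSeries.coeff d H : ℕ) : ℝ) := by exact_mod_cast this
      linarith
    have h2 : ∑ d ∈ Finset.Ico 3 D1, (((PowerSeries.coeff d H : ℕ) : ℝ) - (qB.coeff d : ℝ)) * r ^ d =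
        ∑ d ∈ Finset.Ico 3 D1, (s.coeff d : ℝ) * r ^ d := by
      refine Finset.sum_congr rfl fun d hd => ?_
      rw [Finset.mem_Ico] at hd
      rw [hsc, if_pos hd, Nat.cast_sub (hq d)]
    have h3 : ∑ d ∈ Finset.Ico 3 D1, (s.coeff d : ℝ) * r ^ d ≤
        ∑ d ∈ Finset.range D1, (s.coeff d : ℝ) * r ^ d := by
      refine Finset.sum_le_sum_of_subset_of_nonneg ?_ fun d _ _ =>
        mul_nonneg (Nat.cast_nonneg _) (pow_nonneg r0.le _)
      intro d hd
      rw [Finset.mem_Ico] at hd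
      exact Finset.mem_range.2 hd.2
    linarith
  -- the root
  have hzero : wn 0 (toR (toZ s)) = 0 := by
    rw [hwn]
    refine Finset.sum_eq_zero fun d _ => ?_
    by_cases hd : d = 0
    · subst hd
      rw [hs0]
      simp
    · rw [zero_pow hd, mul_zero]
  have hcont : ContinuousOn (fun x : ℝ => wn x (toR (toZ s))) (Set.Icc 0 r) := by
    have : (fun x : ℝ => wn x (toR (toZ s))) =
        fun x => ∑ d ∈ Finset.range D1, (s.coeff d : ℝ) * x ^ d := funext hwn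
    rw [this]
    exact Continuous.continuousOn (by fun_prop)
  obtain ⟨ρ, hρm, hρ⟩ := intermediate_value_Icc r0.le hcont
    (show (1 : ℝ) ∈ Set.Icc (wn 0 (toR (toZ s))) (wn r (toR (toZ s))) from
      ⟨by rw [hzero]; norm_num, hgt.le⟩)
  simp only at hρ
  have hρ0 : 0 < ρ := by
    rcases hρm.1.lt_or_eq with h | h
    · exact h
    · rw [← h, hzero] at hρ
      norm_num at hρ
  have hρr : ρ < r := by
    rcases hρm.2.lt_or_eq with h | h
    · exact h
    · rw [h] at hρ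
      exact absurd hρ hgt.ne'
  -- renewal
  have hgcd : ∀ g : ℕ, (∀ d, s.coeff d ≠ 0 → g ∣ d) → g = 1 := by
    intro g hg
    have h1 := hg m (hsm m le_rfl (by omega))
    have h2 := hg (m + 1) (hsm (m + 1) (by omega) (by omega))
    exact Nat.dvd_one.1 ((Nat.dvd_add_right h1).1 h2)
  obtain ⟨c, n0, hRen⟩ := exists_ren hs0 hρ0 (hρr.trans r1) hρ hgcd
  -- the least degree
  have hex : ∃ d, s.coeff d ≠ 0 := ⟨m, hsm m le_rfl (by omega)⟩
  set k := Nat.find hex with hk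
  have hk1 : s.coeff k ≠ 0 := Nat.find_spec hex
  have hk4 : 3 ≤ k := by
    by_contra h
    exact hk1 (by rw [hsc, if_neg (by omega)])
  obtain ⟨s', hs'⟩ : ∃ s', s = X ^ k + s' := by
    apply exists_add_of_coeff_le
    intro n
    rw [coeff_X_pow]
    split_ifs with h
    · rw [h]
      omega
    · exact Nat.zero_le _
  have hs'c : ∀ n, n < 3 → s'.coeff n = 0 := by
    intro n hn
    have h1 : s.coeff n = 0 := by rw [hsc, if_neg (by omega)]
    rw [hs', coeff_add] at h1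
    omega
  have hs'ne : s' ≠ 0 := by
    intro h0
    rw [h0, add_zero] at hs'
    have h1 := hsm m le_rfl (by omega)
    have h2 := hsm (m + 1) (by omega) (by omega)
    rw [hs', coeff_X_pow] at h1 h2
    split_ifs at h1 h2
    · omega
    all_goals omega
  have hdiv : s' = X ^ 1 * s'.divX := by
    have := divX_mul_X_add s'
    rw [hs'c 0 (by norm_num), C_0, add_zero] at this
    rw [pow_one, mul_comm]
    exact this.symm
  obtain ⟨κ, N, u, hRes⟩ := exists_res hRen (by omega) hs' hs'ne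
  -- the large value
  have hf : ∀ n, 0 ≤ PowerSeries.coeff n (zS H - ps (toZ s)) := by
    intro n
    rw [map_sub, br8a_coeff_zS, coeff_ps, coeff_toZ]
    have := hsle n
    have : s.coeff n ≤ PowerSeries.coeff n H := by omega
    rw [sub_nonneg]
    exact_mod_cast this
  have hse : s.coeff D1 = 0 := by rw [hsc, if_neg (by omega)]
  have hHe : 1 ≤ PowerSeries.coeff D1 H := hd0 D1 (by omega)
  have he : 1 ≤ PowerSeries.coeff D1 (zS H - ps (toZ s)) := by
    rw [map_sub, br8a_coeff_zS, coeff_ps, coeff_toZ, hse]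
    simp only [Nat.cast_zero, sub_zero]
    exact_mod_cast hHe
  obtain ⟨r', hr'0, hr'1, hDD⟩ := br8a_large hRes hf he (2 * Z)
  refine ⟨s, s'.divX, k, D1, N, u, n0, ρ, c, κ, (ρ + r) / 2, r', ?_, hk4, ?_, ?_, ?_, hsle, hRen,
    hRes, by linarith, by linarith, hr'0, hr'1, ?_, hDD⟩
  · rw [← hdiv]
    exact hs'
  · intro h0
    rw [h0, mul_zero] at hdiv
    exact hs'ne hdiv
  · rw [coeff_divX]
    exact hs'c 1 (by norm_num)
  · rw [coeff_divX]
    exact hs'c 2 (by norm_num)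
  · rw [hse]
    omega

end Pool.Agent.SSE
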