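import Pool.Agent.SSE.BR8c

/-!
# SSE bridge, BR8d: one finite step (the covered presentation)
-/

set_option autoImplicit false

open scoped BigOperators
open Matrix Polynomial

namespace Pool.Agent.SSE

attribute [local instance] Classical.propDecidable

/-- the bound of the entries of the covered presentation -/
noncomputable def cB (r' ρ θ' BR : ℝ) (s n' : ℕ[X]) (k cd : ℕ) : ℝ :=
  1 + (1 + (BR + nv r' s + nv r' (X ^ (k - 1) + n'))) *
    (1 + ((1 - r' / ρ)⁻¹ * ((1 - θ')⁻¹ * (cd * BR)) + (1 - θ')⁻¹ * cd +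
      nv r' n' * (1 - r' / ρ)⁻¹))

/-- a row move bounds the new row -/
lemma norm_row {I : Type} [Fintype I] {P P' : Matrix I I ℕ[X]} {i : I} {c : I → ℤ[X]} {r B C : ℝ}
    (hr : 0 ≤ r) (hB0 : 0 ≤ B) (hB : ∀ l j, nv r (P l j) ≤ B) (hC : ∑ l, wn r (toR (c l)) ≤ C)
    (h : ∀ j, IP P' i j = IP P i j + ∑ l, c l * IP P l j) (j : I) :
    nv r (P' i j) ≤ 1 + (1 + B) * (1 + C) := by
  have h1 : ∀ l, wn r (toR (IP P l j)) ≤ 1 + B := by
    intro l
    have e1 : IP P l j = (if l = j then 1 else 0) - toZ (P l j) := rfl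
    rw [e1, map_sub]
    refine (wn_sub_le hr _ _).trans ?_
    rw [wn_eq_nv]
    refine add_le_add ?_ (hB l j)
    split_ifs
    · rw [map_one, wn_one]
    · rw [map_zero, wn_zero]
      exact zero_le_one
  have e2 : toZ (P' i j) = (if i = j then 1 else 0) - IP P' i j := by
    have e3 : IP P' i j = (if i = j then 1 else 0) - toZ (P' i j) := rfl
    rw [e3]
    ring
  rw [← wn_eq_nv, e2, map_sub]
  refine (wn_sub_le hr _ _).trans (add_le_add ?_ ?_)
  · split_ifs
    · rw [map_one, wn_one]
    · rw [map_zero, wn_zero]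
      exact zero_le_one
  · rw [h j, map_add, map_sum]
    refine (wn_add_le hr _ _).trans ?_
    have h2 : wn r (∑ l, toR (c l * IP P l j)) ≤ C * (1 + B) := by
      refine (wn_sum_le hr _ _).trans ?_
      calc ∑ l, wn r (toR (c l * IP P l j)) ≤ ∑ l, wn r (toR (c l)) * (1 + B) := by
            refine Finset.sum_le_sum fun l _ => ?_
            rw [map_mul]
            refine (wn_mul_le hr _ _).trans ?_
            exact mul_le_mul_of_nonneg_left (h1 l) (wn_nonneg hr _)
        _ = (∑ l, wn r (toR (c l))) * (1 + B) := by rw [Finset.sum_mul]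
        _ ≤ C * (1 + B) := mul_le_mul_of_nonneg_right hC (by linarith)
    have h3 := h1 i
    nlinarith

theorem cover_step {K : Type} [AddCommGroup K] [Module ℤ[X] K] {δ : ℤ[X]} {q : ℕ[X]}
    {S0 : PX K δ q} {I : Type} [Fintype I] {cl : I → K} {x : I} {Mb : Matrix I I ℤ[X]}
    {P : Matrix I I ℕ[X]} {L : Matrix I I (PowerSeries ℕ)} {s n' qB : ℕ[X]}
    {k e N u n0 a0 T T1 : ℕ} {ρ c κ rm r' r θ' B' BR : ℝ}
    (hAt : At S0 cl x Mb P) (irr : Irr P) (hP : IsPres P)
    (hRen : Ren s ρ c n0) (R : Res (gk s k) ρ κ N u) (hs : s = X ^ k + X ^ 1 * n') (hk : 3 ≤ k)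
    (hn0 : n'.coeff 0 = 0) (hn1 : n'.coeff 1 = 0)
    (hsL : ∀ d, s.coeff d + qB.coeff d ≤ PowerSeries.coeff d (L x x))
    (hse : s.coeff e < PowerSeries.coeff e (L x x))
    (hq : ∀ d, q.coeff d ≤ qB.coeff d)
    (zero : ∀ i j, PowerSeries.coeff 0 (L i j) = 0)
    (px : ∀ j, j ≠ x → L x j = 0)
    (off : ∀ i j, i ≠ x → j ≠ x → i ≠ j → L i j = 0)
    (hAg : ∀ i j, Ag T1 (P i j) (L i j)) (hT : T ≤ T1) (hTs : s.natDegree < T1) (hTe : e < T1)
    (hTq : qB.natDegree + 2 ≤ T)
    (r'0 : 0 < r') (r'ρ : r' < ρ) (hρ : ρ < rm) (hrm : rm ≤ r) (hr1 : rm < 1)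
    (hθ0 : 0 ≤ θ') (hθ1 : θ' < 1) (hθ : ∀ i, ∑ j, wn rm (toR (toZ (vM P x i j))) ≤ θ')
    (hB0 : 0 ≤ B') (hB : ∀ l, l ≠ x → wn rm (toR (toZ (P l x))) ≤ B')
    (ha0 : N + e ≤ a0) (ha1 : 2 ≤ a0)
    (hsmall : 2 * ((Fintype.card I : ℝ) * rm ^ a0 * ((1 - θ')⁻¹ * B')) ≤ κ * ρ ^ e)
    (hBR : ∀ i j, nv r (P i j) ≤ BR)
    (hsig : ∀ d, 2 * ((PowerSeries.coeff d (sig x (fun _ => a0) L) : ℕ) : ℤ) ≤
      PowerSeries.coeff d (gk s k * (zS (L x x) - ps (toZ s))))
    (hz : ∀ i j, PowerSeries.coeff 0 (covL x (fun _ => a0) s k L i j) = 0)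
    (hone : ∀ j, PowerSeries.coeff 1 (covL x (fun _ => a0) s k L (Sum.inl x) j) = 0)
    (hqc : ∀ d, qB.coeff d ≤
      PowerSeries.coeff d (covL x (fun _ => a0) s k L (Sum.inl x) (Sum.inl x))) :
    ∃ P'' : Matrix (I ⊕ Unit) (I ⊕ Unit) ℕ[X],
      At S0 (Sum.elim cl fun _ => toZ X • cl x) (Sum.inl x)
        (fromBlocks Mb 0 (of fun _ j => if j = x then - toZ X else 0) 1) P'' ∧
      (∀ i j, Ag T (P'' i j) (covL x (fun _ => a0) s k L i j)) ∧
      ∀ i j, nv r' (P'' i j) ≤ cB r' ρ θ' BR s n' k (Fintype.card I) := by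
  have hT1q : qB.natDegree + 2 ≤ T1 := hTq.trans hT
  -- the rest of the row `x`
  have hle : ∀ n, s.coeff n ≤ (P x x).coeff n := by
    intro n
    by_cases hn : n < T1
    · rw [hAg x x n hn]
      exact (Nat.le_add_right _ _).trans (hsL n)
    · rw [coeff_eq_zero_of_natDegree_lt (p := s) (by omega)]
      exact Nat.zero_le _
  obtain ⟨rx, hrx⟩ := exists_add_of_coeff_le hle
  have hrxc : ∀ n, n < T1 → rx.coeff n + s.coeff n = PowerSeries.coeff n (L x x) := by
    intro n hn
    rw [← hAg x x n hn, hrx, coeff_add, add_comm]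
  have hPxj : ∀ j, j ≠ x → ∀ d, d < T1 → (P x j).coeff d = 0 := by
    intro j hj d hd
    rw [hAg x j d hd, px j hj]
    simp
  set rr : I → ℕ[X] := fun j => if j = x then rx else P x j with hrrdef
  have hrrx : rr x = rx := if_pos rfl
  have hrrj : ∀ j, j ≠ x → rr j = P x j := fun j hj => if_neg hj
  have hrr : ∀ j, P x j = rr j + if j = x then s else 0 := by
    intro j
    by_cases hj : j = x
    · subst hj
      rw [hrrx, if_pos rfl, hrx, add_comm]
    · rw [hrrj j hj, if_neg hj, add_zero]
  have hmn : (X : ℕ[X]) * (X ^ (k - 1) + n') = s := by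
    rw [hs, mul_add, ← pow_succ', Nat.sub_add_cancel (by omega), pow_one]
  have hnn0 : (X ^ (k - 1) + n' : ℕ[X]).coeff 0 = 0 := by
    rw [coeff_add, coeff_X_pow, if_neg (by omega), hn0]
  have hnn1 : (X ^ (k - 1) + n' : ℕ[X]).coeff 1 = 0 := by
    rw [coeff_add, coeff_X_pow, if_neg (by omega), hn1]
  have hqrr : ∀ n, q.coeff n ≤ (rr x).coeff n := by
    intro n
    rw [hrrx]
    by_cases hn : n < T1
    · have h1 := hrxc n hn
      have h2 := hsL n
      have h3 := hq n
      omega
    · have h3 := hq n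
      rw [coeff_eq_zero_of_natDegree_lt (p := qB) (by omega)] at h3
      omega
  -- isolation
  have A1 : At S0 (Sum.elim cl fun _ => toZ X • cl x) (Sum.inl x)
      (fromBlocks Mb 0 (of fun _ j => if j = x then - toZ X else 0) 1)
      (finM P x s (X ^ 1) rr rr (X ^ (k - 1) + n')) := by
    have := hAt.isolate x (mm := X) (nn := X ^ (k - 1) + n') coeff_X_zero hnn0 rr
      (by rw [hmn]; exact hrr) (fun _ => hqrr) (fun _ => hnn1)
    rw [hmn] at this
    rw [pow_one]
    exact this
  -- the final row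
  have hrxe : 1 ≤ rx.coeff e := by
    have := hrxc e hTe
    omega
  have hPxx : P x x ≠ 0 := by
    intro h0
    have h1 := congrArg (fun p => p.coeff e) hrx
    simp only [h0, coeff_zero, coeff_add] at h1
    omega
  obtain ⟨n, hn⟩ := exists_reach P x irr hPxx
  obtain ⟨m0, hm0⟩ := exists_m R hP hρ hθ0 hθ1 hθ (fun _ => a0) n hn
  set m := max m0 T with hm
  have hxp : ∀ d, 2 * (((∑ l, Wm P x (fun _ => a0) m l * P l x).coeff d : ℕ) : ℤ) ≤
      PowerSeries.coeff d (gk s k * ps (toZ (rr x))) := by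
    intro d
    rw [hrrx]
    exact xpart R hP hρ hr1 hθ0 hθ1 hB0 hθ hB hrxe (fun _ => a0) a0 (fun _ => le_rfl) ha0
      hsmall m d
  have hi := idl_nonneg R (fun _ => a0) m n rr (hm0 m (le_max_left _ _)) hxp
  obtain ⟨D0, hD0⟩ := final_row (K := 1) hP one_pos (by omega) hs hn0 rr hrr R.upos R.nonneg
    (fun _ => a0) (fun _ => by omega) m n hi
  obtain ⟨fx, fw, c, hcx, hcX, hrel, hfx, hfw, hcw, hcl⟩ := hD0 (max D0 T) (le_max_left _ _)
  have hDT : T ≤ max D0 T := le_max_right _ _
  -- agreement
  have ag : ∀ i j, Ag T (finM P x s (X ^ 1) rr fx fw i j) (covL x (fun _ => a0) s k L i j) := by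
    rintro (i | i) (j | j) d hd
    · by_cases hix : i = x
      · subst hix
        have e1 : finM P i s (X ^ 1) rr fx fw (Sum.inl i) (Sum.inl j) = fx j := by
          change (if i = i then fx j else P i j) = fx j
          rw [if_pos rfl]
        rw [e1]
        have h1 := hfx j d (lt_of_lt_of_le hd hDT)
        have hGV : ∀ l d', d' < T1 →
            PowerSeries.coeff d' (GV P i (gk s k) u n l) = 0 := fun l d' hd' =>
          GV_coeff_lt T1 hPxj n l d' hd'
        have hGVs : ∀ (l : I) (p : ℕ[X]), PowerSeries.coeff d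
            (GV P i (gk s k) u n l * ps (toZ p)) = 0 := by
          intro l p
          rw [PowerSeries.coeff_mul]
          refine Finset.sum_eq_zero fun b hb => ?_
          have hb' := Finset.HasAntidiagonal.mem_antidiagonal.1 hb
          rw [hGV l b.1 (by omega), zero_mul]
        by_cases hj : j = i
        · subst hj
          unfold idl at h1
          rw [if_pos rfl, map_sub, map_add, map_sum,
            Finset.sum_eq_zero fun l _ => hGVs l _, add_zero, coeff_ps, coeff_toZ,
            ag_Wm (fun i j => (hAg i j).mono hT) zero off (fun _ => a0) (le_max_right m0 T) d hd]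
            at h1
          have h2 := covL_xx_cast (k := k) hsig d
          have h3 : PowerSeries.coeff d (gk s k * ps (toZ (rr j))) =
              PowerSeries.coeff d (gk s k * (zS (L j j) - ps (toZ s))) := by
            refine coeff_mul_congr fun b hb => ?_
            rw [coeff_diff, coeff_ps, coeff_toZ, hrrx]
            have := hrxc b (by omega)
            omega
          rw [h3, ← h2] at h1
          exact_mod_cast h1
        · unfold idl at h1
          rw [if_neg hj] at h1
          unfold NV at h1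
          rw [map_sub, map_add, map_sub, map_add, map_sum,
            Finset.sum_eq_zero fun l _ => hGVs l _, add_zero, hGV j d (by omega), sub_zero,
            coeff_ps, coeff_toZ, coeff_ps, coeff_toZ] at h1
          have h2 : ((vt i (fun _ => a0) ᵥ* (vM P i) ^ m) j).coeff d = 0 := by
            refine pow_order (fun l j => ?_) _ m j d (lt_of_lt_of_le hd (le_max_right m0 T))
            unfold vM
            split_ifs
            · simp
            · exact hP l j
          have h3 : PowerSeries.coeff d (gk s k * ps (toZ (vy P i j))) = 0 := by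
            rw [PowerSeries.coeff_mul]
            refine Finset.sum_eq_zero fun b hb => ?_
            have hb' := Finset.HasAntidiagonal.mem_antidiagonal.1 hb
            rw [coeff_ps, coeff_toZ]
            unfold vy
            rw [if_neg hj, hPxj j hj b.2 (by omega)]
            simp
          rw [h2, h3] at h1
          unfold vt at h1
          rw [if_neg hj] at h1
          rw [covL_xj hj]
          have h4 : (fx j).coeff d = (X ^ a0 : ℕ[X]).coeff d := by
            have : ((fx j).coeff d : ℤ) = ((X ^ a0 : ℕ[X]).coeff d : ℤ) := by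
              rw [h1]
              simp
            exact_mod_cast this
          rw [h4, Polynomial.coeff_X_pow, PowerSeries.coeff_X_pow]
      · have e1 : finM P x s (X ^ 1) rr fx fw (Sum.inl i) (Sum.inl j) = P i j := by
          change (if i = x then fx j else P i j) = P i j
          rw [if_neg hix]
        rw [e1, covL_lj hix]
        exact hAg i j d (by omega)
    · by_cases hix : i = x
      · subst hix
        have e1 : finM P i s (X ^ 1) rr fx fw (Sum.inl i) (Sum.inr j) = fw := by
          change (if i = i then fw else 0) = fw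
          rw [if_pos rfl]
        rw [e1, hfw d (lt_of_lt_of_le hd hDT), covL_xw, Polynomial.coeff_X_pow,
          PowerSeries.coeff_X_pow]
      · have e1 : finM P x s (X ^ 1) rr fx fw (Sum.inl i) (Sum.inr j) = 0 := by
          change (if i = x then fw else 0) = 0
          rw [if_neg hix]
        rw [e1, covL_lw hix]
        simp
    · have e1 : finM P x s (X ^ 1) rr fx fw (Sum.inr i) (Sum.inl j) = X * rr j := by
        change X ^ 1 * rr j = X * rr j
        rw [pow_one]
      rw [e1]
      by_cases hj : j = x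
      · subst hj
        rw [covL_wx, hrrx]
        cases d with
        | zero => simp
        | succ d =>
          rw [Polynomial.coeff_X_mul, PowerSeries.coeff_succ_X_mul, PowerSeries.coeff_mk]
          have := hrxc d (by omega)
          omega
      · rw [covL_wj hj, hrrj j hj]
        cases d with
        | zero => simp
        | succ d =>
          rw [Polynomial.coeff_X_mul, hPxj j hj d (by omega)]
          simp
    · change s.coeff d = _
      rw [covL_ww, Polynomial.coeff_coe]
  have hpres : IsPres (finM P x s (X ^ 1) rr fx fw) := by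
    intro i j
    rw [ag i j 0 (by omega)]
    exact hz i j
  have hP'' : At S0 (Sum.elim cl fun _ => toZ X • cl x) (Sum.inl x)
      (fromBlocks Mb 0 (of fun _ j => if j = x then - toZ X else 0) 1)
      (finM P x s (X ^ 1) rr fx fw) := by
    refine A1.row hpres ?_ ?_ (Sum.inl x) ?_ c hcx hcX hrel
    · intro d
      by_cases hd : d < T
      · rw [ag _ _ d hd]
        exact (hq d).trans (hqc d)
      · have h3 := hq d
        rw [coeff_eq_zero_of_natDegree_lt (p := qB) (by omega)] at h3
        omega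
    · intro j
      rw [ag _ _ 1 (by omega)]
      exact hone j
    · rintro (l | l) hl
      · have hlx : l ≠ x := fun e => hl (by rw [e])
        funext j
        rcases j with j | j
        · change (if l = x then fx j else P l j) = (if l = x then rr j else P l j)
          rw [if_neg hlx, if_neg hlx]
        · change (if l = x then fw else 0) = (if l = x then X ^ (k - 1) + n' else 0)
          rw [if_neg hlx, if_neg hlx]
      · rfl
  refine ⟨_, hP'', ag, ?_⟩
  -- norms
  have r0 : 0 < r := (r'0.trans r'ρ).trans (hρ.trans_le hrm)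
  have r'r : r' ≤ r := (r'ρ.trans (hρ.trans_le hrm)).le
  have r'rm : r' ≤ rm := (r'ρ.trans hρ).le
  have r'1 : r' ≤ 1 := r'rm.trans hr1.le
  have hBR0 : 0 ≤ BR := le_trans (nv_nonneg r0.le _) (hBR x x)
  have hBR' : ∀ i j, nv r' (P i j) ≤ BR := fun i j =>
    (nv_mono_r r'0.le r'r _).trans (hBR i j)
  have hns : 0 ≤ nv r' s := nv_nonneg r'0.le _
  have hnn : 0 ≤ nv r' (X ^ (k - 1) + n') := nv_nonneg r'0.le _
  have hnn' : 0 ≤ nv r' n' := nv_nonneg r'0.le _
  have hrrle : ∀ j, nv r' (rr j) ≤ BR := by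
    intro j
    refine le_trans (nv_mono r'0.le fun d => ?_) (hBR' x j)
    rw [hrr j, coeff_add]
    exact Nat.le_add_right _ _
  have hrr0 : ∀ j, 0 ≤ nv r' (rr j) := fun j => nv_nonneg r'0.le _
  set B1 : ℝ := BR + nv r' s + nv r' (X ^ (k - 1) + n') with hB1
  have hB10 : 0 ≤ B1 := by positivity
  have b1 : ∀ l j, nv r' (finM P x s (X ^ 1) rr rr (X ^ (k - 1) + n') l j) ≤ B1 := by
    rintro (l | l) (j | j)
    · change nv r' (if l = x then rr j else P l j) ≤ B1
      split_ifs
      · have := hrrle j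
        linarith
      · have := hBR' l j
        linarith
    · change nv r' (if l = x then X ^ (k - 1) + n' else 0) ≤ B1
      split_ifs
      · linarith
      · rw [map_zero]
        exact hB10
    · change nv r' (X ^ 1 * rr j) ≤ B1
      rw [pow_one, map_mul, nv_X]
      have h1 : r' * nv r' (rr j) ≤ nv r' (rr j) := mul_le_of_le_one_left (hrr0 j) r'1
      have := hrrle j
      linarith
    · change nv r' s ≤ B1
      linarith
  have hθ' : ∀ i, ∑ j, wn r' (toR (toZ (vM P x i j))) ≤ θ' := by
    intro i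
    refine le_trans (Finset.sum_le_sum fun j _ => ?_) (hθ i)
    rw [wn_eq_nv, wn_eq_nv]
    exact nv_mono_r r'0.le r'rm _
  have hvy : ∑ j, wn r' (toR (toZ (vy P x j))) ≤ (Fintype.card I : ℝ) * BR := by
    have : ∀ j ∈ (Finset.univ : Finset I), wn r' (toR (toZ (vy P x j))) ≤ BR := by
      intro j _
      rw [wn_eq_nv]
      unfold vy
      split_ifs
      · rw [map_zero]
        exact hBR0
      · exact hBR' x j
    refine (Finset.sum_le_sum this).trans ?_
    rw [Finset.sum_const, nsmul_eq_mul, Finset.card_univ]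
  have hi1 : 0 ≤ (1 - r' / ρ)⁻¹ := by
    have : r' / ρ < 1 := (div_lt_one R.ρ0).2 r'ρ
    exact inv_nonneg.2 (by linarith)
  have hi2 : 0 ≤ (1 - θ')⁻¹ := inv_nonneg.2 (by linarith)
  have hC : ∑ l, wn r' (toR (c l)) ≤ (1 - r' / ρ)⁻¹ * ((1 - θ')⁻¹ * (Fintype.card I * BR)) +
      (1 - θ')⁻¹ * Fintype.card I + nv r' n' * (1 - r' / ρ)⁻¹ := by
    rw [Fintype.sum_sum_type]
    simp only [Finset.univ_unique, Finset.sum_singleton]
    refine add_le_add ?_ ?_
    · refine (Finset.sum_le_sum fun l _ => hcl r' r'0 l).trans ?_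
      rw [Finset.sum_add_distrib]
      refine add_le_add ?_ (wn_Wm r'0 r'1 hθ0 hθ1 hθ' _ m)
      refine (sN_GV R r'0 r'ρ r'1 hθ0 hθ1 hθ' n _).trans ?_
      exact mul_le_mul_of_nonneg_left (mul_le_mul_of_nonneg_left hvy hi2) hi1
    · refine (hcw r' r'0).trans ?_
      rw [← wn_eq_nv r' n']
      exact sN_geo hRen r'0 r'ρ n' _
  have hC0 : 0 ≤ (1 - r' / ρ)⁻¹ * ((1 - θ')⁻¹ * (Fintype.card I * BR)) +
      (1 - θ')⁻¹ * Fintype.card I + nv r' n' * (1 - r' / ρ)⁻¹ := by positivity
  have hcB : cB r' ρ θ' BR s n' k (Fintype.card I) = 1 + (1 + B1) *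
      (1 + ((1 - r' / ρ)⁻¹ * ((1 - θ')⁻¹ * (Fintype.card I * BR)) +
      (1 - θ')⁻¹ * Fintype.card I + nv r' n' * (1 - r' / ρ)⁻¹)) := rfl
  rw [hcB]
  have hbig : B1 ≤ 1 + (1 + B1) *
      (1 + ((1 - r' / ρ)⁻¹ * ((1 - θ')⁻¹ * (Fintype.card I * BR)) +
      (1 - θ')⁻¹ * Fintype.card I + nv r' n' * (1 - r' / ρ)⁻¹)) := by
    nlinarith
  intro i j
  by_cases hix : i = Sum.inl x
  · rw [hix]
    exact norm_row r'0.le hB10 b1 hC hrel j
  · refine le_trans (le_trans (le_of_eq ?_) (b1 i j)) hbig
    congr 1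
    rcases i with l | l
    · have hlx : l ≠ x := fun e => hix (by rw [e])
      rcases j with j | j
      · change (if l = x then fx j else P l j) = (if l = x then rr j else P l j)
        rw [if_neg hlx, if_neg hlx]
      · change (if l = x then fw else 0) = (if l = x then X ^ (k - 1) + n' else 0)
        rw [if_neg hlx, if_neg hlx]
    · rfl

end Pool.Agent.SSE
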