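import Pool.Agent.SSE.BR7
import Pool.Agent.SSE.BR6
import Pool.Agent.SSE.BR4
import Pool.Agent.SSE.BR8a
import Pool.Agent.SSE.BR8d

/-!
# SSE bridge, BR8: from the uncovered limit to the covered limit

`HubLim`: the limit of Theorem H (row `x` = `H e_x`, row `v` = `c_v e_v + q_v e_x`).
`CovLim`: all generators are visible in the row `x`.

Proof: /team-store/c782ad_h73_bridge.md. Choices (depend on `L`, `qB`, `Z` only): `K = 1`,
`s` a polynomial with degrees `≥ 3`, `s + qB ≤ L x x`, two consecutive degrees, `wn r s > 1`;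
`ρ < r` its root (`exists_ren`); `k` the least degree of `s`, `s = X^k + X n'`; `Res (gk s k) ρ κ N u`;
`e` a degree of `L x x - s`; `r⁻` between `ρ` and `r`; `θ' = (θ+1)/2`; `r' < ρ` so close to `ρ` that
`1/2 ∑ (g (L x x - s))_d r'^d > Z`; `a0` large, `a = fun _ => a0`.
For a state `P` close to `L` mod `t^T`, `T` large: `At.isolate` (`mm = X`, `nn = X^(k-1) + n'`),
`exists_reach`, `exists_m`, `xpart`, `idl_nonneg`, `final_row`, `At.row`. The limit of the row `x`:
column `x` the series `g (L x x - s) - ∑_v X^a0 (∑_i c_v^i) q_v`, column `v` the cover `X^a0`, column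
`w` `X^(k-1)`.
-/

set_option autoImplicit false

open scoped BigOperators
open Matrix Polynomial

namespace Pool.Agent.SSE

attribute [local instance] Classical.propDecidable

/-- the uncovered limit -/
structure HubLim {I : Type} [Fintype I] (x : I) (r θ B : ℝ) (L : Matrix I I (PowerSeries ℕ)) :
    Prop where
  r0 : 0 < r
  r1 : r < 1
  θ0 : 0 ≤ θ
  θ1 : θ < 1
  zero : ∀ i j, PowerSeries.coeff 0 (L i j) = 0
  px : ∀ j, j ≠ x → L x j = 0
  off : ∀ i j, i ≠ x → j ≠ x → i ≠ j → L i j = 0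
  q : ∀ v, v ≠ x → L v x ≠ 0
  norm : ∀ i j D, nv r (PowerSeries.trunc D (L i j)) ≤ B
  diag : ∀ v, v ≠ x → ∀ D, nv r (PowerSeries.trunc D (L v v)) ≤ θ
  low : ∀ d, d < 2 → PowerSeries.coeff d (L x x) = 0
  large : ∃ d0, ∀ d, d0 ≤ d → 1 ≤ PowerSeries.coeff d (L x x)

/-- the covered limit -/
structure CovLim {I : Type} [Fintype I] (x : I) (r Z : ℝ) (qB : ℕ[X])
    (L : Matrix I I (PowerSeries ℕ)) : Prop where
  r0 : 0 < r
  r1 : r < 1
  zero : ∀ i j, PowerSeries.coeff 0 (L i j) = 0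
  one : ∀ j, PowerSeries.coeff 1 (L x j) = 0
  col : ∀ v, v ≠ x → ∃ a, 1 ≤ PowerSeries.coeff a (L x v)
  row : ∀ v, v ≠ x → ∃ b, 1 ≤ PowerSeries.coeff b (L v x)
  q : ∀ d, qB.coeff d ≤ PowerSeries.coeff d (L x x)
  val : ∃ D, Z < nv r (PowerSeries.trunc D (L x x))
  large : ∃ d0, ∀ d, d0 ≤ d → 1 ≤ PowerSeries.coeff d (L x x)

private lemma br8_small {r M ε : ℝ} (r0 : 0 ≤ r) (r1 : r < 1) (hM : 0 ≤ M) (hε : 0 < ε) :
    ∃ a1 : ℕ, ∀ a, a1 ≤ a → r ^ a * M ≤ ε := by
  obtain ⟨a1, ha1⟩ := exists_pow_lt_of_lt_one (div_pos hε (show 0 < M + 1 by linarith)) r1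
  refine ⟨a1, fun a ha => ?_⟩
  have h1 : r ^ a ≤ ε / (M + 1) := (pow_le_pow_of_le_one r0 r1.le ha).trans ha1.le
  calc r ^ a * M ≤ ε / (M + 1) * (M + 1) :=
        mul_le_mul h1 (by linarith) hM (div_nonneg hε.le (by linarith))
    _ = ε := by
        field_simp

theorem cover {K : Type} [AddCommGroup K] [Module ℤ[X] K] {δ : ℤ[X]} {I : Type} [Fintype I]
    {x : I} {r θ B : ℝ} {L : Matrix I I (PowerSeries ℕ)} (hL : HubLim x r θ B L) (qB : ℕ[X])
    (hqB : ∀ d, qB.coeff d ≤ PowerSeries.coeff d (L x x))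
    (hval : ∃ D, 1 < ∑ d ∈ Finset.Ico 3 D,
      (((PowerSeries.coeff d (L x x) : ℕ) : ℝ) - (qB.coeff d : ℝ)) * r ^ d) (Z : ℝ) :
    ∃ (L' : Matrix (I ⊕ Unit) (I ⊕ Unit) (PowerSeries ℕ)) (r' : ℝ),
      CovLim (Sum.inl x) r' Z qB L' ∧
      ∀ (q : ℕ[X]), (∀ d, q.coeff d ≤ qB.coeff d) → ∀ (S0 : PX K δ q),
        (∀ {J : Type} [Fintype J] (P : Matrix J J ℕ[X]), IsPres P → PEqv P S0.P → Irr P) →
        ∀ (cl : I → K), Reach S0 cl x r L →
          Reach S0 (Sum.elim cl fun _ => toZ X • cl x) (Sum.inl x) r' L' := by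
  have r0 := hL.r0
  have r1 := hL.r1
  obtain ⟨s, n', k, e, N, u, n0, ρ, c, κ, rm, r', hs, hk, hn'ne, hn0, hn1, hsL, hRen, R, hρrm,
    hrmr, r'0, r'ρ, hse, D, hD⟩ := choose_params r0 r1 hqB hL.large hval Z
  have hρ0 := R.ρ0
  have rm0 : 0 < rm := hρ0.trans hρrm
  have rm1 : rm < 1 := hrmr.trans r1
  have hB0 : 0 ≤ B := le_trans (nv_nonneg r0.le _) (hL.norm x x 0)
  have hsL' : ∀ d, s.coeff d ≤ PowerSeries.coeff d (L x x) := fun d =>
    (Nat.le_add_right _ _).trans (hsL d)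
  -- `θ'`
  set θ' : ℝ := (θ + 1) / 2 with hθ'
  have θ'0 : 0 ≤ θ' := by
    have := hL.θ0
    rw [hθ']
    linarith
  have θ'1 : θ' < 1 := by
    have := hL.θ1
    rw [hθ']
    linarith
  have hθθ' : θ ≤ θ' := by
    have := hL.θ1
    rw [hθ']
    linarith
  have hi2 : 0 ≤ (1 - θ')⁻¹ := inv_nonneg.2 (by linarith)
  -- `a0`
  have hκρ : 0 < κ * ρ ^ e := mul_pos R.κ0 (pow_pos hρ0 _)
  obtain ⟨a1, ha1⟩ := br8_small rm0.le rm1
    (show 0 ≤ 2 * ((Fintype.card I : ℝ) * ((1 - θ')⁻¹ * (B + 1))) by positivity) hκρ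
  set a0 : ℕ := a1 + (N + e) + qB.natDegree + 2 with ha0
  have hsmall : 2 * ((Fintype.card I : ℝ) * rm ^ a0 * ((1 - θ')⁻¹ * (B + 1))) ≤ κ * ρ ^ e := by
    refine le_trans (le_of_eq ?_) (ha1 a0 (by omega))
    ring
  have hsig : ∀ d, 2 * ((PowerSeries.coeff d (sig x (fun _ => a0) L) : ℕ) : ℤ) ≤
      PowerSeries.coeff d (gk s k * (zS (L x x) - ps (toZ s))) := by
    refine sig_le R hρrm rm1 θ'0 θ'1 (show 0 ≤ B + 1 by linarith) hL.zero hL.off
      (fun l hl D => ?_) (fun v hv D => ?_) hsL' hse (fun _ => a0) (fun _ => le_rfl) (by omega)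
      hsmall
    · have := (nv_mono_r rm0.le hrmr.le _).trans (hL.norm l x D)
      linarith
    · exact ((nv_mono_r rm0.le hrmr.le _).trans (hL.diag v hv D)).trans hθθ'
  have hz := covL_zero (k := k) (a := fun _ => a0) hL.zero hL.low hsL' hk (fun _ => by omega)
  have hone := covL_one (k := k) (a := fun _ => a0) hL.low hsL' hk (fun _ => by omega)
  have hqc := covL_q (a := fun _ => a0) R hsL (fun _ => le_rfl) (show qB.natDegree < a0 by omega)
  refine ⟨covL x (fun _ => a0) s k L, r', ⟨r'0, by linarith, hz, hone, ?_, ?_, hqc,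
    ⟨D, covL_val r'0.le hsig hD⟩, ⟨N + e, covL_large R hsL hsig hse⟩⟩, ?_⟩
  · rintro (v | v) hv
    · have hvx : v ≠ x := fun h => hv (by rw [h])
      refine ⟨a0, ?_⟩
      rw [covL_xj hvx, PowerSeries.coeff_X_pow, if_pos rfl]
    · refine ⟨k - 1, ?_⟩
      rw [covL_xw, PowerSeries.coeff_X_pow, if_pos rfl]
  · rintro (v | v) hv
    · have hvx : v ≠ x := fun h => hv (by rw [h])
      have h1 := hL.q v hvx
      obtain ⟨b, hb⟩ : ∃ b, PowerSeries.coeff b (L v x) ≠ 0 := by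
        by_contra hcon
        push Not at hcon
        exact h1 (PowerSeries.ext fun n => by rw [hcon n]; simp)
      refine ⟨b, ?_⟩
      rw [covL_lj hvx]
      omega
    · refine ⟨e + 1, ?_⟩
      rw [covL_wx, PowerSeries.coeff_succ_X_mul, PowerSeries.coeff_mk]
      omega
  -- the states
  intro q hq S0 irr cl hR
  rw [reach_iff] at hR ⊢
  obtain ⟨BR, Mb, hR⟩ := hR
  have hBR0 : 0 ≤ BR := by
    obtain ⟨P, -, -, hP⟩ := hR 0
    exact le_trans (nv_nonneg r0.le _) (hP x x)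
  have hθ1' : 0 < (1 - θ) / 2 := by
    have := hL.θ1
    linarith
  obtain ⟨t1, ht1⟩ := br8_small (r := rm / r) (by positivity) ((div_lt_one r0).2 hrmr)
    (show 0 ≤ (Fintype.card I : ℝ) * BR by positivity) hθ1'
  obtain ⟨t2, ht2⟩ := br8_small (r := rm / r) (by positivity) ((div_lt_one r0).2 hrmr)
    hBR0 one_pos
  refine ⟨cB r' ρ θ' BR s n' k (Fintype.card I),
    fromBlocks Mb 0 (of fun _ j => if j = x then - toZ X else 0) 1, fun T => ?_⟩
  set T0 : ℕ := T + (qB.natDegree + 2) with hT0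
  set T1 : ℕ := T0 + (s.natDegree + 1) + (e + 1) + t1 + t2 with hT1
  obtain ⟨P, hAt, hAg, hBR⟩ := hR T1
  have hPres : IsPres P := by
    obtain ⟨h, -⟩ := hAt
    exact h.pres
  have hη1 := ht1 T1 (by omega)
  have hη2 := ht2 T1 (by omega)
  have hη0 : 0 ≤ (rm / r) ^ T1 := by positivity
  have hent : ∀ i j, nv rm (P i j) ≤ nv rm (PowerSeries.trunc T1 (L i j)) + (rm / r) ^ T1 * BR :=
    fun i j => (nv_le_of_ag rm0 hrmr.le (hAg i j)).trans
      (by
        have := mul_le_mul_of_nonneg_left (hBR i j) hη0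
        linarith)
  have hθ : ∀ i, ∑ j, wn rm (toR (toZ (vM P x i j))) ≤ θ' := by
    intro i
    by_cases hi : i = x
    · rw [Finset.sum_eq_zero]
      · exact θ'0
      · intro j _
        unfold vM
        rw [if_pos (Or.inl hi), wn_eq_nv, map_zero]
    · have h1 : ∀ j ∈ (Finset.univ : Finset I), wn rm (toR (toZ (vM P x i j))) ≤
          (if j = i then θ else 0) + (rm / r) ^ T1 * BR := by
        intro j _
        rw [wn_eq_nv]
        unfold vM
        by_cases hjx : j = x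
        · rw [if_pos (Or.inr hjx), map_zero]
          have : 0 ≤ (rm / r) ^ T1 * BR := by positivity
          have h0 := hL.θ0
          split_ifs <;> linarith
        · rw [if_neg (by tauto)]
          refine (hent i j).trans (add_le_add ?_ le_rfl)
          by_cases hji : j = i
          · rw [if_pos hji, hji]
            exact (nv_mono_r rm0.le hrmr.le _).trans (hL.diag i hi T1)
          · rw [if_neg hji, hL.off i j hi hjx (Ne.symm hji)]
            simp
      refine (Finset.sum_le_sum h1).trans ?_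
      rw [Finset.sum_add_distrib, Finset.sum_ite_eq' Finset.univ i, if_pos (Finset.mem_univ i),
        Finset.sum_const, nsmul_eq_mul, Finset.card_univ]
      have h2 : (Fintype.card I : ℝ) * ((rm / r) ^ T1 * BR) ≤ (1 - θ) / 2 := by
        refine le_trans (le_of_eq ?_) hη1
        ring
      rw [hθ']
      linarith
  have hB : ∀ l, l ≠ x → wn rm (toR (toZ (P l x))) ≤ B + 1 := by
    intro l _
    rw [wn_eq_nv]
    refine (hent l x).trans (add_le_add ?_ hη2)
    exact (nv_mono_r rm0.le hrmr.le _).trans (hL.norm l x T1)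
  obtain ⟨P'', h1, h2, h3⟩ := cover_step (T := T0) (T1 := T1) hAt (irr P hPres hAt.peqv) hPres hRen
    R hs hk hn0 hn1 hsL hse hq hL.zero hL.px hL.off hAg (by omega) (by omega) (by omega) (by omega)
    r'0 r'ρ hρrm hrmr.le rm1 θ'0 θ'1 hθ (by linarith) hB (by omega) (by omega) hsmall hBR hsig hz
    hone hqc
  exact ⟨P'', h1, fun i j => (h2 i j).mono (by omega), h3⟩

end Pool.Agent.SSE
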