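import Pool.Agent.SSE.HFin
import Pool.Agent.SSE.BR8

/-!
# SSE project, hub part, HLim: a common limit of two pure hub states as input of the bridge
-/

set_option autoImplicit false

open scoped BigOperators
open Matrix Polynomial

namespace Pool.Agent.SSE

attribute [local instance] Classical.propDecidable

lemma toZS_injective : Function.Injective toZS := by
  intro f g h
  ext n
  have h1 := congrArg (PowerSeries.coeff n) h
  unfold toZS at h1
  rw [PowerSeries.coeff_map, PowerSeries.coeff_map] at h1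
  simpa using h1

lemma exists_theta {Y : Type} [Fintype Y] (f : Y → ℝ) (h : ∀ y, f y < 1) :
    ∃ θ : ℝ, 0 ≤ θ ∧ θ < 1 ∧ ∀ y, f y ≤ θ := by
  rcases isEmpty_or_nonempty Y with h0 | h0
  · exact ⟨0, le_rfl, one_pos, fun y => (h0.false y).elim⟩
  · obtain ⟨y0, hy0⟩ := Finite.exists_max f
    exact ⟨max 0 (f y0), le_max_left _ _, max_lt one_pos (h y0), fun y => (hy0 y).trans (le_max_right _ _)⟩

/-- values of truncations -/
lemma lim_nv_trunc_le {r : ℝ} (hr : 0 ≤ r) {f : PowerSeries ℕ} (hf : FN r (toZS f)) (D : ℕ) :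
    nv r (PowerSeries.trunc D f) ≤ sn r (toZS f) := by
  rw [nv_range (trunc_coeff_ge D f)]
  have h1 : ∀ k, ((PowerSeries.trunc D f).coeff k : ℝ) * r ^ k ≤
      ‖PowerSeries.coeff k (HN.toRS (toZS f))‖ * r ^ k := by
    intro k
    refine mul_le_mul_of_nonneg_right ?_ (pow_nonneg hr k)
    rw [HN.coeff_toRS, coeff_toZS]
    have h2 := trunc_coeff_le D f k
    have h3 : ((PowerSeries.coeff k f : ℕ) : ℝ) = ‖((((PowerSeries.coeff k f : ℕ) : ℤ)) : ℝ)‖ := by
      rw [Real.norm_of_nonneg]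
      · simp
      · simp
    rw [← h3]
    exact_mod_cast h2
  calc ∑ k ∈ Finset.range D, ((PowerSeries.trunc D f).coeff k : ℝ) * r ^ k
      ≤ ∑ k ∈ Finset.range D, ‖PowerSeries.coeff k (HN.toRS (toZS f))‖ * r ^ k :=
        Finset.sum_le_sum fun k _ => h1 k
    _ ≤ _ := Summable.sum_le_tsum _ (fun k _ => mul_nonneg (norm_nonneg _) (pow_nonneg hr k)) hf

variable {K : Type} [AddCommGroup K] [Module ℤ[X] K] {δ : ℤ[X]} {D : PFM K δ} {qB : ℕ[X]}
  {S0 : PX K δ qB} {r : ℝ} {F : Type} [Fintype F] {cl : Option F → K} {cst : K}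
  {Y : Type} [Fintype Y] {s : Y → PowerSeries ℤ} {c : Y → K} {q : Y → PowerSeries ℤ}
  {φ : F → PowerSeries ℤ} {H : PowerSeries ℤ}

theorem hubLim_of {qA : ℕ[X]} {SA : PX K δ qA} (hA : HubOn D SA r cl (pureM H φ) s c q)
    (hB : HubOn D S0 r cl (pureM H φ) s c q)
    (hlarge : ∃ d0, ∀ d, d0 ≤ d → 1 ≤ PowerSeries.coeff d H) :
    ∃ (θ B : ℝ) (L : Matrix (Option F ⊕ Y) (Option F ⊕ Y) (PowerSeries ℕ)),
      HubLim (Sum.inl none) r θ B L ∧ toZS (L (Sum.inl none) (Sum.inl none)) = H ∧
      Reach SA (Sum.elim cl c) (Sum.inl none) r L ∧ Reach S0 (Sum.elim cl c) (Sum.inl none) r L := by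
  obtain ⟨L, hL, hRA⟩ := hA.reach
  obtain ⟨L', hL', hRB⟩ := hB.reach
  have hLL : L' = L := by
    funext i j
    exact toZS_injective ((hL' i j).trans (hL i j).symm)
  subst hLL
  have hr0 := hA.r_pos
  obtain ⟨θ, hθ0, hθ1, hθ⟩ := exists_theta (fun y => sn r (s y)) hA.s_lt
  obtain ⟨B, M0, hRA'⟩ := hRA
  have hτ : D.tau (cl none) ≠ 0 := (hA.cl_pos none).ne'
  have hφt : ∀ f, TS r (φ f) := fun f => by
    have := hA.p_ts (some f) none
    rwa [pureM_some_none] at this
  have hzero : ∀ i j, toZS (L' i j) = 0 → L' i j = 0 := fun i j h =>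
    toZS_injective (by rw [h, map_zero])
  refine ⟨θ, B, L', ⟨hr0, lt_of_le_of_lt hA.r_le D.rad_lt, hθ0, hθ1, hRB.const, ?_, ?_, ?_, ?_, ?_,
    ?_, ?_⟩, ?_, ⟨B, M0, hRA'⟩, hRB⟩
  · rintro ((_ | j) | y) hj
    · exact absurd rfl hj
    · exact hzero _ _ (by rw [hL]; exact pureM_some _ _)
    · exact hzero _ _ (by rw [hL]; rfl)
  · intro i j hi hj hij
    refine hzero _ _ ?_
    rw [hL]
    rcases i with (_ | i) | y <;> rcases j with (_ | j) | z
    · exact absurd rfl hi
    · exact absurd rfl hi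
    · exact absurd rfl hi
    · exact absurd rfl hj
    · exact pureM_some _ _
    · rfl
    · exact absurd rfl hj
    · rfl
    · have : y ≠ z := fun h => hij (by rw [h])
      simp [hubM, this]
  · intro v hv h0
    have h1 := hL v (Sum.inl none)
    rw [h0, map_zero] at h1
    rcases v with (_ | f) | y
    · exact absurd rfl hv
    · have h2 : φ f = 0 := by
        rw [h1]
        exact (pureM_some_none f).symm
      have h3 := hA.phi_eq (good_pure r) fp_pure hφt f
      rw [h2] at h3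
      have h4 : sv D.lam⁻¹ (0 : PowerSeries ℤ) = 0 := by
        unfold sv PF.ev
        simp
      rw [h4, zero_mul] at h3
      exact (hA.cl_pos (some f)).ne h3
    · have h2 : q y = 0 := h1.symm
      have h3 := hA.q_eq y
      rw [h2] at h3
      have h4 : sv D.lam⁻¹ (0 : PowerSeries ℤ) = 0 := by
        unfold sv PF.ev
        simp
      rw [h4, zero_mul] at h3
      have h5 : sv D.lam⁻¹ (s y) ≤ sn r (s y) := le_trans (le_abs_self _)
        (PF.norm_ev_le (hA.s_ts y).fn hA.inv_le)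
      have h6 := hA.s_lt y
      have h7 : 0 < (1 - sv D.lam⁻¹ (s y)) * D.tau (c y) := mul_pos (by linarith) (hA.c_pos y)
      exact h7.ne h3
  · intro i j T
    obtain ⟨P, -, -, -, -, -, h3, h4⟩ := hRA' T
    exact le_trans (nv_mono hr0.le (h3 i j).trunc_le) (h4 i j)
  · rintro ((_ | f) | y) hv T
    · exact absurd rfl hv
    · rw [hzero _ _ (by rw [hL]; exact pureM_some _ _)]
      simpa using hθ0
    · have h1 : toZS (L' (Sum.inr y) (Sum.inr y)) = s y := by
        rw [hL]
        simp [hubM]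
      refine le_trans (lim_nv_trunc_le hr0.le (by rw [h1]; exact (hA.s_ts y).fn) T) ?_
      rw [h1]
      exact hθ y
  · intro d hd
    interval_cases d
    · exact hRB.const _ _
    · exact hRB.coeff_one _
  · obtain ⟨d0, h0⟩ := hlarge
    refine ⟨d0, fun d hd => ?_⟩
    have h1 := h0 d hd
    have h2 := hL (Sum.inl none) (Sum.inl none)
    have h3 : hubM (pureM H φ) s q (Sum.inl none) (Sum.inl none) = H := pureM_none_none
    rw [h3] at h2
    rw [← h2, coeff_toZS] at h1
    exact_mod_cast h1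
  · rw [hL]
    exact pureM_none_none

end Pool.Agent.SSE
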