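import Pool.Agent.SSE.HN7

/-!
# SSE project (`MP_c782ad_an`), hub part, Section 5: the numbers theorem

The definitions `DivL`, `own`, `OwnC`, `RetS` are in `HNumDefs.lean`.
-/

set_option autoImplicit false
set_option linter.unusedSectionVars false

open scoped BigOperators
open PowerSeries

namespace Pool.Agent.SSE.HN

open Pool.Agent.SSE.PF

attribute [local instance] Classical.propDecidable

section
variable {x0 ρ θ : ℝ} {b : ℕ} {HA HB : ℤ⟦X⟧} {cA cB : List ℤ⟦X⟧} {n nA nB dA dB : ℕ → ℕ}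

lemma sum_repl_split (m : ℕ → ℕ) {D P : ℕ} (h : D ≤ P) :
    (∑ q ∈ Finset.Ico 0 D, Multiset.replicate (m (q + 1)) (X ^ (q + 1) : ℤ⟦X⟧)) +
      ∑ q ∈ Finset.Ico D P, Multiset.replicate (m (q + 1)) (X ^ (q + 1)) =
    ∑ q ∈ Finset.range P, Multiset.replicate (m (q + 1)) (X ^ (q + 1)) := by
  rw [Finset.sum_Ico_consecutive _ (Nat.zero_le D) h, Finset.range_eq_Ico]

lemma sum_repl_add (m m' n : ℕ → ℕ) (h : ∀ q, m q + m' q = n q) (P : ℕ) :
    (∑ q ∈ Finset.range P, Multiset.replicate (m (q + 1)) (X ^ (q + 1) : ℤ⟦X⟧)) +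
      ∑ q ∈ Finset.range P, Multiset.replicate (m' (q + 1)) (X ^ (q + 1)) =
    ∑ q ∈ Finset.range P, Multiset.replicate (n (q + 1)) (X ^ (q + 1)) := by
  rw [← Finset.sum_add_distrib]
  refine Finset.sum_congr rfl fun q _ => ?_
  rw [← Multiset.replicate_add, h]

/-- facts for one side after the choice of `b'`, `D`, `s`, `r`, `P` -/
structure Side2 (r ρ : ℝ) (N P : ℕ) (T : ℕ → ℝ) (dA : ℕ → ℕ) (D : ℕ) (a : ℤ⟦X⟧) (l : List ℤ⟦X⟧) (H : ℤ⟦X⟧) : Prop where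
  eq : H = divs (sqf a dA D P) l
  nn : Nn H
  fin : HasN r (toRS H)
  low : ∀ d, P < d → T d - N * (ρ ^ d)⁻¹ ≤ ((coeff d H : ℤ) : ℝ)
  div : ∀ e : ℤ⟦X⟧, (∀ d, coeff d e ≤ 1) → (∀ d ≤ P, coeff d e = 0) →
    DivL r e a (lst dA D (P - D) ++ l) H

lemma side2 {r ρ : ℝ} (hr : 0 ≤ r) (hr1 : r < 1) (hρ : 0 < ρ) (hρ1 : ρ < 1) {N P D : ℕ} (hDP : D ≤ P) (hP2 : 2 ≤ P)
    {T : ℕ → ℝ} (hT : ∀ d, P < d → 2 * ((N : ℝ) + 1) * (ρ ^ d)⁻¹ ≤ T d) {dA : ℕ → ℕ}
    (h3 : ∀ q, 0 < dA (q + 1) → 3 ≤ q + 1) {a : ℤ⟦X⟧} (ha : Nn a) (ha0 : coeff 0 a = 0) (haN : Fin' r a)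
    (hleg : ∀ q, D ≤ q → q < P → (dA (q + 1) : ℤ) ≤ coeff (q + 1) (sqf a dA D q))
    (haT : ∀ d, P < d → T d ≤ ((coeff d a : ℤ) : ℝ)) {l : List ℤ⟦X⟧} (hl : ∀ s ∈ l, Hi r P (fun d => (ρ ^ d)⁻¹) s)
    (hlen : l.length ≤ N) : Side2 r ρ N P T dA D a l (divs (sqf a dA D P) l) := by
  have hf := sqf_facts ha ha0 hDP hleg
  have hR1 : ∀ d, (1 : ℝ) ≤ (ρ ^ d)⁻¹ := fun d =>
    (one_le_inv₀ (pow_pos hρ d)).2 (pow_le_one₀ hρ.le hρ1.le)
  have hlenR : (l.length : ℝ) ≤ N := by exact_mod_cast hlen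
  have haf : ∀ d, P < d → ((coeff d a : ℤ) : ℝ) ≤ ((coeff d (sqf a dA D P) : ℤ) : ℝ) := fun d hd => by
    exact_mod_cast hf.high d hd
  obtain ⟨i1, i2, i3, i4⟩ := divs_hi hr hP2 (R := fun d => (ρ ^ d)⁻¹) (fun d => inv_nonneg.2 (pow_nonneg hρ.le d))
    l (sqf a dA D P) hl hf.nn hf.c0 (fin_sqf hr hr1 haN dA hDP) (fun d hd => by
      have h1 := hT d hd
      have h2 := haT d hd
      have h4 := haf d hd
      have h5 := hR1 d
      have h6 : (l.length : ℝ) * (ρ ^ d)⁻¹ ≤ N * (ρ ^ d)⁻¹ :=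
        mul_le_mul_of_nonneg_right hlenR (by linarith)
      have h7 : (0 : ℝ) ≤ N * (ρ ^ d)⁻¹ := mul_nonneg (Nat.cast_nonneg _) (by linarith)
      change (l.length : ℝ) * (ρ ^ d)⁻¹ + 1 ≤ _
      nlinarith)
  refine ⟨rfl, i1, i2, fun d hd => ?_, fun e he1 he2 => ?_⟩
  · have h1 := i3 d hd
    have h2 := haT d hd
    have h4 := haf d hd
    have h6 : (l.length : ℝ) * (ρ ^ d)⁻¹ ≤ N * (ρ ^ d)⁻¹ :=
      mul_le_mul_of_nonneg_right hlenR (by have := hR1 d; linarith)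
    change ((coeff d (sqf a dA D P) : ℤ) : ℝ) - (l.length : ℝ) * (ρ ^ d)⁻¹ ≤ _ at h1
    linarith
  · have hae : Nn (a - e) := by
      intro d
      rw [map_sub]
      rcases Nat.lt_or_ge P d with h1 | h1
      · have h2 := haT d h1
        have h4 := hT d h1
        have h5 := hR1 d
        have h6 : (0 : ℝ) ≤ N * (ρ ^ d)⁻¹ := mul_nonneg (Nat.cast_nonneg _) (by linarith)
        have h7 : (1 : ℝ) ≤ ((coeff d a : ℤ) : ℝ) := by nlinarith
        have h8 : (1 : ℤ) ≤ coeff d a := by exact_mod_cast h7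
        have h9 := he1 d
        linarith
      · rw [he2 d h1, sub_zero]
        exact ha d
    have h1 := divL_sqf hr hr1 (m := dA) (p := D) ha ha0 hae (P - D) (fun q _ _ h => h3 q h)
      (fun q h1 h2 => hleg q h1 (by omega)) (fun d hd => he2 d (by omega))
    rw [show D + (P - D) = P by omega] at h1
    exact h1.append (i4 e he1 he2)

/-- the numbers theorem, in terms of the data `NumD` -/
theorem NumD.main' (N : NumD x0 ρ θ b HA HB cA cB n nA nB dA dB) (P0 : ℕ) :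
    ∃ (P : ℕ) (r : ℝ) (lA lB : List ℤ⟦X⟧) (H : ℤ⟦X⟧), P0 ≤ P ∧ x0 < r ∧ r < ρ ∧
      (lA : Multiset ℤ⟦X⟧) + (cA.map fun c => own c P).sum =
        (lB : Multiset ℤ⟦X⟧) + (cB.map fun c => own c P).sum ∧
      (∀ e : ℤ⟦X⟧, Nn e → (∀ d, coeff d e ≤ 1) → (∀ d ≤ P, coeff d e = 0) →
        DivL r e HA lA H ∧ DivL r e HB lB H ∧ Nn (H - e)) ∧
      (∀ M : ℤ, ∃ d0, ∀ d, d0 ≤ d → M ≤ coeff d H) ∧ HasN r (toRS H) ∧
      ∃ S : Finset ℕ, (∀ d ∈ S, P < d) ∧ 20 ≤ ∑ d ∈ S, ((coeff d H : ℤ) : ℝ) * r ^ d := by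
  have hρ := N.ρ_pos
  have hρ1 := N.ρ_lt
  have hx0 := N.x0_pos
  have hb3 := N.hA.b3
  obtain ⟨b', D, ρs, hbb', hb'D, hx0s, hρsρ, hvs⟩ := N.choose
  have hρs : 0 < ρs := hx0.trans hx0s
  set hhA := sqf HA dA 0 D with hhhA
  set hhB := sqf HB dB 0 D with hhhB
  have fA := N.sqF D
  have fB := N.swap.sqF D
  have hcong : Cg D hhA hhB := (N.phase1 D).2.2
  have htr : tr (D + 1) hhA = tr (D + 1) hhB := by
    ext d
    rw [coeff_tr, coeff_tr]
    split_ifs with h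
    · exact hcong d (by omega)
    · rfl
  set s : ℤ⟦X⟧ := tr (D + 1) hhA - X ^ b' with hs
  -- facts about `s`
  have oneA : ∀ d, b ≤ d → 1 ≤ coeff d hhA := N.one_le D
  have oneB : ∀ d, b ≤ d → 1 ≤ coeff d hhB := N.swap.one_le D
  have hsn : Nn s := by
    intro d
    rw [hs, map_sub, coeff_tr, coeff_X_pow]
    by_cases h : d = b'
    · rw [if_pos (by omega), if_pos h, h]
      have := oneA b' (by omega)
      linarith
    · rw [if_neg h, sub_zero]
      split_ifs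
      · exact fA.nn d
      · exact le_rfl
  have hs3 : ∀ d < 3, coeff d s = 0 := by
    intro d hd
    rw [hs, map_sub, coeff_tr, if_pos (by omega), coeff_X_pow, if_neg (by omega), sub_zero]
    exact N.c3 (by omega) d hd
  have hs0 : coeff 0 s = 0 := hs3 0 (by norm_num)
  have hsb : ∀ d, b ≤ d → d < b' → 1 ≤ coeff d s := by
    intro d h1 h2
    rw [hs, map_sub, coeff_tr, if_pos (by omega), coeff_X_pow, if_neg (by omega), sub_zero]
    exact oneA d h1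
  have hsne : s ≠ 0 := by
    intro h
    have := hsb b le_rfl (by omega)
    rw [h, map_zero] at this
    omega
  have hsfin : ∀ d, D < d → coeff d s = 0 := by
    intro d hd
    rw [hs, map_sub, coeff_tr, if_neg (by omega), coeff_X_pow, if_neg (by omega), sub_zero]
  have hsF : ∀ x, Fin' x s := fun x => fin_of_finite hsfin x
  -- growth
  obtain ⟨κ, hκ, hgrow⟩ := growth hs0 hsn (b := b) (N := D) (by omega) (hsb b le_rfl (by omega))
    (hsb (b + 1) (by omega) (by omega)) hsfin hρs (by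
      have h1 := hvs
      rw [val_of_finite hsfin, Finset.sum_range_succ', hs0] at h1
      simp only [Int.cast_zero, zero_mul, add_zero] at h1
      exact h1.ge)
  set T0 : ℤ⟦X⟧ := X ^ b' * geo s with hT0
  set T : ℕ → ℝ := fun d => ((coeff d T0 : ℤ) : ℝ) with hTd
  set κ' := κ * ρs ^ b' with hκ'
  have hκ'pos : 0 < κ' := mul_pos hκ (pow_pos hρs _)
  have hTgrow : ∀ d, b * b + b' ≤ d → κ' ≤ T d * ρs ^ d := by
    intro d hd
    have h1 : coeff d T0 = coeff (d - b') (geo s) := by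
      rw [hT0, mul_comm, coeff_mul_X_pow', if_pos (by omega)]
    have h2 := hgrow (d - b') (by omega)
    have h3 : ρs ^ d = ρs ^ (d - b') * ρs ^ b' := by
      rw [← pow_add]
      congr 1
      omega
    simp only [hTd]
    rw [h1, h3, ← mul_assoc]
    exact mul_le_mul_of_nonneg_right h2 (pow_nonneg hρs.le _)
  -- number of loop series
  set M := cA.length + cB.length with hM
  -- choice of `P`
  have hq : 1 < ρ / ρs := (one_lt_div hρs).2 hρsρ
  obtain ⟨P1, hP1⟩ := pow_unbounded_of_one_lt (2 * ((M : ℝ) + 1) / κ') hq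
  set P := P0 + P1 + D + (b * b + b') + b with hP
  have hTP : ∀ d, P < d → 2 * ((M : ℝ) + 1) * (ρ ^ d)⁻¹ ≤ T d := by
    intro d hd
    have h1 := hTgrow d (by omega)
    have h2 : (ρ / ρs) ^ P1 ≤ (ρ / ρs) ^ d := pow_le_pow_right₀ hq.le (by omega)
    have h3 : 2 * ((M : ℝ) + 1) ≤ (ρ / ρs) ^ d * κ' := by
      have h4 := hP1.le.trans h2
      rwa [div_le_iff₀ hκ'pos] at h4
    have h5 : (ρ / ρs) ^ d * κ' ≤ T d * ρ ^ d := by
      rw [div_pow, div_mul_eq_mul_div, div_le_iff₀ (pow_pos hρs d)]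
      have h6 := mul_le_mul_of_nonneg_right h1 (pow_nonneg hρ.le d)
      linarith
    rw [← div_eq_mul_inv, div_le_iff₀ (pow_pos hρ d)]
    linarith
  -- choice of `r`
  obtain ⟨r, hr1, hr2, S, hSP, hS⟩ := exists_radius hx0 hx0s hκ'pos (P := P) (T := T)
    (fun d hd => hTgrow d (by omega)) 40
  have hr0 : 0 < r := hx0.trans hr1
  have hrρ : r < ρ := hr2.trans hρsρ
  have hr1' : r < 1 := hrρ.trans hρ1
  have hslt : nS r (toRS s) < 1 := by
    rw [nS_eq_val hr0.le hsn, ← hvs]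
    exact val_lt_val hr0.le hr2 le_rfl hsn (hsF ρs) (k := b) (by omega) (hsb b le_rfl (by omega))
  have hsN : HasN r (toRS s) := hsF r
  -- the two sides after division by `s`
  have subA : hhA - s = X ^ b' + (hhA - tr (D + 1) hhA) := by rw [hs]; ring
  have subB : hhB - s = X ^ b' + (hhB - tr (D + 1) hhB) := by rw [hs, htr]; ring
  have tailn : ∀ f : ℤ⟦X⟧, Nn f → Nn (f - tr (D + 1) f) := by
    intro f hf d
    rw [map_sub, coeff_tr]
    split_ifs
    · rw [sub_self]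
    · rw [sub_zero]; exact hf d
  have hsubA : Nn (hhA - s) := by rw [subA]; exact (nn_X_pow b').add (tailn hhA fA.nn)
  have hsubB : Nn (hhB - s) := by rw [subB]; exact (nn_X_pow b').add (tailn hhB fB.nn)
  have hsube : ∀ (f : ℤ⟦X⟧), Nn f → (∀ d, b ≤ d → 1 ≤ coeff d f) → f - s = X ^ b' + (f - tr (D + 1) f) →
      ∀ e : ℤ⟦X⟧, (∀ d, coeff d e ≤ 1) → (∀ d ≤ P, coeff d e = 0) → Nn (f - s - e) := by
    intro f hf hf1 hfs e he1 he2 d
    rw [map_sub, hfs, map_add, map_sub, coeff_tr]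
    have h1 := nn_X_pow b' d
    rcases Nat.lt_or_ge P d with h | h
    · rw [if_neg (by omega), sub_zero]
      have h2 := hf1 d (by omega)
      have h3 := he1 d
      linarith
    · rw [he2 d h]
      split_ifs
      · linarith
      · have := hf d
        linarith
  have hFA : Fin' r hhA := (N.vals D).1.mono hr0.le hrρ.le
  have hFB : Fin' r hhB := (N.swap.vals D).1.mono hr0.le hrρ.le
  set a := dv hhA s with ha
  set bb := dv hhB s with hbb
  have han : Nn a := nn_dv hs0 hsn hsubA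
  have hbn : Nn bb := nn_dv hs0 hsn hsubB
  have ha0 : coeff 0 a = 0 := coeff_zero_dv hs0 fA.c0
  have hb0 : coeff 0 bb = 0 := coeff_zero_dv hs0 fB.c0
  have haN : Fin' r a := hasN_dv hr0.le hs0 hsN hslt hFA
  have hbN : Fin' r bb := hasN_dv hr0.le hs0 hsN hslt hFB
  have hTle : ∀ f : ℤ⟦X⟧, Nn f → f - s = X ^ b' + (f - tr (D + 1) f) → ∀ d, T d ≤ ((coeff d (dv f s) : ℤ) : ℝ) := by
    intro f hf hfs d
    have h1 : dv f s - T0 = (f - tr (D + 1) f) * geo s := by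
      unfold dv
      rw [hfs, hT0]
      ring
    have h2 : Nn (dv f s - T0) := by
      rw [h1]
      exact (tailn f hf).mul (nn_geo hs0 hsn)
    have h3 := h2 d
    rw [map_sub] at h3
    simp only [hTd]
    exact_mod_cast (by linarith : coeff d T0 ≤ coeff d (dv f s))
  have hTa := hTle hhA fA.nn subA
  have hTb := hTle hhB fB.nn subB
  -- phase 2
  have hDP : D ≤ P := by omega
  set CA := ((rest cA P).map fun s => 1 - s).prod with hCA
  set CB := ((rest cB P).map fun s => 1 - s).prod with hCB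
  set δ := (1 - HA) * (cA.map fun c => 1 - c).prod with hδd
  have hnA' : (fun q => dA q + nA q) = n := funext N.hdA
  have hnB' : (fun q => dB q + nB q) = n := funext N.hdB
  have key : ∀ (H0 h a : ℤ⟦X⟧) (d m : ℕ → ℕ) (C : ℤ⟦X⟧), (fun q => d q + m q) = n → (1 - h) * Pr d 0 D = 1 - H0 →
      (1 - a) * (1 - s) = 1 - h → (1 - H0) * 1 * Pr m 0 P * C = δ →
      (1 - a) * ((1 - s) * Pr n 0 D) * Pr m D P * C = δ := by
    intro H0 h a d m C hdm h1 h2 h3
    rw [← h3, ← h1, ← h2, ← hdm, Pr_add, ← Pr_mul m (Nat.zero_le D) hDP]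
    ring
  have keyA := key HA hhA a dA nA CA hnA' (one_sub_sqf_mul HA dA 0 D) (one_sub_dv_mul hs0) (N.prodA P)
  have keyB := key HB hhB bb dB nB CB hnB' (one_sub_sqf_mul HB dB 0 D) (one_sub_dv_mul hs0) (N.prodB P)
  have hU : coeff 0 ((1 - s) * Pr n 0 D) = 1 := by
    rw [coeff_mul, Finset.Nat.antidiagonal_zero, Finset.sum_singleton, coeff_zero_Pr, mul_one, map_sub, hs0]
    simp
  have hcab : Cg D a bb := fun d hd =>
    coeff_dv_congr hs0 (D := D + 1) (fun d hd => hcong d (by omega)) d (by omega)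
  have hcgA : Cg P CA 1 := cg_rest fun c hc => ⟨(N.hcA c hc).nn, (N.hcA c hc).c0⟩
  have hcgB : Cg P CB 1 := cg_rest fun c hc => ⟨(N.hcB c hc).nn, (N.hcB c hc).c0⟩
  obtain ⟨legA, legB, -⟩ := eq_phase N.hdA N.hdB N.hn keyA keyB hcgA hcgB hU hcab han hbn ha0 hb0 P hDP le_rfl
  -- cross blocks
  have sA := side2 hr0.le hr1' hρ hρ1 hDP (by omega) hTP N.three_le han ha0 haN legA (fun d _ => hTa d)
    (rest_hi hρ hρ1 N.θ_lt hr0.le hrρ.le N.hcB P) ((length_rest_le cB P).trans (by omega))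
  have sB := side2 hr0.le hr1' hρ hρ1 hDP (by omega) hTP N.swap.three_le hbn hb0 hbN legB (fun d _ => hTb d)
    (rest_hi hρ hρ1 N.θ_lt hr0.le hrρ.le N.hcA P) ((length_rest_le cA P).trans (by omega))
  set Hf := divs (sqf a dA D P) (rest cB P) with hHf
  -- the two results agree
  have hrest0 : ∀ cs : List ℤ⟦X⟧, (∀ c ∈ cs, OwnC ρ θ c) → ∀ s ∈ rest cs P, coeff 0 s = 0 := fun cs hcs s hs =>
    (rest_hi hρ hρ1 N.θ_lt hr0.le hrρ.le hcs P s hs).low 0 (by omega)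
  have hEq : Hf = divs (sqf bb dB D P) (rest cA P) := by
    have e1 := divs_prod (rest cB P) (sqf a dA D P) (hrest0 cB N.hcB)
    have e2 := divs_prod (rest cA P) (sqf bb dB D P) (hrest0 cA N.hcA)
    rw [← hHf, ← hCB] at e1
    rw [← hCA] at e2
    have e3 := one_sub_sqf_mul a dA D P
    have e4 := one_sub_sqf_mul bb dB D P
    have f1 : (1 - Hf) * (CA * CB * ((1 - s) * Pr n 0 D) * Pr n D P) = δ := by
      rw [← keyA, ← e3, ← e1]
      nth_rewrite 2 [← hnA']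
      rw [Pr_add]
      ring
    have f2 : (1 - divs (sqf bb dB D P) (rest cA P)) * (CA * CB * ((1 - s) * Pr n 0 D) * Pr n D P) = δ := by
      rw [← keyB, ← e4, ← e2]
      nth_rewrite 2 [← hnB']
      rw [Pr_add]
      ring
    have hU2 : coeff 0 (CA * CB * ((1 - s) * Pr n 0 D) * Pr n D P) = 1 := by
      have c1 : Cg 0 CA 1 := hcgA.mono (Nat.zero_le _)
      have c2 : Cg 0 CB 1 := hcgB.mono (Nat.zero_le _)
      have c3 : Cg 0 ((1 - s) * Pr n 0 D) 1 := by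
        intro d hd
        rw [Nat.le_zero.1 hd, hU]; simp
      have c4 : Cg 0 (Pr n D P) 1 := cg_Pr n (Nat.zero_le D)
      have c5 := ((c1.mul c2).mul c3).mul c4
      rw [c5 0 le_rfl]
      simp
    have f3 : ∀ Q, Cg Q (1 - Hf) (1 - divs (sqf bb dB D P) (rest cA P)) := by
      intro Q
      refine Cg.cancel hU2 ?_
      rw [f1, f2]
      exact Cg.refl _
    have f4 : 1 - Hf = 1 - divs (sqf bb dB D P) (rest cA P) := by
      ext d
      exact f3 d d le_rfl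
    linear_combination - f4
  -- lower bounds
  have hR1 : ∀ d, (1 : ℝ) ≤ (ρ ^ d)⁻¹ := fun d =>
    (one_le_inv₀ (pow_pos hρ d)).2 (pow_le_one₀ hρ.le hρ1.le)
  have hlowR : ∀ d, P < d → (ρ ^ d)⁻¹ ≤ ((coeff d Hf : ℤ) : ℝ) := by
    intro d hd
    have h1 := sA.low d hd
    have h2 := hTP d hd
    have h3 := hR1 d
    have h4 : (0 : ℝ) ≤ M * (ρ ^ d)⁻¹ := mul_nonneg (Nat.cast_nonneg _) (by linarith)
    nlinarith
  have hhalf : ∀ d, P < d → T d / 2 ≤ ((coeff d Hf : ℤ) : ℝ) := by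
    intro d hd
    have h1 := sA.low d hd
    have h2 := hTP d hd
    have h3 := hR1 d
    nlinarith
  refine ⟨P, r, lst dA 0 D ++ (s :: (lst dA D (P - D) ++ rest cB P)),
    lst dB 0 D ++ (s :: (lst dB D (P - D) ++ rest cA P)), Hf, by omega, hr1, hrρ, ?_, ?_, ?_, sA.fin, ?_⟩
  · rw [sum_own, sum_own, ← N.hnA, ← N.hnB]
    simp only [← Multiset.coe_add, ← Multiset.cons_coe, coe_lst, Nat.zero_add]
    rw [show D + (P - D) = P by omega]
    rw [← Multiset.singleton_add, ← Multiset.singleton_add]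
    have g1 := sum_repl_split dA hDP
    have g2 := sum_repl_split dB hDP
    have g3 := sum_repl_add dA nA n N.hdA P
    have g4 := sum_repl_add dB nB n N.hdB P
    rw [← g1] at g3
    rw [← g2] at g4
    calc _ = (∑ q ∈ Finset.Ico 0 D, Multiset.replicate (dA (q + 1)) (X ^ (q + 1) : ℤ⟦X⟧) +
            ∑ q ∈ Finset.Ico D P, Multiset.replicate (dA (q + 1)) (X ^ (q + 1)) +
            ∑ q ∈ Finset.range P, Multiset.replicate (nA (q + 1)) (X ^ (q + 1))) +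
            ({s} + (rest cB P : Multiset ℤ⟦X⟧) + (rest cA P : Multiset ℤ⟦X⟧)) := by abel
      _ = (∑ q ∈ Finset.Ico 0 D, Multiset.replicate (dB (q + 1)) (X ^ (q + 1) : ℤ⟦X⟧) +
            ∑ q ∈ Finset.Ico D P, Multiset.replicate (dB (q + 1)) (X ^ (q + 1)) +
            ∑ q ∈ Finset.range P, Multiset.replicate (nB (q + 1)) (X ^ (q + 1))) +
            ({s} + (rest cB P : Multiset ℤ⟦X⟧) + (rest cA P : Multiset ℤ⟦X⟧)) := by rw [g3, g4]
      _ = _ := by abel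
  · intro e hen he1 he2
    have hHe : ∀ f : ℤ⟦X⟧, Nn f → (∀ d, b ≤ d → 1 ≤ coeff d f) → Nn (f - e) := by
      intro f hf hf1 d
      rw [map_sub]
      rcases Nat.lt_or_ge P d with h | h
      · have h1 := hf1 d (by omega)
        have h2 := he1 d
        linarith
      · rw [he2 d h, sub_zero]; exact hf d
    refine ⟨?_, ?_, ?_⟩
    · have h1 := divL_sqf hr0.le hr1' (m := dA) (p := 0) N.hA.nn N.hA.c0 (hHe HA N.hA.nn N.hA.pos) D
        (fun q _ _ h => N.three_le q h) (fun q h1 h2 => (N.phase1 D).1 q h1 (by omega))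
        (fun d hd => he2 d (by omega))
      rw [Nat.zero_add] at h1
      exact h1.append (DivL.cons hsn hsne hs3 hsN hslt (hsube hhA fA.nn oneA subA e he1 he2) (sA.div e he1 he2))
    · have h1 := divL_sqf hr0.le hr1' (m := dB) (p := 0) N.hB.nn N.hB.c0 (hHe HB N.hB.nn N.hB.pos) D
        (fun q _ _ h => N.swap.three_le q h) (fun q h1 h2 => (N.phase1 D).2.1 q h1 (by omega))
        (fun d hd => he2 d (by omega))
      rw [Nat.zero_add] at h1
      have h2 := sB.div e he1 he2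
      rw [← hEq] at h2
      exact h1.append (DivL.cons hsn hsne hs3 hsN hslt (hsube hhB fB.nn oneB subB e he1 he2) h2)
    · intro d
      rw [map_sub]
      rcases Nat.lt_or_ge P d with h | h
      · have h1 := hlowR d h
        have h2 := hR1 d
        have h3 : (1 : ℤ) ≤ coeff d Hf := by exact_mod_cast (h2.trans h1)
        have h4 := he1 d
        linarith
      · rw [he2 d h, sub_zero]; exact sA.nn d
  · intro Q
    obtain ⟨k, hk⟩ := pow_unbounded_of_one_lt (Q : ℝ) (one_lt_inv₀ hρ |>.2 hρ1)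
    refine ⟨max k (P + 1), fun d hd => ?_⟩
    have h1 := hlowR d (by have := le_max_right k (P + 1); omega)
    have h2 : (ρ⁻¹) ^ k ≤ (ρ⁻¹) ^ d :=
      pow_le_pow_right₀ (one_le_inv₀ hρ |>.2 hρ1.le) (by have := le_max_left k (P + 1); omega)
    rw [← inv_pow] at h1
    exact_mod_cast (hk.le.trans (h2.trans h1))
  · refine ⟨S, hSP, ?_⟩
    have h2 : ∑ d ∈ S, T d / 2 * r ^ d ≤ ∑ d ∈ S, ((coeff d Hf : ℤ) : ℝ) * r ^ d :=
      Finset.sum_le_sum fun d hd => mul_le_mul_of_nonneg_right (hhalf d (hSP d hd)) (pow_nonneg hr0.le d)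
    have h3 : ∑ d ∈ S, T d / 2 * r ^ d = (∑ d ∈ S, T d * r ^ d) / 2 := by
      rw [Finset.sum_div]
      exact Finset.sum_congr rfl fun d _ => by ring
    rw [h3] at h2
    linarith

/-- the numbers theorem, with the value of the coefficients in degrees `> P` -/
theorem numbers' {x0 ρ θ : ℝ} {b : ℕ} (hx0 : 0 < x0) (hxρ : x0 < ρ) (hρ : ρ < 1) (_hθ0 : 0 ≤ θ)
    (hθ : θ < 1) {HA HB : ℤ⟦X⟧} (hA : RetS x0 ρ b HA) (hB : RetS x0 ρ b HB)
    {cA cB : List ℤ⟦X⟧} (hcA : ∀ c ∈ cA, OwnC ρ θ c) (hcB : ∀ c ∈ cB, OwnC ρ θ c)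
    (hδ : (1 - HA) * (cA.map fun c => 1 - c).prod = (1 - HB) * (cB.map fun c => 1 - c).prod)
    (P0 : ℕ) :
    ∃ (P : ℕ) (r : ℝ) (lA lB : List ℤ⟦X⟧) (H : ℤ⟦X⟧), P0 ≤ P ∧ x0 < r ∧ r < ρ ∧
      (lA : Multiset ℤ⟦X⟧) + (cA.map fun c => own c P).sum =
        (lB : Multiset ℤ⟦X⟧) + (cB.map fun c => own c P).sum ∧
      (∀ e : ℤ⟦X⟧, Nn e → (∀ d, coeff d e ≤ 1) → (∀ d ≤ P, coeff d e = 0) →
        DivL r e HA lA H ∧ DivL r e HB lB H ∧ Nn (H - e)) ∧
      (∀ M : ℤ, ∃ d0, ∀ d, d0 ≤ d → M ≤ coeff d H) ∧ HasN r (toRS H) ∧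
      ∃ S : Finset ℕ, (∀ d ∈ S, P < d) ∧ 20 ≤ ∑ d ∈ S, ((coeff d H : ℤ) : ℝ) * r ^ d := by
  have N : NumD x0 ρ θ b HA HB cA cB (fun q => max (nums cA q) (nums cB q)) (nums cA) (nums cB)
      (fun q => max (nums cA q) (nums cB q) - nums cA q) (fun q => max (nums cA q) (nums cB q) - nums cB q) := by
    refine ⟨hx0, hxρ, hρ, hθ, hA, hB, hcA, hcB, hδ, rfl, rfl, fun q => ?_, fun q => ?_, fun q => ?_, fun q => ?_⟩
    · exact Nat.sub_add_cancel (le_max_left _ _)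
    · exact Nat.sub_add_cancel (le_max_right _ _)
    · exact max_choice _ _
    · exact max_le (Nat.le_add_right _ _) (Nat.le_add_left _ _)
  exact N.main' P0

/-- the numbers theorem -/
theorem numbers {x0 ρ θ : ℝ} {b : ℕ} (hx0 : 0 < x0) (hxρ : x0 < ρ) (hρ : ρ < 1) (_hθ0 : 0 ≤ θ)
    (hθ : θ < 1) {HA HB : ℤ⟦X⟧} (hA : RetS x0 ρ b HA) (hB : RetS x0 ρ b HB)
    {cA cB : List ℤ⟦X⟧} (hcA : ∀ c ∈ cA, OwnC ρ θ c) (hcB : ∀ c ∈ cB, OwnC ρ θ c)
    (hδ : (1 - HA) * (cA.map fun c => 1 - c).prod = (1 - HB) * (cB.map fun c => 1 - c).prod)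
    (P0 : ℕ) :
    ∃ (P : ℕ) (r : ℝ) (lA lB : List ℤ⟦X⟧) (H : ℤ⟦X⟧), P0 ≤ P ∧ x0 < r ∧ r < ρ ∧
      (lA : Multiset ℤ⟦X⟧) + (cA.map fun c => own c P).sum =
        (lB : Multiset ℤ⟦X⟧) + (cB.map fun c => own c P).sum ∧
      (∀ e : ℤ⟦X⟧, Nn e → (∀ d, coeff d e ≤ 1) → (∀ d ≤ P, coeff d e = 0) →
        DivL r e HA lA H ∧ DivL r e HB lB H ∧ Nn (H - e)) ∧
      (∀ M : ℤ, ∃ d0, ∀ d, d0 ≤ d → M ≤ coeff d H) ∧ HasN r (toRS H) ∧ 20 ≤ nS r (toRS H) := by
  obtain ⟨P, r, lA, lB, H, h1, h2, h3, h4, h5, h6, h7, S, -, hS⟩ :=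
    numbers' hx0 hxρ hρ _hθ0 hθ hA hB hcA hcB hδ P0
  have hn : Nn H := by
    have := (h5 0 nn_zero (fun d => by simp) (fun d _ => by simp)).2.2
    rwa [sub_zero] at this
  exact ⟨P, r, lA, lB, H, h1, h2, h3, h4, h5, h6, h7,
    hS.trans (sum_le_nS (hx0.trans h2).le hn h7 S)⟩

end

end Pool.Agent.SSE.HN
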