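import Pool.Agent.SSE.S1D

/-!
# SSE project, hub part, Section 6: the expansion of the row of the main hub of `S1D`
-/

set_option autoImplicit false

open scoped BigOperators
open Matrix Polynomial

namespace Pool.Agent.SSE

attribute [local instance] Classical.propDecidable

section

variable {K : Type} [AddCommGroup K] [Module ℤ[X] K] {δ : ℤ[X]} {D : PFM K δ} {ξ : K}

namespace S1D

theorem isPres (S : S1D D ξ) : IsPres S.P := S.pres.pres

theorem rowx0 (S : S1D D ξ) (j : Option S.F) : (S.P none j).coeff 0 = 0 := S.rowx j 0 (by norm_num)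

/-- the matrix on `F` -/
noncomputable def PF (S : S1D D ξ) : Matrix S.F S.F ℕ[X] := fun k f => S.P (some k) (some f)

theorem isPresF (S : S1D D ξ) : IsPres S.PF := fun _ _ => S.isPres _ _

theorem stV (S : S1D D ξ) : St S.PF (fun f => ps (toZ (S.P none (some f)))) S.V := S.hV

theorem V_nonneg (S : S1D D ξ) (f : S.F) (n : ℕ) : 0 ≤ PowerSeries.coeff n (S.V f) :=
  S.stV.nonneg S.isPresF (fun j n => by rw [coeff_ps, coeff_toZ]; positivity) f n

theorem H_nonneg (S : S1D D ξ) (n : ℕ) : 0 ≤ PowerSeries.coeff n S.H := by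
  rw [S.hH, map_add, map_sum]
  refine add_nonneg (by rw [coeff_ps, coeff_toZ]; positivity) (Finset.sum_nonneg fun k _ => ?_)
  rw [coeff_mul_toZ]
  exact Finset.sum_nonneg fun c _ => mul_nonneg (S.V_nonneg _ _) (by positivity)

/-- the new row, over `ℤ[X]` -/
noncomputable def expRow (S : S1D D ξ) (E : ℕ) (j : Option S.F) : ℤ[X] :=
  toZ (S.P none j) + (∑ k, tr E (S.V k) * toZ (S.P (some k) j)) -
    j.elim 0 (fun f => tr E (S.V f))

theorem expRow_some (S : S1D D ξ) (E : ℕ) (f : S.F) :
    (∀ n, n < E → (S.expRow E (some f)).coeff n = 0) ∧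
    (S.expRow E (some f)).coeff E = PowerSeries.coeff E (S.V f) ∧
    ∀ n, 0 ≤ (S.expRow E (some f)).coeff n :=
  expand_tr S.isPresF S.stV (fun j n => by rw [coeff_toZ]; positivity) E f

theorem coeff_tr_mul (S : S1D D ξ) (E : ℕ) (k : S.F) (j : Option S.F) (n : ℕ) :
    (tr E (S.V k) * toZ (S.P (some k) j)).coeff n =
      ∑ c ∈ Finset.range n, (if c < E then PowerSeries.coeff c (S.V k) else 0) *
        ((S.P (some k) j).coeff (n - c) : ℤ) := by
  have h0 := coeff_mul_toZ' (ps (tr E (S.V k))) (S.isPres (some k) j) n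
  rw [← ps_mul, coeff_ps] at h0
  rw [h0]
  refine Finset.sum_congr rfl fun c _ => ?_
  rw [coeff_ps, coeff_tr]

theorem expRow_none (S : S1D D ξ) (E : ℕ) :
    (∀ n, n ≤ E → (S.expRow E none).coeff n = PowerSeries.coeff n S.H) ∧
    (∀ n, (S.expRow E none).coeff n ≤ PowerSeries.coeff n S.H) ∧
    ∀ n, 0 ≤ (S.expRow E none).coeff n := by
  have h1 : ∀ n, (S.expRow E none).coeff n = ((S.P none none).coeff n : ℤ) +
      ∑ k, ∑ c ∈ Finset.range n, (if c < E then PowerSeries.coeff c (S.V k) else 0) *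
        ((S.P (some k) none).coeff (n - c) : ℤ) := by
    intro n
    simp only [expRow, Option.elim_none, sub_zero]
    rw [coeff_add, coeff_toZ, finsetSum_coeff]
    simp only [S.coeff_tr_mul]
  have h2 : ∀ n, PowerSeries.coeff n S.H = ((S.P none none).coeff n : ℤ) +
      ∑ k, ∑ c ∈ Finset.range n, PowerSeries.coeff c (S.V k) *
        ((S.P (some k) none).coeff (n - c) : ℤ) := by
    intro n
    rw [S.hH, map_add, map_sum, coeff_ps, coeff_toZ]
    simp only [coeff_mul_toZ' _ (S.isPres _ _)]
  refine ⟨fun n hn => ?_, fun n => ?_, fun n => ?_⟩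
  · rw [h1, h2]
    congr 1
    refine Finset.sum_congr rfl fun k _ => Finset.sum_congr rfl fun c hc => ?_
    rw [if_pos (lt_of_lt_of_le (Finset.mem_range.1 hc) hn)]
  · rw [h1, h2]
    refine add_le_add le_rfl (Finset.sum_le_sum fun k _ => Finset.sum_le_sum fun c _ => ?_)
    refine mul_le_mul_of_nonneg_right ?_ (by positivity)
    split_ifs
    · exact le_rfl
    · exact S.V_nonneg _ _
  · rw [h1]
    refine add_nonneg (by positivity) (Finset.sum_nonneg fun k _ => Finset.sum_nonneg fun c _ => ?_)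
    refine mul_nonneg ?_ (by positivity)
    split_ifs
    · exact S.V_nonneg _ _
    · exact le_rfl

theorem exists_row (S : S1D D ξ) (E : ℕ) : ∃ w : Option S.F → ℕ[X], ∀ j, toZ (w j) = S.expRow E j := by
  have h1 : ∀ j, ∃ w : ℕ[X], toZ w = S.expRow E j := by
    intro j
    refine exists_nat_lift _ fun n => ?_
    rcases j with _ | f
    · exact (S.expRow_none E).2.2 n
    · exact (S.expRow_some E f).2.2 n
  choose w hw using h1
  exact ⟨w, hw⟩

/-- the expanded row of the main hub -/
noncomputable def xrow (S : S1D D ξ) (E : ℕ) : Option S.F → ℕ[X] := (S.exists_row E).choose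

theorem toZ_xrow (S : S1D D ξ) (E : ℕ) (j : Option S.F) : toZ (S.xrow E j) = S.expRow E j :=
  (S.exists_row E).choose_spec j

theorem coeff_xrow (S : S1D D ξ) (E : ℕ) (j : Option S.F) (n : ℕ) :
    ((S.xrow E j).coeff n : ℤ) = (S.expRow E j).coeff n := by
  rw [← S.toZ_xrow, coeff_toZ]

/-- low degrees of the row of the main hub -/
theorem coeff_H_low (S : S1D D ξ) {n : ℕ} (hn : n < 3) : PowerSeries.coeff n S.H = 0 := by
  have hV0 : ∀ d, d < 3 → ∀ f, PowerSeries.coeff d (S.V f) = 0 := by
    intro d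
    induction d using Nat.strong_induction_on with
    | _ d ih =>
      intro hd f
      rw [S.hV f, map_add, map_sum, coeff_ps, coeff_toZ, S.rowx (some f) d hd]
      rw [Finset.sum_eq_zero, Nat.cast_zero, add_zero]
      intro k _
      rw [coeff_mul_toZ' _ (S.isPres _ _)]
      refine Finset.sum_eq_zero fun c hc => ?_
      rw [ih c (Finset.mem_range.1 hc) (lt_trans (Finset.mem_range.1 hc) hd) k, zero_mul]
  rw [S.hH, map_add, map_sum, coeff_ps, coeff_toZ, S.rowx none n hn, Finset.sum_eq_zero,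
    Nat.cast_zero, add_zero]
  intro k _
  rw [coeff_mul_toZ' _ (S.isPres _ _)]
  refine Finset.sum_eq_zero fun c hc => ?_
  rw [hV0 c (lt_trans (Finset.mem_range.1 hc) hn) k, zero_mul]

theorem xrow_low (S : S1D D ξ) {E : ℕ} (hE : 3 ≤ E) (j : Option S.F) {n : ℕ} (hn : n < 3) :
    (S.xrow E j).coeff n = 0 := by
  have h1 : ((S.xrow E j).coeff n : ℤ) = 0 := by
    rw [S.coeff_xrow]
    rcases j with _ | f
    · rw [(S.expRow_none E).1 n (by omega), S.coeff_H_low hn]
    · exact (S.expRow_some E f).1 n (by omega)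
  exact_mod_cast h1

/-- the presentation with the expanded row -/
noncomputable def PE (S : S1D D ξ) (E : ℕ) : Matrix (Option S.F) (Option S.F) ℕ[X] :=
  fun i j => i.elim (S.xrow E j) (fun f => S.P (some f) j)

@[simp] theorem PE_none (S : S1D D ξ) (E : ℕ) (j : Option S.F) : S.PE E none j = S.xrow E j := rfl

@[simp] theorem PE_some (S : S1D D ξ) (E : ℕ) (f : S.F) : S.PE E (some f) = S.P (some f) := rfl

theorem PE_pres (S : S1D D ξ) {E : ℕ} (hE : 3 ≤ E) :
    PEqv S.P (S.PE E) ∧ PresOf δ S.cls (S.PE E) := by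
  refine S.pres.add_rows (P' := S.PE E) ?_ none ?_ (fun i => i.elim 0 fun k => tr E (S.V k)) rfl ?_
  · rintro (_ | i) j
    · exact S.xrow_low hE j (by norm_num)
    · exact S.isPres _ _
  · rintro (_ | i) hi
    · exact absurd rfl hi
    · rfl
  · intro j
    rw [Fintype.sum_option]
    simp only [Option.elim_none, zero_mul, zero_add, Option.elim_some]
    have h1 : IP (S.PE E) none j = (if none = j then 1 else 0) - S.expRow E j := by
      rw [← S.toZ_xrow, IP_apply]
      rfl
    rw [h1]
    unfold expRow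
    simp only [IP_apply]
    simp only [mul_sub, Finset.sum_sub_distrib]
    rcases j with _ | f
    · simp only [Option.elim_none, reduceCtorEq, if_false, mul_zero, Finset.sum_const_zero]
      ring
    · simp only [Option.elim_some, reduceCtorEq, if_false, Option.some.injEq, mul_ite, mul_one,
        mul_zero, Finset.sum_ite_eq', Finset.mem_univ, if_true]
      ring

/-- the coefficients of the expanded row -/
theorem xrow_some_lt (S : S1D D ξ) {E n : ℕ} (hn : n < E) (f : S.F) :
    (S.xrow E (some f)).coeff n = 0 := by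
  have h1 : ((S.xrow E (some f)).coeff n : ℤ) = 0 := by
    rw [S.coeff_xrow]; exact (S.expRow_some E f).1 n hn
  exact_mod_cast h1

theorem xrow_some_eq (S : S1D D ξ) (E : ℕ) (f : S.F) :
    ((S.xrow E (some f)).coeff E : ℤ) = PowerSeries.coeff E (S.V f) := by
  rw [S.coeff_xrow]; exact (S.expRow_some E f).2.1

theorem xrow_none_le (S : S1D D ξ) {E n : ℕ} (hn : n ≤ E) :
    ((S.xrow E none).coeff n : ℤ) = PowerSeries.coeff n S.H := by
  rw [S.coeff_xrow]; exact (S.expRow_none E).1 n hn

theorem xrow_none_le_H (S : S1D D ξ) (E n : ℕ) :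
    ((S.xrow E none).coeff n : ℤ) ≤ PowerSeries.coeff n S.H := by
  rw [S.coeff_xrow]; exact (S.expRow_none E).2.1 n

/-- the expanded presentation as a state which keeps the loops `qB` -/
noncomputable def px (S : S1D D ξ) (E : ℕ) (hE : 3 ≤ E) (qB : ℕ[X])
    (hq : ∀ n, qB.coeff n ≤ (S.xrow E none).coeff n) : PX K δ qB :=
  ⟨Option S.F, inferInstance, S.cls, S.PE E, none, (S.PE_pres hE).2, hq,
    fun j => S.xrow_low hE j (by norm_num)⟩

end S1D

end

end Pool.Agent.SSE
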