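import Pool.Agent.SSE.BR8
import Pool.Agent.SSE.S1X

/-!
# SSE project: the output of Theorem H (interface to the final glue `Fin.lean`)
-/

set_option autoImplicit false

open scoped BigOperators
open Matrix Polynomial

namespace Pool.Agent.SSE

attribute [local instance] Classical.propDecidable

section

variable {K : Type} [AddCommGroup K] [Module ℤ[X] K] {δ : ℤ[X]}

/-- the output of Theorem H for the state `S1` (side `A`) and the matrix `B` -/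
def HubOut {qB : ℕ[X]} (S1 : PX K δ qB) {m : ℕ} (B : Matrix (Fin m) (Fin m) ℕ) : Prop :=
  ∃ (I : Type) (_ : Fintype I) (x : I) (r θ Bd : ℝ) (L : Matrix I I (PowerSeries ℕ)) (cl : I → K)
    (SB : PX K δ 0), PEqv SB.P (ofMat B) ∧ HubLim x r θ Bd L ∧
    (∃ D, 1 < ∑ d ∈ Finset.Ico 3 D,
      (((PowerSeries.coeff d (L x x) : ℕ) : ℝ) - (qB.coeff d : ℝ)) * r ^ d) ∧
    Reach S1 cl x r L ∧ Reach SB cl x r L

end

/-- the value condition of `HubOut` from a large part of the series in degrees `> P` -/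
theorem hval_of {f : PowerSeries ℕ} {qB : ℕ[X]} (hq : ∀ d, qB.coeff d ≤ PowerSeries.coeff d f)
    (h6 : qB.eval 1 ≤ 6) {P : ℕ} (hP : 3 ≤ P) {r : ℝ} (r0 : 0 < r) (r1 : r < 1)
    (hS : ∃ S : Finset ℕ, (∀ d ∈ S, P < d) ∧
      20 ≤ ∑ d ∈ S, ((PowerSeries.coeff d f : ℕ) : ℝ) * r ^ d) :
    ∃ D, 1 < ∑ d ∈ Finset.Ico 3 D,
      (((PowerSeries.coeff d f : ℕ) : ℝ) - (qB.coeff d : ℝ)) * r ^ d := by
  obtain ⟨S, hSP, hS⟩ := hS
  set D : ℕ := (∑ d ∈ S, d) + 1 with hD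
  have hsub : S ⊆ Finset.Ico 3 D := by
    intro d hd
    have h1 := hSP d hd
    have h2 : d ≤ ∑ d ∈ S, d := Finset.single_le_sum (f := fun d => d)
      (fun _ _ => Nat.zero_le _) hd
    exact Finset.mem_Ico.2 ⟨by omega, by omega⟩
  have hnn : ∀ d, 0 ≤ (((PowerSeries.coeff d f : ℕ) : ℝ) - (qB.coeff d : ℝ)) * r ^ d := by
    intro d
    have h1 : ((qB.coeff d : ℕ) : ℝ) ≤ ((PowerSeries.coeff d f : ℕ) : ℝ) := by
      exact_mod_cast hq d
    exact mul_nonneg (by linarith) (pow_nonneg r0.le d)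
  have hqS : ∑ d ∈ S, (qB.coeff d : ℝ) * r ^ d ≤ 6 := by
    have h1 : ∑ d ∈ S, (qB.coeff d : ℝ) * r ^ d ≤ ∑ d ∈ S, (qB.coeff d : ℝ) := by
      refine Finset.sum_le_sum fun d _ => ?_
      exact mul_le_of_le_one_right (Nat.cast_nonneg _) (pow_le_one₀ r0.le r1.le)
    have h2 : ∑ d ∈ S, (qB.coeff d : ℝ) ≤ (qB.eval 1 : ℕ) := by
      rw [Polynomial.eval_eq_sum, Polynomial.sum]
      simp only [one_pow, mul_one]
      push_cast
      calc ∑ d ∈ S, (qB.coeff d : ℝ) ≤ ∑ d ∈ S ∪ qB.support, (qB.coeff d : ℝ) :=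
            Finset.sum_le_sum_of_subset_of_nonneg Finset.subset_union_left
              fun _ _ _ => Nat.cast_nonneg _
        _ = ∑ d ∈ qB.support, (qB.coeff d : ℝ) := by
            symm
            refine Finset.sum_subset Finset.subset_union_right fun d _ hd => ?_
            rw [Polynomial.notMem_support_iff.1 hd, Nat.cast_zero]
    have h3 : ((qB.eval 1 : ℕ) : ℝ) ≤ 6 := by exact_mod_cast h6
    linarith
  refine ⟨D, ?_⟩
  calc (1 : ℝ) < 20 - 6 := by norm_num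
    _ ≤ ∑ d ∈ S, (((PowerSeries.coeff d f : ℕ) : ℝ) - (qB.coeff d : ℝ)) * r ^ d := by
      simp only [sub_mul, Finset.sum_sub_distrib]
      linarith
    _ ≤ _ := Finset.sum_le_sum_of_subset_of_nonneg hsub fun d _ _ => hnn d

/-- THEOREM H -/
def ThmH : Prop := ∀ {K : Type} [AddCommGroup K] [Module ℤ[X] K] {δ : ℤ[X]} (D : PFM K δ) {ξ : K}
  (SA SB : S1D D ξ) {m : ℕ} (B : Matrix (Fin m) (Fin m) ℕ), PEqv SB.P (ofMat B) → ∀ P0 : ℕ,
  ∃ P, P0 ≤ P ∧ ∀ qB : ℕ[X], (∀ d, qB.coeff d ≤ 1) → (∀ d ≤ P, qB.coeff d = 0) → qB.eval 1 ≤ 6 →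
    ∃ E1, ∀ E, E1 ≤ E → ∀ (hE : 3 ≤ E) (hq : ∀ n, qB.coeff n ≤ (SA.xrow E none).coeff n),
      HubOut (SA.px E hE qB hq) B

end Pool.Agent.SSE
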