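import Pool.Agent.SSE.HExp

/-!
# SSE project, hub part, HSrc: new hubs
-/

set_option autoImplicit false

open scoped BigOperators
open Matrix Polynomial

namespace Pool.Agent.SSE

attribute [local instance] Classical.propDecidable

section aux

variable {K : Type} [AddCommGroup K] [Module ℤ[X] K] {δ : ℤ[X]} {qB : ℕ[X]} {S0 : PX K δ qB}

/-- a matrix with additional sources `G` (rows `ζ`) -/
noncomputable def srcM {I G : Type} (P : Matrix I I (PowerSeries ℤ)) (ζ : G → I → PowerSeries ℤ) :
    Matrix (I ⊕ G) (I ⊕ G) (PowerSeries ℤ) := fun a b => match a, b with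
  | Sum.inl i, Sum.inl j => P i j
  | Sum.inl _, Sum.inr _ => 0
  | Sum.inr g, Sum.inl j => ζ g j
  | Sum.inr _, Sum.inr _ => 0

theorem srcM_ll {I G : Type} (P : Matrix I I (PowerSeries ℤ)) (ζ : G → I → PowerSeries ℤ)
    (i j : I) : srcM P ζ (Sum.inl i) (Sum.inl j) = P i j := rfl

theorem srcM_lr {I G : Type} (P : Matrix I I (PowerSeries ℤ)) (ζ : G → I → PowerSeries ℤ)
    (i : I) (g : G) : srcM P ζ (Sum.inl i) (Sum.inr g) = 0 := rfl

theorem srcM_rl {I G : Type} (P : Matrix I I (PowerSeries ℤ)) (ζ : G → I → PowerSeries ℤ)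
    (g : G) (j : I) : srcM P ζ (Sum.inr g) (Sum.inl j) = ζ g j := rfl

theorem srcM_rr {I G : Type} (P : Matrix I I (PowerSeries ℤ)) (ζ : G → I → PowerSeries ℤ)
    (g g' : G) : srcM P ζ (Sum.inr g) (Sum.inr g') = 0 := rfl

theorem srcM_updateRow {I G : Type} (dec : DecidableEq (I ⊕ G)) (P : Matrix I I (PowerSeries ℤ))
    (ζ ζ' : G → I → PowerSeries ℤ) (g : G) (N : I → PowerSeries ℤ) (h1 : ζ' g = N)
    (h2 : ∀ g', g' ≠ g → ζ' g' = ζ g') :
    @updateRow _ _ _ dec (srcM P ζ) (Sum.inr g) (Sum.elim N 0) = srcM P ζ' := by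
  ext1 i j
  by_cases hi : i = Sum.inr g
  · subst hi
    rw [updateRow_self]
    rcases j with j | g'
    · rw [srcM_rl, h1]
      rfl
    · rfl
  · rw [updateRow_ne hi]
    rcases i with i | g'
    · rcases j with j | g''
      · rfl
      · rfl
    · rcases j with j | g''
      · rw [srcM_rl, srcM_rl, h2 g' fun e => hi (by rw [e])]
      · rfl

/-- sources: all their rows are pushed once -/
theorem HSrc_push {I G : Type} [Fintype I] [Fintype G] {cl : I ⊕ G → K} {x : I} {r : ℝ}
    (hr : 0 ≤ r) {P : Matrix I I (PowerSeries ℤ)} {ζ : G → I → PowerSeries ℤ}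
    (h : ReachE S0 cl (Sum.inl x) r (srcM P ζ)) (T : Finset G) :
    ReachE S0 cl (Sum.inl x) r
      (srcM P (fun g j => if g ∈ T then ∑ k, ζ g k * P k j else ζ g j)) := by
  have hz : ∀ g k, TS r (ζ g k) := fun g k => h.ts hr (Sum.inr g) (Sum.inl k)
  have hp : ∀ i j, TS r (P i j) := fun i j => h.ts hr (Sum.inl i) (Sum.inl j)
  have hW0 : HN.Nn (0 : PowerSeries ℤ) := HN.nn_zero
  have hF0 : FN r (0 : PowerSeries ℤ) := HExp_FN_zero r
  induction T using Finset.induction_on with
  | empty =>
    have e1 : (fun (g : G) (j : I) => if g ∈ (∅ : Finset G) then ∑ k, ζ g k * P k j else ζ g j) =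
        ζ := by
      funext g j
      rw [if_neg (Finset.notMem_empty g)]
    rw [e1]
    exact h
  | insert g T hg ih =>
    have key := ih.expand hr (Sum.inr g) (Sum.elim (fun k => ζ g k) 0)
      (Sum.elim (fun j => ∑ k, ζ g k * P k j) 0)
      (by
        rintro (k | g')
        · exact (hz g k).nn
        · exact hW0)
      (by
        rintro (k | g')
        · exact (hz g k).fn
        · exact hF0)
      rfl
      (by
        rintro (j | g')
        · simp only [Sum.elim_inl, Fintype.sum_sum_type, Sum.elim_inr, Pi.zero_apply, zero_mul,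
            Finset.sum_const_zero, add_zero, srcM_rl, srcM_ll, if_neg hg]
          ring
        · simp only [Sum.elim_inl, Fintype.sum_sum_type, Sum.elim_inr, Pi.zero_apply,
            Finset.sum_const_zero, add_zero, srcM_rr, srcM_lr, mul_zero, sub_zero])
      (by
        rintro (j | g')
        · exact HN.nn_sum _ _ fun k _ => ((hz g k).nn).mul (hp k j).nn
        · exact hW0)
      (fun ho => absurd ho Sum.inr_ne_inl) (fun ho => absurd ho Sum.inr_ne_inl)
    rw [srcM_updateRow _ P _ (fun g' j => if g' ∈ insert g T then ∑ k, ζ g' k * P k j else ζ g' j)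
      g _ ?_ ?_] at key
    · exact key
    · funext j
      rw [if_pos (Finset.mem_insert_self g T)]
    · intro g' hne
      funext j
      by_cases hT : g' ∈ T
      · rw [if_pos hT, if_pos (Finset.mem_insert_of_mem hT)]
      · rw [if_neg hT, if_neg fun h' => (Finset.mem_insert.1 h').elim hne hT]

/-- the order of the vertices after adding hubs -/
def HSrc_equiv (F G Y : Type) : Option (F ⊕ G) ⊕ Y ≃ (Option F ⊕ Y) ⊕ G where
  toFun i := match i with
    | Sum.inl none => Sum.inl (Sum.inl none)
    | Sum.inl (some (Sum.inl f)) => Sum.inl (Sum.inl (some f))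
    | Sum.inl (some (Sum.inr g)) => Sum.inr g
    | Sum.inr y => Sum.inl (Sum.inr y)
  invFun i := match i with
    | Sum.inl (Sum.inl none) => Sum.inl none
    | Sum.inl (Sum.inl (some f)) => Sum.inl (some (Sum.inl f))
    | Sum.inl (Sum.inr y) => Sum.inr y
    | Sum.inr g => Sum.inl (some (Sum.inr g))
  left_inv := by rintro ((_ | f | g) | y) <;> rfl
  right_inv := by rintro (((_ | f) | y) | g) <;> rfl

end aux

variable {K : Type} [AddCommGroup K] [Module ℤ[X] K] {δ : ℤ[X]} {D : PFM K δ} {qB : ℕ[X]}
  {S0 : PX K δ qB} {r : ℝ} {F : Type} [Fintype F] {cl : Option F → K} {cst : K}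
  {p : Matrix (Option F) (Option F) (PowerSeries ℤ)} {L : Multiset (PowerSeries ℤ)}
  {Y : Type} [Fintype Y] {s : Y → PowerSeries ℤ} {c : Y → K} {q : Y → PowerSeries ℤ}
  {φ : F → PowerSeries ℤ}

/-- new hubs (sources) for given positive classes, pure state, explicit loop vertices; the first
passage series of the new hubs are explicit -/
theorem HubOn.source {H : PowerSeries ℤ} (h : HubOn D S0 r cl (pureM H φ) s c q)
    {G : Type} [Fintype G] (ζ : G → F → ℕ[X]) (hζ : ∀ g f, (ζ g f).coeff 0 = 0)
    (hG : ∀ g, 0 < D.tau (∑ f, toZ (ζ g f) • cl (some f))) :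
    HubOn D S0 r (fun i : Option (F ⊕ G) => i.elim (cl none)
        (Sum.elim (fun f => cl (some f)) fun g => ∑ f, toZ (ζ g f) • cl (some f)))
      (pureM H (Sum.elim φ fun g => ∑ f, ps (toZ (ζ g f)) * φ f)) s c q := by
  have hr := (HExp_r_pos h).le
  have h1 := h.reach.source hr (fun g => Sum.elim (fun a => Option.elim a 0 (ζ g)) 0) (by
    rintro g ((_ | f) | y)
    · exact coeff_zero 0
    · exact hζ g f
    · exact coeff_zero 0)
  have h1' : ReachE S0 (Sum.elim (Sum.elim cl c) fun g => ∑ j,
      toZ ((Sum.elim (fun a => Option.elim a 0 (ζ g)) 0 : Option F ⊕ Y → ℕ[X]) j) •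
        (Sum.elim cl c) j) (Sum.inl (Sum.inl none)) r
      (srcM (hubM (pureM H φ) s q) fun g j =>
        ps (toZ ((Sum.elim (fun a => Option.elim a 0 (ζ g)) 0 : Option F ⊕ Y → ℕ[X]) j))) := by
    refine h1.congr rfl rfl ?_
    ext1 i j
    rcases i with i | g <;> rcases j with j | g' <;> rfl
  have h2 := HSrc_push hr h1' Finset.univ
  have h3 := h2.reindex (HSrc_equiv F G Y)
  have hz0 : toZ (0 : ℕ[X]) = 0 := Polynomial.map_zero _
  have hps0 : ps (0 : ℤ[X]) = 0 := by simp
  have h4 : ReachE S0 (Sum.elim (fun i : Option (F ⊕ G) => i.elim (cl none)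
        (Sum.elim (fun f => cl (some f)) fun g => ∑ f, toZ (ζ g f) • cl (some f))) c)
      (Sum.inl none) r
      (hubM (pureM H (Sum.elim φ fun g => ∑ f, ps (toZ (ζ g f)) * φ f)) s q) := by
    refine h3.congr ?_ rfl ?_
    · funext j
      rcases j with (_ | f | g) | y
      · rfl
      · rfl
      · change ∑ j, toZ ((Sum.elim (fun a => Option.elim a 0 (ζ g)) 0 : Option F ⊕ Y → ℕ[X]) j) •
          (Sum.elim cl c) j = ∑ f, toZ (ζ g f) • cl (some f)
        simp only [Fintype.sum_sum_type, Sum.elim_inl, Sum.elim_inr, Fintype.sum_option,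
          Option.elim_none, Option.elim_some, Pi.zero_apply, hz0, zero_smul,
          Finset.sum_const_zero, add_zero, zero_add]
      · rfl
    · ext1 i j
      have key : ∀ (g : G) (j : Option F ⊕ Y),
          (∑ k, ps (toZ ((Sum.elim (fun a => Option.elim a 0 (ζ g)) 0 : Option F ⊕ Y → ℕ[X]) k)) *
            hubM (pureM H φ) s q k j) =
          if j = Sum.inl none then ∑ f, ps (toZ (ζ g f)) * φ f else 0 := by
        intro g j
        simp only [Fintype.sum_sum_type, Sum.elim_inl, Sum.elim_inr, Fintype.sum_option,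
          Option.elim_none, Option.elim_some, Pi.zero_apply, hz0, hps0, zero_mul,
          Finset.sum_const_zero, add_zero, zero_add]
        rcases j with (_ | f) | y
        · rw [if_pos rfl]
          rfl
        · rw [if_neg (by simp)]
          refine Finset.sum_eq_zero fun k _ => ?_
          rw [HExp_inl_inl]
          change _ * (if (some f : Option F) = none then _ else (0 : PowerSeries ℤ)) = 0
          rw [if_neg (by simp), mul_zero]
        · rw [if_neg (by simp)]
          refine Finset.sum_eq_zero fun k _ => ?_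
          rw [HExp_inl_inr, mul_zero]
      rcases i with (_ | f | g) | y
      · rcases j with (_ | f' | g') | z <;> rfl
      · rcases j with (_ | f' | g') | z <;> rfl
      · rcases j with (_ | f' | g') | z
        · change (if g ∈ Finset.univ then ∑ k, _ * _ else _) = _
          rw [if_pos (Finset.mem_univ g), key, if_pos rfl]
          rfl
        · change (if g ∈ Finset.univ then ∑ k, _ * _ else _) = _
          rw [if_pos (Finset.mem_univ g), key, if_neg (by simp)]
          rfl
        · rfl
        · change (if g ∈ Finset.univ then ∑ k, _ * _ else _) = _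
          rw [if_pos (Finset.mem_univ g), key, if_neg (by simp)]
          rfl
      · rcases j with (_ | f' | g') | z <;> rfl
  refine ⟨h.r_gt, h.r_le, fun i j => ?_, h.s_ts, h.s_ne, h.s_lt, h.q_ts, h.c_pos, ?_, h.qB_le, ?_,
    h4⟩
  · have := h4.ts hr (Sum.inl i) (Sum.inl j)
    rwa [HExp_inl_inl] at this
  · rintro (_ | f | g)
    · exact h.cl_pos none
    · exact h.cl_pos (some f)
    · exact hG g
  · intro j
    have := h4.coeff_one (Sum.inl j)
    rwa [HExp_inl_inl] at this

/-- new hubs (sources) for given positive classes, pure state -/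
theorem Hub.source {H : PowerSeries ℤ} (h : Hub D S0 r cl cst (pureM H φ) L) {ι : Type} [Fintype ι]
    (e : ι → F) (hrep : Rep D (fun i => cl (some (e i)))) {G : Type} [Fintype G] (clG : G → K)
    (hG : ∀ g, 0 < D.tau (clG g)) :
    ∃ φ' : G → PowerSeries ℤ,
      Hub D S0 r (fun i : Option (F ⊕ G) => i.elim (cl none) (Sum.elim (fun f => cl (some f)) clG))
        cst (pureM H (Sum.elim φ φ')) L := by
  obtain ⟨Y, hY, s, q, hL, h⟩ := h
  obtain ⟨C2, -, hrep⟩ := hrep
  have h1 : ∀ g, ∃ ζ : F → ℕ[X], (∀ f, (ζ f).coeff 0 = 0) ∧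
      ∑ f, toZ (ζ f) • cl (some f) = clG g := by
    intro g
    obtain ⟨L0, hL0⟩ := hrep (clG g) (hG g)
    obtain ⟨v, -, hv, -⟩ := hL0 (L0 + 1) (Nat.le_succ L0)
    refine ⟨fun f => ∑ i, if e i = f then C (v i) * X ^ (L0 + 1) else 0, fun f => ?_, ?_⟩
    · rw [finsetSum_coeff]
      refine Finset.sum_eq_zero fun i _ => ?_
      split_ifs
      · rw [coeff_C_mul, coeff_X_pow, if_neg (Nat.succ_ne_zero L0).symm, mul_zero]
      · exact coeff_zero 0
    · rw [hv]
      have e1 : ∀ f, toZ (∑ i, if e i = f then C (v i) * X ^ (L0 + 1) else 0) =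
          ∑ i, if e i = f then toZ (C (v i) * X ^ (L0 + 1)) else 0 := by
        intro f
        unfold toZ
        rw [Polynomial.map_sum]
        refine Finset.sum_congr rfl fun i _ => ?_
        split_ifs
        · rfl
        · exact Polynomial.map_zero _
      simp only [e1, Finset.sum_smul, ite_smul, zero_smul]
      rw [Finset.sum_comm]
      refine Finset.sum_congr rfl fun i _ => ?_
      rw [Finset.sum_ite_eq, if_pos (Finset.mem_univ _)]
  choose ζ hζ0 hζ using h1
  refine ⟨fun g => ∑ f, ps (toZ (ζ g f)) * φ f, Y, hY, s, q, hL, ?_⟩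
  have h2 := h.source ζ hζ0 (fun g => by
    rw [hζ g]
    exact hG g)
  simp only [hζ] at h2
  exact h2

end Pool.Agent.SSE
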