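import Pool.Agent.SSE.HOwn0

/-!
# SSE project, hub part, Section 7 (own hubs): the sequence of the own hubs

`glue w R`: row `w` of the main hub, rows `R` of the hubs `F`.
`OwnSeq r θ R cs φ`: the rows `R` are processed one after the other (row `f`: push `F - f`, result
`c e_f + q e_x`, division by `1 - c`); `cs` the list of the loop series, at the end the rows are
`φ_f e_x`.
-/

set_option autoImplicit false
set_option linter.unusedSectionVars false

open scoped BigOperators
open Matrix

namespace Pool.Agent.SSE

attribute [local instance] Classical.propDecidable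

variable {F : Type} [Fintype F] {r θ : ℝ}

/-- row `w` of the main hub, rows `R` of the hubs `F` -/
def glue (w : Option F → PowerSeries ℤ) (R : F → Option F → PowerSeries ℤ) :
    Matrix (Option F) (Option F) (PowerSeries ℤ) := fun i => Option.elim i w R

@[simp] lemma glue_none (w : Option F → PowerSeries ℤ) (R : F → Option F → PowerSeries ℤ) :
    glue w R none = w := rfl

@[simp] lemma glue_some (w : Option F → PowerSeries ℤ) (R : F → Option F → PowerSeries ℤ) (f : F) :
    glue w R (some f) = R f := rfl

/-- the rows `R` on `F` -/
def rFF (R : F → Option F → PowerSeries ℤ) : Matrix F F (PowerSeries ℤ) := fun f k => R f (some k)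

/-- a pure row -/
noncomputable def pureR (φ : PowerSeries ℤ) : Option F → PowerSeries ℤ :=
  fun j => Option.elim j φ fun _ => 0

/-- a row with a loop -/
noncomputable def loopR (f : F) (c φ : PowerSeries ℤ) : Option F → PowerSeries ℤ :=
  fun j => Option.elim j φ fun k => if k = f then c else 0

/-- the data of pushing `F - f` out of the row `f` -/
structure PushF (r θ : ℝ) (R : F → Option F → PowerSeries ℤ) (f : F) (W : F → PowerSeries ℤ)
    (c q : PowerSeries ℤ) : Prop where
  W_ts : ∀ k, TS r (W k)
  W_f : W f = 0
  c_ts : TS r c
  q_ts : TS r q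
  c_le : sn r c ≤ θ
  other : ∀ l, l ≠ f → R f (some l) + ∑ k, W k * R k (some l) = W l
  loop : R f (some f) + ∑ k, W k * R k (some f) = c
  ret : R f none + ∑ k, W k * R k none = q

theorem ho_exists_push (hr : 0 ≤ r) {g : F → ℝ} {R : F → Option F → PowerSeries ℤ}
    (hG : GoodW r g θ (rFF R)) (hR : ∀ f j, TS r (R f j)) (f : F) :
    ∃ W c q, PushF r θ R f W c q := by
  set M : Matrix F F (PowerSeries ℤ) := fun k l => if l = f then 0 else R k (some l) with hM
  have hMts : ∀ k l, TS r (M k l) := by
    intro k l
    rw [hM]
    simp only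
    split_ifs
    · exact ho_ts_zero r
    · exact hR k _
  have hGM : GoodW r g θ M := by
    refine ⟨hG.pos, hG.nonneg, hG.lt, fun k => le_trans (Finset.sum_le_sum fun l _ => ?_) (hG.row k)⟩
    refine mul_le_mul_of_nonneg_right ?_ (hG.pos l).le
    rw [hM]
    simp only
    split_ifs
    · rw [ho_sn_zero]
      exact ho_sn_nonneg hr _
    · exact le_rfl
  obtain ⟨W, hWts, hW⟩ := ho_exists_solve hr hGM hMts (fun l => M f l) fun l => hMts f l
  have hWf : W f = 0 := by
    rw [hW f]
    have h1 : ∀ k, M k f = 0 := fun k => by rw [hM]; simp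
    rw [h1 f, zero_add]
    exact Finset.sum_eq_zero fun k _ => by rw [h1 k, mul_zero]
  have hsumts : ∀ j, TS r (∑ k, W k * R k j) := fun j =>
    ho_ts_sum hr _ _ fun k _ => (hWts k).ho_mul hr (hR k j)
  refine ⟨W, _, _, hWts, hWf, (hR f (some f)).ho_add hr (hsumts _), (hR f none).ho_add hr (hsumts _), ?_,
    fun l hl => ?_, rfl, rfl⟩
  · -- the norm of the loop
    have e1 : ∀ l, l ≠ f → sn r (W l) = sn r (R f (some l)) + ∑ k, sn r (W k) * sn r (R k (some l)) := by
      intro l hl
      have h1 : W l = R f (some l) + ∑ k, W k * R k (some l) := by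
        conv_lhs => rw [hW l]
        simp only [hM, if_neg hl]
      conv_lhs => rw [h1]
      rw [ho_sn_add hr (hR _ _) (hsumts _), ho_sn_sum hr _ _ fun k _ => (hWts k).ho_mul hr (hR k _)]
      congr 1
      exact Finset.sum_congr rfl fun k _ => ho_sn_mul hr (hWts k) (hR k _)
    have e2 : sn r (R f (some f) + ∑ k, W k * R k (some f)) =
        sn r (R f (some f)) + ∑ k, sn r (W k) * sn r (R k (some f)) := by
      rw [ho_sn_add hr (hR _ _) (hsumts _), ho_sn_sum hr _ _ fun k _ => (hWts k).ho_mul hr (hR k _)]
      congr 1
      exact Finset.sum_congr rfl fun k _ => ho_sn_mul hr (hWts k) (hR k _)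
    rw [e2]
    have e3 : ∑ l, (sn r (R f (some l)) + ∑ k, sn r (W k) * sn r (R k (some l))) * g l ≤
        θ * g f + ∑ k, sn r (W k) * (θ * g k) := by
      have h1 : ∑ l, (sn r (R f (some l)) + ∑ k, sn r (W k) * sn r (R k (some l))) * g l =
          ∑ l, sn r (R f (some l)) * g l +
            ∑ k, sn r (W k) * ∑ l, sn r (R k (some l)) * g l := by
        simp only [add_mul, Finset.sum_add_distrib, Finset.sum_mul, Finset.mul_sum]
        rw [Finset.sum_comm (s := Finset.univ) (t := Finset.univ)
          (f := fun l k => sn r (W k) * sn r (R k (some l)) * g l)]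
        congr 1
        refine Finset.sum_congr rfl fun k _ => Finset.sum_congr rfl fun l _ => ?_
        ring
      rw [h1]
      exact add_le_add (hG.row f) (Finset.sum_le_sum fun k _ =>
        mul_le_mul_of_nonneg_left (hG.row k) (ho_sn_nonneg hr _))
    have e4 : ∑ l, (sn r (R f (some l)) + ∑ k, sn r (W k) * sn r (R k (some l))) * g l =
        (sn r (R f (some f)) + ∑ k, sn r (W k) * sn r (R k (some f))) * g f +
          ∑ l, sn r (W l) * g l := by
      rw [← Finset.add_sum_erase _ _ (Finset.mem_univ f)]
      congr 1
      rw [← Finset.add_sum_erase _ (fun l => sn r (W l) * g l) (Finset.mem_univ f), hWf, ho_sn_zero,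
        zero_mul, zero_add]
      refine Finset.sum_congr rfl fun l hl => ?_
      rw [← e1 l (Finset.ne_of_mem_erase hl)]
    have e5 : ∑ k, sn r (W k) * (θ * g k) ≤ ∑ l, sn r (W l) * g l := by
      refine Finset.sum_le_sum fun k _ => mul_le_mul_of_nonneg_left ?_ (ho_sn_nonneg hr _)
      have := hG.pos k
      have := hG.lt
      nlinarith
    have e6 : (sn r (R f (some f)) + ∑ k, sn r (W k) * sn r (R k (some f))) * g f ≤ θ * g f := by
      linarith
    exact le_of_mul_le_mul_right e6 (hG.pos f)
  · conv_rhs => rw [hW l]
    simp only [hM, if_neg hl]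

/-- the sequence of the own hubs -/
inductive OwnSeq (r θ : ℝ) : (F → Option F → PowerSeries ℤ) → List (PowerSeries ℤ) →
    (F → PowerSeries ℤ) → Prop
  | done (φ : F → PowerSeries ℤ) (hφ : ∀ f, TS r (φ f)) : OwnSeq r θ (fun f => pureR (φ f)) [] φ
  | step (R : F → Option F → PowerSeries ℤ) (f : F) (W : F → PowerSeries ℤ) (c q : PowerSeries ℤ)
      (cs : List (PowerSeries ℤ)) (φ : F → PowerSeries ℤ) (g : F → ℝ) (hG : GoodW r g θ (rFF R))
      (hR : ∀ f j, TS r (R f j)) (hP : PushF r θ R f W c q)
      (h : OwnSeq r θ (Function.update R f (pureR (q * HN.geo c))) cs φ) :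
      OwnSeq r θ R (c :: cs) φ

lemma TS.ho_mul_geo (hr : 0 ≤ r) {q c : PowerSeries ℤ} (hq : TS r q) (hc : TS r c) (h1 : sn r c < 1) :
    TS r (q * HN.geo c) :=
  hq.ho_mul_right hr (HN.nn_geo hc.c0 hc.nn) (HN.hasN_geo hr hc.c0 hc.fn h1)

theorem exists_ownSeq (hr : 0 ≤ r) {g : F → ℝ} (S : Finset F) :
    ∀ {R : F → Option F → PowerSeries ℤ}, GoodW r g θ (rFF R) → (∀ f j, TS r (R f j)) →
      (∀ f, f ∉ S → R f = pureR (R f none)) → ∃ cs φ, OwnSeq r θ R cs φ := by
  induction S using Finset.induction_on with
  | empty =>
    intro R hG hR hS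
    refine ⟨[], fun f => R f none, ?_⟩
    have h1 : R = fun f => pureR (R f none) := by
      funext f
      exact hS f (by simp)
    have h2 := OwnSeq.done (r := r) (θ := θ) (fun f => R f none) fun f => hR f none
    rw [← h1] at h2
    exact h2
  | insert f S hf ih =>
    intro R hG hR hS
    obtain ⟨W, c, q, hP⟩ := ho_exists_push hr hG hR f
    have hc1 : sn r c < 1 := lt_of_le_of_lt hP.c_le hG.lt
    have hq' := hP.q_ts.ho_mul_geo hr hP.c_ts hc1
    have hR' : ∀ k j, TS r (Function.update R f (pureR (q * HN.geo c)) k j) := by
      intro k j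
      by_cases hk : k = f
      · subst hk
        rw [Function.update_self]
        cases j with
        | none => exact hq'
        | some l => exact ho_ts_zero r
      · rw [Function.update_of_ne hk]
        exact hR k j
    have hG' : GoodW r g θ (rFF (Function.update R f (pureR (q * HN.geo c)))) := by
      refine ⟨hG.pos, hG.nonneg, hG.lt, fun k => ?_⟩
      by_cases hk : k = f
      · subst hk
        have h0 : ∀ l, rFF (Function.update R k (pureR (q * HN.geo c))) k l = 0 := fun l => by
          unfold rFF
          rw [Function.update_self]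
          rfl
        simp only [h0, ho_sn_zero, zero_mul, Finset.sum_const_zero]
        exact mul_nonneg hG.nonneg (hG.pos k).le
      · have h0 : ∀ l, rFF (Function.update R f (pureR (q * HN.geo c))) k l = rFF R k l :=
          fun l => by
          unfold rFF
          rw [Function.update_of_ne hk]
        simp only [h0]
        exact hG.row k
    obtain ⟨cs, φ, h⟩ := ih hG' hR' fun k hk => by
      by_cases hkf : k = f
      · subst hkf
        rw [Function.update_self]
        rfl
      · rw [Function.update_of_ne hkf]
        exact hS k (by simp [hkf, hk])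
    exact ⟨c :: cs, φ, OwnSeq.step R f W c q cs φ g hG hR hP h⟩

/-- a push does not change the first passage series -/
lemma PushF.fp {R : F → Option F → PowerSeries ℤ} {f : F} {W : F → PowerSeries ℤ}
    {c q : PowerSeries ℤ} (hP : PushF r θ R f W c q) {φ : F → PowerSeries ℤ}
    (h : ∀ k, φ k = Function.update R f (pureR (q * HN.geo c)) k none +
      ∑ l, Function.update R f (pureR (q * HN.geo c)) k (some l) * φ l) (k : F) :
    φ k = R k none + ∑ l, R k (some l) * φ l := by
  have h1 : ∀ k, k ≠ f → φ k = R k none + ∑ l, R k (some l) * φ l := by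
    intro k hk
    have := h k
    rw [Function.update_of_ne hk] at this
    exact this
  by_cases hk : k = f
  · subst hk
    have h2 : φ k = q * HN.geo c := by
      have := h k
      rw [Function.update_self] at this
      simpa [pureR] using this
    have h3 : (1 - c) * φ k = q := by
      rw [h2]
      linear_combination q * HN.one_sub_mul_geo hP.c_ts.c0
    -- `∑ W_l (φ_l - R_l,none - ∑ R_lm φ_m) = 0`
    have h4 : ∑ l, W l * (φ l - R l none - ∑ m, R l (some m) * φ m) = 0 := by
      refine Finset.sum_eq_zero fun l _ => ?_
      by_cases hl : l = k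
      · rw [hl, hP.W_f, zero_mul]
      · rw [h1 l hl]
        ring
    have h5 : ∑ l, W l * (φ l - R l none - ∑ m, R l (some m) * φ m) =
        ∑ l, W l * φ l - ∑ l, W l * R l none - ∑ m, (∑ l, W l * R l (some m)) * φ m := by
      simp only [mul_sub, Finset.sum_sub_distrib, Finset.mul_sum, Finset.sum_mul]
      rw [Finset.sum_comm (s := Finset.univ) (t := Finset.univ)
        (f := fun l m => W l * (R l (some m) * φ m))]
      congr 1
      refine Finset.sum_congr rfl fun m _ => Finset.sum_congr rfl fun l _ => ?_
      ring
    have h6 : ∑ m, (R k (some m) + ∑ l, W l * R l (some m)) * φ m = c * φ k + ∑ l, W l * φ l := by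
      rw [← Finset.add_sum_erase _ _ (Finset.mem_univ k), hP.loop,
        ← Finset.add_sum_erase _ (fun l => W l * φ l) (Finset.mem_univ k), hP.W_f, zero_mul,
        zero_add]
      congr 1
      refine Finset.sum_congr rfl fun l hl => ?_
      rw [hP.other l (Finset.ne_of_mem_erase hl)]
    have h7 : ∑ m, (R k (some m) + ∑ l, W l * R l (some m)) * φ m =
        ∑ m, R k (some m) * φ m + ∑ m, (∑ l, W l * R l (some m)) * φ m := by
      rw [← Finset.sum_add_distrib]
      refine Finset.sum_congr rfl fun m _ => ?_
      ring
    have h8 := hP.ret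
    rw [h5] at h4
    rw [h7] at h6
    linear_combination h3 - h4 - h6 - h8
  · exact h1 k hk

theorem OwnSeq.fp {R : F → Option F → PowerSeries ℤ} {cs : List (PowerSeries ℤ)}
    {φ : F → PowerSeries ℤ} (h : OwnSeq r θ R cs φ) (k : F) :
    φ k = R k none + ∑ l, R k (some l) * φ l := by
  induction h generalizing k with
  | done φ hφ => simp [pureR]
  | step R f W c q cs φ g hG hR hP _ ih => exact hP.fp ih k

theorem OwnSeq.ts {R : F → Option F → PowerSeries ℤ} {cs : List (PowerSeries ℤ)}
    {φ : F → PowerSeries ℤ} (h : OwnSeq r θ R cs φ) : ∀ f, TS r (φ f) := by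
  induction h with
  | done φ hφ => exact hφ
  | step R f W c q cs φ g hG hR hP _ ih => exact ih

theorem OwnSeq.ownC {R : F → Option F → PowerSeries ℤ} {cs : List (PowerSeries ℤ)}
    {φ : F → PowerSeries ℤ} (h : OwnSeq r θ R cs φ) : ∀ c ∈ cs, TS r c ∧ sn r c ≤ θ := by
  induction h with
  | done φ hφ => simp
  | step R f W c q cs φ g hG hR hP _ ih =>
    intro c' hc'
    rcases List.mem_cons.1 hc' with h | h
    · subst h
      exact ⟨hP.c_ts, hP.c_le⟩
    · exact ih c' h

lemma PushF.det {R : F → Option F → PowerSeries ℤ} {f : F} {W : F → PowerSeries ℤ}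
    {c q : PowerSeries ℤ} (hP : PushF r θ R f W c q) (w : Option F → PowerSeries ℤ) :
    (1 - glue w R).det =
      (1 - c) * (1 - glue w (Function.update R f (pureR (q * HN.geo c)))).det := by
  set A := 1 - glue w R with hA
  set A' := 1 - glue w (Function.update R f (pureR (q * HN.geo c))) with hA'
  set co : Option F → PowerSeries ℤ := fun j => Option.elim j 0 fun k => if k = f then 1 else W k
    with hco
  have h1 : (A.updateRow (some f) (∑ l, co l • A l)).det = A.det := by
    rw [det_updateRow_sum]
    simp [hco]
  have h2 : A.updateRow (some f) (∑ l, co l • A l) = A'.updateRow (some f) ((1 - c) • A' (some f)) := by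
    refine Matrix.ext fun i j => ?_
    by_cases hi : i = some f
    · subst hi
      rw [updateRow_self, updateRow_self, Finset.sum_apply, Fintype.sum_option]
      simp only [Pi.smul_apply, smul_eq_mul, hco, Option.elim_none, zero_mul, zero_add,
        Option.elim_some]
      have e1 : ∀ k, (if k = f then (1 : PowerSeries ℤ) else W k) * A (some k) j =
          (if k = f then A (some f) j else 0) + W k * A (some k) j := by
        intro k
        by_cases hk : k = f
        · subst hk
          simp [hP.W_f]
        · simp [hk]
      simp only [e1, Finset.sum_add_distrib, Finset.sum_ite_eq', Finset.mem_univ, if_true]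
      have e2 : ∀ k, A (some k) j = (1 : Matrix (Option F) (Option F) (PowerSeries ℤ)) (some k) j -
          R k j := fun k => by
        rw [hA]
        rfl
      have e3 : A' (some f) j = (1 : Matrix (Option F) (Option F) (PowerSeries ℤ)) (some f) j -
          pureR (F := F) (q * HN.geo c) j := by
        rw [hA']
        have : glue w (Function.update R f (pureR (q * HN.geo c))) (some f) j =
            pureR (F := F) (q * HN.geo c) j := by
          rw [glue_some, Function.update_self]
        rw [← this]
        rfl
      simp only [e2, e3, mul_sub, Finset.sum_sub_distrib]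
      cases j with
      | none =>
        have e4 : ∀ k : F, (1 : Matrix (Option F) (Option F) (PowerSeries ℤ)) (some k) none = 0 :=
          fun k => Matrix.one_apply_ne (by simp)
        simp only [e4, mul_zero, Finset.sum_const_zero]
        have := hP.ret
        simp only [pureR, Option.elim_none]
        linear_combination -this + q * HN.one_sub_mul_geo hP.c_ts.c0
      | some l =>
        have e4 : ∀ k : F, (1 : Matrix (Option F) (Option F) (PowerSeries ℤ)) (some k) (some l) =
            if k = l then 1 else 0 := fun k => by
          rw [Matrix.one_apply]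
          simp
        simp only [e4, mul_ite, mul_one, mul_zero, Finset.sum_ite_eq', Finset.mem_univ, if_true]
        simp only [pureR, Option.elim_some]
        by_cases hl : l = f
        · subst hl
          have := hP.loop
          simp only [if_true, hP.W_f]
          linear_combination -this
        · have := hP.other l hl
          simp only [if_neg (Ne.symm hl)]
          linear_combination -this
    · rw [updateRow_ne hi, updateRow_ne hi, hA, hA']
      rcases i with _ | k
      · rfl
      · have hk : k ≠ f := fun h => hi (by rw [h])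
        have : glue w (Function.update R f (pureR (q * HN.geo c))) (some k) = R k := by
          rw [glue_some, Function.update_of_ne hk]
        have h3 : ∀ j, (1 - glue w (Function.update R f (pureR (q * HN.geo c)))) (some k) j =
            (1 : Matrix (Option F) (Option F) (PowerSeries ℤ)) (some k) j -
              glue w (Function.update R f (pureR (q * HN.geo c))) (some k) j := fun j => rfl
        rw [h3, this]
        rfl
  rw [← h1, h2, det_updateRow_smul, updateRow_eq_self]

/-- determinant of a pure state -/
lemma ho_det_pure (w : Option F → PowerSeries ℤ) (φ : F → PowerSeries ℤ) :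
    (1 - glue w (fun f => pureR (φ f))).det = 1 - (w none + ∑ f, w (some f) * φ f) := by
  set A := 1 - glue w (fun f => pureR (φ f)) with hA
  set co : Option F → PowerSeries ℤ := fun j => Option.elim j 1 fun k => w (some k) with hco
  have h1 : (A.updateRow none (∑ l, co l • A l)).det = A.det := by
    rw [det_updateRow_sum]
    simp [hco]
  have e0 : ∀ j, A none j = (1 : Matrix (Option F) (Option F) (PowerSeries ℤ)) none j - w j :=
    fun j => by rw [hA]; rfl
  have e2 : ∀ k j, A (some k) j = (1 : Matrix (Option F) (Option F) (PowerSeries ℤ)) (some k) j -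
      pureR (F := F) (φ k) j := fun k j => by rw [hA]; rfl
  set B := A.updateRow none (∑ l, co l • A l) with hB
  have hB0 : ∀ j, B none j = if j = none then 1 - (w none + ∑ f, w (some f) * φ f) else 0 := by
    intro j
    rw [hB, updateRow_self, Finset.sum_apply, Fintype.sum_option]
    simp only [Pi.smul_apply, smul_eq_mul, hco, Option.elim_none, one_mul, Option.elim_some, e0, e2,
      mul_sub, Finset.sum_sub_distrib]
    cases j with
    | none =>
      have e4 : ∀ k : F, (1 : Matrix (Option F) (Option F) (PowerSeries ℤ)) (some k) none = 0 :=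
        fun k => Matrix.one_apply_ne (by simp)
      simp only [e4, mul_zero, Finset.sum_const_zero, Matrix.one_apply_eq, pureR, Option.elim_none,
        if_true]
      ring
    | some l =>
      have e4 : ∀ k : F, (1 : Matrix (Option F) (Option F) (PowerSeries ℤ)) (some k) (some l) =
          if k = l then 1 else 0 := fun k => by
        rw [Matrix.one_apply]
        simp
      have e5 : (1 : Matrix (Option F) (Option F) (PowerSeries ℤ)) none (some l) = 0 :=
        Matrix.one_apply_ne (by simp)
      simp only [e4, e5, mul_ite, mul_one, mul_zero, Finset.sum_ite_eq', Finset.mem_univ, if_true,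
        pureR, Option.elim_some, Finset.sum_const_zero]
      simp
  have hB1 : ∀ (k l : F), B (some k) (some l) = if k = l then 1 else 0 := by
    intro k l
    rw [hB, updateRow_ne (by simp), e2, Matrix.one_apply]
    simp [pureR]
  -- block triangular
  rw [← h1]
  have h3 : B.det = (B.submatrix (Equiv.optionEquivSumPUnit.{0} F).symm
      (Equiv.optionEquivSumPUnit.{0} F).symm).det := (det_submatrix_equiv_self _ _).symm
  rw [h3]
  have h4 : B.submatrix (Equiv.optionEquivSumPUnit.{0} F).symm (Equiv.optionEquivSumPUnit.{0} F).symm =
      fromBlocks 1 (fun k _ => B (some k) none) 0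
        (fun _ _ => 1 - (w none + ∑ f, w (some f) * φ f)) := by
    refine Matrix.ext fun i j => ?_
    rcases i with k | u <;> rcases j with l | v
    · simp only [submatrix_apply, fromBlocks_apply₁₁, Equiv.optionEquivSumPUnit_symm_inl, hB1,
        Matrix.one_apply]
    · simp [submatrix_apply, fromBlocks_apply₁₂]
    · simp [submatrix_apply, fromBlocks_apply₂₁, hB0]
    · simp [submatrix_apply, fromBlocks_apply₂₂, hB0]
  rw [h4, det_fromBlocks_zero₂₁, det_one, one_mul, det_unique]

theorem OwnSeq.det {R : F → Option F → PowerSeries ℤ} {cs : List (PowerSeries ℤ)}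
    {φ : F → PowerSeries ℤ} (h : OwnSeq r θ R cs φ) (w : Option F → PowerSeries ℤ) :
    (1 - glue w R).det =
      (1 - (w none + ∑ f, w (some f) * φ f)) * (cs.map fun c => 1 - c).prod := by
  induction h with
  | done φ hφ =>
    rw [ho_det_pure]
    simp
  | step R f W c q cs φ g hG hR hP _ ih =>
    rw [hP.det w, ih, List.map_cons, List.prod_cons]
    ring

end Pool.Agent.SSE
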