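import Pool.Agent.SSE.Reach4

/-!
# The limit calculus: several sources
-/

set_option autoImplicit false

open scoped BigOperators
open Matrix Polynomial

namespace Pool.Agent.SSE

open Pool.Agent.helper52.SSE

attribute [local instance] Classical.propDecidable

section
variable {K : Type} [AddCommGroup K] [Module ℤ[X] K] {δ : ℤ[X]} {q : ℕ[X]}
variable {S0 : PX K δ q} {I : Type} [Fintype I] {g : I → K} {x : I} {r : ℝ}
  {L : Matrix I I (PowerSeries ℕ)}

/-- (C4) SOURCES with the rows `ζ k`, `k : κ` -/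
theorem Reach.source (hr : 0 ≤ r) (h : Reach S0 g x r L) {κ : Type} [Fintype κ]
    (ζ : Matrix κ I ℕ[X]) (hζ : ∀ k j, (ζ k j).coeff 0 = 0)
    {L' : Matrix (I ⊕ κ) (I ⊕ κ) (PowerSeries ℕ)}
    (hL : ∀ a j, L' (Sum.inl a) (Sum.inl j) = L a j)
    (hL0 : ∀ a k, L' (Sum.inl a) (Sum.inr k) = 0)
    (hLζ : ∀ k j, L' (Sum.inr k) (Sum.inl j) = (ζ k j : PowerSeries ℕ))
    (hL00 : ∀ k l, L' (Sum.inr k) (Sum.inr l) = 0) :
    Reach S0 (Sum.elim g fun k => ∑ j, toZ (ζ k j) • g j) (Sum.inl x) r L' := by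
  obtain ⟨B, M0, h⟩ := h
  refine ⟨B + ∑ k, ∑ j, nv r (ζ k j), fromBlocks M0 0 (-(ζ.map toZ)) 1, fun T => ?_⟩
  obtain ⟨P, hP, hq, hx, hrel, hV, hAg, hB⟩ := h T
  have hB0 : 0 ≤ B := le_trans (nv_nonneg hr _) (hB x x)
  have hs0 : ∀ k, 0 ≤ ∑ j, nv r (ζ k j) := fun k => Finset.sum_nonneg fun j _ => nv_nonneg hr _
  have hs00 : 0 ≤ ∑ k, ∑ j, nv r (ζ k j) := Finset.sum_nonneg fun k _ => hs0 k
  obtain ⟨hP1, hq1, hx1, hrel1⟩ := PX.sources hP hq hx ζ hζ
  refine ⟨_, hP1, hq1, hx1, hrel.trans hrel1, ?_, ?_, ?_⟩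
  · refine EX_src (Function.Embedding.inl : I ↪ I ⊕ κ) hV ?_ ?_ ?_ ?_ ?_
    · intro i j
      rw [IP_src]
      rfl
    · intro i j
      rfl
    · rintro (a | a) ha b
      · exact absurd ⟨a, rfl⟩ ha
      · rw [IP_src]
        rcases b with b | b
        · rfl
        · rw [fromBlocks_apply₂₂, fromBlocks_apply₂₂]
    · rintro i (b | b) hb
      · exact absurd ⟨b, rfl⟩ hb
      · rw [IP_src]
        rfl
    · rintro i (b | b) hb
      · exact absurd ⟨b, rfl⟩ hb
      · rfl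
  · rintro (a | a) (b | b)
    · rw [hL]
      exact hAg a b
    · rw [hL0]
      exact ag_zero T
    · rw [hLζ]
      exact ag_coe T _
    · rw [hL00]
      exact ag_zero T
  · rintro (a | a) (b | b)
    · have := hB a b
      rw [fromBlocks_apply₁₁]
      linarith
    · rw [fromBlocks_apply₁₂, Matrix.zero_apply, map_zero]
      linarith
    · rw [fromBlocks_apply₂₁]
      have e1 : nv r (ζ a b) ≤ ∑ j, nv r (ζ a j) :=
        Finset.single_le_sum (f := fun j => nv r (ζ a j)) (fun j _ => nv_nonneg hr _)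
          (Finset.mem_univ b)
      have e2 : ∑ j, nv r (ζ a j) ≤ ∑ k, ∑ j, nv r (ζ k j) :=
        Finset.single_le_sum (f := fun k => ∑ j, nv r (ζ k j)) (fun k _ => hs0 k)
          (Finset.mem_univ a)
      linarith
    · rw [fromBlocks_apply₂₂, Matrix.zero_apply, map_zero]
      linarith

end

end Pool.Agent.SSE
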