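import Pool.Agent.SSE.Reach2

/-!
# The limit calculus: solutions of `W = w + W M`, isolation, push
-/

set_option autoImplicit false

open scoped BigOperators
open Matrix Polynomial

namespace Pool.Agent.SSE

open Pool.Agent.helper52.SSE

attribute [local instance] Classical.propDecidable

/-! ### linear equations over `ℕ[[X]]` -/

lemma ps_exists_add {a b : PowerSeries ℕ}
    (h : ∀ d, PowerSeries.coeff d a ≤ PowerSeries.coeff d b) : ∃ c, c + a = b := by
  refine ⟨PowerSeries.mk fun d => PowerSeries.coeff d b - PowerSeries.coeff d a, ?_⟩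
  ext d
  rw [map_add, PowerSeries.coeff_mk]
  have := h d
  omega

lemma ps_add_right_cancel {a b c : PowerSeries ℕ} (h : a + c = b + c) : a = b := by
  ext d
  have e1 := congrArg (PowerSeries.coeff d) h
  rw [map_add, map_add] at e1
  omega

section solve
variable {S : Type} [Fintype S]

lemma coeff_sum_mul_congr {M : Matrix S S (PowerSeries ℕ)}
    (hM : ∀ k l, PowerSeries.coeff 0 (M k l) = 0) {A B : S → PowerSeries ℕ} {d : ℕ}
    (hAB : ∀ e, e < d → ∀ k, PowerSeries.coeff e (A k) = PowerSeries.coeff e (B k)) (l : S) :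
    PowerSeries.coeff d (∑ k, A k * M k l) = PowerSeries.coeff d (∑ k, B k * M k l) := by
  rw [map_sum, map_sum]
  refine Finset.sum_congr rfl fun k _ => ?_
  rw [PowerSeries.coeff_mul, PowerSeries.coeff_mul]
  refine Finset.sum_congr rfl fun a ha => ?_
  have ha' := Finset.HasAntidiagonal.mem_antidiagonal.1 ha
  by_cases h0 : a.2 = 0
  · rw [h0, hM, mul_zero, mul_zero]
  · rw [hAB a.1 (by omega) k]

/-- the approximations -/
noncomputable def solA (M : Matrix S S (PowerSeries ℕ)) (w : S → PowerSeries ℕ) :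
    ℕ → S → PowerSeries ℕ
  | 0 => 0
  | n + 1 => fun l => w l + ∑ k, solA M w n k * M k l

lemma solA_stab {M : Matrix S S (PowerSeries ℕ)} (hM : ∀ k l, PowerSeries.coeff 0 (M k l) = 0)
    (w : S → PowerSeries ℕ) (n : ℕ) : ∀ d, d < n → ∀ l,
      PowerSeries.coeff d (solA M w (n + 1) l) = PowerSeries.coeff d (solA M w n l) := by
  induction n with
  | zero => intro d hd; exact absurd hd (Nat.not_lt_zero _)
  | succ n ih =>
    intro d hd l
    change PowerSeries.coeff d (w l + ∑ k, solA M w (n + 1) k * M k l) =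
      PowerSeries.coeff d (w l + ∑ k, solA M w n k * M k l)
    rw [map_add, map_add, coeff_sum_mul_congr hM fun e he k => ih e (by omega) k]

lemma solA_stab' {M : Matrix S S (PowerSeries ℕ)} (hM : ∀ k l, PowerSeries.coeff 0 (M k l) = 0)
    (w : S → PowerSeries ℕ) {n n' d : ℕ} (hd : d < n) (hn : n ≤ n') (l : S) :
      PowerSeries.coeff d (solA M w n' l) = PowerSeries.coeff d (solA M w n l) := by
  induction n', hn using Nat.le_induction with
  | base => rfl
  | succ n' hn ih => rw [solA_stab hM w n' d (by omega), ih]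

/-- the equation `W = w + W M` has a solution -/
lemma exists_solve {M : Matrix S S (PowerSeries ℕ)} (hM : ∀ k l, PowerSeries.coeff 0 (M k l) = 0)
    (w : S → PowerSeries ℕ) : ∃ W : S → PowerSeries ℕ, ∀ l, W l = w l + ∑ k, W k * M k l := by
  refine ⟨fun l => PowerSeries.mk fun d => PowerSeries.coeff d (solA M w (d + 1) l), fun l => ?_⟩
  ext d
  rw [PowerSeries.coeff_mk, map_add]
  change PowerSeries.coeff d (w l + ∑ k, solA M w d k * M k l) = _
  rw [map_add]
  congr 1
  refine coeff_sum_mul_congr hM (fun e he k => ?_) l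
  rw [PowerSeries.coeff_mk]
  exact solA_stab' hM w (Nat.lt_succ_self e) he k

/-- the solution is unique -/
lemma solve_unique {M : Matrix S S (PowerSeries ℕ)} (hM : ∀ k l, PowerSeries.coeff 0 (M k l) = 0)
    {w W W' : S → PowerSeries ℕ} (h : ∀ l, W l = w l + ∑ k, W k * M k l)
    (h' : ∀ l, W' l = w l + ∑ k, W' k * M k l) : W = W' := by
  have key : ∀ d, ∀ l, PowerSeries.coeff d (W l) = PowerSeries.coeff d (W' l) := by
    intro d
    induction d using Nat.strong_induction_on with
    | _ d ih =>
      intro l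
      rw [h l, h' l, map_add, map_add, coeff_sum_mul_congr hM fun e he k => ih e he k]
  funext l
  ext d
  exact key d l

/-- the solution converges -/
lemma cv_solve {r : ℝ} (hr : 0 ≤ r) {M : Matrix S S (PowerSeries ℕ)} {w W : S → PowerSeries ℕ}
    (h : ∀ l, W l = w l + ∑ k, W k * M k l) (γ : S → ℝ) (hγ : ∀ k, 0 < γ k) {θ : ℝ} (hθ : θ < 1)
    (hM : ∀ T k, ∑ l, nv r (PowerSeries.trunc T (M k l)) * γ l ≤ θ * γ k)
    (hw : ∀ k, Cv r (w k)) (l : S) : Cv r (W l) := by
  choose C hC using hw
  have hsum : ∀ T, ∑ l, nv r (PowerSeries.trunc T (W l)) * γ l ≤ (∑ l, C l * γ l) / (1 - θ) := by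
    intro T
    rw [le_div_iff₀ (by linarith)]
    have h1 : ∀ l, nv r (PowerSeries.trunc T (W l)) ≤ C l +
        ∑ k, nv r (PowerSeries.trunc T (W k)) * nv r (PowerSeries.trunc T (M k l)) := by
      intro l
      have e1 : nv r (PowerSeries.trunc T (W l)) =
          nv r (PowerSeries.trunc T (w l)) + ∑ k, nv r (PowerSeries.trunc T (W k * M k l)) := by
        conv_lhs => rw [h l]
        rw [map_add, map_add]
        congr 1
        rw [← map_sum]
        congr 1
        ext d
        rw [PowerSeries.coeff_trunc, finsetSum_coeff]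
        simp only [PowerSeries.coeff_trunc]
        split_ifs
        · rw [map_sum]
        · simp
      rw [e1]
      exact add_le_add (hC l T) (Finset.sum_le_sum fun k _ => nv_trunc_mul_le hr T _ _)
    have h2 : ∑ l, nv r (PowerSeries.trunc T (W l)) * γ l ≤ ∑ l, C l * γ l +
        θ * ∑ l, nv r (PowerSeries.trunc T (W l)) * γ l := by
      calc ∑ l, nv r (PowerSeries.trunc T (W l)) * γ l
          ≤ ∑ l, (C l + ∑ k, nv r (PowerSeries.trunc T (W k)) *
            nv r (PowerSeries.trunc T (M k l))) * γ l :=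
            Finset.sum_le_sum fun l _ => mul_le_mul_of_nonneg_right (h1 l) (hγ l).le
        _ = ∑ l, C l * γ l + ∑ k, nv r (PowerSeries.trunc T (W k)) *
            ∑ l, nv r (PowerSeries.trunc T (M k l)) * γ l := by
            simp only [add_mul, Finset.sum_add_distrib, Finset.sum_mul, Finset.mul_sum]
            congr 1
            rw [Finset.sum_comm]
            simp only [mul_assoc]
        _ ≤ ∑ l, C l * γ l + ∑ k, nv r (PowerSeries.trunc T (W k)) * (θ * γ k) := by
            have := Finset.sum_le_sum (s := (Finset.univ : Finset S)) fun k _ =>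
              mul_le_mul_of_nonneg_left (hM T k) (nv_nonneg hr (PowerSeries.trunc T (W k)))
            linarith
        _ = _ := by
            rw [Finset.mul_sum]
            congr 1
            exact Finset.sum_congr rfl fun k _ => by ring
    linarith
  refine ⟨(∑ l, C l * γ l) / (1 - θ) / γ l, fun T => ?_⟩
  rw [le_div_iff₀ (hγ l)]
  refine le_trans ?_ (hsum T)
  exact Finset.single_le_sum (f := fun l => nv r (PowerSeries.trunc T (W l)) * γ l)
    (fun k _ => mul_nonneg (nv_nonneg hr _) (hγ k).le) (Finset.mem_univ l)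

end solve

/-- the series `1/(1-s)` -/
lemma exists_geo {s : PowerSeries ℕ} (hs : PowerSeries.coeff 0 s = 0) :
    ∃ G : PowerSeries ℕ, G = 1 + G * s := by
  obtain ⟨W, hW⟩ := exists_solve (S := Unit) (M := fun _ _ => s) (fun _ _ => hs) (fun _ => 1)
  refine ⟨W (), ?_⟩
  have := hW ()
  simpa using this

/-- uniqueness for one unknown -/
lemma solve_unique_one {s w a b : PowerSeries ℕ} (hs : PowerSeries.coeff 0 s = 0)
    (ha : a = w + a * s) (hb : b = w + b * s) : a = b := by
  have := solve_unique (S := Unit) (M := fun _ _ => s) (fun _ _ => hs) (w := fun _ => w)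
    (W := fun _ => a) (W' := fun _ => b) (fun _ => by simpa using ha) (fun _ => by simpa using hb)
  exact congrFun this ()

lemma cv_geo {r θ : ℝ} (hr : 0 ≤ r) (hθ : θ < 1) {s G : PowerSeries ℕ}
    (hs : ∀ T, nv r (PowerSeries.trunc T s) ≤ θ) (hG : G = 1 + G * s) : Cv r G := by
  refine cv_solve (S := Unit) hr (M := fun _ _ => s) (w := fun _ => 1) (W := fun _ => G)
    (fun _ => by simpa using hG) (fun _ => 1) (fun _ => one_pos) hθ (fun T k => by simpa using hs T)
    (fun _ => ?_) ()
  have := cv_coe hr (1 : ℕ[X])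
  rwa [Polynomial.coe_one] at this

section
variable {K : Type} [AddCommGroup K] [Module ℤ[X] K] {δ : ℤ[X]} {q : ℕ[X]}
variable {S0 : PX K δ q} {I : Type} [Fintype I] {g : I → K} {x : I} {r : ℝ}
  {L L' : Matrix I I (PowerSeries ℕ)}

/-- (C5) PUSH: the columns of `S` in the row `i` are removed -/
theorem Reach.push (hr : 0 ≤ r) (h : Reach S0 g x r L) (i : I) (S : Finset I) (hiS : i ∉ S)
    (W : I → PowerSeries ℕ) (hW0 : ∀ k, k ∉ S → W k = 0)
    (hW : ∀ k, k ∈ S → W k = L i k + ∑ l, W l * L l k) (hWc : ∀ k, Cv r (W k))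
    (hL : ∀ a, a ≠ i → L' a = L a) (hL0 : ∀ k, k ∈ S → L' i k = 0)
    (hL1 : ∀ j, j ∉ S → L' i j = L i j + ∑ k, W k * L k j) : Reach S0 g x r L' := by
  have hLc := h.const
  have hW00 : ∀ k, PowerSeries.coeff 0 (W k) = 0 := by
    intro k
    by_cases hk : k ∈ S
    · rw [hW k hk, map_add, hLc, zero_add, map_sum]
      exact Finset.sum_eq_zero fun l _ => by rw [ps_coeff_zero_mul, hLc, mul_zero]
    · rw [hW0 k hk, map_zero]
  refine h.expand hr i W (hW0 i hiS) hWc hL (fun j => ?_) (fun hix n => ?_) fun hix j => ?_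
  · by_cases hj : j ∈ S
    · rw [hL0 j hj, zero_add, ← hW j hj]
    · rw [hW0 j hj, add_zero, hL1 j hj]
  · subst hix
    rw [hL1 i hiS, map_add]
    exact le_trans (h.q_le n) (Nat.le_add_right _ _)
  · subst hix
    by_cases hj : j ∈ S
    · rw [hL0 j hj, map_zero]
    · rw [hL1 j hj, map_add, h.coeff_one, zero_add, map_sum]
      exact Finset.sum_eq_zero fun k _ => by
        rw [ps_coeff_one_mul, hW00, zero_mul, hLc, mul_zero, add_zero]

/-- (C2) ISOLATE: the loops `s = m n` of the row `o` are moved to a new generator `y` with the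
class `m g_o`; `m` is a polynomial without constant term -/
theorem Reach.isolate (hr : 0 ≤ r) (h : Reach S0 g x r L) (o : I) (m : ℕ[X])
    (hm : m.coeff 0 = 0) (n : PowerSeries ℕ) (hn0 : PowerSeries.coeff 0 n = 0) (hn : Cv r n)
    {θ : ℝ} (hθ : θ < 1)
    (hs : ∀ T, nv r (PowerSeries.trunc T ((m : PowerSeries ℕ) * n)) ≤ θ)
    (hle : ∀ d, PowerSeries.coeff d ((m : PowerSeries ℕ) * n) ≤ PowerSeries.coeff d (L o o))
    {L' : Matrix (I ⊕ Unit) (I ⊕ Unit) (PowerSeries ℕ)}
    (hL : ∀ a, a ≠ o → ∀ j, L' (Sum.inl a) (Sum.inl j) = L a j)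
    (hL0 : ∀ a, L' (Sum.inl a) (Sum.inr ()) = 0)
    (hLo : ∀ j, L' (Sum.inl o) (Sum.inl j) + (if j = o then (m : PowerSeries ℕ) * n else 0) =
      L o j + (m : PowerSeries ℕ) * n * L' (Sum.inl o) (Sum.inl j))
    (hLy : ∀ j, L' (Sum.inr ()) (Sum.inl j) +
      (if j = o then (m : PowerSeries ℕ) * ((m : PowerSeries ℕ) * n) else 0) =
      (m : PowerSeries ℕ) * L o j)
    (hLyy : L' (Sum.inr ()) (Sum.inr ()) = (m : PowerSeries ℕ) * n)
    (hxq : o = x → ∀ d, q.coeff d + PowerSeries.coeff d ((m : PowerSeries ℕ) * n) ≤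
      PowerSeries.coeff d (L x x))
    (hx1 : o = x → PowerSeries.coeff 1 n = 0) :
    Reach S0 (Sum.elim g fun _ : Unit => toZ m • g o) (Sum.inl x) r L' := by
  have hLc := h.const
  set s : PowerSeries ℕ := (m : PowerSeries ℕ) * n with hsd
  have hs0 : PowerSeries.coeff 0 s = 0 := by rw [hsd, ps_coeff_zero_mul, hn0, mul_zero]
  obtain ⟨G, hG⟩ := exists_geo hs0
  have hGc := cv_geo hr hθ hs hG
  set ζ : I → ℕ[X] := fun j => if j = o then m else 0 with hζ
  have hζs : ∀ j, n * (ζ j : PowerSeries ℕ) = if j = o then s else 0 := by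
    intro j
    by_cases hj : j = o
    · simp only [hζ, hj, if_true, hsd]
      ring
    · simp only [hζ, hj, if_false, Polynomial.coe_zero, mul_zero]
  have hR1 : ∀ j, ∃ c, c + n * (ζ j : PowerSeries ℕ) = L o j := by
    intro j
    refine ps_exists_add fun d => ?_
    rw [hζs]
    by_cases hj : j = o
    · rw [if_pos hj, hj]
      exact hle d
    · rw [if_neg hj, map_zero]
      exact Nat.zero_le _
  choose R1 hR1 using hR1
  -- the limit after the first step
  set L1 : Matrix (I ⊕ Unit) (I ⊕ Unit) (PowerSeries ℕ) :=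
    fromBlocks (L.updateRow o R1) (fun a _ => if a = o then n else 0)
      (fun _ j => (ζ j : PowerSeries ℕ)) 0 with hL1d
  have hL1a : ∀ a, a ≠ o → ∀ j, L1 (Sum.inl a) (Sum.inl j) = L a j := fun a ha j => by
    rw [hL1d, fromBlocks_apply₁₁, updateRow_ne ha]
  have hL1o : ∀ j, L1 (Sum.inl o) (Sum.inl j) = R1 j := fun j => by
    rw [hL1d, fromBlocks_apply₁₁, updateRow_self]
  have hL1a0 : ∀ a, a ≠ o → L1 (Sum.inl a) (Sum.inr ()) = 0 := fun a ha => by
    rw [hL1d, fromBlocks_apply₁₂, if_neg ha]
  have hL1o0 : L1 (Sum.inl o) (Sum.inr ()) = n := by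
    rw [hL1d, fromBlocks_apply₁₂, if_pos rfl]
  have hR1q : o = x → ∀ d, q.coeff d ≤ PowerSeries.coeff d (R1 x) := by
    intro hox d
    have e1 := hxq hox d
    have e2 := congrArg (PowerSeries.coeff d) (hR1 x)
    rw [hζs, if_pos hox.symm, map_add, hox] at e2
    omega
  have hA := h.factor hr o ζ (fun j => by
      simp only [hζ]
      split_ifs
      · exact hm
      · exact coeff_zero 0) n hn0 hn (L' := L1) hL1a hL1a0 (fun j => by rw [hL1o]; exact hR1 j)
    hL1o0 (fun j => rfl) rfl (fun hox d => by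
      have e1 : L1 (Sum.inl x) (Sum.inl x) = R1 x := by
        rw [← hox]
        exact hL1o o
      rw [e1]
      exact hR1q hox d) hx1
  have hgg : (Sum.elim g fun _ : Unit => ∑ j, toZ (ζ j) • g j) =
      (Sum.elim g fun _ : Unit => toZ m • g o) := by
    congr 1
    funext _
    rw [Finset.sum_eq_single o]
    · simp [hζ]
    · intro j _ hj
      simp [hζ, hj, toZ]
    · intro hj
      exact absurd (Finset.mem_univ o) hj
  rw [hgg] at hA
  -- the row of the new generator
  set W1 : I ⊕ Unit → PowerSeries ℕ := Sum.elim (fun j => (ζ j : PowerSeries ℕ)) 0 with hW1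
  have hW1s : ∀ b, ∑ k, W1 k * L1 k b = (m : PowerSeries ℕ) * L1 (Sum.inl o) b := by
    intro b
    rw [Finset.sum_eq_single (Sum.inl o)]
    · simp [hW1, hζ]
    · rintro (k | k) _ hk
      · have : k ≠ o := fun hh => hk (hh ▸ rfl)
        simp [hW1, hζ, this]
      · simp [hW1]
    · intro hj
      exact absurd (Finset.mem_univ _) hj
  set L2 : Matrix (I ⊕ Unit) (I ⊕ Unit) (PowerSeries ℕ) :=
    L1.updateRow (Sum.inr ()) (Sum.elim (fun j => (m : PowerSeries ℕ) * R1 j) fun _ => s) with hL2d
  have hL2a : ∀ a, a ≠ Sum.inr () → L2 a = L1 a := fun a ha => by rw [hL2d, updateRow_ne ha]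
  have hL2y : L2 (Sum.inr ()) = Sum.elim (fun j => (m : PowerSeries ℕ) * R1 j) fun _ => s := by
    rw [hL2d, updateRow_self]
  have hB : Reach S0 (Sum.elim g fun _ : Unit => toZ m • g o) (Sum.inl x) r L2 := by
    refine hA.expand hr (Sum.inr ()) W1 (by simp [hW1]) (fun k => ?_) hL2a (fun b => ?_)
      (fun hh => by cases hh) (fun hh => by cases hh)
    · rcases k with k | k
      · exact cv_coe hr _
      · exact cv_zero r
    · rw [hW1s, hL2y]
      rcases b with j | j
      · rw [hL1o]
        change (m : PowerSeries ℕ) * R1 j + (ζ j : PowerSeries ℕ) = (ζ j : PowerSeries ℕ) + _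
        ring
      · rw [hL1o0]
        change s + 0 = 0 + _
        rw [add_zero, zero_add]
  -- the final row `o`
  have hR : ∀ j, L' (Sum.inl o) (Sum.inl j) = R1 j + L' (Sum.inl o) (Sum.inl j) * s := by
    intro j
    have e1 := hLo j
    rw [← hR1 j, hζs] at e1
    refine ps_add_right_cancel (c := if j = o then s else 0) ?_
    rw [e1]
    ring
  have hR' : ∀ j, L' (Sum.inl o) (Sum.inl j) = R1 j + n * G * ((m : PowerSeries ℕ) * R1 j) := by
    intro j
    refine solve_unique_one hs0 (hR j) ?_
    have e1 : R1 j + n * G * ((m : PowerSeries ℕ) * R1 j) = R1 j * (1 + G * s) := by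
      rw [hsd]
      ring
    rw [e1, ← hG]
    calc R1 j * G = R1 j * (1 + G * s) := by rw [← hG]
      _ = _ := by ring
  have hR0 : ∀ j, PowerSeries.coeff 0 (R1 j) = 0 := by
    intro j
    have e1 := congrArg (PowerSeries.coeff 0) (hR1 j)
    rw [map_add, hLc] at e1
    omega
  set W2 : I ⊕ Unit → PowerSeries ℕ := Sum.elim 0 (fun _ => n * G) with hW2
  have hW2s : ∀ b, ∑ k, W2 k * L2 k b = n * G * L2 (Sum.inr ()) b := by
    intro b
    rw [Fintype.sum_sum_type]
    simp [hW2]
  refine hB.expand hr (Sum.inl o) W2 (by simp [hW2]) (fun k => ?_) (fun a ha => ?_) (fun b => ?_)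
    (fun hh d => ?_) (fun hh b => ?_)
  · rcases k with k | k
    · exact cv_zero r
    · exact hn.mul hr hGc
  · rcases a with a | a
    · have ha' : a ≠ o := fun hh => ha (hh ▸ rfl)
      rw [hL2a _ (by simp)]
      funext b
      rcases b with j | j
      · rw [hL a ha', hL1a a ha']
      · rw [show j = () from rfl, hL0 a, hL1a0 a ha']
    · rw [show a = () from rfl, hL2y]
      funext b
      rcases b with j | j
      · have e1 := hLy j
        rw [← hR1 j, hζs] at e1
        refine ps_add_right_cancel (c := if j = o then (m : PowerSeries ℕ) * s else 0) ?_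
        rw [e1]
        change _ = (m : PowerSeries ℕ) * R1 j + _
        by_cases hj : j = o
        · rw [if_pos hj, if_pos hj]
          ring
        · rw [if_neg hj, if_neg hj]
          ring
      · rw [show j = () from rfl, hLyy]
        rfl
  · rw [hW2s, hL2y, hL2a _ (by simp)]
    rcases b with j | j
    · rw [hL1o, hR' j]
      change _ + 0 = R1 j + n * G * ((m : PowerSeries ℕ) * R1 j)
      rw [add_zero]
    · rw [show j = () from rfl, hL1o0, hL0]
      change 0 + n * G = n + n * G * s
      rw [zero_add]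
      calc n * G = n * (1 + G * s) := by rw [← hG]
        _ = _ := by ring
  · have hox := Sum.inl.inj hh
    subst hox
    rw [hR o, map_add]
    exact le_trans (hR1q rfl d) (Nat.le_add_right _ _)
  · have hox := Sum.inl.inj hh
    subst hox
    rcases b with j | j
    · have e0 : PowerSeries.coeff 0 (L' (Sum.inl o) (Sum.inl j)) = 0 := by
        rw [hR' j, map_add, hR0, ps_coeff_zero_mul, ps_coeff_zero_mul, hn0]
        ring
      have e1 := congrArg (PowerSeries.coeff 1) (hR1 j)
      rw [map_add, h.coeff_one] at e1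
      rw [hR j, map_add, ps_coeff_one_mul, e0, hs0]
      omega
    · rw [show j = () from rfl, hL0, map_zero]

end

end Pool.Agent.SSE
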