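import Pool.Agent.SSE.ReachIsoEX
import Pool.Agent.SSE.Reach3

/-!
# SSE project, the limit calculus: isolation of a loop of length one at `o ≠ x`

The new generator `y` has the class of `o`. Finite level: the presentation `iso P o X r`, then the
expansion of `y` in the row `o`.
-/

set_option autoImplicit false

open scoped BigOperators
open Matrix Polynomial

namespace Pool.Agent.SSE

open Pool.Agent.helper52.SSE

attribute [local instance] Classical.propDecidable

variable {K : Type} [AddCommGroup K] [Module ℤ[X] K] {δ : ℤ[X]} {q : ℕ[X]}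
variable {S0 : PX K δ q} {I : Type} [Fintype I] {g : I → K} {x : I} {r : ℝ}
  {L L' : Matrix I I (PowerSeries ℕ)}

/-- finite level -/
theorem PX.isolate_one {P : Matrix I I ℕ[X]} (h : PresOf δ g P)
    (hq : ∀ n, q.coeff n ≤ (P x x).coeff n) (hx : ∀ j, (P x j).coeff 1 = 0) (o : I) (ho : o ≠ x)
    (w : I → ℕ[X]) (hw : ∀ j, (w j).coeff 0 = 0) (hP : ∀ j, P o j = w j + if j = o then X else 0) :
    ∃ (h' : PresOf δ (Sum.elim g fun _ => g o) (iso P o X w))
      (hq' : ∀ n, q.coeff n ≤ ((iso P o X w) (Sum.inl x) (Sum.inl x)).coeff n)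
      (hx' : ∀ j, ((iso P o X w) (Sum.inl x) j).coeff 1 = 0),
      PX.Rel (K := K) ⟨I, inferInstance, g, P, x, h, hq, hx⟩
        ⟨I ⊕ Unit, inferInstance, _, _, Sum.inl x, h', hq', hx'⟩ := by
  obtain ⟨h1, hq1, hx1, hrel1⟩ := PX.isolate h hq hx o ho X w coeff_X_zero hw hP
  have hd : (X : ℕ[X]).divX = 1 := by
    ext n
    rw [coeff_divX, coeff_X, coeff_one]
    simp [eq_comm]
  have hcl : (Sum.elim g fun _ : Unit => toZ (X : ℕ[X]).divX • g o) =
      (Sum.elim g fun _ : Unit => g o) := by
    rw [hd]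
    simp [toZ]
  obtain ⟨h2, hq2, hx2, hrel2⟩ := PX.rel_congr h1 hq1 hx1 hcl rfl rfl
  exact ⟨h2, hq2, hx2, hrel1.trans hrel2⟩

/-- the first step: the presentation `iso` -/
private theorem isolate_one_aux (hr : 0 ≤ r) (h : Reach S0 g x r L) (o : I)
    (ho : o ≠ x) (ρ : I → PowerSeries ℕ)
    (hρ : ∀ j, ρ j + (if j = o then PowerSeries.X else 0) = L o j) :
    Reach S0 (Sum.elim g fun _ : Unit => g o) (Sum.inl x) r
      (fromBlocks (L.updateRow o ρ) (fun a _ => if a = o then PowerSeries.X else 0)
        (fun _ j => ρ j) (fun _ _ => PowerSeries.X)) := by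
  have hLc := h.const
  obtain ⟨B, M0, h⟩ := h
  refine ⟨B + r, isoM o * fromBlocks M0 0 (of fun _ j => if j = o then -1 else 0) 1,
    fun T => ?_⟩
  obtain ⟨P, hP, hq, hx, hrel, ⟨V, hV, hVe⟩, hAg, hB⟩ := h (T + 2)
  have hB0 : 0 ≤ B := le_trans (nv_nonneg hr _) (hB x x)
  have hρ0 : ∀ j, PowerSeries.coeff 0 (ρ j) = 0 := by
    intro j
    have e1 := congrArg (PowerSeries.coeff 0) (hρ j)
    rw [map_add, hLc] at e1
    omega
  have hw : ∀ j, ∃ w : ℕ[X], P o j = w + if j = o then X else 0 := by
    intro j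
    obtain ⟨d, hd⟩ := exists_add_of_coeff_le (p := if j = o then X else 0) (p' := P o j) (by
      intro n
      by_cases hj : j = o
      · rw [if_pos hj]
        by_cases hn : n = 1
        · subst hn
          rw [coeff_X_one, hAg o j 1 (by omega), ← hρ j, if_pos hj, map_add,
            PowerSeries.coeff_one_X]
          omega
        · rw [coeff_X_of_ne_one hn]
          exact Nat.zero_le _
      · rw [if_neg hj, coeff_zero]
        exact Nat.zero_le _)
    exact ⟨d, by rw [hd, add_comm]⟩
  choose w hw using hw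
  have hAgw : ∀ j, Ag T (w j) (ρ j) := by
    intro j k hk
    have e1 := hAg o j k (by omega)
    rw [hw j, ← hρ j, coeff_add, map_add] at e1
    by_cases hj : j = o
    · rw [if_pos hj, if_pos hj] at e1
      have e2 : (X : ℕ[X]).coeff k = PowerSeries.coeff k (PowerSeries.X : PowerSeries ℕ) := by
        rw [← Polynomial.coe_X, Polynomial.coeff_coe]
      omega
    · rw [if_neg hj, if_neg hj] at e1
      simpa using e1
  have hw0 : ∀ j, (w j).coeff 0 = 0 := by
    intro j
    have e1 := hP.pres o j
    rw [hw j, coeff_add] at e1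
    omega
  obtain ⟨h', hq', hx', hrel'⟩ := PX.isolate_one hP hq hx o ho w hw0 hw
  refine ⟨iso P o X w, h', hq', hx', hrel.trans hrel', ?_, ?_, ?_⟩
  · obtain ⟨V', hV', hVe'⟩ := exists_isoM _ o hV
    refine ⟨V', hV', ?_⟩
    rw [IP_iso_one o w hw, hVe, ← Matrix.mul_assoc, ← hVe', Matrix.mul_assoc,
      fromBlocks_multiply]
    simp
  · have hAX : Ag T (X : ℕ[X]) (PowerSeries.X : PowerSeries ℕ) := by
      rw [← Polynomial.coe_X]
      exact ag_coe T X
    have hd : (X : ℕ[X]).divX = 1 := by
      ext n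
      rw [coeff_divX, coeff_X, coeff_one]
      simp [eq_comm]
    rintro (i | i) (j | j)
    · simp only [iso, fromBlocks_apply₁₁, setRow]
      by_cases hi : i = o
      · subst hi
        rw [if_pos rfl, updateRow_self]
        exact hAgw j
      · rw [if_neg hi, updateRow_ne hi]
        exact (hAg i j).mono (by omega)
    · simp only [iso, fromBlocks_apply₁₂, of_apply]
      split_ifs
      · exact hAX
      · exact ag_zero T
    · simp only [iso, fromBlocks_apply₂₁, of_apply, hd, one_mul]
      exact hAgw j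
    · simp only [iso, fromBlocks_apply₂₂, of_apply]
      exact hAX
  · have hwB : ∀ j, nv r (w j) ≤ B + r := by
      intro j
      have e1 : nv r (w j) ≤ nv r (P o j) := nv_mono hr fun n => by
        rw [hw j, coeff_add]
        omega
      have := hB o j
      linarith
    have hd : (X : ℕ[X]).divX = 1 := by
      ext n
      rw [coeff_divX, coeff_X, coeff_one]
      simp [eq_comm]
    rintro (i | i) (j | j)
    · simp only [iso, fromBlocks_apply₁₁, setRow]
      split_ifs
      · exact hwB j
      · have := hB i j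
        linarith
    · simp only [iso, fromBlocks_apply₁₂, of_apply]
      split_ifs
      · rw [nv_X]
        linarith
      · rw [map_zero]
        linarith
    · simp only [iso, fromBlocks_apply₂₁, of_apply, hd, one_mul]
      exact hwB j
    · simp only [iso, fromBlocks_apply₂₂, of_apply]
      rw [nv_X]
      linarith

/-- (C2) ISOLATE a loop of length one at `o ≠ x`: the new generator `y` has the class `g o`, the
row `o` becomes `(L o - X e_o) / (1 - X)`, the row `y` is `X e_y + (L o - X e_o)` -/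
theorem Reach.isolate_one (hr : 0 ≤ r) (hr1 : r < 1) (h : Reach S0 g x r L) (o : I) (ho : o ≠ x)
    {L' : Matrix (I ⊕ Unit) (I ⊕ Unit) (PowerSeries ℕ)}
    (hL : ∀ a, a ≠ o → ∀ j, L' (Sum.inl a) (Sum.inl j) = L a j)
    (hL0 : ∀ a, L' (Sum.inl a) (Sum.inr ()) = 0)
    (hLo : ∀ j, L' (Sum.inl o) (Sum.inl j) + (if j = o then PowerSeries.X else 0) =
      L o j + PowerSeries.X * L' (Sum.inl o) (Sum.inl j))
    (hLy : ∀ j, L' (Sum.inr ()) (Sum.inl j) + (if j = o then PowerSeries.X else 0) = L o j)
    (hLyy : L' (Sum.inr ()) (Sum.inr ()) = PowerSeries.X) :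
    Reach S0 (Sum.elim g fun _ : Unit => g o) (Sum.inl x) r L' := by
  set ρ : I → PowerSeries ℕ := fun j => L' (Sum.inr ()) (Sum.inl j) with hρ
  have h1 := isolate_one_aux hr h o ho ρ hLy
  set L1 : Matrix (I ⊕ Unit) (I ⊕ Unit) (PowerSeries ℕ) :=
    fromBlocks (L.updateRow o ρ) (fun a _ => if a = o then PowerSeries.X else 0)
        (fun _ j => ρ j) (fun _ _ => PowerSeries.X) with hL1
  have hX0 : PowerSeries.coeff 0 (PowerSeries.X : PowerSeries ℕ) = 0 := PowerSeries.coeff_zero_X
  obtain ⟨G, hG⟩ := exists_geo hX0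
  have hXc : Cv r (PowerSeries.X : PowerSeries ℕ) := by
    rw [← Polynomial.coe_X]
    exact cv_coe hr X
  have hGc : Cv r G := by
    refine cv_geo hr hr1 (fun T => ?_) hG
    conv_rhs => rw [← nv_X r]
    refine nv_mono hr fun n => ?_
    have e1 := (ag_coe T (X : ℕ[X])).trunc_le n
    rwa [Polynomial.coe_X] at e1
  -- expansion
  set W : I ⊕ Unit → PowerSeries ℕ := Sum.elim 0 fun _ => PowerSeries.X * G with hW
  have hWs : ∀ b, ∑ k, W k * L1 k b = PowerSeries.X * G * L1 (Sum.inr ()) b := by
    intro b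
    rw [Fintype.sum_sum_type]
    simp [hW]
  refine h1.expand hr (Sum.inl o) W (by simp [hW]) (fun k => ?_) (fun a ha => ?_) (fun b => ?_)
    (fun hh => absurd (Sum.inl.inj hh) ho) (fun hh => absurd (Sum.inl.inj hh) ho)
  · rcases k with k | k
    · exact cv_zero r
    · exact hXc.mul hr hGc
  · funext b
    rcases a with a | a
    · have ha' : a ≠ o := fun hh => ha (by rw [hh])
      rcases b with b | b
      · rw [hL a ha' b, hL1, fromBlocks_apply₁₁, updateRow_ne ha']
      · rw [hL0 a, hL1, fromBlocks_apply₁₂, if_neg ha']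
    · rcases b with b | b
      · rfl
      · rw [hLyy]
        rfl
  · rw [hWs]
    rcases b with j | j
    · have e1 : L' (Sum.inl o) (Sum.inl j) = ρ j + L' (Sum.inl o) (Sum.inl j) * PowerSeries.X := by
        refine ps_add_right_cancel (c := if j = o then PowerSeries.X else 0) ?_
        rw [hLo j, ← hLy j]
        ring
      have e2 : ρ j * G = ρ j + ρ j * G * PowerSeries.X := by
        conv_lhs => rw [hG]
        ring
      have e3 := solve_unique_one hX0 e1 e2
      have e4 : L1 (Sum.inl o) (Sum.inl j) = ρ j := by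
        rw [hL1, fromBlocks_apply₁₁, updateRow_self]
      have e5 : L1 (Sum.inr ()) (Sum.inl j) = ρ j := rfl
      rw [e3, e4, e5]
      change ρ j * G + 0 = _
      conv_lhs => rw [hG]
      ring
    · have e4 : L1 (Sum.inl o) (Sum.inr j) = PowerSeries.X := by
        rw [hL1, fromBlocks_apply₁₂, if_pos rfl]
      have e5 : L1 (Sum.inr ()) (Sum.inr j) = PowerSeries.X := rfl
      rw [e4, e5]
      have e6 : L' (Sum.inl o) (Sum.inr j) = 0 := hL0 o
      rw [e6]
      change 0 + PowerSeries.X * G = _
      conv_lhs => rw [hG]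
      ring

end Pool.Agent.SSE
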