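import Pool.Agent.SSE.HDefs
import Pool.Agent.SSE.Reach5
import Pool.Agent.SSE.ReachIso

/-!
# SSE project, hub part, HR: the limit calculus over `ℤ`

The rules (C1)-(C5) of `Reach` (helper23, series over `ℕ`) for `ReachE` (series over `ℤ`).
-/

set_option autoImplicit false

open scoped BigOperators
open Matrix Polynomial

namespace Pool.Agent.SSE

attribute [local instance] Classical.propDecidable

/-! ### series over `ℕ` and over `ℤ` -/

lemma coeff_toZS (f : PowerSeries ℕ) (d : ℕ) :
    PowerSeries.coeff d (toZS f) = ((PowerSeries.coeff d f : ℕ) : ℤ) := by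
  unfold toZS
  rw [PowerSeries.coeff_map]
  rfl

lemma toZS_inj {f g : PowerSeries ℕ} (h : toZS f = toZS g) : f = g := by
  ext d
  have e1 := congrArg (PowerSeries.coeff d) h
  rw [coeff_toZS, coeff_toZS] at e1
  exact_mod_cast e1

lemma nn_toZS (f : PowerSeries ℕ) : HN.Nn (toZS f) := fun d => by
  rw [coeff_toZS]
  exact Int.natCast_nonneg _

/-- the series over `ℕ` of a series with nonnegative coefficients -/
noncomputable def toNS (f : PowerSeries ℤ) : PowerSeries ℕ :=
  PowerSeries.mk fun d => (PowerSeries.coeff d f).toNat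

lemma coeff_toNS (f : PowerSeries ℤ) (d : ℕ) :
    PowerSeries.coeff d (toNS f) = (PowerSeries.coeff d f).toNat := by
  unfold toNS
  rw [PowerSeries.coeff_mk]

lemma toZS_toNS {f : PowerSeries ℤ} (h : HN.Nn f) : toZS (toNS f) = f := by
  ext d
  rw [coeff_toZS, coeff_toNS, Int.toNat_of_nonneg (h d)]

lemma toNS_toZS (f : PowerSeries ℕ) : toNS (toZS f) = f := toZS_inj (toZS_toNS (nn_toZS f))

lemma toRS_toZS (f : PowerSeries ℕ) :
    HN.toRS (toZS f) = PowerSeries.map (Nat.castRingHom ℝ) f := by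
  ext d
  rw [HN.coeff_toRS, coeff_toZS, PowerSeries.coeff_map]
  simp

lemma fn_toZS {r : ℝ} (hr : 0 ≤ r) {f : PowerSeries ℕ} : FN r (toZS f) ↔ Cv r f := by
  rw [FN, toRS_toZS, cv_iff hr]

lemma toZS_coe (p : ℕ[X]) : toZS (p : PowerSeries ℕ) = ps (toZ p) := by
  ext d
  rw [coeff_toZS, Polynomial.coeff_coe, Polynomial.coeff_coe]
  simp [toZ]

lemma toZS_X : toZS (PowerSeries.X : PowerSeries ℕ) = PowerSeries.X := by
  unfold toZS
  simp

lemma toZS_le {f g : PowerSeries ℕ} (h : HN.Nn (toZS g - toZS f)) (d : ℕ) :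
    PowerSeries.coeff d f ≤ PowerSeries.coeff d g := by
  have e1 := h d
  rw [map_sub, coeff_toZS, coeff_toZS] at e1
  omega

/-- the values of the truncations are at most the norm -/
lemma nv_trunc_le_sn {r : ℝ} (hr : 0 ≤ r) {f : PowerSeries ℕ} (h : Cv r f) (T : ℕ) :
    nv r (PowerSeries.trunc T f) ≤ sn r (toZS f) := by
  have hN : PF.HasN r (PowerSeries.map (Nat.castRingHom ℝ) f) := (cv_iff hr).1 h
  have h1 : nv r (PowerSeries.trunc T f) =
      ∑ n ∈ Finset.range T, ‖PowerSeries.coeff n (PowerSeries.map (Nat.castRingHom ℝ) f)‖ * r ^ n := by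
    rw [nv_range (trunc_coeff_ge T f)]
    refine Finset.sum_congr rfl fun k hk => ?_
    rw [PowerSeries.coeff_trunc, if_pos (Finset.mem_range.1 hk)]
    simp
  rw [h1, sn, toRS_toZS]
  exact hN.sum_le_tsum _ fun n _ => mul_nonneg (norm_nonneg _) (pow_nonneg hr _)

lemma nv_zero_r (p : ℕ[X]) : nv 0 p = (p.coeff 0 : ℝ) := by
  rw [nv_range (N := p.natDegree + 1) fun n hn => coeff_eq_zero_of_natDegree_lt (by omega),
    Finset.sum_eq_single 0]
  · simp
  · intro b _ hb
    rw [zero_pow hb, mul_zero]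
  · intro hb
    exact absurd (Finset.mem_range.2 (Nat.succ_pos _)) hb

/-- division by `X` keeps convergence -/
lemma Cv.of_X_mul {r : ℝ} (hr : 0 ≤ r) {f : PowerSeries ℕ}
    (h : Cv r ((PowerSeries.X : PowerSeries ℕ) * f)) : Cv r f := by
  rcases hr.eq_or_lt with h0 | h0
  · subst h0
    refine ⟨((PowerSeries.coeff 0 f : ℕ) : ℝ), fun T => ?_⟩
    rw [nv_zero_r]
    exact_mod_cast trunc_coeff_le T f 0
  · obtain ⟨C, hC⟩ := h
    refine ⟨C / r, fun T => ?_⟩
    rw [le_div_iff₀ h0]
    refine le_trans (le_of_eq ?_) (hC (T + 1))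
    have e1 : PowerSeries.trunc (T + 1) ((PowerSeries.X : PowerSeries ℕ) * f) =
        X * PowerSeries.trunc T f := by
      ext d
      rcases d with - | d
      · rw [mul_coeff_zero, Polynomial.coeff_X_zero, zero_mul, PowerSeries.coeff_trunc,
          if_pos (Nat.succ_pos T)]
        simp
      · rw [Polynomial.coeff_X_mul, PowerSeries.coeff_trunc, PowerSeries.coeff_trunc,
          PowerSeries.coeff_succ_X_mul]
        simp [Nat.succ_lt_succ_iff]
    rw [e1, map_mul, nv_X, mul_comm]

section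
variable {K : Type} [AddCommGroup K] [Module ℤ[X] K] {δ : ℤ[X]} {qB : ℕ[X]} {S0 : PX K δ qB}
  {I : Type} [Fintype I] {cl : I → K} {x : I} {r : ℝ} {P : Matrix I I (PowerSeries ℤ)}

/-- the entries of a limit are series with nonnegative coefficients, no constant term, finite norm -/
theorem ReachE.ts (hr : 0 ≤ r) (h : ReachE S0 cl x r P) (i j : I) : TS r (P i j) := by
  obtain ⟨L, hL, h⟩ := h
  rw [← hL i j]
  exact ⟨by rw [coeff_toZS, h.const i j, Nat.cast_zero], nn_toZS _, (fn_toZS hr).2 (h.cv hr i j)⟩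

theorem ReachE.nn (h : ReachE S0 cl x r P) (i j : I) : HN.Nn (P i j) := by
  obtain ⟨L, hL, h⟩ := h
  rw [← hL i j]
  exact nn_toZS _

theorem ReachE.q_le (h : ReachE S0 cl x r P) (n : ℕ) :
    (qB.coeff n : ℤ) ≤ PowerSeries.coeff n (P x x) := by
  obtain ⟨L, hL, h⟩ := h
  rw [← hL x x, coeff_toZS]
  exact_mod_cast h.q_le n

theorem ReachE.coeff_one (h : ReachE S0 cl x r P) (j : I) : PowerSeries.coeff 1 (P x j) = 0 := by
  obtain ⟨L, hL, h⟩ := h
  rw [← hL x j, coeff_toZS, h.coeff_one j, Nat.cast_zero]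

/-- a presentation reaches itself -/
theorem ReachE.of {Q : Matrix I I ℕ[X]} (h : PresOf δ cl Q) (hq : ∀ n, qB.coeff n ≤ (Q x x).coeff n)
    (hx : ∀ j, (Q x j).coeff 1 = 0) (r : ℝ)
    (hS : PX.Rel S0 (⟨I, inferInstance, cl, Q, x, h, hq, hx⟩ : PX K δ qB)) :
    ReachE S0 cl x r (fun i j => ps (toZ (Q i j))) :=
  ⟨_, fun i j => toZS_coe (Q i j), Reach.of h hq hx r hS⟩

/-- renaming the generators -/
theorem ReachE.reindex {J : Type} [Fintype J] (h : ReachE S0 cl x r P) (e : J ≃ I) :
    ReachE S0 (fun j => cl (e j)) (e.symm x) r (P.submatrix e e) := by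
  obtain ⟨L, hL, h⟩ := h
  exact ⟨_, fun i j => hL (e i) (e j), h.rename e⟩

theorem ReachE.congr {cl' : I → K} {x' : I} {P' : Matrix I I (PowerSeries ℤ)}
    (h : ReachE S0 cl x r P) (hc : cl = cl') (hx : x = x') (hP : P = P') :
    ReachE S0 cl' x' r P' := by
  subst hc hx hP
  exact h

/-- a smaller radius -/
theorem ReachE.mono_r {r' : ℝ} (hr' : 0 ≤ r') (hrr : r' ≤ r) (h : ReachE S0 cl x r P) :
    ReachE S0 cl x r' P := by
  obtain ⟨L, hL, h⟩ := h
  exact ⟨L, hL, h.mono_r hr' hrr⟩

/-- larger starting object -/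
theorem ReachE.of_rel {S1 : PX K δ qB} (h : ReachE S1 cl x r P) (hS : PX.Rel S0 S1) :
    ReachE S0 cl x r P := by
  obtain ⟨L, hL, h⟩ := h
  exact ⟨L, hL, h.of_rel hS⟩

/-- (C1) expansion of the row `i` -/
theorem ReachE.expand (hr : 0 ≤ r) (h : ReachE S0 cl x r P) (i : I) (W N : I → PowerSeries ℤ)
    (hW : ∀ k, HN.Nn (W k)) (hWf : ∀ k, FN r (W k)) (hWi : W i = 0)
    (hN : ∀ j, N j = P i j - W j + ∑ k, W k * P k j) (hNn : ∀ j, HN.Nn (N j))
    (hq : i = x → ∀ n, (qB.coeff n : ℤ) ≤ PowerSeries.coeff n (N x))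
    (h1 : i = x → ∀ j, PowerSeries.coeff 1 (N j) = 0) :
    ReachE S0 cl x r (P.updateRow i N) := by
  obtain ⟨L, hL, h⟩ := h
  have hWW : ∀ k, toZS (toNS (W k)) = W k := fun k => toZS_toNS (hW k)
  have hNN : ∀ j, toZS (toNS (N j)) = N j := fun j => toZS_toNS (hNn j)
  refine ⟨L.updateRow i fun j => toNS (N j), fun a j => ?_, ?_⟩
  · by_cases ha : a = i
    · subst ha
      rw [updateRow_self, updateRow_self]
      exact hNN j
    · rw [updateRow_ne ha, updateRow_ne ha]
      exact hL a j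
  · refine h.expand hr i (fun k => toNS (W k)) ?_ (fun k => ?_) (fun a ha => updateRow_ne ha)
      (fun j => ?_) (fun hix n => ?_) fun hix j => ?_
    · refine toZS_inj ?_
      rw [hWW, hWi, map_zero]
    · refine (fn_toZS hr).1 ?_
      rw [hWW]
      exact hWf k
    · refine toZS_inj ?_
      rw [updateRow_self]
      simp only [map_add, map_sum, map_mul, hWW, hNN, hL]
      rw [hN j]
      ring
    · subst hix
      rw [updateRow_self, coeff_toNS]
      have e1 := hq rfl n
      omega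
    · subst hix
      rw [updateRow_self, coeff_toNS, h1 rfl j]
      rfl

/-- the matrix after an isolation at `o`: the new vertex `inr ()` has the loop `s` -/
noncomputable def isoL (P : Matrix I I (PowerSeries ℤ)) (o : I) (m s : PowerSeries ℤ) :
    Matrix (I ⊕ Unit) (I ⊕ Unit) (PowerSeries ℤ) :=
  fun i j => match i, j with
  | Sum.inl i, Sum.inl j => if i = o then HN.geo s * (P o j - if j = o then s else 0) else P i j
  | Sum.inl _, Sum.inr _ => 0
  | Sum.inr _, Sum.inl j => m * (P o j - if j = o then s else 0)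
  | Sum.inr _, Sum.inr _ => s

omit [Fintype I] in
lemma isoL_nn {o : I} {m s : PowerSeries ℤ} (hP : ∀ i j, HN.Nn (P i j)) (hm : HN.Nn m)
    (hs0 : PowerSeries.coeff 0 s = 0) (hs : HN.Nn s) (hle : HN.Nn (P o o - s)) (a b : I ⊕ Unit) :
    HN.Nn (isoL P o m s a b) := by
  have h1 : ∀ j, HN.Nn (P o j - if j = o then s else 0) := by
    intro j
    by_cases hj : j = o
    · rw [if_pos hj, hj]
      exact hle
    · rw [if_neg hj, sub_zero]
      exact hP o j
  rcases a with a | a <;> rcases b with b | b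
  · change HN.Nn (if a = o then HN.geo s * (P o b - if b = o then s else 0) else P a b)
    by_cases ha : a = o
    · rw [if_pos ha]
      exact (HN.nn_geo hs0 hs).mul (h1 b)
    · rw [if_neg ha]
      exact hP a b
  · exact HN.nn_zero
  · exact hm.mul (h1 b)
  · exact hs

/-- (C2) isolation of `s = X * n`, `n` without constant term (`n = O(X^2)` at the hub); the class of
the new vertex is `X • cl o` -/
theorem ReachE.isolate (hr : 0 ≤ r) (h : ReachE S0 cl x r P) (o : I) (s : PowerSeries ℤ)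
    (hs : TS r s) (hs0 : s ≠ 0) (hs1 : sn r s < 1) (hle : HN.Nn (P o o - s))
    (hord : PowerSeries.coeff 1 s = 0) (hordx : o = x → PowerSeries.coeff 2 s = 0)
    (hq : o = x → ∀ n, (qB.coeff n : ℤ) ≤ PowerSeries.coeff n (P x x - s)) :
    ReachE S0 (Sum.elim cl fun _ => (X : ℤ[X]) • cl o) (Sum.inl x) r
      (isoL P o (PowerSeries.X : PowerSeries ℤ) s) := by
  have hPn := h.nn
  obtain ⟨L, hL, h⟩ := h
  -- `s = X * n`
  set n : PowerSeries ℕ := PowerSeries.mk fun d => (PowerSeries.coeff (d + 1) s).toNat with hn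
  have hXn : (PowerSeries.X : PowerSeries ℕ) * n = toNS s := by
    ext d
    rcases d with - | d
    · rw [coeff_toNS, hs.c0]
      simp
    · rw [PowerSeries.coeff_succ_X_mul, coeff_toNS, hn, PowerSeries.coeff_mk]
  have hmn : ((X : ℕ[X]) : PowerSeries ℕ) * n = toNS s := by rw [Polynomial.coe_X, hXn]
  have hss : toZS (toNS s) = s := toZS_toNS hs.nn
  have hcv : Cv r (toNS s) := by
    refine (fn_toZS hr).1 ?_
    rw [hss]
    exact hs.fn
  have hcvn : Cv r n := Cv.of_X_mul hr (hXn ▸ hcv)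
  have hnn := isoL_nn (o := o) (m := (PowerSeries.X : PowerSeries ℤ)) hPn (by
    have := HN.nn_X_pow 1
    rwa [pow_one] at this) hs.c0 hs.nn hle
  set L' : Matrix (I ⊕ Unit) (I ⊕ Unit) (PowerSeries ℕ) :=
    fun a b => toNS (isoL P o (PowerSeries.X : PowerSeries ℤ) s a b) with hL'
  have hLL' : ∀ a b, toZS (L' a b) = isoL P o (PowerSeries.X : PowerSeries ℤ) s a b :=
    fun a b => toZS_toNS (hnn a b)
  have hi1 : ∀ a, a ≠ o → ∀ j, isoL P o (PowerSeries.X : PowerSeries ℤ) s (Sum.inl a) (Sum.inl j) =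
      P a j := fun a ha j => if_neg ha
  have hi2 : ∀ j, isoL P o (PowerSeries.X : PowerSeries ℤ) s (Sum.inl o) (Sum.inl j) =
      HN.geo s * (P o j - if j = o then s else 0) := fun j => if_pos rfl
  have key := h.isolate hr o (X : ℕ[X]) (by simp) n (by
      rw [hn, PowerSeries.coeff_mk, hord]
      rfl) hcvn hs1 (fun T => by
      rw [hmn]
      have := nv_trunc_le_sn hr hcv T
      rwa [hss] at this) (fun d => by
      rw [hmn]
      refine toZS_le ?_ d
      rw [hL, hss]
      exact hle) (L' := L') (fun a ha j => by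
      refine toZS_inj ?_
      rw [hLL', hL, hi1 a ha]) (fun a => by
      refine toZS_inj ?_
      rw [hLL', map_zero]
      rfl) (fun j => by
      refine toZS_inj ?_
      rw [map_add, map_add, map_mul, hLL', hi2, hL, hmn, hss]
      have e1 : toZS (if j = o then toNS s else 0) = if j = o then s else 0 := by
        split_ifs
        · exact hss
        · exact map_zero _
      rw [e1]
      linear_combination (P o j - if j = o then s else 0) * HN.one_sub_mul_geo hs.c0) (fun j => by
      refine toZS_inj ?_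
      have e1 : toZS (if j = o then ((X : ℕ[X]) : PowerSeries ℕ) * toNS s else 0) =
          if j = o then PowerSeries.X * s else 0 := by
        split_ifs
        · rw [map_mul, hss, Polynomial.coe_X, toZS_X]
        · exact map_zero _
      rw [hmn, map_add, map_mul, hLL', hL, e1, Polynomial.coe_X, toZS_X]
      change PowerSeries.X * (P o j - if j = o then s else 0) + _ = _
      split_ifs
      · ring
      · ring) (by
      refine toZS_inj ?_
      rw [hLL', hmn, hss]
      rfl) (fun hox d => by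
      rw [hmn]
      have e1 := hq hox d
      have e2 := hs.nn d
      rw [map_sub, ← hL x x, coeff_toZS] at e1
      rw [coeff_toNS]
      omega) (fun hox => by
      rw [hn, PowerSeries.coeff_mk, hordx hox]
      rfl)
  have hXX : toZ (X : ℕ[X]) = (X : ℤ[X]) := by
    unfold toZ
    rw [Polynomial.map_X]
  rw [hXX] at key
  exact ⟨L', hLL', key⟩

/-- (C2) isolation of a loop `X` at `o ≠ x`; the class of the new vertex is `cl o` -/
theorem ReachE.isolate_one (hr : 0 ≤ r) (hr1 : r < 1) (h : ReachE S0 cl x r P) (o : I) (ho : o ≠ x)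
    (hle : 1 ≤ PowerSeries.coeff 1 (P o o)) :
    ReachE S0 (Sum.elim cl fun _ => cl o) (Sum.inl x) r
      (isoL P o 1 (PowerSeries.X : PowerSeries ℤ)) := by
  have hPn := h.nn
  obtain ⟨L, hL, h⟩ := h
  have hX0 : PowerSeries.coeff 0 (PowerSeries.X : PowerSeries ℤ) = 0 := by simp
  have hXn : HN.Nn (PowerSeries.X : PowerSeries ℤ) := by
    have := HN.nn_X_pow 1
    rwa [pow_one] at this
  have hle' : HN.Nn (P o o - PowerSeries.X) := by
    intro d
    rw [map_sub, PowerSeries.coeff_X]
    have e1 := hPn o o d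
    split_ifs with hd
    · subst hd
      linarith
    · linarith
  have hnn := isoL_nn (o := o) (m := (1 : PowerSeries ℤ)) hPn HN.nn_one hX0 hXn hle'
  set L' : Matrix (I ⊕ Unit) (I ⊕ Unit) (PowerSeries ℕ) :=
    fun a b => toNS (isoL P o 1 (PowerSeries.X : PowerSeries ℤ) a b) with hL'
  have hLL' : ∀ a b, toZS (L' a b) = isoL P o 1 (PowerSeries.X : PowerSeries ℤ) a b :=
    fun a b => toZS_toNS (hnn a b)
  have e1 : ∀ j, toZS (if j = o then (PowerSeries.X : PowerSeries ℕ) else 0) =
      if j = o then (PowerSeries.X : PowerSeries ℤ) else 0 := by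
    intro j
    split_ifs
    · exact toZS_X
    · exact map_zero _
  refine ⟨L', hLL', h.isolate_one hr hr1 o ho (fun a ha j => ?_) (fun a => ?_) (fun j => ?_)
    (fun j => ?_) ?_⟩
  · refine toZS_inj ?_
    rw [hLL', hL]
    exact if_neg ha
  · refine toZS_inj ?_
    rw [hLL', map_zero]
    rfl
  · refine toZS_inj ?_
    rw [map_add, map_add, map_mul, hLL', hL, e1, toZS_X]
    change (if o = o then HN.geo PowerSeries.X * (P o j - if j = o then PowerSeries.X else 0)
      else P o j) + _ = _ + _ * (if o = o then HN.geo PowerSeries.X *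
        (P o j - if j = o then PowerSeries.X else 0) else P o j)
    rw [if_pos rfl]
    linear_combination (P o j - if j = o then PowerSeries.X else 0) * HN.one_sub_mul_geo hX0
  · refine toZS_inj ?_
    rw [map_add, hLL', hL, e1]
    change 1 * (P o j - if j = o then PowerSeries.X else 0) + _ = _
    ring
  · refine toZS_inj ?_
    rw [hLL', toZS_X]
    rfl

/-- (C3) change of the class of `y` -/
theorem ReachE.class_move (hr : 0 ≤ r) (h : ReachE S0 cl x r P) (y : I) (hy : y ≠ x)
    (hcol : ∀ i, i ≠ y → P i y = 0) (ζ : I → ℕ[X]) (hζ0 : ∀ j, (ζ j).coeff 0 = 0) (hζy : ζ y = 0)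
    (hle : ∀ j n, ((ζ j).coeff n : ℤ) ≤ PowerSeries.coeff n (P y j)) :
    ReachE S0 (Function.update cl y (cl y - ∑ j, toZ (ζ j) • cl j)) x r
      (P.updateRow y (fun j => P y j - ps (toZ (ζ j)) + P y y * ps (toZ (ζ j)))) := by
  have hPn := h.nn
  obtain ⟨L, hL, h⟩ := h
  have hNn : ∀ j, HN.Nn (P y j - ps (toZ (ζ j)) + P y y * ps (toZ (ζ j))) := by
    intro j
    refine HN.Nn.add (fun d => ?_) ((hPn y y).mul ?_)
    · rw [map_sub, ← toZS_coe, coeff_toZS, Polynomial.coeff_coe]
      have := hle j d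
      linarith
    · rw [← toZS_coe]
      exact nn_toZS _
  refine ⟨L.updateRow y fun j => toNS (P y j - ps (toZ (ζ j)) + P y y * ps (toZ (ζ j))),
    fun a j => ?_, ?_⟩
  · by_cases ha : a = y
    · subst ha
      rw [updateRow_self, updateRow_self]
      exact toZS_toNS (hNn j)
    · rw [updateRow_ne ha, updateRow_ne ha]
      exact hL a j
  · refine h.class_move hr y hy ζ hζy (fun j d => ?_) (fun i hi j => ?_) fun j => ?_
    · have e1 := hle j d
      rw [← hL y j, coeff_toZS] at e1
      exact_mod_cast e1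
    · rw [updateRow_ne hi]
      have e1 : L i y = 0 := by
        refine toZS_inj ?_
        rw [hL, hcol i hi, map_zero]
      rw [e1, zero_mul, add_zero]
    · refine toZS_inj ?_
      rw [updateRow_self, map_add, map_add, map_mul, toZS_toNS (hNn j), hL, hL, toZS_coe]
      ring

/-- (C4) adding sources -/
theorem ReachE.source {G : Type} [Fintype G] (hr : 0 ≤ r) (h : ReachE S0 cl x r P)
    (ζ : G → I → ℕ[X]) (hζ0 : ∀ g j, (ζ g j).coeff 0 = 0) :
    ReachE S0 (Sum.elim cl fun g => ∑ j, toZ (ζ g j) • cl j) (Sum.inl x) r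
      (fromBlocks P 0 (fun g j => ps (toZ (ζ g j))) 0) := by
  obtain ⟨L, hL, h⟩ := h
  refine ⟨fromBlocks L 0 (fun g j => (ζ g j : PowerSeries ℕ)) 0, ?_,
    h.source hr ζ hζ0 (fun _ _ => rfl) (fun _ _ => rfl) (fun _ _ => rfl) (fun _ _ => rfl)⟩
  rintro (a | a) (b | b)
  · exact hL a b
  · exact map_zero _
  · exact toZS_coe _
  · exact map_zero _

end

end Pool.Agent.SSE
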