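import Pool.Agent.SSE.S1X
import Pool.Agent.SSE.HR
import Pool.Agent.SSE.HOwn1

/-!
# SSE project, hub part: the first hub state
-/

set_option autoImplicit false

open scoped BigOperators
open Matrix Polynomial

namespace Pool.Agent.SSE

attribute [local instance] Classical.propDecidable

section

variable {K : Type} [AddCommGroup K] [Module ℤ[X] K] {δ : ℤ[X]} {D : PFM K δ} {ξ : K}

theorem TS_toZ (r : ℝ) {p : ℕ[X]} (h0 : p.coeff 0 = 0) : TS r (ps (toZ p)) := by
  refine ⟨?_, fun d => ?_, ?_⟩
  · rw [coeff_ps, coeff_toZ, h0]; rfl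
  · rw [coeff_ps, coeff_toZ]; positivity
  · have h1 : HN.toRS (ps (toZ p)) = ((toR (toZ p) : ℝ[X]) : PowerSeries ℝ) := by
      ext n
      rw [HN.coeff_toRS, coeff_ps, coeff_toZ, Polynomial.coeff_coe]
      simp [toR]
    unfold FN
    rw [h1]
    exact PF.hasN_poly r _

namespace S1D

/-- the rows of the hubs `F` -/
noncomputable def rows (S : S1D D ξ) : S.F → Option S.F → PowerSeries ℤ :=
  fun f j => ps (toZ (S.P (some f) j))

/-- the row of the main hub -/
noncomputable def wrow (S : S1D D ξ) (E : ℕ) : Option S.F → PowerSeries ℤ :=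
  fun j => ps (toZ (S.xrow E j))

theorem cls_pos (S : S1D D ξ) (i : Option S.F) : 0 < D.tau (S.cls i) := by
  rcases i with _ | f
  · exact S.xi_pos
  · exact S.xi_pos.trans (S.xi_lt f)

/-- the first hub state -/
theorem hub_start (S : S1D D ξ) {E : ℕ} (hE : 3 ≤ E) {qB : ℕ[X]}
    (hq : ∀ n, qB.coeff n ≤ (S.xrow E none).coeff n) {r : ℝ} (hr : 1 < D.lam * r)
    (hr' : r ≤ D.rad) (cst : K) :
    Hub D (S.px E hE qB hq) r S.cls cst (glue (S.wrow E) S.rows) 0 := by
  have hp : ∀ i j, glue (S.wrow E) S.rows i j = ps (toZ (S.PE E i j)) := by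
    rintro (_ | i) j <;> rfl
  have hpres := (S.PE_pres hE).2
  refine ⟨Empty, inferInstance, fun y => y.elim, fun y => y.elim, rfl, hr, hr', fun i j => ?_,
    fun y => y.elim, fun y => y.elim, fun y => y.elim, fun y => y.elim, fun y => y.elim,
    S.cls_pos, fun n => ?_, fun j => ?_, ?_⟩
  · rw [hp]
    exact TS_toZ r (hpres.pres i j)
  · rw [hp, coeff_ps, coeff_toZ]
    exact_mod_cast hq n
  · rw [hp, coeff_ps, coeff_toZ]
    exact_mod_cast S.xrow_low hE j (by norm_num)
  · have h1 : ReachE (S.px E hE qB hq) S.cls none r (fun i j => ps (toZ (S.PE E i j))) :=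
      ReachE.of (x := none) hpres hq (fun j => S.xrow_low hE j (show 1 < 3 by norm_num)) r (PX.Rel.refl _)
    have h2 := h1.reindex (Equiv.sumEmpty (Option S.F) Empty)
    have e1 : (fun j => S.cls ((Equiv.sumEmpty (Option S.F) Empty) j)) =
        Sum.elim S.cls (fun _ => cst) := by
      funext j
      rcases j with j | j
      · rfl
      · exact j.elim
    have e2 : (Equiv.sumEmpty (Option S.F) Empty).symm none = Sum.inl none := rfl
    have e3 : Matrix.submatrix (fun i j => ps (toZ (S.PE E i j)) :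
        Matrix (Option S.F) (Option S.F) (PowerSeries ℤ))
        (Equiv.sumEmpty (Option S.F) Empty) (Equiv.sumEmpty (Option S.F) Empty) =
        hubM (glue (S.wrow E) S.rows) (fun y : Empty => y.elim) (fun y => y.elim) := by
      ext1 i j
      rcases i with i | i
      · rcases j with j | j
        · exact (hp i j).symm
        · exact j.elim
      · exact i.elim
    rw [e1, e2, e3] at h2
    exact h2

/-- all hubs are visible in the row of the main hub -/
theorem visib (S : S1D D ξ) : ∃ E0, ∀ E, E0 ≤ E → ∀ f,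
    1 ≤ PowerSeries.coeff E (S.wrow E (some f)) := by
  choose E1 hE1 using fun f => S.grow f 1
  refine ⟨Finset.univ.sup E1, fun E hE f => ?_⟩
  unfold wrow
  rw [coeff_ps, coeff_toZ, S.xrow_some_eq]
  exact hE1 f E ((Finset.le_sup (f := E1) (Finset.mem_univ f)).trans hE)

theorem visib' (S : S1D D ξ) : ∃ E0, ∀ E, E0 ≤ E →
    Visib (glue (S.wrow E) S.rows) S.e := by
  obtain ⟨E0, h⟩ := S.visib
  exact ⟨E0, fun E hE i => ⟨E, h E hE (S.e i)⟩⟩

/-- goodness -/
theorem good_rows (S : S1D D ξ) : Good S.ρ (rFF S.rows) := S.good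

/-- goodness at a smaller radius -/
theorem good_mono (S : S1D D ξ) {r : ℝ} (hr : 0 ≤ r) (h : r ≤ S.ρ) : Good r (rFF S.rows) := by
  obtain ⟨g, θ, hg⟩ := S.good
  refine ⟨g, θ, hg.pos, hg.nonneg, hg.lt, fun f => le_trans ?_ (hg.row f)⟩
  refine Finset.sum_le_sum fun k _ => mul_le_mul_of_nonneg_right ?_ (hg.pos k).le
  unfold rFF rows
  rw [sn_toZ, sn_toZ]
  exact evp_mono hr h _

/-- the walks from the main hub to `f` and the first passage series -/
theorem Hret_rows (S : S1D D ξ) {φ : S.F → PowerSeries ℤ} (E : ℕ)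
    (hφ : FP (glue (S.wrow E) S.rows) φ) : Hret (glue (S.wrow E) S.rows) φ = S.H := by
  have hφ' : ∀ f, φ f = S.rows f none + ∑ k, S.rows f (some k) * φ k := hφ
  -- `V φ`-sum
  have h1 : ∑ f, S.V f * φ f = ∑ f, ps (toZ (S.P none (some f))) * φ f +
      ∑ f, (∑ k, S.V k * S.rows k (some f)) * φ f := by
    rw [← Finset.sum_add_distrib]
    refine Finset.sum_congr rfl fun f _ => ?_
    rw [← add_mul]
    exact congrArg (· * φ f) (S.hV f)
  have h2 : ∑ f, S.V f * φ f = ∑ f, S.V f * S.rows f none +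
      ∑ f, (∑ k, S.V k * S.rows k (some f)) * φ f := by
    have e1 : ∀ f, S.V f * φ f = S.V f * S.rows f none +
        ∑ k, S.V f * (S.rows f (some k) * φ k) := by
      intro f
      conv_lhs => rw [hφ' f]
      rw [mul_add, Finset.mul_sum]
    simp only [e1, Finset.sum_add_distrib, Finset.sum_mul]
    congr 1
    rw [Finset.sum_comm]
    refine Finset.sum_congr rfl fun f _ => Finset.sum_congr rfl fun k _ => ?_
    ring
  have h3 : ∑ f, ps (toZ (S.P none (some f))) * φ f = ∑ f, S.V f * S.rows f none := by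
    rw [h1] at h2
    exact add_right_cancel h2
  -- truncations
  have hw : ∀ j, S.wrow E j = ps (toZ (S.P none j)) +
      (∑ k, ps (tr E (S.V k)) * ps (toZ (S.P (some k) j))) -
      ps (j.elim 0 (fun f => tr E (S.V f))) := by
    intro j
    unfold wrow
    rw [S.toZ_xrow]
    unfold expRow
    rw [ps_sub, ps_add, ps_sum]
    simp only [ps_mul]
  unfold Hret
  rw [glue_none, hw none, S.hH]
  simp only [hw]
  have e0 : ps (Option.elim (none : Option S.F) (0 : ℤ[X]) (fun f => tr E (S.V f))) = 0 :=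
    Polynomial.coe_zero
  rw [e0, sub_zero]
  have h4 : ∑ f, (ps (toZ (S.P none (some f))) +
      (∑ k, ps (tr E (S.V k)) * ps (toZ (S.P (some k) (some f)))) -
      ps (Option.elim (some f) 0 (fun f => tr E (S.V f)))) * φ f =
      ∑ f, ps (toZ (S.P none (some f))) * φ f +
        ∑ k, ps (tr E (S.V k)) * (∑ f, S.rows k (some f) * φ f) -
        ∑ f, ps (tr E (S.V f)) * φ f := by
    simp only [sub_mul, add_mul, Finset.sum_add_distrib, Finset.sum_sub_distrib, Finset.sum_mul,
      Finset.mul_sum]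
    congr 2
    rw [Finset.sum_comm]
    refine Finset.sum_congr rfl fun k _ => Finset.sum_congr rfl fun f _ => ?_
    unfold rows
    ring
  rw [h4, h3]
  have h5 : ∀ k, ∑ f, S.rows k (some f) * φ f = φ k - S.rows k none := by
    intro k
    conv_rhs => rw [hφ' k]
    ring
  simp only [h5, mul_sub, Finset.sum_sub_distrib]
  have h6 : ∑ k, ps (tr E (S.V k)) * ps (toZ (S.P (some k) none)) =
      ∑ k, ps (tr E (S.V k)) * S.rows k none := rfl
  rw [h6]
  have h7 : ∑ f, S.V f * ps (toZ (S.P (some f) none)) = ∑ f, S.V f * S.rows f none := rfl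
  rw [h7]
  ring

end S1D

end

end Pool.Agent.SSE
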