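import Pool.Agent.SSE.HPure
import Pool.Agent.SSE.HNum
import Pool.Agent.SSE.HSrc
import Pool.Agent.SSE.HLim
import Pool.Agent.SSE.HOut
import Pool.Agent.SSE.S1H

/-!
# SSE project, hub part: THEOREM H
-/

set_option autoImplicit false
set_option linter.unusedSectionVars false

open scoped BigOperators
open Matrix Polynomial

namespace Pool.Agent.SSE

attribute [local instance] Classical.propDecidable

section

variable {K : Type} [AddCommGroup K] [Module ℤ[X] K] {δ : ℤ[X]} {D : PFM K δ} {ξ : K}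

/-- positive combinations of an injective family -/
theorem Rep.image {ι F : Type} [Fintype ι] [Fintype F] {cl : F → K} (e : ι → F)
    (h : Rep D (fun i => cl (e i))) :
    Rep D (fun f : {f : F // ∃ i, e i = f} => cl f.1) := by
  obtain ⟨C2, hC2, h⟩ := h
  refine ⟨C2 * (Fintype.card ι + 1), by positivity, fun z hz => ?_⟩
  obtain ⟨L0, h⟩ := h z hz
  refine ⟨L0, fun L hL => ?_⟩
  obtain ⟨v, h1, h2, h3⟩ := h L hL
  refine ⟨fun f => ∑ i ∈ Finset.univ.filter (fun i => e i = f.1), v i, fun f => ?_, ?_, fun f => ?_⟩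
  · obtain ⟨i, hi⟩ := f.2
    refine (h1 i).trans (Finset.single_le_sum (f := v) (fun _ _ => Nat.zero_le _) ?_)
    simp [hi]
  · rw [h2]
    set e' : ι → {f : F // ∃ i, e i = f} := fun i => ⟨e i, i, rfl⟩ with he'
    have e1 : ∑ i, toZ (C (v i) * X ^ L : ℕ[X]) • cl (e i) =
        ∑ f : {f : F // ∃ i, e i = f}, ∑ i ∈ Finset.univ.filter (fun i => e' i = f),
          toZ (C (v i) * X ^ L : ℕ[X]) • cl (e i) :=
      (Finset.sum_fiberwise _ _ _).symm
    rw [e1]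
    refine Finset.sum_congr rfl fun f _ => ?_
    have e2 : (C (∑ i ∈ Finset.univ.filter (fun i => e i = f.1), v i) * X ^ L : ℕ[X]) =
        ∑ i ∈ Finset.univ.filter (fun i => e i = f.1), (C (v i) * X ^ L : ℕ[X]) := by
      rw [map_sum, Finset.sum_mul]
    rw [e2, toZ_sum, Finset.sum_smul]
    have e3 : Finset.univ.filter (fun i => e' i = f) = Finset.univ.filter (fun i => e i = f.1) := by
      ext i
      simp [he', Subtype.ext_iff]
    rw [e3]
    refine Finset.sum_congr rfl fun i hi => ?_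
    rw [(Finset.mem_filter.1 hi).2]
  · have hlam : 0 < D.lam := lt_trans one_pos D.one_lt
    have hnn : 0 ≤ C2 * D.tau z * D.lam ^ L := by positivity
    calc ((∑ i ∈ Finset.univ.filter (fun i => e i = f.1), v i : ℕ) : ℝ)
        = ∑ i ∈ Finset.univ.filter (fun i => e i = f.1), (v i : ℝ) := by push_cast; rfl
      _ ≤ ∑ i : ι, (v i : ℝ) := Finset.sum_le_sum_of_subset_of_nonneg (Finset.subset_univ _)
          fun _ _ _ => Nat.cast_nonneg _
      _ ≤ ∑ _i : ι, C2 * D.tau z * D.lam ^ L := Finset.sum_le_sum fun i _ => h3 i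
      _ = Fintype.card ι * (C2 * D.tau z * D.lam ^ L) := by
          rw [Finset.sum_const, nsmul_eq_mul, Finset.card_univ]
      _ ≤ (Fintype.card ι + 1) * (C2 * D.tau z * D.lam ^ L) :=
          mul_le_mul_of_nonneg_right (by linarith) hnn
      _ = C2 * (Fintype.card ι + 1) * D.tau z * D.lam ^ L := by ring

/-- one side of Theorem H -/
theorem S1D.hub_side (S : S1D D ξ) : ∃ (θ : ℝ) (cs : List (PowerSeries ℤ))
    (φ : S.F → PowerSeries ℤ), 0 ≤ θ ∧ θ < 1 ∧ (∀ c ∈ cs, TS S.ρ c ∧ sn S.ρ c ≤ θ) ∧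
      TS S.ρ S.H ∧ sv D.lam⁻¹ S.H = 1 ∧
      (1 - S.H) * (cs.map fun c => 1 - c).prod = ps δ ∧
      ∀ P, 1 ≤ P → ∃ E1, ∀ E, E1 ≤ E → ∀ (hE : 3 ≤ E) (qB : ℕ[X])
        (hq : ∀ n, qB.coeff n ≤ (S.xrow E none).coeff n),
        Hub D (S.px E hE qB hq) S.ρ S.cls ((X : ℤ[X]) • S.cls none) (pureM S.H φ)
          ((cs.map fun c => HN.own c P).sum) := by
  have hlam : 0 < D.lam := lt_trans one_pos D.one_lt
  have hρ0 : 0 < S.ρ := by
    have := S.ρ_gt
    by_contra hcon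
    push Not at hcon
    nlinarith
  have hρ1 : S.ρ < 1 := lt_of_le_of_lt S.ρ_le D.rad_lt
  obtain ⟨g, θ, hG⟩ := S.good_rows
  have hR : ∀ f j, TS S.ρ (S.rows f j) := fun f j => TS_toZ S.ρ (S.isPres _ _)
  obtain ⟨cs, φ, hO⟩ := exists_ownSeq hρ0.le Finset.univ hG hR fun f hf =>
    absurd (Finset.mem_univ f) hf
  have hφ : ∀ E, FP (glue (S.wrow E) S.rows) φ := fun E f => hO.fp f
  have hret : ∀ E, S.wrow E none + ∑ f, S.wrow E (some f) * φ f = S.H := fun E =>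
    S.Hret_rows E (hφ E)
  -- a first hub state
  have hq0 : ∀ n, (0 : ℕ[X]).coeff n ≤ (S.xrow 3 none).coeff n := fun n => by simp
  have hst := S.hub_start le_rfl hq0 S.ρ_gt S.ρ_le ((X : ℤ[X]) • S.cls none)
  have hdet := hub_det hst (hφ 3)
  have hdet2 : (1 - S.H) * (cs.map fun c => 1 - c).prod = ps δ := by
    rw [Multiset.map_zero, Multiset.prod_zero, mul_one, ← det_one_sub (hφ 3), hO.det,
      hret 3] at hdet
    exact hdet
  have hφts : ∀ f, TS S.ρ (φ f) := hO.ts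
  have hHts : TS S.ρ S.H := by
    rw [← hret 3]
    refine TS.ho_add hρ0.le (TS_toZ _ (S.xrow_low le_rfl none (by norm_num)))
      (ho_ts_sum hρ0.le _ _ fun f _ => TS.ho_mul hρ0.le
        (TS_toZ _ (S.xrow_low le_rfl (some f) (by norm_num))) (hφts f))
  have hval : sv D.lam⁻¹ S.H = 1 := by
    obtain ⟨Y, _, s, q, -, hY⟩ := hst
    have h1 := hY.H_eq ⟨g, θ, hG⟩ (hφ 3) hφts
    have h2 : Hret (glue (S.wrow 3) S.rows) φ = S.H := hret 3
    rw [h2] at h1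
    exact h1
  refine ⟨θ, cs, φ, hG.nonneg, hG.lt, hO.ownC, hHts, hval, hdet2, fun P hP => ?_⟩
  obtain ⟨E0, hE0⟩ := S.visib
  refine ⟨E0, fun E hE hE3 qB hq => ?_⟩
  have h1 := S.hub_start hE3 hq S.ρ_gt S.ρ_le ((X : ℤ[X]) • S.cls none)
  have hcst : D.tau ((X : ℤ[X]) • S.cls none) = D.lam⁻¹ * D.tau ξ := D.tau_X _
  have C : OwnCtx D S.ρ S.cls ((X : ℤ[X]) • S.cls none)
      (fun f : {f : S.F // ∃ i, S.e i = f} => f.1) (S.wrow E) := by
    refine ⟨Subtype.val_injective, fun f => ⟨E, hE0 E hE f.1⟩, S.rep.image S.e, ?_, fun f => ?_,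
      hρ0.le, hρ1⟩
    · rw [hcst]
      exact mul_pos (inv_pos.2 hlam) S.xi_pos
    · rw [hcst]
      exact mul_lt_mul_of_pos_left (S.xi_lt f) (inv_pos.2 hlam)
  have h2 := Hub.ownSeq C hO hG.lt hP h1
  rw [add_zero] at h2
  have h3 := h2.pushX hρ0.le
  rw [hret E] at h3
  exact h3

theorem hm_swap {F G : Type} [Fintype F] [Fintype G] {qB : ℕ[X]} {S0 : PX K δ qB} {r : ℝ} {cst ξ : K}
    {clF : F → K} {clG : G → K} {H : PowerSeries ℤ} {φ : G → PowerSeries ℤ}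
    {φ' : F → PowerSeries ℤ} {L : Multiset (PowerSeries ℤ)}
    (h : Hub D S0 r (fun i : Option (G ⊕ F) => i.elim ξ (Sum.elim clG clF)) cst
      (pureM H (Sum.elim φ φ')) L) :
    Hub D S0 r (fun i : Option (F ⊕ G) => i.elim ξ (Sum.elim clF clG)) cst
      (pureM H (Sum.elim φ' φ)) L := by
  have h1 := h.reindex (Equiv.sumComm F G)
  have e1 : (fun i : Option (F ⊕ G) => (fun i : Option (G ⊕ F) => i.elim ξ (Sum.elim clG clF))
      (i.map (Equiv.sumComm F G))) = fun i : Option (F ⊕ G) => i.elim ξ (Sum.elim clF clG) := by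
    funext i
    rcases i with _ | (i | i) <;> rfl
  have e2 : (fun i j : Option (F ⊕ G) => pureM H (Sum.elim φ φ') (i.map (Equiv.sumComm F G))
      (j.map (Equiv.sumComm F G))) = pureM H (Sum.elim φ' φ) := by
    funext i j
    rcases i with _ | (i | i) <;> rcases j with _ | (j | j) <;> simp [pureM]
  rw [e1] at h1
  rw [e2] at h1
  exact h1

end

/-- **THEOREM H** -/
theorem thmH : ThmH := by
  intro K _ _ δ D ξ SA SB m B hB P0
  have hlam : 0 < D.lam := lt_trans one_pos D.one_lt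
  have hx0 : 0 < D.lam⁻¹ := inv_pos.2 hlam
  obtain ⟨θA, cA, φA, hθA0, hθA1, hcA, hHA, hvA, hdA, hA⟩ := SA.hub_side
  obtain ⟨θB, cB, φB, hθB0, hθB1, hcB, hHB, hvB, hdB, hBs⟩ := SB.hub_side
  have hρA := SA.ρ_gt
  have hρB := SB.ρ_gt
  have hxA : D.lam⁻¹ < SA.ρ := by
    rw [inv_lt_iff_one_lt_mul₀ hlam, mul_comm]
    exact hρA
  have hxB : D.lam⁻¹ < SB.ρ := by
    rw [inv_lt_iff_one_lt_mul₀ hlam, mul_comm]
    exact hρB
  have hρ0 : 0 ≤ min SA.ρ SB.ρ := (hx0.trans (lt_min hxA hxB)).le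
  have hρ1 : min SA.ρ SB.ρ < 1 :=
    lt_of_le_of_lt (min_le_left _ _) (lt_of_le_of_lt SA.ρ_le D.rad_lt)
  have hRA : HN.RetS D.lam⁻¹ (min SA.ρ SB.ρ) (max SA.b0 SB.b0) SA.H :=
    ⟨hHA.nn, fun d hd => SA.coeff_H_low hd, PF.HasN.mono hρ0 (min_le_left _ _) hHA.fn, hvA,
      fun d hd => SA.hb0 d ((le_max_left _ _).trans hd)⟩
  have hRB : HN.RetS D.lam⁻¹ (min SA.ρ SB.ρ) (max SA.b0 SB.b0) SB.H :=
    ⟨hHB.nn, fun d hd => SB.coeff_H_low hd, PF.HasN.mono hρ0 (min_le_right _ _) hHB.fn, hvB,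
      fun d hd => SB.hb0 d ((le_max_right _ _).trans hd)⟩
  have hOA : ∀ c ∈ cA, HN.OwnC (min SA.ρ SB.ρ) (max θA θB) c := fun c hc =>
    ⟨(hcA c hc).1.nn, (hcA c hc).1.c0, PF.HasN.mono hρ0 (min_le_left _ _) (hcA c hc).1.fn,
      (PF.nS_mono hρ0 (min_le_left _ _) (hcA c hc).1.fn).trans
        ((hcA c hc).2.trans (le_max_left _ _))⟩
  have hOB : ∀ c ∈ cB, HN.OwnC (min SA.ρ SB.ρ) (max θA θB) c := fun c hc =>
    ⟨(hcB c hc).1.nn, (hcB c hc).1.c0, PF.HasN.mono hρ0 (min_le_right _ _) (hcB c hc).1.fn,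
      (PF.nS_mono hρ0 (min_le_right _ _) (hcB c hc).1.fn).trans
        ((hcB c hc).2.trans (le_max_right _ _))⟩
  obtain ⟨P, r, lA, lB, H, hP, hr1, hr2, hL, hdiv, hlarge, hHN, S, hSP, hS⟩ :=
    HN.numbers' hx0 (lt_min hxA hxB) hρ1 (hθA0.trans (le_max_left _ _)) (max_lt hθA1 hθB1)
      hRA hRB hOA hOB (hdA.trans hdB.symm) (max P0 3)
  have hP3 : 3 ≤ P := (le_max_right _ _).trans hP
  have hr0 : 0 < r := hx0.trans hr1
  have hrlt : r < 1 := hr2.trans hρ1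
  have hlr : 1 < D.lam * r := by
    have := (inv_lt_iff_one_lt_mul₀ hlam).1 hr1
    rwa [mul_comm] at this
  refine ⟨P, (le_max_left _ _).trans hP, fun qB hq1 hqP hq6 => ?_⟩
  obtain ⟨E1, hE1⟩ := hA P (by omega)
  obtain ⟨E2, hE2⟩ := hBs P (by omega)
  refine ⟨E1, fun E hE hE3 hq => ?_⟩
  -- side A
  have hA1 := (hE1 E hE hE3 qB hq).mono_r hlr (hr2.le.trans (min_le_left _ _))
  have hdA := hdiv (ps (toZ qB)) (fun d => by rw [coeff_ps, coeff_toZ]; positivity)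
    (fun d => by
      rw [coeff_ps, coeff_toZ]
      exact_mod_cast hq1 d)
    (fun d hd => by
      rw [coeff_ps, coeff_toZ, hqP d hd]
      rfl)
  have hA2 := Hub.divL hdA.1 hA1
  obtain ⟨φA', hA3⟩ := hA2.source SA.e SA.rep SB.cl fun g => SB.xi_pos.trans (SB.xi_lt g)
  -- side B
  have hE3' : 3 ≤ max E2 3 := le_max_right _ _
  have hq0 : ∀ n, (0 : ℕ[X]).coeff n ≤ (SB.xrow (max E2 3) none).coeff n := fun n => by simp
  have hB1 := (hE2 (max E2 3) (le_max_left _ _) hE3' 0 hq0).mono_r hlr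
    (hr2.le.trans (min_le_right _ _))
  have hdB := hdiv (ps (toZ 0)) (fun d => by rw [coeff_ps, coeff_toZ]; positivity)
    (fun d => by
      rw [coeff_ps, coeff_toZ]
      simp)
    (fun d hd => by
      rw [coeff_ps, coeff_toZ]
      simp)
  have hB2 := Hub.divL hdB.2.1 hB1
  obtain ⟨φB', hB3⟩ := hB2.source SB.e SB.rep SA.cl fun g => SA.xi_pos.trans (SA.xi_lt g)
  have hB4 : Hub D (SB.px (max E2 3) hE3' 0 hq0) r
      (fun i : Option (SA.F ⊕ SB.F) => i.elim (SA.cls none)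
        (Sum.elim (fun f => SA.cls (some f)) SB.cl)) ((X : ℤ[X]) • SA.cls none)
      (pureM H (Sum.elim φB' φB)) ((lA : Multiset _) + (cA.map fun c => HN.own c P).sum) := by
    rw [hL]
    exact hm_swap hB3
  obtain ⟨Y, _, s, q, φ, -, hF1, hF2⟩ := hub_final hA3 hB4
  obtain ⟨d0, hd0⟩ := hlarge 1
  obtain ⟨θ', Bd, L, hlim, hLH, hReA, hReB⟩ := hubLim_of hF1 hF2 ⟨d0, hd0⟩
  have hcoef : ∀ d, PowerSeries.coeff d H =
      ((PowerSeries.coeff d (L (Sum.inl none) (Sum.inl none)) : ℕ) : ℤ) := fun d => by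
    rw [← hLH, coeff_toZS]
  refine ⟨_, inferInstance, Sum.inl none, r, θ', Bd, L, _, SB.px (max E2 3) hE3' 0 hq0,
    (SB.PE_pres hE3').1.symm.trans hB, hlim, ?_, hReA, hReB⟩
  refine hval_of (fun d => ?_) hq6 hP3 hr0 hrlt ⟨S, hSP, ?_⟩
  · have h1 := hdA.2.2 d
    rw [map_sub, coeff_ps, coeff_toZ, hcoef] at h1
    have h2 : ((qB.coeff d : ℕ) : ℤ) ≤
        ((PowerSeries.coeff d (L (Sum.inl none) (Sum.inl none)) : ℕ) : ℤ) := by linarith
    exact_mod_cast h2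
  · refine hS.trans (le_of_eq ?_)
    refine Finset.sum_congr rfl fun d _ => ?_
    rw [hcoef]
    norm_cast

end Pool.Agent.SSE
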