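import Mathlib

/-!
# SSE-PF : Perron-Frobenius for primitive nonnegative real matrices

Elementary: right eigenvector by maximising `μ` with `μ x ≤ A x` on the simplex, left eigenvector by
transposition, exponential convergence by the Doeblin splitting `B^k = ε Π + (B^k - ε Π)`, `B = A/lam`,
`Π = r lᵀ`, in the norm `Nb r M c : ∑ j, |M i j| r j ≤ c r i`.
-/

set_option autoImplicit false

namespace Pool.Agent.SSE

open Matrix Finset

section PF

variable {n : Type} [Fintype n]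

/-- the operator norm of `M` for the weighted sup norm `max |v i| / r i` is at most `c` -/
def Nb (r : n → ℝ) (M : Matrix n n ℝ) (c : ℝ) : Prop := ∀ i, ∑ j, |M i j| * r j ≤ c * r i

theorem Nb.mul {r : n → ℝ} (hr : ∀ i, 0 ≤ r i) {M M' : Matrix n n ℝ} {c c' : ℝ}
    (h : Nb r M c) (h' : Nb r M' c') (hc' : 0 ≤ c') : Nb r (M * M') (c * c') := by
  intro i
  calc ∑ j, |(M * M') i j| * r j
      ≤ ∑ j, (∑ k, |M i k| * |M' k j|) * r j := by
        refine sum_le_sum fun j _ => mul_le_mul_of_nonneg_right ?_ (hr j)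
        rw [Matrix.mul_apply]
        refine (abs_sum_le_sum_abs _ _).trans (le_of_eq ?_)
        exact sum_congr rfl fun k _ => abs_mul _ _
    _ = ∑ k, |M i k| * ∑ j, |M' k j| * r j := by
        simp only [sum_mul, mul_sum]
        rw [sum_comm]
        exact sum_congr rfl fun k _ => sum_congr rfl fun j _ => by ring
    _ ≤ ∑ k, |M i k| * (c' * r k) :=
        sum_le_sum fun k _ => mul_le_mul_of_nonneg_left (h' k) (abs_nonneg _)
    _ = c' * ∑ k, |M i k| * r k := by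
        rw [mul_sum]; exact sum_congr rfl fun k _ => by ring
    _ ≤ c' * (c * r i) := mul_le_mul_of_nonneg_left (h i) hc'
    _ = c * c' * r i := by ring

theorem Nb.add {r : n → ℝ} (hr : ∀ i, 0 ≤ r i) {M M' : Matrix n n ℝ} {c c' : ℝ}
    (h : Nb r M c) (h' : Nb r M' c') : Nb r (M + M') (c + c') := by
  intro i
  calc ∑ j, |(M + M') i j| * r j ≤ ∑ j, (|M i j| * r j + |M' i j| * r j) := by
        refine sum_le_sum fun j _ => ?_
        rw [← add_mul]
        exact mul_le_mul_of_nonneg_right (abs_add_le _ _) (hr j)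
    _ = ∑ j, |M i j| * r j + ∑ j, |M' i j| * r j := sum_add_distrib
    _ ≤ c * r i + c' * r i := add_le_add (h i) (h' i)
    _ = (c + c') * r i := by ring

theorem Nb.neg {r : n → ℝ} {M : Matrix n n ℝ} {c : ℝ} (h : Nb r M c) : Nb r (-M) c := by
  intro i
  simpa using h i

theorem Nb.mono {r : n → ℝ} (hr : ∀ i, 0 ≤ r i) {M : Matrix n n ℝ} {c c' : ℝ} (h : Nb r M c)
    (hc : c ≤ c') : Nb r M c' := fun i => (h i).trans (mul_le_mul_of_nonneg_right hc (hr i))

theorem Nb.entry {r : n → ℝ} (hr : ∀ i, 0 < r i) {M : Matrix n n ℝ} {c : ℝ} (h : Nb r M c)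
    (i j : n) : |M i j| ≤ c * r i / r j := by
  rw [le_div_iff₀ (hr j)]
  refine le_trans ?_ (h i)
  exact single_le_sum (f := fun j => |M i j| * r j)
    (fun j _ => mul_nonneg (abs_nonneg _) (hr j).le) (mem_univ j)

variable [DecidableEq n]

theorem Nb.one {r : n → ℝ} : Nb r (1 : Matrix n n ℝ) 1 := by
  intro i
  rw [sum_eq_single i]
  · simp
  · intro j _ hj
    simp [Matrix.one_apply_ne hj.symm]
  · simp

theorem Nb.pow {r : n → ℝ} (hr : ∀ i, 0 ≤ r i) {M : Matrix n n ℝ} {c : ℝ} (hc : 0 ≤ c)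
    (h : Nb r M c) (m : ℕ) : Nb r (M ^ m) (c ^ m) := by
  induction m with
  | zero => simpa using Nb.one
  | succ m ih => rw [pow_succ, pow_succ]; exact ih.mul hr h hc

/-- a nonnegative matrix with `M r = c r` -/
theorem Nb.of_eigen {r : n → ℝ} {M : Matrix n n ℝ} (hM : ∀ i j, 0 ≤ M i j) {c : ℝ}
    (h : M *ᵥ r = c • r) : Nb r M c := by
  intro i
  have := congrFun h i
  simp only [Matrix.mulVec, dotProduct, Pi.smul_apply, smul_eq_mul] at this
  rw [← this]
  exact le_of_eq (sum_congr rfl fun j _ => by rw [abs_of_nonneg (hM i j)])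

theorem pow_nonneg_entries {A : Matrix n n ℝ} (hA : ∀ i j, 0 ≤ A i j) (m : ℕ) :
    ∀ i j, 0 ≤ (A ^ m) i j := by
  induction m with
  | zero =>
    intro i j
    rw [pow_zero]
    by_cases h : i = j
    · subst h; simp
    · simp [Matrix.one_apply_ne h]
  | succ m ih =>
    intro i j
    rw [pow_succ, Matrix.mul_apply]
    exact sum_nonneg fun k _ => mul_nonneg (ih i k) (hA k j)

/-- a positive matrix maps a nonnegative nonzero vector to a positive vector -/
theorem mulVec_pos_of_pos {M : Matrix n n ℝ} (hM : ∀ i j, 0 < M i j) {v : n → ℝ}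
    (hv : ∀ i, 0 ≤ v i) (hv0 : v ≠ 0) (i : n) : 0 < (M *ᵥ v) i := by
  obtain ⟨j, hj⟩ := Function.ne_iff.mp hv0
  have hj' : 0 < v j := lt_of_le_of_ne (hv j) (Ne.symm hj)
  simp only [Matrix.mulVec, dotProduct]
  exact sum_pos' (fun k _ => mul_nonneg (hM i k).le (hv k)) ⟨j, mem_univ j, mul_pos (hM i j) hj'⟩

/-- right Perron eigenvector -/
theorem pf_right [Nonempty n] {A : Matrix n n ℝ} (hA : ∀ i j, 0 ≤ A i j) {k : ℕ} (hk0 : 0 < k)
    (hk : ∀ i j, 0 < (A ^ k) i j) :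
    ∃ (lam : ℝ) (r : n → ℝ), 0 < lam ∧ (∀ i, 0 < r i) ∧ A *ᵥ r = lam • r := by
  classical
  let M : ℝ := ∑ i, ∑ j, A i j
  have hM : 0 ≤ M := sum_nonneg fun i _ => sum_nonneg fun j _ => hA i j
  let S : Set ((n → ℝ) × ℝ) := (stdSimplex ℝ n ×ˢ Set.Icc 0 M) ∩
    {p | ∀ i, p.2 * p.1 i ≤ (A *ᵥ p.1) i}
  have hcl : IsClosed {p : (n → ℝ) × ℝ | ∀ i, p.2 * p.1 i ≤ (A *ᵥ p.1) i} := by
    have : {p : (n → ℝ) × ℝ | ∀ i, p.2 * p.1 i ≤ (A *ᵥ p.1) i} =
        ⋂ i, {p : (n → ℝ) × ℝ | p.2 * p.1 i ≤ (A *ᵥ p.1) i} := by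
      ext p; simp
    rw [this]
    refine isClosed_iInter fun i => isClosed_le ?_ ?_
    · exact continuous_snd.mul ((continuous_apply i).comp continuous_fst)
    · simp only [Matrix.mulVec, dotProduct]
      exact continuous_finsetSum _ fun j _ =>
        continuous_const.mul ((continuous_apply j).comp continuous_fst)
  have hScomp : IsCompact S := ((isCompact_stdSimplex ℝ n).prod isCompact_Icc).inter_right hcl
  have hbound : ∀ (x : n → ℝ) (μ : ℝ), x ∈ stdSimplex ℝ n → (∀ i, μ * x i ≤ (A *ᵥ x) i) →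
      μ ≤ M := by
    intro x μ hx h
    have h1 : ∑ i, μ * x i = μ := by rw [← mul_sum, hx.2, mul_one]
    rw [← h1]
    refine (sum_le_sum fun i _ => h i).trans ?_
    refine sum_le_sum fun i _ => ?_
    simp only [Matrix.mulVec, dotProduct]
    refine sum_le_sum fun j _ => ?_
    have hxj : x j ≤ 1 := by
      rw [← hx.2]
      exact single_le_sum (f := x) (fun k _ => hx.1 k) (mem_univ j)
    exact mul_le_of_le_one_right (hA i j) hxj
  obtain ⟨i0⟩ := ‹Nonempty n›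
  have hne : S.Nonempty := by
    refine ⟨(Pi.single i0 1, 0), ⟨⟨single_mem_stdSimplex ℝ i0, ⟨le_rfl, hM⟩⟩, fun i => ?_⟩⟩
    simp only [zero_mul]
    simp only [Matrix.mulVec, dotProduct]
    refine sum_nonneg fun j _ => mul_nonneg (hA i j) ?_
    exact (single_mem_stdSimplex ℝ i0).1 j
  obtain ⟨⟨x, lam⟩, hxS, hmax⟩ := hScomp.exists_isMaxOn hne continuous_snd.continuousOn
  have hx : x ∈ stdSimplex ℝ n := hxS.1.1
  have hlam0 : 0 ≤ lam := hxS.1.2.1
  have hle : ∀ i, lam * x i ≤ (A *ᵥ x) i := hxS.2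
  have hx0 : x ≠ 0 := by
    intro h
    have := hx.2
    rw [h] at this
    simp at this
  have hPos : ∀ v : n → ℝ, (∀ i, 0 ≤ v i) → v ≠ 0 → ∀ i, 0 < ((A ^ k) *ᵥ v) i :=
    fun v hv hv0 => mulVec_pos_of_pos hk hv hv0
  have heig : A *ᵥ x = lam • x := by
    by_contra hneq
    let u : n → ℝ := A *ᵥ x - lam • x
    have hu : ∀ i, 0 ≤ u i := fun i => by
      simp only [u, Pi.sub_apply, Pi.smul_apply, smul_eq_mul]
      linarith [hle i]
    have hu0 : u ≠ 0 := fun h => hneq (sub_eq_zero.mp h)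
    let y : n → ℝ := (A ^ k) *ᵥ x
    have hy : ∀ i, 0 < y i := hPos x hx.1 hx0
    have hAu : ∀ i, 0 < ((A ^ k) *ᵥ u) i := hPos u hu hu0
    have hcomm : A *ᵥ y = (A ^ k) *ᵥ (A *ᵥ x) := by
      show A *ᵥ ((A ^ k) *ᵥ x) = (A ^ k) *ᵥ (A *ᵥ x)
      rw [Matrix.mulVec_mulVec, Matrix.mulVec_mulVec, ← pow_succ, ← pow_succ']
    have hkey : (A ^ k) *ᵥ u = A *ᵥ y - lam • y := by
      rw [hcomm]
      show (A ^ k) *ᵥ (A *ᵥ x - lam • x) = _
      rw [Matrix.mulVec_sub, Matrix.mulVec_smul]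
    obtain ⟨i1, hi1⟩ := Finite.exists_min (fun i => ((A ^ k) *ᵥ u) i / y i)
    let ε : ℝ := ((A ^ k) *ᵥ u) i1 / y i1
    have hε : 0 < ε := div_pos (hAu i1) (hy i1)
    have hyle : ∀ i, (lam + ε) * y i ≤ (A *ᵥ y) i := by
      intro i
      have h1 : ε * y i ≤ ((A ^ k) *ᵥ u) i := by
        have := hi1 i
        rwa [le_div_iff₀ (hy i)] at this
      have h2 := congrFun hkey i
      simp only [Pi.sub_apply, Pi.smul_apply, smul_eq_mul] at h2
      linarith
    let s : ℝ := ∑ i, y i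
    have hs : 0 < s := sum_pos (fun i _ => hy i) ⟨i0, mem_univ _⟩
    have hy' : s⁻¹ • y ∈ stdSimplex ℝ n := by
      refine ⟨fun i => ?_, ?_⟩
      · exact mul_nonneg (inv_nonneg.mpr hs.le) (hy i).le
      · simp only [Pi.smul_apply, smul_eq_mul]
        rw [← mul_sum]
        exact inv_mul_cancel₀ hs.ne'
    have hyle' : ∀ i, (lam + ε) * (s⁻¹ • y) i ≤ (A *ᵥ (s⁻¹ • y)) i := by
      intro i
      rw [Matrix.mulVec_smul]
      simp only [Pi.smul_apply, smul_eq_mul]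
      have := mul_le_mul_of_nonneg_left (hyle i) (inv_nonneg.mpr hs.le)
      linarith
    have hmem : (s⁻¹ • y, lam + ε) ∈ S :=
      ⟨⟨hy', ⟨by linarith, hbound _ _ hy' hyle'⟩⟩, hyle'⟩
    have := hmax hmem
    simp only [Set.mem_ofPred_eq] at this
    linarith
  have hpow : ∀ m : ℕ, (A ^ m) *ᵥ x = lam ^ m • x := by
    intro m
    induction m with
    | zero => simp
    | succ m ih =>
      rw [pow_succ, ← Matrix.mulVec_mulVec, heig, Matrix.mulVec_smul, ih, smul_smul, pow_succ]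
      ring_nf
  have hposx : ∀ i, 0 < lam ^ k * x i := by
    intro i
    have h1 := hPos x hx.1 hx0 i
    rw [hpow k] at h1
    simpa using h1
  have hxpos : ∀ i, 0 < x i := by
    intro i
    rcases (hx.1 i).lt_or_eq with h | h
    · exact h
    · have := hposx i
      rw [← h, mul_zero] at this
      exact absurd this (lt_irrefl _)
  have hlam : 0 < lam := by
    rcases hlam0.lt_or_eq with h | h
    · exact h
    · have := hposx i0
      rw [← h, zero_pow hk0.ne', zero_mul] at this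
      exact absurd this (lt_irrefl _)
  exact ⟨lam, x, hlam, hxpos, heig⟩

/-- Perron-Frobenius with exponential convergence -/
theorem pf_main [Nonempty n] {A : Matrix n n ℝ} (hA : ∀ i j, 0 ≤ A i j) {k : ℕ} (hk0 : 0 < k)
    (hk : ∀ i j, 0 < (A ^ k) i j) :
    ∃ (lam : ℝ) (r l : n → ℝ) (C ρ : ℝ), 0 < lam ∧ (∀ i, 0 < r i) ∧ (∀ i, 0 < l i) ∧
      A *ᵥ r = lam • r ∧ l ᵥ* A = lam • l ∧ l ⬝ᵥ r = 1 ∧ 0 ≤ C ∧ 0 < ρ ∧ ρ < 1 ∧
      ∀ d i j, |(A ^ d) i j - lam ^ d * (r i * l j)| ≤ C * (ρ * lam) ^ d := by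
  classical
  obtain ⟨lam, r, hlam, hr, hAr⟩ := pf_right hA hk0 hk
  have hkT : ∀ i j, 0 < (Aᵀ ^ k) i j := by
    intro i j
    rw [← Matrix.transpose_pow]
    exact hk j i
  obtain ⟨lam', l0, hlam', hl0, hAl0⟩ := pf_right (A := Aᵀ) (fun i j => hA j i) hk0 hkT
  have hl0A : l0 ᵥ* A = lam' • l0 := by
    rw [← hAl0, Matrix.mulVec_transpose]
  obtain ⟨i0⟩ := ‹Nonempty n›
  have hdot : 0 < l0 ⬝ᵥ r := sum_pos (fun i _ => mul_pos (hl0 i) (hr i)) ⟨i0, mem_univ _⟩
  have heq : lam' = lam := by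
    have h1 : l0 ⬝ᵥ (A *ᵥ r) = lam * (l0 ⬝ᵥ r) := by rw [hAr, dotProduct_smul, smul_eq_mul]
    have h2 : l0 ⬝ᵥ (A *ᵥ r) = lam' * (l0 ⬝ᵥ r) := by
      rw [Matrix.dotProduct_mulVec, hl0A, smul_dotProduct, smul_eq_mul]
    exact mul_right_cancel₀ hdot.ne' (h2.symm.trans h1)
  subst heq
  set lam := lam' with hlamdef
  let l : n → ℝ := (l0 ⬝ᵥ r)⁻¹ • l0
  have hl : ∀ i, 0 < l i := fun i => mul_pos (inv_pos.mpr hdot) (hl0 i)
  have hlA : l ᵥ* A = lam • l := by
    show ((l0 ⬝ᵥ r)⁻¹ • l0) ᵥ* A = lam • ((l0 ⬝ᵥ r)⁻¹ • l0)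
    rw [Matrix.smul_vecMul, hl0A, smul_comm]
  have hlr : l ⬝ᵥ r = 1 := by
    show ((l0 ⬝ᵥ r)⁻¹ • l0) ⬝ᵥ r = 1
    rw [smul_dotProduct, smul_eq_mul, inv_mul_cancel₀ hdot.ne']
  -- the normalised matrix and the projection
  let B : Matrix n n ℝ := lam⁻¹ • A
  let Q : Matrix n n ℝ := Matrix.vecMulVec r l
  have hB0 : ∀ i j, 0 ≤ B i j := fun i j => mul_nonneg (inv_nonneg.mpr hlam.le) (hA i j)
  have hBr : B *ᵥ r = r := by
    show (lam⁻¹ • A) *ᵥ r = r
    rw [Matrix.smul_mulVec, hAr, smul_smul, inv_mul_cancel₀ hlam.ne', one_smul]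
  have hlB : l ᵥ* B = l := by
    show l ᵥ* (lam⁻¹ • A) = l
    rw [Matrix.vecMul_smul, hlA, smul_smul, inv_mul_cancel₀ hlam.ne', one_smul]
  have hBQ : B * Q = Q := by
    show B * Matrix.vecMulVec r l = _
    rw [Matrix.mul_vecMulVec, hBr]
  have hQB : Q * B = Q := by
    show Matrix.vecMulVec r l * B = _
    rw [Matrix.vecMulVec_mul, hlB]
  have hQQ : Q * Q = Q := by
    show Matrix.vecMulVec r l * Matrix.vecMulVec r l = Matrix.vecMulVec r l
    rw [Matrix.vecMulVec_mul_vecMulVec, hlr, one_smul]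
  have hBpow : ∀ m, (B ^ m) *ᵥ r = r := by
    intro m
    induction m with
    | zero => simp
    | succ m ih => rw [pow_succ, ← Matrix.mulVec_mulVec, hBr, ih]
  have hBmQ : ∀ m, B ^ m * Q = Q := by
    intro m
    induction m with
    | zero => simp
    | succ m ih => rw [pow_succ, Matrix.mul_assoc, hBQ, ih]
  have hQBm : ∀ m, Q * B ^ m = Q := by
    intro m
    induction m with
    | zero => simp
    | succ m ih => rw [pow_succ', ← Matrix.mul_assoc, hQB, ih]
  have hBk : ∀ i j, 0 < (B ^ k) i j := by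
    intro i j
    show 0 < ((lam⁻¹ • A) ^ k) i j
    rw [smul_pow]
    exact mul_pos (pow_pos (inv_pos.mpr hlam) k) (hk i j)
  -- the Doeblin constant
  obtain ⟨p1, hp1⟩ := Finite.exists_min (fun p : n × n => (B ^ k) p.1 p.2 / (r p.1 * l p.2))
  let ε0 : ℝ := (B ^ k) p1.1 p1.2 / (r p1.1 * l p1.2)
  have hε0 : 0 < ε0 := div_pos (hBk _ _) (mul_pos (hr _) (hl _))
  let ε : ℝ := min ε0 (1 / 2)
  have hε : 0 < ε := lt_min hε0 (by norm_num)
  have hε1 : ε < 1 := lt_of_le_of_lt (min_le_right _ _) (by norm_num)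
  have hεle : ∀ i j, ε * Q i j ≤ (B ^ k) i j := by
    intro i j
    have h1 := hp1 (i, j)
    have h2 : ε0 * (r i * l j) ≤ (B ^ k) i j := by
      rwa [le_div_iff₀ (mul_pos (hr i) (hl j))] at h1
    have h3 : ε * (r i * l j) ≤ ε0 * (r i * l j) :=
      mul_le_mul_of_nonneg_right (min_le_left _ _) (mul_pos (hr i) (hl j)).le
    have h4 : Q i j = r i * l j := rfl
    rw [h4]
    exact h3.trans h2
  let D : Matrix n n ℝ := B ^ k - ε • Q
  have hD : Nb r D (1 - ε) := by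
    apply Nb.of_eigen
    · intro i j
      show 0 ≤ (B ^ k) i j - ε * Q i j
      linarith [hεle i j]
    · show (B ^ k - ε • Q) *ᵥ r = _
      have hQr : Q *ᵥ r = r := by
        show Matrix.vecMulVec r l *ᵥ r = r
        rw [Matrix.vecMulVec_mulVec, hlr]
        ext i; simp
      rw [Matrix.sub_mulVec, Matrix.smul_mulVec, hBpow, hQr, sub_smul, one_smul]
  have hDr0 : (0 : ℝ) ≤ 1 - ε := by linarith
  have hr' : ∀ i, 0 ≤ r i := fun i => (hr i).le
  have hBN : Nb r B 1 := Nb.of_eigen hB0 (by rw [hBr, one_smul])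
  have h1Q : Nb r (1 - Q) 2 := by
    have hQN : Nb r Q 1 := Nb.of_eigen (fun i j => (mul_pos (hr i) (hl j)).le) (by
      show Matrix.vecMulVec r l *ᵥ r = _
      rw [Matrix.vecMulVec_mulVec, hlr]
      ext i; simp)
    have := Nb.add hr' Nb.one hQN.neg
    rw [← sub_eq_add_neg] at this
    exact this.mono hr' (by norm_num)
  have hDQ : ∀ m, D ^ m * (1 - Q) = B ^ (k * m) * (1 - Q) := by
    intro m
    have hQ1 : Q * (1 - Q) = 0 := by rw [mul_sub, mul_one, hQQ, sub_self]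
    have hcomm : (1 - Q) * B ^ k = B ^ k * (1 - Q) := by
      rw [sub_mul, mul_sub, one_mul, mul_one, hQBm, hBmQ]
    have hstep : D * (1 - Q) = (1 - Q) * B ^ k := by
      rw [hcomm]
      show (B ^ k - ε • Q) * (1 - Q) = _
      rw [sub_mul, smul_mul_assoc, hQ1, smul_zero, sub_zero]
    induction m with
    | zero => simp
    | succ m ih =>
      rw [pow_succ, Matrix.mul_assoc, hstep, ← Matrix.mul_assoc, ih, Matrix.mul_assoc, hcomm,
        ← Matrix.mul_assoc, ← pow_add]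
      rfl
  -- the rate
  let ρ : ℝ := (1 - ε) ^ ((k : ℝ)⁻¹)
  have h1ε : 0 < 1 - ε := by linarith
  have hρ0 : 0 < ρ := Real.rpow_pos_of_pos h1ε _
  have hρ1 : ρ < 1 := Real.rpow_lt_one hDr0 (by linarith) (by positivity)
  have hρk : ρ ^ k = 1 - ε := Real.rpow_inv_natCast_pow hDr0 hk0.ne'
  have hE : ∀ d, Nb r (B ^ d * (1 - Q)) (2 * (ρ ^ d / ρ ^ k)) := by
    intro d
    have hd : d = d % k + k * (d / k) := (Nat.mod_add_div d k).symm
    have e1 : B ^ d * (1 - Q) = B ^ (d % k) * (D ^ (d / k) * (1 - Q)) := by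
      rw [hDQ, ← Matrix.mul_assoc, ← pow_add, ← hd]
    rw [e1]
    have n1 : Nb r (B ^ (d % k)) 1 := by
      simpa using hBN.pow hr' zero_le_one (d % k)
    have n2 : Nb r (D ^ (d / k)) ((1 - ε) ^ (d / k)) := hD.pow hr' hDr0 _
    have n3 := n1.mul hr' (n2.mul hr' h1Q (by norm_num)) (by positivity)
    refine n3.mono hr' ?_
    have h5 : (1 - ε) ^ (d / k) ≤ ρ ^ d / ρ ^ k := by
      rw [← hρk, ← pow_mul, le_div_iff₀ (pow_pos hρ0 k), ← pow_add]
      refine pow_le_pow_of_le_one hρ0.le hρ1.le ?_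
      have := Nat.mod_lt d hk0
      omega
    linarith
  let C : ℝ := ∑ p : n × n, 2 / ρ ^ k * r p.1 / r p.2
  refine ⟨lam, r, l, C, ρ, hlam, hr, hl, hAr, hlA, hlr, ?_, hρ0, hρ1, ?_⟩
  · exact sum_nonneg fun p _ => by
      have := hr p.1; have := hr p.2; positivity
  · intro d i j
    have h1 := (hE d).entry hr i j
    have h2 : (B ^ d * (1 - Q)) i j = (B ^ d) i j - r i * l j := by
      rw [mul_sub, mul_one, hBmQ]; rfl
    have h3 : (A ^ d) i j = lam ^ d * (B ^ d) i j := by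
      show _ = lam ^ d * ((lam⁻¹ • A) ^ d) i j
      rw [smul_pow, Matrix.smul_apply, smul_eq_mul, ← mul_assoc, ← mul_pow,
        mul_inv_cancel₀ hlam.ne', one_pow, one_mul]
    rw [h3, ← mul_sub, ← h2, abs_mul, abs_of_nonneg (pow_nonneg hlam.le d), mul_pow]
    have h4 : |(B ^ d * (1 - Q)) i j| ≤ C * ρ ^ d := by
      refine h1.trans ?_
      have h5 : 2 * (ρ ^ d / ρ ^ k) * r i / r j = (2 / ρ ^ k * r i / r j) * ρ ^ d := by
        field_simp
      rw [h5]
      refine mul_le_mul_of_nonneg_right ?_ (pow_nonneg hρ0.le d)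
      exact single_le_sum (f := fun p : n × n => 2 / ρ ^ k * r p.1 / r p.2)
        (fun p _ => by have := hr p.1; have := hr p.2; positivity) (mem_univ (i, j))
    calc lam ^ d * |(B ^ d * (1 - Q)) i j| ≤ lam ^ d * (C * ρ ^ d) :=
          mul_le_mul_of_nonneg_left h4 (pow_nonneg hlam.le d)
      _ = C * (ρ ^ d * lam ^ d) := by ring

end PF

end Pool.Agent.SSE
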