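import Pool.Agent.SSE.PF3

/-!
# SSE project (`MP_c782ad_an`): division by `delta = (1 - lam X) f1` and asymptotics of `g / delta`
-/

set_option autoImplicit false
set_option linter.unusedSectionVars false

open scoped BigOperators
open PowerSeries

namespace Pool.Agent.SSE.PF

section general
variable {𝕜 : Type*} [NormedField 𝕜]
variable {r : ℝ} {f g : 𝕜⟦X⟧}

/-- if `q = a + c q` with `‖c‖ < 1` then `q` has a finite norm -/
theorem hasN_of_eq {a c q : 𝕜⟦X⟧} (hr : 0 ≤ r) (ha : HasN r a) (hc : HasN r c) (hc1 : nS r c < 1)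
    (h : q = a + c * q) : HasN r q ∧ nS r q ≤ nS r a / (1 - nS r c) := by
  set A : ℕ → ℝ := fun n => ‖coeff n a‖ * r ^ n with hA
  set B : ℕ → ℝ := fun n => ‖coeff n c‖ * r ^ n with hB
  set Q : ℕ → ℝ := fun n => ‖coeff n q‖ * r ^ n with hQ
  have hA0 : ∀ n, 0 ≤ A n := fun n => mul_nonneg (norm_nonneg _) (pow_nonneg hr n)
  have hB0 : ∀ n, 0 ≤ B n := fun n => mul_nonneg (norm_nonneg _) (pow_nonneg hr n)
  have hQ0 : ∀ n, 0 ≤ Q n := fun n => mul_nonneg (norm_nonneg _) (pow_nonneg hr n)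
  have hstep : ∀ n, Q n ≤ A n + ∑ p ∈ Finset.HasAntidiagonal.antidiagonal n, B p.1 * Q p.2 := by
    intro n
    calc Q n = ‖coeff n (a + c * q)‖ * r ^ n := by rw [← h]
      _ ≤ (‖coeff n a‖ + ‖coeff n (c * q)‖) * r ^ n := by
          rw [map_add]
          exact mul_le_mul_of_nonneg_right (norm_add_le _ _) (pow_nonneg hr n)
      _ ≤ _ := by
          rw [add_mul]
          exact add_le_add_right (coeff_mul_le hr c q n) _
  -- the partial sums
  have hS : ∀ N, ∑ n ∈ Finset.range N, Q n ≤ nS r a + nS r c * ∑ n ∈ Finset.range N, Q n := by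
    intro N
    calc ∑ n ∈ Finset.range N, Q n
        ≤ ∑ n ∈ Finset.range N, (A n + ∑ p ∈ Finset.HasAntidiagonal.antidiagonal n, B p.1 * Q p.2) :=
          Finset.sum_le_sum fun n _ => hstep n
      _ = ∑ n ∈ Finset.range N, A n + ∑ n ∈ Finset.range N, ∑ p ∈ Finset.HasAntidiagonal.antidiagonal n, B p.1 * Q p.2 :=
          Finset.sum_add_distrib
      _ ≤ nS r a + (∑ n ∈ Finset.range N, B n) * ∑ n ∈ Finset.range N, Q n := by
          refine add_le_add (ha.sum_le_tsum _ fun n _ => hA0 n) ?_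
          rw [Finset.sum_mul_sum, ← Finset.sum_product', ← Finset.sum_biUnion (fun n _ m _ hnm => by
            simp only [Function.onFun]
            rw [Finset.disjoint_left]
            intro p hp hp'
            rw [Finset.HasAntidiagonal.mem_antidiagonal] at hp hp'
            exact hnm (hp.symm.trans hp'))]
          refine Finset.sum_le_sum_of_subset_of_nonneg (fun p hp => ?_) fun p _ _ => mul_nonneg (hB0 _) (hQ0 _)
          rw [Finset.mem_biUnion] at hp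
          obtain ⟨n, hn, hp⟩ := hp
          rw [Finset.HasAntidiagonal.mem_antidiagonal] at hp
          rw [Finset.mem_range] at hn
          rw [Finset.mem_product, Finset.mem_range, Finset.mem_range]
          omega
      _ ≤ _ := by
          refine add_le_add_right (mul_le_mul_of_nonneg_right ?_ (Finset.sum_nonneg fun n _ => hQ0 n)) _
          exact hc.sum_le_tsum _ fun n _ => hB0 n
  have h1 : 0 < 1 - nS r c := by linarith
  have hbd : ∀ N, ∑ n ∈ Finset.range N, Q n ≤ nS r a / (1 - nS r c) := by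
    intro N
    rw [le_div_iff₀ h1]
    have := hS N
    linarith
  have hsum : Summable Q := summable_of_sum_range_le hQ0 hbd
  exact ⟨hsum, Real.tsum_le_of_sum_range_le hQ0 hbd⟩

/-- the inverse of `1 - c` -/
theorem hasN_inv_one_sub {c : 𝕜⟦X⟧} (hr : 0 ≤ r) (hc : HasN r c) (hc1 : nS r c < 1) (hc0 : coeff 0 c = 0) :
    ∃ q : 𝕜⟦X⟧, (1 - c) * q = 1 ∧ HasN r q ∧ nS r q ≤ 1 / (1 - nS r c) := by
  have h0 : constantCoeff (1 - c) ≠ 0 := by
    rw [map_sub, ← coeff_zero_eq_constantCoeff_apply c, hc0]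
    simp
  refine ⟨(1 - c)⁻¹, PowerSeries.mul_inv_cancel _ h0, ?_⟩
  have h : (1 - c)⁻¹ = 1 + c * (1 - c)⁻¹ := by
    have := PowerSeries.mul_inv_cancel _ h0
    linear_combination this
  have h2 := hasN_of_eq hr (hasN_one r) hc hc1 h
  rwa [nS_one] at h2

/-- the inverse of a polynomial without zeros in a closed disc, over `ℂ` -/
theorem hasN_inv_poly_complex {r : ℝ} (hr : 0 ≤ r) (p : Polynomial ℂ) (h : ∀ z : ℂ, ‖z‖ ≤ r → p.eval z ≠ 0) :
    ∃ q : ℂ⟦X⟧, (p : ℂ⟦X⟧) * q = 1 ∧ HasN r q := by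
  have hp0 : p ≠ 0 := by
    rintro rfl
    exact h 0 (by simpa using hr) (by simp)
  have hsplit := IsAlgClosed.splits p
  have hp : p = Polynomial.C p.leadingCoeff * (p.roots.map fun a => Polynomial.X - Polynomial.C a).prod :=
    hsplit.eq_prod_roots
  have hroots : ∀ a ∈ p.roots, r < ‖a‖ := by
    intro a ha
    by_contra hcon
    push Not at hcon
    exact h a hcon (Polynomial.isRoot_of_mem_roots ha)
  have hms : ∀ s : Multiset ℂ, (∀ a ∈ s, r < ‖a‖) →
      ∃ q : ℂ⟦X⟧, (((s.map fun a => Polynomial.X - Polynomial.C a).prod : Polynomial ℂ) : ℂ⟦X⟧) * q = 1 ∧ HasN r q := by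
    intro s
    induction s using Multiset.induction_on with
    | empty =>
      intro _
      exact ⟨1, by simp, hasN_one r⟩
    | cons a s ih =>
      intro hs
      obtain ⟨q, hq, hqN⟩ := ih fun b hb => hs b (Multiset.mem_cons_of_mem hb)
      have ha : r < ‖a‖ := hs a (Multiset.mem_cons_self a s)
      have ha0 : a ≠ 0 := by
        rintro rfl
        rw [norm_zero] at ha
        linarith
      set c : ℂ⟦X⟧ := ((Polynomial.C a⁻¹ * Polynomial.X : Polynomial ℂ) : ℂ⟦X⟧) with hc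
      have hcN : nS r c < 1 := by
        have e : nS r c = ‖a⁻¹‖ * r := by
          unfold nS
          rw [tsum_eq_single 1 fun n hn => by
            rw [hc, Polynomial.coeff_coe, Polynomial.coeff_C_mul_X, if_neg hn, norm_zero, zero_mul]]
          rw [hc, Polynomial.coeff_coe, Polynomial.coeff_C_mul_X, if_pos rfl, pow_one]
        rw [e, norm_inv, inv_mul_eq_div, div_lt_one (lt_of_le_of_lt hr ha)]
        exact ha
      obtain ⟨w, hw, hwN, -⟩ := hasN_inv_one_sub hr (hasN_poly r _) hcN (by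
        rw [Polynomial.coeff_coe, Polynomial.coeff_C_mul_X, if_neg (by norm_num)])
      set k : ℂ⟦X⟧ := ((Polynomial.C (-a⁻¹) : Polynomial ℂ) : ℂ⟦X⟧) with hk
      refine ⟨k * w * q, ?_, ((hasN_poly r _).mul hr hwN).mul hr hqN⟩
      have e1 : ((Polynomial.X - Polynomial.C a : Polynomial ℂ) : ℂ⟦X⟧) * k = 1 - c := by
        rw [hk, hc, ← Polynomial.coe_one, ← Polynomial.coe_mul, ← Polynomial.coe_sub]
        congr 1
        have : (Polynomial.C a : Polynomial ℂ) * Polynomial.C a⁻¹ = 1 := by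
          rw [← Polynomial.C_mul, mul_inv_cancel₀ ha0, Polynomial.C_1]
        rw [Polynomial.C_neg]
        linear_combination this
      rw [Multiset.map_cons, Multiset.prod_cons, Polynomial.coe_mul]
      linear_combination (((s.map fun a => Polynomial.X - Polynomial.C a).prod : Polynomial ℂ) : ℂ⟦X⟧) * q * w * e1 +
        (((s.map fun a => Polynomial.X - Polynomial.C a).prod : Polynomial ℂ) : ℂ⟦X⟧) * q * hw + hq
  obtain ⟨q, hq, hqN⟩ := hms p.roots hroots
  have hl : p.leadingCoeff ≠ 0 := Polynomial.leadingCoeff_ne_zero.2 hp0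
  refine ⟨((Polynomial.C p.leadingCoeff⁻¹ : Polynomial ℂ) : ℂ⟦X⟧) * q, ?_, (hasN_poly r _).mul hr hqN⟩
  have e2 : ((Polynomial.C p.leadingCoeff : Polynomial ℂ) : ℂ⟦X⟧) * ((Polynomial.C p.leadingCoeff⁻¹ : Polynomial ℂ) : ℂ⟦X⟧) = 1 := by
    rw [← Polynomial.coe_mul, ← Polynomial.C_mul, mul_inv_cancel₀ hl, Polynomial.C_1, Polynomial.coe_one]
  have e3 : (p : ℂ⟦X⟧) = ((Polynomial.C p.leadingCoeff : Polynomial ℂ) : ℂ⟦X⟧) *
      (((p.roots.map fun a => Polynomial.X - Polynomial.C a).prod : Polynomial ℂ) : ℂ⟦X⟧) := by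
    conv_lhs => rw [hp]
    rw [Polynomial.coe_mul]
  rw [e3]
  linear_combination e2 + ((Polynomial.C p.leadingCoeff : Polynomial ℂ) : ℂ⟦X⟧) *
    ((Polynomial.C p.leadingCoeff⁻¹ : Polynomial ℂ) : ℂ⟦X⟧) * hq

/-- the inverse of a real polynomial without complex zeros in a closed disc -/
theorem hasN_inv_poly {r : ℝ} (hr : 0 ≤ r) (p : Polynomial ℝ) (h : ∀ z : ℂ, ‖z‖ ≤ r → Polynomial.aeval z p ≠ 0) :
    ∃ q : ℝ⟦X⟧, (p : ℝ⟦X⟧) * q = 1 ∧ HasN r q := by
  obtain ⟨qc, hqc, hqcN⟩ := hasN_inv_poly_complex hr (p.map (algebraMap ℝ ℂ)) (fun z hz => by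
    rw [Polynomial.eval_map_algebraMap]
    exact h z hz)
  have h0 : p.coeff 0 ≠ 0 := by
    have := h 0 (by simpa using hr)
    intro hcon
    apply this
    rw [Polynomial.aeval_def, Polynomial.eval₂_at_zero, hcon, map_zero]
  have h1 : constantCoeff (p : ℝ⟦X⟧) ≠ 0 := by
    rw [← coeff_zero_eq_constantCoeff_apply, Polynomial.coeff_coe]
    exact h0
  refine ⟨(p : ℝ⟦X⟧)⁻¹, PowerSeries.mul_inv_cancel _ h1, ?_⟩
  have h2 : PowerSeries.map (algebraMap ℝ ℂ) ((p : ℝ⟦X⟧)⁻¹) = qc := by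
    have e1 : ((p.map (algebraMap ℝ ℂ) : Polynomial ℂ) : ℂ⟦X⟧) * PowerSeries.map (algebraMap ℝ ℂ) ((p : ℝ⟦X⟧)⁻¹) = 1 := by
      rw [Polynomial.polynomial_map_coe, ← map_mul, PowerSeries.mul_inv_cancel _ h1, map_one]
    calc PowerSeries.map (algebraMap ℝ ℂ) ((p : ℝ⟦X⟧)⁻¹)
        = (((p.map (algebraMap ℝ ℂ) : Polynomial ℂ) : ℂ⟦X⟧) * qc) * PowerSeries.map (algebraMap ℝ ℂ) ((p : ℝ⟦X⟧)⁻¹) := by rw [hqc, one_mul]
      _ = qc * (((p.map (algebraMap ℝ ℂ) : Polynomial ℂ) : ℂ⟦X⟧) * PowerSeries.map (algebraMap ℝ ℂ) ((p : ℝ⟦X⟧)⁻¹)) := by ring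
      _ = qc := by rw [e1, mul_one]
  refine hqcN.of_le hr fun n => ?_
  rw [← h2, PowerSeries.coeff_map]
  simp

end general

/-! ## asymptotics and division -/

section asy
variable {r lam : ℝ}

/-- the constant of the asymptotics -/
theorem asy_aux (hlam : 0 < lam) (hr : 1 < lam * r) {G V : ℝ⟦X⟧} (hG : HasN r G)
    (hV : (1 - ((Polynomial.C lam * Polynomial.X : Polynomial ℝ) : ℝ⟦X⟧)) * V = G) (n : ℕ) :
    |coeff n V - ev lam⁻¹ G * lam ^ n| * r ^ n ≤ nS r G ∧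
    coeff n V - ev lam⁻¹ G * lam ^ n = - ∑' m, coeff (m + (n + 1)) G * lam⁻¹ ^ (m + 1) := by
  have hr0 : 0 < r := by
    by_contra hcon
    push Not at hcon
    have := mul_nonpos_of_nonneg_of_nonpos hlam.le hcon
    linarith
  -- the recurrence
  have h0 : coeff 0 V = coeff 0 G := by
    rw [← hV, sub_mul, one_mul, map_sub, Polynomial.coe_mul, Polynomial.coe_C, Polynomial.coe_X, mul_assoc,
      coeff_C_mul, coeff_zero_X_mul, mul_zero, sub_zero]
  have hsucc : ∀ n, coeff (n + 1) V = coeff (n + 1) G + lam * coeff n V := by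
    intro n
    have := congrArg (coeff (n + 1)) hV
    rw [sub_mul, one_mul, map_sub, Polynomial.coe_mul, Polynomial.coe_C, Polynomial.coe_X, mul_assoc,
      coeff_C_mul, coeff_succ_X_mul] at this
    linarith
  have hsum : ∀ n, coeff n V = lam ^ n * ∑ m ∈ Finset.range (n + 1), coeff m G * lam⁻¹ ^ m := by
    intro n
    induction n with
    | zero => simpa using h0
    | succ n ih =>
      rw [hsucc, ih, Finset.sum_range_succ _ (n + 1), mul_add, pow_succ lam]
      have : lam ^ n * lam * (coeff (n + 1) G * lam⁻¹ ^ (n + 1)) = coeff (n + 1) G := by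
        rw [← pow_succ, inv_pow]
        field_simp
      rw [this]
      ring
  have hx : ‖lam⁻¹‖ ≤ r := by
    rw [norm_inv, Real.norm_of_nonneg hlam.le, inv_le_iff_one_le_mul₀ hlam]
    linarith
  have hse : Summable fun m => coeff m G * lam⁻¹ ^ m := (hG.summable_ev hx).of_norm
  have hsplit := hse.sum_add_tsum_nat_add (n + 1)
  have e1 : coeff n V - ev lam⁻¹ G * lam ^ n = - (lam ^ n * ∑' m, coeff (m + (n + 1)) G * lam⁻¹ ^ (m + (n + 1))) := by
    rw [hsum, ev, ← hsplit]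
    ring
  have e2 : lam ^ n * ∑' m, coeff (m + (n + 1)) G * lam⁻¹ ^ (m + (n + 1)) = ∑' m, coeff (m + (n + 1)) G * lam⁻¹ ^ (m + 1) := by
    rw [← tsum_mul_left]
    refine tsum_congr fun m => ?_
    have : lam ^ n * lam⁻¹ ^ (m + (n + 1)) = lam⁻¹ ^ (m + 1) := by
      rw [show m + (n + 1) = n + (m + 1) by ring, pow_add, ← mul_assoc, ← mul_pow, mul_inv_cancel₀ hlam.ne',
        one_pow, one_mul]
    rw [mul_left_comm, this]
  refine ⟨?_, by rw [e1, e2]⟩
  rw [e1, e2, abs_neg]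
  have hs2 : Summable fun m => ‖coeff (m + (n + 1)) G‖ * r ^ (m + (n + 1)) := (summable_nat_add_iff (n + 1)).2 hG
  have hterm : ∀ m, ‖coeff (m + (n + 1)) G * lam⁻¹ ^ (m + 1)‖ * r ^ n ≤ ‖coeff (m + (n + 1)) G‖ * r ^ (m + (n + 1)) := by
    intro m
    rw [norm_mul, norm_pow, mul_assoc]
    refine mul_le_mul_of_nonneg_left ?_ (norm_nonneg _)
    rw [show m + (n + 1) = (m + 1) + n by ring, pow_add r (m + 1) n]
    exact mul_le_mul_of_nonneg_right (pow_le_pow_left₀ (norm_nonneg _) hx _) (pow_nonneg hr0.le _)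
  have hs3 : Summable fun m => ‖coeff (m + (n + 1)) G * lam⁻¹ ^ (m + 1)‖ := by
    have h1 : Summable fun m => ‖coeff (m + (n + 1)) G * lam⁻¹ ^ (m + 1)‖ * r ^ n :=
      Summable.of_nonneg_of_le (fun m => mul_nonneg (norm_nonneg _) (pow_nonneg hr0.le n)) hterm hs2
    have h2 := h1.mul_right ((r ^ n)⁻¹)
    refine (summable_congr fun m => ?_).1 h2
    rw [mul_assoc, mul_inv_cancel₀ (pow_pos hr0 n).ne', mul_one]
  calc |∑' m, coeff (m + (n + 1)) G * lam⁻¹ ^ (m + 1)| * r ^ n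
      ≤ (∑' m, ‖coeff (m + (n + 1)) G * lam⁻¹ ^ (m + 1)‖) * r ^ n :=
        mul_le_mul_of_nonneg_right (norm_tsum_le_tsum_norm hs3) (pow_nonneg hr0.le n)
    _ = ∑' m, ‖coeff (m + (n + 1)) G * lam⁻¹ ^ (m + 1)‖ * r ^ n := tsum_mul_right.symm
    _ ≤ ∑' m, ‖coeff (m + (n + 1)) G‖ * r ^ (m + (n + 1)) := by
        refine Summable.tsum_le_tsum hterm (hs3.mul_right _) hs2
    _ ≤ nS r G := by
        rw [nS, ← hG.sum_add_tsum_nat_add (n + 1)]
        exact le_add_of_nonneg_left (Finset.sum_nonneg fun i _ => mul_nonneg (norm_nonneg _) (pow_nonneg hr0.le i))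

/-- division by `1 - lam X` of a series vanishing at `1 / lam` -/
theorem div_aux (hlam : 0 < lam) (hr : 1 < lam * r) {G V : ℝ⟦X⟧} (hG : HasN r G) (hG0 : ev lam⁻¹ G = 0)
    (hV : (1 - ((Polynomial.C lam * Polynomial.X : Polynomial ℝ) : ℝ⟦X⟧)) * V = G) :
    HasN r V ∧ nS r V ≤ 2 / (lam * r - 1) * nS r G := by
  have hr0 : 0 < r := by
    by_contra hcon
    push Not at hcon
    have := mul_nonpos_of_nonneg_of_nonpos hlam.le hcon
    linarith
  have hb : ∀ n, ‖coeff n V‖ * r ^ n ≤ nS r G := by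
    intro n
    have := (asy_aux hlam hr hG hV n).1
    rwa [hG0, zero_mul, sub_zero] at this
  have hsucc : ∀ n, coeff (n + 1) V = coeff (n + 1) G + lam * coeff n V := by
    intro n
    have := congrArg (coeff (n + 1)) hV
    rw [sub_mul, one_mul, map_sub, Polynomial.coe_mul, Polynomial.coe_C, Polynomial.coe_X, mul_assoc,
      coeff_C_mul, coeff_succ_X_mul] at this
    linarith
  have hstep : ∀ n, (lam * r) * (‖coeff n V‖ * r ^ n) ≤ ‖coeff (n + 1) V‖ * r ^ (n + 1) + ‖coeff (n + 1) G‖ * r ^ (n + 1) := by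
    intro n
    have h1 : lam * coeff n V = coeff (n + 1) V - coeff (n + 1) G := by rw [hsucc]; ring
    have h2 : lam * ‖coeff n V‖ ≤ ‖coeff (n + 1) V‖ + ‖coeff (n + 1) G‖ := by
      rw [← Real.norm_of_nonneg hlam.le, ← norm_mul, h1]
      exact norm_sub_le _ _
    have h3 := mul_le_mul_of_nonneg_right h2 (pow_nonneg hr0.le (n + 1))
    rw [pow_succ] at h3 ⊢
    nlinarith [h3]
  have hS : ∀ N, ∑ n ∈ Finset.range N, ‖coeff n V‖ * r ^ n ≤ 2 / (lam * r - 1) * nS r G := by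
    intro N
    have h1 : (lam * r) * ∑ n ∈ Finset.range N, ‖coeff n V‖ * r ^ n ≤
        ∑ n ∈ Finset.range N, ‖coeff (n + 1) V‖ * r ^ (n + 1) + ∑ n ∈ Finset.range N, ‖coeff (n + 1) G‖ * r ^ (n + 1) := by
      rw [Finset.mul_sum, ← Finset.sum_add_distrib]
      exact Finset.sum_le_sum fun n _ => hstep n
    have h2 : ∑ n ∈ Finset.range N, ‖coeff (n + 1) V‖ * r ^ (n + 1) ≤
        ∑ n ∈ Finset.range N, ‖coeff n V‖ * r ^ n + nS r G := by
      have e := Finset.sum_range_succ' (fun n => ‖coeff n V‖ * r ^ n) N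
      have e' := Finset.sum_range_succ (fun n => ‖coeff n V‖ * r ^ n) N
      have := hb N
      have h0 : 0 ≤ ‖coeff 0 V‖ * r ^ 0 := mul_nonneg (norm_nonneg _) (pow_nonneg hr0.le 0)
      linarith
    have h3 : ∑ n ∈ Finset.range N, ‖coeff (n + 1) G‖ * r ^ (n + 1) ≤ nS r G := by
      have e := Finset.sum_range_succ' (fun n => ‖coeff n G‖ * r ^ n) N
      have h0 : 0 ≤ ‖coeff 0 G‖ * r ^ 0 := mul_nonneg (norm_nonneg _) (pow_nonneg hr0.le 0)
      have h4 : ∑ n ∈ Finset.range (N + 1), ‖coeff n G‖ * r ^ n ≤ nS r G :=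
        hG.sum_le_tsum _ fun n _ => mul_nonneg (norm_nonneg _) (pow_nonneg hr0.le n)
      linarith
    have h4 : 0 < lam * r - 1 := by linarith
    rw [div_mul_eq_mul_div, le_div_iff₀ h4]
    linarith
  have hQ0 : ∀ n, 0 ≤ ‖coeff n V‖ * r ^ n := fun n => mul_nonneg (norm_nonneg _) (pow_nonneg hr0.le n)
  exact ⟨summable_of_sum_range_le hQ0 hS, Real.tsum_le_of_sum_range_le hQ0 hS⟩

/-- **Asymptotics** of `V = g / delta`, `delta = (1 - lam X) f1`. -/
theorem asymptotics (hlam : 0 < lam) (hr : 1 < lam * r) {delta f1 : Polynomial ℝ}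
    (hd : delta = (1 - Polynomial.C lam * Polynomial.X) * f1)
    (hf1 : ∀ z : ℂ, ‖z‖ ≤ r → Polynomial.aeval z f1 ≠ 0) :
    ∃ K : ℝ, 0 < K ∧ f1.eval lam⁻¹ ≠ 0 ∧ ∀ g V : ℝ⟦X⟧, HasN r g → (delta : ℝ⟦X⟧) * V = g →
      (∀ n, |coeff n V - ev lam⁻¹ g / f1.eval lam⁻¹ * lam ^ n| * r ^ n ≤ K * nS r g) ∧
      (ev lam⁻¹ g = 0 → HasN r V ∧ nS r V ≤ K * nS r g) := by
  have hr0 : 0 < r := by
    by_contra hcon
    push Not at hcon
    have := mul_nonpos_of_nonneg_of_nonpos hlam.le hcon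
    linarith
  obtain ⟨q, hq, hqN⟩ := hasN_inv_poly hr0.le f1 hf1
  have hx : ‖lam⁻¹‖ ≤ r := by
    rw [norm_inv, Real.norm_of_nonneg hlam.le, inv_le_iff_one_le_mul₀ hlam]
    linarith
  have hne : f1.eval lam⁻¹ ≠ 0 := by
    intro h0
    apply hf1 ((lam⁻¹ : ℝ) : ℂ) (by rwa [Complex.norm_real])
    have : Polynomial.aeval ((lam⁻¹ : ℝ) : ℂ) f1 = ((f1.eval lam⁻¹ : ℝ) : ℂ) := by
      rw [Polynomial.aeval_def]
      exact Polynomial.eval₂_at_apply (algebraMap ℝ ℂ) lam⁻¹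
    rw [this, h0, Complex.ofReal_zero]
  have hevq : ev lam⁻¹ q = (f1.eval lam⁻¹)⁻¹ := by
    have h1 := ev_mul (x := lam⁻¹) (hasN_poly r f1) hqN hx
    rw [hq, ev_one, ev_poly] at h1
    exact eq_inv_of_mul_eq_one_right h1.symm
  have h4 : 0 < lam * r - 1 := by linarith
  set K : ℝ := (1 + 2 / (lam * r - 1)) * (nS r q + 1) with hK
  have h5 : 0 < 2 / (lam * r - 1) := div_pos (by norm_num) h4
  have hq0 := nS_nonneg hr0.le q
  refine ⟨K, mul_pos (by linarith) (by linarith), hne, fun g V hg hV => ?_⟩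
  have hG : HasN r (q * g) := hqN.mul hr0.le hg
  have hGle : nS r (q * g) ≤ (nS r q + 1) * nS r g :=
    (nS_mul_le hr0.le hqN hg).trans (mul_le_mul_of_nonneg_right (by linarith) (nS_nonneg hr0.le g))
  have hVG : (1 - ((Polynomial.C lam * Polynomial.X : Polynomial ℝ) : ℝ⟦X⟧)) * V = q * g := by
    have e1 : (delta : ℝ⟦X⟧) = (1 - ((Polynomial.C lam * Polynomial.X : Polynomial ℝ) : ℝ⟦X⟧)) * (f1 : ℝ⟦X⟧) := by
      rw [hd, Polynomial.coe_mul, Polynomial.coe_sub, Polynomial.coe_one]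
    rw [← hV, e1]
    linear_combination (-(1 - ((Polynomial.C lam * Polynomial.X : Polynomial ℝ) : ℝ⟦X⟧)) * V) * hq
  have hev : ev lam⁻¹ (q * g) = ev lam⁻¹ g / f1.eval lam⁻¹ := by
    rw [ev_mul hqN hg hx, hevq, div_eq_mul_inv, mul_comm]
  have hg0 := nS_nonneg hr0.le g
  have hprod : 0 ≤ (nS r q + 1) * nS r g := mul_nonneg (by linarith) hg0
  refine ⟨fun n => ?_, fun h0 => ?_⟩
  · have h1 := (asy_aux hlam hr hG hVG n).1
    rw [hev] at h1
    refine h1.trans (hGle.trans ?_)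
    rw [hK, mul_assoc]
    nlinarith
  · have h1 := div_aux hlam hr hG (by rw [hev, h0, zero_div]) hVG
    refine ⟨h1.1, h1.2.trans ?_⟩
    rw [hK, mul_assoc]
    have h6 := mul_le_mul_of_nonneg_left hGle h5.le
    nlinarith

end asy

end Pool.Agent.SSE.PF
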