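import Pool.Agent.SSE.PF5

/-!
# SSE project (`MP_c782ad_an`), hub part, Section 5: numbers (power series with nonnegative integer
coefficients)

`Nn f`: nonnegative coefficients.  `geo s = 1/(1-s)`, `dv h s = (h-s)/(1-s)`.
`toRS : ℤ⟦X⟧ → ℝ⟦X⟧`; norms `nS r (toRS f)`.
-/

set_option autoImplicit false
set_option linter.unusedSectionVars false

open scoped BigOperators
open PowerSeries

namespace Pool.Agent.SSE.HN

open Pool.Agent.SSE.PF

/-- nonnegative coefficients -/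
def Nn (f : ℤ⟦X⟧) : Prop := ∀ d, 0 ≤ coeff d f

lemma Nn.add {f g : ℤ⟦X⟧} (hf : Nn f) (hg : Nn g) : Nn (f + g) := fun d => by
  rw [map_add]; exact add_nonneg (hf d) (hg d)

lemma Nn.mul {f g : ℤ⟦X⟧} (hf : Nn f) (hg : Nn g) : Nn (f * g) := fun d => by
  rw [coeff_mul]; exact Finset.sum_nonneg fun p _ => mul_nonneg (hf _) (hg _)

lemma nn_zero : Nn 0 := fun d => by simp

lemma nn_one : Nn 1 := fun d => by rw [coeff_one]; split_ifs <;> norm_num

lemma Nn.pow {f : ℤ⟦X⟧} (hf : Nn f) (k : ℕ) : Nn (f ^ k) := by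
  induction k with
  | zero => rw [pow_zero]; exact nn_one
  | succ k ih => rw [pow_succ]; exact ih.mul hf

lemma nn_X_pow (p : ℕ) : Nn (X ^ p : ℤ⟦X⟧) := fun d => by
  rw [coeff_X_pow]; split_ifs <;> norm_num

lemma nn_sum {α : Type*} (s : Finset α) (F : α → ℤ⟦X⟧) (h : ∀ a ∈ s, Nn (F a)) : Nn (∑ a ∈ s, F a) := fun d => by
  rw [map_sum]; exact Finset.sum_nonneg fun a ha => h a ha d

lemma nn_prod {α : Type*} (s : Finset α) (F : α → ℤ⟦X⟧) (h : ∀ a ∈ s, Nn (F a)) : Nn (∏ a ∈ s, F a) := by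
  classical
  induction s using Finset.induction_on with
  | empty => simpa using nn_one
  | insert a s ha ih =>
    rw [Finset.prod_insert ha]
    exact (h a (Finset.mem_insert_self a s)).mul (ih fun b hb => h b (Finset.mem_insert_of_mem hb))

/-- `1/(1-s)` -/
noncomputable def geo (s : ℤ⟦X⟧) : ℤ⟦X⟧ := invOfUnit (1 - s) 1

lemma one_sub_mul_geo {s : ℤ⟦X⟧} (h0 : coeff 0 s = 0) : (1 - s) * geo s = 1 := by
  refine mul_invOfUnit _ _ ?_
  rw [map_sub, ← coeff_zero_eq_constantCoeff_apply s, h0]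
  simp

lemma geo_mul_one_sub {s : ℤ⟦X⟧} (h0 : coeff 0 s = 0) : geo s * (1 - s) = 1 := by
  rw [mul_comm]; exact one_sub_mul_geo h0

lemma geo_eq {s : ℤ⟦X⟧} (h0 : coeff 0 s = 0) : geo s = 1 + s * geo s := by
  linear_combination one_sub_mul_geo h0

/-- uniqueness in `ℤ⟦X⟧`: `1 - s` can be cancelled -/
lemma cancel {s f g : ℤ⟦X⟧} (h0 : coeff 0 s = 0) (h : (1 - s) * f = (1 - s) * g) : f = g := by
  have h1 : geo s * ((1 - s) * f) = geo s * ((1 - s) * g) := by rw [h]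
  rwa [← mul_assoc, ← mul_assoc, geo_mul_one_sub h0, one_mul, one_mul] at h1

lemma coeff_mul_succ {s g : ℤ⟦X⟧} (h0 : coeff 0 s = 0) (d : ℕ) :
    coeff d (s * g) = ∑ k ∈ Finset.range d, coeff (k + 1) s * coeff (d - 1 - k) g := by
  rw [coeff_mul, Finset.Nat.sum_antidiagonal_eq_sum_range_succ (fun i j => coeff i s * coeff j g)]
  rw [Finset.sum_range_succ']
  rw [h0, zero_mul, add_zero]
  refine Finset.sum_congr rfl fun k hk => ?_
  rw [show d - (k + 1) = d - 1 - k by omega]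

lemma nn_of_fix {s g a : ℤ⟦X⟧} (h0 : coeff 0 s = 0) (hs : Nn s) (ha : Nn a) (h : g = a + s * g) : Nn g := by
  intro d
  induction d using Nat.strong_induction_on with
  | _ d ih =>
    rw [h, map_add, coeff_mul_succ h0]
    refine add_nonneg (ha d) (Finset.sum_nonneg fun k hk => mul_nonneg (hs _) (ih _ ?_))
    rw [Finset.mem_range] at hk
    omega

lemma nn_geo {s : ℤ⟦X⟧} (h0 : coeff 0 s = 0) (hs : Nn s) : Nn (geo s) :=
  nn_of_fix h0 hs nn_one (geo_eq h0)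

lemma coeff_zero_geo {s : ℤ⟦X⟧} (h0 : coeff 0 s = 0) : coeff 0 (geo s) = 1 := by
  rw [geo_eq h0, map_add, coeff_mul_succ h0]
  simp

/-- `(h-s)/(1-s)` -/
noncomputable def dv (h s : ℤ⟦X⟧) : ℤ⟦X⟧ := (h - s) * geo s

lemma dv_eq {h s : ℤ⟦X⟧} (h0 : coeff 0 s = 0) : dv h s = (h - s) + s * dv h s := by
  unfold dv
  linear_combination (h - s) * geo_eq h0

lemma one_sub_dv {h s : ℤ⟦X⟧} (h0 : coeff 0 s = 0) : 1 - dv h s = (1 - h) * geo s := by
  unfold dv
  linear_combination - one_sub_mul_geo h0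

lemma one_sub_dv_mul {h s : ℤ⟦X⟧} (h0 : coeff 0 s = 0) : (1 - dv h s) * (1 - s) = 1 - h := by
  rw [one_sub_dv h0, mul_assoc, geo_mul_one_sub h0, mul_one]

lemma nn_dv {h s : ℤ⟦X⟧} (h0 : coeff 0 s = 0) (hs : Nn s) (hh : Nn (h - s)) : Nn (dv h s) :=
  hh.mul (nn_geo h0 hs)

/-- `h/s ≥ h - s` -/
lemma dv_ge {h s : ℤ⟦X⟧} (h0 : coeff 0 s = 0) (hs : Nn s) (hh : Nn (h - s)) : Nn (dv h s - (h - s)) := by
  have h1 : dv h s - (h - s) = s * dv h s := by linear_combination dv_eq (h := h) h0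
  rw [h1]
  exact hs.mul (nn_dv h0 hs hh)

lemma coeff_zero_dv {h s : ℤ⟦X⟧} (h0 : coeff 0 s = 0) (hh : coeff 0 h = 0) : coeff 0 (dv h s) = 0 := by
  rw [dv_eq h0, map_add, coeff_mul_succ h0, map_sub, h0, hh]
  simp

/-- coefficients of `h/s` up to the order of `s` -/
lemma coeff_dv_of_lt {h s : ℤ⟦X⟧} (h0 : coeff 0 h = 0) {p : ℕ} (hp : 1 ≤ p) (hs : ∀ d < p, coeff d s = 0) :
    (∀ d < p, coeff d (dv h s) = coeff d h) ∧ coeff p (dv h s) = coeff p h - coeff p s := by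
  have hs0 : coeff 0 s = 0 := hs 0 (by omega)
  have hd0 := coeff_zero_dv (h := h) hs0 h0
  have key : ∀ d ≤ p, coeff d (dv h s) = coeff d h - coeff d s := by
    intro d hd
    rw [dv_eq hs0, map_add, map_sub, coeff_mul_succ hs0]
    rw [Finset.sum_eq_zero, add_zero]
    intro k hk
    rw [Finset.mem_range] at hk
    rcases lt_or_ge (k + 1) p with h1 | h1
    · rw [hs _ h1, zero_mul]
    · have : d - 1 - k = 0 := by omega
      rw [this, hd0, mul_zero]
  exact ⟨fun d hd => by rw [key d hd.le, hs d hd, sub_zero], key p le_rfl⟩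

/-- comparison: division is monotone modulo `t^D` (only lower coefficients are used) -/
lemma coeff_dv_congr {h h' s : ℤ⟦X⟧} (h0 : coeff 0 s = 0) {D : ℕ} (hh : ∀ d < D, coeff d h = coeff d h') :
    ∀ d < D, coeff d (dv h s) = coeff d (dv h' s) := by
  intro d hd
  induction d using Nat.strong_induction_on with
  | _ d ih =>
    rw [dv_eq h0 (h := h), dv_eq h0 (h := h'), map_add, map_add, map_sub, map_sub, hh d hd, coeff_mul_succ h0,
      coeff_mul_succ h0]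
    congr 1
    refine Finset.sum_congr rfl fun k hk => ?_
    rw [Finset.mem_range] at hk
    rw [ih (d - 1 - k) (by omega) (by omega)]

/-! ### norms -/

/-- `ℤ⟦X⟧ → ℝ⟦X⟧` -/
noncomputable def toRS : ℤ⟦X⟧ →+* ℝ⟦X⟧ := PowerSeries.map (Int.castRingHom ℝ)

@[simp] lemma coeff_toRS (f : ℤ⟦X⟧) (d : ℕ) : coeff d (toRS f) = ((coeff d f : ℤ) : ℝ) := by
  unfold toRS
  rw [coeff_map]
  rfl

section norms
variable {r : ℝ} {f g h s : ℤ⟦X⟧}

lemma norm_coeff (hf : Nn f) (d : ℕ) : ‖coeff d (toRS f)‖ = ((coeff d f : ℤ) : ℝ) := by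
  rw [coeff_toRS, Real.norm_of_nonneg]
  exact_mod_cast hf d

lemma nS_eq_ev (_hr : 0 ≤ r) (hf : Nn f) : nS r (toRS f) = ev r (toRS f) := by
  unfold nS ev
  refine tsum_congr fun d => ?_
  rw [norm_coeff hf, coeff_toRS]

lemma nS_add_of_nn (hr : 0 ≤ r) (hf : Nn f) (hg : Nn g) (hfN : HasN r (toRS f)) (hgN : HasN r (toRS g)) :
    nS r (toRS (f + g)) = nS r (toRS f) + nS r (toRS g) := by
  rw [nS_eq_ev hr (hf.add hg), nS_eq_ev hr hf, nS_eq_ev hr hg, map_add]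
  exact ev_add hfN hgN (by rw [Real.norm_of_nonneg hr])

lemma nS_mul_of_nn (hr : 0 ≤ r) (hf : Nn f) (hg : Nn g) (hfN : HasN r (toRS f)) (hgN : HasN r (toRS g)) :
    nS r (toRS (f * g)) = nS r (toRS f) * nS r (toRS g) := by
  rw [nS_eq_ev hr (hf.mul hg), nS_eq_ev hr hf, nS_eq_ev hr hg, map_mul]
  exact ev_mul hfN hgN (by rw [Real.norm_of_nonneg hr])

/-- smaller series have smaller norm -/
lemma hasN_of_le' (hr : 0 ≤ r) (hf : Nn f) (hfg : Nn (g - f)) (hgN : HasN r (toRS g)) :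
    HasN r (toRS f) ∧ nS r (toRS f) ≤ nS r (toRS g) := by
  have hg : Nn g := by
    have := hfg.add hf
    rwa [sub_add_cancel] at this
  have hle : ∀ n, ‖coeff n (toRS f)‖ ≤ ‖coeff n (toRS g)‖ := by
    intro n
    rw [norm_coeff hf, norm_coeff hg]
    have := hfg n
    rw [map_sub] at this
    exact_mod_cast (by linarith : coeff n f ≤ coeff n g)
  exact ⟨HasN.of_le hr hgN hle, nS_le_of_le hr hgN hle⟩

lemma hasN_geo (hr : 0 ≤ r) (h0 : coeff 0 s = 0) (hsN : HasN r (toRS s)) (hs1 : nS r (toRS s) < 1) :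
    HasN r (toRS (geo s)) := by
  obtain ⟨q, hq, hqN, -⟩ := hasN_inv_one_sub hr hsN hs1 (by rw [coeff_toRS, h0, Int.cast_zero])
  have h1 : toRS (geo s) = q := by
    have h2 : toRS (geo s) * (1 - toRS s) = 1 := by
      rw [← map_one toRS, ← map_sub, ← map_mul, geo_mul_one_sub h0, map_one]
    calc toRS (geo s) = toRS (geo s) * ((1 - toRS s) * q) := by rw [hq, mul_one]
      _ = q := by rw [← mul_assoc, h2, one_mul]
  rw [h1]
  exact hqN

lemma hasN_dv (hr : 0 ≤ r) (h0 : coeff 0 s = 0) (hsN : HasN r (toRS s)) (hs1 : nS r (toRS s) < 1)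
    (hhN : HasN r (toRS h)) : HasN r (toRS (dv h s)) := by
  unfold dv
  rw [map_mul, map_sub]
  exact (hhN.sub hr hsN).mul hr (hasN_geo hr h0 hsN hs1)

/-- `(1 - ‖h/s‖)(1 - ‖s‖) = 1 - ‖h‖` -/
lemma nS_dv (hr : 0 ≤ r) (h0 : coeff 0 s = 0) (hs : Nn s) (hsN : HasN r (toRS s)) (hs1 : nS r (toRS s) < 1)
    (hh : Nn (h - s)) (hhN : HasN r (toRS h)) :
    (1 - nS r (toRS (dv h s))) * (1 - nS r (toRS s)) = 1 - nS r (toRS h) := by
  have hdN := hasN_dv hr h0 hsN hs1 hhN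
  have hdn := nn_dv h0 hs hh
  have hhn : Nn h := by
    have := hh.add hs
    rwa [sub_add_cancel] at this
  rw [nS_eq_ev hr hdn, nS_eq_ev hr hs, nS_eq_ev hr hhn]
  have hnr : ‖r‖ ≤ r := by rw [Real.norm_of_nonneg hr]
  have h1 : toRS (dv h s) + toRS s = toRS h + toRS (dv h s) * toRS s := by
    rw [← map_add, ← map_mul, ← map_add]
    congr 1
    linear_combination - one_sub_dv_mul (h := h) h0
  have h2 : ev r (toRS (dv h s)) + ev r (toRS s) = ev r (toRS h) + ev r (toRS (dv h s)) * ev r (toRS s) := by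
    rw [← ev_add hdN hsN hnr, h1, ev_add hhN (hdN.mul hr hsN) hnr, ev_mul hdN hsN hnr]
  linear_combination - h2

end norms

end Pool.Agent.SSE.HN
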