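import Pool.Agent.SSE.Reach0

/-!
# The limit calculus

`Reach S0 g x r L`: for every `T` there is a presentation, equivalent to `S0` under the moves of
`PX`, with the classes `g` and the marked generator `x`, which agrees with the matrix `L` of power
series below degree `T`; the values at `r` are bounded, and the relation matrices are
`V * M0`, `V` in the group generated by the `x_ij(X c)`.
-/

set_option autoImplicit false

open scoped BigOperators
open Matrix Polynomial

namespace Pool.Agent.SSE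

open Pool.Agent.helper52.SSE

attribute [local instance] Classical.propDecidable

variable {K : Type} [AddCommGroup K] [Module ℤ[X] K] {δ : ℤ[X]} {q : ℕ[X]}

/-- `L` is a limit of presentations which are reached from `S0` -/
def Reach (S0 : PX K δ q) {I : Type} [Fintype I] (g : I → K) (x : I) (r : ℝ)
    (L : Matrix I I (PowerSeries ℕ)) : Prop :=
  ∃ (B : ℝ) (M0 : Matrix I I ℤ[X]), ∀ T : ℕ, ∃ (P : Matrix I I ℕ[X]) (h : PresOf δ g P)
    (hq : ∀ n, q.coeff n ≤ (P x x).coeff n) (hx : ∀ j, (P x j).coeff 1 = 0),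
    PX.Rel S0 ⟨I, inferInstance, g, P, x, h, hq, hx⟩ ∧
    (∃ V ∈ EX I, IP P = (V : Matrix I I ℤ[X]) * M0) ∧
    (∀ i j, Ag T (P i j) (L i j)) ∧ (∀ i j, nv r (P i j) ≤ B)

section
variable {S0 : PX K δ q} {I : Type} [Fintype I] {g : I → K} {x : I} {r : ℝ}
  {L L' : Matrix I I (PowerSeries ℕ)}

/-- a presentation reaches itself -/
theorem Reach.of {P : Matrix I I ℕ[X]} (h : PresOf δ g P) (hq : ∀ n, q.coeff n ≤ (P x x).coeff n)
    (hx : ∀ j, (P x j).coeff 1 = 0) (r : ℝ)
    (hS : PX.Rel S0 ⟨I, inferInstance, g, P, x, h, hq, hx⟩) :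
    Reach S0 g x r (fun i j => (P i j : PowerSeries ℕ)) := by
  refine ⟨∑ i, ∑ j, |nv r (P i j)|, IP P, fun T => ⟨P, h, hq, hx, hS, ⟨1, Subgroup.one_mem _, ?_⟩,
    fun i j => ag_coe T _, fun i j => ?_⟩⟩
  · rw [Matrix.SpecialLinearGroup.coe_one, Matrix.one_mul]
  · calc nv r (P i j) ≤ |nv r (P i j)| := le_abs_self _
      _ ≤ ∑ j, |nv r (P i j)| :=
        Finset.single_le_sum (f := fun j => |nv r (P i j)|) (fun j _ => abs_nonneg _)
          (Finset.mem_univ j)
      _ ≤ ∑ i, ∑ j, |nv r (P i j)| :=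
        Finset.single_le_sum (f := fun i => ∑ j, |nv r (P i j)|)
          (fun i _ => Finset.sum_nonneg fun j _ => abs_nonneg _) (Finset.mem_univ i)

/-- larger starting object -/
theorem Reach.of_rel {S1 : PX K δ q} (h : Reach S1 g x r L) (hS : PX.Rel S0 S1) :
    Reach S0 g x r L := by
  obtain ⟨B, M0, h⟩ := h
  refine ⟨B, M0, fun T => ?_⟩
  obtain ⟨P, hP, hq, hx, h1, h2⟩ := h T
  exact ⟨P, hP, hq, hx, hS.trans h1, h2⟩

/-- a smaller radius -/
theorem Reach.mono_r {r' : ℝ} (hr' : 0 ≤ r') (hrr : r' ≤ r) (h : Reach S0 g x r L) :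
    Reach S0 g x r' L := by
  obtain ⟨B, M0, h⟩ := h
  refine ⟨B, M0, fun T => ?_⟩
  obtain ⟨P, hP, hq, hx, h1, h2, h3, h4⟩ := h T
  exact ⟨P, hP, hq, hx, h1, h2, h3, fun i j => le_trans (nv_mono_r hr' hrr _) (h4 i j)⟩

/-- no constant terms -/
theorem Reach.const (h : Reach S0 g x r L) (i j : I) : PowerSeries.coeff 0 (L i j) = 0 := by
  obtain ⟨B, M0, h⟩ := h
  obtain ⟨P, hP, hq, hx, h1, h2, h3, h4⟩ := h 1
  rw [← h3 i j 0 (by omega)]
  exact hP.pres i j

/-- convergence at `r` -/
theorem Reach.cv (hr : 0 ≤ r) (h : Reach S0 g x r L) (i j : I) : Cv r (L i j) := by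
  obtain ⟨B, M0, h⟩ := h
  refine ⟨B, fun T => ?_⟩
  obtain ⟨P, hP, hq, hx, h1, h2, h3, h4⟩ := h T
  exact le_trans (nv_mono hr (h3 i j).trunc_le) (h4 i j)

/-- the marked loops -/
theorem Reach.q_le (h : Reach S0 g x r L) (n : ℕ) : q.coeff n ≤ PowerSeries.coeff n (L x x) := by
  obtain ⟨B, M0, h⟩ := h
  obtain ⟨P, hP, hq, hx, h1, h2, h3, h4⟩ := h (n + 1)
  rw [← h3 x x n (by omega)]
  exact hq n

/-- no arcs of length one in the marked row -/
theorem Reach.coeff_one (h : Reach S0 g x r L) (j : I) : PowerSeries.coeff 1 (L x j) = 0 := by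
  obtain ⟨B, M0, h⟩ := h
  obtain ⟨P, hP, hq, hx, h1, h2, h3, h4⟩ := h 2
  rw [← h3 x j 1 (by omega)]
  exact hx j

/-- the relation of the classes -/
theorem Reach.congr {g' : I → K} {x' : I} (h : Reach S0 g x r L) (hg : g = g') (hx : x = x')
    (hL : L = L') : Reach S0 g' x' r L' := by
  subst hg hx hL
  exact h

/-- a step which does not change the index set and the classes -/
theorem Reach.step (B' : ℝ → ℝ) (T' : ℕ → ℕ)
    (hst : ∀ (B : ℝ) (T : ℕ) (P : Matrix I I ℕ[X]) (h : PresOf δ g P)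
      (hq : ∀ n, q.coeff n ≤ (P x x).coeff n) (hx : ∀ j, (P x j).coeff 1 = 0),
      (∀ i j, Ag (T' T) (P i j) (L i j)) → (∀ i j, nv r (P i j) ≤ B) →
      ∃ (P' : Matrix I I ℕ[X]) (h' : PresOf δ g P') (hq' : ∀ n, q.coeff n ≤ (P' x x).coeff n)
        (hx' : ∀ j, (P' x j).coeff 1 = 0),
        PX.Rel (K := K) ⟨I, inferInstance, g, P, x, h, hq, hx⟩
          ⟨I, inferInstance, g, P', x, h', hq', hx'⟩ ∧
        (∃ V ∈ EX I, IP P' = (V : Matrix I I ℤ[X]) * IP P) ∧
        (∀ i j, Ag T (P' i j) (L' i j)) ∧ (∀ i j, nv r (P' i j) ≤ B' B))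
    (h : Reach S0 g x r L) : Reach S0 g x r L' := by
  obtain ⟨B, M0, h⟩ := h
  refine ⟨B' B, M0, fun T => ?_⟩
  obtain ⟨P, hP, hq, hx, h1, ⟨V, hV, hVe⟩, h3, h4⟩ := h (T' T)
  obtain ⟨P', hP', hq', hx', h1', ⟨V', hV', hVe'⟩, h3', h4'⟩ := hst B T P hP hq hx h3 h4
  refine ⟨P', hP', hq', hx', h1.trans h1', ⟨V' * V, Subgroup.mul_mem _ hV' hV, ?_⟩, h3', h4'⟩
  rw [hVe', hVe, Matrix.SpecialLinearGroup.coe_mul, Matrix.mul_assoc]

/-- (C1) EXPANSION of the row `i` -/
theorem Reach.expand (hr : 0 ≤ r) (h : Reach S0 g x r L) (i : I) (W : I → PowerSeries ℕ)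
    (hWi : W i = 0) (hW : ∀ k, Cv r (W k)) (hL : ∀ a, a ≠ i → L' a = L a)
    (hN : ∀ j, L' i j + W j = L i j + ∑ k, W k * L k j)
    (hxq : i = x → ∀ n, q.coeff n ≤ PowerSeries.coeff n (L' x x))
    (hx1 : i = x → ∀ j, PowerSeries.coeff 1 (L' x j) = 0) : Reach S0 g x r L' := by
  choose C hC using hW
  have hLc := h.const
  have hC0 : ∀ k, 0 ≤ C k := fun k => le_trans (nv_nonneg hr _) (hC k 0)
  refine Reach.step (fun B => B + ∑ k, C k * B) (fun T => T + (q.natDegree + 2))
    (fun B T P hP hq hx hAg hB => ?_) h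
  set T1 := T + (q.natDegree + 2) with hT1
  have hB0 : 0 ≤ B := le_trans (nv_nonneg hr _) (hB x x)
  -- the coefficients
  have hrhs : ∀ j, Ag T1 (P i j + ∑ k, PowerSeries.trunc T1 (W k) * P k j)
      (L i j + ∑ k, W k * L k j) := fun j =>
    (hAg i j).add (Ag.sum _ fun k _ => (ag_trunc T1 (W k)).mul (hAg k j))
  have hle : ∀ j n, (PowerSeries.trunc T1 (W j)).coeff n ≤
      (P i j + ∑ k, PowerSeries.trunc T1 (W k) * P k j).coeff n := by
    intro j n
    by_cases hn : n < T1
    · rw [hrhs j n hn, ← hN j, map_add, PowerSeries.coeff_trunc, if_pos hn]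
      omega
    · rw [trunc_coeff_ge _ _ _ (not_lt.1 hn)]
      exact Nat.zero_le _
  choose N' hN' using fun j => exists_add_of_coeff_le (hle j)
  have hAgN : ∀ j, Ag T1 (N' j) (L' i j) := by
    intro j k hk
    have e1 := hrhs j k hk
    rw [hN' j, ← hN j, coeff_add, map_add, PowerSeries.coeff_trunc, if_pos hk] at e1
    omega
  -- the new matrix
  set P' : Matrix I I ℕ[X] := P.updateRow i N' with hP'
  have hP'i : ∀ j, P' i j = N' j := fun j => by rw [hP', updateRow_self]
  have hP'a : ∀ a, a ≠ i → P' a = P a := fun a ha => by rw [hP', updateRow_ne ha]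
  have hAg' : ∀ a j, Ag T1 (P' a j) (L' a j) := by
    intro a j
    by_cases ha : a = i
    · subst ha
      rw [hP'i]
      exact hAgN j
    · rw [hP'a a ha, hL a ha]
      exact hAg a j
  have hpres : IsPres P' := by
    intro a j
    by_cases ha : a = i
    · subst ha
      rw [hAg' a j 0 (by omega)]
      have e1 := congrArg (PowerSeries.coeff 0) (hN j)
      rw [map_add, map_add, hLc, map_sum, Finset.sum_eq_zero] at e1
      · omega
      · intro k _
        rw [PowerSeries.coeff_zero_eq_constantCoeff_apply, map_mul,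
          ← PowerSeries.coeff_zero_eq_constantCoeff_apply,
          ← PowerSeries.coeff_zero_eq_constantCoeff_apply, hLc, mul_zero]
    · rw [hP'a a ha]
      exact hP.pres a j
  have hW0 : ∀ k, PowerSeries.coeff 0 (W k) = 0 := by
    intro k
    have e1 := congrArg (PowerSeries.coeff 0) (hN k)
    rw [map_add, map_add, hLc, map_sum, Finset.sum_eq_zero] at e1
    · omega
    · intro l _
      rw [PowerSeries.coeff_zero_eq_constantCoeff_apply, map_mul,
        ← PowerSeries.coeff_zero_eq_constantCoeff_apply,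
        ← PowerSeries.coeff_zero_eq_constantCoeff_apply, hLc, mul_zero]
  have hqd : ∀ n, T1 ≤ n → q.coeff n = 0 := fun n hn => coeff_eq_zero_of_natDegree_lt (by omega)
  have hq' : ∀ n, q.coeff n ≤ (P' x x).coeff n := by
    intro n
    by_cases hix : i = x
    · by_cases hn : n < T1
      · rw [hAg' x x n hn]
        exact hxq hix n
      · rw [hqd n (not_lt.1 hn)]
        exact Nat.zero_le _
    · rw [hP'a x (Ne.symm hix)]
      exact hq n
  have hx' : ∀ j, (P' x j).coeff 1 = 0 := by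
    intro j
    by_cases hix : i = x
    · rw [hAg' x j 1 (by omega)]
      exact hx1 hix j
    · rw [hP'a x (Ne.symm hix)]
      exact hx j
  have hc0 : toZ (PowerSeries.trunc T1 (W i)) = 0 := by
    rw [hWi]
    simp [toZ]
  have hrow : ∀ j, IP P' i j = IP P i j +
      ∑ l, toZ (PowerSeries.trunc T1 (W l)) * IP P l j := by
    intro j
    have e1 := congrArg toZ (hN' j)
    have e2 : toZ (PowerSeries.trunc T1 (W j) + N' j) =
        toZ (PowerSeries.trunc T1 (W j)) + toZ (N' j) := Polynomial.map_add _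
    have e3 : toZ (P i j + ∑ k, PowerSeries.trunc T1 (W k) * P k j) =
        toZ (P i j) + ∑ k, toZ (PowerSeries.trunc T1 (W k)) * toZ (P k j) := by
      unfold toZ
      rw [Polynomial.map_add, Polynomial.map_sum]
      simp only [Polynomial.map_mul]
    rw [e2, e3] at e1
    unfold IP
    rw [hP'i]
    simp only [mul_sub, mul_ite, mul_one, mul_zero, Finset.sum_sub_distrib,
      Finset.sum_ite_eq', Finset.mem_univ, if_true]
    linear_combination e1
  obtain ⟨hP'2, hrel⟩ := PX.add_rows hP hq hx hpres hq' hx' i hP'a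
    (fun l => toZ (PowerSeries.trunc T1 (W l))) hc0 hrow
  refine ⟨P', hP'2, hq', hx', hrel, ?_, fun a j => (hAg' a j).mono (by omega), fun a j => ?_⟩
  · refine exists_EX_expand i (fun l => toZ (PowerSeries.trunc T1 (W l))) hc0 (fun k => ?_) hP'a hrow
    rw [X_dvd_iff]
    unfold toZ
    rw [coeff_map, PowerSeries.coeff_trunc, if_pos (by omega), hW0 k, map_zero]
  · have hs0 : 0 ≤ ∑ k, C k * B := Finset.sum_nonneg fun k _ => mul_nonneg (hC0 k) hB0
    by_cases ha : a = i
    · subst ha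
      rw [hP'i]
      have e1 := congrArg (nv r) (hN' j)
      rw [map_add, map_add, map_sum] at e1
      have e2 : ∑ k, nv r (PowerSeries.trunc T1 (W k) * P k j) ≤ ∑ k, C k * B := by
        refine Finset.sum_le_sum fun k _ => ?_
        rw [map_mul]
        exact mul_le_mul (hC k T1) (hB k j) (nv_nonneg hr _) (hC0 k)
      have e3 := nv_nonneg hr (PowerSeries.trunc T1 (W j))
      have e4 := hB a j
      linarith
    · rw [hP'a a ha]
      have := hB a j
      linarith

end

end Pool.Agent.SSE
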