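import Pool.Agent.SSE.V6
import Pool.Agent.SSE.HN1
import Pool.Agent.SSE.Reach

/-!
# SSE project, hub part: definitions

Text: `/team-store/c782ad_h63_hub.md` (sections 1-2), simplified by helper81 (one class for all loop
vertices).

* series over `ℤ` with a finite weighted norm: `FN r f`, `sn r f`, `sv x f`, `TS r f`;
* the Perron data `PFM K δ` of the module;
* limits of presentations: `ReachE` (over `ℤ`, from helper23's `Reach` over `ℕ`);
* hub states: `HubOn` (with the classes of all loop vertices), `Hub` (all loop vertices have the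
  same class);
* the data `S1D` of Lemma S1.
-/

set_option autoImplicit false

open scoped BigOperators
open Matrix Polynomial

namespace Pool.Agent.SSE

attribute [local instance] Classical.propDecidable

/-! ### Series -/

/-- the weighted norm is finite -/
abbrev FN (r : ℝ) (f : PowerSeries ℤ) : Prop := PF.HasN r (HN.toRS f)

/-- the weighted norm -/
noncomputable abbrev sn (r : ℝ) (f : PowerSeries ℤ) : ℝ := PF.nS r (HN.toRS f)

/-- the value at `x` -/
noncomputable abbrev sv (x : ℝ) (f : PowerSeries ℤ) : ℝ := PF.ev x (HN.toRS f)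

/-- a series over `ℕ` as a series over `ℤ` -/
noncomputable def toZS : PowerSeries ℕ →+* PowerSeries ℤ := PowerSeries.map (Nat.castRingHom ℤ)

/-- series with nonnegative coefficients, without constant term, of finite norm -/
structure TS (r : ℝ) (f : PowerSeries ℤ) : Prop where
  c0 : PowerSeries.coeff 0 f = 0
  nn : HN.Nn f
  fn : FN r f

/-- the Perron data of the module `K` -/
structure PFM (K : Type) [AddCommGroup K] [Module ℤ[X] K] (δ : ℤ[X]) where
  lam : ℝ
  one_lt : 1 < lam
  tau : K →+ ℝ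
  tau_X : ∀ z : K, tau ((X : ℤ[X]) • z) = lam⁻¹ * tau z
  rad : ℝ
  rad_gt : 1 < lam * rad
  rad_lt : rad < 1
  f1 : ℝ[X]
  fac : toR δ = (1 - C lam * X) * f1
  ne : ∀ z : ℂ, ‖z‖ ≤ rad → aeval z f1 ≠ 0

section

variable {K : Type} [AddCommGroup K] [Module ℤ[X] K] {δ : ℤ[X]}

/-- positive classes are positive combinations of the classes `e` -/
def Rep (D : PFM K δ) {ι : Type} [Fintype ι] (e : ι → K) : Prop :=
  ∃ C2 : ℝ, 0 < C2 ∧ ∀ z : K, 0 < D.tau z → ∃ L0 : ℕ, ∀ L, L0 ≤ L → ∃ v : ι → ℕ,
    (∀ i, 1 ≤ v i) ∧ z = ∑ i, toZ (C (v i) * X ^ L : ℕ[X]) • e i ∧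
    ∀ i, (v i : ℝ) ≤ C2 * D.tau z * D.lam ^ L

/-- the limit `Pinf` (a matrix of series over `ℤ`; classes `cl`, hub `x`, radius `r`) is reached
from `S0` -/
def ReachE {qB : ℕ[X]} (S0 : PX K δ qB) {I : Type} [Fintype I] (cl : I → K) (x : I) (r : ℝ)
    (Pinf : Matrix I I (PowerSeries ℤ)) : Prop :=
  ∃ L : Matrix I I (PowerSeries ℕ), (∀ i j, toZS (L i j) = Pinf i j) ∧ Reach S0 cl x r L

/-- the limit matrix of a hub state: hubs `Option F` (`none` is the main hub), loop vertices `Y` -/
noncomputable def hubM {F Y : Type} (p : Matrix (Option F) (Option F) (PowerSeries ℤ))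
    (s q : Y → PowerSeries ℤ) : Matrix (Option F ⊕ Y) (Option F ⊕ Y) (PowerSeries ℤ) :=
  fun i j => match i, j with
  | Sum.inl a, Sum.inl b => p a b
  | Sum.inl _, Sum.inr _ => 0
  | Sum.inr y, Sum.inl none => q y
  | Sum.inr _, Sum.inl (some _) => 0
  | Sum.inr y, Sum.inr z => if y = z then s y else 0

/-- hub state with explicit loop vertices `Y`: loops `s`, classes `c`, series `q` to the hub -/
structure HubOn (D : PFM K δ) {qB : ℕ[X]} (S0 : PX K δ qB) (r : ℝ) {F : Type} [Fintype F]
    (cl : Option F → K) (p : Matrix (Option F) (Option F) (PowerSeries ℤ)) {Y : Type} [Fintype Y]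
    (s : Y → PowerSeries ℤ) (c : Y → K) (q : Y → PowerSeries ℤ) : Prop where
  r_gt : 1 < D.lam * r
  r_le : r ≤ D.rad
  p_ts : ∀ i j, TS r (p i j)
  s_ts : ∀ y, TS r (s y)
  s_ne : ∀ y, s y ≠ 0
  s_lt : ∀ y, sn r (s y) < 1
  q_ts : ∀ y, TS r (q y)
  c_pos : ∀ y, 0 < D.tau (c y)
  cl_pos : ∀ i, 0 < D.tau (cl i)
  qB_le : ∀ n, (qB.coeff n : ℤ) ≤ PowerSeries.coeff n (p none none)
  low : ∀ j, PowerSeries.coeff 1 (p none j) = 0
  reach : ReachE S0 (Sum.elim cl c) (Sum.inl none) r (hubM p s q)

/-- hub state: all loop vertices have the class `cst`, `L` is the multiset of their loops -/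
def Hub (D : PFM K δ) {qB : ℕ[X]} (S0 : PX K δ qB) (r : ℝ) {F : Type} [Fintype F]
    (cl : Option F → K) (cst : K) (p : Matrix (Option F) (Option F) (PowerSeries ℤ))
    (L : Multiset (PowerSeries ℤ)) : Prop :=
  ∃ (Y : Type) (_ : Fintype Y) (s q : Y → PowerSeries ℤ),
    Finset.univ.val.map s = L ∧ HubOn D S0 r cl p s (fun _ => cst) q

/-- the part of `p` on the hubs `F` -/
def pFF {F : Type} (p : Matrix (Option F) (Option F) (PowerSeries ℤ)) :
    Matrix F F (PowerSeries ℤ) := p.submatrix some some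

/-- weights `g` for a matrix of series -/
structure GoodW {F : Type} [Fintype F] (r : ℝ) (g : F → ℝ) (θ : ℝ)
    (M : Matrix F F (PowerSeries ℤ)) : Prop where
  pos : ∀ f, 0 < g f
  nonneg : 0 ≤ θ
  lt : θ < 1
  row : ∀ f, ∑ k, sn r (M f k) * g k ≤ θ * g f

/-- a matrix of series of small norm -/
def Good {F : Type} [Fintype F] (r : ℝ) (M : Matrix F F (PowerSeries ℤ)) : Prop :=
  ∃ (g : F → ℝ) (θ : ℝ), GoodW r g θ M

/-- `φ` is the vector of the first passage series `f → x` -/
def FP {F : Type} [Fintype F] (p : Matrix (Option F) (Option F) (PowerSeries ℤ))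
    (φ : F → PowerSeries ℤ) : Prop :=
  ∀ f, φ f = p (some f) none + ∑ k, p (some f) (some k) * φ k

/-- the first return series of the main hub -/
noncomputable def Hret {F : Type} [Fintype F] (p : Matrix (Option F) (Option F) (PowerSeries ℤ))
    (φ : F → PowerSeries ℤ) : PowerSeries ℤ := p none none + ∑ f, p none (some f) * φ f

/-- the original vertices `e i` are visible in the row of the main hub -/
def Visib {F ι : Type} (p : Matrix (Option F) (Option F) (PowerSeries ℤ)) (e : ι → F) : Prop :=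
  ∀ i, ∃ a, 1 ≤ PowerSeries.coeff a (p none (some (e i)))

/-- the row `o` after an isolation of `s` -/
noncomputable def divRow {I : Type} (P : Matrix I I (PowerSeries ℤ)) (o : I) (s : PowerSeries ℤ) :
    I → PowerSeries ℤ := fun j => HN.geo s * (P o j - if j = o then s else 0)

/-- the pure state: row of the main hub `H e_x`, rows of the other hubs `φ_f e_x` -/
noncomputable def pureM {F : Type} (H : PowerSeries ℤ) (φ : F → PowerSeries ℤ) :
    Matrix (Option F) (Option F) (PowerSeries ℤ) :=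
  fun i j => if j = none then i.elim H φ else 0

/-- the data of Lemma S1 (one side), `ξ` is the class of the main hub -/
structure S1D (D : PFM K δ) (ξ : K) where
  F : Type
  fin : Fintype F
  cl : F → K
  P : Matrix (Option F) (Option F) ℕ[X]
  pres : PresOf δ (fun i => Option.elim i ξ cl) P
  ι : Type
  fι : Fintype ι
  e : ι → F
  rep : Rep D (fun i => cl (e i))
  xi_pos : 0 < D.tau ξ
  xi_lt : ∀ f, D.tau ξ < D.tau (cl f)
  rowx : ∀ j d, d < 3 → (P none j).coeff d = 0
  V : F → PowerSeries ℤ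
  hV : ∀ f, V f = ps (toZ (P none (some f))) + ∑ k, V k * ps (toZ (P (some k) (some f)))
  grow : ∀ f (M : ℤ), ∃ E0, ∀ E, E0 ≤ E → M ≤ PowerSeries.coeff E (V f)
  H : PowerSeries ℤ
  hH : H = ps (toZ (P none none)) + ∑ f, V f * ps (toZ (P (some f) none))
  b0 : ℕ
  hb0 : ∀ d, b0 ≤ d → 1 ≤ PowerSeries.coeff d H
  ρ : ℝ
  ρ_gt : 1 < D.lam * ρ
  ρ_le : ρ ≤ D.rad
  good : Good ρ (fun f k => ps (toZ (P (some f) (some k))))

attribute [instance] S1D.fin S1D.fι

/-- the classes of the generators -/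
def S1D.cls {D : PFM K δ} {ξ : K} (S : S1D D ξ) : Option S.F → K := fun i => Option.elim i ξ S.cl

end

end Pool.Agent.SSE
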