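import Mathlib

/-!
# SSE project (`MP_c782ad_an`): Perron–Frobenius theory with a geometric error term

`PF.exists_eigenvector`: a primitive nonnegative real matrix has a positive eigenvector.
`PF.main`: `(A ^ m) i j = v i * u j * lam ^ m + O(th ^ m)` with `th < lam`.
`PF.unique`: uniqueness of the nonnegative eigenvector.
`PF.submat`: a smaller matrix has a smaller growth rate.
-/

set_option autoImplicit false
set_option linter.unusedSectionVars false

open scoped BigOperators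
open Matrix

namespace Pool.Agent.SSE.PF

variable {V : Type*} [Fintype V] [DecidableEq V]

/-- nonnegative real matrix with a positive power -/
structure Prim (A : Matrix V V ℝ) (k : ℕ) : Prop where
  nonneg : ∀ i j, 0 ≤ A i j
  kpos : 0 < k
  pos : ∀ i j, 0 < (A ^ k) i j

lemma pow_nonneg' {A : Matrix V V ℝ} (hA : ∀ i j, 0 ≤ A i j) (m : ℕ) : ∀ i j, 0 ≤ (A ^ m) i j := by
  induction m with
  | zero =>
    intro i j
    rw [pow_zero, Matrix.one_apply]
    split_ifs <;> norm_num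
  | succ m ih =>
    intro i j
    rw [pow_succ, Matrix.mul_apply]
    exact Finset.sum_nonneg fun l _ => mul_nonneg (ih i l) (hA l j)

lemma mulVec_nonneg {A : Matrix V V ℝ} (hA : ∀ i j, 0 ≤ A i j) {x : V → ℝ} (hx : ∀ i, 0 ≤ x i) (i : V) :
    0 ≤ (A *ᵥ x) i :=
  Finset.sum_nonneg fun j _ => mul_nonneg (hA i j) (hx j)

lemma mulVec_pos {A : Matrix V V ℝ} (hA : ∀ i j, 0 < A i j) {x : V → ℝ} (hx : ∀ i, 0 ≤ x i)
    (hx0 : ∃ i, 0 < x i) (i : V) : 0 < (A *ᵥ x) i := by
  obtain ⟨j, hj⟩ := hx0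
  exact Finset.sum_pos' (fun l _ => mul_nonneg (hA i l).le (hx l)) ⟨j, Finset.mem_univ _, mul_pos (hA i j) hj⟩

lemma Prim.transpose {A : Matrix V V ℝ} {k : ℕ} (h : Prim A k) : Prim Aᵀ k :=
  ⟨fun i j => h.nonneg j i, h.kpos, fun i j => by rw [← Matrix.transpose_pow]; exact h.pos j i⟩

/-- existence of the Perron eigenvector -/
theorem exists_eigenvector [Nonempty V] {A : Matrix V V ℝ} {k : ℕ} (h : Prim A k) :
    ∃ (lam : ℝ) (v : V → ℝ), 0 < lam ∧ (∀ i, 0 < v i) ∧ A *ᵥ v = lam • v := by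
  classical
  -- the compact set of pairs `(x, r)` with `A x ≥ r x`
  set R : ℝ := ∑ i, ∑ j, A i j with hR
  have hR0 : 0 ≤ R := Finset.sum_nonneg fun i _ => Finset.sum_nonneg fun j _ => h.nonneg i j
  set S : Set ((V → ℝ) × ℝ) :=
    {p | p.1 ∈ stdSimplex ℝ V ∧ p.2 ∈ Set.Icc 0 R ∧ ∀ i, p.2 * p.1 i ≤ (A *ᵥ p.1) i} with hS
  have hcomp : IsCompact S := by
    have h1 : IsCompact (stdSimplex ℝ V ×ˢ Set.Icc (0 : ℝ) R) :=
      (isCompact_stdSimplex ℝ V).prod isCompact_Icc
    have h2 : IsClosed {p : (V → ℝ) × ℝ | ∀ i, p.2 * p.1 i ≤ (A *ᵥ p.1) i} := by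
      rw [Set.ofPred_forall]
      refine isClosed_iInter fun i => isClosed_le ?_ ?_
      · fun_prop
      · have : (fun p : (V → ℝ) × ℝ => (A *ᵥ p.1) i) = fun p => ∑ j, A i j * p.1 j := by
          ext p
          rfl
        rw [this]
        fun_prop
    have h3 : S = (stdSimplex ℝ V ×ˢ Set.Icc (0 : ℝ) R) ∩ {p | ∀ i, p.2 * p.1 i ≤ (A *ᵥ p.1) i} := by
      ext p
      simp only [hS, Set.mem_ofPred_eq, Set.mem_inter_iff, Set.mem_prod]
      tauto
    rw [h3]
    exact h1.inter_right h2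
  obtain ⟨i0⟩ := ‹Nonempty V›
  have hne : S.Nonempty := by
    refine ⟨(Pi.single i0 1, 0), ?_, ⟨le_refl _, hR0⟩, fun i => ?_⟩
    · exact single_mem_stdSimplex ℝ i0
    · simp only [zero_mul]
      exact mulVec_nonneg h.nonneg (fun j => by
        by_cases hj : j = i0
        · subst hj; simp
        · simp [hj]) i
  obtain ⟨⟨x, lam⟩, hmem, hmax⟩ := hcomp.exists_isMaxOn hne (f := fun p => p.2) (by fun_prop)
  obtain ⟨hx, hlam, hle⟩ := hmem
  simp only at hx hlam hle
  have hx0 : ∀ i, 0 ≤ x i := hx.1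
  have hx1 : ∑ i, x i = 1 := hx.2
  -- sup estimate: any admissible `r` is at most `R`
  have hbound : ∀ (y : V → ℝ) (r : ℝ), y ∈ stdSimplex ℝ V → (∀ i, r * y i ≤ (A *ᵥ y) i) → r ≤ R := by
    intro y r hy hr
    have h1 : r * ∑ i, y i ≤ ∑ i, (A *ᵥ y) i := by
      rw [Finset.mul_sum]
      exact Finset.sum_le_sum fun i _ => hr i
    rw [hy.2, mul_one] at h1
    refine h1.trans ?_
    refine Finset.sum_le_sum fun i _ => Finset.sum_le_sum fun j _ => ?_
    have : y j ≤ 1 := by
      rw [← hy.2]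
      exact Finset.single_le_sum (fun l _ => hy.1 l) (Finset.mem_univ j)
    exact mul_le_of_le_one_right (h.nonneg i j) this
  have hsome : ∃ i, 0 < x i := by
    by_contra hcon
    push Not at hcon
    have : ∑ i, x i ≤ 0 := Finset.sum_nonpos fun i _ => hcon i
    linarith
  have hmax' : ∀ (y : V → ℝ) (r : ℝ), (∀ i, 0 ≤ y i) → (∃ i, 0 < y i) → 0 ≤ r →
      (∀ i, r * y i ≤ (A *ᵥ y) i) → r ≤ lam := by
    intro y r hy hy0 hr hry
    set s := ∑ i, y i with hs
    have hspos : 0 < s := by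
      obtain ⟨i, hi⟩ := hy0
      exact Finset.sum_pos' (fun j _ => hy j) ⟨i, Finset.mem_univ _, hi⟩
    have hmemy : (s⁻¹ • y) ∈ stdSimplex ℝ V := by
      refine ⟨fun i => ?_, ?_⟩
      · simp only [Pi.smul_apply, smul_eq_mul]
        exact mul_nonneg (inv_nonneg.2 hspos.le) (hy i)
      · simp only [Pi.smul_apply, smul_eq_mul]
        rw [← Finset.mul_sum, ← hs, inv_mul_cancel₀ hspos.ne']
    have hry' : ∀ i, r * (s⁻¹ • y) i ≤ (A *ᵥ (s⁻¹ • y)) i := by
      intro i
      rw [Matrix.mulVec_smul]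
      simp only [Pi.smul_apply, smul_eq_mul]
      have := mul_le_mul_of_nonneg_left (hry i) (inv_nonneg.2 hspos.le)
      linarith
    have hr2 : r ≤ R := hbound _ r hmemy hry'
    exact hmax (⟨hmemy, ⟨hr, hr2⟩, hry'⟩ : ((s⁻¹ • y), r) ∈ S)
  -- equality
  have heq : A *ᵥ x = lam • x := by
    by_contra hcon
    have hw : ∃ i, 0 < (A *ᵥ x - lam • x) i := by
      by_contra hc
      push Not at hc
      apply hcon
      ext i
      have h1 := hc i
      have h2 := hle i
      simp only [Pi.sub_apply, Pi.smul_apply, smul_eq_mul] at h1 ⊢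
      linarith
    have hw0 : ∀ i, 0 ≤ (A *ᵥ x - lam • x) i := by
      intro i
      simp only [Pi.sub_apply, Pi.smul_apply, smul_eq_mul]
      have := hle i
      linarith
    have hy : ∀ i, 0 < (A ^ k *ᵥ (A *ᵥ x - lam • x)) i := fun i => mulVec_pos h.pos hw0 hw i
    set y := A ^ k *ᵥ x with hydef
    have hypos : ∀ i, 0 < y i := fun i => mulVec_pos h.pos hx0 hsome i
    have hcomm : A ^ k *ᵥ (A *ᵥ x - lam • x) = A *ᵥ y - lam • y := by
      rw [Matrix.mulVec_sub, Matrix.mulVec_smul, Matrix.mulVec_mulVec, ← pow_succ, pow_succ',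
        ← Matrix.mulVec_mulVec]
    rw [hcomm] at hy
    -- choose `e > 0` with `e * y ≤ A y - lam y`
    obtain ⟨i1, -, hi1⟩ := Finset.exists_min_image Finset.univ (fun i => (A *ᵥ y - lam • y) i / y i)
      ⟨i0, Finset.mem_univ _⟩
    set e := (A *ᵥ y - lam • y) i1 / y i1 with he
    have hepos : 0 < e := div_pos (hy i1) (hypos i1)
    have := hmax' y (lam + e) (fun i => (hypos i).le) ⟨i0, hypos i0⟩ (add_nonneg hlam.1 hepos.le) (by
      intro i
      have h1 := hi1 i (Finset.mem_univ i)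
      rw [le_div_iff₀ (hypos i)] at h1
      simp only [Pi.sub_apply, Pi.smul_apply, smul_eq_mul] at h1 ⊢
      linarith)
    linarith
  have hpow : ∀ m : ℕ, A ^ m *ᵥ x = lam ^ m • x := by
    intro m
    induction m with
    | zero => simp
    | succ m ih =>
      rw [pow_succ', ← Matrix.mulVec_mulVec, ih, Matrix.mulVec_smul, heq, smul_smul, pow_succ]
  have hpos : ∀ i, 0 < lam ^ k * x i := by
    intro i
    have h1 := mulVec_pos h.pos hx0 hsome i
    rw [hpow k] at h1
    simpa using h1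
  have hlampos : 0 < lam := by
    rcases hlam.1.lt_or_eq with h1 | h1
    · exact h1
    · exfalso
      have := hpos i0
      rw [← h1, zero_pow h.kpos.ne', zero_mul] at this
      exact lt_irrefl _ this
  refine ⟨lam, x, hlampos, fun i => ?_, heq⟩
  exact (mul_pos_iff_of_pos_left (pow_pos hlampos k)).1 (hpos i)

lemma eig_pow {A : Matrix V V ℝ} {lam : ℝ} {v : V → ℝ} (h : A *ᵥ v = lam • v) (m : ℕ) :
    A ^ m *ᵥ v = lam ^ m • v := by
  induction m with
  | zero => simp
  | succ m ih =>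
    rw [pow_succ', ← Matrix.mulVec_mulVec, ih, Matrix.mulVec_smul, h, smul_smul, pow_succ]

lemma eig_pow' {A : Matrix V V ℝ} {lam : ℝ} {u : V → ℝ} (h : u ᵥ* A = lam • u) (m : ℕ) :
    u ᵥ* A ^ m = lam ^ m • u := by
  induction m with
  | zero => simp
  | succ m ih =>
    rw [pow_succ, ← Matrix.vecMul_vecMul, ih, Matrix.smul_vecMul, h, smul_smul, pow_succ]

/-- Perron–Frobenius data -/
structure Data (A : Matrix V V ℝ) (lam : ℝ) (v u : V → ℝ) : Prop where
  lam_pos : 0 < lam
  v_pos : ∀ i, 0 < v i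
  u_pos : ∀ i, 0 < u i
  eig : A *ᵥ v = lam • v
  eig' : u ᵥ* A = lam • u
  norm : u ⬝ᵥ v = 1

theorem exists_data [Nonempty V] {A : Matrix V V ℝ} {k : ℕ} (h : Prim A k) :
    ∃ (lam : ℝ) (v u : V → ℝ), Data A lam v u := by
  obtain ⟨lam, v, hlam, hv, hev⟩ := exists_eigenvector h
  obtain ⟨mu, u, hmu, hu, heu⟩ := exists_eigenvector h.transpose
  rw [Matrix.mulVec_transpose] at heu
  have hne : 0 < u ⬝ᵥ v := by
    obtain ⟨i0⟩ := ‹Nonempty V›
    exact Finset.sum_pos' (fun l _ => (mul_pos (hu l) (hv l)).le) ⟨i0, Finset.mem_univ _, mul_pos (hu i0) (hv i0)⟩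
  have heq : mu = lam := by
    have h1 : u ⬝ᵥ (A *ᵥ v) = lam * (u ⬝ᵥ v) := by rw [hev, dotProduct_smul, smul_eq_mul]
    have h2 : (u ᵥ* A) ⬝ᵥ v = mu * (u ⬝ᵥ v) := by rw [heu, smul_dotProduct, smul_eq_mul]
    rw [Matrix.dotProduct_mulVec, h2] at h1
    exact mul_right_cancel₀ hne.ne' h1
  subst heq
  refine ⟨mu, v, (u ⬝ᵥ v)⁻¹ • u, hmu, hv, fun i => ?_, hev, ?_, ?_⟩
  · simp only [Pi.smul_apply, smul_eq_mul]
    exact mul_pos (inv_pos.2 hne) (hu i)
  · rw [Matrix.smul_vecMul, heu, smul_comm]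
  · rw [smul_dotProduct, smul_eq_mul, inv_mul_cancel₀ hne.ne']

/-- convergence for stochastic matrices -/
theorem stoch {P : Matrix V V ℝ} {w : V → ℝ} {k : ℕ} (hk : 0 < k) (hP : ∀ i j, 0 ≤ P i j)
    (hrow : ∀ i, ∑ j, P i j = 1) (hw : ∀ i, 0 < w i) (hw1 : ∑ i, w i = 1) (hwP : w ᵥ* P = w)
    (hpos : ∀ i j, 0 < (P ^ k) i j) :
    ∃ C th : ℝ, 0 < C ∧ 0 < th ∧ th < 1 ∧ ∀ m i j, |(P ^ m) i j - w j| ≤ C * th ^ m := by
  classical
  have hV : Nonempty V := by
    by_contra hcon
    rw [not_nonempty_iff] at hcon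
    simp at hw1
  obtain ⟨i0⟩ := hV
  have hstoch : ∀ m : ℕ, P ^ m *ᵥ (fun _ => 1) = fun _ => 1 := by
    intro m
    have := eig_pow (A := P) (lam := 1) (v := fun _ => 1) (by
      ext i
      simp [Matrix.mulVec, dotProduct, hrow i]) m
    simpa using this
  have hrowm : ∀ m i, ∑ j, (P ^ m) i j = 1 := by
    intro m i
    have := congrFun (hstoch m) i
    simpa [Matrix.mulVec, dotProduct] using this
  have hwm : ∀ m : ℕ, w ᵥ* P ^ m = w := by
    intro m
    have := eig_pow' (A := P) (lam := 1) (u := w) (by rw [hwP, one_smul]) m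
    simpa using this
  -- the Doeblin constant
  obtain ⟨⟨a, b⟩, -, hab⟩ := Finset.exists_min_image (Finset.univ : Finset (V × V))
    (fun p => (P ^ k) p.1 p.2) ⟨(i0, i0), Finset.mem_univ _⟩
  set d : ℝ := min ((P ^ k) a b) (1 / 2) with hd
  have hd0 : 0 < d := lt_min (hpos a b) (by norm_num)
  have hd1 : d ≤ 1 / 2 := min_le_right _ _
  have hw_le : ∀ j, w j ≤ 1 := by
    intro j
    rw [← hw1]
    exact Finset.single_le_sum (fun l _ => (hw l).le) (Finset.mem_univ j)
  have hdle : ∀ i j, d * w j ≤ (P ^ k) i j := by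
    intro i j
    have h1 : d ≤ (P ^ k) i j := (min_le_left _ _).trans (hab (i, j) (Finset.mem_univ _))
    calc d * w j ≤ d * 1 := mul_le_mul_of_nonneg_left (hw_le j) hd0.le
      _ ≤ _ := by rw [mul_one]; exact h1
  -- the rank one projection
  obtain ⟨J, hJ⟩ : ∃ J : Matrix V V ℝ, ∀ i j, J i j = w j := ⟨fun _ j => w j, fun _ _ => rfl⟩
  obtain ⟨N, hN⟩ : ∃ N : Matrix V V ℝ, N = P ^ k - d • J := ⟨_, rfl⟩
  have hN0 : ∀ i j, 0 ≤ N i j := fun i j => by
    simp only [hN, hJ, Matrix.sub_apply, Matrix.smul_apply, smul_eq_mul]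
    linarith [hdle i j]
  have hJJ : J * J = J := by
    ext i j
    rw [Matrix.mul_apply]
    simp only [hJ]
    rw [← Finset.sum_mul, hw1, one_mul]
  have hJP : J * P ^ k = J := by
    ext i j
    have := congrFun (hwm k) j
    rw [Matrix.mul_apply]
    simp only [hJ]
    simpa [Matrix.vecMul, dotProduct] using this
  have hPJ : ∀ m : ℕ, P ^ m * J = J := by
    intro m
    ext i j
    rw [Matrix.mul_apply]
    simp only [hJ]
    rw [← Finset.sum_mul, hrowm m i, one_mul]
  have hNJ : N * J = (1 - d) • J := by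
    rw [hN, sub_mul, hPJ k, smul_mul_assoc, hJJ, sub_smul, one_smul]
  have hJN : J * N = (1 - d) • J := by
    rw [hN, mul_sub, hJP, mul_smul_comm, hJJ, sub_smul, one_smul]
  have hkm : ∀ m : ℕ, P ^ (k * (m + 1)) - J = N ^ (m + 1) - (1 - d) ^ (m + 1) • J := by
    intro m
    induction m with
    | zero =>
      simp only [zero_add, mul_one, pow_one, hN, sub_smul, one_smul]
      abel
    | succ m ih =>
      have e1 : P ^ (k * (m + 1 + 1)) - J = (P ^ (k * (m + 1)) - J) * (P ^ k - J) := by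
        rw [sub_mul, mul_sub, mul_sub, hPJ, hJP, hJJ, ← pow_add, mul_add k (m + 1) 1, mul_one]
        abel
      have e2 : P ^ k - J = N - (1 - d) • J := by
        rw [hN, sub_smul, one_smul]
        abel
      have e3 : N ^ (m + 1) * J = (1 - d) ^ (m + 1) • J := by
        clear e1 e2 ih
        induction m with
        | zero => simpa using hNJ
        | succ m ih => rw [pow_succ' N (m + 1), Matrix.mul_assoc, ih, mul_smul_comm, hNJ, smul_smul, ← pow_succ]
      have e4 : (N ^ (m + 1) - (1 - d) ^ (m + 1) • J) * (N - (1 - d) • J) =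
          N ^ (m + 1) * N - (1 - d) • (N ^ (m + 1) * J) - (1 - d) ^ (m + 1) • (J * N) +
            ((1 - d) ^ (m + 1) * (1 - d)) • (J * J) := by
        rw [sub_mul, mul_sub, mul_sub, mul_smul_comm, smul_mul_assoc, smul_mul_smul_comm]
        abel
      rw [e1, ih, e2, e4, hJJ, hJN, e3, smul_smul, smul_smul, ← pow_succ N, ← pow_succ (1 - d) (m + 1),
        mul_comm (1 - d) ((1 - d) ^ (m + 1)), ← pow_succ (1 - d) (m + 1)]
      abel
  have hNrow : ∀ m i, ∑ j, (N ^ m) i j = (1 - d) ^ m := by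
    intro m i
    have h1 : N *ᵥ (fun _ => (1 : ℝ)) = (1 - d) • fun _ => (1 : ℝ) := by
      ext i
      simp only [Matrix.mulVec, dotProduct, mul_one, Pi.smul_apply, smul_eq_mul, hN, Matrix.sub_apply,
        Matrix.smul_apply, hJ]
      rw [Finset.sum_sub_distrib, hrowm k i, ← Finset.mul_sum, hw1, mul_one]
    have := congrFun (eig_pow h1 m) i
    simpa [Matrix.mulVec, dotProduct] using this
  have h1d : (0 : ℝ) ≤ 1 - d := by linarith
  have hNle : ∀ m i j, (N ^ m) i j ≤ (1 - d) ^ m := by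
    intro m i j
    rw [← hNrow m i]
    exact Finset.single_le_sum (fun l _ => pow_nonneg' hN0 m i l) (Finset.mem_univ j)
  have hstep : ∀ m i j, |(P ^ (k * m)) i j - w j| ≤ (1 - d) ^ m := by
    intro m i j
    rcases m with _ | m
    · rw [mul_zero, pow_zero, pow_zero, Matrix.one_apply]
      have h1 := hw_le j
      have h2 := (hw j).le
      split_ifs <;> rw [abs_le] <;> constructor <;> linarith
    · have e := congrFun (congrFun (hkm m) i) j
      simp only [Matrix.sub_apply, hJ, Matrix.smul_apply, smul_eq_mul] at e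
      rw [e]
      have h1 := hNle (m + 1) i j
      have h2 := pow_nonneg' hN0 (m + 1) i j
      have h3 : (1 - d) ^ (m + 1) * w j ≤ (1 - d) ^ (m + 1) :=
        mul_le_of_le_one_right (pow_nonneg h1d _) (hw_le j)
      have h4 : 0 ≤ (1 - d) ^ (m + 1) * w j := mul_nonneg (pow_nonneg h1d _) (hw j).le
      rw [abs_le]
      constructor <;> linarith
  have hgen : ∀ m s i j, |(P ^ (s + k * m)) i j - w j| ≤ (1 - d) ^ m := by
    intro m s i j
    have e : (P ^ (s + k * m)) i j - w j = ∑ l, (P ^ s) i l * ((P ^ (k * m)) l j - w j) := by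
      rw [pow_add, Matrix.mul_apply]
      simp only [mul_sub]
      rw [Finset.sum_sub_distrib, ← Finset.sum_mul, hrowm s i, one_mul]
    rw [e]
    refine (Finset.abs_sum_le_sum_abs _ _).trans ?_
    calc ∑ l, |(P ^ s) i l * ((P ^ (k * m)) l j - w j)|
        ≤ ∑ l, (P ^ s) i l * (1 - d) ^ m := by
          refine Finset.sum_le_sum fun l _ => ?_
          rw [abs_mul, abs_of_nonneg (pow_nonneg' hP s i l)]
          exact mul_le_mul_of_nonneg_left (hstep m l j) (pow_nonneg' hP s i l)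
      _ = (1 - d) ^ m := by rw [← Finset.sum_mul, hrowm s i, one_mul]
  -- rate
  have hkR : (1 : ℝ) ≤ k := by exact_mod_cast hk
  set th : ℝ := 1 - d / k with hth
  have hdk : d / k ≤ 1 / 2 := (div_le_self hd0.le hkR).trans hd1
  have hdk0 : 0 < d / k := div_pos hd0 (by linarith)
  have hth0 : 0 < th := by rw [hth]; linarith
  have hth1 : th < 1 := by rw [hth]; linarith
  have hthk : 1 - d ≤ th ^ k := by
    have h1 := one_add_mul_le_pow (a := -(d / k)) (by linarith) k
    have h2 : (1 : ℝ) + k * -(d / k) = 1 - d := by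
      have : (k : ℝ) ≠ 0 := by linarith
      field_simp
      ring
    rw [h2] at h1
    rw [hth, sub_eq_add_neg]
    exact h1
  refine ⟨(th ^ k)⁻¹, th, inv_pos.2 (pow_pos hth0 k), hth0, hth1, fun m i j => ?_⟩
  have e := Nat.mod_add_div m k
  have h1 := hgen (m / k) (m % k) i j
  rw [e] at h1
  refine h1.trans ?_
  have h2 : (1 - d) ^ (m / k) ≤ th ^ (k * (m / k)) := by
    rw [pow_mul]
    exact pow_le_pow_left₀ h1d hthk _
  refine h2.trans ?_
  rw [inv_mul_eq_div, le_div_iff₀ (pow_pos hth0 k), ← pow_add]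
  refine pow_le_pow_of_le_one hth0.le hth1.le ?_
  have := Nat.mod_lt m hk
  omega

/-- Perron–Frobenius with a geometric error term -/
theorem Data.asymp {A : Matrix V V ℝ} {k : ℕ} (h : Prim A k) {lam : ℝ} {v u : V → ℝ}
    (hd : Data A lam v u) :
    ∃ C th : ℝ, 0 < C ∧ 0 < th ∧ th < lam ∧ ∀ m i j, |(A ^ m) i j - v i * u j * lam ^ m| ≤ C * th ^ m := by
  classical
  obtain ⟨hlam, hv, hu, hev, heu, hn⟩ := hd
  set P : Matrix V V ℝ := fun i j => A i j * v j / (lam * v i) with hP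
  set w : V → ℝ := fun i => u i * v i with hw
  have hPm : ∀ m i j, (P ^ m) i j = (A ^ m) i j * v j / (lam ^ m * v i) := by
    intro m
    induction m with
    | zero =>
      intro i j
      rw [pow_zero, pow_zero, pow_zero, Matrix.one_apply]
      split_ifs with hij
      · subst hij
        simp [(hv i).ne']
      · simp
    | succ m ih =>
      intro i j
      rw [pow_succ, Matrix.mul_apply, pow_succ A, Matrix.mul_apply, Finset.sum_mul, Finset.sum_div]
      refine Finset.sum_congr rfl fun l _ => ?_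
      rw [ih]
      simp only [hP]
      have h1 := (hv i).ne'
      have h2 := (hv l).ne'
      have h3 := hlam.ne'
      field_simp
      ring
  obtain ⟨C, th, hC, hth0, hth1, hb⟩ := stoch (P := P) (w := w) h.kpos
    (fun i j => div_nonneg (mul_nonneg (h.nonneg i j) (hv j).le) (mul_nonneg hlam.le (hv i).le))
    (fun i => by
      simp only [hP]
      rw [← Finset.sum_div]
      have := congrFun hev i
      simp only [Matrix.mulVec, dotProduct, Pi.smul_apply, smul_eq_mul] at this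
      rw [this, div_self (mul_pos hlam (hv i)).ne'])
    (fun i => mul_pos (hu i) (hv i))
    (by simpa [dotProduct, hw] using hn)
    (by
      ext j
      simp only [Matrix.vecMul, dotProduct, hw, hP]
      have h1 := congrFun heu j
      simp only [Matrix.vecMul, dotProduct, Pi.smul_apply, smul_eq_mul] at h1
      have h2 : ∑ x, u x * v x * (A x j * v j / (lam * v x)) = (∑ x, u x * A x j) * v j / lam := by
        rw [Finset.sum_mul, Finset.sum_div]
        refine Finset.sum_congr rfl fun x _ => ?_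
        have h1 := (hv x).ne'
        have h3 := hlam.ne'
        field_simp
      rw [h2, h1]
      have h3 := hlam.ne'
      field_simp)
    (fun i j => by
      rw [hPm]
      exact div_pos (mul_pos (h.pos i j) (hv j)) (mul_pos (pow_pos hlam k) (hv i)))
  set K : ℝ := ∑ i, ∑ j, v i / v j with hK
  have hKij : ∀ i j, v i / v j ≤ K := by
    intro i j
    have h1 : v i / v j ≤ ∑ j, v i / v j :=
      Finset.single_le_sum (f := fun j => v i / v j) (fun l _ => (div_pos (hv i) (hv l)).le) (Finset.mem_univ j)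
    exact h1.trans (Finset.single_le_sum (f := fun i => ∑ j, v i / v j)
      (fun l _ => Finset.sum_nonneg fun j _ => (div_pos (hv l) (hv j)).le) (Finset.mem_univ i))
  refine ⟨(K + 1) * C, th * lam, ?_, mul_pos hth0 hlam, ?_, fun m i j => ?_⟩
  · have : 0 ≤ K := Finset.sum_nonneg fun i _ => Finset.sum_nonneg fun j _ => (div_pos (hv i) (hv j)).le
    exact mul_pos (by linarith) hC
  · exact mul_lt_of_lt_one_left hlam hth1
  · have e : (A ^ m) i j - v i * u j * lam ^ m = (v i / v j) * lam ^ m * ((P ^ m) i j - w j) := by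
      rw [hPm]
      simp only [hw]
      have h1 := (hv i).ne'
      have h2 := (hv j).ne'
      have h3 := hlam.ne'
      field_simp
    rw [e, abs_mul, abs_mul, abs_of_pos (div_pos (hv i) (hv j)), abs_of_pos (pow_pos hlam m), mul_pow]
    have hb' := hb m i j
    have h5 : v i / v j ≤ K + 1 := (hKij i j).trans (by linarith)
    calc v i / v j * lam ^ m * |(P ^ m) i j - w j| ≤ (K + 1) * lam ^ m * (C * th ^ m) := by
          refine mul_le_mul (mul_le_mul_of_nonneg_right h5 (pow_pos hlam m).le) hb' (abs_nonneg _) ?_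
          exact mul_nonneg ((div_pos (hv i) (hv j)).le.trans h5) (pow_pos hlam m).le
      _ = (K + 1) * C * (th ^ m * lam ^ m) := by ring

/-- growth: `lam > 1` -/
theorem Data.one_lt {A : Matrix V V ℝ} {lam : ℝ} {v u : V → ℝ} (hd : Data A lam v u)
    {p : ℕ} (hp : ∀ i j, 2 ≤ (A ^ p) i j) [Nonempty V] : 1 < lam := by
  classical
  obtain ⟨i⟩ := ‹Nonempty V›
  have h1 := congrFun (eig_pow hd.eig p) i
  simp only [Matrix.mulVec, dotProduct, Pi.smul_apply, smul_eq_mul] at h1
  have h2 : 2 * v i ≤ lam ^ p * v i := by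
    rw [← h1]
    calc 2 * v i ≤ (A ^ p) i i * v i := mul_le_mul_of_nonneg_right (hp i i) (hd.v_pos i).le
      _ ≤ _ := Finset.single_le_sum (f := fun x => (A ^ p) i x * v x)
        (fun l _ => mul_nonneg (by linarith [hp i l]) (hd.v_pos l).le) (Finset.mem_univ i)
  have h3 : 2 ≤ lam ^ p := le_of_mul_le_mul_right h2 (hd.v_pos i)
  by_contra hcon
  push Not at hcon
  have := pow_le_one₀ (n := p) hd.lam_pos.le hcon
  linarith

/-- uniqueness of the nonnegative eigenvector -/
theorem Data.unique {A : Matrix V V ℝ} {k : ℕ} (h : Prim A k) {lam : ℝ} {v u : V → ℝ}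
    (hd : Data A lam v u) {mu : ℝ} {w : V → ℝ} (hw : ∀ i, 0 ≤ w i) (hw0 : ∃ i, 0 < w i)
    (he : A *ᵥ w = mu • w) : mu = lam ∧ w = (u ⬝ᵥ w) • v := by
  have hpos : 0 < u ⬝ᵥ w := by
    obtain ⟨i, hi⟩ := hw0
    exact Finset.sum_pos' (fun l _ => mul_nonneg (hd.u_pos l).le (hw l)) ⟨i, Finset.mem_univ _, mul_pos (hd.u_pos i) hi⟩
  have heq : mu = lam := by
    have h1 : u ⬝ᵥ (A *ᵥ w) = mu * (u ⬝ᵥ w) := by rw [he, dotProduct_smul, smul_eq_mul]
    have h2 : (u ᵥ* A) ⬝ᵥ w = lam * (u ⬝ᵥ w) := by rw [hd.eig', smul_dotProduct, smul_eq_mul]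
    rw [Matrix.dotProduct_mulVec, h2] at h1
    exact (mul_right_cancel₀ hpos.ne' h1).symm
  subst heq
  refine ⟨rfl, ?_⟩
  obtain ⟨C, th, hC, hth, hthl, hb⟩ := hd.asymp h
  ext i
  -- `A ^ m w = mu ^ m w`
  have h1 : ∀ m : ℕ, |mu ^ m * w i - mu ^ m * ((u ⬝ᵥ w) * v i)| ≤ (C * ∑ j, w j) * th ^ m := by
    intro m
    have e1 := congrFun (eig_pow he m) i
    simp only [Matrix.mulVec, dotProduct, Pi.smul_apply, smul_eq_mul] at e1
    have e2 : mu ^ m * w i - mu ^ m * ((u ⬝ᵥ w) * v i) =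
        ∑ j, ((A ^ m) i j - v i * u j * mu ^ m) * w j := by
      simp only [sub_mul]
      rw [Finset.sum_sub_distrib, e1]
      congr 1
      rw [dotProduct, Finset.sum_mul, Finset.mul_sum]
      refine Finset.sum_congr rfl fun j _ => ?_
      ring
    rw [e2]
    refine (Finset.abs_sum_le_sum_abs _ _).trans ?_
    rw [Finset.mul_sum, Finset.sum_mul]
    refine Finset.sum_le_sum fun j _ => ?_
    rw [abs_mul, abs_of_nonneg (hw j)]
    calc |(A ^ m) i j - v i * u j * mu ^ m| * w j ≤ (C * th ^ m) * w j :=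
          mul_le_mul_of_nonneg_right (hb m i j) (hw j)
      _ = C * w j * th ^ m := by ring
  have h2 : ∀ m : ℕ, |w i - (u ⬝ᵥ w) * v i| ≤ (C * ∑ j, w j) * (th / mu) ^ m := by
    intro m
    have h3 := h1 m
    rw [← mul_sub, abs_mul, abs_of_pos (pow_pos hd.lam_pos m)] at h3
    rw [div_pow, ← mul_div_assoc, le_div_iff₀ (pow_pos hd.lam_pos m), mul_comm]
    exact h3
  have h3 : Filter.Tendsto (fun m : ℕ => (C * ∑ j, w j) * (th / mu) ^ m) Filter.atTop (nhds 0) := by
    have := tendsto_pow_atTop_nhds_zero_of_lt_one (r := th / mu) (div_pos hth hd.lam_pos).le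
      ((div_lt_one hd.lam_pos).2 hthl)
    simpa using this.const_mul (C * ∑ j, w j)
  have h4 : |w i - (u ⬝ᵥ w) * v i| ≤ 0 := ge_of_tendsto' h3 h2
  have h5 := abs_eq_zero.1 (le_antisymm h4 (abs_nonneg _))
  simp only [Pi.smul_apply, smul_eq_mul]
  linarith

/-- a strictly smaller matrix grows strictly slower -/
theorem Data.submat {A : Matrix V V ℝ} {k : ℕ} (h : Prim A k) {lam : ℝ} {v u : V → ℝ}
    (hd : Data A lam v u) {B : Matrix V V ℝ} (hB : ∀ i j, 0 ≤ B i j) (hBA : ∀ i j, B i j ≤ A i j)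
    (hne : ∃ i j, B i j < A i j) :
    ∃ C th : ℝ, 0 < C ∧ 0 < th ∧ th < lam ∧ ∀ m i j, (B ^ m) i j ≤ C * th ^ m := by
  classical
  have hV : Nonempty V := ⟨hne.choose⟩
  obtain ⟨hlam, hv, hu, hev, heu, hn⟩ := hd
  set w : V → ℝ := fun i => lam * v i - (B *ᵥ v) i with hw
  have hw' : ∀ i, w i = ∑ j, (A i j - B i j) * v j := by
    intro i
    have := congrFun hev i
    simp only [Matrix.mulVec, dotProduct, Pi.smul_apply, smul_eq_mul] at this
    simp only [hw, Matrix.mulVec, dotProduct, sub_mul]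
    rw [Finset.sum_sub_distrib, this]
  have hw0 : ∀ i, 0 ≤ w i := fun i => by
    rw [hw']
    exact Finset.sum_nonneg fun j _ => mul_nonneg (sub_nonneg.2 (hBA i j)) (hv j).le
  have hwz : ∀ i, w i = 0 → ∀ j, A i j = B i j := by
    intro i hi j
    rw [hw', Finset.sum_eq_zero_iff_of_nonneg
      (fun j _ => mul_nonneg (sub_nonneg.2 (hBA i j)) (hv j).le)] at hi
    have := hi j (Finset.mem_univ j)
    rcases mul_eq_zero.1 this with h1 | h1
    · linarith
    · exact absurd h1 (hv j).ne'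
  have hwp : ∃ i, 0 < w i := by
    obtain ⟨i, j, hij⟩ := hne
    refine ⟨i, lt_of_le_of_ne (hw0 i) fun h0 => ?_⟩
    exact absurd (hwz i h0.symm j) hij.ne'
  -- paths
  have hreach : ∀ i0, ∃ m ≤ k, 0 < (B ^ m *ᵥ w) i0 := by
    intro i0
    by_contra hcon
    push Not at hcon
    have hz : ∀ m ≤ k, (B ^ m *ᵥ w) i0 = 0 := fun m hm =>
      le_antisymm (hcon m hm) (mulVec_nonneg (pow_nonneg' hB m) hw0 i0)
    have hrow : ∀ m ≤ k, ∀ j, (A ^ m) i0 j = (B ^ m) i0 j := by
      intro m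
      induction m with
      | zero => intro _ j; simp
      | succ m ih =>
        intro hm j
        rw [pow_succ, Matrix.mul_apply, pow_succ, Matrix.mul_apply]
        refine Finset.sum_congr rfl fun l _ => ?_
        rw [ih (by omega) l]
        have h1 := hz m (by omega)
        simp only [Matrix.mulVec, dotProduct] at h1
        rw [Finset.sum_eq_zero_iff_of_nonneg
          (fun j _ => mul_nonneg (pow_nonneg' hB m i0 j) (hw0 j))] at h1
        rcases mul_eq_zero.1 (h1 l (Finset.mem_univ l)) with h2 | h2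
        · rw [h2, zero_mul, zero_mul]
        · rw [hwz l h2 j]
    have h1 := hz k le_rfl
    have h2 : (A ^ k *ᵥ w) i0 = 0 := by
      rw [← h1]
      simp only [Matrix.mulVec, dotProduct]
      exact Finset.sum_congr rfl fun l _ => by rw [hrow k le_rfl l]
    have h3 := mulVec_pos h.pos hw0 hwp i0
    rw [h2] at h3
    exact lt_irrefl _ h3
  have htel : ∀ m : ℕ, ∀ i, lam ^ m * v i - (B ^ m *ᵥ v) i = ∑ l ∈ Finset.range m, lam ^ (m - 1 - l) * (B ^ l *ᵥ w) i := by
    intro m
    induction m with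
    | zero => intro i; simp
    | succ m ih =>
      intro i
      rw [Finset.sum_range_succ]
      have e1 : ∑ l ∈ Finset.range m, lam ^ (m + 1 - 1 - l) * (B ^ l *ᵥ w) i =
          lam * ∑ l ∈ Finset.range m, lam ^ (m - 1 - l) * (B ^ l *ᵥ w) i := by
        rw [Finset.mul_sum]
        refine Finset.sum_congr rfl fun l hl => ?_
        have : m + 1 - 1 - l = (m - 1 - l) + 1 := by
          have := Finset.mem_range.1 hl
          omega
        rw [this, pow_succ]
        ring
      have e2 : (B ^ m *ᵥ w) i = lam * (B ^ m *ᵥ v) i - (B ^ (m + 1) *ᵥ v) i := by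
        have : w = lam • v - B *ᵥ v := by
          ext j
          simp [hw]
        rw [this, Matrix.mulVec_sub, Matrix.mulVec_smul, Matrix.mulVec_mulVec, ← pow_succ]
        simp
      have e3 : m + 1 - 1 - m = 0 := by omega
      rw [e1, ← ih i, e3, pow_zero, one_mul, e2, pow_succ]
      ring
  have hlt : ∀ i, (B ^ (k + 1) *ᵥ v) i < lam ^ (k + 1) * v i := by
    intro i
    obtain ⟨m, hm, hpos⟩ := hreach i
    have h1 := htel (k + 1) i
    have h2 : 0 < ∑ l ∈ Finset.range (k + 1), lam ^ (k + 1 - 1 - l) * (B ^ l *ᵥ w) i :=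
      Finset.sum_pos' (fun l _ => mul_nonneg (pow_pos hlam _).le (mulVec_nonneg (pow_nonneg' hB l) hw0 i))
        ⟨m, Finset.mem_range.2 (by omega), mul_pos (pow_pos hlam _) hpos⟩
    linarith
  -- uniform constant
  obtain ⟨i1, -, hi1⟩ := Finset.exists_max_image Finset.univ
    (fun i => (B ^ (k + 1) *ᵥ v) i / (lam ^ (k + 1) * v i)) ⟨hV.some, Finset.mem_univ _⟩
  set q0 := (B ^ (k + 1) *ᵥ v) i1 / (lam ^ (k + 1) * v i1) with hq0
  have hq0lt : q0 < 1 := (div_lt_one (mul_pos (pow_pos hlam _) (hv i1))).2 (hlt i1)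
  have hq00 : 0 ≤ q0 := div_nonneg (mulVec_nonneg (pow_nonneg' hB _) (fun j => (hv j).le) i1)
    (mul_pos (pow_pos hlam _) (hv i1)).le
  set q := max q0 (1 / 2) with hq
  have hq1 : q < 1 := max_lt hq0lt (by norm_num)
  have hqpos : 0 < q := lt_of_lt_of_le (by norm_num) (le_max_right _ _)
  have hBk : ∀ i, (B ^ (k + 1) *ᵥ v) i ≤ q * lam ^ (k + 1) * v i := by
    intro i
    have h1 := hi1 i (Finset.mem_univ i)
    rw [div_le_iff₀ (mul_pos (pow_pos hlam _) (hv i))] at h1
    refine h1.trans ?_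
    rw [mul_assoc]
    exact mul_le_mul_of_nonneg_right (le_max_left _ _) (mul_pos (pow_pos hlam _) (hv i)).le
  have hmono : ∀ (M : Matrix V V ℝ), (∀ i j, 0 ≤ M i j) → ∀ (a b : V → ℝ), (∀ i, a i ≤ b i) → ∀ i, (M *ᵥ a) i ≤ (M *ᵥ b) i :=
    fun M hM a b hab i => Finset.sum_le_sum fun j _ => mul_le_mul_of_nonneg_left (hab j) (hM i j)
  have hBkm : ∀ m : ℕ, ∀ i, (B ^ ((k + 1) * m) *ᵥ v) i ≤ (q * lam ^ (k + 1)) ^ m * v i := by
    intro m
    induction m with
    | zero => intro i; simp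
    | succ m ih =>
      intro i
      have e : B ^ ((k + 1) * (m + 1)) *ᵥ v = B ^ ((k + 1) * m) *ᵥ (B ^ (k + 1) *ᵥ v) := by
        rw [Matrix.mulVec_mulVec, ← pow_add, mul_add, mul_one]
      rw [e]
      have h1 := hmono (B ^ ((k + 1) * m)) (pow_nonneg' hB _) (B ^ (k + 1) *ᵥ v)
        ((q * lam ^ (k + 1)) • v) (fun j => by
          simp only [Pi.smul_apply, smul_eq_mul]
          exact hBk j) i
      refine h1.trans ?_
      rw [Matrix.mulVec_smul]
      simp only [Pi.smul_apply, smul_eq_mul]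
      have h2 := mul_le_mul_of_nonneg_left (ih i) (mul_pos hqpos (pow_pos hlam (k + 1))).le
      have h3 : (q * lam ^ (k + 1)) ^ (m + 1) * v i = (q * lam ^ (k + 1)) * ((q * lam ^ (k + 1)) ^ m * v i) := by
        rw [pow_succ (q * lam ^ (k + 1)) m]
        ring
      rw [h3]
      exact h2
  have hBs : ∀ s : ℕ, ∀ i, (B ^ s *ᵥ v) i ≤ lam ^ s * v i := by
    intro s i
    have h1 := htel s i
    have h2 : 0 ≤ ∑ l ∈ Finset.range s, lam ^ (s - 1 - l) * (B ^ l *ᵥ w) i :=
      Finset.sum_nonneg fun l _ => mul_nonneg (pow_pos hlam _).le (mulVec_nonneg (pow_nonneg' hB l) hw0 i)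
    linarith
  -- rate
  set th : ℝ := 1 - (1 - q) / (k + 1) with hth
  have hk1 : (1 : ℝ) ≤ (k : ℝ) + 1 := by
    have : (0 : ℝ) ≤ k := Nat.cast_nonneg k
    linarith
  have hdk : (1 - q) / ((k : ℝ) + 1) ≤ 1 - q := div_le_self (by linarith) hk1
  have hdk0 : 0 < (1 - q) / ((k : ℝ) + 1) := div_pos (by linarith) (by linarith)
  have hth0 : 0 < th := by rw [hth]; linarith
  have hth1 : th < 1 := by rw [hth]; linarith
  have hthk : q ≤ th ^ (k + 1) := by
    have h1 := one_add_mul_le_pow (a := -((1 - q) / ((k : ℝ) + 1))) (by linarith) (k + 1)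
    have h2 : (1 : ℝ) + ((k + 1 : ℕ) : ℝ) * -((1 - q) / ((k : ℝ) + 1)) = q := by
      have : (k : ℝ) + 1 ≠ 0 := by linarith
      push_cast
      field_simp
      ring
    rw [h2] at h1
    rw [hth, sub_eq_add_neg]
    exact h1
  set K : ℝ := ∑ i, ∑ j, v i / v j with hK
  have hKij : ∀ i j, v i / v j ≤ K := by
    intro i j
    have h1 : v i / v j ≤ ∑ j, v i / v j :=
      Finset.single_le_sum (f := fun j => v i / v j) (fun l _ => (div_pos (hv i) (hv l)).le) (Finset.mem_univ j)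
    exact h1.trans (Finset.single_le_sum (f := fun i => ∑ j, v i / v j)
      (fun l _ => Finset.sum_nonneg fun j _ => (div_pos (hv l) (hv j)).le) (Finset.mem_univ i))
  have hK0 : 0 < K := (div_pos (hv i1) (hv i1)).trans_le (hKij i1 i1)
  refine ⟨K * (th ^ (k + 1))⁻¹, th * lam, mul_pos hK0 (inv_pos.2 (pow_pos hth0 _)), mul_pos hth0 hlam,
    mul_lt_of_lt_one_left hlam hth1, fun m i j => ?_⟩
  have e := Nat.mod_add_div m (k + 1)
  have h1 : (B ^ m *ᵥ v) i ≤ lam ^ (m % (k + 1)) * ((q * lam ^ (k + 1)) ^ (m / (k + 1)) * v i) := by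
    have e1 : B ^ m *ᵥ v = B ^ (m % (k + 1)) *ᵥ (B ^ ((k + 1) * (m / (k + 1))) *ᵥ v) := by
      rw [Matrix.mulVec_mulVec, ← pow_add, e]
    rw [e1]
    have h2 := hmono (B ^ (m % (k + 1))) (pow_nonneg' hB _) (B ^ ((k + 1) * (m / (k + 1))) *ᵥ v)
      ((q * lam ^ (k + 1)) ^ (m / (k + 1)) • v) (fun j => by
        simp only [Pi.smul_apply, smul_eq_mul]
        exact hBkm _ j) i
    refine h2.trans ?_
    rw [Matrix.mulVec_smul]
    simp only [Pi.smul_apply, smul_eq_mul]
    have h3 := hBs (m % (k + 1)) i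
    have h4 := mul_le_mul_of_nonneg_left h3 (pow_nonneg (mul_pos hqpos (pow_pos hlam (k + 1))).le (m / (k + 1)))
    linarith
  have h2 : (B ^ m) i j * v j ≤ (B ^ m *ᵥ v) i :=
    Finset.single_le_sum (f := fun l => (B ^ m) i l * v l)
      (fun l _ => mul_nonneg (pow_nonneg' hB m i l) (hv l).le) (Finset.mem_univ j)
  have h3 : (B ^ m) i j ≤ (v i / v j) * (lam ^ m * q ^ (m / (k + 1))) := by
    have h4 := h2.trans h1
    rw [← le_div_iff₀ (hv j)] at h4
    refine h4.trans (le_of_eq ?_)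
    rw [mul_pow, ← pow_mul]
    have e5 : lam ^ m = lam ^ (m % (k + 1)) * lam ^ ((k + 1) * (m / (k + 1))) := by
      rw [← pow_add, e]
    rw [e5]
    ring
  refine h3.trans ?_
  have h4 : q ^ (m / (k + 1)) ≤ (th ^ (k + 1))⁻¹ * th ^ m := by
    have h5 : q ^ (m / (k + 1)) ≤ th ^ ((k + 1) * (m / (k + 1))) := by
      rw [pow_mul]
      exact pow_le_pow_left₀ hqpos.le hthk _
    refine h5.trans ?_
    rw [inv_mul_eq_div, le_div_iff₀ (pow_pos hth0 _), ← pow_add]
    refine pow_le_pow_of_le_one hth0.le hth1.le ?_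
    have := Nat.mod_lt m (y := k + 1) (Nat.succ_pos k)
    omega
  calc v i / v j * (lam ^ m * q ^ (m / (k + 1)))
      ≤ K * (lam ^ m * ((th ^ (k + 1))⁻¹ * th ^ m)) := by
        refine mul_le_mul (hKij i j) (mul_le_mul_of_nonneg_left h4 (pow_pos hlam m).le) ?_ hK0.le
        exact mul_nonneg (pow_pos hlam m).le (pow_nonneg hqpos.le _)
    _ = K * (th ^ (k + 1))⁻¹ * (th * lam) ^ m := by rw [mul_pow]; ring

end Pool.Agent.SSE.PF
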