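import Pool.Agent.SSE.PresOf
import Pool.Agent.SSE.PF1

/-!
# SSE project, hub part: the functional `τ`, weights, and the representation lemma (R)

`τ : K →+ ℝ` with `τ (X • z) = x0 * τ z`, positive on the generators.
-/

set_option autoImplicit false

open scoped BigOperators
open Matrix Polynomial

namespace Pool.Agent.SSE

open Pool.Agent.helper52.SSE

attribute [local instance] Classical.propDecidable

variable {ι F : Type} [Fintype ι] [Fintype F]
variable {K : Type} [AddCommGroup K] [Module ℤ[X] K]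

/-- the value of a polynomial with coefficients in `ℕ` at a real number -/
noncomputable def evp (ρ : ℝ) (p : ℕ[X]) : ℝ := p.eval₂ (Nat.castRingHom ℝ) ρ

lemma evp_eq (ρ : ℝ) (p : ℕ[X]) : evp ρ p = ∑ k ∈ p.support, (p.coeff k : ℝ) * ρ ^ k := by
  unfold evp
  rw [eval₂_eq_sum, Polynomial.sum]
  rfl

lemma evp_nonneg {ρ : ℝ} (hρ : 0 ≤ ρ) (p : ℕ[X]) : 0 ≤ evp ρ p := by
  rw [evp_eq]
  exact Finset.sum_nonneg fun k _ => mul_nonneg (Nat.cast_nonneg _) (pow_nonneg hρ _)

lemma evp_pos {ρ : ℝ} (hρ : 0 < ρ) {p : ℕ[X]} (hp : p ≠ 0) : 0 < evp ρ p := by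
  rw [evp_eq]
  obtain ⟨k, hk⟩ := Polynomial.nonempty_support_iff.2 hp
  refine Finset.sum_pos' (fun k _ => mul_nonneg (Nat.cast_nonneg _) (pow_nonneg hρ.le _)) ⟨k, hk, ?_⟩
  have h1 : 0 < p.coeff k := Nat.pos_of_ne_zero (mem_support_iff.1 hk)
  exact mul_pos (by exact_mod_cast h1) (pow_pos hρ _)

lemma evp_mono {ρ ρ' : ℝ} (hρ : 0 ≤ ρ) (h : ρ ≤ ρ') (p : ℕ[X]) : evp ρ p ≤ evp ρ' p := by
  rw [evp_eq, evp_eq]
  exact Finset.sum_le_sum fun k _ => mul_le_mul_of_nonneg_left (pow_le_pow_left₀ hρ h k)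
    (Nat.cast_nonneg _)

lemma evp_continuous (p : ℕ[X]) : Continuous fun ρ => evp ρ p := by
  simp only [evp_eq]
  exact continuous_finsetSum _ fun k _ => continuous_const.mul (continuous_pow k)

/-- the functional on multiples -/
theorem tau_smul {τ : K →+ ℝ} {x0 : ℝ} (hτ : ∀ z, τ ((X : ℤ[X]) • z) = x0 * τ z) (p : ℤ[X])
    (z : K) : τ (p • z) = p.eval₂ (Int.castRingHom ℝ) x0 * τ z := by
  induction p using Polynomial.induction_on' with
  | add p q hp hq => rw [add_smul, map_add, hp, hq, eval₂_add, add_mul]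
  | monomial n a =>
    rw [← C_mul_X_pow_eq_monomial, eval₂_mul, eval₂_C, eval₂_X_pow, mul_smul]
    have h1 : ∀ y : K, τ ((C a : ℤ[X]) • y) = (a : ℝ) * τ y := by
      intro y
      have : (C a : ℤ[X]) • y = a • y := by
        rw [← Int.cast_smul_eq_zsmul ℤ[X] a y]
        congr 1
      rw [this, map_zsmul, zsmul_eq_mul]
    rw [h1]
    have h2 : τ ((X ^ n : ℤ[X]) • z) = x0 ^ n * τ z := by
      induction n with
      | zero => simp
      | succ n ih => rw [pow_succ', mul_smul, hτ, ih, pow_succ']; ring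
    rw [h2]
    simp only [eq_intCast]
    ring

theorem tau_toZ {τ : K →+ ℝ} {x0 : ℝ} (hτ : ∀ z, τ ((X : ℤ[X]) • z) = x0 * τ z) (p : ℕ[X])
    (z : K) : τ (toZ p • z) = evp x0 p * τ z := by
  rw [tau_smul hτ]
  congr 1
  unfold toZ evp
  rw [eval₂_map]
  congr 1

/-- the relation of a row under `τ` -/
theorem tau_row {τ : K →+ ℝ} {x0 : ℝ} (hτ : ∀ z, τ ((X : ℤ[X]) • z) = x0 * τ z)
    {g : ι → K} {P : Matrix ι ι ℕ[X]} (i : ι) (h : ∑ j, IP P i j • g j = 0) :
    τ (g i) = ∑ j, evp x0 (P i j) * τ (g j) := by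
  have h1 : ∀ j, IP P i j • g j = (if i = j then g j else 0) - toZ (P i j) • g j := by
    intro j
    unfold IP
    split_ifs <;> simp [sub_smul]
  simp only [h1, Finset.sum_sub_distrib, Finset.sum_ite_eq, Finset.mem_univ, if_true] at h
  rw [sub_eq_zero.1 h, map_sum]
  exact Finset.sum_congr rfl fun j _ => tau_toZ hτ _ _

/-- Weights: if every vertex of `F` reaches the last vertex `x`, then `F` without `x` has spectral
radius `< 1` at some `ρ > x0`. -/
theorem exists_weights {P : Matrix (F ⊕ Unit) (F ⊕ Unit) ℕ[X]} {g : F ⊕ Unit → K}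
    (hrel : ∀ i, ∑ j, IP P i j • g j = 0) {τ : K →+ ℝ} {x0 b : ℝ} (hx0 : 0 < x0)
    (hτ : ∀ z, τ ((X : ℤ[X]) • z) = x0 * τ z) (hpos : ∀ i, 0 < τ (g i))
    (hreach : ∀ f : F, Relation.TransGen (fun i j => P i j ≠ 0) (Sum.inl f) (Sum.inr ()))
    (hb : x0 < b) :
    ∃ (ρ θ : ℝ) (w : F → ℝ), x0 < ρ ∧ ρ < b ∧ 0 < θ ∧ θ < 1 ∧ (∀ f, 0 < w f) ∧
      ∀ f, ∑ k, evp ρ (P (Sum.inl f) (Sum.inl k)) * w k ≤ θ * w f := by
  set B : F → F → ℝ := fun f k => evp x0 (P (Sum.inl f) (Sum.inl k)) with hB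
  have hB0 : ∀ f k, 0 ≤ B f k := fun f k => evp_nonneg hx0.le _
  set t : F → ℝ := fun f => τ (g (Sum.inl f)) with ht
  set app : (F → ℝ) → (F → ℝ) := fun s f => ∑ k, B f k * s k with happ
  have hrow : ∀ f, t f = app t f + evp x0 (P (Sum.inl f) (Sum.inr ())) * τ (g (Sum.inr ())) := by
    intro f
    have := tau_row hτ (Sum.inl f) (hrel (Sum.inl f))
    rw [Fintype.sum_sum_type] at this
    simpa [happ, hB, ht] using this
  have hmono : ∀ s s' : F → ℝ, (∀ f, s f ≤ s' f) → ∀ f, app s f ≤ app s' f := fun s s' h f =>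
    Finset.sum_le_sum fun k _ => mul_le_mul_of_nonneg_left (h k) (hB0 f k)
  have hle1 : ∀ f, app t f ≤ t f := fun f => by
    rw [hrow f]
    exact le_add_of_nonneg_right (mul_nonneg (evp_nonneg hx0.le _) (hpos _).le)
  have hdec : ∀ m f, app^[m + 1] t f ≤ app^[m] t f := by
    intro m
    induction m with
    | zero => exact hle1
    | succ m ih =>
      intro f
      rw [Function.iterate_succ_apply' app (m + 1) t]
      conv_rhs => rw [Function.iterate_succ_apply' app m t]
      exact hmono _ _ ih f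
  have hanti : ∀ m n, m ≤ n → ∀ f, app^[n] t f ≤ app^[m] t f := by
    intro m n hmn f
    induction n, hmn using Nat.le_induction with
    | base => exact le_rfl
    | succ n _ ih => exact (hdec n f).trans ih
  have hstrict : ∀ i : F ⊕ Unit, Relation.TransGen (fun i j => P i j ≠ 0) i (Sum.inr ()) →
      ∀ f, i = Sum.inl f → ∃ m, app^[m] t f < t f := by
    intro i hi
    induction hi using Relation.TransGen.head_induction_on with
    | single h =>
      intro f hf
      subst hf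
      refine ⟨1, ?_⟩
      rw [Function.iterate_one, hrow f]
      exact lt_add_of_pos_right _ (mul_pos (evp_pos hx0 h) (hpos _))
    | @head i' k' h _ ih =>
      intro f hf
      subst hf
      rcases k' with k | u
      · obtain ⟨m, hm⟩ := ih k rfl
        refine ⟨m + 1, ?_⟩
        rw [Function.iterate_succ_apply']
        refine lt_of_lt_of_le ?_ (hle1 f)
        refine Finset.sum_lt_sum (fun l _ => mul_le_mul_of_nonneg_left (hanti 0 m (Nat.zero_le _) l)
          (hB0 f l)) ⟨k, Finset.mem_univ _, mul_lt_mul_of_pos_left hm (evp_pos hx0 h)⟩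
      · refine ⟨1, ?_⟩
        rw [Function.iterate_one, hrow f]
        exact lt_add_of_pos_right _ (mul_pos (evp_pos hx0 h) (hpos _))
  choose m hm using fun f => hstrict _ (hreach f) f rfl
  set N := Finset.univ.sup m with hN
  have hNf : ∀ f, app^[N] t f < t f := fun f =>
    (hanti (m f) N (Finset.le_sup (f := m) (Finset.mem_univ f)) f).trans_lt (hm f)
  set w : F → ℝ := fun f => ∑ i ∈ Finset.range (N + 1), app^[i] t f with hw
  have htpos : ∀ i f, 0 ≤ app^[i] t f := by
    intro i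
    induction i with
    | zero => exact fun f => (hpos _).le
    | succ i ih =>
      intro f
      rw [Function.iterate_succ_apply']
      exact Finset.sum_nonneg fun k _ => mul_nonneg (hB0 f k) (ih k)
  have hw0 : ∀ f, 0 < w f := fun f =>
    Finset.sum_pos' (fun i _ => htpos i f) ⟨0, Finset.mem_range.2 (Nat.succ_pos _), hpos _⟩
  have hwlt : ∀ f, app w f < w f := by
    intro f
    have h1 : app w f = ∑ i ∈ Finset.range (N + 1), app^[i + 1] t f := by
      simp only [happ, hw, Finset.mul_sum]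
      rw [Finset.sum_comm]
      refine Finset.sum_congr rfl fun i _ => ?_
      rw [← happ, Function.iterate_succ_apply']
    have h2 : w f + app^[N + 1] t f = app w f + t f := by
      rw [h1, hw]
      simp only
      rw [← Finset.sum_range_succ (fun i => app^[i] t f) (N + 1), Finset.sum_range_succ']
      rfl
    have h3 := (hanti N (N + 1) (Nat.le_succ _) f).trans_lt (hNf f)
    linarith
  -- choose `θ`, then `ρ`
  have hθ : ∀ᶠ θ in nhdsWithin (1 : ℝ) (Set.Iio 1), ∀ f, app w f < θ * w f := by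
    rw [Filter.eventually_all]
    intro f
    have h1 : Filter.Tendsto (fun θ : ℝ => θ * w f) (nhdsWithin (1 : ℝ) (Set.Iio 1))
        (nhds (1 * w f)) :=
      ((continuous_id.mul continuous_const).tendsto 1).mono_left nhdsWithin_le_nhds
    rw [one_mul] at h1
    exact h1.eventually (lt_mem_nhds (hwlt f))
  have hθ1 : ∀ᶠ θ in nhdsWithin (1 : ℝ) (Set.Iio 1), θ < 1 := eventually_mem_nhdsWithin
  have hθ0 : ∀ᶠ θ in nhdsWithin (1 : ℝ) (Set.Iio 1), 0 < θ :=
    nhdsWithin_le_nhds (lt_mem_nhds (by norm_num))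
  obtain ⟨θ, h1, h2, h3⟩ := (hθ.and (hθ1.and hθ0)).exists
  have hρ : ∀ᶠ ρ in nhdsWithin x0 (Set.Ioi x0), ∀ f,
      ∑ k, evp ρ (P (Sum.inl f) (Sum.inl k)) * w k < θ * w f := by
    rw [Filter.eventually_all]
    intro f
    have h4 : Continuous fun ρ => ∑ k, evp ρ (P (Sum.inl f) (Sum.inl k)) * w k :=
      continuous_finsetSum _ fun k _ => (evp_continuous _).mul continuous_const
    exact (h4.tendsto x0).mono_left nhdsWithin_le_nhds |>.eventually (gt_mem_nhds (h1 f))
  have hρ1 : ∀ᶠ ρ in nhdsWithin x0 (Set.Ioi x0), x0 < ρ := eventually_mem_nhdsWithin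
  have hρ0 : ∀ᶠ ρ in nhdsWithin x0 (Set.Ioi x0), ρ < b := nhdsWithin_le_nhds (gt_mem_nhds hb)
  obtain ⟨ρ, h4, h5, h6⟩ := (hρ.and (hρ1.and hρ0)).exists
  exact ⟨ρ, θ, w, h5, h6, h3, h2, hw0, fun f => (h4 f).le⟩

end Pool.Agent.SSE
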