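import Pool.Agent.helper52.SSE.Core

/-!
# SSE project (`MP_c782ad_an`, `S06105`): reduction to primitive matrices with spectral radius `> 1`

`core_reduction`: a matrix shift equivalent to a primitive matrix is strong shift equivalent to a primitive
matrix. `fin_of_main`: the statement of `S06105` follows from the case in which `A` and `B` are primitive and some
power of `A` has an entry `≥ 2`.
-/

set_option autoImplicit false

namespace Pool.Agent.SSE

open Pool.Agent.helper52.SSE Matrix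

/-- some positive power has only positive entries -/
def Prim {n : ℕ} (A : Matrix (Fin n) (Fin n) ℕ) : Prop := ∃ k, 0 < k ∧ ∀ i j, 0 < (A ^ k) i j

theorem SEl_refl {n : ℕ} (A : Matrix (Fin n) (Fin n) ℕ) : SEl 1 A A :=
  ⟨A, 1, one_pos, by simp, by simp, rfl, by simp⟩

theorem SEl_symm {l n m : ℕ} {A : Matrix (Fin n) (Fin n) ℕ} {B : Matrix (Fin m) (Fin m) ℕ}
    (h : SEl l A B) : SEl l B A := by
  obtain ⟨R, S, hl, h1, h2, h3, h4⟩ := h
  exact ⟨S, R, hl, h2, h1, h4.symm, h3.symm⟩

theorem SEl_trans {l l' n m p : ℕ} {A : Matrix (Fin n) (Fin n) ℕ} {B : Matrix (Fin m) (Fin m) ℕ}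
    {D : Matrix (Fin p) (Fin p) ℕ} (h : SEl l A B) (h' : SEl l' B D) : SEl (l + l') A D := by
  obtain ⟨R, S, hl, h1, h2, h3, h4⟩ := h
  obtain ⟨R', S', hl', h1', h2', h3', h4'⟩ := h'
  refine ⟨R * R', S' * S, by omega, ?_, ?_, ?_, ?_⟩
  · calc A ^ (l + l') = A ^ l' * A ^ l := by rw [← pow_add, add_comm]
      _ = A ^ l' * R * S := by rw [h1, Matrix.mul_assoc]
      _ = R * B ^ l' * S := by rw [pow_comm' h3]
      _ = R * R' * (S' * S) := by rw [h1']; simp only [Matrix.mul_assoc]
  · calc D ^ (l + l') = D ^ l * D ^ l' := by rw [← pow_add]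
      _ = D ^ l * S' * R' := by rw [h2', Matrix.mul_assoc]
      _ = S' * B ^ l * R' := by rw [pow_comm'' h4']
      _ = S' * S * (R * R') := by rw [h2]; simp only [Matrix.mul_assoc]
  · rw [← Matrix.mul_assoc, h3, Matrix.mul_assoc, h3', Matrix.mul_assoc]
  · rw [Matrix.mul_assoc, h4, ← Matrix.mul_assoc, h4', Matrix.mul_assoc]

theorem SE_of_SSE {X Y : NM} (h : SSE X Y) : ∃ l, SEl l X.2 Y.2 := by
  induction h with
  | rel X Y h =>
    obtain ⟨R, S, h1, h2⟩ := h
    refine ⟨1, R, S, one_pos, by rw [pow_one, h1], by rw [pow_one, h2], ?_, ?_⟩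
    · rw [h1, h2, Matrix.mul_assoc]
    · rw [h1, h2, Matrix.mul_assoc]
  | refl X => exact ⟨1, SEl_refl _⟩
  | symm X Y _ ih =>
    obtain ⟨l, hl⟩ := ih
    exact ⟨l, SEl_symm hl⟩
  | trans X Y Z _ _ ih1 ih2 =>
    obtain ⟨l, hl⟩ := ih1
    obtain ⟨l', hl'⟩ := ih2
    exact ⟨l + l', SEl_trans hl hl'⟩

section
variable {m K : ℕ} {B : Matrix (Fin m) (Fin m) ℕ}

theorem core_between (hR : Rect B K) {a b : ℕ} {u w v : Fin m} (hu : u ∈ core B K)
    (hv : v ∈ core B K) (h1 : 0 < (B ^ a) u w) (h2 : 0 < (B ^ b) w v) : w ∈ core B K := by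
  have e1 : ∀ (x y : Fin m) (t : ℕ), K ≤ t → 0 < (B ^ t) x y →
      (∃ z, 0 < (B ^ K) x z) ∧ ∃ z, 0 < (B ^ K) z y := by
    intro x y t ht hxy
    obtain ⟨r, rfl⟩ : ∃ r, t = K + r := ⟨t - K, by omega⟩
    constructor
    · rw [pow_add, Matrix.mul_apply] at hxy
      obtain ⟨z, -, hz⟩ := Finset.exists_ne_zero_of_sum_ne_zero hxy.ne'
      exact ⟨z, Nat.pos_of_ne_zero (left_ne_zero_of_mul hz)⟩
    · rw [add_comm, pow_add, Matrix.mul_apply] at hxy
      obtain ⟨z, -, hz⟩ := Finset.exists_ne_zero_of_sum_ne_zero hxy.ne'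
      exact ⟨z, Nat.pos_of_ne_zero (right_ne_zero_of_mul hz)⟩
  have h3 : 0 < (B ^ (K + a)) u w := pow_pos_of (core_pos hR hu hu) h1
  have h4 : 0 < (B ^ (b + K)) w v := pow_pos_of h2 (core_pos hR hv hv)
  obtain ⟨-, z, hz⟩ := e1 _ _ _ (Nat.le_add_right _ _) h3
  obtain ⟨⟨z', hz'⟩, -⟩ := e1 _ _ _ (Nat.le_add_left _ _) h4
  exact mem_core.2 (hR w z' z w hz' hz)

theorem rest_pow (hR : Rect B K) (t : ℕ) (u v : core B K) :
    ((rest B (core B K)) ^ t) u v = (B ^ t) u v := by
  induction t generalizing u with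
  | zero =>
    simp only [pow_zero, Matrix.one_apply]
    by_cases h : u = v
    · simp [h]
    · rw [if_neg h, if_neg (fun h' => h (Subtype.ext h'))]
  | succ t ih =>
    rw [pow_succ', pow_succ', Matrix.mul_apply, Matrix.mul_apply]
    rw [← Finset.sum_subset (Finset.subset_univ (core B K))]
    · rw [← Finset.sum_coe_sort (core B K) (fun w => B u w * (B ^ t) w v)]
      refine Finset.sum_congr rfl fun w _ => ?_
      rw [ih]; rfl
    · intro w _ hw
      by_contra hne
      apply hw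
      have h1 : 0 < (B ^ 1) u w := by
        rw [pow_one]; exact Nat.pos_of_ne_zero (left_ne_zero_of_mul hne)
      exact core_between hR u.2 v.2 h1 (Nat.pos_of_ne_zero (right_ne_zero_of_mul hne))

theorem prim_core (hK : 0 < K) (hR : Rect B K) : Prim (toNM (rest B (core B K))).2 := by
  refine ⟨K, hK, ?_⟩
  intro i j
  set e := (Fintype.equivFin (core B K)).symm with he
  have h : (toNM (rest B (core B K))).2 ^ K = ((rest B (core B K)) ^ K).submatrix e e := by
    have := map_pow (reindexAlgEquiv ℕ ℕ e.symm) (rest B (core B K)) K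
    simp only [coe_reindexAlgEquiv, reindex_apply, Equiv.symm_symm] at this
    exact this.symm
  rw [h]
  show 0 < ((rest B (core B K)) ^ K) (e i) (e j)
  rw [rest_pow hR]
  exact core_pos hR (e i).2 (e j).2

end

/-- a matrix shift equivalent to a primitive one is strong shift equivalent to a primitive one -/
theorem core_reduction {n m : ℕ} {A : Matrix (Fin n) (Fin n) ℕ} {B : Matrix (Fin m) (Fin m) ℕ}
    (hn : 0 < n) (hA : Prim A) (h : SE A B) :
    ∃ (c : ℕ) (B' : Matrix (Fin c) (Fin c) ℕ), 0 < c ∧ Prim B' ∧ SSE ⟨m, B⟩ ⟨c, B'⟩ ∧ SE A B' := by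
  obtain ⟨l, hl⟩ := h
  obtain ⟨k, hk, hpos⟩ := hA
  have hl0 : 0 < l := hl.choose_spec.choose_spec.1
  have hR := rect_of hl hpos
  have hK : 0 < k + l := by omega
  have hs := sse_self hK hR
  refine ⟨_, (toNM (rest B (core B (k + l)))).2, ?_, prim_core hK hR, hs, ?_⟩
  · -- the core is nonempty
    show 0 < Fintype.card (core B (k + l))
    rw [Fintype.card_pos_iff]
    have hrow : ∀ t, ∀ i j, 0 < (A ^ (k + t)) i j := by
      intro t
      induction t with
      | zero => exact hpos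
      | succ t ih =>
        intro i j
        obtain ⟨k', rfl⟩ : ∃ k', k = k' + 1 := ⟨k - 1, by omega⟩
        have h1 := hpos i j
        rw [pow_succ', Matrix.mul_apply] at h1
        obtain ⟨w, -, hw⟩ := Finset.exists_ne_zero_of_sum_ne_zero h1.ne'
        have h2 : 0 < (A ^ 1) i w := by
          rw [pow_one]; exact Nat.pos_of_ne_zero (left_ne_zero_of_mul hw)
        have h3 := pow_pos_of h2 (ih w j)
        rwa [show 1 + (k' + 1 + t) = k' + 1 + (t + 1) by ring] at h3
    have h1 : 0 < (A ^ (k + l)).trace := by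
      rw [Matrix.trace]
      exact Finset.sum_pos' (fun _ _ => Nat.zero_le _) ⟨⟨0, hn⟩, Finset.mem_univ _, hrow l _ _⟩
    rw [trace_eq hl (k + l) (by omega), Matrix.trace] at h1
    obtain ⟨u, -, hu⟩ := Finset.exists_ne_zero_of_sum_ne_zero h1.ne'
    exact ⟨⟨u, mem_core.2 (Nat.pos_of_ne_zero hu)⟩⟩
  · obtain ⟨l', hl'⟩ := SE_of_SSE hs
    exact ⟨l + l', SEl_trans hl hl'⟩

/-- the set of strong shift equivalence classes of a set of matrices is finite -/
def FinCl (P : NM → Prop) : Prop :=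
  ∃ (N : ℕ) (C : Fin N → NM), ∀ X : NM, P X → ∃ i, SSE X (C i)

/-- the main case: `A` and `B` primitive, and some power of `A` has an entry `≥ 2` -/
def MainCase : Prop :=
  ∀ (n : ℕ) (A : Matrix (Fin n) (Fin n) ℕ), 0 < n → Prim A → (∃ k i j, 2 ≤ (A ^ k) i j) →
    FinCl fun X => 0 < X.1 ∧ Prim X.2 ∧ SE A X.2

theorem fin_of_main (H : MainCase) :
    ∀ (n : ℕ) (A : Matrix (Fin n) (Fin n) ℕ), 0 < n → (∃ k : ℕ, ∀ i j, 0 < (A ^ k) i j) →
    ∃ (N : ℕ) (C : Fin N → Σ m : ℕ, Matrix (Fin m) (Fin m) ℕ),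
      ∀ (m : ℕ) (B : Matrix (Fin m) (Fin m) ℕ),
        (∃ (l : ℕ) (R : Matrix (Fin n) (Fin m) ℕ) (S : Matrix (Fin m) (Fin n) ℕ),
          0 < l ∧ A ^ l = R * S ∧ B ^ l = S * R ∧ A * R = R * B ∧ S * A = B * S) →
        ∃ i : Fin N, Relation.EqvGen
          (fun X Y : Σ p : ℕ, Matrix (Fin p) (Fin p) ℕ =>
            ∃ (R : Matrix (Fin X.1) (Fin Y.1) ℕ) (S : Matrix (Fin Y.1) (Fin X.1) ℕ),
              X.2 = R * S ∧ Y.2 = S * R)
          ⟨m, B⟩ (C i) := by
  intro n A hn hA
  by_cases hP : Prim A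
  · -- `A` primitive: it suffices to treat primitive `B`
    suffices h : FinCl fun X => 0 < X.1 ∧ Prim X.2 ∧ SE A X.2 by
      obtain ⟨N, C, hC⟩ := h
      refine ⟨N, C, fun m B hB => ?_⟩
      obtain ⟨c, B', hc, hB', hs, hSE⟩ := core_reduction hn hP (show SE A B from hB)
      obtain ⟨i, hi⟩ := hC ⟨c, B'⟩ ⟨hc, hB', hSE⟩
      exact ⟨i, Relation.EqvGen.trans _ _ _ hs hi⟩
    by_cases hbig : ∃ k i j, 2 ≤ (A ^ k) i j
    · exact H n A hn hP hbig
    · push Not at hbig
      -- `A = (1)`
      obtain ⟨k, hk, hpos⟩ := hP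
      have hone : ∀ i j, (A ^ k) i j = 1 := fun i j => by
        have := hbig k i j; have := hpos i j; omega
      have hn1 : n = 1 := by
        by_contra hne
        have h2 : (A ^ (k + k)) ⟨0, hn⟩ ⟨0, hn⟩ = n := by
          rw [pow_add, Matrix.mul_apply]
          simp [hone]
        have := hbig (k + k) ⟨0, hn⟩ ⟨0, hn⟩
        omega
      subst hn1
      have htr : ∀ t, 1 ≤ t → (A ^ t).trace = 1 := by
        intro t ht
        have hA1 : A 0 0 = 1 := by
          have h1 : A 0 0 ≤ 1 := by have := hbig 1 0 0; rw [pow_one] at this; omega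
          have h2 : A 0 0 ≠ 0 := by
            intro h0
            have h3 : A = 0 := by ext i j; fin_cases i; fin_cases j; simpa using h0
            have := hpos 0 0
            rw [h3, zero_pow (by omega)] at this
            simp at this
          omega
        have h3 : A = 1 := by ext i j; fin_cases i; fin_cases j; simpa using hA1
        rw [h3, one_pow]; simp
      refine ⟨1, fun _ => ⟨1, 1⟩, ?_⟩
      rintro ⟨c, B⟩ ⟨hc, ⟨K, hK, hBK⟩, l, hl⟩
      refine ⟨0, ?_⟩
      simp only at hc hBK hl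
      have hc1 : c = 1 := by
        have h1 : (B ^ K).trace = 1 := by rw [← trace_eq hl K hK, htr K hK]
        have h2 : c ≤ (B ^ K).trace := by
          rw [Matrix.trace]
          calc c = ∑ _i : Fin c, 1 := by simp
            _ ≤ _ := Finset.sum_le_sum fun i _ => hBK i i
        omega
      subst hc1
      have hB1 : B = 1 := by
        have h1 : B.trace = 1 := by
          have := trace_eq hl 1 le_rfl
          rw [htr 1 le_rfl, pow_one] at this
          exact this.symm
        ext i j; fin_cases i; fin_cases j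
        simpa [Matrix.trace] using h1
      rw [hB1]
      exact Relation.EqvGen.refl _
  · -- `A = (0)`
    obtain ⟨k, hk⟩ := hA
    have hk0 : k = 0 := by
      by_contra hne
      exact hP ⟨k, Nat.pos_of_ne_zero hne, hk⟩
    subst hk0
    have hn1 : n = 1 := by
      by_contra hne
      have h1 := hk ⟨0, hn⟩ ⟨1, by omega⟩
      simp at h1
    subst hn1
    have hA0 : A = 0 := by
      by_contra hne
      apply hP
      refine ⟨1, one_pos, ?_⟩
      intro i j
      rw [pow_one]
      apply Nat.pos_of_ne_zero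
      intro h0
      apply hne
      ext a b
      fin_cases a; fin_cases b; fin_cases i; fin_cases j
      simpa using h0
    refine ⟨1, fun _ => ⟨0, 0⟩, ?_⟩
    rintro m B ⟨l, R, S, hl, h1, h2, h3, h4⟩
    refine ⟨0, ?_⟩
    have hB : B ^ (l + l) = 0 := by
      have h5 : R * S = 0 := by rw [← h1, hA0, zero_pow (by omega)]
      rw [pow_add, h2]
      calc S * R * (S * R) = S * (R * S) * R := by simp only [Matrix.mul_assoc]
        _ = 0 := by rw [h5]; simp
    have hR : Rect B (l + l) := by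
      intro u v w z h
      rw [hB] at h; simp at h
    have hs := sse_self (by omega) hR
    have hcore : core B (l + l) = ∅ := by
      ext u; simp [mem_core, hB]
    have h6 : toNM (rest B (core B (l + l))) = (⟨0, 0⟩ : NM) := by
      have hcard : Fintype.card (core B (l + l)) = 0 := by simp [hcore]
      have : ∀ (p : ℕ) (Y : Matrix (Fin p) (Fin p) ℕ), p = 0 → (⟨p, Y⟩ : NM) = ⟨0, 0⟩ := by
        intro p Y hp
        subst hp
        congr 1
        exact Subsingleton.elim _ _
      exact this _ _ hcard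
    rw [h6] at hs
    exact hs

end Pool.Agent.SSE
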