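import Pool.Agent.helper52.SSE.Main

/-!
# SSE project (`MP_c782ad_an`, `S06105`): the degenerate branch `n = 1`, `A = [0]` or `[1]`

The frozen statement allows `k = 0` in `∀ i j, 0 < (A ^ k) i j`, so for `n = 1` every matrix counts as primitive.
`finite_degenerate`: the conclusion for `A = [0]`, `A = [1]`.
`growth_of_primitive`: in all other cases some power of `A` has all entries `≥ 2`.
-/

set_option autoImplicit false

namespace Pool.Agent.SSE

open Pool.Agent.helper52.SSE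

/-- the conclusion of `S06105` for the `1 × 1` matrices `[0]` and `[1]` -/
theorem finite_degenerate (A : Matrix (Fin 1) (Fin 1) ℕ) (hA : A 0 0 ≤ 1) :
    ∃ (N : ℕ) (C : Fin N → NM), ∀ (m : ℕ) (B : Matrix (Fin m) (Fin m) ℕ),
      SE A B → ∃ i : Fin N, SSE ⟨m, B⟩ (C i) := by
  have hfin := small_finite 1
  refine ⟨hfin.toFinset.card, fun i => (hfin.toFinset.equivFin.symm i).1, ?_⟩
  intro m B h
  obtain ⟨l, hl⟩ := h
  have hl0 : 0 < l := hl.choose_spec.choose_spec.1
  have hpos : ∀ i j : Fin 1, 0 < (A ^ 0) i j := by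
    intro i j
    rw [pow_zero, Subsingleton.elim i j, Matrix.one_apply_eq]
    exact Nat.one_pos
  have hR := rect_of hl hpos
  have htr : ∀ t : ℕ, (A ^ t).trace ≤ 1 := by
    intro t
    have h1 : ∀ t : ℕ, (A ^ t) 0 0 = (A 0 0) ^ t := by
      intro t
      induction t with
      | zero => simp
      | succ t ih => rw [pow_succ, Matrix.mul_apply, Fin.sum_univ_one, ih, pow_succ]
    rw [Matrix.trace_fin_one, h1]
    exact pow_le_one' hA t
  set K := 0 + l with hKdef
  have hK : 0 < K := by omega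
  have hBtr : ∀ t : ℕ, 0 < t → (B ^ t).trace ≤ 1 := fun t ht => by
    rw [← trace_eq hl t ht]
    exact htr t
  have hcard : (core B K).card ≤ 1 := by
    calc (core B K).card = ∑ i ∈ core B K, 1 := by simp
      _ ≤ ∑ i ∈ core B K, (B ^ K) i i := Finset.sum_le_sum fun i hi => mem_core.1 hi
      _ ≤ ∑ i, (B ^ K) i i := Finset.sum_le_sum_of_subset (Finset.subset_univ _)
      _ ≤ 1 := hBtr K hK
  have hsub : ∀ i ∈ core B K, ∀ j ∈ core B K, i = j := fun i hi j hj =>
    Finset.card_le_one.1 hcard i hi j hj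
  have hX : toNM (rest B (core B K)) ∈ Small 1 := by
    refine ⟨?_, fun i j => ?_⟩
    · show Fintype.card (core B K) ≤ _
      rwa [Fintype.card_coe]
    · have hi := Subtype.coe_prop ((Fintype.equivFin (core B K)).symm i)
      have hj := Subtype.coe_prop ((Fintype.equivFin (core B K)).symm j)
      have e := hsub _ hi _ hj
      show B ((Fintype.equivFin (core B K)).symm i : Fin m)
        ((Fintype.equivFin (core B K)).symm j : Fin m) ≤ 1
      rw [← e]
      have := hBtr 1 Nat.one_pos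
      rw [pow_one] at this
      exact (diag_le_trace B _).trans this
  refine ⟨hfin.toFinset.equivFin ⟨_, hfin.mem_toFinset.2 hX⟩, ?_⟩
  simpa using sse_self hK hR

/-- in all other cases some power of `A` has all entries at least `2` -/
theorem growth_of_primitive {n : ℕ} (A : Matrix (Fin n) (Fin n) ℕ) (hn : 0 < n)
    (hA : ∃ k : ℕ, ∀ i j, 0 < (A ^ k) i j) :
    (∃ h : n = 1, A (h ▸ 0) (h ▸ 0) ≤ 1) ∨ ∃ p : ℕ, 0 < p ∧ ∀ i j, 2 ≤ (A ^ p) i j := by
  obtain ⟨k, hk⟩ := hA
  by_cases h1 : n = 1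
  · subst h1
    by_cases h2 : A 0 0 ≤ 1
    · exact Or.inl ⟨rfl, h2⟩
    · refine Or.inr ⟨1, Nat.one_pos, fun i j => ?_⟩
      rw [pow_one, Subsingleton.elim i 0, Subsingleton.elim j 0]
      omega
  · have h2 : 2 ≤ n := by omega
    have hk0 : 0 < k := by
      rcases Nat.eq_zero_or_pos k with rfl | h
      · have := hk ⟨0, by omega⟩ ⟨1, by omega⟩
        rw [pow_zero, Matrix.one_apply_ne (by simp)] at this
        exact absurd this (lt_irrefl _)
      · exact h
    refine Or.inr ⟨k + k, by omega, fun i j => ?_⟩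
    rw [pow_add, Matrix.mul_apply]
    calc 2 ≤ n := h2
      _ = ∑ _x : Fin n, 1 := by simp
      _ ≤ ∑ x : Fin n, (A ^ k) i x * (A ^ k) x j :=
        Finset.sum_le_sum fun x _ => Nat.succ_le_of_lt (Nat.mul_pos (hk i x) (hk x j))

/-- reduction of the frozen statement to matrices with a power `≥ 2` -/
theorem frozen_of_growth
    (main : ∀ (n : ℕ) (A : Matrix (Fin n) (Fin n) ℕ), 0 < n →
      (∃ p : ℕ, 0 < p ∧ ∀ i j, 2 ≤ (A ^ p) i j) →
      ∃ (N : ℕ) (C : Fin N → NM), ∀ (m : ℕ) (B : Matrix (Fin m) (Fin m) ℕ),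
        SE A B → ∃ i : Fin N, SSE ⟨m, B⟩ (C i)) :
    ∀ (n : ℕ) (A : Matrix (Fin n) (Fin n) ℕ), 0 < n → (∃ k : ℕ, ∀ i j, 0 < (A ^ k) i j) →
    ∃ (N : ℕ) (C : Fin N → Σ m : ℕ, Matrix (Fin m) (Fin m) ℕ),
      ∀ (m : ℕ) (B : Matrix (Fin m) (Fin m) ℕ),
        (∃ (l : ℕ) (R : Matrix (Fin n) (Fin m) ℕ) (S : Matrix (Fin m) (Fin n) ℕ),
          0 < l ∧ A ^ l = R * S ∧ B ^ l = S * R ∧ A * R = R * B ∧ S * A = B * S) →
        ∃ i : Fin N, Relation.EqvGen
          (fun X Y : Σ p : ℕ, Matrix (Fin p) (Fin p) ℕ =>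
            ∃ (R : Matrix (Fin X.1) (Fin Y.1) ℕ) (S : Matrix (Fin Y.1) (Fin X.1) ℕ),
              X.2 = R * S ∧ Y.2 = S * R)
          ⟨m, B⟩ (C i) := by
  intro n A hn hA
  rcases growth_of_primitive A hn hA with ⟨h, h1⟩ | h
  · subst h
    exact finite_degenerate A h1
  · exact main n A hn h

end Pool.Agent.SSE
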