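import Pool.Agent.SSE.S1e
import Pool.Agent.helper52.SSE.Defs

/-!
# SSE project, level 0: the module of a presentation, transport along a shift equivalence
-/

set_option autoImplicit false

open scoped BigOperators
open Matrix Polynomial

namespace Pool.Agent.SSE

open Pool.Agent.helper52.SSE

attribute [local instance] Classical.propDecidable

section

variable {ι : Type} [Fintype ι]

/-- the module presented by `1 - P`, with the functionals given by right eigenvectors -/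
theorem exists_pres (P : Matrix ι ι ℕ[X]) (hP : IsPres P) :
    ∃ (K : Type) (_ : AddCommGroup K) (_ : Module ℤ[X] K) (g : ι → K),
      PresOf (IP P).det g P ∧ ∀ (r : ι → ℝ) (x0 : ℝ), (∀ i, r i = ∑ j, evp x0 (P i j) * r j) →
        ∃ τ : K →+ ℝ, (∀ z, τ ((X : ℤ[X]) • z) = x0 * τ z) ∧ ∀ i, τ (g i) = r i := by
  set N : Submodule ℤ[X] (ι → ℤ[X]) := Submodule.span ℤ[X] (Set.range fun i => IP P i) with hN
  have hmk : ∀ v : ι → ℤ[X], ∑ j, v j • (N.mkQ (Pi.single j 1)) = N.mkQ v := by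
    intro v
    have h1 : v = ∑ j, v j • (Pi.single j 1 : ι → ℤ[X]) := by
      ext1 k
      simp [Finset.sum_apply, Pi.single_apply]
    conv_rhs => rw [h1]
    rw [map_sum]
    simp only [map_smul]
  refine ⟨(ι → ℤ[X]) ⧸ N, inferInstance, inferInstance, fun j => N.mkQ (Pi.single j 1),
    ⟨hP, ⟨fun i => ?_, fun v hv => ?_, fun z => ?_, rfl⟩⟩, fun r x0 hr => ?_⟩
  · rw [hmk (IP P i)]
    exact (Submodule.Quotient.mk_eq_zero N).2 (Submodule.subset_span ⟨i, rfl⟩)
  · rw [hmk v] at hv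
    have h1 : v ∈ N := (Submodule.Quotient.mk_eq_zero N).1 hv
    obtain ⟨c, hc⟩ := (Submodule.mem_span_range_iff_exists_fun ℤ[X]).1 h1
    refine ⟨c, ?_⟩
    rw [← hc]
    ext1 k
    simp [Matrix.vecMul, dotProduct, Finset.sum_apply]
  · obtain ⟨v, rfl⟩ := N.mkQ_surjective z
    exact ⟨v, (hmk v).symm⟩
  · set ev : ℤ[X] →+* ℝ := Polynomial.eval₂RingHom (Int.castRingHom ℝ) x0 with hev
    set f : (ι → ℤ[X]) →+ ℝ :=
      { toFun := fun v => ∑ j, ev (v j) * r j
        map_zero' := by simp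
        map_add' := fun v w => by
          simp only [Pi.add_apply, map_add, add_mul, Finset.sum_add_distrib] } with hf
    have hfs : ∀ (p : ℤ[X]) (v : ι → ℤ[X]), f (p • v) = ev p * f v := by
      intro p v
      change ∑ j, ev ((p • v) j) * r j = ev p * ∑ j, ev (v j) * r j
      rw [Finset.mul_sum]
      refine Finset.sum_congr rfl fun j _ => ?_
      rw [Pi.smul_apply, smul_eq_mul, map_mul]
      ring
    have hfrow : ∀ i, f (IP P i) = 0 := by
      intro i
      change ∑ j, ev (IP P i j) * r j = 0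
      have h1 : ∀ j, ev (IP P i j) * r j = (if i = j then r j else 0) - evp x0 (P i j) * r j := by
        intro j
        have h2 : ev (toZ (P i j)) = evp x0 (P i j) := by
          unfold toZ evp
          rw [hev, coe_eval₂RingHom, eval₂_map]
          congr 1
        unfold IP
        split_ifs with hij
        · rw [map_sub, map_one, h2]
          ring
        · rw [map_sub, map_zero, h2]
          ring
      simp only [h1, Finset.sum_sub_distrib, Finset.sum_ite_eq, Finset.mem_univ, if_true]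
      rw [hr i]
      exact sub_self _
    have hfN : ∀ v ∈ N.toAddSubgroup, f v = 0 := by
      intro v hv
      obtain ⟨c, hc⟩ := (Submodule.mem_span_range_iff_exists_fun ℤ[X]).1 (show v ∈ N from hv)
      rw [← hc, map_sum]
      exact Finset.sum_eq_zero fun i _ => by rw [hfs, hfrow, mul_zero]
    set τ : ((ι → ℤ[X]) ⧸ N) →+ ℝ := QuotientAddGroup.lift N.toAddSubgroup f hfN with hτ
    have hτm : ∀ v, τ (N.mkQ v) = f v := fun v => rfl
    refine ⟨τ, fun z => ?_, fun i => ?_⟩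
    · obtain ⟨v, rfl⟩ := N.mkQ_surjective z
      rw [← map_smul, hτm, hτm, hfs]
      congr 1
      rw [hev, coe_eval₂RingHom, eval₂_X]
    · rw [hτm]
      change ∑ j, ev ((Pi.single i 1 : ι → ℤ[X]) j) * r j = r i
      rw [Finset.sum_eq_single i]
      · simp
      · intro j _ hj
        rw [Pi.single_eq_of_ne hj, map_zero, zero_mul]
      · intro h
        exact absurd (Finset.mem_univ _) h

end

section

variable {ι : Type} [Fintype ι]
variable {K : Type} [AddCommGroup K] [Module ℤ[X] K] {δ : ℤ[X]}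

/-- isomorphic modules -/
theorem PresOf.map_equiv {g : ι → K} {P : Matrix ι ι ℕ[X]} (h : PresOf δ g P) {K' : Type}
    [AddCommGroup K'] [Module ℤ[X] K'] (f : K ≃ₗ[ℤ[X]] K') : PresOf δ (fun i => f (g i)) P := by
  have key : ∀ v : ι → ℤ[X], ∑ j, v j • f (g j) = f (∑ j, v j • g j) := by
    intro v
    rw [map_sum]
    simp only [map_smul]
  refine ⟨h.pres, ⟨fun i => ?_, fun v hv => ?_, fun z => ?_, h.relOf.det⟩⟩
  · rw [key (IP P i), h.relOf.rel i, map_zero]
  · rw [key v] at hv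
    exact h.relOf.span v ((LinearEquiv.map_eq_zero_iff f).1 hv)
  · obtain ⟨v, hv⟩ := h.relOf.top (f.symm z)
    refine ⟨v, ?_⟩
    rw [key v, ← hv, LinearEquiv.apply_symm_apply]

/-- the determinant kills the module -/
theorem PresOf.det_smul {g : ι → K} {P : Matrix ι ι ℕ[X]} (h : PresOf δ g P) (z : K) :
    δ • z = 0 := by
  have hg : ∀ i, δ • g i = 0 := by
    intro i
    have h1 := rel_vecMul h.relOf.rel ((IP P).adjugate i)
    have h2 : ((IP P).adjugate i) ᵥ* (IP P) = fun j => if i = j then δ else 0 := by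
      ext1 j
      have : (((IP P).adjugate i) ᵥ* (IP P)) j = ((IP P).adjugate * IP P) i j := rfl
      rw [this, Matrix.adjugate_mul, Matrix.smul_apply, Matrix.one_apply, h.relOf.det]
      split_ifs <;> simp
    rw [h2] at h1
    simpa [ite_smul] using h1
  obtain ⟨v, rfl⟩ := h.relOf.top z
  rw [Finset.smul_sum]
  refine Finset.sum_eq_zero fun j _ => ?_
  rw [smul_comm, hg, smul_zero]

/-- `X` acts bijectively -/
theorem PresOf.X_equiv {g : ι → K} {P : Matrix ι ι ℕ[X]} (h : PresOf δ g P) :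
    ∃ f : K ≃ₗ[ℤ[X]] K, ∀ z, f z = (X : ℤ[X]) • z := by
  obtain ⟨d, hd⟩ : ∃ d : ℤ[X], δ = 1 + X * d := by
    have h1 : X ∣ δ - 1 := by
      rw [Polynomial.X_dvd_iff, Polynomial.coeff_sub, h.coeff_zero]
      simp
    obtain ⟨d, hd⟩ := h1
    exact ⟨d, by rw [← hd]; ring⟩
  have hz : ∀ z : K, ((X : ℤ[X]) * (-d)) • z = z := by
    intro z
    have h1 := h.det_smul z
    rw [hd, add_smul, one_smul] at h1
    rw [mul_neg, neg_smul]
    exact (eq_neg_of_add_eq_zero_left h1).symm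
  refine ⟨LinearEquiv.ofLinearMap (LinearMap.lsmul ℤ[X] K (X : ℤ[X]))
    (LinearMap.lsmul ℤ[X] K (-d)) ?_ ?_, fun z => rfl⟩
  · ext z
    change (X : ℤ[X]) • ((-d) • z) = z
    rw [smul_smul, hz]
  · ext z
    change (-d) • ((X : ℤ[X]) • z) = z
    rw [smul_smul, mul_comm, hz]

/-- powers of `X` act bijectively: the classes may be divided by `X ^ k` -/
theorem PresOf.div_X {g : ι → K} {P : Matrix ι ι ℕ[X]} (h : PresOf δ g P) (k : ℕ) :
    ∃ g' : ι → K, (∀ i, (X ^ k : ℤ[X]) • g' i = g i) ∧ PresOf δ g' P := by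
  induction k with
  | zero => exact ⟨g, fun i => by simp, h⟩
  | succ k ih =>
    obtain ⟨g', hg', h'⟩ := ih
    obtain ⟨f, hf⟩ := h'.X_equiv
    refine ⟨fun i => f.symm (g' i), fun i => ?_, h'.map_equiv f.symm⟩
    rw [pow_succ, mul_smul, ← hf, LinearEquiv.apply_symm_apply, hg']

end

section

variable {K : Type} [AddCommGroup K] [Module ℤ[X] K] {δ : ℤ[X]}
variable {α β γ : Type} [Fintype α] [Fintype β] [Fintype γ] {l : ℕ} {A : Matrix α α ℕ}
  {B : Matrix β β ℕ}

/-- the polynomial matrix of a matrix over `ℕ` -/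
noncomputable def pm (R : Matrix α β ℕ) : Matrix α β ℤ[X] :=
  R.map (Nat.castRingHom ℤ[X])

lemma pm_mul (R : Matrix α β ℕ) (S : Matrix β γ ℕ) :
    pm (R * S) = pm R * pm S := Matrix.map_mul

lemma pm_pow (R : Matrix α α ℕ) (k : ℕ) : pm (R ^ k) = pm R ^ k :=
  Matrix.map_pow R (Nat.castRingHom ℤ[X]) k

lemma IP_ofMat (A : Matrix α α ℕ) : IP (ofMat A) = 1 - (X : ℤ[X]) • pm A := by
  refine Matrix.ext fun i j => ?_
  have h1 : toZ (ofMat A i j) = X * ((A i j : ℕ) : ℤ[X]) := by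
    unfold toZ ofMat
    rw [Polynomial.map_mul, Polynomial.map_C, Polynomial.map_X, mul_comm]
    congr 1
  unfold IP
  rw [h1, Matrix.sub_apply, Matrix.one_apply, Matrix.smul_apply]
  unfold pm
  rw [Matrix.map_apply, smul_eq_mul]
  rfl

/-- the relation of the classes and a combination -/
lemma sum_vecMul (w : α → ℤ[X]) (S : Matrix α β ℤ[X]) (g : β → K) :
    ∑ j, w j • (∑ i, S j i • g i) = ∑ i, (w ᵥ* S) i • g i := by
  simp only [Matrix.vecMul, dotProduct, Finset.sum_smul, Finset.smul_sum, mul_smul]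
  rw [Finset.sum_comm]

/-- the telescoping sum -/
lemma exists_tele (B : Matrix β β ℤ[X]) (l : ℕ) :
    ∃ C : Matrix β β ℤ[X], (1 : Matrix β β ℤ[X]) = C * (1 - B) + B ^ l := by
  induction l with
  | zero => exact ⟨0, by simp⟩
  | succ l ih =>
    obtain ⟨C, hC⟩ := ih
    refine ⟨C + B ^ l, ?_⟩
    have : (C + B ^ l) * (1 - B) + B ^ (l + 1) = C * (1 - B) + B ^ l := by
      rw [add_mul, mul_sub (B ^ l), mul_one, pow_succ]
      abel
    rw [this, ← hC]

/-- TRANSPORT along a shift equivalence -/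
theorem PresOf.of_se {g : α → K} (h : PresOf δ g (ofMat A)) {R : Matrix α β ℕ}
    {S : Matrix β α ℕ} (hA : A ^ l = R * S) (hB : B ^ l = S * R)
    (hR : A * R = R * B) (hS : S * A = B * S) :
    PresOf δ (fun j => ∑ i, (pm S) j i • g i) (ofMat B) := by
  have hR' : pm A * pm R = pm R * pm B := by rw [← pm_mul, hR, pm_mul]
  have hS' : pm S * pm A = pm B * pm S := by rw [← pm_mul, hS, pm_mul]
  have hA' : pm A ^ l = pm R * pm S := by rw [← pm_pow, hA, pm_mul]
  have hB' : pm B ^ l = pm S * pm R := by rw [← pm_pow, hB, pm_mul]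
  have cS : IP (ofMat B) * pm S = pm S * IP (ofMat A) := by
    rw [IP_ofMat, IP_ofMat, Matrix.sub_mul, Matrix.mul_sub, Matrix.one_mul, Matrix.mul_one,
      Matrix.smul_mul, Matrix.mul_smul, hS']
  have cR : IP (ofMat A) * pm R = pm R * IP (ofMat B) := by
    rw [IP_ofMat, IP_ofMat, Matrix.sub_mul, Matrix.mul_sub, Matrix.one_mul, Matrix.mul_one,
      Matrix.smul_mul, Matrix.mul_smul, hR']
  have hrel : ∀ i, ∑ j, IP (ofMat B) i j • (∑ i, (pm S) j i • g i) = 0 := by
    intro i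
    have h1 : (IP (ofMat B) i) ᵥ* (pm S) = ((pm S) i) ᵥ* IP (ofMat A) := by
      ext1 k
      have := congrFun (congrFun cS i) k
      exact this
    rw [sum_vecMul (IP (ofMat B) i) (pm S) g, h1]
    exact rel_vecMul h.relOf.rel _
  have htop : ∀ z : K, ∃ v : β → ℤ[X], z = ∑ j, v j • (∑ i, (pm S) j i • g i) := by
    intro z
    obtain ⟨v, rfl⟩ := h.relOf.top z
    obtain ⟨C, hC⟩ := exists_tele ((X : ℤ[X]) • pm A) l
    rw [← IP_ofMat, _root_.smul_pow, hA'] at hC
    refine ⟨((X : ℤ[X]) ^ l • (v ᵥ* pm R)), ?_⟩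
    rw [sum_vecMul]
    have h1 : v = (v ᵥ* C) ᵥ* IP (ofMat A) + ((X : ℤ[X]) ^ l • (v ᵥ* pm R)) ᵥ* pm S := by
      conv_lhs => rw [← Matrix.vecMul_one v, hC]
      rw [Matrix.vecMul_add, Matrix.vecMul_smul, Matrix.smul_vecMul, Matrix.vecMul_vecMul,
        Matrix.vecMul_vecMul]
    have h2 := rel_vecMul h.relOf.rel (v ᵥ* C)
    calc ∑ j, v j • g j = ∑ j, (((v ᵥ* C) ᵥ* IP (ofMat A)) j +
          (((X : ℤ[X]) ^ l • (v ᵥ* pm R)) ᵥ* pm S) j) • g j := by
            conv_lhs => rw [h1]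
            rfl
      _ = _ := by
        simp only [add_smul, Finset.sum_add_distrib]
        rw [h2, zero_add]
  have hspan : ∀ v : β → ℤ[X], ∑ j, v j • (∑ i, (pm S) j i • g i) = 0 →
      ∃ c : β → ℤ[X], v = c ᵥ* IP (ofMat B) := by
    intro v hv
    rw [sum_vecMul] at hv
    obtain ⟨c, hc⟩ := h.relOf.span _ hv
    obtain ⟨C, hC⟩ := exists_tele ((X : ℤ[X]) • pm B) l
    rw [← IP_ofMat, _root_.smul_pow, hB'] at hC
    refine ⟨v ᵥ* C + (X : ℤ[X]) ^ l • (c ᵥ* pm R), ?_⟩
    conv_lhs => rw [← Matrix.vecMul_one v, hC]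
    have e1 : v ᵥ* (pm S * pm R) = c ᵥ* pm R ᵥ* IP (ofMat B) := by
      rw [← Matrix.vecMul_vecMul v, hc, Matrix.vecMul_vecMul, cR, ← Matrix.vecMul_vecMul]
    rw [Matrix.vecMul_add, Matrix.add_vecMul, Matrix.vecMul_smul, Matrix.smul_vecMul, e1,
      Matrix.vecMul_vecMul v]
  have hrelB : RelOf (IP (ofMat B)).det (fun j => ∑ i, (pm S) j i • g i) (IP (ofMat B)) :=
    ⟨hrel, hspan, htop, rfl⟩
  refine ⟨isPres_ofMat B, hrel, hspan, htop, ?_⟩
  have hPB : PresOf (IP (ofMat B)).det (fun j => ∑ i, (pm S) j i • g i) (ofMat B) :=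
    ⟨isPres_ofMat B, hrelB⟩
  have d1 : δ ∣ (IP (ofMat B)).det := h.relOf.dvd htop _ hrel
  have d2 : (IP (ofMat B)).det ∣ δ := by
    have := hrelB.dvd h.relOf.top _ h.relOf.rel
    rwa [h.relOf.det] at this
  have c1 := h.coeff_zero
  have c2 := hPB.coeff_zero
  obtain ⟨u, hu⟩ := d1
  obtain ⟨w, hw⟩ := d2
  have h1 : δ * (u * w) = δ * 1 := by
    rw [← mul_assoc, ← hu, ← hw, mul_one]
  have h2 : u * w = 1 := mul_left_cancel₀ h.ne_zero h1
  obtain ⟨v, hv⟩ := Polynomial.isUnit_iff.1 (IsUnit.of_mul_eq_one w h2)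
  have h3 : v = 1 := by
    have h4 := congrArg (fun p : ℤ[X] => p.coeff 0) hu
    simp only [Polynomial.mul_coeff_zero, c1, c2, ← hv.2, Polynomial.coeff_C_zero] at h4
    omega
  rw [hu, ← hv.2, h3, Polynomial.C_1, mul_one]

end

end Pool.Agent.SSE
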