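import Pool.Agent.SSE.S1a
import Pool.Agent.SSE.S1e

/-!
# SSE project, hub part: the representation lemma (R)
-/

set_option autoImplicit false

open scoped BigOperators
open Matrix Polynomial Filter

namespace Pool.Agent.SSE

open Pool.Agent.helper52.SSE

attribute [local instance] Classical.propDecidable

variable {ι : Type} [Fintype ι]
variable {K : Type} [AddCommGroup K] [Module ℤ[X] K]

/-- the matrix with real entries -/
noncomputable def rmat (A : Matrix ι ι ℕ) : Matrix ι ι ℝ := A.map (Nat.castRingHom ℝ)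

theorem rmat_pow (A : Matrix ι ι ℕ) (m : ℕ) (i j : ι) : (rmat A ^ m) i j = ((A ^ m) i j : ℝ) := by
  have h1 : rmat A ^ m = (A ^ m).map (Nat.castRingHom ℝ) := by
    unfold rmat
    exact ((Nat.castRingHom ℝ).mapMatrix.map_pow A m).symm
  rw [h1]
  simp

theorem prim_rmat {A : Matrix ι ι ℕ} {p : ℕ} (hp : 0 < p) (hA : ∀ i j, 2 ≤ (A ^ p) i j) :
    PF.Prim (rmat A) p := by
  refine ⟨fun i j => ?_, hp, fun i j => ?_⟩
  · simp [rmat]
  · rw [rmat_pow]
    have := hA i j
    exact_mod_cast (by omega : 0 < (A ^ p) i j)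

section
variable {A : Matrix ι ι ℕ} {e : ι → K}

/-- the generators in terms of each other -/
theorem gen_pow (hrel : ∀ i, ∑ j, IP (ofMat A) i j • e j = 0) (m : ℕ) (i : ι) :
    e i = (X ^ m : ℤ[X]) • ∑ j, ((A ^ m) i j : ℤ[X]) • e j := by
  have h1 : ∀ i, e i = (X : ℤ[X]) • ∑ j, (A i j : ℤ[X]) • e j := by
    intro i
    have h := hrel i
    have h2 : ∀ j, IP (ofMat A) i j • e j = (if i = j then e j else 0) -
        (X : ℤ[X]) • ((A i j : ℤ[X]) • e j) := by
      intro j
      unfold IP ofMat toZ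
      have h3 : (C (A i j) * X : ℕ[X]).map (Nat.castRingHom ℤ) = X * (A i j : ℤ[X]) := by
        rw [Polynomial.map_mul, Polynomial.map_X, Polynomial.map_C, mul_comm]
        simp
      rw [h3, ← mul_smul]
      split_ifs <;> simp [sub_smul]
    simp only [h2, Finset.sum_sub_distrib, Finset.sum_ite_eq, Finset.mem_univ, if_true,
      ← Finset.smul_sum] at h
    exact sub_eq_zero.1 h
  induction m generalizing i with
  | zero =>
    simp only [pow_zero, one_smul, Matrix.one_apply]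
    rw [Finset.sum_eq_single i]
    · simp
    · intro j _ hj
      rw [if_neg (Ne.symm hj)]
      simp
    · intro h
      exact absurd (Finset.mem_univ _) h
  | succ m ih =>
    conv_lhs => rw [ih i]
    rw [pow_succ (X : ℤ[X]), mul_smul]
    congr 1
    have h2 : ∀ j, ((A ^ m) i j : ℤ[X]) • e j =
        (X : ℤ[X]) • ∑ l, (((A ^ m) i j : ℤ[X]) * (A j l : ℤ[X])) • e l := by
      intro j
      conv_lhs => rw [h1 j]
      rw [smul_comm, Finset.smul_sum]
      simp only [mul_smul]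
    simp only [h2, ← Finset.smul_sum]
    congr 1
    rw [Finset.sum_comm]
    refine Finset.sum_congr rfl fun l _ => ?_
    rw [← Finset.sum_smul, pow_succ, Matrix.mul_apply]
    push_cast
    rfl

/-- every element of `K` in degree `L` -/
theorem rep_int (hrel : ∀ i, ∑ j, IP (ofMat A) i j • e j = 0) (w : ι → ℤ[X]) (D : ℕ)
    (hD : ∀ i, (w i).natDegree < D) (L : ℕ) (hL : D ≤ L) :
    ∑ i, w i • e i = (X ^ L : ℤ[X]) • ∑ j,
      ((∑ i, ∑ k ∈ Finset.range D, (w i).coeff k * ((A ^ (L - k)) i j : ℤ) : ℤ) : ℤ[X]) • e j := by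
  have h1 : ∀ i, w i • e i = ∑ k ∈ Finset.range D, (X ^ L : ℤ[X]) • ∑ j,
      (((w i).coeff k * ((A ^ (L - k)) i j : ℤ) : ℤ) : ℤ[X]) • e j := by
    intro i
    conv_lhs => rw [(w i).as_sum_range' D (hD i)]
    rw [Finset.sum_smul]
    refine Finset.sum_congr rfl fun k hk => ?_
    have hk' := Finset.mem_range.1 hk
    rw [← C_mul_X_pow_eq_monomial, mul_smul, gen_pow hrel (L - k) i, ← mul_smul (X ^ k : ℤ[X]),
      ← pow_add, show k + (L - k) = L by omega, smul_comm, Finset.smul_sum]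
    congr 1
    refine Finset.sum_congr rfl fun j _ => ?_
    rw [← mul_smul]
    congr 1
    simp
  have h2 : ∀ j, ((∑ i, ∑ k ∈ Finset.range D, (w i).coeff k * ((A ^ (L - k)) i j : ℤ) : ℤ) : ℤ[X]) •
      e j = ∑ i, ∑ k ∈ Finset.range D, (((w i).coeff k * ((A ^ (L - k)) i j : ℤ) : ℤ) : ℤ[X]) •
      e j := by
    intro j
    rw [Int.cast_sum, Finset.sum_smul]
    refine Finset.sum_congr rfl fun i _ => ?_
    rw [Int.cast_sum, Finset.sum_smul]
  simp only [h1, h2, ← Finset.smul_sum]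
  congr 1
  rw [Finset.sum_comm (s := Finset.univ) (t := Finset.univ)]
  refine Finset.sum_congr rfl fun i _ => ?_
  exact Finset.sum_comm

end

/-- (R): every `z` with `τ z > 0` is `X ^ L` times a positive combination of the generators -/
theorem exists_rep [Nonempty ι] {A : Matrix ι ι ℕ} {p : ℕ} (hp : 0 < p)
    (hA : ∀ i j, 2 ≤ (A ^ p) i j) {e : ι → K} (hrel : ∀ i, ∑ j, IP (ofMat A) i j • e j = 0)
    (htop : ∀ z : K, ∃ v : ι → ℤ[X], z = ∑ j, v j • e j)
    {τ : K →+ ℝ} {x0 : ℝ} (hx0 : 0 < x0) (hτ : ∀ z, τ ((X : ℤ[X]) • z) = x0 * τ z)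
    (hpos : ∀ i, 0 < τ (e i)) :
    ∃ C2 : ℝ, 0 < C2 ∧ ∀ z : K, 0 < τ z → ∀ N : ℕ, ∃ L0, ∀ L, L0 ≤ L → ∃ c : ι → ℕ,
      z = ∑ j, toZ (C (c j) * X ^ L) • e j ∧ (∀ j, N ≤ c j) ∧
      ∀ j, (c j : ℝ) ≤ C2 * τ z * (x0⁻¹) ^ L := by
  have hprim := prim_rmat hp hA
  obtain ⟨lam', v, u, hd⟩ := PF.exists_data hprim
  set r : ι → ℝ := fun i => τ (e i) with hr
  have heig : rmat A *ᵥ r = x0⁻¹ • r := by
    ext i
    have h1 := tau_row hτ i (hrel i)
    have h2 : ∀ j, evp x0 (ofMat A i j) = (A i j : ℝ) * x0 := by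
      intro j
      unfold evp ofMat
      rw [eval₂_mul, eval₂_C, eval₂_X]
      simp
    simp only [h2] at h1
    simp only [Matrix.mulVec, dotProduct, Pi.smul_apply, smul_eq_mul, hr]
    rw [h1, Finset.mul_sum]
    refine Finset.sum_congr rfl fun j _ => ?_
    simp only [rmat, Matrix.map_apply, Nat.coe_castRingHom]
    field_simp
  obtain ⟨i0⟩ := ‹Nonempty ι›
  have : Nonempty ι := ⟨i0⟩
  obtain ⟨hlam, hrv⟩ := hd.unique hprim (fun i => (hpos i).le) ⟨i0, hpos i0⟩ heig
  set lam := x0⁻¹ with hlamdef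
  have hlam0 : 0 < lam := inv_pos.2 hx0
  rw [← hlam] at hd
  have hlam1 : 1 < lam := hd.one_lt (p := p) (fun i j => by
    rw [rmat_pow]; exact_mod_cast hA i j)
  set s := u ⬝ᵥ r with hs
  have hs0 : 0 < s := Finset.sum_pos' (fun l _ => (mul_pos (hd.u_pos l) (hpos l)).le)
    ⟨i0, Finset.mem_univ _, mul_pos (hd.u_pos i0) (hpos i0)⟩
  have hri : ∀ i, r i = s * v i := fun i => by
    have := congrFun hrv i
    simpa using this
  obtain ⟨C, th, hC, hth, hthl, hb⟩ := hd.asymp hprim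
  -- the limit of the powers
  have hlim : ∀ i j, Tendsto (fun m => ((A ^ m) i j : ℝ) / lam ^ m) atTop (nhds (v i * u j)) := by
    intro i j
    have h1 : Tendsto (fun m : ℕ => C * (th / lam) ^ m) atTop (nhds 0) := by
      have := tendsto_pow_atTop_nhds_zero_of_lt_one (r := th / lam) (div_pos hth hlam0).le
        ((div_lt_one hlam0).2 hthl)
      simpa using this.const_mul C
    rw [tendsto_iff_dist_tendsto_zero]
    refine squeeze_zero (fun m => dist_nonneg) (fun m => ?_) h1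
    have h2 := hb m i j
    rw [rmat_pow] at h2
    rw [Real.dist_eq, div_pow, ← mul_div_assoc, le_div_iff₀ (pow_pos hlam0 m),
      ← abs_of_pos (pow_pos hlam0 m), ← abs_mul, abs_of_pos (pow_pos hlam0 m), sub_mul,
      div_mul_cancel₀ _ (pow_pos hlam0 m).ne']
    exact h2
  have hlim' : ∀ i j k, Tendsto (fun L => ((A ^ (L - k)) i j : ℝ) / lam ^ L) atTop
      (nhds ((v i * u j) * (x0 ^ k))) := by
    intro i j k
    have h1 := ((hlim i j).comp (tendsto_sub_atTop_nat k)).mul_const (x0 ^ k)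
    refine h1.congr' ?_
    filter_upwards [eventually_ge_atTop k] with L hL
    simp only [Function.comp]
    have h2 : lam ^ L = lam ^ (L - k) * lam ^ k := by rw [← pow_add]; congr 1; omega
    have h3 : x0 ^ k * lam ^ k = 1 := by rw [← mul_pow, hlamdef, mul_inv_cancel₀ hx0.ne', one_pow]
    rw [h2, div_mul_eq_mul_div, div_eq_div_iff (by positivity) (by positivity)]
    linear_combination (((A ^ (L - k)) i j : ℝ) * lam ^ (L - k)) * h3
  set κ : ι → ℝ := fun j => u j / s with hκ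
  have hκ0 : ∀ j, 0 < κ j := fun j => div_pos (hd.u_pos j) hs0
  set C2 := 2 * ∑ j, κ j with hC2
  have hC20 : 0 < C2 := mul_pos two_pos (Finset.sum_pos (fun j _ => hκ0 j) ⟨i0, Finset.mem_univ _⟩)
  have hκC : ∀ j, 2 * κ j ≤ C2 := fun j => mul_le_mul_of_nonneg_left
    (Finset.single_le_sum (f := κ) (fun l _ => (hκ0 l).le) (Finset.mem_univ j)) (by norm_num)
  refine ⟨C2, hC20, fun z hz N => ?_⟩
  obtain ⟨w, hw⟩ := htop z
  obtain ⟨D, hD⟩ : ∃ D, ∀ i, (w i).natDegree < D := by
    refine ⟨(Finset.univ.sup fun j => (w j).natDegree) + 1, fun j => ?_⟩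
    have : (w j).natDegree ≤ Finset.univ.sup fun j => (w j).natDegree :=
      Finset.le_sup (f := fun j => (w j).natDegree) (Finset.mem_univ j)
    omega
  set cz : ℕ → ι → ℤ := fun L j =>
    ∑ i, ∑ k ∈ Finset.range D, (w i).coeff k * ((A ^ (L - k)) i j : ℤ) with hcz
  have hτz : τ z = s * ∑ i, (∑ k ∈ Finset.range D, ((w i).coeff k : ℝ) * x0 ^ k) * v i := by
    rw [hw, map_sum, Finset.mul_sum]
    refine Finset.sum_congr rfl fun i _ => ?_
    rw [tau_smul hτ, eval₂_eq_sum_range' _ (hD i)]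
    have := hri i
    simp only [hr] at this
    rw [this]
    simp only [eq_intCast]
    ring
  have hczlim : ∀ j, Tendsto (fun L => (cz L j : ℝ) / lam ^ L) atTop (nhds (κ j * τ z)) := by
    intro j
    have h1 : ∀ L, (cz L j : ℝ) / lam ^ L = ∑ i, ∑ k ∈ Finset.range D,
        ((w i).coeff k : ℝ) * (((A ^ (L - k)) i j : ℝ) / lam ^ L) := by
      intro L
      simp only [hcz]
      push_cast
      rw [Finset.sum_div]
      refine Finset.sum_congr rfl fun i _ => ?_
      rw [Finset.sum_div]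
      refine Finset.sum_congr rfl fun k _ => ?_
      rw [mul_div_assoc]
    simp only [h1]
    have h2 : κ j * τ z = ∑ i, ∑ k ∈ Finset.range D,
        ((w i).coeff k : ℝ) * ((v i * u j) * x0 ^ k) := by
      rw [hτz, hκ]
      simp only
      rw [← mul_assoc, div_mul_cancel₀ _ hs0.ne', Finset.mul_sum]
      refine Finset.sum_congr rfl fun i _ => ?_
      rw [Finset.sum_mul, Finset.mul_sum]
      refine Finset.sum_congr rfl fun k _ => ?_
      ring
    rw [h2]
    exact tendsto_finsetSum _ fun i _ => tendsto_finsetSum _ fun k _ =>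
      (hlim' i j k).const_mul _
  -- large `L`
  have hev : ∀ᶠ L in atTop, ∀ j, (N : ℝ) ≤ cz L j ∧ (cz L j : ℝ) ≤ C2 * τ z * lam ^ L := by
    rw [Filter.eventually_all]
    intro j
    have hpj : 0 < κ j * τ z := mul_pos (hκ0 j) hz
    have h1 := (hczlim j).eventually (lt_mem_nhds (show κ j * τ z / 2 < κ j * τ z by linarith))
    have h2 := (hczlim j).eventually (gt_mem_nhds (show κ j * τ z < 2 * (κ j * τ z) by linarith))
    have h3 : ∀ᶠ L : ℕ in atTop, (N : ℝ) ≤ κ j * τ z / 2 * lam ^ L :=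
      ((tendsto_pow_atTop_atTop_of_one_lt hlam1).const_mul_atTop (half_pos hpj)).eventually_ge_atTop _
    filter_upwards [h1, h2, h3] with L e1 e2 e3
    have hlL := pow_pos hlam0 L
    rw [lt_div_iff₀ hlL] at e1
    rw [div_lt_iff₀ hlL] at e2
    refine ⟨by linarith, e2.le.trans ?_⟩
    refine mul_le_mul_of_nonneg_right ?_ hlL.le
    calc 2 * (κ j * τ z) = (2 * κ j) * τ z := by ring
      _ ≤ C2 * τ z := mul_le_mul_of_nonneg_right (hκC j) hz.le
  obtain ⟨L0, hL0⟩ := eventually_atTop.1 hev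
  refine ⟨max L0 D, fun L hL => ⟨fun j => (cz L j).toNat, ?_, fun j => ?_, fun j => ?_⟩⟩
  · have h1 := rep_int hrel w D hD L (le_trans (le_max_right _ _) hL)
    rw [hw, h1, Finset.smul_sum]
    refine Finset.sum_congr rfl fun j _ => ?_
    rw [← mul_smul]
    congr 1
    have h2 : (0 : ℤ) ≤ cz L j := by
      have := (hL0 L (le_trans (le_max_left _ _) hL) j).1
      have h3 : (0 : ℝ) ≤ (cz L j : ℝ) := le_trans (Nat.cast_nonneg _) this
      exact_mod_cast h3
    unfold toZ
    rw [Polynomial.map_mul, Polynomial.map_pow, Polynomial.map_X, Polynomial.map_C, mul_comm]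
    congr 1
    have h3 : ((cz L j).toNat : ℤ) = cz L j := Int.toNat_of_nonneg h2
    simp only [eq_natCast, h3]
    simp [hcz]
  · have := (hL0 L (le_trans (le_max_left _ _) hL) j).1
    have h3 : (N : ℤ) ≤ cz L j := by exact_mod_cast this
    show N ≤ (cz L j).toNat
    omega
  · have h0 := (hL0 L (le_trans (le_max_left _ _) hL) j).1
    have h2 : (0 : ℤ) ≤ cz L j := by
      have h3 : (0 : ℝ) ≤ (cz L j : ℝ) := le_trans (Nat.cast_nonneg _) h0
      exact_mod_cast h3
    have h3 : (((cz L j).toNat : ℕ) : ℝ) = (cz L j : ℝ) := by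
      have := Int.toNat_of_nonneg h2
      exact_mod_cast congrArg (Int.cast : ℤ → ℝ) this
    rw [h3]
    exact (hL0 L (le_trans (le_max_left _ _) hL) j).2

end Pool.Agent.SSE
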