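import Pool.Agent.SSE.HDefs
import Pool.Agent.SSE.S1f
import Pool.Agent.SSE.D0
import Pool.Agent.SSE.CoreRed
import Pool.Agent.SSE.Lev0a

/-!
# SSE project, level 0: the module, the Perron data, the classes of `A` and of `B`
-/

set_option autoImplicit false

open scoped BigOperators
open Matrix Polynomial

namespace Pool.Agent.SSE

open Pool.Agent.helper52.SSE

attribute [local instance] Classical.propDecidable

/-- `det (1 - t A)` over the reals -/
lemma toR_det_IP {ι : Type} [Fintype ι] (A : Matrix ι ι ℕ) :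
    toR (IP (ofMat A)).det = (rmat A).charpolyRev := by
  unfold Matrix.charpolyRev
  rw [RingHom.map_det]
  congr 1
  refine Matrix.ext fun i j => ?_
  rw [RingHom.mapMatrix_apply, Matrix.map_apply, Matrix.sub_apply, Matrix.smul_apply,
    Matrix.map_apply, smul_eq_mul, Matrix.one_apply]
  unfold IP toR toZ ofMat rmat
  rw [map_sub, Matrix.map_apply]
  congr 1
  · split_ifs <;> simp
  · rw [coe_mapRingHom, Polynomial.map_mul, Polynomial.map_mul, Polynomial.map_C,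
      Polynomial.map_C, Polynomial.map_X, Polynomial.map_X, mul_comm]
    congr 2

/-- the module and the Perron data of `A` -/
theorem exists_PFM {ι : Type} [Fintype ι] [Nonempty ι] {A : Matrix ι ι ℕ} {p : ℕ} (hp : 0 < p)
    (hA : ∀ i j, 2 ≤ (A ^ p) i j) :
    ∃ (K : Type) (_ : AddCommGroup K) (_ : Module ℤ[X] K) (δ : ℤ[X]) (D : PFM K δ) (g : ι → K),
      PresOf δ g (ofMat A) ∧ ∀ i, 0 < D.tau (g i) := by
  obtain ⟨lam, v, u, hd⟩ := PF.exists_data (prim_rmat hp hA)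
  have hlam : 1 < lam := hd.one_lt (p := p) fun i j => by
    rw [rmat_pow]
    exact_mod_cast hA i j
  have hlam0 : 0 < lam := hd.lam_pos
  obtain ⟨th, f1, hth0, hthl, hfac, hf0, hf1⟩ := hd.exists_factor (prim_rmat hp hA)
  obtain ⟨K, i1, i2, g, hg, hτ⟩ := exists_pres (ofMat A) (isPres_ofMat A)
  obtain ⟨τ, hτX, hτg⟩ := hτ v lam⁻¹ fun i => by
    have h1 := congrFun hd.eig i
    simp only [Matrix.mulVec, dotProduct, Pi.smul_apply, smul_eq_mul] at h1
    have h2 : ∀ j, evp lam⁻¹ (ofMat A i j) = lam⁻¹ * rmat A i j := by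
      intro j
      unfold evp ofMat rmat
      rw [eval₂_mul, eval₂_C, eval₂_X, Matrix.map_apply, mul_comm]
    calc v i = lam⁻¹ * (lam * v i) := by rw [← mul_assoc, inv_mul_cancel₀ hlam0.ne', one_mul]
      _ = ∑ j, evp lam⁻¹ (ofMat A i j) * v j := by
        rw [← h1, Finset.mul_sum]
        refine Finset.sum_congr rfl fun j _ => ?_
        rw [h2, mul_assoc]
  have hmin : lam⁻¹ < min 1 th⁻¹ := by
    refine lt_min (inv_lt_one_of_one_lt₀ hlam) ?_
    exact (inv_lt_inv₀ hlam0 hth0).2 hthl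
  obtain ⟨rad, hr1, hr2⟩ := exists_between hmin
  have hrad0 : 0 < rad := (inv_pos.2 hlam0).trans hr1
  refine ⟨K, i1, i2, _, ⟨lam, hlam, τ, hτX, rad, ?_, hr2.trans_le (min_le_left _ _), f1, ?_, ?_⟩, g,
    hg, fun i => ?_⟩
  · have := mul_lt_mul_of_pos_left hr1 hlam0
    rwa [mul_inv_cancel₀ hlam0.ne'] at this
  · rw [toR_det_IP, hfac]
  · intro z hz
    refine hf1 z ?_
    calc ‖z‖ * th ≤ rad * th := mul_le_mul_of_nonneg_right hz hth0.le
      _ < th⁻¹ * th := mul_lt_mul_of_pos_right (hr2.trans_le (min_le_right _ _)) hth0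
      _ = 1 := inv_mul_cancel₀ hth0.ne'
  · change 0 < τ (g i)
    rw [hτg]
    exact hd.v_pos i

/-- division of the classes by a power of `X` so that they become large -/
theorem exists_large {K : Type} [AddCommGroup K] [Module ℤ[X] K] {δ : ℤ[X]} (D : PFM K δ)
    {κ : Type} [Fintype κ] {g : κ → K} {P : Matrix κ κ ℕ[X]} (h : PresOf δ g P)
    (hg : ∀ j, 0 < D.tau (g j)) (b : ℝ) :
    ∃ g' : κ → K, PresOf δ g' P ∧ ∀ j, 0 < D.tau (g' j) ∧ b < D.tau (g' j) := by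
  have hl := D.one_lt
  have hl0 : 0 < D.lam := by linarith
  have htX : ∀ (k : ℕ) (z : K), D.tau ((X ^ k : ℤ[X]) • z) = (D.lam⁻¹) ^ k * D.tau z := by
    intro k z
    induction k with
    | zero => simp
    | succ k ih => rw [pow_succ', mul_smul, D.tau_X, ih, pow_succ']; ring
  have hk : ∀ j, ∃ k0 : ℕ, ∀ k, k0 ≤ k → b < D.lam ^ k * D.tau (g j) := by
    intro j
    obtain ⟨k0, hk0⟩ := pow_unbounded_of_one_lt (b / D.tau (g j)) hl
    refine ⟨k0, fun k hk => ?_⟩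
    rw [div_lt_iff₀ (hg j)] at hk0
    exact hk0.trans_le (mul_le_mul_of_nonneg_right (pow_le_pow_right₀ hl.le hk) (hg j).le)
  choose k0 hk0 using hk
  obtain ⟨g', hg', h'⟩ := h.div_X (∑ j, k0 j)
  refine ⟨g', h', fun j => ?_⟩
  have h1 : D.tau (g' j) = D.lam ^ (∑ j, k0 j) * D.tau (g j) := by
    rw [← hg' j, htX, ← mul_assoc, ← mul_pow, mul_inv_cancel₀ hl0.ne', one_pow, one_mul]
  rw [h1]
  exact ⟨mul_pos (pow_pos hl0 _) (hg j), hk0 j _ (Finset.single_le_sum (f := k0)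
    (fun _ _ => Nat.zero_le _) (Finset.mem_univ j))⟩

/-- a matrix with a power which has an entry `≥ 2` is not a small `1 × 1` matrix -/
lemma growth_big {n : ℕ} (A : Matrix (Fin n) (Fin n) ℕ) (hn : 0 < n) (hA : Prim A)
    (hbig : ∃ k i j, 2 ≤ (A ^ k) i j) : ∃ p, 0 < p ∧ ∀ i j, 2 ≤ (A ^ p) i j := by
  obtain ⟨k0, -, hk0⟩ := hA
  rcases growth_of_primitive A hn ⟨k0, hk0⟩ with ⟨h, h1⟩ | h
  · exfalso
    subst h
    obtain ⟨k, i, j, hk⟩ := hbig
    have h2 : ∀ k, (A ^ k) 0 0 ≤ 1 := by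
      intro k
      induction k with
      | zero => simp
      | succ k ih =>
        rw [pow_succ, Matrix.mul_apply, Fin.sum_univ_one]
        exact (Nat.mul_le_mul ih h1).trans (by norm_num)
    have h3 := h2 k
    rw [Subsingleton.elim i 0, Subsingleton.elim j 0] at hk
    omega
  · exact h

/-- LEVEL 0 -/
theorem lev0 {n : ℕ} (A : Matrix (Fin n) (Fin n) ℕ) (hn : 0 < n) (hA : Prim A)
    (hbig : ∃ k i j, 2 ≤ (A ^ k) i j) :
    ∃ (K : Type) (_ : AddCommGroup K) (_ : Module ℤ[X] K) (δ : ℤ[X]) (D : PFM K δ)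
      (g : Fin n → K) (ξ : K), PresOf δ g (ofMat A) ∧ (∀ i, 0 < D.tau (g i)) ∧ 0 < D.tau ξ ∧
      (∀ i, D.tau ξ < (D.lam⁻¹) ^ (n + 2) * D.tau (g i)) ∧
      (∃ p, 0 < p ∧ ∀ i j, 2 ≤ (A ^ p) i j) ∧
      ∀ (m : ℕ) (B : Matrix (Fin m) (Fin m) ℕ), 0 < m → Prim B → SE A B →
        ∃ gB : Fin m → K, PresOf δ gB (ofMat B) ∧ (∀ j, 0 < D.tau (gB j)) ∧
          (∀ j, D.tau ξ < (D.lam⁻¹) ^ (m + 2) * D.tau (gB j)) ∧
          ∃ p, 0 < p ∧ ∀ i j, 2 ≤ (B ^ p) i j := by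
  obtain ⟨p, hp, hpA⟩ := growth_big A hn hA hbig
  have : Nonempty (Fin n) := ⟨⟨0, hn⟩⟩
  obtain ⟨K, i1, i2, δ, D, g, hg, hτ⟩ := exists_PFM (A := A) hp (fun i j => cast (congrArg (fun M : Matrix _ _ ℕ => 2 ≤ M i j)
      (by congr <;> exact Subsingleton.elim _ _)) (hpA i j))
  have hl := D.one_lt
  have hl0 : 0 < D.lam := by linarith
  have hx0 : 0 < D.lam⁻¹ := inv_pos.2 hl0
  have hx1 : D.lam⁻¹ < 1 := inv_lt_one_of_one_lt₀ hl
  have htX : ∀ (k : ℕ) (z : K), D.tau ((X ^ k : ℤ[X]) • z) = (D.lam⁻¹) ^ k * D.tau z := by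
    intro k z
    induction k with
    | zero => simp
    | succ k ih => rw [pow_succ', mul_smul, D.tau_X, ih, pow_succ']; ring
  -- the class `ξ`
  have hk : ∀ i, ∃ k0 : ℕ, ∀ k, k0 ≤ k → (D.lam⁻¹) ^ k * D.tau (g ⟨0, hn⟩) <
      (D.lam⁻¹) ^ (n + 2) * D.tau (g i) := by
    intro i
    have hc : 0 < (D.lam⁻¹) ^ (n + 2) * D.tau (g i) / D.tau (g ⟨0, hn⟩) :=
      div_pos (mul_pos (pow_pos hx0 _) (hτ i)) (hτ _)
    obtain ⟨k0, hk0⟩ := exists_pow_lt_of_lt_one hc hx1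
    refine ⟨k0, fun k hk => ?_⟩
    rw [← lt_div_iff₀ (hτ _)]
    exact (pow_le_pow_of_le_one hx0.le hx1.le hk).trans_lt hk0
  choose k0 hk0 using hk
  refine ⟨K, i1, i2, δ, D, g, (X ^ (∑ i, k0 i) : ℤ[X]) • g ⟨0, hn⟩, hg, hτ, ?_, fun i => ?_,
    ⟨p, hp, hpA⟩, ?_⟩
  · rw [htX]
    exact mul_pos (pow_pos hx0 _) (hτ _)
  · rw [htX]
    exact hk0 i _ (Finset.single_le_sum (f := k0) (fun _ _ => Nat.zero_le _) (Finset.mem_univ i))
  intro m B hm hB hAB
  obtain ⟨l, R, S, hl0', hAl, hBl, hAR, hSA⟩ := hAB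
  have hgB : PresOf δ (fun j => ∑ i, (pm S) j i • g i) (ofMat B) :=
    hg.of_se (l := l) (R := R) (S := S) (cast (by congr <;> exact Subsingleton.elim _ _) hAl) (cast (by congr <;> exact Subsingleton.elim _ _) hBl) hAR hSA
  -- positivity
  have hrow : ∀ j, ∃ i, S j i ≠ 0 := by
    intro j
    by_contra hcon
    push Not at hcon
    obtain ⟨k, hk, hkB⟩ := hB
    have h1 : (B ^ (l + k)) j j = 0 := by
      rw [pow_add, hBl, Matrix.mul_assoc, Matrix.mul_apply]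
      exact Finset.sum_eq_zero fun i _ => by rw [hcon i, zero_mul]
    have h2 : ∀ q i, 0 < (B ^ (q + k)) i j := by
      intro q
      induction q with
      | zero =>
        intro i
        rw [zero_add]
        exact hkB i j
      | succ q ih =>
        intro i
        obtain ⟨i', hi'⟩ : ∃ i', 0 < B i i' := by
          by_contra hcon
          push Not at hcon
          obtain ⟨k', rfl⟩ : ∃ k', k = k' + 1 := ⟨k - 1, by omega⟩
          have := hkB i i
          rw [pow_succ', Matrix.mul_apply, Finset.sum_eq_zero] at this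
          · exact absurd this (lt_irrefl _)
          · intro x _
            rw [Nat.le_zero.1 (hcon x), zero_mul]
        rw [show q + 1 + k = (q + k) + 1 by ring, pow_succ', Matrix.mul_apply]
        exact Finset.sum_pos' (fun _ _ => Nat.zero_le _)
          ⟨i', Finset.mem_univ _, Nat.mul_pos hi' (ih i')⟩
    have h3 := h2 l j
    omega
  have hτB : ∀ j, 0 < D.tau (∑ i, (pm S) j i • g i) := by
    intro j
    rw [map_sum]
    have h1 : ∀ i, D.tau ((pm S) j i • g i) = (S j i : ℝ) * D.tau (g i) := by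
      intro i
      have : (pm S) j i = ((S j i : ℕ) : ℤ[X]) := rfl
      rw [this, Nat.cast_smul_eq_nsmul, map_nsmul, nsmul_eq_mul]
    obtain ⟨i, hi⟩ := hrow j
    refine Finset.sum_pos' (fun i _ => ?_) ⟨i, Finset.mem_univ _, ?_⟩
    · rw [h1]
      exact mul_nonneg (Nat.cast_nonneg _) (hτ i).le
    · rw [h1]
      exact mul_pos (by exact_mod_cast Nat.pos_of_ne_zero hi) (hτ i)
  obtain ⟨gB, hgB', hlarge⟩ := exists_large D hgB hτB
    (D.tau ((X ^ (∑ i, k0 i) : ℤ[X]) • g ⟨0, hn⟩) / (D.lam⁻¹) ^ (m + 2))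
  refine ⟨gB, hgB', fun j => (hlarge j).1, fun j => ?_, ?_⟩
  · have h1 := (hlarge j).2
    rwa [div_lt_iff₀ (pow_pos hx0 _), mul_comm] at h1
  · obtain ⟨k1, -, hk1⟩ := hB
    rcases growth_of_primitive B hm ⟨k1, hk1⟩ with ⟨h, h1⟩ | h
    · exfalso
      subst h
      have h2 := tau_row (fun z => D.tau_X z) 0 (hgB'.relOf.rel 0)
      rw [Fin.sum_univ_one] at h2
      have h3 : evp D.lam⁻¹ (ofMat B 0 0) = (B 0 0 : ℝ) * D.lam⁻¹ := by
        unfold evp ofMat
        rw [eval₂_mul, eval₂_C, eval₂_X]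
        simp
      rw [h3] at h2
      have h4 : ((B 0 0 : ℕ) : ℝ) ≤ 1 := by exact_mod_cast h1
      have h5 := (hlarge 0).1
      have h6 : (B 0 0 : ℝ) * D.lam⁻¹ < 1 := by nlinarith
      nlinarith
    · exact h

end Pool.Agent.SSE
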