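import Pool.Agent.SSE.V5

/-!
# SSE project: renewal data of a polynomial with value `> 1` (final glue)
-/

set_option autoImplicit false

open scoped BigOperators
open Matrix Polynomial

namespace Pool.Agent.SSE

attribute [local instance] Classical.propDecidable

/-- a polynomial with nonnegative coefficients, value `> 1` at some `ρ ≤ 1`, and two consecutive
nonzero coefficients has renewal data -/
theorem ren_of_value {s : ℕ[X]} (h0 : s.coeff 0 = 0) {ρ : ℝ} (ρ0 : 0 < ρ) (ρ1 : ρ ≤ 1)
    (hv : 1 < wn ρ (toR (toZ s))) {a : ℕ} (ha : s.coeff a ≠ 0) (ha1 : s.coeff (a + 1) ≠ 0) :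
    ∃ (r c : ℝ) (n0 : ℕ), r < ρ ∧ Ren s r c n0 := by
  have hcont : Continuous fun r : ℝ => wn r (toR (toZ s)) := by
    have : (fun r : ℝ => wn r (toR (toZ s))) = fun r => ∑ k ∈ s.support, (s.coeff k : ℝ) * r ^ k :=
      funext fun r => wn_toZ r s
    rw [this]
    exact continuous_finsetSum _ fun k _ => continuous_const.mul (continuous_pow k)
  have hzero : wn 0 (toR (toZ s)) = 0 := by
    rw [wn_toZ]
    refine Finset.sum_eq_zero fun k hk => ?_
    have hk0 : k ≠ 0 := by
      rintro rfl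
      exact (Polynomial.mem_support_iff.1 hk) h0
    rw [zero_pow hk0, mul_zero]
  obtain ⟨r, ⟨hr0, hrρ⟩, hr⟩ := intermediate_value_Icc ρ0.le hcont.continuousOn
    (show (1 : ℝ) ∈ Set.Icc (wn 0 (toR (toZ s))) (wn ρ (toR (toZ s))) by
      rw [hzero]
      exact ⟨zero_le_one, hv.le⟩)
  simp only at hr
  have hr0' : 0 < r := by
    rcases hr0.lt_or_eq with h | h
    · exact h
    · rw [← h, hzero] at hr
      exact absurd hr zero_ne_one
  have hrρ' : r < ρ := by
    rcases hrρ.lt_or_eq with h | h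
    · exact h
    · rw [h] at hr
      exact absurd hr (ne_of_gt hv)
  obtain ⟨c, n0, h⟩ := exists_ren h0 hr0' (hrρ'.trans_le ρ1) hr (fun g hg => by
    have h1 := hg a ha
    have h2 := hg (a + 1) ha1
    exact Nat.dvd_one.1 ((Nat.dvd_add_right h1).1 h2))
  exact ⟨r, c, n0, hrρ', h⟩

end Pool.Agent.SSE
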