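import Pool.Agent.SSE.HDefs

/-!
# SSE project, hub part: the determinant identity of hub states

`det (1 - Pinf) = δ` for every limit; for a hub state
`(1 - H) * det (1 - p_FF) * ∏_L (1 - s) = δ`.
-/

set_option autoImplicit false

open scoped BigOperators
open Matrix Polynomial

namespace Pool.Agent.SSE

attribute [local instance] Classical.propDecidable

/-- determinants of matrices of series which agree below `T` agree below `T` -/
lemma hdet_congr {I : Type} [Fintype I] [DecidableEq I] {M N : Matrix I I (PowerSeries ℤ)} {T : ℕ}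
    (h : ∀ i j, ∀ n < T, PowerSeries.coeff n (M i j) = PowerSeries.coeff n (N i j)) :
    ∀ n < T, PowerSeries.coeff n M.det = PowerSeries.coeff n N.det := by
  have h1 : ∀ i j, Ideal.Quotient.mk (Ideal.span {(PowerSeries.X : PowerSeries ℤ) ^ T}) (M i j) =
      Ideal.Quotient.mk (Ideal.span {(PowerSeries.X : PowerSeries ℤ) ^ T}) (N i j) := by
    intro i j
    rw [Ideal.Quotient.mk_eq_mk_iff_sub_mem, Ideal.mem_span_singleton, PowerSeries.X_pow_dvd_iff]
    intro n hn
    rw [map_sub, h i j n hn, sub_self]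
  have h2 : (Ideal.Quotient.mk (Ideal.span {(PowerSeries.X : PowerSeries ℤ) ^ T})).mapMatrix M =
      (Ideal.Quotient.mk (Ideal.span {(PowerSeries.X : PowerSeries ℤ) ^ T})).mapMatrix N := by
    ext i j
    rw [RingHom.mapMatrix_apply, RingHom.mapMatrix_apply, Matrix.map_apply, Matrix.map_apply, h1]
  have h3 : Ideal.Quotient.mk (Ideal.span {(PowerSeries.X : PowerSeries ℤ) ^ T}) M.det =
      Ideal.Quotient.mk (Ideal.span {(PowerSeries.X : PowerSeries ℤ) ^ T}) N.det := by
    rw [RingHom.map_det, RingHom.map_det, h2]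
  rw [Ideal.Quotient.mk_eq_mk_iff_sub_mem, Ideal.mem_span_singleton, PowerSeries.X_pow_dvd_iff] at h3
  intro n hn
  have := h3 n hn
  rw [map_sub] at this
  linarith

/-- Schur complement with a given solution vector -/
lemma hdet_option {F R : Type} [Fintype F] [DecidableEq F] [CommRing R]
    (A : Matrix (Option F) (Option F) R) (v : F → R)
    (h : ∀ f, A (some f) none + ∑ k, A (some f) (some k) * v k = 0) :
    A.det = (A none none + ∑ k, A none (some k) * v k) * (A.submatrix some some).det := by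
  set w : Option F → R := fun i => i.elim 1 v with hw
  have hAw : A *ᵥ w = Pi.single none (A none none + ∑ k, A none (some k) * v k) := by
    funext i
    rw [Matrix.mulVec, dotProduct, Fintype.sum_option]
    cases i with
    | none => simp [hw]
    | some f =>
      have := h f
      simp only [hw, Option.elim_none, Option.elim_some, mul_one, this]
      rw [Pi.single_eq_of_ne (by simp)]
  have h1 : (A.updateCol none (A *ᵥ w)).det = A.det := by
    rw [← Matrix.cramer_apply, Matrix.cramer_eq_adjugate_mulVec, Matrix.mulVec_mulVec,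
      Matrix.adjugate_mul, Matrix.smul_mulVec, Matrix.one_mulVec]
    simp [hw]
  rw [← h1, hAw]
  set c := A none none + ∑ k, A none (some k) * v k with hc
  set B := A.updateCol none (Pi.single none c) with hB
  have e1 : B.det = (B.submatrix (Equiv.optionEquivSumPUnit.{0} F).symm
      (Equiv.optionEquivSumPUnit F).symm).det := by
    rw [Matrix.det_submatrix_equiv_self]
  have e2 : B.submatrix (Equiv.optionEquivSumPUnit.{0} F).symm (Equiv.optionEquivSumPUnit F).symm =
      fromBlocks (A.submatrix some some) 0 (of fun _ j => A none (some j)) (of fun _ _ => c) := by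
    ext i j
    rcases i with i | i <;> rcases j with j | j
    · simp [hB, Matrix.updateCol_apply]
    · simp [hB, Matrix.updateCol_apply]
    · simp [hB, Matrix.updateCol_apply]
    · simp [hB, Matrix.updateCol_apply]
  rw [e1, e2, Matrix.det_fromBlocks_zero₁₂, mul_comm]
  congr 1
  rw [Matrix.det_unique]
  rfl

section

variable {K : Type} [AddCommGroup K] [Module ℤ[X] K] {δ : ℤ[X]}

lemma coeff_toZS (f : PowerSeries ℕ) (n : ℕ) :
    PowerSeries.coeff n (toZS f) = ((PowerSeries.coeff n f : ℕ) : ℤ) := by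
  unfold toZS
  rw [PowerSeries.coeff_map]
  rfl

/-- the approximations of a limit, coefficients over `ℤ` -/
theorem ReachE.bound {qB : ℕ[X]} {S0 : PX K δ qB} {I : Type} [Fintype I] {cl : I → K} {x : I} {r : ℝ}
    {Pinf : Matrix I I (PowerSeries ℤ)} (h : ReachE S0 cl x r Pinf) : ∃ B : ℝ, ∀ T : ℕ,
    ∃ (P' : Matrix I I ℕ[X]) (_ : PresOf δ cl P'), (∀ n, qB.coeff n ≤ (P' x x).coeff n) ∧
      (∀ j, (P' x j).coeff 1 = 0) ∧
      (∀ i j, ∀ n < T, ((P' i j).coeff n : ℤ) = PowerSeries.coeff n (Pinf i j)) ∧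
      ∀ i j, wn r (toR (toZ (P' i j))) ≤ B := by
  obtain ⟨L, hL, B, M0, hB⟩ := h
  refine ⟨B, fun T => ?_⟩
  obtain ⟨P', hP, hq, hx, -, -, hag, hbd⟩ := hB T
  refine ⟨P', hP, hq, hx, fun i j n hn => ?_, fun i j => ?_⟩
  · rw [hag i j n hn, ← hL i j, coeff_toZS]
  · rw [wn_eq_nv]
    exact hbd i j

theorem ReachE.approx {qB : ℕ[X]} {S0 : PX K δ qB} {I : Type} [Fintype I] {cl : I → K} {x : I}
    {r : ℝ} {Pinf : Matrix I I (PowerSeries ℤ)} (h : ReachE S0 cl x r Pinf) (T : ℕ) :
    ∃ (P' : Matrix I I ℕ[X]) (_ : PresOf δ cl P') (_ : ∀ n, qB.coeff n ≤ (P' x x).coeff n)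
      (_ : ∀ j, (P' x j).coeff 1 = 0) (B : ℝ),
      (∀ i j, ∀ n < T, ((P' i j).coeff n : ℤ) = PowerSeries.coeff n (Pinf i j)) ∧
      ∀ i j, wn r (toR (toZ (P' i j))) ≤ B := by
  obtain ⟨B, hB⟩ := h.bound
  obtain ⟨P', hP, hq, hx, h1, h2⟩ := hB T
  exact ⟨P', hP, hq, hx, B, h1, h2⟩

/-- **The determinant of a limit.** -/
theorem ReachE.det {qB : ℕ[X]} {S0 : PX K δ qB} {I : Type} [Fintype I] {cl : I → K} {x : I} {r : ℝ}
    {Pinf : Matrix I I (PowerSeries ℤ)} (h : ReachE S0 cl x r Pinf) : (1 - Pinf).det = ps δ := by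
  ext n
  obtain ⟨P', hP, -, -, -, hag, -⟩ := h.approx (n + 1)
  have h1 : (IP P').det = δ := by
    have := hP.relOf.det
    exact cast (by congr <;> exact Subsingleton.elim _ _) this
  have h2 : ((Polynomial.coeToPowerSeries.ringHom (R := ℤ)).mapMatrix (IP P')).det = ps δ := by
    rw [← RingHom.map_det, h1]
    rfl
  rw [← h2]
  refine hdet_congr (T := n + 1) (fun i j m hm => ?_) n (Nat.lt_succ_self n)
  rw [RingHom.mapMatrix_apply, Matrix.map_apply, Matrix.sub_apply, map_sub,
    Polynomial.coeToPowerSeries.ringHom_apply, Polynomial.coeff_coe, IP_apply, coeff_sub,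
    coeff_toZ, hag i j m hm]
  congr 1
  rw [Matrix.one_apply]
  split_ifs <;> simp [PowerSeries.coeff_one, Polynomial.coeff_one]

lemma hdet_hubM {F Y : Type} [Fintype F] [Fintype Y]
    (p : Matrix (Option F) (Option F) (PowerSeries ℤ)) (s q : Y → PowerSeries ℤ) :
    (1 - hubM p s q).det = (1 - p).det * ∏ y, (1 - s y) := by
  have e : (1 - hubM p s q : Matrix (Option F ⊕ Y) (Option F ⊕ Y) (PowerSeries ℤ)) =
      fromBlocks (1 - p) 0 (of fun y j => if j = none then - q y else 0)
        (diagonal fun y => 1 - s y) := by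
    ext1 i j
    rcases i with i | i <;> rcases j with j | j
    · simp only [Matrix.sub_apply, Matrix.fromBlocks_apply₁₁, hubM, Matrix.one_apply, Sum.inl.injEq]
    · simp [Matrix.sub_apply, hubM]
    · cases j with
      | none => simp [Matrix.sub_apply, hubM]
      | some j => simp [Matrix.sub_apply, hubM]
    · by_cases hij : i = j
      · subst hij
        simp [Matrix.sub_apply, hubM]
      · simp [Matrix.sub_apply, hubM, hij, Matrix.one_apply, Matrix.diagonal_apply]
  rw [e, Matrix.det_fromBlocks_zero₁₂, Matrix.det_diagonal]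

lemma hdet_FP {F : Type} [Fintype F] {p : Matrix (Option F) (Option F) (PowerSeries ℤ)}
    {φ : F → PowerSeries ℤ} (hφ : FP p φ) : (1 - p).det = (1 - Hret p φ) * (1 - pFF p).det := by
  have h := hdet_option (1 - p) φ (by
    intro f
    have h1 : ∑ k, (1 - p) (some f) (some k) * φ k = φ f - ∑ k, p (some f) (some k) * φ k := by
      simp only [Matrix.sub_apply, Matrix.one_apply, Option.some.injEq, sub_mul,
        Finset.sum_sub_distrib, ite_mul, one_mul, zero_mul, Finset.sum_ite_eq, Finset.mem_univ,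
        if_true]
    rw [h1, Matrix.sub_apply, Matrix.one_apply_ne (by simp)]
    have := hφ f
    linear_combination this)
  rw [h]
  congr 1
  · unfold Hret
    have h2 : ∑ k, (1 - p) none (some k) * φ k = - ∑ k, p none (some k) * φ k := by
      rw [← Finset.sum_neg_distrib]
      refine Finset.sum_congr rfl fun k _ => ?_
      rw [Matrix.sub_apply, Matrix.one_apply_ne (by simp)]
      ring
    rw [h2, Matrix.sub_apply, Matrix.one_apply_eq]
    ring
  · congr 1
    ext1 i j
    simp only [Matrix.submatrix_apply, Matrix.sub_apply, pFF, Matrix.one_apply, Option.some.injEq]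

/-- the determinant identity, explicit loop vertices -/
theorem HubOn.det {D : PFM K δ} {qB : ℕ[X]} {S0 : PX K δ qB} {r : ℝ} {F : Type} [Fintype F]
    {cl : Option F → K} {p : Matrix (Option F) (Option F) (PowerSeries ℤ)} {Y : Type} [Fintype Y]
    {s : Y → PowerSeries ℤ} {c : Y → K} {q : Y → PowerSeries ℤ} (h : HubOn D S0 r cl p s c q)
    {φ : F → PowerSeries ℤ} (hφ : FP p φ) :
    (1 - Hret p φ) * (1 - pFF p).det * ∏ y, (1 - s y) = ps δ := by
  have h1 := h.reach.det
  rw [← hdet_FP hφ, ← hdet_hubM p s q, ← h1]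
  congr <;> exact Subsingleton.elim _ _

/-- **The determinant identity.** -/
theorem hub_det {D : PFM K δ} {qB : ℕ[X]} {S0 : PX K δ qB} {r : ℝ} {F : Type} [Fintype F]
    {cl : Option F → K} {cst : K} {p : Matrix (Option F) (Option F) (PowerSeries ℤ)}
    {L : Multiset (PowerSeries ℤ)} (h : Hub D S0 r cl cst p L)
    {φ : F → PowerSeries ℤ} (hφ : FP p φ) :
    (1 - Hret p φ) * (1 - pFF p).det * (L.map fun s => 1 - s).prod = ps δ := by
  obtain ⟨Y, _, s, q, hL, h⟩ := h
  rw [← h.det hφ, ← hL, Multiset.map_map]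
  rfl

end

end Pool.Agent.SSE
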