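import Pool.Agent.SSE.HN1

/-!
# SSE project (`MP_c782ad_an`), hub part, Section 10: equalisation of the references to the hub
-/

set_option autoImplicit false
set_option linter.unusedSectionVars false

open scoped BigOperators
open PowerSeries

namespace Pool.Agent.SSE.HN

open Pool.Agent.SSE.PF

/-- positive part -/
noncomputable def posP (f : ℤ⟦X⟧) : ℤ⟦X⟧ := PowerSeries.mk fun d => max (coeff d f) 0

lemma coeff_posP (f : ℤ⟦X⟧) (d : ℕ) : coeff d (posP f) = max (coeff d f) 0 := coeff_mk _ _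

lemma nn_posP (f : ℤ⟦X⟧) : Nn (posP f) := fun d => by
  rw [coeff_posP]
  exact le_max_right _ _

lemma posP_sub (f : ℤ⟦X⟧) : f = posP f - posP (-f) := by
  ext d
  rw [map_sub, coeff_posP, coeff_posP, map_neg]
  rcases le_total 0 (coeff d f) with h | h
  · rw [max_eq_left h, max_eq_right (by linarith)]
    ring
  · rw [max_eq_right h, max_eq_left (by linarith)]
    ring

lemma hasN_posP {r : ℝ} (hr : 0 ≤ r) {f : ℤ⟦X⟧} (hf : HasN r (toRS f)) : HasN r (toRS (posP f)) := by
  refine HasN.of_le hr hf fun n => ?_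
  rw [norm_coeff (nn_posP f), coeff_posP, coeff_toRS, Real.norm_eq_abs]
  push_cast
  exact max_le (le_abs_self _) (abs_nonneg _)

/-- the equalisation: `(1-H) Q = δ`, `Q` of finite norm, `hdiv` = division by `δ` keeps finite norms of
series vanishing at `x0`; `qA`, `qB` have the same value at `x0`. -/
theorem eq_rows {x0 r : ℝ} (hr0 : 0 ≤ r) (hx : ‖x0‖ ≤ r) {H Q : ℤ⟦X⟧} {δ : ℝ⟦X⟧} (hH : Nn H)
    (H0 : coeff 0 H = 0) (QN : HasN r (toRS Q)) (hδ : toRS ((1 - H) * Q) = δ)
    (hdiv : ∀ g V : ℝ⟦X⟧, HasN r g → δ * V = g → ev x0 g = 0 → HasN r V)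
    {qA qB : ℤ⟦X⟧} (nA : Nn qA) (nB : Nn qB) (qA0 : coeff 0 qA = 0) (qB0 : coeff 0 qB = 0)
    (NA : HasN r (toRS qA)) (NB : HasN r (toRS qB)) (hv : ev x0 (toRS qA) = ev x0 (toRS qB)) :
    ∃ dA dB q : ℤ⟦X⟧, Nn dA ∧ Nn dB ∧ Nn q ∧ HasN r (toRS dA) ∧ HasN r (toRS dB) ∧
      coeff 0 dA = 0 ∧ coeff 0 dB = 0 ∧ coeff 0 q = 0 ∧ q = qA - dA * (1 - H) ∧
      q = qB - dB * (1 - H) := by
  set D : ℤ⟦X⟧ := (qA - qB) * geo H with hD
  have hDH : D * (1 - H) = qA - qB := by
    rw [hD, mul_assoc, geo_mul_one_sub H0, mul_one]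
  have hDN : HasN r (toRS D) := by
    refine hdiv (toRS (Q * (qA - qB))) (toRS D) ?_ ?_ ?_
    · rw [map_mul, map_sub]
      exact QN.mul hr0 (NA.sub hr0 NB)
    · rw [← hδ, ← map_mul]
      congr 1
      linear_combination Q * hDH
    · rw [map_mul, map_sub, ev_mul QN (NA.sub hr0 NB) hx, ev_sub NA NB hx, hv, sub_self, mul_zero]
  have hD0 : coeff 0 D = 0 := by
    rw [hD]
    rw [coeff_zero_eq_constantCoeff_apply, map_mul, map_sub, ← coeff_zero_eq_constantCoeff_apply,
      ← coeff_zero_eq_constantCoeff_apply, qA0, qB0, sub_zero, zero_mul]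
  have hq : qA - posP D * (1 - H) = qB - posP (-D) * (1 - H) := by
    have h1 := posP_sub D
    have h2 : (posP D - posP (-D)) * (1 - H) = qA - qB := by rw [← h1, hDH]
    linear_combination -h2
  have h00 : ∀ f : ℤ⟦X⟧, coeff 0 f = 0 → coeff 0 (posP f) = 0 := fun f hf => by
    rw [coeff_posP, hf, max_self]
  refine ⟨posP D, posP (-D), qA - posP D * (1 - H), nn_posP _, nn_posP _, ?_, hasN_posP hr0 hDN,
    hasN_posP hr0 (by rw [map_neg]; exact hDN.neg), h00 _ hD0, h00 _ (by rw [map_neg, hD0, neg_zero]),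
    ?_, rfl, hq⟩
  · intro d
    rcases le_total (coeff d D) 0 with h | h
    · have h1 : coeff d (posP D) = 0 := by rw [coeff_posP, max_eq_right h]
      have h2 : qA - posP D * (1 - H) = qA - posP D + posP D * H := by ring
      rw [h2, map_add, map_sub, h1, sub_zero]
      exact add_nonneg (nA d) (((nn_posP D).mul hH) d)
    · have h1 : coeff d (posP (-D)) = 0 := by
        rw [coeff_posP, map_neg, max_eq_right (by linarith)]
      have h2 : qB - posP (-D) * (1 - H) = qB - posP (-D) + posP (-D) * H := by ring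
      rw [hq, h2, map_add, map_sub, h1, sub_zero]
      exact add_nonneg (nB d) (((nn_posP (-D)).mul hH) d)
  · rw [map_sub, qA0, coeff_zero_eq_constantCoeff_apply, map_mul, ← coeff_zero_eq_constantCoeff_apply,
      h00 _ hD0, zero_mul, sub_zero]

end Pool.Agent.SSE.HN
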