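import Pool.Agent.SSE.HN1

/-!
# SSE project (`MP_c782ad_an`), hub part: the Neumann inverse `(1-B)⁻¹` of a matrix of power series
without constant terms; nonnegativity and norm bound for a good matrix (weights `g`, `θ < 1`)
-/

set_option autoImplicit false
set_option linter.unusedSectionVars false

open scoped BigOperators
open PowerSeries

namespace Pool.Agent.SSE.HN

open Pool.Agent.SSE.PF

variable {J : Type*} [Fintype J] [DecidableEq J]

/-- `(1 - B)⁻¹` -/
noncomputable def neu (B : Matrix J J ℤ⟦X⟧) : Matrix J J ℤ⟦X⟧ := (1 - B)⁻¹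

lemma coeff_zero_det_one_sub {B : Matrix J J ℤ⟦X⟧} (hB : ∀ i j, coeff 0 (B i j) = 0) :
    coeff 0 (1 - B).det = 1 := by
  rw [coeff_zero_eq_constantCoeff_apply, RingHom.map_det]
  have h1 : (constantCoeff (R := ℤ)).mapMatrix (1 - B) = 1 := by
    ext i j
    rw [RingHom.mapMatrix_apply, Matrix.map_apply, Matrix.sub_apply, map_sub,
      ← coeff_zero_eq_constantCoeff_apply (B i j), hB, sub_zero, Matrix.one_apply, Matrix.one_apply]
    split_ifs <;> simp
  rw [h1, Matrix.det_one]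

lemma isUnit_det_one_sub {B : Matrix J J ℤ⟦X⟧} (hB : ∀ i j, coeff 0 (B i j) = 0) : IsUnit (1 - B).det := by
  rw [PowerSeries.isUnit_iff_constantCoeff, ← coeff_zero_eq_constantCoeff_apply, coeff_zero_det_one_sub hB]
  exact isUnit_one

lemma one_sub_mul_neu {B : Matrix J J ℤ⟦X⟧} (hB : ∀ i j, coeff 0 (B i j) = 0) : (1 - B) * neu B = 1 :=
  Matrix.mul_nonsing_inv _ (isUnit_det_one_sub hB)

lemma neu_mul_one_sub {B : Matrix J J ℤ⟦X⟧} (hB : ∀ i j, coeff 0 (B i j) = 0) : neu B * (1 - B) = 1 :=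
  Matrix.nonsing_inv_mul _ (isUnit_det_one_sub hB)

lemma neu_eq {B : Matrix J J ℤ⟦X⟧} (hB : ∀ i j, coeff 0 (B i j) = 0) (i j : J) :
    neu B i j = (1 : Matrix J J ℤ⟦X⟧) i j + ∑ k, B i k * neu B k j := by
  have h := one_sub_mul_neu hB
  rw [sub_mul, one_mul] at h
  have h2 := congrFun (congrFun h i) j
  rw [Matrix.sub_apply, Matrix.mul_apply] at h2
  linear_combination h2

lemma neu_eq' {B : Matrix J J ℤ⟦X⟧} (hB : ∀ i j, coeff 0 (B i j) = 0) (i j : J) :
    neu B i j = (1 : Matrix J J ℤ⟦X⟧) i j + ∑ k, neu B i k * B k j := by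
  have h := neu_mul_one_sub hB
  rw [mul_sub, mul_one] at h
  have h2 := congrFun (congrFun h i) j
  rw [Matrix.sub_apply, Matrix.mul_apply] at h2
  linear_combination h2

lemma nn_one_apply (i j : J) : Nn ((1 : Matrix J J ℤ⟦X⟧) i j) := by
  rw [Matrix.one_apply]
  split_ifs
  · exact nn_one
  · exact nn_zero

lemma nn_neu {B : Matrix J J ℤ⟦X⟧} (hB : ∀ i j, coeff 0 (B i j) = 0) (hBn : ∀ i j, Nn (B i j)) (i j : J) :
    Nn (neu B i j) := by
  intro d
  induction d using Nat.strong_induction_on generalizing i j with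
  | _ d ih =>
    rw [neu_eq hB, map_add, map_sum]
    refine add_nonneg (nn_one_apply i j d) (Finset.sum_nonneg fun k _ => ?_)
    rw [coeff_mul_succ (hB i k)]
    refine Finset.sum_nonneg fun l hl => mul_nonneg (hBn _ _ _) (ih _ ?_ _ _)
    rw [Finset.mem_range] at hl
    omega

lemma coeff_zero_neu {B : Matrix J J ℤ⟦X⟧} (hB : ∀ i j, coeff 0 (B i j) = 0) (i j : J) :
    coeff 0 (neu B i j) = (1 : Matrix J J ℤ) i j := by
  rw [neu_eq hB, map_add, map_sum, Finset.sum_eq_zero, add_zero]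
  · rw [Matrix.one_apply, Matrix.one_apply]
    split_ifs <;> simp
  · intro k _
    rw [coeff_mul_succ (hB i k)]
    simp

/-- truncation as a power series -/
noncomputable def tr (D : ℕ) (f : ℤ⟦X⟧) : ℤ⟦X⟧ := ((trunc D f : Polynomial ℤ) : ℤ⟦X⟧)

lemma coeff_tr (D : ℕ) (f : ℤ⟦X⟧) (d : ℕ) : coeff d (tr D f) = if d < D then coeff d f else 0 := by
  unfold tr
  rw [Polynomial.coeff_coe, coeff_trunc]

lemma nn_tr {f : ℤ⟦X⟧} (hf : Nn f) (D : ℕ) : Nn (tr D f) := fun d => by
  rw [coeff_tr]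
  split_ifs
  · exact hf d
  · exact le_rfl

lemma hasN_tr (r : ℝ) (D : ℕ) (f : ℤ⟦X⟧) : HasN r (toRS (tr D f)) := by
  have h1 : toRS (tr D f) = (((trunc D f).map (Int.castRingHom ℝ) : Polynomial ℝ) : ℝ⟦X⟧) := by
    ext d
    rw [coeff_toRS, tr, Polynomial.coeff_coe, Polynomial.coeff_coe, Polynomial.coeff_map]
    rfl
  rw [h1]
  exact hasN_poly r _

lemma nS_tr {r : ℝ} {f : ℤ⟦X⟧} (hf : Nn f) (D : ℕ) :
    nS r (toRS (tr D f)) = ∑ d ∈ Finset.range D, ((coeff d f : ℤ) : ℝ) * r ^ d := by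
  unfold nS
  rw [tsum_eq_sum (s := Finset.range D)]
  · refine Finset.sum_congr rfl fun d hd => ?_
    rw [norm_coeff (nn_tr hf D), coeff_tr, if_pos (Finset.mem_range.1 hd)]
  · intro d hd
    rw [Finset.mem_range] at hd
    rw [coeff_toRS, coeff_tr, if_neg hd]
    simp

lemma coeff_mul_tr {f g : ℤ⟦X⟧} {D d : ℕ} (hd : d < D) : coeff d (f * tr D g) = coeff d (f * g) := by
  rw [coeff_mul, coeff_mul]
  refine Finset.sum_congr rfl fun p hp => ?_
  have := Finset.HasAntidiagonal.mem_antidiagonal.1 hp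
  rw [coeff_tr, if_pos (by omega)]

/-- truncated products -/
lemma nS_tr_mul_le {r : ℝ} (hr : 0 ≤ r) {f g : ℤ⟦X⟧} (hf : Nn f) (hg : Nn g) (hfN : HasN r (toRS f)) (D : ℕ) :
    nS r (toRS (tr D (f * g))) ≤ nS r (toRS f) * nS r (toRS (tr D g)) := by
  rw [← nS_mul_of_nn hr hf (nn_tr hg D) hfN (hasN_tr r D g)]
  refine (hasN_of_le' hr (nn_tr (hf.mul hg) D) (fun d => ?_) ?_).2
  · rw [map_sub, coeff_tr]
    split_ifs with hd
    · rw [coeff_mul_tr hd, sub_self]
    · rw [sub_zero]
      exact (hf.mul (nn_tr hg D)) d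
  · rw [map_mul]
    exact hfN.mul hr (hasN_tr r D g)

lemma tr_add (D : ℕ) (f g : ℤ⟦X⟧) : tr D (f + g) = tr D f + tr D g := by
  ext d
  rw [map_add, coeff_tr, coeff_tr, coeff_tr]
  split_ifs
  · rw [map_add]
  · rw [add_zero]

lemma tr_sum {α : Type*} (D : ℕ) (s : Finset α) (F : α → ℤ⟦X⟧) : tr D (∑ a ∈ s, F a) = ∑ a ∈ s, tr D (F a) := by
  ext d
  rw [coeff_tr, map_sum, map_sum]
  split_ifs with h
  · exact Finset.sum_congr rfl fun a _ => by rw [coeff_tr, if_pos h]
  · symm
    exact Finset.sum_eq_zero fun a _ => by rw [coeff_tr, if_neg h]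

lemma nS_sum_of_nn {α : Type*} {r : ℝ} (hr : 0 ≤ r) (s : Finset α) (F : α → ℤ⟦X⟧) (h : ∀ a ∈ s, Nn (F a))
    (hN : ∀ a ∈ s, HasN r (toRS (F a))) : nS r (toRS (∑ a ∈ s, F a)) = ∑ a ∈ s, nS r (toRS (F a)) := by
  classical
  induction s using Finset.induction_on with
  | empty => simp [nS]
  | insert a s ha ih =>
    rw [Finset.sum_insert ha, Finset.sum_insert ha]
    have h1 : ∀ b ∈ s, Nn (F b) := fun b hb => h b (Finset.mem_insert_of_mem hb)
    have h2 : ∀ b ∈ s, HasN r (toRS (F b)) := fun b hb => hN b (Finset.mem_insert_of_mem hb)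
    rw [nS_add_of_nn hr (h a (Finset.mem_insert_self a s)) (nn_sum s F h1) (hN a (Finset.mem_insert_self a s)) ?_,
      ih h1 h2]
    rw [map_sum]
    exact hasN_sum hr s _ h2

/-- a matrix is good: weights `g > 0`, `θ < 1` with `∑_l ‖B_kl‖ g_l ≤ θ g_k` -/
structure Good (r : ℝ) (g : J → ℝ) (θ : ℝ) (B : Matrix J J ℤ⟦X⟧) : Prop where
  gpos : ∀ k, 0 < g k
  lt : θ < 1
  fin : ∀ k l, HasN r (toRS (B k l))
  le : ∀ k, ∑ l, nS r (toRS (B k l)) * g l ≤ θ * g k

/-- norm bound for the Neumann inverse -/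
theorem Good.bound {r : ℝ} (hr : 0 ≤ r) {g : J → ℝ} {θ : ℝ} {B : Matrix J J ℤ⟦X⟧} (hG : Good r g θ B)
    (hB : ∀ i j, coeff 0 (B i j) = 0) (hBn : ∀ i j, Nn (B i j)) (i : J) :
    (∀ j, HasN r (toRS (neu B i j))) ∧ ∑ j, nS r (toRS (neu B i j)) * g j ≤ g i / (1 - θ) := by
  have h1θ : 0 < 1 - θ := by linarith [hG.lt]
  have hneu := nn_neu hB hBn
  set S : ℕ → J → ℝ := fun D i => ∑ j, nS r (toRS (tr D (neu B i j))) * g j with hS
  have hS1 : ∀ D i, S D i ≤ g i + ∑ k, nS r (toRS (B i k)) * S D k := by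
    intro D i
    have h1 : ∀ j, nS r (toRS (tr D (neu B i j))) ≤ (1 : Matrix J J ℝ) i j +
        ∑ k, nS r (toRS (B i k)) * nS r (toRS (tr D (neu B k j))) := by
      intro j
      rw [neu_eq hB i j, tr_add, tr_sum]
      rw [nS_add_of_nn hr (nn_tr (nn_one_apply i j) D)
        (nn_sum _ _ fun k _ => nn_tr ((hBn i k).mul (hneu k j)) D) (hasN_tr r D _) ?_]
      · refine add_le_add ?_ ?_
        · rw [nS_tr (nn_one_apply i j)]
          rw [Matrix.one_apply, Matrix.one_apply]
          split_ifs with hij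
          · calc ∑ d ∈ Finset.range D, ((coeff d (1 : ℤ⟦X⟧) : ℤ) : ℝ) * r ^ d
                ≤ ∑ d ∈ Finset.range D, (if d = 0 then (1 : ℝ) else 0) := by
                  refine Finset.sum_le_sum fun d _ => ?_
                  rw [coeff_one]
                  split_ifs with hd
                  · rw [hd]; simp
                  · simp
              _ ≤ 1 := by
                  rw [Finset.sum_ite_eq']
                  split_ifs <;> norm_num
          · simp
        · rw [nS_sum_of_nn hr _ _ (fun k _ => nn_tr ((hBn i k).mul (hneu k j)) D) fun k _ => hasN_tr r D _]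
          exact Finset.sum_le_sum fun k _ => nS_tr_mul_le hr (hBn i k) (hneu k j) (hG.fin i k) D
      · rw [map_sum]
        exact hasN_sum hr _ _ fun k _ => hasN_tr r D _
    calc S D i ≤ ∑ j, ((1 : Matrix J J ℝ) i j + ∑ k, nS r (toRS (B i k)) * nS r (toRS (tr D (neu B k j)))) * g j :=
          Finset.sum_le_sum fun j _ => mul_le_mul_of_nonneg_right (h1 j) (hG.gpos j).le
      _ = g i + ∑ k, nS r (toRS (B i k)) * S D k := by
          simp only [add_mul, Finset.sum_add_distrib, hS]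
          congr 1
          · simp [Matrix.one_apply]
          · simp only [Finset.sum_mul, Finset.mul_sum]
            rw [Finset.sum_comm]
            refine Finset.sum_congr rfl fun k _ => Finset.sum_congr rfl fun j _ => by ring
  have hS2 : ∀ D i, S D i ≤ g i / (1 - θ) := by
    intro D i
    obtain ⟨k0, -, hk0⟩ := Finset.exists_max_image Finset.univ (fun k => S D k / g k) ⟨i, Finset.mem_univ i⟩
    set m := S D k0 / g k0 with hm
    have hmk : ∀ k, S D k ≤ m * g k := by
      intro k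
      have := hk0 k (Finset.mem_univ k)
      rwa [div_le_iff₀ (hG.gpos k)] at this
    have hm1 : m ≤ 1 + θ * m := by
      have hm0 : 0 ≤ m := by
        refine div_nonneg (Finset.sum_nonneg fun j _ => mul_nonneg (nS_nonneg hr _) (hG.gpos j).le) (hG.gpos k0).le
      have h2 : S D k0 ≤ g k0 + θ * g k0 * m := by
        calc S D k0 ≤ g k0 + ∑ k, nS r (toRS (B k0 k)) * S D k := hS1 D k0
          _ ≤ g k0 + ∑ k, nS r (toRS (B k0 k)) * (m * g k) := by
              gcongr with k _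
              · exact nS_nonneg hr _
              · exact hmk k
          _ = g k0 + (∑ k, nS r (toRS (B k0 k)) * g k) * m := by
              rw [Finset.sum_mul]
              congr 1
              exact Finset.sum_congr rfl fun k _ => by ring
          _ ≤ _ := by
              have := mul_le_mul_of_nonneg_right (hG.le k0) hm0
              linarith
      rw [hm, div_le_iff₀ (hG.gpos k0)]
      calc S D k0 ≤ g k0 + θ * g k0 * m := h2
        _ = (1 + θ * m) * g k0 := by ring
    have hm2 : m ≤ 1 / (1 - θ) := by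
      rw [le_div_iff₀ h1θ]
      linarith
    calc S D i ≤ m * g i := hmk i
      _ ≤ 1 / (1 - θ) * g i := mul_le_mul_of_nonneg_right hm2 (hG.gpos i).le
      _ = g i / (1 - θ) := by ring
  have hps : ∀ D, ∑ j, (∑ d ∈ Finset.range D, ((coeff d (neu B i j) : ℤ) : ℝ) * r ^ d) * g j ≤ g i / (1 - θ) := by
    intro D
    have := hS2 D i
    simp only [hS] at this
    refine le_trans (le_of_eq ?_) this
    exact Finset.sum_congr rfl fun j _ => by rw [nS_tr (hneu i j)]
  have hfin : ∀ j, HasN r (toRS (neu B i j)) := by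
    intro j
    unfold HasN
    refine summable_of_sum_range_le (c := (g i / (1 - θ)) / g j)
      (fun n => mul_nonneg (norm_nonneg _) (pow_nonneg hr n)) fun D => ?_
    rw [le_div_iff₀ (hG.gpos j)]
    refine le_trans ?_ (hps D)
    have h3 : (∑ d ∈ Finset.range D, ((coeff d (neu B i j) : ℤ) : ℝ) * r ^ d) * g j ≤
        ∑ j, (∑ d ∈ Finset.range D, ((coeff d (neu B i j) : ℤ) : ℝ) * r ^ d) * g j :=
      Finset.single_le_sum (f := fun j => (∑ d ∈ Finset.range D, ((coeff d (neu B i j) : ℤ) : ℝ) * r ^ d) * g j)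
        (fun j _ => mul_nonneg (Finset.sum_nonneg fun d _ => mul_nonneg (by exact_mod_cast hneu i j d)
          (pow_nonneg hr d)) (hG.gpos j).le) (Finset.mem_univ j)
    refine le_trans (le_of_eq ?_) h3
    congr 1
    exact Finset.sum_congr rfl fun d _ => by rw [norm_coeff (hneu i j)]
  refine ⟨hfin, ?_⟩
  have hlim : Filter.Tendsto (fun D => ∑ j, (∑ d ∈ Finset.range D, ((coeff d (neu B i j) : ℤ) : ℝ) * r ^ d) * g j)
      Filter.atTop (nhds (∑ j, nS r (toRS (neu B i j)) * g j)) := by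
    refine tendsto_finsetSum _ fun j _ => ?_
    refine Filter.Tendsto.mul_const _ ?_
    have h4 : nS r (toRS (neu B i j)) = ∑' d, ((coeff d (neu B i j) : ℤ) : ℝ) * r ^ d := by
      unfold nS
      exact tsum_congr fun d => by rw [norm_coeff (hneu i j)]
    rw [h4]
    refine Summable.tendsto_sum_tsum_nat ?_
    refine (summable_congr fun d => ?_).1 (hfin j)
    rw [norm_coeff (hneu i j)]
  exact le_of_tendsto' hlim hps

end Pool.Agent.SSE.HN
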