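import Pool.Agent.SSE.HDefs
import Pool.Agent.SSE.HM1

/-!
# SSE project, hub part, HGood: matrices of series of small norm, first passage series
-/

set_option autoImplicit false

open scoped BigOperators
open Matrix Polynomial

namespace Pool.Agent.SSE

attribute [local instance] Classical.propDecidable

variable {F : Type} [Fintype F] {r : ℝ}

lemma TS.add {f g : PowerSeries ℤ} (hr : 0 ≤ r) (hf : TS r f) (hg : TS r g) : TS r (f + g) where
  c0 := by rw [map_add, hf.c0, hg.c0, add_zero]
  nn := hf.nn.add hg.nn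
  fn := by
    unfold FN
    rw [map_add]
    exact hf.fn.add hr hg.fn

lemma TS.zero : TS r 0 where
  c0 := by simp
  nn := HN.nn_zero
  fn := by
    unfold FN
    rw [map_zero]
    exact PF.hasN_zero r

lemma hgood_coeff_zero_mul (f g : PowerSeries ℤ) :
    PowerSeries.coeff 0 (f * g) = PowerSeries.coeff 0 f * PowerSeries.coeff 0 g := by
  rw [PowerSeries.coeff_mul]
  simp

lemma TS.mul_left {f g : PowerSeries ℤ} (hr : 0 ≤ r) (hf : HN.Nn f) (hf' : FN r f) (hg : TS r g) :
    TS r (f * g) where
  c0 := by rw [hgood_coeff_zero_mul, hg.c0, mul_zero]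
  nn := hf.mul hg.nn
  fn := by
    unfold FN
    rw [map_mul]
    exact hf'.mul hr hg.fn

lemma TS.mul {f g : PowerSeries ℤ} (hr : 0 ≤ r) (hf : TS r f) (hg : TS r g) : TS r (f * g) :=
  TS.mul_left hr hf.nn hf.fn hg

lemma TS.sum {α : Type*} (hr : 0 ≤ r) (t : Finset α) (f : α → PowerSeries ℤ)
    (h : ∀ a ∈ t, TS r (f a)) : TS r (∑ a ∈ t, f a) where
  c0 := by
    rw [map_sum]
    exact Finset.sum_eq_zero fun a ha => (h a ha).c0
  nn := HN.nn_sum t f fun a ha => (h a ha).nn
  fn := by
    unfold FN
    rw [map_sum]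
    exact PF.hasN_sum hr t _ fun a ha => (h a ha).fn

lemma FN.mono {r' : ℝ} {f : PowerSeries ℤ} (hr' : 0 ≤ r') (h : r' ≤ r) (hf : FN r f) : FN r' f :=
  PF.HasN.mono hr' h hf

lemma TS.mono {r' : ℝ} {f : PowerSeries ℤ} (hr' : 0 ≤ r') (h : r' ≤ r) (hf : TS r f) : TS r' f where
  c0 := hf.c0
  nn := hf.nn
  fn := hf.fn.mono hr' h

lemma FN.add {f g : PowerSeries ℤ} (hr : 0 ≤ r) (hf : FN r f) (hg : FN r g) : FN r (f + g) := by
  unfold FN at *
  rw [map_add]
  exact hf.add hr hg

lemma FN.sub {f g : PowerSeries ℤ} (hr : 0 ≤ r) (hf : FN r f) (hg : FN r g) : FN r (f - g) := by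
  unfold FN at *
  rw [map_sub]
  exact hf.sub hr hg

lemma FN.mul {f g : PowerSeries ℤ} (hr : 0 ≤ r) (hf : FN r f) (hg : FN r g) : FN r (f * g) := by
  unfold FN at *
  rw [map_mul]
  exact hf.mul hr hg

lemma FN.sum {α : Type*} (hr : 0 ≤ r) (t : Finset α) (f : α → PowerSeries ℤ)
    (h : ∀ a ∈ t, FN r (f a)) : FN r (∑ a ∈ t, f a) := by
  unfold FN at *
  rw [map_sum]
  exact PF.hasN_sum hr t _ h

lemma FN.geo {s : PowerSeries ℤ} (hr : 0 ≤ r) (hs : TS r s) (hs1 : sn r s < 1) :
    FN r (HN.geo s) := HN.hasN_geo hr hs.c0 hs.fn hs1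

lemma Nn.geo {s : PowerSeries ℤ} (hs : TS r s) : HN.Nn (HN.geo s) := HN.nn_geo hs.c0 hs.nn

/-- the norm of `1/(1-s)` -/
lemma sn_geo_mul {s : PowerSeries ℤ} (hr : 0 ≤ r) (hs : TS r s) (hs1 : sn r s < 1) :
    sn r (HN.geo s) * (1 - sn r s) = 1 := by
  have hg := FN.geo hr hs hs1
  have hn := Nn.geo hs
  have h1 : sn r (HN.geo s) = 1 + sn r s * sn r (HN.geo s) := by
    have h2 : sn r (1 + s * HN.geo s) = sn r 1 + sn r (s * HN.geo s) := by
      refine HN.nS_add_of_nn hr HN.nn_one (hs.nn.mul hn) ?_ (FN.mul hr hs.fn hg)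
      rw [map_one]
      exact PF.hasN_one r
    have h3 : sn r (s * HN.geo s) = sn r s * sn r (HN.geo s) :=
      HN.nS_mul_of_nn hr hs.nn hn hs.fn hg
    have h4 : sn r (1 : PowerSeries ℤ) = 1 := by
      unfold sn
      rw [map_one]
      exact PF.nS_one r
    rw [← h4, ← h3, ← h2, ← HN.geo_eq hs.c0]
  linarith

/-- the resolvent `(1 - M)⁻¹` -/
theorem Good.resolvent (hr : 0 ≤ r) {M : Matrix F F (PowerSeries ℤ)} (hM : ∀ i j, TS r (M i j))
    (hg : Good r M) : ∃ G : Matrix F F (PowerSeries ℤ),
      (∀ i j, HN.Nn (G i j) ∧ FN r (G i j)) ∧ G * (1 - M) = 1 ∧ (1 - M) * G = 1 := by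
  obtain ⟨g, θ, h⟩ := hg
  have h0 : ∀ i j, PowerSeries.coeff 0 (M i j) = 0 := fun i j => (hM i j).c0
  have hgood : HN.Good r g θ M := ⟨h.pos, h.lt, fun i j => (hM i j).fn, h.row⟩
  refine ⟨HN.neu M, fun i j => ⟨HN.nn_neu h0 (fun i j => (hM i j).nn) i j, ?_⟩,
    HN.neu_mul_one_sub h0, HN.one_sub_mul_neu h0⟩
  exact (HN.Good.bound hr hgood h0 (fun i j => (hM i j).nn) i).1 j

/-- the weights survive the expansion of a row -/
theorem GoodW.expand (hr : 0 ≤ r) {g : F → ℝ} {θ : ℝ} {M : Matrix F F (PowerSeries ℤ)}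
    (hM : ∀ i j, TS r (M i j)) (h : GoodW r g θ M) (f : F) (W N : F → PowerSeries ℤ)
    (hW : ∀ k, HN.Nn (W k)) (hWf : ∀ k, FN r (W k))
    (hN : ∀ j, N j = M f j - W j + ∑ k, W k * M k j) (hNn : ∀ j, HN.Nn (N j)) :
    GoodW r g θ (M.updateRow f N) := by
  refine ⟨h.pos, h.nonneg, h.lt, fun i => ?_⟩
  rcases eq_or_ne i f with rfl | hif
  · have hS : ∀ j, FN r (∑ k, W k * M k j) := fun j =>
      FN.sum hr _ _ fun k _ => FN.mul hr (hWf k) (hM k j).fn
    have hNf : ∀ j, FN r (N j) := fun j => by
      rw [hN j]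
      exact FN.add hr (FN.sub hr (hM i j).fn (hWf j)) (hS j)
    have key : ∀ j, sn r (N j) + sn r (W j) = sn r (M i j) + ∑ k, sn r (W k) * sn r (M k j) := by
      intro j
      have e1 : N j + W j = M i j + ∑ k, W k * M k j := by rw [hN j]; ring
      have e2 : sn r (N j + W j) = sn r (N j) + sn r (W j) :=
        HN.nS_add_of_nn hr (hNn j) (hW j) (hNf j) (hWf j)
      have e3 : sn r (M i j + ∑ k, W k * M k j) = sn r (M i j) + sn r (∑ k, W k * M k j) :=
        HN.nS_add_of_nn hr (hM i j).nn (HN.nn_sum _ _ fun k _ => (hW k).mul (hM k j).nn)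
          (hM i j).fn (hS j)
      have e4 : sn r (∑ k, W k * M k j) = ∑ k, sn r (W k) * sn r (M k j) := by
        have e5 : sn r (∑ k, W k * M k j) = ∑ k, sn r (W k * M k j) :=
          HN.nS_sum_of_nn hr _ _ (fun k _ => (hW k).mul (hM k j).nn)
            fun k _ => FN.mul hr (hWf k) (hM k j).fn
        rw [e5]
        exact Finset.sum_congr rfl fun k _ =>
          HN.nS_mul_of_nn hr (hW k) (hM k j).nn (hWf k) (hM k j).fn
      rw [← e2, e1, e3, e4]
    have h1 : ∑ j, sn r (N j) * g j + ∑ j, sn r (W j) * g j =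
        ∑ j, sn r (M i j) * g j + ∑ k, sn r (W k) * ∑ j, sn r (M k j) * g j := by
      have e1 : ∑ j, (sn r (N j) + sn r (W j)) * g j =
          ∑ j, (sn r (M i j) + ∑ k, sn r (W k) * sn r (M k j)) * g j :=
        Finset.sum_congr rfl fun j _ => by rw [key j]
      simp only [add_mul, Finset.sum_add_distrib] at e1
      rw [e1]
      congr 1
      simp only [Finset.sum_mul, Finset.mul_sum]
      rw [Finset.sum_comm]
      exact Finset.sum_congr rfl fun k _ => Finset.sum_congr rfl fun j _ => by ring
    have h2 : ∑ k, sn r (W k) * ∑ j, sn r (M k j) * g j ≤ ∑ k, sn r (W k) * g k := by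
      refine Finset.sum_le_sum fun k _ => mul_le_mul_of_nonneg_left ?_ (PF.nS_nonneg hr _)
      refine (h.row k).trans ?_
      have := mul_le_mul_of_nonneg_right h.lt.le (h.pos k).le
      linarith
    have h3 := h.row i
    have h4 : ∑ k, sn r (M.updateRow i N i k) * g k = ∑ k, sn r (N k) * g k := by
      refine Finset.sum_congr rfl fun k _ => ?_
      rw [Matrix.updateRow_self]
    rw [h4]
    linarith
  · have h4 : ∑ k, sn r (M.updateRow f N i k) * g k = ∑ k, sn r (M i k) * g k := by
      refine Finset.sum_congr rfl fun k _ => ?_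
      rw [Matrix.updateRow_ne hif]
    rw [h4]
    exact h.row i

/-- the weights survive an isolation -/
theorem GoodW.divide (hr : 0 ≤ r) {g : F → ℝ} {θ : ℝ} {M : Matrix F F (PowerSeries ℤ)}
    (hM : ∀ i j, TS r (M i j)) (h : GoodW r g θ M) (f : F) (s : PowerSeries ℤ) (hs : TS r s)
    (hs1 : sn r s < 1) (hle : HN.Nn (M f f - s)) :
    GoodW r g θ (M.updateRow f fun j => HN.geo s * (M f j - if j = f then s else 0)) := by
  refine ⟨h.pos, h.nonneg, h.lt, fun i => ?_⟩
  rcases eq_or_ne i f with rfl | hif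
  · set σ := sn r s with hσ
    have hσ0 : 0 ≤ σ := PF.nS_nonneg hr _
    have hgeo := sn_geo_mul hr hs hs1
    have hgf := FN.geo hr hs hs1
    have hgn := Nn.geo hs
    have hg0 : 0 ≤ sn r (HN.geo s) := PF.nS_nonneg hr _
    have key : ∀ j, sn r (HN.geo s * (M i j - if j = i then s else 0)) =
        sn r (HN.geo s) * (sn r (M i j) - if j = i then σ else 0) := by
      intro j
      have e1 : HN.Nn (M i j - if j = i then s else 0) := by
        split_ifs with hj
        · rw [hj]; exact hle
        · rw [sub_zero]; exact (hM i j).nn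
      have e2 : FN r (M i j - if j = i then s else 0) := by
        split_ifs with hj
        · exact FN.sub hr (hM i j).fn hs.fn
        · rw [sub_zero]; exact (hM i j).fn
      have e3 : sn r (HN.geo s * (M i j - if j = i then s else 0)) =
          sn r (HN.geo s) * sn r (M i j - if j = i then s else 0) :=
        HN.nS_mul_of_nn hr hgn e1 hgf e2
      rw [e3]
      congr 1
      split_ifs with hj
      · rw [if_pos hj] at e1 e2
        have e4 : sn r (M i j - s + s) = sn r (M i j - s) + sn r s :=
          HN.nS_add_of_nn hr e1 hs.nn e2 hs.fn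
        rw [sub_add_cancel] at e4
        rw [e4, hσ]
        ring
      · rw [sub_zero, sub_zero]
    have h4 : ∑ k, sn r (M.updateRow i (fun j => HN.geo s * (M i j - if j = i then s else 0)) i k)
        * g k = sn r (HN.geo s) * (∑ k, sn r (M i k) * g k - σ * g i) := by
      calc _ = ∑ k, sn r (HN.geo s) * (sn r (M i k) * g k - (if k = i then σ else 0) * g k) := by
            refine Finset.sum_congr rfl fun k _ => ?_
            rw [Matrix.updateRow_self, key k]
            ring
        _ = _ := by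
            rw [← Finset.mul_sum, Finset.sum_sub_distrib]
            congr 2
            simp
    rw [h4]
    have h3 := h.row i
    have h5 : ∑ k, sn r (M i k) * g k - σ * g i ≤ (1 - σ) * (θ * g i) := by
      have h6 : 0 ≤ σ * g i := mul_nonneg hσ0 (h.pos i).le
      have h7 : σ * (θ * g i) ≤ σ * g i := by
        refine mul_le_mul_of_nonneg_left ?_ hσ0
        have := mul_le_mul_of_nonneg_right h.lt.le (h.pos i).le
        linarith
      linarith
    calc _ ≤ sn r (HN.geo s) * ((1 - σ) * (θ * g i)) := mul_le_mul_of_nonneg_left h5 hg0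
      _ = (sn r (HN.geo s) * (1 - σ)) * (θ * g i) := by ring
      _ = θ * g i := by rw [hgeo, one_mul]
  · have h4 : ∑ k, sn r (M.updateRow f (fun j => HN.geo s * (M f j - if j = f then s else 0)) i k)
        * g k = ∑ k, sn r (M i k) * g k := by
      refine Finset.sum_congr rfl fun k _ => ?_
      rw [Matrix.updateRow_ne hif]
    rw [h4]
    exact h.row i

/-- a smaller radius -/
theorem GoodW.mono {r' : ℝ} (hr' : 0 ≤ r') (hrr : r' ≤ r) {g : F → ℝ} {θ : ℝ}
    {M : Matrix F F (PowerSeries ℤ)} (hM : ∀ i j, TS r (M i j)) (h : GoodW r g θ M) :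
    GoodW r' g θ M := by
  refine ⟨h.pos, h.nonneg, h.lt, fun i => le_trans ?_ (h.row i)⟩
  exact Finset.sum_le_sum fun k _ =>
    mul_le_mul_of_nonneg_right (PF.nS_mono hr' hrr (hM i k).fn) (h.pos k).le

/-- first passage series exist -/
theorem exists_FP (hr : 0 ≤ r) {p : Matrix (Option F) (Option F) (PowerSeries ℤ)}
    (hp : ∀ i j, TS r (p i j)) (hg : Good r (pFF p)) : ∃ φ, FP p φ ∧ ∀ f, TS r (φ f) := by
  obtain ⟨G, hG, -, hG2⟩ := Good.resolvent hr (M := pFF p) (fun i j => hp _ _) hg
  refine ⟨fun f => ∑ k, G f k * p (some k) none, fun f => ?_, fun f => ?_⟩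
  · have h1 : ((1 - pFF p) * G) *ᵥ (fun k => p (some k) none) = fun k => p (some k) none := by
      rw [hG2, Matrix.one_mulVec]
    rw [← Matrix.mulVec_mulVec, Matrix.sub_mulVec, Matrix.one_mulVec] at h1
    have h2 := congrFun h1 f
    rw [Pi.sub_apply] at h2
    have h3 : (G *ᵥ fun k => p (some k) none) = fun f => ∑ k, G f k * p (some k) none := by
      funext i
      rfl
    rw [h3] at h2
    have h4 : (pFF p *ᵥ fun f => ∑ k, G f k * p (some k) none) f =
        ∑ k, p (some f) (some k) * ∑ l, G k l * p (some l) none := rfl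
    rw [h4] at h2
    linear_combination h2
  · exact TS.sum hr _ _ fun k _ => TS.mul_left hr (hG f k).1 (hG f k).2 (hp _ _)

/-- they are unique -/
theorem FP.unique {p : Matrix (Option F) (Option F) (PowerSeries ℤ)}
    (h0 : ∀ f k, PowerSeries.coeff 0 (p (some f) (some k)) = 0) {φ φ' : F → PowerSeries ℤ}
    (h : FP p φ) (h' : FP p φ') : φ = φ' := by
  have h1 : (1 - pFF p) *ᵥ (φ - φ') = 0 := by
    funext f
    rw [Matrix.sub_mulVec, Matrix.one_mulVec, Pi.sub_apply, Pi.sub_apply, Pi.zero_apply]
    have h2 : (pFF p *ᵥ (φ - φ')) f =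
        ∑ k, p (some f) (some k) * φ k - ∑ k, p (some f) (some k) * φ' k := by
      rw [← Finset.sum_sub_distrib]
      refine Finset.sum_congr rfl fun k _ => ?_
      rw [Pi.sub_apply, mul_sub]
      rfl
    rw [h2]
    linear_combination h f - h' f
  have h3 : HN.neu (pFF p) *ᵥ ((1 - pFF p) *ᵥ (φ - φ')) = 0 := by rw [h1, Matrix.mulVec_zero]
  have h0' : ∀ i j, PowerSeries.coeff 0 (pFF p i j) = 0 := fun i j => h0 i j
  rw [Matrix.mulVec_mulVec, HN.neu_mul_one_sub h0', Matrix.one_mulVec] at h3
  exact sub_eq_zero.1 h3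

lemma hgood_row_eq {p : Matrix (Option F) (Option F) (PowerSeries ℤ)}
    {φ : F → PowerSeries ℤ} (h : FP p φ) (i : Option F) (W : F → PowerSeries ℤ)
    (N : Option F → PowerSeries ℤ)
    (hN : ∀ j, N j = p i j - (j.elim 0 W) + ∑ k, W k * p (some k) j) :
    N none + ∑ k, N (some k) * φ k = p i none + ∑ k, p i (some k) * φ k := by
  have h1 : N none = p i none + ∑ k, W k * p (some k) none := by
    rw [hN none]
    simp
  have h2 : ∑ j, N (some j) * φ j = ∑ j, p i (some j) * φ j - ∑ j, W j * φ j +
      ∑ k, W k * ∑ j, p (some k) (some j) * φ j := by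
    have e1 : ∀ j, N (some j) * φ j = p i (some j) * φ j - W j * φ j +
        ∑ k, W k * (p (some k) (some j) * φ j) := by
      intro j
      rw [hN (some j), Option.elim_some, add_mul, sub_mul, Finset.sum_mul]
      congr 1
      exact Finset.sum_congr rfl fun k _ => by ring
    rw [Finset.sum_congr rfl fun j _ => e1 j, Finset.sum_add_distrib, Finset.sum_sub_distrib,
      Finset.sum_comm]
    congr 1
    exact Finset.sum_congr rfl fun k _ => by rw [Finset.mul_sum]
  have h3 : ∑ k, W k * φ k = ∑ k, W k * p (some k) none +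
      ∑ k, W k * ∑ j, p (some k) (some j) * φ j := by
    rw [← Finset.sum_add_distrib]
    refine Finset.sum_congr rfl fun k _ => ?_
    rw [← mul_add, ← h k]
  rw [h1, h2, h3]
  ring

/-- the expansion of a row of `F` does not change the first passage series -/
theorem FP.expand_some {p : Matrix (Option F) (Option F) (PowerSeries ℤ)}
    {φ : F → PowerSeries ℤ} (h : FP p φ) (f : F) (W : F → PowerSeries ℤ)
    (N : Option F → PowerSeries ℤ)
    (hN : ∀ j, N j = p (some f) j - (j.elim 0 W) + ∑ k, W k * p (some k) j) :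
    FP (p.updateRow (some f) N) φ := by
  intro i
  rcases eq_or_ne i f with rfl | hif
  · rw [Matrix.updateRow_self, hgood_row_eq h (some i) W N hN]
    exact h i
  · have hne : (some i : Option F) ≠ some f := fun h => hif (Option.some_injective _ h)
    rw [Matrix.updateRow_ne hne]
    exact h i

/-- the expansion of the row of the main hub does not change the first return series -/
theorem Hret_expand_none {p : Matrix (Option F) (Option F) (PowerSeries ℤ)}
    {φ : F → PowerSeries ℤ} (h : FP p φ) (W : F → PowerSeries ℤ) (N : Option F → PowerSeries ℤ)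
    (hN : ∀ j, N j = p none j - (j.elim 0 W) + ∑ k, W k * p (some k) j) :
    FP (p.updateRow none N) φ ∧ Hret (p.updateRow none N) φ = Hret p φ := by
  constructor
  · intro i
    have hne : (some i : Option F) ≠ none := by simp
    rw [Matrix.updateRow_ne hne]
    exact h i
  · unfold Hret
    rw [Matrix.updateRow_self]
    exact hgood_row_eq h none W N hN

/-- Schur complement with a given solution vector -/
lemma hgood_det_option {R : Type*} [CommRing R]
    (A : Matrix (Option F) (Option F) R) (v : F → R)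
    (h : ∀ f, A (some f) none + ∑ k, A (some f) (some k) * v k = 0) :
    A.det = (A none none + ∑ k, A none (some k) * v k) * (A.submatrix some some).det := by
  set w : Option F → R := fun i => i.elim 1 v with hw
  have hAw : A *ᵥ w = Pi.single none (A none none + ∑ k, A none (some k) * v k) := by
    funext i
    rw [Matrix.mulVec, dotProduct, Fintype.sum_option]
    cases i with
    | none => simp [hw]
    | some f =>
      have := h f
      simp only [hw, Option.elim_none, Option.elim_some, mul_one, this]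
      rw [Pi.single_eq_of_ne (by simp)]
  have h1 : (A.updateCol none (A *ᵥ w)).det = A.det := by
    rw [← Matrix.cramer_apply, Matrix.cramer_eq_adjugate_mulVec, Matrix.mulVec_mulVec,
      Matrix.adjugate_mul, Matrix.smul_mulVec, Matrix.one_mulVec]
    simp [hw]
  rw [← h1, hAw]
  set c := A none none + ∑ k, A none (some k) * v k with hc
  set B := A.updateCol none (Pi.single none c) with hB
  have e1 : B.det = (B.submatrix (Equiv.optionEquivSumPUnit.{0} F).symm
      (Equiv.optionEquivSumPUnit F).symm).det := by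
    rw [Matrix.det_submatrix_equiv_self]
  have e2 : B.submatrix (Equiv.optionEquivSumPUnit.{0} F).symm (Equiv.optionEquivSumPUnit F).symm =
      fromBlocks (A.submatrix some some) 0 (of fun _ j => A none (some j)) (of fun _ _ => c) := by
    ext i j
    rcases i with i | i <;> rcases j with j | j
    · simp [hB, Matrix.updateCol_apply]
    · simp [hB, Matrix.updateCol_apply]
    · simp [hB, Matrix.updateCol_apply]
    · simp [hB, Matrix.updateCol_apply]
  rw [e1, e2, Matrix.det_fromBlocks_zero₁₂, mul_comm]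
  congr 1
  rw [Matrix.det_unique]
  rfl

/-- the determinant -/
theorem det_one_sub {p : Matrix (Option F) (Option F) (PowerSeries ℤ)} {φ : F → PowerSeries ℤ}
    (h : FP p φ) : (1 - p).det = (1 - Hret p φ) * (1 - pFF p).det := by
  have hone : ∀ f k : F, (1 : Matrix (Option F) (Option F) (PowerSeries ℤ)) (some f) (some k) =
      (1 : Matrix F F (PowerSeries ℤ)) f k := by
    intro f k
    rw [Matrix.one_apply, Matrix.one_apply]
    simp
  rw [hgood_det_option (1 - p) φ]
  · congr 1
    · rw [Matrix.sub_apply, Matrix.one_apply_eq]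
      have : ∑ k, (1 - p) none (some k) * φ k = -∑ k, p none (some k) * φ k := by
        rw [← Finset.sum_neg_distrib]
        refine Finset.sum_congr rfl fun k _ => ?_
        rw [Matrix.sub_apply, Matrix.one_apply_ne (by simp)]
        ring
      rw [this]
      unfold Hret
      ring
    · congr 1
      ext f k
      rw [Matrix.submatrix_apply, Matrix.sub_apply, Matrix.sub_apply, hone]
      rfl
  · intro f
    have h1 : ∑ k, (1 - p) (some f) (some k) * φ k = φ f - ∑ k, p (some f) (some k) * φ k := by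
      have h2 : ∀ k, (1 - p) (some f) (some k) * φ k =
          (1 : Matrix F F (PowerSeries ℤ)) f k * φ k - p (some f) (some k) * φ k := by
        intro k
        rw [Matrix.sub_apply, hone]
        ring
      rw [Finset.sum_congr rfl fun k _ => h2 k, Finset.sum_sub_distrib]
      congr 1
      have h3 := congrFun (Matrix.one_mulVec φ) f
      rw [← h3]
      rfl
    rw [h1, Matrix.sub_apply, Matrix.one_apply_ne (by simp)]
    linear_combination h f

end Pool.Agent.SSE
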