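import Pool.Agent.SSE.HR
import Pool.Agent.SSE.HGood
import Pool.Agent.SSE.HDet
import Pool.Agent.SSE.S1e

/-!
# SSE project, hub part: norms and values of limits, the `τ` identities

For a limit: nonnegative coefficients, finite norms, `τ_i = ∑_j Pinf_ij(x0) τ_j`, `x0 = 1/lam`.
For a hub state: `q_y(x0) τ_x = (1 - s_y(x0)) τ_y`, `φ_f(x0) τ_x = τ_f`, `H(x0) = 1`.
First passage series have finite norm (`FP.ts_of_good`).
-/

set_option autoImplicit false

open scoped BigOperators
open Matrix Polynomial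

namespace Pool.Agent.SSE

attribute [local instance] Classical.propDecidable

/-! ### values of series -/

lemma htau_toRS_poly (p : ℕ[X]) : HN.toRS (ps (toZ p)) = ((toR (toZ p) : ℝ[X]) : PowerSeries ℝ) := by
  ext n
  rw [HN.coeff_toRS, coeff_ps, Polynomial.coeff_coe]
  simp [toR]

lemma sv_poly (x : ℝ) (p : ℕ[X]) : sv x (ps (toZ p)) = evp x p := by
  unfold sv
  rw [htau_toRS_poly, PF.ev_poly]
  unfold evp toR toZ
  rw [Polynomial.coe_mapRingHom, Polynomial.map_map, Polynomial.eval_map]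
  congr 1

lemma fn_poly (r : ℝ) (p : ℕ[X]) : FN r (ps (toZ p)) := by
  unfold FN
  rw [htau_toRS_poly]
  exact PF.hasN_poly r _

lemma sn_poly (r : ℝ) (p : ℕ[X]) : sn r (ps (toZ p)) = wn r (toR (toZ p)) := by
  unfold sn
  rw [htau_toRS_poly, PF.nS_poly]
  rfl

/-- a series without low coefficients has a small value at a smaller radius -/
lemma htau_small {r x0 : ℝ} (hx : 0 < x0) (hxr : x0 ≤ r) {f : PowerSeries ℤ} (hf : FN r f) {T : ℕ}
    (h0 : ∀ n < T, PowerSeries.coeff n f = 0) : |sv x0 f| ≤ (x0 / r) ^ T * sn r f := by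
  have hr : 0 < r := lt_of_lt_of_le hx hxr
  have hN : PF.HasN x0 (HN.toRS f) := PF.HasN.mono hx.le hxr hf
  have h1 : ‖PF.ev x0 (HN.toRS f)‖ ≤ PF.nS x0 (HN.toRS f) :=
    PF.norm_ev_le hN (by rw [Real.norm_of_nonneg hx.le])
  rw [Real.norm_eq_abs] at h1
  refine h1.trans ?_
  unfold sn PF.nS
  rw [← tsum_mul_left]
  refine Summable.tsum_le_tsum (fun n => ?_) hN (Summable.mul_left _ hf)
  by_cases hn : n < T
  · rw [HN.coeff_toRS, h0 n hn]
    simp
  · have h2 : x0 ^ n = (x0 / r) ^ n * r ^ n := by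
      rw [← mul_pow, div_mul_cancel₀ _ hr.ne']
    have h3 : (x0 / r) ^ n ≤ (x0 / r) ^ T :=
      pow_le_pow_of_le_one (by positivity) ((div_le_one hr).2 hxr) (not_lt.1 hn)
    rw [h2]
    calc ‖PowerSeries.coeff n (HN.toRS f)‖ * ((x0 / r) ^ n * r ^ n)
        = (x0 / r) ^ n * (‖PowerSeries.coeff n (HN.toRS f)‖ * r ^ n) := by ring
      _ ≤ (x0 / r) ^ T * (‖PowerSeries.coeff n (HN.toRS f)‖ * r ^ n) :=
        mul_le_mul_of_nonneg_right h3 (mul_nonneg (norm_nonneg _) (pow_nonneg hr.le _))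

lemma htau_sv_le {r x0 : ℝ} (hx : 0 < x0) (hxr : x0 ≤ r) {f : PowerSeries ℤ} (hf : FN r f) :
    |sv x0 f| ≤ sn r f := by
  have := htau_small hx hxr hf (T := 0) (by intro n hn; omega)
  simpa using this

lemma htau_sv_nonneg {x0 : ℝ} (hx : 0 < x0) {f : PowerSeries ℤ} (hf : HN.Nn f) : 0 ≤ sv x0 f := by
  unfold sv PF.ev
  refine tsum_nonneg fun n => mul_nonneg ?_ (pow_nonneg hx.le _)
  rw [HN.coeff_toRS]
  exact_mod_cast hf n

section

variable {K : Type} [AddCommGroup K] [Module ℤ[X] K] {δ : ℤ[X]} {qB : ℕ[X]} {S0 : PX K δ qB}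
  {I : Type} [Fintype I] {cl : I → K} {x : I} {r : ℝ} {Pinf : Matrix I I (PowerSeries ℤ)}

lemma ReachE.c0 (h : ReachE S0 cl x r Pinf) (i j : I) : PowerSeries.coeff 0 (Pinf i j) = 0 := by
  obtain ⟨P', hP, -, -, -, hag, -⟩ := h.approx 1
  rw [← hag i j 0 (by norm_num), hP.pres]
  rfl

lemma ReachE.fn (hr : 0 ≤ r) (h : ReachE S0 cl x r Pinf) (i j : I) : FN r (Pinf i j) := by
  have hnn := h.nn i j
  obtain ⟨B, hB⟩ := h.bound
  refine summable_of_sum_range_le (c := B) (fun n => mul_nonneg (norm_nonneg _) (pow_nonneg hr _))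
    fun T => ?_
  obtain ⟨P', -, -, -, hag, hbd⟩ := hB T
  refine le_trans ?_ (hbd i j)
  have h1 : ∑ n ∈ Finset.range T, ‖PowerSeries.coeff n (HN.toRS (Pinf i j))‖ * r ^ n =
      ∑ n ∈ Finset.range T, ((P' i j).coeff n : ℝ) * r ^ n := by
    refine Finset.sum_congr rfl fun n hn => ?_
    rw [HN.norm_coeff hnn, ← hag i j n (Finset.mem_range.1 hn)]
    norm_num
  rw [h1]
  set N := max T ((P' i j).natDegree + 1)
  rw [wn_toZ_range r (lt_of_lt_of_le (Nat.lt_succ_self _) (le_max_right T _) :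
    (P' i j).natDegree < N)]
  refine Finset.sum_le_sum_of_subset_of_nonneg ?_ fun n _ _ =>
    mul_nonneg (Nat.cast_nonneg _) (pow_nonneg hr _)
  intro n hn
  exact Finset.mem_range.2 (lt_of_lt_of_le (Finset.mem_range.1 hn) (le_max_left _ _))

/-- **The `τ` identity of a limit.** -/
theorem ReachE.tau (D : PFM K δ) (hr : 1 < D.lam * r) (h : ReachE S0 cl x r Pinf) (i : I) :
    D.tau (cl i) = ∑ j, sv D.lam⁻¹ (Pinf i j) * D.tau (cl j) := by
  have hlam : 0 < D.lam := lt_trans one_pos D.one_lt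
  set x0 := D.lam⁻¹ with hx0
  have hx : 0 < x0 := inv_pos.2 hlam
  have hxr : x0 < r := by
    rw [hx0, inv_lt_iff_one_lt_mul₀ hlam]
    rwa [mul_comm] at hr
  have hr0 : 0 < r := hx.trans hxr
  have hfn := h.fn hr0.le
  obtain ⟨B, hB⟩ := h.bound
  set C : ℝ := ∑ j, (sn r (Pinf i j) + B) * |D.tau (cl j)| with hC
  have key : ∀ T : ℕ, |D.tau (cl i) - ∑ j, sv x0 (Pinf i j) * D.tau (cl j)| ≤ (x0 / r) ^ T * C := by
    intro T
    obtain ⟨P', hP, -, -, hag, hbd⟩ := hB T
    have h1 := tau_row (τ := D.tau) (x0 := x0) D.tau_X (g := cl) (P := P') i (hP.relOf.rel i)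
    have h2 : D.tau (cl i) - ∑ j, sv x0 (Pinf i j) * D.tau (cl j) =
        ∑ j, sv x0 (ps (toZ (P' i j)) - Pinf i j) * D.tau (cl j) := by
      rw [h1, ← Finset.sum_sub_distrib]
      refine Finset.sum_congr rfl fun j _ => ?_
      have h3 : sv x0 (ps (toZ (P' i j)) - Pinf i j) = evp x0 (P' i j) - sv x0 (Pinf i j) := by
        rw [← sv_poly]
        unfold sv
        rw [map_sub]
        exact PF.ev_sub (fn_poly x0 _) (PF.HasN.mono hx.le hxr.le (hfn i j))
          (by rw [Real.norm_of_nonneg hx.le])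
      rw [h3]
      ring
    rw [h2, hC, Finset.mul_sum]
    refine (Finset.abs_sum_le_sum_abs _ _).trans (Finset.sum_le_sum fun j _ => ?_)
    rw [abs_mul, ← mul_assoc]
    refine mul_le_mul_of_nonneg_right ?_ (abs_nonneg _)
    have h4 : FN r (ps (toZ (P' i j)) - Pinf i j) := by
      unfold FN
      rw [map_sub]
      exact PF.HasN.sub hr0.le (fn_poly r _) (hfn i j)
    refine (htau_small hx hxr.le h4 (T := T) ?_).trans
      (mul_le_mul_of_nonneg_left ?_ (by positivity))
    · intro n hn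
      rw [map_sub, coeff_ps, coeff_toZ, hag i j n hn, sub_self]
    · have h5 : sn r (ps (toZ (P' i j)) - Pinf i j) ≤ sn r (ps (toZ (P' i j))) + sn r (Pinf i j) := by
        unfold sn
        rw [map_sub]
        exact PF.nS_sub_le hr0.le (fn_poly r _) (hfn i j)
      have h6 := hbd i j
      rw [← sn_poly] at h6
      linarith
  have hlim : Filter.Tendsto (fun T : ℕ => (x0 / r) ^ T * C) Filter.atTop (nhds (0 * C)) :=
    Filter.Tendsto.mul_const _ (tendsto_pow_atTop_nhds_zero_of_lt_one (by positivity)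
      ((div_lt_one hr0).2 hxr))
  rw [zero_mul] at hlim
  have h0 := ge_of_tendsto hlim (Filter.Eventually.of_forall key)
  have h7 := abs_eq_zero.1 (le_antisymm h0 (abs_nonneg _))
  linarith

end

/-! ### weights -/

/-- a solution of `d = M d` is zero -/
lemma GoodW.zero {F : Type} [Fintype F] {r θ : ℝ} {g : F → ℝ} {M : Matrix F F (PowerSeries ℤ)}
    (h : GoodW r g θ M) {a : Matrix F F ℝ} (ha : ∀ f k, |a f k| ≤ sn r (M f k)) {d : F → ℝ}
    (hd : ∀ f, d f = ∑ k, a f k * d k) (f : F) : d f = 0 := by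
  classical
  obtain ⟨f0, -, hf0⟩ := Finset.exists_max_image Finset.univ (fun f => |d f| / g f)
    ⟨f, Finset.mem_univ f⟩
  set A := |d f0| / g f0 with hA
  have hA0 : 0 ≤ A := div_nonneg (abs_nonneg _) (h.pos _).le
  have hle : ∀ k, |d k| ≤ A * g k := by
    intro k
    have := hf0 k (Finset.mem_univ k)
    rwa [div_le_iff₀ (h.pos k)] at this
  have h1 : |d f0| ≤ A * (θ * g f0) := by
    calc |d f0| = |∑ k, a f0 k * d k| := by rw [← hd f0]
      _ ≤ ∑ k, |a f0 k * d k| := Finset.abs_sum_le_sum_abs _ _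
      _ ≤ ∑ k, A * (sn r (M f0 k) * g k) := by
        refine Finset.sum_le_sum fun k _ => ?_
        rw [abs_mul]
        calc |a f0 k| * |d k| ≤ sn r (M f0 k) * (A * g k) :=
              mul_le_mul (ha _ _) (hle k) (abs_nonneg _) ((abs_nonneg _).trans (ha _ _))
          _ = A * (sn r (M f0 k) * g k) := by ring
      _ = A * ∑ k, sn r (M f0 k) * g k := by rw [Finset.mul_sum]
      _ ≤ A * (θ * g f0) := mul_le_mul_of_nonneg_left (h.row f0) hA0
  have h2 : A ≤ A * θ := by
    rw [hA, div_le_iff₀ (h.pos f0)]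
    rw [← hA]
    linarith
  have h3 : A = 0 := by
    have := h.lt
    nlinarith
  have h4 := hle f
  rw [h3, zero_mul] at h4
  exact abs_eq_zero.1 (le_antisymm h4 (abs_nonneg _))

/-- nonnegative solutions: coefficients -/
lemma FP.nn {F : Type} [Fintype F] {p : Matrix (Option F) (Option F) (PowerSeries ℤ)}
    {φ : F → PowerSeries ℤ} (hφ : FP p φ) (hp : ∀ i j, HN.Nn (p i j))
    (hp0 : ∀ i j, PowerSeries.coeff 0 (p i j) = 0) (f : F) : HN.Nn (φ f) := by
  intro d
  induction d using Nat.strong_induction_on generalizing f with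
  | _ d ih =>
    rw [hφ f, map_add, map_sum]
    refine add_nonneg (hp _ _ d) (Finset.sum_nonneg fun k _ => ?_)
    rw [PowerSeries.coeff_mul]
    refine Finset.sum_nonneg fun a ha => ?_
    have ha' := Finset.HasAntidiagonal.mem_antidiagonal.1 ha
    by_cases h0 : a.1 = 0
    · rw [h0, hp0, zero_mul]
    · exact mul_nonneg (hp _ _ _) (ih _ (by omega) k)

/-- **First passage series have finite norm.** -/
theorem FP.ts_of_good {F : Type} [Fintype F] {r : ℝ} (hr : 0 < r)
    {p : Matrix (Option F) (Option F) (PowerSeries ℤ)} {φ : F → PowerSeries ℤ} (hφ : FP p φ)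
    (hp : ∀ i j, TS r (p i j)) (hG : Good r (pFF p)) (f : F) : TS r (φ f) := by
  classical
  obtain ⟨g, θ, hg⟩ := hG
  have hnn := hφ.nn (fun i j => (hp i j).nn) (fun i j => (hp i j).c0)
  refine ⟨?_, hnn f, ?_⟩
  · rw [hφ f, map_add, map_sum, (hp _ _).c0, zero_add]
    refine Finset.sum_eq_zero fun k _ => ?_
    rw [PowerSeries.coeff_mul]
    simp [(hp _ _).c0]
  -- partial sums
  set S : ℕ → F → ℝ := fun T k => ∑ n ∈ Finset.range T,
    ‖PowerSeries.coeff n (HN.toRS (φ k))‖ * r ^ n with hS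
  have hS0 : ∀ T k, 0 ≤ S T k := fun T k =>
    Finset.sum_nonneg fun n _ => mul_nonneg (norm_nonneg _) (pow_nonneg hr.le _)
  have hmul : ∀ T f k, ∑ n ∈ Finset.range T,
      ‖PowerSeries.coeff n (HN.toRS (p (some f) (some k) * φ k))‖ * r ^ n ≤
      sn r (p (some f) (some k)) * S T k := by
    intro T f k
    -- truncation
    set q : PowerSeries ℝ := ((PowerSeries.trunc T (HN.toRS (φ k)) : ℝ[X]) : PowerSeries ℝ) with hq
    have hqN : PF.HasN r q := PF.hasN_poly r _
    have hqS : PF.nS r q = S T k := by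
      rw [hq, PF.nS_poly, hS]
      simp only
      rw [← Finset.sum_subset (s₁ := (PowerSeries.trunc T (HN.toRS (φ k))).support)
        (s₂ := Finset.range T)]
      · refine Finset.sum_congr rfl fun n hn => ?_
        have h1 : n < T := by
          by_contra hc
          exact (mem_support_iff.1 hn) (by rw [PowerSeries.coeff_trunc, if_neg hc])
        rw [PowerSeries.coeff_trunc, if_pos h1]
      · intro n hn
        rw [Finset.mem_range]
        by_contra hc
        exact (mem_support_iff.1 hn) (by rw [PowerSeries.coeff_trunc, if_neg hc])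
      · intro n hn hn'
        rw [notMem_support_iff, PowerSeries.coeff_trunc, if_pos (Finset.mem_range.1 hn)] at hn'
        rw [hn']
        simp
    have hpN : PF.HasN r (HN.toRS (p (some f) (some k))) := (hp _ _).fn
    have h1 : ∀ n ∈ Finset.range T, ‖PowerSeries.coeff n (HN.toRS (p (some f) (some k) * φ k))‖ * r ^ n
        = ‖PowerSeries.coeff n (HN.toRS (p (some f) (some k)) * q)‖ * r ^ n := by
      intro n hn
      rw [map_mul]
      congr 2
      rw [PowerSeries.coeff_mul, PowerSeries.coeff_mul]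
      refine Finset.sum_congr rfl fun a ha => ?_
      have ha' := Finset.HasAntidiagonal.mem_antidiagonal.1 ha
      rw [Finset.mem_range] at hn
      congr 1
      rw [hq, Polynomial.coeff_coe, PowerSeries.coeff_trunc, if_pos (by omega)]
    rw [Finset.sum_congr rfl h1]
    have h2 : ∑ n ∈ Finset.range T, ‖PowerSeries.coeff n (HN.toRS (p (some f) (some k)) * q)‖ * r ^ n ≤
        PF.nS r (HN.toRS (p (some f) (some k)) * q) :=
      Summable.sum_le_tsum _ (fun n _ => mul_nonneg (norm_nonneg _) (pow_nonneg hr.le _))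
        (PF.HasN.mul hr.le hpN hqN)
    refine h2.trans ((PF.nS_mul_le hr.le hpN hqN).trans ?_)
    rw [hqS]
  have hrec : ∀ T f, S T f ≤ sn r (p (some f) none) + ∑ k, sn r (p (some f) (some k)) * S T k := by
    intro T f
    have h1 : S T f ≤ ∑ n ∈ Finset.range T, (‖PowerSeries.coeff n (HN.toRS (p (some f) none))‖ * r ^ n +
        ∑ k, ‖PowerSeries.coeff n (HN.toRS (p (some f) (some k) * φ k))‖ * r ^ n) := by
      refine Finset.sum_le_sum fun n _ => ?_
      rw [← Finset.sum_mul, ← add_mul]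
      refine mul_le_mul_of_nonneg_right ?_ (pow_nonneg hr.le _)
      conv_lhs => rw [hφ f, map_add, map_sum, map_add, map_sum]
      exact (norm_add_le _ _).trans (add_le_add_right (norm_sum_le _ _) _)
    refine h1.trans ?_
    rw [Finset.sum_add_distrib, Finset.sum_comm]
    refine add_le_add ?_ (Finset.sum_le_sum fun k _ => hmul T f k)
    exact Summable.sum_le_tsum _ (fun n _ => mul_nonneg (norm_nonneg _) (pow_nonneg hr.le _))
      (hp _ _).fn
  -- the bound
  obtain ⟨f1, -, hf1⟩ := Finset.exists_max_image Finset.univ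
    (fun f => sn r (p (some f) none) / g f) ⟨f, Finset.mem_univ f⟩
  set c := sn r (p (some f1) none) / g f1 with hc
  have hcle : ∀ k, sn r (p (some k) none) ≤ c * g k := by
    intro k
    have := hf1 k (Finset.mem_univ k)
    rwa [div_le_iff₀ (hg.pos k)] at this
  refine summable_of_sum_range_le (c := c / (1 - θ) * g f)
    (fun n => mul_nonneg (norm_nonneg _) (pow_nonneg hr.le _)) fun T => ?_
  obtain ⟨f0, -, hf0⟩ := Finset.exists_max_image Finset.univ (fun f => S T f / g f)
    ⟨f, Finset.mem_univ f⟩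
  set A := S T f0 / g f0 with hA
  have hA0 : 0 ≤ A := div_nonneg (hS0 _ _) (hg.pos _).le
  have hle : ∀ k, S T k ≤ A * g k := by
    intro k
    have := hf0 k (Finset.mem_univ k)
    rwa [div_le_iff₀ (hg.pos k)] at this
  have h1 : S T f0 ≤ c * g f0 + A * (θ * g f0) := by
    refine (hrec T f0).trans (add_le_add (hcle f0) ?_)
    calc ∑ k, sn r (p (some f0) (some k)) * S T k
        ≤ ∑ k, A * (sn r (p (some f0) (some k)) * g k) := by
          refine Finset.sum_le_sum fun k _ => ?_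
          calc sn r (p (some f0) (some k)) * S T k ≤ sn r (p (some f0) (some k)) * (A * g k) :=
                mul_le_mul_of_nonneg_left (hle k) (PF.nS_nonneg hr.le _)
            _ = A * (sn r (p (some f0) (some k)) * g k) := by ring
      _ = A * ∑ k, sn r (pFF p f0 k) * g k := by rw [Finset.mul_sum]; rfl
      _ ≤ A * (θ * g f0) := mul_le_mul_of_nonneg_left (hg.row f0) hA0
  have h2 : A ≤ c + A * θ := by
    rw [hA, div_le_iff₀ (hg.pos f0)]
    rw [← hA]
    linarith
  have h3 : A ≤ c / (1 - θ) := by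
    rw [le_div_iff₀ (by linarith [hg.lt])]
    linarith
  exact (hle f).trans (mul_le_mul_of_nonneg_right h3 (hg.pos f).le)

/-! ### hub states -/

section

variable {K : Type} [AddCommGroup K] [Module ℤ[X] K] {δ : ℤ[X]} {D : PFM K δ} {qB : ℕ[X]}
  {S0 : PX K δ qB} {r : ℝ} {F : Type} [Fintype F] {cl : Option F → K}
  {p : Matrix (Option F) (Option F) (PowerSeries ℤ)} {Y : Type} [Fintype Y]
  {s : Y → PowerSeries ℤ} {c : Y → K} {q : Y → PowerSeries ℤ}

lemma PFM.x0_pos (D : PFM K δ) : 0 < D.lam⁻¹ := inv_pos.2 (lt_trans one_pos D.one_lt)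

lemma PFM.x0_lt (D : PFM K δ) {r : ℝ} (hr : 1 < D.lam * r) : D.lam⁻¹ < r := by
  rw [inv_lt_iff_one_lt_mul₀ (lt_trans one_pos D.one_lt)]
  rwa [mul_comm] at hr

/-- the reference of a loop vertex to the hub -/
theorem HubOn.q_eq (h : HubOn D S0 r cl p s c q) (y : Y) :
    sv D.lam⁻¹ (q y) * D.tau (cl none) = (1 - sv D.lam⁻¹ (s y)) * D.tau (c y) := by
  have h1 := h.reach.tau D h.r_gt (Sum.inr y)
  rw [Fintype.sum_sum_type, Fintype.sum_option] at h1
  simp only [Sum.elim_inr, Sum.elim_inl, hubM] at h1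
  have h2 : sv D.lam⁻¹ (0 : PowerSeries ℤ) = 0 := by
    unfold sv PF.ev
    simp
  have h3 : ∑ z, sv D.lam⁻¹ (if y = z then s y else 0) * D.tau (c z) =
      sv D.lam⁻¹ (s y) * D.tau (c y) := by
    rw [Finset.sum_eq_single y]
    · rw [if_pos rfl]
    · intro z _ hz
      rw [if_neg (Ne.symm hz), h2, zero_mul]
    · intro hy
      exact absurd (Finset.mem_univ y) hy
  rw [h3, h2] at h1
  simp only [zero_mul, Finset.sum_const_zero, add_zero] at h1
  linarith

/-- the row of a hub under `τ` -/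
theorem HubOn.tau_row (h : HubOn D S0 r cl p s c q) (i : Option F) :
    D.tau (cl i) = sv D.lam⁻¹ (p i none) * D.tau (cl none) +
      ∑ k, sv D.lam⁻¹ (p i (some k)) * D.tau (cl (some k)) := by
  have h1 := h.reach.tau D h.r_gt (Sum.inl i)
  rw [Fintype.sum_sum_type, Fintype.sum_option] at h1
  have h2 : sv D.lam⁻¹ (0 : PowerSeries ℤ) = 0 := by
    unfold sv PF.ev
    simp
  simp only [Sum.elim_inr, Sum.elim_inl, hubM, h2, zero_mul, Finset.sum_const_zero, add_zero] at h1
  exact h1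

/-- the first passage series -/
theorem HubOn.phi_eq (h : HubOn D S0 r cl p s c q) (hG : Good r (pFF p)) {φ : F → PowerSeries ℤ}
    (hφ : FP p φ) (hts : ∀ f, TS r (φ f)) (f : F) :
    sv D.lam⁻¹ (φ f) * D.tau (cl none) = D.tau (cl (some f)) := by
  have hx := D.x0_pos
  have hxr := D.x0_lt h.r_gt
  have hr0 := hx.trans hxr
  have hnx : ‖D.lam⁻¹‖ ≤ r := by rw [Real.norm_of_nonneg hx.le]; exact hxr.le
  have hphi : ∀ f, sv D.lam⁻¹ (φ f) = sv D.lam⁻¹ (p (some f) none) +
      ∑ k, sv D.lam⁻¹ (p (some f) (some k)) * sv D.lam⁻¹ (φ k) := by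
    intro f
    have hsum : ∀ s : Finset F, PF.HasN r (∑ k ∈ s, HN.toRS (p (some f) (some k) * φ k)) ∧
        PF.ev D.lam⁻¹ (∑ k ∈ s, HN.toRS (p (some f) (some k) * φ k)) =
        ∑ k ∈ s, sv D.lam⁻¹ (p (some f) (some k)) * sv D.lam⁻¹ (φ k) := by
      intro s
      induction s using Finset.induction_on with
      | empty =>
        refine ⟨by simpa using PF.hasN_zero r, ?_⟩
        simp [PF.ev]
      | insert a s ha ih =>
        rw [Finset.sum_insert ha, Finset.sum_insert ha]
        have h1 : PF.HasN r (HN.toRS (p (some f) (some a) * φ a)) := by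
          rw [map_mul]
          exact PF.HasN.mul hr0.le (h.p_ts _ _).fn (hts a).fn
        refine ⟨PF.HasN.add hr0.le h1 ih.1, ?_⟩
        rw [PF.ev_add h1 ih.1 hnx, ih.2, map_mul, PF.ev_mul (h.p_ts _ _).fn (hts a).fn hnx]
    have h2 := hsum Finset.univ
    have h3 : sv D.lam⁻¹ (φ f) = PF.ev D.lam⁻¹ (HN.toRS (p (some f) none) +
        ∑ k, HN.toRS (p (some f) (some k) * φ k)) := by
      unfold sv
      conv_lhs => rw [hφ f, map_add, map_sum]
    rw [h3, PF.ev_add (h.p_ts _ _).fn h2.1 hnx, h2.2]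
  obtain ⟨g, θ, hg⟩ := hG
  have hz := hg.zero (a := fun f k => sv D.lam⁻¹ (p (some f) (some k)))
    (d := fun f => sv D.lam⁻¹ (φ f) * D.tau (cl none) - D.tau (cl (some f)))
    (fun f k => htau_sv_le hx hxr.le (h.p_ts _ _).fn) (by
      intro f
      rw [h.tau_row (some f), hphi f]
      simp only [mul_sub, Finset.sum_sub_distrib, add_mul, Finset.sum_mul]
      have : ∀ k, sv D.lam⁻¹ (p (some f) (some k)) * (sv D.lam⁻¹ (φ k) * D.tau (cl none)) =
          sv D.lam⁻¹ (p (some f) (some k)) * sv D.lam⁻¹ (φ k) * D.tau (cl none) := fun k => by ring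
      simp only [this]
      ring) f
  linarith

/-- the first return series has the value `1` -/
theorem HubOn.H_eq (h : HubOn D S0 r cl p s c q) (hG : Good r (pFF p)) {φ : F → PowerSeries ℤ}
    (hφ : FP p φ) (hts : ∀ f, TS r (φ f)) : sv D.lam⁻¹ (Hret p φ) = 1 := by
  have hx := D.x0_pos
  have hxr := D.x0_lt h.r_gt
  have hr0 := hx.trans hxr
  have hnx : ‖D.lam⁻¹‖ ≤ r := by rw [Real.norm_of_nonneg hx.le]; exact hxr.le
  have hsum : ∀ s : Finset F, PF.HasN r (∑ k ∈ s, HN.toRS (p none (some k) * φ k)) ∧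
      PF.ev D.lam⁻¹ (∑ k ∈ s, HN.toRS (p none (some k) * φ k)) =
      ∑ k ∈ s, sv D.lam⁻¹ (p none (some k)) * sv D.lam⁻¹ (φ k) := by
    intro s
    induction s using Finset.induction_on with
    | empty =>
      refine ⟨by simpa using PF.hasN_zero r, ?_⟩
      simp [PF.ev]
    | insert a s ha ih =>
      rw [Finset.sum_insert ha, Finset.sum_insert ha]
      have h1 : PF.HasN r (HN.toRS (p none (some a) * φ a)) := by
        rw [map_mul]
        exact PF.HasN.mul hr0.le (h.p_ts _ _).fn (hts a).fn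
      refine ⟨PF.HasN.add hr0.le h1 ih.1, ?_⟩
      rw [PF.ev_add h1 ih.1 hnx, ih.2, map_mul, PF.ev_mul (h.p_ts _ _).fn (hts a).fn hnx]
  have h2 := hsum Finset.univ
  have h3 : sv D.lam⁻¹ (Hret p φ) = sv D.lam⁻¹ (p none none) +
      ∑ k, sv D.lam⁻¹ (p none (some k)) * sv D.lam⁻¹ (φ k) := by
    unfold sv Hret
    rw [map_add, map_sum, PF.ev_add (h.p_ts _ _).fn h2.1 hnx, h2.2]
  have h4 := h.tau_row none
  have h5 : ∀ k, sv D.lam⁻¹ (p none (some k)) * D.tau (cl (some k)) =
      sv D.lam⁻¹ (p none (some k)) * sv D.lam⁻¹ (φ k) * D.tau (cl none) := by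
    intro k
    rw [← h.phi_eq hG hφ hts k]
    ring
  simp only [h5] at h4
  rw [← Finset.sum_mul, ← add_mul, ← h3] at h4
  have h6 := h.cl_pos none
  have h7 : (sv D.lam⁻¹ (Hret p φ) - 1) * D.tau (cl none) = 0 := by linarith
  rcases mul_eq_zero.1 h7 with h8 | h8
  · linarith
  · exact absurd h8 h6.ne'

end

end Pool.Agent.SSE
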