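import Pool.Agent.SSE.HExp
import Pool.Agent.SSE.HTau
import Pool.Agent.SSE.HDet
import Pool.Agent.SSE.HNeq

/-!
# SSE project, hub part, HFin: equalisation of two pure hub states (section 10)
-/

set_option autoImplicit false

open scoped BigOperators
open Matrix Polynomial

namespace Pool.Agent.SSE

attribute [local instance] Classical.propDecidable

/-- two families with the same multiset of values -/
theorem exists_equiv_of_map_eq {Y Y' α : Type} [Fintype Y] [Fintype Y'] (s : Y → α) (s' : Y' → α)
    (h : (Finset.univ : Finset Y).val.map s = (Finset.univ : Finset Y').val.map s') :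
    ∃ e : Y ≃ Y', ∀ y, s' (e y) = s y := by
  have hc : ∀ a, Fintype.card {y // s y = a} = Fintype.card {y // s' y = a} := by
    intro a
    have h1 := congrArg (Multiset.count a) h
    rw [Multiset.count_map, Multiset.count_map] at h1
    rw [Fintype.card_subtype, Fintype.card_subtype]
    simp only [Finset.card_def, Finset.filter_val]
    convert h1 using 3
    · exact eq_comm
    · exact eq_comm
  refine ⟨(Equiv.sigmaFiberEquiv s).symm.trans ((Equiv.sigmaCongrRight fun a =>
    Fintype.equivOfCardEq (hc a)).trans (Equiv.sigmaFiberEquiv s')), fun y => ?_⟩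
  simp only [Equiv.trans_apply, Equiv.sigmaCongrRight_apply]
  exact (Fintype.equivOfCardEq (hc (s y)) ⟨y, rfl⟩).2

variable {K : Type} [AddCommGroup K] [Module ℤ[X] K] {δ : ℤ[X]} {D : PFM K δ} {qB : ℕ[X]}
  {S0 : PX K δ qB} {r : ℝ} {F : Type} [Fintype F] {cl : Option F → K} {cst : K}
  {p : Matrix (Option F) (Option F) (PowerSeries ℤ)} {L : Multiset (PowerSeries ℤ)}
  {Y : Type} [Fintype Y] {s : Y → PowerSeries ℤ} {c : Y → K} {q : Y → PowerSeries ℤ}
  {φ : F → PowerSeries ℤ}

/-- renaming the loop vertices -/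
theorem HubOn.reindexY {Y' : Type} [Fintype Y'] (e : Y' ≃ Y) (h : HubOn D S0 r cl p s c q) :
    HubOn D S0 r cl p (fun y => s (e y)) (fun y => c (e y)) (fun y => q (e y)) := by
  have h1 := h.reach.reindex (Equiv.sumCongr (Equiv.refl (Option F)) e)
  refine ⟨h.r_gt, h.r_le, h.p_ts, fun y => h.s_ts _, fun y => h.s_ne _, fun y => h.s_lt _,
    fun y => h.q_ts _, fun y => h.c_pos _, h.cl_pos, h.qB_le, h.low, ?_⟩
  have e1 : (fun j => (Sum.elim cl c : Option F ⊕ Y → K)
      ((Equiv.sumCongr (Equiv.refl (Option F)) e) j)) = Sum.elim cl fun y => c (e y) := by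
    funext j
    rcases j with j | j <;> rfl
  have e2 : (hubM p s q).submatrix (Equiv.sumCongr (Equiv.refl (Option F)) e)
      (Equiv.sumCongr (Equiv.refl (Option F)) e) =
      hubM p (fun y => s (e y)) (fun y => q (e y)) := by
    funext i j
    rcases i with i | i <;> rcases j with j | j
    · rfl
    · rfl
    · rcases j with _ | j <;> rfl
    · simp [hubM]
  rw [e1, e2] at h1
  exact h1

/-- a hub state with given loop vertices -/
theorem Hub.on {Y' : Type} [Fintype Y'] (s' : Y' → PowerSeries ℤ)
    (h : Hub D S0 r cl cst p (Finset.univ.val.map s')) :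
    ∃ q' : Y' → PowerSeries ℤ, HubOn D S0 r cl p s' (fun _ => cst) q' := by
  obtain ⟨Y, _, s, q, hs, h⟩ := h
  obtain ⟨e, he⟩ := exists_equiv_of_map_eq s' s hs.symm
  have h1 := h.reindexY e
  have h2 : (fun y => s (e y)) = s' := funext he
  rw [h2] at h1
  exact ⟨_, h1⟩

section pure
variable {H : PowerSeries ℤ}

lemma pureM_none_none : pureM H φ none none = H := by
  simp [pureM]

lemma pureM_some_none (f : F) : pureM H φ (some f) none = φ f := by
  simp [pureM]

lemma pureM_some (i : Option F) (f : F) : pureM H φ i (some f) = 0 := by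
  simp [pureM]

lemma fp_pure : FP (pureM H φ) φ := by
  intro f
  rw [pureM_some_none]
  simp only [pureM_some, zero_mul, Finset.sum_const_zero, add_zero]

lemma hret_pure : Hret (pureM H φ) φ = H := by
  unfold Hret
  rw [pureM_none_none]
  simp only [pureM_some, zero_mul, Finset.sum_const_zero, add_zero]

lemma pFF_pure : pFF (pureM H φ) = 0 := by
  funext i j
  simp [pFF, pureM_some]

lemma good_zero (r : ℝ) : Good r (0 : Matrix F F (PowerSeries ℤ)) := by
  refine ⟨fun _ => 1, 0, fun _ => one_pos, le_rfl, one_pos, fun f => ?_⟩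
  have h0 : sn r (0 : PowerSeries ℤ) = 0 := by
    unfold sn PF.nS
    simp
  simp [Matrix.zero_apply, h0]

lemma good_pure (r : ℝ) : Good r (pFF (pureM H φ)) := by
  rw [pFF_pure]
  exact good_zero r

/-- expansion of the row of the hub `f` in a pure state -/
theorem HubOn.expand_pure (h : HubOn D S0 r cl (pureM H φ) s c q) (f : F) (W q' : PowerSeries ℤ)
    (hW : HN.Nn W) (hWf : FN r W) (hq' : q' = φ f - W * (1 - H)) (hNn : HN.Nn q') :
    HubOn D S0 r cl (pureM H (Function.update φ f q')) s c q := by
  have h1 := h.expand (some f) (fun k => if k = none then W else 0)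
    (fun j => if j = none then q' else 0) ?_ ?_ (by simp) ?_ ?_ (by simp) (by simp)
  · have h2 : (pureM H φ).updateRow (some f) (fun j => if j = none then q' else 0) =
        pureM H (Function.update φ f q') := by
      funext i j
      rcases i with _ | i
      · rw [Matrix.updateRow_ne (by simp)]
        simp [pureM]
      · by_cases hi : i = f
        · subst hi
          rw [Matrix.updateRow_self]
          simp [pureM]
        · rw [Matrix.updateRow_ne (by simpa using hi)]
          simp [pureM, Function.update_of_ne hi]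
    rw [h2] at h1
    exact h1
  · intro k
    by_cases hk : k = none
    · simp only [hk, if_true]; exact hW
    · simp only [hk, if_false]; exact HN.nn_zero
  · intro k
    by_cases hk : k = none
    · simp only [hk, if_true]; exact hWf
    · simp only [hk, if_false]
      unfold FN
      rw [map_zero]
      exact PF.hasN_zero r
  · intro j
    have e1 : ∑ k, (if k = none then W else 0) * pureM H φ k j = W * pureM H φ none j := by
      rw [Finset.sum_eq_single none]
      · simp
      · intro b _ hb
        simp [hb]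
      · simp
    rw [e1]
    rcases j with _ | j
    · rw [pureM_none_none, pureM_some_none]
      simp only [if_true]
      rw [hq']
      ring
    · rw [pureM_some, pureM_some]
      simp
  · intro j
    by_cases hj : j = none
    · simp only [hj, if_true]; exact hNn
    · simp only [hj, if_false]; exact HN.nn_zero

theorem HubOn.expand_pure_all (h : HubOn D S0 r cl (pureM H φ) s c q) (W q' : F → PowerSeries ℤ)
    (hW : ∀ f, HN.Nn (W f)) (hWf : ∀ f, FN r (W f)) (hq' : ∀ f, q' f = φ f - W f * (1 - H))
    (hNn : ∀ f, HN.Nn (q' f)) : HubOn D S0 r cl (pureM H q') s c q := by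
  have key : ∀ S : Finset F, HubOn D S0 r cl (pureM H fun f => if f ∈ S then q' f else φ f) s c q := by
    intro S
    induction S using Finset.induction_on with
    | empty => simpa using h
    | insert a S ha ih =>
      have h1 := ih.expand_pure a (W a) (q' a) (hW a) (hWf a) (by simp [ha, hq' a]) (hNn a)
      convert h1 using 2
      funext f
      by_cases hf : f = a
      · subst hf
        simp
      · rw [Function.update_of_ne hf]
        simp [hf]
  simpa using key Finset.univ

theorem HubOn.expand_loop_all (h : HubOn D S0 r cl (pureM H φ) s c q) (W q' : Y → PowerSeries ℤ)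
    (hW : ∀ f, HN.Nn (W f)) (hWf : ∀ f, FN r (W f)) (hq' : ∀ f, q' f = q f - W f * (1 - H))
    (hNn : ∀ f, HN.Nn (q' f)) : HubOn D S0 r cl (pureM H φ) s c q' := by
  have key : ∀ S : Finset Y, HubOn D S0 r cl (pureM H φ) s c fun f => if f ∈ S then q' f else q f := by
    intro S
    induction S using Finset.induction_on with
    | empty => simpa using h
    | insert a S ha ih =>
      have h1 := ih.expand_loop a (W a) (q' a) (hW a) (hWf a) (by simp [ha, hq' a]) (hNn a)
      convert h1 using 1
      funext f
      by_cases hf : f = a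
      · subst hf
        simp
      · rw [Function.update_of_ne hf]
        simp [hf]
  simpa using key Finset.univ

end pure

lemma toRS_ps (f : ℤ[X]) : HN.toRS (ps f) = ((toR f : ℝ[X]) : PowerSeries ℝ) := by
  ext n
  rw [HN.coeff_toRS, coeff_ps, Polynomial.coeff_coe]
  simp [toR]

lemma PFM.lam_pos (D : PFM K δ) : 0 < D.lam := lt_trans one_pos D.one_lt

lemma HubOn.r_pos (h : HubOn D S0 r cl p s c q) : 0 < r := by
  have h1 := h.r_gt
  by_contra h2
  push Not at h2
  have := mul_nonpos_of_nonneg_of_nonpos D.lam_pos.le h2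
  linarith

lemma HubOn.inv_le (h : HubOn D S0 r cl p s c q) : ‖D.lam⁻¹‖ ≤ r := by
  rw [norm_inv, Real.norm_of_nonneg D.lam_pos.le, inv_le_iff_one_le_mul₀ D.lam_pos, mul_comm]
  exact h.r_gt.le

/-- division by `δ` keeps the finite norm of series which vanish at `x0` -/
lemma PFM.div (D : PFM K δ) (hr : 1 < D.lam * r) (hr1 : r ≤ D.rad) (g V : PowerSeries ℝ)
    (hg : PF.HasN r g) (hV : HN.toRS (ps δ) * V = g) (h0 : PF.ev D.lam⁻¹ g = 0) :
    PF.HasN r V := by
  obtain ⟨K1, -, -, h⟩ := PF.asymptotics D.lam_pos hr D.fac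
    (fun z hz => D.ne z (hz.trans hr1))
  rw [toRS_ps] at hV
  exact ((h g V hg hV).2 h0).1

/-- **Section 10**: two pure hub states with the same first return series and the same loops reach
a common limit -/
theorem hub_final {qA : ℕ[X]} {SA : PX K δ qA} {H : PowerSeries ℤ} {φA φB : F → PowerSeries ℤ}
    (hA : Hub D SA r cl cst (pureM H φA) L) (hB : Hub D S0 r cl cst (pureM H φB) L) :
    ∃ (Y : Type) (_ : Fintype Y) (s q : Y → PowerSeries ℤ) (φ : F → PowerSeries ℤ),
      Finset.univ.val.map s = L ∧ HubOn D SA r cl (pureM H φ) s (fun _ => cst) q ∧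
      HubOn D S0 r cl (pureM H φ) s (fun _ => cst) q := by
  obtain ⟨Y, _, s, q1, hs, hA⟩ := hA
  subst hs
  obtain ⟨q2, hB⟩ := hB.on s
  have hr0 := hA.r_pos.le
  have hx := hA.inv_le
  have hH : TS r H := by
    have := hA.p_ts none none
    rwa [pureM_none_none] at this
  have hφA : ∀ f, TS r (φA f) := fun f => by
    have := hA.p_ts (some f) none
    rwa [pureM_some_none] at this
  have hφB : ∀ f, TS r (φB f) := fun f => by
    have := hB.p_ts (some f) none
    rwa [pureM_some_none] at this
  have hτ : D.tau (cl none) ≠ 0 := (hA.cl_pos none).ne'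
  -- the product of the loops
  have hdet : (1 - H) * ∏ y, (1 - s y) = ps δ := by
    have h1 := hA.det fp_pure
    rw [hret_pure, pFF_pure, sub_zero, Matrix.det_one, mul_one] at h1
    exact h1
  have hQN : PF.HasN r (HN.toRS (∏ y, (1 - s y))) := by
    rw [map_prod]
    refine PF.hasN_prod hr0 _ _ fun y _ => ?_
    rw [map_sub, map_one]
    exact (PF.hasN_one r).sub hr0 (hA.s_ts y).fn
  have hdiv := D.div (r := r) hA.r_gt hA.r_le
  have key : ∀ a b : PowerSeries ℤ, TS r a → TS r b → sv D.lam⁻¹ a = sv D.lam⁻¹ b →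
      ∃ dA dB q : PowerSeries ℤ, HN.Nn dA ∧ HN.Nn dB ∧ HN.Nn q ∧ FN r dA ∧ FN r dB ∧
        q = a - dA * (1 - H) ∧ q = b - dB * (1 - H) := by
    intro a b ha hb hab
    obtain ⟨dA, dB, q, h1, h2, h3, h4, h5, -, -, -, h6, h7⟩ := HN.eq_rows hr0 hx hH.nn hH.c0 hQN
      (congrArg HN.toRS hdet) (fun g V h1 h2 h3 => hdiv g V h1 h2 h3) ha.nn hb.nn ha.c0 hb.c0
      ha.fn hb.fn hab
    exact ⟨dA, dB, q, h1, h2, h3, h4, h5, h6, h7⟩
  have keyF := fun f => key (φA f) (φB f) (hφA f) (hφB f) (by
    refine mul_right_cancel₀ hτ ?_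
    rw [hA.phi_eq (good_pure r) fp_pure hφA f, hB.phi_eq (good_pure r) fp_pure hφB f])
  have keyY := fun y => key (q1 y) (q2 y) (hA.q_ts y) (hB.q_ts y) (by
    refine mul_right_cancel₀ hτ ?_
    rw [hA.q_eq y, hB.q_eq y])
  choose dA dB φ f1 f2 f3 f4 f5 f6 f7 using keyF
  choose eA eB q g1 g2 g3 g4 g5 g6 g7 using keyY
  exact ⟨Y, inferInstance, s, q, φ, rfl,
    (hA.expand_pure_all dA φ f1 f4 f6 f3).expand_loop_all eA q g1 g4 g6 g3,
    (hB.expand_pure_all dB φ f2 f5 f7 f3).expand_loop_all eB q g2 g5 g7 g3⟩

end Pool.Agent.SSE
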