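import Pool.Agent.SSE.Asm
import Pool.Agent.SSE.BR8
import Pool.Agent.SSE.Fin0

/-!
# SSE bridge, BR9: the covered limit gives `PairOut`

Choices: `l i + 1` reserved, `k i + 1` distinct large degrees, one more degree `b0 + 1` left over,
`s` = the truncation at a large degree of `L x x` minus these loops: `wn r s > 1` (value
`> 10 - 4 - 1 - 1`), two consecutive degrees, `exists_root`-type argument (continuity) gives the
radius `< r`, `exists_ren`. `q v = X ^ (a v)`. For `T` take the states of the two `Reach` at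
`max T T0`. `U0` from the states at `T = 0` (`RelOf.unique`), `V`, `W` from the clause `EX`.
-/

set_option autoImplicit false

open scoped BigOperators
open Matrix Polynomial

namespace Pool.Agent.SSE

open Pool.Agent.helper52.SSE

attribute [local instance] Classical.propDecidable

private lemma BR9_lps_coeff {F : Type} [Fintype F] (s : ℕ[X]) (k : F → ℕ) (d : ℕ) :
    (lps s k).coeff d = s.coeff d + (Finset.univ.filter fun i => k i + 1 = d).card := by
  unfold lps
  rw [Polynomial.coeff_add, Polynomial.finsetSum_coeff, Finset.card_filter]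
  congr 1
  refine Finset.sum_congr rfl fun i _ => ?_
  rw [Polynomial.coeff_X_pow]
  by_cases h : d = k i + 1
  · rw [if_pos h, if_pos h.symm]
  · rw [if_neg h, if_neg (fun h' => h h'.symm)]

private lemma BR9_lps_sum {m : ℕ} (s : ℕ[X]) (l : Fin 4 → ℕ) (k : Fin m → ℕ) (d : ℕ) :
    (lps s (Sum.elim l k : Fin 4 ⊕ Fin m → ℕ)).coeff d = (lps s l).coeff d +
      (Finset.univ.filter fun i => k i + 1 = d).card := by
  unfold lps
  rw [Fintype.sum_sum_type, ← add_assoc, Polynomial.coeff_add]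
  simp only [Sum.elim_inl, Sum.elim_inr]
  congr 1
  rw [Polynomial.finsetSum_coeff, Finset.card_filter]
  refine Finset.sum_congr rfl fun i _ => ?_
  rw [Polynomial.coeff_X_pow]
  by_cases h : d = k i + 1
  · rw [if_pos h, if_pos h.symm]
  · rw [if_neg h, if_neg (fun h' => h h'.symm)]

/-- the loops -/
theorem choose_loops {H : PowerSeries ℕ} {sB : ℕ[X]} {l : Fin 4 → ℕ} {r : ℝ} (r0 : 0 < r)
    (r1 : r < 1) (h0 : PowerSeries.coeff 0 H = 0)
    (hq : ∀ d, (lps sB l).coeff d ≤ PowerSeries.coeff d H)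
    (hval : ∃ D, 10 < nv r (PowerSeries.trunc D H))
    (large : ∃ d0, ∀ d, d0 ≤ d → 1 ≤ PowerSeries.coeff d H) (m : ℕ) :
    ∃ (k : Fin m → ℕ) (s : ℕ[X]) (ρ c : ℝ) (n0 b : ℕ), (∀ i, 0 < k i) ∧ Ren s ρ c n0 ∧ ρ < r ∧
      (∀ d, (lps s (Sum.elim l k : Fin 4 ⊕ Fin m → ℕ)).coeff d ≤ PowerSeries.coeff d H) ∧
      (lps s (Sum.elim l k : Fin 4 ⊕ Fin m → ℕ)).coeff (b + 1) < PowerSeries.coeff (b + 1) H := by
  obtain ⟨D, hD⟩ := hval
  obtain ⟨d0, hd0⟩ := large
  set M : ℕ := D + d0 + ∑ i, (l i + 1) with hM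
  set D1 : ℕ := M + 3 with hD1
  set lo : ℕ[X] := ∑ i, X ^ (l i + 1) with hlo
  have hloM : ∀ d, M < d → lo.coeff d = 0 := by
    intro d hd
    rw [hlo, Polynomial.finsetSum_coeff]
    refine Finset.sum_eq_zero fun i _ => ?_
    rw [Polynomial.coeff_X_pow, if_neg]
    have : l i + 1 ≤ ∑ i, (l i + 1) :=
      Finset.single_le_sum (f := fun i => l i + 1) (fun _ _ => Nat.zero_le _) (Finset.mem_univ i)
    omega
  have hloH : ∀ d, lo.coeff d ≤ (PowerSeries.trunc D1 H).coeff d := by
    intro d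
    by_cases hd : M < d
    · rw [hloM d hd]
      exact Nat.zero_le _
    · rw [PowerSeries.coeff_trunc, if_pos (by omega)]
      refine le_trans ?_ (hq d)
      unfold lps
      rw [Polynomial.coeff_add]
      exact Nat.le_add_left _ _
  obtain ⟨s, hs⟩ := exists_add_of_coeff_le hloH
  have hsc : ∀ d, s.coeff d + lo.coeff d = if d < D1 then PowerSeries.coeff d H else 0 := by
    intro d
    rw [← PowerSeries.coeff_trunc, hs, Polynomial.coeff_add, add_comm]
  have hs0 : s.coeff 0 = 0 := by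
    have := hsc 0
    rw [if_pos (by omega), h0] at this
    omega
  have hsv : 1 < wn r (toR (toZ s)) := by
    rw [wn_eq_nv]
    have h1 : nv r (PowerSeries.trunc D1 H) = nv r lo + nv r s := by rw [hs, map_add]
    have h2 : nv r (PowerSeries.trunc D H) ≤ nv r (PowerSeries.trunc D1 H) :=
      nv_mono r0.le (trunc_trunc_le (by omega) H)
    have h3 : nv r lo ≤ 4 := by
      rw [hlo, map_sum]
      calc ∑ i, nv r (X ^ (l i + 1)) ≤ ∑ _i : Fin 4, (1 : ℝ) := by
            refine Finset.sum_le_sum fun i _ => ?_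
            rw [map_pow, nv_X]
            exact pow_le_one₀ r0.le r1.le
        _ = 4 := by simp
    linarith
  have hpos : ∀ d, M < d → d < D1 → s.coeff d ≠ 0 := by
    intro d h1 h2
    have h3 := hsc d
    rw [hloM d h1, if_pos h2] at h3
    have h4 := hd0 d (by omega)
    omega
  obtain ⟨ρ, c, n0, hρ, hR⟩ := ren_of_value hs0 r0 r1.le hsv (a := M + 1)
    (hpos _ (by omega) (by omega)) (hpos _ (by omega) (by omega))
  have hle : ∀ d, (lps s l).coeff d = if d < D1 then PowerSeries.coeff d H else 0 := by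
    intro d
    unfold lps
    rw [Polynomial.coeff_add]
    exact hsc d
  refine ⟨fun i => D1 + i, s, ρ, c, n0, D1 + m, fun i => Nat.add_pos_left (by omega) _, hR, hρ,
    fun d => ?_, ?_⟩
  · rw [BR9_lps_sum, hle]
    by_cases hd : d < D1
    · rw [if_pos hd]
      have : (Finset.univ.filter fun i : Fin m => D1 + (i : ℕ) + 1 = d) = ∅ := by
        refine Finset.filter_eq_empty_iff.2 fun i _ => ?_
        omega
      rw [this, Finset.card_empty, add_zero]
    · rw [if_neg hd, zero_add]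
      have h1 : (Finset.univ.filter fun i : Fin m => D1 + (i : ℕ) + 1 = d).card ≤ 1 := by
        refine Finset.card_le_one.2 fun i hi j hj => ?_
        simp only [Finset.mem_filter, Finset.mem_univ, true_and] at hi hj
        exact Fin.ext (by omega)
      exact h1.trans (hd0 d (by omega))
  · rw [BR9_lps_sum, hle, if_neg (by omega), zero_add]
    have : (Finset.univ.filter fun i : Fin m => D1 + (i : ℕ) + 1 = D1 + m + 1) = ∅ := by
      refine Finset.filter_eq_empty_iff.2 fun i _ => ?_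
      have := i.2
      omega
    rw [this, Finset.card_empty]
    exact Nat.lt_of_lt_of_le Nat.zero_lt_one (hd0 _ (by omega))

/-- modulo `X` -/
private noncomputable def BR9_ev {I : Type} [Fintype I] :
    SpecialLinearGroup I ℤ[X] →* SpecialLinearGroup I ℤ :=
  SpecialLinearGroup.map (Polynomial.evalRingHom (0 : ℤ))

private lemma BR9_EX {I : Type} [Fintype I] {V : SpecialLinearGroup I ℤ[X]} (hV : V ∈ EX I) :
    BR9_ev V = 1 := by
  have h1 : EX I ≤ (BR9_ev (I := I)).ker := by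
    unfold EX
    rw [Subgroup.closure_le]
    rintro g ⟨i, j, hij, c, rfl⟩
    change BR9_ev _ = 1
    refine Subtype.ext ?_
    refine Matrix.ext fun a b => ?_
    change (Polynomial.evalRingHom (0 : ℤ)) (((xx hij (X * c) : SpecialLinearGroup I ℤ[X]) :
      Matrix I I ℤ[X]) a b) = (1 : Matrix I I ℤ) a b
    rw [xx_coe_apply, map_add]
    have h2 : (Polynomial.evalRingHom (0 : ℤ)) (if i = a ∧ j = b then X * c else 0) = 0 := by
      split_ifs
      · simp
      · simp
    rw [h2, add_zero, Matrix.one_apply, Matrix.one_apply]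
    split_ifs <;> simp
  exact h1 hV

private lemma BR9_IP {I : Type} [Fintype I] {P : Matrix I I ℕ[X]} (hP : IsPres P) (i j : I) :
    (IP P i j).eval 0 = (1 : Matrix I I ℤ) i j := by
  have h1 : (toZ (P i j)).eval 0 = 0 := by
    rw [← Polynomial.coeff_zero_eq_eval_zero]
    unfold toZ
    rw [Polynomial.coeff_map, hP i j]
    simp
  unfold IP
  rw [Polynomial.eval_sub, h1, sub_zero, Matrix.one_apply]
  split_ifs <;> simp

theorem pairOut_of_cov {K : Type} [AddCommGroup K] [Module ℤ[X] K] {δ : ℤ[X]} {sB : ℕ[X]}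
    {l : Fin 4 → ℕ} {S1 : PX K δ (lps sB l)} {n : ℕ} {B : Matrix (Fin n) (Fin n) ℕ}
    {SB : PX K δ 0} (hSB : PEqv SB.P (ofMat B)) {I : Type} [Fintype I] {x : I} {r : ℝ}
    {L : Matrix I I (PowerSeries ℕ)} {cl : I → K} (hc : CovLim x r 10 (lps sB l) L)
    (hA : Reach S1 cl x r L) (hB : Reach SB cl x r L) : PairOut l S1 B := by
  obtain ⟨BA, MA, hA⟩ := hA
  obtain ⟨BB, MB, hB⟩ := hB
  -- the fixed base change
  obtain ⟨PA0, hPA0, -, -, -, ⟨VA0, hVA0, eA0⟩, -, -⟩ := hA 0
  obtain ⟨PB0, hPB0, -, -, -, ⟨VB0, hVB0, eB0⟩, -, -⟩ := hB 0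
  obtain ⟨U, -, hU, -, -, -, hUdet⟩ := hPA0.unique hPB0
  set U1 : SpecialLinearGroup I ℤ[X] := ⟨U, hUdet⟩ with hU1
  set U0 : SpecialLinearGroup I ℤ[X] := VB0⁻¹ * U1 * VA0 with hU0
  have hbase : MB = (U0 : Matrix I I ℤ[X]) * MA := by
    have e1 : MB = ((VB0⁻¹ : SpecialLinearGroup I ℤ[X]) : Matrix I I ℤ[X]) * IP PB0 := by
      rw [eB0, ← Matrix.mul_assoc, ← Matrix.SpecialLinearGroup.coe_mul, inv_mul_cancel,
        Matrix.SpecialLinearGroup.coe_one, Matrix.one_mul]
    rw [e1, hU, eA0, hU0, Matrix.SpecialLinearGroup.coe_mul, Matrix.SpecialLinearGroup.coe_mul]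
    simp only [Matrix.mul_assoc]
    rfl
  have hU0X : ∀ i j, i ≠ j → X ∣ (U0 : Matrix I I ℤ[X]) i j := by
    have h1 : BR9_ev U1 = 1 := by
      refine Subtype.ext ?_
      have e1 : (IP PB0).map (Polynomial.evalRingHom (0 : ℤ)) =
          (U * IP PA0).map (Polynomial.evalRingHom (0 : ℤ)) := by rw [← hU]
      rw [Matrix.map_mul] at e1
      have e2 : ∀ {P : Matrix I I ℕ[X]}, IsPres P →
          (IP P).map (Polynomial.evalRingHom (0 : ℤ)) = 1 := by
        intro P hP
        refine Matrix.ext fun i j => ?_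
        rw [Matrix.map_apply, Polynomial.coe_evalRingHom]
        exact BR9_IP hP i j
      rw [e2 hPB0.pres, e2 hPA0.pres, Matrix.mul_one] at e1
      exact e1.symm
    have h2 : BR9_ev U0 = 1 := by
      rw [hU0, map_mul, map_mul, map_inv, BR9_EX hVA0, BR9_EX hVB0, h1]
      simp
    intro i j hij
    have h3 : (Polynomial.evalRingHom (0 : ℤ)) ((U0 : Matrix I I ℤ[X]) i j) =
        (1 : Matrix I I ℤ) i j := by
      have := congrArg (fun M : SpecialLinearGroup I ℤ => (M : Matrix I I ℤ) i j) h2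
      exact this
    rw [Matrix.one_apply_ne hij, Polynomial.coe_evalRingHom,
      ← Polynomial.coeff_zero_eq_eval_zero] at h3
    exact Polynomial.X_dvd_iff.2 h3
  choose! a ha using hc.col
  choose! bb hb using hc.row
  refine ⟨I, inferInstance, inferInstance, x, cl, U0, fun j hj => hU0X x j (Ne.symm hj),
    fun m => ?_⟩
  obtain ⟨k, s, ρ, c, n0, b, hk, hR, hρ, hlps, hlt⟩ := choose_loops hc.r0 hc.r1 (hc.zero x x) hc.q
    hc.val hc.large m
  refine ⟨k, s, ρ, c, n0, r, max BA BB, ∑ v, a v, b + ∑ v, bb v, hk, hR, hρ, fun T => ?_⟩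
  set T0 : ℕ := T + (∑ v, a v) + (∑ v, bb v) + b + 2 +
    (lps s (Sum.elim l k : Fin 4 ⊕ Fin m → ℕ)).natDegree with hT0
  obtain ⟨PA, hPA, hqA, hxA, hrA, ⟨VA, hVA, eA⟩, hagA, hnA⟩ := hA T0
  obtain ⟨PB, hPB, hqB, hxB, hrB, ⟨VB, hVB, eB⟩, hagB, hnB⟩ := hB T0
  have haT : ∀ v, a v ≤ ∑ v, a v := fun v =>
    Finset.single_le_sum (f := a) (fun _ _ => Nat.zero_le _) (Finset.mem_univ v)
  have hbT : ∀ v, bb v ≤ ∑ v, bb v := fun v =>
    Finset.single_le_sum (f := bb) (fun _ _ => Nat.zero_le _) (Finset.mem_univ v)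
  have ha0 : ∀ v, v ≠ x → a v ≠ 0 := by
    intro v hv h0
    have := ha v hv
    rw [h0, hc.zero] at this
    omega
  have hlps' : ∀ (P : Matrix I I ℕ[X]), (∀ i j, Ag T0 (P i j) (L i j)) →
      ∀ n, (lps s (Sum.elim l k : Fin 4 ⊕ Fin m → ℕ)).coeff n ≤ (P x x).coeff n := by
    intro P hP n
    by_cases hn : n < T0
    · rw [hP x x n hn]
      exact hlps n
    · rw [Polynomial.coeff_eq_zero_of_natDegree_lt (by omega)]
      exact Nat.zero_le _
  have hqle : ∀ (P : Matrix I I ℕ[X]), (∀ i j, Ag T0 (P i j) (L i j)) → ∀ j, j ≠ x →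
      ∀ n, (X ^ a j : ℕ[X]).coeff n ≤ (P x j).coeff n := by
    intro P hP j hj n
    rw [Polynomial.coeff_X_pow]
    split_ifs with hn
    · rw [hn, hP x j (a j) (by have := haT j; omega)]
      exact ha j hj
    · exact Nat.zero_le _
  refine ⟨PA, PB, fun v => if v = x then s else X ^ a v, VB, VA, hPA, hqA, hxA, hrA, hPB.pres, hxB,
    ?_, hVB, hVA, ?_, if_pos rfl, ?_, ?_, hlps' PA hagA, hlps' PB hagB, ?_, ?_, ?_, ?_, ?_, ?_⟩
  · exact hrB.peqv.symm.trans hSB
  · have e1 : ((VA⁻¹ : SpecialLinearGroup I ℤ[X]) : Matrix I I ℤ[X]) *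
        ((VA : Matrix I I ℤ[X]) * MA) = MA := by
      rw [← Matrix.mul_assoc, ← Matrix.SpecialLinearGroup.coe_mul, inv_mul_cancel,
        Matrix.SpecialLinearGroup.coe_one, Matrix.one_mul]
    rw [eB, hbase, eA, Matrix.SpecialLinearGroup.coe_mul (VB * U0),
      Matrix.SpecialLinearGroup.coe_mul VB, Matrix.mul_assoc, Matrix.mul_assoc, e1]
  · intro j
    by_cases hj : j = x
    · simp only [hj, if_true]
      exact hR.s0
    · simp only [hj, if_false]
      rw [Polynomial.coeff_X_pow, if_neg (fun h => ha0 j hj h.symm)]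
  · intro j hj n
    simp only [hj, if_false]
    exact ⟨hqle PA hagA j hj n, hqle PB hagB j hj n⟩
  · intro v hv
    refine ⟨a v, haT v, ?_⟩
    simp only [hv, if_false]
    rw [Polynomial.coeff_X_pow, if_pos rfl]
  · refine ⟨b, Nat.le_add_right _ _, ?_⟩
    rw [hagA x x (b + 1) (by omega)]
    exact hlt
  · intro v hv
    refine ⟨bb v, (hbT v).trans (Nat.le_add_left _ _), ?_⟩
    rw [hagA v x (bb v) (by have := hbT v; omega)]
    exact hb v hv
  · intro i j
    rw [wn_eq_nv]
    exact (hnA i j).trans (le_max_left _ _)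
  · intro i j
    rw [wn_eq_nv]
    exact (hnB i j).trans (le_max_right _ _)
  · intro i j n hn
    rw [hagA i j n (by omega), hagB i j n (by omega)]

end Pool.Agent.SSE
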