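import Pool.Agent.SSE.S1d

/-!
# SSE project, hub part, Lemma S1: the steps of the construction
-/

set_option autoImplicit false

open scoped BigOperators
open Matrix Polynomial

namespace Pool.Agent.SSE

open Pool.Agent.helper52.SSE

attribute [local instance] Classical.propDecidable

variable {ι : Type} [Fintype ι]
variable {K : Type} [AddCommGroup K] [Module ℤ[X] K]

section lemmas

theorem S1.toZ_add (p q : ℕ[X]) : toZ (p + q) = toZ p + toZ q := Polynomial.map_add _
theorem S1.toZ_mul (p q : ℕ[X]) : toZ (p * q) = toZ p * toZ q := Polynomial.map_mul _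
theorem S1.toZ_X : toZ X = X := Polynomial.map_X _
theorem S1.toZ_zero : toZ 0 = 0 := Polynomial.map_zero _
theorem S1.toZ_one : toZ 1 = 1 := Polynomial.map_one _
theorem S1.toZ_pow (p : ℕ[X]) (n : ℕ) : toZ (p ^ n) = toZ p ^ n := Polynomial.map_pow _ _

/-- nonnegative integer polynomials come from `ℕ[X]` -/
theorem exists_nat_lift (f : ℤ[X]) (h : ∀ n, 0 ≤ f.coeff n) : ∃ g : ℕ[X], toZ g = f := by
  refine ⟨∑ n ∈ f.support, monomial n (f.coeff n).toNat, ?_⟩
  unfold toZ
  rw [Polynomial.map_sum]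
  conv_rhs => rw [f.as_sum_support]
  refine Finset.sum_congr rfl fun n _ => ?_
  rw [Polynomial.map_monomial]
  congr 1
  exact Int.toNat_of_nonneg (h n)

/-- the expansion by all visits below degree `L` -/
theorem expand_tr {Q : Matrix ι ι ℕ[X]} (hQ : IsPres Q) {w : ι → ℤ[X]} {V : ι → PowerSeries ℤ}
    (hV : St Q (fun j => ps (w j)) V) (hw : ∀ j n, 0 ≤ (w j).coeff n) (L : ℕ) (j : ι) :
    (∀ n, n < L → (w j + ∑ k, tr L (V k) * toZ (Q k j) - tr L (V j)).coeff n = 0) ∧
    (w j + ∑ k, tr L (V k) * toZ (Q k j) - tr L (V j)).coeff L = PowerSeries.coeff L (V j) ∧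
    ∀ n, 0 ≤ (w j + ∑ k, tr L (V k) * toZ (Q k j) - tr L (V j)).coeff n := by
  have hVn := hV.nonneg hQ (fun j n => by rw [coeff_ps]; exact hw j n)
  have htr : ∀ k n, PowerSeries.coeff n (ps (tr L (V k))) = if n < L then PowerSeries.coeff n (V k) else 0 := by
    intro k n
    rw [coeff_ps, coeff_tr]
  have h1 : ∀ k n, (tr L (V k) * toZ (Q k j)).coeff n =
      ∑ c ∈ Finset.range n, (if c < L then PowerSeries.coeff c (V k) else 0) * ((Q k j).coeff (n - c) : ℤ) := by
    intro k n
    rw [← coeff_ps, ps_mul, coeff_mul_toZ' _ (hQ k j)]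
    simp only [htr]
  have h2 : ∀ n, n ≤ L → (w j + ∑ k, tr L (V k) * toZ (Q k j)).coeff n = PowerSeries.coeff n (V j) := by
    intro n hn
    rw [coeff_add, finsetSum_coeff, hV j, map_add, coeff_ps, map_sum]
    congr 1
    refine Finset.sum_congr rfl fun k _ => ?_
    rw [h1, coeff_mul_toZ' _ (hQ k j)]
    refine Finset.sum_congr rfl fun c hc => ?_
    rw [if_pos (lt_of_lt_of_le (Finset.mem_range.1 hc) hn)]
  refine ⟨fun n hn => ?_, ?_, fun n => ?_⟩
  · rw [coeff_sub, h2 n hn.le, coeff_tr, if_pos hn, sub_self]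
  · rw [coeff_sub, h2 L le_rfl, coeff_tr, if_neg (lt_irrefl _), sub_zero]
  · rcases lt_or_ge n L with hn | hn
    · rw [coeff_sub, h2 n hn.le, coeff_tr, if_pos hn, sub_self]
    · rw [coeff_sub, coeff_tr, if_neg (by omega), sub_zero, coeff_add, finsetSum_coeff]
      refine add_nonneg (hw j n) (Finset.sum_nonneg fun k _ => ?_)
      rw [h1]
      refine Finset.sum_nonneg fun c _ => mul_nonneg ?_ (by positivity)
      split_ifs
      · exact hVn _ _
      · exact le_rfl

end lemmas

section steps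

variable {A : Matrix ι ι ℕ} {o j' : ι} {q : ℕ} {c : ℕ → ι} {δ : ℤ[X]} {e : ι → K}

omit [Fintype ι] in
theorem toZ_rrow (h : Cyc A o j' q c) (j : ι) : toZ (rrow A (q + 1) c j) =
    ∑ k ∈ Finset.range (q + 1),
      (X : ℤ[X]) ^ k * (toZ (ofMat A (c k) j) - if j = c (k + 1) then X else 0) := by
  unfold rrow toZ
  rw [Polynomial.map_sum]
  refine Finset.sum_congr rfl fun k hk => ?_
  have hk' := Finset.mem_range.1 hk
  rw [Polynomial.map_mul, Polynomial.map_mul, Polynomial.map_pow, Polynomial.map_X,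
    Polynomial.map_C]
  congr 1
  unfold ofMat
  rw [Polynomial.map_mul, Polynomial.map_X, Polynomial.map_C]
  split_ifs with hj
  · have h2 := h.edge k hk'
    rw [hj]
    obtain ⟨t, ht⟩ : ∃ t, A (c k) (c (k + 1)) = t + 1 := ⟨_, (Nat.sub_add_cancel h2).symm⟩
    rw [ht, Nat.add_sub_cancel]
    simp
    ring
  · simp

/-- the first presentation: the cycle as a loop at `o` -/
noncomputable def P1 (A : Matrix ι ι ℕ) (o : ι) (q : ℕ) (c : ℕ → ι) : Matrix ι ι ℕ[X] :=
  setRow (ofMat A) o fun j => rrow A (q + 1) c j + if j = o then X ^ (q + 1) else 0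

theorem step1 (hc : Cyc A o j' q c) (h : PresOf δ e (ofMat A)) :
    PEqv (ofMat A) (P1 A o q c) ∧ PresOf δ e (P1 A o q c) := by
  set cc : ι → ℤ[X] := fun l => ∑ k ∈ Finset.range q, if l = c (k + 1) then X ^ (k + 1) else 0
    with hcc
  refine h.add_rows ?_ o (fun l hl => ?_) cc ?_ fun j => ?_
  · intro i j
    unfold P1 setRow
    by_cases hi : i = o
    · rw [if_pos hi, coeff_add, rrow_zero]
      split_ifs <;> simp
    · rw [if_neg hi]
      exact isPres_ofMat A i j
  · funext j
    simp [P1, setRow, hl]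
  · simp only [hcc]
    refine Finset.sum_eq_zero fun k hk => ?_
    rw [if_neg fun h1 => hc.ne k (Finset.mem_range.1 hk) h1.symm]
  · have h1 : ∑ l, cc l * IP (ofMat A) l j = ∑ k ∈ Finset.range q,
        (X : ℤ[X]) ^ (k + 1) * IP (ofMat A) (c (k + 1)) j := by
      simp only [hcc, Finset.sum_mul]
      rw [Finset.sum_comm]
      refine Finset.sum_congr rfl fun k _ => ?_
      rw [Finset.sum_eq_single (c (k + 1))]
      · rw [if_pos rfl]
      · intro i _ hi
        rw [if_neg hi, zero_mul]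
      · intro h
        exact absurd (Finset.mem_univ _) h
    have h2 : toZ (rrow A (q + 1) c j) = toZ (ofMat A o j) +
        ∑ k ∈ Finset.range q, (X : ℤ[X]) ^ (k + 1) * toZ (ofMat A (c (k + 1)) j) -
        (∑ k ∈ Finset.range q, (X : ℤ[X]) ^ (k + 1) * (if c (k + 1) = j then 1 else 0)) -
        if j = o then X ^ (q + 1) else 0 := by
      rw [toZ_rrow hc]
      have h3 : ∀ k, (X : ℤ[X]) ^ k * (toZ (ofMat A (c k) j) - if j = c (k + 1) then X else 0) =
          (X : ℤ[X]) ^ k * toZ (ofMat A (c k) j) -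
            (X : ℤ[X]) ^ (k + 1) * if c (k + 1) = j then 1 else 0 := by
        intro k
        by_cases hj : j = c (k + 1)
        · rw [if_pos hj, if_pos hj.symm]; ring
        · rw [if_neg hj, if_neg (Ne.symm hj)]; ring
      simp only [h3, Finset.sum_sub_distrib]
      rw [Finset.sum_range_succ', Finset.sum_range_succ (fun k => (X : ℤ[X]) ^ (k + 1) *
        if c (k + 1) = j then 1 else 0), hc.zero, hc.last, pow_zero, one_mul]
      by_cases hj : j = o
      · rw [if_pos hj, if_pos hj.symm]; ring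
      · rw [if_neg hj, if_neg (Ne.symm hj)]; ring
    rw [h1]
    have h4 : IP (P1 A o q c) o j = (if o = j then 1 else 0) - (toZ (rrow A (q + 1) c j) +
        if j = o then X ^ (q + 1) else 0) := by
      unfold IP P1 setRow
      rw [if_pos rfl, S1.toZ_add]
      congr 2
      split_ifs
      · rw [S1.toZ_pow, S1.toZ_X]
      · exact S1.toZ_zero
    have h5 : ∀ k, (X : ℤ[X]) ^ (k + 1) * IP (ofMat A) (c (k + 1)) j =
        (X : ℤ[X]) ^ (k + 1) * (if c (k + 1) = j then 1 else 0) -
        (X : ℤ[X]) ^ (k + 1) * toZ (ofMat A (c (k + 1)) j) := by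
      intro k
      unfold IP
      ring
    simp only [h5, Finset.sum_sub_distrib]
    rw [h4, h2]
    unfold IP
    ring

/-- the third presentation: the new vertex is far away -/
noncomputable def P3 (A : Matrix ι ι ℕ) (o : ι) (q : ℕ) (c : ℕ → ι) (J : ℕ) :
    Matrix (ι ⊕ Unit) (ι ⊕ Unit) ℕ[X] :=
  fromBlocks (env A o (q + 1) c J) (of fun l _ => if l = o then X ^ ((q + 1) * J + 1) else 0)
    (of fun _ j => X ^ q * rrow A (q + 1) c j) (of fun _ _ => X ^ (q + 1))

theorem step3 (hc : Cyc A o j' q c) (h : PresOf δ e (ofMat A)) (J : ℕ) :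
    PEqv (ofMat A) (P3 A o q c J) ∧
      PresOf δ (Sum.elim e fun _ => (X : ℤ[X]) ^ q • e o) (P3 A o q c J) := by
  obtain ⟨e1, h1⟩ := step1 hc h
  have hdX : (X ^ (q + 1) : ℕ[X]).divX = X ^ q := by
    rw [divX_X_pow, if_neg (Nat.succ_ne_zero q)]
    rfl
  obtain ⟨e2, h2⟩ := h1.isolate o (X ^ (q + 1)) (rrow A (q + 1) c) (by simp)
    (fun j => rrow_zero A (q + 1) c j) (fun j => by simp [P1, setRow])
  rw [hdX, S1.toZ_pow, S1.toZ_X] at h2
  set sg : ℕ[X] := ∑ m ∈ Finset.range J, X ^ ((q + 1) * m) with hsg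
  have hs1 : sgeo (q + 1) J = 1 + X ^ (q + 1) * sg := by
    unfold sgeo
    rw [Finset.sum_range_succ', hsg, Finset.mul_sum, Nat.mul_zero, pow_zero, add_comm]
    congr 1
    refine Finset.sum_congr rfl fun m _ => ?_
    rw [← pow_add]
    congr 1
    ring
  have hs2 : (1 - (X : ℤ[X]) ^ (q + 1)) * toZ sg = 1 - X ^ ((q + 1) * J) := by
    have h3 : toZ sg = ∑ m ∈ Finset.range J, ((X : ℤ[X]) ^ (q + 1)) ^ m := by
      unfold toZ
      rw [hsg, Polynomial.map_sum]
      refine Finset.sum_congr rfl fun m _ => ?_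
      simp [pow_mul]
    rw [h3, mul_comm, geom_sum_mul_neg, ← pow_mul]
  have h3 := h2.add_rows (P' := P3 A o q c J) (by
    rintro (i | i) (j | j)
    · exact isPres_env A o (q + 1) c J i j
    · simp only [P3, fromBlocks_apply₁₂, of_apply]
      split_ifs <;> simp
    · simp only [P3, fromBlocks_apply₂₁, of_apply]
      rw [mul_coeff_zero, rrow_zero, mul_zero]
    · simp [P3]) (Sum.inl o) (fun l hl => by
    funext b
    rcases l with l | l
    · have hlo : l ≠ o := fun h => hl (by rw [h])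
      rcases b with b | b
      · simp [P3, iso, setRow, P1, env, hlo, ofMat]
      · simp [P3, iso, hlo]
    · rcases b with b | b
      · simp [P3, iso, hdX]
      · simp [P3, iso]) (Sum.elim 0 fun _ => X * toZ sg) (by simp) (by
    intro b
    rw [Fintype.sum_sum_type]
    simp only [Sum.elim_inl, Sum.elim_inr, Pi.zero_apply, zero_mul, Finset.sum_const_zero, zero_add,
      Finset.univ_unique, Finset.sum_singleton]
    rcases b with b | b
    · have e1 : IP (P3 A o q c J) (Sum.inl o) (Sum.inl b) = (if o = b then 1 else 0) -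
          toZ (sgeo (q + 1) J) * toZ (rrow A (q + 1) c b) := by
        simp only [IP, P3, fromBlocks_apply₁₁, Sum.inl.injEq, env, if_true, S1.toZ_mul]
      have e2 : IP (iso (P1 A o q c) o (X ^ (q + 1)) (rrow A (q + 1) c)) (Sum.inl o) (Sum.inl b) =
          (if o = b then 1 else 0) - toZ (rrow A (q + 1) c b) := by
        simp only [IP, iso, fromBlocks_apply₁₁, Sum.inl.injEq, setRow, if_true]
      have e3 : IP (iso (P1 A o q c) o (X ^ (q + 1)) (rrow A (q + 1) c)) (Sum.inr default)
          (Sum.inl b) = - (X ^ q * toZ (rrow A (q + 1) c b)) := by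
        simp only [IP, iso, fromBlocks_apply₂₁, of_apply, reduceCtorEq, if_false, hdX, S1.toZ_mul,
          S1.toZ_pow, S1.toZ_X, zero_sub]
      rw [e1, e2, e3, hs1, S1.toZ_add, S1.toZ_mul, S1.toZ_pow, S1.toZ_X, S1.toZ_one]
      ring
    · have e1 : IP (P3 A o q c J) (Sum.inl o) (Sum.inr b) = - X ^ ((q + 1) * J + 1) := by
        simp only [IP, P3, fromBlocks_apply₁₂, of_apply, if_true, reduceCtorEq, if_false, zero_sub,
          S1.toZ_pow, S1.toZ_X]
      have e2 : IP (iso (P1 A o q c) o (X ^ (q + 1)) (rrow A (q + 1) c)) (Sum.inl o) (Sum.inr b) =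
          - X := by
        simp only [IP, iso, fromBlocks_apply₁₂, of_apply, if_true, reduceCtorEq, if_false, zero_sub,
          S1.toZ_X]
      have e3 : IP (iso (P1 A o q c) o (X ^ (q + 1)) (rrow A (q + 1) c)) (Sum.inr default)
          (Sum.inr b) = 1 - X ^ (q + 1) := by
        obtain rfl : b = default := rfl
        simp only [IP, iso, fromBlocks_apply₂₂, of_apply, if_true, S1.toZ_pow, S1.toZ_X]
      rw [e1, e2, e3]
      linear_combination (-(X : ℤ[X])) * hs2)
  exact ⟨(e1.trans e2).trans h3.1, h3.2⟩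

end steps

end Pool.Agent.SSE
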