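import Pool.Agent.SSE.S1f
import Pool.Agent.SSE.S1g

/-!
# SSE project, hub part: Lemma S1

For every class `ξ` with `τ ξ > 0` there is a presentation of `A` on the original vertices, one
further vertex `y0` and a vertex `x` of class `ξ`, such that the row of `x` is
`t ^ Lx ∑ v_i e_i`, all `v_i ≥ 1`, the series of walks from `x` (avoiding `x`) to every vertex and
the first return series of `x` have coefficients tending to infinity, every vertex reaches `x`,
and the matrix without `x` has spectral radius `< 1` at some `ρ > x0`.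
-/

set_option autoImplicit false

open scoped BigOperators
open Matrix Polynomial

namespace Pool.Agent.SSE

open Pool.Agent.helper52.SSE

attribute [local instance] Classical.propDecidable

variable {ι : Type} [Fintype ι]
variable {K : Type} [AddCommGroup K] [Module ℤ[X] K]

/-- the presentation of Lemma S1 -/
noncomputable def PS1 (A : Matrix ι ι ℕ) (o : ι) (q : ℕ) (c : ℕ → ι) (J L Lx : ℕ) (v : ι → ℕ)
    (N : ι → ℕ[X]) (Wo : ℕ[X]) : Matrix ((ι ⊕ Unit) ⊕ Unit) ((ι ⊕ Unit) ⊕ Unit) ℕ[X] :=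
  fromBlocks
    (fromBlocks (env A o (q + 1) c J) (of fun l _ => if l = o then X ^ ((q + 1) * J + 1) else 0)
      (of fun _ j => N j) (of fun _ _ => X ^ (q + 1) + Wo * X ^ ((q + 1) * J + 1)))
    (of fun l _ => Sum.elim (fun _ => 0) (fun _ => X ^ (L - Lx)) l)
    (of fun _ l => Sum.elim (fun j => C (v j) * X ^ Lx) (fun _ => 0) l) 0

section
variable {A : Matrix ι ι ℕ} {o j' : ι} {q : ℕ} {c : ℕ → ι} {δ : ℤ[X]} {e : ι → K}

theorem step5 (hc : Cyc A o j' q c) (h : PresOf δ e (ofMat A)) {J L Lx : ℕ} {v : ι → ℕ}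
    {N : ι → ℕ[X]} {Wo : ℕ[X]} {ξ : K} (hLx : 0 < Lx) (hL : Lx < L)
    (hξ : ξ = ∑ j, toZ (C (v j) * X ^ Lx) • e j) {V : ι → PowerSeries ℤ}
    (hV : St (env A o (q + 1) c J) (fun j => ps (toZ (X ^ q * rrow A (q + 1) c j))) V)
    (hN : ∀ j, toZ (N j) = toZ (X ^ q * rrow A (q + 1) c j) +
      ∑ k, tr L (V k) * toZ (env A o (q + 1) c J k j) - tr L (V j) - toZ (C (v j) * X ^ L))
    (hWo : toZ Wo = tr L (V o)) :
    PEqv (ofMat A) (PS1 A o q c J L Lx v N Wo) ∧
      PresOf δ (Sum.elim (Sum.elim e fun _ => (X : ℤ[X]) ^ q • e o) fun _ => ξ)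
        (PS1 A o q c J L Lx v N Wo) := by
  obtain ⟨e1, h1⟩ := step3 hc h J
  obtain ⟨e2, h2⟩ := h1.sources
    (of fun (_ : Unit) l => Sum.elim (fun j => C (v j) * X ^ Lx) (fun _ => 0) l) (by
      rintro k (j | j)
      · simp [hLx.ne]
      · simp)
  have hcl : (fun k : Unit => ∑ j, toZ ((of fun (_ : Unit) l => Sum.elim
      (fun j => C (v j) * X ^ Lx) (fun _ => 0) l : Matrix Unit (ι ⊕ Unit) ℕ[X]) k j) •
      (Sum.elim e (fun _ => (X : ℤ[X]) ^ q • e o) : ι ⊕ Unit → K) j) = fun _ => ξ := by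
    funext k
    rw [Fintype.sum_sum_type, hξ]
    simp [toZ]
  rw [hcl] at h2
  set c' : (ι ⊕ Unit) ⊕ Unit → ℤ[X] :=
    Sum.elim (Sum.elim (fun k => tr L (V k)) fun _ => 0) fun _ => - X ^ (L - Lx) with hc'
  have hN0 : ∀ j, (N j).coeff 0 = 0 := by
    intro j
    have h3 := congrArg (fun f => Polynomial.coeff f 0) (hN j)
    rw [coeff_toZ, coeff_sub, (expand_tr (isPres_env A o (q + 1) c J) hV
      (fun j n => by rw [coeff_toZ]; positivity) L j).1 0 (by omega), coeff_toZ] at h3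
    have h4 : (C (v j) * X ^ L : ℕ[X]).coeff 0 = 0 := by
      rw [coeff_C_mul, coeff_X_pow, if_neg (by omega), mul_zero]
    rw [h4] at h3
    have h5 : ((N j).coeff 0 : ℤ) = 0 := by simpa using h3
    exact_mod_cast h5
  have h3 := h2.add_rows (P' := PS1 A o q c J L Lx v N Wo) (by
    rintro ((i | i) | i) ((j | j) | j)
    · exact isPres_env A o (q + 1) c J i j
    · simp only [PS1, fromBlocks_apply₁₁, fromBlocks_apply₁₂, of_apply]
      split_ifs <;> simp
    · simp [PS1]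
    · simpa [PS1] using hN0 j
    · simp [PS1, mul_coeff_zero]
    · simp only [PS1, fromBlocks_apply₁₂, of_apply, Sum.elim_inr]
      rw [coeff_X_pow, if_neg (by omega)]
    · simp [PS1, hLx.ne]
    · simp [PS1]
    · simp [PS1]) (Sum.inl (Sum.inr ())) (fun l hl => by
    funext b
    rcases l with (l | l) | l
    · rcases b with (b | b) | b
      · simp [PS1, P3]
      · simp [PS1, P3]
      · simp [PS1]
    · exact absurd rfl hl
    · rcases b with (b | b) | b
      · simp [PS1]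
      · simp [PS1]
      · simp [PS1]) c' (by simp [hc']) (by
    intro b
    rw [Fintype.sum_sum_type, Fintype.sum_sum_type]
    simp only [hc', Sum.elim_inl, Sum.elim_inr, zero_mul, Finset.univ_unique,
      Finset.sum_singleton, add_zero]
    rcases b with (b | b) | b
    · have a1 : IP (PS1 A o q c J L Lx v N Wo) (Sum.inl (Sum.inr ())) (Sum.inl (Sum.inl b)) =
          - toZ (N b) := by
        simp [IP, PS1]
      have a2 : IP (fromBlocks (P3 A o q c J) 0 (of fun (_ : Unit) l => Sum.elim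
          (fun j => C (v j) * X ^ Lx) (fun _ => 0) l) 0 :
          Matrix ((ι ⊕ Unit) ⊕ Unit) ((ι ⊕ Unit) ⊕ Unit) ℕ[X]) (Sum.inl (Sum.inr ()))
          (Sum.inl (Sum.inl b)) = - toZ (X ^ q * rrow A (q + 1) c b) := by
        simp [IP, P3]
      have a3 : ∀ k, IP (fromBlocks (P3 A o q c J) 0 (of fun (_ : Unit) l => Sum.elim
          (fun j => C (v j) * X ^ Lx) (fun _ => 0) l) 0 :
          Matrix ((ι ⊕ Unit) ⊕ Unit) ((ι ⊕ Unit) ⊕ Unit) ℕ[X]) (Sum.inl (Sum.inl k))
          (Sum.inl (Sum.inl b)) = (if k = b then 1 else 0) - toZ (env A o (q + 1) c J k b) := by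
        intro k
        simp [IP, P3]
      have a4 : IP (fromBlocks (P3 A o q c J) 0 (of fun (_ : Unit) l => Sum.elim
          (fun j => C (v j) * X ^ Lx) (fun _ => 0) l) 0 :
          Matrix ((ι ⊕ Unit) ⊕ Unit) ((ι ⊕ Unit) ⊕ Unit) ℕ[X]) (Sum.inr default)
          (Sum.inl (Sum.inl b)) = - toZ (C (v b) * X ^ Lx) := by
        simp [IP]
      rw [a1, a2, a4, hN]
      simp only [a3, mul_sub, Finset.sum_sub_distrib, mul_ite, mul_one, mul_zero,
        Finset.sum_ite_eq', Finset.mem_univ, if_true]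
      have a5 : toZ (C (v b) * X ^ L) = X ^ (L - Lx) * toZ (C (v b) * X ^ Lx) := by
        rw [S1.toZ_mul, S1.toZ_mul, S1.toZ_pow, S1.toZ_pow, S1.toZ_X]
        rw [show L = (L - Lx) + Lx by omega, pow_add]
        simp only [Nat.add_sub_cancel]
        ring
      rw [a5]
      ring
    · have a1 : IP (PS1 A o q c J L Lx v N Wo) (Sum.inl (Sum.inr ())) (Sum.inl (Sum.inr b)) =
          1 - (X ^ (q + 1) + toZ Wo * X ^ ((q + 1) * J + 1)) := by
        simp only [IP, PS1, fromBlocks_apply₁₁, fromBlocks_apply₂₂, of_apply, if_true,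
          S1.toZ_add, S1.toZ_mul, S1.toZ_pow, S1.toZ_X]
      have a2 : IP (fromBlocks (P3 A o q c J) 0 (of fun (_ : Unit) l => Sum.elim
          (fun j => C (v j) * X ^ Lx) (fun _ => 0) l) 0 :
          Matrix ((ι ⊕ Unit) ⊕ Unit) ((ι ⊕ Unit) ⊕ Unit) ℕ[X]) (Sum.inl (Sum.inr ()))
          (Sum.inl (Sum.inr b)) = 1 - X ^ (q + 1) := by
        simp only [IP, P3, fromBlocks_apply₁₁, fromBlocks_apply₂₂, of_apply, if_true,
          S1.toZ_pow, S1.toZ_X]
      have a3 : ∀ k, IP (fromBlocks (P3 A o q c J) 0 (of fun (_ : Unit) l => Sum.elim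
          (fun j => C (v j) * X ^ Lx) (fun _ => 0) l) 0 :
          Matrix ((ι ⊕ Unit) ⊕ Unit) ((ι ⊕ Unit) ⊕ Unit) ℕ[X]) (Sum.inl (Sum.inl k))
          (Sum.inl (Sum.inr b)) = - (if k = o then X ^ ((q + 1) * J + 1) else 0) := by
        intro k
        simp only [IP, P3, fromBlocks_apply₁₁, fromBlocks_apply₁₂, of_apply, Sum.inl.injEq,
          reduceCtorEq, if_false, zero_sub]
        split_ifs
        · rw [S1.toZ_pow, S1.toZ_X]
        · rw [S1.toZ_zero]
      have a4 : IP (fromBlocks (P3 A o q c J) 0 (of fun (_ : Unit) l => Sum.elim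
          (fun j => C (v j) * X ^ Lx) (fun _ => 0) l) 0 :
          Matrix ((ι ⊕ Unit) ⊕ Unit) ((ι ⊕ Unit) ⊕ Unit) ℕ[X]) (Sum.inr default)
          (Sum.inl (Sum.inr b)) = 0 := by
        simp [IP]
      rw [a1, a2, a4, hWo]
      simp only [a3, mul_neg, mul_ite, mul_zero, Finset.sum_neg_distrib, Finset.sum_ite_eq',
        Finset.mem_univ, if_true]
      ring
    · have a1 : IP (PS1 A o q c J L Lx v N Wo) (Sum.inl (Sum.inr ())) (Sum.inr b) =
          - X ^ (L - Lx) := by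
        simp [IP, PS1]
      have a2 : IP (fromBlocks (P3 A o q c J) 0 (of fun (_ : Unit) l => Sum.elim
          (fun j => C (v j) * X ^ Lx) (fun _ => 0) l) 0 :
          Matrix ((ι ⊕ Unit) ⊕ Unit) ((ι ⊕ Unit) ⊕ Unit) ℕ[X]) (Sum.inl (Sum.inr ()))
          (Sum.inr b) = 0 := by
        simp [IP]
      have a3 : ∀ k, IP (fromBlocks (P3 A o q c J) 0 (of fun (_ : Unit) l => Sum.elim
          (fun j => C (v j) * X ^ Lx) (fun _ => 0) l) 0 :
          Matrix ((ι ⊕ Unit) ⊕ Unit) ((ι ⊕ Unit) ⊕ Unit) ℕ[X]) (Sum.inl (Sum.inl k))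
          (Sum.inr b) = 0 := by
        intro k
        simp [IP]
      have a4 : IP (fromBlocks (P3 A o q c J) 0 (of fun (_ : Unit) l => Sum.elim
          (fun j => C (v j) * X ^ Lx) (fun _ => 0) l) 0 :
          Matrix ((ι ⊕ Unit) ⊕ Unit) ((ι ⊕ Unit) ⊕ Unit) ℕ[X]) (Sum.inr default)
          (Sum.inr b) = 1 := by
        simp [IP]
      rw [a1, a2, a4]
      simp only [a3, mul_zero, Finset.sum_const_zero]
      ring)
  exact ⟨(e1.trans e2).trans h3.1, h3.2⟩

end

/-- a coefficient of a product with a power of `X` -/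
theorem S1.coeff_ge {V : PowerSeries ℤ} (hV : ∀ n, 0 ≤ PowerSeries.coeff n V) {p : ℕ[X]} {m : ℕ}
    (hm : 1 ≤ p.coeff m) {d : ℕ} (hd : m ≤ d) :
    PowerSeries.coeff (d - m) V ≤ PowerSeries.coeff d (V * ps (toZ p)) := by
  rw [coeff_mul_toZ]
  refine le_trans ?_ (Finset.single_le_sum
    (f := fun c => PowerSeries.coeff c V * (p.coeff (d - c) : ℤ))
    (fun c _ => mul_nonneg (hV c) (by positivity)) (Finset.mem_range.2
      (show d - m < d + 1 by omega)))
  rw [show d - (d - m) = m by omega]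
  have h1 : (1 : ℤ) ≤ (p.coeff m : ℤ) := by exact_mod_cast hm
  exact le_mul_of_one_le_right (hV _) h1

/-- **Lemma S1** -/
theorem lemma_S1 [Nonempty ι] {A : Matrix ι ι ℕ} {p : ℕ} (hp : 0 < p)
    (hA : ∀ i j, 2 ≤ (A ^ p) i j) {δ : ℤ[X]} {e : ι → K} (h : PresOf δ e (ofMat A))
    {τ : K →+ ℝ} {x0 : ℝ} (hx0 : 0 < x0) (hτ : ∀ z, τ ((X : ℤ[X]) • z) = x0 * τ z)
    (hpos : ∀ i, 0 < τ (e i)) {ξ : K} (hξ : 0 < τ ξ) {b : ℝ} (hb : x0 < b) (Lmin : ℕ) :
    ∃ (P : Matrix ((ι ⊕ Unit) ⊕ Unit) ((ι ⊕ Unit) ⊕ Unit) ℕ[X]) (o : ι) (q Lx : ℕ) (v : ι → ℕ),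
      PEqv (ofMat A) P ∧
      PresOf δ (Sum.elim (Sum.elim e fun _ => (X : ℤ[X]) ^ q • e o) fun _ => ξ) P ∧
      0 < τ ((X : ℤ[X]) ^ q • e o) ∧ q < Fintype.card ι ∧
      Lmin ≤ Lx ∧ (∀ j, 1 ≤ v j) ∧
      (∀ j, P (Sum.inr ()) (Sum.inl (Sum.inl j)) = C (v j) * X ^ Lx) ∧
      P (Sum.inr ()) (Sum.inl (Sum.inr ())) = 0 ∧ P (Sum.inr ()) (Sum.inr ()) = 0 ∧
      (∃ V, Vis P Set.univ (fun j => toZ (P (Sum.inr ()) j)) V ∧
        (∀ j n, 0 ≤ PowerSeries.coeff n (V j)) ∧
        ∀ N : ℕ, ∃ D, ∀ d, D ≤ d → ∀ j, (N : ℤ) ≤ PowerSeries.coeff d (V j)) ∧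
      (∀ f : ι ⊕ Unit, Relation.TransGen (fun i j => P i j ≠ 0) (Sum.inl f) (Sum.inr ())) ∧
      ∃ (ρ θ : ℝ) (w : ι ⊕ Unit → ℝ), x0 < ρ ∧ ρ < b ∧ 0 < θ ∧ θ < 1 ∧ (∀ f, 0 < w f) ∧
        ∀ f, ∑ k, evp ρ (P (Sum.inl f) (Sum.inl k)) * w k ≤ θ * w f := by
  obtain ⟨o, j', q, c, hc⟩ := exists_Cyc hA
  obtain ⟨d1, J, hd1, hstart⟩ := hc.env_start hp hA
  have hQ := isPres_env A o (q + 1) c J
  obtain ⟨C2, -, hrep⟩ := exists_rep hp hA h.relOf.rel h.relOf.top hx0 hτ hpos
  obtain ⟨L0, hL0⟩ := hrep ξ hξ 1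
  set Lx := max (max L0 Lmin) 1 with hLx
  have hLx1 : L0 ≤ Lx := (le_max_left _ _).trans (le_max_left _ _)
  have hLx2 : Lmin ≤ Lx := (le_max_right _ _).trans (le_max_left _ _)
  have hLx3 : 0 < Lx := lt_of_lt_of_le Nat.one_pos (le_max_right _ _)
  obtain ⟨v, hv1, hv2, -⟩ := hL0 Lx hLx1
  -- the visits from `y0`
  set wy : ι → PowerSeries ℤ := fun j => ps (toZ (X ^ q * rrow A (q + 1) c j)) with hwy
  have hwy0 : ∀ j n, 0 ≤ PowerSeries.coeff n (wy j) := by
    intro j n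
    simp only [hwy]
    rw [coeff_ps, coeff_toZ]
    positivity
  obtain ⟨V, hV⟩ := St.exists hQ wy
  have hwy1 : ∃ i e, 1 ≤ PowerSeries.coeff e (wy i) := by
    obtain ⟨j, e, hje⟩ := rrow_ne hd1 hstart
    refine ⟨j, e + q, ?_⟩
    simp only [hwy]
    rw [coeff_ps, coeff_toZ, coeff_X_pow_mul]
    exact_mod_cast hje
  obtain ⟨D, hD⟩ := env_large hd1 hA hstart hwy0 hV hwy1 (Finset.univ.sup v)
  set L := max D (Lx + 1) with hL
  have hLD : D ≤ L := le_max_left _ _
  have hLL : Lx < L := lt_of_lt_of_le (Nat.lt_succ_self Lx) (le_max_right _ _)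
  have hwyc : ∀ (j : ι) (n : ℕ), 0 ≤ (toZ (X ^ q * rrow A (q + 1) c j)).coeff n := by
    intro j n
    rw [coeff_toZ]
    positivity
  have hexp := expand_tr hQ hV hwyc L
  -- the polynomials
  have hNex : ∀ j, ∃ N : ℕ[X], toZ N = toZ (X ^ q * rrow A (q + 1) c j) +
      ∑ k, tr L (V k) * toZ (env A o (q + 1) c J k j) - tr L (V j) - toZ (C (v j) * X ^ L) := by
    intro j
    refine exists_nat_lift _ fun n => ?_
    rw [coeff_sub, coeff_toZ, coeff_C_mul, coeff_X_pow]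
    by_cases hn : n = L
    · subst hn
      rw [(hexp j).2.1, if_pos rfl, mul_one]
      have h1 := hD L hLD j
      have h2 : v j ≤ Finset.univ.sup v := Finset.le_sup (f := v) (Finset.mem_univ j)
      have h3 : (v j : ℤ) ≤ ((Finset.univ.sup v : ℕ) : ℤ) := by exact_mod_cast h2
      linarith
    · rw [if_neg hn, mul_zero, Nat.cast_zero, sub_zero]
      exact (hexp j).2.2 n
  choose N hN using hNex
  obtain ⟨Wo, hWo⟩ := exists_nat_lift (tr L (V o)) (fun n => by
    rw [coeff_tr]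
    split_ifs
    · exact hV.nonneg hQ hwy0 o n
    · exact le_rfl)
  obtain ⟨e1, h1⟩ := step5 hc h hLx3 hLL hv1 hV hN hWo
  set P := PS1 A o q c J L Lx v N Wo with hP
  have hPpres : IsPres P := h1.pres
  have hτq : ∀ (n : ℕ) (z : K), 0 < τ z → 0 < τ ((X : ℤ[X]) ^ n • z) := by
    intro n z hz
    induction n with
    | zero => simpa using hz
    | succ n ih => rw [pow_succ', mul_smul, hτ]; exact mul_pos hx0 ih
  have hgpos : ∀ i, 0 < τ ((Sum.elim (Sum.elim e fun _ => (X : ℤ[X]) ^ q • e o) fun _ => ξ :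
      (ι ⊕ Unit) ⊕ Unit → K) i) := by
    rintro ((i | i) | i)
    · exact hpos i
    · exact hτq q _ (hpos o)
    · exact hξ
  -- edges
  have hE1 : P (Sum.inl (Sum.inr ())) (Sum.inr ()) = X ^ (L - Lx) := by simp [hP, PS1]
  have hE2 : P (Sum.inl (Sum.inl o)) (Sum.inl (Sum.inr ())) = X ^ ((q + 1) * J + 1) := by
    simp [hP, PS1]
  have hry : Relation.TransGen (fun i j => P i j ≠ 0) (Sum.inl (Sum.inr ())) (Sum.inr ()) :=
    Relation.TransGen.single (by rw [hE1]; exact pow_ne_zero _ X_ne_zero)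
  have hro : Relation.TransGen (fun i j => P i j ≠ 0) (Sum.inl (Sum.inl o)) (Sum.inr ()) :=
    Relation.TransGen.head (by rw [hE2]; exact pow_ne_zero _ X_ne_zero) hry
  have hrj : ∀ m j, 1 ≤ (A ^ m) j o →
      Relation.TransGen (fun i j => P i j ≠ 0) (Sum.inl (Sum.inl j)) (Sum.inr ()) := by
    intro m
    induction m with
    | zero =>
      intro j hj
      rw [pow_zero, Matrix.one_apply] at hj
      have hjo : j = o := by
        by_contra hne
        rw [if_neg hne] at hj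
        omega
      rw [hjo]
      exact hro
    | succ m ih =>
      intro j hj
      by_cases hjo : j = o
      · rw [hjo]; exact hro
      rw [pow_succ', Matrix.mul_apply] at hj
      obtain ⟨k, hk⟩ : ∃ k, 1 ≤ A j k * (A ^ m) k o := by
        by_contra h0
        push Not at h0
        rw [Finset.sum_eq_zero fun i _ => Nat.lt_one_iff.1 (h0 i)] at hj
        omega
      have hk1 : 1 ≤ A j k := Nat.one_le_iff_ne_zero.2 fun h => by rw [h, zero_mul] at hk; omega
      have hk2 : 1 ≤ (A ^ m) k o := Nat.one_le_iff_ne_zero.2 fun h => by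
        rw [h, mul_zero] at hk; omega
      refine Relation.TransGen.head ?_ (ih k hk2)
      have h2 : P (Sum.inl (Sum.inl j)) (Sum.inl (Sum.inl k)) = C (A j k) * X := by
        simp [hP, PS1, env, hjo]
      rw [h2]
      refine mul_ne_zero ?_ X_ne_zero
      rw [Ne, C_eq_zero]
      omega
  have hreach : ∀ f : ι ⊕ Unit,
      Relation.TransGen (fun i j => P i j ≠ 0) (Sum.inl f) (Sum.inr ()) := by
    rintro (j | u)
    · exact hrj p j (le_trans (by norm_num) (hA j o))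
    · exact hry
  -- the visits from `x`
  obtain ⟨U, hU⟩ := exists_vis hPpres Set.univ (fun j => toZ (P (Sum.inr ()) j))
  have hUn : ∀ j n, 0 ≤ PowerSeries.coeff n (U j) := fun j n =>
    hU.nonneg hPpres (fun j n => by rw [coeff_toZ]; positivity) n j
  have hU' : ∀ j, U j = ps (toZ (P (Sum.inr ()) j)) +
      ∑ k, U (Sum.inl k) * ps (toZ (P (Sum.inl k) j)) := by
    intro j
    have h2 := hU j
    simp only [Set.mem_univ, if_true] at h2
    exact h2
  have hUeq : ∀ j, U j = ps (toZ (P (Sum.inr ()) j)) +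
      ((∑ k : ι, U (Sum.inl (Sum.inl k)) * ps (toZ (P (Sum.inl (Sum.inl k)) j))) +
        U (Sum.inl (Sum.inr ())) * ps (toZ (P (Sum.inl (Sum.inr ())) j))) := by
    intro j
    have h2 := hU' j
    rw [Fintype.sum_sum_type] at h2
    simpa using h2
  have hprodn : ∀ (j : (ι ⊕ Unit) ⊕ Unit) (r : ℕ[X]) (n : ℕ),
      0 ≤ PowerSeries.coeff n (U j * ps (toZ r)) := by
    intro j r n
    rw [coeff_mul_toZ]
    exact Finset.sum_nonneg fun c _ => mul_nonneg (hUn _ _) (by positivity)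
  have hstepU : ∀ (f : ι ⊕ Unit) (j : (ι ⊕ Unit) ⊕ Unit) (m d : ℕ), 1 ≤ (P (Sum.inl f) j).coeff m →
      m ≤ d → PowerSeries.coeff (d - m) (U (Sum.inl f)) ≤ PowerSeries.coeff d (U j) := by
    intro f j m d hm hd
    refine (S1.coeff_ge (hUn _) hm hd).trans ?_
    conv_rhs => rw [hU' j, map_add, map_sum]
    refine le_add_of_nonneg_of_le (by rw [coeff_ps, coeff_toZ]; positivity) ?_
    exact Finset.single_le_sum (f := fun k => PowerSeries.coeff d
      (U (Sum.inl k) * ps (toZ (P (Sum.inl k) j)))) (fun k _ => hprodn _ _ _) (Finset.mem_univ f)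
  set wx : ι → PowerSeries ℤ := fun j => ps (toZ (C (v j) * X ^ Lx)) with hwx
  have hwx0 : ∀ j n, 0 ≤ PowerSeries.coeff n (wx j) := by
    intro j n
    simp only [hwx]
    rw [coeff_ps, coeff_toZ]
    positivity
  obtain ⟨Vx, hVx⟩ := St.exists hQ wx
  have hcmp : ∀ n j, PowerSeries.coeff n (Vx j) ≤ PowerSeries.coeff n (U (Sum.inl (Sum.inl j))) := by
    intro n j
    refine (le_of_super (V := fun j => U (Sum.inl (Sum.inl j))) hQ hQ (fun _ _ _ => le_rfl) hwx0
      (n + 1) ?_ hVx n (Nat.lt_succ_self n) j).2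
    intro j n _
    have h2 : P (Sum.inr ()) (Sum.inl (Sum.inl j)) = C (v j) * X ^ Lx := by simp [hP, PS1]
    have h3 : ∀ k, P (Sum.inl (Sum.inl k)) (Sum.inl (Sum.inl j)) = env A o (q + 1) c J k j := by
      intro k; simp [hP, PS1]
    have h4 := hUeq (Sum.inl (Sum.inl j))
    rw [h2] at h4
    simp only [h3] at h4
    conv_rhs => rw [h4, map_add, map_add]
    have h5 := hprodn (Sum.inl (Sum.inr ())) (P (Sum.inl (Sum.inr ())) (Sum.inl (Sum.inl j))) n
    simp only [hwx]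
    linarith
  have hwx1 : ∃ i e, 1 ≤ PowerSeries.coeff e (wx i) := by
    refine ⟨o, Lx, ?_⟩
    simp only [hwx]
    rw [coeff_ps, coeff_toZ, coeff_C_mul, coeff_X_pow, if_pos rfl, mul_one]
    exact_mod_cast hv2 o
  have hcard : q < Fintype.card ι := by
    have h2 := Fintype.card_le_of_injective (fun k : Fin (q + 1) => c (k + 1)) (by
      intro k l hkl
      exact Fin.ext (hc.inj k l k.2 l.2 hkl))
    rw [Fintype.card_fin] at h2
    omega
  refine ⟨P, o, q, Lx, v, e1, h1, hτq q _ (hpos o), hcard, hLx2, hv2, fun j => by simp [hP, PS1],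
    by simp [hP, PS1], by simp [hP, PS1], ⟨U, hU, hUn, fun M => ?_⟩, hreach,
    exists_weights h1.relOf.rel hx0 hτ hgpos hreach hb⟩
  obtain ⟨D', hD'⟩ := env_large hd1 hA hstart hwx0 hVx hwx1 M
  refine ⟨D' + ((q + 1) * J + 1) + (L - Lx), fun d hd j => ?_⟩
  have hy : ∀ d, D' + ((q + 1) * J + 1) ≤ d →
      (M : ℤ) ≤ PowerSeries.coeff d (U (Sum.inl (Sum.inr ()))) := by
    intro d hd
    refine le_trans ?_ (hstepU (Sum.inl o) (Sum.inl (Sum.inr ())) ((q + 1) * J + 1) d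
      (by rw [hE2, coeff_X_pow, if_pos rfl]) (by omega))
    exact (hD' _ (by omega) o).trans (hcmp _ _)
  rcases j with (j | j) | j
  · exact (hD' d (by omega) j).trans (hcmp d j)
  · exact hy d (by omega)
  · refine le_trans ?_ (hstepU (Sum.inr ()) (Sum.inr ()) (L - Lx) d
      (by rw [hE1, coeff_X_pow, if_pos rfl]) (by omega))
    exact hy _ (by omega)

end Pool.Agent.SSE
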