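import Pool.Agent.SSE.HDefs
import Pool.Agent.SSE.S1

/-!
# SSE project, hub part: Lemma S1 in the form of the data `S1D`
-/

set_option autoImplicit false

open scoped BigOperators
open Matrix Polynomial

namespace Pool.Agent.SSE

attribute [local instance] Classical.propDecidable

/-- the norm of a polynomial with coefficients in `ℕ` -/
theorem sn_toZ (r : ℝ) (p : ℕ[X]) : sn r (ps (toZ p)) = evp r p := by
  have h1 : HN.toRS (ps (toZ p)) = ((toR (toZ p) : ℝ[X]) : PowerSeries ℝ) := by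
    ext n
    rw [HN.coeff_toRS, coeff_ps, coeff_toZ, Polynomial.coeff_coe]
    simp [toR]
  unfold sn
  rw [h1, PF.nS_poly, evp_eq]
  have h2 : (toR (toZ p)).support = p.support := by
    ext k
    rw [mem_support_iff, mem_support_iff]
    simp [toR]
  rw [h2]
  refine Finset.sum_congr rfl fun k _ => ?_
  congr 1
  have h3 : (toR (toZ p)).coeff k = (p.coeff k : ℝ) := by simp [toR]
  rw [h3, Real.norm_of_nonneg (Nat.cast_nonneg _)]

section

variable {K : Type} [AddCommGroup K] [Module ℤ[X] K] {δ : ℤ[X]}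

theorem rep_of_pres (D : PFM K δ) {ι : Type} [Fintype ι] [Nonempty ι] {A : Matrix ι ι ℕ} {k : ℕ}
    (hk : 0 < k) (hA : ∀ i j, 2 ≤ (A ^ k) i j) {g : ι → K} (h : PresOf δ g (ofMat A))
    (hg : ∀ i, 0 < D.tau (g i)) : Rep D g := by
  have hx0 : 0 < D.lam⁻¹ := inv_pos.2 (lt_trans one_pos D.one_lt)
  obtain ⟨C2, hC2, hrep⟩ := exists_rep hk hA h.relOf.rel h.relOf.top hx0 D.tau_X hg
  refine ⟨C2, hC2, fun z hz => ?_⟩
  obtain ⟨L0, hL0⟩ := hrep z hz 1
  refine ⟨L0, fun L hL => ?_⟩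
  obtain ⟨c, h1, h2, h3⟩ := hL0 L hL
  refine ⟨c, h2, h1, fun i => ?_⟩
  have := h3 i
  rwa [inv_inv] at this

theorem exists_S1D (D : PFM K δ) {n : ℕ} (hn : 0 < n) {A : Matrix (Fin n) (Fin n) ℕ} {k : ℕ}
    (hk : 0 < k) (hA : ∀ i j, 2 ≤ (A ^ k) i j) {g : Fin n → K} (h : PresOf δ g (ofMat A))
    (hg : ∀ i, 0 < D.tau (g i)) {ξ : K} (h0 : 0 < D.tau ξ)
    (hξ : ∀ i, D.tau ξ < D.lam⁻¹ ^ (n + 2) * D.tau (g i)) :
    ∃ S : S1D D ξ, PEqv S.P (ofMat A) := by
  have : Nonempty (Fin n) := ⟨⟨0, hn⟩⟩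
  have hlam : 0 < D.lam := lt_trans one_pos D.one_lt
  have hx0 : 0 < D.lam⁻¹ := inv_pos.2 hlam
  have hx1 : D.lam⁻¹ ≤ 1 := inv_le_one_of_one_le₀ D.one_lt.le
  have hb : D.lam⁻¹ < D.rad := by
    rw [inv_lt_iff_one_lt_mul₀ hlam, mul_comm]
    exact D.rad_gt
  obtain ⟨P, o, q, Lx, v, e1, h1, hy, hcard, hLx, hv, hr1, hr2, hr3, ⟨V, hV, -, hgrow⟩, -, ρ, θ, w,
    hρ1, hρ2, hθ0, hθ1, hw0, hw⟩ :=
    lemma_S1 hk (fun i j => cast (congrArg (fun M : Matrix _ _ ℕ => 2 ≤ M i j)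
      (by congr <;> exact Subsingleton.elim _ _)) (hA i j)) h hx0 D.tau_X hg h0 hb 3
  rw [Fintype.card_fin] at hcard
  have htq : ∀ (m : ℕ) (z : K), D.tau ((X : ℤ[X]) ^ m • z) = D.lam⁻¹ ^ m * D.tau z := by
    intro m z
    induction m with
    | zero => simp
    | succ m ih => rw [pow_succ', mul_smul, D.tau_X, ih, pow_succ']; ring
  set cl : Fin n ⊕ Unit → K := Sum.elim g fun _ => (X : ℤ[X]) ^ q • g o with hcl
  set ee : Option (Fin n ⊕ Unit) ≃ (Fin n ⊕ Unit) ⊕ Unit :=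
    Equiv.optionEquivSumPUnit (Fin n ⊕ Unit) with hee
  have een : ee none = Sum.inr () := rfl
  have ees : ∀ f, ee (some f) = Sum.inl f := fun f => rfl
  obtain ⟨e2, h2⟩ := h1.reindex ee
  have hcls : (Sum.elim cl (fun _ : Unit => ξ)) ∘ ee = fun i => Option.elim i ξ cl := by
    funext i
    rcases i with _ | f <;> rfl
  rw [hcls] at h2
  have hU : ∀ j, V j = ps (toZ (P (Sum.inr ()) j)) +
      ∑ k, V (Sum.inl k) * ps (toZ (P (Sum.inl k) j)) := by
    intro j
    have h3 := hV j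
    simp only [Set.mem_univ, if_true] at h3
    exact h3
  obtain ⟨b0, hb0⟩ := hgrow 1
  refine ⟨{
    F := Fin n ⊕ Unit
    fin := inferInstance
    cl := cl
    P := P.submatrix ee ee
    pres := h2
    ι := Fin n
    fι := inferInstance
    e := Sum.inl
    rep := rep_of_pres D hk (fun i j => cast (congrArg (fun M : Matrix _ _ ℕ => 2 ≤ M i j)
      (by congr <;> exact Subsingleton.elim _ _)) (hA i j)) h hg
    xi_pos := h0
    xi_lt := ?_
    rowx := ?_
    V := fun f => V (Sum.inl f)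
    hV := fun f => hU (Sum.inl f)
    grow := ?_
    H := V (Sum.inr ())
    hH := hU (Sum.inr ())
    b0 := b0
    hb0 := fun d hd => by simpa using hb0 d hd (Sum.inr ())
    ρ := ρ
    ρ_gt := ?_
    ρ_le := hρ2.le
    good := ?_ }, (e1.trans e2).symm⟩
  · rintro (i | u)
    · refine (hξ i).trans_le ?_
      exact mul_le_of_le_one_left (hg i).le (pow_le_one₀ hx0.le hx1)
    · refine (hξ o).trans_le ?_
      simp only [hcl, Sum.elim_inr]
      rw [htq]
      exact mul_le_mul_of_nonneg_right (pow_le_pow_of_le_one hx0.le hx1 (by omega)) (hg o).le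
  · intro j d hd
    rw [Matrix.submatrix_apply, een]
    rcases j with _ | (j | j)
    · rw [een, hr3, coeff_zero]
    · rw [ees, hr1, coeff_C_mul, coeff_X_pow, if_neg (by omega), mul_zero]
    · rw [ees, hr2, coeff_zero]
  · intro f M
    obtain ⟨E0, hE0⟩ := hgrow M.toNat
    exact ⟨E0, fun E hE => le_trans (Int.self_le_toNat M) (hE0 E hE (Sum.inl f))⟩
  · have := (inv_lt_iff_one_lt_mul₀ hlam).1 hρ1
    rwa [mul_comm] at this
  · refine ⟨w, θ, hw0, hθ0.le, hθ1, fun f => ?_⟩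
    refine le_trans (le_of_eq ?_) (hw f)
    refine Finset.sum_congr rfl fun k _ => ?_
    rw [sn_toZ, Matrix.submatrix_apply, ees, ees]

end

end Pool.Agent.SSE
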