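import Pool.Agent.SSE.K1a

/-!
# SSE-K3A : K0 and corrections inside a block

`Cg_one_mem_ER`: by closure induction every `g ∈ EG univ` is `r * s`, `r ∈ ER univ 1`, `s` a product of `x_ij(C n)` (`x_ij(c) = x_ij(X c') x_ij(C c(0))`, `ER_conj`);
the entries of `s` are constants and `s = g mod X`; if `Cg 1 g` then `s = 1`.
`lift_step`: `g = 1 + X^k Z mod X^(k+1)`, `Z` an integral matrix supported on `S × S` (`EG_apply`) with trace `0` (`det g = 1`, `k ≥ 1`). `Z` is a sum of
`± E_ij` and `± (E_ii - E_oo)`; `x_ij(± X^k)`, and `x_io(1) x_oi(X^k) x_io(-1)` which is `1 + X^k (E_oi + E_ii - E_oo - E_io)` exactly (mod `X^(k+1)` is enough).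
Induction on `∑ |Z_ij|`, or a direct product. `lift_to`: induction on `M - d` (`ER_anti`).
-/

set_option autoImplicit false

namespace Pool.Agent.SSE

open Polynomial Matrix

variable {J : Type} [Fintype J] [DecidableEq J]

private theorem k3a_map_xx {i j : J} (h : i ≠ j) (n : ℤ) :
    SpecialLinearGroup.map (C : ℤ →+* ℤ[X]) (SpecialLinearGroup.transvection h n) = xx h (C n) := by
  ext1 a b
  change (C : ℤ →+* ℤ[X]) ((1 + Matrix.single i j n : Matrix J J ℤ) a b)
    = (1 + Matrix.single i j (C n) : Matrix J J ℤ[X]) a b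
  simp only [Matrix.add_apply, map_add, Matrix.one_apply, Matrix.single_apply]
  split_ifs <;> simp

private theorem k3a_decomp {g : SpecialLinearGroup J ℤ[X]} (hg : g ∈ EG (Set.univ : Set J)) :
    ∃ r ∈ ER (Set.univ : Set J) 1, ∃ s₀ : SpecialLinearGroup J ℤ,
      SpecialLinearGroup.map (C : ℤ →+* ℤ[X]) s₀ ∈ EG (Set.univ : Set J) ∧
      g = r * SpecialLinearGroup.map (C : ℤ →+* ℤ[X]) s₀ := by
  have step : ∀ (g : SpecialLinearGroup J ℤ[X]) {i j : J} (h : i ≠ j) (c : ℤ[X]),
      (∃ r ∈ ER (Set.univ : Set J) 1, ∃ s₀ : SpecialLinearGroup J ℤ,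
        SpecialLinearGroup.map (C : ℤ →+* ℤ[X]) s₀ ∈ EG (Set.univ : Set J) ∧
        g = r * SpecialLinearGroup.map (C : ℤ →+* ℤ[X]) s₀) →
      (∃ r ∈ ER (Set.univ : Set J) 1, ∃ s₀ : SpecialLinearGroup J ℤ,
        SpecialLinearGroup.map (C : ℤ →+* ℤ[X]) s₀ ∈ EG (Set.univ : Set J) ∧
        g * xx h c = r * SpecialLinearGroup.map (C : ℤ →+* ℤ[X]) s₀) := by
    rintro g i j h c ⟨r, hr, s₀, hs, rfl⟩
    have hc : xx h c = xx h (X ^ 1 * c.divX) * xx h (C (c.coeff 0)) := by
      rw [xx_mul]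
      congr 1
      rw [pow_one, mul_comm]
      exact (Polynomial.divX_mul_X_add c).symm
    refine ⟨r * (SpecialLinearGroup.map (C : ℤ →+* ℤ[X]) s₀ * xx h (X ^ 1 * c.divX) *
      (SpecialLinearGroup.map (C : ℤ →+* ℤ[X]) s₀)⁻¹), ?_,
      s₀ * SpecialLinearGroup.transvection h (c.coeff 0), ?_, ?_⟩
    · exact Subgroup.mul_mem _ hr (ER_conj hs (xx_mem_ER h (Set.mem_univ _) (Set.mem_univ _)
        (Dvd.intro _ rfl)))
    · rw [map_mul, k3a_map_xx]
      exact Subgroup.mul_mem _ hs (xx_mem_EG h (Set.mem_univ _) (Set.mem_univ _) _)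
    · rw [map_mul, k3a_map_xx, hc]
      group
  refine Subgroup.closure_induction_right (p := fun g _ => ∃ r ∈ ER (Set.univ : Set J) 1,
    ∃ s₀ : SpecialLinearGroup J ℤ,
      SpecialLinearGroup.map (C : ℤ →+* ℤ[X]) s₀ ∈ EG (Set.univ : Set J) ∧
      g = r * SpecialLinearGroup.map (C : ℤ →+* ℤ[X]) s₀) ?_ ?_ ?_ hg
  · exact ⟨1, Subgroup.one_mem _, 1, by rw [map_one]; exact Subgroup.one_mem _, by simp⟩
  · rintro x hx y ⟨i, j, h, c, -, -, rfl⟩ ih
    exact step x h c ih
  · rintro x hx y ⟨i, j, h, c, -, -, rfl⟩ ih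
    rw [xx_inv]
    exact step x h (-c) ih

theorem Cg_one_mem_ER {g : SpecialLinearGroup J ℤ[X]} (hg : g ∈ EG (Set.univ : Set J))
    (hc : Cg 1 g) : g ∈ ER (Set.univ : Set J) 1 := by
  obtain ⟨r, hr, s₀, hs, rfl⟩ := k3a_decomp hg
  have h1 : Cg 1 (SpecialLinearGroup.map (C : ℤ →+* ℤ[X]) s₀) := by
    have h2 := Cg_mul (Cg_inv (Cg_of_mem_ER hr)) hc
    rwa [inv_mul_cancel_left] at h2
  have h3 : s₀ = 1 := by
    ext i j
    have h4 := h1 i j
    change X ^ 1 ∣ C ((s₀ : Matrix J J ℤ) i j) - (1 : Matrix J J ℤ[X]) i j at h4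
    have h5 : (1 : Matrix J J ℤ[X]) i j = C ((1 : Matrix J J ℤ) i j) := by
      simp only [Matrix.one_apply]
      split_ifs <;> simp
    rw [h5, ← C_sub, pow_one, Polynomial.X_dvd_iff, Polynomial.coeff_C_zero] at h4
    have h6 : (s₀ : Matrix J J ℤ) i j = (1 : Matrix J J ℤ) i j := by linarith
    exact h6
  rw [h3, map_one, mul_one]
  exact hr

/-- the coefficient matrix of `t^k` in `g - 1` -/
private noncomputable def k3a_zc (k : ℕ) (g : SpecialLinearGroup J ℤ[X]) : Matrix J J ℤ :=
  fun i j => ((g : Matrix J J ℤ[X]) i j - (1 : Matrix J J ℤ[X]) i j).coeff k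

private theorem k3a_zc_mul {k : ℕ} (hk : 1 ≤ k) {g h : SpecialLinearGroup J ℤ[X]} (hg : Cg k g)
    (hh : Cg k h) : k3a_zc k (g * h) = k3a_zc k g + k3a_zc k h := by
  ext i j
  have h1 : ((g * h : SpecialLinearGroup J ℤ[X]) : Matrix J J ℤ[X]) - 1 =
      ((g : Matrix J J ℤ[X]) - 1) + ((h : Matrix J J ℤ[X]) - 1) +
      ((g : Matrix J J ℤ[X]) - 1) * ((h : Matrix J J ℤ[X]) - 1) := by
    rw [Matrix.SpecialLinearGroup.coe_mul]
    noncomm_ring
  have h2 : ((((g : Matrix J J ℤ[X]) - 1) * ((h : Matrix J J ℤ[X]) - 1)) i j).coeff k = 0 := by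
    rw [Matrix.mul_apply, Polynomial.finsetSum_coeff]
    refine Finset.sum_eq_zero fun l _ => ?_
    have h3 : X ^ k * X ^ k ∣ ((g : Matrix J J ℤ[X]) - 1) i l * ((h : Matrix J J ℤ[X]) - 1) l j :=
      mul_dvd_mul (hg i l) (hh l j)
    rw [← pow_add] at h3
    exact (Polynomial.X_pow_dvd_iff.mp h3) k (by omega)
  have h4 := congrFun (congrFun h1 i) j
  change (((g * h : SpecialLinearGroup J ℤ[X]) : Matrix J J ℤ[X]) i j - (1 : Matrix J J ℤ[X]) i j).coeff k = _
  have h5 : ((g * h : SpecialLinearGroup J ℤ[X]) : Matrix J J ℤ[X]) i j - (1 : Matrix J J ℤ[X]) i j =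
      ((g : Matrix J J ℤ[X]) i j - (1 : Matrix J J ℤ[X]) i j) +
      ((h : Matrix J J ℤ[X]) i j - (1 : Matrix J J ℤ[X]) i j) +
      (((g : Matrix J J ℤ[X]) - 1) * ((h : Matrix J J ℤ[X]) - 1)) i j := h4
  rw [h5, Polynomial.coeff_add, Polynomial.coeff_add, h2, add_zero]
  rfl

private theorem k3a_zc_one (k : ℕ) : k3a_zc k (1 : SpecialLinearGroup J ℤ[X]) = 0 := by
  ext i j
  change ((1 : Matrix J J ℤ[X]) i j - (1 : Matrix J J ℤ[X]) i j).coeff k = 0
  rw [sub_self, Polynomial.coeff_zero]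

private theorem k3a_Cg_succ {k : ℕ} {g : SpecialLinearGroup J ℤ[X]} (hg : Cg k g)
    (h0 : k3a_zc k g = 0) : Cg (k + 1) g := by
  intro i j
  rw [Polynomial.X_pow_dvd_iff]
  intro d hd
  rcases Nat.lt_succ_iff_lt_or_eq.mp hd with h | h
  · exact (Polynomial.X_pow_dvd_iff.mp (hg i j)) d h
  · rw [h]
    exact congrFun (congrFun h0 i) j

/-- the coefficient matrices of members of `ER S k` -/
private noncomputable def k3a_A (S : Set J) (k : ℕ) (hk : 1 ≤ k) : AddSubgroup (Matrix J J ℤ) where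
  carrier := {W | ∃ e ∈ ER S k, k3a_zc k e = W}
  add_mem' := by
    rintro _ _ ⟨e, he, rfl⟩ ⟨e', he', rfl⟩
    exact ⟨e * e', Subgroup.mul_mem _ he he', k3a_zc_mul hk (Cg_of_mem_ER he) (Cg_of_mem_ER he')⟩
  zero_mem' := ⟨1, Subgroup.one_mem _, k3a_zc_one k⟩
  neg_mem' := by
    rintro _ ⟨e, he, rfl⟩
    refine ⟨e⁻¹, Subgroup.inv_mem _ he, ?_⟩
    have h1 := k3a_zc_mul hk (Cg_inv (Cg_of_mem_ER he)) (Cg_of_mem_ER he)
    rw [inv_mul_cancel, k3a_zc_one] at h1
    exact eq_neg_of_add_eq_zero_left h1.symm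

private theorem k3a_single_mem {S : Set J} {k : ℕ} (hk : 1 ≤ k) {i j : J} (h : i ≠ j) (hi : i ∈ S)
    (hj : j ∈ S) (m : ℤ) : Matrix.single i j m ∈ k3a_A S k hk := by
  refine ⟨xx h (X ^ k * C m), xx_mem_ER h hi hj (Dvd.intro _ rfl), ?_⟩
  ext a b
  change ((1 + Matrix.single i j (X ^ k * C m) : Matrix J J ℤ[X]) a b - (1 : Matrix J J ℤ[X]) a b).coeff k = _
  rw [Matrix.add_apply, add_sub_cancel_left, Matrix.single_apply, Matrix.single_apply]
  split_ifs
  · have := Polynomial.coeff_X_pow_mul (C m) k 0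
    rw [zero_add] at this
    rw [this, Polynomial.coeff_C_zero]
  · exact Polynomial.coeff_zero k

private theorem k3a_diag_mem {S : Set J} {k : ℕ} (hk : 1 ≤ k) {i o : J} (h : i ≠ o) (hi : i ∈ S)
    (ho : o ∈ S) (m : ℤ) : Matrix.single i i m - Matrix.single o o m ∈ k3a_A S k hk := by
  set y : ℤ[X] := X ^ k * C m with hy
  have hyk : y.coeff k = m := by
    have := Polynomial.coeff_X_pow_mul (C m) k 0
    rw [zero_add] at this
    rw [hy, this, Polynomial.coeff_C_zero]
  have key : Matrix.single o i m + Matrix.single i i m - Matrix.single o o m - Matrix.single i o m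
      ∈ k3a_A S k hk := by
    refine ⟨xx h 1 * xx h.symm y * (xx h 1)⁻¹,
      ER_conj (xx_mem_EG h hi ho 1) (xx_mem_ER h.symm ho hi (Dvd.intro _ rfl)), ?_⟩
    have h1 : ((xx h 1 * xx h.symm y * (xx h 1)⁻¹ : SpecialLinearGroup J ℤ[X]) : Matrix J J ℤ[X])
        = 1 + (Matrix.single o i y + Matrix.single i i y - Matrix.single o o y - Matrix.single i o y) := by
      rw [xx_inv, Matrix.SpecialLinearGroup.coe_mul, Matrix.SpecialLinearGroup.coe_mul]
      change (1 + Matrix.single i o (1 : ℤ[X])) * (1 + Matrix.single o i y) * (1 + Matrix.single i o (-1 : ℤ[X])) = _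
      have e1 : Matrix.single i o (1 : ℤ[X]) * Matrix.single o i y = Matrix.single i i y := by
        rw [Matrix.single_mul_single_same, one_mul]
      have e2 : Matrix.single o i y * Matrix.single i o (-1 : ℤ[X]) = - Matrix.single o o y := by
        rw [Matrix.single_mul_single_same, mul_neg_one]
        ext a b
        simp only [Matrix.neg_apply, Matrix.single_apply]
        split_ifs <;> simp
      have e3 : Matrix.single i i y * Matrix.single i o (-1 : ℤ[X]) = - Matrix.single i o y := by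
        rw [Matrix.single_mul_single_same, mul_neg_one]
        ext a b
        simp only [Matrix.neg_apply, Matrix.single_apply]
        split_ifs <;> simp
      have e4 : Matrix.single i o (1 : ℤ[X]) * Matrix.single i o (-1 : ℤ[X]) = 0 :=
        by rw [Matrix.single_mul_single_of_ne (h := h.symm)]
      have e5 : Matrix.single i o (-1 : ℤ[X]) = - Matrix.single i o (1 : ℤ[X]) := by
        ext a b
        simp only [Matrix.neg_apply, Matrix.single_apply]
        split_ifs <;> simp
      calc (1 + Matrix.single i o (1 : ℤ[X])) * (1 + Matrix.single o i y) * (1 + Matrix.single i o (-1 : ℤ[X]))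
          = 1 + Matrix.single o i y + Matrix.single i o (1 : ℤ[X])
            + Matrix.single i o (1 : ℤ[X]) * Matrix.single o i y
            + (Matrix.single i o (-1 : ℤ[X]) + Matrix.single o i y * Matrix.single i o (-1 : ℤ[X])
            + Matrix.single i o (1 : ℤ[X]) * Matrix.single i o (-1 : ℤ[X])
            + (Matrix.single i o (1 : ℤ[X]) * Matrix.single o i y) * Matrix.single i o (-1 : ℤ[X])) := by
              noncomm_ring
        _ = _ := by
              rw [e1, e2, e3, e4, e5]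
              abel
    ext a b
    have h2 := congrFun (congrFun h1 a) b
    change (((xx h 1 * xx h.symm y * (xx h 1)⁻¹ : SpecialLinearGroup J ℤ[X]) : Matrix J J ℤ[X]) a b
      - (1 : Matrix J J ℤ[X]) a b).coeff k = _
    rw [h2, Matrix.add_apply, add_sub_cancel_left]
    simp only [Matrix.sub_apply, Matrix.add_apply, Polynomial.coeff_sub, Polynomial.coeff_add,
      Matrix.single_apply]
    have h3 : ∀ P : Prop, ∀ [Decidable P], (if P then y else 0).coeff k = if P then m else 0 := by
      intro P _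
      split_ifs
      · exact hyk
      · exact Polynomial.coeff_zero k
    rw [h3, h3, h3, h3]
  have h1 := k3a_single_mem hk h.symm ho hi m
  have h2 := k3a_single_mem hk h hi ho m
  have h3 := AddSubgroup.add_mem _ (AddSubgroup.sub_mem _ key h1) h2
  have h4 : Matrix.single o i m + Matrix.single i i m - Matrix.single o o m - Matrix.single i o m
      - Matrix.single o i m + Matrix.single i o m = Matrix.single i i m - Matrix.single o o m := by
    abel
  rwa [h4] at h3

private theorem k3a_span {S : Set J} {k : ℕ} (hk : 1 ≤ k) {W : Matrix J J ℤ}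
    (hS : ∀ a ∉ S, ∀ b, W a b = 0 ∧ W b a = 0) (htr : W.trace = 0) : W ∈ k3a_A S k hk := by
  classical
  by_cases hne : S.Nonempty
  · obtain ⟨o, ho⟩ := hne
    have h1 : W = ∑ i, ∑ j, (if i = j then Matrix.single i i (W i i) - Matrix.single o o (W i i)
        else Matrix.single i j (W i j)) := by
      have h2 : ∀ i, ∑ j, (if i = j then Matrix.single i i (W i i) - Matrix.single o o (W i i)
        else Matrix.single i j (W i j)) = (∑ j, Matrix.single i j (W i j)) - Matrix.single o o (W i i) := by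
        intro i
        have h3 : ∀ j, (if i = j then Matrix.single i i (W i i) - Matrix.single o o (W i i)
          else Matrix.single i j (W i j)) = Matrix.single i j (W i j) -
            (if i = j then Matrix.single o o (W i i) else 0) := by
          intro j
          split_ifs with h
          · subst h; rfl
          · rw [sub_zero]
        rw [Finset.sum_congr rfl (fun j _ => h3 j), Finset.sum_sub_distrib, Finset.sum_ite_eq]
        simp
      rw [Finset.sum_congr rfl (fun i _ => h2 i), Finset.sum_sub_distrib]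
      have h4 : ∑ i, Matrix.single o o (W i i) = (0 : Matrix J J ℤ) := by
        have h5 : ∑ i, Matrix.single o o (W i i) = Matrix.single o o (∑ i, W i i) := by
          ext a b
          rw [Matrix.sum_apply]
          simp only [Matrix.single_apply]
          split_ifs <;> simp
        rw [h5]
        have h6 : ∑ i, W i i = 0 := htr
        rw [h6]
        exact Matrix.single_zero o o
      rw [h4, sub_zero]
      exact Matrix.matrix_eq_sum_single W
    rw [h1]
    refine AddSubgroup.sum_mem _ fun i _ => AddSubgroup.sum_mem _ fun j _ => ?_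
    split_ifs with hij
    · by_cases hi : i ∈ S
      · by_cases hio : i = o
        · rw [hio, sub_self]
          exact AddSubgroup.zero_mem _
        · exact k3a_diag_mem hk hio hi ho _
      · rw [(hS i hi i).1, Matrix.single_zero, Matrix.single_zero, sub_zero]
        exact AddSubgroup.zero_mem _
    · by_cases hi : i ∈ S
      · by_cases hj : j ∈ S
        · exact k3a_single_mem hk hij hi hj _
        · rw [(hS j hj i).2, Matrix.single_zero]
          exact AddSubgroup.zero_mem _
      · rw [(hS i hi j).1, Matrix.single_zero]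
        exact AddSubgroup.zero_mem _
  · have h0 : W = 0 := by
      ext a b
      exact (hS a (fun ha => hne ⟨a, ha⟩) b).1
    rw [h0]
    exact AddSubgroup.zero_mem _

private theorem k3a_trace {k : ℕ} (hk : 1 ≤ k) {g : SpecialLinearGroup J ℤ[X]} (hc : Cg k g) :
    (k3a_zc k g).trace = 0 := by
  choose N hN using hc
  have h1 : (g : Matrix J J ℤ[X]) = 1 + (X ^ k : ℤ[X]) • (Matrix.of N) := by
    ext1 i j
    rw [Matrix.add_apply, Matrix.smul_apply, Matrix.of_apply, smul_eq_mul, ← hN i j]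
    ring
  have h2 := Matrix.det_one_add_smul (X ^ k : ℤ[X]) (Matrix.of N)
  rw [← h1, Matrix.SpecialLinearGroup.det_coe] at h2
  set Y := (Matrix.det (1 + (X : ℤ[X][X]) • (Matrix.of N).map C)).divX.divX.eval (X ^ k : ℤ[X]) with hY
  have h3 : (Matrix.of N).trace * X ^ k + Y * X ^ (2 * k) = 0 := by
    have h4 : (X ^ k : ℤ[X]) ^ 2 = X ^ (2 * k) := by rw [← pow_mul, mul_comm]
    rw [h4] at h2
    linear_combination -h2
  have h5 := congrArg (fun f => Polynomial.coeff f k) h3
  simp only [Polynomial.coeff_add, Polynomial.coeff_mul_X_pow', Polynomial.coeff_zero] at h5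
  rw [if_pos le_rfl, if_neg (by omega), Nat.sub_self, add_zero] at h5
  have h6 : (k3a_zc k g).trace = ((Matrix.of N).trace).coeff 0 := by
    rw [Matrix.trace, Matrix.trace, Polynomial.finsetSum_coeff]
    refine Finset.sum_congr rfl fun i _ => ?_
    change ((g : Matrix J J ℤ[X]) i i - (1 : Matrix J J ℤ[X]) i i).coeff k = (N i i).coeff 0
    rw [hN i i]
    have := Polynomial.coeff_X_pow_mul (N i i) k 0
    rwa [zero_add] at this
  rw [h6, h5]

theorem lift_step {S : Set J} {k : ℕ} (hk : 1 ≤ k) {g : SpecialLinearGroup J ℤ[X]}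
    (hg : g ∈ EG S) (hc : Cg k g) : ∃ e ∈ ER S k, Cg (k + 1) (g * e) := by
  have h1 : k3a_zc k g ∈ k3a_A S k hk := by
    refine k3a_span hk ?_ (k3a_trace hk hc)
    intro a ha b
    obtain ⟨h2, h3⟩ := EG_apply hg ha b
    refine ⟨?_, ?_⟩
    · change ((g : Matrix J J ℤ[X]) a b - (1 : Matrix J J ℤ[X]) a b).coeff k = 0
      rw [h2, sub_self, Polynomial.coeff_zero]
    · change ((g : Matrix J J ℤ[X]) b a - (1 : Matrix J J ℤ[X]) b a).coeff k = 0
      rw [h3, sub_self, Polynomial.coeff_zero]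
  obtain ⟨e, he, hez⟩ := AddSubgroup.neg_mem _ h1
  refine ⟨e, he, k3a_Cg_succ (Cg_mul hc (Cg_of_mem_ER he)) ?_⟩
  rw [k3a_zc_mul hk hc (Cg_of_mem_ER he), hez, add_neg_cancel]

theorem lift_to {S : Set J} {d M : ℕ} (hd : 1 ≤ d) (hdM : d ≤ M)
    {g : SpecialLinearGroup J ℤ[X]} (hg : g ∈ EG S) (hc : Cg d g) :
    ∃ e ∈ ER S d, Cg M (g * e) := by
  induction M, hdM using Nat.le_induction with
  | base => exact ⟨1, Subgroup.one_mem _, by rwa [mul_one]⟩
  | succ M hM ih =>
    obtain ⟨e, he, hge⟩ := ih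
    obtain ⟨e', he', hge'⟩ := lift_step (le_trans hd hM)
      (Subgroup.mul_mem _ hg (ER_le_EG S d he)) hge
    refine ⟨e * e', Subgroup.mul_mem _ he (ER_anti S hM he'), ?_⟩
    rwa [← mul_assoc]

end Pool.Agent.SSE
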