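import Pool.Agent.SSE.K2
import Pool.Agent.SSE.K3a

/-!
# SSE-K3 : the main result of the K-part

For `2 ≤ d ≤ M`: `σ_d = sy hab X (X^(d-1)) ∈ EG {a,b}`, `Cg d σ_d`; `lift_to` with `S = {a,b,c}` gives `y_d = σ_d e`, `e ∈ ER {a,b,c} d`, `Cg M y_d`.
Claim (downwards induction on `k`, `1 ≤ k ≤ M`): for `g ∈ ER univ k` with `Cg M g` there are `0 ≤ m_d < d` (`k < d ≤ M`) with
`g y_(k+1)^(m_(k+1)) ⋯ y_M^(m_M) ∈ ER univ M`: for `k < M`, `graded` gives `m` with `g σ_(k+1)^m ∈ ER univ (k+1)`, `m` may be reduced mod `k+1` by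
`sigma_pow_mem`, `y_(k+1)^m = σ_(k+1)^m r`, `r ∈ ER univ (k+1)` (`ER_conj`, `ER_mono`).
`Y` := the set of the inverses of all the products `y_2^(m_2) ⋯ y_M^(m_M)`, `0 ≤ m_d < d` (finite; define it recursively). Start: `Cg_one_mem_ER`.
-/

set_option autoImplicit false

namespace Pool.Agent.SSE

open Polynomial Matrix

variable {J : Type} [Fintype J] [DecidableEq J]

/-- the finite sets of corrections -/
private def K3_Z (y : ℕ → SpecialLinearGroup J ℤ[X]) (M : ℕ) :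
    ℕ → Set (SpecialLinearGroup J ℤ[X])
  | 0 => {1}
  | j + 1 => ⋃ m ∈ Finset.range (M - j), (fun z => y (M - j) ^ m * z) '' K3_Z y M j

private theorem K3_Z_finite (y : ℕ → SpecialLinearGroup J ℤ[X]) (M : ℕ) (j : ℕ) :
    (K3_Z y M j).Finite := by
  induction j with
  | zero => exact Set.finite_singleton _
  | succ j ih =>
    exact Set.Finite.biUnion (Finset.finite_toSet _) fun m _ => ih.image _

private theorem K3_Cg_pow {k : ℕ} {g : SpecialLinearGroup J ℤ[X]} (hg : Cg k g) (m : ℕ) :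
    Cg k (g ^ m) := by
  induction m with
  | zero => rw [pow_zero]; exact Cg_one k
  | succ m ih => rw [pow_succ]; exact Cg_mul ih hg

private theorem K3_Z_prop {S : Set J} {y : ℕ → SpecialLinearGroup J ℤ[X]} {M : ℕ}
    (hy : ∀ d, 1 ≤ d → d ≤ M → y d ∈ EG S ∧ Cg M (y d)) (j : ℕ) (hj : j < M) :
    ∀ z ∈ K3_Z y M j, z ∈ EG S ∧ Cg M z := by
  induction j with
  | zero =>
    intro z hz
    rw [K3_Z, Set.mem_singleton_iff] at hz
    subst hz
    exact ⟨one_mem _, Cg_one M⟩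
  | succ j ih =>
    intro z hz
    rw [K3_Z, Set.mem_iUnion₂] at hz
    obtain ⟨m, _, w, hw, rfl⟩ := hz
    obtain ⟨h1, h2⟩ := ih (by omega) w hw
    obtain ⟨h3, h4⟩ := hy (M - j) (by omega) (by omega)
    exact ⟨mul_mem (pow_mem h3 m) h1, Cg_mul (K3_Cg_pow h4 m) h2⟩

private theorem K3_pow {k : ℕ} {σ e : SpecialLinearGroup J ℤ[X]}
    (hσ : σ ∈ EG (Set.univ : Set J)) (he : e ∈ ER (Set.univ : Set J) k) (n : ℕ) :
    ∃ r ∈ ER (Set.univ : Set J) k, (σ * e) ^ n = σ ^ n * r := by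
  induction n with
  | zero => exact ⟨1, one_mem _, by simp⟩
  | succ n ih =>
    obtain ⟨r, hr, h⟩ := ih
    refine ⟨σ⁻¹ * r * (σ⁻¹)⁻¹ * e, mul_mem (ER_conj (inv_mem hσ) hr) he, ?_⟩
    rw [pow_succ, h, pow_succ]
    group

private theorem K3_step (h3 : ∀ i j : J, ∃ l, l ≠ i ∧ l ≠ j) {a b : J} (hab : a ≠ b) {k : ℕ}
    (hk : 1 ≤ k) {e g : SpecialLinearGroup J ℤ[X]} (he : e ∈ ER (Set.univ : Set J) (k + 1))
    (hg : g ∈ ER (Set.univ : Set J) k) (hc : Cg (k + 1) g) :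
    ∃ m < k + 1, g * (sy hab X (X ^ k) * e) ^ m ∈ ER (Set.univ : Set J) (k + 1) := by
  set σ := sy hab X (X ^ k) with hσ
  have hσE : σ ∈ EG (Set.univ : Set J) := EG_mono (Set.subset_univ _) (sy_mem hab _ _)
  obtain ⟨m, hm⟩ := graded h3 hab (k := k + 1) (by omega) (by simpa using hg) hc
  have hp : σ ^ (k + 1) ∈ ER (Set.univ : Set J) (k + 1) := by
    simpa using sigma_pow_mem h3 hab (k := k + 1) (by omega)
  rw [Nat.add_sub_cancel, ← hσ] at hm
  have hpos : (0 : ℤ) < ((k + 1 : ℕ) : ℤ) := by positivity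
  refine ⟨(m % ((k + 1 : ℕ) : ℤ)).toNat, ?_, ?_⟩
  · have h1 := Int.emod_nonneg m hpos.ne'
    have h2 := Int.emod_lt_of_pos m hpos
    omega
  · obtain ⟨r, hr, h⟩ := K3_pow hσE he (m % ((k + 1 : ℕ) : ℤ)).toNat
    rw [h, ← mul_assoc]
    refine mul_mem ?_ hr
    have h1 := Int.emod_nonneg m hpos.ne'
    have h2 : σ ^ (m % ((k + 1 : ℕ) : ℤ)).toNat = σ ^ (m % ((k + 1 : ℕ) : ℤ)) := by
      rw [← zpow_natCast, Int.toNat_of_nonneg h1]
    have h4 : σ ^ (m % ((k + 1 : ℕ) : ℤ)) =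
        σ ^ m * ((σ ^ (k + 1)) ^ (m / ((k + 1 : ℕ) : ℤ)))⁻¹ := by
      rw [← zpow_natCast σ (k + 1), ← _root_.zpow_mul, ← _root_.zpow_neg, ← _root_.zpow_add]
      congr 1
      have := Int.emod_add_mul_ediv m ((k + 1 : ℕ) : ℤ)
      linarith
    rw [h2, h4, ← mul_assoc]
    exact mul_mem hm (inv_mem (zpow_mem hp _))

theorem kmain {a b c : J} (hab : a ≠ b) (hac : a ≠ c) (hbc : b ≠ c) {M : ℕ} (hM : 1 ≤ M) :
    ∃ Y : Set (SpecialLinearGroup J ℤ[X]), Y.Finite ∧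
      (∀ y ∈ Y, y ∈ EG ({a, b, c} : Set J) ∧ Cg M y) ∧
      ∀ g ∈ EG (Set.univ : Set J), Cg M g → ∃ y ∈ Y, g * y⁻¹ ∈ ER (Set.univ : Set J) M := by
  have h3 : ∀ i j : J, ∃ l, l ≠ i ∧ l ≠ j := by
    intro i j
    by_contra hcon
    push Not at hcon
    by_cases h1 : a = i
    · subst h1
      exact hbc ((hcon b hab.symm).trans (hcon c hac.symm).symm)
    · have h2 := hcon a h1
      by_cases h4 : b = i
      · subst h4
        exact hac (h2.trans (hcon c hbc.symm).symm)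
      · exact hab (h2.trans (hcon b h4).symm)
  -- the elements `y_d`
  have hy0 : ∀ d : ℕ, ∃ e : SpecialLinearGroup J ℤ[X], 1 ≤ d → d ≤ M →
      e ∈ ER ({a, b, c} : Set J) d ∧ Cg M (sy hab X (X ^ (d - 1)) * e) := by
    intro d
    by_cases h : 1 ≤ d ∧ d ≤ M
    · obtain ⟨e, he, he'⟩ := lift_to (S := ({a, b, c} : Set J)) h.1 h.2
        (g := sy hab X (X ^ (d - 1)))
        (EG_mono (by intro x hx; simp only [Set.mem_insert_iff, Set.mem_singleton_iff] at hx ⊢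
                     tauto) (sy_mem hab _ _))
        (sy_Cg hab (by rw [← pow_succ', Nat.sub_add_cancel h.1]))
      exact ⟨e, fun _ _ => ⟨he, he'⟩⟩
    · exact ⟨1, fun h1 h2 => absurd ⟨h1, h2⟩ h⟩
  choose e he using hy0
  set y : ℕ → SpecialLinearGroup J ℤ[X] := fun d => sy hab X (X ^ (d - 1)) * e d with hydef
  have hy : ∀ d, 1 ≤ d → d ≤ M → y d ∈ EG ({a, b, c} : Set J) ∧ Cg M (y d) := by
    intro d h1 h2
    obtain ⟨h4, h5⟩ := he d h1 h2
    refine ⟨mul_mem (EG_mono ?_ (sy_mem hab _ _)) (ER_le_EG _ _ h4), h5⟩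
    intro x hx
    simp only [Set.mem_insert_iff, Set.mem_singleton_iff] at hx ⊢
    tauto
  have main : ∀ j, j < M → ∀ g ∈ ER (Set.univ : Set J) (M - j), Cg M g →
      ∃ z ∈ K3_Z y M j, g * z ∈ ER (Set.univ : Set J) M := by
    intro j
    induction j with
    | zero =>
      intro _ g hg _
      exact ⟨1, by rw [K3_Z]; exact Set.mem_singleton _, by simpa using hg⟩
    | succ j ih =>
      intro hj g hg hc
      obtain ⟨k, hk⟩ : ∃ k, M - j = k + 1 := ⟨M - j - 1, by omega⟩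
      have hk' : M - (j + 1) = k := by omega
      rw [hk'] at hg
      obtain ⟨h4, h5⟩ := he (k + 1) (by omega) (by omega)
      obtain ⟨m, hm, hm'⟩ := K3_step h3 hab (k := k) (by omega)
        (ER_mono (Set.subset_univ _) _ h4) hg (Cg_mono (by omega) hc)
      have hyk : y (k + 1) = sy hab X (X ^ k) * e (k + 1) := by
        simp only [hydef, Nat.add_sub_cancel]
      rw [← hyk] at hm'
      obtain ⟨z, hz, hz'⟩ := ih (by omega) (g * y (k + 1) ^ m) (by rw [hk]; exact hm')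
        (Cg_mul hc (K3_Cg_pow (hy (k + 1) (by omega) (by omega)).2 m))
      refine ⟨y (k + 1) ^ m * z, ?_, by rw [← mul_assoc]; exact hz'⟩
      rw [K3_Z, Set.mem_iUnion₂]
      exact ⟨m, by rw [Finset.mem_range, hk]; exact hm, z, hz, by rw [hk]⟩
  refine ⟨(fun z => z⁻¹) '' K3_Z y M (M - 1), (K3_Z_finite y M _).image _, ?_, ?_⟩
  · rintro _ ⟨z, hz, rfl⟩
    obtain ⟨h1, h2⟩ := K3_Z_prop hy (M - 1) (by omega) z hz
    exact ⟨inv_mem h1, Cg_inv h2⟩
  · intro g hg hc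
    have h1 : g ∈ ER (Set.univ : Set J) (M - (M - 1)) := by
      rw [show M - (M - 1) = 1 by omega]
      exact Cg_one_mem_ER hg (Cg_mono hM hc)
    obtain ⟨z, hz, hz'⟩ := main (M - 1) (by omega) g h1 hc
    exact ⟨z⁻¹, ⟨z, hz, rfl⟩, by rw [inv_inv]; exact hz'⟩

end Pool.Agent.SSE
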