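import Pool.Agent.SSE.K1a

/-!
# SSE-K4 : Tits' lemma with a fresh index `p`

For `e` in the elementary group of the indices in `S` (`p ∉ S`) the conjugates of the column elements `x_lp(f)` and of the
row elements `x_pl(f)` (`l ∈ S`, `X^N ∣ f`) stay in the groups generated by the column and by the row elements.
`x_ij(X^(2N) c) = [x_ip(X^N c), x_pj(X^N)]`, and `x_ij(X^N f)` is a product of `x_ij(± X^d)`, `d ≥ N`.
-/

set_option autoImplicit false

namespace Pool.Agent.SSE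

open Polynomial Matrix

variable {J : Type} [Fintype J] [DecidableEq J]

/-- generated by `x_ij(± X^d)`, `d ≥ N`, `i, j ∈ S` -/
noncomputable def FG (S : Set J) (N : ℕ) : Subgroup (SpecialLinearGroup J ℤ[X]) :=
  Subgroup.closure {x | ∃ (i j : J) (h : i ≠ j) (d : ℕ) (c : ℤ), i ∈ S ∧ j ∈ S ∧ N ≤ d ∧
    (c = 1 ∨ c = -1) ∧ x = xx h (monomial d c)}

private theorem K4_monomial {S : Set J} {N : ℕ} {i j : J} (h : i ≠ j) (hi : i ∈ S) (hj : j ∈ S)
    {d : ℕ} (hd : N ≤ d) (c : ℤ) : xx h (monomial d c) ∈ FG S N := by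
  have gen : ∀ c : ℤ, (c = 1 ∨ c = -1) → xx h (monomial d c) ∈ FG S N := fun c hc =>
    Subgroup.subset_closure ⟨i, j, h, d, c, hi, hj, hd, hc, rfl⟩
  induction c using Int.induction_on with
  | zero => rw [map_zero, xx_zero]; exact (FG S N).one_mem
  | succ n ih =>
    rw [map_add, ← xx_mul]
    exact (FG S N).mul_mem ih (gen 1 (Or.inl rfl))
  | pred n ih =>
    rw [sub_eq_add_neg, map_add, ← xx_mul]
    exact (FG S N).mul_mem ih (gen (-1) (Or.inr rfl))

theorem xx_mem_FG {S : Set J} {N : ℕ} {i j : J} (h : i ≠ j) (hi : i ∈ S) (hj : j ∈ S) {f : ℤ[X]}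
    (hf : X ^ N ∣ f) : xx h f ∈ FG S N := by
  rw [X_pow_dvd_iff] at hf
  have key : ∀ s : Finset ℕ, s ⊆ f.support →
      xx h (∑ d ∈ s, monomial d (f.coeff d)) ∈ FG S N := by
    intro s
    induction s using Finset.induction_on with
    | empty => intro _; rw [Finset.sum_empty, xx_zero]; exact (FG S N).one_mem
    | insert a s ha ih =>
      intro hs
      rw [Finset.sum_insert ha, ← xx_mul]
      have ha' : a ∈ f.support := hs (Finset.mem_insert_self a s)
      have haN : N ≤ a := by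
        by_contra hlt
        exact (mem_support_iff.mp ha') (hf a (by omega))
      exact (FG S N).mul_mem (K4_monomial h hi hj haN _)
        (ih (fun x hx => hs (Finset.mem_insert_of_mem hx)))
  have := key f.support (Finset.Subset.refl _)
  rwa [← f.as_sum_support] at this

/-- column elements -/
private noncomputable def K4Col (S : Set J) (p : J) (N : ℕ) : Subgroup (SpecialLinearGroup J ℤ[X]) :=
  Subgroup.closure {g | ∃ (l : J) (h : l ≠ p) (f : ℤ[X]), l ∈ S ∧ X ^ N ∣ f ∧ g = xx h f}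

/-- row elements -/
private noncomputable def K4Row (S : Set J) (p : J) (N : ℕ) : Subgroup (SpecialLinearGroup J ℤ[X]) :=
  Subgroup.closure {g | ∃ (l : J) (h : p ≠ l) (f : ℤ[X]), l ∈ S ∧ X ^ N ∣ f ∧ g = xx h f}

/-- a subgroup generated by a set is normalised by `EG S` as soon as the generators of `EG S`
conjugate the generators into the subgroup -/
private theorem K4_conj {S : Set J} {T : Set (SpecialLinearGroup J ℤ[X])}
    (hT : ∀ (i j : J) (h : i ≠ j) (c : ℤ[X]), i ∈ S → j ∈ S → ∀ t ∈ T,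
      xx h c * t * (xx h c)⁻¹ ∈ Subgroup.closure T)
    {e : SpecialLinearGroup J ℤ[X]} (he : e ∈ EG S) {g : SpecialLinearGroup J ℤ[X]}
    (hg : g ∈ Subgroup.closure T) : e * g * e⁻¹ ∈ Subgroup.closure T := by
  have step : ∀ (i j : J) (h : i ≠ j) (c : ℤ[X]), i ∈ S → j ∈ S → ∀ g ∈ Subgroup.closure T,
      xx h c * g * (xx h c)⁻¹ ∈ Subgroup.closure T := by
    intro i j h c hi hj g hg
    refine Subgroup.closure_induction (p := fun g _ => xx h c * g * (xx h c)⁻¹ ∈ Subgroup.closure T)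
      ?_ ?_ ?_ ?_ hg
    · intro t ht
      exact hT i j h c hi hj t ht
    · rw [mul_one, mul_inv_cancel]; exact Subgroup.one_mem _
    · intro a b _ _ ha hb
      have : xx h c * (a * b) * (xx h c)⁻¹ = (xx h c * a * (xx h c)⁻¹) * (xx h c * b * (xx h c)⁻¹) := by
        group
      rw [this]
      exact Subgroup.mul_mem _ ha hb
    · intro a _ ha
      have : xx h c * a⁻¹ * (xx h c)⁻¹ = (xx h c * a * (xx h c)⁻¹)⁻¹ := by group
      rw [this]
      exact Subgroup.inv_mem _ ha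
  have he' : e ∈ Subgroup.closure
      {g | ∃ (i j : J) (h : i ≠ j) (c : ℤ[X]), i ∈ S ∧ j ∈ S ∧ g = xx h c} := he
  revert g
  refine Subgroup.closure_induction_left (p := fun e _ => ∀ {g : SpecialLinearGroup J ℤ[X]},
    g ∈ Subgroup.closure T → e * g * e⁻¹ ∈ Subgroup.closure T) ?_ ?_ ?_ he'
  · intro g hg
    rwa [one_mul, inv_one, mul_one]
  · rintro x ⟨i, j, h, c, hi, hj, rfl⟩ y _ ih g hg
    have h1 := step i j h c hi hj _ (ih hg)
    have h2 : xx h c * y * g * (xx h c * y)⁻¹ = xx h c * (y * g * y⁻¹) * (xx h c)⁻¹ := by group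
    rw [h2]
    exact h1
  · rintro x ⟨i, j, h, c, hi, hj, rfl⟩ y _ ih g hg
    have h1 := step i j h (-c) hi hj _ (ih hg)
    rw [xx_inv h c]
    have h2 : xx h (-c) * y * g * (xx h (-c) * y)⁻¹ = xx h (-c) * (y * g * y⁻¹) * (xx h (-c))⁻¹ := by
      group
    rw [h2]
    exact h1

private theorem K4_col {S : Set J} {p : J} (hp : p ∉ S) (N : ℕ) {e g : SpecialLinearGroup J ℤ[X]}
    (he : e ∈ EG S) (hg : g ∈ K4Col S p N) : e * g * e⁻¹ ∈ K4Col S p N := by
  refine K4_conj ?_ he hg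
  rintro i j h c hi hj t ⟨l, hl, f, hlS, hf, rfl⟩
  have hip : i ≠ p := fun hh => hp (hh ▸ hi)
  by_cases hjl : j = l
  · subst hjl
    have h1 := xx_stein h hl hip c f
    have h2 : xx h c * xx hl f * (xx h c)⁻¹ = xx hip (c * f) * xx hl f := by
      rw [h1]; group
    rw [h2]
    exact Subgroup.mul_mem _ (Subgroup.subset_closure ⟨i, hip, c * f, hi, Dvd.dvd.mul_left hf c, rfl⟩)
      (Subgroup.subset_closure ⟨j, hl, f, hlS, hf, rfl⟩)
  · have h1 := xx_comm h hl hjl hip c f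
    have h2 : xx h c * xx hl f * (xx h c)⁻¹ = xx hl f := by
      rw [h1]; group
    rw [h2]
    exact Subgroup.subset_closure ⟨l, hl, f, hlS, hf, rfl⟩

private theorem K4_row {S : Set J} {p : J} (hp : p ∉ S) (N : ℕ) {e g : SpecialLinearGroup J ℤ[X]}
    (he : e ∈ EG S) (hg : g ∈ K4Row S p N) : e * g * e⁻¹ ∈ K4Row S p N := by
  refine K4_conj ?_ he hg
  rintro i j h c hi hj t ⟨l, hl, f, hlS, hf, rfl⟩
  have hjp : j ≠ p := fun hh => hp (hh ▸ hj)
  by_cases hil : i = l
  · subst hil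
    have h1 := xx_stein hl h hjp.symm f c
    have h2 : xx h c * xx hl f * (xx h c)⁻¹ = (xx hjp.symm (f * c))⁻¹ * xx hl f := by
      have h3 : xx h c * xx hl f = (xx hjp.symm (f * c))⁻¹ * (xx hl f * xx h c) := by
        rw [h1]; group
      rw [h3]; group
    rw [h2]
    exact Subgroup.mul_mem _ (Subgroup.inv_mem _ (Subgroup.subset_closure
      ⟨j, hjp.symm, f * c, hj, Dvd.dvd.mul_right hf c, rfl⟩))
      (Subgroup.subset_closure ⟨i, hl, f, hlS, hf, rfl⟩)
  · have h1 := xx_comm h hl hjp hil c f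
    have h2 : xx h c * xx hl f * (xx h c)⁻¹ = xx hl f := by
      rw [h1]; group
    rw [h2]
    exact Subgroup.subset_closure ⟨l, hl, f, hlS, hf, rfl⟩

private theorem K4_col_le (S : Set J) (p : J) (N : ℕ) : K4Col S p N ≤ FG (insert p S) N := by
  refine (Subgroup.closure_le _).mpr ?_
  rintro g ⟨l, hl, f, hlS, hf, rfl⟩
  exact xx_mem_FG hl (Set.mem_insert_of_mem p hlS) (Set.mem_insert p S) hf

private theorem K4_row_le (S : Set J) (p : J) (N : ℕ) : K4Row S p N ≤ FG (insert p S) N := by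
  refine (Subgroup.closure_le _).mpr ?_
  rintro g ⟨l, hl, f, hlS, hf, rfl⟩
  exact xx_mem_FG hl (Set.mem_insert p S) (Set.mem_insert_of_mem p hlS) hf

theorem tits {S : Set J} {p : J} (hp : p ∉ S) (N : ℕ) : ER S (2 * N) ≤ FG (insert p S) N := by
  refine (Subgroup.closure_le _).mpr ?_
  rintro g ⟨e, he, i, j, h, c, hi, hj, rfl⟩
  have hip : i ≠ p := fun hh => hp (hh ▸ hi)
  have hjp : j ≠ p := fun hh => hp (hh ▸ hj)
  have h1 := xx_stein hip hjp.symm h (X ^ N * c) (X ^ N)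
  have hab : (X ^ N * c) * X ^ N = X ^ (2 * N) * c := by ring
  rw [hab] at h1
  have hu : xx hip (X ^ N * c) ∈ K4Col S p N :=
    Subgroup.subset_closure ⟨i, hip, _, hi, Dvd.intro _ rfl, rfl⟩
  have hv : xx hjp.symm ((X : ℤ[X]) ^ N) ∈ K4Row S p N :=
    Subgroup.subset_closure ⟨j, hjp.symm, _, hj, dvd_refl _, rfl⟩
  have hu' := K4_col_le S p N (K4_col hp N he hu)
  have hv' := K4_row_le S p N (K4_row hp N he hv)
  have h2 : e * xx h (X ^ (2 * N) * c) * e⁻¹ =
      (e * xx hip (X ^ N * c) * e⁻¹) * (e * xx hjp.symm ((X : ℤ[X]) ^ N) * e⁻¹) *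
      (e * xx hip (X ^ N * c) * e⁻¹)⁻¹ * (e * xx hjp.symm ((X : ℤ[X]) ^ N) * e⁻¹)⁻¹ := by
    have h3 : xx h (X ^ (2 * N) * c) = xx hip (X ^ N * c) * xx hjp.symm ((X : ℤ[X]) ^ N) *
        (xx hip (X ^ N * c))⁻¹ * (xx hjp.symm ((X : ℤ[X]) ^ N))⁻¹ := by
      rw [h1]; group
    rw [h3]; group
  have hmem : e * xx h (X ^ (2 * N) * c) * e⁻¹ ∈ FG (insert p S) N := by
    rw [h2]
    exact Subgroup.mul_mem _ (Subgroup.mul_mem _ (Subgroup.mul_mem _ hu' hv')
      (Subgroup.inv_mem _ hu')) (Subgroup.inv_mem _ hv')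
  exact hmem

end Pool.Agent.SSE
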