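import Pool.Agent.SSE.K1a

/-!
# SSE-KEMB : the embedding `SL_J → SL_J'` of an injection `f : J ↪ J'`
-/

set_option autoImplicit false

namespace Pool.Agent.SSE

open Polynomial Matrix

variable {J J' J'' : Type} [Fintype J] [DecidableEq J] [Fintype J'] [DecidableEq J'] [Fintype J'']
  [DecidableEq J'']

/-- `J' = J ⊕ rest` -/
noncomputable def embEquiv (f : J ↪ J') : J ⊕ ↥((Set.range f)ᶜ) ≃ J' :=
  (Equiv.sumCongr (Equiv.ofInjective f f.injective) (Equiv.refl _)).trans
    (Equiv.Set.sumCompl (Set.range f))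

open Classical in
/-- `M ⊕ 1` -/
noncomputable def embM (f : J ↪ J') (M : Matrix J J ℤ[X]) : Matrix J' J' ℤ[X] :=
  Matrix.reindex (embEquiv f) (embEquiv f) (Matrix.fromBlocks M 0 0 1)

open Classical in
/-- the embedding `g ↦ g ⊕ 1` -/
noncomputable def emb (f : J ↪ J') : SpecialLinearGroup J ℤ[X] →* SpecialLinearGroup J' ℤ[X] where
  toFun g := ⟨embM f g, by
    rw [embM, Matrix.det_reindex_self, Matrix.det_fromBlocks_zero₂₁, Matrix.det_one, mul_one]
    exact g.2⟩
  map_one' := by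
    apply Subtype.ext
    change embM f (1 : Matrix J J ℤ[X]) = 1
    rw [embM, Matrix.fromBlocks_one, Matrix.reindex_apply, Matrix.submatrix_one_equiv]
  map_mul' g h := by
    apply Subtype.ext
    change embM f ((g : Matrix J J ℤ[X]) * (h : Matrix J J ℤ[X])) =
      embM f (g : Matrix J J ℤ[X]) * embM f (h : Matrix J J ℤ[X])
    simp only [embM, Matrix.reindex_apply, Matrix.submatrix_mul_equiv, Matrix.fromBlocks_multiply]
    simp

omit [DecidableEq J] [Fintype J'] in
private theorem kemb_symm_range (f : J ↪ J') (i : J) : (embEquiv f).symm (f i) = Sum.inl i := by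
  rw [Equiv.symm_apply_eq]
  simp [embEquiv]

omit [DecidableEq J] [Fintype J'] in
private theorem kemb_symm_compl (f : J ↪ J') {a : J'} (ha : a ∉ Set.range f) :
    (embEquiv f).symm a = Sum.inr ⟨a, ha⟩ := by
  rw [Equiv.symm_apply_eq]
  simp [embEquiv]

private theorem kemb_ll (f : J ↪ J') (M : Matrix J J ℤ[X]) (i j : J) :
    embM f M (f i) (f j) = M i j := by
  unfold embM
  rw [Matrix.reindex_apply, Matrix.submatrix_apply, kemb_symm_range, kemb_symm_range,
    Matrix.fromBlocks_apply₁₁]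

private theorem kemb_left (f : J ↪ J') (M : Matrix J J ℤ[X]) {a : J'} (ha : a ∉ Set.range f)
    (b : J') : embM f M a b = (1 : Matrix J' J' ℤ[X]) a b := by
  unfold embM
  rw [Matrix.reindex_apply, Matrix.submatrix_apply, kemb_symm_compl f ha]
  by_cases hb : b ∈ Set.range f
  · obtain ⟨j, rfl⟩ := hb
    have hne : a ≠ f j := fun h => ha ⟨j, h.symm⟩
    rw [kemb_symm_range, Matrix.fromBlocks_apply₂₁, Matrix.one_apply_ne hne, Matrix.zero_apply]
  · rw [kemb_symm_compl f hb, Matrix.fromBlocks_apply₂₂]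
    by_cases hab : a = b
    · subst hab
      rw [Matrix.one_apply_eq, Matrix.one_apply_eq]
    · rw [Matrix.one_apply_ne hab, Matrix.one_apply_ne]
      intro h
      exact hab (congrArg Subtype.val h)

private theorem kemb_right (f : J ↪ J') (M : Matrix J J ℤ[X]) {a : J'} (ha : a ∉ Set.range f)
    (b : J') : embM f M b a = (1 : Matrix J' J' ℤ[X]) b a := by
  unfold embM
  rw [Matrix.reindex_apply, Matrix.submatrix_apply, kemb_symm_compl f ha]
  by_cases hb : b ∈ Set.range f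
  · obtain ⟨j, rfl⟩ := hb
    have hne : f j ≠ a := fun h => ha ⟨j, h⟩
    rw [kemb_symm_range, Matrix.fromBlocks_apply₁₂, Matrix.one_apply_ne hne, Matrix.zero_apply]
  · rw [kemb_symm_compl f hb, Matrix.fromBlocks_apply₂₂]
    by_cases hab : b = a
    · subst hab
      rw [Matrix.one_apply_eq, Matrix.one_apply_eq]
    · rw [Matrix.one_apply_ne hab, Matrix.one_apply_ne]
      intro h
      exact hab (congrArg Subtype.val h)

theorem emb_apply (f : J ↪ J') (g : SpecialLinearGroup J ℤ[X]) (i j : J) :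
    (emb f g : Matrix J' J' ℤ[X]) (f i) (f j) = (g : Matrix J J ℤ[X]) i j :=
  kemb_ll f (g : Matrix J J ℤ[X]) i j

theorem emb_apply_left (f : J ↪ J') (g : SpecialLinearGroup J ℤ[X]) {a : J'}
    (ha : a ∉ Set.range f) (b : J') :
    (emb f g : Matrix J' J' ℤ[X]) a b = (1 : Matrix J' J' ℤ[X]) a b :=
  kemb_left f (g : Matrix J J ℤ[X]) ha b

theorem emb_apply_right (f : J ↪ J') (g : SpecialLinearGroup J ℤ[X]) {a : J'}
    (ha : a ∉ Set.range f) (b : J') :
    (emb f g : Matrix J' J' ℤ[X]) b a = (1 : Matrix J' J' ℤ[X]) b a :=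
  kemb_right f (g : Matrix J J ℤ[X]) ha b

private theorem kemb_det (f : J ↪ J') (M : Matrix J J ℤ[X]) : (embM f M).det = M.det := by
  unfold embM
  rw [Matrix.det_reindex_self, Matrix.det_fromBlocks_zero₂₁, Matrix.det_one, mul_one]

omit [Fintype J] [Fintype J'] in
private theorem kemb_one (f : J ↪ J') (i j : J) :
    (1 : Matrix J' J' ℤ[X]) (f i) (f j) = (1 : Matrix J J ℤ[X]) i j := by
  by_cases h : i = j
  · subst h
    rw [Matrix.one_apply_eq, Matrix.one_apply_eq]
  · rw [Matrix.one_apply_ne h, Matrix.one_apply_ne (f.injective.ne h)]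

/-- a matrix trivial outside the range is `embM` of its block -/
private theorem kemb_eq (f : J ↪ J') (U : Matrix J' J' ℤ[X])
    (h : ∀ a ∉ Set.range f, ∀ b, U a b = (1 : Matrix J' J' ℤ[X]) a b ∧
      U b a = (1 : Matrix J' J' ℤ[X]) b a) (M : Matrix J J ℤ[X])
    (hM : ∀ i j, U (f i) (f j) = M i j) : embM f M = U := by
  ext1 a b
  by_cases ha : a ∈ Set.range f
  · by_cases hb : b ∈ Set.range f
    · obtain ⟨i, rfl⟩ := ha
      obtain ⟨j, rfl⟩ := hb
      rw [kemb_ll, hM]
    · rw [kemb_right f M hb a, (h b hb a).2]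
  · rw [kemb_left f M ha b, (h a ha b).1]

/-- characterisation of the image -/
theorem exists_emb (f : J ↪ J') (u : SpecialLinearGroup J' ℤ[X])
    (h : ∀ a ∉ Set.range f, ∀ b, (u : Matrix J' J' ℤ[X]) a b = (1 : Matrix J' J' ℤ[X]) a b ∧
      (u : Matrix J' J' ℤ[X]) b a = (1 : Matrix J' J' ℤ[X]) b a) :
    ∃ g : SpecialLinearGroup J ℤ[X], emb f g = u := by
  set M : Matrix J J ℤ[X] := fun i j => (u : Matrix J' J' ℤ[X]) (f i) (f j) with hM
  have h1 : embM f M = (u : Matrix J' J' ℤ[X]) :=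
    kemb_eq f (u : Matrix J' J' ℤ[X]) h M fun i j => rfl
  have h2 : M.det = 1 := by
    rw [← kemb_det f M, h1]
    exact u.2
  exact ⟨⟨M, h2⟩, Subtype.ext h1⟩

/-- uniqueness form -/
private theorem kemb_uniq (f : J ↪ J') (u : SpecialLinearGroup J' ℤ[X])
    (h : ∀ a ∉ Set.range f, ∀ b, (u : Matrix J' J' ℤ[X]) a b = (1 : Matrix J' J' ℤ[X]) a b ∧
      (u : Matrix J' J' ℤ[X]) b a = (1 : Matrix J' J' ℤ[X]) b a)
    (g : SpecialLinearGroup J ℤ[X])
    (hg : ∀ i j, (u : Matrix J' J' ℤ[X]) (f i) (f j) = (g : Matrix J J ℤ[X]) i j) :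
    u = emb f g :=
  Subtype.ext (kemb_eq f (u : Matrix J' J' ℤ[X]) h (g : Matrix J J ℤ[X]) hg).symm

theorem emb_injective (f : J ↪ J') : Function.Injective (emb f) := by
  intro g h hgh
  apply Subtype.ext
  ext1 i j
  have h1 := emb_apply f g i j
  have h2 := emb_apply f h i j
  rw [hgh] at h1
  exact h1.symm.trans h2

theorem emb_xx (f : J ↪ J') {i j : J} (h : i ≠ j) (c : ℤ[X]) :
    emb f (xx h c) = xx (f.injective.ne h) c := by
  have hx : ∀ {K : Type} [Fintype K] [DecidableEq K] {a b : K} (hab : a ≠ b) (x y : K),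
      ((xx hab c : SpecialLinearGroup K ℤ[X]) : Matrix K K ℤ[X]) x y =
        (1 : Matrix K K ℤ[X]) x y + if a = x ∧ b = y then c else 0 := by
    intro K _ _ a b hab x y
    change ((1 : Matrix K K ℤ[X]) + Matrix.single a b c) x y = _
    rw [Matrix.add_apply, Matrix.single_apply]
  symm
  apply kemb_uniq
  · intro a ha b
    rw [hx, hx]
    constructor
    · rw [if_neg, add_zero]
      rintro ⟨h1, -⟩
      exact ha ⟨i, h1⟩
    · rw [if_neg, add_zero]
      rintro ⟨-, h1⟩
      exact ha ⟨j, h1⟩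
  · intro k l
    rw [hx, hx, kemb_one]
    simp only [f.injective.eq_iff]

theorem emb_trans (f : J ↪ J') (g : J' ↪ J'') (x : SpecialLinearGroup J ℤ[X]) :
    emb g (emb f x) = emb (f.trans g) x := by
  apply kemb_uniq
  · intro a ha b
    by_cases ha1 : a ∈ Set.range g
    · obtain ⟨a', rfl⟩ := ha1
      have ha2 : a' ∉ Set.range f := by
        rintro ⟨i, rfl⟩
        exact ha ⟨i, rfl⟩
      by_cases hb : b ∈ Set.range g
      · obtain ⟨b', rfl⟩ := hb
        rw [emb_apply, emb_apply, emb_apply_left f x ha2, emb_apply_right f x ha2, kemb_one,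
          kemb_one]
        exact ⟨rfl, rfl⟩
      · exact ⟨emb_apply_right g _ hb _, emb_apply_left g _ hb _⟩
    · exact ⟨emb_apply_left g _ ha1 _, emb_apply_right g _ ha1 _⟩
  · intro i j
    change (emb g (emb f x) : Matrix J'' J'' ℤ[X]) (g (f i)) (g (f j)) = _
    rw [emb_apply, emb_apply]

theorem map_EG (f : J ↪ J') (S : Set J) : (EG S).map (emb f) = EG (f '' S) := by
  unfold EG
  rw [MonoidHom.map_closure]
  congr 1
  ext g
  constructor
  · rintro ⟨-, ⟨i, j, h, c, hi, hj, rfl⟩, rfl⟩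
    exact ⟨f i, f j, f.injective.ne h, c, ⟨i, hi, rfl⟩, ⟨j, hj, rfl⟩, emb_xx f h c⟩
  · rintro ⟨-, -, h, c, ⟨i, hi, rfl⟩, ⟨j, hj, rfl⟩, rfl⟩
    have hij : i ≠ j := fun hh => h (congrArg f hh)
    exact ⟨xx hij c, ⟨i, j, hij, c, hi, hj, rfl⟩, emb_xx f hij c⟩

theorem map_ER (f : J ↪ J') (S : Set J) (k : ℕ) : (ER S k).map (emb f) = ER (f '' S) k := by
  unfold ER
  rw [MonoidHom.map_closure]
  congr 1
  ext g
  constructor
  · rintro ⟨-, ⟨e, he, i, j, h, c, hi, hj, rfl⟩, rfl⟩
    refine ⟨emb f e, ?_, f i, f j, f.injective.ne h, c, ⟨i, hi, rfl⟩, ⟨j, hj, rfl⟩, ?_⟩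
    · rw [← map_EG]
      exact Subgroup.mem_map_of_mem _ he
    · rw [map_mul, map_mul, map_inv, emb_xx]
  · rintro ⟨e', he', -, -, h, c, ⟨i, hi, rfl⟩, ⟨j, hj, rfl⟩, rfl⟩
    have hij : i ≠ j := fun hh => h (congrArg f hh)
    rw [← map_EG] at he'
    obtain ⟨e, he, rfl⟩ := he'
    refine ⟨e * xx hij (X ^ k * c) * e⁻¹, ⟨e, he, i, j, hij, c, hi, hj, rfl⟩, ?_⟩
    rw [map_mul, map_mul, map_inv, emb_xx]

theorem Cg_emb (f : J ↪ J') (k : ℕ) (g : SpecialLinearGroup J ℤ[X]) :
    Cg k (emb f g) ↔ Cg k g := by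
  constructor
  · intro h i j
    have := h (f i) (f j)
    rw [emb_apply, kemb_one] at this
    exact this
  · intro h a b
    by_cases ha : a ∈ Set.range f
    · by_cases hb : b ∈ Set.range f
      · obtain ⟨i, rfl⟩ := ha
        obtain ⟨j, rfl⟩ := hb
        rw [emb_apply, kemb_one]
        exact h i j
      · rw [emb_apply_right f g hb, sub_self]
        exact dvd_zero _
    · rw [emb_apply_left f g ha, sub_self]
      exact dvd_zero _

end Pool.Agent.SSE
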