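import Pool.Agent.SSE.E6
import Pool.Agent.SSE.K3
import Pool.Agent.SSE.K4
import Pool.Agent.SSE.KEmb

/-!
# SSE-LA0 : `kmain` for a subset of the index set; `FG ≤ FLow`; monotonicity of `nz` in the radius

`kmain_sub`: take `f : S₀ ↪ J` (the subtype), `kmain` for the type `S₀`, and `map_EG`, `map_ER`, `Cg_emb` (`f '' univ = S₀`).
`FG_le_FLow`: `Subgroup.closure_mono`. `Lo_of_Cg`: entries of `y - 1` are divisible by `X^(2M)`, rows and columns outside `S` are trivial (`EG_apply`).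
`nz_mono`: termwise.
`exists_tiny_sub`: `exists_tiny` for the four element type `↥{x, y, z, p}` (there `FLow p M` lives on `{x,y,z}`), then the embedding (`emb`, prove
`nz r (emb f g) = nz r g` for it), `Lo_of_Cg`.
-/

set_option autoImplicit false

namespace Pool.Agent.SSE

open Polynomial Matrix

variable {J : Type} [Fintype J] [DecidableEq J]

/-- `kmain` for a subset of the index set -/
theorem kmain_sub {S₀ : Set J} {a b c : J} (ha : a ∈ S₀) (hb : b ∈ S₀) (hc : c ∈ S₀)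
    (hab : a ≠ b) (hac : a ≠ c) (hbc : b ≠ c) {M : ℕ} (hM : 1 ≤ M) :
    ∃ Y : Set (SpecialLinearGroup J ℤ[X]), Y.Finite ∧
      (∀ y ∈ Y, y ∈ EG ({a, b, c} : Set J) ∧ Cg M y) ∧
      ∀ g ∈ EG S₀, Cg M g → ∃ y ∈ Y, g * y⁻¹ ∈ ER S₀ M := by
  classical
  let f : ↥S₀ ↪ J := Function.Embedding.subtype _
  have hf : ∀ t : ↥S₀, f t = (t : J) := fun _ => rfl
  have huniv : f '' (Set.univ : Set ↥S₀) = S₀ := by
    ext t
    constructor
    · rintro ⟨u, -, rfl⟩
      exact u.2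
    · intro ht
      exact ⟨⟨t, ht⟩, Set.mem_univ _, rfl⟩
  have hab' : (⟨a, ha⟩ : ↥S₀) ≠ ⟨b, hb⟩ := fun h => hab (congrArg Subtype.val h)
  have hac' : (⟨a, ha⟩ : ↥S₀) ≠ ⟨c, hc⟩ := fun h => hac (congrArg Subtype.val h)
  have hbc' : (⟨b, hb⟩ : ↥S₀) ≠ ⟨c, hc⟩ := fun h => hbc (congrArg Subtype.val h)
  have himg : f '' ({⟨a, ha⟩, ⟨b, hb⟩, ⟨c, hc⟩} : Set ↥S₀) = ({a, b, c} : Set J) := by
    rw [Set.image_insert_eq, Set.image_insert_eq, Set.image_singleton]
    rfl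
  obtain ⟨Y, hY, hY1, hY2⟩ := kmain (J := ↥S₀) hab' hac' hbc' hM
  refine ⟨emb f '' Y, hY.image _, ?_, ?_⟩
  · rintro _ ⟨y, hy, rfl⟩
    obtain ⟨h1, h2⟩ := hY1 y hy
    refine ⟨?_, (Cg_emb f M y).2 h2⟩
    rw [← himg, ← map_EG]
    exact Subgroup.mem_map_of_mem _ h1
  · intro g hg hgC
    rw [← huniv, ← map_EG] at hg
    obtain ⟨g', hg', rfl⟩ := hg
    obtain ⟨y, hy, hy2⟩ := hY2 g' hg' ((Cg_emb f M g').1 hgC)
    refine ⟨emb f y, ⟨y, hy, rfl⟩, ?_⟩
    have h3 : emb f (g' * y⁻¹) ∈ (ER (Set.univ : Set ↥S₀) M).map (emb f) :=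
      Subgroup.mem_map_of_mem _ hy2
    rw [map_ER, huniv, map_mul, map_inv] at h3
    exact h3

theorem FG_le_FLow {S : Set J} {p : J} (hp : p ∉ S) (M : ℕ) : FG S M ≤ FLow p M := by
  unfold FG FLow
  apply Subgroup.closure_mono
  rintro x ⟨i, j, h, d, c, hi, hj, hd, hc, rfl⟩
  exact ⟨i, j, h, d, c, fun h' => hp (h' ▸ hi), fun h' => hp (h' ▸ hj), hd, hc, rfl⟩

private theorem LA0_toRG (y : SpecialLinearGroup J ℤ[X]) (i j : J) :
    ((toRG y : SpecialLinearGroup J ℝ[X]) : Matrix J J ℝ[X]) i j =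
      toR ((y : Matrix J J ℤ[X]) i j) := rfl

private theorem LA0_one (i j : J) :
    (1 : Matrix J J ℝ[X]) i j = toR ((1 : Matrix J J ℤ[X]) i j) := by
  by_cases h : i = j
  · subst h
    rw [Matrix.one_apply_eq, Matrix.one_apply_eq, map_one]
  · rw [Matrix.one_apply_ne h, Matrix.one_apply_ne h, map_zero]

private theorem LA0_coeff {n : ℕ} {f : ℤ[X]} (h : X ^ n ∣ f) {d : ℕ} (hd : d < n) :
    (toR f).coeff d = 0 := by
  have h1 : f.coeff d = 0 := (Polynomial.X_pow_dvd_iff.1 h) d hd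
  unfold toR
  rw [Polynomial.coe_mapRingHom, Polynomial.coeff_map, h1, map_zero]

theorem Lo_of_Cg {S : Set J} {p : J} (hp : p ∉ S) {M : ℕ} {y : SpecialLinearGroup J ℤ[X]}
    (hy : y ∈ EG S) (hc : Cg (2 * M) y) :
    Lo p M ((toRG y : SpecialLinearGroup J ℝ[X]) : Matrix J J ℝ[X]) := by
  have key : ∀ i j, ∀ d < 2 * M, (((toRG y : SpecialLinearGroup J ℝ[X]) : Matrix J J ℝ[X]) i j -
      (1 : Matrix J J ℝ[X]) i j).coeff d = 0 := by
    intro i j d hd
    rw [LA0_toRG, LA0_one, ← map_sub]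
    exact LA0_coeff (hc i j) hd
  refine ⟨fun i j d hd => key i j d (by omega), fun i d hd => ?_, fun j => ?_, fun i => ?_⟩
  · have h := key i i d hd
    rwa [Matrix.one_apply_eq] at h
  · rw [LA0_toRG, (EG_apply hy hp j).1, ← LA0_one]
  · rw [LA0_toRG, (EG_apply hy hp i).2, ← LA0_one]

private theorem LA0_wn_mono {r r' : ℝ} (h0 : 0 ≤ r) (h : r ≤ r') (f : ℝ[X]) :
    wn r f ≤ wn r' f := by
  unfold wn
  exact Finset.sum_le_sum fun k _ =>
    mul_le_mul_of_nonneg_left (pow_le_pow_left₀ h0 h k) (abs_nonneg _)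

theorem nz_mono {r r' : ℝ} (h0 : 0 ≤ r) (h : r ≤ r') (g : SpecialLinearGroup J ℤ[X]) :
    nz r g ≤ nz r' g := by
  unfold nz nu mn
  exact Finset.sum_le_sum fun i _ => Finset.sum_le_sum fun j _ => LA0_wn_mono h0 h _

/-- `F_M` in the indices of `S` is contained in the elementary group, and its members are `1 mod X^M` -/
theorem FG_EG_Cg {S : Set J} {M : ℕ} {g : SpecialLinearGroup J ℤ[X]} (hg : g ∈ FG S M) :
    g ∈ EG S ∧ Cg M g := by
  unfold FG at hg
  induction hg using Subgroup.closure_induction with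
  | mem g hg =>
    obtain ⟨i, j, h, d, c, hi, hj, hd, hc, rfl⟩ := hg
    refine ⟨xx_mem_EG h hi hj _, Cg_xx h ?_⟩
    rw [← Polynomial.C_mul_X_pow_eq_monomial]
    exact Dvd.dvd.mul_left (pow_dvd_pow X hd) _
  | one => exact ⟨one_mem _, Cg_one M⟩
  | mul a b _ _ ha hb => exact ⟨mul_mem ha.1 hb.1, Cg_mul ha.2 hb.2⟩
  | inv a _ ha => exact ⟨inv_mem ha.1, Cg_inv ha.2⟩

private theorem LA0_nz_emb {T : Type} [Fintype T] [DecidableEq T] (f : T ↪ J) (r : ℝ)
    (g : SpecialLinearGroup T ℤ[X]) : nz r (emb f g) = nz r g := by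
  unfold nz nu mn
  symm
  have hz : ∀ a b : J, (emb f g : Matrix J J ℤ[X]) a b = (1 : Matrix J J ℤ[X]) a b →
      wn r ((((toRG (emb f g) : SpecialLinearGroup J ℝ[X]) : Matrix J J ℝ[X]) - 1) a b) = 0 := by
    intro a b hab
    rw [Matrix.sub_apply, LA0_toRG, hab, ← LA0_one, sub_self, wn_zero]
  apply Fintype.sum_of_injective f f.injective
  · intro a ha
    exact Finset.sum_eq_zero fun b _ => hz a b (emb_apply_left f g ha b)
  · intro i
    apply Fintype.sum_of_injective f f.injective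
    · intro b hb
      exact hz (f i) b (emb_apply_right f g hb (f i))
    · intro j
      rw [Matrix.sub_apply, Matrix.sub_apply, LA0_toRG, LA0_toRG, emb_apply, LA0_one, LA0_one]
      congr 3
      by_cases hij : i = j
      · subst hij
        rw [Matrix.one_apply_eq, Matrix.one_apply_eq]
      · rw [Matrix.one_apply_ne hij, Matrix.one_apply_ne (f.injective.ne hij)]

/-- `exists_tiny` inside a subset `S` of the index set, two radii at once -/
theorem exists_tiny_sub {r : ℝ} (hr : 0 < r) (hr1 : r < 1) {x y z : J} (hxy : x ≠ y) (hxz : x ≠ z)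
    (hyz : y ≠ z) {p : J} (hp : p ∉ ({x, y, z} : Set J)) {δ : ℝ} (hδ : 0 < δ) :
    ∃ M₀ : ℕ, ∀ M ≥ M₀, ∀ u ∈ EG ({x, y, z} : Set J), Cg (2 * M) u →
      ∃ f ∈ FG ({x, y, z} : Set J) M, nz r (f * u) ≤ δ := by
  classical
  let T : Type := ↥({x, y, z, p} : Set J)
  let f : T ↪ J := Function.Embedding.subtype _
  have hx : x ∈ ({x, y, z, p} : Set J) := by simp
  have hy : y ∈ ({x, y, z, p} : Set J) := by simp
  have hz : z ∈ ({x, y, z, p} : Set J) := by simp
  have hpT : p ∈ ({x, y, z, p} : Set J) := by simp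
  let x' : T := ⟨x, hx⟩
  let y' : T := ⟨y, hy⟩
  let z' : T := ⟨z, hz⟩
  let p' : T := ⟨p, hpT⟩
  have himg : f '' ({x', y', z'} : Set T) = ({x, y, z} : Set J) := by
    rw [Set.image_insert_eq, Set.image_insert_eq, Set.image_singleton]
    rfl
  have hp' : p' ∉ ({x', y', z'} : Set T) := by
    intro h
    apply hp
    rw [← himg]
    exact ⟨p', h, rfl⟩
  have hq' : x' ≠ p' := by
    intro h
    apply hp'
    rw [← h]
    exact Set.mem_insert _ _
  have hcov : ∀ t : T, t ≠ p' → t ∈ ({x', y', z'} : Set T) := by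
    rintro ⟨t, ht⟩ htp
    have ht' : t = x ∨ t = y ∨ t = z ∨ t = p := by simpa using ht
    rcases ht' with rfl | rfl | rfl | rfl
    · exact Set.mem_insert _ _
    · exact Set.mem_insert_of_mem _ (Set.mem_insert _ _)
    · exact Set.mem_insert_of_mem _ (Set.mem_insert_of_mem _ (Set.mem_singleton _))
    · exact absurd rfl htp
  obtain ⟨K, hK, M₀, hM₀, hT⟩ := exists_tiny hr hr1 T
  have hlim : Filter.Tendsto (fun M : ℕ => K * r ^ M) Filter.atTop (nhds (K * 0)) :=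
    (tendsto_pow_atTop_nhds_zero_of_lt_one hr.le hr1).const_mul K
  rw [mul_zero] at hlim
  obtain ⟨M₁, hM₁⟩ := Filter.eventually_atTop.1 (hlim.eventually (ge_mem_nhds hδ))
  refine ⟨max M₀ M₁, fun M hM u hu hc => ?_⟩
  have hMa : M₀ ≤ M := le_trans (le_max_left _ _) hM
  have hMb : M₁ ≤ M := le_trans (le_max_right _ _) hM
  rw [← himg, ← map_EG] at hu
  obtain ⟨u', hu', rfl⟩ := hu
  have hLo := Lo_of_Cg hp' hu' ((Cg_emb f (2 * M) u').1 hc)
  obtain ⟨f₀, hf₀, hf₁⟩ := hT M hMa p' x' hq' u' hLo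
  refine ⟨emb f f₀, ?_, ?_⟩
  · have hle : FLow p' M ≤ (FG ({x, y, z} : Set J) M).comap (emb f) := by
      unfold FLow
      rw [Subgroup.closure_le]
      rintro _ ⟨i, j, h, d, c, hi, hj, hd, hcc, rfl⟩
      change emb f (xx h (monomial d c)) ∈ FG ({x, y, z} : Set J) M
      rw [emb_xx]
      refine Subgroup.subset_closure ⟨f i, f j, f.injective.ne h, d, c, ?_, ?_, hd, hcc, rfl⟩
      · rw [← himg]
        exact ⟨i, hcov i hi, rfl⟩
      · rw [← himg]
        exact ⟨j, hcov j hj, rfl⟩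
    exact hle hf₀
  · rw [← map_mul, LA0_nz_emb]
    exact hf₁.trans (hM₁ M hMb)

end Pool.Agent.SSE
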