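import Pool.Agent.SSE.LC
import Pool.Agent.SSE.LA0

/-!
# SSE-LA : level A for one frame

`conn_small` gives `N₁`, `ε`. `kmain_sub` (`S₀ = {x,y,z}`, exponent `4 N₁`) gives a finite `Y`; for every `y ∈ Y` for which there are `W_y ∈ EG {x,y,z}`,
`Cg (4 N₁) W_y`, `nz r W_y ≤ ε`, `W_y y⁻¹ ∈ ER {x,y,z} (4 N₁)`, `S'` and `Q_y` with `Fr P S' W_y Q_y` choose such a `Q_y`: these are the `D i`. For two such `W, W_y` with
the same `y`: `W W_y⁻¹ ∈ ER {x,y,z} (4 N₁) ≤ FG (insert p ..) (2 N₁) ≤ FLow p' (2 N₁)` (`tits`, `FG_le_FLow`); `conn_small` with `M = N₁`.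
(Take `N₁ ≥ 1`.)
-/

set_option autoImplicit false

open scoped BigOperators
open Matrix Polynomial

namespace Pool.Agent.SSE

attribute [local instance] Classical.propDecidable

variable {κ J : Type} [Fintype κ] [Fintype J] [DecidableEq J]

theorem levelA {P : Matrix (κ ⊕ J) (κ ⊕ J) ℕ[X]} {S : Set κ} {D : Set (κ ⊕ J)} {r a C : ℝ} {N : ℕ}
    {q : J → κ ⊕ J → PowerSeries ℤ} (F : Frame P S D r a C N q) (hr1 : r < 1) (ha : 0 < a)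
    {x y z p p' : J} (hxy : x ≠ y) (hxz : x ≠ z) (hyz : y ≠ z) (hp : p ∉ ({x, y, z} : Set J))
    (hp' : p' ∉ (insert p ({x, y, z} : Set J) : Set J)) :
    ∃ (N₁ : ℕ) (ε : ℝ), N ≤ N₁ ∧ 0 < ε ∧ ∃ (m : ℕ) (R : Fin m → Matrix (κ ⊕ J) (κ ⊕ J) ℕ[X]),
      ∀ W ∈ EG ({x, y, z} : Set J), Cg (4 * N₁) W → nz r W ≤ ε → ∀ (S' : Set κ)
        (Q : Matrix (κ ⊕ J) (κ ⊕ J) ℕ[X]), Fr P S' W Q → ∃ i, PEqv Q (R i) := by
  obtain ⟨N₁, ε, hN, hε, hconn⟩ := conn_small J F.rpos hr1 ha F.Cnn N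
  have hN1 : 1 ≤ N₁ := le_trans F.Npos hN
  have hx : x ∈ ({x, y, z} : Set J) := Set.mem_insert _ _
  have hy : y ∈ ({x, y, z} : Set J) := Set.mem_insert_of_mem _ (Set.mem_insert _ _)
  have hz : z ∈ ({x, y, z} : Set J) :=
    Set.mem_insert_of_mem _ (Set.mem_insert_of_mem _ (Set.mem_singleton _))
  obtain ⟨Y, hYf, -, hY⟩ := kmain_sub hx hy hz hxy hxz hyz (M := 4 * N₁) (by omega)
  have hER : ER ({x, y, z} : Set J) (4 * N₁) ≤ FLow p' (2 * N₁) := by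
    have h4 : 4 * N₁ = 2 * (2 * N₁) := by ring
    rw [h4]
    exact (tits hp (2 * N₁)).trans (FG_le_FLow hp' (2 * N₁))
  -- the choice of representatives
  have hch : ∀ u : SpecialLinearGroup J ℤ[X], ∃ R : Matrix (κ ⊕ J) (κ ⊕ J) ℕ[X],
      ∀ W ∈ EG ({x, y, z} : Set J), Cg (4 * N₁) W → nz r W ≤ ε →
        W * u⁻¹ ∈ ER ({x, y, z} : Set J) (4 * N₁) → ∀ (S' : Set κ)
        (Q : Matrix (κ ⊕ J) (κ ⊕ J) ℕ[X]), Fr P S' W Q → PEqv Q R := by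
    intro u
    by_cases hg : ∃ (W : SpecialLinearGroup J ℤ[X]) (S' : Set κ)
        (Q : Matrix (κ ⊕ J) (κ ⊕ J) ℕ[X]), Cg (4 * N₁) W ∧ nz r W ≤ ε ∧
          W * u⁻¹ ∈ ER ({x, y, z} : Set J) (4 * N₁) ∧ Fr P S' W Q
    · obtain ⟨V, T, R, hV1, hV2, hV3, hV4⟩ := hg
      refine ⟨R, fun W _ hW1 hW2 hW3 S' Q hQ => ?_⟩
      refine hconn κ P S D q F N₁ le_rfl p' W V ?_ hW2 hV2 (hER ?_) S' T Q R hQ hV4
      · exact fun i j => (pow_dvd_pow X (by omega)).trans (hW1 i j)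
      · have h5 : V * W⁻¹ = (V * u⁻¹) * (W * u⁻¹)⁻¹ := by group
        rw [h5]
        exact mul_mem hV3 (inv_mem hW3)
    · exact ⟨P, fun W _ hW1 hW2 hW3 S' Q hQ => absurd ⟨W, S', Q, hW1, hW2, hW3, hQ⟩ hg⟩
  choose R hR using hch
  refine ⟨N₁, ε, hN, hε, hYf.toFinset.card,
    fun i => R (hYf.toFinset.equivFin.symm i : SpecialLinearGroup J ℤ[X]), ?_⟩
  intro W hW hW1 hW2 S' Q hQ
  obtain ⟨u, hu, hu2⟩ := hY W hW hW1
  refine ⟨hYf.toFinset.equivFin ⟨u, hYf.mem_toFinset.2 hu⟩, ?_⟩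
  have h6 := hR u W hW hW1 hW2 hu2 S' Q hQ
  simpa using h6

end Pool.Agent.SSE
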