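import Pool.Agent.SSE.E1

/-!
# SSE project, part PF4: division by the determinant in the weighted norm

`wc r f = ∑ ‖f_k‖ r^k` for complex polynomials. `wc r (u * (X - a)) ≥ |r - ‖a‖| * wc r u`, so
division by a polynomial without roots of modulus `r` is bounded in the norm.
`norm_div`: if `det M = f` has no root of modulus `r` and the entries of `M` have norm `≤ B`, then
`∑ wn r u_i ≤ C * ∑ wn r (u M)_j` for all polynomial vectors `u`, `C` independent of `M` and `u`.
-/

set_option autoImplicit false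

open scoped BigOperators
open Matrix Polynomial

namespace Pool.Agent.SSE

/-- weighted `l_1` norm of a complex polynomial -/
noncomputable def wc (r : ℝ) (f : ℂ[X]) : ℝ := ∑ k ∈ f.support, ‖f.coeff k‖ * r ^ k

theorem wc_eq {r : ℝ} {f : ℂ[X]} {N : ℕ} (h : f.natDegree < N) :
    wc r f = ∑ k ∈ Finset.range N, ‖f.coeff k‖ * r ^ k := by
  unfold wc
  refine Finset.sum_subset (fun k hk => ?_) fun k _ hk => ?_
  · rw [Finset.mem_range]
    exact lt_of_le_of_lt (Polynomial.le_natDegree_of_mem_supp k hk) h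
  · rw [Polynomial.notMem_support_iff.1 hk, norm_zero, zero_mul]

theorem wc_nonneg {r : ℝ} (hr : 0 ≤ r) (f : ℂ[X]) : 0 ≤ wc r f :=
  Finset.sum_nonneg fun k _ => by positivity

theorem wc_C_mul {r : ℝ} (c : ℂ) (f : ℂ[X]) : wc r (C c * f) = ‖c‖ * wc r f := by
  have h1 : (C c * f).natDegree < f.natDegree + 1 :=
    Nat.lt_succ_of_le (Polynomial.natDegree_C_mul_le c f)
  rw [wc_eq h1, wc_eq (Nat.lt_succ_self _), Finset.mul_sum]
  refine Finset.sum_congr rfl fun k _ => ?_
  rw [Polynomial.coeff_C_mul, norm_mul, mul_assoc]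

theorem wc_X_mul {r : ℝ} (f : ℂ[X]) : wc r (X * f) = r * wc r f := by
  have h1 : (X * f).natDegree < f.natDegree + 1 + 1 := by
    have := Polynomial.natDegree_mul_le (p := (X : ℂ[X])) (q := f)
    rw [Polynomial.natDegree_X] at this
    omega
  rw [wc_eq h1, wc_eq (Nat.lt_succ_self _), Finset.mul_sum, Finset.sum_range_succ']
  rw [Polynomial.mul_coeff_zero, Polynomial.coeff_X_zero, zero_mul, norm_zero, zero_mul, add_zero]
  refine Finset.sum_congr rfl fun k _ => ?_
  rw [Polynomial.coeff_X_mul, pow_succ]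
  ring

theorem wc_sub_le {r : ℝ} (hr : 0 ≤ r) (f g : ℂ[X]) : wc r (f - g) ≤ wc r f + wc r g := by
  set N := f.natDegree + g.natDegree + 1 with hN
  have h1 : (f - g).natDegree < N := by
    have := Polynomial.natDegree_sub_le f g
    have h2 : max f.natDegree g.natDegree ≤ f.natDegree + g.natDegree := by
      rcases le_total f.natDegree g.natDegree with h | h
      · rw [max_eq_right h]; omega
      · rw [max_eq_left h]; omega
    omega
  rw [wc_eq h1, wc_eq (f := f) (N := N) (by omega), wc_eq (f := g) (N := N) (by omega),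
    ← Finset.sum_add_distrib]
  refine Finset.sum_le_sum fun k _ => ?_
  rw [← add_mul, Polynomial.coeff_sub]
  exact mul_le_mul_of_nonneg_right (norm_sub_le _ _) (by positivity)

/-- division by one linear factor -/
theorem wc_factor {r : ℝ} (hr : 0 ≤ r) (u : ℂ[X]) (a : ℂ) :
    |r - ‖a‖| * wc r u ≤ wc r (u * (X - C a)) := by
  have e1 : X * u = u * (X - C a) - C (-a) * u := by
    rw [C_neg]
    ring
  have e2 : C a * u = X * u - u * (X - C a) := by ring
  have h1 : wc r (X * u) ≤ wc r (u * (X - C a)) + wc r (C (-a) * u) := by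
    conv_lhs => rw [e1]
    exact wc_sub_le hr _ _
  have h2 : wc r (C a * u) ≤ wc r (X * u) + wc r (u * (X - C a)) := by
    conv_lhs => rw [e2]
    exact wc_sub_le hr _ _
  rw [wc_X_mul, wc_C_mul, norm_neg] at h1
  rw [wc_X_mul, wc_C_mul] at h2
  rcases abs_cases (r - ‖a‖) with ⟨h, _⟩ | ⟨h, _⟩ <;> rw [h] <;> nlinarith

/-- division by a polynomial without roots of modulus `r` -/
theorem wc_div {r : ℝ} (hr : 0 ≤ r) {f : ℂ[X]} (hf : f ≠ 0) (h : ∀ z ∈ f.roots, ‖z‖ ≠ r) :
    ∃ C : ℝ, 0 ≤ C ∧ ∀ u : ℂ[X], wc r u ≤ C * wc r (u * f) := by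
  have key : ∀ s : Multiset ℂ, (∀ z ∈ s, ‖z‖ ≠ r) → ∃ C : ℝ, 0 ≤ C ∧ ∀ u : ℂ[X],
      wc r u ≤ C * wc r (u * (s.map fun a => X - Polynomial.C a).prod) := by
    intro s
    induction s using Multiset.induction_on with
    | empty =>
      intro _
      exact ⟨1, zero_le_one, fun u => by simp⟩
    | cons a s ih =>
      intro hs
      obtain ⟨C, hC, hu⟩ := ih fun z hz => hs z (Multiset.mem_cons_of_mem hz)
      have ha : 0 < |r - ‖a‖| := by
        rw [abs_pos, sub_ne_zero]
        exact (hs a (Multiset.mem_cons_self a s)).symm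
      refine ⟨|r - ‖a‖|⁻¹ * C, by positivity, fun u => ?_⟩
      rw [Multiset.map_cons, Multiset.prod_cons, ← mul_assoc]
      have h1 := wc_factor hr u a
      have h2 := hu (u * (X - Polynomial.C a))
      calc wc r u = |r - ‖a‖|⁻¹ * (|r - ‖a‖| * wc r u) := by
            rw [← mul_assoc, inv_mul_cancel₀ ha.ne', one_mul]
        _ ≤ |r - ‖a‖|⁻¹ * (C * wc r (u * (X - Polynomial.C a) *
            (s.map fun a => X - Polynomial.C a).prod)) :=
            mul_le_mul_of_nonneg_left (h1.trans h2) (by positivity)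
        _ = _ := by ring
  obtain ⟨C, hC, hu⟩ := key f.roots h
  have hl : 0 < ‖f.leadingCoeff‖ := norm_pos_iff.2 (leadingCoeff_ne_zero.2 hf)
  refine ⟨‖f.leadingCoeff‖⁻¹ * C, by positivity, fun u => ?_⟩
  have hfac : Polynomial.C f.leadingCoeff * (f.roots.map fun a => X - Polynomial.C a).prod = f :=
    Polynomial.C_leadingCoeff_mul_prod_multiset_X_sub_C
      IsAlgClosed.card_roots_eq_natDegree
  have h1 := hu u
  have h2 : wc r (u * f) = ‖f.leadingCoeff‖ *
      wc r (u * (f.roots.map fun a => X - Polynomial.C a).prod) := by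
    conv_lhs => rw [← hfac]
    rw [← wc_C_mul]
    congr 1
    ring
  rw [h2]
  calc wc r u ≤ _ := h1
    _ = ‖f.leadingCoeff‖⁻¹ * C * (‖f.leadingCoeff‖ * wc r (u *
        (f.roots.map fun a => X - Polynomial.C a).prod)) := by
        field_simp

/-- the complex norm of an integral polynomial -/
theorem wc_map {r : ℝ} (u : ℤ[X]) : wc r (u.map (Int.castRingHom ℂ)) = wn r (toR u) := by
  have h1 : (u.map (Int.castRingHom ℂ)).natDegree < u.natDegree + 1 :=
    Nat.lt_succ_of_le Polynomial.natDegree_map_le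
  have h2 : (toR u).support ⊆ Finset.range (u.natDegree + 1) := by
    intro k hk
    rw [Finset.mem_range]
    have := Polynomial.le_natDegree_of_mem_supp k hk
    have h3 : (toR u).natDegree ≤ u.natDegree := Polynomial.natDegree_map_le
    omega
  rw [wc_eq h1, wn_eq h2]
  refine Finset.sum_congr rfl fun k _ => ?_
  rw [Polynomial.coeff_map]
  have h4 : (toR u).coeff k = (u.coeff k : ℝ) := by
    simp [toR]
  rw [h4]
  congr 1
  simp

/-- division by an integral polynomial without roots of modulus `r` -/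
theorem wn_div {r : ℝ} (hr : 0 ≤ r) {f : ℤ[X]} (hf : f ≠ 0)
    (h : ∀ z ∈ (f.map (Int.castRingHom ℂ)).roots, ‖z‖ ≠ r) :
    ∃ C : ℝ, 0 ≤ C ∧ ∀ u : ℤ[X], wn r (toR u) ≤ C * wn r (toR (u * f)) := by
  have hf' : f.map (Int.castRingHom ℂ) ≠ 0 := by
    rw [Ne, Polynomial.map_eq_zero_iff (RingHom.injective_int (Int.castRingHom ℂ))]
    exact hf
  obtain ⟨C, hC, hu⟩ := wc_div hr hf' h
  refine ⟨C, hC, fun u => ?_⟩
  have h1 := hu (u.map (Int.castRingHom ℂ))
  rw [← Polynomial.map_mul, wc_map, wc_map] at h1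
  exact h1

section mats
variable {J : Type} [Fintype J] [DecidableEq J]

/-- norm of a determinant -/
theorem wn_det_le {r : ℝ} (hr : 0 ≤ r) {b : ℝ} {M : Matrix J J ℝ[X]}
    (h : ∀ i j, wn r (M i j) ≤ b) :
    wn r M.det ≤ (Fintype.card (Equiv.Perm J)) * b ^ Fintype.card J := by
  rw [Matrix.det_apply']
  refine (wn_sum_le hr _ _).trans ?_
  have h1 : ∀ σ : Equiv.Perm J, wn r (((Equiv.Perm.sign σ : ℤ) : ℝ[X]) * ∏ i, M (σ i) i) ≤
      b ^ Fintype.card J := by
    intro σ
    have h2 : wn r (∏ i, M (σ i) i) ≤ b ^ Fintype.card J := by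
      refine (wn_prod_le hr _ _).trans ?_
      calc ∏ i, wn r (M (σ i) i) ≤ ∏ _i : J, b :=
            Finset.prod_le_prod (fun i _ => wn_nonneg hr _) fun i _ => h _ _
        _ = b ^ Fintype.card J := by
            rw [Finset.prod_const, Finset.card_univ]
    rcases Int.units_eq_one_or (Equiv.Perm.sign σ) with e | e
    · rw [e]
      simpa using h2
    · rw [e]
      have e2 : (((-1 : ℤˣ) : ℤ) : ℝ[X]) * ∏ i, M (σ i) i = -(∏ i, M (σ i) i) := by
        simp
      rw [e2, wn_neg]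
      exact h2
  calc ∑ σ : Equiv.Perm J, wn r (((Equiv.Perm.sign σ : ℤ) : ℝ[X]) * ∏ i, M (σ i) i)
      ≤ ∑ _σ : Equiv.Perm J, b ^ Fintype.card J := Finset.sum_le_sum fun σ _ => h1 σ
    _ = _ := by
        rw [Finset.sum_const, Finset.card_univ, nsmul_eq_mul]

theorem wn_adjugate_le {r : ℝ} (hr : 0 ≤ r) {b : ℝ} (hb : 1 ≤ b) {M : Matrix J J ℝ[X]}
    (h : ∀ i j, wn r (M i j) ≤ b) (i j : J) :
    wn r (M.adjugate i j) ≤ (Fintype.card (Equiv.Perm J)) * b ^ Fintype.card J := by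
  rw [Matrix.adjugate_apply]
  refine wn_det_le hr fun a c => ?_
  by_cases e : a = j
  · rw [e, Matrix.updateRow_self]
    by_cases e2 : c = i
    · rw [e2, Pi.single_eq_same, wn_one]
      exact hb
    · rw [Pi.single_eq_of_ne e2, wn_zero]
      linarith
  · rw [Matrix.updateRow_ne e]
    exact h a c

/-- division on the right by a matrix with given determinant and bounded entries -/
theorem norm_div {r : ℝ} (hr : 0 ≤ r) {f : ℤ[X]} (hf : f ≠ 0)
    (h : ∀ z ∈ (f.map (Int.castRingHom ℂ)).roots, ‖z‖ ≠ r) (B : ℝ) :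
    ∃ C : ℝ, 0 ≤ C ∧ ∀ M : Matrix J J ℤ[X], M.det = f → mn r (toR.mapMatrix M) ≤ B →
      ∀ N : Matrix J J ℤ[X], mn r (toR.mapMatrix N) ≤ C * mn r (toR.mapMatrix (N * M)) := by
  obtain ⟨C, hC, hu⟩ := wn_div hr hf h
  set b : ℝ := max B 1 with hb
  set K : ℝ := (Fintype.card (Equiv.Perm J)) * b ^ Fintype.card J with hK
  have hb1 : 1 ≤ b := le_max_right _ _
  have hK0 : 0 ≤ K := by positivity
  refine ⟨(Fintype.card J) * (C * K), by positivity, fun M hM hMB N => ?_⟩
  have hent : ∀ i j, wn r ((toR.mapMatrix M) i j) ≤ b := fun i j =>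
    (entry_le_mn hr _ i j).trans (hMB.trans (le_max_left _ _))
  have hadj : ∀ i j, wn r (toR (M.adjugate i j)) ≤ K := by
    intro i j
    have e : toR (M.adjugate i j) = (toR.mapMatrix M).adjugate i j := by
      rw [← RingHom.map_adjugate]
      rfl
    rw [e]
    exact wn_adjugate_le hr hb1 hent i j
  have e1 : ∀ i j, N i j * f = ∑ k, (N * M) i k * M.adjugate k j := by
    intro i j
    rw [← Matrix.mul_apply, Matrix.mul_assoc, Matrix.mul_adjugate, hM, Matrix.mul_smul,
      Matrix.mul_one, Matrix.smul_apply, smul_eq_mul, mul_comm]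
  have h1 : ∀ i j, wn r (toR (N i j)) ≤ C * K * ∑ k, wn r (toR ((N * M) i k)) := by
    intro i j
    refine (hu (N i j)).trans ?_
    rw [mul_assoc]
    refine mul_le_mul_of_nonneg_left ?_ hC
    rw [e1, map_sum]
    refine (wn_sum_le hr _ _).trans ?_
    rw [Finset.mul_sum]
    refine Finset.sum_le_sum fun k _ => ?_
    rw [map_mul]
    refine (wn_mul_le hr _ _).trans ?_
    rw [mul_comm]
    exact mul_le_mul_of_nonneg_right (hadj k j) (wn_nonneg hr _)
  calc mn r (toR.mapMatrix N) = ∑ i, ∑ j, wn r (toR (N i j)) := rfl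
    _ ≤ ∑ i, ∑ _j : J, C * K * ∑ k, wn r (toR ((N * M) i k)) :=
        Finset.sum_le_sum fun i _ => Finset.sum_le_sum fun j _ => h1 i j
    _ = (Fintype.card J) * (C * K) * ∑ i, ∑ k, wn r (toR ((N * M) i k)) := by
        rw [Finset.mul_sum]
        refine Finset.sum_congr rfl fun i _ => ?_
        rw [Finset.sum_const, Finset.card_univ, nsmul_eq_mul]
        ring
    _ = _ := rfl

/-- the congruence of a quotient -/
theorem dvd_div {f : ℤ[X]} (hf0 : f.coeff 0 = 1) {T : ℕ} {M N : Matrix J J ℤ[X]}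
    (hM : M.det = f) (h : ∀ i j, (X : ℤ[X]) ^ T ∣ (N * M) i j) (i j : J) :
    (X : ℤ[X]) ^ T ∣ N i j := by
  have e1 : N i j * f = ∑ k, (N * M) i k * M.adjugate k j := by
    rw [← Matrix.mul_apply, Matrix.mul_assoc, Matrix.mul_adjugate, hM, Matrix.mul_smul,
      Matrix.mul_one, Matrix.smul_apply, smul_eq_mul, mul_comm]
  have h2 : (X : ℤ[X]) ^ T ∣ N i j * f := by
    rw [e1]
    exact Finset.dvd_sum fun k _ => Dvd.dvd.mul_right (h i k) _
  have h3 : IsCoprime ((X : ℤ[X]) ^ T) f := by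
    refine IsCoprime.pow_left ?_
    refine ⟨-(f.divX), 1, ?_⟩
    have := Polynomial.divX_mul_X_add f
    rw [hf0] at this
    calc -f.divX * X + 1 * f = f - f.divX * X := by ring
      _ = 1 := by
        rw [sub_eq_iff_eq_add]
        conv_lhs => rw [← this]
        rw [map_one]
        ring
  exact h3.dvd_of_dvd_mul_right h2

/-- a polynomial divisible by `X^T` is small at smaller radii -/
theorem wn_pow_dvd {r r' : ℝ} (hr' : 0 ≤ r') (h : r' ≤ r) (hr : 0 < r) {T : ℕ} {g : ℤ[X]}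
    (hg : (X : ℤ[X]) ^ T ∣ g) : wn r' (toR g) ≤ (r' / r) ^ T * wn r (toR g) := by
  unfold wn
  rw [Finset.mul_sum]
  refine Finset.sum_le_sum fun k hk => ?_
  have hTk : T ≤ k := by
    by_contra hlt
    push Not at hlt
    rw [Polynomial.mem_support_iff] at hk
    apply hk
    have h1 := (Polynomial.X_pow_dvd_iff.1 hg) k hlt
    simp [toR, h1]
  obtain ⟨l, rfl⟩ := Nat.exists_eq_add_of_le hTk
  have h1 : r' ^ l ≤ r ^ l := pow_le_pow_left₀ hr' h l
  have h2 : r' ^ (T + l) ≤ (r' / r) ^ T * r ^ (T + l) := by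
    rw [pow_add, pow_add, div_pow]
    have h3 : r' ^ T / r ^ T * (r ^ T * r ^ l) = r' ^ T * r ^ l := by
      field_simp
    rw [h3]
    exact mul_le_mul_of_nonneg_left h1 (by positivity)
  calc |(toR g).coeff (T + l)| * r' ^ (T + l) ≤
        |(toR g).coeff (T + l)| * ((r' / r) ^ T * r ^ (T + l)) :=
        mul_le_mul_of_nonneg_left h2 (abs_nonneg _)
    _ = _ := by ring

theorem mn_pow_dvd {r r' : ℝ} (hr' : 0 ≤ r') (h : r' ≤ r) (hr : 0 < r) {T : ℕ}
    {M : Matrix J J ℤ[X]} (hM : ∀ i j, (X : ℤ[X]) ^ T ∣ M i j) :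
    mn r' (toR.mapMatrix M) ≤ (r' / r) ^ T * mn r (toR.mapMatrix M) := by
  unfold mn
  rw [Finset.mul_sum]
  refine Finset.sum_le_sum fun i _ => ?_
  rw [Finset.mul_sum]
  exact Finset.sum_le_sum fun j _ => wn_pow_dvd hr' h hr (hM i j)

theorem wn_mono {r r' : ℝ} (hr' : 0 ≤ r') (h : r' ≤ r) (f : ℝ[X]) : wn r' f ≤ wn r f := by
  unfold wn
  exact Finset.sum_le_sum fun k _ =>
    mul_le_mul_of_nonneg_left (pow_le_pow_left₀ hr' h k) (abs_nonneg _)

theorem mn_mono {r r' : ℝ} (hr' : 0 ≤ r') (h : r' ≤ r) (M : Matrix J J ℝ[X]) :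
    mn r' M ≤ mn r M := by
  unfold mn
  exact Finset.sum_le_sum fun i _ => Finset.sum_le_sum fun j _ => wn_mono hr' h _

/-- radii without roots -/
theorem exists_radius (f : ℤ[X]) {a b : ℝ} (hab : a < b) :
    ∃ r : ℝ, a < r ∧ r < b ∧ ∀ z ∈ (f.map (Int.castRingHom ℂ)).roots, ‖z‖ ≠ r := by
  classical
  set S : Finset ℝ := (f.map (Int.castRingHom ℂ)).roots.toFinset.image fun z => ‖z‖ with hS
  have h1 : (Set.Ioo a b).Infinite := Set.Ioo_infinite hab
  obtain ⟨r, hr, hrS⟩ := h1.exists_notMem_finset S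
  refine ⟨r, hr.1, hr.2, fun z hz e => hrS ?_⟩
  rw [hS, Finset.mem_image]
  exact ⟨z, Multiset.mem_toFinset.2 hz, e⟩

/-- (PF4): two presentations of the same module with the same determinant, congruent modulo `X^T`
and bounded in a norm `r > r'`, are related by a matrix which is small at `r'` -/
theorem small_ratio {r r' : ℝ} (hr' : 0 < r') (hrr : r' < r) {f : ℤ[X]} (hf0 : f.coeff 0 = 1)
    (h : ∀ z ∈ (f.map (Int.castRingHom ℂ)).roots, ‖z‖ ≠ r') (B : ℝ) {ε : ℝ} (hε : 0 < ε) :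
    ∃ T₀ : ℕ, ∀ T, T₀ ≤ T → ∀ (U : SpecialLinearGroup J ℤ[X]) (M M' : Matrix J J ℤ[X]),
      M.det = f → (U : Matrix J J ℤ[X]) * M = M' → mn r (toR.mapMatrix M) ≤ B →
      mn r (toR.mapMatrix M') ≤ B → (∀ i j, (X : ℤ[X]) ^ T ∣ M' i j - M i j) →
      nz r' U ≤ ε ∧ ∀ i j, (X : ℤ[X]) ^ T ∣ (U : Matrix J J ℤ[X]) i j - (1 : Matrix J J ℤ[X]) i j := by
  have hf : f ≠ 0 := by
    rintro rfl
    simp at hf0
  obtain ⟨C, hC, hN⟩ := norm_div (J := J) hr'.le hf h B
  have hq0 : 0 ≤ r' / r := by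
    have : 0 < r := hr'.trans hrr
    positivity
  have hq1 : r' / r < 1 := (div_lt_one (hr'.trans hrr)).2 hrr
  obtain ⟨T₀, hT₀⟩ := exists_pow_lt_of_lt_one
    (show 0 < ε / (C * (B + B) + 1 + |C * (B + B)|) from by
      have h1 : 0 < C * (B + B) + 1 + |C * (B + B)| := by
        have := neg_abs_le (C * (B + B))
        linarith
      positivity) hq1
  refine ⟨T₀, fun T hT U M M' hM hU hMB hMB' hd => ?_⟩
  have e1 : ((U : Matrix J J ℤ[X]) - 1) * M = M' - M := by
    rw [Matrix.sub_mul, Matrix.one_mul, hU]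
  have hd' : ∀ i j, (X : ℤ[X]) ^ T ∣ (((U : Matrix J J ℤ[X]) - 1) * M) i j := by
    intro i j
    rw [e1, Matrix.sub_apply]
    exact hd i j
  refine ⟨?_, fun i j => ?_⟩
  · have h1 := hN M hM ((mn_mono hr'.le hrr.le _).trans hMB) ((U : Matrix J J ℤ[X]) - 1)
    have e2 : nz r' U = mn r' (toR.mapMatrix ((U : Matrix J J ℤ[X]) - 1)) := by
      unfold nz nu
      congr 1
      rw [map_sub, map_one]
      rfl
    rw [e2]
    refine h1.trans ?_
    have h2 := mn_pow_dvd hr'.le hrr.le (hr'.trans hrr) hd'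
    have h3 : mn r (toR.mapMatrix (((U : Matrix J J ℤ[X]) - 1) * M)) ≤ B + B := by
      rw [e1, map_sub, sub_eq_add_neg]
      refine (mn_add_le (hr'.trans hrr).le _ _).trans ?_
      rw [mn_neg]
      exact add_le_add hMB' hMB
    have h4 : (r' / r) ^ T ≤ (r' / r) ^ T₀ := pow_le_pow_of_le_one hq0 hq1.le hT
    have h5 : 0 ≤ mn r (toR.mapMatrix (((U : Matrix J J ℤ[X]) - 1) * M)) :=
      mn_nonneg (hr'.trans hrr).le _
    have hBB : 0 ≤ B + B := h5.trans h3
    have hD : 0 < C * (B + B) + 1 + |C * (B + B)| := by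
      have := neg_abs_le (C * (B + B))
      linarith
    have h6 : C * mn r' (toR.mapMatrix (((U : Matrix J J ℤ[X]) - 1) * M)) ≤
        C * ((r' / r) ^ T₀ * (B + B)) := by
      refine mul_le_mul_of_nonneg_left (h2.trans ?_) hC
      exact mul_le_mul h4 h3 h5 (by positivity)
    refine h6.trans ?_
    have h7 : C * ((r' / r) ^ T₀ * (B + B)) = (r' / r) ^ T₀ * (C * (B + B)) := by ring
    rw [h7]
    have h8 : 0 ≤ C * (B + B) := by positivity
    calc (r' / r) ^ T₀ * (C * (B + B))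
        ≤ ε / (C * (B + B) + 1 + |C * (B + B)|) * (C * (B + B) + 1 + |C * (B + B)|) := by
          refine mul_le_mul hT₀.le ?_ h8 (by positivity)
          have := abs_nonneg (C * (B + B))
          linarith
      _ = ε := div_mul_cancel₀ _ hD.ne'
  · have := dvd_div (N := (U : Matrix J J ℤ[X]) - 1) hf0 hM hd' i j
    rw [Matrix.sub_apply] at this
    exact this

end mats

end Pool.Agent.SSE
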