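import Pool.Agent.SSE.E5

/-!
# SSE-E6 : Theorem E

`S(g)`: for all large `Q` every track `f` of `g` with `Q` intervals has `Conn (AAll N) r (K' r^N) 1 (f Q * g⁻¹)`.
`S(1)`: `sclG s 1 = 1`, `f` is the path itself (each `w * f a` within the ball `ρ + δ + ρ δ`).
`S(g) → S(e g)`: tracks `f` of `e g` and `f'` of `g` with the same `Q`; `k_a = f_a f'_a⁻¹ ∈ F_{2N}`, `nz k_a ≤ 3 δ + r^(2N)`-ish
(`k = (f (eg)^{s,-1}) e^s (f' g^{s,-1})⁻¹`), `k_{a+1} = w k_a w'⁻¹` (`right_path`, `Conn.mul_right`): `1 ~ k_Q = h e h'⁻¹`. Then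
`k_Q h' ~ h'`, `h = (k_Q h') e⁻¹ ~ k_Q h'` (`right_step`), `h' ~ 1`.
Induction: `Subgroup.closure_induction_left`-like (generators and inverses are both in `ALow`).
End: `u ∈ F_{2N}`, `nz u ≤ ε'`: a track of `u` is a path from `1` to `h u`, and `h ~ 1` gives `h u ~ u`.
-/

set_option autoImplicit false

namespace Pool.Agent.SSE

open Polynomial Matrix

variable {r : ℝ}

section aux

variable {J : Type} [Fintype J] [DecidableEq J]

private theorem E6_nz_eq (g : SpecialLinearGroup J ℤ[X]) : nz r g = nu r (toRG g) := rfl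

private theorem E6_nz_low (hr : 0 < r) (hr1 : r < 1) {p : J} {M : ℕ}
    {x : SpecialLinearGroup J ℤ[X]} (hx : x ∈ ALow p M) : nz r x ≤ r ^ M := by
  obtain ⟨i, j, h, d, c, _, _, hd, hc, rfl⟩ := hx
  rw [nz_transvection]
  have h1 : toR (monomial d c) = monomial d (c : ℝ) := by
    simp [toR, Polynomial.map_monomial]
  rw [h1, wn_monomial]
  have h2 : |(c : ℝ)| = 1 := by
    rcases hc with rfl | rfl <;> simp
  rw [h2, one_mul]
  exact pow_le_pow_of_le_one hr.le hr1.le hd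

/-- a track is a path from `1` to its end -/
private theorem E6_path (hr : 0 < r) {p : J} {M N : ℕ} (hMN : N ≤ M) {δ ρ : ℝ} {g : SpecialLinearGroup J ℤ[X]}
    {Q : ℕ} {f : ℕ → SpecialLinearGroup J ℤ[X]} (hf : Track r p M δ ρ g Q f)
    (hρ : 0 ≤ ρ) {η R : ℝ} (hη : 0 ≤ η) (hnz : ∀ a ≤ Q, nz r (f a) ≤ η)
    (hR : ρ + η + ρ * η ≤ R) (a : ℕ) (ha : a ≤ Q) : Conn (AAll J N) r R 1 (f a) := by
  induction a with
  | zero => rw [hf.zero]; exact Conn.refl _ _ _ _
  | succ a ih =>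
    have h1 := ih (by omega)
    obtain ⟨w, hw, hw2⟩ := hf.joined a (by omega)
    have h2 : Conn (ALow p M) r (ρ + η + ρ * η) (1 * f a) (w * f a) :=
      Conn.mul_right hr.le hw (hnz a (by omega)) hρ hη
    rw [one_mul, ← hw2] at h2
    exact h1.trans (Conn.mono (ALow_sub hMN) hR h2)

/-- the bound for the elements of a track -/
private theorem E6_track_nz (hr : 0 < r) {p : J} {M : ℕ} {δ ρ : ℝ} {g : SpecialLinearGroup J ℤ[X]}
    {Q : ℕ} {f : ℕ → SpecialLinearGroup J ℤ[X]} (hf : Track r p M δ ρ g Q f)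
    {η : ℝ} (hδ : 0 ≤ δ) (hg : nz r g ≤ η) (a : ℕ) (ha : a ≤ Q) :
    nz r (f a) ≤ δ + η + δ * η := by
  have hnear := hf.near a ha
  have h0 : (0 : ℝ) ≤ (a : ℝ) / Q := by positivity
  have h1 : (a : ℝ) / Q ≤ 1 := by
    apply div_le_one_of_le₀
    · exact_mod_cast ha
    · positivity
  have h2 : toRG (f a) = (toRG (f a) * (sclG ((a : ℝ) / Q) (toRG g))⁻¹) *
      sclG ((a : ℝ) / Q) (toRG g) := by
    rw [inv_mul_cancel_right]
  have h3 := nu_mul_le hr.le (toRG (f a) * (sclG ((a : ℝ) / Q) (toRG g))⁻¹)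
    (sclG ((a : ℝ) / Q) (toRG g))
  rw [← h2] at h3
  have h4 : nu r (sclG ((a : ℝ) / Q) (toRG g)) ≤ η :=
    (nu_sclG_le hr.le h0 h1 (toRG g)).trans hg
  have h5 := nu_nonneg hr.le (sclG ((a : ℝ) / Q) (toRG g))
  have h6 := nu_nonneg hr.le (toRG (f a) * (sclG ((a : ℝ) / Q) (toRG g))⁻¹)
  have h7 : nu r (toRG (f a) * (sclG ((a : ℝ) / Q) (toRG g))⁻¹) *
      nu r (sclG ((a : ℝ) / Q) (toRG g)) ≤ δ * η := mul_le_mul hnear h4 h5 hδ
  have h8 : nz r (f a) = nu r (toRG (f a)) := rfl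
  linarith

/-- the end error is within `δ` -/
private theorem E6_end_near {p : J} {M : ℕ} {δ ρ : ℝ} {g : SpecialLinearGroup J ℤ[X]}
    {Q : ℕ} (hQ : 0 < Q) {f : ℕ → SpecialLinearGroup J ℤ[X]} (hf : Track r p M δ ρ g Q f) :
    nz r (f Q * g⁻¹) ≤ δ := by
  have h := hf.near Q le_rfl
  have hQ' : (Q : ℝ) ≠ 0 := by exact_mod_cast hQ.ne'
  rw [div_self hQ', sclG_one] at h
  rw [E6_nz_eq, map_mul, map_inv]
  exact h

end aux

/-- the end error of every fine track is joined to `1` in a small ball -/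
theorem track_end (hr : 0 < r) (hr1 : r < 1) (J : Type) [Fintype J] [DecidableEq J] :
    ∃ K : ℝ, 1 ≤ K ∧ ∃ K' : ℝ, 1 ≤ K' ∧ ∃ N₀ : ℕ, 0 < N₀ ∧ ∀ N ≥ N₀, ∀ p q : J, q ≠ p →
      ∀ g ∈ FLow p (2 * N),
      (∃ Q₀ : ℕ, 0 < Q₀ ∧ ∀ Q ≥ Q₀, ∃ f, Track r p (2 * N) (K * r ^ (2 * N)) (100 * K * r ^ (2 * N)) g Q f) ∧
      ∃ Q₀ : ℕ, 0 < Q₀ ∧ ∀ Q ≥ Q₀, ∀ f,
        Track r p (2 * N) (K * r ^ (2 * N)) (100 * K * r ^ (2 * N)) g Q f →
        Conn (AAll J N) r (K' * r ^ N) 1 (f Q * g⁻¹) := by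
  obtain ⟨K, hK, M₀, hM₀, hT⟩ := exists_track hr hr1 J
  have hK0 : 0 < K := by linarith
  obtain ⟨n₀, hn₀⟩ := exists_pow_lt_of_lt_one (show (0 : ℝ) < 1 / (10 ^ 6 * K) by positivity) hr1
  refine ⟨K, hK, 200, by norm_num, M₀ + n₀, by omega, ?_⟩
  intro N hN p q hqp
  have hex : ∀ g ∈ FLow p (2 * N), ∃ Q₀ : ℕ, 0 < Q₀ ∧ ∀ Q ≥ Q₀, ∃ f,
      Track r p (2 * N) (K * r ^ (2 * N)) (100 * K * r ^ (2 * N)) g Q f := by
    intro g hg
    exact hT (2 * N) (by omega) p q hqp g (FLow_Lo hg)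
  -- numbers
  set R : ℝ := r ^ N with hRdef
  have hR0 : 0 < R := by positivity
  have hRn : R ≤ r ^ n₀ := pow_le_pow_of_le_one hr.le hr1.le (by omega)
  have hKR : K * R ≤ 1 / 10 ^ 6 := by
    have h1 : R < 1 / (10 ^ 6 * K) := lt_of_le_of_lt hRn hn₀
    rw [lt_div_iff₀ (by positivity)] at h1
    rw [le_div_iff₀ (by positivity)]
    nlinarith only [h1]
  have hR6 : R ≤ 1 / 10 ^ 6 := by nlinarith only [hKR, hK, hR0]
  have hr2 : r ^ (2 * N) = R * R := by rw [hRdef, ← pow_add]; congr 1; omega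
  set δ : ℝ := K * r ^ (2 * N) with hδdef
  have hρ : 100 * K * r ^ (2 * N) = 100 * δ := by rw [hδdef]; ring
  have hδ0 : 0 < δ := by positivity
  have hδR : δ ≤ R / 10 ^ 6 := by
    rw [hδdef, hr2]
    have : K * (R * R) = (K * R) * R := by ring
    rw [this]
    nlinarith only [hKR, hR0]
  have hβδ : r ^ (2 * N) ≤ δ := by
    rw [hδdef]
    have : 0 < r ^ (2 * N) := by positivity
    nlinarith only [this, hK]
  have hδ1 : δ ≤ 1 / 10 ^ 6 := by linarith
  have hδδ : δ * δ ≤ δ / 10 ^ 6 := by nlinarith only [hδ1, hδ0]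
  rw [hρ]
  rw [hρ] at hex
  -- the main induction
  have main : ∀ g ∈ FLow p (2 * N), ∃ Q₀ : ℕ, 0 < Q₀ ∧ ∀ Q ≥ Q₀, ∀ f,
      Track r p (2 * N) δ (100 * δ) g Q f →
      Conn (AAll J N) r (200 * R) 1 (f Q * g⁻¹) := by
    -- the inductive step
    have step : ∀ e ∈ ALow p (2 * N), ∀ g ∈ FLow p (2 * N),
        (∃ Q₀ : ℕ, 0 < Q₀ ∧ ∀ Q ≥ Q₀, ∀ f, Track r p (2 * N) δ (100 * δ) g Q f →
          Conn (AAll J N) r (200 * R) 1 (f Q * g⁻¹)) →
        ∃ Q₀ : ℕ, 0 < Q₀ ∧ ∀ Q ≥ Q₀, ∀ f, Track r p (2 * N) δ (100 * δ) (e * g) Q f →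
          Conn (AAll J N) r (200 * R) 1 (f Q * (e * g)⁻¹) := by
      intro e he g hg ⟨Q₁, hQ₁, hS⟩
      obtain ⟨Q₂, hQ₂, hE⟩ := hex g hg
      refine ⟨Q₁ + Q₂, by omega, ?_⟩
      intro Q hQ f hf
      obtain ⟨f', hf'⟩ := hE Q (by omega)
      have hS' := hS Q (by omega) f' hf'
      have hQpos : 0 < Q := by omega
      have heM : e ∈ FLow p (2 * N) := Subgroup.subset_closure he
      have hnze : nz r e ≤ δ := (E6_nz_low hr hr1 he).trans hβδ
      -- the comparison elements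
      have hkmem : ∀ a ≤ Q, f a * (f' a)⁻¹ ∈ FLow p (2 * N) := fun a ha =>
        (FLow p (2 * N)).mul_mem (hf.mem a ha) ((FLow p (2 * N)).inv_mem (hf'.mem a ha))
      have hknz : ∀ a ≤ Q, nz r (f a * (f' a)⁻¹) ≤ 6 * δ := by
        intro a ha
        have h0 : (0 : ℝ) ≤ (a : ℝ) / Q := by positivity
        have h1 : (a : ℝ) / Q ≤ 1 := by
          apply div_le_one_of_le₀
          · exact_mod_cast ha
          · positivity
        set s : ℝ := (a : ℝ) / Q with hs
        have hA := hf.near a ha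
        have hC := hf'.near a ha
        rw [← hs] at hA hC
        have hB : nu r (sclG s (toRG e)) ≤ δ := (nu_sclG_le hr.le h0 h1 (toRG e)).trans hnze
        have hC' : nu r (toRG (f' a) * (sclG s (toRG g))⁻¹)⁻¹ ≤ 2 * δ := by
          have := nu_inv_le hr.le (g := toRG (f' a) * (sclG s (toRG g))⁻¹) (by linarith)
          linarith
        have heq : toRG (f a * (f' a)⁻¹) = (toRG (f a) * (sclG s (toRG (e * g)))⁻¹) *
            sclG s (toRG e) * (toRG (f' a) * (sclG s (toRG g))⁻¹)⁻¹ := by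
          simp only [map_mul, map_inv]
          group
        rw [E6_nz_eq, heq]
        have h2 := nu_mul_le hr.le (toRG (f a) * (sclG s (toRG (e * g)))⁻¹) (sclG s (toRG e))
        have h3 := nu_mul_le hr.le ((toRG (f a) * (sclG s (toRG (e * g)))⁻¹) * sclG s (toRG e))
          (toRG (f' a) * (sclG s (toRG g))⁻¹)⁻¹
        have n1 := nu_nonneg hr.le (toRG (f a) * (sclG s (toRG (e * g)))⁻¹)
        have n2 := nu_nonneg hr.le (sclG s (toRG e))
        have n3 := nu_nonneg hr.le ((toRG (f a) * (sclG s (toRG (e * g)))⁻¹) * sclG s (toRG e))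
        have n4 := nu_nonneg hr.le (toRG (f' a) * (sclG s (toRG g))⁻¹)⁻¹
        have h4 : nu r (toRG (f a) * (sclG s (toRG (e * g)))⁻¹) * nu r (sclG s (toRG e)) ≤ δ * δ :=
          mul_le_mul hA hB n2 hδ0.le
        have h5 : nu r ((toRG (f a) * (sclG s (toRG (e * g)))⁻¹) * sclG s (toRG e)) ≤ 3 * δ := by
          linarith
        have h6 : nu r ((toRG (f a) * (sclG s (toRG (e * g)))⁻¹) * sclG s (toRG e)) *
            nu r (toRG (f' a) * (sclG s (toRG g))⁻¹)⁻¹ ≤ (3 * δ) * (2 * δ) :=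
          mul_le_mul h5 hC' n4 (by linarith)
        have h7 : (3 * δ) * (2 * δ) = 6 * (δ * δ) := by ring
        linarith
      -- the path of the comparison elements
      have hpath : ∀ a ≤ Q, Conn (AAll J N) r (150 * R) 1 (f a * (f' a)⁻¹) := by
        intro a
        induction a with
        | zero =>
          intro _
          rw [hf.zero, hf'.zero]
          simpa using Conn.refl (AAll J N) r (150 * R) 1
        | succ a ih =>
          intro ha
          have h1 := ih (by omega)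
          obtain ⟨w, hw, hw2⟩ := hf.joined a (by omega)
          obtain ⟨w', hw', hw2'⟩ := hf'.joined a (by omega)
          set k := f a * (f' a)⁻¹ with hk
          have hkm : k ∈ FLow p (2 * N) := hkmem a (by omega)
          have hkn : nz r k ≤ 6 * δ := hknz a (by omega)
          have h2 : Conn (AAll J N) r (4 * (6 * δ + 3 * (100 * δ)) + 100 * r ^ N) k (k * w'⁻¹) :=
            right_path hr hr1 hkm hkn (by linarith) hw' (by linarith) (by linarith)
          have h3 : nz r (k * w'⁻¹) ≤ 4 * (6 * δ + 3 * (100 * δ)) + 100 * r ^ N :=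
            Conn.end_le h2 (by linarith)
          have h4 : 4 * (6 * δ + 3 * (100 * δ)) + 100 * r ^ N ≤ 101 * R := by
            rw [← hRdef]; linarith
          have h5 : Conn (ALow p (2 * N)) r (100 * δ + 101 * R + 100 * δ * (101 * R))
              (1 * (k * w'⁻¹)) (w * (k * w'⁻¹)) :=
            Conn.mul_right hr.le hw (h3.trans h4) (by linarith) (by linarith)
          have h6 : 100 * δ + 101 * R + 100 * δ * (101 * R) ≤ 150 * R := by
            have : 100 * δ * (101 * R) ≤ 1 * R := by nlinarith only [hδ1, hR0, hδ0]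
            linarith
          have h7 : f (a + 1) * (f' (a + 1))⁻¹ = w * (k * w'⁻¹) := by
            rw [hw2, hw2', hk]; group
          rw [h7]
          have h8 : Conn (AAll J N) r (150 * R) (k * w'⁻¹) (w * (k * w'⁻¹)) := by
            have := Conn.mono (ALow_sub (by omega : N ≤ 2 * N)) h6 h5
            rwa [one_mul] at this
          exact (h1.trans (Conn.mono (le_refl _) (by linarith) h2)).trans h8
      have hkQ := hpath Q le_rfl
      -- end errors
      have hh : nz r (f Q * (e * g)⁻¹) ≤ δ := E6_end_near hQpos hf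
      have hh' : nz r (f' Q * g⁻¹) ≤ δ := E6_end_near hQpos hf'
      have h1 : Conn (AAll J N) r (150 * R + δ + 150 * R * δ) (1 * (f' Q * g⁻¹))
          (f Q * (f' Q)⁻¹ * (f' Q * g⁻¹)) :=
        Conn.mul_right hr.le hkQ hh' (by linarith) hδ0.le
      have h2 : 150 * R + δ + 150 * R * δ ≤ 200 * R := by
        have : 150 * R * δ ≤ 1 * R := by nlinarith only [hδ1, hR0, hδ0]
        linarith
      have h3 : f Q * (f' Q)⁻¹ * (f' Q * g⁻¹) = f Q * (e * g)⁻¹ * e := by group
      have hmem : f Q * (e * g)⁻¹ * e ∈ FLow p (2 * N) := by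
        refine (FLow p (2 * N)).mul_mem ((FLow p (2 * N)).mul_mem (hf.mem Q le_rfl) ?_) heM
        exact (FLow p (2 * N)).inv_mem ((FLow p (2 * N)).mul_mem heM hg)
      have h4 : nz r (f Q * (e * g)⁻¹ * e) ≤ 3 * δ := by
        have a1 := nz_mul_le hr.le (f Q * (e * g)⁻¹) e
        have a2 := nz_nonneg hr.le e
        have a3 : nz r (f Q * (e * g)⁻¹) * nz r e ≤ δ * δ := mul_le_mul hh hnze a2 hδ0.le
        linarith
      have h5 : Conn (AAll J N) r (2 * (3 * δ) + 100 * r ^ N) (f Q * (e * g)⁻¹ * e)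
          (f Q * (e * g)⁻¹ * e * e⁻¹) :=
        right_step hr hr1 hmem (ALow_inv he) h4 (by linarith) (by linarith)
      rw [mul_inv_cancel_right] at h5
      have h6 : Conn (AAll J N) r (200 * R) (f' Q * g⁻¹) (f Q * (e * g)⁻¹ * e) := by
        have := Conn.mono (le_refl (AAll J N)) h2 h1
        rwa [one_mul, h3] at this
      have h7 : Conn (AAll J N) r (200 * R) (f Q * (e * g)⁻¹ * e) (f Q * (e * g)⁻¹) :=
        Conn.mono (le_refl _) (by rw [← hRdef]; linarith) h5
      exact (hS'.trans h6).trans h7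
    intro g hg
    refine Subgroup.closure_induction_left (p := fun g _ => ∃ Q₀ : ℕ, 0 < Q₀ ∧ ∀ Q ≥ Q₀, ∀ f,
      Track r p (2 * N) δ (100 * δ) g Q f → Conn (AAll J N) r (200 * R) 1 (f Q * g⁻¹))
      ?_ ?_ ?_ hg
    · refine ⟨1, one_pos, ?_⟩
      intro Q hQ f hf
      rw [inv_one, mul_one]
      have hnz : ∀ a ≤ Q, nz r (f a) ≤ δ := by
        intro a ha
        have := E6_track_nz hr hf hδ0.le (le_of_eq nz_one) a ha
        linarith
      refine E6_path hr (by omega : N ≤ 2 * N) hf (by linarith) hδ0.le hnz ?_ Q le_rfl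
      nlinarith only [hδR, hδδ, hR0, hδ0]
    · intro x hx y hy ih
      exact step x hx y hy ih
    · intro x hx y hy ih
      exact step x⁻¹ (ALow_inv hx) y hy ih
  intro g hg
  exact ⟨hex g hg, main g hg⟩

/-- **Theorem E**. A small element of `F_{2N}` (indices `≠ p`) is joined to `1` by steps of degree `≥ N` in a small ball. -/
theorem theoremE (hr : 0 < r) (hr1 : r < 1) (J : Type) [Fintype J] [DecidableEq J] {ε : ℝ}
    (hε : 0 < ε) : ∃ N₀ : ℕ, ∃ ε' : ℝ, 0 < ε' ∧ ∀ N ≥ N₀, ∀ p : J, ∀ u ∈ FLow p (2 * N),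
      nz r u ≤ ε' → Conn (AAll J N) r ε 1 u := by
  obtain ⟨K, hK, K', hK', N₁, hN₁, hT⟩ := track_end hr hr1 J
  have hK0 : 0 < K := by linarith
  have hK0' : 0 < K' := by linarith
  set m : ℝ := min ε 1 with hm
  have hm0 : 0 < m := by rw [hm]; exact lt_min hε one_pos
  have hmε : m ≤ ε := min_le_left _ _
  have hm1 : m ≤ 1 := min_le_right _ _
  obtain ⟨n₀, hn₀⟩ := exists_pow_lt_of_lt_one (show (0 : ℝ) < m / (1000 * (K + K')) by positivity) hr1
  refine ⟨N₁ + n₀, m / 8, by positivity, ?_⟩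
  intro N hN p u hu hnu
  by_cases hq : ∃ q : J, q ≠ p
  · obtain ⟨q, hqp⟩ := hq
    obtain ⟨⟨Q₁, hQ₁, h1⟩, Q₂, hQ₂, h2⟩ := hT N (by omega) p q hqp u hu
    obtain ⟨f, hf⟩ := h1 (Q₁ + Q₂) (by omega)
    have h3 := h2 (Q₁ + Q₂) (by omega) f hf
    set Q := Q₁ + Q₂ with hQ
    set R : ℝ := r ^ N with hRdef
    have hR0 : 0 < R := by positivity
    have hRn : R ≤ r ^ n₀ := pow_le_pow_of_le_one hr.le hr1.le (by omega)
    have hRm : R * (1000 * (K + K')) ≤ m := by
      have : R < m / (1000 * (K + K')) := lt_of_le_of_lt hRn hn₀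
      rw [lt_div_iff₀ (by positivity)] at this
      exact this.le
    have hr2 : r ^ (2 * N) = R * R := by rw [hRdef, ← pow_add]; congr 1; omega
    have hKR : 1000 * (K * R) ≤ m := by nlinarith only [hRm, hR0, hK0, hK0']
    have hKR' : 1000 * (K' * R) ≤ m := by nlinarith only [hRm, hR0, hK0, hK0']
    have hR1 : R ≤ 1 := by nlinarith only [hKR, hK, hR0, hm1]
    set δ : ℝ := K * r ^ (2 * N) with hδdef
    have hρ : 100 * K * r ^ (2 * N) = 100 * δ := by rw [hδdef]; ring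
    rw [hρ] at hf
    have hδ0 : 0 < δ := by positivity
    have hδm : 1000 * δ ≤ m := by
      have : δ ≤ K * R := by
        rw [hδdef, hr2]
        have hKR0 : 0 < K * R := by positivity
        nlinarith only [hR1, hKR0]
      linarith
    have hm8 : 0 < m / 8 := by positivity
    -- the track
    have hnz : ∀ a ≤ Q, nz r (f a) ≤ m / 4 := by
      intro a ha
      have := E6_track_nz hr hf hδ0.le hnu a ha
      have h4 : δ * (m / 8) ≤ δ * 1 := by
        apply mul_le_mul_of_nonneg_left _ hδ0.le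
        linarith
      linarith
    have hp : Conn (AAll J N) r ε 1 (f Q) := by
      refine E6_path hr (by omega : N ≤ 2 * N) hf (by linarith) (by linarith) hnz ?_ Q le_rfl
      have h4 : 100 * δ * (m / 4) ≤ 100 * δ * 1 := by
        apply mul_le_mul_of_nonneg_left _ (by linarith)
        linarith
      linarith
    -- the end
    have h4 : Conn (AAll J N) r (K' * R + m / 8 + K' * R * (m / 8)) (1 * u) (f Q * u⁻¹ * u) :=
      Conn.mul_right hr.le h3 hnu (by positivity) hm8.le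
    rw [one_mul, inv_mul_cancel_right] at h4
    have h5 : K' * R + m / 8 + K' * R * (m / 8) ≤ ε := by
      have h6 : K' * R * (m / 8) ≤ K' * R * 1 := by
        apply mul_le_mul_of_nonneg_left _ (by positivity)
        linarith
      linarith
    have h6 := Conn.symm (fun x hx => AAll_inv hx) (Conn.mono (le_refl _) h5 h4)
    exact hp.trans h6
  · push Not at hq
    have hempty : ALow p (2 * N) = ∅ := by
      apply Set.eq_empty_of_forall_notMem
      rintro x ⟨i, j, h, d, c, hi, _, _, _, _⟩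
      exact hi (hq i)
    have hu1 : u = 1 := by
      have : u ∈ Subgroup.closure (ALow p (2 * N)) := hu
      rw [hempty, Subgroup.closure_empty, Subgroup.mem_bot] at this
      exact this
    rw [hu1]
    exact Conn.refl _ _ _ _

end Pool.Agent.SSE
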