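import Pool.Agent.SSE.KEmb

/-!
# SSE-K5C : Higman linearisation

`exists_linear`: induction on a bound `d ≥ 1` for the degrees of the entries. For `d ≥ 2` take `J' = J ⊕ J`, `f = inl`, and (blocks)
`[1, -X^(d-1) U_d; 0, 1] * [U, 0; 0, 1] * [1, 0; X, 1] = [U - X^d U_d, -X^(d-1) U_d; X, 1]`, `U_d` the matrix of the coefficients of `X^d`: degrees `≤ d - 1`.
The unitriangular block matrices are products of transvections (`block_mem`). Compose with `emb_trans`, `map_EG`.
-/

set_option autoImplicit false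

namespace Pool.Agent.SSE

open Polynomial Matrix

variable {J : Type} [Fintype J] [DecidableEq J]

/-- the block unitriangular element `[1, M; 0, 1]` -/
private noncomputable def K5cUp {K : Type} [Fintype K] [DecidableEq K] (M : Matrix J K ℤ[X]) :
    SpecialLinearGroup (J ⊕ K) ℤ[X] :=
  ⟨Matrix.fromBlocks 1 M 0 1, by
    rw [Matrix.det_fromBlocks_zero₂₁, Matrix.det_one, Matrix.det_one, mul_one]⟩

/-- the block unitriangular element `[1, 0; M, 1]` -/
private noncomputable def K5cLo {K : Type} [Fintype K] [DecidableEq K] (M : Matrix K J ℤ[X]) :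
    SpecialLinearGroup (J ⊕ K) ℤ[X] :=
  ⟨Matrix.fromBlocks 1 0 M 1, by
    rw [Matrix.det_fromBlocks_zero₁₂, Matrix.det_one, Matrix.det_one, mul_one]⟩

private theorem K5cUp_mem {K : Type} [Fintype K] [DecidableEq K] (M : Matrix J K ℤ[X]) :
    K5cUp M ∈ EG (Set.univ : Set (J ⊕ K)) := by
  refine Matrix.induction_on' (P := fun M => K5cUp M ∈ EG (Set.univ : Set (J ⊕ K))) M ?_ ?_ ?_
  · have h1 : K5cUp (0 : Matrix J K ℤ[X]) = 1 := by
      apply Subtype.ext
      change Matrix.fromBlocks 1 0 0 1 = (1 : Matrix (J ⊕ K) (J ⊕ K) ℤ[X])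
      exact Matrix.fromBlocks_one
    rw [h1]
    exact one_mem _
  · intro p q hp hq
    have h1 : K5cUp (p + q) = K5cUp p * K5cUp q := by
      apply Subtype.ext
      change Matrix.fromBlocks 1 (p + q) 0 1 =
        Matrix.fromBlocks 1 p 0 1 * Matrix.fromBlocks 1 q 0 1
      rw [Matrix.fromBlocks_multiply]
      simp [add_comm]
    rw [h1]
    exact mul_mem hp hq
  · intro i j c
    have hij : (Sum.inl i : J ⊕ K) ≠ Sum.inr j := Sum.inl_ne_inr
    refine Subgroup.subset_closure ⟨Sum.inl i, Sum.inr j, hij, c, trivial, trivial, ?_⟩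
    apply Subtype.ext
    change Matrix.fromBlocks 1 (Matrix.single i j c) 0 1 =
      (1 : Matrix (J ⊕ K) (J ⊕ K) ℤ[X]) + Matrix.single (Sum.inl i) (Sum.inr j) c
    ext a b
    rcases a with a | a <;> rcases b with b | b <;>
      simp [Matrix.fromBlocks, Matrix.single, Matrix.one_apply]

private theorem K5cLo_mem {K : Type} [Fintype K] [DecidableEq K] (M : Matrix K J ℤ[X]) :
    K5cLo M ∈ EG (Set.univ : Set (J ⊕ K)) := by
  refine Matrix.induction_on' (P := fun M => K5cLo M ∈ EG (Set.univ : Set (J ⊕ K))) M ?_ ?_ ?_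
  · have h1 : K5cLo (0 : Matrix K J ℤ[X]) = 1 := by
      apply Subtype.ext
      change Matrix.fromBlocks 1 0 0 1 = (1 : Matrix (J ⊕ K) (J ⊕ K) ℤ[X])
      exact Matrix.fromBlocks_one
    rw [h1]
    exact one_mem _
  · intro p q hp hq
    have h1 : K5cLo (p + q) = K5cLo p * K5cLo q := by
      apply Subtype.ext
      change Matrix.fromBlocks 1 0 (p + q) 1 =
        Matrix.fromBlocks 1 0 p 1 * Matrix.fromBlocks 1 0 q 1
      rw [Matrix.fromBlocks_multiply]
      simp
    rw [h1]
    exact mul_mem hp hq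
  · intro i j c
    have hij : (Sum.inr i : J ⊕ K) ≠ Sum.inl j := Sum.inr_ne_inl
    refine Subgroup.subset_closure ⟨Sum.inr i, Sum.inl j, hij, c, trivial, trivial, ?_⟩
    apply Subtype.ext
    change Matrix.fromBlocks 1 0 (Matrix.single i j c) 1 =
      (1 : Matrix (J ⊕ K) (J ⊕ K) ℤ[X]) + Matrix.single (Sum.inr i) (Sum.inl j) c
    ext a b
    rcases a with a | a <;> rcases b with b | b <;>
      simp [Matrix.fromBlocks, Matrix.single, Matrix.one_apply]

theorem block_upper_mem {K : Type} [Fintype K] [DecidableEq K] (M : Matrix J K ℤ[X])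
    {u : SpecialLinearGroup (J ⊕ K) ℤ[X]}
    (hu : (u : Matrix (J ⊕ K) (J ⊕ K) ℤ[X]) = Matrix.fromBlocks 1 M 0 1) :
    u ∈ EG (Set.univ : Set (J ⊕ K)) := by
  have h1 : u = K5cUp M := Subtype.ext hu
  rw [h1]
  exact K5cUp_mem M

theorem block_lower_mem {K : Type} [Fintype K] [DecidableEq K] (M : Matrix K J ℤ[X])
    {u : SpecialLinearGroup (J ⊕ K) ℤ[X]}
    (hu : (u : Matrix (J ⊕ K) (J ⊕ K) ℤ[X]) = Matrix.fromBlocks 1 0 M 1) :
    u ∈ EG (Set.univ : Set (J ⊕ K)) := by
  have h1 : u = K5cLo M := Subtype.ext hu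
  rw [h1]
  exact K5cLo_mem M

private theorem K5c_emb_refl (U : SpecialLinearGroup J ℤ[X]) :
    emb (Function.Embedding.refl J) U = U := by
  apply Subtype.ext
  ext1 i j
  exact emb_apply (Function.Embedding.refl J) U i j

private theorem K5c_emb_inl (U : SpecialLinearGroup J ℤ[X]) :
    (emb (Function.Embedding.inl : J ↪ J ⊕ J) U : Matrix (J ⊕ J) (J ⊕ J) ℤ[X]) =
      Matrix.fromBlocks (U : Matrix J J ℤ[X]) 0 0 1 := by
  have hr : ∀ a : J, (Sum.inr a : J ⊕ J) ∉ Set.range (Function.Embedding.inl : J ↪ J ⊕ J) := by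
    rintro a ⟨b, hb⟩
    exact Sum.inl_ne_inr hb
  ext1 a b
  rcases a with a | a
  · rcases b with b | b
    · rw [Matrix.fromBlocks_apply₁₁]
      exact emb_apply (Function.Embedding.inl : J ↪ J ⊕ J) U a b
    · rw [Matrix.fromBlocks_apply₁₂, emb_apply_right _ _ (hr b)]
      exact Matrix.one_apply_ne Sum.inl_ne_inr
  · rcases b with b | b
    · rw [Matrix.fromBlocks_apply₂₁, emb_apply_left _ _ (hr a)]
      exact Matrix.one_apply_ne Sum.inr_ne_inl
    · rw [Matrix.fromBlocks_apply₂₂, emb_apply_left _ _ (hr a)]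
      simp [Matrix.one_apply]

private theorem K5c_emb_mem {J' : Type} [Fintype J'] [DecidableEq J'] (f : J ↪ J')
    {g : SpecialLinearGroup J ℤ[X]} (hg : g ∈ EG (Set.univ : Set J)) :
    emb f g ∈ EG (Set.univ : Set J') := by
  have h1 : emb f g ∈ EG (f '' (Set.univ : Set J)) := by
    rw [← map_EG]
    exact Subgroup.mem_map_of_mem _ hg
  refine Subgroup.closure_mono ?_ h1
  rintro x ⟨i, j, h, c, -, -, rfl⟩
  exact ⟨i, j, h, c, trivial, trivial, rfl⟩

private theorem K5c_aux (d : ℕ) : ∀ (J : Type) [Fintype J] [DecidableEq J]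
    (U : SpecialLinearGroup J ℤ[X]),
    (∀ i j, ((U : Matrix J J ℤ[X]) i j).natDegree ≤ d + 1) →
    ∃ (J' : Type) (_ : Fintype J') (_ : DecidableEq J') (f : J ↪ J')
      (L R : SpecialLinearGroup J' ℤ[X]) (A B : Matrix J' J' ℤ),
      L ∈ EG (Set.univ : Set J') ∧ R ∈ EG (Set.univ : Set J') ∧
      ((L * emb f U * R : SpecialLinearGroup J' ℤ[X]) : Matrix J' J' ℤ[X]) =
        A.map (Polynomial.C : ℤ →+* ℤ[X]) + (X : ℤ[X]) • B.map (Polynomial.C : ℤ →+* ℤ[X]) := by
  induction d with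
  | zero =>
    intro J _ _ U hU
    refine ⟨J, inferInstance, inferInstance, Function.Embedding.refl J, 1, 1,
      Matrix.of fun i j => ((U : Matrix J J ℤ[X]) i j).coeff 0,
      Matrix.of fun i j => ((U : Matrix J J ℤ[X]) i j).coeff 1, one_mem _, one_mem _, ?_⟩
    rw [K5c_emb_refl, one_mul, mul_one]
    ext1 i j
    have h1 := Polynomial.eq_X_add_C_of_natDegree_le_one (hU i j)
    simp only [Matrix.add_apply, Matrix.map_apply, Matrix.smul_apply, Matrix.of_apply, smul_eq_mul]
    refine h1.trans ?_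
    ring
  | succ d ih =>
    intro J _ _ U hU
    let Ud : Matrix J J ℤ[X] :=
      Matrix.of fun i j => Polynomial.C (((U : Matrix J J ℤ[X]) i j).coeff (d + 2))
    let L1 : SpecialLinearGroup (J ⊕ J) ℤ[X] := K5cUp (-((X : ℤ[X]) ^ (d + 1) • Ud))
    let R1 : SpecialLinearGroup (J ⊕ J) ℤ[X] := K5cLo ((X : ℤ[X]) • (1 : Matrix J J ℤ[X]))
    let V : SpecialLinearGroup (J ⊕ J) ℤ[X] :=
      L1 * emb (Function.Embedding.inl : J ↪ J ⊕ J) U * R1
    have hV : (V : Matrix (J ⊕ J) (J ⊕ J) ℤ[X]) = Matrix.fromBlocks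
        ((U : Matrix J J ℤ[X]) - (X : ℤ[X]) ^ (d + 2) • Ud) (-((X : ℤ[X]) ^ (d + 1) • Ud))
        ((X : ℤ[X]) • (1 : Matrix J J ℤ[X])) 1 := by
      change Matrix.fromBlocks 1 (-((X : ℤ[X]) ^ (d + 1) • Ud)) 0 1 *
        (emb (Function.Embedding.inl : J ↪ J ⊕ J) U : Matrix (J ⊕ J) (J ⊕ J) ℤ[X]) *
        Matrix.fromBlocks 1 0 ((X : ℤ[X]) • (1 : Matrix J J ℤ[X])) 1 = _
      rw [K5c_emb_inl, Matrix.fromBlocks_multiply, Matrix.fromBlocks_multiply]
      have e1 : (X : ℤ[X]) ^ (d + 2) • Ud = (X : ℤ[X]) • ((X : ℤ[X]) ^ (d + 1) • Ud) := by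
        rw [smul_smul, ← pow_succ']
      rw [e1]
      congr 1
      · simp [sub_eq_add_neg]
      · simp
      · simp
      · simp
    have hVdeg : ∀ i j, ((V : Matrix (J ⊕ J) (J ⊕ J) ℤ[X]) i j).natDegree ≤ d + 1 := by
      intro a b
      rw [hV]
      rcases a with a | a
      · rcases b with b | b
        · rw [Matrix.fromBlocks_apply₁₁, Polynomial.natDegree_le_iff_coeff_eq_zero]
          intro N hN
          have e2 : ((U : Matrix J J ℤ[X]) - (X : ℤ[X]) ^ (d + 2) • Ud) a b =
              (U : Matrix J J ℤ[X]) a b -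
                X ^ (d + 2) * Polynomial.C (((U : Matrix J J ℤ[X]) a b).coeff (d + 2)) := rfl
          rw [e2, Polynomial.coeff_sub, Polynomial.coeff_X_pow_mul', Polynomial.coeff_C]
          by_cases h2 : N = d + 2
          · subst h2
            simp
          · have h3 : d + 2 < N := by omega
            have h4 : ((U : Matrix J J ℤ[X]) a b).coeff N = 0 :=
              Polynomial.coeff_eq_zero_of_natDegree_lt (lt_of_le_of_lt (hU a b) h3)
            have h5 : N - (d + 2) ≠ 0 := by omega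
            rw [h4, if_pos h3.le, if_neg h5, sub_zero]
        · rw [Matrix.fromBlocks_apply₁₂]
          have e2 : (-((X : ℤ[X]) ^ (d + 1) • Ud)) a b =
              -(X ^ (d + 1) * Polynomial.C (((U : Matrix J J ℤ[X]) a b).coeff (d + 2))) := rfl
          rw [e2, Polynomial.natDegree_neg]
          refine Polynomial.natDegree_mul_le.trans ?_
          rw [Polynomial.natDegree_X_pow, Polynomial.natDegree_C]
      · rcases b with b | b
        · rw [Matrix.fromBlocks_apply₂₁]
          by_cases h2 : a = b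
          · subst h2
            have e2 : ((X : ℤ[X]) • (1 : Matrix J J ℤ[X])) a a = X := by simp
            rw [e2]
            exact Polynomial.natDegree_X_le.trans (by omega)
          · have e2 : ((X : ℤ[X]) • (1 : Matrix J J ℤ[X])) a b = 0 := by
              rw [Matrix.smul_apply, Matrix.one_apply_ne h2, smul_zero]
            rw [e2, Polynomial.natDegree_zero]
            exact Nat.zero_le _
        · rw [Matrix.fromBlocks_apply₂₂]
          by_cases h2 : a = b
          · subst h2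
            rw [Matrix.one_apply_eq, Polynomial.natDegree_one]
            exact Nat.zero_le _
          · rw [Matrix.one_apply_ne h2, Polynomial.natDegree_zero]
            exact Nat.zero_le _
    obtain ⟨J', i1, i2, f, L2, R2, A, B, hL, hR, hAB⟩ := ih (J ⊕ J) V hVdeg
    refine ⟨J', i1, i2, (Function.Embedding.inl : J ↪ J ⊕ J).trans f, L2 * emb f L1,
      emb f R1 * R2, A, B, mul_mem hL (K5c_emb_mem f (K5cUp_mem _)),
      mul_mem (K5c_emb_mem f (K5cLo_mem _)) hR, ?_⟩
    rw [← hAB, ← emb_trans]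
    have e3 : L2 * emb f L1 * emb f (emb (Function.Embedding.inl : J ↪ J ⊕ J) U) *
        (emb f R1 * R2) = L2 * emb f V * R2 := by
      have e4 : emb f V = emb f L1 * emb f (emb (Function.Embedding.inl : J ↪ J ⊕ J) U) *
          emb f R1 := by
        rw [← map_mul, ← map_mul]
      rw [e4]
      simp only [mul_assoc]
    rw [e3]

theorem exists_linear (U : SpecialLinearGroup J ℤ[X]) :
    ∃ (J' : Type) (_ : Fintype J') (_ : DecidableEq J') (f : J ↪ J')
      (L R : SpecialLinearGroup J' ℤ[X]) (A B : Matrix J' J' ℤ),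
      L ∈ EG (Set.univ : Set J') ∧ R ∈ EG (Set.univ : Set J') ∧
      ((L * emb f U * R : SpecialLinearGroup J' ℤ[X]) : Matrix J' J' ℤ[X]) =
        A.map (Polynomial.C : ℤ →+* ℤ[X]) + (X : ℤ[X]) • B.map (Polynomial.C : ℤ →+* ℤ[X]) := by
  refine K5c_aux (∑ i, ∑ j, ((U : Matrix J J ℤ[X]) i j).natDegree) J U ?_
  intro i j
  refine le_trans ?_ (Nat.le_succ _)
  refine le_trans ?_ (Finset.single_le_sum
    (f := fun i => ∑ j, ((U : Matrix J J ℤ[X]) i j).natDegree) (fun _ _ => Nat.zero_le _)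
    (Finset.mem_univ i))
  exact Finset.single_le_sum (f := fun j => ((U : Matrix J J ℤ[X]) i j).natDegree)
    (fun _ _ => Nat.zero_le _) (Finset.mem_univ j)

end Pool.Agent.SSE
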