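import Mathlib

/-!
# SSE-K5D : `det (1 + X N) = 1` implies `N` nilpotent

`Matrix.charpolyRev` (`det (1 - X M)`), `Matrix.reverse_charpoly`: `M = -N` has `charpoly.reverse = 1`, so `charpoly = X^n` (monic, all lower coefficients are the
coefficients of the reverse), Cayley-Hamilton `Matrix.aeval_self_charpoly`: `M^n = 0`.
-/

set_option autoImplicit false

namespace Pool.Agent.SSE

open Polynomial Matrix

private lemma K5d_eq_X_pow {p : ℤ[X]} (hm : p.Monic) (hr : p.reverse = 1) :
    p = X ^ p.natDegree := by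
  ext i
  rw [coeff_X_pow]
  by_cases hi : i = p.natDegree
  · rw [if_pos hi, hi]
    exact hm
  · rw [if_neg hi]
    rcases Nat.lt_or_gt_of_ne hi with hlt | hgt
    · have h1 : p.reverse.coeff (p.natDegree - i) = p.coeff i := by
        rw [coeff_reverse, revAt_le (Nat.sub_le _ _)]
        congr 1
        omega
      rw [← h1, hr, coeff_one, if_neg]
      omega
    · exact coeff_eq_zero_of_natDegree_lt hgt

theorem nilpotent_of_det {J : Type} [Fintype J] [DecidableEq J] {N : Matrix J J ℤ}
    (h : (1 + (X : ℤ[X]) • N.map (Polynomial.C : ℤ →+* ℤ[X])).det = 1) : IsNilpotent N := by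
  have h1 : (-N).charpolyRev = 1 := by
    rw [← h]
    unfold Matrix.charpolyRev
    congr 1
    ext1 i j
    simp
  have h2 : (-N).charpoly.reverse = 1 := by
    rw [Matrix.reverse_charpoly, h1]
  have h3 := K5d_eq_X_pow (Matrix.charpoly_monic (-N)) h2
  have h4 := Matrix.aeval_self_charpoly (-N)
  rw [h3] at h4
  simp only [map_pow, aeval_X] at h4
  have h5 : IsNilpotent (-N) := ⟨_, h4⟩
  rwa [isNilpotent_neg_iff] at h5

end Pool.Agent.SSE
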