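import Pool.Agent.SSE.K5b
import Pool.Agent.SSE.K5c
import Pool.Agent.SSE.K5d

/-!
# SSE-K5 : `K_1` of `ℤ[X]` is stably trivial

`exists_linear`: `L * emb f U * R = A + X B =: V`. `det V = 1`, so `det A = 1` (value at `0`), `A' : SL(ℤ)`, `cstG A' ∈ EG univ` (`mem_EZ` with `S = univ`,
`cst_mem`), `(cstG A')⁻¹ V = 1 + X N`, `N = A⁻¹ B`, `nilpotent_of_det`, `one_add_nilp_mem` (`S = univ`). So `emb f U ∈ EG univ` for some `J'`.
For every `J''` with `card J' ≤ card J''` and every injection `g : J ↪ J''` there is `e : J' ↪ J''` with `f.trans e = g` (the complement of `g(J)` has at least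
`card J' - card J` elements), `emb g U = emb e (emb f U)`, `map_EG`. `m := card J'`.
-/

set_option autoImplicit false

namespace Pool.Agent.SSE

open Polynomial Matrix

variable {J : Type} [Fintype J] [DecidableEq J]

omit [DecidableEq J] in
private theorem K5_embEquiv_inl {J' : Type} [Fintype J'] [DecidableEq J'] (f : J ↪ J') (x : J) :
    embEquiv f (Sum.inl x) = f x := by
  simp [embEquiv]

private theorem K5_linear_mem {V : SpecialLinearGroup J ℤ[X]} {A B : Matrix J J ℤ}
    (hV : (V : Matrix J J ℤ[X]) =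
      A.map (Polynomial.C : ℤ →+* ℤ[X]) + (X : ℤ[X]) • B.map (Polynomial.C : ℤ →+* ℤ[X])) :
    V ∈ EG (Set.univ : Set J) := by
  have hA : A.det = 1 := by
    have h1 : ((Polynomial.evalRingHom (0 : ℤ)).mapMatrix (V : Matrix J J ℤ[X])) = A := by
      rw [hV]
      ext i j
      simp
    have h2 := (RingHom.map_det (Polynomial.evalRingHom (0 : ℤ)) (V : Matrix J J ℤ[X])).symm
    rw [h1, V.det_coe, map_one] at h2
    exact h2
  let A' : SpecialLinearGroup J ℤ := ⟨A, hA⟩
  have hcst : ∀ g : SpecialLinearGroup J ℤ, (cstG g : Matrix J J ℤ[X]) =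
      (g : Matrix J J ℤ).map (Polynomial.C : ℤ →+* ℤ[X]) := fun g => rfl
  have hAm : cstG A' ∈ EG (Set.univ : Set J) := by
    have h1 : A' ∈ EZ (Finset.univ : Finset J) :=
      mem_EZ fun a ha => absurd (Finset.mem_univ a) ha
    have h2 := cst_mem h1
    rwa [Finset.coe_univ] at h2
  let N : Matrix J J ℤ := ((A'⁻¹ : SpecialLinearGroup J ℤ) : Matrix J J ℤ) * B
  have hW : ((cstG A'⁻¹ * V : SpecialLinearGroup J ℤ[X]) : Matrix J J ℤ[X]) =
      1 + (X : ℤ[X]) • N.map (Polynomial.C : ℤ →+* ℤ[X]) := by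
    rw [Matrix.SpecialLinearGroup.coe_mul, hV, hcst, mul_add, Matrix.mul_smul, ← Matrix.map_mul,
      ← Matrix.map_mul]
    have h1 : ((A'⁻¹ : SpecialLinearGroup J ℤ) : Matrix J J ℤ) * A = 1 := by
      have h2 : (A'⁻¹ * A' : SpecialLinearGroup J ℤ) = 1 := inv_mul_cancel A'
      have h3 := congrArg (fun g : SpecialLinearGroup J ℤ => (g : Matrix J J ℤ)) h2
      exact h3
    rw [h1]
    congr 1
    exact Matrix.map_one _ (map_zero _) (map_one _)
  have hdet : (1 + (X : ℤ[X]) • N.map (Polynomial.C : ℤ →+* ℤ[X])).det = 1 := by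
    rw [← hW]
    exact Matrix.SpecialLinearGroup.det_coe _
  have hWm : cstG A'⁻¹ * V ∈ EG (Set.univ : Set J) := by
    have h2 := one_add_nilp_mem (S := Finset.univ) (nilpotent_of_det hdet)
      (fun a b h => by
        rcases h with h | h
        · exact absurd (Finset.mem_univ a) h
        · exact absurd (Finset.mem_univ b) h) hW
    rwa [Finset.coe_univ] at h2
  have hVe : V = cstG A' * (cstG A'⁻¹ * V) := by
    rw [map_inv, mul_inv_cancel_left]
  rw [hVe]
  exact mul_mem hAm hWm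

omit [DecidableEq J] in
private theorem K5_extend {J₀ J' : Type} [Fintype J₀] [DecidableEq J₀] [Fintype J']
    [DecidableEq J'] (f : J ↪ J₀) (g : J ↪ J')
    (h : Fintype.card J + Fintype.card J₀ ≤ Fintype.card J') : ∃ e : J₀ ↪ J', f.trans e = g := by
  classical
  have h1 : Fintype.card J + Fintype.card ↥((Set.range g)ᶜ) = Fintype.card J' := by
    rw [← Fintype.card_congr (embEquiv g), Fintype.card_sum]
  have h2 : Fintype.card J₀ ≤ Fintype.card ↥((Set.range g)ᶜ) := by omega
  obtain ⟨i0⟩ := Function.Embedding.nonempty_of_card_le h2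
  let i : ↥((Set.range f)ᶜ) ↪ ↥((Set.range g)ᶜ) := (Function.Embedding.subtype _).trans i0
  refine ⟨((embEquiv f).symm.toEmbedding.trans
    ((Function.Embedding.refl J).sumMap i)).trans (embEquiv g).toEmbedding, ?_⟩
  ext x
  have h3 : (embEquiv f).symm (f x) = Sum.inl x := by
    rw [Equiv.symm_apply_eq, K5_embEquiv_inl]
  change embEquiv g (Sum.map (Function.Embedding.refl J) i ((embEquiv f).symm (f x))) = g x
  rw [h3]
  exact K5_embEquiv_inl g x

theorem stably_elementary (U : SpecialLinearGroup J ℤ[X]) :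
    ∃ m : ℕ, ∀ (J' : Type) [Fintype J'] [DecidableEq J'] (f : J ↪ J'),
      Fintype.card J + m ≤ Fintype.card J' → emb f U ∈ EG (Set.univ : Set J') := by
  obtain ⟨J₀, _, _, f₀, L, R, A, B, hL, hR, hV⟩ := exists_linear U
  have hVm := K5_linear_mem hV
  have hU : emb f₀ U ∈ EG (Set.univ : Set J₀) := by
    have h1 : emb f₀ U = L⁻¹ * (L * emb f₀ U * R) * R⁻¹ := by group
    rw [h1]
    exact mul_mem (mul_mem (inv_mem hL) hVm) (inv_mem hR)
  refine ⟨Fintype.card J₀, fun J' _ _ g hg => ?_⟩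
  obtain ⟨e, he⟩ := K5_extend f₀ g hg
  rw [← he, ← emb_trans]
  have h2 : emb e (emb f₀ U) ∈ (EG (Set.univ : Set J₀)).map (emb e) :=
    Subgroup.mem_map_of_mem _ hU
  rw [map_EG] at h2
  exact EG_mono (Set.subset_univ _) h2

end Pool.Agent.SSE
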