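import Pool.Agent.SSE.V3
import Pool.Agent.SSE.E6
import Pool.Agent.SSE.K5
import Pool.Agent.SSE.K4

/-!
# SSE project, part FrT: the frame theorem and the weight change

`frame_thm`: in a frame, two small coefficient matrices which differ by an element of `F_{2M}`
(one spare index) have equivalent presentations; the constants depend only on `r, J, a, C, N`.
`frame_thm_ER`: the same for an element of `ER S' (4M)` (two spare indices).
`white`: the Whitehead lemma for two disjoint embeddings.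
-/

set_option autoImplicit false

open scoped BigOperators
open Matrix Polynomial

namespace Pool.Agent.SSE

section frt

variable {J : Type} [Fintype J] [DecidableEq J]

theorem frt_nz_div {r : ℝ} (hr : 0 ≤ r) {g g' : SpecialLinearGroup J ℤ[X]} {ε : ℝ} (hε : 0 ≤ ε)
    (hε1 : ε ≤ 1 / 2) (h : nz r g ≤ ε) (h' : nz r g' ≤ ε) : nz r (g' * g⁻¹) ≤ 4 * ε := by
  have h1 := nz_inv_le hr (h.trans hε1)
  have h2 := nz_mul_le hr g' g⁻¹
  have h3 := nz_nonneg hr g'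
  have h4 := nz_nonneg hr g⁻¹
  have h5 : nz r g⁻¹ ≤ 2 * ε := by linarith
  nlinarith [mul_le_mul h' h5 h4 hε]

/-- **Frame theorem.** -/
theorem frame_thm {r : ℝ} (hr : 0 < r) (hr1 : r < 1) (J : Type) [Fintype J] [DecidableEq J]
    {a C : ℝ} (ha : 0 < a) (hC : 0 ≤ C) (N : ℕ) :
    ∃ N₀ : ℕ, ∃ ε : ℝ, 0 < ε ∧ ∀ M ≥ N₀, ∀ (κ : Type) [Fintype κ]
      (P : Matrix (κ ⊕ J) (κ ⊕ J) ℕ[X]) (S : Set κ) (D : Set (κ ⊕ J))
      (q : J → κ ⊕ J → PowerSeries ℤ), Frame P S D r a C N q →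
      ∀ (g g' : SpecialLinearGroup J ℤ[X]) (p : J), g' * g⁻¹ ∈ FLow p (2 * M) →
      nz r g ≤ ε → nz r g' ≤ ε → Cg N g →
      ∀ (S1 S2 : Set κ) (Q Q' : Matrix (κ ⊕ J) (κ ⊕ J) ℕ[X]),
        Fr P S1 (g : Matrix J J ℤ[X]) Q → Fr P S2 (g' : Matrix J J ℤ[X]) Q' → PEqv Q Q' := by
  set ρ : ℝ := min (a / (C + 1)) 1 with hρ
  have hC1 : 0 < C + 1 := by linarith
  have hρ0 : 0 < ρ := lt_min (by positivity) one_pos
  have hρ1 : ρ ≤ 1 := min_le_right _ _
  have hρa : ρ * (C + 1) ≤ a := by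
    have : ρ ≤ a / (C + 1) := min_le_left _ _
    calc ρ * (C + 1) ≤ a / (C + 1) * (C + 1) := mul_le_mul_of_nonneg_right this hC1.le
      _ = a := div_mul_cancel₀ a hC1.ne'
  obtain ⟨N₀, ε', hε', hT⟩ := theoremE hr hr1 J (ε := ρ / 4) (by positivity)
  refine ⟨max N₀ N, min (ρ / 4) (ε' / 4), lt_min (by positivity) (by positivity), ?_⟩
  intro M hM κ _ P S D q F g g' p hp hg hg' hgN S1 S2 Q Q' hQ hQ'
  set ε : ℝ := min (ρ / 4) (ε' / 4) with hε
  have hε0 : 0 < ε := lt_min (by positivity) (by positivity)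
  have hε1 : ε ≤ ρ / 4 := min_le_left _ _
  have hε2 : ε ≤ ε' / 4 := min_le_right _ _
  have hnz : nz r (g' * g⁻¹) ≤ ε' :=
    (frt_nz_div hr.le hε0.le (by linarith) hg hg').trans (by linarith)
  have hc := hT M (le_trans (le_max_left _ _) hM) p _ hp hnz
  have hc2 := hc.mul_right hr.le hg (by positivity) hε0.le
  rw [one_mul, inv_mul_cancel_right] at hc2
  have hc3 : Conn (AAll J N) r ρ g g' := by
    refine Conn.mono ?_ ?_ hc2
    · rintro x ⟨i, j, h, d, c, hd, hcc, rfl⟩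
      exact ⟨i, j, h, d, c, le_trans (le_trans (le_max_right _ _) hM) hd, hcc, rfl⟩
    · nlinarith
  exact F.conn hρa hc3 hgN hQ hQ'

/-- **Frame theorem**, relative elementary form: two spare indices `p, p'`. -/
theorem frame_thm_ER {r : ℝ} (hr : 0 < r) (hr1 : r < 1) (J : Type) [Fintype J] [DecidableEq J]
    {a C : ℝ} (ha : 0 < a) (hC : 0 ≤ C) (N : ℕ) :
    ∃ N₀ : ℕ, ∃ ε : ℝ, 0 < ε ∧ ∀ M ≥ N₀, ∀ (κ : Type) [Fintype κ]
      (P : Matrix (κ ⊕ J) (κ ⊕ J) ℕ[X]) (S : Set κ) (D : Set (κ ⊕ J))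
      (q : J → κ ⊕ J → PowerSeries ℤ), Frame P S D r a C N q →
      ∀ (g g' : SpecialLinearGroup J ℤ[X]) (T : Set J) (p p' : J), p ∉ T → p' ∉ T → p ≠ p' →
      g' * g⁻¹ ∈ ER T (4 * M) → nz r g ≤ ε → nz r g' ≤ ε → Cg N g →
      ∀ (S1 S2 : Set κ) (Q Q' : Matrix (κ ⊕ J) (κ ⊕ J) ℕ[X]),
        Fr P S1 (g : Matrix J J ℤ[X]) Q → Fr P S2 (g' : Matrix J J ℤ[X]) Q' → PEqv Q Q' := by
  obtain ⟨N₀, ε, hε, h⟩ := frame_thm hr hr1 J ha hC N
  refine ⟨N₀, ε, hε, ?_⟩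
  intro M hM κ _ P S D q F g g' T p p' hp hp' hpp hER hg hg' hgN S1 S2 Q Q' hQ hQ'
  refine h M hM κ P S D q F g g' p ?_ hg hg' hgN S1 S2 Q Q' hQ hQ'
  have h1 : 4 * M = 2 * (2 * M) := by ring
  rw [h1] at hER
  have h2 := tits hp' (2 * M) hER
  have h3 : FG (insert p' T) (2 * M) ≤ FLow p (2 * M) := by
    refine Subgroup.closure_mono ?_
    rintro x ⟨i, j, hij, d, c, hi, hj, hd, hc, rfl⟩
    have hne : ∀ i : J, i ∈ insert p' T → i ≠ p := by
      rintro i (rfl | hi) rfl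
      · exact hpp rfl
      · exact hp hi
    exact ⟨i, j, hij, d, c, hne i hi, hne j hj, hd, hc, rfl⟩
  exact h3 h2

end frt

section white

variable {A B : Type} [Fintype A] [DecidableEq A] [Fintype B] [DecidableEq B]

/-- upper block unipotent -/
noncomputable def wup (M : Matrix A B ℤ[X]) : SpecialLinearGroup (A ⊕ B) ℤ[X] :=
  ⟨fromBlocks 1 M 0 1, by rw [det_fromBlocks_zero₂₁, det_one, det_one, mul_one]⟩

/-- lower block unipotent -/
noncomputable def wlo (M : Matrix B A ℤ[X]) : SpecialLinearGroup (A ⊕ B) ℤ[X] :=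
  ⟨fromBlocks 1 0 M 1, by rw [det_fromBlocks_zero₁₂, det_one, det_one, mul_one]⟩

lemma wup_add (M N : Matrix A B ℤ[X]) : wup (M + N) = wup M * wup N := by
  apply Subtype.ext
  change fromBlocks (1 : Matrix A A ℤ[X]) (M + N) 0 (1 : Matrix B B ℤ[X]) =
    fromBlocks 1 M 0 1 * fromBlocks 1 N 0 1
  rw [fromBlocks_multiply]
  simp [add_comm]

lemma wlo_add (M N : Matrix B A ℤ[X]) : wlo (M + N) = wlo M * wlo N := by
  apply Subtype.ext
  change fromBlocks (1 : Matrix A A ℤ[X]) 0 (M + N) (1 : Matrix B B ℤ[X]) =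
    fromBlocks 1 0 M 1 * fromBlocks 1 0 N 1
  rw [fromBlocks_multiply]
  simp

lemma wup_zero : wup (0 : Matrix A B ℤ[X]) = 1 := by
  apply Subtype.ext
  change fromBlocks (1 : Matrix A A ℤ[X]) 0 0 (1 : Matrix B B ℤ[X]) = 1
  rw [fromBlocks_one]

lemma wlo_zero : wlo (0 : Matrix B A ℤ[X]) = 1 := by
  apply Subtype.ext
  change fromBlocks (1 : Matrix A A ℤ[X]) 0 0 (1 : Matrix B B ℤ[X]) = 1
  rw [fromBlocks_one]

lemma wup_single (i : A) (j : B) (c : ℤ[X]) : wup (Matrix.single i j c) =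
    xx (show (Sum.inl i : A ⊕ B) ≠ Sum.inr j by simp) c := by
  apply Subtype.ext
  change fromBlocks (1 : Matrix A A ℤ[X]) (Matrix.single i j c) 0 (1 : Matrix B B ℤ[X]) =
    (1 : Matrix (A ⊕ B) (A ⊕ B) ℤ[X]) + Matrix.single (Sum.inl i) (Sum.inr j) c
  ext a b
  rcases a with a | a <;> rcases b with b | b <;>
    simp [Matrix.fromBlocks, Matrix.single, Matrix.one_apply]

lemma wlo_single (i : B) (j : A) (c : ℤ[X]) : wlo (Matrix.single i j c) =
    xx (show (Sum.inr i : A ⊕ B) ≠ Sum.inl j by simp) c := by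
  apply Subtype.ext
  change fromBlocks (1 : Matrix A A ℤ[X]) 0 (Matrix.single i j c) (1 : Matrix B B ℤ[X]) =
    (1 : Matrix (A ⊕ B) (A ⊕ B) ℤ[X]) + Matrix.single (Sum.inr i) (Sum.inl j) c
  ext a b
  rcases a with a | a <;> rcases b with b | b <;>
    simp [Matrix.fromBlocks, Matrix.single, Matrix.one_apply]

/-- a block unipotent matrix with entries divisible by `X^k` is in `ER` -/
theorem wup_mem {k : ℕ} {M : Matrix A B ℤ[X]} (h : ∀ i j, X ^ k ∣ M i j) :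
    wup M ∈ ER (Set.univ : Set (A ⊕ B)) k := by
  have e : M = ∑ i, ∑ j, Matrix.single i j (M i j) := Matrix.matrix_eq_sum_single M
  have key : ∀ (s : Finset (A × B)), wup (∑ p ∈ s, Matrix.single p.1 p.2 (M p.1 p.2)) ∈
      ER (Set.univ : Set (A ⊕ B)) k := by
    intro s
    induction s using Finset.induction_on with
    | empty =>
      rw [Finset.sum_empty, wup_zero]
      exact one_mem _
    | insert p s hp ih =>
      rw [Finset.sum_insert hp, wup_add, wup_single]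
      exact mul_mem (xx_mem_ER _ (Set.mem_univ _) (Set.mem_univ _) (h _ _)) ih
  have e2 := key Finset.univ
  rw [Fintype.sum_prod_type, ← e] at e2
  exact e2

theorem wlo_mem {k : ℕ} {M : Matrix B A ℤ[X]} (h : ∀ i j, X ^ k ∣ M i j) :
    wlo M ∈ ER (Set.univ : Set (A ⊕ B)) k := by
  have e : M = ∑ i, ∑ j, Matrix.single i j (M i j) := Matrix.matrix_eq_sum_single M
  have key : ∀ (s : Finset (B × A)), wlo (∑ p ∈ s, Matrix.single p.1 p.2 (M p.1 p.2)) ∈
      ER (Set.univ : Set (A ⊕ B)) k := by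
    intro s
    induction s using Finset.induction_on with
    | empty =>
      rw [Finset.sum_empty, wlo_zero]
      exact one_mem _
    | insert p s hp ih =>
      rw [Finset.sum_insert hp, wlo_add, wlo_single]
      exact mul_mem (xx_mem_ER _ (Set.mem_univ _) (Set.mem_univ _) (h _ _)) ih
  have e2 := key Finset.univ
  rw [Fintype.sum_prod_type, ← e] at e2
  exact e2

/-- block diagonal -/
noncomputable def wdg (V W : SpecialLinearGroup A ℤ[X]) : SpecialLinearGroup (A ⊕ A) ℤ[X] :=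
  ⟨fromBlocks (V : Matrix A A ℤ[X]) 0 0 (W : Matrix A A ℤ[X]), by
    rw [det_fromBlocks_zero₂₁, V.det_coe, W.det_coe, mul_one]⟩

lemma wup_EG (M : Matrix A A ℤ[X]) : wup M ∈ EG (Set.univ : Set (A ⊕ A)) := block_upper_mem M rfl
lemma wlo_EG (M : Matrix A A ℤ[X]) : wlo M ∈ EG (Set.univ : Set (A ⊕ A)) := block_lower_mem M rfl

/-- the Whitehead identity -/
lemma wdg_eq (W : SpecialLinearGroup A ℤ[X]) : wdg W W⁻¹ =
    (wup (W : Matrix A A ℤ[X]) * wlo (-((W⁻¹ : SpecialLinearGroup A ℤ[X]) : Matrix A A ℤ[X])) *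
      wup (W : Matrix A A ℤ[X])) *
    (wup (1 : Matrix A A ℤ[X]) * wlo (-(1 : Matrix A A ℤ[X])) * wup (1 : Matrix A A ℤ[X]))⁻¹ := by
  rw [eq_mul_inv_iff_mul_eq]
  apply Subtype.ext
  change fromBlocks (W : Matrix A A ℤ[X]) 0 0 ((W⁻¹ : SpecialLinearGroup A ℤ[X]) : Matrix A A ℤ[X]) *
    (fromBlocks (1 : Matrix A A ℤ[X]) (1 : Matrix A A ℤ[X]) 0 (1 : Matrix A A ℤ[X]) *
      fromBlocks (1 : Matrix A A ℤ[X]) 0 (-(1 : Matrix A A ℤ[X])) (1 : Matrix A A ℤ[X]) *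
      fromBlocks (1 : Matrix A A ℤ[X]) (1 : Matrix A A ℤ[X]) 0 (1 : Matrix A A ℤ[X])) =
    fromBlocks (1 : Matrix A A ℤ[X]) (W : Matrix A A ℤ[X]) 0 (1 : Matrix A A ℤ[X]) *
      fromBlocks (1 : Matrix A A ℤ[X]) 0 (-((W⁻¹ : SpecialLinearGroup A ℤ[X]) : Matrix A A ℤ[X]))
        (1 : Matrix A A ℤ[X]) *
      fromBlocks (1 : Matrix A A ℤ[X]) (W : Matrix A A ℤ[X]) 0 (1 : Matrix A A ℤ[X])
  have h1 : (W : Matrix A A ℤ[X]) * ((W⁻¹ : SpecialLinearGroup A ℤ[X]) : Matrix A A ℤ[X]) = 1 :=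
    K1a_coe_mul_inv W
  have h2 : ((W⁻¹ : SpecialLinearGroup A ℤ[X]) : Matrix A A ℤ[X]) * (W : Matrix A A ℤ[X]) = 1 :=
    K1a_coe_inv_mul W
  simp only [fromBlocks_multiply, Matrix.mul_one, Matrix.one_mul, Matrix.mul_zero, Matrix.zero_mul,
    add_zero, zero_add, Matrix.mul_neg, Matrix.neg_mul, h1, h2]
  congr 1 <;> simp

/-- **Whitehead lemma**, relative form. -/
theorem wdg_mem {k : ℕ} {W : SpecialLinearGroup A ℤ[X]} (hW : Cg k W) :
    wdg W W⁻¹ ∈ ER (Set.univ : Set (A ⊕ A)) k := by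
  rw [wdg_eq]
  have hW' := Cg_inv hW
  have e1 : wup (W : Matrix A A ℤ[X]) =
      wup ((W : Matrix A A ℤ[X]) - 1) * wup (1 : Matrix A A ℤ[X]) := by
    rw [← wup_add, sub_add_cancel]
  have e2 : wlo (-((W⁻¹ : SpecialLinearGroup A ℤ[X]) : Matrix A A ℤ[X])) =
      wlo (-(((W⁻¹ : SpecialLinearGroup A ℤ[X]) : Matrix A A ℤ[X]) - 1)) *
        wlo (-(1 : Matrix A A ℤ[X])) := by
    rw [← wlo_add]
    congr 1
    abel
  have m1 : wup ((W : Matrix A A ℤ[X]) - 1) ∈ ER (Set.univ : Set (A ⊕ A)) k := wup_mem hW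
  have m2 : wlo (-(((W⁻¹ : SpecialLinearGroup A ℤ[X]) : Matrix A A ℤ[X]) - 1)) ∈
      ER (Set.univ : Set (A ⊕ A)) k := by
    refine wlo_mem fun i j => ?_
    rw [Matrix.neg_apply, dvd_neg]
    exact hW' i j
  rw [e1, e2]
  set a := wup ((W : Matrix A A ℤ[X]) - 1)
  set b := wlo (-(((W⁻¹ : SpecialLinearGroup A ℤ[X]) : Matrix A A ℤ[X]) - 1))
  set u := wup (1 : Matrix A A ℤ[X])
  set l := wlo (-(1 : Matrix A A ℤ[X]))
  have hu : u ∈ EG (Set.univ : Set (A ⊕ A)) := wup_EG _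
  have hl : l ∈ EG (Set.univ : Set (A ⊕ A)) := wlo_EG _
  have e3 : (a * u) * (b * l) * (a * u) * (u * l * u)⁻¹ =
      a * (u * b * u⁻¹) * ((u * l) * a * (u * l)⁻¹) := by group
  rw [e3]
  exact mul_mem (mul_mem m1 (ER_conj hu m2)) (ER_conj (mul_mem hu hl) m1)

lemma emb_inl_coe (V : SpecialLinearGroup A ℤ[X]) :
    ((emb (Function.Embedding.inl : A ↪ A ⊕ B) V : SpecialLinearGroup (A ⊕ B) ℤ[X]) :
      Matrix (A ⊕ B) (A ⊕ B) ℤ[X]) = fromBlocks (V : Matrix A A ℤ[X]) 0 0 1 := by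
  have hr : ∀ f : B, (Sum.inr f : A ⊕ B) ∉ Set.range (Function.Embedding.inl : A ↪ A ⊕ B) := by
    rintro f ⟨i, hi⟩
    cases hi
  ext1 a b
  rcases a with i | f
  · rcases b with j | f'
    · exact emb_apply (Function.Embedding.inl : A ↪ A ⊕ B) V i j
    · rw [emb_apply_right _ _ (hr f'), fromBlocks_apply₁₂, Matrix.zero_apply,
        Matrix.one_apply_ne (by simp)]
  · rw [emb_apply_left _ _ (hr f)]
    rcases b with j | f'
    · rw [fromBlocks_apply₂₁, Matrix.zero_apply, Matrix.one_apply_ne (by simp)]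
    · rw [fromBlocks_apply₂₂]
      by_cases h : f = f'
      · subst h
        rw [Matrix.one_apply_eq, Matrix.one_apply_eq]
      · rw [Matrix.one_apply_ne h, Matrix.one_apply_ne (fun hh => h (Sum.inr.inj hh))]

lemma emb_inr_coe (V : SpecialLinearGroup B ℤ[X]) :
    ((emb (Function.Embedding.inr : B ↪ A ⊕ B) V : SpecialLinearGroup (A ⊕ B) ℤ[X]) :
      Matrix (A ⊕ B) (A ⊕ B) ℤ[X]) = fromBlocks 1 0 0 (V : Matrix B B ℤ[X]) := by
  have hr : ∀ f : A, (Sum.inl f : A ⊕ B) ∉ Set.range (Function.Embedding.inr : B ↪ A ⊕ B) := by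
    rintro f ⟨i, hi⟩
    cases hi
  ext1 a b
  rcases a with f | i
  · rw [emb_apply_left _ _ (hr f)]
    rcases b with f' | j
    · rw [fromBlocks_apply₁₁]
      by_cases h : f = f'
      · subst h
        rw [Matrix.one_apply_eq, Matrix.one_apply_eq]
      · rw [Matrix.one_apply_ne h, Matrix.one_apply_ne (fun hh => h (Sum.inl.inj hh))]
    · rw [fromBlocks_apply₁₂, Matrix.zero_apply, Matrix.one_apply_ne (by simp)]
  · rcases b with f' | j
    · rw [emb_apply_right _ _ (hr f'), fromBlocks_apply₂₁, Matrix.zero_apply,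
        Matrix.one_apply_ne (by simp)]
    · exact emb_apply (Function.Embedding.inr : B ↪ A ⊕ B) V i j

variable {J : Type} [Fintype J] [DecidableEq J]

/-- **Weight change**: `W` on the indices of `f'` against `W` on the indices of `f`. -/
theorem white {k : ℕ} {W : SpecialLinearGroup A ℤ[X]} (hW : Cg k W) (f f' : A ↪ J)
    (hd : ∀ a b, f a ≠ f' b) :
    emb f' W * (emb f W)⁻¹ ∈ ER (Set.range f ∪ Set.range f') k := by
  set e : A ⊕ A ↪ J := ⟨Sum.elim f f', by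
    rintro (a | a) (b | b) h
    · exact congrArg Sum.inl (f.injective h)
    · exact absurd h (hd a b)
    · exact absurd h.symm (hd b a)
    · exact congrArg Sum.inr (f'.injective h)⟩ with he
  have h1 : emb f' W * (emb f W)⁻¹ = emb e (wdg W⁻¹ W⁻¹⁻¹) := by
    have e1 : wdg W⁻¹ W⁻¹⁻¹ = emb (Function.Embedding.inr : A ↪ A ⊕ A) W *
        (emb (Function.Embedding.inl : A ↪ A ⊕ A) W)⁻¹ := by
      rw [inv_inv, ← map_inv]
      apply Subtype.ext
      rw [Matrix.SpecialLinearGroup.coe_mul, emb_inl_coe, emb_inr_coe, fromBlocks_multiply]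
      change fromBlocks ((W⁻¹ : SpecialLinearGroup A ℤ[X]) : Matrix A A ℤ[X]) 0 0 (W : Matrix A A ℤ[X]) = _
      simp
    rw [e1, map_mul, map_inv, emb_trans, emb_trans]
    rfl
  rw [h1]
  have h2 := wdg_mem (Cg_inv hW)
  have h3 : emb e (wdg W⁻¹ W⁻¹⁻¹) ∈ (ER (Set.univ : Set (A ⊕ A)) k).map (emb e) :=
    Subgroup.mem_map_of_mem _ h2
  rw [map_ER] at h3
  refine ER_mono ?_ k h3
  rintro _ ⟨a | a, -, rfl⟩
  · exact Or.inl ⟨a, rfl⟩
  · exact Or.inr ⟨a, rfl⟩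

/-- the size does not change under an embedding -/
theorem nz_emb {r : ℝ} (f : A ↪ J) (W : SpecialLinearGroup A ℤ[X]) :
    nz r (emb f W) = nz r W := by
  have hs : ∀ (K : Type) [Fintype K] [DecidableEq K] (g : SpecialLinearGroup K ℤ[X]),
      nz r g = ∑ a, ∑ b, wn r (toR ((g : Matrix K K ℤ[X]) a b - (1 : Matrix K K ℤ[X]) a b)) := by
    intro K _ _ g
    unfold nz nu mn
    refine Finset.sum_congr rfl fun i _ => Finset.sum_congr rfl fun j _ => ?_
    congr 1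
    rw [map_sub]
    have e1 : (toRG g : Matrix K K ℝ[X]) i j = toR ((g : Matrix K K ℤ[X]) i j) := rfl
    rw [Matrix.sub_apply, e1]
    congr 1
    by_cases hij : i = j
    · subst hij
      rw [Matrix.one_apply_eq, Matrix.one_apply_eq, map_one]
    · rw [Matrix.one_apply_ne hij, Matrix.one_apply_ne hij, map_zero]
  rw [hs, hs]
  have hone : ∀ i j, (1 : Matrix J J ℤ[X]) (f i) (f j) = (1 : Matrix A A ℤ[X]) i j := by
    intro i j
    by_cases h : i = j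
    · subst h
      rw [Matrix.one_apply_eq, Matrix.one_apply_eq]
    · rw [Matrix.one_apply_ne h, Matrix.one_apply_ne (f.injective.ne h)]
  have hz1 : ∀ a, a ∉ Set.range f → ∀ b, wn r (toR ((emb f W : Matrix J J ℤ[X]) a b -
      (1 : Matrix J J ℤ[X]) a b)) = 0 := by
    intro a ha b
    rw [emb_apply_left f W ha b, sub_self, map_zero, wn_zero]
  have hz2 : ∀ b, b ∉ Set.range f → ∀ a, wn r (toR ((emb f W : Matrix J J ℤ[X]) a b -
      (1 : Matrix J J ℤ[X]) a b)) = 0 := by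
    intro b hb a
    rw [emb_apply_right f W hb a, sub_self, map_zero, wn_zero]
  have hsum : ∀ φ : J → ℝ, (∀ a, a ∉ Set.range f → φ a = 0) → ∑ a, φ a = ∑ i, φ (f i) := by
    intro φ hφ
    rw [← Finset.sum_map Finset.univ f φ]
    refine (Finset.sum_subset (Finset.subset_univ _) fun a _ ha => hφ a ?_).symm
    rintro ⟨i, rfl⟩
    exact ha (Finset.mem_map_of_mem f (Finset.mem_univ i))
  rw [hsum _ fun a ha => Finset.sum_eq_zero fun b _ => hz1 a ha b]
  refine Finset.sum_congr rfl fun i _ => ?_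
  rw [hsum _ fun b hb => hz2 b hb (f i)]
  refine Finset.sum_congr rfl fun j _ => ?_
  rw [emb_apply, hone]

/-- **Weight change in a frame** (section 4 (iv)): the constants depend only on `r, J, a, C, N`. -/
theorem weight_change {r : ℝ} (hr : 0 < r) (hr1 : r < 1) (A J : Type) [Fintype A] [DecidableEq A]
    [Fintype J] [DecidableEq J] {a C : ℝ} (ha : 0 < a) (hC : 0 ≤ C) (N : ℕ) :
    ∃ N₀ : ℕ, ∃ ε : ℝ, 0 < ε ∧ ∀ M ≥ N₀, ∀ (κ : Type) [Fintype κ]
      (P : Matrix (κ ⊕ J) (κ ⊕ J) ℕ[X]) (S : Set κ) (D : Set (κ ⊕ J))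
      (q : J → κ ⊕ J → PowerSeries ℤ), Frame P S D r a C N q →
      ∀ (f f' : A ↪ J) (p p' : J), (∀ a b, f a ≠ f' b) → (∀ a, f a ≠ p) → (∀ a, f a ≠ p') →
      (∀ a, f' a ≠ p) → (∀ a, f' a ≠ p') → p ≠ p' →
      ∀ W : SpecialLinearGroup A ℤ[X], Cg (4 * M) W → nz r W ≤ ε →
      ∀ (S1 S2 : Set κ) (Q Q' : Matrix (κ ⊕ J) (κ ⊕ J) ℕ[X]),
        Fr P S1 (emb f W : Matrix J J ℤ[X]) Q → Fr P S2 (emb f' W : Matrix J J ℤ[X]) Q' →
        PEqv Q Q' := by
  obtain ⟨N₀, ε, hε, h⟩ := frame_thm_ER hr hr1 J ha hC N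
  refine ⟨max N₀ N, ε, hε, ?_⟩
  intro M hM κ _ P S D q F f f' p p' hd h1 h2 h3 h4 hpp W hW hW2 S1 S2 Q Q' hQ hQ'
  have hp : ∀ x, (∀ a, f a ≠ x) → (∀ a, f' a ≠ x) → x ∉ Set.range f ∪ Set.range f' := by
    rintro x hx hx' (⟨a, rfl⟩ | ⟨a, rfl⟩)
    · exact hx a rfl
    · exact hx' a rfl
  refine h M (le_trans (le_max_left _ _) hM) κ P S D q F (emb f W) (emb f' W)
    (Set.range f ∪ Set.range f') p p' (hp p h1 h3) (hp p' h2 h4) hpp (white hW f f' hd) ?_ ?_ ?_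
    S1 S2 Q Q' hQ hQ'
  · rw [nz_emb]
    exact hW2
  · rw [nz_emb]
    exact hW2
  · rw [Cg_emb]
    exact Cg_mono (by have := le_trans (le_max_right N₀ N) hM; omega) hW

end white

end Pool.Agent.SSE
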