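import Pool.Agent.SSE.G3
import Pool.Agent.SSE.FrT
import Pool.Agent.SSE.LA0

/-!
# SSE project, part Exch (section 4 of `c782ad_h23_P.md`): the exchange of the two gadgets

`gad_frame`: the frame of a gadget where only the fresh sources are acted on, with constants which
depend only on the loop polynomial `s` of the hub and on the degrees `k`.
`exchange`: `G(P0; q_f)^W ~ G(P1; q_B)^W` for small `W`.
-/

set_option autoImplicit false

open scoped BigOperators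
open Matrix Polynomial

namespace Pool.Agent.SSE

section gadframe

variable {ι F : Type} [Fintype ι] [Fintype F]

/-- the columns of the phi-only frame -/
def gadD (ι F : Type) (x : ι) : Set ((ι ⊕ Unit) ⊕ F) :=
  {j | j = Sum.inl (Sum.inl x) ∨ ∃ i, j = Sum.inr i}

/-- THE PHI-ONLY FRAME: uniform constants -/
theorem gad_frame [DecidableEq F] {P : Matrix ι ι ℕ[X]} {x : ι} {q : ι → ℕ[X]} {k : F → ℕ}
    {w : ι → ℕ[X]} {s : ℕ[X]} {r c : ℝ} {n0 A : ℕ} (R : Ren s r c n0) (h : Tail P x q k w)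
    (hq : q x = s) (hk : ∀ i, k i ≤ A) :
    Frame (gad P x q k w) {Sum.inl x} (gadD ι F x) r (c * r ^ (1 + A)) (1 * (1 + 1))
      (n0 + 1 + A + 1)
      (fun φ => hvis (gad P x q k w) (Sum.inl x) (fun j => toZ (gad P x q k w (Sum.inr φ) j))) := by
  have hX : ∀ n : ℕ, wn r (toR (toZ (X ^ n : ℕ[X]))) ≤ 1 := by
    intro n
    rw [wn_toZ, Finset.sum_subset (s₂ := {n})]
    · rw [Finset.sum_singleton, coeff_X_pow, if_pos rfl, Nat.cast_one, one_mul]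
      exact pow_le_one₀ R.r0.le R.r1.le
    · intro i hi
      rw [Polynomial.mem_support_iff, coeff_X_pow] at hi
      rw [Finset.mem_singleton]
      by_contra hne
      rw [if_neg hne] at hi
      exact hi rfl
    · intro i _ hi
      rw [Polynomial.notMem_support_iff.1 hi]
      simp
  have h0 : wn r (toR (toZ (0 : ℕ[X]))) ≤ 1 := by
    rw [wn_toZ]
    simp
  have R' : Ren (gad P x q k w (Sum.inl (Sum.inl x)) (Sum.inl (Sum.inl x))) r c n0 := by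
    rw [gad_ll, if_pos rfl, hq]
    exact R
  refine Ren.frame h.isPres R' (Or.inl rfl) (fun φ => Or.inr ⟨φ, rfl⟩) ?_ ?_ ?_ ?_ ?_
  · rintro φ ((j | u) | i) hj
    · rw [gad_fl, if_neg]
      rintro rfl
      exact hj (Or.inl rfl)
    · rw [gad_fu]
    · exact absurd (Or.inr ⟨i, rfl⟩) hj
  · rintro j (rfl | ⟨i, rfl⟩) hjx
    · exact absurd rfl hjx
    · refine ⟨k i, hk i, ?_⟩
      rw [gad_lf, if_pos rfl, coeff_X_pow, if_pos rfl]
  · intro φ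
    refine ⟨1, le_rfl, ?_⟩
    rw [gad_fl, if_pos rfl, coeff_X_one]
  · rintro j (rfl | ⟨i, rfl⟩)
    · rw [gad_ll, if_pos rfl, hq]
      exact R.root.le
    · rw [gad_lf, if_pos rfl]
      exact hX _
  · rintro φ j (rfl | ⟨i, rfl⟩)
    · rw [gad_fl, if_pos rfl]
      have := hX 1
      rwa [pow_one] at this
    · rw [gad_ff]
      exact h0

/-- existence of the twisted presentations, uniform -/
theorem gad_exists (F : Type) [Fintype F] [DecidableEq F] (k : F → ℕ) {s : ℕ[X]} {r c : ℝ}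
    {n0 : ℕ} (R : Ren s r c n0) :
    ∃ N : ℕ, ∃ ε : ℝ, 0 < ε ∧ ∀ (ι : Type) [Fintype ι] (P : Matrix ι ι ℕ[X]) (x : ι)
      (q w : ι → ℕ[X]), Tail P x q k w → q x = s → ∀ W : SpecialLinearGroup F ℤ[X], Cg N W →
      nz r W ≤ ε → ∃ Q, Fr (gad P x q k w) {Sum.inl x} (W : Matrix F F ℤ[X]) Q := by
  obtain ⟨A, hA⟩ : ∃ A, ∀ i, k i ≤ A :=
    ⟨Finset.univ.sup k, fun i => Finset.le_sup (f := k) (Finset.mem_univ i)⟩
  have hr := R.r0
  have hc := R.cpos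
  refine ⟨n0 + 1 + A + 1, c * r ^ (1 + A) / 3, by positivity, ?_⟩
  intro ι _ P x q w h hq W hW hnz
  have F' := gad_frame R h hq hA
  refine F'.exists_fr (ρ := c * r ^ (1 + A) / 3) (by linarith) W hnz hW

end gadframe

section exch

lemma emb_inl_eq {A Φ Ψ : Type} [Fintype A] [DecidableEq A] [Fintype Φ] [DecidableEq Φ] [Fintype Ψ]
    [DecidableEq Ψ] (f : A ↪ Φ) (W : SpecialLinearGroup A ℤ[X]) :
    ((emb (f.trans Function.Embedding.inl : A ↪ Φ ⊕ Ψ) W : SpecialLinearGroup (Φ ⊕ Ψ) ℤ[X]) :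
      Matrix (Φ ⊕ Ψ) (Φ ⊕ Ψ) ℤ[X]) = fromBlocks (emb f W : Matrix Φ Φ ℤ[X]) 0 0 1 := by
  rw [← emb_trans, emb_inl_coe]

lemma emb_inr_eq {A Φ Ψ : Type} [Fintype A] [DecidableEq A] [Fintype Φ] [DecidableEq Φ] [Fintype Ψ]
    [DecidableEq Ψ] (f : A ↪ Ψ) (W : SpecialLinearGroup A ℤ[X]) :
    ((emb (f.trans Function.Embedding.inr : A ↪ Φ ⊕ Ψ) W : SpecialLinearGroup (Φ ⊕ Ψ) ℤ[X]) :
      Matrix (Φ ⊕ Ψ) (Φ ⊕ Ψ) ℤ[X]) = fromBlocks 1 0 0 (emb f W : Matrix Ψ Ψ ℤ[X]) := by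
  rw [← emb_trans, emb_inr_coe]

/-- **The exchange.** The constants depend only on the loop polynomials `sf, sB` and the degrees
`kf, kB` of the two gadgets. -/
theorem exchange (A Φ Ψ : Type) [Fintype A] [DecidableEq A] [Fintype Φ] [DecidableEq Φ] [Fintype Ψ]
    [DecidableEq Ψ] {sf sB : ℕ[X]} {rf cf rB cB rm cm : ℝ} {nf nB nm : ℕ} (Rf : Ren sf rf cf nf)
    (RB : Ren sB rB cB nB) (Rm : Ren (sf + sB) rm cm nm) (kf : Φ → ℕ) (kB : Ψ → ℕ) {ρ : ℝ}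
    (hf : rf ≤ ρ) (hB : rB ≤ ρ) (hm : rm ≤ ρ) :
    ∃ N₀ : ℕ, ∃ ε : ℝ, 0 < ε ∧ ∀ M ≥ N₀, ∀ (ι : Type) [Fintype ι] (P0 P1 : Matrix ι ι ℕ[X]) (x : ι)
      (qf w0 w1 qB wB qm wm : ι → ℕ[X]), qf x = sf → qB x = sB → qm x = sf + sB →
      Tail P0 x qf kf w0 → Tail P1 x qf kf w1 → Tail P1 x qB kB wB →
      Tail P1 x qm (Sum.elim kf kB) wm → (∀ l, l ≠ x → P1 l = P0 l) →
      (∃ b : ι → ℤ[X], b x = 0 ∧ ∀ j, IP P1 x j = IP P0 x j + ∑ l, b l * IP P0 l j) →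
      ∀ (f : A ↪ Φ) (f' : A ↪ Ψ) (p : Φ) (p' : Ψ), (∀ a, f a ≠ p) → (∀ a, f' a ≠ p') →
      ∀ W : SpecialLinearGroup A ℤ[X], Cg (4 * M) W → nz ρ W ≤ ε →
      ∀ (S S' : Set (ι ⊕ Unit)) (Q : Matrix ((ι ⊕ Unit) ⊕ Φ) ((ι ⊕ Unit) ⊕ Φ) ℕ[X])
        (Q' : Matrix ((ι ⊕ Unit) ⊕ Ψ) ((ι ⊕ Unit) ⊕ Ψ) ℕ[X]),
      Fr (gad P0 x qf kf w0) S (emb f W : Matrix Φ Φ ℤ[X]) Q →
      Fr (gad P1 x qB kB wB) S' (emb f' W : Matrix Ψ Ψ ℤ[X]) Q' → PEqv Q Q' := by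
  obtain ⟨N1, ε1, hε1, hex1⟩ := gad_exists Φ kf Rf
  obtain ⟨N2, ε2, hε2, hex2⟩ := gad_exists (Φ ⊕ Ψ) (Sum.elim kf kB) Rm
  obtain ⟨K, hK⟩ : ∃ K, ∀ i, (Sum.elim kf kB : Φ ⊕ Ψ → ℕ) i ≤ K :=
    ⟨Finset.univ.sup (Sum.elim kf kB), fun i =>
      Finset.le_sup (f := (Sum.elim kf kB : Φ ⊕ Ψ → ℕ)) (Finset.mem_univ i)⟩
  have hrm := Rm.r0
  have hcm := Rm.cpos
  obtain ⟨N3, ε3, hε3, hwc⟩ := weight_change (r := rm) hrm Rm.r1 A (Φ ⊕ Ψ)
    (a := cm * rm ^ (1 + K)) (C := 1 * (1 + 1)) (by positivity) (by norm_num) (nm + 1 + K + 1)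
  refine ⟨max N1 (max N2 N3), min ε1 (min ε2 ε3), lt_min hε1 (lt_min hε2 hε3), ?_⟩
  intro M hM ι _ P0 P1 x qf w0 w1 qB wB qm wm hqf hqB hqm h0 h1 hPB hPm he hb f f' p p' hp hp'
    W hW hnz S S' Q Q' hQ hQ'
  have hM1 : N1 ≤ M := le_trans (le_max_left _ _) hM
  have hM2 : N2 ≤ M := le_trans (le_trans (le_max_left _ _) (le_max_right _ _)) hM
  have hM3 : N3 ≤ M := le_trans (le_trans (le_max_right _ _) (le_max_right _ _)) hM
  have e1 : nz ρ W ≤ ε1 := hnz.trans (min_le_left _ _)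
  have e2 : nz ρ W ≤ ε2 := hnz.trans ((min_le_right _ _).trans (min_le_left _ _))
  have e3 : nz ρ W ≤ ε3 := hnz.trans ((min_le_right _ _).trans (min_le_right _ _))
  have nf' : nz rf W ≤ ε1 := (nz_mono Rf.r0.le hf W).trans e1
  have nm2 : nz rm W ≤ ε2 := (nz_mono Rm.r0.le hm W).trans e2
  have nm3 : nz rm W ≤ ε3 := (nz_mono Rm.r0.le hm W).trans e3
  -- (i) from `P0` to `P1`
  obtain ⟨Q0, hQ0⟩ := hex1 ι P0 x qf w0 h0 hqf (emb f W)
    ((Cg_emb f N1 W).2 (Cg_mono (by omega) hW)) (by rw [nz_emb]; exact nf')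
  obtain ⟨b, hbx, hrow⟩ := hb
  obtain ⟨he', b', hb', hrow'⟩ := h0.hub_move h1 he b hbx hrow
  obtain ⟨Q1, hQ1, p1⟩ := hQ0.transfer (i := Sum.inr ()) (by simp) h1.isPres he' b' hb' hrow'
  have s1 : PEqv Q Q1 := (hQ.peqv hQ0).trans p1
  -- (ii), (iii) the two gadgets together
  obtain ⟨Q2, hQ2⟩ := hex2 ι P1 x qm wm hPm hqm (emb (f.trans Function.Embedding.inl) W)
    ((Cg_emb _ N2 W).2 (Cg_mono (by omega) hW)) (by rw [nz_emb]; exact nm2)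
  have s2 : PEqv Q1 Q2 := gad_change_left h1 hPm hQ1 (by rw [← emb_inl_eq]; exact hQ2)
  -- (iv) weight change
  obtain ⟨Q3, hQ3⟩ := hex2 ι P1 x qm wm hPm hqm (emb (f'.trans Function.Embedding.inr) W)
    ((Cg_emb _ N2 W).2 (Cg_mono (by omega) hW)) (by rw [nz_emb]; exact nm2)
  have F' := gad_frame Rm hPm hqm hK
  have s3 : PEqv Q2 Q3 := by
    refine hwc M hM3 (ι ⊕ Unit) _ _ _ _ F' (f.trans Function.Embedding.inl)
      (f'.trans Function.Embedding.inr) (Sum.inl p) (Sum.inr p') ?_ ?_ ?_ ?_ ?_ ?_ W hW nm3 _ _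
      Q2 Q3 hQ2 hQ3
    · intro a b h
      cases h
    · intro a h
      exact hp a (Sum.inl.inj h)
    · intro a h
      cases h
    · intro a h
      cases h
    · intro a h
      exact hp' a (Sum.inr.inj h)
    · intro h
      cases h
  -- (v) the second gadget alone
  have s4 : PEqv Q' Q3 := gad_change_right hPB hPm hQ' (by rw [← emb_inr_eq]; exact hQ3)
  exact s1.trans (s2.trans (s3.trans s4.symm))

end exch

end Pool.Agent.SSE
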