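import Pool.Agent.SSE.LC
import Pool.Agent.SSE.LA0

/-!
# SSE-LB : level B; the constants depend only on `J`, `r`, `a`, `C`, `N`, `r'`, `δ`

`kmain_sub` with `S₀ = {j | j ≠ p ∧ j ≠ p'}`, exponent `4M`: `U = f₀ y`, `f₀ ∈ ER S₀ (4M) ≤ FG (insert p S₀) (2M) ≤ FLow p' (2M)`, `y ∈ EG {x,y,z}`, `Cg (4M) y`;
`exists_tiny_sub` (radius `max r r'`, exponent `2M`, smallness `min δ ε`): `W := f y`, `f ∈ FG {x,y,z} (2M)`; `Cg (2M) W`; `U W⁻¹ = f₀ f⁻¹ ∈ FLow p' (2M)`;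
`conn_small` (for `W`, `W' = U`).
-/

set_option autoImplicit false

open scoped BigOperators
open Matrix Polynomial

namespace Pool.Agent.SSE

attribute [local instance] Classical.propDecidable

theorem levelB (J : Type) [Fintype J] [DecidableEq J] {r a C : ℝ} (hr : 0 < r) (hr1 : r < 1)
    (ha : 0 < a) (hC : 0 ≤ C) (N : ℕ)
    {x y z p p' : J} (hxy : x ≠ y) (hxz : x ≠ z) (hyz : y ≠ z) (hp : p ∉ ({x, y, z} : Set J))
    (hp' : p' ∉ (insert p ({x, y, z} : Set J) : Set J)) {r' δ : ℝ} (hr' : 0 < r') (hr1' : r' < 1)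
    (hδ : 0 < δ) :
    ∃ (N₁ : ℕ) (ε : ℝ), N ≤ N₁ ∧ 0 < ε ∧ ∀ (κ : Type) [Fintype κ]
      (P : Matrix (κ ⊕ J) (κ ⊕ J) ℕ[X]) (S : Set κ) (D : Set (κ ⊕ J))
      (q : J → κ ⊕ J → PowerSeries ℤ), Frame P S D r a C N q →
      ∀ M ≥ N₁, ∀ U ∈ EG ({j | j ≠ p ∧ j ≠ p'} : Set J), Cg (4 * M) U → nz r U ≤ ε →
        ∃ W ∈ EG ({x, y, z} : Set J), Cg (2 * M) W ∧ nz r W ≤ δ ∧ nz r' W ≤ δ ∧
          ∀ (S₁ S₂ : Set κ) (Q Q' : Matrix (κ ⊕ J) (κ ⊕ J) ℕ[X]), Fr P S₁ U Q → Fr P S₂ W Q' →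
            PEqv Q Q' := by
  obtain ⟨N₁, ε, hN, hε, hcs⟩ := conn_small J hr hr1 ha hC N
  obtain ⟨M₀, hM₀⟩ := exists_tiny_sub (r := max r r') (lt_max_of_lt_left hr) (max_lt hr1 hr1')
    hxy hxz hyz hp (δ := min δ ε) (lt_min hδ hε)
  refine ⟨max N₁ M₀ + 1, ε, le_trans hN (le_trans (le_max_left _ _) (Nat.le_succ _)), hε, ?_⟩
  intro κ _ P S D q F M hM U hU hcU hnU
  have hMN : N₁ ≤ M := le_trans (le_trans (le_max_left _ _) (Nat.le_succ _)) hM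
  have hMM : M₀ ≤ M := le_trans (le_trans (le_max_right N₁ M₀) (Nat.le_succ _)) hM
  have hM1 : 1 ≤ M := le_trans (Nat.le_add_left 1 _) hM
  -- the indices
  have hp3 : ∀ j ∈ ({x, y, z} : Set J), j ≠ p := fun j hj h => hp (h ▸ hj)
  have hp3' : ∀ j ∈ ({x, y, z} : Set J), j ≠ p' := fun j hj h =>
    hp' (Set.mem_insert_of_mem p (h ▸ hj))
  have hpp' : p' ≠ p := fun h => hp' (Or.inl h)
  have hS : ∀ j ∈ ({x, y, z} : Set J), j ∈ ({j | j ≠ p ∧ j ≠ p'} : Set J) := fun j hj =>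
    ⟨hp3 j hj, hp3' j hj⟩
  have hx : x ∈ ({x, y, z} : Set J) := by simp
  have hy : y ∈ ({x, y, z} : Set J) := by simp
  have hz : z ∈ ({x, y, z} : Set J) := by simp
  obtain ⟨Y, -, hY1, hY2⟩ := kmain_sub (S₀ := {j | j ≠ p ∧ j ≠ p'}) (hS x hx) (hS y hy) (hS z hz)
    hxy hxz hyz (M := 4 * M) (by omega)
  obtain ⟨v, hvY, hv⟩ := hY2 U hU hcU
  obtain ⟨hvE, hvc⟩ := hY1 v hvY
  have h4 : 4 * M = 2 * (2 * M) := by ring
  obtain ⟨f, hf, hfn⟩ := hM₀ (2 * M) (by omega) v hvE (h4 ▸ hvc)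
  obtain ⟨hfE, hfc⟩ := FG_EG_Cg hf
  have hWc : Cg (2 * M) (f * v) := Cg_mul hfc (Cg_mono (by omega) hvc)
  have hWn : ∀ s : ℝ, 0 ≤ s → s ≤ max r r' → nz s (f * v) ≤ min δ ε := fun s h0 h =>
    (nz_mono h0 h _).trans hfn
  have hWr : nz r (f * v) ≤ min δ ε := hWn r hr.le (le_max_left _ _)
  have hWr' : nz r' (f * v) ≤ min δ ε := hWn r' hr'.le (le_max_right _ _)
  refine ⟨f * v, mul_mem hfE hvE, hWc, hWr.trans (min_le_left _ _), hWr'.trans (min_le_left _ _), ?_⟩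
  -- membership
  have hmem : U * (f * v)⁻¹ ∈ FLow p' (2 * M) := by
    have e : U * (f * v)⁻¹ = (U * v⁻¹) * f⁻¹ := by group
    rw [e]
    have h1 : U * v⁻¹ ∈ FLow p' (2 * M) := by
      have h2 : p ∉ ({j | j ≠ p ∧ j ≠ p'} : Set J) := fun h => h.1 rfl
      have h3 : p' ∉ (insert p ({j | j ≠ p ∧ j ≠ p'} : Set J) : Set J) := by
        rintro (h | h)
        · exact hpp' h
        · exact h.2 rfl
      rw [h4] at hv
      exact FG_le_FLow h3 _ (tits h2 (2 * M) hv)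
    have h5 : p' ∉ ({x, y, z} : Set J) := fun h => hp' (Set.mem_insert_of_mem p h)
    exact mul_mem h1 (inv_mem (FG_le_FLow h5 _ hf))
  intro S₁ S₂ Q Q' hQ hQ'
  exact (hcs κ P S D q F M hMN p' (f * v) U (Cg_mono (by omega) hWc)
    (hWr.trans (min_le_right _ _)) hnU hmem S₂ S₁ Q' Q hQ' hQ).symm

end Pool.Agent.SSE
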