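import Pool.Agent.SSE.PairU
import Pool.Agent.SSE.Exch
import Pool.Agent.SSE.LB

/-!
# SSE project, part PairL: the pair (P_A, P_B) and level B

`strip`: in a frame, `U^J = [[U', B], [0, 1]]` may be replaced by `[[U', 0], [0, 1]]`.
`pg_frame`: the frame of the reindexed gadget, with explicit constants.
`pg_gad`: twists of the sources of the reindexed gadget and of the gadget.
`pair_final`: `P_B ~ G(P_A)^W` with `W` small in the elementary group of three of the sources.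
-/

set_option autoImplicit false

open scoped BigOperators
open Matrix Polynomial

namespace Pool.Agent.SSE

/-! ## strip -/

section strip

variable {ι F : Type} [Fintype ι] [DecidableEq ι] [Fintype F] [DecidableEq F]

/-- if every entry of `g' - 1` is zero or the entry of `g - 1`, then `g'` is not larger than `g` -/
lemma nz_le_of_entries {K : Type} [Fintype K] [DecidableEq K] {r : ℝ} (hr : 0 ≤ r)
    {g g' : SpecialLinearGroup K ℤ[X]}
    (h : ∀ a b, (g' : Matrix K K ℤ[X]) a b = (1 : Matrix K K ℤ[X]) a b ∨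
      (g' : Matrix K K ℤ[X]) a b = (g : Matrix K K ℤ[X]) a b) : nz r g' ≤ nz r g := by
  rw [nz_eq_sum, nz_eq_sum]
  refine Finset.sum_le_sum fun a _ => Finset.sum_le_sum fun b _ => ?_
  rcases h a b with h1 | h1
  · rw [h1, sub_self, map_zero, wn_zero]
    exact wn_nonneg hr _
  · rw [h1]

lemma Cg_of_entries {K : Type} [Fintype K] [DecidableEq K] {N : ℕ}
    {g g' : SpecialLinearGroup K ℤ[X]}
    (h : ∀ a b, (g' : Matrix K K ℤ[X]) a b = (1 : Matrix K K ℤ[X]) a b ∨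
      (g' : Matrix K K ℤ[X]) a b = (g : Matrix K K ℤ[X]) a b) (hg : Cg N g) : Cg N g' := by
  intro a b
  rcases h a b with h1 | h1
  · rw [h1, sub_self]
    exact dvd_zero _
  · rw [h1]
    exact hg a b

/-- a block unipotent matrix with a free column index is in `FLow` -/
lemma wup_mem_FLow {M : ℕ} {B : Matrix ι F ℤ[X]} {f₀ : F} (h0 : ∀ i, B i f₀ = 0)
    (h : ∀ i f, X ^ M ∣ B i f) : wup B ∈ FLow (Sum.inr f₀ : ι ⊕ F) M := by
  have e : B = ∑ i, ∑ j, Matrix.single i j (B i j) := Matrix.matrix_eq_sum_single B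
  have key : ∀ (s : Finset (ι × F)), wup (∑ p ∈ s, Matrix.single p.1 p.2 (B p.1 p.2)) ∈
      FLow (Sum.inr f₀ : ι ⊕ F) M := by
    intro s
    induction s using Finset.induction_on with
    | empty =>
      rw [Finset.sum_empty, wup_zero]
      exact one_mem _
    | insert p s hp ih =>
      rw [Finset.sum_insert hp, wup_add]
      refine mul_mem ?_ ih
      by_cases hf : p.2 = f₀
      · rw [hf, h0, Matrix.single_zero, wup_zero]
        exact one_mem _
      · rw [wup_single]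
        have h1 : (Sum.inl p.1 : ι ⊕ F) ∈ {j : ι ⊕ F | j ≠ Sum.inr f₀} := by simp
        have h2 : (Sum.inr p.2 : ι ⊕ F) ∈ {j : ι ⊕ F | j ≠ Sum.inr f₀} := fun hh =>
          hf (Sum.inr.inj hh)
        exact FG_le_FLow (S := {j : ι ⊕ F | j ≠ Sum.inr f₀}) (by simp) M
          (xx_mem_FG (N := M) _ h1 h2 (h _ _))
  have e2 := key Finset.univ
  rw [Fintype.sum_prod_type, ← e] at e2
  exact e2

/-- the block triangular element -/
noncomputable def wtr (U : SpecialLinearGroup ι ℤ[X]) (B : Matrix ι F ℤ[X]) :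
    SpecialLinearGroup (ι ⊕ F) ℤ[X] :=
  ⟨fromBlocks (U : Matrix ι ι ℤ[X]) B 0 1, by
    rw [det_fromBlocks_zero₂₁, U.det_coe, det_one, mul_one]⟩

lemma wup_mul_wtr (U : SpecialLinearGroup ι ℤ[X]) (B C : Matrix ι F ℤ[X]) :
    wup C * wtr U B = wtr U (B + C) := by
  apply Subtype.ext
  change fromBlocks (1 : Matrix ι ι ℤ[X]) C 0 (1 : Matrix F F ℤ[X]) *
    fromBlocks (U : Matrix ι ι ℤ[X]) B 0 1 = fromBlocks (U : Matrix ι ι ℤ[X]) (B + C) 0 1
  rw [fromBlocks_multiply]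
  simp

lemma wtr_entries (U : SpecialLinearGroup ι ℤ[X]) {B B' : Matrix ι F ℤ[X]}
    (h : ∀ i f, B' i f = 0 ∨ B' i f = B i f) (a b : ι ⊕ F) :
    (wtr U B' : Matrix (ι ⊕ F) (ι ⊕ F) ℤ[X]) a b = (1 : Matrix (ι ⊕ F) (ι ⊕ F) ℤ[X]) a b ∨
      (wtr U B' : Matrix (ι ⊕ F) (ι ⊕ F) ℤ[X]) a b =
        (wtr U B : Matrix (ι ⊕ F) (ι ⊕ F) ℤ[X]) a b := by
  rcases a with i | f
  · rcases b with j | f'
    · exact Or.inr rfl
    · rcases h i f' with h1 | h1
      · refine Or.inl ?_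
        rw [Matrix.one_apply_ne (by simp)]
        exact h1
      · exact Or.inr h1
  · rcases b with j | f'
    · exact Or.inr rfl
    · exact Or.inr rfl

/-- STRIP: the source columns of a block triangular twist may be removed. -/
theorem strip {r : ℝ} (hr : 0 < r) (hr1 : r < 1) (ι F : Type) [Fintype ι] [DecidableEq ι]
    [Fintype F] [DecidableEq F] {a C : ℝ} (ha : 0 < a) (hC : 0 ≤ C) (N : ℕ) {f₀ f₁ : F}
    (hf : f₀ ≠ f₁) :
    ∃ N₁ : ℕ, ∃ ε : ℝ, 0 < ε ∧ ∀ M ≥ N₁, ∀ (κ : Type) [Fintype κ]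
      (P : Matrix (κ ⊕ (ι ⊕ F)) (κ ⊕ (ι ⊕ F)) ℕ[X]) (S : Set κ) (D : Set (κ ⊕ (ι ⊕ F)))
      (q : ι ⊕ F → κ ⊕ (ι ⊕ F) → PowerSeries ℤ), Frame P S D r a C N q →
      ∀ (U : SpecialLinearGroup ι ℤ[X]) (B : Matrix ι F ℤ[X]), (∀ i f, X ^ (2 * M) ∣ B i f) →
      Cg N (wtr U B) → nz r (wtr U B) ≤ ε →
      ∀ (S1 S2 : Set κ) (Q Q' : Matrix (κ ⊕ (ι ⊕ F)) (κ ⊕ (ι ⊕ F)) ℕ[X]),
        Fr P S1 (wtr U B : Matrix (ι ⊕ F) (ι ⊕ F) ℤ[X]) Q →
        Fr P S2 (wtr U (0 : Matrix ι F ℤ[X]) : Matrix (ι ⊕ F) (ι ⊕ F) ℤ[X]) Q' → PEqv Q Q' := by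
  obtain ⟨N₀, ε, hε, hT⟩ := frame_thm hr hr1 (ι ⊕ F) ha hC N
  have hC1 : 0 < C + 1 := by linarith
  refine ⟨N₀, min ε (a / (C + 1)), lt_min hε (by positivity), ?_⟩
  intro M hM κ _ P S D q Fm U B hB hN hnz S1 S2 Q Q' hQ hQ'
  set B2 : Matrix ι F ℤ[X] := fun i f => if f = f₀ then B i f else 0 with hB2
  have h2 : ∀ i f, B2 i f = 0 ∨ B2 i f = B i f := by
    intro i f
    simp only [hB2]
    by_cases h : f = f₀
    · rw [if_pos h]
      exact Or.inr rfl
    · rw [if_neg h]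
      exact Or.inl rfl
  have n1 : nz r (wtr U B2) ≤ nz r (wtr U B) := nz_le_of_entries hr.le (wtr_entries U h2)
  have n0 : nz r (wtr U (0 : Matrix ι F ℤ[X])) ≤ nz r (wtr U B) :=
    nz_le_of_entries hr.le (wtr_entries U fun i f => Or.inl rfl)
  have c1 : Cg N (wtr U B2) := Cg_of_entries (wtr_entries U h2) hN
  have hε1 : nz r (wtr U B) ≤ ε := hnz.trans (min_le_left _ _)
  have hε2 : nz r (wtr U B) ≤ a / (C + 1) := hnz.trans (min_le_right _ _)
  obtain ⟨R, hR⟩ := Fm.exists_fr (ρ := a / (C + 1)) (by rw [div_mul_cancel₀ a hC1.ne'])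
    (wtr U B2) (n1.trans hε2) c1
  refine PEqv.trans (Q := R) ?_ ?_
  · refine hT M hM κ P S D q Fm (wtr U B) (wtr U B2) (Sum.inr f₀) ?_ hε1 (n1.trans hε1) hN S1 S Q R
      hQ hR
    have e : wtr U B2 * (wtr U B)⁻¹ = wup (B2 - B) := by
      rw [mul_inv_eq_iff_eq_mul, wup_mul_wtr]
      congr 1
      abel
    rw [e]
    refine wup_mem_FLow (fun i => ?_) fun i f => ?_
    · simp [hB2]
    · rw [Matrix.sub_apply]
      refine dvd_sub ?_ (hB i f)
      rcases h2 i f with h | h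
      · rw [h]
        exact dvd_zero _
      · rw [h]
        exact hB i f
  · refine hT M hM κ P S D q Fm (wtr U B2) (wtr U 0) (Sum.inr f₁) ?_ (n1.trans hε1) (n0.trans hε1)
      c1 S S2 R Q' hR hQ'
    have e : wtr U 0 * (wtr U B2)⁻¹ = wup (-B2) := by
      rw [mul_inv_eq_iff_eq_mul, wup_mul_wtr]
      congr 1
      abel
    rw [e]
    refine wup_mem_FLow (fun i => ?_) fun i f => ?_
    · rw [Matrix.neg_apply, neg_eq_zero]
      simp only [hB2]
      rw [if_neg (Ne.symm hf)]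
    · rw [Matrix.neg_apply, dvd_neg]
      rcases h2 i f with h | h
      · rw [h]
        exact dvd_zero _
      · rw [h]
        exact hB i f

end strip

/-! ## the pair frame -/

section pgframe

lemma wn_toZ_le {r : ℝ} (hr : 0 ≤ r) {p q : ℕ[X]} (h : ∀ n, p.coeff n ≤ q.coeff n) :
    wn r (toR (toZ p)) ≤ wn r (toR (toZ q)) := by
  rw [wn_toZ_range (D := max p.natDegree q.natDegree + 1) r (by omega),
    wn_toZ_range (D := max p.natDegree q.natDegree + 1) r (by omega)]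
  refine Finset.sum_le_sum fun k _ => mul_le_mul_of_nonneg_right ?_ (by positivity)
  exact_mod_cast h k

lemma wn_toZ_X_mul {r : ℝ} (p : ℕ[X]) :
    wn r (toR (toZ (X * p))) = r * wn r (toR (toZ p)) := by
  rw [wn_toZ_range (D := p.natDegree + 1 + 1) r (by
      have := natDegree_X_mul_le p
      omega), wn_toZ_range (D := p.natDegree + 1) r (by omega), Finset.sum_range_succ', Finset.mul_sum]
  simp only [coeff_X_mul, mul_coeff_zero, coeff_X_zero, zero_mul, Nat.cast_zero, add_zero]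
  refine Finset.sum_congr rfl fun k _ => ?_
  ring
where
  natDegree_X_mul_le (p : ℕ[X]) : (X * p).natDegree ≤ p.natDegree + 1 := by
    refine (natDegree_mul_le).trans ?_
    have := natDegree_X_le (R := ℕ)
    omega

lemma wn_toZ_X_pow {r : ℝ} (hr : 0 ≤ r) (hr1 : r ≤ 1) (n : ℕ) :
    wn r (toR (toZ (X ^ n : ℕ[X]))) ≤ 1 := by
  rw [wn_toZ, Finset.sum_subset (s₂ := {n})]
  · rw [Finset.sum_singleton, coeff_X_pow, if_pos rfl, Nat.cast_one, one_mul]
    exact pow_le_one₀ hr hr1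
  · intro i hi
    rw [Polynomial.mem_support_iff, coeff_X_pow] at hi
    rw [Finset.mem_singleton]
    by_contra hne
    rw [if_neg hne] at hi
    exact hi rfl
  · intro i _ hi
    rw [Polynomial.notMem_support_iff.1 hi]
    simp

variable {ι F : Type} [Fintype ι] [DecidableEq ι] [Fintype F] [DecidableEq F]

/-- THE PAIR FRAME: explicit constants -/
theorem pg_frame {P : Matrix ι ι ℕ[X]} {x : ι} {q : ι → ℕ[X]} {k : F → ℕ}
    {w : ι → ℕ[X]} {s : ℕ[X]} {r c Bd : ℝ} {n0 A b : ℕ} (R : Ren s r c n0) (h : Tail P x q k w)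
    (hq : q x = s) (hqv : ∀ v, v ≠ x → ∃ a ≤ A, 1 ≤ (q v).coeff a) (hk : ∀ f, k f ≤ A)
    (hA : 1 ≤ A) (hw : ∃ b' ≤ b, 1 ≤ (w x).coeff b')
    (hP : ∀ v, v ≠ x → ∃ b' ≤ b, 1 ≤ (P v x).coeff b') (hb : 1 ≤ b)
    (hBd : ∀ i j, wn r (toR (toZ (P i j))) ≤ Bd) :
    Frame (pg P x q k w) {()} Set.univ r (c * r ^ (b + A))
      ((1 + Bd + r⁻¹ * Bd) * (1 + (1 + Bd + r⁻¹ * Bd))) (n0 + b + A + 1)
      (fun φ => hvis (pg P x q k w) () (fun j => toZ (pg P x q k w (Sum.inr φ) j))) := by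
  have hr := R.r0
  have hri : 0 < r⁻¹ := inv_pos.2 hr
  have hBd0 : 0 ≤ Bd := (wn_toZ_nonneg hr _).trans (hBd x x)
  have hX : ∀ n : ℕ, wn r (toR (toZ (X ^ n : ℕ[X]))) ≤ 1 + Bd + r⁻¹ * Bd := fun n =>
    (wn_toZ_X_pow hr.le R.r1.le n).trans (by nlinarith [mul_nonneg hri.le hBd0])
  have hX1 : wn r (toR (toZ (X : ℕ[X]))) ≤ 1 + Bd + r⁻¹ * Bd := by
    have := hX 1
    rwa [pow_one] at this
  have h0 : wn r (toR (toZ (0 : ℕ[X]))) ≤ 1 + Bd + r⁻¹ * Bd := by
    rw [wn_toZ]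
    simp only [support_zero, Finset.sum_empty]
    nlinarith [mul_nonneg hri.le hBd0]
  have hPB : ∀ i j, wn r (toR (toZ (P i j))) ≤ 1 + Bd + r⁻¹ * Bd := fun i j =>
    (hBd i j).trans (by nlinarith [mul_nonneg hri.le hBd0])
  have hqB : ∀ j, wn r (toR (toZ (q j))) ≤ 1 + Bd + r⁻¹ * Bd := by
    intro j
    refine (wn_toZ_le hr.le fun n => ?_).trans (hPB x j)
    rw [h.row j, coeff_add, coeff_add]
    omega
  have hwB : ∀ j, wn r (toR (toZ (w j))) ≤ 1 + Bd + r⁻¹ * Bd := by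
    intro j
    have h1 : wn r (toR (toZ (X * w j))) ≤ Bd := by
      refine (wn_toZ_le hr.le fun n => ?_).trans (hBd x j)
      rw [h.row j, coeff_add]
      omega
    rw [wn_toZ_X_mul] at h1
    have h2 : wn r (toR (toZ (w j))) ≤ r⁻¹ * Bd := by
      calc wn r (toR (toZ (w j))) = r⁻¹ * (r * wn r (toR (toZ (w j)))) := by
            rw [← mul_assoc, inv_mul_cancel₀ hr.ne', one_mul]
        _ ≤ _ := mul_le_mul_of_nonneg_left h1 hri.le
    linarith
  -- the entries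
  have e_hh : pg P x q k w (Sum.inl ()) (Sum.inl ()) = q x := by
    simp [pg]
  have e_hz : pg P x q k w (Sum.inl ()) (Sum.inr (Sum.inl x)) = X := by
    simp [pg]
  have e_hv : ∀ v, v ≠ x → pg P x q k w (Sum.inl ()) (Sum.inr (Sum.inl v)) = q v := by
    intro v hv
    simp [pg, epe_ne hv]
  have e_hf : ∀ f, pg P x q k w (Sum.inl ()) (Sum.inr (Sum.inr f)) = X ^ (k f) := by
    intro f
    simp [pg]
  have e_zh : pg P x q k w (Sum.inr (Sum.inl x)) (Sum.inl ()) = w x := by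
    simp [pg]
  have e_zz : pg P x q k w (Sum.inr (Sum.inl x)) (Sum.inr (Sum.inl x)) = 0 := by
    simp [pg]
  have e_zv : ∀ v, v ≠ x → pg P x q k w (Sum.inr (Sum.inl x)) (Sum.inr (Sum.inl v)) = w v := by
    intro v hv
    simp [pg, epe_ne hv]
  have e_zf : ∀ f, pg P x q k w (Sum.inr (Sum.inl x)) (Sum.inr (Sum.inr f)) = 0 := by
    intro f
    simp [pg]
  have e_vh : ∀ v, v ≠ x → pg P x q k w (Sum.inr (Sum.inl v)) (Sum.inl ()) = P v x := by
    intro v hv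
    simp [pg, epe_ne hv, hv]
  have e_vz : ∀ v, v ≠ x → pg P x q k w (Sum.inr (Sum.inl v)) (Sum.inr (Sum.inl x)) = 0 := by
    intro v hv
    simp [pg, epe_ne hv, hv]
  have e_vv : ∀ v v', v ≠ x → v' ≠ x →
      pg P x q k w (Sum.inr (Sum.inl v)) (Sum.inr (Sum.inl v')) = P v v' := by
    intro v v' hv hv'
    simp [pg, epe_ne hv, epe_ne hv', hv]
  have e_vf : ∀ v f, v ≠ x → pg P x q k w (Sum.inr (Sum.inl v)) (Sum.inr (Sum.inr f)) = 0 := by
    intro v f hv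
    simp [pg, epe_ne hv, hv]
  have e_fh : ∀ f, pg P x q k w (Sum.inr (Sum.inr f)) (Sum.inl ()) = X := by
    intro f
    simp [pg]
  have e_fi : ∀ f v, pg P x q k w (Sum.inr (Sum.inr f)) (Sum.inr (Sum.inl v)) = 0 := by
    intro f v
    by_cases hv : v = x
    · subst hv
      simp [pg]
    · simp [pg, epe_ne hv, hv]
  have e_ff : ∀ f f', pg P x q k w (Sum.inr (Sum.inr f)) (Sum.inr (Sum.inr f')) = 0 := by
    intro f f'
    simp [pg]
  have R' : Ren (pg P x q k w (Sum.inl ()) (Sum.inl ())) r c n0 := by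
    rw [e_hh, hq]
    exact R
  refine Ren.frame (x := ()) (D := Set.univ) (pg_pres h) R' (Set.mem_univ _) (fun φ => Set.mem_univ _)
    (fun φ j hj => absurd (Set.mem_univ _) hj) ?_ ?_ ?_ ?_
  · rintro (u | v | f) - hne
    · exact absurd rfl hne
    · by_cases hv : v = x
      · subst hv
        refine ⟨1, hA, ?_⟩
        rw [e_hz, coeff_X_one]
      · obtain ⟨a, ha, h1⟩ := hqv v hv
        refine ⟨a, ha, ?_⟩
        rw [e_hv v hv]
        exact h1
    · refine ⟨k f, hk f, ?_⟩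
      rw [e_hf, coeff_X_pow, if_pos rfl]
  · rintro (v | f)
    · by_cases hv : v = x
      · subst hv
        obtain ⟨b', hb', h1⟩ := hw
        refine ⟨b', hb', ?_⟩
        rw [e_zh]
        exact h1
      · obtain ⟨b', hb', h1⟩ := hP v hv
        refine ⟨b', hb', ?_⟩
        rw [e_vh v hv]
        exact h1
    · refine ⟨1, hb, ?_⟩
      rw [e_fh, coeff_X_one]
  · rintro (u | v | f) -
    · rw [e_hh]
      exact hqB x
    · by_cases hv : v = x
      · subst hv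
        rw [e_hz]
        exact hX1
      · rw [e_hv v hv]
        exact hqB v
    · rw [e_hf]
      exact hX _
  · rintro (v | f) (u | v' | f') -
    · by_cases hv : v = x
      · subst hv
        rw [e_zh]
        exact hwB v
      · rw [e_vh v hv]
        exact hPB v x
    · by_cases hv : v = x
      · subst hv
        by_cases hv' : v' = v
        · subst hv'
          rw [e_zz]
          exact h0
        · rw [e_zv v' hv']
          exact hwB v'
      · by_cases hv' : v' = x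
        · subst hv'
          rw [e_vz v hv]
          exact h0
        · rw [e_vv v v' hv hv']
          exact hPB v v'
    · by_cases hv : v = x
      · subst hv
        rw [e_zf]
        exact h0
      · rw [e_vf v f' hv]
        exact h0
    · rw [e_fh]
      exact hX1
    · rw [e_fi]
      exact h0
    · rw [e_ff]
      exact h0

/-- the reindexing of the environment -/
noncomputable def epk (x : ι) : ι ⊕ Unit ≃ Unit ⊕ ι where
  toFun := Sum.elim (fun i => if i = x then Sum.inl () else Sum.inr i) (fun _ => Sum.inr x)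
  invFun := Sum.elim (fun _ => Sum.inl x) (fun i => if i = x then Sum.inr () else Sum.inl i)
  left_inv := by
    rintro (i | u)
    · by_cases h : i = x
      · simp [h]
      · simp [h]
    · simp
  right_inv := by
    rintro (u | i)
    · simp
    · by_cases h : i = x
      · simp [h]
      · simp [h]

/-- twists of the sources: the reindexed gadget and the gadget -/
theorem pg_gad {P : Matrix ι ι ℕ[X]} {x : ι} {q : ι → ℕ[X]} {k : F → ℕ} {w : ι → ℕ[X]}
    (h : Tail P x q k w) {S : Set Unit} {S' : Set (ι ⊕ Unit)} {W : Matrix F F ℤ[X]}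
    {Q : Matrix (Unit ⊕ (ι ⊕ F)) (Unit ⊕ (ι ⊕ F)) ℕ[X]}
    {Q' : Matrix ((ι ⊕ Unit) ⊕ F) ((ι ⊕ Unit) ⊕ F) ℕ[X]}
    (hQ : Fr (pg P x q k w) S (fromBlocks 1 0 0 W) Q) (hQ' : Fr (gad P x q k w) S' W Q') :
    PEqv Q Q' := by
  obtain ⟨Q1, h1, p1⟩ := hQ.shrink (pg_pres h)
  have h2 := h1.reindex (epk x) (Equiv.refl F)
  have e : ((pg P x q k w).submatrix (esh Unit ι F) (esh Unit ι F)).submatrix
      (Equiv.sumCongr (epk x) (Equiv.refl F)) (Equiv.sumCongr (epk x) (Equiv.refl F)) =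
      gad P x q k w := by
    have hi : ∀ j : (ι ⊕ Unit) ⊕ F, epe F x (esh Unit ι F
        (Equiv.sumCongr (epk x) (Equiv.refl F) j)) = j := by
      rintro ((i | u) | f)
      · change epe F x (esh Unit ι F (Sum.inl (if i = x then Sum.inl () else Sum.inr i))) = _
        by_cases hi : i = x
        · subst hi
          rw [if_pos rfl]
          rfl
        · rw [if_neg hi]
          exact epe_ne hi
      · exact epe_tail x
      · rfl
    refine Matrix.ext fun i j => ?_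
    change gad P x q k w (epe F x (esh Unit ι F (Equiv.sumCongr (epk x) (Equiv.refl F) i)))
      (epe F x (esh Unit ι F (Equiv.sumCongr (epk x) (Equiv.refl F) j))) = _
    rw [hi, hi]
  rw [e] at h2
  exact p1.trans ((PEqv.reindex _ _).trans (h2.peqv hQ'))

end pgframe

/-! ## the pair theorem -/

section pairfinal

variable {ι : Type} [Fintype ι] [DecidableEq ι]

/-- stably elementary, inside a subset of the index set -/
theorem stable_set {J : Type} [Fintype J] [DecidableEq J] {m : ℕ} {U : SpecialLinearGroup ι ℤ[X]}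
    (hm : ∀ (J' : Type) [Fintype J'] [DecidableEq J'] (f : ι ↪ J'),
      Fintype.card ι + m ≤ Fintype.card J' → emb f U ∈ EG (Set.univ : Set J'))
    (S : Set J) (f : ι ↪ J) (hf : ∀ i, f i ∈ S) (hcard : Fintype.card ι + m ≤ Nat.card S) :
    emb f U ∈ EG S := by
  classical
  let g : ι ↪ ↥S := ⟨fun i => ⟨f i, hf i⟩, fun i j h => f.injective (congrArg Subtype.val h)⟩
  have h1 : emb g U ∈ EG (Set.univ : Set ↥S) := by
    refine hm ↥S g ?_
    rw [← Nat.card_eq_fintype_card (α := ↥S)]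
    exact hcard
  have h2 : emb (Function.Embedding.subtype (fun j => j ∈ S)) (emb g U) ∈
      (EG (Set.univ : Set ↥S)).map (emb (Function.Embedding.subtype (fun j => j ∈ S))) :=
    Subgroup.mem_map_of_mem _ h1
  rw [map_EG, emb_trans] at h2
  refine EG_mono ?_ h2
  rintro _ ⟨j, -, rfl⟩
  exact j.2

/-- **The pair theorem.** `P_B` has the class of a twist of the gadget of `P_A` by a small element
of the elementary group of three of the sources. -/
theorem pair_final (x : ι) (U0 : SpecialLinearGroup ι ℤ[X])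
    (h0 : ∀ j, j ≠ x → X ∣ (U0 : Matrix ι ι ℤ[X]) x j) :
    ∃ m : ℕ, ∀ (F : Type) [Fintype F] [DecidableEq F] (k : F → ℕ), m + 2 ≤ Fintype.card F →
      ∀ (f1 f2 f3 p p' : F), f1 ≠ f2 → f1 ≠ f3 → f2 ≠ f3 → p ∉ ({f1, f2, f3} : Set F) →
      p' ∉ (insert p ({f1, f2, f3} : Set F) : Set F) →
      ∀ (s : ℕ[X]) (r c : ℝ) (n0 : ℕ), Ren s r c n0 → ∀ (A b : ℕ) (Bd : ℝ), 1 ≤ A → 1 ≤ b →
      (∀ f, k f ≤ A) → ∀ (N : ℕ) (ρ δ : ℝ), 0 < ρ → ρ < 1 → 0 < δ →
      ∃ (T : ℕ) (ε : ℝ), 0 < ε ∧ ∀ (V W : SpecialLinearGroup ι ℤ[X]), V ∈ EX ι → W ∈ EX ι →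
      ∀ (PA PB : Matrix ι ι ℕ[X]) (q wA wB : ι → ℕ[X]), Tail PA x q k wA → Tail PB x q k wB →
      IP PB = ((V * U0 * W⁻¹ : SpecialLinearGroup ι ℤ[X]) : Matrix ι ι ℤ[X]) * IP PA → q x = s →
      (∀ v, v ≠ x → ∃ a ≤ A, 1 ≤ (q v).coeff a) → (∃ b' ≤ b, 1 ≤ (wA x).coeff b') →
      (∀ v, v ≠ x → ∃ b' ≤ b, 1 ≤ (PA v x).coeff b') →
      (∀ i j, wn r (toR (toZ (PA i j))) ≤ Bd) →
      Cg T (V * U0 * W⁻¹) → nz r (V * U0 * W⁻¹) ≤ ε →
      ∃ Wt ∈ EG ({f1, f2, f3} : Set F), Cg N Wt ∧ nz ρ Wt ≤ δ ∧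
        ∀ (S : Set (ι ⊕ Unit)) (Q : Matrix ((ι ⊕ Unit) ⊕ F) ((ι ⊕ Unit) ⊕ F) ℕ[X]),
          Fr (gad PA x q k wA) S (Wt : Matrix F F ℤ[X]) Q → PEqv Q PB := by
  obtain ⟨m, hm⟩ := pair_elem x U0 h0
  refine ⟨m, ?_⟩
  intro F _ _ k hF f1 f2 f3 p p' h12 h13 h23 hp hp' s r c n0 R A b Bd hA hb hk N ρ δ hρ hρ1 hδ
  have hr := R.r0
  have hr1 := R.r1
  have hri : 0 < r⁻¹ := inv_pos.2 hr
  set Bd' : ℝ := max Bd 0 with hBd'
  have hBd0 : 0 ≤ Bd' := le_max_right _ _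
  set a : ℝ := c * r ^ (b + A) with ha_def
  have ha : 0 < a := mul_pos R.cpos (pow_pos hr _)
  set C : ℝ := (1 + Bd' + r⁻¹ * Bd') * (1 + (1 + Bd' + r⁻¹ * Bd')) with hC_def
  have hC : 0 ≤ C := by
    have : 0 ≤ r⁻¹ * Bd' := mul_nonneg hri.le hBd0
    rw [hC_def]
    positivity
  have hC1 : 0 < C + 1 := by linarith
  set N' : ℕ := n0 + b + A + 1 with hN'
  have hη : 0 < a / (C + 1) := by positivity
  -- level B
  have i12 : (Sum.inr f1 : ι ⊕ F) ≠ Sum.inr f2 := fun h => h12 (Sum.inr.inj h)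
  have i13 : (Sum.inr f1 : ι ⊕ F) ≠ Sum.inr f3 := fun h => h13 (Sum.inr.inj h)
  have i23 : (Sum.inr f2 : ι ⊕ F) ≠ Sum.inr f3 := fun h => h23 (Sum.inr.inj h)
  have himg : (Function.Embedding.inr : F ↪ ι ⊕ F) '' ({f1, f2, f3} : Set F) =
      ({Sum.inr f1, Sum.inr f2, Sum.inr f3} : Set (ι ⊕ F)) := by
    rw [Set.image_insert_eq, Set.image_insert_eq, Set.image_singleton]
    rfl
  have ip : (Sum.inr p : ι ⊕ F) ∉ ({Sum.inr f1, Sum.inr f2, Sum.inr f3} : Set (ι ⊕ F)) := by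
    rw [← himg]
    rintro ⟨f, hf, h⟩
    rw [Sum.inr.inj h] at hf
    exact hp hf
  have ip' : (Sum.inr p' : ι ⊕ F) ∉
      (insert (Sum.inr p) ({Sum.inr f1, Sum.inr f2, Sum.inr f3} : Set (ι ⊕ F)) : Set (ι ⊕ F)) := by
    rintro (h | h)
    · exact hp' (Or.inl (Sum.inr.inj h))
    · rw [← himg] at h
      obtain ⟨f, hf, h'⟩ := h
      rw [Sum.inr.inj h'] at hf
      exact hp' (Or.inr hf)
  have hpp : p ≠ p' := fun h => hp' (Or.inl h.symm)
  obtain ⟨N₁, ε₁, hN₁, hε₁, hLB⟩ := levelB (ι ⊕ F) hr hr1 ha hC N' i12 i13 i23 ip ip' (r' := ρ)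
    (δ := min δ (a / (C + 1))) hρ hρ1 (lt_min hδ hη)
  obtain ⟨N₂, ε₂, hε₂, hST⟩ := strip hr hr1 ι F ha hC N' hpp
  set M : ℕ := max (max N₁ N₂) (max N N') with hM
  have hM1 : N₁ ≤ M := le_trans (le_max_left _ _) (le_max_left _ _)
  have hM2 : N₂ ≤ M := le_trans (le_max_right _ _) (le_max_left _ _)
  have hM3 : N ≤ M := le_trans (le_max_left _ _) (le_max_right _ _)
  have hM4 : N' ≤ M := le_trans (le_max_right _ _) (le_max_right _ _)
  set K : ℝ := (1 + r + r⁻¹) * (1 + ∑ f, r ^ (k f)) with hK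
  have hK0 : 0 < K := by
    have : 0 ≤ ∑ f, r ^ (k f) := Finset.sum_nonneg fun f _ => by positivity
    rw [hK]
    positivity
  set η : ℝ := min (min ε₁ ε₂) (a / (C + 1)) with hη_def
  have hη0 : 0 < η := lt_min (lt_min hε₁ hε₂) hη
  refine ⟨4 * M + 2, η / K, by positivity, ?_⟩
  intro V W hV hW PA PB q wA wB hTA hTB hU hq hqv hwA hPA hBd hT hnz
  set U : SpecialLinearGroup ι ℤ[X] := V * U0 * W⁻¹ with hUdef
  obtain ⟨UJ, hUJ, hfr⟩ := pair_fr hTA hTB hU
  have hCgJ : Cg (4 * M + 1) UJ := Cg_uj hT hUJ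
  have hnzJ : nz r UJ ≤ η := by
    refine (nz_uj hUJ hr).trans ?_
    calc K * nz r U ≤ K * (η / K) := mul_le_mul_of_nonneg_left hnz hK0.le
      _ = η := mul_div_cancel₀ η hK0.ne'
  have hBd2 : ∀ i j, wn r (toR (toZ (PA i j))) ≤ Bd' := fun i j => (hBd i j).trans (le_max_left _ _)
  have Fm := pg_frame R hTA hq hqv hk hA hwA hPA hb hBd2
  -- the elementary part
  obtain ⟨U', hU'1, hU'2⟩ := hm V W hV hW
  have hC1' := Cg_one_of_pres hTA.pres hTB.pres hU
  have hdc : (U' : Matrix ι ι ℤ[X]) = dcM x (U : Matrix ι ι ℤ[X]) := by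
    refine hU'1.uniq (dcM_spec fun j hj => ?_)
    have := hC1' x j
    rw [pow_one, Matrix.one_apply_ne (Ne.symm hj), sub_zero] at this
    exact this
  set B : Matrix ι F ℤ[X] := of fun i f =>
    if i = x then divX ((U : Matrix ι ι ℤ[X]) x x - 1) * X ^ (k f) else (U : Matrix ι ι ℤ[X]) i x * X ^ (k f)
    with hB
  have hUJ2 : UJ = wtr U' B := by
    apply Subtype.ext
    rw [hUJ]
    change uj x k (U : Matrix ι ι ℤ[X]) = fromBlocks (U' : Matrix ι ι ℤ[X]) B 0 1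
    rw [hdc]
    rfl
  have hBd3 : ∀ i f, X ^ (2 * M) ∣ B i f := by
    intro i f
    have h1 := hCgJ (Sum.inl i) (Sum.inr f)
    rw [Matrix.one_apply_ne (by simp), sub_zero, hUJ2] at h1
    exact (pow_dvd_pow X (by omega)).trans h1
  have e0 : emb (Function.Embedding.inl : ι ↪ ι ⊕ F) U' = wtr U' 0 := by
    apply Subtype.ext
    rw [emb_inl_coe]
    rfl
  have hent : ∀ a b, (wtr U' (0 : Matrix ι F ℤ[X]) : Matrix (ι ⊕ F) (ι ⊕ F) ℤ[X]) a b =
      (1 : Matrix (ι ⊕ F) (ι ⊕ F) ℤ[X]) a b ∨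
      (wtr U' (0 : Matrix ι F ℤ[X]) : Matrix (ι ⊕ F) (ι ⊕ F) ℤ[X]) a b =
        (UJ : Matrix (ι ⊕ F) (ι ⊕ F) ℤ[X]) a b := by
    rw [hUJ2]
    exact wtr_entries U' fun i f => Or.inl rfl
  have hn1 : nz r (wtr U' (0 : Matrix ι F ℤ[X])) ≤ η := (nz_le_of_entries hr.le hent).trans hnzJ
  have hc1 : Cg (4 * M + 1) (wtr U' (0 : Matrix ι F ℤ[X])) := Cg_of_entries hent hCgJ
  have hmem : emb (Function.Embedding.inl : ι ↪ ι ⊕ F) U' ∈
      EG ({j | j ≠ Sum.inr p ∧ j ≠ Sum.inr p'} : Set (ι ⊕ F)) := by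
    refine stable_set hU'2 _ _ (fun i => ⟨by simp, by simp⟩) ?_
    have h1 : ({j | j ≠ Sum.inr p ∧ j ≠ Sum.inr p'} : Set (ι ⊕ F)) =
        (({Sum.inr p, Sum.inr p'} : Finset (ι ⊕ F))ᶜ : Finset (ι ⊕ F)) := by
      ext j
      rw [Finset.mem_coe, Finset.mem_compl, Finset.mem_insert, Finset.mem_singleton, not_or]
      rfl
    rw [h1, Nat.card_coe_set_eq, Set.ncard_coe_finset, Finset.card_compl, Fintype.card_sum,
      Finset.card_pair (fun h => hpp (Sum.inr.inj h))]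
    omega
  rw [e0] at hmem
  obtain ⟨W', hW'1, hW'2, hW'3, hW'4, hW'5⟩ := hLB Unit _ _ _ _ Fm M hM1 _ hmem
    (Cg_mono (by omega) hc1) (hn1.trans ((min_le_left _ _).trans (min_le_left _ _)))
  -- the element of the sources
  have hW'6 := hW'1
  rw [← himg, ← map_EG] at hW'6
  obtain ⟨Wt, hWt1, hWt2⟩ := hW'6
  -- existence
  obtain ⟨Q1, hQ1⟩ := Fm.exists_fr (ρ := a / (C + 1)) (by rw [div_mul_cancel₀ a hC1.ne'])
    (wtr U' (0 : Matrix ι F ℤ[X])) (hn1.trans (min_le_right _ _)) (Cg_mono (by omega) hc1)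
  obtain ⟨Q2, hQ2⟩ := Fm.exists_fr (ρ := a / (C + 1)) (by rw [div_mul_cancel₀ a hC1.ne'])
    W' (hW'3.trans (min_le_right _ _)) (Cg_mono (by omega) hW'2)
  have s1 : PEqv (pg PB x q k wB) Q1 := by
    rw [hUJ2] at hfr hCgJ hnzJ
    exact hST M hM2 Unit _ _ _ _ Fm U' B hBd3 (Cg_mono (by omega) hCgJ)
      (hnzJ.trans ((min_le_left _ _).trans (min_le_right _ _))) _ _ _ _ hfr hQ1
  have s2 : PEqv Q1 Q2 := hW'5 _ _ _ _ hQ1 hQ2
  refine ⟨Wt, hWt1, ?_, ?_, ?_⟩
  · rw [← Cg_emb (Function.Embedding.inr : F ↪ ι ⊕ F), hWt2]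
    exact Cg_mono (by omega) hW'2
  · rw [← nz_emb (Function.Embedding.inr : F ↪ ι ⊕ F), hWt2]
    exact hW'4.trans (min_le_left _ _)
  · intro S Q hQ
    rw [← hWt2, emb_inr_coe] at hQ2
    have s3 : PEqv Q2 Q := pg_gad hTA hQ2 hQ
    exact s3.symm.trans (s2.symm.trans (s1.symm.trans (pg_peqv hTB)))

end pairfinal

end Pool.Agent.SSE
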