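import Pool.Agent.SSE.G4
import Pool.Agent.SSE.PairL
import Pool.Agent.SSE.PF4
import Pool.Agent.SSE.LA
import Pool.Agent.SSE.CoreRed

/-!
# SSE project, part Asm: the final assembly

`LvA`: the level A data (depends on `A` only). `PairOut`, `PFOut`: what the hub part has to deliver
for the pair `(A, B)`. `asm`: finitely many classes. `mainCase_of_pf`: the main case.
-/

set_option autoImplicit false

open scoped BigOperators
open Matrix Polynomial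

namespace Pool.Agent.SSE

open Pool.Agent.helper52.SSE

/-- the loops of the hub which are needed: `s + ∑ X^(k i + 1)` -/
noncomputable def lps {F : Type} [Fintype F] (s : ℕ[X]) (k : F → ℕ) : ℕ[X] :=
  s + ∑ i, X ^ (k i + 1)

/-- LEVEL A DATA: a presentation with a hub `x`, no arcs of length one in its row, and the loops
`s` (with a renewal theorem) and `X^(k i + 1)`, `i : Fin 5`. -/
structure LvA (K : Type) [AddCommGroup K] [Module ℤ[X] K] (δ : ℤ[X]) where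
  I : Type
  fin : Fintype I
  g : I → K
  P : Matrix I I ℕ[X]
  x : I
  h : PresOf δ g P
  hx : ∀ j, (P x j).coeff 1 = 0
  s : ℕ[X]
  k : Fin 5 → ℕ
  hk : ∀ i, 0 < k i
  hs : ∀ n, (lps s k).coeff n ≤ (P x x).coeff n
  hr : ∃ (r c : ℝ) (n0 : ℕ), Ren s r c n0

attribute [instance] LvA.fin

section

variable {K : Type} [AddCommGroup K] [Module ℤ[X] K] {δ : ℤ[X]}

/-- What the hub part delivers for the pair `(A, B)`, starting from the state `S1` (side A).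
`x` is the hub, `g` are the classes, `U0` and all indices are independent of `m` and `T`;
the loops `k`, the polynomial `s` (radius `r`), the bounds are independent of `T`. -/
def PairOut {qB : ℕ[X]} (l : Fin 4 → ℕ) (S1 : PX K δ qB) {n : ℕ}
    (B : Matrix (Fin n) (Fin n) ℕ) : Prop :=
  ∃ (ι : Type) (_ : Fintype ι) (_ : DecidableEq ι) (x : ι) (g : ι → K)
    (U0 : SpecialLinearGroup ι ℤ[X]), (∀ j, j ≠ x → X ∣ (U0 : Matrix ι ι ℤ[X]) x j) ∧
    ∀ m : ℕ, ∃ (k : Fin m → ℕ) (s : ℕ[X]) (r c : ℝ) (n0 : ℕ) (R Bd : ℝ) (A b : ℕ),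
      (∀ i, 0 < k i) ∧ Ren s r c n0 ∧ r < R ∧
      ∀ T : ℕ, ∃ (PA PB : Matrix ι ι ℕ[X]) (q : ι → ℕ[X]) (V W : SpecialLinearGroup ι ℤ[X])
        (hA : PresOf δ g PA) (hqA : ∀ n, qB.coeff n ≤ (PA x x).coeff n)
        (hxA : ∀ j, (PA x j).coeff 1 = 0),
        PX.Rel S1 (⟨ι, inferInstance, g, PA, x, hA, hqA, hxA⟩ : PX K δ qB) ∧
        IsPres PB ∧ (∀ j, (PB x j).coeff 1 = 0) ∧ PEqv PB (ofMat B) ∧
        V ∈ EX ι ∧ W ∈ EX ι ∧
        IP PB = ((V * U0 * W⁻¹ : SpecialLinearGroup ι ℤ[X]) : Matrix ι ι ℤ[X]) * IP PA ∧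
        q x = s ∧ (∀ j, (q j).coeff 0 = 0) ∧
        (∀ j, j ≠ x → ∀ n, (q j).coeff n ≤ (PA x j).coeff n ∧ (q j).coeff n ≤ (PB x j).coeff n) ∧
        (∀ n, (lps s (Sum.elim l k : Fin 4 ⊕ Fin m → ℕ)).coeff n ≤ (PA x x).coeff n) ∧
        (∀ n, (lps s (Sum.elim l k : Fin 4 ⊕ Fin m → ℕ)).coeff n ≤ (PB x x).coeff n) ∧
        (∀ v, v ≠ x → ∃ a ≤ A, 1 ≤ (q v).coeff a) ∧
        (∃ b' ≤ b, (lps s (Sum.elim l k : Fin 4 ⊕ Fin m → ℕ)).coeff (b' + 1) <
          (PA x x).coeff (b' + 1)) ∧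
        (∀ v, v ≠ x → ∃ b' ≤ b, 1 ≤ (PA v x).coeff b') ∧
        (∀ i j, wn R (toR (toZ (PA i j))) ≤ Bd) ∧ (∀ i j, wn R (toR (toZ (PB i j))) ≤ Bd) ∧
        (∀ i j, ∀ n < T, (PA i j).coeff n = (PB i j).coeff n)

/-- What has to be delivered for `B`: the loops `sB`, `X^(l i + 1)` (`i : Fin 4`), the presentation
`P1` (only the row of the hub is changed) which has the loops of level A and of level B, and the
pair. -/
def PFOut (L : LvA K δ) {n : ℕ} (B : Matrix (Fin n) (Fin n) ℕ) : Prop :=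
  ∃ (sB : ℕ[X]) (l : Fin 4 → ℕ) (P1 : Matrix L.I L.I ℕ[X]) (h1 : PresOf δ L.g P1)
    (hq1 : ∀ n, (lps sB l).coeff n ≤ (P1 L.x L.x).coeff n) (hx1 : ∀ j, (P1 L.x j).coeff 1 = 0),
    (∀ i, 0 < l i) ∧ (∀ i, i ≠ L.x → P1 i = L.P i) ∧
    (∀ n, (lps L.s L.k + lps sB l).coeff n ≤ (P1 L.x L.x).coeff n) ∧
    (∃ (r c : ℝ) (n0 : ℕ), Ren sB r c n0) ∧ (∃ (r c : ℝ) (n0 : ℕ), Ren (L.s + sB) r c n0) ∧
    PairOut l (⟨L.I, L.fin, L.g, P1, L.x, h1, hq1, hx1⟩ : PX K δ (lps sB l)) B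

lemma wn_mono' {r ρ : ℝ} (hr : 0 ≤ r) (h : r ≤ ρ) (f : ℝ[X]) : wn r f ≤ wn ρ f := by
  unfold wn
  exact Finset.sum_le_sum fun k _ =>
    mul_le_mul_of_nonneg_left (pow_le_pow_left₀ hr h k) (abs_nonneg _)

/-- the tail splitting exists, general row -/
theorem exists_tail_gen {ι F : Type} [Fintype ι] [Fintype F] {P : Matrix ι ι ℕ[X]} (hP : IsPres P)
    {x : ι} {q : ι → ℕ[X]} {l : F → ℕ} (hl : ∀ i, 0 < l i) (hq0 : ∀ j, (q j).coeff 0 = 0)
    (hq : ∀ j, j ≠ x → ∀ n, (q j).coeff n ≤ (P x j).coeff n)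
    (hqx : ∀ n, (lps (q x) l).coeff n ≤ (P x x).coeff n)
    (hx : ∀ j, (P x j).coeff 1 = 0) : ∃ w, Tail P x q l w := by
  classical
  have key : ∀ j, ∃ w : ℕ[X], w.coeff 0 = 0 ∧
      P x j = q j + (if j = x then ∑ i, X ^ (l i + 1) else 0) + X * w := by
    intro j
    have h1 : ∃ r, P x j = (q j + (if j = x then ∑ i, X ^ (l i + 1) else 0)) + r := by
      apply exists_add_of_le
      intro n
      by_cases hj : j = x
      · subst hj
        rw [if_pos rfl]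
        exact hqx n
      · rw [if_neg hj, add_zero]
        exact hq j hj n
    obtain ⟨r, hr⟩ := h1
    have hr0 : r.coeff 0 = 0 := by
      have := congrArg (fun p => p.coeff 0) hr
      simp only [coeff_add] at this
      rw [hP] at this
      omega
    have hr1 : r.coeff 1 = 0 := by
      have := congrArg (fun p => p.coeff 1) hr
      simp only [coeff_add] at this
      rw [hx] at this
      omega
    refine ⟨r.divX, ?_, ?_⟩
    · rw [coeff_divX]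
      exact hr1
    · rw [divX_spec hr0]
      exact hr
  choose w hw0 hw using key
  exact ⟨w, hP, hq0, hw0, hl, fun j => cast (by congr) (hw j)⟩

lemma delta_coeff_zero {ι : Type} [Fintype ι] {g : ι → K} {P : Matrix ι ι ℕ[X]}
    (h : PresOf δ g P) : δ.coeff 0 = 1 := by
  classical
  have h1 : (IP P).det = δ := by
    have := h.relOf.det
    exact cast (by congr) this
  have h2 : (Polynomial.evalRingHom (0 : ℤ)).mapMatrix (IP P) = 1 := by
    ext i j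
    rw [RingHom.mapMatrix_apply, Matrix.map_apply, IP_apply, Matrix.one_apply]
    have := h.pres i j
    simp only [coe_evalRingHom]
    rw [← coeff_zero_eq_eval_zero, coeff_sub, coeff_toZ, this]
    split_ifs <;> simp
  rw [← h1, coeff_zero_eq_eval_zero]
  change (Polynomial.evalRingHom (0 : ℤ)) (IP P).det = 1
  rw [RingHom.map_det, h2, Matrix.det_one]

/-! ## the embeddings of `Fin 3` -/

/-- the first three of five -/
def e35 : Fin 3 ↪ Fin 5 := ⟨Fin.castLE (by norm_num), Fin.castLE_injective _⟩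
/-- the first three of four -/
def e34 : Fin 3 ↪ Fin 4 := ⟨Fin.castLE (by norm_num), Fin.castLE_injective _⟩

lemma image_fin3 {J : Type} (f : Fin 3 ↪ J) :
    f '' (Set.univ : Set (Fin 3)) = ({f 0, f 1, f 2} : Set J) := by
  ext j
  constructor
  · rintro ⟨i, -, rfl⟩
    fin_cases i
    · exact Or.inl rfl
    · exact Or.inr (Or.inl rfl)
    · exact Or.inr (Or.inr rfl)
  · rintro (rfl | rfl | rfl)
    · exact ⟨0, Set.mem_univ _, rfl⟩
    · exact ⟨1, Set.mem_univ _, rfl⟩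
    · exact ⟨2, Set.mem_univ _, rfl⟩

/-- **THE ASSEMBLY.** -/
theorem asm (L : LvA K δ) : ∃ (N : ℕ)
    (R : Fin N → Matrix ((L.I ⊕ Unit) ⊕ Fin 5) ((L.I ⊕ Unit) ⊕ Fin 5) ℕ[X]),
    ∀ (n : ℕ) (B : Matrix (Fin n) (Fin n) ℕ), PFOut L B → ∃ i, PEqv (ofMat B) (R i) := by
  obtain ⟨rf, cf, nf, Rf⟩ := L.hr
  obtain ⟨w0, hT0⟩ := exists_tail (s := L.s) (l := L.k) L.h.pres L.hk L.hs L.hx
  obtain ⟨kA, hkA⟩ : ∃ A, ∀ i, L.k i ≤ A :=
    ⟨Finset.univ.sup L.k, fun i => Finset.le_sup (f := L.k) (Finset.mem_univ i)⟩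
  have F0 := gad_frame Rf hT0 (hubq_self _ _) hkA
  have hrf := Rf.r0
  have hcf := Rf.cpos
  obtain ⟨N₁, ε₁, -, hε₁, m, R, hLA⟩ := levelA F0 Rf.r1 (by positivity)
    (x := (0 : Fin 5)) (y := 1) (z := 2) (p := 3) (p' := 4) (by decide) (by decide) (by decide)
    (by
      rintro (h | h | h)
      · exact absurd h (by decide)
      · exact absurd h (by decide)
      · exact absurd h (by decide))
    (by
      rintro (h | h | h | h)
      · exact absurd h (by decide)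
      · exact absurd h (by decide)
      · exact absurd h (by decide)
      · exact absurd h (by decide))
  refine ⟨m, R, ?_⟩
  rintro n B ⟨sB, l, P1, h1, hq1, hx1, hl, hP1, hs1, ⟨rB, cB, nB, RB⟩, ⟨rm, cm, nm, Rm⟩,
    ι, _, _, x, g, U0, hU0, hout⟩
  obtain ⟨m₀, hm₀⟩ := pair_final x U0 hU0
  obtain ⟨k, s, r, c, n0, Rr, Bd, A, b, hk, Rs, hrR, hT⟩ := hout (m₀ + 2)
  -- the radius
  set ρ : ℝ := max (max rf rB) (max rm r) with hρ
  have ρf : rf ≤ ρ := le_trans (le_max_left _ _) (le_max_left _ _)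
  have ρB : rB ≤ ρ := le_trans (le_max_right _ _) (le_max_left _ _)
  have ρm : rm ≤ ρ := le_trans (le_max_left _ _) (le_max_right _ _)
  have ρr : r ≤ ρ := le_trans (le_max_right _ _) (le_max_right _ _)
  have ρ0 : 0 < ρ := lt_of_lt_of_le hrf ρf
  have ρ1 : ρ < 1 := max_lt (max_lt Rf.r1 RB.r1) (max_lt Rm.r1 Rs.r1)
  obtain ⟨N₂, ε₂, hε₂, hex⟩ := exchange (Fin 3) (Fin 5) (Fin 4) Rf RB Rm L.k l ρf ρB ρm
  obtain ⟨N₃, ε₃, hε₃, hexB⟩ := gad_exists (Fin 4) l RB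
  obtain ⟨N₄, ε₄, hε₄, hexS⟩ := gad_exists (Fin 4 ⊕ Fin (m₀ + 2)) (Sum.elim l k) Rs
  obtain ⟨N₅, ε₅, hε₅, hexF⟩ := gad_exists (Fin 5) L.k Rf
  set NN : ℕ := max (max N₁ N₂) (max N₃ (max N₄ N₅)) with hNN
  have hN1 : N₁ ≤ NN := le_trans (le_max_left _ _) (le_max_left _ _)
  have hN2 : N₂ ≤ NN := le_trans (le_max_right _ _) (le_max_left _ _)
  have hN3 : N₃ ≤ NN := le_trans (le_max_left _ _) (le_max_right _ _)
  have hN4 : N₄ ≤ NN := le_trans (le_trans (le_max_left _ _) (le_max_right _ _)) (le_max_right _ _)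
  have hN5 : N₅ ≤ NN := le_trans (le_trans (le_max_right _ _) (le_max_right _ _)) (le_max_right _ _)
  set dl : ℝ := min (min ε₁ ε₂) (min ε₃ (min ε₄ ε₅)) with hdl
  have hdl0 : 0 < dl := lt_min (lt_min hε₁ hε₂) (lt_min hε₃ (lt_min hε₄ hε₅))
  have hd1 : dl ≤ ε₁ := le_trans (min_le_left _ _) (min_le_left _ _)
  have hd2 : dl ≤ ε₂ := le_trans (min_le_left _ _) (min_le_right _ _)
  have hd3 : dl ≤ ε₃ := le_trans (min_le_right _ _) (min_le_left _ _)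
  have hd4 : dl ≤ ε₄ := le_trans (min_le_right _ _) (le_trans (min_le_right _ _) (min_le_left _ _))
  have hd5 : dl ≤ ε₅ := le_trans (min_le_right _ _) (le_trans (min_le_right _ _) (min_le_right _ _))
  -- the pair theorem
  obtain ⟨kM, hkM⟩ : ∃ A, ∀ i, (Sum.elim l k : Fin 4 ⊕ Fin (m₀ + 2) → ℕ) i ≤ A :=
    ⟨Finset.univ.sup (Sum.elim l k : Fin 4 ⊕ Fin (m₀ + 2) → ℕ), fun i =>
      Finset.le_sup (f := (Sum.elim l k : Fin 4 ⊕ Fin (m₀ + 2) → ℕ)) (Finset.mem_univ i)⟩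
  have hinl : ∀ {a b : Fin 4}, a ≠ b → (Sum.inl a : Fin 4 ⊕ Fin (m₀ + 2)) ≠ Sum.inl b :=
    fun h h' => h (Sum.inl.inj h')
  obtain ⟨T₁, ε, hε, hpair⟩ := hm₀ (Fin 4 ⊕ Fin (m₀ + 2)) (Sum.elim l k)
    (by simp only [Fintype.card_sum, Fintype.card_fin]; omega)
    (Sum.inl 0) (Sum.inl 1) (Sum.inl 2) (Sum.inl 3) (Sum.inr 0)
    (hinl (by decide)) (hinl (by decide)) (hinl (by decide))
    (by
      rintro (h | h | h)
      · exact absurd (Sum.inl.inj h) (by decide)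
      · exact absurd (Sum.inl.inj h) (by decide)
      · exact absurd (Sum.inl.inj h) (by decide))
    (by
      rintro (h | h | h | h)
      · cases h
      · cases h
      · cases h
      · cases h)
    s r c n0 Rs (max (max A kM) 1) (max b 1) Bd (le_max_right _ _) (le_max_right _ _)
    (fun f => (hkM f).trans (le_trans (le_max_right _ _) (le_max_left _ _)))
    (4 * NN) ρ dl ρ0 ρ1 hdl0
  have hδ0 : δ.coeff 0 = 1 := delta_coeff_zero L.h
  obtain ⟨r₂, hr₂a, hr₂b, hroot⟩ := exists_radius δ hrR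
  have hr₂0 : 0 < r₂ := Rs.r0.trans hr₂a
  obtain ⟨T₀, hsr⟩ := small_ratio (J := ι) hr₂0 hr₂b hδ0 hroot
    (∑ _i : ι, ∑ _j : ι, (1 + Bd)) hε
  obtain ⟨PA, PB, q, V, W, hA, hqA, hxA, hrel, hPB, hxB, hPBB, hV, hW, hU, hqx, hq0, hqle, hlA, hlB,
    hqv, ⟨b0, hb0, hb0'⟩, hPAx, hRA, hRB, hagr⟩ := hT (max T₁ T₀)
  have hkl : ∀ i, 0 < (Sum.elim l k : Fin 4 ⊕ Fin (m₀ + 2) → ℕ) i := by
    rintro (i | i)
    · exact hl i
    · exact hk i
  obtain ⟨wA, hTA⟩ := exists_tail_gen (q := q) (l := (Sum.elim l k : Fin 4 ⊕ Fin (m₀ + 2) → ℕ))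
    hA.pres hkl hq0 (fun j hj n => (hqle j hj n).1) (by rw [hqx]; exact hlA) hxA
  obtain ⟨wB, hTB⟩ := exists_tail_gen (q := q) (l := (Sum.elim l k : Fin 4 ⊕ Fin (m₀ + 2) → ℕ))
    hPB hkl hq0 (fun j hj n => (hqle j hj n).2) (by rw [hqx]; exact hlB) hxB
  -- the matrix `U` is small
  have hmn : ∀ P : Matrix ι ι ℕ[X], (∀ i j, wn Rr (toR (toZ (P i j))) ≤ Bd) →
      mn Rr (toR.mapMatrix (IP P)) ≤ ∑ _i : ι, ∑ _j : ι, (1 + Bd) := by
    intro P hP
    have hRr : 0 ≤ Rr := (Rs.r0.trans hrR).le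
    unfold mn
    refine Finset.sum_le_sum fun i _ => Finset.sum_le_sum fun j _ => ?_
    rw [RingHom.mapMatrix_apply, Matrix.map_apply, IP_apply, map_sub]
    refine (wn_sub_le hRr _ _).trans (add_le_add ?_ (hP i j))
    split_ifs
    · rw [map_one, wn_one]
    · rw [map_zero, wn_zero]
      exact zero_le_one
  obtain ⟨hnz, hCg⟩ := hsr (max T₁ T₀) (le_max_right _ _) (V * U0 * W⁻¹) (IP PA) (IP PB)
    (cast (by congr) hA.relOf.det) hU.symm (hmn PA hRA) (hmn PB hRB) (by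
      intro i j
      rw [X_pow_dvd_iff]
      intro d hd
      rw [IP_apply, IP_apply, coeff_sub, coeff_sub, coeff_sub, coeff_toZ, coeff_toZ,
        hagr i j d hd]
      ring)
  have hCg' : Cg (max T₁ T₀) (V * U0 * W⁻¹) := hCg
  have hwx : 1 ≤ (wA x).coeff b0 := by
    have h2 := hTA.row x
    rw [if_pos rfl, hqx] at h2
    rw [h2] at hb0'
    have h3 : (s + ∑ i, X ^ ((Sum.elim l k : Fin 4 ⊕ Fin (m₀ + 2) → ℕ) i + 1) + X * wA x).coeff
        (b0 + 1) = (lps s (Sum.elim l k : Fin 4 ⊕ Fin (m₀ + 2) → ℕ)).coeff (b0 + 1) +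
        (wA x).coeff b0 := by
      rw [coeff_add, coeff_X_mul]
      rfl
    rw [h3] at hb0'
    omega
  obtain ⟨Wt, hWt1, hWt2, hWt3, hWt4⟩ := hpair V W hV hW PA PB q wA wB hTA hTB hU hqx
    (fun v hv => by
      obtain ⟨a, ha, h2⟩ := hqv v hv
      exact ⟨a, le_trans ha (le_trans (le_max_left _ _) (le_max_left _ _)), h2⟩)
    ⟨b0, le_trans hb0 (le_max_left _ _), hwx⟩
    (fun v hv => by
      obtain ⟨b', hb', h2⟩ := hPAx v hv
      exact ⟨b', le_trans hb' (le_max_left _ _), h2⟩)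
    (fun i j => (wn_mono' Rs.r0.le hrR.le _).trans (hRA i j))
    (Cg_mono (le_max_left _ _) hCg') ((nz_mono Rs.r0.le hr₂a.le _).trans hnz)
  -- the element of `SL_3`
  have himg : (e34.trans Function.Embedding.inl : Fin 3 ↪ Fin 4 ⊕ Fin (m₀ + 2)) ''
      (Set.univ : Set (Fin 3)) = ({Sum.inl 0, Sum.inl 1, Sum.inl 2} : Set _) := image_fin3 _
  have hWt5 := hWt1
  rw [← himg, ← map_EG] at hWt5
  obtain ⟨W3, hW31, hW32⟩ := hWt5
  have cW3 : Cg (4 * NN) W3 := by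
    rw [← Cg_emb (e34.trans Function.Embedding.inl : Fin 3 ↪ Fin 4 ⊕ Fin (m₀ + 2)), hW32]
    exact hWt2
  have nW3 : nz ρ W3 ≤ dl := by
    rw [← nz_emb (e34.trans Function.Embedding.inl : Fin 3 ↪ Fin 4 ⊕ Fin (m₀ + 2)), hW32]
    exact hWt3
  -- the chain of presentations
  obtain ⟨Q5, hQ5⟩ := hexS ι PA x q wA hTA hqx Wt (Cg_mono (by omega) hWt2)
    ((nz_mono Rs.r0.le ρr _).trans (hWt3.trans hd4))
  obtain ⟨w4, hT4⟩ := exists_tail (s := sB) (l := l) hA.pres hl hqA hxA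
  obtain ⟨w3, hT3⟩ := exists_tail (s := sB) (l := l) h1.pres hl hq1 hx1
  have hnB : nz rB (emb e34 W3) ≤ ε₃ := by
    rw [nz_emb]
    exact (nz_mono RB.r0.le ρB _).trans (nW3.trans hd3)
  have hcB : Cg N₃ (emb e34 W3) := (Cg_emb _ _ _).2 (Cg_mono (by omega) cW3)
  obtain ⟨Q4, hQ4⟩ := hexB ι PA x (hubq x sB) w4 hT4 (hubq_self _ _) (emb e34 W3) hcB hnB
  obtain ⟨Q3, hQ3⟩ := hexB L.I P1 L.x (hubq L.x sB) w3 hT3 (hubq_self _ _) (emb e34 W3) hcB hnB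
  obtain ⟨Q1, hQ1⟩ := hexF L.I L.P L.x (hubq L.x L.s) w0 hT0 (hubq_self _ _) (emb e35 W3)
    ((Cg_emb _ _ _).2 (Cg_mono (by omega) cW3))
    (by rw [nz_emb]; exact (nz_mono Rf.r0.le ρf _).trans (nW3.trans hd5))
  have s1 : PEqv Q5 PB := hWt4 _ _ hQ5
  have s2 : PEqv Q4 Q5 := by
    refine gad_change_left hT4 hTA hQ4 (S' := {Sum.inl x}) ?_
    rw [← emb_inl_eq, hW32]
    exact hQ5
  have s3 : PEqv Q3 Q4 := by
    refine PX.transfer (s := sB) (l := l) hl rfl (emb e34 W3) ?_ hrel hT3 hT4 hQ3 hQ4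
    intro I _ P x w hT
    exact hexB I P x (hubq x sB) w hT (hubq_self _ _) (emb e34 W3) hcB hnB
  have s4 : PEqv Q1 Q3 := by
    have hTf : ∃ w1, Tail P1 L.x (hubq L.x L.s) L.k w1 := by
      refine exists_tail h1.pres L.hk (fun n => ?_) hx1
      have := hs1 n
      rw [coeff_add] at this
      change (lps L.s L.k).coeff n ≤ _
      omega
    obtain ⟨w1, hT1⟩ := hTf
    have hTm : ∃ wm, Tail P1 L.x (hubq L.x (L.s + sB))
        (Sum.elim L.k l : Fin 5 ⊕ Fin 4 → ℕ) wm := by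
      refine exists_tail h1.pres ?_ (fun n => ?_) hx1
      · rintro (i | i)
        · exact L.hk i
        · exact hl i
      · have := hs1 n
        rw [Fintype.sum_sum_type]
        simp only [Sum.elim_inl, Sum.elim_inr]
        have e : L.s + sB + (∑ i, X ^ (L.k i + 1) + ∑ i, X ^ (l i + 1)) =
            lps L.s L.k + lps sB l := by
          unfold lps
          ring
        rw [e]
        exact this
    obtain ⟨wm, hTm⟩ := hTm
    refine hex NN hN2 L.I L.P P1 L.x (hubq L.x L.s) w0 w1 (hubq L.x sB) w3 (hubq L.x (L.s + sB)) wm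
      (hubq_self _ _) (hubq_self _ _) (hubq_self _ _) hT0 hT1 hT3 hTm hP1
      (PresOf.row_span L.h h1 L.x hP1) e35 e34 3 3 ?_ ?_ W3 cW3 (nW3.trans hd2) _ _ Q1 Q3 hQ1 hQ3
    · intro a
      fin_cases a <;> decide
    · intro a
      fin_cases a <;> decide
  have hmem : emb e35 W3 ∈ EG ({0, 1, 2} : Set (Fin 5)) := by
    have h2 : emb e35 W3 ∈ (EG (Set.univ : Set (Fin 3))).map (emb e35) :=
      Subgroup.mem_map_of_mem _ hW31
    rw [map_EG, image_fin3] at h2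
    exact h2
  obtain ⟨i, hi⟩ := hLA (emb e35 W3) hmem ((Cg_emb _ _ _).2 (Cg_mono (by omega) cW3))
    (by rw [nz_emb]; exact (nz_mono Rf.r0.le ρf _).trans (nW3.trans hd1)) _ Q1 hQ1
  exact ⟨i, hPBB.symm.trans (s1.symm.trans (s2.symm.trans (s3.symm.trans (s4.symm.trans hi))))⟩

end

/-- **THE MAIN CASE from the hub part.** -/
theorem mainCase_of_pf (H : ∀ (n : ℕ) (A : Matrix (Fin n) (Fin n) ℕ), 0 < n → Prim A →
    (∃ k i j, 2 ≤ (A ^ k) i j) → ∃ (K : Type) (_ : AddCommGroup K) (_ : Module ℤ[X] K) (δ : ℤ[X])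
      (L : LvA K δ), ∀ (m : ℕ) (B : Matrix (Fin m) (Fin m) ℕ), 0 < m → Prim B → SE A B →
        PFOut L B) : MainCase := by
  classical
  intro n A hn hA hbig
  obtain ⟨K, _, _, δ, L, hL⟩ := H n A hn hA hbig
  obtain ⟨N, R, hR⟩ := asm L
  set C : Fin N → NM := fun i => if h : ∃ X : NM, (0 < X.1 ∧ Prim X.2 ∧ SE A X.2) ∧
    PEqv (ofMat X.2) (R i) then h.choose else ⟨0, 0⟩ with hC
  refine ⟨N, C, ?_⟩
  rintro Y ⟨hY1, hY2, hY3⟩
  obtain ⟨i, hi⟩ := hR Y.1 Y.2 (hL Y.1 Y.2 hY1 hY2 hY3)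
  refine ⟨i, ?_⟩
  have hex : ∃ X : NM, (0 < X.1 ∧ Prim X.2 ∧ SE A X.2) ∧ PEqv (ofMat X.2) (R i) :=
    ⟨Y, ⟨hY1, hY2, hY3⟩, hi⟩
  have hCi : C i = hex.choose := by
    simp only [hC]
    rw [dif_pos hex]
  rw [hCi]
  have h2 := hex.choose_spec.2
  exact sse_of_peqv (hi.trans h2.symm)

/-- **THE FROZEN STATEMENT from the hub part.** -/
theorem frozen_of_pf (H : ∀ (n : ℕ) (A : Matrix (Fin n) (Fin n) ℕ), 0 < n → Prim A →
    (∃ k i j, 2 ≤ (A ^ k) i j) → ∃ (K : Type) (_ : AddCommGroup K) (_ : Module ℤ[X] K) (δ : ℤ[X])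
      (L : LvA K δ), ∀ (m : ℕ) (B : Matrix (Fin m) (Fin m) ℕ), 0 < m → Prim B → SE A B →
        PFOut L B) :
    ∀ (n : ℕ) (A : Matrix (Fin n) (Fin n) ℕ), 0 < n → (∃ k : ℕ, ∀ i j, 0 < (A ^ k) i j) →
    ∃ (N : ℕ) (C : Fin N → Σ m : ℕ, Matrix (Fin m) (Fin m) ℕ),
      ∀ (m : ℕ) (B : Matrix (Fin m) (Fin m) ℕ),
        (∃ (l : ℕ) (R : Matrix (Fin n) (Fin m) ℕ) (S : Matrix (Fin m) (Fin n) ℕ),
          0 < l ∧ A ^ l = R * S ∧ B ^ l = S * R ∧ A * R = R * B ∧ S * A = B * S) →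
        ∃ i : Fin N, Relation.EqvGen
          (fun X Y : Σ p : ℕ, Matrix (Fin p) (Fin p) ℕ =>
            ∃ (R : Matrix (Fin X.1) (Fin Y.1) ℕ) (S : Matrix (Fin Y.1) (Fin X.1) ℕ),
              X.2 = R * S ∧ Y.2 = S * R)
          ⟨m, B⟩ (C i) :=
  fin_of_main (mainCase_of_pf H)

end Pool.Agent.SSE
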