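import Pool.Agent.SSE.S1X
import Pool.Agent.SSE.Asm

/-!
# SSE project, hub part: the level A data `LvA` from `S1D`
-/

set_option autoImplicit false

open scoped BigOperators
open Matrix Polynomial

namespace Pool.Agent.SSE

attribute [local instance] Classical.propDecidable

/-- the loops `X ^ b + X ^ (b + 1)` -/
noncomputable def s2 (b : ℕ) : ℕ[X] := X ^ b + X ^ (b + 1)

/-- the loops `X ^ (b + 2 + i)` -/
def k2 (b N : ℕ) : Fin N → ℕ := fun i => b + 1 + i

theorem coeff_lps_s2 (b N n : ℕ) : (lps (s2 b) (k2 b N)).coeff n ≤ 1 ∧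
    ((n < b ∨ b + 1 + N < n) → (lps (s2 b) (k2 b N)).coeff n = 0) := by
  unfold lps s2
  rw [coeff_add, coeff_add, coeff_X_pow, coeff_X_pow, finsetSum_coeff]
  simp only [coeff_X_pow]
  by_cases h : ∃ i : Fin N, n = k2 b N i + 1
  · obtain ⟨i, hi⟩ := h
    rw [Finset.sum_eq_single i]
    · unfold k2 at hi
      have hi' := i.2
      rw [if_neg (by omega), if_neg (by omega), if_pos (by unfold k2; omega)]
      refine ⟨le_rfl, fun h => ?_⟩
      omega
    · intro j _ hj
      rw [if_neg]
      intro h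
      apply hj
      unfold k2 at hi h
      exact Fin.ext (by omega)
    · intro h
      exact absurd (Finset.mem_univ _) h
  · rw [Finset.sum_eq_zero fun i _ => if_neg fun h' => h ⟨i, h'⟩, add_zero]
    constructor
    · by_cases h1 : n = b
      · rw [if_pos h1, if_neg (by omega), add_zero]
      · rw [if_neg h1]
        split_ifs <;> omega
    · intro h1
      rw [if_neg (by omega), if_neg (by omega), add_zero]

theorem ren_s2 {b : ℕ} (hb : 0 < b) : ∃ (r c : ℝ) (n0 : ℕ), Ren (s2 b) r c n0 := by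
  have h0 : (s2 b).coeff 0 = 0 := by
    unfold s2
    rw [coeff_add, coeff_X_pow, coeff_X_pow, if_neg (by omega), if_neg (by omega), add_zero]
  obtain ⟨r, r0, r1, hr⟩ := exists_root h0 (by
    unfold s2
    simp)
  obtain ⟨c, n0, h⟩ := exists_ren h0 r0 r1 hr (fun g hg => by
    have h1 := hg b (by
      unfold s2
      rw [coeff_add, coeff_X_pow, coeff_X_pow, if_pos rfl]
      omega)
    have h2 := hg (b + 1) (by
      unfold s2
      rw [coeff_add, coeff_X_pow, coeff_X_pow, if_pos rfl]
      omega)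
    exact Nat.dvd_one.1 ((Nat.dvd_add_right h1).1 h2))
  exact ⟨r, c, n0, h⟩

section

variable {K : Type} [AddCommGroup K] [Module ℤ[X] K] {δ : ℤ[X]} {D : PFM K δ} {ξ : K}

/-- loops which are below `H` are below the expanded row -/
theorem S1D.lps_le (S : S1D D ξ) {b N E : ℕ} (hb : S.b0 ≤ b) (hE : b + 1 + N ≤ E) (n : ℕ) :
    (lps (s2 b) (k2 b N)).coeff n ≤ (S.xrow E none).coeff n := by
  obtain ⟨h1, h2⟩ := coeff_lps_s2 b N n
  by_cases hn : n < b ∨ b + 1 + N < n
  · rw [h2 hn]
    exact Nat.zero_le _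
  · push Not at hn
    refine h1.trans ?_
    have h3 := S.xrow_none_le (show n ≤ E by omega)
    have h4 := S.hb0 n (by omega)
    rw [← h3] at h4
    exact_mod_cast h4

/-- the degree of the loops of level A -/
noncomputable def S1D.lb (S : S1D D ξ) : ℕ := max S.b0 3

theorem S1D.b0_le_lb (S : S1D D ξ) : S.b0 ≤ S.lb := le_max_left _ _

theorem S1D.three_le_lb (S : S1D D ξ) : 3 ≤ S.lb := le_max_right _ _

/-- the level A data -/
noncomputable def S1D.lvA (S : S1D D ξ) : LvA K δ where
  I := Option S.F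
  fin := inferInstance
  g := S.cls
  P := S.PE (S.lb + 6)
  x := none
  h := (S.PE_pres (by have := S.three_le_lb; omega)).2
  hx := fun j => S.xrow_low (by have := S.three_le_lb; omega) j (by norm_num)
  s := s2 S.lb
  k := k2 S.lb 5
  hk := fun i => by unfold k2; omega
  hs := fun n => S.lps_le S.b0_le_lb (by omega) n
  hr := ren_s2 (by have := S.three_le_lb; omega)

/-- the loops of level A and of level B -/
theorem S1D.lps_add_le (S : S1D D ξ) {b E : ℕ} (hb : S.lb + 7 ≤ b) (hE : b + 5 ≤ E) (n : ℕ) :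
    (lps (s2 S.lb) (k2 S.lb 5) + lps (s2 b) (k2 b 4)).coeff n ≤ (S.xrow E none).coeff n := by
  rw [coeff_add]
  obtain ⟨h1, h2⟩ := coeff_lps_s2 b 4 n
  obtain ⟨h3, h4⟩ := coeff_lps_s2 S.lb 5 n
  rcases lt_or_ge n b with hn | hn
  · rw [h2 (Or.inl hn), add_zero]
    exact S.lps_le S.b0_le_lb (by omega) n
  · rw [h4 (Or.inr (by omega)), zero_add]
    exact S.lps_le (by have := S.b0_le_lb; omega) (by omega) n

/-- `PFOut` from `PairOut` -/
theorem S1D.pfOut (S : S1D D ξ) {n : ℕ} {B : Matrix (Fin n) (Fin n) ℕ} {b E : ℕ}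
    (hb : S.lb + 7 ≤ b) (hE : b + 5 ≤ E)
    (hpair : PairOut (k2 b 4) (S.px E (by omega) (lps (s2 b) (k2 b 4)) (fun n =>
      S.lps_le (by have := S.b0_le_lb; omega) (by omega) n)) B) : PFOut S.lvA B := by
  refine ⟨s2 b, k2 b 4, S.PE E, (S.PE_pres (by omega)).2, fun n =>
      S.lps_le (by have := S.b0_le_lb; omega) (by omega) n,
    fun j => S.xrow_low (by omega) j (by norm_num), fun i => by unfold k2; omega, ?_, ?_,
    ren_s2 (by omega), ?_, hpair⟩
  · rintro (_ | i) hi
    · exact absurd rfl hi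
    · rfl
  · exact fun n => S.lps_add_le hb hE n
  · have hb3 := S.three_le_lb
    have h0 : (s2 S.lb + s2 b).coeff 0 = 0 := by
      unfold s2
      simp only [coeff_add, coeff_X_pow]
      rw [if_neg (by omega), if_neg (by omega), if_neg (by omega), if_neg (by omega)]
      simp
    obtain ⟨r, r0, r1, hr⟩ := exists_root h0 (by
      unfold s2
      simp)
    obtain ⟨c, n0, h⟩ := exists_ren h0 r0 r1 hr (fun g hg => by
      have h1 := hg S.lb (by
        unfold s2
        simp only [coeff_add, coeff_X_pow, if_true]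
        omega)
      have h2 := hg (S.lb + 1) (by
        unfold s2
        simp only [coeff_add, coeff_X_pow, if_true]
        omega)
      exact Nat.dvd_one.1 ((Nat.dvd_add_right h1).1 h2))
    exact ⟨r, c, n0, h⟩

end

/-- the number of loops -/
theorem eval_lps_s2 (b N : ℕ) : (lps (s2 b) (k2 b N)).eval 1 = N + 2 := by
  unfold lps s2
  rw [eval_add, eval_add, eval_finsetSum]
  simp
  ring

end Pool.Agent.SSE
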