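import Pool.Agent.SSE.HOut
import Pool.Agent.SSE.Lev0
import Pool.Agent.SSE.S1D
import Pool.Agent.SSE.S1L
import Pool.Agent.SSE.BR9

/-!
# SSE project, final glue: from Theorem H to the frozen statement
-/

set_option autoImplicit false

open scoped BigOperators
open Matrix Polynomial

namespace Pool.Agent.SSE

open Pool.Agent.helper52.SSE

attribute [local instance] Classical.propDecidable

theorem pairOut_of_hub {K : Type} [AddCommGroup K] [Module ℤ[X] K] {δ : ℤ[X]} {sB : ℕ[X]}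
    {l : Fin 4 → ℕ} {S1 : PX K δ (lps sB l)} {n m : ℕ} {A : Matrix (Fin n) (Fin n) ℕ}
    {B : Matrix (Fin m) (Fin m) ℕ} (hA : Prim A) (hB : Prim B) (hS1 : PEqv S1.P (ofMat A))
    (h : HubOut S1 B) : PairOut l S1 B := by
  obtain ⟨I, _, x, r, θ, Bd, L, cl, SB, hSB, hL, hval, hrA, hrB⟩ := h
  obtain ⟨kA, hkA, hA⟩ := hA
  obtain ⟨kB, hkB, hB⟩ := hB
  obtain ⟨L', r', hcov, hreach⟩ := cover (K := K) (δ := δ) hL (lps sB l) hrA.q_le hval 10
  refine pairOut_of_cov hSB hcov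
    (hreach (lps sB l) (fun _ => le_rfl) S1 (fun P hP hPS => ?_) cl hrA)
    (hreach 0 (fun d => ?_) SB (fun P hP hPS => ?_) cl hrB)
  · exact irr_of_prim (A := A) (k := kA) hkA (fun i j => cast (congrArg (fun M : Matrix _ _ ℕ => 0 < M i j)
      (by congr <;> exact Subsingleton.elim _ _)) (hA i j)) hP (hPS.trans hS1)
  · rw [Polynomial.coeff_zero]
    exact Nat.zero_le _
  · exact irr_of_prim (A := B) (k := kB) hkB (fun i j => cast (congrArg (fun M : Matrix _ _ ℕ => 0 < M i j)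
      (by congr <;> exact Subsingleton.elim _ _)) (hB i j)) hP (hPS.trans hSB)

/-- THE FROZEN STATEMENT from Theorem H -/
theorem frozen_of_thmH (hH : ThmH) :
    ∀ (n : ℕ) (A : Matrix (Fin n) (Fin n) ℕ), 0 < n → (∃ k : ℕ, ∀ i j, 0 < (A ^ k) i j) →
    ∃ (N : ℕ) (C : Fin N → Σ m : ℕ, Matrix (Fin m) (Fin m) ℕ),
      ∀ (m : ℕ) (B : Matrix (Fin m) (Fin m) ℕ),
        (∃ (l : ℕ) (R : Matrix (Fin n) (Fin m) ℕ) (S : Matrix (Fin m) (Fin n) ℕ),
          0 < l ∧ A ^ l = R * S ∧ B ^ l = S * R ∧ A * R = R * B ∧ S * A = B * S) →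
        ∃ i : Fin N, Relation.EqvGen
          (fun X Y : Σ p : ℕ, Matrix (Fin p) (Fin p) ℕ =>
            ∃ (R : Matrix (Fin X.1) (Fin Y.1) ℕ) (S : Matrix (Fin Y.1) (Fin X.1) ℕ),
              X.2 = R * S ∧ Y.2 = S * R)
          ⟨m, B⟩ (C i) := by
  refine frozen_of_pf fun n A hn hA hbig => ?_
  obtain ⟨K, _, _, δ, D, g, ξ, hg, hgpos, hξ0, hξ, ⟨p, hp, hpA⟩, hBs⟩ := lev0 A hn hA hbig
  obtain ⟨SA, hSA⟩ := exists_S1D D hn hp (A := A) (fun i j => cast (congrArg (fun M : Matrix _ _ ℕ => 2 ≤ M i j)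
      (by congr <;> exact Subsingleton.elim _ _)) (hpA i j)) hg hgpos hξ0 hξ
  refine ⟨K, _, _, δ, SA.lvA, fun m B hm hB hAB => ?_⟩
  obtain ⟨gB, hgB, hgBpos, hξB, p', hp', hpB⟩ := hBs m B hm hB hAB
  obtain ⟨SB, hSB⟩ := exists_S1D D hm hp' (A := B) (fun i j => cast (congrArg (fun M : Matrix _ _ ℕ => 2 ≤ M i j)
      (by congr <;> exact Subsingleton.elim _ _)) (hpB i j)) hgB hgBpos hξ0
    hξB
  obtain ⟨P, hP, hH'⟩ := hH D SA SB B hSB (SA.lb + 7)
  obtain ⟨E1, hE1⟩ := hH' (lps (s2 (P + 1)) (k2 (P + 1) 4)) (fun d => (coeff_lps_s2 _ _ d).1)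
    (fun d hd => (coeff_lps_s2 _ _ d).2 (Or.inl (by omega)))
    (by rw [eval_lps_s2])
  have hlb := SA.b0_le_lb
  refine SA.pfOut (b := P + 1) (E := E1 + P + 10) (by omega) (by omega)
    (pairOut_of_hub hA hB ?_ (hE1 (E1 + P + 10) (by omega) (by omega)
      (fun n => SA.lps_le (by omega) (by omega) n)))
  exact (SA.PE_pres (E := E1 + P + 10) (by omega)).1.symm.trans hSA

end Pool.Agent.SSE
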