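import Pool.Agent.helper52.SSE.Core

/-!
# Strong shift equivalence of nonnegative integer matrices over finite types: basic moves
-/

set_option autoImplicit false

open scoped BigOperators
open Matrix

namespace Pool.Agent.SSE

open Pool.Agent.helper52.SSE

attribute [local instance] Classical.propDecidable

/-- strong shift equivalence of square matrices over `ℕ` indexed by finite types -/
def Eqv {α β : Type} [Fintype α] [Fintype β] (X : Matrix α α ℕ) (Y : Matrix β β ℕ) : Prop :=
  SSE (toNM X) (toNM Y)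

variable {α β γ V W : Type} [Fintype α] [Fintype β] [Fintype γ] [Fintype V] [Fintype W]

theorem Eqv.refl (X : Matrix α α ℕ) : Eqv X X := Relation.EqvGen.refl _

theorem Eqv.symm {X : Matrix α α ℕ} {Y : Matrix β β ℕ} (h : Eqv X Y) : Eqv Y X :=
  Relation.EqvGen.symm _ _ h

theorem Eqv.trans {X : Matrix α α ℕ} {Y : Matrix β β ℕ} {Z : Matrix γ γ ℕ} (h : Eqv X Y)
    (h' : Eqv Y Z) : Eqv X Z := Relation.EqvGen.trans _ _ _ h h'

theorem Eqv.of_mul (R : Matrix α β ℕ) (S : Matrix β α ℕ) : Eqv (R * S) (S * R) :=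
  Relation.EqvGen.rel _ _ (elem_toNM R S rfl rfl)

theorem Eqv.of_eq {X Y : Matrix α α ℕ} (h : X = Y) : Eqv X Y := h ▸ Eqv.refl X

/-- reindexing -/
theorem Eqv.reindex (X : Matrix α α ℕ) (e : β ≃ α) : Eqv X (X.submatrix e e) := by
  have h := Eqv.of_mul (X.submatrix id e) ((1 : Matrix α α ℕ).submatrix e id)
  have h1 : X.submatrix id e * (1 : Matrix α α ℕ).submatrix e id = X := by
    have := Matrix.submatrix_mul_equiv X (1 : Matrix α α ℕ) id e id
    rw [Matrix.mul_one] at this
    exact this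
  have h2 : (1 : Matrix α α ℕ).submatrix e id * X.submatrix id e = X.submatrix e e := by
    have := Matrix.submatrix_mul_equiv (1 : Matrix α α ℕ) X e (Equiv.refl _) e
    rw [Matrix.one_mul] at this
    exact this
  rwa [h1, h2] at h

theorem Eqv.of_fin {m : ℕ} (B : Matrix (Fin m) (Fin m) ℕ) :
    SSE ⟨m, B⟩ (toNM B) := Relation.EqvGen.rel _ _ (elem_self B)

/-- The fundamental move: a state with a new row. -/
theorem fund (A : Matrix V V ℕ) (u v : V → ℕ) :
    Eqv (A + vecMulVec u v)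
      (fromBlocks A (replicateCol Unit u) (replicateRow Unit (v ᵥ* A))
        (of fun _ _ => v ⬝ᵥ u) : Matrix (V ⊕ Unit) (V ⊕ Unit) ℕ) := by
  have h := Eqv.of_mul (fromCols A (replicateCol Unit u))
    (fromRows (1 : Matrix V V ℕ) (replicateRow Unit v))
  have h1 : fromCols A (replicateCol Unit u) * fromRows (1 : Matrix V V ℕ) (replicateRow Unit v)
      = A + vecMulVec u v := by
    rw [Matrix.fromCols_mul_fromRows, Matrix.mul_one]
    congr 1
  have h2 : fromRows (1 : Matrix V V ℕ) (replicateRow Unit v) * fromCols A (replicateCol Unit u)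
      = fromBlocks A (replicateCol Unit u) (replicateRow Unit (v ᵥ* A)) (of fun _ _ => v ⬝ᵥ u) := by
    ext (i | i) (j | j)
    · simp [Matrix.mul_apply, Matrix.one_apply]
    · simp [Matrix.mul_apply, Matrix.one_apply]
    · simp [Matrix.mul_apply]; rfl
    · simp [Matrix.mul_apply]; rfl
  rwa [h1, h2] at h

/-- The bridge lemma. -/
theorem bridge (k : ℕ) : ∀ {V : Type} [Fintype V] [DecidableEq V] (A : Matrix V V ℕ) (u v v' : V → ℕ),
    (∀ r < k, (v ᵥ* A ^ r) ⬝ᵥ u = (v' ᵥ* A ^ r) ⬝ᵥ u) → v ᵥ* A ^ k = v' ᵥ* A ^ k →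
    Eqv (A + vecMulVec u v) (A + vecMulVec u v') := by
  induction k with
  | zero =>
    intro V _ _ A u v v' _ h
    simp only [pow_zero, vecMul_one] at h
    rw [h]
    exact Eqv.refl _
  | succ k ih =>
    intro V _ _ A u v v' h h'
    refine (fund A u v).trans (Eqv.trans ?_ (fund A u v').symm)
    have h0 : v ⬝ᵥ u = v' ⬝ᵥ u := by simpa using h 0 (Nat.succ_pos k)
    set B : Matrix (V ⊕ Unit) (V ⊕ Unit) ℕ :=
      fromBlocks A (replicateCol Unit u) 0 (of fun _ _ => v ⬝ᵥ u) with hB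
    set w : V ⊕ Unit → ℕ := Sum.elim 0 1 with hw
    have hdec : ∀ x : V → ℕ, x ⬝ᵥ u = v ⬝ᵥ u →
        (fromBlocks A (replicateCol Unit u) (replicateRow Unit (x ᵥ* A)) (of fun _ _ => x ⬝ᵥ u) :
          Matrix (V ⊕ Unit) (V ⊕ Unit) ℕ) = B + vecMulVec w (Sum.elim (x ᵥ* A) 0) := by
      intro x hx
      ext (i | i) (j | j)
      · simp [hB, hw, vecMulVec_apply]
      · simp [hB, hw, vecMulVec_apply]
      · simp [hB, hw, vecMulVec_apply]
      · simp [hB, hw, vecMulVec_apply, hx]
    rw [hdec v rfl, hdec v' h0.symm]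
    have hstep : ∀ (x : V → ℕ) (c : ℕ), (Sum.elim x (fun _ => c) : V ⊕ Unit → ℕ) ᵥ* B =
        Sum.elim (x ᵥ* A) (fun _ => x ⬝ᵥ u + c * (v ⬝ᵥ u)) := by
      intro x c
      ext (i | i)
      · simp [hB, Matrix.vecMul, dotProduct, Fintype.sum_sum_type]
      · simp [hB, Matrix.vecMul, dotProduct, Fintype.sum_sum_type]
    have key : ∀ r ≤ k, ∃ c : ℕ,
        (Sum.elim (v ᵥ* A) 0 : V ⊕ Unit → ℕ) ᵥ* B ^ r = Sum.elim (v ᵥ* A ^ (r + 1)) (fun _ => c) ∧
        (Sum.elim (v' ᵥ* A) 0 : V ⊕ Unit → ℕ) ᵥ* B ^ r = Sum.elim (v' ᵥ* A ^ (r + 1)) (fun _ => c) := by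
      intro r
      induction r with
      | zero =>
        intro _
        refine ⟨0, ?_, ?_⟩
        · simp only [pow_zero, vecMul_one, zero_add, pow_one]; rfl
        · simp only [pow_zero, vecMul_one, zero_add, pow_one]; rfl
      | succ r ihr =>
        intro hr
        obtain ⟨c, h1, h2⟩ := ihr (by omega)
        refine ⟨(v ᵥ* A ^ (r + 1)) ⬝ᵥ u + c * (v ⬝ᵥ u), ?_, ?_⟩
        · rw [pow_succ, ← vecMul_vecMul, h1, hstep, vecMul_vecMul, ← pow_succ]
        · rw [pow_succ, ← vecMul_vecMul, h2, hstep, vecMul_vecMul, ← pow_succ,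
            h (r + 1) (by omega)]
    refine ih B w _ _ ?_ ?_
    · intro r hr
      obtain ⟨c, h1, h2⟩ := key r hr.le
      rw [h1, h2]
      simp [hw, dotProduct, Fintype.sum_sum_type]
    · obtain ⟨c, h1, h2⟩ := key k le_rfl
      rw [h1, h2, h']

/-- removing states whose columns vanish -/
theorem restrict (A : Matrix V V ℕ) (f : W → V) (hf : Function.Injective f)
    (h : ∀ v w, w ∉ Set.range f → A v w = 0) : Eqv A (A.submatrix f f) := by
  have h0 := Eqv.of_mul (A.submatrix id f) ((1 : Matrix V V ℕ).submatrix f id)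
  have h1 : A.submatrix id f * (1 : Matrix V V ℕ).submatrix f id = A := by
    ext i j
    rw [Matrix.mul_apply]
    by_cases hj : j ∈ Set.range f
    · obtain ⟨w, rfl⟩ := hj
      rw [Finset.sum_eq_single w]
      · show A i (f w) * (1 : Matrix V V ℕ) (f w) (f w) = A i (f w)
        rw [Matrix.one_apply_eq, mul_one]
      · intro w' _ hw
        have : f w' ≠ f w := fun h => hw (hf h)
        simp [this]
      · simp
    · rw [h i j hj, Finset.sum_eq_zero]
      intro w _
      have : f w ≠ j := fun h => hj ⟨w, h⟩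
      simp [this]
  have h2 : (1 : Matrix V V ℕ).submatrix f id * A.submatrix id f = A.submatrix f f := by
    ext i j
    simp [Matrix.mul_apply, Matrix.one_apply]
  rwa [h1, h2] at h0

end Pool.Agent.SSE
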