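import Pool.Agent.SSE.B1

/-!
# Polynomial presentations, their companion matrices, and the one-row lemma
-/

set_option autoImplicit false

open scoped BigOperators
open Matrix Polynomial

namespace Pool.Agent.SSE

open Pool.Agent.helper52.SSE

attribute [local instance] Classical.propDecidable

/-- A presentation over the finite set `ι`: a square matrix of polynomials over `ℕ` without constant
terms; the coefficient of `t ^ k` in `P i j` is the number of arcs of length `k` from `i` to `j`. -/
def IsPres {ι : Type} (P : Matrix ι ι ℕ[X]) : Prop := ∀ i j, (P i j).coeff 0 = 0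

/-- The degrees are at most `d`. -/
def DegLe' {ι : Type} (d : ℕ) (P : Matrix ι ι ℕ[X]) : Prop := ∀ i j, (P i j).natDegree ≤ d

/-- The companion matrix: the state `(j, b)` reaches `(j, 0)` after `b` steps. -/
noncomputable def comp {ι : Type} (d : ℕ) (P : Matrix ι ι ℕ[X]) :
    Matrix (ι × Fin d) (ι × Fin d) ℕ :=
  fun x y => if (x.2 : ℕ) = 0 then (P x.1 y.1).coeff (y.2 + 1)
    else if x.1 = y.1 ∧ (x.2 : ℕ) = y.2 + 1 then 1 else 0

variable {ι κ : Type} [Fintype ι] [Fintype κ]

/-- changing the bound for the degrees -/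
theorem comp_succ {d : ℕ} {P : Matrix ι ι ℕ[X]} (hP : DegLe' d P) :
    Eqv (comp (d + 1) P) (comp d P) := by
  set f : ι × Fin d → ι × Fin (d + 1) := fun x => (x.1, x.2.castSucc) with hf
  have hinj : Function.Injective f := by
    rintro ⟨i, a⟩ ⟨j, b⟩ h
    simp only [hf, Prod.mk.injEq] at h
    exact Prod.ext h.1 (Fin.castSucc_injective _ h.2)
  have h := restrict (comp (d + 1) P) f hinj ?_
  · refine h.trans (Eqv.of_eq ?_)
    ext ⟨i, a⟩ ⟨j, b⟩
    simp [comp, hf]
  · rintro ⟨i, a⟩ ⟨j, b⟩ hb
    have hb' : (b : ℕ) = d := by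
      by_contra hne
      have hlt : (b : ℕ) < d := by have := b.2; omega
      exact hb ⟨(j, ⟨b, hlt⟩), by simp [hf]⟩
    simp only [comp]
    split_ifs with h1 h2
    · exact coeff_eq_zero_of_natDegree_lt (by have := hP i j; omega)
    · exfalso
      have := a.2
      omega
    · rfl

theorem comp_add {d : ℕ} {P : Matrix ι ι ℕ[X]} (hP : DegLe' d P) (k : ℕ) :
    Eqv (comp (d + k) P) (comp d P) := by
  induction k with
  | zero => exact Eqv.refl _
  | succ k ih =>
    refine Eqv.trans ?_ ih
    have : DegLe' (d + k) P := fun i j => (hP i j).trans (by omega)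
    exact comp_succ this

theorem comp_eqv {d d' : ℕ} {P : Matrix ι ι ℕ[X]} (hP : DegLe' d P)
    (hP' : DegLe' d' P) : Eqv (comp d P) (comp d' P) := by
  have h1 := comp_add hP d'
  have h2 := comp_add hP' d
  rw [add_comm] at h2
  exact h1.symm.trans h2

/-- a common bound for the degrees, positive -/
noncomputable def bd (P : Matrix ι ι ℕ[X]) : ℕ :=
  (Finset.univ.sup fun i => Finset.univ.sup fun j => (P i j).natDegree) + 1

theorem degLe_bd (P : Matrix ι ι ℕ[X]) : DegLe' (bd P) P := by
  intro i j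
  have h1 : (P i j).natDegree ≤ Finset.univ.sup fun j => (P i j).natDegree :=
    Finset.le_sup (f := fun j => (P i j).natDegree) (Finset.mem_univ j)
  have h2 : (Finset.univ.sup fun j => (P i j).natDegree) ≤
      Finset.univ.sup fun i => Finset.univ.sup fun j => (P i j).natDegree :=
    Finset.le_sup (f := fun i => Finset.univ.sup fun j => (P i j).natDegree) (Finset.mem_univ i)
  unfold bd
  omega

theorem bd_pos (P : Matrix ι ι ℕ[X]) : 0 < bd P := Nat.succ_pos _

/-- strong shift equivalence of presentations -/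
def PEqv (P : Matrix ι ι ℕ[X]) (Q : Matrix κ κ ℕ[X]) : Prop := Eqv (comp (bd P) P) (comp (bd Q) Q)

theorem PEqv.of_comp {P : Matrix ι ι ℕ[X]} {Q : Matrix κ κ ℕ[X]} {d e : ℕ} (hP : DegLe' d P) (hQ : DegLe' e Q) (h : Eqv (comp d P) (comp e Q)) : PEqv P Q :=
  ((comp_eqv (degLe_bd P) hP).trans h).trans (comp_eqv hQ (degLe_bd Q))

theorem PEqv.comp {P : Matrix ι ι ℕ[X]} {Q : Matrix κ κ ℕ[X]} {d e : ℕ} (hP : DegLe' d P) (hQ : DegLe' e Q) (h : PEqv P Q) : Eqv (comp d P) (comp e Q) :=
  ((comp_eqv hP (degLe_bd P)).trans h).trans (comp_eqv (degLe_bd Q) hQ)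

end Pool.Agent.SSE
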