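import Pool.Agent.SSE.B2

/-!
# The one-row lemma
-/

set_option autoImplicit false

open scoped BigOperators
open Matrix Polynomial

namespace Pool.Agent.SSE

open Pool.Agent.helper52.SSE

attribute [local instance] Classical.propDecidable

variable {ι κ : Type} [Fintype ι] [Fintype κ]

/-- the polynomial over `ℤ` -/
noncomputable abbrev toZ (p : ℕ[X]) : ℤ[X] := p.map (Nat.castRingHom ℤ)

/-- the matrix `1 - P` over `ℤ[X]`; its rows are the relations of the presentation -/
noncomputable def IP (P : Matrix ι ι ℕ[X]) : Matrix ι ι ℤ[X] :=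
  fun l j => (if l = j then 1 else 0) - toZ (P l j)

/-- the vector of polynomials of a vector of states -/
noncomputable def Phi {d : ℕ} (x : ι × Fin d → ℤ) (j : ι) : ℤ[X] :=
  ∑ b : Fin d, monomial ((b : ℕ) + 1) (x (j, b))

lemma coeff_Phi {d : ℕ} (x : ι × Fin d → ℤ) (j : ι) (n : ℕ) :
    (Phi x j).coeff (n + 1) = if h : n < d then x (j, ⟨n, h⟩) else 0 := by
  unfold Phi
  rw [finsetSum_coeff]
  simp only [coeff_monomial, Nat.add_right_cancel_iff]
  split_ifs with h
  · rw [Finset.sum_eq_single ⟨n, h⟩]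
    · simp
    · intro b _ hb
      rw [if_neg]
      exact fun h' => hb (Fin.ext h')
    · simp
  · refine Finset.sum_eq_zero fun b _ => ?_
    rw [if_neg]
    have := b.2
    omega

lemma coeff_Phi_zero {d : ℕ} (x : ι × Fin d → ℤ) (j : ι) : (Phi x j).coeff 0 = 0 := by
  unfold Phi
  rw [finsetSum_coeff]
  refine Finset.sum_eq_zero fun b _ => ?_
  rw [coeff_monomial, if_neg (by omega)]

/-- the companion matrix with the row of `(i, 0)` deleted -/
noncomputable def comp0 (d : ℕ) (P : Matrix ι ι ℕ[X]) (i : ι) :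
    Matrix (ι × Fin d) (ι × Fin d) ℕ :=
  fun x y => if x.1 = i ∧ (x.2 : ℕ) = 0 then 0 else comp d P x y

lemma sum_comp0 {d : ℕ} (hd : 0 < d) (P : Matrix ι ι ℕ[X]) (i : ι) (x : ι × Fin d → ℤ)
    (j : ι) (b : Fin d) :
    ∑ z, x z * (comp0 d P i z (j, b) : ℤ) =
      (∑ l, if l = i then 0 else x (l, ⟨0, hd⟩) * ((P l j).coeff (b + 1) : ℤ)) +
        (if h : (b : ℕ) + 1 < d then x (j, ⟨b + 1, h⟩) else 0) := by
  rw [Fintype.sum_prod_type]
  have h1 : ∀ (l : ι) (a : Fin d), x (l, a) * (comp0 d P i (l, a) (j, b) : ℤ) =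
      (if a = ⟨0, hd⟩ then (if l = i then 0 else x (l, a) * ((P l j).coeff (b + 1) : ℤ)) else 0) +
        (if l = j ∧ (a : ℕ) = b + 1 then x (l, a) else 0) := by
    intro l a
    have ha : a = ⟨0, hd⟩ ↔ (a : ℕ) = 0 := ⟨fun h => by rw [h], fun h => Fin.ext h⟩
    unfold comp0 comp
    simp only [ha]
    by_cases h0 : (a : ℕ) = 0
    · have h0' : ¬ (l = j ∧ (a : ℕ) = b + 1) := by omega
      by_cases hl : l = i <;> simp [h0, hl]
    · by_cases h2 : l = j ∧ (a : ℕ) = b + 1
      · simp [h0, h2]
      · simp [h0, h2]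
  simp only [h1, Finset.sum_add_distrib]
  congr 1
  · refine Finset.sum_congr rfl fun l _ => ?_
    rw [Finset.sum_ite_eq' Finset.univ (⟨0, hd⟩ : Fin d)
      (fun a => if l = i then 0 else x (l, a) * ((P l j).coeff (b + 1) : ℤ))]
    simp
  · split_ifs with h
    · rw [Finset.sum_eq_single j, Finset.sum_eq_single ⟨b + 1, h⟩]
      · simp
      · intro a _ ha
        rw [if_neg]
        rintro ⟨-, h'⟩
        exact ha (Fin.ext h')
      · simp
      · intro l _ hl
        refine Finset.sum_eq_zero fun a _ => ?_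
        rw [if_neg]
        rintro ⟨h', -⟩
        exact hl h'
      · simp
    · refine Finset.sum_eq_zero fun l _ => Finset.sum_eq_zero fun a _ => ?_
      rw [if_neg]
      rintro ⟨-, h'⟩
      have := a.2
      omega

lemma Phi_step {d : ℕ} (hd : 0 < d) {P : Matrix ι ι ℕ[X]} (hP : IsPres P) (hdeg : DegLe' d P)
    (i : ι) (x y : ι × Fin d → ℤ) (hy : ∀ z, y z = ∑ w, x w * (comp0 d P i w z : ℤ)) (j : ι) :
    Phi x j = X * Phi y j + (if j = i then C (x (i, ⟨0, hd⟩)) * X else 0) +
      ∑ l, if l = i then 0 else C (x (l, ⟨0, hd⟩)) * X * IP P l j := by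
  ext n
  rw [coeff_add, coeff_add, finsetSum_coeff]
  rcases n with _ | n
  · rw [coeff_Phi_zero, mul_coeff_zero, coeff_X_zero, zero_mul, zero_add]
    rw [Finset.sum_eq_zero, add_zero]
    · split_ifs <;> simp
    · intro l _
      split_ifs
      · rfl
      · rw [mul_coeff_zero, mul_coeff_zero, coeff_X_zero, mul_zero, zero_mul]
  · rw [coeff_X_mul]
    have hX : ∀ (a : ℤ) (p : ℤ[X]), (C a * X * p).coeff (n + 1) = a * p.coeff n := by
      intro a p
      rw [mul_assoc, coeff_C_mul, coeff_X_mul]
    have hsum : ∀ l, (if l = i then (0 : ℤ[X]) else C (x (l, ⟨0, hd⟩)) * X * IP P l j).coeff (n + 1)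
        = if l = i then 0 else x (l, ⟨0, hd⟩) * (IP P l j).coeff n := by
      intro l
      split_ifs
      · rfl
      · rw [hX]
    simp only [hsum]
    rcases n with _ | n
    · rw [coeff_Phi, coeff_Phi_zero, zero_add, dif_pos hd]
      have hIP : ∀ l, (IP P l j).coeff 0 = if l = j then 1 else 0 := by
        intro l
        unfold IP toZ
        rw [coeff_sub, coeff_map, hP l j]
        split_ifs <;> simp
      simp only [hIP]
      by_cases hj : j = i
      · subst hj
        rw [if_pos rfl, Finset.sum_eq_zero]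
        · simp
        · intro l _
          by_cases hl : l = j <;> simp [hl]
      · rw [if_neg hj, coeff_zero, zero_add, Finset.sum_eq_single j]
        · simp [hj]
        · intro l _ hl
          by_cases hl' : l = i <;> simp [hl, hl']
        · simp
    · have hz : ((if j = i then C (x (i, ⟨0, hd⟩)) * X else 0 : ℤ[X])).coeff (n + 1 + 1) = 0 := by
        split_ifs
        · rw [coeff_C_mul, coeff_X, if_neg (by omega), mul_zero]
        · rfl
      rw [hz, add_zero, coeff_Phi, coeff_Phi]
      have hIP : ∀ l, (IP P l j).coeff (n + 1) = - ((P l j).coeff (n + 1) : ℤ) := by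
        intro l
        unfold IP toZ
        rw [coeff_sub, coeff_map]
        split_ifs
        · rw [coeff_one, if_neg (by omega)]; simp
        · simp
      simp only [hIP]
      by_cases hn : n < d
      · rw [dif_pos hn, hy, sum_comp0 hd]
        have : ∑ l, (if l = i then 0 else x (l, ⟨0, hd⟩) * -((P l j).coeff (n + 1) : ℤ)) =
            - ∑ l, (if l = i then 0 else x (l, ⟨0, hd⟩) * ((P l j).coeff (n + 1) : ℤ)) := by
          rw [← Finset.sum_neg_distrib]
          refine Finset.sum_congr rfl fun l _ => ?_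
          split_ifs <;> ring
        rw [this]
        simp
      · rw [dif_neg hn, dif_neg (by omega), zero_add, eq_comm]
        refine Finset.sum_eq_zero fun l _ => ?_
        have : (P l j).coeff (n + 1) = 0 :=
          coeff_eq_zero_of_natDegree_lt (by have := hdeg l j; omega)
        rw [this]
        simp

end Pool.Agent.SSE
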