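import Pool.Agent.SSE.B3

/-!
# The one-row lemma, conclusion
-/

set_option autoImplicit false

open scoped BigOperators
open Matrix Polynomial

namespace Pool.Agent.SSE

open Pool.Agent.helper52.SSE

attribute [local instance] Classical.propDecidable

variable {ι κ : Type} [Fintype ι] [Fintype κ]

lemma Phi_iter {d : ℕ} (hd : 0 < d) {P : Matrix ι ι ℕ[X]} (hP : IsPres P) (hdeg : DegLe' d P)
    (i : ι) (D : ℕ → ι × Fin d → ℤ) (hD : ∀ r z, D (r + 1) z = ∑ w, D r w * (comp0 d P i w z : ℤ))
    (k : ℕ) (j : ι) :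
    Phi (D 0) j = X ^ k * Phi (D k) j +
      (if j = i then ∑ r ∈ Finset.range k, C (D r (i, ⟨0, hd⟩)) * X ^ (r + 1) else 0) +
      ∑ l, if l = i then 0 else
        (∑ r ∈ Finset.range k, C (D r (l, ⟨0, hd⟩)) * X ^ (r + 1)) * IP P l j := by
  induction k with
  | zero => simp
  | succ k ih =>
    rw [ih, Phi_step hd hP hdeg i (D k) (D (k + 1)) (hD k) j]
    have e1 : (if j = i then ∑ r ∈ Finset.range (k + 1), C (D r (i, ⟨0, hd⟩)) * X ^ (r + 1)
        else (0 : ℤ[X])) = (if j = i then ∑ r ∈ Finset.range k, C (D r (i, ⟨0, hd⟩)) * X ^ (r + 1)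
        else 0) + X ^ k * (if j = i then C (D k (i, ⟨0, hd⟩)) * X else 0) := by
      split_ifs
      · rw [Finset.sum_range_succ]; ring
      · ring
    have e2 : (∑ l, if l = i then (0 : ℤ[X]) else
        (∑ r ∈ Finset.range (k + 1), C (D r (l, ⟨0, hd⟩)) * X ^ (r + 1)) * IP P l j) =
        (∑ l, if l = i then (0 : ℤ[X]) else
        (∑ r ∈ Finset.range k, C (D r (l, ⟨0, hd⟩)) * X ^ (r + 1)) * IP P l j) +
        X ^ k * ∑ l, if l = i then 0 else C (D k (l, ⟨0, hd⟩)) * X * IP P l j := by
      rw [Finset.mul_sum, ← Finset.sum_add_distrib]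
      refine Finset.sum_congr rfl fun l _ => ?_
      split_ifs
      · ring
      · rw [Finset.sum_range_succ]; ring
    rw [e1, e2]
    ring

lemma coeff_sum_CX {k : ℕ} (f : ℕ → ℤ) (n : ℕ) :
    (∑ r ∈ Finset.range k, C (f r) * X ^ (r + 1)).coeff n =
      if 0 < n ∧ n ≤ k then f (n - 1) else 0 := by
  rw [finsetSum_coeff]
  simp only [coeff_C_mul, coeff_X_pow]
  split_ifs with h
  · rw [Finset.sum_eq_single (n - 1)]
    · rw [if_pos (by omega), mul_one]
    · intro b _ hb
      rw [if_neg (by omega), mul_zero]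
    · intro hn
      exact absurd (Finset.mem_range.2 (by omega)) hn
  · refine Finset.sum_eq_zero fun r hr => ?_
    have := Finset.mem_range.1 hr
    rw [if_neg (by omega), mul_zero]

/-- The one-row lemma: changing one row by a combination of the relations of the other rows. -/
theorem one_row {P P' : Matrix ι ι ℕ[X]} (hP : IsPres P) (hP' : IsPres P') (i : ι)
    (hrow : ∀ l, l ≠ i → P l = P' l) (c : ι → ℤ[X]) (hc : c i = 0)
    (h : ∀ j, IP P' i j = IP P i j + ∑ l, c l * IP P l j) : PEqv P P' := by
  set d := bd P + bd P' with hdd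
  have hd : 0 < d := by have := bd_pos P; omega
  have hdeg : DegLe' d P := fun a b => (degLe_bd P a b).trans (by omega)
  have hdeg' : DegLe' d P' := fun a b => (degLe_bd P' a b).trans (by omega)
  refine PEqv.of_comp hdeg hdeg' ?_
  set z0 : ι × Fin d := (i, ⟨0, hd⟩) with hz0
  have hz : ∀ x : ι × Fin d, (x.1 = i ∧ (x.2 : ℕ) = 0) ↔ x = z0 := by
    rintro ⟨a, b⟩
    constructor
    · rintro ⟨h1, h2⟩
      exact Prod.ext h1 (Fin.ext h2)
    · intro h
      rw [h]
      exact ⟨rfl, rfl⟩
  set v : ι × Fin d → ℕ := fun y => (P i y.1).coeff (y.2 + 1) with hv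
  set v' : ι × Fin d → ℕ := fun y => (P' i y.1).coeff (y.2 + 1) with hv'
  set u : ι × Fin d → ℕ := fun x => if x = z0 then 1 else 0 with hu
  have e1 : Pool.Agent.SSE.comp d P = comp0 d P i + vecMulVec u v := by
    ext x y
    simp only [Matrix.add_apply, vecMulVec_apply, comp0, hz]
    by_cases hx : x = z0
    · simp only [hx, if_true, hu, if_true, one_mul, zero_add]
      simp [comp, hz0, hv]
    · simp [hx, hu]
  have e2 : Pool.Agent.SSE.comp d P' = comp0 d P i + vecMulVec u v' := by
    ext x y
    simp only [Matrix.add_apply, vecMulVec_apply, comp0, hz]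
    by_cases hx : x = z0
    · simp only [hx, if_true, hu, if_true, one_mul, zero_add]
      simp [comp, hz0, hv']
    · simp only [hx, hu, if_false, zero_mul, add_zero]
      unfold comp
      by_cases h0 : (x.2 : ℕ) = 0
      · have : x.1 ≠ i := fun h1 => hx ((hz x).1 ⟨h1, h0⟩)
        rw [if_pos h0, if_pos h0, hrow x.1 this]
      · rw [if_neg h0, if_neg h0]
  rw [e1, e2]
  -- the integer vectors
  set D : ℕ → ι × Fin d → ℤ := fun r y =>
    ((v ᵥ* comp0 d P i ^ r) y : ℤ) - ((v' ᵥ* comp0 d P i ^ r) y : ℤ) with hD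
  have hDs : ∀ r z, D (r + 1) z = ∑ w, D r w * (comp0 d P i w z : ℤ) := by
    intro r z
    simp only [hD]
    rw [pow_succ, ← vecMul_vecMul, ← vecMul_vecMul]
    simp only [Matrix.vecMul, dotProduct]
    push_cast
    rw [← Finset.sum_sub_distrib]
    refine Finset.sum_congr rfl fun w _ => ?_
    ring
  -- the exponent
  obtain ⟨k, hk⟩ : ∃ k : ℕ, ∀ l, (c l).natDegree ≤ k :=
    ⟨Finset.univ.sup fun l => (c l).natDegree,
      fun l => Finset.le_sup (f := fun l => (c l).natDegree) (Finset.mem_univ l)⟩
  set g : ι → ℤ[X] := fun l => ∑ r ∈ Finset.range k, C (D r (l, ⟨0, hd⟩)) * X ^ (r + 1) with hg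
  have hgdeg : ∀ l, (g l).natDegree ≤ k := by
    intro l
    refine natDegree_le_iff_coeff_eq_zero.2 fun n hn => ?_
    rw [hg]
    simp only
    rw [coeff_sum_CX, if_neg (by omega)]
  set b : ι → ℤ[X] := fun l => if l = i then 0 else c l - g l with hb
  have hPhi0 : ∀ j, Phi (D 0) j = ∑ l, c l * IP P l j := by
    intro j
    have h1 := h j
    have h2 : Phi (D 0) j = toZ (P i j) - toZ (P' i j) := by
      ext n
      rcases n with _ | n
      · rw [coeff_Phi_zero, coeff_sub, coeff_map, coeff_map, hP i j, hP' i j]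
        simp
      · rw [coeff_Phi, coeff_sub, coeff_map, coeff_map]
        split_ifs with hn
        · simp [hD, hv, hv']
        · rw [coeff_eq_zero_of_natDegree_lt (show (P i j).natDegree < n + 1 by
            have := hdeg i j; omega), coeff_eq_zero_of_natDegree_lt
            (show (P' i j).natDegree < n + 1 by have := hdeg' i j; omega)]
          simp
    rw [h2]
    unfold IP at h1 ⊢
    linear_combination h1
  have hmain : ∀ j, X ^ k * Phi (D k) j + (if j = i then g i else 0) =
      ∑ l, b l * IP P l j := by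
    intro j
    have h1 := Phi_iter hd hP hdeg i D hDs k j
    rw [hPhi0] at h1
    have h2 : (∑ l, b l * IP P l j) = (∑ l, c l * IP P l j) -
        ∑ l, if l = i then 0 else g l * IP P l j := by
      rw [← Finset.sum_sub_distrib]
      refine Finset.sum_congr rfl fun l _ => ?_
      simp only [hb]
      split_ifs with hl
      · rw [hl, hc]; ring
      · ring
    rw [h2, h1]
    simp only [hg]
    ring
  have hbi : b i = 0 := by simp [hb]
  have hX : ∀ m ≤ k + 1, ∀ j, X ^ m ∣ b j := by
    intro m
    induction m with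
    | zero => intro _ j; simp
    | succ m ih =>
      intro hm j
      by_cases hj : j = i
      · rw [hj, hbi]; exact dvd_zero _
      · have h1 := hmain j
        rw [if_neg hj, add_zero] at h1
        have h2 : (∑ l, b l * IP P l j) = b j - ∑ l, b l * toZ (P l j) := by
          unfold IP
          simp only [mul_sub, Finset.sum_sub_distrib, mul_ite, mul_one, mul_zero]
          rw [Finset.sum_ite_eq' Finset.univ j b]
          simp
        have h3 : b j = X ^ k * Phi (D k) j + ∑ l, b l * toZ (P l j) := by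
          rw [h1, h2]; ring
        rw [h3]
        refine dvd_add ?_ (Finset.dvd_sum fun l _ => ?_)
        · refine (pow_dvd_pow X hm).trans ?_
          rw [pow_succ]
          refine mul_dvd_mul_left _ (X_dvd_iff.2 (coeff_Phi_zero _ _))
        · rw [pow_succ]
          refine mul_dvd_mul (ih (by omega) l) (X_dvd_iff.2 ?_)
          rw [coeff_map, hP l j]
          simp
  have hb0 : ∀ j, b j = 0 := by
    intro j
    have h1 := X_pow_dvd_iff.1 (hX (k + 1) le_rfl j)
    ext n
    rw [coeff_zero]
    by_cases hn : n < k + 1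
    · exact h1 n hn
    · apply coeff_eq_zero_of_natDegree_lt
      have : (b j).natDegree ≤ k := by
        simp only [hb]
        split_ifs
        · simp
        · exact (natDegree_sub_le _ _).trans (max_le (hk j) (hgdeg j))
      omega
  have hmain' : ∀ j, X ^ k * Phi (D k) j + (if j = i then g i else 0) = 0 := by
    intro j
    rw [hmain j]
    exact Finset.sum_eq_zero fun l _ => by rw [hb0, zero_mul]
  have hgi : g i = 0 := by
    have h1 := hmain' i
    rw [if_pos rfl] at h1
    ext n
    rw [coeff_zero]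
    by_cases hn : n ≤ k
    · have h2 := congrArg (fun p => coeff p n) h1
      simp only [coeff_add, coeff_zero] at h2
      have h3 : (X ^ k * Phi (D k) i).coeff n = 0 := by
        rcases lt_or_eq_of_le hn with h | h
        · rw [coeff_X_pow_mul', if_neg (by omega)]
        · rw [h, coeff_X_pow_mul', if_pos le_rfl, Nat.sub_self, coeff_Phi_zero]
      rw [h3, zero_add] at h2
      exact h2
    · exact coeff_eq_zero_of_natDegree_lt (lt_of_le_of_lt (hgdeg i) (by omega))
  have hPhik : ∀ j, Phi (D k) j = 0 := by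
    intro j
    have h1 := hmain' j
    rw [hgi, ite_self, add_zero] at h1
    exact (mul_eq_zero.1 h1).resolve_left (pow_ne_zero _ X_ne_zero)
  refine bridge k (comp0 d P i) u v v' ?_ ?_
  · intro r hr
    have h1 : D r z0 = 0 := by
      have h2 := congrArg (fun p => coeff p (r + 1)) hgi
      simp only [hg, coeff_zero] at h2
      rw [coeff_sum_CX, if_pos (by omega)] at h2
      simpa using h2
    have h3 : ∀ x : ι × Fin d → ℕ, x ⬝ᵥ u = x z0 := by
      intro x
      simp [dotProduct, hu]
    rw [h3, h3]
    have h4 : ((v ᵥ* comp0 d P i ^ r) z0 : ℤ) - ((v' ᵥ* comp0 d P i ^ r) z0 : ℤ) = 0 := h1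
    exact_mod_cast sub_eq_zero.1 h4
  · funext y
    have h1 : D k y = 0 := by
      have h2 := congrArg (fun p => coeff p (y.2 + 1)) (hPhik y.1)
      simp only [coeff_zero] at h2
      rw [coeff_Phi, dif_pos y.2.2] at h2
      exact h2
    exact_mod_cast sub_eq_zero.1 h1

end Pool.Agent.SSE
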