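import Pool.Agent.SSE.B4

/-!
# Sources, reindexing, isolating loops
-/

set_option autoImplicit false

open scoped BigOperators
open Matrix Polynomial

namespace Pool.Agent.SSE

open Pool.Agent.helper52.SSE

attribute [local instance] Classical.propDecidable

variable {ι κ μ : Type} [Fintype ι] [Fintype κ] [Fintype μ]

theorem PEqv.refl (P : Matrix ι ι ℕ[X]) : PEqv P P := Eqv.refl _

theorem PEqv.symm {P : Matrix ι ι ℕ[X]} {Q : Matrix κ κ ℕ[X]} (h : PEqv P Q) : PEqv Q P :=
  Eqv.symm h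

theorem PEqv.trans {P : Matrix ι ι ℕ[X]} {Q : Matrix κ κ ℕ[X]} {S : Matrix μ μ ℕ[X]}
    (h : PEqv P Q) (h' : PEqv Q S) : PEqv P S := Eqv.trans h h'

theorem PEqv.reindex (P : Matrix ι ι ℕ[X]) (e : κ ≃ ι) : PEqv P (P.submatrix e e) := by
  have hd : DegLe' (bd P) (P.submatrix e e) := fun i j => degLe_bd P _ _
  refine PEqv.of_comp (degLe_bd P) hd ?_
  have h := Eqv.reindex (Pool.Agent.SSE.comp (bd P) P) (e.prodCongr (Equiv.refl (Fin (bd P))))
  refine h.trans (Eqv.of_eq ?_)
  ext ⟨i, a⟩ ⟨j, b⟩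
  simp [Pool.Agent.SSE.comp]

/-- the part of the states of a presentation over `ι ⊕ κ` -/
def part (ι κ : Type) (d m : ℕ) (hm : m ≤ d) : (ι × Fin d) ⊕ (κ × Fin m) → (ι ⊕ κ) × Fin d :=
  Sum.elim (fun x => (Sum.inl x.1, x.2)) (fun x => (Sum.inr x.1, Fin.castLE hm x.2))

omit [Fintype ι] [Fintype κ] in
lemma part_injective (d m : ℕ) (hm : m ≤ d) : Function.Injective (part ι κ d m hm) := by
  rintro (⟨i, a⟩ | ⟨i, a⟩) (⟨j, b⟩ | ⟨j, b⟩) h
  · simpa [part] using h
  · simp [part] at h
  · simp [part] at h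
  · simpa [part] using h

/-- The states `(inr k, b)` with `b` beyond the degrees can be removed. -/
theorem comp_part {d m : ℕ} (hm : m ≤ d) {Q : Matrix (ι ⊕ κ) (ι ⊕ κ) ℕ[X]}
    (hm' : ∀ x k, ∀ n, m < n → (Q x (Sum.inr k)).coeff n = 0) :
    Eqv (comp d Q) ((comp d Q).submatrix (part ι κ d m hm) (part ι κ d m hm)) := by
  obtain ⟨k, hk⟩ : ∃ k, d = m + k := ⟨d - m, by omega⟩
  induction k generalizing m with
  | zero =>
    have hmd : m = d := by omega
    subst hmd
    refine Eqv.reindex (comp m Q) (Equiv.ofBijective (part ι κ m m le_rfl)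
      ⟨part_injective _ _ _, ?_⟩)
    rintro ⟨i | i, a⟩
    · exact ⟨Sum.inl (i, a), rfl⟩
    · exact ⟨Sum.inr (i, a), rfl⟩
  | succ k ih =>
    have hm1 : m + 1 ≤ d := by omega
    have h1 := ih hm1 (fun x k n hn => hm' x k n (by omega)) (by omega)
    refine h1.trans ?_
    set f : (ι × Fin d) ⊕ (κ × Fin m) → (ι × Fin d) ⊕ (κ × Fin (m + 1)) :=
      Sum.map id (Prod.map id Fin.castSucc) with hf
    have hinj : Function.Injective f := by
      rw [hf]
      exact Sum.map_injective.2 ⟨Function.injective_id,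
        Function.injective_id.prodMap (Fin.castSucc_injective m)⟩
    refine (restrict _ f hinj ?_).trans (Eqv.of_eq ?_)
    · intro x w hw
      obtain ⟨k0, rfl⟩ : ∃ k0 : κ, w = Sum.inr (k0, Fin.last m) := by
        rcases w with w | ⟨k0, b⟩
        · exact absurd ⟨Sum.inl w, rfl⟩ hw
        · refine ⟨k0, ?_⟩
          by_contra hne
          have hb : (b : ℕ) < m := by
            have h2 := b.2
            have h3 : (b : ℕ) ≠ m := fun h4 => hne (by rw [show b = Fin.last m from Fin.ext h4])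
            omega
          exact hw ⟨Sum.inr (k0, ⟨b, hb⟩), by simp [hf]⟩
      have hx : ∀ z : (ι ⊕ κ) × Fin d, (∀ j : κ, z.1 = Sum.inr j → (z.2 : ℕ) < m + 1) →
          comp d Q z (Sum.inr k0, Fin.castLE hm1 (Fin.last m)) = 0 := by
        rintro ⟨z, a⟩ hz
        unfold comp
        simp only [Fin.val_castLE, Fin.val_last]
        split_ifs with h2 h3
        · exact hm' z k0 (m + 1) (by omega)
        · exfalso
          have := hz k0 h3.1
          simp only at this
          omega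
        · rfl
      simp only [submatrix_apply]
      rcases x with ⟨x, a⟩ | ⟨x, a⟩
      · exact hx _ (by simp [part])
      · refine hx _ fun j _ => ?_
        simp only [part, Sum.elim_inr, Fin.val_castLE]
        exact a.2
    · ext x y
      rcases x with ⟨x, a⟩ | ⟨x, a⟩ <;> rcases y with ⟨y, b⟩ | ⟨y, b⟩ <;>
        simp [hf, part, comp]

/-- Adding or removing sources. -/
theorem sources (P : Matrix ι ι ℕ[X]) (W : Matrix κ ι ℕ[X]) :
    PEqv (fromBlocks P 0 W 0 : Matrix (ι ⊕ κ) (ι ⊕ κ) ℕ[X]) P := by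
  set Q : Matrix (ι ⊕ κ) (ι ⊕ κ) ℕ[X] := fromBlocks P 0 W 0 with hQ
  set d := bd P + bd Q with hd
  have h1 : DegLe' d Q := fun i j => (degLe_bd Q i j).trans (by omega)
  have h2 : DegLe' d P := fun i j => (degLe_bd P i j).trans (by omega)
  refine PEqv.of_comp h1 h2 ?_
  refine (comp_part (Nat.zero_le d) ?_).trans ?_
  · rintro (x | x) k n _ <;> simp [hQ]
  · have h3 := Eqv.reindex (Pool.Agent.SSE.comp d P) (Equiv.sumEmpty (ι × Fin d) (κ × Fin 0))
    refine (h3.trans (Eqv.of_eq ?_)).symm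
    ext x y
    rcases x with ⟨x, a⟩ | ⟨x, a⟩
    · rcases y with ⟨y, b⟩ | ⟨y, b⟩
      · simp only [Pool.Agent.SSE.comp, part, hQ, submatrix_apply, Sum.elim_inl,
          Equiv.sumEmpty_apply_inl, fromBlocks_apply₁₁, Sum.inl.injEq]
        congr
      · exact b.elim0
    · exact a.elim0

end Pool.Agent.SSE
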