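import Pool.Agent.SSE.B5

/-!
# Isolating loops
-/

set_option autoImplicit false

open scoped BigOperators
open Matrix Polynomial

namespace Pool.Agent.SSE

open Pool.Agent.helper52.SSE

attribute [local instance] Classical.propDecidable

variable {ι κ μ : Type} [Fintype ι] [Fintype κ] [Fintype μ]

/-- the presentation with the row of `x` replaced by `r` -/
noncomputable def setRow (P : Matrix ι ι ℕ[X]) (x : ι) (r : ι → ℕ[X]) : Matrix ι ι ℕ[X] :=
  fun l j => if l = x then r j else P l j

/-- If the row of `x` is `s e_x + r`, a new generator `y = (s / t) e_x` gives the presentation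
`x = t y + r`, `y = s y + (s / t) r`. -/
noncomputable def iso (P : Matrix ι ι ℕ[X]) (x : ι) (s : ℕ[X]) (r : ι → ℕ[X]) :
    Matrix (ι ⊕ Unit) (ι ⊕ Unit) ℕ[X] :=
  fromBlocks (setRow P x r) (of fun l _ => if l = x then X else 0)
    (of fun _ j => s.divX * r j) (of fun _ _ => s)

/-- the intermediate presentation -/
noncomputable def iso' (P : Matrix ι ι ℕ[X]) (x : ι) (s : ℕ[X]) (r : ι → ℕ[X]) :
    Matrix (ι ⊕ Unit) (ι ⊕ Unit) ℕ[X] :=
  fromBlocks (setRow P x r) (of fun l _ => if l = x then X else 0)
    (of fun _ j => C (s.coeff 1) * r j + if j = x then s.divX.divX * X else 0)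
    (of fun _ _ => C (s.coeff 1) * X)

lemma divX_eq (s : ℕ[X]) : s.divX = s.divX.divX * X + C (s.coeff 1) := by
  have h := divX_mul_X_add s.divX
  rw [coeff_divX] at h
  exact h.symm

lemma natDegree_le_of_add_left {p q : ℕ[X]} {d : ℕ} (h : (p + q).natDegree ≤ d) :
    q.natDegree ≤ d := by
  refine natDegree_le_iff_coeff_eq_zero.2 fun n hn => ?_
  have h1 : (p + q).coeff n = 0 := coeff_eq_zero_of_natDegree_lt (lt_of_le_of_lt h hn)
  rw [coeff_add] at h1
  omega

theorem isolate {P : Matrix ι ι ℕ[X]} (hP : IsPres P) (x : ι) (s : ℕ[X]) (r : ι → ℕ[X])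
    (hs : s.coeff 0 = 0) (hr : ∀ j, (r j).coeff 0 = 0)
    (hx : ∀ j, P x j = r j + if j = x then s else 0) : PEqv P (iso P x s r) := by
  have hIs : IsPres (iso P x s r) := by
    rintro (i | i) (j | j)
    · simp only [iso, fromBlocks_apply₁₁, setRow]
      split_ifs
      · exact hr j
      · exact hP i j
    · simp only [iso, fromBlocks_apply₁₂, of_apply]
      split_ifs <;> simp
    · simp [iso, hr j, mul_coeff_zero]
    · simp [iso, hs]
  have hIs' : IsPres (iso' P x s r) := by
    rintro (i | i) (j | j)
    · simp only [iso', fromBlocks_apply₁₁, setRow]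
      split_ifs
      · exact hr j
      · exact hP i j
    · simp only [iso', fromBlocks_apply₁₂, of_apply]
      split_ifs <;> simp
    · simp only [iso', fromBlocks_apply₂₁, of_apply, coeff_add, mul_coeff_zero, hr j]
      split_ifs <;> simp
    · simp [iso']
  -- second step
  have hstep2 : PEqv (iso' P x s r) (iso P x s r) := by
    refine one_row hIs' hIs (Sum.inr ()) ?_
      (Sum.elim (fun l => if l = x then toZ (s.divX.divX * X) else 0) 0) rfl ?_
    · rintro (l | l) hl
      · funext j
        rcases j with j | j <;> simp [iso, iso']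
      · exact absurd rfl hl
    · have hsum : ∀ j, (∑ l, (Sum.elim (fun l => if l = x then toZ (s.divX.divX * X) else 0) 0 :
          ι ⊕ Unit → ℤ[X]) l * IP (iso' P x s r) l j) =
          toZ (s.divX.divX * X) * IP (iso' P x s r) (Sum.inl x) j := by
        intro j
        rw [Fintype.sum_sum_type]
        simp
      have hdiv : toZ s.divX = toZ (s.divX.divX * X) + C (s.coeff 1 : ℤ) := by
        conv_lhs => rw [divX_eq s]
        simp [toZ, Polynomial.map_add]
      rintro (j | j)
      · rw [hsum]
        simp only [IP, iso, iso', fromBlocks_apply₂₁, fromBlocks_apply₁₁, of_apply, setRow, if_true,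
          reduceCtorEq, if_false, Sum.inl.injEq]
        by_cases hj : j = x
        · subst hj
          rw [if_pos rfl, if_pos rfl]
          have e1 : toZ (s.divX * r j) = toZ s.divX * toZ (r j) := Polynomial.map_mul _
          have e2 : toZ (C (s.coeff 1) * r j + s.divX.divX * X) =
              C (s.coeff 1 : ℤ) * toZ (r j) + toZ (s.divX.divX * X) := by
            simp [toZ, Polynomial.map_add]
          rw [e1, e2, hdiv]
          ring
        · rw [if_neg hj, if_neg (Ne.symm hj)]
          have e1 : toZ (s.divX * r j) = toZ s.divX * toZ (r j) := Polynomial.map_mul _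
          have e2 : toZ (C (s.coeff 1) * r j + 0) = C (s.coeff 1 : ℤ) * toZ (r j) := by
            simp [toZ]
          rw [e1, e2, hdiv]
          ring
      · rw [hsum]
        simp only [IP, iso, iso', fromBlocks_apply₂₂, fromBlocks_apply₁₂, of_apply, if_true,
          reduceCtorEq, if_false]
        have e1 : toZ s = toZ s.divX * X := by
          conv_lhs => rw [← divX_mul_X_add s, hs]
          simp [toZ]
        have e2 : toZ (C (s.coeff 1) * X) = C (s.coeff 1 : ℤ) * X := by simp [toZ]
        have e3 : toZ (X : ℕ[X]) = X := by simp [toZ]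
        rw [e1, e2, e3, hdiv]
        ring
  refine PEqv.trans ?_ hstep2
  -- first step
  set Q := iso' P x s r with hQ
  set d := bd P + bd Q with hdd
  have hd : 0 < d := by have := bd_pos P; omega
  have hdeg : DegLe' d P := fun a b => (degLe_bd P a b).trans (by omega)
  have hdegQ : DegLe' d Q := fun a b => (degLe_bd Q a b).trans (by omega)
  have hsd : s.natDegree ≤ d := by
    have h1 := hdeg x x
    rw [hx x, if_pos rfl] at h1
    exact natDegree_le_of_add_left h1
  refine PEqv.of_comp hdeg hdegQ ?_
  set z0 : ι × Fin d := (x, ⟨0, hd⟩) with hz0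
  have hz : ∀ y : ι × Fin d, (y.1 = x ∧ (y.2 : ℕ) = 0) ↔ y = z0 := by
    rintro ⟨a, b⟩
    constructor
    · rintro ⟨h1, h2⟩
      exact Prod.ext h1 (Fin.ext h2)
    · intro h
      rw [h]
      exact ⟨rfl, rfl⟩
  set v : ι × Fin d → ℕ := fun y => if y.1 = x then s.coeff (y.2 + 1) else 0 with hv
  set u : ι × Fin d → ℕ := fun y => if y = z0 then 1 else 0 with hu
  have e1 : Pool.Agent.SSE.comp d P = Pool.Agent.SSE.comp d (setRow P x r) + vecMulVec u v := by
    ext y w
    simp only [Matrix.add_apply, vecMulVec_apply, hu, hv, ← hz]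
    unfold Pool.Agent.SSE.comp setRow
    by_cases h0 : (y.2 : ℕ) = 0
    · by_cases h1 : y.1 = x
      · simp only [h0, h1, if_true, and_self, one_mul]
        rw [hx, coeff_add]
        split_ifs <;> simp
      · simp [h0, h1]
    · simp [h0]
  rw [e1]
  refine (fund _ u v).trans ?_
  refine Eqv.symm ((comp_part (show 1 ≤ d by omega) ?_).trans ?_)
  · rintro (y | y) k n hn
    · simp only [hQ, iso', fromBlocks_apply₁₂, of_apply]
      split_ifs
      · rw [coeff_X, if_neg (by omega)]
      · simp
    · simp only [hQ, iso', fromBlocks_apply₂₂, of_apply]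
      rw [coeff_C_mul, coeff_X, if_neg (by omega), mul_zero]
  · set e : (ι × Fin d) ⊕ Unit ≃ (ι × Fin d) ⊕ (Unit × Fin 1) :=
      Equiv.sumCongr (Equiv.refl _) ⟨fun _ => ((), 0), fun _ => (), fun _ => rfl, fun y => by
        rcases y with ⟨y, b⟩; exact Prod.ext rfl (Subsingleton.elim _ _)⟩ with he
    refine (Eqv.reindex _ e).trans (Eqv.of_eq ?_)
    have hvu : v ⬝ᵥ u = s.coeff 1 := by
      simp only [dotProduct, hu, mul_ite, mul_one, mul_zero]
      rw [Finset.sum_ite_eq' Finset.univ z0 v]
      simp [hv, hz0]
    have hvA : ∀ (j : ι) (b : Fin d), (v ᵥ* Pool.Agent.SSE.comp d (setRow P x r)) (j, b) =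
        s.coeff 1 * (r j).coeff (b + 1) + if j = x then s.coeff (b + 2) else 0 := by
      intro j b
      simp only [Matrix.vecMul, dotProduct]
      rw [Fintype.sum_prod_type, Finset.sum_eq_single x]
      · have h1 : ∀ a : Fin d, v (x, a) * Pool.Agent.SSE.comp d (setRow P x r) (x, a) (j, b) =
            (if a = ⟨0, hd⟩ then s.coeff 1 * (r j).coeff (b + 1) else 0) +
            (if j = x ∧ (a : ℕ) = b + 1 then s.coeff (b + 2) else 0) := by
          intro a
          have ha : a = ⟨0, hd⟩ ↔ (a : ℕ) = 0 := ⟨fun h => by rw [h], fun h => Fin.ext h⟩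
          simp only [hv, if_true, ha, Pool.Agent.SSE.comp, setRow]
          by_cases h0 : (a : ℕ) = 0
          · simp [h0]
          · by_cases h2 : j = x ∧ (a : ℕ) = b + 1
            · simp [h2.1, h2.2]
            · have h3 : ¬ (x = j ∧ (a : ℕ) = b + 1) := fun h => h2 ⟨h.1.symm, h.2⟩
              simp [h0, h2, h3]
        simp only [h1, Finset.sum_add_distrib]
        congr 1
        · rw [Finset.sum_ite_eq' Finset.univ (⟨0, hd⟩ : Fin d)]
          simp
        · by_cases hj : j = x
          · simp only [hj, true_and, if_true]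
            by_cases hb : (b : ℕ) + 1 < d
            · rw [Finset.sum_eq_single ⟨b + 1, hb⟩]
              · simp
              · intro a _ ha
                rw [if_neg]
                exact fun h => ha (Fin.ext h)
              · simp
            · rw [coeff_eq_zero_of_natDegree_lt (show s.natDegree < b + 2 by omega)]
              simp
          · simp [hj]
      · intro l _ hl
        refine Finset.sum_eq_zero fun a _ => ?_
        simp [hv, hl]
      · simp
    ext y w
    rcases y with ⟨y, a⟩ | y <;> rcases w with ⟨w, b⟩ | w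
    · simp only [he, submatrix_apply, Equiv.sumCongr_apply, Sum.map_inl, Equiv.refl_apply, part,
        Sum.elim_inl, fromBlocks_apply₁₁, Pool.Agent.SSE.comp, hQ, iso', Sum.inl.injEq]
    · simp only [he, submatrix_apply, Equiv.sumCongr_apply, Sum.map_inl, Sum.map_inr,
        Equiv.refl_apply, part, Sum.elim_inl, Sum.elim_inr, fromBlocks_apply₁₂,
        Pool.Agent.SSE.comp, hQ, iso', of_apply, Equiv.coe_fn_mk, replicateCol_apply, hu, ← hz,
        reduceCtorEq, false_and, if_false]
      by_cases h0 : (a : ℕ) = 0
      · by_cases h1 : y = x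
        · simp [h0, h1]
        · simp [h0, h1]
      · simp [h0]
    · simp only [he, submatrix_apply, Equiv.sumCongr_apply, Sum.map_inl, Sum.map_inr,
        Equiv.refl_apply, part, Sum.elim_inl, Sum.elim_inr, fromBlocks_apply₂₁,
        Pool.Agent.SSE.comp, hQ, iso', of_apply, Equiv.coe_fn_mk, replicateRow_apply]
      rw [hvA]
      have h1 : ((Fin.castLE (show 1 ≤ d by omega) (0 : Fin 1) : Fin d) : ℕ) = 0 := rfl
      simp only [h1, if_true, coeff_add, coeff_C_mul]
      congr 1
      split_ifs
      · rw [coeff_mul_X, coeff_divX, coeff_divX]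
      · rfl
    · simp only [he, submatrix_apply, Equiv.sumCongr_apply, Sum.map_inr, part, Sum.elim_inr,
        fromBlocks_apply₂₂, Pool.Agent.SSE.comp, hQ, iso', of_apply, Equiv.coe_fn_mk]
      have h1 : ((Fin.castLE (show 1 ≤ d by omega) (0 : Fin 1) : Fin d) : ℕ) = 0 := rfl
      simp only [h1, if_true, hvu, coeff_C_mul, zero_add, coeff_X_one, mul_one]

end Pool.Agent.SSE
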