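import Pool.Agent.SSE.B6

/-!
# Matrices as presentations; common generators for a shift equivalence
-/

set_option autoImplicit false

open scoped BigOperators
open Matrix Polynomial

namespace Pool.Agent.SSE

open Pool.Agent.helper52.SSE

attribute [local instance] Classical.propDecidable

variable {ι κ μ : Type} [Fintype ι] [Fintype κ] [Fintype μ]

/-- the presentation of a matrix over `ℕ` -/
noncomputable def ofMat (A : Matrix ι ι ℕ) : Matrix ι ι ℕ[X] := fun i j => C (A i j) * X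

omit [Fintype ι] in
lemma isPres_ofMat (A : Matrix ι ι ℕ) : IsPres (ofMat A) := by
  intro i j
  simp [ofMat]

omit [Fintype ι] in
lemma degLe_ofMat (A : Matrix ι ι ℕ) : DegLe' 1 (ofMat A) := by
  intro i j
  exact (natDegree_C_mul_le _ _).trans natDegree_X_le

theorem eqv_ofMat (A : Matrix ι ι ℕ) : Eqv A (comp (bd (ofMat A)) (ofMat A)) := by
  have h1 := comp_eqv (degLe_ofMat A) (degLe_bd (ofMat A))
  refine Eqv.trans ?_ h1
  refine (Eqv.reindex A (Equiv.prodUnique ι (Fin 1))).trans (Eqv.of_eq ?_)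
  ext ⟨i, a⟩ ⟨j, b⟩
  simp [comp, ofMat]

theorem eqv_of_peqv {A : Matrix ι ι ℕ} {B : Matrix κ κ ℕ} (h : PEqv (ofMat A) (ofMat B)) :
    Eqv A B := ((eqv_ofMat A).trans h).trans (eqv_ofMat B).symm

/-- strong shift equivalence of matrices from strong shift equivalence of presentations -/
theorem sse_of_peqv {n m : ℕ} {A : Matrix (Fin n) (Fin n) ℕ} {B : Matrix (Fin m) (Fin m) ℕ}
    (h : PEqv (ofMat A) (ofMat B)) : SSE ⟨n, A⟩ ⟨m, B⟩ :=
  ((Eqv.of_fin A).trans _ _ _ (eqv_of_peqv h)).trans _ _ _ (Relation.EqvGen.symm _ _ (Eqv.of_fin B))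

/-- a matrix over `ℕ` as a matrix over `ℤ[X]` -/
noncomputable abbrev cst (A : Matrix ι κ ℕ) : Matrix ι κ ℤ[X] := A.map (Nat.castRingHom ℤ[X])

omit [Fintype ι] [Fintype μ] in
lemma cst_mul (A : Matrix ι κ ℕ) (B : Matrix κ μ ℕ) : cst (A * B) = cst A * cst B :=
  Matrix.map_mul

lemma cst_pow (A : Matrix ι ι ℕ) (k : ℕ) : cst (A ^ k) = cst A ^ k := by
  induction k with
  | zero => simp [cst]
  | succ k ih => rw [pow_succ, cst_mul, ih, pow_succ]

/-- the first presentation on the common generators -/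
noncomputable def pres1 (A : Matrix ι ι ℕ) (S : Matrix κ ι ℕ) : Matrix (ι ⊕ κ) (ι ⊕ κ) ℕ[X] :=
  fromBlocks (ofMat A) 0 (of fun i j => C (S i j) * X) 0

/-- the second presentation on the common generators -/
noncomputable def pres2 (l : ℕ) (B : Matrix κ κ ℕ) (R : Matrix ι κ ℕ) :
    Matrix (ι ⊕ κ) (ι ⊕ κ) ℕ[X] :=
  fromBlocks 0 (of fun i j => C (R i j) * X ^ (l - 1)) 0 (ofMat B)

omit [Fintype ι] [Fintype κ] in
lemma isPres_pres1 (A : Matrix ι ι ℕ) (S : Matrix κ ι ℕ) : IsPres (pres1 A S) := by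
  rintro (i | i) (j | j) <;> simp [pres1, ofMat]

omit [Fintype ι] [Fintype κ] in
lemma isPres_pres2 {l : ℕ} (hl : 2 ≤ l) (B : Matrix κ κ ℕ) (R : Matrix ι κ ℕ) :
    IsPres (pres2 l B R) := by
  obtain ⟨l, rfl⟩ : ∃ k, l = k + 2 := ⟨l - 2, by omega⟩
  rintro (i | i) (j | j) <;> simp [pres2, ofMat]

lemma peqv_pres1 (A : Matrix ι ι ℕ) (S : Matrix κ ι ℕ) : PEqv (pres1 A S) (ofMat A) :=
  sources _ _

lemma peqv_pres2 (l : ℕ) (B : Matrix κ κ ℕ) (R : Matrix ι κ ℕ) :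
    PEqv (pres2 l B R) (ofMat B) := by
  refine (PEqv.reindex (pres2 l B R) (Equiv.sumComm κ ι)).trans ?_
  have h := sources (ofMat B) (of fun (i : ι) (j : κ) => C (R i j) * X ^ (l - 1))
  convert h using 1
  ext1 (i | i) (j | j) <;> rfl

omit [Fintype ι] [Fintype κ] in
lemma IP_pres1 (A : Matrix ι ι ℕ) (S : Matrix κ ι ℕ) :
    IP (pres1 A S) = fromBlocks (1 - (X : ℤ[X]) • cst A) 0 (-((X : ℤ[X]) • cst S)) 1 := by
  ext1 (i | i) (j | j)
  · simp [IP, pres1, ofMat, toZ, Matrix.one_apply, mul_comm]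
  · simp [IP, pres1, toZ]
  · simp [IP, pres1, toZ, mul_comm]
  · simp [IP, pres1, toZ, Matrix.one_apply]

omit [Fintype ι] [Fintype κ] in
lemma IP_pres2 (l : ℕ) (B : Matrix κ κ ℕ) (R : Matrix ι κ ℕ) :
    IP (pres2 l B R) =
      fromBlocks 1 (-((X : ℤ[X]) ^ (l - 1) • cst R)) 0 (1 - (X : ℤ[X]) • cst B) := by
  ext1 (i | i) (j | j)
  · simp [IP, pres2, toZ, Matrix.one_apply]
  · simp [IP, pres2, toZ, mul_comm]
  · simp [IP, pres2, toZ]
  · simp [IP, pres2, ofMat, toZ, Matrix.one_apply, mul_comm]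

/-- the change of relations -/
noncomputable def chg (l : ℕ) (A : Matrix ι ι ℕ) (B : Matrix κ κ ℕ) (R : Matrix ι κ ℕ)
    (S : Matrix κ ι ℕ) : Matrix (ι ⊕ κ) (ι ⊕ κ) ℤ[X] :=
  fromBlocks (∑ k ∈ Finset.range l, ((X : ℤ[X]) • cst A) ^ k) (-((X : ℤ[X]) ^ (l - 1) • cst R))
    ((X : ℤ[X]) • cst S) (1 - (X : ℤ[X]) • cst B)

/-- its inverse -/
noncomputable def chg' (l : ℕ) (A : Matrix ι ι ℕ) (B : Matrix κ κ ℕ) (R : Matrix ι κ ℕ)
    (S : Matrix κ ι ℕ) : Matrix (ι ⊕ κ) (ι ⊕ κ) ℤ[X] :=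
  fromBlocks (1 - (X : ℤ[X]) • cst A) ((X : ℤ[X]) ^ (l - 1) • cst R)
    (-((X : ℤ[X]) • cst S)) (∑ k ∈ Finset.range l, ((X : ℤ[X]) • cst B) ^ k)

variable {l : ℕ} {A : Matrix ι ι ℕ} {B : Matrix κ κ ℕ} {R : Matrix ι κ ℕ} {S : Matrix κ ι ℕ}

lemma smul_aux (l : ℕ) (hl : 0 < l) (h1 : A ^ l = R * S) :
    ((X : ℤ[X]) ^ (l - 1) • cst R) * ((X : ℤ[X]) • cst S) = ((X : ℤ[X]) • cst A) ^ l := by
  rw [Matrix.smul_mul, Matrix.mul_smul, smul_smul, ← pow_succ, Nat.sub_add_cancel hl, _root_.smul_pow,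
    ← cst_mul, ← h1, cst_pow]

lemma smul_aux' (l : ℕ) (hl : 0 < l) (h2 : B ^ l = S * R) :
    ((X : ℤ[X]) • cst S) * ((X : ℤ[X]) ^ (l - 1) • cst R) = ((X : ℤ[X]) • cst B) ^ l := by
  rw [Matrix.smul_mul, Matrix.mul_smul, smul_smul, ← pow_succ', Nat.sub_add_cancel hl, _root_.smul_pow,
    ← cst_mul, ← h2, cst_pow]

lemma smul_comm_aux (h4 : S * A = B * S) : cst S * ((X : ℤ[X]) • cst A) =
    ((X : ℤ[X]) • cst B) * cst S := by
  rw [Matrix.smul_mul, Matrix.mul_smul, ← cst_mul, h4, cst_mul]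

lemma smul_comm_aux' (h3 : A * R = R * B) : ((X : ℤ[X]) • cst A) * cst R =
    cst R * ((X : ℤ[X]) • cst B) := by
  rw [Matrix.smul_mul, Matrix.mul_smul, ← cst_mul, h3, cst_mul]

theorem chg_mul (hl : 0 < l) (h1 : A ^ l = R * S) (h4 : S * A = B * S) :
    chg l A B R S * IP (pres1 A S) = IP (pres2 l B R) := by
  rw [IP_pres1, IP_pres2, chg, fromBlocks_multiply]
  congr 1
  · rw [geom_sum_mul_neg, Matrix.neg_mul, Matrix.mul_neg, neg_neg, smul_aux l hl h1]
    abel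
  · simp
  · rw [Matrix.mul_neg, Matrix.sub_mul, Matrix.mul_sub, Matrix.one_mul, Matrix.mul_one]
    have := smul_comm_aux h4
    rw [Matrix.smul_mul, this]
    simp only [Matrix.mul_smul, Matrix.smul_mul]
    abel
  · simp

theorem chg'_mul_chg (hl : 0 < l) (h1 : A ^ l = R * S) (h2 : B ^ l = S * R) (h3 : A * R = R * B)
    (h4 : S * A = B * S) : chg' l A B R S * chg l A B R S = 1 := by
  rw [chg', chg, fromBlocks_multiply]
  have e1 : (1 - (X : ℤ[X]) • cst A) * ∑ k ∈ Finset.range l, ((X : ℤ[X]) • cst A) ^ k +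
      ((X : ℤ[X]) ^ (l - 1) • cst R) * ((X : ℤ[X]) • cst S) = 1 := by
    rw [mul_neg_geom_sum, smul_aux l hl h1]
    abel
  have e2 : (1 - (X : ℤ[X]) • cst A) * -((X : ℤ[X]) ^ (l - 1) • cst R) +
      ((X : ℤ[X]) ^ (l - 1) • cst R) * (1 - (X : ℤ[X]) • cst B) = 0 := by
    rw [Matrix.mul_neg, Matrix.sub_mul, Matrix.mul_sub, Matrix.one_mul, Matrix.mul_one,
      Matrix.mul_smul, smul_comm_aux' h3, Matrix.smul_mul]
    abel
  have e3 : -((X : ℤ[X]) • cst S) * ∑ k ∈ Finset.range l, ((X : ℤ[X]) • cst A) ^ k +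
      (∑ k ∈ Finset.range l, ((X : ℤ[X]) • cst B) ^ k) * ((X : ℤ[X]) • cst S) = 0 := by
    have h5 : ∀ k : ℕ, cst S * ((X : ℤ[X]) • cst A) ^ k = ((X : ℤ[X]) • cst B) ^ k * cst S := by
      intro k
      induction k with
      | zero => simp
      | succ k ih => rw [pow_succ, ← Matrix.mul_assoc, ih, Matrix.mul_assoc, smul_comm_aux h4,
          ← Matrix.mul_assoc, pow_succ]
    rw [Matrix.neg_mul, Matrix.smul_mul, Matrix.mul_smul, Matrix.mul_sum, Matrix.sum_mul]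
    simp only [h5]
    abel
  have e4 : -((X : ℤ[X]) • cst S) * -((X : ℤ[X]) ^ (l - 1) • cst R) +
      (∑ k ∈ Finset.range l, ((X : ℤ[X]) • cst B) ^ k) * (1 - (X : ℤ[X]) • cst B) = 1 := by
    rw [geom_sum_mul_neg, Matrix.neg_mul, Matrix.mul_neg, neg_neg, smul_aux' l hl h2]
    abel
  rw [e1, e2, e3, e4, fromBlocks_one]

theorem chg_mul_chg' (hl : 0 < l) (h1 : A ^ l = R * S) (h2 : B ^ l = S * R) (h3 : A * R = R * B)
    (h4 : S * A = B * S) : chg l A B R S * chg' l A B R S = 1 :=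
  mul_eq_one_comm.1 (chg'_mul_chg hl h1 h2 h3 h4)

theorem chg_zero (hl : 2 ≤ l) : (chg l A B R S).map (evalRingHom 0) = 1 := by
  obtain ⟨l, rfl⟩ : ∃ k, l = k + 2 := ⟨l - 2, by omega⟩
  rw [chg, fromBlocks_map, ← fromBlocks_one]
  congr 1
  · rw [← RingHom.mapMatrix_apply, map_sum, Finset.sum_range_succ']
    simp only [map_pow, pow_zero]
    rw [Finset.sum_eq_zero]
    · simp
    · intro k _
      have : (evalRingHom (0 : ℤ)).mapMatrix ((X : ℤ[X]) • cst A) = 0 := by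
        ext i j
        simp
      rw [this, zero_pow (by omega)]
  · ext i j
    simp
  · ext i j
    simp
  · ext i j
    simp [Matrix.one_apply, apply_ite]

theorem det_chg (hl : 2 ≤ l) (h1 : A ^ l = R * S) (h2 : B ^ l = S * R) (h3 : A * R = R * B)
    (h4 : S * A = B * S) : (chg l A B R S).det = 1 := by
  have hu : IsUnit (chg l A B R S).det := by
    have := congrArg Matrix.det (chg_mul_chg' (by omega) h1 h2 h3 h4)
    rw [Matrix.det_mul, Matrix.det_one] at this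
    exact IsUnit.of_mul_eq_one _ this
  obtain ⟨c, -, hc⟩ := Polynomial.isUnit_iff.1 hu
  have h0 : (evalRingHom (0 : ℤ)) (chg l A B R S).det = 1 := by
    rw [RingHom.map_det, RingHom.mapMatrix_apply, chg_zero hl, Matrix.det_one]
  rw [← hc] at h0 ⊢
  simp at h0
  rw [h0, C_1]

/-- **Common generators.**  Presentations of shift equivalent matrices on common generators. -/
theorem common_generators {n m l : ℕ} {A : Matrix (Fin n) (Fin n) ℕ} {B : Matrix (Fin m) (Fin m) ℕ}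
    (h : SEl l A B) : ∃ (P Q : Matrix (Fin n ⊕ Fin m) (Fin n ⊕ Fin m) ℕ[X])
      (U V : Matrix (Fin n ⊕ Fin m) (Fin n ⊕ Fin m) ℤ[X]),
      IsPres P ∧ IsPres Q ∧ PEqv P (ofMat A) ∧ PEqv Q (ofMat B) ∧
      IP Q = U * IP P ∧ U * V = 1 ∧ V * U = 1 ∧ U.map (evalRingHom 0) = 1 ∧ U.det = 1 := by
  obtain ⟨R, S, hl, h1, h2, h3, h4⟩ := h
  have h1' : A ^ (l + 1) = (A * R) * S := by rw [pow_succ', h1, Matrix.mul_assoc]
  have h2' : B ^ (l + 1) = S * (A * R) := by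
    rw [pow_succ, h2, Matrix.mul_assoc, h3]
  have h3' : A * (A * R) = (A * R) * B := by rw [Matrix.mul_assoc, h3]
  have hl2 : 2 ≤ l + 1 := by omega
  have hl1 : 0 < l + 1 := by omega
  refine ⟨pres1 A S, pres2 (l + 1) B (A * R), chg (l + 1) A B (A * R) S,
    chg' (l + 1) A B (A * R) S, isPres_pres1 A S, isPres_pres2 hl2 B _, peqv_pres1 A S,
    peqv_pres2 _ B _, (chg_mul hl1 (cast (by congr <;> exact Subsingleton.elim _ _) h1') h4).symm, ?_, ?_, ?_, ?_⟩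
  · exact cast (by congr <;> exact Subsingleton.elim _ _) (chg_mul_chg' hl1 (cast (by congr <;> exact Subsingleton.elim _ _) h1') (cast (by congr <;> exact Subsingleton.elim _ _) h2') h3' h4)
  · exact cast (by congr <;> exact Subsingleton.elim _ _) (chg'_mul_chg hl1 (cast (by congr <;> exact Subsingleton.elim _ _) h1') (cast (by congr <;> exact Subsingleton.elim _ _) h2') h3' h4)
  · exact cast (by congr <;> exact Subsingleton.elim _ _) (chg_zero (A := A) (B := B) (R := A * R) (S := S) hl2)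
  · exact cast (by congr <;> exact Subsingleton.elim _ _) (det_chg hl2 (cast (by congr <;> exact Subsingleton.elim _ _) h1') (cast (by congr <;> exact Subsingleton.elim _ _) h2') h3' h4)

end Pool.Agent.SSE
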