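import Pool.Agent.SSE.B7

/-!
# Transposition and the one-column lemma
-/

set_option autoImplicit false

open scoped BigOperators
open Matrix Polynomial

namespace Pool.Agent.SSE

open Pool.Agent.helper52.SSE

attribute [local instance] Classical.propDecidable

/-! ## transposition -/

theorem Eqv.transpose' {X Y : NM} (h : SSE X Y) : SSE ⟨X.1, X.2ᵀ⟩ ⟨Y.1, Y.2ᵀ⟩ := by
  induction h with
  | rel X Y h =>
    obtain ⟨R, S, h1, h2⟩ := h
    exact Relation.EqvGen.rel _ _ ⟨Sᵀ, Rᵀ, by rw [h1, transpose_mul], by rw [h2, transpose_mul]⟩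
  | refl X => exact Relation.EqvGen.refl _
  | symm X Y _ ih => exact Relation.EqvGen.symm _ _ ih
  | trans X Y Z _ _ ih1 ih2 => exact Relation.EqvGen.trans _ _ _ ih1 ih2

variable {ι κ V W : Type} [Fintype ι] [Fintype κ] [Fintype V] [Fintype W]

theorem Eqv.transpose {X : Matrix V V ℕ} {Y : Matrix W W ℕ} (h : Eqv X Y) : Eqv Xᵀ Yᵀ := by
  have := Eqv.transpose' h
  exact this

/-- The fundamental move with a block. -/
theorem fund_block [DecidableEq V] (A : Matrix V V ℕ) (u : Matrix V κ ℕ) (v : Matrix κ V ℕ) :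
    Eqv (A + u * v) (fromBlocks A u (v * A) (v * u) : Matrix (V ⊕ κ) (V ⊕ κ) ℕ) := by
  have h := Eqv.of_mul (fromCols A u) (fromRows (1 : Matrix V V ℕ) v)
  have h1 : fromCols A u * fromRows (1 : Matrix V V ℕ) v = A + u * v := by
    rw [Matrix.fromCols_mul_fromRows, Matrix.mul_one]
  have h2 : fromRows (1 : Matrix V V ℕ) v * fromCols A u = fromBlocks A u (v * A) (v * u) := by
    rw [Matrix.fromRows_mul_fromCols, Matrix.one_mul, Matrix.one_mul]
  rwa [h1, h2] at h

/-- The bridge lemma with a block. -/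
theorem bridge_block [DecidableEq κ] (k : ℕ) : ∀ {V : Type} [Fintype V] [DecidableEq V]
    (A : Matrix V V ℕ) (u : Matrix V κ ℕ)
    (v v' : Matrix κ V ℕ),
    (∀ r < k, v * A ^ r * u = v' * A ^ r * u) → v * A ^ k = v' * A ^ k →
    Eqv (A + u * v) (A + u * v') := by
  induction k with
  | zero =>
    intro V _ _ A u v v' _ h
    simp only [pow_zero, Matrix.mul_one] at h
    rw [h]
    exact Eqv.refl _
  | succ k ih =>
    intro V _ _ A u v v' h h'
    refine (fund_block A u v).trans (Eqv.trans ?_ (fund_block A u v').symm)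
    have h0 : v * u = v' * u := by simpa using h 0 (Nat.succ_pos k)
    set B : Matrix (V ⊕ κ) (V ⊕ κ) ℕ := fromBlocks A u 0 (v * u) with hB
    set w : Matrix (V ⊕ κ) κ ℕ := fromRows 0 1 with hw
    have hdec : ∀ x : Matrix κ V ℕ, x * u = v * u →
        (fromBlocks A u (x * A) (x * u) : Matrix (V ⊕ κ) (V ⊕ κ) ℕ) =
          B + w * (fromCols (x * A) (0 : Matrix κ κ ℕ) : Matrix κ (V ⊕ κ) ℕ) := by
      intro x hx
      rw [hw, Matrix.fromRows_mul_fromCols, hB, fromBlocks_add, hx]
      simp
    rw [hdec v rfl, hdec v' h0.symm]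
    have hstep : ∀ (x : Matrix κ V ℕ) (c : Matrix κ κ ℕ),
        (fromCols x c : Matrix κ (V ⊕ κ) ℕ) * B =
          (fromCols (x * A) (x * u + c * (v * u)) : Matrix κ (V ⊕ κ) ℕ) := by
      intro x c
      rw [hB, Matrix.fromCols_mul_fromBlocks]
      simp
    have key : ∀ r ≤ k, ∃ c : Matrix κ κ ℕ,
        (fromCols (v * A) (0 : Matrix κ κ ℕ) : Matrix κ (V ⊕ κ) ℕ) * B ^ r =
          (fromCols (v * A ^ (r + 1)) c : Matrix κ (V ⊕ κ) ℕ) ∧
        (fromCols (v' * A) (0 : Matrix κ κ ℕ) : Matrix κ (V ⊕ κ) ℕ) * B ^ r =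
          (fromCols (v' * A ^ (r + 1)) c : Matrix κ (V ⊕ κ) ℕ) := by
      intro r
      induction r with
      | zero =>
        intro _
        refine ⟨0, ?_, ?_⟩
        · simp only [pow_zero, Matrix.mul_one, zero_add, pow_one]
        · simp only [pow_zero, Matrix.mul_one, zero_add, pow_one]
      | succ r ihr =>
        intro hr
        obtain ⟨c, h1, h2⟩ := ihr (by omega)
        refine ⟨v * A ^ (r + 1) * u + c * (v * u), ?_, ?_⟩
        · rw [pow_succ B r, ← Matrix.mul_assoc (fromCols (v * A) (0 : Matrix κ κ ℕ) : Matrix κ (V ⊕ κ) ℕ), h1, hstep, Matrix.mul_assoc v,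
            ← pow_succ]
        · rw [pow_succ B r, ← Matrix.mul_assoc (fromCols (v' * A) (0 : Matrix κ κ ℕ) : Matrix κ (V ⊕ κ) ℕ), h2, hstep,
            Matrix.mul_assoc v', ← pow_succ, h (r + 1) (by omega)]
    refine ih B w _ _ ?_ ?_
    · intro r hr
      obtain ⟨c, h1, h2⟩ := key r hr.le
      rw [h1, h2, hw, Matrix.fromCols_mul_fromRows, Matrix.fromCols_mul_fromRows]
      simp
    · obtain ⟨c, h1, h2⟩ := key k le_rfl
      rw [h1, h2, h']

/-! ## lanes -/

/-- states `(j, b)` to `(j, b + 1)` -/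
noncomputable def up (ι : Type) (d : ℕ) : Matrix (ι × Fin d) (ι × Fin d) ℕ :=
  fun x y => if x.1 = y.1 ∧ (y.2 : ℕ) = x.2 + 1 then 1 else 0

/-- states `(j, b + 1)` to `(j, b)` -/
noncomputable def dn (ι : Type) (d : ℕ) : Matrix (ι × Fin d) (ι × Fin d) ℕ :=
  fun x y => if x.1 = y.1 ∧ (x.2 : ℕ) = y.2 + 1 then 1 else 0

theorem remove_up (d : ℕ) (U : Matrix (ι × Fin d) V ℕ) (M : Matrix V V ℕ) :
    Eqv (fromBlocks (up ι d) U 0 M) M := by
  induction d with
  | zero =>
    have e : V ≃ (ι × Fin 0) ⊕ V := (Equiv.emptySum (ι × Fin 0) V).symm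
    refine (Eqv.reindex _ (Equiv.emptySum (ι × Fin 0) V).symm).trans (Eqv.of_eq ?_)
    ext i j
    simp [Matrix.submatrix_apply]
  | succ d ih =>
    set f : (ι × Fin d) ⊕ V → (ι × Fin (d + 1)) ⊕ V :=
      Sum.map (fun x => (x.1, x.2.succ)) id with hf
    have hinj : Function.Injective f := by
      rintro (⟨i, a⟩ | i) (⟨j, b⟩ | j) h
      · simpa [hf] using h
      · simp [hf] at h
      · simp [hf] at h
      · simpa [hf] using h
    have h := restrict (fromBlocks (up ι (d + 1)) U 0 M) f hinj ?_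
    · refine h.trans ((Eqv.of_eq ?_).trans (ih (U.submatrix (fun x => (x.1, x.2.succ)) id)))
      ext (⟨i, a⟩ | i) (⟨j, b⟩ | j)
      · simp [hf, up]
      · simp [hf]
      · simp [hf]
      · simp [hf]
    · rintro v (⟨j, b⟩ | j) hb
      · have hb' : b = 0 := by
          by_contra hne
          obtain ⟨c, rfl⟩ := Fin.exists_succ_eq.2 hne
          exact hb ⟨Sum.inl (j, c), by simp [hf]⟩
        subst hb'
        rcases v with ⟨i, a⟩ | i
        · simp [up]
        · simp
      · exact absurd ⟨Sum.inr j, by simp [hf]⟩ hb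

theorem remove_dn (d : ℕ) (U : Matrix (ι × Fin d) V ℕ) (M : Matrix V V ℕ) :
    Eqv (fromBlocks (dn ι d) U 0 M) M := by
  induction d with
  | zero =>
    refine (Eqv.reindex _ (Equiv.emptySum (ι × Fin 0) V).symm).trans (Eqv.of_eq ?_)
    ext i j
    simp [Matrix.submatrix_apply]
  | succ d ih =>
    set f : (ι × Fin d) ⊕ V → (ι × Fin (d + 1)) ⊕ V :=
      Sum.map (fun x => (x.1, x.2.castSucc)) id with hf
    have hinj : Function.Injective f := by
      rintro (⟨i, a⟩ | i) (⟨j, b⟩ | j) h
      · simpa [hf] using h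
      · simp [hf] at h
      · simp [hf] at h
      · simpa [hf] using h
    have h := restrict (fromBlocks (dn ι (d + 1)) U 0 M) f hinj ?_
    · refine h.trans ((Eqv.of_eq ?_).trans (ih (U.submatrix (fun x => (x.1, x.2.castSucc)) id)))
      ext (⟨i, a⟩ | i) (⟨j, b⟩ | j)
      · simp [hf, dn]
      · simp [hf]
      · simp [hf]
      · simp [hf]
    · rintro v (⟨j, b⟩ | j) hb
      · have hb' : (b : ℕ) = d := by
          by_contra hne
          have hlt : (b : ℕ) < d := by have := b.2; omega
          exact hb ⟨Sum.inl (j, ⟨b, hlt⟩), by simp [hf]⟩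
        rcases v with ⟨i, a⟩ | i
        · have := a.2
          simp only [fromBlocks_apply₁₁, dn]
          rw [if_neg]
          rintro ⟨-, h2⟩
          omega
        · simp
      · exact absurd ⟨Sum.inr j, by simp [hf]⟩ hb

theorem remove_up' (d : ℕ) (U : Matrix (ι × Fin d) V ℕ) (M : Matrix V V ℕ) :
    Eqv (fromBlocks M 0 U (up ι d)) M := by
  refine Eqv.trans ?_ (remove_up d U M)
  refine (Eqv.reindex _ (Equiv.sumComm _ _)).trans (Eqv.of_eq ?_)
  ext (i | i) (j | j) <;> simp

/-- The transposed companion matrix is strong shift equivalent to the companion matrix of the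
transposed presentation. -/
theorem comp_transpose {d : ℕ} (hd : 0 < d) {P : Matrix ι ι ℕ[X]} (hP : DegLe' d P) :
    Eqv (comp d P)ᵀ (comp d Pᵀ) := by
  set A : Matrix ((ι × Fin d) ⊕ (ι × Fin d)) ((ι × Fin d) ⊕ (ι × Fin d)) ℕ :=
    fromBlocks (dn ι d) 0 0 (up ι d) with hA
  set q : Matrix (ι × Fin d) ι ℕ := fun x i => (P i x.1).coeff (x.2 + 1) with hq
  set F : Matrix (ι × Fin d) ι ℕ := fun x i => if x.1 = i ∧ (x.2 : ℕ) = 0 then 1 else 0 with hF
  set u : Matrix ((ι × Fin d) ⊕ (ι × Fin d)) ι ℕ := fromRows F q with hu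
  -- the row blocks
  set E : ℕ → Matrix ι (ι × Fin d) ℕ := fun r i x => if i = x.1 ∧ (x.2 : ℕ) = r then 1 else 0
    with hE
  set q' : ℕ → Matrix ι (ι × Fin d) ℕ := fun r i x => (P x.1 i).coeff (x.2 + r + 1) with hq'
  have hEs : ∀ r, E r * up ι d = E (r + 1) := by
    intro r
    ext i ⟨j, b⟩
    rw [Matrix.mul_apply, Fintype.sum_prod_type, Finset.sum_eq_single i]
    · simp only [hE, up, true_and]
      by_cases hr : r < d
      · rw [Finset.sum_eq_single ⟨r, hr⟩]
        · simp
        · intro c _ hc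
          rw [if_neg (fun h => hc (Fin.ext h)), zero_mul]
        · simp
      · rw [Finset.sum_eq_zero, if_neg]
        · rintro ⟨-, h⟩
          have := b.2
          omega
        · intro c _
          rw [if_neg (by have := c.2; omega), zero_mul]
    · intro l _ hl
      refine Finset.sum_eq_zero fun c _ => ?_
      simp only [hE]
      rw [if_neg (fun h => hl h.1.symm), zero_mul]
    · simp
  have hqs : ∀ r, q' r * dn ι d = q' (r + 1) := by
    intro r
    ext i ⟨j, b⟩
    rw [Matrix.mul_apply, Fintype.sum_prod_type, Finset.sum_eq_single j]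
    · simp only [hq', dn, true_and]
      by_cases hr : (b : ℕ) + 1 < d
      · rw [Finset.sum_eq_single ⟨b + 1, hr⟩]
        · simp only [if_true, mul_one]
          congr 1
          omega
        · intro c _ hc
          rw [if_neg (fun h => hc (Fin.ext h)), mul_zero]
        · simp
      · rw [Finset.sum_eq_zero, eq_comm]
        · exact coeff_eq_zero_of_natDegree_lt (by have := hP j i; omega)
        · intro c _
          rw [if_neg (by have := c.2; omega), mul_zero]
    · intro l _ hl
      refine Finset.sum_eq_zero fun c _ => ?_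
      simp only [dn]
      rw [if_neg (fun h => hl h.1), mul_zero]
    · simp
  have hv : ∀ r, (fromCols (0 : Matrix ι (ι × Fin d) ℕ) (E 0) :
      Matrix ι ((ι × Fin d) ⊕ (ι × Fin d)) ℕ) * A ^ r =
      (fromCols (0 : Matrix ι (ι × Fin d) ℕ) (E r) :
        Matrix ι ((ι × Fin d) ⊕ (ι × Fin d)) ℕ) := by
    intro r
    induction r with
    | zero => simp
    | succ r ih =>
      rw [pow_succ, ← Matrix.mul_assoc, ih, hA, Matrix.fromCols_mul_fromBlocks]
      simp [hEs]
  have hv' : ∀ r, (fromCols (q' 0) (0 : Matrix ι (ι × Fin d) ℕ) :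
      Matrix ι ((ι × Fin d) ⊕ (ι × Fin d)) ℕ) * A ^ r =
      (fromCols (q' r) (0 : Matrix ι (ι × Fin d) ℕ) :
        Matrix ι ((ι × Fin d) ⊕ (ι × Fin d)) ℕ) := by
    intro r
    induction r with
    | zero => simp
    | succ r ih =>
      rw [pow_succ, ← Matrix.mul_assoc, ih, hA, Matrix.fromCols_mul_fromBlocks]
      simp [hqs]
  have h := bridge_block d A u (fromCols 0 (E 0)) (fromCols (q' 0) 0) ?_ ?_
  · -- the two sides
    have h1 : A + u * fromCols (0 : Matrix ι (ι × Fin d) ℕ) (E 0) =
        fromBlocks (dn ι d) (F * E 0) 0 (comp d P)ᵀ := by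
      rw [hA, hu, Matrix.fromRows_mul_fromCols, fromBlocks_add]
      congr 1
      · simp
      · simp
      · simp
      · ext ⟨j, b⟩ ⟨i, a⟩
        rw [Matrix.add_apply, Matrix.mul_apply, Matrix.transpose_apply]
        simp only [hq, hE, up, comp]
        by_cases ha : (a : ℕ) = 0
        · rw [if_pos ha, if_neg (by omega), zero_add, Finset.sum_eq_single i]
          · simp [ha]
          · intro l _ hl
            rw [if_neg (fun h => hl h.1), mul_zero]
          · simp
        · rw [if_neg ha, Finset.sum_eq_zero, add_zero]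
          · simp only [eq_comm (a := i)]
          · intro l _
            rw [if_neg (fun h => ha h.2), mul_zero]
    have h2 : A + u * fromCols (q' 0) (0 : Matrix ι (ι × Fin d) ℕ) =
        fromBlocks (comp d Pᵀ) 0 (q * q' 0) (up ι d) := by
      rw [hA, hu, Matrix.fromRows_mul_fromCols, fromBlocks_add]
      congr 1
      · ext ⟨j, b⟩ ⟨i, a⟩
        rw [Matrix.add_apply, Matrix.mul_apply]
        simp only [hF, hq', dn, comp, Matrix.transpose_apply]
        by_cases hb : (b : ℕ) = 0
        · rw [if_pos hb, if_neg (by omega), zero_add, Finset.sum_eq_single j]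
          · simp [hb]
          · intro l _ hl
            rw [if_neg (fun h => hl h.1.symm), zero_mul]
          · simp
        · rw [if_neg hb, Finset.sum_eq_zero, add_zero]
          intro l _
          rw [if_neg (fun h => hb h.2), zero_mul]
      · simp
      · simp
      · simp
    rw [h1, h2] at h
    exact ((remove_dn d (F * E 0) _).symm.trans h).trans (remove_up' d _ _)
  · intro r hr
    rw [hv, hv', hu, Matrix.fromCols_mul_fromRows, Matrix.fromCols_mul_fromRows]
    simp only [Matrix.zero_mul, zero_add, add_zero]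
    ext i j
    rw [Matrix.mul_apply, Matrix.mul_apply, Fintype.sum_prod_type, Fintype.sum_prod_type,
      Finset.sum_eq_single i, Finset.sum_eq_single j]
    · rw [Finset.sum_eq_single ⟨r, hr⟩, Finset.sum_eq_single ⟨0, hd⟩]
      · simp [hE, hq, hF, hq']
      · intro c _ hc
        simp only [hF]
        rw [if_neg, mul_zero]
        exact fun h => hc (Fin.ext h.2)
      · simp
      · intro c _ hc
        simp only [hE]
        rw [if_neg, zero_mul]
        exact fun h => hc (Fin.ext h.2)
      · simp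
    · intro l _ hl
      refine Finset.sum_eq_zero fun c _ => ?_
      simp only [hF]
      rw [if_neg (fun h => hl h.1), mul_zero]
    · simp
    · intro l _ hl
      refine Finset.sum_eq_zero fun c _ => ?_
      simp only [hE]
      rw [if_neg (fun h => hl h.1.symm), zero_mul]
    · simp
  · rw [hv, hv']
    congr 1
    · ext i ⟨j, b⟩
      simp only [hq', Matrix.zero_apply]
      exact (coeff_eq_zero_of_natDegree_lt (by have := hP j i; omega)).symm
    · ext i ⟨j, b⟩
      simp only [hE, Matrix.zero_apply]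
      rw [if_neg]
      rintro ⟨-, h⟩
      have := b.2
      omega

theorem PEqv.transpose {P : Matrix ι ι ℕ[X]} {Q : Matrix κ κ ℕ[X]} (h : PEqv P Q) :
    PEqv Pᵀ Qᵀ := by
  have h1 : Eqv (Pool.Agent.SSE.comp (bd P) P)ᵀ (Pool.Agent.SSE.comp (bd Q) Q)ᵀ := Eqv.transpose h
  have h2 := comp_transpose (bd_pos P) (degLe_bd P)
  have h3 := comp_transpose (bd_pos Q) (degLe_bd Q)
  exact PEqv.of_comp (fun i j => degLe_bd P j i) (fun i j => degLe_bd Q j i)
    ((h2.symm.trans h1).trans h3)

/-- The one-column lemma: changing one column by a combination of the other columns of `1 - P`. -/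
theorem one_column {P P' : Matrix ι ι ℕ[X]} (hP : IsPres P) (hP' : IsPres P') (j : ι)
    (hcol : ∀ i l, l ≠ j → P' i l = P i l) (c : ι → ℤ[X]) (hc : c j = 0)
    (h : ∀ i, IP P' i j = IP P i j + ∑ l, IP P i l * c l) : PEqv P P' := by
  have h1 := one_row (P := Pᵀ) (P' := P'ᵀ) (fun i l => hP l i) (fun i l => hP' l i) j
    (fun l hl => by funext i; exact (hcol i l hl).symm) c hc ?_
  · simpa using h1.transpose
  · intro i
    have hIP : ∀ (Q : Matrix ι ι ℕ[X]) (a b : ι), IP Qᵀ a b = IP Q b a := by
      intro Q a b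
      simp only [IP, Matrix.transpose_apply]
      simp only [eq_comm]
    rw [hIP, hIP, h i]
    congr 1
    refine Finset.sum_congr rfl fun l _ => ?_
    rw [hIP, mul_comm]

end Pool.Agent.SSE
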