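import Pool.Agent.SSE.BR1

/-!
# SSE bridge, BR2: the positive expansion of the hub row

`I` the index set of a presentation `P`, `x` the hub. `vM P x` = the part of `P` avoiding `x`,
`vy P x` = the references of row `x` to the other vertices, `vt x a` = the covers `t^(a v) e_v`.
`GV` the expansion coefficients, `NV` the resulting references:
`NV = g y + GV M - GV = ∑_(i ≤ n) (1 - t^u) t^(i u) g (y M^i) + t^((n+1)u) g (y M^(n+1))`.
-/

set_option autoImplicit false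

open scoped BigOperators
open Matrix Polynomial

namespace Pool.Agent.SSE

attribute [local instance] Classical.propDecidable

variable {I : Type} [Fintype I]

/-- the part of `P` avoiding `x` -/
noncomputable def vM (P : Matrix I I ℕ[X]) (x : I) : Matrix I I ℕ[X] :=
  fun i j => if i = x ∨ j = x then 0 else P i j

/-- the row `x` outside `x` -/
noncomputable def vy (P : Matrix I I ℕ[X]) (x : I) : I → ℕ[X] := fun j => if j = x then 0 else P x j

/-- the covers -/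
noncomputable def vt (x : I) (a : I → ℕ) : I → ℕ[X] := fun j => if j = x then 0 else X ^ a j

/-- the coefficients of the positive expansion -/
noncomputable def GV (P : Matrix I I ℕ[X]) (x : I) (g : PowerSeries ℤ) (u n : ℕ) (l : I) :
    PowerSeries ℤ :=
  ∑ i ∈ Finset.range (n + 1), PowerSeries.X ^ ((i + 1) * u) *
    (g * ps (toZ ((vy P x ᵥ* (vM P x) ^ i) l)))

/-- the references to the vertices `≠ x` after the positive expansion -/
noncomputable def NV (P : Matrix I I ℕ[X]) (x : I) (g : PowerSeries ℤ) (u n : ℕ) (j : I) :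
    PowerSeries ℤ :=
  g * ps (toZ (vy P x j)) + ∑ l, GV P x g u n l * ps (toZ (vM P x l j)) - GV P x g u n j

variable {P : Matrix I I ℕ[X]} {x : I} {g : PowerSeries ℤ} {ρ κ : ℝ} {N u : ℕ}

lemma br2_ps_mul (p q : ℕ[X]) : ps (toZ (p * q)) = ps (toZ p) * ps (toZ q) := by
  have h : toZ (p * q) = toZ p * toZ q := Polynomial.map_mul _
  rw [h]
  exact Polynomial.coe_mul _ _

lemma br2_ps_sum {α : Type} (s : Finset α) (f : α → ℕ[X]) :
    ps (toZ (∑ i ∈ s, f i)) = ∑ i ∈ s, ps (toZ (f i)) := by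
  ext n
  rw [map_sum, coeff_ps, coeff_toZ, Polynomial.finsetSum_coeff]
  push_cast
  exact Finset.sum_congr rfl fun i _ => (coeff_toZ _ _).symm

lemma br2_step (P : Matrix I I ℕ[X]) (x : I) (i : ℕ) (j : I) :
    ps (toZ ((vy P x ᵥ* (vM P x) ^ (i + 1)) j)) =
      ∑ l, ps (toZ ((vy P x ᵥ* (vM P x) ^ i) l)) * ps (toZ (vM P x l j)) := by
  rw [pow_succ, ← Matrix.vecMul_vecMul]
  simp only [← br2_ps_mul, ← br2_ps_sum]
  rfl

lemma br2_shift_nonneg {f : PowerSeries ℤ} (hf : ∀ d, 0 ≤ PowerSeries.coeff d f) (k d : ℕ) :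
    0 ≤ PowerSeries.coeff d (PowerSeries.X ^ k * f) := by
  rw [PowerSeries.coeff_X_pow_mul']
  split_ifs
  · exact hf _
  · exact le_rfl

theorem GV_nonneg (R : Res g ρ κ N u) (n : ℕ) (l : I) (d : ℕ) :
    0 ≤ PowerSeries.coeff d (GV P x g u n l) := by
  rw [GV, map_sum]
  exact Finset.sum_nonneg fun i _ => br2_shift_nonneg (coeff_mul_nonneg R.nonneg _) _ _

theorem NV_eq (P : Matrix I I ℕ[X]) (x : I) (g : PowerSeries ℤ) (u n : ℕ) (j : I) :
    NV P x g u n j = ∑ i ∈ Finset.range (n + 1), (1 - PowerSeries.X ^ u) *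
      (PowerSeries.X ^ (i * u) * (g * ps (toZ ((vy P x ᵥ* (vM P x) ^ i) j)))) +
      PowerSeries.X ^ ((n + 1) * u) * (g * ps (toZ ((vy P x ᵥ* (vM P x) ^ (n + 1)) j))) := by
  have h1 : ∑ l, GV P x g u n l * ps (toZ (vM P x l j)) = ∑ i ∈ Finset.range (n + 1),
      PowerSeries.X ^ ((i + 1) * u) * (g * ps (toZ ((vy P x ᵥ* (vM P x) ^ (i + 1)) j))) := by
    simp only [GV, Finset.sum_mul]
    rw [Finset.sum_comm]
    refine Finset.sum_congr rfl fun i _ => ?_
    rw [br2_step, Finset.mul_sum, Finset.mul_sum]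
    exact Finset.sum_congr rfl fun l _ => by ring
  have h0 : g * ps (toZ (vy P x j)) = PowerSeries.X ^ (0 * u) *
      (g * ps (toZ ((vy P x ᵥ* (vM P x) ^ 0) j))) := by
    rw [pow_zero, Matrix.vecMul_one, zero_mul, pow_zero, one_mul]
  have h2 : g * ps (toZ (vy P x j)) + ∑ i ∈ Finset.range (n + 1),
      PowerSeries.X ^ ((i + 1) * u) * (g * ps (toZ ((vy P x ᵥ* (vM P x) ^ (i + 1)) j))) =
      ∑ i ∈ Finset.range (n + 1), PowerSeries.X ^ (i * u) *
        (g * ps (toZ ((vy P x ᵥ* (vM P x) ^ i) j))) +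
      PowerSeries.X ^ ((n + 1) * u) * (g * ps (toZ ((vy P x ᵥ* (vM P x) ^ (n + 1)) j))) := by
    rw [h0, ← Finset.sum_range_succ (fun i => PowerSeries.X ^ (i * u) *
      (g * ps (toZ ((vy P x ᵥ* (vM P x) ^ i) j)))), Finset.sum_range_succ' (fun i =>
      PowerSeries.X ^ (i * u) * (g * ps (toZ ((vy P x ᵥ* (vM P x) ^ i) j)))), add_comm]
  rw [NV, h1, h2, GV]
  simp only [sub_mul, one_mul, Finset.sum_sub_distrib]
  have h3 : ∀ i, PowerSeries.X ^ u * (PowerSeries.X ^ (i * u) *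
      (g * ps (toZ ((vy P x ᵥ* (vM P x) ^ i) j)))) = PowerSeries.X ^ ((i + 1) * u) *
      (g * ps (toZ ((vy P x ᵥ* (vM P x) ^ i) j))) := by
    intro i
    rw [← mul_assoc, ← pow_add]
    congr 2
    ring
  simp only [h3]
  ring

lemma br2_half (R : Res g ρ κ N u) (q : ℕ[X]) (k d : ℕ) :
    PowerSeries.coeff d (PowerSeries.X ^ k * (g * ps (toZ q))) ≤
      2 * PowerSeries.coeff d ((1 - PowerSeries.X ^ u) * (PowerSeries.X ^ k * (g * ps (toZ q)))) := by
  have h1 : ∀ n, 0 ≤ PowerSeries.coeff n (g - 2 * (PowerSeries.X ^ u * g)) := by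
    intro n
    have := R.half n
    have e : PowerSeries.coeff n (2 * (PowerSeries.X ^ u * g)) =
        2 * PowerSeries.coeff n (PowerSeries.X ^ u * g) := by
      rw [two_mul, map_add]
      ring
    rw [map_sub, e]
    linarith
  have h2 := br2_shift_nonneg (coeff_mul_nonneg h1 q) k d
  have h3 : PowerSeries.X ^ k * ((g - 2 * (PowerSeries.X ^ u * g)) * ps (toZ q)) =
      (1 - PowerSeries.X ^ u) * (PowerSeries.X ^ k * (g * ps (toZ q))) +
      (1 - PowerSeries.X ^ u) * (PowerSeries.X ^ k * (g * ps (toZ q))) -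
      PowerSeries.X ^ k * (g * ps (toZ q)) := by
    ring
  rw [h3, map_sub, map_add] at h2
  linarith

lemma br2_term_nonneg (R : Res g ρ κ N u) (q : ℕ[X]) (k d : ℕ) :
    0 ≤ PowerSeries.coeff d ((1 - PowerSeries.X ^ u) * (PowerSeries.X ^ k * (g * ps (toZ q)))) := by
  have h1 := br2_half R q k d
  have h2 := br2_shift_nonneg (coeff_mul_nonneg R.nonneg q) k d
  linarith

/-- `2 NV ≥ t^(i u) g (y M^i)` for every `i ≤ n` -/
theorem NV_ge (R : Res g ρ κ N u) (n i : ℕ) (hi : i ≤ n) (j : I) (d : ℕ) :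
    PowerSeries.coeff d (PowerSeries.X ^ (i * u) *
      (g * ps (toZ ((vy P x ᵥ* (vM P x) ^ i) j)))) ≤ 2 * PowerSeries.coeff d (NV P x g u n j) := by
  rw [NV_eq, map_add, map_sum]
  have h1 := br2_shift_nonneg (coeff_mul_nonneg R.nonneg ((vy P x ᵥ* (vM P x) ^ (n + 1)) j))
    ((n + 1) * u) d
  have h2 : PowerSeries.coeff d ((1 - PowerSeries.X ^ u) *
      (PowerSeries.X ^ (i * u) * (g * ps (toZ ((vy P x ᵥ* (vM P x) ^ i) j))))) ≤
      ∑ i ∈ Finset.range (n + 1), PowerSeries.coeff d ((1 - PowerSeries.X ^ u) *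
      (PowerSeries.X ^ (i * u) * (g * ps (toZ ((vy P x ᵥ* (vM P x) ^ i) j))))) :=
    Finset.single_le_sum (f := fun i => PowerSeries.coeff d ((1 - PowerSeries.X ^ u) *
      (PowerSeries.X ^ (i * u) * (g * ps (toZ ((vy P x ᵥ* (vM P x) ^ i) j))))))
      (fun i _ => br2_term_nonneg R _ _ _) (Finset.mem_range.2 (by omega))
  have h3 := br2_half R ((vy P x ᵥ* (vM P x) ^ i) j) (i * u) d
  linarith

theorem NV_nonneg (R : Res g ρ κ N u) (n : ℕ) (j : I) (d : ℕ) :
    0 ≤ PowerSeries.coeff d (NV P x g u n j) := by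
  have h1 := NV_ge (P := P) (x := x) R n 0 (Nat.zero_le n) j d
  have h2 := br2_shift_nonneg (coeff_mul_nonneg R.nonneg ((vy P x ᵥ* (vM P x) ^ 0) j)) (0 * u) d
  linarith

/-- growth of the references to the vertices which are reachable from `x` -/
theorem NV_low (R : Res g ρ κ N u) (n i : ℕ) (hi : i ≤ n) (j : I)
    (h : (vy P x ᵥ* (vM P x) ^ i) j ≠ 0) :
    ∃ (κ' : ℝ) (N' : ℕ), 0 < κ' ∧ ∀ d, N' ≤ d →
      κ' * (ρ⁻¹) ^ d ≤ ((PowerSeries.coeff d (NV P x g u n j) : ℤ) : ℝ) := by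
  obtain ⟨e, he⟩ : ∃ e, ((vy P x ᵥ* (vM P x) ^ i) j).coeff e ≠ 0 := by
    by_contra hcon
    push Not at hcon
    exact h (Polynomial.ext (by simpa using hcon))
  have hρ := R.ρ0
  have hκ := R.κ0
  refine ⟨κ * ρ ^ (i * u + e) / 2, N + (i * u + e), by positivity, fun d hd => ?_⟩
  have h1 := NV_ge (P := P) (x := x) R n i hi j d
  have h2 : PowerSeries.coeff (d - i * u - e) g ≤ PowerSeries.coeff d (PowerSeries.X ^ (i * u) *
      (g * ps (toZ ((vy P x ᵥ* (vM P x) ^ i) j)))) := by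
    rw [PowerSeries.coeff_X_pow_mul', if_pos (by omega)]
    exact le_coeff_mul R.nonneg (by omega) (by omega)
  have h3 := R.low (d - i * u - e) (by omega)
  have h4 : ((PowerSeries.coeff (d - i * u - e) g : ℤ) : ℝ) ≤
      2 * ((PowerSeries.coeff d (NV P x g u n j) : ℤ) : ℝ) := by
    exact_mod_cast h2.trans h1
  have h5 : (ρ⁻¹) ^ (d - i * u - e) = ρ ^ (i * u + e) * (ρ⁻¹) ^ d := by
    have h6 : (ρ⁻¹) ^ d = (ρ⁻¹) ^ (d - i * u - e) * (ρ⁻¹) ^ (i * u + e) := by
      rw [← pow_add]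
      congr 1
      omega
    rw [h6, mul_comm ((ρ⁻¹) ^ (d - i * u - e)), ← mul_assoc, ← mul_pow, mul_inv_cancel₀ hρ.ne',
      one_pow, one_mul]
  rw [h5] at h3
  linarith

lemma br2_vec_dvd (T : ℕ) (h : ∀ j, j ≠ x → ∀ d, d < T → (P x j).coeff d = 0) (i : ℕ) (j : I) :
    (X : ℕ[X]) ^ T ∣ (vy P x ᵥ* (vM P x) ^ i) j := by
  have h0 : ∀ l, (X : ℕ[X]) ^ T ∣ vy P x l := by
    intro l
    rw [Polynomial.X_pow_dvd_iff]
    intro d hd
    unfold vy
    split_ifs with hl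
    · simp
    · exact h l hl d hd
  show (X : ℕ[X]) ^ T ∣ ∑ l, vy P x l * ((vM P x) ^ i) l j
  exact Finset.dvd_sum fun l _ => Dvd.dvd.mul_right (h0 l) _

/-- the expansion is small: nothing in degrees `< T` if the references of row `x` are `0 mod t^T` -/
theorem GV_coeff_lt (T : ℕ) (h : ∀ j, j ≠ x → ∀ d, d < T → (P x j).coeff d = 0) (n : ℕ) (l : I)
    (d : ℕ) (hd : d < T) : PowerSeries.coeff d (GV P x g u n l) = 0 := by
  have h1 : (PowerSeries.X : PowerSeries ℤ) ^ T ∣ GV P x g u n l := by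
    unfold GV
    refine Finset.dvd_sum fun i _ => ?_
    refine Dvd.dvd.mul_left (Dvd.dvd.mul_left ?_ _) _
    rw [PowerSeries.X_pow_dvd_iff]
    intro m hm
    rw [coeff_ps, coeff_toZ, Polynomial.X_pow_dvd_iff.1 (br2_vec_dvd T h i l) m hm]
    rfl
  exact PowerSeries.X_pow_dvd_iff.1 h1 d hd

end Pool.Agent.SSE
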