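import Pool.Agent.SSE.BR3a

/-!
# SSE bridge, BR3: the choice of `m` and the column of the hub
-/

set_option autoImplicit false

open scoped BigOperators
open Matrix Polynomial

namespace Pool.Agent.SSE

attribute [local instance] Classical.propDecidable

variable {I : Type} [Fintype I]

variable {P : Matrix I I ℕ[X]} {x : I} {g : PowerSeries ℤ} {ρ κ : ℝ} {N u : ℕ}

private theorem BR3_coeff_le {r : ℝ} (hr : 0 < r) (p : ℕ[X]) (d : ℕ) :
    ((p.coeff d : ℕ) : ℝ) ≤ wn r (toR (toZ p)) * (r⁻¹) ^ d := by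
  have h1 : (p.coeff d : ℝ) * r ^ d ≤ wn r (toR (toZ p)) := by
    by_cases hd : d ∈ p.support
    · rw [wn_toZ]
      exact Finset.single_le_sum (f := fun k => (p.coeff k : ℝ) * r ^ k)
        (fun k _ => by positivity) hd
    · rw [Polynomial.notMem_support_iff.1 hd, Nat.cast_zero, zero_mul]
      exact wn_toZ_nonneg hr p
  have h2 : (0 : ℝ) < r ^ d := pow_pos hr d
  rw [inv_pow, ← div_eq_mul_inv, le_div_iff₀ h2]
  exact h1

private theorem BR3_wn_zero (r : ℝ) : wn r (toR (toZ 0)) = 0 := by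
  rw [wn_toZ]
  simp

private theorem BR3_wn_pow (r : ℝ) (k : ℕ) : wn r (toR (toZ (X ^ k))) = r ^ k := by
  rw [wn_toZ, Polynomial.X_pow_eq_monomial, Polynomial.support_monomial k one_ne_zero]
  simp

private theorem BR3_wn_sum (r : ℝ) {ι : Type} (s : Finset ι) (f : ι → ℕ[X]) :
    wn r (toR (toZ (∑ i ∈ s, f i))) = ∑ i ∈ s, wn r (toR (toZ (f i))) := by
  induction s using Finset.induction_on with
  | empty => rw [Finset.sum_empty, Finset.sum_empty, BR3_wn_zero]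
  | insert a s ha ih => rw [Finset.sum_insert ha, Finset.sum_insert ha, wn_toZ_add, ih]

private theorem BR3_vM0 (hP : IsPres P) (i j : I) : (vM P x i j).coeff 0 = 0 := by
  unfold vM
  split_ifs
  · simp
  · exact hP i j

private theorem BR3_hub (a : I → ℕ) (m : ℕ) : (vt x a ᵥ* (vM P x) ^ m) x = 0 := by
  cases m with
  | zero => rw [pow_zero, Matrix.vecMul_one]; simp [vt]
  | succ m =>
    rw [pow_succ, ← Matrix.vecMul_vecMul, Matrix.vecMul_eq_sum, Finset.sum_apply]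
    refine Finset.sum_eq_zero fun i _ => ?_
    rw [Pi.smul_apply, smul_eq_mul]
    simp [vM]

private theorem BR3_pow_inv {ρ r : ℝ} (hρ : 0 < ρ) (hr : ρ < r) (d : ℕ) :
    (r⁻¹) ^ d ≤ (ρ⁻¹) ^ d :=
  pow_le_pow_left₀ (inv_pos.2 (hρ.trans hr)).le ((inv_le_inv₀ (hρ.trans hr) hρ).2 hr.le) d

/-- choice of `m` (`P` fixed): the residues `τ M^m` are dominated. For `v` with a nonzero
`(y M^i) v`: `NV_low`, `pow_bound`, `pow_order` (`m` so large that `m ≥ N'` and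
`(∑ wn τ) θ^m ≤ κ'`, then `≤ κ' r^(-d) ≤ κ' ρ^(-d)`); for the others the residue is `0`. -/
theorem exists_m (R : Res g ρ κ N u) (hP : IsPres P) {r θ : ℝ} (hr : ρ < r) (hθ0 : 0 ≤ θ)
    (hθ1 : θ < 1) (hθ : ∀ i, ∑ j, wn r (toR (toZ (vM P x i j))) ≤ θ) (a : I → ℕ) (n : ℕ)
    (hn : ∀ v, v ≠ x → (∃ i, i ≤ n ∧ (vy P x ᵥ* (vM P x) ^ i) v ≠ 0) ∨
      ∀ i, n ≤ i → ∀ z, ((vM P x) ^ i) z v = 0) :
    ∃ m0 : ℕ, ∀ m, m0 ≤ m → ∀ j d, (((vt x a ᵥ* (vM P x) ^ m) j).coeff d : ℤ) ≤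
      PowerSeries.coeff d (NV P x g u n j) := by
  have hρ := R.ρ0
  have hr0 : 0 < r := hρ.trans hr
  have key : ∀ j, ∃ mj : ℕ, ∀ m, mj ≤ m → ∀ d, (((vt x a ᵥ* (vM P x) ^ m) j).coeff d : ℤ) ≤
      PowerSeries.coeff d (NV P x g u n j) := by
    intro j
    by_cases hj : j = x
    · refine ⟨0, fun m _ d => ?_⟩
      rw [hj, BR3_hub a m]
      simpa using NV_nonneg (P := P) (x := x) R n x d
    rcases hn j hj with ⟨i, hi, hne⟩ | hz
    · obtain ⟨κ', N', hκ', hlow⟩ := NV_low (P := P) (x := x) R n i hi j hne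
      set W : ℝ := ∑ i, wn r (toR (toZ (vt x a i))) with hW
      have hW0 : 0 ≤ W := Finset.sum_nonneg fun i _ => wn_toZ_nonneg hr0 _
      obtain ⟨k, hk⟩ := exists_pow_lt_of_lt_one (div_pos hκ' (show 0 < W + 1 by linarith)) hθ1
      refine ⟨max k N', fun m hm d => ?_⟩
      rcases lt_or_ge d m with hdm | hdm
      · rw [pow_order (BR3_vM0 hP) (vt x a) m j d hdm]
        simpa using NV_nonneg (P := P) (x := x) R n j d
      have h1 : (((vt x a ᵥ* (vM P x) ^ m) j).coeff d : ℝ) ≤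
          wn r (toR (toZ ((vt x a ᵥ* (vM P x) ^ m) j))) * (r⁻¹) ^ d := BR3_coeff_le hr0 _ d
      have h2 : wn r (toR (toZ ((vt x a ᵥ* (vM P x) ^ m) j))) ≤ W * θ ^ m :=
        (Finset.single_le_sum (f := fun j => wn r (toR (toZ ((vt x a ᵥ* (vM P x) ^ m) j))))
          (fun i _ => wn_toZ_nonneg hr0 _) (Finset.mem_univ j)).trans
          (pow_bound hr0 hθ0 hθ (vt x a) m)
      have h3 : W * θ ^ m ≤ κ' := by
        have h4 : θ ^ m ≤ κ' / (W + 1) :=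
          (pow_le_pow_of_le_one hθ0 hθ1.le (by omega)).trans hk.le
        calc W * θ ^ m ≤ (W + 1) * (κ' / (W + 1)) :=
              mul_le_mul (by linarith) h4 (pow_nonneg hθ0 m) (by linarith)
          _ = κ' := by field_simp
      have h5 : (0 : ℝ) ≤ (r⁻¹) ^ d := pow_nonneg (inv_pos.2 hr0).le d
      have h6 : (((vt x a ᵥ* (vM P x) ^ m) j).coeff d : ℝ) ≤
          ((PowerSeries.coeff d (NV P x g u n j) : ℤ) : ℝ) :=
        calc (((vt x a ᵥ* (vM P x) ^ m) j).coeff d : ℝ)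
            ≤ wn r (toR (toZ ((vt x a ᵥ* (vM P x) ^ m) j))) * (r⁻¹) ^ d := h1
          _ ≤ κ' * (r⁻¹) ^ d := mul_le_mul_of_nonneg_right (h2.trans h3) h5
          _ ≤ κ' * (ρ⁻¹) ^ d := mul_le_mul_of_nonneg_left (BR3_pow_inv hρ hr d) hκ'.le
          _ ≤ _ := hlow d (by omega)
      exact_mod_cast h6
    · refine ⟨n, fun m hm d => ?_⟩
      have h1 : (vt x a ᵥ* (vM P x) ^ m) j = 0 := by
        rw [Matrix.vecMul_eq_sum, Finset.sum_apply]
        refine Finset.sum_eq_zero fun z _ => ?_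
        rw [Pi.smul_apply, smul_eq_mul, hz m hm z, mul_zero]
      rw [h1]
      simpa using NV_nonneg (P := P) (x := x) R n j d
  choose f hf using key
  refine ⟨∑ j, f j, fun m hm j d => hf j m (le_trans ?_ hm) d⟩
  exact Finset.single_le_sum (f := f) (fun i _ => Nat.zero_le _) (Finset.mem_univ j)

/-- nothing in degrees `< a0` (used for the reserved loops) -/
theorem xpart_low (a : I → ℕ) (a0 : ℕ) (ha : ∀ j, a0 ≤ a j) (m d : ℕ) (hd : d < a0) :
    (∑ l, (∑ i ∈ Finset.range m, (vt x a ᵥ* (vM P x) ^ i) l) * P l x).coeff d = 0 := by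
  have h0 : ∀ l, (X : ℕ[X]) ^ a0 ∣ vt x a l := by
    intro l
    unfold vt
    split_ifs
    · exact dvd_zero _
    · exact pow_dvd_pow _ (ha l)
  have h1 : (X : ℕ[X]) ^ a0 ∣ ∑ l, (∑ i ∈ Finset.range m, (vt x a ᵥ* (vM P x) ^ i) l) * P l x := by
    refine Finset.dvd_sum fun l _ => Dvd.dvd.mul_right (Finset.dvd_sum fun i _ => ?_) _
    show (X : ℕ[X]) ^ a0 ∣ ∑ z, vt x a z * ((vM P x) ^ i) z l
    exact Finset.dvd_sum fun z _ => Dvd.dvd.mul_right (h0 z) _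
  exact Polynomial.X_pow_dvd_iff.1 h1 d hd

/-- the column `x`, uniformly in `P` and `m` -/
theorem xpart (R : Res g ρ κ N u) (hP : IsPres P) {r θ B : ℝ} (hr : ρ < r) (hr1 : r < 1)
    (hθ0 : 0 ≤ θ) (hθ1 : θ < 1) (hB0 : 0 ≤ B)
    (hθ : ∀ i, ∑ j, wn r (toR (toZ (vM P x i j))) ≤ θ)
    (hB : ∀ l, l ≠ x → wn r (toR (toZ (P l x))) ≤ B) {rx : ℕ[X]} {e : ℕ} (he : 1 ≤ rx.coeff e)
    (a : I → ℕ) (a0 : ℕ) (ha : ∀ j, a0 ≤ a j) (ha0 : N + e ≤ a0)
    (hsmall : 2 * ((Fintype.card I : ℝ) * r ^ a0 * ((1 - θ)⁻¹ * B)) ≤ κ * ρ ^ e) (m d : ℕ) :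
    2 * (((∑ l, (∑ i ∈ Finset.range m, (vt x a ᵥ* (vM P x) ^ i) l) * P l x).coeff d : ℕ) : ℤ) ≤
      PowerSeries.coeff d (g * ps (toZ rx)) := by
  have hρ := R.ρ0
  have hr0 : 0 < r := hρ.trans hr
  rcases lt_or_ge d a0 with hd | hd
  · rw [xpart_low a a0 ha m d hd]
    simpa using coeff_mul_nonneg R.nonneg rx d
  set S : ℕ[X] := ∑ l, (∑ i ∈ Finset.range m, (vt x a ᵥ* (vM P x) ^ i) l) * P l x with hS
  set W : ℝ := ∑ i, wn r (toR (toZ (vt x a i))) with hW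
  have hW0 : 0 ≤ W := Finset.sum_nonneg fun i _ => wn_toZ_nonneg hr0 _
  have hW1 : W ≤ (Fintype.card I : ℝ) * r ^ a0 := by
    have h1 : ∀ i : I, wn r (toR (toZ (vt x a i))) ≤ r ^ a0 := by
      intro i
      unfold vt
      split_ifs
      · rw [BR3_wn_zero]; positivity
      · rw [BR3_wn_pow]
        exact pow_le_pow_of_le_one hr0.le hr1.le (ha i)
    calc W ≤ ∑ _i : I, r ^ a0 := Finset.sum_le_sum fun i _ => h1 i
      _ = (Fintype.card I : ℝ) * r ^ a0 := by rw [Finset.sum_const, nsmul_eq_mul, Finset.card_univ]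
  have h1θ : (0 : ℝ) < 1 - θ := by linarith
  have hwS : wn r (toR (toZ S)) ≤ W * (1 - θ)⁻¹ * B := by
    have h1 : wn r (toR (toZ S)) = ∑ l, (∑ i ∈ Finset.range m,
        wn r (toR (toZ ((vt x a ᵥ* (vM P x) ^ i) l)))) * wn r (toR (toZ (P l x))) := by
      rw [hS, BR3_wn_sum]
      exact Finset.sum_congr rfl fun l _ => by rw [wn_toZ_mul, BR3_wn_sum]
    have h2 : ∀ l, (∑ i ∈ Finset.range m,
        wn r (toR (toZ ((vt x a ᵥ* (vM P x) ^ i) l)))) * wn r (toR (toZ (P l x))) ≤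
        (∑ i ∈ Finset.range m, wn r (toR (toZ ((vt x a ᵥ* (vM P x) ^ i) l)))) * B := by
      intro l
      by_cases hl : l = x
      · have h3 : ∑ i ∈ Finset.range m, wn r (toR (toZ ((vt x a ᵥ* (vM P x) ^ i) l))) = 0 :=
          Finset.sum_eq_zero fun i _ => by rw [hl, BR3_hub a i, BR3_wn_zero]
        rw [h3, zero_mul, zero_mul]
      · exact mul_le_mul_of_nonneg_left (hB l hl)
          (Finset.sum_nonneg fun i _ => wn_toZ_nonneg hr0 _)
    calc wn r (toR (toZ S)) ≤ ∑ l, (∑ i ∈ Finset.range m,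
          wn r (toR (toZ ((vt x a ᵥ* (vM P x) ^ i) l)))) * B := by
            rw [h1]; exact Finset.sum_le_sum fun l _ => h2 l
      _ = (∑ i ∈ Finset.range m, ∑ l, wn r (toR (toZ ((vt x a ᵥ* (vM P x) ^ i) l)))) * B := by
          rw [← Finset.sum_mul, Finset.sum_comm]
      _ ≤ (∑ i ∈ Finset.range m, W * θ ^ i) * B :=
          mul_le_mul_of_nonneg_right
            (Finset.sum_le_sum fun i _ => pow_bound hr0 hθ0 hθ (vt x a) i) hB0
      _ ≤ W * (1 - θ)⁻¹ * B := by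
          rw [← Finset.mul_sum]
          refine mul_le_mul_of_nonneg_right (mul_le_mul_of_nonneg_left ?_ hW0) hB0
          have h4 := Summable.sum_le_tsum (Finset.range m) (fun i _ => pow_nonneg hθ0 i)
            (summable_geometric_of_lt_one hθ0 hθ1)
          rwa [tsum_geometric_of_lt_one hθ0 hθ1] at h4
  have hd5 : (0 : ℝ) ≤ (r⁻¹) ^ d := pow_nonneg (inv_pos.2 hr0).le d
  have h6 : 2 * (S.coeff d : ℝ) ≤ κ * ρ ^ e * (ρ⁻¹) ^ d := by
    have h7 : 2 * wn r (toR (toZ S)) ≤ κ * ρ ^ e := by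
      refine le_trans ?_ hsmall
      have h8 : W * (1 - θ)⁻¹ * B ≤ (Fintype.card I : ℝ) * r ^ a0 * ((1 - θ)⁻¹ * B) := by
        rw [mul_assoc]
        exact mul_le_mul_of_nonneg_right hW1 (mul_nonneg (inv_pos.2 h1θ).le hB0)
      linarith
    calc 2 * (S.coeff d : ℝ) ≤ 2 * (wn r (toR (toZ S)) * (r⁻¹) ^ d) :=
          mul_le_mul_of_nonneg_left (BR3_coeff_le hr0 S d) (by norm_num)
      _ = 2 * wn r (toR (toZ S)) * (r⁻¹) ^ d := by ring
      _ ≤ κ * ρ ^ e * (r⁻¹) ^ d := mul_le_mul_of_nonneg_right h7 hd5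
      _ ≤ κ * ρ ^ e * (ρ⁻¹) ^ d :=
          mul_le_mul_of_nonneg_left (BR3_pow_inv hρ hr d)
            (mul_nonneg R.κ0.le (pow_nonneg hρ.le e))
  have h9 : κ * ρ ^ e * (ρ⁻¹) ^ d = κ * (ρ⁻¹) ^ (d - e) := by
    obtain ⟨k, rfl⟩ : ∃ k, d = k + e := ⟨d - e, by omega⟩
    rw [Nat.add_sub_cancel, pow_add, mul_assoc, mul_left_comm (ρ ^ e), ← mul_pow,
      mul_inv_cancel₀ hρ.ne', one_pow, mul_one]
  have h10 := R.low (d - e) (by omega)
  have h11 : PowerSeries.coeff (d - e) g ≤ PowerSeries.coeff d (g * ps (toZ rx)) :=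
    le_coeff_mul R.nonneg he (by omega)
  have h12 : ((PowerSeries.coeff (d - e) g : ℤ) : ℝ) ≤
      ((PowerSeries.coeff d (g * ps (toZ rx)) : ℤ) : ℝ) := by exact_mod_cast h11
  have h13 : 2 * (S.coeff d : ℝ) ≤ ((PowerSeries.coeff d (g * ps (toZ rx)) : ℤ) : ℝ) := by
    rw [h9] at h6
    linarith
  exact_mod_cast h13

end Pool.Agent.SSE
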