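import Pool.Agent.SSE.BR2

/-!
# SSE bridge, BR3a: norms and orders of `τ M^m`

`wn r (toR (toZ p))` is the weighted norm `∑ p_k r^k` of `p : ℕ[X]` (`wn_toZ`).
-/

set_option autoImplicit false

open scoped BigOperators
open Matrix Polynomial

namespace Pool.Agent.SSE

attribute [local instance] Classical.propDecidable

variable {I : Type} [Fintype I]

private theorem BR3a_eval (r : ℝ) (p : ℕ[X]) :
    wn r (toR (toZ p)) = p.eval₂ (Nat.castRingHom ℝ) r := by
  rw [wn_toZ, Polynomial.eval₂_eq_sum, Polynomial.sum]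
  rfl

theorem wn_toZ_mul (r : ℝ) (p q : ℕ[X]) :
    wn r (toR (toZ (p * q))) = wn r (toR (toZ p)) * wn r (toR (toZ q)) := by
  rw [BR3a_eval, BR3a_eval, BR3a_eval, Polynomial.eval₂_mul]

theorem wn_toZ_add (r : ℝ) (p q : ℕ[X]) :
    wn r (toR (toZ (p + q))) = wn r (toR (toZ p)) + wn r (toR (toZ q)) := by
  rw [BR3a_eval, BR3a_eval, BR3a_eval, Polynomial.eval₂_add]

private theorem BR3a_sum (r : ℝ) {ι : Type} (s : Finset ι) (f : ι → ℕ[X]) :
    wn r (toR (toZ (∑ i ∈ s, f i))) = ∑ i ∈ s, wn r (toR (toZ (f i))) := by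
  simp only [BR3a_eval, Polynomial.eval₂_finsetSum]

theorem coeffN_le_wn {r : ℝ} (hr : 0 < r) (p : ℕ[X]) (d : ℕ) :
    ((p.coeff d : ℕ) : ℝ) ≤ wn r (toR (toZ p)) * (r⁻¹) ^ d := by
  have h1 : (p.coeff d : ℝ) * r ^ d ≤ wn r (toR (toZ p)) := by
    by_cases hd : d ∈ p.support
    · rw [wn_toZ]
      exact Finset.single_le_sum (f := fun k => (p.coeff k : ℝ) * r ^ k)
        (fun k _ => by positivity) hd
    · rw [Polynomial.notMem_support_iff.1 hd, Nat.cast_zero, zero_mul]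
      exact wn_toZ_nonneg hr p
  have h2 : (0 : ℝ) < r ^ d := pow_pos hr d
  rw [inv_pow, ← div_eq_mul_inv, le_div_iff₀ h2]
  exact h1

/-- row sums `≤ θ` -/
theorem pow_bound {r θ : ℝ} (hr : 0 < r) (hθ : 0 ≤ θ) {M : Matrix I I ℕ[X]}
    (h : ∀ i, ∑ j, wn r (toR (toZ (M i j))) ≤ θ) (t : I → ℕ[X]) (m : ℕ) :
    ∑ j, wn r (toR (toZ ((t ᵥ* M ^ m) j))) ≤ (∑ i, wn r (toR (toZ (t i)))) * θ ^ m := by
  induction m with
  | zero => simp
  | succ m ih =>
    rw [pow_succ, ← Matrix.vecMul_vecMul]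
    set a : I → ℕ[X] := t ᵥ* M ^ m with ha
    have h1 : ∀ j, wn r (toR (toZ ((a ᵥ* M) j))) =
        ∑ i, wn r (toR (toZ (a i))) * wn r (toR (toZ (M i j))) := by
      intro j
      rw [Matrix.vecMul_eq_sum, Finset.sum_apply, BR3a_sum]
      refine Finset.sum_congr rfl fun i _ => ?_
      rw [Pi.smul_apply, smul_eq_mul, wn_toZ_mul]
    calc ∑ j, wn r (toR (toZ ((a ᵥ* M) j)))
        = ∑ i, wn r (toR (toZ (a i))) * ∑ j, wn r (toR (toZ (M i j))) := by
          simp_rw [h1, Finset.mul_sum]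
          rw [Finset.sum_comm]
      _ ≤ ∑ i, wn r (toR (toZ (a i))) * θ :=
          Finset.sum_le_sum fun i _ =>
            mul_le_mul_of_nonneg_left (h i) (wn_toZ_nonneg hr (a i))
      _ = (∑ i, wn r (toR (toZ (a i)))) * θ := by rw [Finset.sum_mul]
      _ ≤ ((∑ i, wn r (toR (toZ (t i)))) * θ ^ m) * θ :=
          mul_le_mul_of_nonneg_right ih hθ
      _ = (∑ i, wn r (toR (toZ (t i)))) * (θ ^ (m + 1)) := by rw [pow_succ, mul_assoc]

theorem pow_order {M : Matrix I I ℕ[X]} (h : ∀ i j, (M i j).coeff 0 = 0) (t : I → ℕ[X]) (m : ℕ)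
    (j : I) (d : ℕ) (hd : d < m) : ((t ᵥ* M ^ m) j).coeff d = 0 := by
  induction m generalizing j d with
  | zero => exact absurd hd (Nat.not_lt_zero d)
  | succ m ih =>
    rw [pow_succ, ← Matrix.vecMul_vecMul, Matrix.vecMul_eq_sum, Finset.sum_apply,
      Polynomial.finsetSum_coeff]
    refine Finset.sum_eq_zero fun i _ => ?_
    rw [Pi.smul_apply, smul_eq_mul, Polynomial.coeff_mul]
    refine Finset.sum_eq_zero fun x hx => ?_
    rw [Finset.HasAntidiagonal.mem_antidiagonal] at hx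
    rcases Nat.eq_zero_or_pos x.2 with h0 | h0
    · rw [h0, h i j, mul_zero]
    · rw [ih i x.1 (by omega), zero_mul]

end Pool.Agent.SSE
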