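import Pool.Agent.SSE.EDefs

/-!
# SSE-E1a : the weighted norm of a real polynomial

`wn_eq`: for every finset `s ⊇ support` (e.g. `range (natDegree + 1)`), `wn r f = ∑ k ∈ s, |f.coeff k| * r^k`.
`wn_mul_le`: write `f = ∑ monomial k (f.coeff k)` (`f.as_sum_support`), `wn (monomial k a * g) = |a| r^k wn g`.
`wn_scl_sub_le`: `L = ∑ |f_k| k r^k`, `|s^k - s'^k| ≤ k |s - s'|` on `[0,1]`.
-/

set_option autoImplicit false

namespace Pool.Agent.SSE

open Polynomial Matrix

section poly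
variable {r : ℝ}

theorem wn_eq {f : ℝ[X]} {s : Finset ℕ} (h : f.support ⊆ s) :
    wn r f = ∑ k ∈ s, |f.coeff k| * r ^ k := by
  unfold wn
  refine Finset.sum_subset h ?_
  intro k _ hk
  rw [notMem_support_iff.mp hk]
  simp

theorem wn_nonneg (hr : 0 ≤ r) (f : ℝ[X]) : 0 ≤ wn r f := by
  unfold wn
  exact Finset.sum_nonneg fun k _ => mul_nonneg (abs_nonneg _) (pow_nonneg hr _)

theorem wn_zero : wn r 0 = 0 := by
  simp [wn]

theorem wn_neg (f : ℝ[X]) : wn r (-f) = wn r f := by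
  simp [wn, support_neg]

theorem wn_add_le (hr : 0 ≤ r) (f g : ℝ[X]) : wn r (f + g) ≤ wn r f + wn r g := by
  classical
  rw [wn_eq (r := r) (f := f + g) (s := f.support ∪ g.support) support_add,
    wn_eq (r := r) (f := f) (s := f.support ∪ g.support) Finset.subset_union_left,
    wn_eq (r := r) (f := g) (s := f.support ∪ g.support) Finset.subset_union_right,
    ← Finset.sum_add_distrib]
  refine Finset.sum_le_sum fun k _ => ?_
  rw [coeff_add, ← add_mul]
  exact mul_le_mul_of_nonneg_right (abs_add_le _ _) (pow_nonneg hr _)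

theorem wn_sub_le (hr : 0 ≤ r) (f g : ℝ[X]) : wn r (f - g) ≤ wn r f + wn r g := by
  rw [sub_eq_add_neg]
  exact (wn_add_le hr f (-g)).trans_eq (by rw [wn_neg])

theorem wn_sum_le (hr : 0 ≤ r) {ι : Type} (s : Finset ι) (f : ι → ℝ[X]) :
    wn r (∑ i ∈ s, f i) ≤ ∑ i ∈ s, wn r (f i) := by
  classical
  induction s using Finset.induction_on with
  | empty => simp [wn_zero]
  | insert a s ha ih =>
    rw [Finset.sum_insert ha, Finset.sum_insert ha]
    exact (wn_add_le hr _ _).trans (by linarith)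

theorem wn_monomial (k : ℕ) (a : ℝ) : wn r (monomial k a) = |a| * r ^ k := by
  classical
  rw [wn_eq (r := r) (f := monomial k a) (s := {k}) (support_monomial_subset k a)]
  simp

theorem wn_one : wn r 1 = 1 := by
  have h : (1 : ℝ[X]) = monomial 0 1 := by simp
  rw [h, wn_monomial]
  simp

private theorem E1a_wn_monomial_mul_le (hr : 0 ≤ r) (k : ℕ) (a : ℝ) (g : ℝ[X]) :
    wn r (monomial k a * g) ≤ |a| * r ^ k * wn r g := by
  classical
  have hg : monomial k a * g = ∑ j ∈ g.support, monomial (k + j) (a * g.coeff j) := by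
    conv_lhs => rw [g.as_sum_support, Finset.mul_sum]
    exact Finset.sum_congr rfl fun j _ => monomial_mul_monomial k j a (g.coeff j)
  rw [hg]
  refine (wn_sum_le hr _ _).trans ?_
  unfold wn
  rw [Finset.mul_sum]
  refine le_of_eq (Finset.sum_congr rfl fun j _ => ?_)
  change wn r (monomial (k + j) (a * g.coeff j)) = _
  rw [wn_monomial, abs_mul, pow_add]
  ring

theorem wn_mul_le (hr : 0 ≤ r) (f g : ℝ[X]) : wn r (f * g) ≤ wn r f * wn r g := by
  classical
  have hf : f * g = ∑ j ∈ f.support, monomial j (f.coeff j) * g := by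
    conv_lhs => rw [f.as_sum_support, Finset.sum_mul]
  rw [hf]
  refine (wn_sum_le hr _ _).trans ?_
  have : wn r f * wn r g = ∑ k ∈ f.support, |f.coeff k| * r ^ k * wn r g := by
    rw [← Finset.sum_mul]; rfl
  rw [this]
  exact Finset.sum_le_sum fun j _ => E1a_wn_monomial_mul_le hr j (f.coeff j) g

theorem wn_prod_le (hr : 0 ≤ r) {ι : Type} (s : Finset ι) (f : ι → ℝ[X]) :
    wn r (∏ i ∈ s, f i) ≤ ∏ i ∈ s, wn r (f i) := by
  classical
  induction s using Finset.induction_on with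
  | empty => simp [wn_one]
  | insert a s ha ih =>
    rw [Finset.prod_insert ha, Finset.prod_insert ha]
    exact (wn_mul_le hr _ _).trans (mul_le_mul_of_nonneg_left ih (wn_nonneg hr _))

theorem coeff_le_wn (hr : 0 ≤ r) (f : ℝ[X]) (k : ℕ) : |f.coeff k| * r ^ k ≤ wn r f := by
  classical
  rw [wn_eq (r := r) (f := f) (s := insert k f.support) (Finset.subset_insert _ _)]
  exact Finset.single_le_sum (f := fun k => |f.coeff k| * r ^ k)
    (fun j _ => mul_nonneg (abs_nonneg _) (pow_nonneg hr _)) (Finset.mem_insert_self _ _)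

theorem scl_coeff (s : ℝ) (f : ℝ[X]) (k : ℕ) : (scl s f).coeff k = f.coeff k * s ^ k := by
  simp only [scl, coe_compRingHom_apply]
  exact comp_C_mul_X_coeff

theorem wn_scl_le (hr : 0 ≤ r) {s : ℝ} (h0 : 0 ≤ s) (h1 : s ≤ 1) (f : ℝ[X]) :
    wn r (scl s f) ≤ wn r f := by
  have hs : (scl s f).support ⊆ f.support := by
    intro k hk
    rw [mem_support_iff, scl_coeff] at hk
    rw [mem_support_iff]
    exact fun h => hk (by rw [h, zero_mul])
  rw [wn_eq (r := r) hs]
  unfold wn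
  refine Finset.sum_le_sum fun k _ => ?_
  refine mul_le_mul_of_nonneg_right ?_ (pow_nonneg hr _)
  rw [scl_coeff, abs_mul, abs_of_nonneg (pow_nonneg h0 k)]
  exact mul_le_of_le_one_right (abs_nonneg _) (pow_le_one₀ h0 h1)

private theorem E1a_pow_sub_pow_le {s s' : ℝ} (h0 : 0 ≤ s) (h1 : s ≤ 1) (h0' : 0 ≤ s')
    (h1' : s' ≤ 1) (k : ℕ) : |s ^ k - s' ^ k| ≤ k * |s - s'| := by
  induction k with
  | zero => simp
  | succ k ih =>
    have e : s ^ (k + 1) - s' ^ (k + 1) = s * (s ^ k - s' ^ k) + (s - s') * s' ^ k := by ring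
    rw [e]
    refine (abs_add_le _ _).trans ?_
    rw [abs_mul, abs_mul, abs_of_nonneg h0, abs_of_nonneg (pow_nonneg h0' k)]
    have h2 : s * |s ^ k - s' ^ k| ≤ 1 * (k * |s - s'|) :=
      mul_le_mul h1 ih (abs_nonneg _) zero_le_one
    have h3 : |s - s'| * s' ^ k ≤ |s - s'| * 1 :=
      mul_le_mul_of_nonneg_left (pow_le_one₀ h0' h1') (abs_nonneg _)
    push_cast
    linarith

/-- Lipschitz in the scaling parameter -/
theorem wn_scl_sub_le (hr : 0 ≤ r) (f : ℝ[X]) : ∃ L : ℝ, 0 ≤ L ∧ ∀ s s' : ℝ, 0 ≤ s → s ≤ 1 →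
    0 ≤ s' → s' ≤ 1 → wn r (scl s f - scl s' f) ≤ L * |s - s'| := by
  refine ⟨∑ k ∈ f.support, |f.coeff k| * k * r ^ k, Finset.sum_nonneg fun k _ =>
    mul_nonneg (mul_nonneg (abs_nonneg _) (Nat.cast_nonneg _)) (pow_nonneg hr _), ?_⟩
  intro s s' h0 h1 h0' h1'
  have hs : (scl s f - scl s' f).support ⊆ f.support := by
    intro k hk
    rw [mem_support_iff, coeff_sub, scl_coeff, scl_coeff] at hk
    rw [mem_support_iff]
    exact fun h => hk (by rw [h]; ring)
  rw [wn_eq (r := r) hs, Finset.sum_mul]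
  refine Finset.sum_le_sum fun k _ => ?_
  rw [coeff_sub, scl_coeff, scl_coeff, ← mul_sub, abs_mul]
  have h := mul_le_mul_of_nonneg_left (E1a_pow_sub_pow_le h0 h1 h0' h1' k)
    (mul_nonneg (abs_nonneg (f.coeff k)) (pow_nonneg hr k))
  calc |f.coeff k| * |s ^ k - s' ^ k| * r ^ k
      = |f.coeff k| * r ^ k * |s ^ k - s' ^ k| := by ring
    _ ≤ |f.coeff k| * r ^ k * (k * |s - s'|) := h
    _ = |f.coeff k| * k * r ^ k * |s - s'| := by ring

end poly

end Pool.Agent.SSE
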