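import Pool.Agent.SSE.B6
import Pool.Agent.SSE.BR3
import Pool.Agent.SSE.E1a

/-!
# SSE bridge, BR5: the final row of the hub (one presentation, polynomials)

`finM P x s mm rr fx fw` on `I ⊕ Unit`: row `x` = `fx + fw e_w`, rows `v` = rows of `P`,
row `w` = `mm rr + s e_w`. The isolated presentation is `finM P x s (X^K) rr rr (X^(k-K) + n')`
(`s = X^k + X^K n'`, `P x = s e_x + rr`).

`idl` is the ideal new row (power series): positive expansion `GV`, `n'/(1-s)` of the isolated
presentation and the un-push `∑_(i<m) τ M^i` of the covers `τ = vt x a`.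

Paper proof of `final_row`: coefficients of the row move: `c w = tr D (n' / (1-s))`,
`c l = tr D (GV l) - W l`, `W l = ∑_(i<m) (τ M^i) l` (polynomial), `c x = 0`. All constant terms
vanish (`n'(0) = 0`, `u > 0`, `a > 0`). With the full series instead of the truncations the new row
is `idl` (columns of `I`) and `X^(k-K)` (column `w`) (`geo_mul`, `gk_eq`, `NV`). In degrees `< D`
the truncation does not matter. In degrees `≥ D`, `D` large: the polynomial part `W (1 - P)` has no
coefficients and the rest is `(tr D G) · P ≥ 0` plus the coefficients of `rr`, `X^(k-K) + n'`.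
-/

set_option autoImplicit false

open scoped BigOperators
open Matrix Polynomial

namespace Pool.Agent.SSE

attribute [local instance] Classical.propDecidable

variable {I : Type} [Fintype I]

/-- partial sums of the weighted norm of a power series -/
noncomputable def sN (r : ℝ) (D : ℕ) (G : PowerSeries ℤ) : ℝ :=
  ∑ d ∈ Finset.range D, |((PowerSeries.coeff d G : ℤ) : ℝ)| * r ^ d

/-- the presentation on `I ⊕ Unit` -/
noncomputable def finM (P : Matrix I I ℕ[X]) (x : I) (s mm : ℕ[X]) (rr fx : I → ℕ[X])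
    (fw : ℕ[X]) : Matrix (I ⊕ Unit) (I ⊕ Unit) ℕ[X] :=
  fromBlocks (setRow P x fx) (of fun l _ => if l = x then fw else 0)
    (of fun _ j => mm * rr j) (of fun _ _ => s)

/-- the polynomial coefficients of the un-push -/
noncomputable def Wm (P : Matrix I I ℕ[X]) (x : I) (a : I → ℕ) (m : ℕ) (l : I) : ℕ[X] :=
  ∑ i ∈ Finset.range m, (vt x a ᵥ* (vM P x) ^ i) l

/-- the ideal new row `x`, columns in `I` -/
noncomputable def idl (P : Matrix I I ℕ[X]) (x : I) (g : PowerSeries ℤ) (u n m : ℕ) (a : I → ℕ)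
    (rr : I → ℕ[X]) (j : I) : PowerSeries ℤ :=
  if j = x then g * ps (toZ (rr x)) + ∑ l, GV P x g u n l * ps (toZ (P l x)) -
      ps (toZ (∑ l, Wm P x a m l * P l x))
  else NV P x g u n j + ps (toZ (vt x a j)) - ps (toZ ((vt x a ᵥ* (vM P x) ^ m) j))

/-! ### helper lemmas -/

private theorem BR5_toZ_add (p q : ℕ[X]) : toZ (p + q) = toZ p + toZ q := Polynomial.map_add _
private theorem BR5_toZ_mul (p q : ℕ[X]) : toZ (p * q) = toZ p * toZ q := Polynomial.map_mul _
private theorem BR5_toZ_sum {α : Type} (t : Finset α) (f : α → ℕ[X]) :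
    toZ (∑ i ∈ t, f i) = ∑ i ∈ t, toZ (f i) := Polynomial.map_sum _ _ _

private theorem BR5_vM_col (P : Matrix I I ℕ[X]) (x : I) (l : I) : vM P x l x = 0 := by
  simp [vM]

private theorem BR5_pow_x (P : Matrix I I ℕ[X]) (x : I) (t : I → ℕ[X]) (ht : t x = 0) (i : ℕ) :
    (t ᵥ* (vM P x) ^ i) x = 0 := by
  cases i with
  | zero => simpa using ht
  | succ i =>
    rw [pow_succ, ← Matrix.vecMul_vecMul, Matrix.vecMul_eq_sum, Finset.sum_apply]
    refine Finset.sum_eq_zero fun l _ => ?_
    rw [Pi.smul_apply, BR5_vM_col, smul_zero]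

private theorem BR5_GV_x (P : Matrix I I ℕ[X]) (x : I) (g : PowerSeries ℤ) (u n : ℕ) :
    GV P x g u n x = 0 := by
  unfold GV
  refine Finset.sum_eq_zero fun i _ => ?_
  rw [BR5_pow_x P x (vy P x) (by simp [vy])]
  simp

private theorem BR5_Wm_x (P : Matrix I I ℕ[X]) (x : I) (a : I → ℕ) (m : ℕ) :
    Wm P x a m x = 0 := by
  unfold Wm
  refine Finset.sum_eq_zero fun i _ => ?_
  rw [BR5_pow_x P x (vt x a) (by simp [vt])]

/-- telescoping -/
private theorem BR5_tele (P : Matrix I I ℕ[X]) (x : I) (a : I → ℕ) (m : ℕ) (j : I) :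
    Wm P x a m j + (vt x a ᵥ* (vM P x) ^ m) j =
      vt x a j + ∑ l, Wm P x a m l * vM P x l j := by
  induction m with
  | zero => simp [Wm]
  | succ m ih =>
    have h1 : ∀ l, Wm P x a (m + 1) l = Wm P x a m l + (vt x a ᵥ* (vM P x) ^ m) l := by
      intro l
      unfold Wm
      rw [Finset.sum_range_succ]
    have h2 : (vt x a ᵥ* (vM P x) ^ (m + 1)) j =
        ∑ l, (vt x a ᵥ* (vM P x) ^ m) l * vM P x l j := by
      rw [pow_succ, ← Matrix.vecMul_vecMul, Matrix.vecMul_eq_sum, Finset.sum_apply]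
      refine Finset.sum_congr rfl fun l _ => ?_
      rw [Pi.smul_apply, smul_eq_mul]
    simp only [h1, h2, add_mul, Finset.sum_add_distrib]
    rw [ih]
    ring

private theorem BR5_exists_nat (f : ℤ[X]) (h : ∀ n, 0 ≤ f.coeff n) : ∃ p : ℕ[X], toZ p = f := by
  refine ⟨∑ n ∈ f.support, monomial n (f.coeff n).toNat, ?_⟩
  ext n
  rw [coeff_toZ, finsetSum_coeff]
  simp only [coeff_monomial]
  rw [Finset.sum_ite_eq' f.support n]
  split_ifs with hn
  · exact Int.toNat_of_nonneg (h n)
  · rw [notMem_support_iff.1 hn]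
    rfl

/-- `X^D` divides the difference between a series and its truncation -/
private theorem BR5_sub_tr (D : ℕ) (G : PowerSeries ℤ) :
    (PowerSeries.X : PowerSeries ℤ) ^ D ∣ G - ps (tr D G) := by
  rw [PowerSeries.X_pow_dvd_iff]
  intro d hd
  rw [map_sub, coeff_ps, coeff_tr, if_pos hd, sub_self]

private theorem BR5_coeff_nn {p : ℤ[X]} (hp : ∀ n, 0 ≤ p.coeff n) (q : ℕ[X]) (n : ℕ) :
    0 ≤ (p * toZ q).coeff n := by
  rw [Polynomial.coeff_mul]
  refine Finset.sum_nonneg fun a _ => ?_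
  rw [coeff_toZ]
  exact mul_nonneg (hp _) (by positivity)

private theorem BR5_tr_nn {G : PowerSeries ℤ} (hG : ∀ n, 0 ≤ PowerSeries.coeff n G) (D n : ℕ) :
    0 ≤ (tr D G).coeff n := by
  rw [coeff_tr]
  split_ifs
  · exact hG n
  · exact le_rfl

private theorem BR5_GV_nn (P : Matrix I I ℕ[X]) (x : I) {g : PowerSeries ℤ}
    (hg : ∀ d, 0 ≤ PowerSeries.coeff d g) (u n : ℕ) (l : I) (d : ℕ) :
    0 ≤ PowerSeries.coeff d (GV P x g u n l) := by
  unfold GV
  rw [map_sum]
  refine Finset.sum_nonneg fun i _ => ?_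
  rw [PowerSeries.coeff_X_pow_mul']
  split_ifs
  · exact coeff_mul_nonneg hg _ _
  · exact le_rfl

private theorem BR5_GV_zero (P : Matrix I I ℕ[X]) (x : I) (g : PowerSeries ℤ) {u : ℕ} (hu : 0 < u)
    (n : ℕ) (l : I) : PowerSeries.coeff 0 (GV P x g u n l) = 0 := by
  unfold GV
  rw [map_sum]
  refine Finset.sum_eq_zero fun i _ => ?_
  rw [PowerSeries.coeff_X_pow_mul', if_neg]
  have : 0 < (i + 1) * u := Nat.mul_pos (Nat.succ_pos i) hu
  omega

private theorem BR5_Wm_zero {P : Matrix I I ℕ[X]} (x : I) {a : I → ℕ} (ha : ∀ j, 0 < a j) (m : ℕ)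
    (l : I) : (Wm P x a m l).coeff 0 = 0 := by
  unfold Wm
  rw [finsetSum_coeff]
  refine Finset.sum_eq_zero fun i _ => ?_
  rw [Matrix.vecMul_eq_sum, Finset.sum_apply, finsetSum_coeff]
  refine Finset.sum_eq_zero fun j _ => ?_
  rw [Pi.smul_apply, smul_eq_mul, mul_coeff_zero]
  have : (vt x a j).coeff 0 = 0 := by
    unfold vt
    split_ifs
    · simp
    · rw [coeff_X_pow, if_neg]
      exact (ha j).ne
  rw [this, zero_mul]

private theorem BR5_wn_tr {r : ℝ} (D : ℕ) (G : PowerSeries ℤ) :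
    wn r (toR (tr D G)) = sN r D G := by
  have h1 : ∀ k, (toR (tr D G)).coeff k = (((tr D G).coeff k : ℤ) : ℝ) := fun k => by simp [toR]
  have h2 : (toR (tr D G)).support ⊆ Finset.range D := by
    intro k hk
    rw [mem_support_iff, h1, coeff_tr] at hk
    rw [Finset.mem_range]
    by_contra h
    rw [if_neg h] at hk
    exact hk (by simp)
  rw [wn_eq h2]
  unfold sN
  refine Finset.sum_congr rfl fun d hd => ?_
  rw [h1, coeff_tr, if_pos (Finset.mem_range.1 hd)]

theorem final_row {P : Matrix I I ℕ[X]} (hP : IsPres P) {x : I} {s n' : ℕ[X]} {k K : ℕ}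
    (hK : 0 < K) (hkK : K < k) (hs : s = X ^ k + X ^ K * n') (hn0 : n'.coeff 0 = 0)
    (rr : I → ℕ[X]) (hrr : ∀ j, P x j = rr j + if j = x then s else 0) {u : ℕ} (hu : 0 < u)
    (hg : ∀ d, 0 ≤ PowerSeries.coeff d (gk s k)) (a : I → ℕ) (ha : ∀ j, 0 < a j) (m n : ℕ)
    (hi : ∀ j d, 0 ≤ PowerSeries.coeff d (idl P x (gk s k) u n m a rr j)) :
    ∃ D0 : ℕ, ∀ D, D0 ≤ D → ∃ (fx : I → ℕ[X]) (fw : ℕ[X]) (c : I ⊕ Unit → ℤ[X]),
      c (Sum.inl x) = 0 ∧ (∀ l, X ∣ c l) ∧
      (∀ j, IP (finM P x s (X ^ K) rr fx fw) (Sum.inl x) j =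
        IP (finM P x s (X ^ K) rr rr (X ^ (k - K) + n')) (Sum.inl x) j +
          ∑ l, c l * IP (finM P x s (X ^ K) rr rr (X ^ (k - K) + n')) l j) ∧
      (∀ j d, d < D → ((fx j).coeff d : ℤ) = PowerSeries.coeff d (idl P x (gk s k) u n m a rr j)) ∧
      (∀ d, d < D → fw.coeff d = (X ^ (k - K) : ℕ[X]).coeff d) ∧
      (∀ r : ℝ, 0 < r → wn r (toR (c (Sum.inr ()))) ≤ sN r D (ps (toZ n') * geo s)) ∧
      (∀ r : ℝ, 0 < r → ∀ l, wn r (toR (c (Sum.inl l))) ≤
        sN r D (GV P x (gk s k) u n l) + wn r (toR (toZ (Wm P x a m l)))) := by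
  have hs0 : s.coeff 0 = 0 := by
    rw [hs, coeff_add, coeff_X_pow, if_neg (by omega), coeff_X_pow_mul', if_neg (by omega), add_zero]
  -- the polynomial part of the un-push
  set Wp : I → ℤ[X] := fun j => ∑ l, toZ (Wm P x a m l) *
    ((if l = j then (1 : ℤ[X]) else 0) - toZ (P l j)) with hWp
  refine ⟨(Finset.univ.sup fun j => (Wp j).natDegree) + 1, fun D hD => ?_⟩
  have hWD : ∀ j d, D ≤ d → (Wp j).coeff d = 0 := by
    intro j d hd
    refine Polynomial.coeff_eq_zero_of_natDegree_lt ?_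
    have : (Wp j).natDegree ≤ Finset.univ.sup fun j => (Wp j).natDegree :=
      Finset.le_sup (f := fun j => (Wp j).natDegree) (Finset.mem_univ j)
    omega
  set g := gk s k with hgdef
  set Gw : PowerSeries ℤ := ps (toZ n') * geo s with hGw
  set G : I → PowerSeries ℤ := fun l => GV P x g u n l with hG
  have hGwn : ∀ d, 0 ≤ PowerSeries.coeff d Gw := fun d => by
    rw [hGw, mul_comm]
    exact coeff_mul_nonneg (geo_nonneg hs0) _ _
  have hGn : ∀ l d, 0 ≤ PowerSeries.coeff d (G l) := fun l d => BR5_GV_nn P x hg u n l d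
  -- the new row
  set F : I → ℤ[X] := fun j => toZ (rr j) + tr D Gw * (X ^ K * toZ (rr j)) -
    ∑ l, tr D (G l) * ((if l = j then (1 : ℤ[X]) else 0) - toZ (P l j)) + Wp j with hF
  set Fw : ℤ[X] := toZ (X ^ (k - K) + n') - tr D Gw * (1 - toZ s) with hFw
  -- the full series
  have hFs : ∀ j, ps (toZ (rr j)) + Gw * (PowerSeries.X ^ K * ps (toZ (rr j))) -
      ∑ l, G l * ((if l = j then 1 else 0) - ps (toZ (P l j))) + ps (Wp j) =
      idl P x g u n m a rr j := by
    intro j
    have e1 : g = 1 + PowerSeries.X ^ K * Gw := by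
      rw [hgdef, gk_eq hs0 hs, hGw, BR5_toZ_mul, ps_mul]
      have : ps (toZ (X ^ K : ℕ[X])) = (PowerSeries.X : PowerSeries ℤ) ^ K := by
        simp [ps, toZ]
      rw [this]
      ring
    have e2 : ∑ l, G l * ((if l = j then (1 : PowerSeries ℤ) else 0) - ps (toZ (P l j))) =
        G j - ∑ l, G l * ps (toZ (P l j)) := by
      simp only [mul_sub, Finset.sum_sub_distrib]
      congr 1
      rw [Finset.sum_eq_single j]
      · rw [if_pos rfl, mul_one]
      · intro l _ hl
        rw [if_neg hl, mul_zero]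
      · intro h
        exact absurd (Finset.mem_univ _) h
    have e3 : Wp j = toZ (Wm P x a m j) - toZ (∑ l, Wm P x a m l * P l j) := by
      rw [hWp]
      simp only [mul_sub, Finset.sum_sub_distrib, BR5_toZ_sum, BR5_toZ_mul]
      congr 1
      rw [Finset.sum_eq_single j]
      · rw [if_pos rfl, mul_one]
      · intro l _ hl
        rw [if_neg hl, mul_zero]
      · intro h
        exact absurd (Finset.mem_univ _) h
    rw [e2, e3, ps_sub]
    unfold idl
    by_cases hj : j = x
    · rw [if_pos hj, hj, BR5_Wm_x, hG]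
      simp only [BR5_GV_x]
      have : ps (toZ (0 : ℕ[X])) = 0 := by simp [ps, toZ]
      rw [this]
      have e4 : g * ps (toZ (rr x)) = ps (toZ (rr x)) + Gw * (PowerSeries.X ^ K * ps (toZ (rr x))) := by
        conv_lhs => rw [e1]
        ring
      rw [e4]
      ring
    · rw [if_neg hj]
      have e4 : g * ps (toZ (rr j)) = ps (toZ (rr j)) + Gw * (PowerSeries.X ^ K * ps (toZ (rr j))) := by
        conv_lhs => rw [e1]
        ring
      have e5 : vy P x j = rr j := by
        have := hrr j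
        rw [if_neg hj, add_zero] at this
        rw [← this]
        simp [vy, hj]
      have e6 : ∀ l, l ≠ x → vM P x l j = P l j := by
        intro l hl
        simp [vM, hl, hj]
      have e7 : ∑ l, G l * ps (toZ (P l j)) = ∑ l, G l * ps (toZ (vM P x l j)) := by
        refine Finset.sum_congr rfl fun l _ => ?_
        by_cases hl : l = x
        · rw [hl, hG]
          simp only [BR5_GV_x, zero_mul]
        · rw [e6 l hl]
      have e8 : ∑ l, Wm P x a m l * P l j = ∑ l, Wm P x a m l * vM P x l j := by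
        refine Finset.sum_congr rfl fun l _ => ?_
        by_cases hl : l = x
        · rw [hl, BR5_Wm_x, zero_mul, zero_mul]
        · rw [e6 l hl]
      have e9 := congrArg (fun p => ps (toZ p)) (BR5_tele P x a m j)
      simp only [BR5_toZ_add, ps_add] at e9
      unfold NV
      rw [e5, e4, e7, e8]
      simp only [hG] at *
      linear_combination e9
  -- degrees below `D`
  have hXK : ps (X ^ K : ℤ[X]) = (PowerSeries.X : PowerSeries ℤ) ^ K := by simp [ps]
  have hlow : ∀ j d, d < D → (F j).coeff d = PowerSeries.coeff d (idl P x g u n m a rr j) := by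
    intro j d hd
    have h1 : (PowerSeries.X : PowerSeries ℤ) ^ D ∣ idl P x g u n m a rr j - ps (F j) := by
      rw [← hFs j]
      have h2 : ps (F j) = ps (toZ (rr j)) + ps (tr D Gw) * (PowerSeries.X ^ K * ps (toZ (rr j))) -
          ∑ l, ps (tr D (G l)) * ((if l = j then 1 else 0) - ps (toZ (P l j))) + ps (Wp j) := by
        have h3 : ∀ l, ps ((if l = j then (1 : ℤ[X]) else 0) - toZ (P l j)) =
            (if l = j then (1 : PowerSeries ℤ) else 0) - ps (toZ (P l j)) := by
          intro l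
          rw [ps_sub]
          split_ifs <;> simp [ps]
        rw [hF]
        simp only [ps_add, ps_sub, ps_mul, ps_sum, h3, hXK]
      rw [h2]
      have h4 : ps (toZ (rr j)) + Gw * (PowerSeries.X ^ K * ps (toZ (rr j))) -
          ∑ l, G l * ((if l = j then 1 else 0) - ps (toZ (P l j))) + ps (Wp j) -
          (ps (toZ (rr j)) + ps (tr D Gw) * (PowerSeries.X ^ K * ps (toZ (rr j))) -
          ∑ l, ps (tr D (G l)) * ((if l = j then 1 else 0) - ps (toZ (P l j))) + ps (Wp j)) =
          (Gw - ps (tr D Gw)) * (PowerSeries.X ^ K * ps (toZ (rr j))) -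
          ∑ l, (G l - ps (tr D (G l))) * ((if l = j then 1 else 0) - ps (toZ (P l j))) := by
        simp only [sub_mul (G _), Finset.sum_sub_distrib]
        ring
      rw [h4]
      exact dvd_sub ((BR5_sub_tr D Gw).mul_right _)
        (Finset.dvd_sum fun l _ => (BR5_sub_tr D (G l)).mul_right _)
    have h2 := (PowerSeries.X_pow_dvd_iff.1 h1) d hd
    rw [map_sub, coeff_ps, sub_eq_zero] at h2
    exact h2.symm
  have hFws : ps (toZ (X ^ (k - K) + n')) - Gw * (1 - ps (toZ s)) = ps (toZ (X ^ (k - K))) := by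
    have h1 := geo_mul hs0
    rw [BR5_toZ_add, ps_add, hGw, mul_assoc, h1]
    ring
  have hlow' : ∀ d, d < D → Fw.coeff d = (toZ (X ^ (k - K))).coeff d := by
    intro d hd
    have h1 : (PowerSeries.X : PowerSeries ℤ) ^ D ∣ ps (toZ (X ^ (k - K))) - ps Fw := by
      rw [← hFws, hFw]
      have h3 : ps (1 : ℤ[X]) = 1 := by simp [ps]
      rw [ps_sub, ps_mul, ps_sub, h3]
      have h4 : ps (toZ (X ^ (k - K) + n')) - Gw * (1 - ps (toZ s)) -
          (ps (toZ (X ^ (k - K) + n')) - ps (tr D Gw) * (1 - ps (toZ s))) =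
          -((Gw - ps (tr D Gw)) * (1 - ps (toZ s))) := by ring
      rw [h4]
      exact (dvd_neg.2 ((BR5_sub_tr D Gw).mul_right _))
    have h2 := (PowerSeries.X_pow_dvd_iff.1 h1) d hd
    rw [map_sub, coeff_ps, coeff_ps, sub_eq_zero] at h2
    exact h2.symm
  -- degrees from `D` on
  have hhigh : ∀ j d, D ≤ d → 0 ≤ (F j).coeff d := by
    intro j d hd
    have h1 : ∑ l, tr D (G l) * ((if l = j then (1 : ℤ[X]) else 0) - toZ (P l j)) =
        tr D (G j) - ∑ l, tr D (G l) * toZ (P l j) := by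
      simp only [mul_sub, Finset.sum_sub_distrib]
      congr 1
      rw [Finset.sum_eq_single j]
      · rw [if_pos rfl, mul_one]
      · intro l _ hl
        rw [if_neg hl, mul_zero]
      · intro h
        exact absurd (Finset.mem_univ _) h
    have h2 : (tr D (G j)).coeff d = 0 := by
      rw [coeff_tr, if_neg (by omega)]
    have h3 : 0 ≤ (∑ l, tr D (G l) * toZ (P l j)).coeff d := by
      rw [finsetSum_coeff]
      exact Finset.sum_nonneg fun l _ => BR5_coeff_nn (BR5_tr_nn (hGn l) D) _ _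
    have h4 : 0 ≤ (tr D Gw * (X ^ K * toZ (rr j))).coeff d := by
      have : tr D Gw * (X ^ K * toZ (rr j)) = tr D Gw * toZ (X ^ K * rr j) := by
        rw [BR5_toZ_mul]
        simp [toZ]
      rw [this]
      exact BR5_coeff_nn (BR5_tr_nn hGwn D) _ _
    have h5 : 0 ≤ (toZ (rr j)).coeff d := by
      rw [coeff_toZ]
      positivity
    rw [hF]
    simp only
    rw [h1, coeff_add, coeff_sub, coeff_add, coeff_sub, hWD j d hd, h2]
    linarith
  have hhigh' : ∀ d, D ≤ d → 0 ≤ Fw.coeff d := by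
    intro d hd
    have h2 : (tr D Gw).coeff d = 0 := by
      rw [coeff_tr, if_neg (by omega)]
    have h3 : 0 ≤ (tr D Gw * toZ s).coeff d := BR5_coeff_nn (BR5_tr_nn hGwn D) _ _
    have h5 : 0 ≤ (toZ (X ^ (k - K) + n')).coeff d := by
      rw [coeff_toZ]
      positivity
    rw [hFw, mul_sub, mul_one, coeff_sub, coeff_sub, h2]
    linarith
  -- the polynomials
  have hFx : ∀ j, ∃ p : ℕ[X], toZ p = F j := fun j => BR5_exists_nat _ fun d => by
    by_cases hd : d < D
    · rw [hlow j d hd]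
      exact hi j d
    · exact hhigh j d (by omega)
  choose fx hfx using hFx
  obtain ⟨fw, hfw⟩ : ∃ p : ℕ[X], toZ p = Fw := BR5_exists_nat _ fun d => by
    by_cases hd : d < D
    · rw [hlow' d hd, coeff_toZ]
      positivity
    · exact hhigh' d (by omega)
  have hcx : tr D (G x) - toZ (Wm P x a m x) = 0 := by
    have h1 : tr D (G x) = 0 := by
      ext d
      rw [coeff_tr, hG]
      simp only [BR5_GV_x]
      split_ifs <;> simp
    rw [h1, BR5_Wm_x]
    simp [toZ]
  refine ⟨fx, fw, Sum.elim (fun l => tr D (G l) - toZ (Wm P x a m l)) (fun _ => tr D Gw),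
    hcx, ?_, ?_, ?_, ?_, ?_, ?_⟩
  · rintro (l | l)
    · rw [Sum.elim_inl, X_dvd_iff, coeff_sub, coeff_tr, coeff_toZ, BR5_Wm_zero x ha, hG]
      simp only [BR5_GV_zero P x g hu]
      simp
    · rw [Sum.elim_inr, X_dvd_iff, coeff_tr]
      have : PowerSeries.coeff 0 Gw = 0 := by
        have h7 : PowerSeries.coeff 0 (ps (toZ n')) = 0 := by
          rw [coeff_ps, coeff_toZ, hn0]
          rfl
        rw [PowerSeries.coeff_zero_eq_constantCoeff_apply] at h7
        rw [hGw, PowerSeries.coeff_zero_eq_constantCoeff_apply, map_mul, h7, zero_mul]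
      rw [this]
      simp
  · rintro (j | j)
    · rw [Fintype.sum_sum_type]
      simp only [Sum.elim_inl, Sum.elim_inr, IP_apply, finM, fromBlocks_apply₁₁,
        fromBlocks_apply₂₁, of_apply, setRow, if_true, Finset.univ_unique, Finset.sum_singleton,
        reduceCtorEq, if_false, zero_sub, Sum.inl.injEq]
      rw [hfx j, hF]
      simp only
      have h1 : ∑ l, (tr D (G l) - toZ (Wm P x a m l)) *
          ((if l = j then (1 : ℤ[X]) else 0) - toZ (if l = x then rr j else P l j)) =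
          ∑ l, (tr D (G l) - toZ (Wm P x a m l)) *
          ((if l = j then (1 : ℤ[X]) else 0) - toZ (P l j)) := by
        refine Finset.sum_congr rfl fun l _ => ?_
        by_cases hl : l = x
        · rw [hl, hcx, zero_mul, zero_mul]
        · rw [if_neg hl]
      have h2 : toZ (X ^ K * rr j) = X ^ K * toZ (rr j) := by
        rw [BR5_toZ_mul]
        simp [toZ]
      rw [h1, h2]
      simp only [sub_mul (tr D (G _)), Finset.sum_sub_distrib]
      rw [hWp]
      simp only
      ring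
    · rw [Fintype.sum_sum_type]
      simp only [Sum.elim_inl, Sum.elim_inr, IP_apply, finM, fromBlocks_apply₁₂,
        fromBlocks_apply₂₂, of_apply, if_true, Finset.univ_unique, Finset.sum_singleton,
        reduceCtorEq, if_false, zero_sub]
      rw [hfw, hFw]
      have h1 : ∑ l, (tr D (G l) - toZ (Wm P x a m l)) *
          (-toZ (if l = x then X ^ (k - K) + n' else 0)) = 0 := by
        refine Finset.sum_eq_zero fun l _ => ?_
        by_cases hl : l = x
        · rw [hl, hcx, zero_mul]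
        · rw [if_neg hl]
          simp [toZ]
      rw [h1]
      simp
      ring
  · intro j d hd
    rw [← coeff_toZ, hfx j]
    exact hlow j d hd
  · intro d hd
    have h1 := hlow' d hd
    rw [← hfw, coeff_toZ, coeff_toZ] at h1
    exact_mod_cast h1
  · intro r _
    rw [Sum.elim_inr, BR5_wn_tr]
  · intro r hr l
    rw [Sum.elim_inl, map_sub]
    refine (wn_sub_le hr.le _ _).trans ?_
    rw [BR5_wn_tr]

/-- the ideal row is nonnegative: consequence of `exists_m` and `xpart` -/
theorem idl_nonneg {P : Matrix I I ℕ[X]} {x : I} {g : PowerSeries ℤ} {ρ κ : ℝ} {N u : ℕ}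
    (R : Res g ρ κ N u) (a : I → ℕ) (m n : ℕ) (rr : I → ℕ[X])
    (hm : ∀ j d, (((vt x a ᵥ* (vM P x) ^ m) j).coeff d : ℤ) ≤
      PowerSeries.coeff d (NV P x g u n j))
    (hx : ∀ d, 2 * (((∑ l, Wm P x a m l * P l x).coeff d : ℕ) : ℤ) ≤
      PowerSeries.coeff d (g * ps (toZ (rr x)))) (j : I) (d : ℕ) :
    0 ≤ PowerSeries.coeff d (idl P x g u n m a rr j) := by
  unfold idl
  split_ifs with hj
  · rw [map_sub, map_add, coeff_ps, coeff_toZ, map_sum]
    have h1 : 0 ≤ ∑ l, PowerSeries.coeff d (GV P x g u n l * ps (toZ (P l x))) :=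
      Finset.sum_nonneg fun l _ => coeff_mul_nonneg (fun e => GV_nonneg R n l e) _ _
    have h2 := hx d
    have h3 : (0 : ℤ) ≤ (((∑ l, Wm P x a m l * P l x).coeff d : ℕ) : ℤ) := by positivity
    linarith
  · rw [map_sub, map_add, coeff_ps, coeff_ps, coeff_toZ, coeff_toZ]
    have h1 := hm j d
    have h2 : (0 : ℤ) ≤ ((vt x a j).coeff d : ℤ) := by positivity
    linarith

/-- reserved loops: `q ≤ rr x`, `deg q < a0`, then `q ≤ idl x` -/
theorem idl_reserve {P : Matrix I I ℕ[X]} {x : I} {g : PowerSeries ℤ} {ρ κ : ℝ} {N u : ℕ}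
    (R : Res g ρ κ N u) (a : I → ℕ) (a0 : ℕ) (ha : ∀ j, a0 ≤ a j) (m n : ℕ) (rr : I → ℕ[X])
    (hx : ∀ d, 2 * (((∑ l, Wm P x a m l * P l x).coeff d : ℕ) : ℤ) ≤
      PowerSeries.coeff d (g * ps (toZ (rr x)))) (q : ℕ[X])
    (hq : ∀ d, q.coeff d ≤ (rr x).coeff d) (hqa : q.natDegree < a0) (d : ℕ) :
    (q.coeff d : ℤ) ≤ PowerSeries.coeff d (idl P x g u n m a rr x) := by
  unfold idl
  rw [if_pos rfl, map_sub, map_add, coeff_ps, coeff_toZ, map_sum]
  have h1 : 0 ≤ ∑ l, PowerSeries.coeff d (GV P x g u n l * ps (toZ (P l x))) :=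
    Finset.sum_nonneg fun l _ => coeff_mul_nonneg (fun e => GV_nonneg R n l e) _ _
  by_cases hd : d < a0
  · have h2 : (∑ l, Wm P x a m l * P l x).coeff d = 0 := xpart_low a a0 ha m d hd
    have h3 : ((rr x).coeff d : ℤ) ≤ PowerSeries.coeff d (g * ps (toZ (rr x))) := by
      rw [PowerSeries.coeff_mul]
      refine le_trans ?_ (Finset.single_le_sum (f := fun b : ℕ × ℕ =>
        PowerSeries.coeff b.1 g * PowerSeries.coeff b.2 (ps (toZ (rr x)))) (fun b _ => ?_)
        (Finset.HasAntidiagonal.mem_antidiagonal.2 (Nat.zero_add d) : (0, d) ∈ _))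
      · show _ ≤ PowerSeries.coeff 0 g * PowerSeries.coeff d (ps (toZ (rr x)))
        rw [coeff_ps, coeff_toZ, R.one, one_mul]
      · simp only [coeff_ps, coeff_toZ]
        exact mul_nonneg (R.nonneg _) (by positivity)
    have h4 : (q.coeff d : ℤ) ≤ ((rr x).coeff d : ℤ) := by exact_mod_cast hq d
    rw [h2]
    push_cast
    linarith
  · have h2 : q.coeff d = 0 := Polynomial.coeff_eq_zero_of_natDegree_lt (by omega)
    have h3 := hx d
    have h4 : (0 : ℤ) ≤ (((∑ l, Wm P x a m l * P l x).coeff d : ℕ) : ℤ) := by positivity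
    rw [h2]
    push_cast
    push_cast at h3 h4
    linarith

end Pool.Agent.SSE
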