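import Pool.Agent.SSE.Reach
import Pool.Agent.SSE.BR5

/-!
# SSE project, BR7: moves of states at the finite level

`At.row` one-row move (coefficients divisible by `t`), `At.src` sources, `At.isolate` (source + two
one-row moves): row `o` is `s e_o + rr`, `s = mm nn`: new vertex `w` of class `mm cl(o)`, row `o` =
`rr + nn e_w`, row `w` = `mm rr + s e_w`.
-/

set_option autoImplicit false

open scoped BigOperators
open Matrix Polynomial

namespace Pool.Agent.SSE

attribute [local instance] Classical.propDecidable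

variable {K : Type} [AddCommGroup K] [Module ℤ[X] K] {δ : ℤ[X]} {q : ℕ[X]} {S0 : PX K δ q}
variable {I : Type} [Fintype I] {cl : I → K} {x : I} {Mb : Matrix I I ℤ[X]} {P P' : Matrix I I ℕ[X]}

/-- a state at the finite level: the presentation `P` with the classes `cl` and the hub `x` is
reached from `S0`, and `IP P = V * Mb`, `V` in `EX` -/
def At (S0 : PX K δ q) {I : Type} [Fintype I] (cl : I → K) (x : I) (Mb : Matrix I I ℤ[X])
    (P : Matrix I I ℕ[X]) : Prop :=
  ∃ (h : PresOf δ cl P) (hq : ∀ n, q.coeff n ≤ (P x x).coeff n) (hx : ∀ j, (P x j).coeff 1 = 0),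
    PX.Rel S0 ⟨I, inferInstance, cl, P, x, h, hq, hx⟩ ∧
    ∃ V ∈ EX I, IP P = (V : Matrix I I ℤ[X]) * Mb

/-- `Reach` in terms of `At` -/
theorem reach_iff {r : ℝ} {L : Matrix I I (PowerSeries ℕ)} :
    Reach S0 cl x r L ↔ ∃ (B : ℝ) (Mb : Matrix I I ℤ[X]), ∀ T : ℕ, ∃ P : Matrix I I ℕ[X],
      At S0 cl x Mb P ∧ (∀ i j, Ag T (P i j) (L i j)) ∧ ∀ i j, nv r (P i j) ≤ B := by
  constructor
  · rintro ⟨B, Mb, h⟩
    refine ⟨B, Mb, fun T => ?_⟩
    obtain ⟨P, hP, hq, hx, h1, h2, h3, h4⟩ := h T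
    exact ⟨P, ⟨hP, hq, hx, h1, h2⟩, h3, h4⟩
  · rintro ⟨B, Mb, h⟩
    refine ⟨B, Mb, fun T => ?_⟩
    obtain ⟨P, ⟨hP, hq, hx, h1, h2⟩, h3, h4⟩ := h T
    exact ⟨P, hP, hq, hx, h1, h2, h3, h4⟩

/-- one-row move -/
theorem At.row (h : At S0 cl x Mb P) (hP' : IsPres P')
    (hq' : ∀ n, q.coeff n ≤ (P' x x).coeff n) (hx' : ∀ j, (P' x j).coeff 1 = 0) (i : I)
    (hi : ∀ l, l ≠ i → P' l = P l) (c : I → ℤ[X]) (hc : c i = 0) (hX : ∀ l, X ∣ c l)
    (hr : ∀ j, IP P' i j = IP P i j + ∑ l, c l * IP P l j) : At S0 cl x Mb P' := by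
  obtain ⟨hP, hq, hx, h1, V, hV, h2⟩ := h
  obtain ⟨h', h3⟩ := PX.add_rows hP hq hx hP' hq' hx' i hi c hc hr
  obtain ⟨V', hV', h4⟩ := exists_EX_expand i c hc hX hi hr
  refine ⟨h', hq', hx', h1.trans h3, V' * V, Subgroup.mul_mem _ hV' hV, ?_⟩
  rw [h4, h2, Matrix.SpecialLinearGroup.coe_mul, Matrix.mul_assoc]

/-- `EX` is compatible with the embedding `V ↦ V ⊕ 1` -/
theorem exists_EX_emb {κ : Type} [Fintype κ] [dκ : DecidableEq (I ⊕ κ)]
    {V : SpecialLinearGroup I ℤ[X]} (hV : V ∈ EX I) :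
    ∃ V' ∈ EX (I ⊕ κ), (V' : Matrix (I ⊕ κ) (I ⊕ κ) ℤ[X]) =
      fromBlocks (V : Matrix I I ℤ[X]) 0 0 1 := by
  unfold EX at hV
  induction hV using Subgroup.closure_induction with
  | mem g hg =>
    obtain ⟨i, j, h, c, rfl⟩ := hg
    have h' : (Sum.inl i : I ⊕ κ) ≠ Sum.inl j := fun hh => h (Sum.inl.inj hh)
    refine ⟨xx h' (X * c), xx_mem_EX h' c, ?_⟩
    refine Matrix.ext fun a b => ?_
    rw [xx_coe_apply]
    rcases a with a | a <;> rcases b with b | b
    · rw [fromBlocks_apply₁₁, xx_coe_apply]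
      simp [Matrix.one_apply]
    · simp
    · simp
    · simp [Matrix.one_apply]
  | one =>
    refine ⟨1, one_mem _, ?_⟩
    rw [Matrix.SpecialLinearGroup.coe_one, Matrix.SpecialLinearGroup.coe_one]
    refine Matrix.ext fun a b => ?_
    rcases a with a | a <;> rcases b with b | b <;> simp [Matrix.one_apply]
  | mul a b _ _ ha hb =>
    obtain ⟨a', ha1, ha2⟩ := ha
    obtain ⟨b', hb1, hb2⟩ := hb
    refine ⟨a' * b', mul_mem ha1 hb1, ?_⟩
    rw [Matrix.SpecialLinearGroup.coe_mul, Matrix.SpecialLinearGroup.coe_mul, ha2, hb2,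
      fromBlocks_multiply]
    simp
  | inv a _ ha =>
    obtain ⟨a', ha1, ha2⟩ := ha
    refine ⟨a'⁻¹, inv_mem ha1, ?_⟩
    have h1 : (a' : Matrix (I ⊕ κ) (I ⊕ κ) ℤ[X]) *
        fromBlocks ((a⁻¹ : SpecialLinearGroup I ℤ[X]) : Matrix I I ℤ[X]) 0 0 1 = 1 := by
      rw [ha2, fromBlocks_multiply]
      have h3 := K1a_coe_mul_inv a
      simp only [Matrix.mul_zero, Matrix.zero_mul, add_zero, zero_add, Matrix.mul_one]
      rw [h3]
      refine Matrix.ext fun a b => ?_
      rcases a with a | a <;> rcases b with b | b <;> simp [Matrix.one_apply]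
    have h2 : ((a'⁻¹ : SpecialLinearGroup (I ⊕ κ) ℤ[X]) : Matrix (I ⊕ κ) (I ⊕ κ) ℤ[X]) *
        (a' : Matrix (I ⊕ κ) (I ⊕ κ) ℤ[X]) = 1 := K1a_coe_inv_mul a'
    calc ((a'⁻¹ : SpecialLinearGroup (I ⊕ κ) ℤ[X]) : Matrix (I ⊕ κ) (I ⊕ κ) ℤ[X])
        = ((a'⁻¹ : SpecialLinearGroup (I ⊕ κ) ℤ[X]) : Matrix (I ⊕ κ) (I ⊕ κ) ℤ[X]) *
          ((a' : Matrix (I ⊕ κ) (I ⊕ κ) ℤ[X]) *
          fromBlocks ((a⁻¹ : SpecialLinearGroup I ℤ[X]) : Matrix I I ℤ[X]) 0 0 1) := by
          rw [h1, Matrix.mul_one]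
      _ = _ := by rw [← Matrix.mul_assoc, h2, Matrix.one_mul]

/-- sources -/
theorem At.src (h : At S0 cl x Mb P) {κ : Type} [Fintype κ] (W : Matrix κ I ℕ[X])
    (hW : ∀ k j, (W k j).coeff 0 = 0) :
    At S0 (Sum.elim cl fun k => ∑ j, toZ (W k j) • cl j) (Sum.inl x)
      (fromBlocks Mb 0 (of fun k j => - toZ (W k j)) 1) (fromBlocks P 0 W 0) := by
  obtain ⟨hP, hq, hx, h1, V, hV, h2⟩ := h
  obtain ⟨h', hq', hx', h3⟩ := PX.sources hP hq hx W hW
  obtain ⟨V', hV', h4⟩ := exists_EX_emb (κ := κ)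
    (dκ := fun a b => Classical.propDecidable (a = b)) hV
  refine ⟨h', hq', hx', h1.trans h3, V', hV', ?_⟩
  rw [h4, fromBlocks_multiply]
  refine Matrix.ext fun a b => ?_
  rcases a with a | a <;> rcases b with b | b
  · rw [IP_inl_inl, fromBlocks_apply₁₁, fromBlocks_apply₁₁, Matrix.zero_mul, add_zero, ← h2,
      IP_apply]
  · rw [IP_inl_inr]
    simp
  · rw [IP_inr_inl]
    simp
  · rw [IP_inr_inr]
    simp [Matrix.one_apply]

/-- isolation, `mm(0) = nn(0) = 0` -/
theorem At.isolate (h : At S0 cl x Mb P) (o : I) {mm nn : ℕ[X]} (hm : mm.coeff 0 = 0)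
    (hn : nn.coeff 0 = 0) (rr : I → ℕ[X]) (hrr : ∀ j, P o j = rr j + if j = o then mm * nn else 0)
    (hq : o = x → ∀ n, q.coeff n ≤ (rr x).coeff n) (hn1 : o = x → nn.coeff 1 = 0) :
    At S0 (Sum.elim cl fun _ => toZ mm • cl o) (Sum.inl x)
      (fromBlocks Mb 0 (of fun _ j => if j = o then - toZ mm else 0) 1)
      (finM P o (mm * nn) mm rr rr nn) := by
  have hIs : IsPres P := h.choose.pres
  have hqx : ∀ n, q.coeff n ≤ (P x x).coeff n := h.choose_spec.choose
  have hx1 : ∀ j, (P x j).coeff 1 = 0 := h.choose_spec.choose_spec.choose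
  have hrr0 : ∀ j, (rr j).coeff 0 = 0 := by
    intro j
    have h1 := hIs o j
    rw [hrr j, coeff_add] at h1
    omega
  set Wm : Matrix Unit I ℕ[X] := of fun _ j => if j = o then mm else 0 with hWm
  have hW0 : ∀ k j, (Wm k j).coeff 0 = 0 := by
    intro k j
    simp only [hWm, of_apply]
    split_ifs
    · exact hm
    · simp
  have h1 := h.src Wm hW0
  have ecl : (fun k => ∑ j, toZ (Wm k j) • cl j) = fun _ : Unit => toZ mm • cl o := by
    funext k
    rw [Finset.sum_eq_single o]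
    · simp [hWm]
    · intro j _ hj
      simp [hWm, hj]
    · simp
  rw [ecl] at h1
  replace h1 : At S0 (Sum.elim cl fun _ => toZ mm • cl o) (Sum.inl x)
      (fromBlocks Mb 0 (of fun _ j => if j = o then - toZ mm else 0) 1)
      (fromBlocks P 0 Wm 0) := by
    convert h1 using 2
    · refine Matrix.ext fun k j => ?_
      simp only [hWm, of_apply]
      split_ifs <;> simp
    · refine Matrix.ext fun k j => ?_
      simp only [Matrix.one_apply]
  -- the row of `o`
  set P2 : Matrix (I ⊕ Unit) (I ⊕ Unit) ℕ[X] :=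
    fromBlocks (setRow P o rr) (of fun l _ => if l = o then nn else 0) Wm 0 with hP2
  have hP2p : IsPres P2 := by
    rintro (i | i) (j | j)
    · simp only [hP2, fromBlocks_apply₁₁, setRow]
      split_ifs
      · exact hrr0 j
      · exact hIs i j
    · simp only [hP2, fromBlocks_apply₁₂, of_apply]
      split_ifs
      · exact hn
      · simp
    · exact hW0 i j
    · simp [hP2]
  have hP2x : ∀ j, P2 (Sum.inl x) (Sum.inl j) = if x = o then rr j else P x j := by
    intro j
    simp only [hP2, fromBlocks_apply₁₁, setRow]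
  have hqx2 : ∀ n, q.coeff n ≤ (P2 (Sum.inl x) (Sum.inl x)).coeff n := by
    intro n
    rw [hP2x]
    split_ifs with hox
    · exact hq hox.symm n
    · exact hqx n
  have hx2 : ∀ j, (P2 (Sum.inl x) j).coeff 1 = 0 := by
    rintro (j | j)
    · rw [hP2x]
      split_ifs with hox
      · have h2 := hx1 j
        rw [hox, hrr j, coeff_add] at h2
        omega
      · exact hx1 j
    · simp only [hP2, fromBlocks_apply₁₂, of_apply]
      split_ifs with hox
      · exact hn1 hox.symm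
      · simp
  have h2 : At S0 (Sum.elim cl fun _ => toZ mm • cl o) (Sum.inl x)
      (fromBlocks Mb 0 (of fun _ j => if j = o then - toZ mm else 0) 1) P2 := by
    refine h1.row hP2p hqx2 hx2 (Sum.inl o) ?_ (Sum.elim 0 fun _ => - toZ nn) rfl ?_ ?_
    · rintro (l | l) hl
      · have hl' : l ≠ o := fun hh => hl (by rw [hh])
        funext j
        rcases j with j | j
        · simp [hP2, setRow, hl']
        · simp [hP2, hl']
      · funext j
        rcases j with j | j <;> simp [hP2]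
    · rintro (l | l)
      · exact dvd_zero _
      · simp only [Sum.elim_inr, dvd_neg]
        rw [X_dvd_iff, coeff_toZ, hn]
        rfl
    · intro j
      rw [Fintype.sum_sum_type]
      simp only [Sum.elim_inl, Sum.elim_inr, Pi.zero_apply, zero_mul, Finset.sum_const_zero,
        zero_add, Finset.univ_unique, PUnit.default_eq_unit, Finset.sum_singleton]
      rcases j with j | j
      · rw [IP_inl_inl, IP_inl_inl, IP_inr_inl]
        simp only [hP2, hWm, fromBlocks_apply₁₁, fromBlocks_apply₂₁, of_apply, setRow, if_true]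
        rw [hrr j]
        by_cases hj : j = o
        · simp only [hj, if_true, toZ_add, toZ_mul]
          ring
        · simp only [hj, if_false, toZ_zero, add_zero]
          ring
      · rw [IP_inl_inr, IP_inl_inr, IP_inr_inr]
        simp [hP2]
  -- the row of the new vertex
  have hP3p : IsPres (finM P o (mm * nn) mm rr rr nn) := by
    rintro (i | i) (j | j)
    · exact hP2p (Sum.inl i) (Sum.inl j)
    · exact hP2p (Sum.inl i) (Sum.inr j)
    · simp [finM, mul_coeff_zero, hm]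
    · simp [finM, mul_coeff_zero, hm]
  have hrow3 : ∀ i : I, finM P o (mm * nn) mm rr rr nn (Sum.inl i) = P2 (Sum.inl i) := by
    intro i
    funext j
    rcases j with j | j <;> simp [finM, hP2]
  refine h2.row hP3p (fun n => by rw [hrow3]; exact hqx2 n) (fun j => by rw [hrow3]; exact hx2 j)
    (Sum.inr ()) ?_ (Sum.elim (fun l => if l = o then toZ mm else 0) 0) rfl ?_ ?_
  · rintro (l | l) hl
    · exact hrow3 l
    · exact absurd rfl hl
  · rintro (l | l)
    · simp only [Sum.elim_inl]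
      split_ifs
      · rw [X_dvd_iff, coeff_toZ, hm]
        rfl
      · exact dvd_zero _
    · exact dvd_zero _
  · intro j
    rw [Fintype.sum_sum_type]
    simp only [Sum.elim_inl, Sum.elim_inr, Pi.zero_apply, zero_mul, Finset.sum_const_zero,
      add_zero, ite_mul, Finset.sum_ite_eq', Finset.mem_univ, if_true]
    rcases j with j | j
    · rw [IP_inr_inl, IP_inr_inl, IP_inl_inl]
      simp only [finM, hP2, hWm, fromBlocks_apply₁₁, fromBlocks_apply₂₁, of_apply, setRow, if_true]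
      by_cases hj : j = o
      · subst hj
        simp only [if_true, toZ_mul]
        ring
      · simp only [hj, Ne.symm hj, if_false, toZ_mul, toZ_zero]
        ring
    · rw [IP_inr_inr, IP_inr_inr, IP_inl_inr]
      simp only [finM, hP2, fromBlocks_apply₁₂, fromBlocks_apply₂₂, of_apply, if_true,
        Matrix.zero_apply, toZ_zero, toZ_mul]
      ring

/-- the equivalence class of the underlying presentation -/
theorem At.peqv (h : At S0 cl x Mb P) : PEqv P S0.P := by
  obtain ⟨hP, hq, hx, h1, -⟩ := h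
  exact h1.peqv.symm

end Pool.Agent.SSE
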