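import Pool.Agent.SSE.BR7
import Pool.Agent.SSE.BR6
import Pool.Agent.SSE.BR4
import Pool.Agent.SSE.BR8a

/-!
# SSE bridge, BR8b: the covered limit, its row `x`, agreement below `T`
-/

set_option autoImplicit false

open scoped BigOperators
open Matrix Polynomial

namespace Pool.Agent.SSE

attribute [local instance] Classical.propDecidable

/-- `∑_i c^i` for a series `c` without constant term -/
noncomputable def Sg (c : PowerSeries ℕ) : PowerSeries ℕ :=
  PowerSeries.mk fun d => ∑ i ∈ Finset.range (d + 1), PowerSeries.coeff d (c ^ i)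

lemma coeff_pow_lt {c : PowerSeries ℕ} (h : PowerSeries.coeff 0 c = 0) {i d : ℕ} (hd : d < i) :
    PowerSeries.coeff d (c ^ i) = 0 := by
  have h1 : (PowerSeries.X : PowerSeries ℕ) ∣ c := by
    rw [PowerSeries.X_dvd_iff, ← PowerSeries.coeff_zero_eq_constantCoeff_apply]
    exact h
  exact (PowerSeries.X_pow_dvd_iff.1 (pow_dvd_pow_of_dvd h1 i)) d hd

lemma coeff_Sg {c : PowerSeries ℕ} (h : PowerSeries.coeff 0 c = 0) {m d : ℕ} (hd : d < m) :
    PowerSeries.coeff d (∑ i ∈ Finset.range m, c ^ i) = PowerSeries.coeff d (Sg c) := by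
  rw [map_sum, Sg, PowerSeries.coeff_mk]
  symm
  refine Finset.sum_subset (fun i hi => ?_) fun i _ hi => ?_
  · rw [Finset.mem_range] at hi ⊢
    omega
  · rw [Finset.mem_range, not_lt] at hi
    exact coeff_pow_lt h (by omega)

lemma coeff_mul_congr {R : Type} [CommSemiring R] {f f' h : PowerSeries R} {d : ℕ}
    (hf : ∀ k, k ≤ d → PowerSeries.coeff k f = PowerSeries.coeff k f') :
    PowerSeries.coeff d (h * f) = PowerSeries.coeff d (h * f') := by
  rw [PowerSeries.coeff_mul, PowerSeries.coeff_mul]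
  refine Finset.sum_congr rfl fun a ha => ?_
  have := Finset.HasAntidiagonal.mem_antidiagonal.1 ha
  rw [hf a.2 (by omega)]

lemma Ag.congr {T : ℕ} {p : ℕ[X]} {f f' : PowerSeries ℕ} (h : Ag T p f)
    (hf : ∀ d, d < T → PowerSeries.coeff d f = PowerSeries.coeff d f') : Ag T p f' :=
  fun k hk => (h k hk).trans (hf k hk)

variable {I : Type} [Fintype I] {x : I} {T : ℕ} {P : Matrix I I ℕ[X]}
  {L : Matrix I I (PowerSeries ℕ)}

lemma ag_vecPow (hAg : ∀ i j, Ag T (P i j) (L i j))
    (off : ∀ i j, i ≠ x → j ≠ x → i ≠ j → L i j = 0) (a : I → ℕ) (i : ℕ) :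
    ∀ l, l ≠ x → Ag T ((vt x a ᵥ* (vM P x) ^ i) l) (PowerSeries.X ^ (a l) * (L l l) ^ i) := by
  induction i with
  | zero =>
    intro l hl
    rw [pow_zero, pow_zero, mul_one, Matrix.vecMul_one]
    unfold vt
    rw [if_neg hl]
    have := ag_coe T (X ^ a l : ℕ[X])
    rwa [Polynomial.coe_pow, Polynomial.coe_X] at this
  | succ i ih =>
    intro l hl
    rw [pow_succ, ← Matrix.vecMul_vecMul]
    have h1 : (PowerSeries.X ^ (a l) * (L l l) ^ (i + 1) : PowerSeries ℕ) =
        ∑ j, (if j = x then 0 else PowerSeries.X ^ (a j) * (L j j) ^ i) *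
          (if j = x then 0 else L j l) := by
      rw [Finset.sum_eq_single l]
      · rw [if_neg hl, if_neg hl, pow_succ]
        ring
      · intro j _ hj
        by_cases hjx : j = x
        · rw [if_pos hjx, zero_mul]
        · rw [if_neg hjx, if_neg hjx, off j l hjx hl hj, mul_zero]
      · intro h
        exact absurd (Finset.mem_univ l) h
    rw [h1]
    change Ag T (∑ j, (vt x a ᵥ* (vM P x) ^ i) j * vM P x j l) _
    refine Ag.sum _ fun j _ => ?_
    by_cases hjx : j = x
    · rw [if_pos hjx, zero_mul]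
      unfold vM
      rw [if_pos (Or.inl hjx), mul_zero]
      exact ag_zero T
    · rw [if_neg hjx, if_neg hjx]
      refine (ih j hjx).mul ?_
      unfold vM
      rw [if_neg (by tauto)]
      exact hAg j l

lemma vecPow_x (a : I → ℕ) (i : ℕ) : (vt x a ᵥ* (vM P x) ^ i) x = 0 := by
  cases i with
  | zero =>
    rw [pow_zero, Matrix.vecMul_one]
    unfold vt
    rw [if_pos rfl]
  | succ i =>
    rw [pow_succ, ← Matrix.vecMul_vecMul]
    change ∑ j, (vt x a ᵥ* (vM P x) ^ i) j * vM P x j x = 0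
    refine Finset.sum_eq_zero fun j _ => ?_
    unfold vM
    rw [if_pos (Or.inr rfl), mul_zero]

/-- the loops of `x` which are replaced by the covers -/
noncomputable def sig (x : I) (a : I → ℕ) (L : Matrix I I (PowerSeries ℕ)) : PowerSeries ℕ :=
  ∑ l, if l = x then 0 else PowerSeries.X ^ (a l) * Sg (L l l) * L l x

lemma ag_Wm (hAg : ∀ i j, Ag T (P i j) (L i j)) (zero : ∀ i j, PowerSeries.coeff 0 (L i j) = 0)
    (off : ∀ i j, i ≠ x → j ≠ x → i ≠ j → L i j = 0) (a : I → ℕ) {m : ℕ} (hm : T ≤ m) :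
    Ag T (∑ l, Wm P x a m l * P l x) (sig x a L) := by
  refine Ag.sum _ fun l _ => ?_
  by_cases hl : l = x
  · rw [if_pos hl]
    unfold Wm
    rw [Finset.sum_eq_zero fun i _ => by rw [hl]; exact vecPow_x a i, zero_mul]
    exact ag_zero T
  · rw [if_neg hl]
    refine Ag.mul ?_ (hAg l x)
    unfold Wm
    have h1 : Ag T (∑ i ∈ Finset.range m, (vt x a ᵥ* (vM P x) ^ i) l)
        (PowerSeries.X ^ (a l) * ∑ i ∈ Finset.range m, (L l l) ^ i) := by
      rw [Finset.mul_sum]
      exact Ag.sum _ fun i _ => ag_vecPow hAg off a i l hl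
    exact h1.congr fun d hd => coeff_mul_congr fun k hk => coeff_Sg (zero l l) (by omega)

/-- the covered limit -/
noncomputable def covL (x : I) (a : I → ℕ) (s : ℕ[X]) (k : ℕ) (L : Matrix I I (PowerSeries ℕ)) :
    Matrix (I ⊕ Unit) (I ⊕ Unit) (PowerSeries ℕ) :=
  fromBlocks
    (of fun i j => if i = x then (if j = x then PowerSeries.mk fun d =>
      (PowerSeries.coeff d (gk s k * (zS (L x x) - ps (toZ s)))).toNat -
        PowerSeries.coeff d (sig x a L) else PowerSeries.X ^ a j) else L i j)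
    (of fun i _ => if i = x then PowerSeries.X ^ (k - 1) else 0)
    (of fun _ j => if j = x then PowerSeries.X * PowerSeries.mk fun d =>
      PowerSeries.coeff d (L x x) - s.coeff d else 0)
    (of fun _ _ => (s : PowerSeries ℕ))

lemma coeff_zS (f : PowerSeries ℕ) (d : ℕ) :
    PowerSeries.coeff d (zS f) = ((PowerSeries.coeff d f : ℕ) : ℤ) := by
  unfold zS
  rw [PowerSeries.coeff_map]
  rfl

/-- half of the loops of `x` stay -/
lemma sig_le {ρ κ r θ B : ℝ} {N u k e a0 : ℕ} {s : ℕ[X]} (R : Res (gk s k) ρ κ N u) (hr : ρ < r)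
    (hr1 : r < 1) (hθ0 : 0 ≤ θ) (hθ1 : θ < 1) (hB0 : 0 ≤ B)
    (zero : ∀ i j, PowerSeries.coeff 0 (L i j) = 0)
    (off : ∀ i j, i ≠ x → j ≠ x → i ≠ j → L i j = 0)
    (norm : ∀ l, l ≠ x → ∀ D, nv r (PowerSeries.trunc D (L l x)) ≤ B)
    (diag : ∀ v, v ≠ x → ∀ D, nv r (PowerSeries.trunc D (L v v)) ≤ θ)
    (hs : ∀ d, s.coeff d ≤ PowerSeries.coeff d (L x x))
    (he : s.coeff e < PowerSeries.coeff e (L x x)) (a : I → ℕ) (ha : ∀ j, a0 ≤ a j)
    (ha0 : N + e ≤ a0)
    (hsmall : 2 * ((Fintype.card I : ℝ) * r ^ a0 * ((1 - θ)⁻¹ * B)) ≤ κ * ρ ^ e) (d : ℕ) :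
    2 * ((PowerSeries.coeff d (sig x a L) : ℕ) : ℤ) ≤
      PowerSeries.coeff d (gk s k * (zS (L x x) - ps (toZ s))) := by
  have r0 : 0 < r := R.ρ0.trans hr
  set T := d + e + s.natDegree + 1 with hT
  set P : Matrix I I ℕ[X] := fun i j => PowerSeries.trunc T (L i j) with hPdef
  have hAg : ∀ i j, Ag T (P i j) (L i j) := fun i j => ag_trunc T _
  have hP : IsPres P := by
    intro i j
    rw [hAg i j 0 (by omega)]
    exact zero i j
  have hsT : ∀ n, s.coeff n ≤ (P x x).coeff n := by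
    intro n
    by_cases hn : n < T
    · rw [hAg x x n hn]
      exact hs n
    · rw [coeff_eq_zero_of_natDegree_lt (p := s) (by omega)]
      exact Nat.zero_le _
  obtain ⟨rx, hrx⟩ := exists_add_of_coeff_le hsT
  have hrxc : ∀ n, n < T → (rx.coeff n : ℤ) = PowerSeries.coeff n (zS (L x x) - ps (toZ s)) := by
    intro n hn
    rw [map_sub, coeff_zS, coeff_ps, coeff_toZ, ← hAg x x n hn, hrx, coeff_add]
    push_cast
    ring
  have hθ : ∀ i, ∑ j, wn r (toR (toZ (vM P x i j))) ≤ θ := by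
    intro i
    by_cases hi : i = x
    · rw [Finset.sum_eq_zero]
      · exact hθ0
      · intro j _
        unfold vM
        rw [if_pos (Or.inl hi), wn_eq_nv, map_zero]
    · rw [Finset.sum_eq_single i]
      · unfold vM
        rw [if_neg (by tauto), wn_eq_nv]
        exact diag i hi T
      · intro j _ hj
        unfold vM
        by_cases hjx : j = x
        · rw [if_pos (Or.inr hjx), wn_eq_nv, map_zero]
        · rw [if_neg (by tauto), wn_eq_nv, hPdef]
          simp only
          rw [off i j hi hjx (Ne.symm hj), map_zero, map_zero]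
      · intro h
        exact absurd (Finset.mem_univ i) h
  have hB : ∀ l, l ≠ x → wn r (toR (toZ (P l x))) ≤ B := by
    intro l hl
    rw [wn_eq_nv]
    exact norm l hl T
  have he' : 1 ≤ rx.coeff e := by
    have h1 := congrArg (fun p => p.coeff e) hrx
    simp only [coeff_add] at h1
    rw [hAg x x e (by omega)] at h1
    omega
  have h1 := xpart R hP hr hr1 hθ0 hθ1 hB0 hθ hB he' a a0 ha ha0 hsmall T d
  have h2 := ag_Wm (x := x) hAg zero off a (m := T) le_rfl d (by omega)
  rw [← h2]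
  refine le_trans h1 (le_of_eq ?_)
  refine coeff_mul_congr fun n hn => ?_
  rw [coeff_ps, coeff_toZ]
  exact hrxc n (by omega)

end Pool.Agent.SSE
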