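import Pool.Agent.SSE.BR8b

/-!
# SSE bridge, BR8c: properties of the covered limit and one finite step
-/

set_option autoImplicit false

open scoped BigOperators
open Matrix Polynomial

namespace Pool.Agent.SSE

attribute [local instance] Classical.propDecidable

lemma br8c_ge {f g : PowerSeries ℤ} (hf : ∀ n, 0 ≤ PowerSeries.coeff n f)
    (hg : ∀ n, 0 ≤ PowerSeries.coeff n g) {e : ℕ} (he : 1 ≤ PowerSeries.coeff e g) (n : ℕ) :
    PowerSeries.coeff n f ≤ PowerSeries.coeff (n + e) (f * g) := by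
  rw [PowerSeries.coeff_mul]
  have h1 : PowerSeries.coeff n f ≤ PowerSeries.coeff n f * PowerSeries.coeff e g := by
    nlinarith [hf n, he]
  refine h1.trans ?_
  exact Finset.single_le_sum (f := fun a : ℕ × ℕ => PowerSeries.coeff a.1 f * PowerSeries.coeff a.2 g)
    (fun a _ => mul_nonneg (hf _) (hg _))
    (Finset.HasAntidiagonal.mem_antidiagonal.2 (rfl : (n, e).1 + (n, e).2 = n + e))

/-- truncation error at a smaller radius -/
lemma nv_le_of_ag {rm r : ℝ} (h0 : 0 < rm) (h1 : rm ≤ r) {T : ℕ} {p : ℕ[X]} {f : PowerSeries ℕ}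
    (h : Ag T p f) :
    nv rm p ≤ nv rm (PowerSeries.trunc T f) + (rm / r) ^ T * nv r p := by
  have hr : 0 < r := h0.trans_le h1
  set M := p.natDegree + 1 + T with hM
  have hp : ∀ n, M ≤ n → p.coeff n = 0 := fun n hn => coeff_eq_zero_of_natDegree_lt (by omega)
  have ht : ∀ n, M ≤ n → (PowerSeries.trunc T f).coeff n = 0 := fun n hn =>
    trunc_coeff_ge T f n (by omega)
  rw [nv_range hp, nv_range ht, nv_range hp, Finset.mul_sum, ← Finset.sum_add_distrib]
  refine Finset.sum_le_sum fun d _ => ?_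
  have hd0 : (0 : ℝ) ≤ (p.coeff d : ℝ) := Nat.cast_nonneg _
  by_cases hd : d < T
  · rw [PowerSeries.coeff_trunc, if_pos hd, ← h d hd]
    have : 0 ≤ (rm / r) ^ T * ((p.coeff d : ℝ) * r ^ d) := by positivity
    linarith
  · rw [trunc_coeff_ge T f d (not_lt.1 hd), Nat.cast_zero, zero_mul, zero_add]
    have h2 : rm ^ d ≤ (rm / r) ^ T * r ^ d := by
      have h3 : rm ^ d = (rm / r) ^ d * r ^ d := by
        rw [← mul_pow, div_mul_cancel₀ _ hr.ne']
      rw [h3]
      refine mul_le_mul_of_nonneg_right ?_ (pow_nonneg hr.le _)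
      exact pow_le_pow_of_le_one (by positivity) ((div_le_one hr).2 h1) (not_lt.1 hd)
    calc (p.coeff d : ℝ) * rm ^ d ≤ (p.coeff d : ℝ) * ((rm / r) ^ T * r ^ d) :=
          mul_le_mul_of_nonneg_left h2 hd0
      _ = _ := by ring

section cov
variable {I : Type} [Fintype I] {x : I} {L : Matrix I I (PowerSeries ℕ)} {a : I → ℕ} {s : ℕ[X]}
  {k : ℕ}

lemma sig_low {a0 : ℕ} (ha : ∀ j, a0 ≤ a j) {d : ℕ} (hd : d < a0) :
    PowerSeries.coeff d (sig x a L) = 0 := by
  have h1 : (PowerSeries.X : PowerSeries ℕ) ^ a0 ∣ sig x a L := by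
    unfold sig
    refine Finset.dvd_sum fun l _ => ?_
    split_ifs
    · exact dvd_zero _
    · exact Dvd.dvd.mul_right (Dvd.dvd.mul_right (pow_dvd_pow _ (ha l)) _) _
  exact PowerSeries.X_pow_dvd_iff.1 h1 d hd

lemma covL_xx (d : ℕ) : PowerSeries.coeff d (covL x a s k L (Sum.inl x) (Sum.inl x)) =
    (PowerSeries.coeff d (gk s k * (zS (L x x) - ps (toZ s)))).toNat -
        PowerSeries.coeff d (sig x a L) := by
  unfold covL
  rw [fromBlocks_apply₁₁, of_apply, if_pos rfl, if_pos rfl, PowerSeries.coeff_mk]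

lemma covL_xj {j : I} (hj : j ≠ x) :
    covL x a s k L (Sum.inl x) (Sum.inl j) = PowerSeries.X ^ a j := by
  unfold covL
  rw [fromBlocks_apply₁₁, of_apply, if_pos rfl, if_neg hj]

lemma covL_lj {l : I} (hl : l ≠ x) (j : I) :
    covL x a s k L (Sum.inl l) (Sum.inl j) = L l j := by
  unfold covL
  rw [fromBlocks_apply₁₁, of_apply, if_neg hl]

lemma covL_xw (j : Unit) :
    covL x a s k L (Sum.inl x) (Sum.inr j) = PowerSeries.X ^ (k - 1) := by
  unfold covL
  rw [fromBlocks_apply₁₂, of_apply, if_pos rfl]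

lemma covL_lw {l : I} (hl : l ≠ x) (j : Unit) :
    covL x a s k L (Sum.inl l) (Sum.inr j) = 0 := by
  unfold covL
  rw [fromBlocks_apply₁₂, of_apply, if_neg hl]

lemma covL_wx (i : Unit) : covL x a s k L (Sum.inr i) (Sum.inl x) =
    PowerSeries.X * PowerSeries.mk fun d => PowerSeries.coeff d (L x x) - s.coeff d := by
  unfold covL
  rw [fromBlocks_apply₂₁, of_apply, if_pos rfl]

lemma covL_wj {j : I} (hj : j ≠ x) (i : Unit) : covL x a s k L (Sum.inr i) (Sum.inl j) = 0 := by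
  unfold covL
  rw [fromBlocks_apply₂₁, of_apply, if_neg hj]

lemma covL_ww (i j : Unit) : covL x a s k L (Sum.inr i) (Sum.inr j) = (s : PowerSeries ℕ) := by
  unfold covL
  rw [fromBlocks_apply₂₂, of_apply]

/-- the loops of `x` in the covered limit -/
lemma covL_xx_cast (hsig : ∀ d, 2 * ((PowerSeries.coeff d (sig x a L) : ℕ) : ℤ) ≤
      PowerSeries.coeff d (gk s k * (zS (L x x) - ps (toZ s)))) (d : ℕ) :
    ((PowerSeries.coeff d (covL x a s k L (Sum.inl x) (Sum.inl x)) : ℕ) : ℤ) =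
      PowerSeries.coeff d (gk s k * (zS (L x x) - ps (toZ s))) -
        ((PowerSeries.coeff d (sig x a L) : ℕ) : ℤ) := by
  rw [covL_xx]
  have h1 := hsig d
  omega

lemma covL_xx_half (hsig : ∀ d, 2 * ((PowerSeries.coeff d (sig x a L) : ℕ) : ℤ) ≤
      PowerSeries.coeff d (gk s k * (zS (L x x) - ps (toZ s)))) (d : ℕ) :
    PowerSeries.coeff d (gk s k * (zS (L x x) - ps (toZ s))) ≤
      2 * ((PowerSeries.coeff d (covL x a s k L (Sum.inl x) (Sum.inl x)) : ℕ) : ℤ) := by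
  rw [covL_xx_cast hsig]
  have h1 := hsig d
  omega

lemma coeff_diff (d : ℕ) : PowerSeries.coeff d (zS (L x x) - ps (toZ s)) =
    ((PowerSeries.coeff d (L x x) : ℕ) : ℤ) - (s.coeff d : ℤ) := by
  rw [map_sub, coeff_zS, coeff_ps, coeff_toZ]

lemma diff_ge {qB : ℕ[X]} (hsL : ∀ d, s.coeff d + qB.coeff d ≤ PowerSeries.coeff d (L x x))
    (d : ℕ) : (qB.coeff d : ℤ) ≤ PowerSeries.coeff d (zS (L x x) - ps (toZ s)) := by
  rw [coeff_diff]
  have := hsL d
  omega

lemma diff_nn {qB : ℕ[X]} (hsL : ∀ d, s.coeff d + qB.coeff d ≤ PowerSeries.coeff d (L x x))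
    (d : ℕ) : 0 ≤ PowerSeries.coeff d (zS (L x x) - ps (toZ s)) :=
  le_trans (by positivity) (diff_ge hsL d)

/-- no loops of length `0`, `1` -/
lemma prod_low {g : PowerSeries ℤ} (hsL : ∀ d, s.coeff d ≤ PowerSeries.coeff d (L x x))
    (low : ∀ d, d < 2 → PowerSeries.coeff d (L x x) = 0) {d : ℕ} (hd : d < 2) :
    PowerSeries.coeff d (g * (zS (L x x) - ps (toZ s))) = 0 := by
  rw [PowerSeries.coeff_mul]
  refine Finset.sum_eq_zero fun b hb => ?_
  have hb' := Finset.HasAntidiagonal.mem_antidiagonal.1 hb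
  rw [coeff_diff]
  have h1 := low b.2 (by omega)
  have h2 := hsL b.2
  rw [h1] at h2 ⊢
  have h3 : s.coeff b.2 = 0 := by omega
  rw [h3]
  simp

lemma covL_zero (zero : ∀ i j, PowerSeries.coeff 0 (L i j) = 0)
    (low : ∀ d, d < 2 → PowerSeries.coeff d (L x x) = 0)
    (hsL : ∀ d, s.coeff d ≤ PowerSeries.coeff d (L x x)) (hk : 3 ≤ k) (ha : ∀ j, 2 ≤ a j) :
    ∀ i j, PowerSeries.coeff 0 (covL x a s k L i j) = 0 := by
  rintro (i | i) (j | j)
  · by_cases hi : i = x
    · subst hi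
      by_cases hj : j = i
      · subst hj
        rw [covL_xx, prod_low hsL low (by omega)]
        simp
      · rw [covL_xj hj, PowerSeries.coeff_X_pow, if_neg]
        have := ha j
        omega
    · rw [covL_lj hi]
      exact zero i j
  · by_cases hi : i = x
    · subst hi
      rw [covL_xw, PowerSeries.coeff_X_pow, if_neg (by omega)]
    · rw [covL_lw hi]
      simp
  · by_cases hj : j = x
    · subst hj
      rw [covL_wx, PowerSeries.coeff_zero_X_mul]
    · rw [covL_wj hj]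
      simp
  · rw [covL_ww, Polynomial.coeff_coe]
    have h1 := hsL 0
    have h2 := low 0 (by omega)
    omega

lemma covL_one (low : ∀ d, d < 2 → PowerSeries.coeff d (L x x) = 0)
    (hsL : ∀ d, s.coeff d ≤ PowerSeries.coeff d (L x x)) (hk : 3 ≤ k) (ha : ∀ j, 2 ≤ a j) :
    ∀ j, PowerSeries.coeff 1 (covL x a s k L (Sum.inl x) j) = 0 := by
  rintro (j | j)
  · by_cases hj : j = x
    · subst hj
      rw [covL_xx, prod_low hsL low (by omega)]
      simp
    · rw [covL_xj hj, PowerSeries.coeff_X_pow, if_neg]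
      have := ha j
      omega
  · rw [covL_xw, PowerSeries.coeff_X_pow, if_neg (by omega)]

lemma covL_q {ρ κ : ℝ} {N u a0 : ℕ} {qB : ℕ[X]} (R : Res (gk s k) ρ κ N u)
    (hsL : ∀ d, s.coeff d + qB.coeff d ≤ PowerSeries.coeff d (L x x)) (ha : ∀ j, a0 ≤ a j)
    (haq : qB.natDegree < a0) (d : ℕ) :
    qB.coeff d ≤ PowerSeries.coeff d (covL x a s k L (Sum.inl x) (Sum.inl x)) := by
  by_cases hd : d < a0
  · rw [covL_xx, sig_low ha hd, Nat.sub_zero]
    have h1 := diff_ge hsL d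
    have h2 := br8c_ge (diff_nn hsL) R.nonneg (le_of_eq R.one.symm) d
    rw [add_zero, mul_comm] at h2
    omega
  · rw [coeff_eq_zero_of_natDegree_lt (p := qB) (by omega)]
    exact Nat.zero_le _

lemma covL_large {ρ κ : ℝ} {N u e : ℕ} {qB : ℕ[X]} (R : Res (gk s k) ρ κ N u)
    (hsL : ∀ d, s.coeff d + qB.coeff d ≤ PowerSeries.coeff d (L x x))
    (hsig : ∀ d, 2 * ((PowerSeries.coeff d (sig x a L) : ℕ) : ℤ) ≤
      PowerSeries.coeff d (gk s k * (zS (L x x) - ps (toZ s))))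
    (he : s.coeff e < PowerSeries.coeff e (L x x)) (d : ℕ) (hd : N + e ≤ d) :
    1 ≤ PowerSeries.coeff d (covL x a s k L (Sum.inl x) (Sum.inl x)) := by
  have h1 := covL_xx_half (k := k) hsig d
  have h2 : 1 ≤ PowerSeries.coeff e (zS (L x x) - ps (toZ s)) := by
    rw [coeff_diff]
    omega
  have h3 := br8c_ge R.nonneg (diff_nn hsL) h2 (d - e)
  rw [Nat.sub_add_cancel (by omega)] at h3
  have h4 := R.low (d - e) (by omega)
  have h5 : (0 : ℝ) < κ * (ρ⁻¹) ^ (d - e) :=
    mul_pos R.κ0 (pow_pos (inv_pos.2 R.ρ0) _)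
  have h6 : (0 : ℝ) < ((PowerSeries.coeff (d - e) (gk s k) : ℤ) : ℝ) := h5.trans_le h4
  have h7 : 0 < PowerSeries.coeff (d - e) (gk s k) := by exact_mod_cast h6
  omega

lemma covL_val {Z r' : ℝ} (hr' : 0 ≤ r') {D : ℕ}
    (hsig : ∀ d, 2 * ((PowerSeries.coeff d (sig x a L) : ℕ) : ℤ) ≤
      PowerSeries.coeff d (gk s k * (zS (L x x) - ps (toZ s))))
    (hD : 2 * Z < ∑ d ∈ Finset.range D,
        ((PowerSeries.coeff d (gk s k * (zS (L x x) - ps (toZ s))) : ℤ) : ℝ) * r' ^ d) :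
    Z < nv r' (PowerSeries.trunc D (covL x a s k L (Sum.inl x) (Sum.inl x))) := by
  rw [nv_range (trunc_coeff_ge D _)]
  have h1 : ∑ d ∈ Finset.range D,
        ((PowerSeries.coeff d (gk s k * (zS (L x x) - ps (toZ s))) : ℤ) : ℝ) * r' ^ d ≤
      2 * ∑ d ∈ Finset.range D, (((PowerSeries.trunc D
        (covL x a s k L (Sum.inl x) (Sum.inl x))).coeff d : ℕ) : ℝ) * r' ^ d := by
    rw [Finset.mul_sum]
    refine Finset.sum_le_sum fun d hd => ?_
    rw [PowerSeries.coeff_trunc, if_pos (Finset.mem_range.1 hd), ← mul_assoc]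
    refine mul_le_mul_of_nonneg_right ?_ (pow_nonneg hr' _)
    exact_mod_cast covL_xx_half hsig d
  linarith

end cov

end Pool.Agent.SSE
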