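import Mathlib

/-!
# SSE project: the counting lemma

If `∏ (1 - X^(a y))` and `∏ (1 - X^(b z))` agree modulo `X^N`, where all exponents are between `1`
and `N - 1`, then the two families of exponents agree up to a bijection.
-/

set_option autoImplicit false

namespace Pool.Agent.SSE

open Polynomial

/-- product of factors `1 - X^d` with `d ≥ k` modulo `X^(k+1)` -/
theorem count_high {κ : Type} (d : κ → ℕ) {k : ℕ} (hk : 1 ≤ k) (s : Finset κ)
    (hs : ∀ y ∈ s, k ≤ d y) :
    (X : ℤ[X]) ^ (k + 1) ∣ (∏ y ∈ s, (1 - (X : ℤ[X]) ^ d y)) -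
      (1 - C ((s.filter fun y => d y = k).card : ℤ) * X ^ k) := by
  classical
  induction s using Finset.induction_on with
  | empty => simp
  | insert a s ha ih =>
    obtain ⟨q, hq⟩ := ih fun y hy => hs y (Finset.mem_insert_of_mem hy)
    have hq' : (∏ y ∈ s, (1 - (X : ℤ[X]) ^ d y)) =
        (1 - C ((s.filter fun y => d y = k).card : ℤ) * X ^ k) + X ^ (k + 1) * q := by
      rw [← hq]
      ring
    rw [Finset.prod_insert ha, hq']
    have hak := hs a (Finset.mem_insert_self _ _)
    rcases Nat.eq_or_lt_of_le hak with h | h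
    · have h1 : ((insert a s).filter fun y => d y = k).card
          = (s.filter fun y => d y = k).card + 1 := by
        rw [Finset.filter_insert, if_pos h.symm, Finset.card_insert_of_notMem]
        intro h2
        exact ha (Finset.mem_filter.1 h2).1
      rw [h1, ← h]
      obtain ⟨m, rfl⟩ := Nat.exists_eq_add_of_le hk
      refine ⟨(1 - X ^ (1 + m)) * q + C ((s.filter fun y => d y = 1 + m).card : ℤ) * X ^ m, ?_⟩
      push_cast
      rw [map_add, map_one]
      ring
    · have h1 : ((insert a s).filter fun y => d y = k).card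
          = (s.filter fun y => d y = k).card := by
        rw [Finset.filter_insert, if_neg (ne_of_gt h)]
      rw [h1]
      obtain ⟨m, hm⟩ := Nat.exists_eq_add_of_lt h
      refine ⟨(1 - X ^ d a) * q
        - X ^ m * (1 - C ((s.filter fun y => d y = k).card : ℤ) * X ^ k), ?_⟩
      rw [hm]
      ring

theorem count_fibers {κ μ : Type} [Fintype κ] [Fintype μ] (a : κ → ℕ) (b : μ → ℕ) {N : ℕ}
    (ha : ∀ y, 1 ≤ a y) (hb : ∀ y, 1 ≤ b y)
    (h : (X : ℤ[X]) ^ N ∣ (∏ y, (1 - (X : ℤ[X]) ^ a y)) - ∏ y, (1 - (X : ℤ[X]) ^ b y)) :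
    ∀ k < N, (Finset.univ.filter fun y => a y = k).card
      = (Finset.univ.filter fun y => b y = k).card := by
  classical
  intro k
  induction k using Nat.strong_induction_on with
  | _ k ih =>
    intro hkN
    rcases Nat.eq_zero_or_pos k with rfl | hk
    · rw [Finset.filter_false_of_mem (fun y _ h0 => by have := ha y; omega),
        Finset.filter_false_of_mem (fun y _ h0 => by have := hb y; omega)]
      rfl
    have low : (∏ y ∈ Finset.univ.filter (fun y => a y < k), (1 - (X : ℤ[X]) ^ a y))
        = ∏ y ∈ Finset.univ.filter (fun y => b y < k), (1 - (X : ℤ[X]) ^ b y) := by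
      have hfib : ∀ {ν : Type} [Fintype ν] (c : ν → ℕ),
          (∏ y ∈ Finset.univ.filter (fun y => c y < k), (1 - (X : ℤ[X]) ^ c y))
            = ∏ j ∈ Finset.range k, (1 - (X : ℤ[X]) ^ j) ^
                (Finset.univ.filter fun y => c y = j).card := by
        intro ν _ c
        rw [← Finset.prod_fiberwise_of_maps_to (t := Finset.range k) (g := c)]
        · refine Finset.prod_congr rfl fun j hj => ?_
          have h1 : ((Finset.univ.filter fun y => c y < k).filter fun y => c y = j)
              = Finset.univ.filter fun y => c y = j := by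
            ext y
            simp only [Finset.mem_filter, Finset.mem_univ, true_and, and_iff_right_iff_imp]
            intro h
            rw [h]
            exact Finset.mem_range.1 hj
          rw [h1, Finset.prod_congr rfl (g := fun _ => 1 - (X : ℤ[X]) ^ j), Finset.prod_const]
          intro y hy
          rw [(Finset.mem_filter.1 hy).2]
        · intro y hy
          exact Finset.mem_range.2 (Finset.mem_filter.1 hy).2
      rw [hfib a, hfib b]
      refine Finset.prod_congr rfl fun j hj => ?_
      have hjk := Finset.mem_range.1 hj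
      rw [ih j hjk (hjk.trans hkN)]
    have e1 := Finset.prod_filter_mul_prod_filter_not Finset.univ (fun y => a y < k)
      (fun y => 1 - (X : ℤ[X]) ^ a y)
    have e2 := Finset.prod_filter_mul_prod_filter_not Finset.univ (fun y => b y < k)
      (fun y => 1 - (X : ℤ[X]) ^ b y)
    rw [← e1, ← e2, low, ← mul_sub] at h
    have hdvd : (X : ℤ[X]) ^ (k + 1) ∣
        (∏ y ∈ Finset.univ.filter (fun y => ¬ a y < k), (1 - (X : ℤ[X]) ^ a y)) -
        ∏ y ∈ Finset.univ.filter (fun y => ¬ b y < k), (1 - (X : ℤ[X]) ^ b y) := by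
      have h1 : (X : ℤ[X]) ^ (k + 1) ∣
          (∏ y ∈ Finset.univ.filter (fun y => b y < k), (1 - (X : ℤ[X]) ^ b y)) *
          ((∏ y ∈ Finset.univ.filter (fun y => ¬ a y < k), (1 - (X : ℤ[X]) ^ a y)) -
          ∏ y ∈ Finset.univ.filter (fun y => ¬ b y < k), (1 - (X : ℤ[X]) ^ b y)) :=
        (pow_dvd_pow _ hkN).trans h
      refine (prime_X).pow_dvd_of_dvd_mul_left _ ?_ h1
      rw [X_dvd_iff, coeff_zero_prod]
      have h2 : ∏ y ∈ Finset.univ.filter (fun y => b y < k), (1 - (X : ℤ[X]) ^ b y).coeff 0 = 1 := by
        refine Finset.prod_eq_one fun y _ => ?_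
        rw [coeff_sub, coeff_one_zero, coeff_X_pow, if_neg (by have := hb y; omega), sub_zero]
      rw [h2]
      exact one_ne_zero
    have ha' := count_high a hk (Finset.univ.filter fun y => ¬ a y < k)
      (fun y hy => not_lt.1 (Finset.mem_filter.1 hy).2)
    have hb' := count_high b hk (Finset.univ.filter fun y => ¬ b y < k)
      (fun y hy => not_lt.1 (Finset.mem_filter.1 hy).2)
    have ca : ((Finset.univ.filter fun y => ¬ a y < k).filter fun y => a y = k)
        = Finset.univ.filter fun y => a y = k := by
      ext y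
      simp only [Finset.mem_filter, Finset.mem_univ, true_and, and_iff_right_iff_imp]
      omega
    have cb : ((Finset.univ.filter fun y => ¬ b y < k).filter fun y => b y = k)
        = Finset.univ.filter fun y => b y = k := by
      ext y
      simp only [Finset.mem_filter, Finset.mem_univ, true_and, and_iff_right_iff_imp]
      omega
    rw [ca] at ha'
    rw [cb] at hb'
    have h3 := dvd_add (dvd_sub hdvd ha') hb'
    have h4 := (X_pow_dvd_iff.1 h3) k (Nat.lt_succ_self k)
    simp only [coeff_add, coeff_sub, coeff_C_mul, coeff_X_pow, if_true] at h4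
    have h5 : ((Finset.univ.filter fun y => a y = k).card : ℤ)
        = (Finset.univ.filter fun y => b y = k).card := by
      linarith
    exact_mod_cast h5

/-- the counting lemma -/
theorem count_match {κ μ : Type} [Fintype κ] [Fintype μ] (a : κ → ℕ) (b : μ → ℕ) {N : ℕ}
    (ha : ∀ y, 1 ≤ a y) (ha' : ∀ y, a y < N) (hb : ∀ y, 1 ≤ b y) (hb' : ∀ y, b y < N)
    (h : (X : ℤ[X]) ^ N ∣ (∏ y, (1 - (X : ℤ[X]) ^ a y)) - ∏ y, (1 - (X : ℤ[X]) ^ b y)) :
    ∃ e : κ ≃ μ, ∀ y, b (e y) = a y := by
  classical
  have hf := count_fibers a b ha hb h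
  have hcard : ∀ k, Nonempty ({y // a y = k} ≃ {y // b y = k}) := by
    intro k
    refine Fintype.card_eq.1 ?_
    rw [Fintype.card_subtype, Fintype.card_subtype]
    rcases lt_or_ge k N with hk | hk
    · exact hf k hk
    · rw [Finset.filter_false_of_mem (fun y _ h0 => by have := ha' y; omega),
        Finset.filter_false_of_mem (fun y _ h0 => by have := hb' y; omega)]
      rfl
  let f := fun k => (hcard k).some
  refine ⟨(Equiv.sigmaFiberEquiv a).symm.trans ((Equiv.sigmaCongrRight f).trans
    (Equiv.sigmaFiberEquiv b)), fun y => ?_⟩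
  simp only [Equiv.trans_apply]
  exact (f (a y) ⟨y, rfl⟩).2

end Pool.Agent.SSE
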