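import Mathlib

/-!
# SSE project: supermultiplicative series and coefficientwise domination

`u = 1 / (1 - s)` with `s ≥ 0` is supermultiplicative.  If `u_e ≥ ρ^e` for `e ≥ p` then every
`F = g * u`, `g ≥ 0`, satisfies `ρ^e F_(d-e) ≤ F_d` for `e ≥ p`, hence `c * F ≤ ε F`
coefficientwise if `c ≥ 0` starts in degree `≥ p` and `∑ c_e ρ^(-e) ≤ ε`.
-/

set_option autoImplicit false

namespace Pool.Agent.SSE

open PowerSeries

/-- renewal equation -/
theorem renewal_coeff {u s : PowerSeries ℝ} (h : u * (1 - s) = 1) (n : ℕ) :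
    coeff n u = (if n = 0 then 1 else 0) +
      ∑ k ∈ Finset.range (n + 1), coeff k s * coeff (n - k) u := by
  have h1 : u = 1 + s * u := by
    have : u * (1 - s) = u - s * u := by ring
    rw [this] at h
    rw [← h]
    ring
  conv_lhs => rw [h1]
  rw [map_add, coeff_one, coeff_mul, Finset.Nat.sum_antidiagonal_eq_sum_range_succ_mk]

theorem renewal_nonneg {u s : PowerSeries ℝ} (h : u * (1 - s) = 1) (hs0 : coeff 0 s = 0)
    (hs : ∀ n, 0 ≤ coeff n s) (n : ℕ) : 0 ≤ coeff n u := by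
  induction n using Nat.strong_induction_on with
  | _ n ih =>
    rw [renewal_coeff h n]
    refine add_nonneg (by split_ifs <;> norm_num) (Finset.sum_nonneg fun k hk => ?_)
    rcases Nat.eq_zero_or_pos k with rfl | hk0
    · rw [hs0, zero_mul]
    · have hkn := Finset.mem_range.1 hk
      exact mul_nonneg (hs k) (ih _ (by omega))

/-- `1 / (1 - s)` is supermultiplicative -/
theorem renewal_super {u s : PowerSeries ℝ} (h : u * (1 - s) = 1) (hs0 : coeff 0 s = 0)
    (hs : ∀ n, 0 ≤ coeff n s) (a b : ℕ) : coeff a u * coeff b u ≤ coeff (a + b) u := by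
  have hu := renewal_nonneg h hs0 hs
  induction a using Nat.strong_induction_on with
  | _ a ih =>
    rcases Nat.eq_zero_or_pos a with rfl | ha
    · have h0 : coeff 0 u = 1 := by
        rw [renewal_coeff h 0]
        simp [hs0]
      rw [h0, one_mul, zero_add]
    · rw [renewal_coeff h a, renewal_coeff h (a + b), if_neg (by omega), if_neg (by omega),
        zero_add, zero_add, Finset.sum_mul]
      have h1 : ∀ k ∈ Finset.range (a + 1), coeff k s * coeff (a - k) u * coeff b u ≤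
          coeff k s * coeff (a + b - k) u := by
        intro k hk
        have hka := Finset.mem_range.1 hk
        rw [mul_assoc]
        rcases Nat.eq_zero_or_pos k with rfl | hk0
        · rw [hs0, zero_mul, zero_mul]
        · refine mul_le_mul_of_nonneg_left ?_ (hs k)
          have := ih (a - k) (by omega)
          rwa [show a - k + b = a + b - k by omega] at this
      refine (Finset.sum_le_sum h1).trans ?_
      refine Finset.sum_le_sum_of_subset_of_nonneg ?_ ?_
      · intro k hk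
        rw [Finset.mem_range] at hk ⊢
        omega
      · intro k _ _
        exact mul_nonneg (hs k) (hu _)

/-- it is enough to know the lower bound for `p ≤ e < 2p` -/
theorem low_extend {u : PowerSeries ℝ} {ρ : ℝ} (hρ : 0 ≤ ρ) {p : ℕ} (hp : 1 ≤ p)
    (hsup : ∀ a b, coeff a u * coeff b u ≤ coeff (a + b) u)
    (h : ∀ e, p ≤ e → e < 2 * p → ρ ^ e ≤ coeff e u) : ∀ e, p ≤ e → ρ ^ e ≤ coeff e u := by
  intro e
  induction e using Nat.strong_induction_on with
  | _ e ih =>
    intro he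
    rcases lt_or_ge e (2 * p) with h1 | h1
    · exact h e he h1
    · have h2 := ih (e - p) (by omega) (by omega)
      have h3 := h p le_rfl (by omega)
      have h4 := hsup p (e - p)
      rw [show p + (e - p) = e by omega] at h4
      refine le_trans ?_ h4
      calc ρ ^ e = ρ ^ p * ρ ^ (e - p) := by rw [← pow_add]; congr 1; omega
        _ ≤ coeff p u * coeff (e - p) u :=
          mul_le_mul h3 h2 (pow_nonneg hρ _) ((pow_nonneg hρ _).trans h3)

/-- `u ≥ s` -/
theorem renewal_ge {u s : PowerSeries ℝ} (h : u * (1 - s) = 1) (hs0 : coeff 0 s = 0)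
    (hs : ∀ n, 0 ≤ coeff n s) (n : ℕ) : coeff n s ≤ coeff n u := by
  have hu := renewal_nonneg h hs0 hs
  rcases Nat.eq_zero_or_pos n with rfl | hn
  · rw [hs0]
    exact hu 0
  · have h0 : coeff 0 u = 1 := by
      rw [renewal_coeff h 0]
      simp [hs0]
    rw [renewal_coeff h n, if_neg (by omega), zero_add]
    have h1 := Finset.single_le_sum (f := fun k => coeff k s * coeff (n - k) u)
      (s := Finset.range (n + 1)) (fun k _ => mul_nonneg (hs k) (hu _))
      (Finset.mem_range.2 (Nat.lt_succ_self n))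
    simpa [h0] using h1

/-- the inverse of `1 - s` exists -/
theorem exists_renewal {s : PowerSeries ℝ} (hs0 : coeff 0 s = 0) :
    ∃ u : PowerSeries ℝ, u * (1 - s) = 1 := by
  refine ⟨(1 - s)⁻¹, PowerSeries.inv_mul_cancel _ ?_⟩
  rw [map_sub, map_one, ← coeff_zero_eq_constantCoeff_apply, hs0, sub_zero]
  exact one_ne_zero

/-- growth of `F = g * u` -/
theorem growth_mul {u g : PowerSeries ℝ} {ρ : ℝ} {p : ℕ}
    (hu : ∀ n, 0 ≤ coeff n u) (hsup : ∀ a b, coeff a u * coeff b u ≤ coeff (a + b) u)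
    (hlow : ∀ e, p ≤ e → ρ ^ e ≤ coeff e u) (hg : ∀ n, 0 ≤ coeff n g) {e d : ℕ} (he : p ≤ e)
    (hed : e ≤ d) : ρ ^ e * coeff (d - e) (g * u) ≤ coeff d (g * u) := by
  rw [coeff_mul, coeff_mul, Finset.Nat.sum_antidiagonal_eq_sum_range_succ_mk,
    Finset.Nat.sum_antidiagonal_eq_sum_range_succ_mk, Finset.mul_sum]
  have h1 : ∀ k ∈ Finset.range (d - e + 1), ρ ^ e * (coeff k g * coeff (d - e - k) u) ≤
      coeff k g * coeff (d - k) u := by
    intro k hk
    have hk' := Finset.mem_range.1 hk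
    have h2 : ρ ^ e * coeff (d - e - k) u ≤ coeff (d - k) u := by
      refine (mul_le_mul_of_nonneg_right (hlow e he) (hu _)).trans ?_
      have := hsup e (d - e - k)
      rwa [show e + (d - e - k) = d - k by omega] at this
    calc ρ ^ e * (coeff k g * coeff (d - e - k) u)
        = coeff k g * (ρ ^ e * coeff (d - e - k) u) := by ring
      _ ≤ _ := mul_le_mul_of_nonneg_left h2 (hg k)
  refine (Finset.sum_le_sum h1).trans ?_
  refine Finset.sum_le_sum_of_subset_of_nonneg ?_ ?_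
  · intro k hk
    rw [Finset.mem_range] at hk ⊢
    omega
  · intro k _ _
    exact mul_nonneg (hg k) (hu _)

/-- lower bound for `F = g * u` -/
theorem low_mul {u g : PowerSeries ℝ} {ρ : ℝ} (hρ : 0 ≤ ρ) {p : ℕ} (hu : ∀ n, 0 ≤ coeff n u)
    (hu0 : 1 ≤ coeff 0 u) (hlow : ∀ e, p ≤ e → ρ ^ e ≤ coeff e u) (hg : ∀ n, 0 ≤ coeff n g)
    (hgl : ∀ e, p ≤ e → e < 2 * p → ρ ^ e ≤ coeff e g) (hp : 1 ≤ p) (d : ℕ) (hd : p ≤ d) :
    ρ ^ d ≤ coeff d (g * u) := by
  rw [coeff_mul, Finset.Nat.sum_antidiagonal_eq_sum_range_succ_mk]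
  have hnn : ∀ k ∈ Finset.range (d + 1), 0 ≤ coeff k g * coeff (d - k) u := fun k _ =>
    mul_nonneg (hg k) (hu _)
  rcases lt_or_ge d (2 * p) with h | h
  · have h1 := Finset.single_le_sum (f := fun k => coeff k g * coeff (d - k) u) hnn
      (Finset.mem_range.2 (Nat.lt_succ_self d))
    refine le_trans ?_ h1
    change ρ ^ d ≤ coeff d g * coeff (d - d) u
    rw [Nat.sub_self]
    have h2 := hgl d hd h
    nlinarith [hg d]
  · have h1 := Finset.single_le_sum (f := fun k => coeff k g * coeff (d - k) u) hnn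
      (Finset.mem_range.2 (show p < d + 1 by omega))
    refine le_trans ?_ h1
    change ρ ^ d ≤ coeff p g * coeff (d - p) u
    calc ρ ^ d = ρ ^ p * ρ ^ (d - p) := by rw [← pow_add]; congr 1; omega
      _ ≤ coeff p g * coeff (d - p) u :=
        mul_le_mul (hgl p le_rfl (by omega)) (hlow _ (by omega)) (pow_nonneg hρ _) (hg p)

/-- coefficientwise domination -/
theorem domination {u g c : PowerSeries ℝ} {ρ ε : ℝ} (hρ : 0 < ρ) {p : ℕ}
    (hu : ∀ n, 0 ≤ coeff n u) (hsup : ∀ a b, coeff a u * coeff b u ≤ coeff (a + b) u)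
    (hlow : ∀ e, p ≤ e → ρ ^ e ≤ coeff e u) (hg : ∀ n, 0 ≤ coeff n g)
    (hc : ∀ n, 0 ≤ coeff n c) (hc0 : ∀ n < p, coeff n c = 0)
    (hsum : ∀ N, ∑ e ∈ Finset.range N, coeff e c * (ρ ^ e)⁻¹ ≤ ε) (d : ℕ) :
    coeff d (c * (g * u)) ≤ ε * coeff d (g * u) := by
  have hF : 0 ≤ coeff d (g * u) := by
    rw [coeff_mul]
    exact Finset.sum_nonneg fun x _ => mul_nonneg (hg _) (hu _)
  rw [coeff_mul, Finset.Nat.sum_antidiagonal_eq_sum_range_succ_mk]
  have h1 : ∀ e ∈ Finset.range (d + 1), coeff e c * coeff (d - e) (g * u) ≤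
      coeff e c * (ρ ^ e)⁻¹ * coeff d (g * u) := by
    intro e he
    have he' := Finset.mem_range.1 he
    rcases lt_or_ge e p with hp | hp
    · rw [hc0 e hp]
      simp
    · rw [mul_assoc]
      refine mul_le_mul_of_nonneg_left ?_ (hc e)
      rw [inv_mul_eq_div, le_div_iff₀ (pow_pos hρ e), mul_comm]
      exact growth_mul hu hsup hlow hg hp (by omega)
  refine (Finset.sum_le_sum h1).trans ?_
  rw [← Finset.sum_mul]
  exact mul_le_mul_of_nonneg_right (hsum _) hF

/-- the sum condition from a geometric bound -/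
theorem geom_sum_le {c : PowerSeries ℝ} {C μ ρ : ℝ} (hμ : 0 ≤ μ) (hρ : μ < ρ) (hC : 0 ≤ C) {p : ℕ}
    (hc : ∀ n, coeff n c ≤ C * μ ^ n) (hc0 : ∀ n < p, coeff n c = 0) (N : ℕ) :
    ∑ e ∈ Finset.range N, coeff e c * (ρ ^ e)⁻¹ ≤ C * (μ / ρ) ^ p / (1 - μ / ρ) := by
  have hρ0 : 0 < ρ := hμ.trans_lt hρ
  have hq0 : 0 ≤ μ / ρ := div_nonneg hμ hρ0.le
  have hq1 : μ / ρ < 1 := (div_lt_one hρ0).2 hρ
  have h1 : ∀ e ∈ Finset.range N, coeff e c * (ρ ^ e)⁻¹ ≤
      if p ≤ e then C * (μ / ρ) ^ e else 0 := by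
    intro e _
    split_ifs with h
    · rw [div_pow, mul_div_assoc', div_eq_mul_inv]
      exact mul_le_mul_of_nonneg_right (hc e) (by positivity)
    · rw [hc0 e (not_le.1 h), zero_mul]
  refine (Finset.sum_le_sum h1).trans ?_
  rw [← Finset.sum_filter]
  have h2 : ∑ e ∈ (Finset.range N).filter (fun e => p ≤ e), C * (μ / ρ) ^ e ≤
      ∑ m ∈ Finset.range N, C * (μ / ρ) ^ (p + m) := by
    have hinj : Set.InjOn (fun m => p + m) (Finset.range N : Set ℕ) := fun a _ b _ h =>
      Nat.add_left_cancel h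
    have h3 := Finset.sum_image (s := Finset.range N) (g := fun m => p + m)
      (f := fun e => C * (μ / ρ) ^ e) hinj
    rw [← h3]
    refine Finset.sum_le_sum_of_subset_of_nonneg ?_ ?_
    · intro e he
      rw [Finset.mem_filter, Finset.mem_range] at he
      rw [Finset.mem_image]
      exact ⟨e - p, Finset.mem_range.2 (by omega), by omega⟩
    · intro e _ _
      positivity
  refine h2.trans ?_
  have h4 : ∑ m ∈ Finset.range N, C * (μ / ρ) ^ (p + m)
      = C * (μ / ρ) ^ p * ∑ m ∈ Finset.range N, (μ / ρ) ^ m := by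
    rw [Finset.mul_sum]
    refine Finset.sum_congr rfl fun m _ => ?_
    rw [pow_add]
    ring
  rw [h4, div_eq_mul_inv]
  refine mul_le_mul_of_nonneg_left ?_ (by positivity)
  have h5 : ∑ m ∈ Finset.range N, (μ / ρ) ^ m * (1 - μ / ρ) ≤ 1 := by
    rw [← Finset.sum_mul, mul_comm, mul_neg_geom_sum]
    have : 0 ≤ (μ / ρ) ^ N := by positivity
    linarith
  rw [← Finset.sum_mul] at h5
  have h6 : 0 < 1 - μ / ρ := by linarith
  calc ∑ m ∈ Finset.range N, (μ / ρ) ^ m
      = (∑ m ∈ Finset.range N, (μ / ρ) ^ m) * (1 - μ / ρ) * (1 - μ / ρ)⁻¹ := by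
        rw [mul_assoc, mul_inv_cancel₀ h6.ne', mul_one]
    _ ≤ 1 * (1 - μ / ρ)⁻¹ := mul_le_mul_of_nonneg_right h5 (by positivity)
    _ = (1 - μ / ρ)⁻¹ := one_mul _

end Pool.Agent.SSE
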