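import Pool.Agent.SSE.E1a

/-!
# SSE-E1 : the weighted norms of matrices and group elements

`nu_mul_le`: `gh - 1 = (g-1) + (h-1) + (g-1)(h-1)`. `nu_inv_le`: `h = g⁻¹`: `h - 1 = -(g-1) - (g-1)(h-1)`, so
`nu h ≤ nu g + nu g * nu h`.
`nu_sclG_close`: `g^s (g^s')⁻¹ - 1 = (g^s - g^s') (g⁻¹)^s'`, `mn` of the first factor `≤ L |s - s'|`, of the second `≤ mn r g⁻¹`.
-/

set_option autoImplicit false

namespace Pool.Agent.SSE

open Polynomial Matrix

section mat
variable {r : ℝ} {J : Type} [Fintype J] [DecidableEq J]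

theorem mn_nonneg (hr : 0 ≤ r) (M : Matrix J J ℝ[X]) : 0 ≤ mn r M := by
  unfold mn
  exact Finset.sum_nonneg fun i _ => Finset.sum_nonneg fun j _ => wn_nonneg hr _

theorem mn_add_le (hr : 0 ≤ r) (M M' : Matrix J J ℝ[X]) : mn r (M + M') ≤ mn r M + mn r M' := by
  unfold mn
  rw [← Finset.sum_add_distrib]
  refine Finset.sum_le_sum fun i _ => ?_
  rw [← Finset.sum_add_distrib]
  refine Finset.sum_le_sum fun j _ => ?_
  rw [Matrix.add_apply]
  exact wn_add_le hr _ _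

theorem mn_neg (M : Matrix J J ℝ[X]) : mn r (-M) = mn r M := by
  unfold mn
  simp only [Matrix.neg_apply, wn_neg]

theorem entry_le_mn (hr : 0 ≤ r) (M : Matrix J J ℝ[X]) (i j : J) : wn r (M i j) ≤ mn r M := by
  unfold mn
  calc wn r (M i j) ≤ ∑ j', wn r (M i j') :=
        Finset.single_le_sum (f := fun j' => wn r (M i j')) (fun j' _ => wn_nonneg hr _)
          (Finset.mem_univ j)
    _ ≤ ∑ i', ∑ j', wn r (M i' j') :=
        Finset.single_le_sum (f := fun i' => ∑ j', wn r (M i' j'))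
          (fun i' _ => Finset.sum_nonneg fun j' _ => wn_nonneg hr _) (Finset.mem_univ i)

theorem mn_mul_le (hr : 0 ≤ r) (M M' : Matrix J J ℝ[X]) : mn r (M * M') ≤ mn r M * mn r M' := by
  have key : ∀ i j, wn r ((M * M') i j) ≤ ∑ k, wn r (M i k) * wn r (M' k j) := by
    intro i j
    rw [Matrix.mul_apply]
    refine (wn_sum_le hr _ _).trans (Finset.sum_le_sum fun k _ => wn_mul_le hr _ _)
  have h1 : mn r (M * M') ≤ ∑ i, ∑ k, wn r (M i k) * ∑ j, wn r (M' k j) := by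
    unfold mn
    refine Finset.sum_le_sum fun i _ => ?_
    calc ∑ j, wn r ((M * M') i j) ≤ ∑ j, ∑ k, wn r (M i k) * wn r (M' k j) :=
          Finset.sum_le_sum fun j _ => key i j
      _ = ∑ k, ∑ j, wn r (M i k) * wn r (M' k j) := Finset.sum_comm
      _ = ∑ k, wn r (M i k) * ∑ j, wn r (M' k j) := by
          refine Finset.sum_congr rfl fun k _ => ?_
          rw [Finset.mul_sum]
  refine h1.trans ?_
  have h2 : ∀ k, (∑ j, wn r (M' k j)) ≤ mn r M' := by
    intro k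
    unfold mn
    exact Finset.single_le_sum (f := fun i' => ∑ j', wn r (M' i' j'))
          (fun i' _ => Finset.sum_nonneg fun j' _ => wn_nonneg hr _) (Finset.mem_univ k)
  calc ∑ i, ∑ k, wn r (M i k) * ∑ j, wn r (M' k j)
      ≤ ∑ i, ∑ k, wn r (M i k) * mn r M' :=
        Finset.sum_le_sum fun i _ => Finset.sum_le_sum fun k _ =>
          mul_le_mul_of_nonneg_left (h2 k) (wn_nonneg hr _)
    _ = mn r M * mn r M' := by
        unfold mn
        rw [Finset.sum_mul]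
        refine Finset.sum_congr rfl fun i _ => ?_
        rw [Finset.sum_mul]

theorem nu_nonneg (hr : 0 ≤ r) (g : SpecialLinearGroup J ℝ[X]) : 0 ≤ nu r g :=
  mn_nonneg hr _

theorem nu_one : nu r (1 : SpecialLinearGroup J ℝ[X]) = 0 := by
  have e : ((1 : SpecialLinearGroup J ℝ[X]) : Matrix J J ℝ[X]) = 1 := rfl
  unfold nu mn
  rw [e]
  simp only [sub_self, Matrix.zero_apply, wn_zero, Finset.sum_const_zero]

theorem nu_mul_le (hr : 0 ≤ r) (g h : SpecialLinearGroup J ℝ[X]) :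
    nu r (g * h) ≤ nu r g + nu r h + nu r g * nu r h := by
  unfold nu
  have e : ((g * h : SpecialLinearGroup J ℝ[X]) : Matrix J J ℝ[X]) - 1 =
      ((g : Matrix J J ℝ[X]) - 1) + ((h : Matrix J J ℝ[X]) - 1) +
        ((g : Matrix J J ℝ[X]) - 1) * ((h : Matrix J J ℝ[X]) - 1) := by
    have e0 : ((g * h : SpecialLinearGroup J ℝ[X]) : Matrix J J ℝ[X]) =
        (g : Matrix J J ℝ[X]) * (h : Matrix J J ℝ[X]) := rfl
    rw [e0, Matrix.sub_mul, Matrix.mul_sub, Matrix.mul_sub]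
    simp only [Matrix.mul_one, Matrix.one_mul]
    abel
  rw [e]
  refine (mn_add_le hr _ _).trans ?_
  exact add_le_add (mn_add_le hr _ _) (mn_mul_le hr _ _)

theorem nu_inv_le (hr : 0 ≤ r) {g : SpecialLinearGroup J ℝ[X]} (h : nu r g ≤ 1 / 2) :
    nu r g⁻¹ ≤ 2 * nu r g := by
  have e : ((g⁻¹ : SpecialLinearGroup J ℝ[X]) : Matrix J J ℝ[X]) - 1 =
      -((g : Matrix J J ℝ[X]) - 1) +
        -(((g : Matrix J J ℝ[X]) - 1) *
          (((g⁻¹ : SpecialLinearGroup J ℝ[X]) : Matrix J J ℝ[X]) - 1)) := by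
    have e1 : (g : Matrix J J ℝ[X]) * ((g⁻¹ : SpecialLinearGroup J ℝ[X]) : Matrix J J ℝ[X]) = 1 := by
      have e0 : ((g * g⁻¹ : SpecialLinearGroup J ℝ[X]) : Matrix J J ℝ[X]) =
        (g : Matrix J J ℝ[X]) * ((g⁻¹ : SpecialLinearGroup J ℝ[X]) : Matrix J J ℝ[X]) := rfl
      rw [← e0, mul_inv_cancel]
      rfl
    rw [Matrix.sub_mul, Matrix.mul_sub, e1]
    simp only [Matrix.mul_one, Matrix.one_mul]
    abel
  have h1 : nu r g⁻¹ ≤ nu r g + nu r g * nu r g⁻¹ := by
    conv_lhs => unfold nu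
    rw [e]
    refine (mn_add_le hr _ _).trans ?_
    rw [mn_neg, mn_neg]
    exact add_le_add le_rfl (mn_mul_le hr _ _)
  have h2 := nu_nonneg hr g⁻¹
  have h3 : nu r g * nu r g⁻¹ ≤ 1 / 2 * nu r g⁻¹ := mul_le_mul_of_nonneg_right h h2
  linarith

theorem nz_nonneg (hr : 0 ≤ r) (g : SpecialLinearGroup J ℤ[X]) : 0 ≤ nz r g :=
  nu_nonneg hr _

theorem nz_one : nz r (1 : SpecialLinearGroup J ℤ[X]) = 0 := by
  unfold nz
  rw [map_one, nu_one]

theorem nz_mul_le (hr : 0 ≤ r) (g h : SpecialLinearGroup J ℤ[X]) :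
    nz r (g * h) ≤ nz r g + nz r h + nz r g * nz r h := by
  unfold nz
  rw [map_mul]
  exact nu_mul_le hr _ _

theorem nz_inv_le (hr : 0 ≤ r) {g : SpecialLinearGroup J ℤ[X]} (h : nz r g ≤ 1 / 2) :
    nz r g⁻¹ ≤ 2 * nz r g := by
  unfold nz at h ⊢
  rw [map_inv]
  exact nu_inv_le hr h

theorem nz_transvection {i j : J} (h : i ≠ j) (q : ℤ[X]) :
    nz r (SpecialLinearGroup.transvection h q) = wn r (toR q) := by
  have e : ∀ a b : J, wn r ((((toRG (SpecialLinearGroup.transvection h q) :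
      SpecialLinearGroup J ℝ[X]) : Matrix J J ℝ[X]) - 1) a b) =
      if a = i ∧ b = j then wn r (toR q) else 0 := by
    intro a b
    have e1 : (((toRG (SpecialLinearGroup.transvection h q) :
        SpecialLinearGroup J ℝ[X]) : Matrix J J ℝ[X]) - 1) a b =
        if a = i ∧ b = j then toR q else 0 := by
      have a1 : (((toRG (SpecialLinearGroup.transvection h q) :
        SpecialLinearGroup J ℝ[X]) : Matrix J J ℝ[X]) - 1) a b =
          toR (((1 : Matrix J J ℤ[X]) + Matrix.single i j q) a b) -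
            (1 : Matrix J J ℝ[X]) a b := rfl
      have a2 : toR ((1 : Matrix J J ℤ[X]) a b) = (1 : Matrix J J ℝ[X]) a b := by
        rw [Matrix.one_apply, Matrix.one_apply]
        split_ifs
        · rw [map_one]
        · rw [map_zero]
      rw [a1, Matrix.add_apply, map_add, a2, add_sub_cancel_left, Matrix.single_apply]
      by_cases hab : a = i ∧ b = j
      · rw [if_pos hab, if_pos ⟨hab.1.symm, hab.2.symm⟩]
      · rw [if_neg hab, if_neg (fun hh => hab ⟨hh.1.symm, hh.2.symm⟩), map_zero]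
    rw [e1]
    split_ifs with hab
    · rfl
    · exact wn_zero
  unfold nz nu mn
  simp only [e]
  rw [Finset.sum_eq_single i]
  · rw [Finset.sum_eq_single j]
    · simp
    · intro b _ hb
      rw [if_neg]
      exact fun hh => hb hh.2
    · intro hh
      exact absurd (Finset.mem_univ _) hh
  · intro a _ ha
    refine Finset.sum_eq_zero fun b _ => ?_
    rw [if_neg]
    exact fun hh => ha hh.1
  · intro hh
    exact absurd (Finset.mem_univ _) hh

theorem nu_sclG_le (hr : 0 ≤ r) {s : ℝ} (h0 : 0 ≤ s) (h1 : s ≤ 1)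
    (g : SpecialLinearGroup J ℝ[X]) : nu r (sclG s g) ≤ nu r g := by
  unfold nu mn
  refine Finset.sum_le_sum fun i _ => Finset.sum_le_sum fun j _ => ?_
  have e : (((sclG s g : SpecialLinearGroup J ℝ[X]) : Matrix J J ℝ[X]) - 1) i j =
      scl s (((g : Matrix J J ℝ[X]) - 1) i j) := by
    have e2 : scl s ((1 : Matrix J J ℝ[X]) i j) = (1 : Matrix J J ℝ[X]) i j := by
      rw [Matrix.one_apply]
      split_ifs
      · rw [map_one]
      · rw [map_zero]
    rw [Matrix.sub_apply, Matrix.sub_apply, map_sub, e2]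
    rfl
  rw [e]
  exact wn_scl_le hr h0 h1 _

/-- uniform continuity of `s ↦ g(st)` in the group sense -/
theorem nu_sclG_close (hr : 0 ≤ r) (g : SpecialLinearGroup J ℝ[X]) {η : ℝ} (hη : 0 < η) :
    ∃ κ : ℝ, 0 < κ ∧ ∀ s s' : ℝ, 0 ≤ s → s ≤ 1 → 0 ≤ s' → s' ≤ 1 → |s - s'| ≤ κ →
      nu r (sclG s g * (sclG s' g)⁻¹) ≤ η := by
  classical
  choose L hL0 hL using fun i j : J => wn_scl_sub_le hr ((g : Matrix J J ℝ[X]) i j)
  set T : ℝ := ∑ i, ∑ j, L i j with hT
  have hT0 : 0 ≤ T := Finset.sum_nonneg fun i _ => Finset.sum_nonneg fun j _ => hL0 i j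
  set K : ℝ := mn r ((g⁻¹ : SpecialLinearGroup J ℝ[X]) : Matrix J J ℝ[X]) with hK
  have hK0 : 0 ≤ K := mn_nonneg hr _
  refine ⟨η / (T * K + 1), by positivity, ?_⟩
  intro s s' h0 h1 h0' h1' hss
  have e : (((sclG s g * (sclG s' g)⁻¹ : SpecialLinearGroup J ℝ[X])) : Matrix J J ℝ[X]) - 1 =
      (((sclG s g : SpecialLinearGroup J ℝ[X]) : Matrix J J ℝ[X]) -
        ((sclG s' g : SpecialLinearGroup J ℝ[X]) : Matrix J J ℝ[X])) *
        ((sclG s' g⁻¹ : SpecialLinearGroup J ℝ[X]) : Matrix J J ℝ[X]) := by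
    have a1 : ((sclG s g * sclG s' g⁻¹ : SpecialLinearGroup J ℝ[X]) : Matrix J J ℝ[X]) =
        ((sclG s g : SpecialLinearGroup J ℝ[X]) : Matrix J J ℝ[X]) *
        ((sclG s' g⁻¹ : SpecialLinearGroup J ℝ[X]) : Matrix J J ℝ[X]) := rfl
    have a2 : ((sclG s' g * sclG s' g⁻¹ : SpecialLinearGroup J ℝ[X]) : Matrix J J ℝ[X]) =
        ((sclG s' g : SpecialLinearGroup J ℝ[X]) : Matrix J J ℝ[X]) *
        ((sclG s' g⁻¹ : SpecialLinearGroup J ℝ[X]) : Matrix J J ℝ[X]) := rfl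
    have a3 : ((1 : SpecialLinearGroup J ℝ[X]) : Matrix J J ℝ[X]) = 1 := rfl
    rw [Matrix.sub_mul, ← a1, ← a2, map_inv, mul_inv_cancel, a3]
  have hA : mn r (((sclG s g : SpecialLinearGroup J ℝ[X]) : Matrix J J ℝ[X]) -
        ((sclG s' g : SpecialLinearGroup J ℝ[X]) : Matrix J J ℝ[X])) ≤ T * |s - s'| := by
    rw [hT, Finset.sum_mul]
    unfold mn
    refine Finset.sum_le_sum fun i _ => ?_
    rw [Finset.sum_mul]
    refine Finset.sum_le_sum fun j _ => ?_
    exact hL i j s s' h0 h1 h0' h1'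
  have hB : mn r ((sclG s' g⁻¹ : SpecialLinearGroup J ℝ[X]) : Matrix J J ℝ[X]) ≤ K := by
    rw [hK]
    unfold mn
    refine Finset.sum_le_sum fun i _ => Finset.sum_le_sum fun j _ => ?_
    exact wn_scl_le hr h0' h1' _
  unfold nu
  rw [e]
  refine (mn_mul_le hr _ _).trans ?_
  have h2 : T * |s - s'| * K ≤ T * (η / (T * K + 1)) * K := by
    gcongr
  have h3 : T * (η / (T * K + 1)) * K ≤ η := by
    have : T * (η / (T * K + 1)) * K = η * (T * K / (T * K + 1)) := by ring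
    rw [this]
    have h4 : T * K / (T * K + 1) ≤ 1 := by
      rw [div_le_one (by positivity)]
      linarith
    calc η * (T * K / (T * K + 1)) ≤ η * 1 := by gcongr
      _ = η := mul_one _
  have h5 : mn r (((sclG s g : SpecialLinearGroup J ℝ[X]) : Matrix J J ℝ[X]) -
        ((sclG s' g : SpecialLinearGroup J ℝ[X]) : Matrix J J ℝ[X])) *
        mn r ((sclG s' g⁻¹ : SpecialLinearGroup J ℝ[X]) : Matrix J J ℝ[X]) ≤
        (T * |s - s'|) * K :=
    mul_le_mul hA hB (mn_nonneg hr _) (mul_nonneg hT0 (abs_nonneg _))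
  exact h5.trans (h2.trans h3)

end mat

end Pool.Agent.SSE
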