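import Pool.Agent.SSE.E1

/-!
# SSE-E2 : calculus of paths

`conn_poly`: induction on `∑ |coeff|` (natural number `natAbs`), adding one monomial `± t^d` at a time, always with the sign of the
coefficient, so all partial sums have norm `≤ wn`.
-/

set_option autoImplicit false

namespace Pool.Agent.SSE

open Polynomial Matrix

variable {r : ℝ} {J : Type} [Fintype J] [DecidableEq J]

theorem Conn.mono {A B : Set (SpecialLinearGroup J ℤ[X])} {ρ ρ' : ℝ}
    {g g' : SpecialLinearGroup J ℤ[X]} (hAB : A ⊆ B) (hρ : ρ ≤ ρ') (h : Conn A r ρ g g') :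
    Conn B r ρ' g g' := by
  induction h with
  | refl => exact Relation.ReflTransGen.refl
  | tail _ hs ih =>
    obtain ⟨⟨x, hx, e⟩, h1, h2⟩ := hs
    exact ih.tail ⟨⟨x, hAB hx, e⟩, h1.trans hρ, h2.trans hρ⟩

theorem Conn.refl (A : Set (SpecialLinearGroup J ℤ[X])) (r ρ : ℝ) (g : SpecialLinearGroup J ℤ[X]) :
    Conn A r ρ g g := Relation.ReflTransGen.refl

theorem Conn.trans {A : Set (SpecialLinearGroup J ℤ[X])} {ρ : ℝ}
    {g g' g'' : SpecialLinearGroup J ℤ[X]} (h : Conn A r ρ g g') (h' : Conn A r ρ g' g'') :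
    Conn A r ρ g g'' := Relation.ReflTransGen.trans h h'

private theorem E2_inv {i j : J} (h : i ≠ j) (d : ℕ) (c : ℤ) :
    (SpecialLinearGroup.transvection h (monomial d c : ℤ[X]))⁻¹ =
      SpecialLinearGroup.transvection h (monomial d (-c)) := by
  rw [SpecialLinearGroup.transvection_inv, ← map_neg]

theorem AAll_inv {N : ℕ} {x : SpecialLinearGroup J ℤ[X]} (h : x ∈ AAll J N) : x⁻¹ ∈ AAll J N := by
  obtain ⟨i, j, hij, d, c, hd, hc, rfl⟩ := h
  refine ⟨i, j, hij, d, -c, hd, ?_, E2_inv hij d c⟩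
  rcases hc with rfl | rfl
  · right; rfl
  · left; rfl

theorem ALow_inv {p : J} {M : ℕ} {x : SpecialLinearGroup J ℤ[X]} (h : x ∈ ALow p M) :
    x⁻¹ ∈ ALow p M := by
  obtain ⟨i, j, hij, d, c, hi, hj, hd, hc, rfl⟩ := h
  refine ⟨i, j, hij, d, -c, hi, hj, hd, ?_, E2_inv hij d c⟩
  rcases hc with rfl | rfl
  · right; rfl
  · left; rfl

theorem ALow_sub {p : J} {M N : ℕ} (h : N ≤ M) : ALow p M ⊆ AAll J N := by
  rintro x ⟨i, j, hij, d, c, hi, hj, hd, hc, e⟩
  exact ⟨i, j, hij, d, c, h.trans hd, hc, e⟩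

theorem ALow_mono {p : J} {M N : ℕ} (h : N ≤ M) : ALow p M ⊆ ALow p N := by
  rintro x ⟨i, j, hij, d, c, hi, hj, hd, hc, e⟩
  exact ⟨i, j, hij, d, c, hi, hj, h.trans hd, hc, e⟩

theorem Conn.symm {A : Set (SpecialLinearGroup J ℤ[X])} (hA : ∀ x ∈ A, x⁻¹ ∈ A) {ρ : ℝ}
    {g g' : SpecialLinearGroup J ℤ[X]} (h : Conn A r ρ g g') : Conn A r ρ g' g := by
  induction h with
  | refl => exact Relation.ReflTransGen.refl
  | tail _ hs ih =>
    obtain ⟨⟨x, hx, e⟩, h1, h2⟩ := hs
    refine Relation.ReflTransGen.head ⟨⟨x⁻¹, hA x hx, ?_⟩, h2, h1⟩ ih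
    rw [e, inv_mul_cancel_left]

/-- multiply a path on the right -/
theorem Conn.mul_right {A : Set (SpecialLinearGroup J ℤ[X])} (hr : 0 ≤ r) {ρ η : ℝ}
    {g g' h : SpecialLinearGroup J ℤ[X]} (hc : Conn A r ρ g g') (hη : nz r h ≤ η) (hρ0 : 0 ≤ ρ)
    (hη0 : 0 ≤ η) : Conn A r (ρ + η + ρ * η) (g * h) (g' * h) := by
  have key : ∀ p : SpecialLinearGroup J ℤ[X], nz r p ≤ ρ → nz r (p * h) ≤ ρ + η + ρ * η := by
    intro p hp
    refine (nz_mul_le hr p h).trans ?_
    exact add_le_add (add_le_add hp hη) (mul_le_mul hp hη (nz_nonneg hr h) hρ0)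
  induction hc with
  | refl => exact Relation.ReflTransGen.refl
  | tail _ hs ih =>
    obtain ⟨⟨x, hx, e⟩, h1, h2⟩ := hs
    refine ih.tail ⟨⟨x, hx, ?_⟩, key _ h1, key _ h2⟩
    rw [e, mul_assoc]

/-- the end of a path which is not trivial is in the ball -/
theorem Conn.end_le {A : Set (SpecialLinearGroup J ℤ[X])} {ρ : ℝ}
    {g g' : SpecialLinearGroup J ℤ[X]} (hc : Conn A r ρ g g') (hg : nz r g ≤ ρ) :
    nz r g' ≤ ρ := by
  rcases Relation.ReflTransGen.cases_tail hc with h | ⟨c, -, hc2⟩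
  · rw [h]; exact hg
  · exact hc2.2.2

theorem Conn.end_mem {p : J} {M : ℕ} {ρ : ℝ} {g g' : SpecialLinearGroup J ℤ[X]}
    (hc : Conn (ALow p M) r ρ g g') (hg : g ∈ FLow p M) : g' ∈ FLow p M := by
  induction hc with
  | refl => exact hg
  | tail _ hs ih =>
    obtain ⟨⟨x, hx, e⟩, -, -⟩ := hs
    rw [e]
    exact mul_mem (Subgroup.subset_closure hx) ih

private theorem E2_toR_coeff (q : ℤ[X]) (k : ℕ) : (toR q).coeff k = (q.coeff k : ℝ) := by
  unfold toR
  rw [Polynomial.coe_mapRingHom, Polynomial.coeff_map]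
  rfl

private theorem E2_wn (q : ℤ[X]) {s : Finset ℕ} (h : q.support ⊆ s) :
    wn r (toR q) = ∑ k ∈ s, |(q.coeff k : ℝ)| * r ^ k := by
  have hs : (toR q).support ⊆ s := by
    intro k hk
    refine h ?_
    rw [Polynomial.mem_support_iff] at hk ⊢
    intro h0
    apply hk
    rw [E2_toR_coeff, h0, Int.cast_zero]
  rw [wn_eq hs]
  refine Finset.sum_congr rfl fun k _ => ?_
  rw [E2_toR_coeff]

private theorem E2_step (c : ℤ) (hc : c ≠ 0) :
    ∃ e : ℤ, (e = 1 ∨ e = -1) ∧ (c - e).natAbs + 1 = c.natAbs ∧ |(c - e)| ≤ |c| := by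
  rcases lt_or_gt_of_ne hc with h | h
  · refine ⟨-1, Or.inr rfl, by omega, ?_⟩
    rw [abs_of_nonpos (by omega : c - -1 ≤ 0), abs_of_neg h]
    omega
  · refine ⟨1, Or.inl rfl, by omega, ?_⟩
    rw [abs_of_nonneg (by omega : 0 ≤ c - 1), abs_of_pos h]
    omega

private theorem E2_poly (hr : 0 ≤ r) {N : ℕ} {i j : J} (h : i ≠ j) (s : Finset ℕ) :
    ∀ (n : ℕ) (q : ℤ[X]), q.support ⊆ s → (∀ d < N, q.coeff d = 0) →
      ∑ k ∈ s, (q.coeff k).natAbs = n →
      Conn (AAll J N) r (wn r (toR q)) 1 (SpecialLinearGroup.transvection h q) := by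
  intro n
  induction n with
  | zero =>
    intro q hs _ h0
    have hq : q = 0 := by
      ext k
      rw [Polynomial.coeff_zero]
      by_contra hk
      have hks : k ∈ s := hs (Polynomial.mem_support_iff.2 hk)
      have := (Finset.sum_eq_zero_iff_of_nonneg (fun k _ => Nat.zero_le _)).1 h0 k hks
      exact hk (Int.natAbs_eq_zero.1 this)
    subst hq
    rw [SpecialLinearGroup.transvection_coeff_zero]
    exact Conn.refl _ _ _ _
  | succ n ih =>
    intro q hs hN hn
    obtain ⟨d, hds, hd⟩ : ∃ d ∈ s, (q.coeff d).natAbs ≠ 0 := by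
      by_contra hcon
      push Not at hcon
      rw [Finset.sum_eq_zero hcon] at hn
      omega
    have hd' : q.coeff d ≠ 0 := fun h0 => hd (by rw [h0]; rfl)
    obtain ⟨e, he, h1, h2⟩ := E2_step _ hd'
    have hNd : N ≤ d := by
      by_contra hlt
      exact hd' (hN d (by omega))
    set q' : ℤ[X] := q - monomial d e with hq'
    have hco : ∀ k, q'.coeff k = if k = d then q.coeff d - e else q.coeff k := by
      intro k
      rw [hq', Polynomial.coeff_sub, Polynomial.coeff_monomial]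
      by_cases hk : k = d
      · subst hk
        rw [if_pos rfl, if_pos rfl]
      · rw [if_neg hk, if_neg (fun hh => hk hh.symm), sub_zero]
    have hs' : q'.support ⊆ s := by
      intro k hk
      by_cases hkd : k = d
      · rw [hkd]; exact hds
      · refine hs ?_
        rw [Polynomial.mem_support_iff] at hk ⊢
        rwa [hco, if_neg hkd] at hk
    have hN' : ∀ k < N, q'.coeff k = 0 := by
      intro k hk
      rw [hco, if_neg (by omega)]
      exact hN k hk
    have hn' : ∑ k ∈ s, (q'.coeff k).natAbs = n := by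
      have e1 := Finset.add_sum_erase s (fun k => (q'.coeff k).natAbs) hds
      have e2 := Finset.add_sum_erase s (fun k => (q.coeff k).natAbs) hds
      have e3 : ∑ k ∈ s.erase d, (q'.coeff k).natAbs = ∑ k ∈ s.erase d, (q.coeff k).natAbs := by
        refine Finset.sum_congr rfl fun k hk => ?_
        rw [hco, if_neg (Finset.ne_of_mem_erase hk)]
      have e4 : q'.coeff d = q.coeff d - e := by rw [hco, if_pos rfl]
      rw [e3, e4] at e1
      omega
    have hw : wn r (toR q') ≤ wn r (toR q) := by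
      rw [E2_wn q' hs', E2_wn q hs]
      refine Finset.sum_le_sum fun k _ => ?_
      refine mul_le_mul_of_nonneg_right ?_ (pow_nonneg hr k)
      rw [hco]
      split_ifs with hk
      · subst hk
        exact_mod_cast h2
      · exact le_rfl
    have hc' := (ih q' hs' hN' hn').mono (le_refl _) hw
    refine hc'.trans (Relation.ReflTransGen.single ⟨⟨_, ⟨i, j, h, d, e, hNd, he, rfl⟩, ?_⟩, ?_, ?_⟩)
    · rw [← SpecialLinearGroup.transvection_add]
      congr 1
      rw [hq']
      abel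
    · rw [nz_transvection]; exact hw
    · rw [nz_transvection]

/-- a transvection with a polynomial entry divisible by `t^N` is joined to `1` -/
theorem conn_poly (hr : 0 ≤ r) {N : ℕ} {i j : J} (h : i ≠ j) (q : ℤ[X])
    (hq : ∀ d < N, q.coeff d = 0) :
    Conn (AAll J N) r (wn r (toR q)) 1 (SpecialLinearGroup.transvection h q) :=
  E2_poly hr h q.support _ q (Finset.Subset.refl _) hq rfl

end Pool.Agent.SSE
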