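import Pool.Agent.SSE.E1a

/-!
# SSE-ELO : the conditions `Lo` are stable under products, inverses and scaling

`dg` for products: `(gh)_ii - 1 = (g_ii - 1) h_ii + (h_ii - 1) + ∑_{l ≠ i} g_il h_li`, `X^M ∣ g_il`, `X^M ∣ h_li`, so `X^(2M)` divides everything
(the condition `∀ d < M, f.coeff d = 0` is `X^M ∣ f`, `Polynomial.X_pow_dvd_iff`). Inverses: `h = g⁻¹`, `h - 1 = -(g-1) h` first gives `lo`, `row`, `col`
(for `col` use `h (g - 1) = -(h-1)`-type identities), then `dg`.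
-/

set_option autoImplicit false

namespace Pool.Agent.SSE

open Polynomial Matrix

variable {r : ℝ} {J : Type} [Fintype J] [DecidableEq J]

/-- the conditions on `A = h - 1` -/
def ELoA (p : J) (M : ℕ) (A : Matrix J J ℝ[X]) : Prop :=
  (∀ i j, X ^ M ∣ A i j) ∧ (∀ i, X ^ (2 * M) ∣ A i i) ∧ (∀ j, A p j = 0) ∧ (∀ i, A i p = 0)

theorem ELo_iff {p : J} {M : ℕ} {h : Matrix J J ℝ[X]} : Lo p M h ↔ ELoA p M (h - 1) := by
  constructor
  · intro H
    refine ⟨fun i j => ?_, fun i => ?_, fun j => ?_, fun i => ?_⟩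
    · rw [Polynomial.X_pow_dvd_iff, Matrix.sub_apply]
      exact H.lo i j
    · rw [Polynomial.X_pow_dvd_iff, Matrix.sub_apply, Matrix.one_apply_eq]
      exact H.dg i
    · rw [Matrix.sub_apply, H.row j, sub_self]
    · rw [Matrix.sub_apply, H.col i, sub_self]
  · rintro ⟨h1, h2, h3, h4⟩
    refine ⟨fun i j => ?_, fun i => ?_, fun j => ?_, fun i => ?_⟩
    · have := h1 i j
      rw [Polynomial.X_pow_dvd_iff, Matrix.sub_apply] at this
      exact this
    · have := h2 i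
      rw [Polynomial.X_pow_dvd_iff, Matrix.sub_apply, Matrix.one_apply_eq] at this
      exact this
    · have := h3 j
      rw [Matrix.sub_apply, sub_eq_zero] at this
      exact this
    · have := h4 i
      rw [Matrix.sub_apply, sub_eq_zero] at this
      exact this

theorem ELoA_zero {p : J} {M : ℕ} : ELoA p M (0 : Matrix J J ℝ[X]) :=
  ⟨fun _ _ => dvd_zero _, fun _ => dvd_zero _, fun _ => rfl, fun _ => rfl⟩

theorem ELoA_add {p : J} {M : ℕ} {A B : Matrix J J ℝ[X]} (hA : ELoA p M A) (hB : ELoA p M B) :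
    ELoA p M (A + B) := by
  obtain ⟨a1, a2, a3, a4⟩ := hA
  obtain ⟨b1, b2, b3, b4⟩ := hB
  refine ⟨fun i j => dvd_add (a1 i j) (b1 i j), fun i => dvd_add (a2 i) (b2 i), fun j => ?_,
    fun i => ?_⟩
  · rw [Matrix.add_apply, a3, b3, add_zero]
  · rw [Matrix.add_apply, a4, b4, add_zero]

theorem ELoA_neg {p : J} {M : ℕ} {A : Matrix J J ℝ[X]} (hA : ELoA p M A) : ELoA p M (-A) := by
  obtain ⟨a1, a2, a3, a4⟩ := hA
  refine ⟨fun i j => (dvd_neg.mpr (a1 i j)), fun i => (dvd_neg.mpr (a2 i)), fun j => ?_,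
    fun i => ?_⟩
  · rw [Matrix.neg_apply, a3, neg_zero]
  · rw [Matrix.neg_apply, a4, neg_zero]

/-- the product of two matrices divisible by `X ^ M` is divisible by `X ^ (2 M)` -/
theorem ELoA_dvd_mul {M : ℕ} {A B : Matrix J J ℝ[X]} (hA : ∀ i j, X ^ M ∣ A i j)
    (hB : ∀ i j, X ^ M ∣ B i j) (i j : J) : X ^ (2 * M) ∣ (A * B) i j := by
  rw [Matrix.mul_apply]
  refine Finset.dvd_sum fun l _ => ?_
  rw [two_mul, pow_add]
  exact mul_dvd_mul (hA i l) (hB l j)

theorem ELoA_mul {p : J} {M : ℕ} {A B : Matrix J J ℝ[X]} (hA : ELoA p M A) (hB : ELoA p M B) :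
    ELoA p M (A * B) := by
  obtain ⟨a1, a2, a3, a4⟩ := hA
  obtain ⟨b1, b2, b3, b4⟩ := hB
  refine ⟨fun i j => ?_, fun i => ELoA_dvd_mul a1 b1 i i, fun j => ?_, fun i => ?_⟩
  · exact (pow_dvd_pow X (by omega)).trans (ELoA_dvd_mul a1 b1 i j)
  · rw [Matrix.mul_apply]
    refine Finset.sum_eq_zero fun l _ => ?_
    rw [a3, zero_mul]
  · rw [Matrix.mul_apply]
    refine Finset.sum_eq_zero fun l _ => ?_
    rw [b4, mul_zero]

theorem Lo_mul {p : J} {M : ℕ} {g h : SpecialLinearGroup J ℝ[X]} (hg : Lo p M (g : Matrix J J ℝ[X]))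
    (hh : Lo p M (h : Matrix J J ℝ[X])) :
    Lo p M ((g * h : SpecialLinearGroup J ℝ[X]) : Matrix J J ℝ[X]) := by
  rw [ELo_iff] at hg hh ⊢
  have e : ((g * h : SpecialLinearGroup J ℝ[X]) : Matrix J J ℝ[X]) - 1 =
      (((g : Matrix J J ℝ[X]) - 1) + ((h : Matrix J J ℝ[X]) - 1)) +
        ((g : Matrix J J ℝ[X]) - 1) * ((h : Matrix J J ℝ[X]) - 1) := by
    have e0 : ((g * h : SpecialLinearGroup J ℝ[X]) : Matrix J J ℝ[X]) =
        (g : Matrix J J ℝ[X]) * (h : Matrix J J ℝ[X]) := rfl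
    rw [e0]
    noncomm_ring
  rw [e]
  exact ELoA_add (ELoA_add hg hh) (ELoA_mul hg hh)

theorem Lo_inv {p : J} {M : ℕ} {g : SpecialLinearGroup J ℝ[X]} (hg : Lo p M (g : Matrix J J ℝ[X])) :
    Lo p M ((g⁻¹ : SpecialLinearGroup J ℝ[X]) : Matrix J J ℝ[X]) := by
  rw [ELo_iff] at hg ⊢
  obtain ⟨a1, a2, a3, a4⟩ := hg
  have e1 : (g : Matrix J J ℝ[X]) * ((g⁻¹ : SpecialLinearGroup J ℝ[X]) : Matrix J J ℝ[X]) = 1 :=
    congrArg (fun x : SpecialLinearGroup J ℝ[X] => (x : Matrix J J ℝ[X])) (mul_inv_cancel g)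
  have e2 : ((g⁻¹ : SpecialLinearGroup J ℝ[X]) : Matrix J J ℝ[X]) * (g : Matrix J J ℝ[X]) = 1 :=
    congrArg (fun x : SpecialLinearGroup J ℝ[X] => (x : Matrix J J ℝ[X])) (inv_mul_cancel g)
  generalize ((g⁻¹ : SpecialLinearGroup J ℝ[X]) : Matrix J J ℝ[X]) = H at e1 e2 ⊢
  generalize (g : Matrix J J ℝ[X]) = G at a1 a2 a3 a4 e1 e2
  have f1 : H - 1 = -((G - 1) * H) := by
    rw [sub_mul, e1, one_mul, neg_sub]
  have f2 : H - 1 = -(H * (G - 1)) := by
    rw [mul_sub, e2, mul_one, neg_sub]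
  have f3 : H - 1 = -(G - 1) + -((G - 1) * (H - 1)) := by
    have : (G - 1) * (H - 1) = (G - 1) * H - (G - 1) := by noncomm_ring
    rw [this, f1]
    abel
  have b1 : ∀ i j, X ^ M ∣ (H - 1) i j := by
    intro i j
    rw [f1, Matrix.neg_apply, dvd_neg, Matrix.mul_apply]
    exact Finset.dvd_sum fun l _ => (a1 i l).mul_right _
  refine ⟨b1, fun i => ?_, fun j => ?_, fun i => ?_⟩
  · rw [f3, Matrix.add_apply, Matrix.neg_apply, Matrix.neg_apply]
    exact dvd_add (dvd_neg.mpr (a2 i)) (dvd_neg.mpr (ELoA_dvd_mul a1 b1 i i))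
  · rw [f1, Matrix.neg_apply, Matrix.mul_apply, neg_eq_zero]
    refine Finset.sum_eq_zero fun l _ => ?_
    rw [a3, zero_mul]
  · rw [f2, Matrix.neg_apply, Matrix.mul_apply, neg_eq_zero]
    refine Finset.sum_eq_zero fun l _ => ?_
    rw [a4, mul_zero]

/-- the entries of the scaled matrix -/
theorem ELo_sclG_apply (s : ℝ) (g : SpecialLinearGroup J ℝ[X]) (i j : J) :
    ((sclG s g : SpecialLinearGroup J ℝ[X]) : Matrix J J ℝ[X]) i j =
      scl s ((g : Matrix J J ℝ[X]) i j) := rfl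

theorem ELo_scl_one_apply (s : ℝ) (i j : J) :
    scl s ((1 : Matrix J J ℝ[X]) i j) = (1 : Matrix J J ℝ[X]) i j := by
  by_cases h : i = j
  · subst h
    rw [Matrix.one_apply_eq, map_one]
  · rw [Matrix.one_apply_ne h, map_zero]

theorem Lo_scl {p : J} {M : ℕ} {g : SpecialLinearGroup J ℝ[X]} (hg : Lo p M (g : Matrix J J ℝ[X]))
    (s : ℝ) : Lo p M ((sclG s g : SpecialLinearGroup J ℝ[X]) : Matrix J J ℝ[X]) := by
  refine ⟨fun i j d hd => ?_, fun i d hd => ?_, fun j => ?_, fun i => ?_⟩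
  · rw [ELo_sclG_apply, ← ELo_scl_one_apply s i j, ← map_sub, scl_coeff, hg.lo i j d hd, zero_mul]
  · have e : scl s ((g : Matrix J J ℝ[X]) i i) - 1 = scl s ((g : Matrix J J ℝ[X]) i i - 1) := by
      rw [map_sub, map_one]
    rw [ELo_sclG_apply, e, scl_coeff, hg.dg i d hd, zero_mul]
  · rw [ELo_sclG_apply, hg.row j, ELo_scl_one_apply]
  · rw [ELo_sclG_apply, hg.col i, ELo_scl_one_apply]

theorem sclG_one (g : SpecialLinearGroup J ℝ[X]) : sclG 1 g = g := by
  apply Subtype.ext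
  ext i j d
  have := scl_coeff 1 ((g : Matrix J J ℝ[X]) i j) d
  rw [one_pow, mul_one] at this
  exact this

theorem sclG_zero {p : J} {M : ℕ} (hM : 0 < M) {g : SpecialLinearGroup J ℝ[X]}
    (hg : Lo p M (g : Matrix J J ℝ[X])) : sclG 0 g = 1 := by
  apply Subtype.ext
  refine Matrix.ext fun i j => ?_
  have h1 : ((sclG 0 g : SpecialLinearGroup J ℝ[X]) : Matrix J J ℝ[X]) i j -
      (1 : Matrix J J ℝ[X]) i j = 0 := by
    rw [ELo_sclG_apply, ← ELo_scl_one_apply 0 i j, ← map_sub]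
    ext d
    rw [scl_coeff, Polynomial.coeff_zero]
    rcases Nat.eq_zero_or_pos d with hd | hd
    · subst hd
      rw [hg.lo i j 0 hM, zero_mul]
    · rw [zero_pow hd.ne', mul_zero]
  exact sub_eq_zero.mp h1

/-- the elementary steps satisfy the congruences -/
theorem ELo_transvection {p : J} {M : ℕ} {i j : J} (h : i ≠ j) (hi : i ≠ p) (hj : j ≠ p) {d : ℕ}
    (hd : M ≤ d) (c : ℤ) :
    Lo p M ((toRG (SpecialLinearGroup.transvection h (monomial d c)) : SpecialLinearGroup J ℝ[X]) :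
      Matrix J J ℝ[X]) := by
  rw [ELo_iff]
  have e : ((toRG (SpecialLinearGroup.transvection h (monomial d c)) : SpecialLinearGroup J ℝ[X]) :
      Matrix J J ℝ[X]) - 1 = single i j (monomial d (c : ℝ)) := by
    rw [sub_eq_iff_eq_add]
    refine Matrix.ext fun k l => ?_
    have e1 : ((toRG (SpecialLinearGroup.transvection h (monomial d c)) :
        SpecialLinearGroup J ℝ[X]) : Matrix J J ℝ[X]) k l =
        toR (((1 : Matrix J J ℤ[X]) + single i j (monomial d c)) k l) := rfl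
    rw [e1, Matrix.add_apply, Matrix.add_apply, map_add]
    have e2 : toR ((1 : Matrix J J ℤ[X]) k l) = (1 : Matrix J J ℝ[X]) k l := by
      by_cases hkl : k = l
      · subst hkl
        rw [Matrix.one_apply_eq, Matrix.one_apply_eq, map_one]
      · rw [Matrix.one_apply_ne hkl, Matrix.one_apply_ne hkl, map_zero]
    have e3 : toR ((single i j (monomial d c : ℤ[X]) : Matrix J J ℤ[X]) k l) =
        (single i j (monomial d (c : ℝ)) : Matrix J J ℝ[X]) k l := by
      rw [Matrix.single_apply, Matrix.single_apply]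
      split_ifs
      · rw [toR, Polynomial.coe_mapRingHom, Polynomial.map_monomial]
        rfl
      · rw [map_zero]
    rw [e2, e3, add_comm]
  rw [e]
  refine ⟨fun k l => ?_, fun k => ?_, fun l => ?_, fun k => ?_⟩
  · rw [Matrix.single_apply]
    split_ifs
    · rw [← Polynomial.C_mul_X_pow_eq_monomial]
      exact (pow_dvd_pow X hd).mul_left _
    · exact dvd_zero _
  · rw [Matrix.single_apply, if_neg]
    · exact dvd_zero _
    · rintro ⟨h1, h2⟩
      exact h (h1.trans h2.symm)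
  · rw [Matrix.single_apply, if_neg]
    rintro ⟨h1, _⟩
    exact hi h1
  · rw [Matrix.single_apply, if_neg]
    rintro ⟨_, h1⟩
    exact hj h1

/-- members of `F_M` (indices `≠ p`) satisfy the congruences -/
theorem FLow_Lo {p : J} {M : ℕ} {g : SpecialLinearGroup J ℤ[X]} (hg : g ∈ FLow p M) :
    Lo p M ((toRG g : SpecialLinearGroup J ℝ[X]) : Matrix J J ℝ[X]) := by
  unfold FLow at hg
  induction hg using Subgroup.closure_induction with
  | mem x hx =>
    obtain ⟨i, j, h, d, c, hi, hj, hd, _, rfl⟩ := hx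
    exact ELo_transvection h hi hj hd c
  | one =>
    rw [map_one, ELo_iff]
    have : ((1 : SpecialLinearGroup J ℝ[X]) : Matrix J J ℝ[X]) - 1 = 0 := sub_self _
    rw [this]
    exact ELoA_zero
  | mul x y _ _ hx hy =>
    rw [map_mul]
    exact Lo_mul hx hy
  | inv x _ hx =>
    rw [map_inv]
    exact Lo_inv hx

end Pool.Agent.SSE
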