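import Pool.Agent.SSE.E3a
import Pool.Agent.SSE.ELo

/-!
# SSE-E3 : right steps cost nothing, (*) of the text

`k s = (k s k⁻¹) k`, `k s k⁻¹ = 1 + c v w`, `v = k e_i`, `w = e_jᵀ k⁻¹`, `w v = 0`, `v_p = 0`, `w_p = 0`.
With `a = t^N`, `b = c / t^N`: `[1 + a v e_pᵀ, 1 + b e_p w] = 1 + a b v w` (a `Matrix` identity, `conn_col` and `conn_row` give the two
elements; their inverses are the elements of `-v`, `-w`; `∑_l wn (a v_l) ≤ r^N (1 + nz k) ≤ 2 r^N`, `∑ wn (b w_l) ≤ 2 r^N`, each path stays in the ball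
`6 r^N`; the commutator `x y x⁻¹ y⁻¹` is reached from `1` through `y⁻¹`, `x⁻¹ y⁻¹`, `y x⁻¹ y⁻¹` inside the ball `50 r^N`, `Conn.mul_right`).
`right_path`: induction on the path `1 = w_0, w_1, ...`, `k w_(i+1)⁻¹ = (k w_i⁻¹) x_(i+1)⁻¹`, `nz (k w_i⁻¹) ≤ η + 3ρ`.
-/

set_option autoImplicit false

namespace Pool.Agent.SSE

open Polynomial Matrix

variable {r : ℝ} {J : Type} [Fintype J] [DecidableEq J]

private theorem e3_toRG_apply (g : SpecialLinearGroup J ℤ[X]) (l m : J) :
    (toRG g : Matrix J J ℝ[X]) l m = toR ((g : Matrix J J ℤ[X]) l m) := rfl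

private theorem e3_toR_inj {f : ℤ[X]} (h : toR f = 0) : f = 0 := by
  have hinj : Function.Injective (toR : ℤ[X] → ℝ[X]) :=
    Polynomial.map_injective (Int.castRingHom ℝ) Int.cast_injective
  exact hinj (by rw [h, map_zero])

private theorem e3_wn_col (hr : 0 ≤ r) (g : SpecialLinearGroup J ℤ[X]) (i : J) :
    ∑ l, wn r (toR ((g : Matrix J J ℤ[X]) l i)) ≤ 1 + nz r g := by
  have h1 : ∀ l, wn r (toR ((g : Matrix J J ℤ[X]) l i)) ≤
      wn r (((toRG g : Matrix J J ℝ[X]) - 1) l i) + wn r ((1 : Matrix J J ℝ[X]) l i) := by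
    intro l
    have h2 : toR ((g : Matrix J J ℤ[X]) l i) =
        ((toRG g : Matrix J J ℝ[X]) - 1) l i + (1 : Matrix J J ℝ[X]) l i := by
      rw [Matrix.sub_apply, sub_add_cancel, e3_toRG_apply]
    rw [h2]
    exact wn_add_le hr _ _
  have h3 : ∑ l, wn r ((1 : Matrix J J ℝ[X]) l i) = 1 := by
    rw [Finset.sum_eq_single i]
    · rw [Matrix.one_apply_eq, wn_one]
    · intro l _ hl
      rw [Matrix.one_apply_ne hl, wn_zero]
    · intro h
      exact absurd (Finset.mem_univ i) h
  have h4 : ∑ l, wn r (((toRG g : Matrix J J ℝ[X]) - 1) l i) ≤ nz r g := by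
    unfold nz nu mn
    refine Finset.sum_le_sum fun l _ => ?_
    exact Finset.single_le_sum (f := fun m => wn r (((toRG g : Matrix J J ℝ[X]) - 1) l m))
      (fun m _ => wn_nonneg hr _) (Finset.mem_univ i)
  calc ∑ l, wn r (toR ((g : Matrix J J ℤ[X]) l i))
      ≤ ∑ l, (wn r (((toRG g : Matrix J J ℝ[X]) - 1) l i) + wn r ((1 : Matrix J J ℝ[X]) l i)) :=
        Finset.sum_le_sum fun l _ => h1 l
    _ ≤ 1 + nz r g := by rw [Finset.sum_add_distrib, h3]; linarith

private theorem e3_wn_row (hr : 0 ≤ r) (g : SpecialLinearGroup J ℤ[X]) (j : J) :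
    ∑ m, wn r (toR ((g : Matrix J J ℤ[X]) j m)) ≤ 1 + nz r g := by
  have h1 : ∀ m, wn r (toR ((g : Matrix J J ℤ[X]) j m)) ≤
      wn r (((toRG g : Matrix J J ℝ[X]) - 1) j m) + wn r ((1 : Matrix J J ℝ[X]) j m) := by
    intro m
    have h2 : toR ((g : Matrix J J ℤ[X]) j m) =
        ((toRG g : Matrix J J ℝ[X]) - 1) j m + (1 : Matrix J J ℝ[X]) j m := by
      rw [Matrix.sub_apply, sub_add_cancel, e3_toRG_apply]
    rw [h2]
    exact wn_add_le hr _ _
  have h3 : ∑ m, wn r ((1 : Matrix J J ℝ[X]) j m) = 1 := by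
    rw [Finset.sum_eq_single j]
    · rw [Matrix.one_apply_eq, wn_one]
    · intro l _ hl
      rw [Matrix.one_apply_ne hl.symm, wn_zero]
    · intro h
      exact absurd (Finset.mem_univ j) h
  have h4 : ∑ m, wn r (((toRG g : Matrix J J ℝ[X]) - 1) j m) ≤ nz r g := by
    unfold nz nu mn
    exact Finset.single_le_sum
      (f := fun l => ∑ m, wn r (((toRG g : Matrix J J ℝ[X]) - 1) l m))
      (fun l _ => Finset.sum_nonneg fun m _ => wn_nonneg hr _) (Finset.mem_univ j)
  calc ∑ m, wn r (toR ((g : Matrix J J ℤ[X]) j m))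
      ≤ ∑ m, (wn r (((toRG g : Matrix J J ℝ[X]) - 1) j m) + wn r ((1 : Matrix J J ℝ[X]) j m)) :=
        Finset.sum_le_sum fun m _ => h1 m
    _ ≤ 1 + nz r g := by rw [Finset.sum_add_distrib, h3]; linarith

omit [DecidableEq J] in
private theorem e3_wn_mul_sum (hr : 0 ≤ r) (f : ℤ[X]) (v : J → ℤ[X]) {C D : ℝ}
    (hf : wn r (toR f) ≤ C) (hC0 : 0 ≤ C) (hv : ∑ l, wn r (toR (v l)) ≤ D) :
    ∑ l, wn r (toR (f * v l)) ≤ C * D := by
  calc ∑ l, wn r (toR (f * v l)) ≤ ∑ l, C * wn r (toR (v l)) := by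
        refine Finset.sum_le_sum fun l _ => ?_
        rw [map_mul]
        refine (wn_mul_le hr _ _).trans ?_
        exact mul_le_mul_of_nonneg_right hf (wn_nonneg hr _)
    _ = C * ∑ l, wn r (toR (v l)) := by rw [Finset.mul_sum]
    _ ≤ C * D := mul_le_mul_of_nonneg_left hv hC0

private theorem e3_toR_monomial (d : ℕ) (c : ℤ) : toR (monomial d c) = monomial d (c : ℝ) := by
  unfold toR
  rw [Polynomial.coe_mapRingHom, Polynomial.map_monomial]
  rfl

private theorem e3_coeff_lt {n : ℕ} {c : ℤ} (f : ℤ[X]) {N d : ℕ} (hn : N ≤ n) (hd : d < N) :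
    (monomial n c * f).coeff d = 0 := by
  have hX : X ^ N ∣ monomial n c * f := by
    refine Dvd.dvd.mul_right ?_ f
    rw [← Polynomial.C_mul_X_pow_eq_monomial]
    exact Dvd.dvd.mul_left (pow_dvd_pow X hn) _
  exact (Polynomial.X_pow_dvd_iff.mp hX) d hd

/-- the matrix identity of (*) -/
private theorem e3_comm {R : Type} [CommRing R] (K K' : Matrix J J R) (hK : K' * K = 1) {i j p : J}
    (hij : i ≠ j) (a b : R) (hKp : K p i = 0) (hK'p : K' j p = 0) :
    (1 + Matrix.of (fun l m => if m = p then a * K l i else 0)) *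
      (1 + Matrix.of (fun l m => if l = p then b * K' j m else 0)) *
      (1 + Matrix.of (fun l m => if m = p then -(a * K l i) else 0)) *
      (1 + Matrix.of (fun l m => if l = p then -(b * K' j m) else 0)) =
      1 + K * Matrix.single i j (a * b) * K' := by
  set A : Matrix J J R := Matrix.of (fun l m => if m = p then a * K l i else 0) with hA
  set B : Matrix J J R := Matrix.of (fun l m => if l = p then b * K' j m else 0) with hB
  have hA' : (Matrix.of (fun l m => if m = p then -(a * K l i) else 0) : Matrix J J R) = -A := by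
    ext l m
    simp only [hA, Matrix.of_apply, Matrix.neg_apply]
    split_ifs <;> simp
  have hB' : (Matrix.of (fun l m => if l = p then -(b * K' j m) else 0) : Matrix J J R) = -B := by
    ext l m
    simp only [hB, Matrix.of_apply, Matrix.neg_apply]
    split_ifs <;> simp
  have hAA : A * A = 0 := by
    ext l m
    rw [Matrix.mul_apply, Finset.sum_eq_zero]
    · rfl
    · intro q _
      simp only [hA, Matrix.of_apply]
      by_cases hq : q = p
      · rw [hq, hKp]; simp
      · rw [if_neg hq, zero_mul]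
  have hBB : B * B = 0 := by
    ext l m
    rw [Matrix.mul_apply, Finset.sum_eq_zero]
    · rfl
    · intro q _
      simp only [hB, Matrix.of_apply]
      by_cases hq : q = p
      · rw [hq, hK'p]; simp
      · rw [if_neg hq, mul_zero]
  have hBA : B * A = 0 := by
    ext l m
    rw [Matrix.mul_apply]
    simp only [hA, hB, Matrix.of_apply]
    by_cases hl : l = p
    · by_cases hm : m = p
      · simp only [if_pos hl, if_pos hm]
        have h1 : ∑ q, b * K' j q * (a * K q i) = b * a * (K' * K) j i := by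
          rw [Matrix.mul_apply, Finset.mul_sum]
          exact Finset.sum_congr rfl fun q _ => by ring
        rw [h1, hK, Matrix.one_apply_ne hij.symm, mul_zero, Matrix.zero_apply]
      · simp [if_neg hm]
    · simp [if_neg hl]
  have hAB : A * B = K * Matrix.single i j (a * b) * K' := by
    ext l m
    rw [Matrix.mul_apply, Finset.sum_eq_single p]
    · simp only [hA, hB, Matrix.of_apply, if_true]
      rw [Matrix.mul_apply, Finset.sum_eq_single j]
      · rw [Matrix.mul_apply, Finset.sum_eq_single i]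
        · rw [Matrix.single_apply_same]
          ring
        · intro q _ hq
          rw [Matrix.single_apply_of_row_ne hq.symm, mul_zero]
        · intro h
          exact absurd (Finset.mem_univ i) h
      · intro q _ hq
        rw [Matrix.mul_apply, Finset.sum_eq_zero, zero_mul]
        intro q' _
        rw [Matrix.single_apply_of_col_ne _ _ hq.symm, mul_zero]
      · intro h
        exact absurd (Finset.mem_univ j) h
    · intro q _ hq
      simp only [hA, Matrix.of_apply, if_neg hq, zero_mul]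
    · intro h
      exact absurd (Finset.mem_univ p) h
  rw [hA', hB', ← hAB]
  have h1 : (1 + A) * (1 + B) * (1 + -A) * (1 + -B) =
      1 + A * B + (- (A * A) - A * (B * A) + A * A * B + B * B * 0 - B * A - B * B
        - A * (B * B) + (B * A) * B + A * (B * A) * B) := by
    noncomm_ring
  rw [h1, hAA, hBA, hBB]
  simp

/-- (*) : a right step by a low element is a short path of left steps -/
theorem right_step (hr : 0 < r) (hr1 : r < 1) {N : ℕ} {p : J} {k s : SpecialLinearGroup J ℤ[X]}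
    (hk : k ∈ FLow p (2 * N)) (hs : s ∈ ALow p (2 * N)) {η : ℝ} (hη : nz r k ≤ η)
    (hη1 : η ≤ 1 / 10) (hN : r ^ N ≤ 1 / 1000) :
    Conn (AAll J N) r (2 * η + 100 * r ^ N) k (k * s) := by
  obtain ⟨i, j, hij, d, c, hip, hjp, hd, hc, rfl⟩ := hs
  have hr0 : 0 ≤ r := hr.le
  have hη0 : 0 ≤ η := (nz_nonneg hr0 k).trans hη
  have hkinv : nz r k⁻¹ ≤ 2 * η := by
    have := nz_inv_le hr0 (g := k) (by linarith)
    linarith
  have hk' : k⁻¹ ∈ FLow p (2 * N) := (FLow p (2 * N)).inv_mem hk
  have hKp : (k : Matrix J J ℤ[X]) p i = 0 := by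
    apply e3_toR_inj
    have := (FLow_Lo hk).row i
    rw [e3_toRG_apply, Matrix.one_apply_ne (Ne.symm hip)] at this
    exact this
  have hK'p : ((k⁻¹ : SpecialLinearGroup J ℤ[X]) : Matrix J J ℤ[X]) j p = 0 := by
    apply e3_toR_inj
    have := (FLow_Lo hk').col j
    rw [e3_toRG_apply, Matrix.one_apply_ne hjp] at this
    exact this
  have hKK : ((k⁻¹ : SpecialLinearGroup J ℤ[X]) : Matrix J J ℤ[X]) * (k : Matrix J J ℤ[X]) = 1 := by
    exact congrArg (fun g : SpecialLinearGroup J ℤ[X] => (g : Matrix J J ℤ[X])) (inv_mul_cancel k)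
  set ρ : ℝ := r ^ N with hρ
  have hρ0 : 0 < ρ := pow_pos hr N
  -- the two scalars
  set a : ℤ[X] := monomial N 1 with ha
  set b : ℤ[X] := monomial (d - N) c with hb
  have hNd : N ≤ d - N := by omega
  have hab : a * b = monomial d c := by
    rw [ha, hb, Polynomial.monomial_mul_monomial, one_mul, show N + (d - N) = d by omega]
  have hwa : wn r (toR a) ≤ ρ := by
    rw [ha, e3_toR_monomial, wn_monomial]
    simp [hρ]
  have hcabs : |(c : ℝ)| = 1 := by
    rcases hc with rfl | rfl <;> simp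
  have hwb : wn r (toR b) ≤ ρ := by
    rw [hb, e3_toR_monomial, wn_monomial, hcabs, one_mul]
    exact pow_le_pow_of_le_one hr0 hr1.le hNd
  have hsa : ∑ l, wn r (toR (a * (k : Matrix J J ℤ[X]) l i)) ≤ 2 * ρ := by
    have := e3_wn_mul_sum hr0 a (fun l => (k : Matrix J J ℤ[X]) l i) (D := 2) hwa
      hρ0.le (by have := e3_wn_col hr0 k i; linarith)
    linarith
  have hsb : ∑ m, wn r (toR (b * ((k⁻¹ : SpecialLinearGroup J ℤ[X]) : Matrix J J ℤ[X]) j m)) ≤
      2 * ρ := by
    have := e3_wn_mul_sum hr0 b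
      (fun m => ((k⁻¹ : SpecialLinearGroup J ℤ[X]) : Matrix J J ℤ[X]) j m) (D := 2) hwb
      hρ0.le (by have := e3_wn_row hr0 k⁻¹ j; linarith)
    linarith
  have hneg : ∀ f : ℤ[X], wn r (toR (-f)) = wn r (toR f) := by
    intro f
    rw [map_neg, wn_neg]
  obtain ⟨x, hx, hxc, hxn⟩ := conn_col (N := N) hr0 p (fun l => a * (k : Matrix J J ℤ[X]) l i)
    (by simp only [hKp, mul_zero]) (fun l q hq => e3_coeff_lt _ le_rfl hq) hsa (by linarith)
  obtain ⟨x', hx', hxc', hxn'⟩ := conn_col (N := N) hr0 p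
    (fun l => -(a * (k : Matrix J J ℤ[X]) l i))
    (by simp only [hKp, mul_zero, neg_zero])
    (fun l q hq => by rw [Polynomial.coeff_neg, e3_coeff_lt _ le_rfl hq, neg_zero])
    (η := 2 * ρ) (by simp only [hneg]; exact hsa) (by linarith)
  obtain ⟨y, hy, hyc, hyn⟩ := conn_row (N := N) hr0 p
    (fun m => b * ((k⁻¹ : SpecialLinearGroup J ℤ[X]) : Matrix J J ℤ[X]) j m)
    (by simp only [hK'p, mul_zero]) (fun l q hq => e3_coeff_lt _ hNd hq) hsb (by linarith)
  obtain ⟨y', hy', hyc', hyn'⟩ := conn_row (N := N) hr0 p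
    (fun m => -(b * ((k⁻¹ : SpecialLinearGroup J ℤ[X]) : Matrix J J ℤ[X]) j m))
    (by simp only [hK'p, mul_zero, neg_zero])
    (fun l q hq => by rw [Polynomial.coeff_neg, e3_coeff_lt _ hNd hq, neg_zero])
    (η := 2 * ρ) (by simp only [hneg]; exact hsb) (by linarith)
  -- the group identity
  have hid : k * SpecialLinearGroup.transvection hij (monomial d c) = x * y * x' * y' * k := by
    have h1 : k * SpecialLinearGroup.transvection hij (monomial d c) * k⁻¹ = x * y * x' * y' := by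
      apply Subtype.ext
      have h2 := e3_comm (k : Matrix J J ℤ[X])
        ((k⁻¹ : SpecialLinearGroup J ℤ[X]) : Matrix J J ℤ[X]) hKK (p := p) hij a b hKp hK'p
      have h3 : ((k * SpecialLinearGroup.transvection hij (monomial d c) * k⁻¹ :
          SpecialLinearGroup J ℤ[X]) : Matrix J J ℤ[X]) =
          (k : Matrix J J ℤ[X]) * (1 + Matrix.single i j (monomial d c)) *
            ((k⁻¹ : SpecialLinearGroup J ℤ[X]) : Matrix J J ℤ[X]) := rfl
      have h4 : ((x * y * x' * y' : SpecialLinearGroup J ℤ[X]) : Matrix J J ℤ[X]) =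
          (x : Matrix J J ℤ[X]) * (y : Matrix J J ℤ[X]) * (x' : Matrix J J ℤ[X]) *
            (y' : Matrix J J ℤ[X]) := rfl
      have h5 : (k : Matrix J J ℤ[X]) * ((k⁻¹ : SpecialLinearGroup J ℤ[X]) : Matrix J J ℤ[X]) =
          1 :=
        congrArg (fun g : SpecialLinearGroup J ℤ[X] => (g : Matrix J J ℤ[X])) (mul_inv_cancel k)
      change ((k * SpecialLinearGroup.transvection hij (monomial d c) * k⁻¹ :
          SpecialLinearGroup J ℤ[X]) : Matrix J J ℤ[X]) =
        ((x * y * x' * y' : SpecialLinearGroup J ℤ[X]) : Matrix J J ℤ[X])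
      rw [h3, h4, hx, hy, hx', hy', h2, hab, mul_add, add_mul, mul_one, h5]
    rw [← h1]
    group
  -- the path
  have hρs : ρ ≤ 1 / 1000 := hN
  have n1 : nz r (x' * y') ≤ 5 * ρ := by
    have := nz_mul_le hr0 x' y'
    nlinarith [nz_nonneg hr0 x', nz_nonneg hr0 y']
  have n2 : nz r (y * (x' * y')) ≤ 8 * ρ := by
    have := nz_mul_le hr0 y (x' * y')
    nlinarith [nz_nonneg hr0 y, nz_nonneg hr0 (x' * y')]
  have s1 : Conn (AAll J N) r (20 * ρ) 1 y' := hyc'.mono le_rfl (by linarith)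
  have s2 : Conn (AAll J N) r (20 * ρ) y' (x' * y') := by
    have := hxc'.mul_right (h := y') hr0 hyn' (by linarith) (by linarith)
    rw [one_mul] at this
    exact this.mono le_rfl (by nlinarith)
  have s3 : Conn (AAll J N) r (20 * ρ) (x' * y') (y * (x' * y')) := by
    have := hyc.mul_right (h := x' * y') hr0 n1 (by linarith) (by linarith)
    rw [one_mul] at this
    exact this.mono le_rfl (by nlinarith)
  have s4 : Conn (AAll J N) r (20 * ρ) (y * (x' * y')) (x * (y * (x' * y'))) := by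
    have := hxc.mul_right (h := y * (x' * y')) hr0 n2 (by linarith) (by linarith)
    rw [one_mul] at this
    exact this.mono le_rfl (by nlinarith)
  have s5 := ((s1.trans s2).trans s3).trans s4
  have s6 := s5.mul_right (h := k) hr0 hη (by linarith) hη0
  rw [one_mul] at s6
  rw [hid]
  have h7 : x * y * x' * y' * k = x * (y * (x' * y')) * k := by group
  rw [h7]
  exact s6.mono le_rfl (by nlinarith)

/-- the same for the inverse of the end of a path of low steps -/
theorem right_path (hr : 0 < r) (hr1 : r < 1) {N : ℕ} {p : J} {k w : SpecialLinearGroup J ℤ[X]}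
    (hk : k ∈ FLow p (2 * N)) {η ρ : ℝ} (hη : nz r k ≤ η) (hρ0 : 0 ≤ ρ)
    (hw : Conn (ALow p (2 * N)) r ρ 1 w) (hηρ : η + 3 * ρ ≤ 1 / 10) (hN : r ^ N ≤ 1 / 1000) :
    Conn (AAll J N) r (4 * (η + 3 * ρ) + 100 * r ^ N) k (k * w⁻¹) := by
  have hr0 : 0 ≤ r := hr.le
  have hη0 : 0 ≤ η := (nz_nonneg hr0 k).trans hη
  induction hw with
  | refl =>
    rw [inv_one, mul_one]
    exact Conn.refl _ _ _ _
  | @tail u v huv hstep ih =>
    obtain ⟨⟨x, hx, rfl⟩, hnu, -⟩ := hstep
    have hu : u ∈ FLow p (2 * N) := Conn.end_mem (r := r) (ρ := ρ) huv (FLow p (2 * N)).one_mem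
    have hui : nz r u⁻¹ ≤ 2 * ρ := by
      have := nz_inv_le hr0 (g := u) (by linarith)
      linarith
    have hku : nz r (k * u⁻¹) ≤ η + 3 * ρ := by
      have h1 := nz_mul_le hr0 k u⁻¹
      have h2 : nz r k * nz r u⁻¹ ≤ 1 / 10 * (2 * ρ) :=
        mul_le_mul (by linarith) hui (nz_nonneg hr0 _) (by norm_num)
      linarith
    have hmem : k * u⁻¹ ∈ FLow p (2 * N) :=
      (FLow p (2 * N)).mul_mem hk ((FLow p (2 * N)).inv_mem hu)
    have h3 := right_step hr hr1 hmem (ALow_inv hx) hku hηρ hN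
    have h4 : k * u⁻¹ * x⁻¹ = k * (x * u)⁻¹ := by group
    rw [h4] at h3
    exact ih.trans (h3.mono le_rfl (by linarith))

end Pool.Agent.SSE
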