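import Pool.Agent.SSE.E2

/-!
# SSE-E3a : column and row elements

`1 + v e_pᵀ = ∏_{l ≠ p} E_lp(v_l)`: for a finset `s` of indices `≠ p` the matrix `1 + ∑_{l ∈ s} v_l E_lp` is joined to `1`
(`Finset.induction_on`, `conn_poly`, `Conn.mul_right`); the partial products have `nz ≤ ∑ wn (v_l) ≤ η`.
-/

set_option autoImplicit false

namespace Pool.Agent.SSE

open Polynomial Matrix

variable {r : ℝ} {J : Type} [Fintype J] [DecidableEq J]

private theorem E3a_nz (x : SpecialLinearGroup J ℤ[X]) (M : Matrix J J ℤ[X])
    (hx : (x : Matrix J J ℤ[X]) = 1 + M) : nz r x = ∑ i, ∑ j, wn r (toR (M i j)) := by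
  unfold nz nu mn
  refine Finset.sum_congr rfl fun i _ => Finset.sum_congr rfl fun j _ => ?_
  congr 1
  have h1 : ((toRG x : SpecialLinearGroup J ℝ[X]) : Matrix J J ℝ[X]) i j
      = toR ((x : Matrix J J ℤ[X]) i j) := rfl
  rw [Matrix.sub_apply, h1, hx, Matrix.add_apply, map_add]
  by_cases hij : i = j
  · subst hij
    simp
  · simp [Matrix.one_apply_ne hij]

private theorem E3a_step (hr : 0 ≤ r) {N : ℕ} {i j : J} (h : i ≠ j) (q : ℤ[X])
    (hq : ∀ d < N, q.coeff d = 0) {x : SpecialLinearGroup J ℤ[X]} {η ηs : ℝ}
    (hc : Conn (AAll J N) r (3 * η) 1 x) (hx : nz r x ≤ ηs) (h0 : 0 ≤ ηs)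
    (hsum : wn r (toR q) + ηs ≤ η) (hη1 : η ≤ 1) :
    Conn (AAll J N) r (3 * η) 1 (SpecialLinearGroup.transvection h q * x) := by
  have hw : 0 ≤ wn r (toR q) := wn_nonneg hr _
  have h1 := Conn.mul_right hr (conn_poly hr h q hq) hx hw h0
  rw [one_mul] at h1
  have h2 : wn r (toR q) + ηs + wn r (toR q) * ηs ≤ 3 * η := by nlinarith
  exact hc.trans (h1.mono (le_refl _) h2)

/-- column element `1 + a v e_pᵀ` -/
theorem conn_col (hr : 0 ≤ r) {N : ℕ} (p : J) (v : J → ℤ[X]) (hvp : v p = 0)
    (hv : ∀ l, ∀ d < N, (v l).coeff d = 0) {η : ℝ} (hη : ∑ l, wn r (toR (v l)) ≤ η) (hη1 : η ≤ 1) :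
    ∃ x : SpecialLinearGroup J ℤ[X], (x : Matrix J J ℤ[X]) = 1 + Matrix.of (fun l m => if m = p then v l else 0) ∧
      Conn (AAll J N) r (3 * η) 1 x ∧ nz r x ≤ η := by
  have key : ∀ s : Finset J, ∃ x : SpecialLinearGroup J ℤ[X],
      (x : Matrix J J ℤ[X]) = 1 + Matrix.of (fun l m => if m = p ∧ l ∈ s then v l else 0) ∧
      Conn (AAll J N) r (3 * η) 1 x ∧ nz r x ≤ ∑ l ∈ s, wn r (toR (v l)) := by
    intro s
    induction s using Finset.induction_on with
    | empty =>
      refine ⟨1, ?_, Conn.refl _ _ _ _, ?_⟩
      · ext1 l m
        simp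
      · rw [nz_one]
        simp
    | insert a s ha ih =>
      obtain ⟨x, hx, hc, hn⟩ := ih
      have hle : wn r (toR (v a)) + ∑ l ∈ s, wn r (toR (v l)) ≤ η := by
        rw [← Finset.sum_insert (f := fun l => wn r (toR (v l))) ha]
        exact (Finset.sum_le_sum_of_subset_of_nonneg (Finset.subset_univ _)
          (fun l _ _ => wn_nonneg hr _)).trans hη
      have hs0 : 0 ≤ ∑ l ∈ s, wn r (toR (v l)) := Finset.sum_nonneg fun l _ => wn_nonneg hr _
      by_cases hap : a = p
      · subst hap
        refine ⟨x, ?_, hc, ?_⟩
        · rw [hx]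
          congr 1
          ext1 l m
          simp only [Matrix.of_apply, Finset.mem_insert]
          by_cases hla : l = a
          · subst hla
            simp [hvp]
          · simp [hla]
        · rw [Finset.sum_insert ha, hvp, map_zero, wn_zero, zero_add]
          exact hn
      · have hprod : ((SpecialLinearGroup.transvection hap (v a) * x : SpecialLinearGroup J ℤ[X]) :
            Matrix J J ℤ[X]) = 1 + Matrix.of (fun l m => if m = p ∧ l ∈ insert a s then v l else 0) := by
          refine (Matrix.SpecialLinearGroup.coe_mul _ _).trans ?_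
          rw [Matrix.SpecialLinearGroup.transvection_coe, hx]
          ext1 l m
          rw [Matrix.add_mul, one_mul, Matrix.add_apply, Matrix.mul_add, mul_one, Matrix.add_apply,
            Matrix.add_apply, Matrix.add_apply, Matrix.of_apply, Matrix.of_apply, add_assoc]
          congr 1
          by_cases hla : l = a
          · subst hla
            rw [Matrix.single_mul_apply_same]
            simp only [Matrix.of_apply, Finset.mem_insert, true_or, and_true, ha, and_false,
              if_false, zero_add]
            by_cases hm : m = p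
            · subst hm
              simp [hvp]
            · have hm' : ¬ p = m := fun h => hm h.symm
              simp [hm, hm']
          · rw [Matrix.single_mul_apply_of_ne (h := hla)]
            have hla' : ¬ a = l := fun h => hla h.symm
            simp [hla, hla']
        refine ⟨_, hprod, E3a_step hr hap (v a) (hv a) hc hn hs0 hle hη1, ?_⟩
        rw [E3a_nz _ _ hprod]
        apply le_of_eq
        rw [← Finset.sum_filter_add_sum_filter_not Finset.univ (fun l => l ∈ insert a s)]
        have e1 : ∑ l ∈ Finset.univ.filter (fun l => l ∉ insert a s), ∑ m,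
            wn r (toR (Matrix.of (fun l m => if m = p ∧ l ∈ insert a s then v l else 0) l m)) = 0 := by
          apply Finset.sum_eq_zero
          intro l hl
          apply Finset.sum_eq_zero
          intro m _
          rw [Finset.mem_filter] at hl
          simp only [Matrix.of_apply, hl.2, and_false, if_false, map_zero, wn_zero]
        rw [e1, add_zero]
        have e2 : Finset.univ.filter (fun l => l ∈ insert a s) = insert a s := by
          ext l; simp
        rw [e2]
        apply Finset.sum_congr rfl
        intro l hl
        rw [Finset.sum_eq_single p]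
        · simp only [Matrix.of_apply, hl, and_true, if_true]
        · intro m _ hm
          simp only [Matrix.of_apply, hm, false_and, if_false, map_zero, wn_zero]
        · intro h
          exact absurd (Finset.mem_univ p) h
  obtain ⟨x, hx, hc, hn⟩ := key Finset.univ
  refine ⟨x, ?_, hc, hn.trans hη⟩
  rw [hx]
  simp

/-- row element `1 + e_p w` -/
theorem conn_row (hr : 0 ≤ r) {N : ℕ} (p : J) (w : J → ℤ[X]) (hwp : w p = 0)
    (hw : ∀ l, ∀ d < N, (w l).coeff d = 0) {η : ℝ} (hη : ∑ l, wn r (toR (w l)) ≤ η) (hη1 : η ≤ 1) :
    ∃ x : SpecialLinearGroup J ℤ[X], (x : Matrix J J ℤ[X]) = 1 + Matrix.of (fun l m => if l = p then w m else 0) ∧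
      Conn (AAll J N) r (3 * η) 1 x ∧ nz r x ≤ η := by
  have key : ∀ s : Finset J, ∃ x : SpecialLinearGroup J ℤ[X],
      (x : Matrix J J ℤ[X]) = 1 + Matrix.of (fun l m => if l = p ∧ m ∈ s then w m else 0) ∧
      Conn (AAll J N) r (3 * η) 1 x ∧ nz r x ≤ ∑ l ∈ s, wn r (toR (w l)) := by
    intro s
    induction s using Finset.induction_on with
    | empty =>
      refine ⟨1, ?_, Conn.refl _ _ _ _, ?_⟩
      · ext1 l m
        simp
      · rw [nz_one]
        simp
    | insert a s ha ih =>
      obtain ⟨x, hx, hc, hn⟩ := ih
      have hle : wn r (toR (w a)) + ∑ l ∈ s, wn r (toR (w l)) ≤ η := by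
        rw [← Finset.sum_insert (f := fun l => wn r (toR (w l))) ha]
        exact (Finset.sum_le_sum_of_subset_of_nonneg (Finset.subset_univ _)
          (fun l _ _ => wn_nonneg hr _)).trans hη
      have hs0 : 0 ≤ ∑ l ∈ s, wn r (toR (w l)) := Finset.sum_nonneg fun l _ => wn_nonneg hr _
      by_cases hap : a = p
      · subst hap
        refine ⟨x, ?_, hc, ?_⟩
        · rw [hx]
          congr 1
          ext1 l m
          simp only [Matrix.of_apply, Finset.mem_insert]
          by_cases hma : m = a
          · subst hma
            simp [hwp]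
          · simp [hma]
        · rw [Finset.sum_insert ha, hwp, map_zero, wn_zero, zero_add]
          exact hn
      · have hpa : p ≠ a := fun h => hap h.symm
        have hprod : ((SpecialLinearGroup.transvection hpa (w a) * x : SpecialLinearGroup J ℤ[X]) :
            Matrix J J ℤ[X]) = 1 + Matrix.of (fun l m => if l = p ∧ m ∈ insert a s then w m else 0) := by
          refine (Matrix.SpecialLinearGroup.coe_mul _ _).trans ?_
          rw [Matrix.SpecialLinearGroup.transvection_coe, hx]
          ext1 l m
          rw [Matrix.add_mul, one_mul, Matrix.add_apply, Matrix.mul_add, mul_one, Matrix.add_apply,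
            Matrix.add_apply, Matrix.add_apply, Matrix.of_apply, Matrix.of_apply, add_assoc]
          congr 1
          by_cases hlp : l = p
          · subst hlp
            rw [Matrix.single_mul_apply_same]
            simp only [Matrix.of_apply, Finset.mem_insert, true_and, hap, false_and, if_false,
              mul_zero, add_zero]
            by_cases hm : m = a
            · subst hm
              simp [ha]
            · have hm' : ¬ a = m := fun h => hm h.symm
              simp [hm, hm']
          · rw [Matrix.single_mul_apply_of_ne (h := hlp)]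
            have hlp' : ¬ p = l := fun h => hlp h.symm
            simp [hlp, hlp']
        refine ⟨_, hprod, E3a_step hr hpa (w a) (hw a) hc hn hs0 hle hη1, ?_⟩
        rw [E3a_nz _ _ hprod]
        apply le_of_eq
        rw [Finset.sum_eq_single p]
        · rw [← Finset.sum_filter_add_sum_filter_not Finset.univ (fun m => m ∈ insert a s)]
          have e1 : ∑ m ∈ Finset.univ.filter (fun m => m ∉ insert a s),
              wn r (toR (Matrix.of (fun l m => if l = p ∧ m ∈ insert a s then w m else 0) p m)) = 0 := by
            apply Finset.sum_eq_zero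
            intro m hm
            rw [Finset.mem_filter] at hm
            simp only [Matrix.of_apply, hm.2, and_false, if_false, map_zero, wn_zero]
          rw [e1, add_zero]
          have e2 : Finset.univ.filter (fun m => m ∈ insert a s) = insert a s := by
            ext m; simp
          rw [e2]
          apply Finset.sum_congr rfl
          intro m hm
          simp only [Matrix.of_apply, hm, and_true, if_true]
        · intro l _ hl
          apply Finset.sum_eq_zero
          intro m _
          simp only [Matrix.of_apply, hl, false_and, if_false, map_zero, wn_zero]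
        · intro h
          exact absurd (Finset.mem_univ p) h
  obtain ⟨x, hx, hc, hn⟩ := key Finset.univ
  refine ⟨x, ?_, hc, hn.trans hη⟩
  rw [hx]
  simp

end Pool.Agent.SSE
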