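import Pool.Agent.SSE.E4b

/-!
# SSE-E4 : the rounding lemma

Choose `D ≥` all degrees of `h` (so `tl r q D h = 0`). Repeat `round_step` as long as some coefficient (not of the entry `(q,q)`) in a degree `≤ D` is
`≥ 3/4` (strong induction on `m` with `ph ≤ m r^D / 4`). Invariants: `tl ≤ 40 (β + r^M) (ph h₀ - ph)`, `nu ≤ 4 ph` as long as `C nu ≤ 1/2`
(`nu_le_ph`; one step changes `nu` by `≤ 20 r^M`, so `nu` never leaves the small region).
At the end all coefficients are `< 3/4`: `ph ≤ card² (3/4) r^M/(1-r) + tl`, and then `nu ≤ 2 ph + C nu²`.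
The path: intermediate `x` satisfy `x = (x h) h⁻¹`, so `nz x ≤ 4 (β' )`.
-/

set_option autoImplicit false

namespace Pool.Agent.SSE

open Polynomial Matrix

variable {r : ℝ}

private theorem E4_ph_eq {J : Type} [Fintype J] [DecidableEq J] (q : J)
    (g : SpecialLinearGroup J ℝ[X]) :
    ph r q g = ∑ i, ∑ j, if i = q ∧ j = q then 0 else
      wn r ((g : Matrix J J ℝ[X]) i j - (1 : Matrix J J ℝ[X]) i j) := by
  have h1 : nu r g = (∑ i, ∑ j, if i = q ∧ j = q then
        wn r ((g : Matrix J J ℝ[X]) q q - 1) else 0) +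
      ∑ i, ∑ j, if i = q ∧ j = q then 0 else
        wn r ((g : Matrix J J ℝ[X]) i j - (1 : Matrix J J ℝ[X]) i j) := by
    unfold nu mn
    rw [← Finset.sum_add_distrib]
    refine Finset.sum_congr rfl fun i _ => ?_
    rw [← Finset.sum_add_distrib]
    refine Finset.sum_congr rfl fun j _ => ?_
    rw [Matrix.sub_apply]
    by_cases hij : i = q ∧ j = q
    · obtain ⟨rfl, rfl⟩ := hij
      rw [if_pos ⟨rfl, rfl⟩, if_pos ⟨rfl, rfl⟩, Matrix.one_apply_eq, add_zero]
    · rw [if_neg hij, if_neg hij, zero_add]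
  have h2 : (∑ i : J, ∑ j : J, if i = q ∧ j = q then
        wn r ((g : Matrix J J ℝ[X]) q q - 1) else 0) = wn r ((g : Matrix J J ℝ[X]) q q - 1) := by
    rw [Finset.sum_eq_single q, Finset.sum_eq_single q]
    · rw [if_pos ⟨rfl, rfl⟩]
    · intro b _ hb
      rw [if_neg fun h => hb h.2]
    · intro h
      exact absurd (Finset.mem_univ _) h
    · intro b _ hb
      refine Finset.sum_eq_zero fun j _ => ?_
      rw [if_neg fun h => hb h.1]
    · intro h
      exact absurd (Finset.mem_univ _) h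
  unfold ph
  rw [h1, h2]
  ring

private theorem E4_wn_le (hr : 0 < r) (hr1 : r < 1) {M D : ℕ} {f : ℝ[X]}
    (hlo : ∀ d < M, f.coeff d = 0) (hs : ∀ d ≤ D, |f.coeff d| < 3 / 4) :
    wn r f ≤ 3 / 4 * (r ^ M / (1 - r)) + wt r D f := by
  classical
  have h1r : 0 < 1 - r := by linarith
  have hsplit : wn r f = (∑ k ∈ f.support.filter (fun k => ¬ D < k), |f.coeff k| * r ^ k) +
      wt r D f := by
    unfold wn wt
    rw [add_comm, Finset.sum_filter_add_sum_filter_not]
  rw [hsplit]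
  refine add_le_add ?_ le_rfl
  calc (∑ k ∈ f.support.filter (fun k => ¬ D < k), |f.coeff k| * r ^ k)
      ≤ ∑ k ∈ Finset.Ico M (D + 1), 3 / 4 * r ^ k := by
        refine (Finset.sum_le_sum (g := fun k => 3 / 4 * r ^ k) fun k hk => ?_).trans
          (Finset.sum_le_sum_of_subset_of_nonneg ?_ fun k _ _ => by positivity)
        · rw [Finset.mem_filter] at hk
          exact mul_le_mul_of_nonneg_right (hs k (by omega)).le (pow_nonneg hr.le k)
        · intro k hk
          rw [Finset.mem_filter, mem_support_iff] at hk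
          rw [Finset.mem_Ico]
          refine ⟨?_, by omega⟩
          by_contra hlt
          exact hk.1 (hlo k (by omega))
    _ ≤ 3 / 4 * (r ^ M / (1 - r)) := by
        rw [← Finset.mul_sum]
        refine mul_le_mul_of_nonneg_left ?_ (by norm_num)
        rw [Finset.sum_Ico_eq_sum_range]
        simp_rw [pow_add]
        rw [← Finset.mul_sum, div_eq_mul_inv]
        refine mul_le_mul_of_nonneg_left ?_ (pow_nonneg hr.le M)
        have hg := geom_sum_mul_neg r (D + 1 - M)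
        rw [← one_div, le_div_iff₀ h1r, hg]
        have := pow_nonneg hr.le (D + 1 - M)
        linarith

private theorem E4_ph_le (hr : 0 < r) (hr1 : r < 1) {J : Type} [Fintype J] [DecidableEq J]
    {M D : ℕ} {p q : J} {g : SpecialLinearGroup J ℝ[X]} (hg : Lo p M (g : Matrix J J ℝ[X]))
    (hs : ∀ i j : J, ¬ (i = q ∧ j = q) → ∀ d ≤ D,
      |((g : Matrix J J ℝ[X]) i j - (1 : Matrix J J ℝ[X]) i j).coeff d| < 3 / 4) :
    ph r q g ≤ (Fintype.card J : ℝ) ^ 2 * (3 / 4 * (r ^ M / (1 - r))) + tl r q D g := by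
  have h1r : 0 < 1 - r := by linarith
  have h0 : 0 ≤ 3 / 4 * (r ^ M / (1 - r)) := by positivity
  rw [E4_ph_eq]
  have e : (Fintype.card J : ℝ) ^ 2 * (3 / 4 * (r ^ M / (1 - r))) =
      ∑ _i : J, ∑ _j : J, 3 / 4 * (r ^ M / (1 - r)) := by
    simp only [Finset.sum_const, Finset.card_univ, nsmul_eq_mul]
    ring
  rw [e]
  unfold tl
  rw [← Finset.sum_add_distrib]
  refine Finset.sum_le_sum fun i _ => ?_
  rw [← Finset.sum_add_distrib]
  refine Finset.sum_le_sum fun j _ => ?_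
  by_cases hij : i = q ∧ j = q
  · rw [if_pos hij, if_pos hij, add_zero]
    exact h0
  · rw [if_neg hij, if_neg hij]
    exact E4_wn_le hr hr1 (hg.lo i j) (hs i j hij)

private theorem E4_tl_zero {J : Type} [Fintype J] [DecidableEq J]
    (M : ℕ) (q : J) (g : SpecialLinearGroup J ℝ[X]) :
    ∃ D : ℕ, 2 * M ≤ D ∧ tl r q D g = 0 := by
  classical
  refine ⟨2 * M + ∑ i, ∑ j, ((g : Matrix J J ℝ[X]) i j - (1 : Matrix J J ℝ[X]) i j).natDegree,
    Nat.le_add_right _ _, ?_⟩
  unfold tl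
  refine Finset.sum_eq_zero fun i _ => Finset.sum_eq_zero fun j _ => ?_
  split_ifs
  · rfl
  · unfold wt
    refine Finset.sum_eq_zero fun k hk => ?_
    exfalso
    rw [Finset.mem_filter] at hk
    have h1 := le_natDegree_of_mem_supp k hk.1
    have h2 : ((g : Matrix J J ℝ[X]) i j - (1 : Matrix J J ℝ[X]) i j).natDegree ≤
        ∑ j, ((g : Matrix J J ℝ[X]) i j - (1 : Matrix J J ℝ[X]) i j).natDegree :=
      Finset.single_le_sum
        (f := fun j => ((g : Matrix J J ℝ[X]) i j - (1 : Matrix J J ℝ[X]) i j).natDegree)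
        (fun _ _ => Nat.zero_le _) (Finset.mem_univ j)
    have h3 : (∑ j, ((g : Matrix J J ℝ[X]) i j - (1 : Matrix J J ℝ[X]) i j).natDegree) ≤
        ∑ i, ∑ j, ((g : Matrix J J ℝ[X]) i j - (1 : Matrix J J ℝ[X]) i j).natDegree :=
      Finset.single_le_sum
        (f := fun i => ∑ j, ((g : Matrix J J ℝ[X]) i j - (1 : Matrix J J ℝ[X]) i j).natDegree)
        (fun _ _ => Nat.zero_le _) (Finset.mem_univ i)
    have h4 := hk.2
    omega

/-- the iteration -/
private theorem E4_iter (hr : 0 < r) (hr1 : r < 1) {J : Type} [Fintype J] [DecidableEq J]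
    {C K : ℝ} (hC : 1 ≤ C) (hK : 1 ≤ K)
    (hCh : ∀ (q : J) (g : SpecialLinearGroup J ℝ[X]), nu r g ≤ 1 →
      nu r g ≤ 2 * ph r q g + C * nu r g ^ 2)
    {M : ℕ} (hM : 20000 * (K * C) * r ^ M ≤ 1) {p q : J} (hpq : q ≠ p)
    {h₀ : SpecialLinearGroup J ℝ[X]} (hnu0 : nu r h₀ ≤ 2 * (K * r ^ M)) {D : ℕ} (hD : 2 * M ≤ D)
    (m : ℕ) :
    ∀ w₀ : SpecialLinearGroup J ℤ[X], w₀ ∈ FLow p M →
      Conn (ALow p M) r (100 * K * r ^ M) 1 w₀ →
      Lo p M ((toRG w₀ * h₀ : SpecialLinearGroup J ℝ[X]) : Matrix J J ℝ[X]) →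
      nu r (toRG w₀ * h₀) ≤ 8 * (K * r ^ M) →
      ph r q (toRG w₀ * h₀) ≤ ph r q h₀ →
      tl r q D (toRG w₀ * h₀) ≤ 360 * (K * r ^ M) * (ph r q h₀ - ph r q (toRG w₀ * h₀)) →
      ph r q (toRG w₀ * h₀) ≤ m * (r ^ D / 4) →
      ∃ w : SpecialLinearGroup J ℤ[X], w ∈ FLow p M ∧
        Conn (ALow p M) r (100 * K * r ^ M) 1 w ∧
        Lo p M ((toRG w * h₀ : SpecialLinearGroup J ℝ[X]) : Matrix J J ℝ[X]) ∧
        nu r (toRG w * h₀) ≤ 8 * (K * r ^ M) ∧
        tl r q D (toRG w * h₀) ≤ 360 * (K * r ^ M) * (ph r q h₀ - ph r q (toRG w * h₀)) ∧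
        ∀ i j : J, ¬ (i = q ∧ j = q) → ∀ d ≤ D,
          |(((toRG w * h₀ : SpecialLinearGroup J ℝ[X]) : Matrix J J ℝ[X]) i j -
            (1 : Matrix J J ℝ[X]) i j).coeff d| < 3 / 4 := by
  have hKC : 1 ≤ K * C := by nlinarith
  have hε : 0 < r ^ M := pow_pos hr M
  have hε1 : 20000 * (K * r ^ M) ≤ 1 := by
    have : K * r ^ M ≤ K * C * r ^ M := by
      have := mul_le_mul_of_nonneg_left hC (mul_nonneg (by linarith : (0:ℝ) ≤ K) hε.le)
      nlinarith
    nlinarith
  have hε2 : r ^ M ≤ K * r ^ M := by nlinarith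
  have hε3 : r ^ M ≤ 1 / 1000 := by nlinarith
  have hrD : 0 < r ^ D := pow_pos hr D
  have hph0 : ph r q h₀ ≤ 2 * (K * r ^ M) := (ph_le_nu hr.le q h₀).trans hnu0
  induction m with
  | zero =>
    intro w₀ hw hconn hLo hnu hph htl hm
    refine ⟨w₀, hw, hconn, hLo, hnu, htl, ?_⟩
    intro i j hij d hd
    by_contra hbig
    push Not at hbig
    obtain ⟨w, -, -, -, -, h5, -, -⟩ := round_step hr hr1 hε3 hpq hD hLo
      (hnu.trans (by nlinarith)) hij hd hbig
    have h6 := ph_nonneg hr.le q (toRG w * (toRG w₀ * h₀))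
    have h7 : 0 < r ^ d := pow_pos hr d
    have h8 : ph r q (toRG w₀ * h₀) ≤ 0 := by simpa using hm
    linarith
  | succ m ih =>
    intro w₀ hw hconn hLo hnu hph htl hm
    by_cases hall : ∀ i j : J, ¬ (i = q ∧ j = q) → ∀ d ≤ D,
          |(((toRG w₀ * h₀ : SpecialLinearGroup J ℝ[X]) : Matrix J J ℝ[X]) i j -
            (1 : Matrix J J ℝ[X]) i j).coeff d| < 3 / 4
    · exact ⟨w₀, hw, hconn, hLo, hnu, htl, hall⟩
    · push Not at hall
      obtain ⟨i, j, hij, d, hd, hbig⟩ := hall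
      obtain ⟨w, h1, h2, h3, h4, h5, h6, h7⟩ := round_step hr hr1 hε3 hpq hD hLo
        (hnu.trans (by nlinarith)) (by tauto) hd hbig
      have hnn := nu_nonneg hr.le (toRG w₀ * h₀)
      have hrd : 0 < r ^ d := pow_pos hr d
      -- `d ≥ M`
      have hdM : M ≤ d := by
        by_contra hlt
        rw [hLo.lo i j d (by omega)] at hbig
        norm_num at hbig
      have hrdM : r ^ d ≤ r ^ M := pow_le_pow_of_le_one hr.le hr1.le hdM
      have hDd : r ^ D ≤ r ^ d := pow_le_pow_of_le_one hr.le hr1.le hd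
      have ez : toRG (w * w₀) * h₀ = toRG w * (toRG w₀ * h₀) := by
        rw [map_mul, mul_assoc]
      have hph1 := ph_nonneg hr.le q (toRG w * (toRG w₀ * h₀))
      -- the new `nu`
      have hnz : nu r (toRG w) ≤ 10 * r ^ M := by
        have : nz r w = nu r (toRG w) := rfl
        rw [← this]
        linarith
      have hnz0 : 0 ≤ nu r (toRG w) := nu_nonneg hr.le _
      have hnu1 : nu r (toRG w * (toRG w₀ * h₀)) ≤ 19 * (K * r ^ M) := by
        refine (nu_mul_le hr.le _ _).trans ?_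
        have := mul_le_mul hnz hnu hnn (by linarith)
        nlinarith
      have hnu10 := nu_nonneg hr.le (toRG w * (toRG w₀ * h₀))
      have hnu2 : nu r (toRG w * (toRG w₀ * h₀)) ≤ 8 * (K * r ^ M) := by
        have hx := hCh q (toRG w * (toRG w₀ * h₀)) (by linarith)
        have hy : C * nu r (toRG w * (toRG w₀ * h₀)) ≤ 1 / 2 := by
          have := mul_le_mul_of_nonneg_left hnu1 (by linarith : (0:ℝ) ≤ C)
          nlinarith
        have hz : C * nu r (toRG w * (toRG w₀ * h₀)) ^ 2 ≤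
            1 / 2 * nu r (toRG w * (toRG w₀ * h₀)) := by
          have := mul_le_mul_of_nonneg_right hy hnu10
          nlinarith
        linarith
      -- the path
      have hη : nz r w₀ ≤ 13 * (K * r ^ M) := by
        have e : toRG w₀ = (toRG w₀ * h₀) * h₀⁻¹ := by rw [mul_inv_cancel_right]
        have hinv : nu r h₀⁻¹ ≤ 4 * (K * r ^ M) :=
          (nu_inv_le hr.le (by linarith)).trans (by linarith)
        have hinv0 := nu_nonneg hr.le h₀⁻¹
        have : nz r w₀ = nu r ((toRG w₀ * h₀) * h₀⁻¹) := by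
          unfold nz
          rw [← e]
        rw [this]
        refine (nu_mul_le hr.le _ _).trans ?_
        have := mul_le_mul hnu hinv hinv0 (by nlinarith)
        nlinarith
      have hpath := h2.mul_right (h := w₀) hr.le hη (by linarith) (by nlinarith)
      rw [one_mul] at hpath
      have hconn' : Conn (ALow p M) r (100 * K * r ^ M) 1 (w * w₀) := by
        refine hconn.trans (Conn.mono (le_refl _) ?_ hpath)
        nlinarith
      refine ih (w * w₀) (mul_mem h1 hw) hconn' ?_ ?_ ?_ ?_ ?_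
      · rw [ez]; exact h7
      · rw [ez]; exact hnu2
      · rw [ez]; linarith
      · rw [ez]
        have h8 : 10 * (nu r (toRG w₀ * h₀) + r ^ M) * r ^ d ≤
            360 * (K * r ^ M) * (ph r q (toRG w₀ * h₀) - ph r q (toRG w * (toRG w₀ * h₀))) := by
          have h9 : 10 * (nu r (toRG w₀ * h₀) + r ^ M) ≤ 90 * (K * r ^ M) := by linarith
          have h10 : r ^ d ≤ 4 * (ph r q (toRG w₀ * h₀) - ph r q (toRG w * (toRG w₀ * h₀))) := by
            linarith
          have := mul_le_mul h9 h10 hrd.le (by positivity)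
          linarith
        linarith
      · rw [ez]
        push_cast at hm
        linarith

/-- the rounding lemma: constants `K` and `M₀` depend on `card J` and `r` only -/
theorem rounding (hr : 0 < r) (hr1 : r < 1) (J : Type) [Fintype J] [DecidableEq J] :
    ∃ K : ℝ, 1 ≤ K ∧ ∃ M₀ : ℕ, ∀ M ≥ M₀, ∀ p q : J, q ≠ p → ∀ h : SpecialLinearGroup J ℝ[X],
      Lo p M (h : Matrix J J ℝ[X]) → nu r h ≤ 2 * (K * r ^ M) →
      ∃ w ∈ FLow p M, Conn (ALow p M) r (100 * K * r ^ M) 1 w ∧ nu r (toRG w * h) ≤ K * r ^ M := by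
  obtain ⟨C, hC, hCh⟩ := nu_le_ph hr.le J
  have h1r : 0 < 1 - r := by linarith
  set c : ℝ := (Fintype.card J : ℝ) ^ 2 with hc
  have hc0 : 0 ≤ c := by positivity
  obtain ⟨K, hKdef⟩ : ∃ K : ℝ, K = 1 + 3 * (c / (1 - r)) := ⟨_, rfl⟩
  have hcr : 0 ≤ c / (1 - r) := div_nonneg hc0 h1r.le
  have hK : 1 ≤ K := by linarith
  have hKC : 1 ≤ K * C := by nlinarith
  refine ⟨K, hK, ?_⟩
  obtain ⟨M₀, hM₀⟩ := exists_pow_lt_of_lt_one (show (0:ℝ) < 1 / (20000 * (K * C)) by positivity) hr1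
  refine ⟨M₀, fun M hM p q hpq h hLo hnu => ?_⟩
  have hε : 0 < r ^ M := pow_pos hr M
  have hM' : 20000 * (K * C) * r ^ M ≤ 1 := by
    have h1 : r ^ M ≤ r ^ M₀ := pow_le_pow_of_le_one hr.le hr1.le hM
    have h2 : r ^ M ≤ 1 / (20000 * (K * C)) := h1.trans hM₀.le
    rw [le_div_iff₀ (by positivity)] at h2
    linarith
  have hKε : 0 ≤ K * r ^ M := by positivity
  obtain ⟨D, hD, htl⟩ := E4_tl_zero (r := r) M q h
  have e1 : toRG (1 : SpecialLinearGroup J ℤ[X]) * h = h := by rw [map_one, one_mul]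
  obtain ⟨m, hm⟩ := exists_nat_ge (ph r q h / (r ^ D / 4))
  have hrD : 0 < r ^ D / 4 := by positivity
  rw [div_le_iff₀ hrD] at hm
  obtain ⟨w, h1, h2, h3, h4, h5, h6⟩ := E4_iter hr hr1 hC hK hCh hM' hpq hnu hD m 1 (one_mem _)
    (Conn.refl _ _ _ _) (by rw [e1]; exact hLo) (by rw [e1]; linarith) (by rw [e1])
    (by rw [e1, htl, sub_self, mul_zero]) (by rw [e1]; exact hm)
  refine ⟨w, h1, h2, ?_⟩
  have h7 := E4_ph_le hr hr1 h3 h6
  have h8 := ph_nonneg hr.le q (toRG w * h)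
  have h9 : ph r q h ≤ 2 * (K * r ^ M) := (ph_le_nu hr.le q h).trans hnu
  have h10 : tl r q D (toRG w * h) ≤ 720 * (K * r ^ M) ^ 2 := by
    refine h5.trans ?_
    have := mul_le_mul_of_nonneg_left (show ph r q h - ph r q (toRG w * h) ≤ 2 * (K * r ^ M) by
      linarith) (show 0 ≤ 360 * (K * r ^ M) by positivity)
    nlinarith
  have hnn := nu_nonneg hr.le (toRG w * h)
  have hKC' : K * r ^ M ≤ K * C * r ^ M := by
    have := mul_le_mul_of_nonneg_left hC hKε
    nlinarith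
  have h11 := hCh q (toRG w * h) (by nlinarith)
  have h12 : C * nu r (toRG w * h) ^ 2 ≤ 64 * C * (K * r ^ M) ^ 2 := by
    have := pow_le_pow_left₀ hnn h4 2
    have := mul_le_mul_of_nonneg_left this (by linarith : (0:ℝ) ≤ C)
    nlinarith
  have h13 : c * (3 / 4 * (r ^ M / (1 - r))) = 3 / 4 * (c / (1 - r)) * r ^ M := by
    field_simp
  have h14 : (1440 + 64 * C) * (K * r ^ M) ^ 2 ≤ K * r ^ M / 2 := by
    have e : (1440 + 64 * C) * (K * r ^ M) ^ 2 = ((1440 + 64 * C) * (K * r ^ M)) * (K * r ^ M) := by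
      ring
    rw [e]
    have : (1440 + 64 * C) * (K * r ^ M) ≤ 1 / 2 := by nlinarith
    nlinarith
  have h15 : 2 * (c * (3 / 4 * (r ^ M / (1 - r)))) ≤ K * r ^ M / 2 := by
    rw [h13, hKdef]
    nlinarith
  rw [← hc] at h7
  nlinarith

end Pool.Agent.SSE
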