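import Pool.Agent.SSE.E1

/-!
# SSE-E4a : the determinant controls the last diagonal entry

`det (1 + H) = ∑_σ sign σ ∏_l (1 + H)_{σ l, l}`. `σ = 1`: `∏ (1 + H_ll) - 1 - ∑ H_ll` has norm `≤ mn²` (times a constant; induction over a finset);
`σ ≠ 1`: take `i` with `σ i ≠ i`, `j = σ i` then `σ j ≠ j`: norm `≤ mn² (1 + mn)^card`. Constants do not matter.
-/

set_option autoImplicit false

namespace Pool.Agent.SSE

open Polynomial Matrix

variable {r : ℝ} {J : Type} [Fintype J] [DecidableEq J]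

omit [Fintype J] in
private theorem E4a_prod (hr : 0 ≤ r) (S : Finset J) : ∃ C : ℝ, 0 ≤ C ∧
    ∀ (m : ℝ) (h : J → ℝ[X]), 0 ≤ m → m ≤ 1 → (∀ l, wn r (h l) ≤ m) →
      wn r (∏ l ∈ S, (1 + h l) - 1 - ∑ l ∈ S, h l) ≤ C * m ^ 2 := by
  induction S using Finset.induction_on with
  | empty =>
    refine ⟨0, le_rfl, fun m h hm hm1 hh => ?_⟩
    simp [wn_zero]
  | insert a S ha ih =>
    obtain ⟨C, hC, hCh⟩ := ih
    refine ⟨2 * C + S.card, by positivity, fun m h hm hm1 hh => ?_⟩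
    have h1 := hCh m h hm hm1 hh
    rw [Finset.prod_insert ha, Finset.sum_insert ha]
    have e : (1 + h a) * ∏ l ∈ S, (1 + h l) - 1 - (h a + ∑ l ∈ S, h l) =
        (∏ l ∈ S, (1 + h l) - 1 - ∑ l ∈ S, h l) +
          h a * ((∏ l ∈ S, (1 + h l) - 1 - ∑ l ∈ S, h l) + ∑ l ∈ S, h l) := by ring
    rw [e]
    have h2 : wn r (∑ l ∈ S, h l) ≤ S.card * m := by
      refine (wn_sum_le hr S h).trans ?_
      refine (Finset.sum_le_card_nsmul S _ m fun l _ => hh l).trans ?_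
      rw [nsmul_eq_mul]
    have h3 := wn_add_le hr (∏ l ∈ S, (1 + h l) - 1 - ∑ l ∈ S, h l) (∑ l ∈ S, h l)
    have h4 := wn_mul_le hr (h a) ((∏ l ∈ S, (1 + h l) - 1 - ∑ l ∈ S, h l) + ∑ l ∈ S, h l)
    have h5 := wn_nonneg hr ((∏ l ∈ S, (1 + h l) - 1 - ∑ l ∈ S, h l) + ∑ l ∈ S, h l)
    have h6 := wn_nonneg hr (h a)
    have h7 : wn r (h a) * wn r ((∏ l ∈ S, (1 + h l) - 1 - ∑ l ∈ S, h l) + ∑ l ∈ S, h l) ≤
        m * (C * m ^ 2 + S.card * m) :=
      mul_le_mul (hh a) (h3.trans (add_le_add h1 h2)) h5 hm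
    refine (wn_add_le hr _ _).trans ((add_le_add h1 (h4.trans h7)).trans ?_)
    have h8 : m * (C * m ^ 2) ≤ C * m ^ 2 := mul_le_of_le_one_left (by positivity) hm1
    nlinarith

private theorem E4a_zsmul (u : ℤˣ) (f : ℝ[X]) : wn r ((u : ℤ) • f) = wn r f := by
  rcases Int.units_eq_one_or u with h | h
  · rw [h]; simp
  · rw [h]
    have : ((-1 : ℤˣ) : ℤ) • f = -f := by simp
    rw [this, wn_neg]

private theorem E4a_perm (hr : 0 ≤ r) (H : Matrix J J ℝ[X]) (hH : mn r H ≤ 1)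
    (σ : Equiv.Perm J) (hσ : σ ≠ 1) :
    wn r (∏ l, (1 + H) (σ l) l) ≤ 2 ^ Fintype.card J * mn r H ^ 2 := by
  have hm := mn_nonneg hr H
  have hent := fun i j => entry_le_mn hr H i j
  obtain ⟨i, hi⟩ : ∃ i, σ i ≠ i := by
    by_contra hcon
    push Not at hcon
    exact hσ (Equiv.ext hcon)
  have hj : σ (σ i) ≠ σ i := fun h => hi (σ.injective h)
  have hoff : ∀ l, σ l ≠ l → wn r ((1 + H) (σ l) l) ≤ mn r H := by
    intro l hl
    rw [Matrix.add_apply, Matrix.one_apply_ne hl, zero_add]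
    exact hent _ _
  have hall : ∀ l, wn r ((1 + H) (σ l) l) ≤ 2 := by
    intro l
    rw [Matrix.add_apply]
    refine (wn_add_le hr _ _).trans ?_
    have h1 := hent (σ l) l
    by_cases h : σ l = l
    · rw [h, Matrix.one_apply_eq, wn_one]
      rw [h] at h1
      linarith
    · rw [Matrix.one_apply_ne h, wn_zero]
      linarith
  have hnn : ∀ l, 0 ≤ wn r ((1 + H) (σ l) l) := fun l => wn_nonneg hr _
  refine (wn_prod_le hr Finset.univ fun l => (1 + H) (σ l) l).trans ?_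
  rw [← Finset.mul_prod_erase Finset.univ _ (Finset.mem_univ i),
    ← Finset.mul_prod_erase (Finset.univ.erase i) _
      (Finset.mem_erase.2 ⟨hi, Finset.mem_univ (σ i)⟩)]
  have h3 : ∏ l ∈ (Finset.univ.erase i).erase (σ i), wn r ((1 + H) (σ l) l) ≤
      2 ^ Fintype.card J := by
    refine (Finset.prod_le_prod (fun l _ => hnn l) fun l _ => hall l).trans ?_
    rw [Finset.prod_const]
    exact pow_le_pow_right₀ (by norm_num)
      ((Finset.card_le_card (Finset.erase_subset _ _)).trans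
        ((Finset.card_le_card (Finset.erase_subset _ _)).trans (le_of_eq Finset.card_univ)))
  have h4 : 0 ≤ ∏ l ∈ (Finset.univ.erase i).erase (σ i), wn r ((1 + H) (σ l) l) :=
    Finset.prod_nonneg fun l _ => hnn l
  calc wn r ((1 + H) (σ i) i) * (wn r ((1 + H) (σ (σ i)) (σ i)) *
        ∏ l ∈ (Finset.univ.erase i).erase (σ i), wn r ((1 + H) (σ l) l))
      ≤ mn r H * (mn r H * 2 ^ Fintype.card J) :=
        mul_le_mul (hoff i hi) (mul_le_mul (hoff (σ i) hj) h3 h4 hm)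
          (mul_nonneg (hnn _) h4) hm
    _ = 2 ^ Fintype.card J * mn r H ^ 2 := by ring

/-- `‖det(1+H) - 1 - tr H‖ ≤ C ‖H‖²` -/
theorem det_one_add_le (hr : 0 ≤ r) (J : Type) [Fintype J] [DecidableEq J] :
    ∃ C : ℝ, 1 ≤ C ∧ ∀ H : Matrix J J ℝ[X], mn r H ≤ 1 →
      wn r ((1 + H).det - 1 - H.trace) ≤ C * mn r H ^ 2 := by
  obtain ⟨C, hC, hCh⟩ := E4a_prod (J := J) hr Finset.univ
  refine ⟨C + (Fintype.card (Equiv.Perm J)) * 2 ^ Fintype.card J + 1, ?_, fun H hH => ?_⟩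
  · have : (0 : ℝ) ≤ (Fintype.card (Equiv.Perm J)) * 2 ^ Fintype.card J := by positivity
    linarith
  have hm := mn_nonneg hr H
  have h1 := hCh (mn r H) (fun l => H l l) hm hH fun l => entry_le_mn hr H l l
  have e : (1 + H).det - 1 - H.trace = (∏ l, (1 + H l l) - 1 - ∑ l, H l l) +
      ∑ σ ∈ Finset.univ.erase (1 : Equiv.Perm J), (Equiv.Perm.sign σ : ℤ) • ∏ l, (1 + H) (σ l) l := by
    rw [Matrix.det_apply, ← Finset.add_sum_erase Finset.univ _ (Finset.mem_univ (1 : Equiv.Perm J))]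
    have e1 : Equiv.Perm.sign (1 : Equiv.Perm J) • ∏ l, (1 + H) ((1 : Equiv.Perm J) l) l =
        ∏ l, (1 + H l l) := by
      rw [Equiv.Perm.sign_one, one_smul]
      refine Finset.prod_congr rfl fun l _ => ?_
      rw [Equiv.Perm.one_apply, Matrix.add_apply, Matrix.one_apply_eq]
    rw [e1]
    have e2 : H.trace = ∑ l, H l l := rfl
    rw [e2]
    have e3 : ∀ σ : Equiv.Perm J, Equiv.Perm.sign σ • ∏ l, (1 + H) (σ l) l =
        (Equiv.Perm.sign σ : ℤ) • ∏ l, (1 + H) (σ l) l := fun σ => rfl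
    simp only [e3]
    ring
  rw [e]
  refine (wn_add_le hr _ _).trans ?_
  have h2 : wn r (∑ σ ∈ Finset.univ.erase (1 : Equiv.Perm J),
      (Equiv.Perm.sign σ : ℤ) • ∏ l, (1 + H) (σ l) l) ≤
      (Fintype.card (Equiv.Perm J)) * (2 ^ Fintype.card J * mn r H ^ 2) := by
    refine (wn_sum_le hr _ _).trans ?_
    refine (Finset.sum_le_card_nsmul _ _ (2 ^ Fintype.card J * mn r H ^ 2) ?_).trans ?_
    · intro σ hσ
      rw [E4a_zsmul]
      exact E4a_perm hr H hH σ (Finset.ne_of_mem_erase hσ)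
    · rw [nsmul_eq_mul]
      refine mul_le_mul_of_nonneg_right ?_ (by positivity)
      exact_mod_cast (Finset.card_le_card (Finset.erase_subset _ _)).trans
        (le_of_eq Finset.card_univ)
  have h3 : 0 ≤ mn r H ^ 2 := by positivity
  nlinarith

/-- `Φ` : the norm of `g - 1` without the entry `(q, q)` -/
noncomputable def ph (r : ℝ) (q : J) (g : SpecialLinearGroup J ℝ[X]) : ℝ :=
  nu r g - wn r ((g : Matrix J J ℝ[X]) q q - 1)

theorem ph_nonneg (hr : 0 ≤ r) (q : J) (g : SpecialLinearGroup J ℝ[X]) : 0 ≤ ph r q g := by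
  have h1 := entry_le_mn hr ((g : Matrix J J ℝ[X]) - 1) q q
  rw [Matrix.sub_apply, Matrix.one_apply_eq] at h1
  unfold ph nu
  linarith

theorem ph_le_nu (hr : 0 ≤ r) (q : J) (g : SpecialLinearGroup J ℝ[X]) : ph r q g ≤ nu r g := by
  have h1 := wn_nonneg hr ((g : Matrix J J ℝ[X]) q q - 1)
  unfold ph
  linarith

/-- `nu ≤ 2 Φ + C nu²` -/
theorem nu_le_ph (hr : 0 ≤ r) (J : Type) [Fintype J] [DecidableEq J] :
    ∃ C : ℝ, 1 ≤ C ∧ ∀ (q : J) (g : SpecialLinearGroup J ℝ[X]), nu r g ≤ 1 →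
      nu r g ≤ 2 * ph r q g + C * nu r g ^ 2 := by
  obtain ⟨C, hC, hCh⟩ := det_one_add_le hr J
  refine ⟨C, hC, fun q g hg => ?_⟩
  set H : Matrix J J ℝ[X] := (g : Matrix J J ℝ[X]) - 1 with hH
  have hnu : nu r g = mn r H := rfl
  have hg' : (1 + H).det = 1 := by
    rw [hH, add_sub_cancel]
    exact g.det_coe
  have h1 := hCh H (by rw [← hnu]; exact hg)
  rw [hg', sub_self, zero_sub, wn_neg, ← hnu] at h1
  have hqq : (g : Matrix J J ℝ[X]) q q - 1 = H q q := by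
    rw [hH, Matrix.sub_apply, Matrix.one_apply_eq]
  have h2 : H.trace = H q q + ∑ i ∈ Finset.univ.erase q, H i i := by
    have e2 : H.trace = ∑ l, H l l := rfl
    rw [e2, Finset.add_sum_erase Finset.univ (fun l => H l l) (Finset.mem_univ q)]
  have h3 : H q q = H.trace - ∑ i ∈ Finset.univ.erase q, H i i := by
    rw [h2]; ring
  have h4 : wn r (H q q) ≤ wn r H.trace + ∑ i ∈ Finset.univ.erase q, wn r (H i i) := by
    rw [h3]
    refine (wn_sub_le hr _ _).trans ?_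
    have := wn_sum_le hr (Finset.univ.erase q) fun i => H i i
    linarith
  have h5 : wn r (H q q) + ∑ i ∈ Finset.univ.erase q, wn r (H i i) ≤ mn r H := by
    rw [Finset.add_sum_erase Finset.univ (fun l => wn r (H l l)) (Finset.mem_univ q)]
    unfold mn
    refine Finset.sum_le_sum fun i _ => ?_
    exact Finset.single_le_sum (f := fun j => wn r (H i j)) (fun j _ => wn_nonneg hr _)
      (Finset.mem_univ i)
  have h6 : ph r q g = mn r H - wn r (H q q) := by
    unfold ph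
    rw [hqq]
    rfl
  rw [h6, hnu]
  rw [hnu] at h1
  linarith

end Pool.Agent.SSE
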