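import Pool.Agent.SSE.E3
import Pool.Agent.SSE.E4a

/-!
# SSE-E4b : one rounding step

`tl r q D h` = part of the norm of `h - 1` (without the entry `(q,q)`) in degrees `> D`.
Off-diagonal `(i,j)`, coefficient `x` of `t^d`, `|x| ≥ 3/4`, `d ≤ D`: left multiplication by `x = E_ij(∓ t^d)`:
the entry `(i,j)` changes to `H_ij ∓ t^d (1 + H_jj)`, `(i,l)` to `H_il ∓ t^d H_jl`. `||x| - 1| ≤ |x| - 1/2`.
Diagonal `(i,i)`, `i ≠ q`, `d ≥ 2M`: left multiplication by the commutator `[E_iq(t^M), E_qi(∓ t^(d-M))] = 1 + Z`,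
`a = t^M`, `b = ∓ t^(d-M)`: `Z_ii = ab + (ab)²`, `Z_iq = -a² b`, `Z_qi = a b²`, `Z_qq = -ab`; `mn Z ≤ 5 r^d`.
-/

set_option autoImplicit false

namespace Pool.Agent.SSE

open Polynomial Matrix

variable {r : ℝ} {J : Type} [Fintype J] [DecidableEq J]

/-- part of the weighted norm in degrees `> D` -/
noncomputable def wt (r : ℝ) (D : ℕ) (f : ℝ[X]) : ℝ :=
  ∑ k ∈ f.support.filter (fun k => D < k), |f.coeff k| * r ^ k

/-- `Ψ`: the tail of all entries except `(q, q)` -/
noncomputable def tl (r : ℝ) (q : J) (D : ℕ) (g : SpecialLinearGroup J ℝ[X]) : ℝ :=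
  ∑ i, ∑ j, if i = q ∧ j = q then 0 else wt r D ((g : Matrix J J ℝ[X]) i j - (1 : Matrix J J ℝ[X]) i j)

theorem wt_nonneg (hr : 0 ≤ r) (D : ℕ) (f : ℝ[X]) : 0 ≤ wt r D f := by
  unfold wt
  exact Finset.sum_nonneg fun k _ => mul_nonneg (abs_nonneg _) (pow_nonneg hr k)

private theorem E4b_wt_eq {D : ℕ} {f : ℝ[X]} {s : Finset ℕ} (h : f.support ⊆ s) :
    wt r D f = ∑ k ∈ s.filter (fun k => D < k), |f.coeff k| * r ^ k := by
  unfold wt
  apply Finset.sum_subset
  · exact Finset.filter_subset_filter _ h
  · intro k hk hk'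
    have : k ∉ f.support := by
      intro hks
      exact hk' (Finset.mem_filter.2 ⟨hks, (Finset.mem_filter.1 hk).2⟩)
    have h0 : f.coeff k = 0 := by simpa using this
    simp [h0]

theorem wt_add_le (hr : 0 ≤ r) (D : ℕ) (f g : ℝ[X]) : wt r D (f + g) ≤ wt r D f + wt r D g := by
  classical
  rw [E4b_wt_eq (r := r) (D := D) (f := f) (s := f.support ∪ g.support) Finset.subset_union_left,
    E4b_wt_eq (r := r) (D := D) (f := g) (s := f.support ∪ g.support) Finset.subset_union_right,
    E4b_wt_eq (r := r) (D := D) (f := f + g) (s := f.support ∪ g.support)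
      Polynomial.support_add, ← Finset.sum_add_distrib]
  apply Finset.sum_le_sum
  intro k _
  rw [Polynomial.coeff_add, ← add_mul]
  exact mul_le_mul_of_nonneg_right (abs_add_le _ _) (pow_nonneg hr k)

theorem wt_le_wn (hr : 0 ≤ r) (D : ℕ) (f : ℝ[X]) : wt r D f ≤ wn r f := by
  unfold wt wn
  exact Finset.sum_le_sum_of_subset_of_nonneg (Finset.filter_subset _ _)
    fun k _ _ => mul_nonneg (abs_nonneg _) (pow_nonneg hr k)

theorem wt_monomial_of_le {D k : ℕ} (hk : k ≤ D) (a : ℝ) : wt r D (monomial k a) = 0 := by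
  rw [E4b_wt_eq (r := r) (D := D) (f := monomial k a) (s := {k})
    (Polynomial.support_monomial_subset _ _)]
  have : ({k} : Finset ℕ).filter (fun l => D < l) = ∅ := by
    ext l
    simp only [Finset.mem_filter, Finset.mem_singleton, Finset.notMem_empty, iff_false, not_and,
      not_lt]
    rintro rfl
    exact hk
  rw [this, Finset.sum_empty]

/-- removing one unit from a coefficient `≥ 3/4` -/
theorem wn_unit (hr : 0 ≤ r) (f : ℝ[X]) (d : ℕ) (h : 3 / 4 ≤ |f.coeff d|) :
    ∃ c : ℤ, (c = 1 ∨ c = -1) ∧ wn r (f + monomial d (c : ℝ)) ≤ wn r f - r ^ d / 2 := by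
  classical
  have key : ∃ c : ℤ, (c = 1 ∨ c = -1) ∧ |f.coeff d + (c : ℝ)| ≤ |f.coeff d| - 1 / 2 := by
    rcases le_or_gt 0 (f.coeff d) with h0 | h0
    · refine ⟨-1, Or.inr rfl, ?_⟩
      rw [abs_of_nonneg h0] at h ⊢
      push_cast
      rw [abs_le]
      constructor <;> linarith
    · refine ⟨1, Or.inl rfl, ?_⟩
      rw [abs_of_neg h0] at h ⊢
      push_cast
      rw [abs_le]
      constructor <;> linarith
  obtain ⟨c, hc, hle⟩ := key
  refine ⟨c, hc, ?_⟩
  have hs1 : f.support ⊆ insert d f.support := Finset.subset_insert _ _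
  have hs2 : (f + monomial d (c : ℝ)).support ⊆ insert d f.support := by
    intro k hk
    by_contra hk'
    rw [Finset.mem_insert, not_or] at hk'
    have h1 : f.coeff k = 0 := by simpa using hk'.2
    have h2 : (f + monomial d (c : ℝ)).coeff k = 0 := by
      rw [Polynomial.coeff_add, Polynomial.coeff_monomial, if_neg (fun e => hk'.1 e.symm), h1,
        add_zero]
    exact (Polynomial.mem_support_iff.1 hk) h2
  rw [wn_eq (r := r) hs1, wn_eq (r := r) hs2]
  have hd : d ∈ insert d f.support := Finset.mem_insert_self _ _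
  rw [← Finset.add_sum_erase _ _ hd, ← Finset.add_sum_erase _ _ hd]
  have e1 : ∑ k ∈ (insert d f.support).erase d,
      |(f + monomial d (c : ℝ)).coeff k| * r ^ k =
      ∑ k ∈ (insert d f.support).erase d, |f.coeff k| * r ^ k := by
    apply Finset.sum_congr rfl
    intro k hk
    rw [Polynomial.coeff_add, Polynomial.coeff_monomial,
      if_neg (fun e => (Finset.ne_of_mem_erase hk) e.symm), add_zero]
  rw [e1]
  have e2 : (f + monomial d (c : ℝ)).coeff d = f.coeff d + (c : ℝ) := by
    rw [Polynomial.coeff_add, Polynomial.coeff_monomial, if_pos rfl]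
  rw [e2]
  have hp : 0 ≤ r ^ d := pow_nonneg hr d
  nlinarith [mul_le_mul_of_nonneg_right hle hp]

/-- the sum over all entries except `(q,q)` of a size function -/
private noncomputable def E4b_P (S : ℝ[X] → ℝ) (q : J) (g : SpecialLinearGroup J ℝ[X]) : ℝ :=
  ∑ i, ∑ j, if i = q ∧ j = q then 0 else
    S ((g : Matrix J J ℝ[X]) i j - (1 : Matrix J J ℝ[X]) i j)

private theorem E4b_ph (r : ℝ) (q : J) (g : SpecialLinearGroup J ℝ[X]) :
    ph r q g = E4b_P (wn r) q g := by
  classical
  unfold ph nu mn E4b_P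
  have h1 : ∑ i, ∑ j, wn r (((g : Matrix J J ℝ[X]) - 1) i j) =
      ∑ i, ∑ j, ((if i = q ∧ j = q then 0 else
        wn r ((g : Matrix J J ℝ[X]) i j - (1 : Matrix J J ℝ[X]) i j)) +
        (if i = q ∧ j = q then wn r ((g : Matrix J J ℝ[X]) q q - 1) else 0)) := by
    apply Finset.sum_congr rfl
    intro i _
    apply Finset.sum_congr rfl
    intro j _
    by_cases hq : i = q ∧ j = q
    · rw [if_pos hq, if_pos hq, hq.1, hq.2]
      simp
    · rw [if_neg hq, if_neg hq]
      simp
  rw [h1]
  simp only [Finset.sum_add_distrib]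
  have h2 : ∑ i, ∑ j, (if i = q ∧ j = q then wn r ((g : Matrix J J ℝ[X]) q q - 1) else 0) =
      wn r ((g : Matrix J J ℝ[X]) q q - 1) := by
    rw [Finset.sum_eq_single q, Finset.sum_eq_single q]
    · simp
    · intro b _ hb
      simp [hb]
    · intro h; exact absurd (Finset.mem_univ _) h
    · intro b _ hb
      simp [hb]
    · intro h; exact absurd (Finset.mem_univ _) h
  rw [h2]
  ring

private theorem E4b_tl (r : ℝ) (q : J) (D : ℕ) (g : SpecialLinearGroup J ℝ[X]) :
    tl r q D g = E4b_P (wt r D) q g := rfl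

private theorem E4b_row_le (hr : 0 ≤ r) (g : SpecialLinearGroup J ℝ[X]) (i : J) :
    ∑ l, wn r ((g : Matrix J J ℝ[X]) i l - (1 : Matrix J J ℝ[X]) i l) ≤ nu r g := by
  unfold nu mn
  have := Finset.single_le_sum
    (f := fun i => ∑ j, wn r (((g : Matrix J J ℝ[X]) - 1) i j)) (s := Finset.univ)
    (fun i _ => Finset.sum_nonneg fun j _ => wn_nonneg hr _) (Finset.mem_univ i)
  simpa using this

private theorem E4b_toR_monomial (d : ℕ) (c : ℤ) :
    toR (monomial d c) = (monomial d (c : ℝ) : ℝ[X]) := by
  unfold toR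
  simp

/-- general estimate for a left multiplication by `1 + c t^d e_ij` -/
private theorem E4b_off {S : ℝ[X] → ℝ} (hSadd : ∀ f g, S (f + g) ≤ S f + S g)
    (hSn : ∀ f, S f ≤ wn r f) (hr : 0 < r) {q i j : J} (hij : i ≠ j) (d : ℕ) (c : ℝ)
    (hc : |c| = 1)
    {g h : SpecialLinearGroup J ℝ[X]}
    (hg : ∀ a b, (g : Matrix J J ℝ[X]) a b = (h : Matrix J J ℝ[X]) a b +
      (if a = i then monomial d c * (h : Matrix J J ℝ[X]) j b else 0)) {δ : ℝ}
    (hδ : S ((h : Matrix J J ℝ[X]) i j - (1 : Matrix J J ℝ[X]) i j + monomial d c) ≤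
      S ((h : Matrix J J ℝ[X]) i j - (1 : Matrix J J ℝ[X]) i j) + δ) :
    E4b_P S q g ≤ E4b_P S q h + δ + r ^ d * nu r h := by
  classical
  have hrd : 0 ≤ r ^ d := pow_nonneg hr.le d
  have term : ∀ a b, (if a = q ∧ b = q then 0 else
      S ((g : Matrix J J ℝ[X]) a b - (1 : Matrix J J ℝ[X]) a b)) ≤
      (if a = q ∧ b = q then 0 else
        S ((h : Matrix J J ℝ[X]) a b - (1 : Matrix J J ℝ[X]) a b)) +
      (if a = i then (if b = j then δ else 0) else 0) +
      (if a = i then r ^ d * wn r ((h : Matrix J J ℝ[X]) j b - (1 : Matrix J J ℝ[X]) j b)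
        else 0) := by
    intro a b
    have hw : 0 ≤ r ^ d * wn r ((h : Matrix J J ℝ[X]) j b - (1 : Matrix J J ℝ[X]) j b) :=
      mul_nonneg hrd (wn_nonneg hr.le _)
    by_cases hq : a = q ∧ b = q
    · rw [if_pos hq, if_pos hq]
      have h1 : (if a = i then (if b = j then δ else 0) else 0) = (0 : ℝ) := by
        by_cases ha : a = i
        · rw [if_pos ha, if_neg]
          intro hb
          exact hij (by rw [← ha, ← hb, hq.1, hq.2])
        · rw [if_neg ha]
      rw [h1]
      split_ifs <;> linarith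
    · rw [if_neg hq, if_neg hq, hg a b]
      by_cases ha : a = i
      · subst ha
        rw [if_pos rfl, if_pos rfl, if_pos rfl]
        have hmul : S (monomial d c * ((h : Matrix J J ℝ[X]) j b - (1 : Matrix J J ℝ[X]) j b)) ≤
            r ^ d * wn r ((h : Matrix J J ℝ[X]) j b - (1 : Matrix J J ℝ[X]) j b) := by
          refine (hSn _).trans ((wn_mul_le hr.le _ _).trans ?_)
          rw [wn_monomial, hc, one_mul]
        by_cases hb : b = j
        · subst hb
          rw [if_pos rfl]
          have e : (h : Matrix J J ℝ[X]) a b + monomial d c * (h : Matrix J J ℝ[X]) b b -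
              (1 : Matrix J J ℝ[X]) a b =
              ((h : Matrix J J ℝ[X]) a b - (1 : Matrix J J ℝ[X]) a b + monomial d c) +
              monomial d c * ((h : Matrix J J ℝ[X]) b b - (1 : Matrix J J ℝ[X]) b b) := by
            rw [Matrix.one_apply_eq]; ring
          rw [e]
          have := hSadd ((h : Matrix J J ℝ[X]) a b - (1 : Matrix J J ℝ[X]) a b + monomial d c)
            (monomial d c * ((h : Matrix J J ℝ[X]) b b - (1 : Matrix J J ℝ[X]) b b))
          linarith
        · rw [if_neg hb]
          have e : (h : Matrix J J ℝ[X]) a b + monomial d c * (h : Matrix J J ℝ[X]) j b -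
              (1 : Matrix J J ℝ[X]) a b =
              ((h : Matrix J J ℝ[X]) a b - (1 : Matrix J J ℝ[X]) a b) +
              monomial d c * ((h : Matrix J J ℝ[X]) j b - (1 : Matrix J J ℝ[X]) j b) := by
            rw [Matrix.one_apply_ne (Ne.symm hb)]; ring
          rw [e]
          have := hSadd ((h : Matrix J J ℝ[X]) a b - (1 : Matrix J J ℝ[X]) a b)
            (monomial d c * ((h : Matrix J J ℝ[X]) j b - (1 : Matrix J J ℝ[X]) j b))
          linarith
      · rw [if_neg ha, if_neg ha, if_neg ha]
        simp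
  have hsum := Finset.sum_le_sum (s := Finset.univ) (fun a (_ : a ∈ Finset.univ) =>
    Finset.sum_le_sum (s := Finset.univ) (fun b (_ : b ∈ Finset.univ) => term a b))
  unfold E4b_P
  refine hsum.trans ?_
  simp only [Finset.sum_add_distrib]
  have e1 : ∑ a, ∑ b, (if a = i then (if b = j then δ else 0) else 0) = δ := by
    rw [Finset.sum_eq_single i, Finset.sum_eq_single j]
    · simp
    · intro b _ hb; simp [hb]
    · intro h; exact absurd (Finset.mem_univ _) h
    · intro a _ ha; simp [ha]
    · intro h; exact absurd (Finset.mem_univ _) h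
  have e2 : ∑ a, ∑ b, (if a = i then r ^ d *
      wn r ((h : Matrix J J ℝ[X]) j b - (1 : Matrix J J ℝ[X]) j b) else 0) ≤
      r ^ d * nu r h := by
    rw [Finset.sum_eq_single i]
    · simp only [if_true]
      rw [← Finset.mul_sum]
      exact mul_le_mul_of_nonneg_left (E4b_row_le hr.le h j) hrd
    · intro a _ ha; simp [ha]
    · intro h; exact absurd (Finset.mem_univ _) h
  rw [e1]
  linarith

/-- general estimate for a left multiplication by `1 + Z`, `Z` in the rows and columns `i, q` -/
private theorem E4b_diag {S : ℝ[X] → ℝ}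
    (hSadd : ∀ f g, S (f + g) ≤ S f + S g)
    (hSn : ∀ f, S f ≤ wn r f) (hr : 0 < r) {q i : J} (hiq : i ≠ q)
    {g h : SpecialLinearGroup J ℝ[X]} {u e zii ziq zqi zqq : ℝ[X]}
    (hzii : zii = u + e)
    (hg : ∀ a b, (g : Matrix J J ℝ[X]) a b = (h : Matrix J J ℝ[X]) a b +
      (if a = i then zii * (h : Matrix J J ℝ[X]) i b + ziq * (h : Matrix J J ℝ[X]) q b else 0) +
      (if a = q then zqi * (h : Matrix J J ℝ[X]) i b + zqq * (h : Matrix J J ℝ[X]) q b else 0))
    {δ : ℝ}
    (hδ : S ((h : Matrix J J ℝ[X]) i i - (1 : Matrix J J ℝ[X]) i i + u) ≤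
      S ((h : Matrix J J ℝ[X]) i i - (1 : Matrix J J ℝ[X]) i i) + δ) :
    E4b_P S q g ≤ E4b_P S q h + δ + (wn r e + (wn r zii + wn r zqi + wn r ziq + wn r zqq) * nu r h +
      wn r ziq + wn r zqi) := by
  classical
  have term : ∀ a b, (if a = q ∧ b = q then 0 else
      S ((g : Matrix J J ℝ[X]) a b - (1 : Matrix J J ℝ[X]) a b)) ≤
      (if a = q ∧ b = q then 0 else
        S ((h : Matrix J J ℝ[X]) a b - (1 : Matrix J J ℝ[X]) a b)) +
      (if a = i then (if b = i then δ + wn r e else 0) else 0) +
      (if a = i then (if b = q then wn r ziq else 0) else 0) +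
      (if a = q then (if b = i then wn r zqi else 0) else 0) +
      (if a = i then wn r zii * wn r ((h : Matrix J J ℝ[X]) i b - (1 : Matrix J J ℝ[X]) i b) +
        wn r ziq * wn r ((h : Matrix J J ℝ[X]) q b - (1 : Matrix J J ℝ[X]) q b) else 0) +
      (if a = q then wn r zqi * wn r ((h : Matrix J J ℝ[X]) i b - (1 : Matrix J J ℝ[X]) i b) +
        wn r zqq * wn r ((h : Matrix J J ℝ[X]) q b - (1 : Matrix J J ℝ[X]) q b) else 0) := by
    intro a b
    have n1 : 0 ≤ wn r zii * wn r ((h : Matrix J J ℝ[X]) i b - (1 : Matrix J J ℝ[X]) i b) :=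
      mul_nonneg (wn_nonneg hr.le _) (wn_nonneg hr.le _)
    have n2 : 0 ≤ wn r ziq * wn r ((h : Matrix J J ℝ[X]) q b - (1 : Matrix J J ℝ[X]) q b) :=
      mul_nonneg (wn_nonneg hr.le _) (wn_nonneg hr.le _)
    have n3 : 0 ≤ wn r zqi * wn r ((h : Matrix J J ℝ[X]) i b - (1 : Matrix J J ℝ[X]) i b) :=
      mul_nonneg (wn_nonneg hr.le _) (wn_nonneg hr.le _)
    have n4 : 0 ≤ wn r zqq * wn r ((h : Matrix J J ℝ[X]) q b - (1 : Matrix J J ℝ[X]) q b) :=
      mul_nonneg (wn_nonneg hr.le _) (wn_nonneg hr.le _)
    have n5 : 0 ≤ wn r zqi := wn_nonneg hr.le _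
    have n6 : 0 ≤ wn r ziq := wn_nonneg hr.le _
    have sm : ∀ z f : ℝ[X], S (z * f) ≤ wn r z * wn r f := fun z f =>
      (hSn _).trans (wn_mul_le hr.le _ _)
    by_cases hai : a = i
    · subst hai
      have haq : ¬ a = q := hiq
      have hq : ¬ (a = q ∧ b = q) := fun h => haq h.1
      rw [if_neg hq, if_neg hq, hg a b]
      simp only [if_true, if_neg haq, add_zero]
      by_cases hb : b = a
      · subst hb
        rw [if_pos rfl, if_neg haq]
        have e0 : (h : Matrix J J ℝ[X]) b b + (zii * (h : Matrix J J ℝ[X]) b b +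
            ziq * (h : Matrix J J ℝ[X]) q b) - (1 : Matrix J J ℝ[X]) b b =
            (((h : Matrix J J ℝ[X]) b b - (1 : Matrix J J ℝ[X]) b b + u) + e) +
            (zii * ((h : Matrix J J ℝ[X]) b b - (1 : Matrix J J ℝ[X]) b b) +
            ziq * ((h : Matrix J J ℝ[X]) q b - (1 : Matrix J J ℝ[X]) q b)) := by
          rw [Matrix.one_apply_eq, Matrix.one_apply_ne (Ne.symm hiq), hzii]; ring
        rw [e0]
        have s1 := hSadd (((h : Matrix J J ℝ[X]) b b - (1 : Matrix J J ℝ[X]) b b + u) + e)
            (zii * ((h : Matrix J J ℝ[X]) b b - (1 : Matrix J J ℝ[X]) b b) +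
            ziq * ((h : Matrix J J ℝ[X]) q b - (1 : Matrix J J ℝ[X]) q b))
        have s2 := hSadd ((h : Matrix J J ℝ[X]) b b - (1 : Matrix J J ℝ[X]) b b + u) e
        have s3 := hSadd (zii * ((h : Matrix J J ℝ[X]) b b - (1 : Matrix J J ℝ[X]) b b))
            (ziq * ((h : Matrix J J ℝ[X]) q b - (1 : Matrix J J ℝ[X]) q b))
        have s4 := sm zii ((h : Matrix J J ℝ[X]) b b - (1 : Matrix J J ℝ[X]) b b)
        have s5 := sm ziq ((h : Matrix J J ℝ[X]) q b - (1 : Matrix J J ℝ[X]) q b)
        have s6 := hSn e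
        linarith
      · rw [if_neg hb]
        by_cases hbq : b = q
        · subst hbq
          rw [if_pos rfl]
          have e0 : (h : Matrix J J ℝ[X]) a b + (zii * (h : Matrix J J ℝ[X]) a b +
              ziq * (h : Matrix J J ℝ[X]) b b) - (1 : Matrix J J ℝ[X]) a b =
              (((h : Matrix J J ℝ[X]) a b - (1 : Matrix J J ℝ[X]) a b) + ziq) +
              (zii * ((h : Matrix J J ℝ[X]) a b - (1 : Matrix J J ℝ[X]) a b) +
              ziq * ((h : Matrix J J ℝ[X]) b b - (1 : Matrix J J ℝ[X]) b b)) := by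
            rw [Matrix.one_apply_eq, Matrix.one_apply_ne hiq]; ring
          rw [e0]
          have s1 := hSadd (((h : Matrix J J ℝ[X]) a b - (1 : Matrix J J ℝ[X]) a b) + ziq)
              (zii * ((h : Matrix J J ℝ[X]) a b - (1 : Matrix J J ℝ[X]) a b) +
              ziq * ((h : Matrix J J ℝ[X]) b b - (1 : Matrix J J ℝ[X]) b b))
          have s2 := hSadd ((h : Matrix J J ℝ[X]) a b - (1 : Matrix J J ℝ[X]) a b) ziq
          have s3 := hSadd (zii * ((h : Matrix J J ℝ[X]) a b - (1 : Matrix J J ℝ[X]) a b))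
              (ziq * ((h : Matrix J J ℝ[X]) b b - (1 : Matrix J J ℝ[X]) b b))
          have s4 := sm zii ((h : Matrix J J ℝ[X]) a b - (1 : Matrix J J ℝ[X]) a b)
          have s5 := sm ziq ((h : Matrix J J ℝ[X]) b b - (1 : Matrix J J ℝ[X]) b b)
          have s6 := hSn ziq
          linarith
        · rw [if_neg hbq]
          have e0 : (h : Matrix J J ℝ[X]) a b + (zii * (h : Matrix J J ℝ[X]) a b +
              ziq * (h : Matrix J J ℝ[X]) q b) - (1 : Matrix J J ℝ[X]) a b =
              ((h : Matrix J J ℝ[X]) a b - (1 : Matrix J J ℝ[X]) a b) +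
              (zii * ((h : Matrix J J ℝ[X]) a b - (1 : Matrix J J ℝ[X]) a b) +
              ziq * ((h : Matrix J J ℝ[X]) q b - (1 : Matrix J J ℝ[X]) q b)) := by
            rw [Matrix.one_apply_ne (Ne.symm hb), Matrix.one_apply_ne (Ne.symm hbq)]; ring
          rw [e0]
          have s1 := hSadd ((h : Matrix J J ℝ[X]) a b - (1 : Matrix J J ℝ[X]) a b)
              (zii * ((h : Matrix J J ℝ[X]) a b - (1 : Matrix J J ℝ[X]) a b) +
              ziq * ((h : Matrix J J ℝ[X]) q b - (1 : Matrix J J ℝ[X]) q b))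
          have s3 := hSadd (zii * ((h : Matrix J J ℝ[X]) a b - (1 : Matrix J J ℝ[X]) a b))
              (ziq * ((h : Matrix J J ℝ[X]) q b - (1 : Matrix J J ℝ[X]) q b))
          have s4 := sm zii ((h : Matrix J J ℝ[X]) a b - (1 : Matrix J J ℝ[X]) a b)
          have s5 := sm ziq ((h : Matrix J J ℝ[X]) q b - (1 : Matrix J J ℝ[X]) q b)
          linarith
    · simp only [if_neg hai, add_zero]
      by_cases haq : a = q
      · subst haq
        by_cases hb : b = a
        · subst hb
          simp only [if_true, and_self]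
          rw [if_neg (fun e => hiq e.symm)]
          linarith
        · have hq : ¬ (a = a ∧ b = a) := fun h => hb h.2
          rw [if_neg hq, if_neg hq, hg a b]
          simp only [if_true, if_neg hai, add_zero]
          by_cases hbi : b = i
          · subst hbi
            rw [if_pos rfl]
            have e0 : (h : Matrix J J ℝ[X]) a b + (zqi * (h : Matrix J J ℝ[X]) b b +
                zqq * (h : Matrix J J ℝ[X]) a b) - (1 : Matrix J J ℝ[X]) a b =
                (((h : Matrix J J ℝ[X]) a b - (1 : Matrix J J ℝ[X]) a b) + zqi) +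
                (zqi * ((h : Matrix J J ℝ[X]) b b - (1 : Matrix J J ℝ[X]) b b) +
                zqq * ((h : Matrix J J ℝ[X]) a b - (1 : Matrix J J ℝ[X]) a b)) := by
              rw [Matrix.one_apply_eq, Matrix.one_apply_ne hai]; ring
            rw [e0]
            have s1 := hSadd (((h : Matrix J J ℝ[X]) a b - (1 : Matrix J J ℝ[X]) a b) + zqi)
                (zqi * ((h : Matrix J J ℝ[X]) b b - (1 : Matrix J J ℝ[X]) b b) +
                zqq * ((h : Matrix J J ℝ[X]) a b - (1 : Matrix J J ℝ[X]) a b))
            have s2 := hSadd ((h : Matrix J J ℝ[X]) a b - (1 : Matrix J J ℝ[X]) a b) zqi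
            have s3 := hSadd (zqi * ((h : Matrix J J ℝ[X]) b b - (1 : Matrix J J ℝ[X]) b b))
                (zqq * ((h : Matrix J J ℝ[X]) a b - (1 : Matrix J J ℝ[X]) a b))
            have s4 := sm zqi ((h : Matrix J J ℝ[X]) b b - (1 : Matrix J J ℝ[X]) b b)
            have s5 := sm zqq ((h : Matrix J J ℝ[X]) a b - (1 : Matrix J J ℝ[X]) a b)
            have s6 := hSn zqi
            linarith
          · rw [if_neg hbi]
            have e0 : (h : Matrix J J ℝ[X]) a b + (zqi * (h : Matrix J J ℝ[X]) i b +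
                zqq * (h : Matrix J J ℝ[X]) a b) - (1 : Matrix J J ℝ[X]) a b =
                ((h : Matrix J J ℝ[X]) a b - (1 : Matrix J J ℝ[X]) a b) +
                (zqi * ((h : Matrix J J ℝ[X]) i b - (1 : Matrix J J ℝ[X]) i b) +
                zqq * ((h : Matrix J J ℝ[X]) a b - (1 : Matrix J J ℝ[X]) a b)) := by
              rw [Matrix.one_apply_ne (Ne.symm hb), Matrix.one_apply_ne (Ne.symm hbi)]; ring
            rw [e0]
            have s1 := hSadd ((h : Matrix J J ℝ[X]) a b - (1 : Matrix J J ℝ[X]) a b)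
                (zqi * ((h : Matrix J J ℝ[X]) i b - (1 : Matrix J J ℝ[X]) i b) +
                zqq * ((h : Matrix J J ℝ[X]) a b - (1 : Matrix J J ℝ[X]) a b))
            have s3 := hSadd (zqi * ((h : Matrix J J ℝ[X]) i b - (1 : Matrix J J ℝ[X]) i b))
                (zqq * ((h : Matrix J J ℝ[X]) a b - (1 : Matrix J J ℝ[X]) a b))
            have s4 := sm zqi ((h : Matrix J J ℝ[X]) i b - (1 : Matrix J J ℝ[X]) i b)
            have s5 := sm zqq ((h : Matrix J J ℝ[X]) a b - (1 : Matrix J J ℝ[X]) a b)
            linarith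
      · have hq : ¬ (a = q ∧ b = q) := fun h => haq h.1
        rw [if_neg hq, if_neg hq, if_neg haq, if_neg haq, hg a b, if_neg hai, if_neg haq]
        simp
  have hsum := Finset.sum_le_sum (s := Finset.univ) (fun a (_ : a ∈ Finset.univ) =>
    Finset.sum_le_sum (s := Finset.univ) (fun b (_ : b ∈ Finset.univ) => term a b))
  unfold E4b_P
  refine hsum.trans ?_
  simp only [Finset.sum_add_distrib]
  have single : ∀ (x y : J) (v : ℝ), ∑ a, ∑ b, (if a = x then (if b = y then v else 0) else 0)
      = v := by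
    intro x y v
    rw [Finset.sum_eq_single x, Finset.sum_eq_single y]
    · simp
    · intro b _ hb; simp [hb]
    · intro h; exact absurd (Finset.mem_univ _) h
    · intro a _ ha; simp [ha]
    · intro h; exact absurd (Finset.mem_univ _) h
  have row : ∀ (x : J) (z w : ℝ), 0 ≤ z → 0 ≤ w → ∑ a, ∑ b, (if a = x then
      z * wn r ((h : Matrix J J ℝ[X]) i b - (1 : Matrix J J ℝ[X]) i b) +
      w * wn r ((h : Matrix J J ℝ[X]) q b - (1 : Matrix J J ℝ[X]) q b) else 0) ≤
      z * nu r h + w * nu r h := by
    intro x z w hz hw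
    rw [Finset.sum_eq_single x]
    · simp only [if_true]
      rw [Finset.sum_add_distrib, ← Finset.mul_sum, ← Finset.mul_sum]
      exact add_le_add (mul_le_mul_of_nonneg_left (E4b_row_le hr.le h i) hz)
        (mul_le_mul_of_nonneg_left (E4b_row_le hr.le h q) hw)
    · intro a _ ha; simp [ha]
    · intro h; exact absurd (Finset.mem_univ _) h
  rw [single, single, single]
  have r1 := row i (wn r zii) (wn r ziq) (wn_nonneg hr.le _) (wn_nonneg hr.le _)
  have r2 := row q (wn r zqi) (wn r zqq) (wn_nonneg hr.le _) (wn_nonneg hr.le _)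
  linarith

private theorem E4b_coe {i j : J} (hij : i ≠ j) (x : ℤ[X]) :
    ((toRG (SpecialLinearGroup.transvection hij x) : SpecialLinearGroup J ℝ[X]) :
      Matrix J J ℝ[X]) = 1 + Matrix.single i j (toR x) := by
  ext a b
  unfold toRG
  simp only [SpecialLinearGroup.transvection_coe, Matrix.SpecialLinearGroup.map_apply_coe,
    RingHom.mapMatrix_apply, Matrix.map_apply, Matrix.add_apply, map_add]
  have h1 : toR ((1 : Matrix J J ℤ[X]) a b) = (1 : Matrix J J ℝ[X]) a b := by
    by_cases h : a = b
    · subst h; simp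
    · simp [Matrix.one_apply_ne h]
  have h2 : toR (Matrix.single i j x a b) = (Matrix.single i j (toR x) : Matrix J J ℝ[X]) a b := by
    simp only [Matrix.single_apply]
    split_ifs <;> simp
  rw [h1, h2]

private theorem E4b_tr_mul {i j : J} (hij : i ≠ j) (x : ℤ[X]) (h : SpecialLinearGroup J ℝ[X])
    (a b : J) :
    ((toRG (SpecialLinearGroup.transvection hij x) * h : SpecialLinearGroup J ℝ[X]) :
      Matrix J J ℝ[X]) a b = (h : Matrix J J ℝ[X]) a b +
      (if a = i then toR x * (h : Matrix J J ℝ[X]) j b else 0) := by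
  rw [Matrix.SpecialLinearGroup.coe_mul, E4b_coe hij x, add_mul, one_mul, Matrix.add_apply]
  congr 1
  by_cases ha : a = i
  · subst ha
    rw [if_pos rfl, Matrix.single_mul_apply_same]
  · rw [if_neg ha, Matrix.single_mul_apply_of_ne _ _ _ _ _ ha]

private theorem E4b_comm {i q : J} (hiq : i ≠ q) (a b : ℤ[X]) (h : SpecialLinearGroup J ℝ[X])
    (k l : J) :
    ((toRG (SpecialLinearGroup.transvection hiq a *
        (SpecialLinearGroup.transvection (Ne.symm hiq) b *
        (SpecialLinearGroup.transvection hiq (-a) *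
        SpecialLinearGroup.transvection (Ne.symm hiq) (-b)))) * h : SpecialLinearGroup J ℝ[X]) :
      Matrix J J ℝ[X]) k l = (h : Matrix J J ℝ[X]) k l +
      (if k = i then (toR a * toR b + (toR a * toR b) ^ 2) * (h : Matrix J J ℝ[X]) i l +
        (-(toR a * toR a * toR b)) * (h : Matrix J J ℝ[X]) q l else 0) +
      (if k = q then (toR a * toR b * toR b) * (h : Matrix J J ℝ[X]) i l +
        (-(toR a * toR b)) * (h : Matrix J J ℝ[X]) q l else 0) := by
  simp only [map_mul, mul_assoc]
  simp only [E4b_tr_mul]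
  by_cases hk : k = i
  · subst hk
    simp only [if_true, if_neg hiq, if_neg (Ne.symm hiq), add_zero, map_neg]
    ring
  · by_cases hkq : k = q
    · subst hkq
      simp only [if_true, if_neg hk, if_neg hiq, add_zero, map_neg]
      ring
    · simp only [if_neg hk, if_neg hkq, add_zero]

/-- one rounding step; `w` is the correction, with a short path to it -/
theorem round_step (hr : 0 < r) (hr1 : r < 1) {M : ℕ} (hM : r ^ M ≤ 1 / 1000) {p q : J}
    (hpq : q ≠ p) {D : ℕ} (hD : 2 * M ≤ D) {h : SpecialLinearGroup J ℝ[X]}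
    (hh : Lo p M (h : Matrix J J ℝ[X])) (hnu : nu r h ≤ 1 / 1000) {i j : J}
    (hij : ¬ (i = q ∧ j = q)) {d : ℕ} (hd : d ≤ D)
    (hc : 3 / 4 ≤ |((h : Matrix J J ℝ[X]) i j - (1 : Matrix J J ℝ[X]) i j).coeff d|) :
    ∃ w ∈ FLow p M, Conn (ALow p M) r (10 * r ^ M) 1 w ∧
      nz r w ≤ 10 * r ^ d ∧ d ≤ D ∧
      ph r q (toRG w * h) ≤ ph r q h - r ^ d / 4 ∧
      tl r q D (toRG w * h) ≤ tl r q D h + 10 * (nu r h + r ^ M) * r ^ d ∧
      Lo p M ((toRG w * h : SpecialLinearGroup J ℝ[X]) : Matrix J J ℝ[X]) := by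
  classical
  have hnu0 : 0 ≤ nu r h := nu_nonneg hr.le h
  have hA0 : 0 < r ^ M := pow_pos hr M
  have ne0 : ((h : Matrix J J ℝ[X]) i j - (1 : Matrix J J ℝ[X]) i j).coeff d ≠ 0 := by
    intro e
    rw [e] at hc
    norm_num at hc
  have hip : i ≠ p := by
    rintro rfl
    apply ne0
    rw [hh.row j, sub_self, Polynomial.coeff_zero]
  have hjp : j ≠ p := by
    rintro rfl
    apply ne0
    rw [hh.col i, sub_self, Polynomial.coeff_zero]
  obtain ⟨c, hc1, hcw⟩ := wn_unit hr.le ((h : Matrix J J ℝ[X]) i j - (1 : Matrix J J ℝ[X]) i j) d hc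
  have hcabs : |(c : ℝ)| = 1 := by
    rcases hc1 with rfl | rfl <;> simp
  have hrd : 0 < r ^ d := pow_pos hr d
  by_cases hne : i = j
  · -- diagonal entry
    subst hne
    have hiq : i ≠ q := fun e => hij ⟨e, e⟩
    have hd2 : 2 * M ≤ d := by
      by_contra hlt
      push Not at hlt
      apply ne0
      rw [Matrix.one_apply_eq]
      exact hh.dg i d hlt
    obtain ⟨k, rfl⟩ : ∃ k, d = M + k := ⟨d - M, by omega⟩
    have hkM : M ≤ k := by omega
    set A : ℝ := r ^ M with hAdef
    set B : ℝ := r ^ k with hBdef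
    have hB0 : 0 < B := pow_pos hr k
    have hBA : B ≤ A := pow_le_pow_of_le_one hr.le hr1.le hkM
    have hAB : r ^ (M + k) = A * B := pow_add r M k
    set x : SpecialLinearGroup J ℤ[X] :=
      SpecialLinearGroup.transvection hiq (monomial M 1) with hx
    set y : SpecialLinearGroup J ℤ[X] :=
      SpecialLinearGroup.transvection (Ne.symm hiq) (monomial k c) with hy
    set x' : SpecialLinearGroup J ℤ[X] :=
      SpecialLinearGroup.transvection hiq (-(monomial M 1)) with hx'
    set y' : SpecialLinearGroup J ℤ[X] :=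
      SpecialLinearGroup.transvection (Ne.symm hiq) (-(monomial k c)) with hy'
    have xA : x ∈ ALow p M := ⟨i, q, hiq, M, 1, hip, hpq, le_rfl, Or.inl rfl, rfl⟩
    have yA : y ∈ ALow p M := ⟨q, i, Ne.symm hiq, k, c, hpq, hip, hkM, hc1, rfl⟩
    have xA' : x' ∈ ALow p M := ⟨i, q, hiq, M, -1, hip, hpq, le_rfl, Or.inr rfl, by
      rw [hx', ← Polynomial.monomial_neg]⟩
    have yA' : y' ∈ ALow p M := ⟨q, i, Ne.symm hiq, k, -c, hpq, hip, hkM, by
      rcases hc1 with rfl | rfl
      · exact Or.inr rfl
      · exact Or.inl (by norm_num), by rw [hy', ← Polynomial.monomial_neg]⟩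
    have na : wn r (toR (monomial M (1 : ℤ))) = A := by
      rw [E4b_toR_monomial, wn_monomial]; simp [hAdef]
    have nb : wn r (toR (monomial k c)) = B := by
      rw [E4b_toR_monomial, wn_monomial, hcabs, one_mul]
    have nx : nz r x = A := by rw [hx, nz_transvection, na]
    have ny : nz r y = B := by rw [hy, nz_transvection, nb]
    have nx' : nz r x' = A := by rw [hx', nz_transvection, map_neg, wn_neg, na]
    have ny' : nz r y' = B := by rw [hy', nz_transvection, map_neg, wn_neg, nb]
    have n2 : nz r (x' * y') ≤ A + B + A * B := by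
      have := nz_mul_le hr.le x' y'
      rwa [nx', ny'] at this
    have n2' : nz r (x' * y') ≤ 3 * A := by nlinarith
    have n3 : nz r (y * (x' * y')) ≤ 5 * A := by
      have h1 := nz_mul_le hr.le y (x' * y')
      rw [ny] at h1
      have h2 : 0 ≤ nz r (x' * y') := nz_nonneg hr.le _
      nlinarith
    have n4 : nz r (x * (y * (x' * y'))) ≤ 10 * A := by
      have h1 := nz_mul_le hr.le x (y * (x' * y'))
      rw [nx] at h1
      have h2 : 0 ≤ nz r (y * (x' * y')) := nz_nonneg hr.le _
      nlinarith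
    have n1 : nz r (1 : SpecialLinearGroup J ℤ[X]) ≤ 10 * A := by
      rw [nz_one]; positivity
    have hconn : Conn (ALow p M) r (10 * A) 1 (x * (y * (x' * y'))) := by
      have s1 : Conn (ALow p M) r (10 * A) 1 y' :=
        Relation.ReflTransGen.single ⟨⟨y', yA', (mul_one y').symm⟩, n1, by rw [ny']; linarith⟩
      have s2 : Conn (ALow p M) r (10 * A) y' (x' * y') :=
        Relation.ReflTransGen.single ⟨⟨x', xA', rfl⟩, by rw [ny']; linarith, by linarith⟩
      have s3 : Conn (ALow p M) r (10 * A) (x' * y') (y * (x' * y')) :=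
        Relation.ReflTransGen.single ⟨⟨y, yA, rfl⟩, by linarith, by linarith⟩
      have s4 : Conn (ALow p M) r (10 * A) (y * (x' * y')) (x * (y * (x' * y'))) :=
        Relation.ReflTransGen.single ⟨⟨x, xA, rfl⟩, by linarith, n4⟩
      exact ((s1.trans s2).trans s3).trans s4
    have hmem : x * (y * (x' * y')) ∈ FLow p M :=
      mul_mem (Subgroup.subset_closure xA) (mul_mem (Subgroup.subset_closure yA)
        (mul_mem (Subgroup.subset_closure xA') (Subgroup.subset_closure yA')))
    set α : ℝ[X] := toR (monomial M (1 : ℤ)) with hα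
    set β : ℝ[X] := toR (monomial k c) with hβ
    have hu : α * β = monomial (M + k) (c : ℝ) := by
      rw [hα, hβ, E4b_toR_monomial, E4b_toR_monomial, Polynomial.monomial_mul_monomial]
      simp
    have wab : wn r (α * β) ≤ A * B := by
      rw [hu, wn_monomial, hcabs, one_mul, hAB]
    have we : wn r ((α * β) ^ 2) ≤ (A * B) ^ 2 := by
      rw [pow_two, pow_two]
      exact (wn_mul_le hr.le _ _).trans
        (mul_le_mul wab wab (wn_nonneg hr.le _) (by positivity))
    have wzii : wn r (α * β + (α * β) ^ 2) ≤ A * B + (A * B) ^ 2 :=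
      (wn_add_le hr.le _ _).trans (add_le_add wab we)
    have wziq : wn r (-(α * α * β)) ≤ A * (A * B) := by
      rw [wn_neg, mul_assoc]
      refine (wn_mul_le hr.le _ _).trans ?_
      rw [na]
      exact mul_le_mul_of_nonneg_left wab hA0.le
    have wzqi : wn r (α * β * β) ≤ A * B * B := by
      refine (wn_mul_le hr.le _ _).trans ?_
      rw [nb]
      exact mul_le_mul_of_nonneg_right wab hB0.le
    have wzqq : wn r (-(α * β)) ≤ A * B := by
      rw [wn_neg]; exact wab
    have hent : ∀ (g : SpecialLinearGroup J ℝ[X]) (a b : J),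
        ((toRG (x * (y * (x' * y'))) * g : SpecialLinearGroup J ℝ[X]) : Matrix J J ℝ[X]) a b =
        (g : Matrix J J ℝ[X]) a b +
        (if a = i then (α * β + (α * β) ^ 2) * (g : Matrix J J ℝ[X]) i b +
          (-(α * α * β)) * (g : Matrix J J ℝ[X]) q b else 0) +
        (if a = q then (α * β * β) * (g : Matrix J J ℝ[X]) i b +
          (-(α * β)) * (g : Matrix J J ℝ[X]) q b else 0) :=
      fun g a b => E4b_comm hiq (monomial M 1) (monomial k c) g a b
    have t0 : 0 < A * B := by positivity
    have hAle : A ≤ 1 / 1000 := hM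
    have hABA : A * B ≤ A := by nlinarith
    -- the common error
    have err : wn r ((α * β) ^ 2) + (wn r (α * β + (α * β) ^ 2) + wn r (α * β * β) +
        wn r (-(α * α * β)) + wn r (-(α * β))) * nu r h + wn r (-(α * α * β)) +
        wn r (α * β * β) ≤ A * B * (3 * A + 3 * nu r h) := by
      have e1 : (wn r (α * β + (α * β) ^ 2) + wn r (α * β * β) +
          wn r (-(α * α * β)) + wn r (-(α * β))) * nu r h ≤
          (A * B * 3) * nu r h := by
        apply mul_le_mul_of_nonneg_right _ hnu0
        have : A * B + (A * B) ^ 2 + A * B * B + A * (A * B) + A * B ≤ A * B * 3 := by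
          nlinarith
        linarith
      have e2 : (A * B) ^ 2 + A * (A * B) + A * B * B ≤ A * B * (3 * A) := by
        nlinarith
      linarith
    refine ⟨x * (y * (x' * y')), hmem, hconn, ?_, hd, ?_, ?_, Lo_mul (FLow_Lo hmem) hh⟩
    · -- nz
      unfold nz nu mn
      have tb : ∀ a b, wn r ((((toRG (x * (y * (x' * y'))) : SpecialLinearGroup J ℝ[X]) :
          Matrix J J ℝ[X]) - 1) a b) ≤
          (if a = i then (if b = i then A * B + (A * B) ^ 2 else 0) else 0) +
          (if a = i then (if b = q then A * (A * B) else 0) else 0) +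
          (if a = q then (if b = i then A * B * B else 0) else 0) +
          (if a = q then (if b = q then A * B else 0) else 0) := by
        intro a b
        have e := hent 1 a b
        rw [mul_one] at e
        rw [Matrix.sub_apply, e, Matrix.SpecialLinearGroup.coe_one]
        by_cases hai : a = i
        · subst hai
          simp only [if_true, if_neg hiq, add_zero]
          by_cases hba : b = a
          · subst hba
            rw [if_pos rfl, if_neg hiq, Matrix.one_apply_eq, Matrix.one_apply_ne (Ne.symm hiq)]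
            have : (1 : ℝ[X]) + ((α * β + (α * β) ^ 2) * 1 + -(α * α * β) * 0) - 1 =
              α * β + (α * β) ^ 2 := by ring
            rw [this]; linarith
          · rw [if_neg hba, Matrix.one_apply_ne (Ne.symm hba)]
            by_cases hbq : b = q
            · subst hbq
              rw [if_pos rfl, Matrix.one_apply_eq]
              have : (0 : ℝ[X]) + ((α * β + (α * β) ^ 2) * 0 + -(α * α * β) * 1) - 0 =
                -(α * α * β) := by ring
              rw [this]; linarith
            · rw [if_neg hbq, Matrix.one_apply_ne (Ne.symm hbq)]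
              have : (0 : ℝ[X]) + ((α * β + (α * β) ^ 2) * 0 + -(α * α * β) * 0) - 0 = 0 := by
                ring
              rw [this, wn_zero]; linarith
        · by_cases haq : a = q
          · subst haq
            simp only [if_true, if_neg hai, add_zero, zero_add]
            by_cases hbi : b = i
            · subst hbi
              rw [if_pos rfl, if_neg hiq, Matrix.one_apply_eq, Matrix.one_apply_ne hai]
              have : (0 : ℝ[X]) + (α * β * β * 1 + -(α * β) * 0) - 0 = α * β * β := by ring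
              rw [this]; linarith
            · rw [if_neg hbi, Matrix.one_apply_ne (Ne.symm hbi)]
              by_cases hba : b = a
              · subst hba
                rw [if_pos rfl, Matrix.one_apply_eq]
                have : (1 : ℝ[X]) + (α * β * β * 0 + -(α * β) * 1) - 1 = -(α * β) := by ring
                rw [this]; linarith
              · rw [if_neg hba, Matrix.one_apply_ne (Ne.symm hba)]
                have : (0 : ℝ[X]) + (α * β * β * 0 + -(α * β) * 0) - 0 = 0 := by ring
                rw [this, wn_zero]; linarith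
          · simp only [if_neg hai, if_neg haq, add_zero]
            rw [sub_self, wn_zero]
      have hsum := Finset.sum_le_sum (s := Finset.univ) (fun a (_ : a ∈ Finset.univ) =>
        Finset.sum_le_sum (s := Finset.univ) (fun b (_ : b ∈ Finset.univ) => tb a b))
      refine hsum.trans ?_
      simp only [Finset.sum_add_distrib]
      have single : ∀ (x y : J) (v : ℝ), ∑ a, ∑ b,
          (if a = x then (if b = y then v else 0) else 0) = v := by
        intro x y v
        rw [Finset.sum_eq_single x, Finset.sum_eq_single y]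
        · simp
        · intro b _ hb; simp [hb]
        · intro h; exact absurd (Finset.mem_univ _) h
        · intro a _ ha; simp [ha]
        · intro h; exact absurd (Finset.mem_univ _) h
      rw [single, single, single, single, hAB]
      nlinarith
    · -- ph
      rw [E4b_ph, E4b_ph]
      have := E4b_diag (S := wn r) (fun f g => wn_add_le hr.le f g) (fun f => le_rfl) hr hiq
        (h := h) (g := toRG (x * (y * (x' * y'))) * h)
        (u := α * β) (e := (α * β) ^ 2) (zii := α * β + (α * β) ^ 2) (ziq := -(α * α * β))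
        (zqi := α * β * β) (zqq := -(α * β)) rfl (hent h) (δ := -(r ^ (M + k) / 2))
        (by rw [hu]; linarith)
      refine this.trans ?_
      rw [hAB]
      have e3 : A * B * (3 * A + 3 * nu r h) ≤ A * B * (1 / 4) :=
        mul_le_mul_of_nonneg_left (by linarith) t0.le
      linarith
    · -- tl
      rw [E4b_tl, E4b_tl]
      have := E4b_diag (S := wt r D) (fun f g => wt_add_le hr.le D f g)
        (fun f => wt_le_wn hr.le D f) hr hiq
        (h := h) (g := toRG (x * (y * (x' * y'))) * h)
        (u := α * β) (e := (α * β) ^ 2) (zii := α * β + (α * β) ^ 2) (ziq := -(α * α * β))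
        (zqi := α * β * β) (zqq := -(α * β)) rfl (hent h) (δ := 0)
        (by
          rw [hu]
          refine (wt_add_le hr.le D _ _).trans ?_
          rw [wt_monomial_of_le hd])
      refine this.trans ?_
      rw [hAB]
      have e3 : A * B * (3 * A + 3 * nu r h) ≤ 10 * (nu r h + A) * (A * B) := by
        nlinarith [mul_nonneg t0.le hA0.le, mul_nonneg t0.le hnu0]
      linarith
  · -- off-diagonal entry
    have hdM : M ≤ d := by
      by_contra hlt
      push Not at hlt
      exact ne0 (hh.lo i j d hlt)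
    set w : SpecialLinearGroup J ℤ[X] :=
      SpecialLinearGroup.transvection hne (monomial d c) with hw
    have wA : w ∈ ALow p M := ⟨i, j, hne, d, c, hip, hjp, hdM, hc1, rfl⟩
    have hmem : w ∈ FLow p M := Subgroup.subset_closure wA
    have hrdM : r ^ d ≤ r ^ M := pow_le_pow_of_le_one hr.le hr1.le hdM
    have nw : nz r w = r ^ d := by
      rw [hw, nz_transvection, E4b_toR_monomial, wn_monomial, hcabs, one_mul]
    have hent : ∀ a b, ((toRG w * h : SpecialLinearGroup J ℝ[X]) : Matrix J J ℝ[X]) a b =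
        (h : Matrix J J ℝ[X]) a b +
        (if a = i then monomial d (c : ℝ) * (h : Matrix J J ℝ[X]) j b else 0) := by
      intro a b
      rw [hw, E4b_tr_mul, E4b_toR_monomial]
    refine ⟨w, hmem, ?_, ?_, hd, ?_, ?_, Lo_mul (FLow_Lo hmem) hh⟩
    · refine Relation.ReflTransGen.single ⟨⟨w, wA, (mul_one w).symm⟩, ?_, ?_⟩
      · rw [nz_one]; positivity
      · rw [nw]; linarith
    · rw [nw]; linarith
    · rw [E4b_ph, E4b_ph]
      have := E4b_off (S := wn r) (fun f g => wn_add_le hr.le f g) (fun f => le_rfl) hr (q := q)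
        hne d (c : ℝ) hcabs (h := h) (g := toRG w * h) hent (δ := -(r ^ d / 2)) (by linarith)
      refine this.trans ?_
      nlinarith [mul_le_mul_of_nonneg_left hnu hrd.le]
    · rw [E4b_tl, E4b_tl]
      have := E4b_off (S := wt r D) (fun f g => wt_add_le hr.le D f g)
        (fun f => wt_le_wn hr.le D f) hr (q := q)
        hne d (c : ℝ) hcabs (h := h) (g := toRG w * h) hent (δ := 0) (by
          refine (wt_add_le hr.le D _ _).trans ?_
          rw [wt_monomial_of_le hd])
      refine this.trans ?_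
      nlinarith [mul_nonneg hnu0 hrd.le, mul_nonneg hA0.le hrd.le]

end Pool.Agent.SSE
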