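import Pool.Agent.SSE.E4

/-!
# SSE-E5 : tracks

A track of `g` with `Q` intervals and precision `δ`: elements `f 0 = 1, ..., f Q` of `F_M` with `nu (f_a (g^{a/Q})⁻¹) ≤ δ`, consecutive ones joined:
`f_{a+1} = w f_a`, `w` joined to `1` by low steps in the ball `ρ`.
Existence for all large `Q`: `h = f_a (g^{(a+1)/Q})⁻¹ = (f_a (g^{a/Q})⁻¹) (g^{a/Q} (g^{(a+1)/Q})⁻¹)`, `nu_sclG_close` (second factor `≤ δ/3`), so
`nu h ≤ 2 δ`; `Lo h` by `FLow_Lo` and ELo; `rounding` gives `w`; `f_(a+1) = w f_a`. (`K`, `M₀` from `rounding`, `M₀` enlarged so that `K r^M ≤ 1`.)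
-/

set_option autoImplicit false

namespace Pool.Agent.SSE

open Polynomial Matrix

variable {r : ℝ} {J : Type} [Fintype J] [DecidableEq J]

/-- a track of `g` with `Q` intervals -/
structure Track (r : ℝ) (p : J) (M : ℕ) (δ ρ : ℝ) (g : SpecialLinearGroup J ℤ[X]) (Q : ℕ)
    (f : ℕ → SpecialLinearGroup J ℤ[X]) : Prop where
  zero : f 0 = 1
  mem : ∀ a ≤ Q, f a ∈ FLow p M
  near : ∀ a ≤ Q, nu r (toRG (f a) * (sclG ((a : ℝ) / Q) (toRG g))⁻¹) ≤ δ
  joined : ∀ a < Q, ∃ w, Conn (ALow p M) r ρ 1 w ∧ f (a + 1) = w * f a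

/-- tracks exist for all large `Q` (for every integral `g` with the congruences `Lo`, not only for `g ∈ FLow p M`) -/
theorem exists_track (hr : 0 < r) (hr1 : r < 1) (J : Type) [Fintype J] [DecidableEq J] :
    ∃ K : ℝ, 1 ≤ K ∧ ∃ M₀ : ℕ, 0 < M₀ ∧ ∀ M ≥ M₀, ∀ p q : J, q ≠ p →
      ∀ g : SpecialLinearGroup J ℤ[X], Lo p M ((toRG g : SpecialLinearGroup J ℝ[X]) : Matrix J J ℝ[X]) →
      ∃ Q₀ : ℕ, 0 < Q₀ ∧ ∀ Q ≥ Q₀, ∃ f, Track r p M (K * r ^ M) (100 * K * r ^ M) g Q f := by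
  obtain ⟨K, hK1, M₁, hround⟩ := rounding hr hr1 J
  have hK0 : 0 < K := lt_of_lt_of_le one_pos hK1
  obtain ⟨M₂, hM₂⟩ := exists_pow_lt_of_lt_one (show (0 : ℝ) < 1 / K by positivity) hr1
  refine ⟨K, hK1, max (max M₁ M₂) 1, by positivity, ?_⟩
  intro M hM p q hqp g hg
  have hMM₁ : M₁ ≤ M := le_trans (le_trans (le_max_left _ _) (le_max_left _ _)) hM
  have hMM₂ : M₂ ≤ M := le_trans (le_trans (le_max_right _ _) (le_max_left _ _)) hM
  have hM0 : 0 < M := lt_of_lt_of_le Nat.one_pos (le_trans (le_max_right _ _) hM)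
  have hrM : 0 < r ^ M := pow_pos hr M
  have hδ0 : 0 < K * r ^ M := mul_pos hK0 hrM
  have hδ1 : K * r ^ M ≤ 1 := by
    have h1 : r ^ M ≤ r ^ M₂ := pow_le_pow_of_le_one hr.le hr1.le hMM₂
    have h2 : r ^ M < 1 / K := lt_of_le_of_lt h1 hM₂
    rw [lt_div_iff₀ hK0] at h2
    nlinarith
  obtain ⟨κ, hκ, hclose⟩ := nu_sclG_close hr.le (toRG g) (show 0 < K * r ^ M / 3 by positivity)
  obtain ⟨n₀, hn₀⟩ := exists_nat_gt (1 / κ)
  refine ⟨n₀ + 1, Nat.succ_pos _, ?_⟩
  intro Q hQ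
  have hQpos : 0 < Q := lt_of_lt_of_le (Nat.succ_pos _) hQ
  have hQR : (0 : ℝ) < Q := by exact_mod_cast hQpos
  have hQκ : 1 / (Q : ℝ) ≤ κ := by
    have h1 : (n₀ : ℝ) ≤ Q := by exact_mod_cast (le_trans (Nat.le_succ _) hQ)
    have h2 : 1 / κ < Q := lt_of_lt_of_le hn₀ h1
    rw [div_lt_iff₀ hκ] at h2
    rw [div_le_iff₀ hQR]
    nlinarith
  have key : ∀ n ≤ Q, ∃ f : ℕ → SpecialLinearGroup J ℤ[X], f 0 = 1 ∧ (∀ a ≤ n, f a ∈ FLow p M) ∧
      (∀ a ≤ n, nu r (toRG (f a) * (sclG ((a : ℝ) / Q) (toRG g))⁻¹) ≤ K * r ^ M) ∧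
      (∀ a < n, ∃ w, Conn (ALow p M) r (100 * K * r ^ M) 1 w ∧ f (a + 1) = w * f a) := by
    intro n
    induction n with
    | zero =>
      intro _
      refine ⟨fun _ => 1, rfl, fun _ _ => Subgroup.one_mem _, ?_, ?_⟩
      · intro a ha
        have ha0 : a = 0 := by omega
        subst ha0
        have : sclG (((0 : ℕ) : ℝ) / Q) (toRG g) = 1 := by
          rw [Nat.cast_zero, zero_div]
          exact sclG_zero hM0 hg
        rw [this, map_one, inv_one, mul_one, nu_one]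
        exact hδ0.le
      · intro a ha
        omega
    | succ n ih =>
      intro hn
      obtain ⟨f, hf0, hmem, hnear, hjoin⟩ := ih (by omega)
      set G := toRG g with hG
      set s : ℝ := (n : ℝ) / Q with hs
      set s' : ℝ := ((n + 1 : ℕ) : ℝ) / Q with hs'
      set h : SpecialLinearGroup J ℝ[X] := toRG (f n) * (sclG s' G)⁻¹ with hh
      have hdecomp : h = (toRG (f n) * (sclG s G)⁻¹) * (sclG s G * (sclG s' G)⁻¹) := by
        rw [hh]; group
      have hnQ : (n : ℝ) ≤ Q := by exact_mod_cast (by omega : n ≤ Q)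
      have hn1Q : ((n + 1 : ℕ) : ℝ) ≤ Q := by exact_mod_cast hn
      have hs0 : 0 ≤ s := by positivity
      have hs1 : s ≤ 1 := by rw [hs, div_le_one hQR]; exact hnQ
      have hs'0 : 0 ≤ s' := by positivity
      have hs'1 : s' ≤ 1 := by rw [hs', div_le_one hQR]; exact hn1Q
      have hdiff : |s - s'| ≤ κ := by
        have : s - s' = -(1 / (Q : ℝ)) := by
          rw [hs, hs']; push_cast; field_simp; ring
        rw [this, abs_neg, abs_of_pos (by positivity)]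
        exact hQκ
      have h1 := hnear n le_rfl
      have h2 := hclose s s' hs0 hs1 hs'0 hs'1 hdiff
      have h3 := nu_mul_le hr.le (toRG (f n) * (sclG s G)⁻¹) (sclG s G * (sclG s' G)⁻¹)
      have hn1 := nu_nonneg hr.le (toRG (f n) * (sclG s G)⁻¹)
      have hn2 := nu_nonneg hr.le (sclG s G * (sclG s' G)⁻¹)
      have hnuh : nu r h ≤ 2 * (K * r ^ M) := by
        rw [hdecomp]
        refine le_trans h3 ?_
        have h4 : nu r (toRG (f n) * (sclG s G)⁻¹) * nu r (sclG s G * (sclG s' G)⁻¹)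
            ≤ 1 * (K * r ^ M / 3) :=
          mul_le_mul (le_trans h1 hδ1) h2 hn2 zero_le_one
        linarith
      have hLo : Lo p M (h : Matrix J J ℝ[X]) := Lo_mul (FLow_Lo (hmem n le_rfl)) (Lo_inv (Lo_scl hg s'))
      obtain ⟨w, hwF, hwC, hwn⟩ := hround M hMM₁ p q hqp h hLo hnuh
      refine ⟨Function.update f (n + 1) (w * f n), ?_, ?_, ?_, ?_⟩
      · rw [Function.update_of_ne (by omega)]; exact hf0
      · intro a ha
        by_cases hae : a = n + 1
        · subst hae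
          rw [Function.update_self]
          exact Subgroup.mul_mem _ hwF (hmem n le_rfl)
        · rw [Function.update_of_ne hae]
          exact hmem a (by omega)
      · intro a ha
        by_cases hae : a = n + 1
        · subst hae
          rw [Function.update_self, map_mul, mul_assoc]
          exact hwn
        · rw [Function.update_of_ne hae]
          exact hnear a (by omega)
      · intro a ha
        by_cases hae : a = n
        · subst hae
          refine ⟨w, hwC, ?_⟩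
          rw [Function.update_self, Function.update_of_ne (by omega)]
        · obtain ⟨w', hw'C, hw'e⟩ := hjoin a (by omega)
          refine ⟨w', hw'C, ?_⟩
          rw [Function.update_of_ne (by omega), Function.update_of_ne (by omega)]
          exact hw'e
  obtain ⟨f, hf0, hmem, hnear, hjoin⟩ := key Q le_rfl
  exact ⟨f, ⟨hf0, hmem, hnear, hjoin⟩⟩

/-- every integral `y` with the congruences `Lo` can be made tiny by a left factor in `FLow p M`
(take the end of a track of `y⁻¹`) -/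
theorem exists_tiny (hr : 0 < r) (hr1 : r < 1) (J : Type) [Fintype J] [DecidableEq J] :
    ∃ K : ℝ, 1 ≤ K ∧ ∃ M₀ : ℕ, 0 < M₀ ∧ ∀ M ≥ M₀, ∀ p q : J, q ≠ p →
      ∀ y : SpecialLinearGroup J ℤ[X], Lo p M ((toRG y : SpecialLinearGroup J ℝ[X]) : Matrix J J ℝ[X]) →
      ∃ f ∈ FLow p M, nz r (f * y) ≤ K * r ^ M := by
  obtain ⟨K, hK1, M₀, hM₀, htr⟩ := exists_track hr hr1 J
  refine ⟨K, hK1, M₀, hM₀, ?_⟩
  intro M hM p q hqp y hy
  have hy' : Lo p M ((toRG y⁻¹ : SpecialLinearGroup J ℝ[X]) : Matrix J J ℝ[X]) := by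
    rw [map_inv]; exact Lo_inv hy
  obtain ⟨Q₀, hQ₀, hf⟩ := htr M hM p q hqp y⁻¹ hy'
  obtain ⟨f, hT⟩ := hf Q₀ le_rfl
  refine ⟨f Q₀, hT.mem Q₀ le_rfl, ?_⟩
  have h1 := hT.near Q₀ le_rfl
  have hQR : (Q₀ : ℝ) ≠ 0 := by exact_mod_cast hQ₀.ne'
  rw [div_self hQR, sclG_one, map_inv, inv_inv, ← map_mul] at h1
  exact h1

end Pool.Agent.SSE
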