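import Mathlib

/-!
# SSE project (`MP_c782ad_an`, `S06105`), part E: definitions

Text: `/team-store/c782ad_h73_EK.md`, section (7).  `R = ℤ[X]`, `‖f‖ = ∑ |f_k| r^k`.
-/

set_option autoImplicit false

namespace Pool.Agent.SSE

open Polynomial Matrix

/-- weighted `l_1` norm of a real polynomial -/
noncomputable def wn (r : ℝ) (f : ℝ[X]) : ℝ := ∑ k ∈ f.support, |f.coeff k| * r ^ k

section
variable {J : Type} [Fintype J] [DecidableEq J]

/-- sum of the norms of the entries of a matrix -/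
noncomputable def mn (r : ℝ) (M : Matrix J J ℝ[X]) : ℝ := ∑ i, ∑ j, wn r (M i j)

/-- size of `g - 1` -/
noncomputable def nu (r : ℝ) (g : SpecialLinearGroup J ℝ[X]) : ℝ :=
  mn r ((g : Matrix J J ℝ[X]) - 1)

/-- `ℤ[X] → ℝ[X]` -/
noncomputable def toR : ℤ[X] →+* ℝ[X] := Polynomial.mapRingHom (Int.castRingHom ℝ)

/-- `SL_J(ℤ[X]) → SL_J(ℝ[X])` -/
noncomputable def toRG : SpecialLinearGroup J ℤ[X] →* SpecialLinearGroup J ℝ[X] :=
  SpecialLinearGroup.map toR

/-- size of `g - 1` for integral `g` -/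
noncomputable def nz (r : ℝ) (g : SpecialLinearGroup J ℤ[X]) : ℝ := nu r (toRG g)

/-- the scaling `f(t) ↦ f(st)` -/
noncomputable def scl (s : ℝ) : ℝ[X] →+* ℝ[X] := Polynomial.compRingHom (C s * X)

/-- `g(t) ↦ g(st)` -/
noncomputable def sclG (s : ℝ) : SpecialLinearGroup J ℝ[X] →* SpecialLinearGroup J ℝ[X] :=
  SpecialLinearGroup.map (scl s)

/-- the elementary steps `E_ij(± t^d)`, `d ≥ N` -/
noncomputable def AAll (J : Type) [Fintype J] [DecidableEq J] (N : ℕ) : Set (SpecialLinearGroup J ℤ[X]) :=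
  {x | ∃ (i j : J) (h : i ≠ j) (d : ℕ) (c : ℤ), N ≤ d ∧ (c = 1 ∨ c = -1) ∧
    x = SpecialLinearGroup.transvection h (monomial d c)}

/-- the elementary steps `E_ij(± t^d)`, `d ≥ M`, `i, j ≠ p` -/
noncomputable def ALow (p : J) (M : ℕ) : Set (SpecialLinearGroup J ℤ[X]) :=
  {x | ∃ (i j : J) (h : i ≠ j) (d : ℕ) (c : ℤ), i ≠ p ∧ j ≠ p ∧ M ≤ d ∧ (c = 1 ∨ c = -1) ∧
    x = SpecialLinearGroup.transvection h (monomial d c)}

/-- `g` and `g'` are joined by left multiplications by elements of `A` inside the ball of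
radius `ρ` -/
noncomputable def Conn (A : Set (SpecialLinearGroup J ℤ[X])) (r ρ : ℝ) :
    SpecialLinearGroup J ℤ[X] → SpecialLinearGroup J ℤ[X] → Prop :=
  Relation.ReflTransGen fun p q => (∃ x ∈ A, q = x * p) ∧ nz r p ≤ ρ ∧ nz r q ≤ ρ

/-- the group `F_M` in the indices `≠ p` -/
noncomputable def FLow (p : J) (M : ℕ) : Subgroup (SpecialLinearGroup J ℤ[X]) := Subgroup.closure (ALow p M)

/-- the congruence conditions: `h = 1 mod t^M`, diagonal `= 1 mod t^(2M)`, trivial in the row and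
column `p` -/
structure Lo (p : J) (M : ℕ) (h : Matrix J J ℝ[X]) : Prop where
  lo : ∀ i j, ∀ d < M, (h i j - (1 : Matrix J J ℝ[X]) i j).coeff d = 0
  dg : ∀ i, ∀ d < 2 * M, (h i i - 1).coeff d = 0
  row : ∀ j, h p j = (1 : Matrix J J ℝ[X]) p j
  col : ∀ i, h i p = (1 : Matrix J J ℝ[X]) i p

end

end Pool.Agent.SSE
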