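import Pool.Agent.SSE.PresOf

/-!
# Isolating a loop with an arbitrary class
-/

set_option autoImplicit false

open scoped BigOperators
open Matrix Polynomial

namespace Pool.Agent.SSE

open Pool.Agent.helper52.SSE

attribute [local instance] Classical.propDecidable

variable {ι κ μ : Type} [Fintype ι] [Fintype κ] [Fintype μ]
variable {K : Type} [AddCommGroup K] [Module ℤ[X] K]

/-- If the row of `o` is `t^k c e_o + t^k ρ + r`, a new generator `f = c e_o + ρ` gives the
presentation `o = t^k f + r`, `f = t^k c f + c r + ρ`. -/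
noncomputable def isoc (P : Matrix ι ι ℕ[X]) (o : ι) (k : ℕ) (c : ℕ[X]) (ρ r : ι → ℕ[X]) :
    Matrix (ι ⊕ Unit) (ι ⊕ Unit) ℕ[X] :=
  fromBlocks (setRow P o r) (of fun l _ => if l = o then X ^ k else 0)
    (of fun _ j => c * r j + ρ j) (of fun _ _ => X ^ k * c)

lemma toZ_add (p q : ℕ[X]) : toZ (p + q) = toZ p + toZ q := Polynomial.map_add _

lemma toZ_mul (p q : ℕ[X]) : toZ (p * q) = toZ p * toZ q := Polynomial.map_mul _

lemma toZ_zero : toZ 0 = 0 := Polynomial.map_zero _

lemma toZ_pow_X (k : ℕ) : toZ (X ^ k) = X ^ k := by simp [toZ]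

lemma IP_inl_inl (Q : Matrix (ι ⊕ κ) (ι ⊕ κ) ℕ[X]) (i j : ι) :
    IP Q (Sum.inl i) (Sum.inl j) = (if i = j then 1 else 0) - toZ (Q (Sum.inl i) (Sum.inl j)) := by
  simp [IP]

lemma IP_inl_inr (Q : Matrix (ι ⊕ κ) (ι ⊕ κ) ℕ[X]) (i : ι) (j : κ) :
    IP Q (Sum.inl i) (Sum.inr j) = - toZ (Q (Sum.inl i) (Sum.inr j)) := by
  simp [IP]

lemma IP_inr_inl (Q : Matrix (ι ⊕ κ) (ι ⊕ κ) ℕ[X]) (i : κ) (j : ι) :
    IP Q (Sum.inr i) (Sum.inl j) = - toZ (Q (Sum.inr i) (Sum.inl j)) := by
  simp [IP]

lemma IP_inr_inr (Q : Matrix (ι ⊕ κ) (ι ⊕ κ) ℕ[X]) (i j : κ) :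
    IP Q (Sum.inr i) (Sum.inr j) = (if i = j then 1 else 0) - toZ (Q (Sum.inr i) (Sum.inr j)) := by
  simp [IP]

/-- the relation of one row in terms of classes -/
theorem PresOf.row_eq {δ : ℤ[X]} {g : ι → K} {P : Matrix ι ι ℕ[X]} (h : PresOf δ g P) (i : ι) :
    g i = ∑ j, toZ (P i j) • g j := by
  have h1 := h.relOf.rel i
  have h2 : ∀ j, IP P i j • g j = (if i = j then g j else 0) - toZ (P i j) • g j := by
    intro j
    unfold IP
    by_cases hj : i = j <;> simp [hj, sub_smul]
  simp only [h2, Finset.sum_sub_distrib, Finset.sum_ite_eq, Finset.mem_univ, if_true] at h1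
  exact sub_eq_zero.1 h1

/-- Isolating a loop with an arbitrary class. -/
theorem PresOf.isolate_class {δ : ℤ[X]} {g : ι → K} {P : Matrix ι ι ℕ[X]} (h : PresOf δ g P)
    (o : ι) (k : ℕ) (hk : 0 < k) (c : ℕ[X]) (hc : c.coeff 0 = 0) (ρ r : ι → ℕ[X])
    (hρ : ∀ j, (ρ j).coeff 0 = 0) (hr : ∀ j, (r j).coeff 0 = 0)
    (ho : ∀ j, P o j = r j + X ^ k * ρ j + if j = o then X ^ k * c else 0) :
    PEqv P (isoc P o k c ρ r) ∧
    PresOf δ (Sum.elim g fun _ => toZ c • g o + ∑ j, toZ (ρ j) • g j) (isoc P o k c ρ r) := by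
  -- the new generator
  obtain ⟨h1, h2⟩ := h.sources (κ := Unit)
    (of fun _ j => ρ j + if j = o then c else 0) (by
      intro _ j
      simp only [of_apply, coeff_add, hρ j]
      split_ifs <;> simp [hc])
  have hcls : (fun k : Unit => ∑ j, toZ ((of fun (_ : Unit) j => ρ j + if j = o then c else 0) k j)
      • g j) = fun _ => toZ c • g o + ∑ j, toZ (ρ j) • g j := by
    funext _
    simp only [of_apply, toZ_add, add_smul, Finset.sum_add_distrib]
    rw [add_comm]
    congr 1
    have : ∀ j, toZ (if j = o then c else 0) • g j = if j = o then toZ c • g j else 0 := by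
      intro j
      split_ifs <;> simp
    simp [this]
  rw [hcls] at h2
  set P1 : Matrix (ι ⊕ Unit) (ι ⊕ Unit) ℕ[X] :=
    fromBlocks P 0 (of fun _ j => ρ j + if j = o then c else 0) 0 with hP1
  -- the second presentation
  set P2 : Matrix (ι ⊕ Unit) (ι ⊕ Unit) ℕ[X] :=
    fromBlocks (setRow P o r) (of fun l _ => if l = o then X ^ k else 0)
      (of fun _ j => ρ j + if j = o then c else 0) 0 with hP2
  have hP2p : IsPres P2 := by
    rintro (i | i) (j | j)
    · simp only [hP2, fromBlocks_apply₁₁, setRow]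
      split_ifs
      · exact hr j
      · exact h.pres i j
    · simp only [hP2, fromBlocks_apply₁₂, of_apply]
      split_ifs
      · rw [coeff_X_pow, if_neg (by omega)]
      · simp
    · exact h2.pres (Sum.inr i) (Sum.inl j)
    · simp [hP2]
  obtain ⟨h3, h4⟩ := h2.add_rows hP2p (Sum.inl o) (by
      rintro (l | l) hl
      · have hl' : l ≠ o := fun h => hl (by rw [h])
        funext j
        rcases j with j | j
        · simp [hP2, hP1, setRow, hl']
        · simp [hP2, hP1, hl']
      · rfl) (Sum.elim 0 fun _ => - X ^ k) rfl (by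
      intro j
      rw [Fintype.sum_sum_type]
      simp only [Sum.elim_inl, Sum.elim_inr, Pi.zero_apply, zero_mul, Finset.sum_const_zero,
        zero_add, Finset.univ_unique, PUnit.default_eq_unit, Finset.sum_singleton]
      rcases j with j | j
      · rw [IP_inl_inl, IP_inl_inl, IP_inr_inl]
        simp only [hP1, hP2, fromBlocks_apply₁₁, fromBlocks_apply₂₁, of_apply, setRow, if_true]
        rw [ho j]
        by_cases hj : j = o
        · simp only [hj, if_true, toZ_add, toZ_mul, toZ_pow_X]
          ring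
        · simp only [hj, if_false, toZ_add, toZ_mul, toZ_pow_X, toZ_zero, add_zero]
          ring
      · rw [IP_inl_inr, IP_inl_inr, IP_inr_inr]
        simp only [hP1, hP2, fromBlocks_apply₁₂, fromBlocks_apply₂₂, of_apply, if_true,
          Matrix.zero_apply, toZ_zero, toZ_pow_X]
        ring)
  -- the last presentation
  have hP3p : IsPres (isoc P o k c ρ r) := by
    rintro (i | i) (j | j)
    · exact hP2p (Sum.inl i) (Sum.inl j)
    · exact hP2p (Sum.inl i) (Sum.inr j)
    · simp only [isoc, fromBlocks_apply₂₁, of_apply, coeff_add, mul_coeff_zero, hr j, hρ j,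
        mul_zero, add_zero]
    · simp only [isoc, fromBlocks_apply₂₂, of_apply, mul_coeff_zero, hc, mul_zero]
  obtain ⟨h5, h6⟩ := h4.add_rows hP3p (Sum.inr ()) (by
      rintro (l | l) hl
      · funext j
        rcases j with j | j <;> simp [hP2, isoc]
      · exact absurd rfl hl) (Sum.elim (fun l => if l = o then toZ c else 0) 0) rfl (by
      intro j
      rw [Fintype.sum_sum_type]
      simp only [Sum.elim_inl, Sum.elim_inr, Pi.zero_apply, zero_mul, Finset.sum_const_zero,
        add_zero, ite_mul, Finset.sum_ite_eq', Finset.mem_univ, if_true]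
      rcases j with j | j
      · rw [IP_inr_inl, IP_inr_inl, IP_inl_inl]
        simp only [hP2, isoc, fromBlocks_apply₁₁, fromBlocks_apply₂₁, of_apply, setRow, if_true]
        by_cases hj : j = o
        · simp only [hj, if_true, toZ_add, toZ_mul]
          ring
        · have hj' : ¬ o = j := fun h => hj h.symm
          simp only [hj, hj', if_false, toZ_add, toZ_mul, toZ_zero, add_zero]
          ring
      · obtain rfl : j = () := rfl
        rw [IP_inr_inr, IP_inr_inr, IP_inl_inr]
        simp only [hP2, isoc, fromBlocks_apply₁₂, fromBlocks_apply₂₂, of_apply, if_true,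
          Matrix.zero_apply, toZ_zero, toZ_pow_X, toZ_mul]
        ring)
  exact ⟨(h1.trans h3).trans h5, h6⟩

end Pool.Agent.SSE
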