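import Pool.Agent.SSE.V4
import Pool.Agent.SSE.IsoClass

/-!
# SSE project, part G1: tail splitting (the gadget)

`gad P x q k w` is the presentation on `(ι ⊕ {z}) ⊕ F` with the rows
`x = q + ∑ t^(k i) φ_i + t e_z`, `z = w`, `φ_i = t e_x`, `v = p_v`, where
`p_x = q + (∑ t^(k i + 1)) e_x + t w`.
-/

set_option autoImplicit false

open scoped BigOperators
open Matrix Polynomial

namespace Pool.Agent.SSE

attribute [local instance] Classical.propDecidable

variable {ι F : Type} [Fintype ι] [Fintype F]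

/-- the decomposition of the hub row `x` of `P`: `p_x = q + (∑ t^(k i + 1)) e_x + t w` -/
structure Tail (P : Matrix ι ι ℕ[X]) (x : ι) (q : ι → ℕ[X]) (k : F → ℕ) (w : ι → ℕ[X]) :
    Prop where
  pres : IsPres P
  q0 : ∀ j, (q j).coeff 0 = 0
  w0 : ∀ j, (w j).coeff 0 = 0
  kpos : ∀ i, 0 < k i
  row : ∀ j, P x j = q j + (if j = x then ∑ i, X ^ (k i + 1) else 0) + X * w j

/-- the gadget: tail splitting at `x` -/
noncomputable def gad (P : Matrix ι ι ℕ[X]) (x : ι) (q : ι → ℕ[X]) (k : F → ℕ) (w : ι → ℕ[X]) :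
    Matrix ((ι ⊕ Unit) ⊕ F) ((ι ⊕ Unit) ⊕ F) ℕ[X] :=
  fromBlocks
    (fromBlocks (setRow P x q) (of fun l _ => if l = x then X else 0) (of fun _ j => w j) 0)
    (of fun l i => if l = Sum.inl x then X ^ (k i) else 0)
    (of fun _ j => if j = Sum.inl x then X else 0) 0

section entries

variable (P : Matrix ι ι ℕ[X]) (x : ι) (q : ι → ℕ[X]) (k : F → ℕ) (w : ι → ℕ[X])

omit [Fintype ι] [Fintype F] in
@[simp] lemma gad_ll (l j : ι) : gad P x q k w (Sum.inl (Sum.inl l)) (Sum.inl (Sum.inl j)) =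
    if l = x then q j else P l j := rfl

omit [Fintype ι] [Fintype F] in
@[simp] lemma gad_lu (l : ι) (u : Unit) : gad P x q k w (Sum.inl (Sum.inl l)) (Sum.inl (Sum.inr u)) =
    if l = x then X else 0 := rfl

omit [Fintype ι] [Fintype F] in
@[simp] lemma gad_lf (l : ι) (i : F) : gad P x q k w (Sum.inl (Sum.inl l)) (Sum.inr i) =
    if l = x then X ^ (k i) else 0 := by
  simp only [gad, fromBlocks_apply₁₂, of_apply, Sum.inl.injEq]

omit [Fintype ι] [Fintype F] in
@[simp] lemma gad_ul (u : Unit) (j : ι) : gad P x q k w (Sum.inl (Sum.inr u)) (Sum.inl (Sum.inl j)) =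
    w j := rfl

omit [Fintype ι] [Fintype F] in
@[simp] lemma gad_uu (u u' : Unit) : gad P x q k w (Sum.inl (Sum.inr u)) (Sum.inl (Sum.inr u')) =
    0 := rfl

omit [Fintype ι] [Fintype F] in
@[simp] lemma gad_uf (u : Unit) (i : F) : gad P x q k w (Sum.inl (Sum.inr u)) (Sum.inr i) =
    0 := by
  simp [gad]

omit [Fintype ι] [Fintype F] in
@[simp] lemma gad_fl (i : F) (j : ι) : gad P x q k w (Sum.inr i) (Sum.inl (Sum.inl j)) =
    if j = x then X else 0 := by
  simp only [gad, fromBlocks_apply₂₁, of_apply, Sum.inl.injEq]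

omit [Fintype ι] [Fintype F] in
@[simp] lemma gad_fu (i : F) (u : Unit) : gad P x q k w (Sum.inr i) (Sum.inl (Sum.inr u)) =
    0 := by
  simp [gad]

omit [Fintype ι] [Fintype F] in
@[simp] lemma gad_ff (i i' : F) : gad P x q k w (Sum.inr i) (Sum.inr i') = 0 := rfl

end entries

lemma sum_gad {M : Type} [AddCommMonoid M] (f : (ι ⊕ Unit) ⊕ F → M) :
    ∑ l, f l = (∑ l : ι, f (Sum.inl (Sum.inl l))) + f (Sum.inl (Sum.inr ())) +
      ∑ i : F, f (Sum.inr i) := by
  rw [Fintype.sum_sum_type, Fintype.sum_sum_type]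
  simp

variable {P P' : Matrix ι ι ℕ[X]} {x : ι} {q : ι → ℕ[X]} {k : F → ℕ} {w w' : ι → ℕ[X]}

theorem Tail.isPres (h : Tail P x q k w) : IsPres (gad P x q k w) := by
  rintro ((l | u) | i) ((j | u') | i')
  · rw [gad_ll]
    split_ifs
    · exact h.q0 j
    · exact h.pres l j
  · rw [gad_lu]
    split_ifs <;> simp
  · rw [gad_lf]
    have := h.kpos i'
    split_ifs
    · rw [coeff_X_pow, if_neg (by omega)]
    · simp
  · rw [gad_ul]
    exact h.w0 j
  · simp
  · simp
  · rw [gad_fl]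
    split_ifs <;> simp
  · simp
  · simp

lemma toZ_X : toZ X = X := Polynomial.map_X _
lemma toZ_pow (p : ℕ[X]) (n : ℕ) : toZ (p ^ n) = toZ p ^ n := Polynomial.map_pow _ _
lemma toZ_sum {α : Type} (s : Finset α) (f : α → ℕ[X]) : toZ (∑ i ∈ s, f i) = ∑ i ∈ s, toZ (f i) :=
  Polynomial.map_sum _ _ _

/-- the relation of the hub in columns of `ι` -/
lemma Tail.rel_l (h : Tail P x q k w) (j : ι) :
    IP P x j = IP (gad P x q k w) (Sum.inl (Sum.inl x)) (Sum.inl (Sum.inl j)) +
      X * IP (gad P x q k w) (Sum.inl (Sum.inr ())) (Sum.inl (Sum.inl j)) +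
      ∑ i, X ^ (k i) * IP (gad P x q k w) (Sum.inr i) (Sum.inl (Sum.inl j)) := by
  simp only [IP_apply, gad_ll, gad_ul, gad_fl, if_true, h.row j, Sum.inl.injEq, reduceCtorEq,
    if_false, toZ_add, toZ_mul, toZ_X]
  by_cases hj : j = x
  · subst hj
    simp only [if_true, toZ_sum, toZ_pow, toZ_X, toZ_mul, zero_sub, mul_neg,
      Finset.sum_neg_distrib, pow_succ]
    ring
  · simp only [if_neg hj, if_neg (Ne.symm hj), toZ_zero]
    simp
    ring

lemma rel_u (P : Matrix ι ι ℕ[X]) (x : ι) (q : ι → ℕ[X]) (k : F → ℕ) (w : ι → ℕ[X]) (u : Unit) :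
    0 = IP (gad P x q k w) (Sum.inl (Sum.inl x)) (Sum.inl (Sum.inr u)) +
      X * IP (gad P x q k w) (Sum.inl (Sum.inr ())) (Sum.inl (Sum.inr u)) +
      ∑ i, X ^ (k i) * IP (gad P x q k w) (Sum.inr i) (Sum.inl (Sum.inr u)) := by
  simp [IP_apply, toZ_X]

lemma rel_f (P : Matrix ι ι ℕ[X]) (x : ι) (q : ι → ℕ[X]) (k : F → ℕ) (w : ι → ℕ[X]) (i : F) :
    0 = IP (gad P x q k w) (Sum.inl (Sum.inl x)) (Sum.inr i) +
      X * IP (gad P x q k w) (Sum.inl (Sum.inr ())) (Sum.inr i) +
      ∑ i', X ^ (k i') * IP (gad P x q k w) (Sum.inr i') (Sum.inr i) := by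
  simp only [IP_apply, gad_lf, gad_uf, gad_ff, if_true, reduceCtorEq, if_false, Sum.inr.injEq]
  rw [Finset.sum_eq_single i]
  · simp [toZ]
  · intro b _ hb
    simp [hb]
  · simp

/-- extension of a vector by zero -/
noncomputable def ext0 (F : Type) {ι : Type} (v : ι → ℤ[X]) : (ι ⊕ Unit) ⊕ F → ℤ[X] := Sum.elim (Sum.elim v 0) 0

/-- (1b) the relation of the hub -/
theorem Tail.rel (h : Tail P x q k w) (j : (ι ⊕ Unit) ⊕ F) :
    ext0 F (IP P x) j = IP (gad P x q k w) (Sum.inl (Sum.inl x)) j +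
      X * IP (gad P x q k w) (Sum.inl (Sum.inr ())) j +
      ∑ i, X ^ (k i) * IP (gad P x q k w) (Sum.inr i) j := by
  rcases j with (j | j) | j
  · exact h.rel_l j
  · exact rel_u P x q k w j
  · exact rel_f P x q k w j

/-- the relations of the other vertices -/
theorem rel_ne {l : ι} (hl : l ≠ x) (P : Matrix ι ι ℕ[X]) (q : ι → ℕ[X]) (k : F → ℕ)
    (w : ι → ℕ[X]) (j : (ι ⊕ Unit) ⊕ F) :
    ext0 F (IP P l) j = IP (gad P x q k w) (Sum.inl (Sum.inl l)) j := by
  rcases j with (j | j) | j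
  · simp [ext0, IP_apply, hl]
  · simp [ext0, IP_apply, hl]
  · simp [ext0, IP_apply, hl]

/-- the matrix which expresses the relations of `P` in the relations of the gadget -/
theorem Tail.span (h : Tail P x q k w) (b : ι → ℤ[X]) (j : (ι ⊕ Unit) ⊕ F) :
    ext0 F (fun j => ∑ l, b l * IP P l j) j =
      ∑ l, (Sum.elim (Sum.elim b (fun _ => X * b x)) (fun i => X ^ (k i) * b x) :
        (ι ⊕ Unit) ⊕ F → ℤ[X]) l * IP (gad P x q k w) l j := by
  have e1 : ext0 F (fun j => ∑ l, b l * IP P l j) j = ∑ l, b l * ext0 F (IP P l) j := by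
    rcases j with (j | j) | j <;> simp [ext0]
  rw [e1, sum_gad]
  simp only [Sum.elim_inl, Sum.elim_inr]
  rw [← Finset.add_sum_erase Finset.univ (fun l => b l * ext0 F (IP P l) j) (Finset.mem_univ x),
    ← Finset.add_sum_erase Finset.univ (fun l => b l * IP (gad P x q k w) (Sum.inl (Sum.inl l)) j)
      (Finset.mem_univ x), h.rel j]
  have e2 : ∑ l ∈ Finset.univ.erase x, b l * ext0 F (IP P l) j =
      ∑ l ∈ Finset.univ.erase x, b l * IP (gad P x q k w) (Sum.inl (Sum.inl l)) j :=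
    Finset.sum_congr rfl fun l hl => by rw [rel_ne (Finset.ne_of_mem_erase hl) P q k w j]
  rw [e2, mul_add, mul_add, Finset.mul_sum]
  have e3 : ∑ i, b x * (X ^ k i * IP (gad P x q k w) (Sum.inr i) j) =
      ∑ i, X ^ k i * b x * IP (gad P x q k w) (Sum.inr i) j :=
    Finset.sum_congr rfl fun i _ => by ring
  rw [e3]
  ring

/-- (1a) the gadget is strong shift equivalent to the presentation -/
theorem Tail.peqv (h : Tail P x q k w) : PEqv (gad P x q k w) P := by
  set G0 : Matrix ((ι ⊕ Unit) ⊕ F) ((ι ⊕ Unit) ⊕ F) ℕ[X] :=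
    fromBlocks (fromBlocks P 0 (of fun _ j => w j) 0) 0
      (of fun _ j => if j = Sum.inl x then X else 0) 0 with hG0
  have h1 : PEqv G0 P := (sources _ _).trans (sources _ _)
  refine PEqv.trans (PEqv.symm ?_) h1
  have hp0 : IsPres G0 := by
    rintro ((l | u) | i) ((j | u') | i')
    · exact h.pres l j
    · simp [hG0]
    · simp [hG0]
    · exact h.w0 j
    · simp [hG0]
    · simp [hG0]
    · simp only [hG0, fromBlocks_apply₂₁, of_apply]
      split_ifs <;> simp
    · simp [hG0]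
    · simp [hG0]
  have hrows : ∀ l, l ≠ Sum.inl (Sum.inl x) → G0 l = gad P x q k w l := by
    rintro ((l | u) | i) hl
    · have hl' : l ≠ x := fun h => hl (by rw [h])
      funext j
      rcases j with (j | j) | j
      · simp [hG0, hl']
      · simp [hG0, hl']
      · simp [hG0, hl']
    · funext j
      rcases j with (j | j) | j
      · simp [hG0]
      · simp [hG0]
      · simp [hG0]
    · funext j
      rcases j with (j | j) | j
      · simp [hG0]
      · simp [hG0]
      · simp [hG0]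
  have hx0 : ∀ j, IP G0 (Sum.inl (Sum.inl x)) j = ext0 F (IP P x) j := by
    rintro ((j | j) | j)
    · simp [hG0, ext0, IP_apply]
    · simp [hG0, ext0, IP_apply]
    · simp [hG0, ext0, IP_apply]
  have hIP : ∀ l, l ≠ Sum.inl (Sum.inl x) → ∀ j, IP G0 l j = IP (gad P x q k w) l j := by
    intro l hl j
    rw [IP_apply, IP_apply, hrows l hl]
  refine one_row hp0 h.isPres (Sum.inl (Sum.inl x)) hrows
    (Sum.elim (Sum.elim 0 (fun _ => - X)) (fun i => - X ^ (k i))) rfl fun j => ?_
  rw [hx0, h.rel j, sum_gad]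
  simp only [Sum.elim_inl, Sum.elim_inr, Pi.zero_apply, zero_mul, Finset.sum_const_zero, zero_add]
  rw [hIP _ (by simp)]
  simp only [hIP _ (show (Sum.inr _ : (ι ⊕ Unit) ⊕ F) ≠ Sum.inl (Sum.inl x) by simp)]
  simp only [neg_mul, Finset.sum_neg_distrib]
  ring

/-- (1c) attach: a one-row move in a row `v ≠ x` -/
theorem Tail.row_move (h : Tail P x q k w) (h' : Tail P' x q k w) {v : ι} (hv : v ≠ x)
    (he : ∀ l, l ≠ v → P' l = P l) (b : ι → ℤ[X]) (hb : b v = 0)
    (hrow : ∀ j, IP P' v j = IP P v j + ∑ l, b l * IP P l j) :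
    (∀ l, l ≠ Sum.inl (Sum.inl v) → gad P' x q k w l = gad P x q k w l) ∧
    ∃ b' : (ι ⊕ Unit) ⊕ F → ℤ[X], b' (Sum.inl (Sum.inl v)) = 0 ∧
      ∀ j, IP (gad P' x q k w) (Sum.inl (Sum.inl v)) j =
        IP (gad P x q k w) (Sum.inl (Sum.inl v)) j + ∑ l, b' l * IP (gad P x q k w) l j := by
  refine ⟨?_, Sum.elim (Sum.elim b (fun _ => X * b x)) (fun i => X ^ (k i) * b x), ?_,
    fun j => ?_⟩
  · rintro ((l | u) | i) hl
    · have hl' : l ≠ v := fun h => hl (by rw [h])
      funext j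
      rcases j with (j | j) | j
      · simp [he l hl']
      · simp
      · simp
    · funext j
      rcases j with (j | j) | j <;> simp
    · funext j
      rcases j with (j | j) | j <;> simp
  · simpa using hb
  · rw [← h.span b j, ← rel_ne hv P' q k w j, ← rel_ne hv P q k w j]
    rcases j with (j | j) | j
    · simp [ext0, hrow j]
    · simp [ext0]
    · simp [ext0]

/-- FACT 0: the coefficients of a one-row move are divisible by `t` -/
theorem coeff_zero_of_row_move (hP : IsPres P) (hP' : IsPres P') {v : ι} (b : ι → ℤ[X])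
    (hb : b v = 0) (hrow : ∀ j, IP P' v j = IP P v j + ∑ l, b l * IP P l j) (l : ι) :
    (b l).coeff 0 = 0 := by
  have h0 : ∀ (R : Matrix ι ι ℕ[X]), IsPres R → ∀ i j, (IP R i j).coeff 0 = if i = j then 1 else 0 := by
    intro R hR i j
    rw [IP_apply, coeff_sub, coeff_toZ, hR]
    split_ifs <;> simp
  have h1 := congrArg (fun p => p.coeff 0) (hrow l)
  simp only [coeff_add, finsetSum_coeff, mul_coeff_zero, h0 P hP, h0 P' hP'] at h1
  have h2 : ∑ i, (b i).coeff 0 * (if i = l then (1 : ℤ) else 0) = (b l).coeff 0 := by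
    rw [Finset.sum_eq_single l]
    · simp
    · intro i _ hi
      simp [hi]
    · simp
  rw [h2] at h1
  linarith

/-- (1c) attach: a one-row move in the row `x` -/
theorem Tail.hub_move (h : Tail P x q k w) (h' : Tail P' x q k w')
    (he : ∀ l, l ≠ x → P' l = P l) (b : ι → ℤ[X]) (hb : b x = 0)
    (hrow : ∀ j, IP P' x j = IP P x j + ∑ l, b l * IP P l j) :
    (∀ l, l ≠ Sum.inl (Sum.inr ()) → gad P' x q k w' l = gad P x q k w l) ∧
    ∃ b' : (ι ⊕ Unit) ⊕ F → ℤ[X], b' (Sum.inl (Sum.inr ())) = 0 ∧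
      ∀ j, IP (gad P' x q k w') (Sum.inl (Sum.inr ())) j =
        IP (gad P x q k w) (Sum.inl (Sum.inr ())) j + ∑ l, b' l * IP (gad P x q k w) l j := by
  have hb0 := coeff_zero_of_row_move h.pres h'.pres b hb hrow
  have hbX : ∀ l, b l = X * (b l).divX := by
    intro l
    conv_lhs => rw [← divX_mul_X_add (b l), hb0 l]
    simp [mul_comm]
  refine ⟨?_, Sum.elim (Sum.elim (fun l => (b l).divX) 0) 0, ?_, fun j => ?_⟩
  · rintro ((l | u) | i) hl
    · funext j
      rcases j with (j | j) | j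
      · rw [gad_ll, gad_ll]
        split_ifs with hlx
        · rfl
        · rw [he l hlx]
      · simp
      · simp
    · exact absurd rfl hl
    · funext j
      rcases j with (j | j) | j <;> simp
  · rfl
  · rw [sum_gad]
    simp only [Sum.elim_inl, Sum.elim_inr, Pi.zero_apply, zero_mul, Finset.sum_const_zero,
      add_zero]
    have e1 : ∀ l, (b l).divX * IP (gad P x q k w) (Sum.inl (Sum.inl l)) j =
        (b l).divX * ext0 F (IP P l) j := by
      intro l
      by_cases hl : l = x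
      · rw [hl, hb]
        simp
      · rw [rel_ne hl P q k w j]
    simp only [e1]
    have hX : (X : ℤ[X]) ≠ 0 := X_ne_zero
    refine mul_left_cancel₀ hX ?_
    rcases j with (j | j) | j
    · have h1 := hrow j
      have h2 : ∑ l, b l * IP P l j = X * ∑ l, (b l).divX * IP P l j := by
        rw [Finset.mul_sum]
        refine Finset.sum_congr rfl fun l _ => ?_
        conv_lhs => rw [hbX l]
        ring
      rw [h2] at h1
      simp only [IP_apply, h.row j, h'.row j, toZ_add, toZ_mul, toZ_X] at h1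
      simp only [IP_apply, gad_ul, reduceCtorEq, if_false, Sum.inl.injEq, ext0, Sum.elim_inl]
      rw [mul_add]
      linear_combination h1
    · simp [ext0, IP_apply]
    · simp [ext0, IP_apply]

end Pool.Agent.SSE
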