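import Pool.Agent.SSE.V7
import Pool.Agent.SSE.G1

/-!
# SSE project, part G2: general tail splittings, change of the splitting, reindexing, shrinking and
expanding the set of fresh vertices
-/

set_option autoImplicit false

open scoped BigOperators
open Matrix Polynomial

namespace Pool.Agent.SSE

attribute [local instance] Classical.propDecidable

/-! ## reindexing, shrinking, expanding -/

section fr

variable {κ κ' J J' J1 : Type} [Fintype κ] [Fintype κ'] [Fintype J] [Fintype J'] [Fintype J1]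

omit [Fintype κ] [Fintype J] in
lemma IP_submatrix {ι ι' : Type} [Fintype ι] [Fintype ι'] (P : Matrix ι ι ℕ[X]) (e : ι' ≃ ι)
    (i j : ι') : IP (P.submatrix e e) i j = IP P (e i) (e j) := by
  rw [IP_apply, IP_apply, submatrix_apply]
  congr 1
  by_cases h : i = j
  · rw [if_pos h, if_pos (by rw [h])]
  · rw [if_neg h, if_neg fun h' => h (e.injective h')]

/-- reindexing of frames -/
theorem Fr.reindex {P Q : Matrix (κ ⊕ J) (κ ⊕ J) ℕ[X]} {S : Set κ} {g : Matrix J J ℤ[X]}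
    (h : Fr P S g Q) (e : κ' ≃ κ) (f : J' ≃ J) :
    Fr (P.submatrix (Equiv.sumCongr e f) (Equiv.sumCongr e f)) (e ⁻¹' S) (g.submatrix f f)
      (Q.submatrix (Equiv.sumCongr e f) (Equiv.sumCongr e f)) := by
  refine ⟨fun i j => h.1 _ _, fun k => ?_, fun φ => ?_⟩
  · funext j
    simp only [submatrix_apply, Equiv.sumCongr_apply, Sum.map_inl, h.2.1]
  · obtain ⟨c, h0, hc⟩ := h.2.2 (f φ)
    refine ⟨fun k => c (e k), fun k hk => h0 _ hk, fun j => ?_⟩
    simp only [IP_submatrix]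
    simp only [Equiv.sumCongr_apply, Sum.map_inl, Sum.map_inr, submatrix_apply]
    rw [hc]
    congr 1
    · exact (Equiv.sum_comp f (fun ψ => g (f φ) ψ * IP P (Sum.inr ψ) (Sum.map e f j))).symm
    · exact (Equiv.sum_comp e (fun k => c k * IP P (Sum.inl k) (Sum.map e f j))).symm

/-- the equivalence which moves `J1` to the environment -/
def esh (κ J1 J : Type) : (κ ⊕ J1) ⊕ J ≃ κ ⊕ (J1 ⊕ J) := Equiv.sumAssoc κ J1 J

/-- SHRINK: if `g = 1 ⊕ W`, the fresh vertices in `J1` can be moved to the environment -/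
theorem Fr.shrink [DecidableEq J1] {P Q : Matrix (κ ⊕ (J1 ⊕ J)) (κ ⊕ (J1 ⊕ J)) ℕ[X]} {S : Set κ}
    {W : Matrix J J ℤ[X]} (hP : IsPres P) (h : Fr P S (fromBlocks 1 0 0 W) Q) :
    ∃ Q', Fr (P.submatrix (esh κ J1 J) (esh κ J1 J)) (Sum.inl '' S) W Q' ∧ PEqv Q Q' := by
  -- the rows of `J1` replaced by the rows of `P`
  set Q0 : Matrix (κ ⊕ (J1 ⊕ J)) (κ ⊕ (J1 ⊕ J)) ℕ[X] :=
    Sum.elim (fun k => Q (Sum.inl k)) (Sum.elim (fun a => P (Sum.inr (Sum.inl a)))
      (fun φ => Q (Sum.inr (Sum.inr φ)))) with hQ0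
  have hpres : IsPres Q0 := by
    rintro (k | (a | φ)) j
    · exact h.1 _ _
    · exact hP _ _
    · exact h.1 _ _
  refine ⟨Q0.submatrix (esh κ J1 J) (esh κ J1 J), ⟨fun i j => hpres _ _, ?_, fun φ => ?_⟩, ?_⟩
  · rintro (k | a)
    · funext j
      have := congrFun (h.2.1 k) (esh κ J1 J j)
      exact this
    · rfl
  · obtain ⟨c, h0, hc⟩ := h.2.2 (Sum.inr φ)
    refine ⟨Sum.elim c 0, ?_, fun j => ?_⟩
    · rintro (k | a) hk
      · exact h0 k fun hk' => hk ⟨k, hk', rfl⟩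
      · rfl
    · simp only [IP_submatrix]
      have e1 : IP Q0 (esh κ J1 J (Sum.inr φ)) (esh κ J1 J j) =
          IP Q (Sum.inr (Sum.inr φ)) (esh κ J1 J j) := by
        rw [IP_apply, IP_apply]
        rfl
      rw [e1, hc, Fintype.sum_sum_type, Fintype.sum_sum_type]
      simp only [fromBlocks_apply₂₁, fromBlocks_apply₂₂, Matrix.zero_apply, zero_mul,
        Finset.sum_const_zero, zero_add, Sum.elim_inl, Sum.elim_inr, Pi.zero_apply, add_zero]
      rfl
  · refine PEqv.trans ?_ (PEqv.reindex Q0 (esh κ J1 J))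
    refine rows h.1 hpres (fun k => rfl) ?_
    rintro (a | φ)
    · obtain ⟨c, h0, hc⟩ := h.2.2 (Sum.inl a)
      refine ⟨fun k => - c k, fun j => ?_⟩
      have e1 : IP Q0 (Sum.inr (Sum.inl a)) j = IP P (Sum.inr (Sum.inl a)) j := by
        rw [IP_apply, IP_apply]
        rfl
      rw [e1, hc, Fintype.sum_sum_type]
      simp only [fromBlocks_apply₁₁, fromBlocks_apply₁₂, Matrix.zero_apply, zero_mul,
        Finset.sum_const_zero, add_zero]
      have e2 : ∑ a' : J1, (1 : Matrix J1 J1 ℤ[X]) a a' * IP P (Sum.inr (Sum.inl a')) j =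
          IP P (Sum.inr (Sum.inl a)) j := by
        rw [Finset.sum_eq_single a]
        · rw [Matrix.one_apply_eq, one_mul]
        · intro b _ hb
          rw [Matrix.one_apply_ne hb.symm, zero_mul]
        · simp
      rw [e2, add_assoc, ← Finset.sum_add_distrib]
      rw [Finset.sum_eq_zero, add_zero]
      intro k _
      rw [IP_congr (h.2.1 k)]
      ring
    · refine ⟨0, fun j => ?_⟩
      have e1 : IP Q0 (Sum.inr (Sum.inr φ)) j = IP Q (Sum.inr (Sum.inr φ)) j := by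
        rw [IP_apply, IP_apply]
        rfl
      rw [e1]
      simp

/-- EXPAND: vertices `J1` of the environment become fresh -/
theorem Fr.expand [DecidableEq J1] {P : Matrix (κ ⊕ (J1 ⊕ J)) (κ ⊕ (J1 ⊕ J)) ℕ[X]}
    {Q : Matrix ((κ ⊕ J1) ⊕ J) ((κ ⊕ J1) ⊕ J) ℕ[X]} {S : Set κ}
    {W : Matrix J J ℤ[X]} (h : Fr (P.submatrix (esh κ J1 J) (esh κ J1 J)) (Sum.inl '' S) W Q) :
    Fr P S (fromBlocks 1 0 0 W) (Q.submatrix (esh κ J1 J).symm (esh κ J1 J).symm) := by
  have henv : ∀ (k : κ ⊕ J1) (j : κ ⊕ (J1 ⊕ J)),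
      Q (Sum.inl k) ((esh κ J1 J).symm j) = P (esh κ J1 J (Sum.inl k)) j := by
    intro k j
    have := congrFun (h.2.1 k) ((esh κ J1 J).symm j)
    rw [this, submatrix_apply, Equiv.apply_symm_apply]
  refine ⟨fun i j => h.1 _ _, fun k => ?_, ?_⟩
  · funext j
    exact henv (Sum.inl k) j
  · rintro (a | φ)
    · refine ⟨0, fun _ _ => rfl, fun j => ?_⟩
      rw [IP_submatrix, Fintype.sum_sum_type]
      simp only [fromBlocks_apply₁₁, fromBlocks_apply₁₂, Matrix.zero_apply, zero_mul,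
        Finset.sum_const_zero, add_zero, Pi.zero_apply]
      rw [Finset.sum_eq_single a]
      · rw [Matrix.one_apply_eq, one_mul, IP_apply, IP_apply]
        congr 1
        · by_cases hj : Sum.inr (Sum.inl a) = j
          · subst hj
            simp
          · rw [if_neg hj, if_neg fun h => hj ((esh κ J1 J).symm.injective h)]
        · exact congrArg toZ (henv (Sum.inr a) j)
      · intro b _ hb
        rw [Matrix.one_apply_ne hb.symm, zero_mul]
      · simp
    · obtain ⟨c, h0, hc⟩ := h.2.2 φ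
      refine ⟨fun k => c (Sum.inl k), fun k hk => h0 _ ?_, fun j => ?_⟩
      · rintro ⟨k', hk', h2⟩
        rw [Sum.inl.inj h2] at hk'
        exact hk hk'
      · have e0 : IP (Q.submatrix (esh κ J1 J).symm (esh κ J1 J).symm) (Sum.inr (Sum.inr φ)) j =
            IP Q (Sum.inr φ) ((esh κ J1 J).symm j) := IP_submatrix _ _ _ _
        rw [e0, hc, Fintype.sum_sum_type, Fintype.sum_sum_type]
        simp only [IP_submatrix, Equiv.apply_symm_apply, fromBlocks_apply₂₁, fromBlocks_apply₂₂,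
          Matrix.zero_apply, zero_mul, Finset.sum_const_zero, zero_add]
        have e1 : ∑ a : J1, c (Sum.inr a) * IP P (esh κ J1 J (Sum.inl (Sum.inr a))) j = 0 := by
          refine Finset.sum_eq_zero fun a _ => ?_
          rw [h0 (Sum.inr a) (by rintro ⟨k', _, h2⟩; cases h2), zero_mul]
        rw [e1, add_zero]
        rfl

end fr

/-! ## general tail splittings -/

section gen

variable {ι N N' J : Type} [Fintype ι] [Fintype N] [Fintype N'] [Fintype J]

/-- the presentation on `(ι ⊕ N) ⊕ J` with the rows `x = q + ∑ c_n e_n + ∑ c0_φ e_φ`, `n = R_n`,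
`φ = R0_φ`, and the rows of `P` otherwise -/
noncomputable def gen (P : Matrix ι ι ℕ[X]) (x : ι) (q : ι → ℕ[X]) (c : N → ℕ[X])
    (R : N → ι → ℕ[X]) (c0 : J → ℕ[X]) (R0 : J → ι → ℕ[X]) :
    Matrix ((ι ⊕ N) ⊕ J) ((ι ⊕ N) ⊕ J) ℕ[X] :=
  Sum.elim (Sum.elim (fun l => if l = x then Sum.elim (Sum.elim q c) c0 else
    Sum.elim (Sum.elim (P l) 0) 0) (fun n => Sum.elim (Sum.elim (R n) 0) 0))
    (fun φ => Sum.elim (Sum.elim (R0 φ) 0) 0)

variable {P : Matrix ι ι ℕ[X]} {x : ι} {q q' : ι → ℕ[X]} {c c' : N → ℕ[X]}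
  {R : N → ι → ℕ[X]} {c0 : J → ℕ[X]} {R0 : J → ι → ℕ[X]}

omit [Fintype ι] [Fintype N] [Fintype J] in
lemma gen_hub : gen P x q c R c0 R0 (Sum.inl (Sum.inl x)) = Sum.elim (Sum.elim q c) c0 := by
  simp [gen]

omit [Fintype ι] [Fintype N] [Fintype J] in
lemma gen_ne {l : ι} (hl : l ≠ x) : gen P x q c R c0 R0 (Sum.inl (Sum.inl l)) =
    Sum.elim (Sum.elim (P l) 0) 0 := by
  simp [gen, hl]

omit [Fintype ι] [Fintype N] [Fintype J] in
lemma gen_n (n : N) : gen P x q c R c0 R0 (Sum.inl (Sum.inr n)) =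
    Sum.elim (Sum.elim (R n) 0) 0 := rfl

omit [Fintype ι] [Fintype N] [Fintype J] in
lemma gen_J (φ : J) : gen P x q c R c0 R0 (Sum.inr φ) =
    Sum.elim (Sum.elim (R0 φ) 0) 0 := rfl

/-- change of the splitting with the same fresh rows -/
theorem gen_change_same [DecidableEq J] {S S' : Set (ι ⊕ N)} {W : Matrix J J ℤ[X]}
    {Q Q' : Matrix ((ι ⊕ N) ⊕ J) ((ι ⊕ N) ⊕ J) ℕ[X]}
    (hsum : ∀ j, q j + ∑ n, c n * R n j = q' j + ∑ n, c' n * R n j)
    (h : Fr (gen P x q c R c0 R0) S W Q) (h' : Fr (gen P x q' c' R c0 R0) S' W Q') :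
    PEqv Q Q' := by
  refine Fr.transfer_env (Sum.inl x) ?_ (Sum.elim 0 (fun n => toZ (c n) - toZ (c' n))) rfl ?_ ?_ h h'
  · rintro (l | n) hl
    · have hl' : l ≠ x := fun h => hl (by rw [h])
      rw [gen_ne hl', gen_ne hl']
    · rw [gen_n, gen_n]
  · intro j
    rw [Fintype.sum_sum_type]
    simp only [Sum.elim_inl, Sum.elim_inr, Pi.zero_apply, zero_mul, Finset.sum_const_zero, zero_add]
    simp only [IP_apply, gen_hub, gen_n]
    rcases j with (j | n) | φ
    · simp only [Sum.elim_inl, Sum.inl.injEq, reduceCtorEq, if_false, zero_sub]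
      have h1 := congrArg toZ (hsum j)
      simp only [toZ_add, toZ_sum, toZ_mul] at h1
      simp only [mul_neg, Finset.sum_neg_distrib, sub_mul, Finset.sum_sub_distrib]
      linear_combination h1
    · simp only [Sum.elim_inl, Sum.elim_inr, Sum.inl.injEq, reduceCtorEq, if_false, zero_sub,
        Sum.inr.injEq, Pi.zero_apply, toZ_zero, sub_zero]
      rw [Finset.sum_eq_single n]
      · simp
        ring
      · intro b _ hb
        simp [hb]
      · simp
    · simp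
  · intro φ
    refine ⟨0, fun j => ?_⟩
    rw [IP_apply, IP_apply, gen_J, gen_J]
    simp

/-- the equivalence for adding sources on the right -/
def esr (ι N N' : Type) : ι ⊕ (N ⊕ N') ≃ (ι ⊕ N) ⊕ N' := (Equiv.sumAssoc ι N N').symm

/-- adding sources on the right -/
theorem gen_src [DecidableEq J] {S : Set (ι ⊕ N)} {W : Matrix J J ℤ[X]}
    {Q : Matrix ((ι ⊕ N) ⊕ J) ((ι ⊕ N) ⊕ J) ℕ[X]} (R' : N' → ι → ℕ[X])
    (hR' : ∀ n j, (R' n j).coeff 0 = 0)
    (h : Fr (gen P x q c R c0 R0) S W Q) : ∃ (S' : Set (ι ⊕ (N ⊕ N')))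
      (Q' : Matrix ((ι ⊕ (N ⊕ N')) ⊕ J) ((ι ⊕ (N ⊕ N')) ⊕ J) ℕ[X]),
      Fr (gen P x q (Sum.elim c 0) (Sum.elim R R') c0 R0) S' W Q' ∧ PEqv Q Q' := by
  set Wm : Matrix N' ((ι ⊕ N) ⊕ J) ℕ[X] := fun n => Sum.elim (Sum.elim (R' n) 0) 0 with hWm
  have hW0 : ∀ m j, (Wm m j).coeff 0 = 0 := by
    rintro m ((j | j) | j)
    · exact hR' m j
    · simp [hWm]
    · simp [hWm]
  have h1 := (h.add_src hW0).reindex (esr ι N N') (Equiv.refl J)
  have e1 : (addSrc (gen P x q c R c0 R0) Wm).submatrix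
      (Equiv.sumCongr (esr ι N N') (Equiv.refl J)) (Equiv.sumCongr (esr ι N N') (Equiv.refl J)) =
      gen P x q (Sum.elim c 0) (Sum.elim R R') c0 R0 := by
    refine Matrix.ext fun i j => ?_
    rcases i with (l | (n | n)) | φ
    · by_cases hl : l = x
      · subst hl
        rw [gen_hub]
        rcases j with (j | (m | m)) | ψ
        · have := addSrc_oi (gen P l q c R c0 R0) Wm (Sum.inl (Sum.inl l)) (Sum.inl (Sum.inl j))
          rw [gen_hub] at this
          exact this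
        · have := addSrc_oi (gen P l q c R c0 R0) Wm (Sum.inl (Sum.inl l)) (Sum.inl (Sum.inr m))
          rw [gen_hub] at this
          exact this
        · exact addSrc_oi_src (gen P l q c R c0 R0) Wm (Sum.inl (Sum.inl l)) m
        · have := addSrc_oi (gen P l q c R c0 R0) Wm (Sum.inl (Sum.inl l)) (Sum.inr ψ)
          rw [gen_hub] at this
          exact this
      · rw [gen_ne hl]
        rcases j with (j | (m | m)) | ψ
        · have := addSrc_oi (gen P x q c R c0 R0) Wm (Sum.inl (Sum.inl l)) (Sum.inl (Sum.inl j))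
          rw [gen_ne hl] at this
          exact this
        · have := addSrc_oi (gen P x q c R c0 R0) Wm (Sum.inl (Sum.inl l)) (Sum.inl (Sum.inr m))
          rw [gen_ne hl] at this
          exact this
        · exact addSrc_oi_src (gen P x q c R c0 R0) Wm (Sum.inl (Sum.inl l)) m
        · have := addSrc_oi (gen P x q c R c0 R0) Wm (Sum.inl (Sum.inl l)) (Sum.inr ψ)
          rw [gen_ne hl] at this
          exact this
    · rw [gen_n]
      rcases j with (j | (m | m)) | ψ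
      · exact addSrc_oi (gen P x q c R c0 R0) Wm (Sum.inl (Sum.inr n)) (Sum.inl (Sum.inl j))
      · exact addSrc_oi (gen P x q c R c0 R0) Wm (Sum.inl (Sum.inr n)) (Sum.inl (Sum.inr m))
      · exact addSrc_oi_src (gen P x q c R c0 R0) Wm (Sum.inl (Sum.inr n)) m
      · exact addSrc_oi (gen P x q c R c0 R0) Wm (Sum.inl (Sum.inr n)) (Sum.inr ψ)
    · rw [gen_n]
      rcases j with (j | (m | m)) | ψ
      · exact addSrc_src (gen P x q c R c0 R0) Wm n (Sum.inl (Sum.inl j))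
      · exact addSrc_src (gen P x q c R c0 R0) Wm n (Sum.inl (Sum.inr m))
      · exact addSrc_src_src (gen P x q c R c0 R0) Wm n m
      · exact addSrc_src (gen P x q c R c0 R0) Wm n (Sum.inr ψ)
    · rw [gen_J]
      rcases j with (j | (m | m)) | ψ
      · exact addSrc_oi (gen P x q c R c0 R0) Wm (Sum.inr φ) (Sum.inl (Sum.inl j))
      · exact addSrc_oi (gen P x q c R c0 R0) Wm (Sum.inr φ) (Sum.inl (Sum.inr m))
      · exact addSrc_oi_src (gen P x q c R c0 R0) Wm (Sum.inr φ) m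
      · exact addSrc_oi (gen P x q c R c0 R0) Wm (Sum.inr φ) (Sum.inr ψ)
  rw [e1] at h1
  refine ⟨_, _, h1, ?_⟩
  exact (addSrc_peqv Q Wm).symm.trans (PEqv.reindex _ _)

/-- commuting the two groups of sources -/
theorem gen_comm [DecidableEq J] {c' : N' → ℕ[X]} {R' : N' → ι → ℕ[X]} {S : Set (ι ⊕ (N ⊕ N'))}
    {W : Matrix J J ℤ[X]} {Q : Matrix ((ι ⊕ (N ⊕ N')) ⊕ J) ((ι ⊕ (N ⊕ N')) ⊕ J) ℕ[X]}
    (h : Fr (gen P x q (Sum.elim c c') (Sum.elim R R') c0 R0) S W Q) :
    ∃ (S' : Set (ι ⊕ (N' ⊕ N))) (Q' : Matrix ((ι ⊕ (N' ⊕ N)) ⊕ J) ((ι ⊕ (N' ⊕ N)) ⊕ J) ℕ[X]),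
      Fr (gen P x q (Sum.elim c' c) (Sum.elim R' R) c0 R0) S' W Q' ∧ PEqv Q Q' := by
  set e : ι ⊕ (N' ⊕ N) ≃ ι ⊕ (N ⊕ N') := Equiv.sumCongr (Equiv.refl ι) (Equiv.sumComm N' N) with he
  have h1 := h.reindex e (Equiv.refl J)
  have e1 : (gen P x q (Sum.elim c c') (Sum.elim R R') c0 R0).submatrix
      (Equiv.sumCongr e (Equiv.refl J)) (Equiv.sumCongr e (Equiv.refl J)) =
      gen P x q (Sum.elim c' c) (Sum.elim R' R) c0 R0 := by
    refine Matrix.ext fun i j => ?_
    rw [submatrix_apply]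
    rcases i with (l | (n | n)) | φ
    · have e2 : Equiv.sumCongr e (Equiv.refl J) (Sum.inl (Sum.inl l)) = Sum.inl (Sum.inl l) := rfl
      rw [e2]
      by_cases hl : l = x
      · subst hl
        rw [gen_hub, gen_hub]
        rcases j with (j | (m | m)) | ψ <;> rfl
      · rw [gen_ne hl, gen_ne hl]
        rcases j with (j | (m | m)) | ψ <;> rfl
    · rcases j with (j | (m | m)) | ψ <;> rfl
    · rcases j with (j | (m | m)) | ψ <;> rfl
    · rcases j with (j | (m | m)) | ψ <;> rfl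
  rw [e1] at h1
  exact ⟨_, _, h1, PEqv.reindex _ _⟩

/-- CHANGE OF THE SPLITTING: two tail splittings of the same hub row with the same fresh rows give
the same class for the same twist. -/
theorem gen_change [DecidableEq J] {c' : N' → ℕ[X]} {R' : N' → ι → ℕ[X]} {S : Set (ι ⊕ N)}
    {S' : Set (ι ⊕ N')} {W : Matrix J J ℤ[X]}
    {Q : Matrix ((ι ⊕ N) ⊕ J) ((ι ⊕ N) ⊕ J) ℕ[X]}
    {Q' : Matrix ((ι ⊕ N') ⊕ J) ((ι ⊕ N') ⊕ J) ℕ[X]}
    (hR : ∀ n j, (R n j).coeff 0 = 0) (hR' : ∀ n j, (R' n j).coeff 0 = 0)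
    (hsum : ∀ j, q j + ∑ n, c n * R n j = q' j + ∑ n, c' n * R' n j)
    (h : Fr (gen P x q c R c0 R0) S W Q) (h' : Fr (gen P x q' c' R' c0 R0) S' W Q') :
    PEqv Q Q' := by
  obtain ⟨S1, Q1, h1, p1⟩ := gen_src R' hR' h
  obtain ⟨S2, Q2, h2, p2⟩ := gen_src R hR h'
  obtain ⟨S3, Q3, h3, p3⟩ := gen_comm h2
  refine p1.trans (PEqv.trans ?_ (p2.trans p3).symm)
  refine gen_change_same (fun j => ?_) h1 h3
  rw [Fintype.sum_sum_type, Fintype.sum_sum_type]
  simpa using hsum j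

end gen

end Pool.Agent.SSE
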