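import Pool.Agent.SSE.G2

/-!
# SSE project, part G3: change of the gadget
-/

set_option autoImplicit false

open scoped BigOperators
open Matrix Polynomial

namespace Pool.Agent.SSE

attribute [local instance] Classical.propDecidable

variable {ι F F' : Type} [Fintype ι] [Fintype F] [Fintype F']

/-- the row `t e_x` -/
noncomputable def rx (x : ι) : ι → ℕ[X] := fun j => if j = x then X else 0

omit [Fintype ι] in
lemma rx_coeff (x j : ι) : (rx x j).coeff 0 = 0 := by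
  unfold rx
  split_ifs <;> simp

omit [Fintype ι] [Fintype F] in
lemma gad_eq_gen (P : Matrix ι ι ℕ[X]) (x : ι) (q : ι → ℕ[X]) (k : F → ℕ) (w : ι → ℕ[X]) :
    gad P x q k w = gen P x q (fun _ : Unit => X) (fun _ => w) (fun i => X ^ (k i))
      (fun _ => rx x) := by
  refine Matrix.ext fun i j => ?_
  rcases i with (l | u) | φ
  · by_cases hl : l = x
    · subst hl
      rw [gen_hub]
      rcases j with (j | u) | ψ <;> simp
    · rw [gen_ne hl]
      rcases j with (j | u) | ψ <;> simp [hl]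
  · rw [gen_n]
    rcases j with (j | u) | ψ <;> simp
  · rw [gen_J]
    rcases j with (j | u) | ψ <;> simp [rx]

/-- the index equivalence -/
def esplit (ι F F' : Type) : (ι ⊕ (Unit ⊕ F)) ⊕ F' ≃ ((ι ⊕ Unit) ⊕ F) ⊕ F' :=
  Equiv.sumCongr (Equiv.sumAssoc ι Unit F).symm (Equiv.refl F')

omit [Fintype ι] [Fintype F] [Fintype F'] in
lemma gad_split_eq_gen (P : Matrix ι ι ℕ[X]) (x : ι) (q : ι → ℕ[X]) (k : F → ℕ) (k' : F' → ℕ)
    (w : ι → ℕ[X]) :
    ((gad P x q (Sum.elim k k') w).submatrix (esh (ι ⊕ Unit) F F') (esh (ι ⊕ Unit) F F')).submatrix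
      (esplit ι F F') (esplit ι F F') =
      gen P x q (Sum.elim (fun _ : Unit => X) (fun i => X ^ (k i)))
        (Sum.elim (fun _ => w) (fun _ => rx x)) (fun i => X ^ (k' i)) (fun _ => rx x) := by
  refine Matrix.ext fun i j => ?_
  rw [gad_eq_gen]
  rcases i with (l | (u | φ)) | φ
  · have e : esh (ι ⊕ Unit) F F' (esplit ι F F' (Sum.inl (Sum.inl l))) =
        Sum.inl (Sum.inl l) := rfl
    rw [submatrix_apply, submatrix_apply, e]
    by_cases hl : l = x
    · subst hl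
      rw [gen_hub, gen_hub]
      rcases j with (j | (u | ψ)) | ψ <;> rfl
    · rw [gen_ne hl, gen_ne hl]
      rcases j with (j | (u | ψ)) | ψ <;> rfl
  · rcases j with (j | (u | ψ)) | ψ <;> rfl
  · rcases j with (j | (u | ψ)) | ψ <;> rfl
  · rcases j with (j | (u | ψ)) | ψ <;> rfl

/-- a twist of the second group of loops of a gadget, as a twist of a general splitting -/
theorem gad_split [DecidableEq F] [DecidableEq F'] {P : Matrix ι ι ℕ[X]} {x : ι} {q : ι → ℕ[X]} {k : F → ℕ}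
    {k' : F' → ℕ} {w : ι → ℕ[X]} (h : Tail P x q (Sum.elim k k') w) {S : Set (ι ⊕ Unit)}
    {W : Matrix F' F' ℤ[X]}
    {Q : Matrix ((ι ⊕ Unit) ⊕ (F ⊕ F')) ((ι ⊕ Unit) ⊕ (F ⊕ F')) ℕ[X]}
    (hQ : Fr (gad P x q (Sum.elim k k') w) S (fromBlocks 1 0 0 W) Q) :
    ∃ (S' : Set (ι ⊕ (Unit ⊕ F)))
      (Q' : Matrix ((ι ⊕ (Unit ⊕ F)) ⊕ F') ((ι ⊕ (Unit ⊕ F)) ⊕ F') ℕ[X]),
      Fr (gen P x q (Sum.elim (fun _ : Unit => X) (fun i => X ^ (k i)))
        (Sum.elim (fun _ => w) (fun _ => rx x)) (fun i => X ^ (k' i)) (fun _ => rx x)) S' W Q' ∧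
      PEqv Q Q' := by
  obtain ⟨Q1, h1, p1⟩ := hQ.shrink h.isPres
  have h2 := h1.reindex (Equiv.sumAssoc ι Unit F).symm (Equiv.refl F')
  have e := gad_split_eq_gen P x q k k' w
  unfold esplit at e
  rw [e] at h2
  exact ⟨_, _, h2, p1.trans (PEqv.reindex _ _)⟩

omit [Fintype ι] [Fintype F] [Fintype F'] in
lemma add_cancel_left {a b c : ℕ[X]} (h : a + b = a + c) : b = c := by
  ext n
  have := congrArg (fun p => p.coeff n) h
  simpa using this

/-- CHANGE OF THE GADGET, right form: the loops `k'` are twisted by `W` in both gadgets. -/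
theorem gad_change_right [DecidableEq F] [DecidableEq F'] {P : Matrix ι ι ℕ[X]} {x : ι} {q q' : ι → ℕ[X]}
    {k : F → ℕ} {k' : F' → ℕ} {w w' : ι → ℕ[X]} (h : Tail P x q k' w)
    (h' : Tail P x q' (Sum.elim k k') w')
    {S S' : Set (ι ⊕ Unit)} {W : Matrix F' F' ℤ[X]}
    {Q : Matrix ((ι ⊕ Unit) ⊕ F') ((ι ⊕ Unit) ⊕ F') ℕ[X]}
    {Q' : Matrix ((ι ⊕ Unit) ⊕ (F ⊕ F')) ((ι ⊕ Unit) ⊕ (F ⊕ F')) ℕ[X]}
    (hQ : Fr (gad P x q k' w) S W Q)
    (hQ' : Fr (gad P x q' (Sum.elim k k') w') S' (fromBlocks 1 0 0 W) Q') : PEqv Q Q' := by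
  obtain ⟨S1, Q1, h1, p1⟩ := gad_split h' hQ'
  rw [gad_eq_gen] at hQ
  refine PEqv.trans ?_ p1.symm
  refine gen_change (fun _ j => h.w0 j) ?_ (fun j => ?_) hQ h1
  · rintro (u | φ) j
    · exact h'.w0 j
    · exact rx_coeff x j
  · have e1 := h.row j
    have e2 := h'.row j
    rw [e1] at e2
    rw [Fintype.sum_sum_type]
    simp only [Finset.univ_unique, Finset.sum_const, Finset.card_singleton, one_smul, Sum.elim_inl,
      Sum.elim_inr]
    have e3 : ∀ i : F, (X : ℕ[X]) ^ (k i) * rx x j = if j = x then X ^ (k i + 1) else 0 := by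
      intro i
      unfold rx
      split_ifs
      · rw [pow_succ]
      · rw [mul_zero]
    simp only [e3]
    by_cases hj : j = x
    · subst hj
      simp only [if_true, Fintype.sum_sum_type, Sum.elim_inl, Sum.elim_inr] at e2 ⊢
      have e4 : (∑ i, X ^ (k' i + 1) : ℕ[X]) + (q j + X * w j) =
          (∑ i, X ^ (k' i + 1)) + (q' j + (X * w' j + ∑ i, X ^ (k i + 1))) := by
        calc _ = q j + ∑ i, X ^ (k' i + 1) + X * w j := by ring
          _ = _ := e2
          _ = _ := by ring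
      exact add_cancel_left e4
    · simp only [if_neg hj, add_zero] at e2 ⊢
      simpa using e2

/-- CHANGE OF THE GADGET, left form -/
theorem gad_change_left [DecidableEq F] [DecidableEq F'] {P : Matrix ι ι ℕ[X]} {x : ι}
    {q q' : ι → ℕ[X]}
    {k : F → ℕ} {k' : F' → ℕ} {w w' : ι → ℕ[X]} (h : Tail P x q k w)
    (h' : Tail P x q' (Sum.elim k k') w')
    {S S' : Set (ι ⊕ Unit)} {W : Matrix F F ℤ[X]}
    {Q : Matrix ((ι ⊕ Unit) ⊕ F) ((ι ⊕ Unit) ⊕ F) ℕ[X]}
    {Q' : Matrix ((ι ⊕ Unit) ⊕ (F ⊕ F')) ((ι ⊕ Unit) ⊕ (F ⊕ F')) ℕ[X]}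
    (hQ : Fr (gad P x q k w) S W Q)
    (hQ' : Fr (gad P x q' (Sum.elim k k') w') S' (fromBlocks W 0 0 1) Q') : PEqv Q Q' := by
  have h1 := hQ'.reindex (Equiv.refl (ι ⊕ Unit)) (Equiv.sumComm F' F)
  have e1 : (gad P x q' (Sum.elim k k') w').submatrix
      (Equiv.sumCongr (Equiv.refl (ι ⊕ Unit)) (Equiv.sumComm F' F))
      (Equiv.sumCongr (Equiv.refl (ι ⊕ Unit)) (Equiv.sumComm F' F)) =
      gad P x q' (Sum.elim k' k) w' := by
    refine Matrix.ext fun i j => ?_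
    rcases i with (l | u) | (φ | φ) <;> rcases j with (j | u') | (ψ | ψ) <;> simp
  have e2 : (fromBlocks W 0 0 1 : Matrix (F ⊕ F') (F ⊕ F') ℤ[X]).submatrix
      (Equiv.sumComm F' F) (Equiv.sumComm F' F) = fromBlocks 1 0 0 W := by
    refine Matrix.ext fun i j => ?_
    rcases i with φ | φ <;> rcases j with ψ | ψ <;> simp
  rw [e1, e2] at h1
  have h2 : Tail P x q' (Sum.elim k' k) w' := by
    refine ⟨h'.pres, h'.q0, h'.w0, ?_, fun j => ?_⟩
    · rintro (i | i)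
      · exact h'.kpos (Sum.inr i)
      · exact h'.kpos (Sum.inl i)
    · rw [h'.row j, Fintype.sum_sum_type, Fintype.sum_sum_type]
      simp only [Sum.elim_inl, Sum.elim_inr, add_comm]
  exact (gad_change_right h h2 hQ h1).trans (PEqv.reindex _ _).symm

end Pool.Agent.SSE
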