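import Pool.Agent.SSE.IsoClass
import Pool.Agent.SSE.B8

/-!
# Presentations with a marked generator, and the moves which keep its loops `q`
-/

set_option autoImplicit false

open scoped BigOperators
open Matrix Polynomial

namespace Pool.Agent.SSE

open Pool.Agent.helper52.SSE

attribute [local instance] Classical.propDecidable

variable {K : Type} [AddCommGroup K] [Module ℤ[X] K]

/-- Change of the generator `v` (its class becomes `g v - c g j`): the column `j` changes by `c`
times the column `v`. -/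
theorem PresOf.col {I : Type} [Fintype I] {δ : ℤ[X]} {g : I → K} {P P' : Matrix I I ℕ[X]}
    (h : PresOf δ g P) (hP' : IsPres P') (v j : I) (hvj : v ≠ j) (c : ℤ[X])
    (hcol : ∀ i l, l ≠ j → P' i l = P i l) (hj : ∀ i, IP P' i j = IP P i j + IP P i v * c) :
    PEqv P P' ∧ PresOf δ (Function.update g v (g v - c • g j)) P' := by
  have hcol' : ∀ i l, l ≠ j → IP P' i l = IP P i l := by
    intro i l hl
    unfold IP
    rw [hcol i l hl]
  refine ⟨one_column h.pres hP' j hcol (fun l => if l = v then c else 0) (by simp [hvj.symm])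
    (fun i => by rw [hj i]; simp), h.of_det hP' ?_ ?_ ?_⟩
  · intro z
    obtain ⟨w, hw⟩ := h.relOf.top z
    refine ⟨fun l => w l + if l = j then w v * c else 0, ?_⟩
    rw [hw]
    have e1 : ∀ l, (w l + if l = j then w v * c else 0) •
        (Function.update g v (g v - c • g j)) l =
        w l • g l - (if l = v then (w v * c) • g j else 0) + (if l = j then (w v * c) • g j else 0)
        := by
      intro l
      by_cases hlv : l = v
      · subst hlv
        simp only [Function.update_self, if_true, hvj, if_false, add_zero, smul_sub, mul_smul]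
      · rw [Function.update_of_ne hlv]
        by_cases hlj : l = j
        · subst hlj
          simp [hlv, add_smul]
        · simp [hlv, hlj]
    simp only [e1, Finset.sum_add_distrib, Finset.sum_sub_distrib, Finset.sum_ite_eq',
      Finset.mem_univ, if_true]
    abel
  · intro i
    have e1 : ∀ l, IP P' i l • (Function.update g v (g v - c • g j)) l =
        IP P i l • g l - (if l = v then (IP P i v * c) • g j else 0) +
          (if l = j then (IP P i v * c) • g j else 0) := by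
      intro l
      by_cases hlv : l = v
      · subst hlv
        rw [hcol' i l hvj]
        simp only [Function.update_self, if_true, hvj, if_false, add_zero, smul_sub, mul_smul]
      · rw [Function.update_of_ne hlv]
        by_cases hlj : l = j
        · subst hlj
          rw [hj i]
          simp [hlv, add_smul]
        · rw [hcol' i l hlj]
          simp [hlv, hlj]
    simp only [e1, Finset.sum_add_distrib, Finset.sum_sub_distrib, Finset.sum_ite_eq',
      Finset.mem_univ, if_true]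
    rw [h.relOf.rel i]
    abel
  · have e1 : IP P' = (IP P).updateCol j (fun k => IP P k j + c • IP P k v) := by
      ext i l : 2
      by_cases hlj : l = j
      · subst hlj
        rw [updateCol_self, hj i, smul_eq_mul, mul_comm c]
      · rw [updateCol_ne hlj, hcol' i l hlj]
    rw [e1, det_updateCol_add_smul_self _ hvj.symm, h.det_IP]

/-- a presentation with a marked generator `x` whose row contains `q e_x`, without arcs of
length one -/
structure PX (K : Type) [AddCommGroup K] [Module ℤ[X] K] (δ : ℤ[X]) (q : ℕ[X]) where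
  I : Type
  fin : Fintype I
  g : I → K
  P : Matrix I I ℕ[X]
  x : I
  h : PresOf δ g P
  hq : ∀ n, q.coeff n ≤ (P x x).coeff n
  hx : ∀ j, (P x j).coeff 1 = 0

attribute [instance] PX.fin

/-- the elementary moves -/
inductive PX.Step {δ : ℤ[X]} {q : ℕ[X]} : PX K δ q → PX K δ q → Prop
  /-- one row changes -/
  | row {I : Type} [Fintype I] {g : I → K} {P P' : Matrix I I ℕ[X]} {x : I} (h : PresOf δ g P)
      (hq : ∀ n, q.coeff n ≤ (P x x).coeff n) (hx : ∀ j, (P x j).coeff 1 = 0)
      (h' : PresOf δ g P') (hq' : ∀ n, q.coeff n ≤ (P' x x).coeff n)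
      (hx' : ∀ j, (P' x j).coeff 1 = 0) (i : I) (hi : ∀ l, l ≠ i → P' l = P l) :
      PX.Step ⟨I, inferInstance, g, P, x, h, hq, hx⟩ ⟨I, inferInstance, g, P', x, h', hq', hx'⟩
  /-- sources are added -/
  | src {I κ : Type} [Fintype I] [Fintype κ] {g : I → K} {P : Matrix I I ℕ[X]} {x : I}
      (h : PresOf δ g P) (hq : ∀ n, q.coeff n ≤ (P x x).coeff n) (hx : ∀ j, (P x j).coeff 1 = 0)
      (W : Matrix κ I ℕ[X])
      (h' : PresOf δ (Sum.elim g fun k => ∑ j, toZ (W k j) • g j)
        (fromBlocks P 0 W 0 : Matrix (I ⊕ κ) (I ⊕ κ) ℕ[X]))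
      (hq' : ∀ n, q.coeff n ≤ ((fromBlocks P 0 W 0 : Matrix (I ⊕ κ) (I ⊕ κ) ℕ[X])
        (Sum.inl x) (Sum.inl x)).coeff n)
      (hx' : ∀ j, ((fromBlocks P 0 W 0 : Matrix (I ⊕ κ) (I ⊕ κ) ℕ[X]) (Sum.inl x) j).coeff 1 = 0) :
      PX.Step ⟨I, inferInstance, g, P, x, h, hq, hx⟩
        ⟨I ⊕ κ, inferInstance, _, _, Sum.inl x, h', hq', hx'⟩
  /-- the generators are renamed -/
  | reindex {I κ : Type} [Fintype I] [Fintype κ] {g : I → K} {P : Matrix I I ℕ[X]} {x : I}
      (h : PresOf δ g P) (hq : ∀ n, q.coeff n ≤ (P x x).coeff n) (hx : ∀ j, (P x j).coeff 1 = 0)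
      (e : κ ≃ I) (h' : PresOf δ (g ∘ e) (P.submatrix e e))
      (hq' : ∀ n, q.coeff n ≤ ((P.submatrix e e) (e.symm x) (e.symm x)).coeff n)
      (hx' : ∀ j, ((P.submatrix e e) (e.symm x) j).coeff 1 = 0) :
      PX.Step ⟨I, inferInstance, g, P, x, h, hq, hx⟩
        ⟨κ, inferInstance, _, _, e.symm x, h', hq', hx'⟩
  /-- the class of the generator `v` changes, `v` is not the marked generator -/
  | col {I : Type} [Fintype I] {g : I → K} {P P' : Matrix I I ℕ[X]} {x : I} (h : PresOf δ g P)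
      (hq : ∀ n, q.coeff n ≤ (P x x).coeff n) (hx : ∀ j, (P x j).coeff 1 = 0)
      (v j : I) (hvj : v ≠ j) (hvx : v ≠ x) (c : ℤ[X])
      (hcol : ∀ i l, l ≠ j → P' i l = P i l) (hj : ∀ i, IP P' i j = IP P i j + IP P i v * c)
      (h' : PresOf δ (Function.update g v (g v - c • g j)) P')
      (hq' : ∀ n, q.coeff n ≤ (P' x x).coeff n) (hx' : ∀ j, (P' x j).coeff 1 = 0) :
      PX.Step ⟨I, inferInstance, g, P, x, h, hq, hx⟩ ⟨I, inferInstance, _, P', x, h', hq', hx'⟩
  /-- the loops `s` at the generator `o` are isolated, `o` is not the marked generator -/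
  | iso {I : Type} [Fintype I] {g : I → K} {P : Matrix I I ℕ[X]} {x : I} (h : PresOf δ g P)
      (hq : ∀ n, q.coeff n ≤ (P x x).coeff n) (hx : ∀ j, (P x j).coeff 1 = 0)
      (o : I) (hox : o ≠ x) (s : ℕ[X]) (r : I → ℕ[X]) (hs : s.coeff 0 = 0)
      (hr : ∀ j, (r j).coeff 0 = 0) (ho : ∀ j, P o j = r j + if j = o then s else 0)
      (h' : PresOf δ (Sum.elim g fun _ => toZ s.divX • g o) (iso P o s r))
      (hq' : ∀ n, q.coeff n ≤ (iso P o s r (Sum.inl x) (Sum.inl x)).coeff n)
      (hx' : ∀ j, (iso P o s r (Sum.inl x) j).coeff 1 = 0) :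
      PX.Step ⟨I, inferInstance, g, P, x, h, hq, hx⟩
        ⟨I ⊕ Unit, inferInstance, _, _, Sum.inl x, h', hq', hx'⟩

/-- the equivalence relation generated by the moves -/
def PX.Rel {δ : ℤ[X]} {q : ℕ[X]} : PX K δ q → PX K δ q → Prop := Relation.EqvGen PX.Step

section
variable {δ : ℤ[X]} {q : ℕ[X]}

theorem PX.Rel.refl (S : PX K δ q) : PX.Rel S S := Relation.EqvGen.refl _

theorem PX.Rel.symm {S S' : PX K δ q} (h : PX.Rel S S') : PX.Rel S' S :=
  Relation.EqvGen.symm _ _ h

theorem PX.Rel.trans {S S' S'' : PX K δ q} (h : PX.Rel S S') (h' : PX.Rel S' S'') :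
    PX.Rel S S'' := Relation.EqvGen.trans _ _ _ h h'

theorem PX.Step.rel {S S' : PX K δ q} (h : PX.Step S S') : PX.Rel S S' :=
  Relation.EqvGen.rel _ _ h

/-- the new row differs from the old one by a combination of the other rows -/
theorem PresOf.row_span {I : Type} [Fintype I] {g : I → K} {P P' : Matrix I I ℕ[X]}
    (h : PresOf δ g P) (h' : PresOf δ g P') (i : I) (hi : ∀ l, l ≠ i → P' l = P l) :
    ∃ c : I → ℤ[X], c i = 0 ∧ ∀ j, IP P' i j = IP P i j + ∑ l, c l * IP P l j := by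
  obtain ⟨c, hc⟩ := h.relOf.span _ (h'.relOf.rel i)
  have h2 : IP P' = (IP P).updateRow i (∑ l, c l • IP P l) := by
    ext l j : 2
    by_cases hl : l = i
    · subst hl
      rw [Matrix.updateRow_self, congrFun hc j]
      simp [Matrix.vecMul, dotProduct]
    · rw [Matrix.updateRow_ne hl]
      unfold IP
      rw [hi l hl]
  have h3 : c i = 1 := by
    have h4 := congrArg Matrix.det h2
    rw [det_updateRow_sum, h'.det_IP, h.det_IP, smul_eq_mul] at h4
    have h5 : (c i - 1) * δ = 0 := by linear_combination -h4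
    rcases mul_eq_zero.1 h5 with h6 | h6
    · linear_combination h6
    · exact absurd h6 h.ne_zero
  refine ⟨fun l => if l = i then 0 else c l, by simp, fun j => ?_⟩
  rw [congrFun hc j]
  simp only [Matrix.vecMul, dotProduct]
  have h4 : ∀ l, (if l = i then (0 : ℤ[X]) else c l) * IP P l j =
      c l * IP P l j - if l = i then IP P i j else 0 := by
    intro l
    by_cases hl : l = i
    · subst hl
      simp [h3]
    · simp [hl]
  simp only [h4, Finset.sum_sub_distrib]
  simp

/-- two presentations which differ in one row -/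
theorem PresOf.row_peqv {I : Type} [Fintype I] {g : I → K} {P P' : Matrix I I ℕ[X]}
    (h : PresOf δ g P) (h' : PresOf δ g P') (i : I) (hi : ∀ l, l ≠ i → P' l = P l) :
    PEqv P P' :=
  (h.one_row h'.pres i hi (h'.relOf.rel i) h'.det_IP).1

theorem PX.Step.peqv {S S' : PX K δ q} (h : PX.Step S S') : PEqv S.P S'.P := by
  cases h with
  | row h hq hx h' hq' hx' i hi => exact h.row_peqv h' i hi
  | src h hq hx W h' hq' hx' => exact (Pool.Agent.SSE.sources _ W).symm
  | reindex h hq hx e h' hq' hx' => exact PEqv.reindex _ e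
  | col h hq hx v j hvj hvx c hcol hj h' hq' hx' => exact (h.col h'.pres v j hvj c hcol hj).1
  | iso h hq hx o hox s r hs hr ho h' hq' hx' => exact (h.isolate o s r hs hr ho).1

theorem PX.Rel.peqv {S S' : PX K δ q} (h : PX.Rel S S') : PEqv S.P S'.P := by
  induction h with
  | rel S S' h => exact h.peqv
  | refl S => exact PEqv.refl _
  | symm S S' _ ih => exact ih.symm
  | trans S S' S'' _ _ ih ih' => exact ih.trans ih'

/-- the moves for smaller `q` -/
def PX.weaken {q' : ℕ[X]} (hqq : ∀ n, q'.coeff n ≤ q.coeff n) (S : PX K δ q) : PX K δ q' :=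
  ⟨S.I, S.fin, S.g, S.P, S.x, S.h, fun n => (hqq n).trans (S.hq n), S.hx⟩

theorem PX.Step.weaken {q' : ℕ[X]} (hqq : ∀ n, q'.coeff n ≤ q.coeff n) {S S' : PX K δ q}
    (h : PX.Step S S') : PX.Step (S.weaken hqq) (S'.weaken hqq) := by
  cases h with
  | row h hq hx h' hq' hx' i hi => exact PX.Step.row h _ hx h' _ hx' i hi
  | src h hq hx W h' hq' hx' => exact PX.Step.src h _ hx W h' _ hx'
  | reindex h hq hx e h' hq' hx' => exact PX.Step.reindex h _ hx e h' _ hx'
  | col h hq hx v j hvj hvx c hcol hj h' hq' hx' =>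
    exact PX.Step.col h _ hx v j hvj hvx c hcol hj h' _ hx'
  | iso h hq hx o hox s r hs hr ho h' hq' hx' =>
    exact PX.Step.iso h _ hx o hox s r hs hr ho h' _ hx'

theorem PX.Rel.weaken {q' : ℕ[X]} (hqq : ∀ n, q'.coeff n ≤ q.coeff n) {S S' : PX K δ q}
    (h : PX.Rel S S') : PX.Rel (S.weaken hqq) (S'.weaken hqq) := by
  induction h with
  | rel S S' h => exact (h.weaken hqq).rel
  | refl S => exact PX.Rel.refl _
  | symm S S' _ ih => exact ih.symm
  | trans S S' S'' _ _ ih ih' => exact ih.trans ih'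

/-- expansion of a row -/
theorem PX.add_rows {I : Type} [Fintype I] {g : I → K} {P P' : Matrix I I ℕ[X]} {x : I}
    (h : PresOf δ g P) (hq : ∀ n, q.coeff n ≤ (P x x).coeff n) (hx : ∀ j, (P x j).coeff 1 = 0)
    (hP' : IsPres P') (hq' : ∀ n, q.coeff n ≤ (P' x x).coeff n)
    (hx' : ∀ j, (P' x j).coeff 1 = 0) (i : I) (hi : ∀ l, l ≠ i → P' l = P l)
    (c : I → ℤ[X]) (hc : c i = 0) (hr : ∀ j, IP P' i j = IP P i j + ∑ l, c l * IP P l j) :
    ∃ h' : PresOf δ g P', PX.Rel (K := K) ⟨I, inferInstance, g, P, x, h, hq, hx⟩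
      ⟨I, inferInstance, g, P', x, h', hq', hx'⟩ := by
  obtain ⟨-, h'⟩ := h.add_rows hP' i hi c hc hr
  exact ⟨h', (PX.Step.row h hq hx h' hq' hx' i hi).rel⟩

/-- adding sources -/
theorem PX.sources {I κ : Type} [Fintype I] [Fintype κ] {g : I → K} {P : Matrix I I ℕ[X]} {x : I}
    (h : PresOf δ g P) (hq : ∀ n, q.coeff n ≤ (P x x).coeff n) (hx : ∀ j, (P x j).coeff 1 = 0)
    (W : Matrix κ I ℕ[X]) (hW : ∀ k j, (W k j).coeff 0 = 0) :
    ∃ (h' : PresOf δ (Sum.elim g fun k => ∑ j, toZ (W k j) • g j)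
        (fromBlocks P 0 W 0 : Matrix (I ⊕ κ) (I ⊕ κ) ℕ[X]))
      (hq' : ∀ n, q.coeff n ≤ ((fromBlocks P 0 W 0 : Matrix (I ⊕ κ) (I ⊕ κ) ℕ[X])
        (Sum.inl x) (Sum.inl x)).coeff n)
      (hx' : ∀ j, ((fromBlocks P 0 W 0 : Matrix (I ⊕ κ) (I ⊕ κ) ℕ[X]) (Sum.inl x) j).coeff 1 = 0),
      PX.Rel (K := K) ⟨I, inferInstance, g, P, x, h, hq, hx⟩
        ⟨I ⊕ κ, inferInstance, _, _, Sum.inl x, h', hq', hx'⟩ := by
  have hx' : ∀ j, ((fromBlocks P 0 W 0 : Matrix (I ⊕ κ) (I ⊕ κ) ℕ[X]) (Sum.inl x) j).coeff 1 = 0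
      := by
    rintro (j | j)
    · exact hx j
    · simp
  exact ⟨(h.sources W hW).2, hq, hx', (PX.Step.src h hq hx W (h.sources W hW).2 hq hx').rel⟩

/-- isolating the loops `s` at a generator `o` which is not marked -/
theorem PX.isolate {I : Type} [Fintype I] {g : I → K} {P : Matrix I I ℕ[X]} {x : I}
    (h : PresOf δ g P) (hq : ∀ n, q.coeff n ≤ (P x x).coeff n) (hx : ∀ j, (P x j).coeff 1 = 0)
    (o : I) (hox : o ≠ x) (s : ℕ[X]) (r : I → ℕ[X]) (hs : s.coeff 0 = 0)
    (hr : ∀ j, (r j).coeff 0 = 0) (ho : ∀ j, P o j = r j + if j = o then s else 0) :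
    ∃ (h' : PresOf δ (Sum.elim g fun _ => toZ s.divX • g o) (iso P o s r))
      (hq' : ∀ n, q.coeff n ≤ (iso P o s r (Sum.inl x) (Sum.inl x)).coeff n)
      (hx' : ∀ j, (iso P o s r (Sum.inl x) j).coeff 1 = 0),
      PX.Rel (K := K) ⟨I, inferInstance, g, P, x, h, hq, hx⟩
        ⟨I ⊕ Unit, inferInstance, _, _, Sum.inl x, h', hq', hx'⟩ := by
  have hq' : ∀ n, q.coeff n ≤ (iso P o s r (Sum.inl x) (Sum.inl x)).coeff n := by
    intro n
    simp only [iso, fromBlocks_apply₁₁, setRow, if_neg hox.symm]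
    exact hq n
  have hx' : ∀ j, (iso P o s r (Sum.inl x) j).coeff 1 = 0 := by
    rintro (j | j)
    · simp only [iso, fromBlocks_apply₁₁, setRow, if_neg hox.symm]
      exact hx j
    · simp [iso, hox.symm]
  exact ⟨(h.isolate o s r hs hr ho).2, hq', hx',
    (PX.Step.iso h hq hx o hox s r hs hr ho (h.isolate o s r hs hr ho).2 hq' hx').rel⟩

/-- renaming the generators -/
theorem PX.rename {I κ : Type} [Fintype I] [Fintype κ] {g : I → K} {P : Matrix I I ℕ[X]} {x : I}
    (h : PresOf δ g P) (hq : ∀ n, q.coeff n ≤ (P x x).coeff n) (hx : ∀ j, (P x j).coeff 1 = 0)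
    (e : κ ≃ I) :
    ∃ (h' : PresOf δ (g ∘ e) (P.submatrix e e))
      (hq' : ∀ n, q.coeff n ≤ ((P.submatrix e e) (e.symm x) (e.symm x)).coeff n)
      (hx' : ∀ j, ((P.submatrix e e) (e.symm x) j).coeff 1 = 0),
      PX.Rel (K := K) ⟨I, inferInstance, g, P, x, h, hq, hx⟩
        ⟨κ, inferInstance, _, _, e.symm x, h', hq', hx'⟩ := by
  have hq' : ∀ n, q.coeff n ≤ ((P.submatrix e e) (e.symm x) (e.symm x)).coeff n := by
    intro n
    simp only [submatrix_apply, Equiv.apply_symm_apply]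
    exact hq n
  have hx' : ∀ j, ((P.submatrix e e) (e.symm x) j).coeff 1 = 0 := by
    intro j
    simp only [submatrix_apply, Equiv.apply_symm_apply]
    exact hx _
  exact ⟨(h.reindex e).2, hq', hx', (PX.Step.reindex h hq hx e (h.reindex e).2 hq' hx').rel⟩

theorem PX.rel_congr {I : Type} [Fintype I] {g g' : I → K} {P P' : Matrix I I ℕ[X]} {x x' : I}
    (h : PresOf δ g P) (hq : ∀ n, q.coeff n ≤ (P x x).coeff n) (hx : ∀ j, (P x j).coeff 1 = 0)
    (hg : g = g') (hP : P = P') (hxx : x = x') :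
    ∃ (h' : PresOf δ g' P') (hq' : ∀ n, q.coeff n ≤ (P' x' x').coeff n)
      (hx' : ∀ j, (P' x' j).coeff 1 = 0),
      PX.Rel (K := K) ⟨I, inferInstance, g, P, x, h, hq, hx⟩
        ⟨I, inferInstance, g', P', x', h', hq', hx'⟩ := by
  subst hg hP hxx
  exact ⟨h, hq, hx, PX.Rel.refl _⟩

end

end Pool.Agent.SSE
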