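import Pool.Agent.SSE.V4
import Pool.Agent.SSE.B8

/-!
# SSE project, part TR4: class moves (out-splittings) and transfer of twisted presentations

`columns`: the substitution `e_v ↦ e_v + ∑ ζ_j e_j` (`ζ_v = 0`) is a strong shift equivalence
as soon as the new presentation is nonnegative.
`Fr.class_move`: it commutes with the twist: `Fr P S g Q` goes to `Fr P' S g Q'` with `PEqv Q Q'`.
-/

set_option autoImplicit false

open scoped BigOperators
open Matrix Polynomial

namespace Pool.Agent.SSE

attribute [local instance] Classical.propDecidable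

section
variable {ι : Type} [Fintype ι]

/-- the class move: the generator `e_v` is replaced by `e_v - ∑ ζ_j e_j`, i.e. in every relation
`e_v` is replaced by `e_v + ∑ ζ_j e_j`; the sign of `ζ` is arbitrary. -/
theorem columns {P P' : Matrix ι ι ℕ[X]} (hP : IsPres P) (hP' : IsPres P') (v : ι) (ζ : ι → ℤ[X])
    (hv : ζ v = 0) (h : ∀ i j, IP P' i j = IP P i j + IP P i v * ζ j) : PEqv P P' := by
  -- hybrids
  set H : Finset ι → Matrix ι ι ℕ[X] := fun s i j => if j ∈ s then P' i j else P i j with hH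
  have hcolv : ∀ i, P' i v = P i v := by
    intro i
    have h1 := h i v
    rw [hv, mul_zero, add_zero, IP_apply, IP_apply, sub_right_inj] at h1
    exact Polynomial.map_injective _ Nat.cast_injective h1
  have hHv : ∀ s i, H s i v = P i v := by
    intro s i
    simp only [hH]
    split_ifs
    · exact hcolv i
    · rfl
  have hHp : ∀ s, IsPres (H s) := by
    intro s i j
    simp only [hH]
    split_ifs
    · exact hP' i j
    · exact hP i j
  have hstep : ∀ (s : Finset ι), PEqv P (H s) := by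
    intro s
    induction s using Finset.induction_on with
    | empty =>
      have : H ∅ = P := by
        funext i j
        simp [hH]
      rw [this]
      exact PEqv.refl P
    | insert a s ha ih =>
      refine ih.trans ?_
      by_cases hav : a = v
      · have : H (insert a s) = H s := by
          funext i j
          by_cases hj : j = a
          · rw [hj, hav, hHv, hHv]
          · simp only [hH, Finset.mem_insert, hj, false_or]
        rw [this]
        exact PEqv.refl _
      · refine one_column (hHp s) (hHp _) a (fun i l hl => ?_) (fun l => if l = v then ζ a else 0)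
          (if_neg hav) fun i => ?_
        · simp only [hH, Finset.mem_insert, hl, false_or]
        · rw [Finset.sum_eq_single v]
          · rw [if_pos rfl, IP_apply, IP_apply, IP_apply, hHv]
            have h1 : H (insert a s) i a = P' i a := by simp [hH]
            have h2 : H s i a = P i a := by simp [hH, ha]
            rw [h1, h2]
            have h3 := h i a
            rw [IP_apply, IP_apply, IP_apply] at h3
            exact h3
          · intro b _ hb
            rw [if_neg hb, mul_zero]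
          · intro hn
            exact absurd (Finset.mem_univ _) hn
  have h1 := hstep Finset.univ
  have h2 : H Finset.univ = P' := by
    funext i j
    simp [hH]
  rwa [h2] at h1

end

variable {κ J : Type} [Fintype κ] [Fintype J] [DecidableEq J]

/-- general form, `ζ` of arbitrary sign: the fresh rows of `Q` must stay nonnegative -/
theorem Fr.columns {P P' Q : Matrix (κ ⊕ J) (κ ⊕ J) ℕ[X]} {S : Set κ} {g : Matrix J J ℤ[X]}
    (v : κ) (ζ : κ ⊕ J → ℤ[X]) (hv : ζ (Sum.inl v) = 0) (hP' : IsPres P')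
    (h : ∀ i j, IP P' i j = IP P i j + IP P i (Sum.inl v) * ζ j)
    (hQ : Fr P S g Q) (q : J → κ ⊕ J → ℕ[X]) (hq0 : ∀ φ j, (q φ j).coeff 0 = 0)
    (hq : ∀ φ j, toZ (q φ j) = toZ (Q (Sum.inr φ) j) + toZ (Q (Sum.inr φ) (Sum.inl v)) * ζ j) :
    ∃ Q', Fr P' S g Q' ∧ PEqv Q Q' := by
  set Q' : Matrix (κ ⊕ J) (κ ⊕ J) ℕ[X] := fun i => Sum.elim (fun k => P' (Sum.inl k)) q i with hQ'
  have hl : ∀ k, Q' (Sum.inl k) = P' (Sum.inl k) := fun k => rfl
  have hr : ∀ φ, Q' (Sum.inr φ) = q φ := fun φ => rfl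
  have hQp : IsPres Q' := by
    rintro (k | φ) j
    · rw [hl]
      exact hP' _ _
    · rw [hr]
      exact hq0 _ _
  have hrow : ∀ i j, IP Q' i j = IP Q i j + IP Q i (Sum.inl v) * ζ j := by
    rintro (k | φ) j
    · rw [IP_congr (hl k), h, IP_congr (hQ.2.1 k), IP_congr (hQ.2.1 k)]
    · rw [IP_apply, IP_apply, IP_apply, hr, hq]
      rw [if_neg (by simp : ¬ (Sum.inr φ : κ ⊕ J) = Sum.inl v)]
      ring
  refine ⟨Q', ⟨hQp, hl, fun φ => ?_⟩, Pool.Agent.SSE.columns hQ.1 hQp (Sum.inl v) ζ hv hrow⟩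
  obtain ⟨c, h0, hc⟩ := hQ.2.2 φ
  refine ⟨c, h0, fun j => ?_⟩
  rw [hrow, hc, hc]
  simp only [h, mul_add, add_mul, Finset.sum_add_distrib, Finset.sum_mul]
  have e1 : ∀ ψ, g φ ψ * (IP P (Sum.inr ψ) (Sum.inl v) * ζ j) =
      g φ ψ * IP P (Sum.inr ψ) (Sum.inl v) * ζ j := fun ψ => by ring
  have e2 : ∀ k, c k * (IP P (Sum.inl k) (Sum.inl v) * ζ j) =
      c k * IP P (Sum.inl k) (Sum.inl v) * ζ j := fun k => by ring
  simp only [e1, e2]
  ring

/-- (TR4) a down move `e_v ↦ e_v + ∑ ζ_j e_j` with `ζ ≥ 0` commutes with the twist -/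
theorem Fr.class_move {P P' Q : Matrix (κ ⊕ J) (κ ⊕ J) ℕ[X]} {S : Set κ} {g : Matrix J J ℤ[X]}
    (v : κ) (ζ : κ ⊕ J → ℕ[X]) (hv : ζ (Sum.inl v) = 0) (hP' : IsPres P')
    (h : ∀ i j, IP P' i j = IP P i j + IP P i (Sum.inl v) * toZ (ζ j))
    (hQ : Fr P S g Q) : ∃ Q', Fr P' S g Q' ∧ PEqv Q Q' := by
  refine Fr.columns v (fun j => toZ (ζ j)) (by rw [hv]; simp) hP' h hQ
    (fun φ j => Q (Sum.inr φ) j + Q (Sum.inr φ) (Sum.inl v) * ζ j) (fun φ j => ?_) fun φ j => ?_
  · rw [coeff_add, mul_coeff_zero, hQ.1, hQ.1]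
    simp
  · simp only [toZ, Polynomial.map_add, Polynomial.map_mul]

/-- (TR4), both directions: whatever the twisted presentations of `P` and `P'` are, they are
equivalent -/
theorem Fr.class_move_peqv {P P' Q Q' : Matrix (κ ⊕ J) (κ ⊕ J) ℕ[X]} {S S' : Set κ}
    {g : Matrix J J ℤ[X]} (v : κ) (ζ : κ ⊕ J → ℕ[X]) (hv : ζ (Sum.inl v) = 0) (hP' : IsPres P')
    (h : ∀ i j, IP P' i j = IP P i j + IP P i (Sum.inl v) * toZ (ζ j))
    (hQ : Fr P S g Q) (hQ' : Fr P' S' g Q') : PEqv Q Q' := by
  obtain ⟨Q'', h1, h2⟩ := hQ.class_move v ζ hv hP' h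
  exact h2.trans (h1.peqv hQ')

end Pool.Agent.SSE
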