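import Pool.Agent.SSE.G3
import Pool.Agent.SSE.PX
import Pool.Agent.SSE.TR4

/-!
# SSE project, part G4: transfer of twisted gadgets along the moves `PX.Rel`
-/

set_option autoImplicit false

open scoped BigOperators
open Matrix Polynomial

namespace Pool.Agent.SSE

attribute [local instance] Classical.propDecidable

variable {ι F : Type} [Fintype ι] [Fintype F]

/-- the vector `s e_x` -/
noncomputable def hubq (x : ι) (s : ℕ[X]) : ι → ℕ[X] := fun j => if j = x then s else 0

omit [Fintype ι] in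
lemma hubq_self (x : ι) (s : ℕ[X]) : hubq x s x = s := if_pos rfl

omit [Fintype ι] in
lemma hubq_ne {x j : ι} (h : j ≠ x) (s : ℕ[X]) : hubq x s j = 0 := if_neg h

lemma X_mul_inj {p q : ℕ[X]} (h : X * p = X * q) : p = q := by
  ext n
  have := congrArg (fun p => p.coeff (n + 1)) h
  simpa using this

/-- the remainder of the tail splitting is unique -/
theorem Tail.unique {P : Matrix ι ι ℕ[X]} {x : ι} {q : ι → ℕ[X]} {k : F → ℕ} {w w' : ι → ℕ[X]}
    (h : Tail P x q k w) (h' : Tail P x q k w') : w = w' := by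
  funext j
  have h1 := h.row j
  rw [h'.row j] at h1
  exact (X_mul_inj (add_cancel_left h1)).symm

lemma exists_add_of_le (p q : ℕ[X]) (h : ∀ n, q.coeff n ≤ p.coeff n) : ∃ r, p = q + r := by
  refine ⟨∑ n ∈ Finset.range (p.natDegree + 1), monomial n (p.coeff n - q.coeff n), ?_⟩
  ext n
  rw [coeff_add, finsetSum_coeff]
  simp only [coeff_monomial]
  by_cases hn : n < p.natDegree + 1
  · rw [Finset.sum_eq_single n]
    · rw [if_pos rfl]
      have := h n
      omega
    · intro b _ hb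
      rw [if_neg hb]
    · intro hb
      exact absurd (Finset.mem_range.2 hn) hb
  · have h0 : p.coeff n = 0 := coeff_eq_zero_of_natDegree_lt (by omega)
    have h1 := h n
    rw [Finset.sum_eq_zero]
    · omega
    · intro b hb
      have := Finset.mem_range.1 hb
      rw [if_neg (by omega)]

lemma divX_spec {p : ℕ[X]} (h : p.coeff 0 = 0) : X * p.divX = p := by
  conv_rhs => rw [← divX_mul_X_add p, h]
  rw [map_zero, add_zero, mul_comm]

/-- the tail splitting exists -/
theorem exists_tail {P : Matrix ι ι ℕ[X]} (hP : IsPres P) {x : ι} {s : ℕ[X]} {l : F → ℕ}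
    (hl : ∀ i, 0 < l i)
    (hq : ∀ n, (s + ∑ i, X ^ (l i + 1)).coeff n ≤ (P x x).coeff n)
    (hx : ∀ j, (P x j).coeff 1 = 0) : ∃ w, Tail P x (hubq x s) l w := by
  obtain ⟨r, hr⟩ := exists_add_of_le _ _ hq
  have hs0 : s.coeff 0 = 0 := by
    have h1 := hq 0
    rw [hP, coeff_add] at h1
    omega
  have hr0 : r.coeff 0 = 0 := by
    have h1 := congrArg (fun p => p.coeff 0) hr
    simp only [coeff_add, hP x x] at h1
    omega
  have hr1 : r.coeff 1 = 0 := by
    have h1 := congrArg (fun p => p.coeff 1) hr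
    simp only [coeff_add, hx x] at h1
    omega
  refine ⟨fun j => if j = x then r.divX else (P x j).divX, hP, fun j => ?_, fun j => ?_, hl,
    fun j => ?_⟩
  · unfold hubq
    split_ifs
    · exact hs0
    · simp
  · split_ifs
    · rw [coeff_divX]
      exact hr1
    · rw [coeff_divX]
      exact hx j
  · by_cases hj : j = x
    · subst hj
      rw [hubq_self, if_pos rfl, if_pos rfl, divX_spec hr0]
      exact hr
    · rw [hubq_ne hj, if_neg hj, if_neg hj, divX_spec (hP _ _)]
      simp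

/-! ## isolating the loops of an environment row (TR5) -/

section isoFr

variable {κ J : Type} [Fintype κ] [Fintype J]

/-- `iso` at the environment vertex `k0`, the new vertex is in the environment -/
noncomputable def isoK (P : Matrix (κ ⊕ J) (κ ⊕ J) ℕ[X]) (k0 : κ) (s : ℕ[X]) (r : κ ⊕ J → ℕ[X]) :
    Matrix ((κ ⊕ Unit) ⊕ J) ((κ ⊕ Unit) ⊕ J) ℕ[X] :=
  (iso P (Sum.inl k0) s r).submatrix (esrc κ Unit J) (esrc κ Unit J)

lemma isoK_oi (P : Matrix (κ ⊕ J) (κ ⊕ J) ℕ[X]) (k0 : κ) (s : ℕ[X]) (r : κ ⊕ J → ℕ[X])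
    (i j : κ ⊕ J) : isoK P k0 s r (oi Unit i) (oi Unit j) = if i = Sum.inl k0 then r j else P i j := by
  unfold isoK
  rw [submatrix_apply, esrc_oi, esrc_oi]
  by_cases h : i = Sum.inl k0
  · simp [iso, setRow, h]
  · simp [iso, setRow, h]

lemma isoK_oi_new (P : Matrix (κ ⊕ J) (κ ⊕ J) ℕ[X]) (k0 : κ) (s : ℕ[X]) (r : κ ⊕ J → ℕ[X])
    (i : κ ⊕ J) (u : Unit) : isoK P k0 s r (oi Unit i) (Sum.inl (Sum.inr u)) =
      if i = Sum.inl k0 then X else 0 := by
  unfold isoK
  rw [submatrix_apply, esrc_oi, esrc_src]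
  by_cases h : i = Sum.inl k0
  · simp [iso, h]
  · simp [iso, h]

lemma isoK_new (P : Matrix (κ ⊕ J) (κ ⊕ J) ℕ[X]) (k0 : κ) (s : ℕ[X]) (r : κ ⊕ J → ℕ[X])
    (u : Unit) (j : κ ⊕ J) : isoK P k0 s r (Sum.inl (Sum.inr u)) (oi Unit j) = s.divX * r j := by
  unfold isoK
  rw [submatrix_apply, esrc_oi, esrc_src]
  rfl

lemma isoK_new_new (P : Matrix (κ ⊕ J) (κ ⊕ J) ℕ[X]) (k0 : κ) (s : ℕ[X]) (r : κ ⊕ J → ℕ[X])
    (u v : Unit) : isoK P k0 s r (Sum.inl (Sum.inr u)) (Sum.inl (Sum.inr v)) = s := rfl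

/-- (TR5) -/
theorem Fr.iso {P Q : Matrix (κ ⊕ J) (κ ⊕ J) ℕ[X]} {S : Set κ} {g : Matrix J J ℤ[X]}
    (h : Fr P S g Q) {k0 : κ} (hk : k0 ∉ S) {s : ℕ[X]} {r : κ ⊕ J → ℕ[X]} (hs : s.coeff 0 = 0)
    (hr : ∀ j, (r j).coeff 0 = 0)
    (ho : ∀ j, P (Sum.inl k0) j = r j + if j = Sum.inl k0 then s else 0) :
    Fr (isoK P k0 s r) (Sum.inl '' S) g (isoK Q k0 s r) ∧ PEqv Q (isoK Q k0 s r) := by
  have hJ : ∀ φ : J, (Sum.inr φ : κ ⊕ J) ≠ Sum.inl k0 := fun φ => by simp
  have hIP1 : ∀ (R : Matrix (κ ⊕ J) (κ ⊕ J) ℕ[X]) (i j : κ ⊕ J), i ≠ Sum.inl k0 →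
      IP (isoK R k0 s r) (oi Unit i) (oi Unit j) = IP R i j := by
    intro R i j hi
    rw [IP_apply, IP_apply, isoK_oi, if_neg hi]
    congr 1
    by_cases h : i = j
    · rw [if_pos h, if_pos (by rw [h])]
    · rw [if_neg h, if_neg fun h' => h (oi_inj.1 h')]
  have hIP2 : ∀ (R : Matrix (κ ⊕ J) (κ ⊕ J) ℕ[X]) (i : κ ⊕ J) (u : Unit), i ≠ Sum.inl k0 →
      IP (isoK R k0 s r) (oi Unit i) (Sum.inl (Sum.inr u)) = 0 := by
    intro R i u hi
    rw [IP_apply, isoK_oi_new, if_neg hi, if_neg]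
    · simp
    · intro h
      have := congrArg (esrc κ Unit J) h
      rw [esrc_oi, esrc_src] at this
      cases this
  refine ⟨⟨?_, ?_, fun φ => ?_⟩, ?_⟩
  · intro i j
    induction i using cases_oi (μ := Unit) with
    | h1 i =>
      induction j using cases_oi (μ := Unit) with
      | h1 j =>
        rw [isoK_oi]
        split_ifs
        · exact hr j
        · exact h.1 _ _
      | h2 m =>
        rw [isoK_oi_new]
        split_ifs <;> simp
    | h2 m =>
      induction j using cases_oi (μ := Unit) with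
      | h1 j => rw [isoK_new, mul_coeff_zero, hr j, mul_zero]
      | h2 m => rw [isoK_new_new]; exact hs
  · rintro (k | m)
    · funext j
      induction j using cases_oi (μ := Unit) with
      | h1 j =>
        have e1 := isoK_oi Q k0 s r (Sum.inl k) j
        have e2 := isoK_oi P k0 s r (Sum.inl k) j
        rw [h.2.1] at e1
        exact e1.trans e2.symm
      | h2 m =>
        exact (isoK_oi_new Q k0 s r (Sum.inl k) m).trans
          (isoK_oi_new P k0 s r (Sum.inl k) m).symm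
    · funext j
      induction j using cases_oi (μ := Unit) with
      | h1 j => rw [isoK_new, isoK_new]
      | h2 m => rw [isoK_new_new, isoK_new_new]
  · obtain ⟨c, h0, hc⟩ := h.2.2 φ
    refine ⟨Sum.elim c 0, ?_, ?_⟩
    · rintro (k | m) hk
      · refine h0 k fun hk' => hk ⟨k, hk', rfl⟩
      · rfl
    · intro j
      rw [Fintype.sum_sum_type (f := fun k : κ ⊕ Unit => (Sum.elim c 0 : κ ⊕ Unit → ℤ[X]) k *
        IP (isoK P k0 s r) (Sum.inl k) j)]
      simp only [Sum.elim_inl, Sum.elim_inr, Pi.zero_apply, zero_mul, Finset.sum_const_zero, add_zero]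
      induction j using cases_oi (μ := Unit) with
      | h1 j =>
        have e1 : IP (isoK Q k0 s r) (Sum.inr φ) (oi Unit j) = IP Q (Sum.inr φ) j :=
          hIP1 Q (Sum.inr φ) j (hJ φ)
        have e2 : ∀ ψ : J, IP (isoK P k0 s r) (Sum.inr ψ) (oi Unit j) = IP P (Sum.inr ψ) j :=
          fun ψ => hIP1 P (Sum.inr ψ) j (hJ ψ)
        have e3 : ∀ k : κ, c k * IP (isoK P k0 s r) (Sum.inl (Sum.inl k)) (oi Unit j) =
            c k * IP P (Sum.inl k) j := by
          intro k
          by_cases hkk : k = k0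
          · subst hkk
            rw [h0 k hk, zero_mul, zero_mul]
          · have := hIP1 P (Sum.inl k) j fun h => hkk (Sum.inl.inj h)
            rw [← this]
            rfl
        rw [e1, hc]
        simp only [e2, e3]
      | h2 m =>
        have e1 : IP (isoK Q k0 s r) (Sum.inr φ) (Sum.inl (Sum.inr m)) = 0 :=
          hIP2 Q (Sum.inr φ) m (hJ φ)
        have e2 : ∀ ψ : J, IP (isoK P k0 s r) (Sum.inr ψ) (Sum.inl (Sum.inr m)) = 0 :=
          fun ψ => hIP2 P (Sum.inr ψ) m (hJ ψ)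
        have e3 : ∀ k : κ, c k * IP (isoK P k0 s r) (Sum.inl (Sum.inl k)) (Sum.inl (Sum.inr m)) = 0
            := by
          intro k
          by_cases hkk : k = k0
          · subst hkk
            rw [h0 k hk, zero_mul]
          · have := hIP2 P (Sum.inl k) m fun h => hkk (Sum.inl.inj h)
            have e : IP (isoK P k0 s r) (Sum.inl (Sum.inl k)) (Sum.inl (Sum.inr m)) = 0 := this
            rw [e, mul_zero]
        rw [e1]
        simp only [e2, e3, mul_zero, Finset.sum_const_zero, add_zero]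
  · refine (isolate h.1 (Sum.inl k0) s r hs hr fun j => ?_).trans (PEqv.reindex _ _)
    rw [h.2.1, ho j]
    by_cases hj : j = Sum.inl k0
    · rw [if_pos hj, if_pos hj]
    · rw [if_neg hj, if_neg hj]

end isoFr

variable [DecidableEq F]

section steps

variable {P P' : Matrix ι ι ℕ[X]} {x : ι} {s : ℕ[X]} {l : F → ℕ} {w w' : ι → ℕ[X]}
  {W : SpecialLinearGroup F ℤ[X]} {T T' : Set (ι ⊕ Unit)}
  {Q Q' : Matrix ((ι ⊕ Unit) ⊕ F) ((ι ⊕ Unit) ⊕ F) ℕ[X]}

/-- rows `≠ x` -/
theorem gad_row_peqv {q : ι → ℕ[X]} (h : Tail P x q l w) (h' : Tail P' x q l w') {v : ι}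
    (hv : v ≠ x)
    (he : ∀ i, i ≠ v → P' i = P i) (b : ι → ℤ[X]) (hb : b v = 0)
    (hrow : ∀ j, IP P' v j = IP P v j + ∑ i, b i * IP P i j)
    (hT : T ⊆ {Sum.inl x})
    (hQ : Fr (gad P x q l w) T W Q) (hQ' : Fr (gad P' x q l w') T' W Q') : PEqv Q Q' := by
  have hw : w' = w := by
    refine Tail.unique h' ⟨h'.pres, h.q0, h.w0, h.kpos, fun j => ?_⟩
    rw [he x hv.symm]
    exact h.row j
  subst hw
  obtain ⟨h1, b', hb', h2⟩ := h.row_move h' hv he b hb hrow
  obtain ⟨Q1, h3, h4⟩ := hQ.transfer (i := Sum.inl v) (fun hm => by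
    have := hT hm
    rw [Set.mem_singleton_iff] at this
    exact hv (Sum.inl.inj this)) h'.isPres h1 b' hb' h2
  exact h4.trans (h3.peqv hQ')

/-- the row `x` -/
theorem gad_hub_peqv {q : ι → ℕ[X]} (h : Tail P x q l w) (h' : Tail P' x q l w')
    (he : ∀ i, i ≠ x → P' i = P i) (b : ι → ℤ[X]) (hb : b x = 0)
    (hrow : ∀ j, IP P' x j = IP P x j + ∑ i, b i * IP P i j)
    (hT : T ⊆ {Sum.inl x})
    (hQ : Fr (gad P x q l w) T W Q) (hQ' : Fr (gad P' x q l w') T' W Q') : PEqv Q Q' := by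
  obtain ⟨h1, b', hb', h2⟩ := h.hub_move h' he b hb hrow
  obtain ⟨Q1, h3, h4⟩ := hQ.transfer (i := Sum.inr ()) (fun hm => by
    have := hT hm
    rw [Set.mem_singleton_iff] at this
    cases this) h'.isPres h1 b' hb' h2
  exact h4.trans (h3.peqv hQ')

/-- sources -/
theorem gad_src_peqv {κ : Type} [Fintype κ] {Wm : Matrix κ ι ℕ[X]} (hWm : ∀ m j, (Wm m j).coeff 0 = 0)
    {w' : ι ⊕ κ → ℕ[X]} (h : Tail P x (hubq x s) l w)
    (h' : Tail (fromBlocks P 0 Wm 0 : Matrix (ι ⊕ κ) (ι ⊕ κ) ℕ[X]) (Sum.inl x)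
      (hubq (Sum.inl x) s) l w')
    {T' : Set ((ι ⊕ κ) ⊕ Unit)} {Q' : Matrix (((ι ⊕ κ) ⊕ Unit) ⊕ F) (((ι ⊕ κ) ⊕ Unit) ⊕ F) ℕ[X]}
    (hQ : Fr (gad P x (hubq x s) l w) T W Q)
    (hQ' : Fr (gad (fromBlocks P 0 Wm 0 : Matrix (ι ⊕ κ) (ι ⊕ κ) ℕ[X]) (Sum.inl x)
      (hubq (Sum.inl x) s) l w') T' W Q') : PEqv Q Q' := by
  have hw : w' = Sum.elim w 0 := by
    refine Tail.unique h' ⟨h'.pres, h'.q0, ?_, h.kpos, ?_⟩
    · rintro (j | j)
      · exact h.w0 j
      · simp
    · rintro (j | j)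
      · have := h.row j
        simp only [fromBlocks_apply₁₁, this, hubq, Sum.inl.injEq, Sum.elim_inl]
      · simp [hubq]
  subst hw
  set Wn : Matrix κ ((ι ⊕ Unit) ⊕ F) ℕ[X] := fun m => Sum.elim (Sum.elim (Wm m) 0) 0 with hWn
  have hWn0 : ∀ m j, (Wn m j).coeff 0 = 0 := by
    rintro m ((j | j) | j)
    · exact hWm m j
    · simp [hWn]
    · simp [hWn]
  set e : (ι ⊕ κ) ⊕ Unit ≃ (ι ⊕ Unit) ⊕ κ :=
    ⟨Sum.elim (Sum.elim (fun i => Sum.inl (Sum.inl i)) Sum.inr) (fun u => Sum.inl (Sum.inr u)),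
     Sum.elim (Sum.elim (fun i => Sum.inl (Sum.inl i)) Sum.inr) (fun u => Sum.inl (Sum.inr u)),
     by rintro ((i | i) | i) <;> rfl, by rintro ((i | i) | i) <;> rfl⟩ with he
  have h1 := (hQ.add_src hWn0).reindex e (Equiv.refl F)
  have e1 : (addSrc (gad P x (hubq x s) l w) Wn).submatrix
      (Equiv.sumCongr e (Equiv.refl F)) (Equiv.sumCongr e (Equiv.refl F)) =
      gad (fromBlocks P 0 Wm 0 : Matrix (ι ⊕ κ) (ι ⊕ κ) ℕ[X]) (Sum.inl x) (hubq (Sum.inl x) s) l
        (Sum.elim w 0) := by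
    refine Matrix.ext fun i j => ?_
    rcases i with ((i | i) | i) | i
    · rcases j with ((j | j) | j) | j
      · refine (addSrc_oi (gad P x (hubq x s) l w) Wn (Sum.inl (Sum.inl i))
          (Sum.inl (Sum.inl j))).trans ?_
        simp [hubq]
      · refine (addSrc_oi_src (gad P x (hubq x s) l w) Wn (Sum.inl (Sum.inl i)) j).trans ?_
        simp [hubq]
      · refine (addSrc_oi (gad P x (hubq x s) l w) Wn (Sum.inl (Sum.inl i))
          (Sum.inl (Sum.inr j))).trans ?_
        simp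
      · refine (addSrc_oi (gad P x (hubq x s) l w) Wn (Sum.inl (Sum.inl i))
          (Sum.inr j)).trans ?_
        simp
    · rcases j with ((j | j) | j) | j
      · refine (addSrc_src (gad P x (hubq x s) l w) Wn i (Sum.inl (Sum.inl j))).trans ?_
        simp [hWn]
      · refine (addSrc_src_src (gad P x (hubq x s) l w) Wn i j).trans ?_
        simp
      · refine (addSrc_src (gad P x (hubq x s) l w) Wn i (Sum.inl (Sum.inr j))).trans ?_
        simp [hWn]
      · refine (addSrc_src (gad P x (hubq x s) l w) Wn i (Sum.inr j)).trans ?_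
        simp [hWn]
    · rcases j with ((j | j) | j) | j
      · refine (addSrc_oi (gad P x (hubq x s) l w) Wn (Sum.inl (Sum.inr i))
          (Sum.inl (Sum.inl j))).trans ?_
        simp
      · refine (addSrc_oi_src (gad P x (hubq x s) l w) Wn (Sum.inl (Sum.inr i)) j).trans ?_
        simp
      · refine (addSrc_oi (gad P x (hubq x s) l w) Wn (Sum.inl (Sum.inr i))
          (Sum.inl (Sum.inr j))).trans ?_
        simp
      · refine (addSrc_oi (gad P x (hubq x s) l w) Wn (Sum.inl (Sum.inr i))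
          (Sum.inr j)).trans ?_
        simp
    · rcases j with ((j | j) | j) | j
      · refine (addSrc_oi (gad P x (hubq x s) l w) Wn (Sum.inr i)
          (Sum.inl (Sum.inl j))).trans ?_
        simp
      · refine (addSrc_oi_src (gad P x (hubq x s) l w) Wn (Sum.inr i) j).trans ?_
        simp
      · refine (addSrc_oi (gad P x (hubq x s) l w) Wn (Sum.inr i)
          (Sum.inl (Sum.inr j))).trans ?_
        simp
      · refine (addSrc_oi (gad P x (hubq x s) l w) Wn (Sum.inr i)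
          (Sum.inr j)).trans ?_
        simp
  rw [e1] at h1
  exact ((addSrc_peqv Q Wn).symm.trans (PEqv.reindex _ _)).trans (h1.peqv hQ')

/-- renaming -/
theorem gad_reindex_peqv {κ : Type} [Fintype κ] (e : κ ≃ ι) {w' : κ → ℕ[X]}
    (h : Tail P x (hubq x s) l w)
    (h' : Tail (P.submatrix e e) (e.symm x) (hubq (e.symm x) s) l w')
    {T' : Set (κ ⊕ Unit)} {Q' : Matrix ((κ ⊕ Unit) ⊕ F) ((κ ⊕ Unit) ⊕ F) ℕ[X]}
    (hQ : Fr (gad P x (hubq x s) l w) T W Q)
    (hQ' : Fr (gad (P.submatrix e e) (e.symm x) (hubq (e.symm x) s) l w') T' W Q') :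
    PEqv Q Q' := by
  have hiff : ∀ j : κ, j = e.symm x ↔ e j = x := fun j => by
    constructor
    · rintro rfl
      exact e.apply_symm_apply x
    · rintro rfl
      exact (e.symm_apply_apply j).symm
  have hw : w' = w ∘ e := by
    refine Tail.unique h' ⟨h'.pres, h'.q0, fun j => h.w0 _, h.kpos, fun j => ?_⟩
    have := h.row (e j)
    simp only [submatrix_apply, Equiv.apply_symm_apply, this, hubq, hiff, Function.comp_apply]
  subst hw
  have h1 := hQ.reindex (Equiv.sumCongr e (Equiv.refl Unit)) (Equiv.refl F)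
  have e1 : (gad P x (hubq x s) l w).submatrix
      (Equiv.sumCongr (Equiv.sumCongr e (Equiv.refl Unit)) (Equiv.refl F))
      (Equiv.sumCongr (Equiv.sumCongr e (Equiv.refl Unit)) (Equiv.refl F)) =
      gad (P.submatrix e e) (e.symm x) (hubq (e.symm x) s) l (w ∘ e) := by
    refine Matrix.ext fun i j => ?_
    rcases i with (i | i) | i <;> rcases j with (j | j) | j <;> simp [hubq, hiff]
  rw [e1] at h1
  exact (PEqv.reindex _ _).trans (h1.peqv hQ')

/-- class moves -/
theorem gad_col_peqv (h : Tail P x (hubq x s) l w) (h' : Tail P' x (hubq x s) l w') {v j0 : ι}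
    (hvj : v ≠ j0) (hvx : v ≠ x) (c : ℤ[X])
    (hcol : ∀ i m, m ≠ j0 → P' i m = P i m) (hj : ∀ i, IP P' i j0 = IP P i j0 + IP P i v * c)
    (hT : T ⊆ {Sum.inl x})
    (hQ : Fr (gad P x (hubq x s) l w) T W Q) (hQ' : Fr (gad P' x (hubq x s) l w') T' W Q') :
    PEqv Q Q' := by
  set ζ : (ι ⊕ Unit) ⊕ F → ℤ[X] := fun j => if j = Sum.inl (Sum.inl j0) then c else 0 with hζ
  have hzero : ∀ φ, Q (Sum.inr φ) (Sum.inl (Sum.inl v)) = 0 := by
    intro φ
    obtain ⟨c', h0, hc⟩ := hQ.2.2 φ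
    have h1 := hc (Sum.inl (Sum.inl v))
    have h2 : ∑ ψ, (W : Matrix F F ℤ[X]) φ ψ * IP (gad P x (hubq x s) l w) (Sum.inr ψ)
        (Sum.inl (Sum.inl v)) = 0 := by
      refine Finset.sum_eq_zero fun ψ _ => ?_
      simp [IP_apply, hvx]
    have h3 : ∑ k, c' k * IP (gad P x (hubq x s) l w) (Sum.inl k) (Sum.inl (Sum.inl v)) = 0 := by
      refine Finset.sum_eq_zero fun k _ => ?_
      by_cases hk : k = Sum.inl x
      · subst hk
        simp [IP_apply, hubq, hvx, hvx.symm]
      · rw [h0 k fun hm => hk (hT hm), zero_mul]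
    rw [h2, h3, IP_apply] at h1
    simp only [reduceCtorEq, if_false, zero_sub, add_zero, neg_eq_zero] at h1
    exact (Polynomial.map_eq_zero_iff (RingHom.injective_nat _)).1 h1
  have hmat : ∀ i j, IP (gad P' x (hubq x s) l w') i j = IP (gad P x (hubq x s) l w) i j +
      IP (gad P x (hubq x s) l w) i (Sum.inl (Sum.inl v)) * ζ j := by
    intro i j
    by_cases hjj : j = Sum.inl (Sum.inl j0)
    · subst hjj
      have hz : ζ (Sum.inl (Sum.inl j0)) = c := if_pos rfl
      rw [hz]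
      rcases i with (i | u) | φ
      · by_cases hi : i = x
        · subst hi
          simp [IP_apply, hubq, hvx, hvx.symm]
        · have := hj i
          simp only [IP_apply] at this
          simp only [IP_apply, gad_ll, if_neg hi, Sum.inl.injEq]
          exact this
      · -- the row of `z`
        have h1 := hj x
        simp only [IP_apply] at h1
        rw [h'.row j0, h.row j0, h.row v, if_neg hvx, hubq_ne hvx, if_neg hvx.symm] at h1
        simp only [IP_apply, gad_ul, reduceCtorEq, if_false, Sum.inl.injEq]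
        simp only [toZ_add, toZ_mul, toZ_X, toZ_zero] at h1
        refine mul_left_cancel₀ (X_ne_zero (R := ℤ)) ?_
        linear_combination h1
      · simp [IP_apply, hvx]
    · have hz : ζ j = 0 := if_neg hjj
      rw [hz, mul_zero, add_zero]
      have hwj : ∀ m, m ≠ j0 → w' m = w m := by
        intro m hm
        have h1 := h'.row m
        rw [hcol x m hm, h.row m] at h1
        exact (X_mul_inj (add_cancel_left h1)).symm
      rw [IP_apply, IP_apply]
      congr 2
      rcases i with (i | u) | φ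
      · rcases j with (j | j) | j
        · have hj' : j ≠ j0 := fun h => hjj (by rw [h])
          simp only [gad_ll]
          split_ifs
          · rfl
          · exact hcol i j hj'
        · simp
        · simp
      · rcases j with (j | j) | j
        · have hj' : j ≠ j0 := fun h => hjj (by rw [h])
          simp only [gad_ul]
          exact hwj j hj'
        · simp
        · simp
      · rcases j with (j | j) | j <;> simp
  obtain ⟨Q1, h3, h4⟩ := hQ.columns (P' := gad P' x (hubq x s) l w') (Sum.inl v) ζ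
    (if_neg fun h => hvj (Sum.inl.inj (Sum.inl.inj h))) h'.isPres hmat
    (fun φ j => Q (Sum.inr φ) j) (fun φ j => hQ.1 _ _) (fun φ j => by
      rw [hzero φ]
      simp)
  exact h4.trans (h3.peqv hQ')

/-- isolation at `o ≠ x` -/
theorem gad_iso_peqv {o : ι} (hox : o ≠ x) {s0 : ℕ[X]} {r : ι → ℕ[X]} (hs0 : s0.coeff 0 = 0)
    (hr : ∀ j, (r j).coeff 0 = 0) (ho : ∀ j, P o j = r j + if j = o then s0 else 0)
    {w' : ι ⊕ Unit → ℕ[X]} (h : Tail P x (hubq x s) l w)
    (h' : Tail (iso P o s0 r) (Sum.inl x) (hubq (Sum.inl x) s) l w') (hT : T ⊆ {Sum.inl x})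
    {T' : Set ((ι ⊕ Unit) ⊕ Unit)}
    {Q' : Matrix (((ι ⊕ Unit) ⊕ Unit) ⊕ F) (((ι ⊕ Unit) ⊕ Unit) ⊕ F) ℕ[X]}
    (hQ : Fr (gad P x (hubq x s) l w) T W Q)
    (hQ' : Fr (gad (iso P o s0 r) (Sum.inl x) (hubq (Sum.inl x) s) l w') T' W Q') :
    PEqv Q Q' := by
  have hw : w' = Sum.elim w 0 := by
    refine Tail.unique h' ⟨h'.pres, h'.q0, ?_, h.kpos, ?_⟩
    · rintro (j | j)
      · exact h.w0 j
      · simp
    · rintro (j | j)
      · have := h.row j
        simp only [iso, fromBlocks_apply₁₁, setRow, if_neg hox.symm, this, hubq, Sum.inl.injEq,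
          Sum.elim_inl]
      · simp [hubq, iso, hox.symm]
  subst hw
  set r' : (ι ⊕ Unit) ⊕ F → ℕ[X] := Sum.elim (Sum.elim r 0) 0 with hr'
  obtain ⟨h1, p1⟩ := hQ.iso (k0 := Sum.inl o) (s := s0) (r := r') (fun hm => by
    have := hT hm
    rw [Set.mem_singleton_iff] at this
    exact hox (Sum.inl.inj this)) hs0 (by
      rintro ((j | j) | j)
      · exact hr j
      · simp [hr']
      · simp [hr']) (by
      rintro ((j | j) | j)
      · simp [hr', hox, ho j]
      · simp [hr', hox]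
      · simp [hr', hox])
  set e : (ι ⊕ Unit) ⊕ Unit ≃ (ι ⊕ Unit) ⊕ Unit :=
    ⟨Sum.elim (Sum.elim (fun i => Sum.inl (Sum.inl i)) Sum.inr) (fun u => Sum.inl (Sum.inr u)),
     Sum.elim (Sum.elim (fun i => Sum.inl (Sum.inl i)) Sum.inr) (fun u => Sum.inl (Sum.inr u)),
     by rintro ((i | i) | i) <;> rfl, by rintro ((i | i) | i) <;> rfl⟩ with he
  have h2 := h1.reindex e (Equiv.refl F)
  have e1 : (isoK (gad P x (hubq x s) l w) (Sum.inl o) s0 r').submatrix
      (Equiv.sumCongr e (Equiv.refl F)) (Equiv.sumCongr e (Equiv.refl F)) =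
      gad (iso P o s0 r) (Sum.inl x) (hubq (Sum.inl x) s) l (Sum.elim w 0) := by
    refine Matrix.ext fun i j => ?_
    rcases i with ((i | i) | i) | i
    · rcases j with ((j | j) | j) | j
      · refine (isoK_oi (gad P x (hubq x s) l w) (Sum.inl o) s0 r' (Sum.inl (Sum.inl i))
          (Sum.inl (Sum.inl j))).trans ?_
        by_cases hi : i = o
        · subst hi
          simp [hr', hox, iso, setRow]
        · simp [hubq, hi, iso, setRow]
      · refine (isoK_oi_new (gad P x (hubq x s) l w) (Sum.inl o) s0 r' (Sum.inl (Sum.inl i))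
          j).trans ?_
        by_cases hi : i = o
        · subst hi
          simp [hox, iso]
        · simp [hubq, hi, iso]
      · refine (isoK_oi (gad P x (hubq x s) l w) (Sum.inl o) s0 r' (Sum.inl (Sum.inl i))
          (Sum.inl (Sum.inr j))).trans ?_
        by_cases hi : i = o
        · subst hi
          simp [hr', hox]
        · simp [hi]
      · refine (isoK_oi (gad P x (hubq x s) l w) (Sum.inl o) s0 r' (Sum.inl (Sum.inl i))
          (Sum.inr j)).trans ?_
        by_cases hi : i = o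
        · subst hi
          simp [hr', hox]
        · simp [hi]
    · rcases j with ((j | j) | j) | j
      · refine (isoK_new (gad P x (hubq x s) l w) (Sum.inl o) s0 r' i
          (Sum.inl (Sum.inl j))).trans ?_
        simp [hr', iso]
      · refine (isoK_new_new (gad P x (hubq x s) l w) (Sum.inl o) s0 r' i j).trans ?_
        simp [iso]
      · refine (isoK_new (gad P x (hubq x s) l w) (Sum.inl o) s0 r' i
          (Sum.inl (Sum.inr j))).trans ?_
        simp [hr']
      · refine (isoK_new (gad P x (hubq x s) l w) (Sum.inl o) s0 r' i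
          (Sum.inr j)).trans ?_
        simp [hr']
    · rcases j with ((j | j) | j) | j
      · refine (isoK_oi (gad P x (hubq x s) l w) (Sum.inl o) s0 r' (Sum.inl (Sum.inr i))
          (Sum.inl (Sum.inl j))).trans ?_
        simp
      · refine (isoK_oi_new (gad P x (hubq x s) l w) (Sum.inl o) s0 r' (Sum.inl (Sum.inr i))
          j).trans ?_
        simp
      · refine (isoK_oi (gad P x (hubq x s) l w) (Sum.inl o) s0 r' (Sum.inl (Sum.inr i))
          (Sum.inl (Sum.inr j))).trans ?_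
        simp
      · refine (isoK_oi (gad P x (hubq x s) l w) (Sum.inl o) s0 r' (Sum.inl (Sum.inr i))
          (Sum.inr j)).trans ?_
        simp
    · rcases j with ((j | j) | j) | j
      · refine (isoK_oi (gad P x (hubq x s) l w) (Sum.inl o) s0 r' (Sum.inr i)
          (Sum.inl (Sum.inl j))).trans ?_
        simp
      · refine (isoK_oi_new (gad P x (hubq x s) l w) (Sum.inl o) s0 r' (Sum.inr i)
          j).trans ?_
        simp
      · refine (isoK_oi (gad P x (hubq x s) l w) (Sum.inl o) s0 r' (Sum.inr i)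
          (Sum.inl (Sum.inr j))).trans ?_
        simp
      · refine (isoK_oi (gad P x (hubq x s) l w) (Sum.inl o) s0 r' (Sum.inr i)
          (Sum.inr j)).trans ?_
        simp
  rw [e1] at h2
  exact (p1.trans (PEqv.reindex _ _)).trans (h2.peqv hQ')

end steps

variable {K : Type} [AddCommGroup K] [Module ℤ[X] K]

/-- TRANSFER: twisted gadgets move along `PX.Rel`. -/
theorem PX.transfer {δ : ℤ[X]} {q s : ℕ[X]} {l : F → ℕ} (hl : ∀ i, 0 < l i)
    (hq : q = s + ∑ i, X ^ (l i + 1)) (W : SpecialLinearGroup F ℤ[X])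
    (hex : ∀ (I : Type) [Fintype I] (P : Matrix I I ℕ[X]) (x : I) (w : I → ℕ[X]),
      Tail P x (hubq x s) l w →
      ∃ Q, Fr (gad P x (hubq x s) l w) {Sum.inl x} (W : Matrix F F ℤ[X]) Q)
    {S S' : PX K δ q} (h : PX.Rel S S') :
    ∀ {w : S.I → ℕ[X]} {w' : S'.I → ℕ[X]} (_ : Tail S.P S.x (hubq S.x s) l w)
      (_ : Tail S'.P S'.x (hubq S'.x s) l w') {T : Set (S.I ⊕ Unit)} {T' : Set (S'.I ⊕ Unit)}
      {Q : Matrix ((S.I ⊕ Unit) ⊕ F) ((S.I ⊕ Unit) ⊕ F) ℕ[X]}
      {Q' : Matrix ((S'.I ⊕ Unit) ⊕ F) ((S'.I ⊕ Unit) ⊕ F) ℕ[X]}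
      (_ : Fr (gad S.P S.x (hubq S.x s) l w) T (W : Matrix F F ℤ[X]) Q)
      (_ : Fr (gad S'.P S'.x (hubq S'.x s) l w') T' (W : Matrix F F ℤ[X]) Q'), PEqv Q Q' := by
  subst hq
  induction h with
  | rel S S' h =>
    intro w w' hw hw' T T' Q Q' hQ0 hQ'
    obtain ⟨Q1, hQ⟩ := hex _ _ _ _ hw
    refine (hQ0.peqv hQ).trans ?_
    cases h with
    | row h hq hx h' hq' hx' i hi =>
      rename_i I inst g P P' x
      obtain ⟨c, hc, hrow⟩ := h.row_span h' i hi
      by_cases hix : i = x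
      · subst hix
        exact gad_hub_peqv hw hw' hi c hc hrow (le_refl _) hQ hQ'
      · exact gad_row_peqv hw hw' hix hi c hc hrow (le_refl _) hQ hQ'
    | src h hq hx Wm h' hq' hx' =>
      refine gad_src_peqv (fun m j => ?_) hw hw' hQ hQ'
      have := h'.pres (Sum.inr m) (Sum.inl j)
      simpa using this
    | reindex h hq hx e h' hq' hx' => exact gad_reindex_peqv e hw hw' hQ hQ'
    | col h hq hx v j hvj hvx c hcol hj h' hq' hx' =>
      exact gad_col_peqv hw hw' hvj hvx c hcol hj (le_refl _) hQ hQ'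
    | iso h hq hx o hox s r hs hr ho h' hq' hx' =>
      exact gad_iso_peqv hox hs hr ho hw hw' (le_refl _) hQ hQ'
  | refl S =>
    intro w w' hw hw' T T' Q Q' hQ hQ'
    have := hw.unique hw'
    subst this
    exact hQ.peqv hQ'
  | symm S S' _ ih =>
    intro w w' hw hw' T T' Q Q' hQ hQ'
    exact (ih hw' hw hQ' hQ).symm
  | trans S S' S'' _ _ ih ih' =>
    intro w w'' hw hw'' T T'' Q Q'' hQ hQ''
    obtain ⟨w', hw'⟩ := exists_tail S'.h.pres hl S'.hq S'.hx
    obtain ⟨Q', hQ'⟩ := hex _ _ _ _ hw'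
    exact (ih hw hw' hQ hQ').trans (ih' hw' hw'' hQ' hQ'')

end Pool.Agent.SSE
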