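import Pool.Agent.SSE.HDet
import Pool.Agent.SSE.HTau

/-!
# SSE project, hub part, HAsy: the asymptotics (2.3) of a hub state
-/

set_option autoImplicit false

open scoped BigOperators
open Matrix Polynomial

namespace Pool.Agent.SSE

attribute [local instance] Classical.propDecidable

/-- determinants of matrices of series of finite norm have finite norm -/
private lemma hasy_det {F : Type} [Fintype F] [DecidableEq F] {r : ℝ} (hr : 0 ≤ r)
    {M : Matrix F F (PowerSeries ℤ)} (hM : ∀ i j, FN r (M i j)) : FN r M.det := by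
  unfold FN
  rw [Matrix.det_apply', map_sum]
  refine PF.hasN_sum hr _ _ fun σ _ => ?_
  rw [map_mul, map_prod]
  refine PF.HasN.mul hr ?_ (PF.hasN_prod hr _ _ fun i _ => hM _ _)
  rcases Int.units_eq_one_or (Equiv.Perm.sign σ) with e | e
  · rw [e]
    simpa using PF.hasN_one (𝕜 := ℝ) r
  · rw [e]
    simpa using (PF.hasN_one (𝕜 := ℝ) r).neg

private lemma hasy_one_sub {r : ℝ} (hr : 0 ≤ r) {f : PowerSeries ℤ} (hf : FN r f) :
    FN r (1 - f) := by
  unfold FN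
  rw [map_sub, map_one]
  exact (PF.hasN_one r).sub hr hf

private lemma hasy_prod {α : Type*} {r : ℝ} (hr : 0 ≤ r) (s : Finset α) (G : α → PowerSeries ℤ)
    (h : ∀ a ∈ s, FN r (G a)) : FN r (∏ a ∈ s, G a) := by
  unfold FN
  rw [map_prod]
  exact PF.hasN_prod hr _ _ h

private lemma hasy_toRS_ps (f : ℤ[X]) : HN.toRS (ps f) = ((toR f : ℝ[X]) : PowerSeries ℝ) := by
  ext n
  simp [ps, toR]

variable {K : Type} [AddCommGroup K] [Module ℤ[X] K] {δ : ℤ[X]} {D : PFM K δ} {qB : ℕ[X]}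
  {S0 : PX K δ qB} {r : ℝ} {F : Type} [Fintype F] {cl : Option F → K} {cst : K}
  {p : Matrix (Option F) (Option F) (PowerSeries ℤ)} {L : Multiset (PowerSeries ℤ)}
  {Y : Type} [Fintype Y] {s : Y → PowerSeries ℤ} {c : Y → K} {q : Y → PowerSeries ℤ}
  {φ : F → PowerSeries ℤ}

/-- (2.3) asymptotics of `g / (1 - H)` -/
theorem HubOn.asymp (h : HubOn D S0 r cl p s c q) (hg : Good r (pFF p)) (hφ : FP p φ)
    (hφt : ∀ f, TS r (φ f)) {u : PowerSeries ℤ} (hu : u * (1 - Hret p φ) = 1) :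
    ∃ μ C1 : ℝ, 0 < μ ∧ 0 < C1 ∧ ∀ g : PowerSeries ℤ, FN r g → ∀ d : ℕ,
      |((PowerSeries.coeff d (g * u) : ℤ) : ℝ) - μ * sv D.lam⁻¹ g * D.lam ^ d| * r ^ d ≤
        C1 * sn r g := by
  have hlam : 0 < D.lam := lt_trans one_pos D.one_lt
  have hr0 : 0 < r := by
    by_contra hcon
    push Not at hcon
    have := mul_nonpos_of_nonneg_of_nonpos hlam.le hcon
    linarith [h.r_gt]
  have hx : ‖D.lam⁻¹‖ ≤ r := by
    rw [norm_inv, Real.norm_of_nonneg hlam.le, inv_le_iff_one_le_mul₀ hlam]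
    linarith [h.r_gt]
  -- the numerator
  set Ψ : PowerSeries ℤ := (1 - pFF p).det * ∏ y, (1 - s y) with hΨ
  have hΨN : FN r Ψ := by
    unfold FN
    rw [hΨ, map_mul]
    refine PF.HasN.mul hr0.le (hasy_det hr0.le fun i j => ?_)
      (hasy_prod hr0.le _ _ fun y _ => hasy_one_sub hr0.le (h.s_ts y).fn)
    rw [Matrix.sub_apply, Matrix.one_apply]
    split_ifs
    · exact hasy_one_sub hr0.le (h.p_ts _ _).fn
    · unfold FN
      rw [zero_sub, map_neg]
      exact (h.p_ts _ _).fn.neg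
  have hdet := h.det hφ
  have hΨu : ps δ * u = Ψ := by
    rw [← hdet, hΨ]
    linear_combination ((1 - pFF p).det * ∏ y, (1 - s y)) * hu
  -- the first return series
  have hHN : FN r (Hret p φ) := by
    unfold FN Hret
    rw [map_add, map_sum]
    refine PF.HasN.add hr0.le (h.p_ts _ _).fn (PF.hasN_sum hr0.le _ _ fun f _ => ?_)
    rw [map_mul]
    exact PF.HasN.mul hr0.le (h.p_ts _ _).fn (hφt f).fn
  have hHnn : HN.Nn (Hret p φ) := by
    unfold Hret
    exact (h.p_ts _ _).nn.add (HN.nn_sum _ _ fun f _ => (h.p_ts _ _).nn.mul (hφt f).nn)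
  have hH0 : PowerSeries.coeff 0 (Hret p φ) = 0 := by
    unfold Hret
    rw [map_add, (h.p_ts _ _).c0, map_sum, zero_add]
    refine Finset.sum_eq_zero fun f _ => ?_
    have := (h.p_ts none (some f)).c0
    rw [PowerSeries.coeff_zero_eq_constantCoeff] at this ⊢
    rw [map_mul, this, zero_mul]
  have hunn : HN.Nn u := HN.nn_of_fix hH0 hHnn HN.nn_one (by linear_combination hu)
  -- asymptotics
  obtain ⟨K0, hK0, hne, hasy⟩ := PF.asymptotics hlam h.r_gt D.fac
    (fun z hz => D.ne z (hz.trans h.r_le))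
  have key : ∀ g : PowerSeries ℤ,
      ((toR δ : ℝ[X]) : PowerSeries ℝ) * HN.toRS (g * u) = HN.toRS (g * Ψ) := by
    intro g
    rw [← hasy_toRS_ps, ← map_mul, ← hΨu]
    congr 1
    ring
  have hgN : ∀ g : PowerSeries ℤ, FN r g → PF.HasN r (HN.toRS (g * Ψ)) := by
    intro g hg
    rw [map_mul]
    exact PF.HasN.mul hr0.le hg hΨN
  set μ : ℝ := sv D.lam⁻¹ Ψ / D.f1.eval D.lam⁻¹ with hμ
  set C1 : ℝ := K0 * (sn r Ψ + 1) with hC1
  have hΨ0 : 0 ≤ sn r Ψ := PF.nS_nonneg hr0.le _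
  have hC1p : 0 < C1 := mul_pos hK0 (by linarith)
  have main : ∀ g : PowerSeries ℤ, FN r g → ∀ d : ℕ,
      |((PowerSeries.coeff d (g * u) : ℤ) : ℝ) - μ * sv D.lam⁻¹ g * D.lam ^ d| * r ^ d ≤
        C1 * sn r g := by
    intro g hg d
    have h1 := (hasy (HN.toRS (g * Ψ)) (HN.toRS (g * u)) (hgN g hg) (key g)).1 d
    have h2 : PF.ev D.lam⁻¹ (HN.toRS (g * Ψ)) = sv D.lam⁻¹ g * sv D.lam⁻¹ Ψ := by
      rw [map_mul]
      exact PF.ev_mul hg hΨN hx
    rw [h2, HN.coeff_toRS] at h1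
    have h3 : sv D.lam⁻¹ g * sv D.lam⁻¹ Ψ / D.f1.eval D.lam⁻¹ = μ * sv D.lam⁻¹ g := by
      rw [hμ]; ring
    rw [h3] at h1
    refine h1.trans ?_
    have h4 : PF.nS r (HN.toRS (g * Ψ)) ≤ sn r g * sn r Ψ := by
      rw [map_mul]
      exact PF.nS_mul_le hr0.le hg hΨN
    have hg0 : 0 ≤ sn r g := PF.nS_nonneg hr0.le _
    calc K0 * PF.nS r (HN.toRS (g * Ψ)) ≤ K0 * (sn r g * sn r Ψ) :=
          mul_le_mul_of_nonneg_left h4 hK0.le
      _ ≤ K0 * (sn r g * (sn r Ψ + 1)) :=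
          mul_le_mul_of_nonneg_left (mul_le_mul_of_nonneg_left (by linarith) hg0) hK0.le
      _ = C1 * sn r g := by rw [hC1]; ring
  refine ⟨μ, C1, ?_, hC1p, main⟩
  -- positivity
  have hone : FN r (1 : PowerSeries ℤ) := by
    unfold FN
    rw [map_one]
    exact PF.hasN_one r
  have hsv1 : sv D.lam⁻¹ (1 : PowerSeries ℤ) = 1 := by
    unfold sv
    rw [map_one, PF.ev_one]
  have hsn1 : sn r (1 : PowerSeries ℤ) = 1 := by
    unfold sn
    rw [map_one, PF.nS_one]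
  have hμ0 : μ ≠ 0 := by
    intro h0
    have hev : PF.ev D.lam⁻¹ (HN.toRS Ψ) = 0 := by
      rw [hμ, div_eq_zero_iff] at h0
      exact h0.resolve_right hne
    have hk := key 1
    rw [one_mul, one_mul] at hk
    have huN : PF.HasN r (HN.toRS u) := ((hasy _ _ hΨN hk).2 hev).1
    have h1N : PF.HasN r (HN.toRS (1 - Hret p φ)) := hasy_one_sub hr0.le hHN
    have h1 := PF.ev_mul (x := D.lam⁻¹) huN h1N hx
    rw [← map_mul, hu, map_one, PF.ev_one, map_sub, map_one,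
      PF.ev_sub (PF.hasN_one r) hHN hx, PF.ev_one] at h1
    have h2 := h.H_eq hg hφ hφt
    unfold sv at h2
    rw [h2, sub_self, mul_zero] at h1
    exact one_ne_zero h1
  by_contra hneg
  have hμneg : μ < 0 := lt_of_le_of_ne (not_lt.1 hneg) hμ0
  -- `(lam r)^d` is bounded by `C1 / |μ|`
  have hb : ∀ d : ℕ, (D.lam * r) ^ d ≤ C1 / (-μ) := by
    intro d
    have h1 := main 1 hone d
    rw [one_mul, hsv1, hsn1, mul_one, mul_one] at h1
    have h2 : (0 : ℝ) ≤ ((PowerSeries.coeff d u : ℤ) : ℝ) := by exact_mod_cast hunn d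
    have h3 : -μ * D.lam ^ d ≤ |((PowerSeries.coeff d u : ℤ) : ℝ) - μ * D.lam ^ d| := by
      refine le_trans ?_ (le_abs_self _)
      linarith
    have h4 := (mul_le_mul_of_nonneg_right h3 (pow_nonneg hr0.le d)).trans h1
    rw [le_div_iff₀ (by linarith), mul_pow]
    calc D.lam ^ d * r ^ d * -μ = -μ * D.lam ^ d * r ^ d := by ring
      _ ≤ C1 := h4
  obtain ⟨d, hd⟩ := pow_unbounded_of_one_lt (C1 / (-μ)) h.r_gt
  exact absurd (hb d) (not_le.2 hd)

end Pool.Agent.SSE
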