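import Pool.Agent.SSE.HR
import Pool.Agent.SSE.HGood

/-!
# SSE project, hub part, HExp: the rule (H1) of hub states
-/

set_option autoImplicit false

open scoped BigOperators
open Matrix Polynomial

namespace Pool.Agent.SSE

attribute [local instance] Classical.propDecidable

section aux

theorem HExp_FN_zero (r : ℝ) : FN r (0 : PowerSeries ℤ) := by
  unfold FN
  rw [map_zero]
  exact PF.hasN_zero r

variable {F : Type} {Y : Type}

theorem HExp_inl_inl (p : Matrix (Option F) (Option F) (PowerSeries ℤ)) (s q : Y → PowerSeries ℤ)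
    (a b : Option F) : hubM p s q (Sum.inl a) (Sum.inl b) = p a b := rfl

theorem HExp_inl_inr (p : Matrix (Option F) (Option F) (PowerSeries ℤ)) (s q : Y → PowerSeries ℤ)
    (a : Option F) (y : Y) : hubM p s q (Sum.inl a) (Sum.inr y) = 0 := rfl

theorem HExp_inr_none (p : Matrix (Option F) (Option F) (PowerSeries ℤ)) (s q : Y → PowerSeries ℤ)
    (y : Y) : hubM p s q (Sum.inr y) (Sum.inl none) = q y := rfl

theorem HExp_inr_some (p : Matrix (Option F) (Option F) (PowerSeries ℤ)) (s q : Y → PowerSeries ℤ)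
    (y : Y) (f : F) : hubM p s q (Sum.inr y) (Sum.inl (some f)) = 0 := rfl

theorem HExp_inr_inr (p : Matrix (Option F) (Option F) (PowerSeries ℤ)) (s q : Y → PowerSeries ℤ)
    (y z : Y) : hubM p s q (Sum.inr y) (Sum.inr z) = if y = z then s y else 0 := rfl

theorem HExp_updateRow (dec : DecidableEq (Option F ⊕ Y))
    (p : Matrix (Option F) (Option F) (PowerSeries ℤ)) (s q : Y → PowerSeries ℤ)
    (o : Option F) (N : Option F → PowerSeries ℤ) :
    hubM (p.updateRow o N) s q =
      @updateRow _ _ _ dec (hubM p s q) (Sum.inl o) (Sum.elim N 0) := by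
  ext1 i j
  rcases i with a | y
  · by_cases ha : a = o
    · subst ha
      rcases j with b | z
      · rw [HExp_inl_inl, updateRow_self, updateRow_self, Sum.elim_inl]
      · rw [HExp_inl_inr, updateRow_self, Sum.elim_inr, Pi.zero_apply]
    · have h1 : (Sum.inl a : Option F ⊕ Y) ≠ Sum.inl o := fun h => ha (Sum.inl_injective h)
      rcases j with b | z
      · rw [HExp_inl_inl, updateRow_ne ha, updateRow_ne h1, HExp_inl_inl]
      · rw [HExp_inl_inr, updateRow_ne h1, HExp_inl_inr]
  · have h1 : (Sum.inr y : Option F ⊕ Y) ≠ Sum.inl o := Sum.inr_ne_inl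
    rw [updateRow_ne h1]
    rcases j with (_ | f) | z
    · rw [HExp_inr_none, HExp_inr_none]
    · rw [HExp_inr_some, HExp_inr_some]
    · rw [HExp_inr_inr, HExp_inr_inr]

theorem HExp_update_q (dec : DecidableEq (Option F ⊕ Y))
    (p : Matrix (Option F) (Option F) (PowerSeries ℤ)) (s q : Y → PowerSeries ℤ)
    (y : Y) (q' : PowerSeries ℤ) :
    hubM p s (Function.update q y q') = @updateRow _ _ _ dec (hubM p s q) (Sum.inr y)
      (Sum.elim (fun a => Option.elim a q' 0) fun z => if y = z then s y else 0) := by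
  ext1 i j
  rcases i with a | y'
  · have h1 : (Sum.inl a : Option F ⊕ Y) ≠ Sum.inr y := Sum.inl_ne_inr
    rw [updateRow_ne h1]
    rcases j with b | z
    · rw [HExp_inl_inl, HExp_inl_inl]
    · rw [HExp_inl_inr, HExp_inl_inr]
  · by_cases hy : y' = y
    · subst hy
      rw [updateRow_self]
      rcases j with (_ | f) | z
      · rw [HExp_inr_none, Sum.elim_inl, Option.elim_none, Function.update_self]
      · rw [HExp_inr_some, Sum.elim_inl, Option.elim_some, Pi.zero_apply]
      · rw [HExp_inr_inr, Sum.elim_inr]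
    · have h1 : (Sum.inr y' : Option F ⊕ Y) ≠ Sum.inr y := fun h => hy (Sum.inr_injective h)
      rw [updateRow_ne h1]
      rcases j with (_ | f) | z
      · rw [HExp_inr_none, HExp_inr_none, Function.update_of_ne hy]
      · rw [HExp_inr_some, HExp_inr_some]
      · rw [HExp_inr_inr, HExp_inr_inr]

end aux

variable {K : Type} [AddCommGroup K] [Module ℤ[X] K] {δ : ℤ[X]} {D : PFM K δ} {qB : ℕ[X]}
  {S0 : PX K δ qB} {r : ℝ} {F : Type} [Fintype F] {cl : Option F → K} {cst : K}
  {p : Matrix (Option F) (Option F) (PowerSeries ℤ)} {L : Multiset (PowerSeries ℤ)}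
  {Y : Type} [Fintype Y] {s : Y → PowerSeries ℤ} {c : Y → K} {q : Y → PowerSeries ℤ}
  {φ : F → PowerSeries ℤ}

theorem HExp_r_pos (h : HubOn D S0 r cl p s c q) : 0 < r := by
  have h1 := h.r_gt
  have h2 := D.one_lt
  by_contra h3
  push Not at h3
  nlinarith

/-- (H1) expansion of the row of a hub -/
theorem HubOn.expand (h : HubOn D S0 r cl p s c q) (o : Option F) (W N : Option F → PowerSeries ℤ)
    (hW : ∀ k, HN.Nn (W k)) (hWf : ∀ k, FN r (W k)) (hWo : W o = 0)
    (hN : ∀ j, N j = p o j - W j + ∑ k, W k * p k j) (hNn : ∀ j, HN.Nn (N j))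
    (hq : o = none → ∀ n, (qB.coeff n : ℤ) ≤ PowerSeries.coeff n (N none))
    (h1 : o = none → ∀ j, PowerSeries.coeff 1 (N j) = 0) :
    HubOn D S0 r cl (p.updateRow o N) s c q := by
  have hr := (HExp_r_pos h).le
  have hreach : ReachE S0 (Sum.elim cl c) (Sum.inl none) r (hubM (p.updateRow o N) s q) := by
    rw [HExp_updateRow (fun a b => Classical.propDecidable (a = b))]
    have hW0 : HN.Nn (0 : PowerSeries ℤ) := HN.nn_zero
    have hF0 : FN r (0 : PowerSeries ℤ) := HExp_FN_zero r
    refine h.reach.expand hr (Sum.inl o) (Sum.elim W 0) (Sum.elim N 0) ?_ ?_ ?_ ?_ ?_ ?_ ?_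
    · rintro (k | y)
      · exact hW k
      · exact hW0
    · rintro (k | y)
      · exact hWf k
      · exact hF0
    · exact hWo
    · rintro (j | y)
      · simp only [Sum.elim_inl, Fintype.sum_sum_type, Sum.elim_inr, Pi.zero_apply, zero_mul,
          Finset.sum_const_zero, add_zero]
        exact hN j
      · simp only [Sum.elim_inl, Fintype.sum_sum_type, Sum.elim_inr, Pi.zero_apply, zero_mul,
          Finset.sum_const_zero, add_zero, HExp_inl_inr, mul_zero, sub_zero]
    · rintro (j | y)
      · exact hNn j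
      · exact hW0
    · intro ho n
      have ho' : o = none := Sum.inl_injective ho
      exact hq ho' n
    · rintro ho (j | y)
      · exact h1 (Sum.inl_injective ho) j
      · simp
  have hts : ∀ i j, TS r ((p.updateRow o N) i j) := fun i j => by
    have := hreach.ts hr (Sum.inl i) (Sum.inl j)
    rwa [HExp_inl_inl] at this
  refine ⟨h.r_gt, h.r_le, hts, h.s_ts, h.s_ne, h.s_lt, h.q_ts, h.c_pos, h.cl_pos, ?_, ?_, hreach⟩
  · intro n
    have := hreach.q_le n
    rwa [HExp_inl_inl] at this
  · intro j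
    have := hreach.coeff_one (Sum.inl j)
    rwa [HExp_inl_inl] at this

theorem Hub.expand (h : Hub D S0 r cl cst p L) (o : Option F) (W N : Option F → PowerSeries ℤ)
    (hW : ∀ k, HN.Nn (W k)) (hWf : ∀ k, FN r (W k)) (hWo : W o = 0)
    (hN : ∀ j, N j = p o j - W j + ∑ k, W k * p k j) (hNn : ∀ j, HN.Nn (N j))
    (hq : o = none → ∀ n, (qB.coeff n : ℤ) ≤ PowerSeries.coeff n (N none))
    (h1 : o = none → ∀ j, PowerSeries.coeff 1 (N j) = 0) :
    Hub D S0 r cl cst (p.updateRow o N) L := by
  obtain ⟨Y, hY, s, q, hL, h⟩ := h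
  exact ⟨Y, hY, s, q, hL, h.expand o W N hW hWf hWo hN hNn hq h1⟩

/-- expansion of the row of a loop vertex, pure state (row of the main hub `H e_x`) -/
theorem HubOn.expand_loop {H : PowerSeries ℤ} (h : HubOn D S0 r cl (pureM H φ) s c q) (y : Y)
    (W q' : PowerSeries ℤ) (hW : HN.Nn W) (hWf : FN r W) (hq' : q' = q y - W * (1 - H))
    (hNn : HN.Nn q') :
    HubOn D S0 r cl (pureM H φ) s c (Function.update q y q') := by
  have hr := (HExp_r_pos h).le
  have hW0 : HN.Nn (0 : PowerSeries ℤ) := HN.nn_zero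
  have hF0 : FN r (0 : PowerSeries ℤ) := HExp_FN_zero r
  have hreach : ReachE S0 (Sum.elim cl c) (Sum.inl none) r
      (hubM (pureM H φ) s (Function.update q y q')) := by
    rw [HExp_update_q (fun a b => Classical.propDecidable (a = b))]
    refine h.reach.expand hr (Sum.inr y) (Sum.elim (fun a => Option.elim a W 0) 0) _ ?_ ?_ ?_ ?_ ?_
      ?_ ?_
    · rintro ((_ | f) | z)
      · exact hW
      · exact hW0
      · exact hW0
    · rintro ((_ | f) | z)
      · exact hWf
      · exact hF0
      · exact hF0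
    · rfl
    · rintro ((_ | f) | z)
      · simp only [Sum.elim_inl, Fintype.sum_sum_type, Sum.elim_inr, Pi.zero_apply, zero_mul,
          Finset.sum_const_zero, add_zero, Fintype.sum_option, Option.elim_none, Option.elim_some,
          HExp_inr_none, HExp_inl_inl, pureM, if_true]
        rw [hq']
        ring
      · simp only [Sum.elim_inl, Fintype.sum_sum_type, Sum.elim_inr, Pi.zero_apply,
          Finset.sum_const_zero, add_zero, Option.elim_some,
          HExp_inr_some, HExp_inl_inl, pureM, reduceCtorEq, if_false, mul_zero, sub_zero]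
      · simp only [Fintype.sum_sum_type, Sum.elim_inr, Pi.zero_apply, zero_mul,
          Finset.sum_const_zero, add_zero, HExp_inr_inr, HExp_inl_inr, mul_zero, sub_zero]
    · rintro ((_ | f) | z)
      · exact hNn
      · exact hW0
      · simp only [Sum.elim_inr]
        split_ifs
        · exact (h.s_ts y).nn
        · exact hW0
    · intro ho
      exact absurd ho Sum.inr_ne_inl
    · intro ho
      exact absurd ho Sum.inr_ne_inl
  refine ⟨h.r_gt, h.r_le, h.p_ts, h.s_ts, h.s_ne, h.s_lt, ?_, h.c_pos, h.cl_pos, h.qB_le, h.low,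
    hreach⟩
  intro z
  have := hreach.ts hr (Sum.inr z) (Sum.inl none)
  rwa [HExp_inr_none] at this

/-- renaming the hubs -/
theorem Hub.reindex {F' : Type} [Fintype F'] (e : F' ≃ F) (h : Hub D S0 r cl cst p L) :
    Hub D S0 r (fun i => cl (i.map e)) cst (fun i j => p (i.map e) (j.map e)) L := by
  obtain ⟨Y, hY, s, q, hL, h⟩ := h
  refine ⟨Y, hY, s, q, hL, h.r_gt, h.r_le, fun i j => h.p_ts _ _, h.s_ts, h.s_ne, h.s_lt, h.q_ts,
    h.c_pos, fun i => h.cl_pos _, fun n => h.qB_le n, fun j => h.low _, ?_⟩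
  have h1 := h.reach.reindex (Equiv.sumCongr (Equiv.optionCongr e) (Equiv.refl Y))
  have e1 : (fun j => Sum.elim cl (fun _ => cst)
      ((Equiv.sumCongr (Equiv.optionCongr e) (Equiv.refl Y)) j)) =
      Sum.elim (fun i => cl (Option.map e i)) (fun _ => cst) := by
    funext j
    rcases j with a | y
    · rfl
    · rfl
  have e2 : (Equiv.sumCongr (Equiv.optionCongr e) (Equiv.refl Y)).symm (Sum.inl none) =
      (Sum.inl none : Option F' ⊕ Y) := rfl
  have e3 : (hubM p s q).submatrix (Equiv.sumCongr (Equiv.optionCongr e) (Equiv.refl Y))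
      (Equiv.sumCongr (Equiv.optionCongr e) (Equiv.refl Y)) =
      hubM (fun i j => p (Option.map e i) (Option.map e j)) s q := by
    ext1 i j
    rcases i with a | y <;> rcases j with (_ | f) | z <;> rfl
  rw [e1, e2, e3] at h1
  exact h1

end Pool.Agent.SSE
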