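import Pool.Agent.SSE.HMoveR

/-!
# SSE project, hub part, HIso: the rule (H2) of hub states
-/

set_option autoImplicit false

open scoped BigOperators
open Matrix Polynomial

namespace Pool.Agent.SSE

attribute [local instance] Classical.propDecidable

variable {K : Type} [AddCommGroup K] [Module ℤ[X] K] {δ : ℤ[X]} {D : PFM K δ} {qB : ℕ[X]}
  {S0 : PX K δ qB} {r : ℝ} {F : Type} [Fintype F] {cl : Option F → K} {cst : K}
  {p : Matrix (Option F) (Option F) (PowerSeries ℤ)} {L : Multiset (PowerSeries ℤ)}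
  {Y : Type} [Fintype Y] {s : Y → PowerSeries ℤ} {c : Y → K} {q : Y → PowerSeries ℤ}
  {φ : F → PowerSeries ℤ}

/-- the new row of the matrix of the hubs -/
lemma hiso_good (hr : 0 ≤ r) (hp : ∀ i j, TS r (p i j)) (hg : Good r (pFF p)) (o : Option F)
    (s' : PowerSeries ℤ) (hs : TS r s') (hs1 : sn r s' < 1) (hle : HN.Nn (p o o - s')) :
    Good r (pFF (p.updateRow o (divRow p o s'))) := by
  rcases o with _ | f
  · have : pFF (p.updateRow none (divRow p none s')) = pFF p := by
      funext i j
      simp [pFF]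
    rw [this]
    exact hg
  · obtain ⟨g, θ, hgw⟩ := hg
    have h1 := hgw.divide hr (fun i j => hp _ _) f s' hs hs1 hle
    have h2 : pFF (p.updateRow (some f) (divRow p (some f) s')) =
        (pFF p).updateRow f fun j => HN.geo s' * (pFF p f j - if j = f then s' else 0) := by
      funext i j
      by_cases hi : i = f
      · subst hi
        rw [Matrix.updateRow_self]
        simp [pFF, divRow]
      · rw [Matrix.updateRow_ne hi]
        simp [pFF, Matrix.updateRow_ne (show (some i : Option F) ≠ some f by simpa using hi)]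
    rw [h2]
    exact ⟨g, θ, h1⟩

/-- from a limit object with a new vertex to a hub state -/
lemma hiso_core (h : HubOn D S0 r cl p s c q) (hg : Good r (pFF p)) (o : Option F)
    (s' m : PowerSeries ℤ) (hs : TS r s') (hs0 : s' ≠ 0) (hs1 : sn r s' < 1)
    (hle : HN.Nn (p o o - s')) (cn : K) (hcn : 0 < D.tau cn)
    (hR : ReachE S0 (Sum.elim (Sum.elim cl c) fun _ : Unit => cn) (Sum.inl (Sum.inl none)) r
      (isoL (hubM p s q) (Sum.inl o) m s')) :
    ∃ q' : PowerSeries ℤ, HubOn D S0 r cl (p.updateRow o (divRow p o s'))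
      (Sum.elim s fun _ : Unit => s') (Sum.elim c fun _ => cn)
      (Sum.elim q fun _ => q') := by
  have hr0 := (HExp_r_pos h).le
  set p' := p.updateRow o (divRow p o s') with hp'
  have hR1 := hR.reindex (Equiv.sumAssoc (Option F) Y Unit).symm
  set M := (isoL (hubM p s q) (Sum.inl o) m s').submatrix
    (Equiv.sumAssoc (Option F) Y Unit).symm (Equiv.sumAssoc (Option F) Y Unit).symm with hM
  have hts := hR1.ts hr0
  have m1 : ∀ a b, M (Sum.inl a) (Sum.inl b) = p' a b := by
    intro a b
    by_cases ha : a = o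
    · subst ha
      rw [hp', Matrix.updateRow_self]
      simp [hM, isoL, hubM, divRow]
    · rw [hp', Matrix.updateRow_ne ha]
      simp [hM, isoL, hubM, ha]
  have m2 : ∀ a z, M (Sum.inl a) (Sum.inr z) = 0 := by
    intro a z
    rcases z with z | z
    · by_cases ha : a = o
      · subst ha
        simp [hM, isoL, hubM]
      · simp [hM, isoL, hubM]
    · simp [hM, isoL]
  have hp't : ∀ i j, TS r (p' i j) := fun i j => by
    rw [← m1]
    exact hts _ _
  have hg' : Good r (pFF p') := hiso_good hr0 h.p_ts hg o s' hs hs1 hle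
  obtain ⟨φ, hφ, hφt⟩ := exists_FP hr0 hp't hg'
  set a' : PowerSeries ℤ := M (Sum.inr (Sum.inr ())) (Sum.inl none) +
    ∑ f, M (Sum.inr (Sum.inr ())) (Sum.inl (some f)) * φ f with ha'
  have ha'n : HN.Nn a' := (hts _ _).nn.add (HN.nn_sum _ _ fun f _ => (hts _ _).nn.mul (hφt f).nn)
  have hR1' : ReachE S0 (fun j => (Sum.elim (Sum.elim cl c) fun _ : Unit => cn)
      ((Equiv.sumAssoc (Option F) Y Unit).symm j)) (Sum.inl none) r M := hR1
  have hR2 := ReachE.rowpush hr0 hR1' m1 m2 hg' hφ (Sum.inr ()) 0 HN.nn_zero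
    (by unfold FN; rw [map_zero]; exact PF.hasN_zero r) (fun _ => 0) (fun _ => HN.nn_zero)
    (fun _ => by unfold FN; rw [map_zero]; exact PF.hasN_zero r)
    (fun f => by
      rw [zero_mul, zero_add, sub_zero]
      exact (hts _ _).nn) a' (by rw [ha']; simp) ha'n
  have e1 : (fun j => (Sum.elim (Sum.elim cl c) fun _ : Unit => cn)
      ((Equiv.sumAssoc (Option F) Y Unit).symm j)) = Sum.elim cl (Sum.elim c fun _ => cn) := by
    funext j
    rcases j with j | j | j <;> rfl
  have e2 : M.updateRow (Sum.inr (Sum.inr ())) (Sum.elim (fun o => o.elim a' fun _ => 0)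
      fun z => M (Sum.inr (Sum.inr ())) (Sum.inr z)) =
      hubM p' (Sum.elim s fun _ : Unit => s') (Sum.elim q fun _ => a') := by
    funext i j
    rcases i with a | y | u
    · rw [Matrix.updateRow_ne (by simp)]
      rcases j with b | z
      · exact m1 a b
      · exact m2 a z
    · rw [Matrix.updateRow_ne (by simp)]
      rcases j with (_ | b) | z | z
      · simp [hM, isoL, hubM]
      · simp [hM, isoL, hubM]
      · simp [hM, isoL, hubM]
      · simp [hM, isoL, hubM]
    · obtain rfl : u = () := rfl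
      rw [Matrix.updateRow_self]
      rcases j with (_ | b) | z | z
      · simp [hubM]
      · simp [hubM]
      · simp [hM, isoL, hubM]
      · simp [hM, isoL, hubM]
  rw [e1] at hR2
  have hR3 : ReachE S0 (Sum.elim cl (Sum.elim c fun _ => cn)) (Sum.inl none) r
      (hubM p' (Sum.elim s fun _ : Unit => s') (Sum.elim q fun _ => a')) := by
    rw [← e2]
    exact cast (by congr <;> exact Subsingleton.elim _ _) hR2
  have hts3 := hR3.ts hr0
  refine ⟨a', ⟨h.r_gt, h.r_le, hp't, ?_, ?_, ?_, ?_, ?_, h.cl_pos, hR3.q_le, ?_, hR3⟩⟩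
  · rintro (y | y)
    · exact h.s_ts y
    · exact hs
  · rintro (y | y)
    · exact h.s_ne y
    · exact hs0
  · rintro (y | y)
    · exact h.s_lt y
    · exact hs1
  · rintro (y | y)
    · exact h.q_ts y
    · exact hts3 (Sum.inr (Sum.inr y)) (Sum.inl none)
  · rintro (y | y)
    · exact h.c_pos y
    · exact hcn
  · intro j
    exact hR3.coeff_one (Sum.inl j)

/-- (H2) isolation at the hub `o` of a loop series of order `≥ 2` (`≥ 3` at the main hub): the new
loop vertex `inr ()` has the class `X • cl o` -/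
theorem HubOn.isolate (h : HubOn D S0 r cl p s c q) (hg : Good r (pFF p)) (o : Option F)
    (s' : PowerSeries ℤ) (hs : TS r s') (hs0 : s' ≠ 0) (hs1 : sn r s' < 1)
    (hle : HN.Nn (p o o - s')) (hord : PowerSeries.coeff 1 s' = 0)
    (hordx : o = none → PowerSeries.coeff 2 s' = 0)
    (hq : o = none → ∀ n, (qB.coeff n : ℤ) ≤ PowerSeries.coeff n (p none none - s')) :
    ∃ q' : PowerSeries ℤ, HubOn D S0 r cl (p.updateRow o (divRow p o s'))
      (Sum.elim s fun _ : Unit => s') (Sum.elim c fun _ => (X : ℤ[X]) • cl o)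
      (Sum.elim q fun _ => q') := by
  have hr0 := (HExp_r_pos h).le
  refine hiso_core h hg o s' (PowerSeries.X : PowerSeries ℤ) hs hs0 hs1 hle _ ?_ ?_
  · rw [D.tau_X]
    exact mul_pos (inv_pos.2 (lt_trans one_pos D.one_lt)) (h.cl_pos o)
  · refine h.reach.isolate hr0 (Sum.inl o) s' hs hs0 hs1 hle hord ?_ ?_
    · intro ho
      exact hordx (by simpa using ho)
    · intro ho
      exact hq (by simpa using ho)

/-- (H2) isolation at the hub `f` of a loop `X`: the new loop vertex has the class `cl f` -/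
theorem HubOn.isolate_one (h : HubOn D S0 r cl p s c q) (hg : Good r (pFF p)) (f : F)
    (hle : 1 ≤ PowerSeries.coeff 1 (p (some f) (some f))) :
    ∃ q' : PowerSeries ℤ, HubOn D S0 r cl
      (p.updateRow (some f) (divRow p (some f) (PowerSeries.X : PowerSeries ℤ)))
      (Sum.elim s fun _ : Unit => (PowerSeries.X : PowerSeries ℤ))
      (Sum.elim c fun _ => cl (some f)) (Sum.elim q fun _ => q') := by
  have hr0 := HExp_r_pos h
  have hr1 : r < 1 := lt_of_le_of_lt h.r_le D.rad_lt
  have hX : HN.toRS (PowerSeries.X : PowerSeries ℤ) = ((Polynomial.X : ℝ[X]) : PowerSeries ℝ) := by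
    unfold HN.toRS
    simp
  have hXn : HN.Nn (PowerSeries.X : PowerSeries ℤ) := fun d => by
    rw [PowerSeries.coeff_X]
    split_ifs <;> norm_num
  have hXt : TS r (PowerSeries.X : PowerSeries ℤ) := ⟨by simp, hXn, by
    unfold FN
    rw [hX]
    exact PF.hasN_poly r _⟩
  have hXs : sn r (PowerSeries.X : PowerSeries ℤ) < 1 := by
    unfold sn
    rw [hX, PF.nS_poly, Polynomial.support_X]
    simpa using hr1
  have hle' : HN.Nn (p (some f) (some f) - (PowerSeries.X : PowerSeries ℤ)) := by
    intro d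
    rw [map_sub, PowerSeries.coeff_X]
    split_ifs with hd
    · rw [hd]; linarith
    · rw [sub_zero]; exact (h.p_ts _ _).nn d
  refine hiso_core h hg (some f) _ 1 hXt PowerSeries.X_ne_zero hXs hle' _ (h.cl_pos _) ?_
  exact h.reach.isolate_one hr0.le hr1 (Sum.inl (some f)) (by simp) hle

/-- isolation at the main hub, the class is `X • cl none` -/
theorem Hub.div_x (h : Hub D S0 r cl ((X : ℤ[X]) • cl none) p L) (hg : Good r (pFF p))
    (s' : PowerSeries ℤ) (hs : TS r s') (hs0 : s' ≠ 0) (hs1 : sn r s' < 1)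
    (hord : ∀ d, d < 3 → PowerSeries.coeff d s' = 0)
    (hq : ∀ n, (qB.coeff n : ℤ) + PowerSeries.coeff n s' ≤ PowerSeries.coeff n (p none none)) :
    Hub D S0 r cl ((X : ℤ[X]) • cl none) (p.updateRow none (divRow p none s')) (s' ::ₘ L) := by
  obtain ⟨Y, i0, s, q, hL, h0⟩ := h
  have hq' : ∀ n, (qB.coeff n : ℤ) ≤ PowerSeries.coeff n (p none none - s') := fun n => by
    rw [map_sub]
    linarith [hq n]
  obtain ⟨q', h1⟩ := h0.isolate hg none s' hs hs0 hs1
    (fun n => le_trans (Int.natCast_nonneg _) (hq' n)) (hord 1 (by norm_num))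
    (fun _ => hord 2 (by norm_num)) (fun _ => hq')
  refine ⟨Y ⊕ Unit, inferInstance, Sum.elim s fun _ : Unit => s', Sum.elim q fun _ : Unit => q',
    ?_, ?_⟩
  · rw [← hL]
    have h2 : (Finset.univ : Finset (Y ⊕ Unit)) =
        Finset.univ.disjSum (Finset.univ : Finset Unit) := by
      ext z
      rcases z with z | z <;> simp
    rw [h2]
    simp only [Finset.val_disjSum, Multiset.disjSum, Multiset.map_add, Multiset.map_map]
    have h3 : (Finset.univ : Finset Unit).val = {()} := rfl
    rw [h3]
    simp only [Multiset.map_singleton, Function.comp_apply, Sum.elim_inr]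
    rw [add_comm, Multiset.singleton_add]
    rfl
  · convert h1 using 1
    funext z
    rcases z with z | z <;> rfl

end Pool.Agent.SSE
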