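import Pool.Agent.SSE.HMoveR
import Pool.Agent.SSE.HAsy

/-!
# SSE project, hub part, HKappa: one step of the class move (H3)
-/

set_option autoImplicit false

open scoped BigOperators
open Matrix Polynomial

namespace Pool.Agent.SSE

attribute [local instance] Classical.propDecidable

variable {K : Type} [AddCommGroup K] [Module ℤ[X] K] {δ : ℤ[X]} {D : PFM K δ} {qB : ℕ[X]}
  {S0 : PX K δ qB} {r : ℝ} {F : Type} [Fintype F] {cl : Option F → K} {cst : K}
  {p : Matrix (Option F) (Option F) (PowerSeries ℤ)} {L : Multiset (PowerSeries ℤ)}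
  {Y : Type} [Fintype Y] {s : Y → PowerSeries ℤ} {c : Y → K} {q : Y → PowerSeries ℤ}
  {φ : F → PowerSeries ℤ}

/-- a single term of the product is a lower bound -/
lemma kap_le_coeff_mul {f g : PowerSeries ℤ} (hf : HN.Nn f) (hg : HN.Nn g) {a n : ℕ} (ha : a ≤ n)
    (hga : 1 ≤ PowerSeries.coeff a g) :
    PowerSeries.coeff (n - a) f ≤ PowerSeries.coeff n (f * g) := by
  rw [PowerSeries.coeff_mul]
  have hmem : ((n - a, a) : ℕ × ℕ) ∈ Finset.HasAntidiagonal.antidiagonal n := by
    rw [Finset.HasAntidiagonal.mem_antidiagonal]; omega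
  have h1 := Finset.single_le_sum (s := Finset.HasAntidiagonal.antidiagonal n) (f := fun b : ℕ × ℕ =>
    PowerSeries.coeff b.1 f * PowerSeries.coeff b.2 g)
    (fun b _ => mul_nonneg (hf _) (hg _)) hmem
  refine le_trans ?_ h1
  show PowerSeries.coeff (n - a) f ≤ PowerSeries.coeff (n - a) f * PowerSeries.coeff a g
  nlinarith [hf (n - a)]

/-- the coefficients of `q u` are eventually at least half of the main term -/
lemma kap_eventually {lam r μ C1 v S : ℝ} (_hlam : 0 < lam) (hr : 0 < r) (hlr : 1 < lam * r)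
    (hμ : 0 < μ) (hv : 0 < v) {c : ℕ → ℤ}
    (h : ∀ d, |((c d : ℤ) : ℝ) - μ * v * lam ^ d| * r ^ d ≤ C1 * S) :
    ∃ d1, ∀ d, d1 ≤ d → μ / 2 * v * lam ^ d ≤ ((c d : ℤ) : ℝ) := by
  have ht := tendsto_pow_atTop_atTop_of_one_lt hlr
  obtain ⟨d1, hd1⟩ := (ht.eventually (Filter.eventually_ge_atTop (2 * (C1 * S) / (μ * v)))).exists_forall_of_atTop
  refine ⟨d1, fun d hd => ?_⟩
  have h1 := hd1 d hd
  rw [div_le_iff₀ (by positivity)] at h1
  have h2 := h d
  have hrd : 0 < r ^ d := by positivity
  have h3 : (μ * v * lam ^ d - ((c d : ℤ) : ℝ)) * r ^ d ≤ C1 * S := by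
    refine le_trans ?_ h2
    refine mul_le_mul_of_nonneg_right ?_ hrd.le
    rw [abs_sub_comm]
    exact le_abs_self _
  rw [mul_pow] at h1
  by_contra hcon
  push Not at hcon
  have h4 : (μ / 2 * v * lam ^ d) * r ^ d < (μ * v * lam ^ d - ((c d : ℤ) : ℝ)) * r ^ d := by
    refine mul_lt_mul_of_pos_right ?_ hrd
    linarith
  nlinarith

lemma kap_Hret_c0 (hp : ∀ i j, TS r (p i j)) : PowerSeries.coeff 0 (Hret p φ) = 0 := by
  unfold Hret
  rw [map_add, map_sum, (hp none none).c0, zero_add]
  refine Finset.sum_eq_zero fun f _ => ?_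
  rw [PowerSeries.coeff_zero_eq_constantCoeff_apply, map_mul,
    ← PowerSeries.coeff_zero_eq_constantCoeff_apply, (hp none (some f)).c0, zero_mul]

lemma kap_Hret_nn (hp : ∀ i j, TS r (p i j)) (hφt : ∀ f, TS r (φ f)) : HN.Nn (Hret p φ) :=
  (hp none none).nn.add (HN.nn_sum _ _ fun f _ => (hp none (some f)).nn.mul (hφt f).nn)

/-- the truncation of `q u` is the right expansion -/
lemma kap_N (hp : ∀ i j, TS r (p i j)) (hφt : ∀ f, TS r (φ f)) {u Q : PowerSeries ℤ}
    (hQ : HN.Nn Q) (hu : u * (1 - Hret p φ) = 1) (Lx : ℕ) (ζ : F → ℕ[X])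
    (hζ : ∀ f d, d < Lx → (ζ f).coeff d = 0)
    (hb : ∀ f, HN.Nn (ps (PowerSeries.trunc (Lx + 1) (Q * u)) * p none (some f) -
      ps (toZ (ζ f)))) :
    HN.Nn (Q - (∑ f, ps (toZ (ζ f)) * φ f) -
      ps (PowerSeries.trunc (Lx + 1) (Q * u)) * (1 - Hret p φ)) := by
  set W : PowerSeries ℤ := ps (PowerSeries.trunc (Lx + 1) (Q * u)) with hW
  have hWc : ∀ d, PowerSeries.coeff d W = if d < Lx + 1 then PowerSeries.coeff d (Q * u) else 0 := by
    intro d
    rw [hW, Polynomial.coeff_coe, PowerSeries.coeff_trunc]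
  intro d
  by_cases hd : d ≤ Lx
  · -- degree at most `Lx`: the coefficient is zero
    have h1 : PowerSeries.coeff d (∑ f, ps (toZ (ζ f)) * φ f) = 0 := by
      rw [map_sum]
      refine Finset.sum_eq_zero fun f _ => ?_
      rw [PowerSeries.coeff_mul]
      refine Finset.sum_eq_zero fun b hb' => ?_
      rw [Finset.HasAntidiagonal.mem_antidiagonal] at hb'
      rcases Nat.eq_zero_or_pos b.2 with h0 | h0
      · rw [h0, (hφt f).c0, mul_zero]
      · have : PowerSeries.coeff b.1 (ps (toZ (ζ f))) = 0 := by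
          rw [Polynomial.coeff_coe]
          have : (toZ (ζ f)).coeff b.1 = (((ζ f).coeff b.1 : ℕ) : ℤ) := by
            simp [toZ]
          rw [this, hζ f b.1 (by omega)]
          rfl
        rw [this, zero_mul]
    have h2 : PowerSeries.coeff d (W * (1 - Hret p φ)) = PowerSeries.coeff d Q := by
      have e : Q = (Q * u) * (1 - Hret p φ) := by rw [mul_assoc, hu, mul_one]
      conv_rhs => rw [e]
      rw [PowerSeries.coeff_mul, PowerSeries.coeff_mul]
      refine Finset.sum_congr rfl fun b hb' => ?_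
      rw [Finset.HasAntidiagonal.mem_antidiagonal] at hb'
      rw [hWc, if_pos (by omega)]
    rw [map_sub, map_sub, h1, h2]
    simp
  · -- degree larger than `Lx`
    have e : Q - (∑ f, ps (toZ (ζ f)) * φ f) - W * (1 - Hret p φ) =
        Q + W * p none none + (∑ f, (W * p none (some f) - ps (toZ (ζ f))) * φ f) - W := by
      unfold Hret
      simp only [sub_mul, Finset.sum_sub_distrib, mul_sub, mul_add, mul_one, Finset.mul_sum, mul_assoc]
      ring
    have hWn : HN.Nn W := by
      intro d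
      have hun : HN.Nn u := by
        have : u = HN.geo (Hret p φ) := by
          refine HN.cancel (kap_Hret_c0 (φ := φ) hp) ?_
          rw [HN.one_sub_mul_geo (kap_Hret_c0 hp), mul_comm, hu]
        rw [this]
        exact HN.nn_geo (kap_Hret_c0 hp) (kap_Hret_nn hp hφt)
      rw [hWc]
      split_ifs
      · exact hQ.mul hun d
      · exact le_refl _
    rw [e, map_sub, hWc, if_neg (by omega), sub_zero]
    refine ((hQ.add (hWn.mul (hp none none).nn)).add (HN.nn_sum _ _ fun f _ => ?_)) d
    exact (hb f).mul (hφt f).nn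

/-- one step: there is `κ > 0`, not depending on the loop vertices, such that a class `z` with
`0 < τ z ≤ κ * (value of q)` can be subtracted -/
theorem exists_kappa (h : HubOn D S0 r cl p s c q) (hg : Good r (pFF p)) {ι : Type} [Fintype ι]
    (e : ι → F) (he : Function.Injective e) (hv : Visib p e)
    (hrep : Rep D (fun i => cl (some (e i)))) :
    ∃ κ : ℝ, 0 < κ ∧ ∀ (c' : Y → K) (q' : Y → PowerSeries ℤ), HubOn D S0 r cl p s c' q' →
      ∀ (y : Y) (z : K), 0 < D.tau z → D.tau z ≤ κ * sv D.lam⁻¹ (q' y) →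
        D.tau z < D.tau (c' y) →
        ∃ q'' : PowerSeries ℤ, HubOn D S0 r cl p s (Function.update c' y (c' y - z))
          (Function.update q' y q'') := by
  have hlam : 0 < D.lam := by linarith [D.one_lt]
  have hr : 0 < r := by
    by_contra hh
    push Not at hh
    nlinarith [h.r_gt]
  obtain ⟨φ, hφ, hφt⟩ := exists_FP hr.le h.p_ts hg
  have hH0 : PowerSeries.coeff 0 (Hret p φ) = 0 := kap_Hret_c0 h.p_ts
  have hHn : HN.Nn (Hret p φ) := kap_Hret_nn h.p_ts hφt
  have hu : HN.geo (Hret p φ) * (1 - Hret p φ) = 1 := HN.geo_mul_one_sub hH0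
  have hun : HN.Nn (HN.geo (Hret p φ)) := HN.nn_geo hH0 hHn
  set u := HN.geo (Hret p φ) with hudef
  obtain ⟨μ, C1, hμ, hC1, has⟩ := h.asymp hg hφ hφt hu
  obtain ⟨C2, hC2, hrep⟩ := hrep
  choose a ha using hv
  set A := Finset.univ.sup a with hA
  have haA : ∀ i, a i ≤ A := fun i => Finset.le_sup (Finset.mem_univ i)
  refine ⟨μ / (2 * C2 * D.lam ^ A), by positivity, ?_⟩
  intro c' q' h' y z hz hzκ hzc
  set v := sv D.lam⁻¹ (q' y) with hvdef
  have hv : 0 < v := by
    have h1 : 0 < μ / (2 * C2 * D.lam ^ A) * v := lt_of_lt_of_le hz hzκ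
    exact (pos_iff_pos_of_mul_pos h1).1 (by positivity)
  have hQ : HN.Nn (q' y) := (h'.q_ts y).nn
  obtain ⟨d1, hd1⟩ := kap_eventually (c := fun d => PowerSeries.coeff d (q' y * u)) hlam hr h.r_gt
    hμ hv (fun d => has (q' y) (h'.q_ts y).fn d)
  obtain ⟨L0, hL0⟩ := hrep z hz
  set Lx := L0 + d1 + A + 1 with hLx
  obtain ⟨w, hw1, hwz, hwC⟩ := hL0 Lx (by omega)
  set ζ : F → ℕ[X] := fun f => ∑ i, if e i = f then C (w i) * X ^ Lx else 0 with hζ
  have hζc : ∀ f d, (ζ f).coeff d = ∑ i, if e i = f ∧ d = Lx then w i else 0 := by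
    intro f d
    rw [hζ]
    simp only [finsetSum_coeff]
    refine Finset.sum_congr rfl fun i _ => ?_
    by_cases h1 : e i = f
    · by_cases h2 : d = Lx
      · simp [h1, h2]
      · simp [h1, h2, coeff_X_pow]
    · simp [h1]
  have hζe : ∀ i, ζ (e i) = C (w i) * X ^ Lx := by
    intro i
    rw [hζ]
    simp only
    rw [Finset.sum_eq_single i]
    · simp
    · intro j _ hj
      rw [if_neg fun h => hj (he h)]
    · simp
  have hζn : ∀ f, f ∉ Set.range e → ζ f = 0 := by
    intro f hf
    rw [hζ]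
    simp only
    refine Finset.sum_eq_zero fun i _ => ?_
    rw [if_neg fun h => hf ⟨i, h⟩]
  have hζlt : ∀ f d, d < Lx → (ζ f).coeff d = 0 := by
    intro f d hd
    rw [hζc]
    refine Finset.sum_eq_zero fun i _ => ?_
    rw [if_neg fun h => absurd h.2 (by omega)]
  have hsum : ∑ f, toZ (ζ f) • cl (some f) = z := by
    rw [hwz]
    have e1 : ∀ f, toZ (ζ f) = ∑ i, if e i = f then toZ (C (w i) * X ^ Lx : ℕ[X]) else 0 := by
      intro f
      rw [hζ]
      simp only [toZ]
      rw [Polynomial.map_sum]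
      refine Finset.sum_congr rfl fun i _ => ?_
      split_ifs <;> simp
    simp only [e1, Finset.sum_smul]
    rw [Finset.sum_comm]
    refine Finset.sum_congr rfl fun i _ => ?_
    rw [Finset.sum_eq_single (e i)]
    · simp
    · intro f _ hf
      rw [if_neg (Ne.symm hf), zero_smul]
    · simp
  set W : PowerSeries ℤ := ps (PowerSeries.trunc (Lx + 1) (q' y * u)) with hW
  have hWc : ∀ d, PowerSeries.coeff d W =
      if d < Lx + 1 then PowerSeries.coeff d (q' y * u) else 0 := by
    intro d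
    rw [hW, Polynomial.coeff_coe, PowerSeries.coeff_trunc]
  have hWn : HN.Nn W := by
    intro d
    rw [hWc]
    split_ifs
    · exact hQ.mul hun d
    · exact le_refl _
  have hb : ∀ f, HN.Nn (W * p none (some f) - ps (toZ (ζ f))) := by
    intro f
    by_cases hf : f ∈ Set.range e
    · obtain ⟨i, rfl⟩ := hf
      intro d
      have hcz : PowerSeries.coeff d (ps (toZ (ζ (e i)))) = if d = Lx then (w i : ℤ) else 0 := by
        rw [Polynomial.coeff_coe]
        have e1 : (toZ (ζ (e i))).coeff d = (((ζ (e i)).coeff d : ℕ) : ℤ) := by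
          simp [toZ]
        rw [e1, hζe]
        by_cases hd : d = Lx
        · simp [hd]
        · simp [hd, coeff_X_pow]
      rw [map_sub, hcz]
      split_ifs with hd
      · subst hd
        have h1 := kap_le_coeff_mul hWn (h.p_ts none (some (e i))).nn (n := Lx)
          (by have := haA i; omega) (ha i)
        have h2 : ((w i : ℕ) : ℝ) ≤ ((PowerSeries.coeff (Lx - a i) (q' y * u) : ℤ) : ℝ) := by
          have h3 := hd1 (Lx - a i) (by have := haA i; omega)
          refine le_trans ?_ h3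
          refine (hwC i).trans ?_
          have h4 : C2 * D.tau z * D.lam ^ Lx ≤
              C2 * (μ / (2 * C2 * D.lam ^ A) * v) * D.lam ^ Lx := by
            refine mul_le_mul_of_nonneg_right ?_ (by positivity)
            exact mul_le_mul_of_nonneg_left hzκ hC2.le
          refine h4.trans ?_
          have h5 : D.lam ^ Lx = D.lam ^ A * D.lam ^ (Lx - A) := by
            rw [← pow_add]; congr 1; omega
          have h6 : C2 * (μ / (2 * C2 * D.lam ^ A) * v) * D.lam ^ Lx =
              μ / 2 * v * D.lam ^ (Lx - A) := by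
            rw [h5]
            field_simp
          rw [h6]
          refine mul_le_mul_of_nonneg_left ?_ (by positivity)
          exact pow_le_pow_right₀ D.one_lt.le (by have := haA i; omega)
        have h3 : (w i : ℤ) ≤ PowerSeries.coeff (Lx - a i) (q' y * u) := by exact_mod_cast h2
        have h4 : PowerSeries.coeff (Lx - a i) W = PowerSeries.coeff (Lx - a i) (q' y * u) := by
          rw [hWc, if_pos (by omega)]
        rw [h4] at h1
        linarith
      · rw [sub_zero]
        exact hWn.mul (h.p_ts none (some (e i))).nn d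
    · rw [hζn f hf]
      have : ps (toZ (0 : ℕ[X])) = 0 := by simp [toZ]
      rw [this, sub_zero]
      exact hWn.mul (h.p_ts none (some f)).nn
  have hN := kap_N (φ := φ) h.p_ts hφt hQ hu Lx ζ hζlt hb
  obtain ⟨q'', hq''⟩ := h'.move_raw hg hφ hφt y ζ (fun f => hζlt f 0 (by omega))
    (by rw [hsum, map_sub]; linarith) W hWn (by
      show PF.HasN r (HN.toRS (ps (PowerSeries.trunc (Lx + 1) (q' y * u))))
      have e1 : HN.toRS (ps (PowerSeries.trunc (Lx + 1) (q' y * u))) =
          (((PowerSeries.trunc (Lx + 1) (q' y * u)).map (Int.castRingHom ℝ) : ℝ[X]) :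
            PowerSeries ℝ) := by
        ext d
        rw [HN.coeff_toRS, Polynomial.coeff_coe, Polynomial.coeff_coe, Polynomial.coeff_map]
        rfl
      rw [e1]
      exact PF.hasN_poly _ _) hb hN
  refine ⟨q'', ?_⟩
  rw [hsum] at hq''
  exact hq''

end Pool.Agent.SSE
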