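import Pool.Agent.SSE.HKappa
import Pool.Agent.SSE.HIso

/-!
# SSE project, hub part, HMove: the class move (H3)
-/

set_option autoImplicit false

open scoped BigOperators
open Matrix Polynomial

namespace Pool.Agent.SSE

attribute [local instance] Classical.propDecidable

variable {K : Type} [AddCommGroup K] [Module ℤ[X] K] {δ : ℤ[X]} {D : PFM K δ} {qB : ℕ[X]}
  {S0 : PX K δ qB} {r : ℝ} {F : Type} [Fintype F] {cl : Option F → K} {cst : K}
  {p : Matrix (Option F) (Option F) (PowerSeries ℤ)} {L : Multiset (PowerSeries ℤ)}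
  {Y : Type} [Fintype Y] {s : Y → PowerSeries ℤ} {c : Y → K} {q : Y → PowerSeries ℤ}
  {φ : F → PowerSeries ℤ}

theorem HMove_lam_pos (D : PFM K δ) : 0 < D.lam := zero_lt_one.trans D.one_lt

theorem HMove_inv_lt (D : PFM K δ) : D.lam⁻¹ < 1 := inv_lt_one_of_one_lt₀ D.one_lt

theorem HMove_tau_pow (D : PFM K δ) (k : ℕ) (z : K) :
    D.tau ((X : ℤ[X]) ^ k • z) = (D.lam⁻¹) ^ k * D.tau z := by
  induction k with
  | zero => simp
  | succ k ih => rw [pow_succ', mul_smul, D.tau_X, ih, pow_succ']; ring

/-- the value of the loop of a loop vertex is smaller than one -/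
theorem HMove_sv_lt (h : HubOn D S0 r cl p s c q) (y : Y) : sv D.lam⁻¹ (s y) < 1 := by
  have hl := HMove_lam_pos D
  have h1 : D.lam⁻¹ ≤ r := by
    rw [inv_le_iff_one_le_mul₀' hl]
    exact h.r_gt.le
  have h2 : ‖(D.lam⁻¹ : ℝ)‖ ≤ r := by
    rw [Real.norm_of_nonneg (inv_nonneg.2 hl.le)]
    exact h1
  have h3 := PF.norm_ev_le (h.s_ts y).fn h2
  exact ((le_abs_self _).trans h3).trans_lt (h.s_lt y)

/-- (H3) class move -/
theorem HubOn.move (h : HubOn D S0 r cl p s c q) (hg : Good r (pFF p)) {ι : Type} [Fintype ι]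
    (e : ι → F) (he : Function.Injective e) (hv : Visib p e)
    (hrep : Rep D (fun i => cl (some (e i)))) (y : Y) (c' : K) (hc0 : 0 < D.tau c')
    (hc : D.tau c' < D.tau (c y)) :
    ∃ q' : PowerSeries ℤ, HubOn D S0 r cl p s (Function.update c y c') (Function.update q y q') := by
  obtain ⟨κ, hκ, hstep⟩ := exists_kappa h hg e he hv hrep
  set σ : ℝ := sv D.lam⁻¹ (s y) with hσ
  have hσ1 : σ < 1 := HMove_sv_lt h y
  have hξ : 0 < D.tau (cl none) := h.cl_pos none
  set κ' : ℝ := κ * ((1 - σ) * D.tau c' / D.tau (cl none)) with hκ'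
  have hκ'0 : 0 < κ' := by
    have : 0 < 1 - σ := by linarith
    positivity
  -- the value of `q` bounds the admissible steps
  have hval : ∀ (c1 : Y → K) (q1 : Y → PowerSeries ℤ), HubOn D S0 r cl p s c1 q1 →
      D.tau c' < D.tau (c1 y) → κ' ≤ κ * sv D.lam⁻¹ (q1 y) := by
    intro c1 q1 h1 hlt
    have h2 := h1.q_eq y
    have h3 : sv D.lam⁻¹ (q1 y) = (1 - σ) * D.tau (c1 y) / D.tau (cl none) := by
      rw [eq_div_iff hξ.ne']
      exact h2
    rw [hκ', h3]
    refine mul_le_mul_of_nonneg_left ?_ hκ.le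
    refine div_le_div_of_nonneg_right ?_ hξ.le
    exact mul_le_mul_of_nonneg_left hlt.le (by linarith)
  -- a small positive class
  obtain ⟨k, hk⟩ : ∃ k : ℕ, (D.lam⁻¹) ^ k * D.tau (cl none) < κ' := by
    have h0 : (0 : ℝ) ≤ D.lam⁻¹ := inv_nonneg.2 (HMove_lam_pos D).le
    obtain ⟨k, hk⟩ := exists_pow_lt_of_lt_one (div_pos hκ'0 hξ) (HMove_inv_lt D)
    exact ⟨k, (lt_div_iff₀ hξ).1 hk⟩
  set w : K := (X : ℤ[X]) ^ k • cl none with hw
  have hwτ : D.tau w = (D.lam⁻¹) ^ k * D.tau (cl none) := HMove_tau_pow D k _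
  have hw0 : 0 < D.tau w := by
    rw [hwτ]
    exact mul_pos (pow_pos (inv_pos.2 (HMove_lam_pos D)) k) hξ
  have hw1 : D.tau w < κ' := by
    rw [hwτ]
    exact hk
  -- induction on the number of steps
  have main : ∀ (n : ℕ) (c1 : K) (q1 : PowerSeries ℤ),
      HubOn D S0 r cl p s (Function.update c y c1) (Function.update q y q1) →
      D.tau c' < D.tau c1 → D.tau c1 - D.tau c' ≤ κ' + n * D.tau w →
      ∃ q' : PowerSeries ℤ,
        HubOn D S0 r cl p s (Function.update c y c') (Function.update q y q') := by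
    intro n
    induction n with
    | zero =>
      intro c1 q1 h1 hlt hle
      have h2 := hval _ _ h1 (by rwa [Function.update_self])
      obtain ⟨q'', h3⟩ := hstep _ _ h1 y (c1 - c') (by rw [map_sub]; linarith)
        (by
          rw [map_sub]
          refine le_trans ?_ h2
          simpa using hle)
        (by rw [Function.update_self, map_sub]; linarith)
      refine ⟨q'', ?_⟩
      rwa [Function.update_idem, Function.update_idem, Function.update_self,
        sub_sub_cancel] at h3
    | succ n ih =>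
      intro c1 q1 h1 hlt hle
      by_cases hsmall : D.tau c1 - D.tau c' ≤ κ'
      · have h2 := hval _ _ h1 (by rwa [Function.update_self])
        obtain ⟨q'', h3⟩ := hstep _ _ h1 y (c1 - c') (by rw [map_sub]; linarith)
          (by rw [map_sub]; exact hsmall.trans h2)
          (by rw [Function.update_self, map_sub]; linarith)
        refine ⟨q'', ?_⟩
        rwa [Function.update_idem, Function.update_idem, Function.update_self,
          sub_sub_cancel] at h3
      · have h2 := hval _ _ h1 (by rwa [Function.update_self])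
        rw [not_le] at hsmall
        obtain ⟨q'', h3⟩ := hstep _ _ h1 y w hw0 (hw1.le.trans h2)
          (by rw [Function.update_self]; linarith)
        rw [Function.update_idem, Function.update_idem, Function.update_self] at h3
        refine ih (c1 - w) q'' h3 (by rw [map_sub]; linarith) ?_
        rw [map_sub]
        push_cast at hle
        linarith
  obtain ⟨n, hn⟩ := exists_nat_gt ((D.tau (c y) - D.tau c') / D.tau w)
  refine main n (c y) (q y) ?_ hc ?_
  · rwa [Function.update_eq_self, Function.update_eq_self]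
  · have := (div_lt_iff₀ hw0).1 hn
    linarith

omit [Fintype F] in
theorem HMove_pFF {f : F} (N : Option F → PowerSeries ℤ) :
    pFF (p.updateRow (some f) N) = (pFF p).updateRow f (fun j => N (some j)) := by
  ext i j : 2
  unfold pFF
  by_cases hi : i = f
  · subst hi
    rw [submatrix_apply, updateRow_self, updateRow_self]
  · rw [submatrix_apply, updateRow_ne hi, updateRow_ne (fun h => hi (Option.some.inj h)),
      submatrix_apply]

/-- the last step of an isolation at a hub: the class of the new loop vertex becomes `cst` -/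
theorem HMove_finish {s' : PowerSeries ℤ} {c1 : K} {q1 : Y ⊕ Unit → PowerSeries ℤ}
    (hL : Finset.univ.val.map s = L)
    (h : HubOn D S0 r cl p (Sum.elim s fun _ : Unit => s')
      (Sum.elim (fun _ => cst) fun _ => c1) q1) (hg : Good r (pFF p))
    {ι : Type} [Fintype ι] (e : ι → F) (he : Function.Injective e) (hv : Visib p e)
    (hrep : Rep D (fun i => cl (some (e i)))) (hc0 : 0 < D.tau cst)
    (hc : D.tau cst < D.tau c1) : Hub D S0 r cl cst p (s' ::ₘ L) := by
  obtain ⟨q', h'⟩ := h.move hg e he hv hrep (Sum.inr ()) cst hc0 hc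
  have key : ∀ (inst : DecidableEq (Y ⊕ Unit)), @Function.update (Y ⊕ Unit) (fun _ => K) inst
      (Sum.elim (fun _ => cst) fun _ => c1) (Sum.inr ()) cst = fun _ => cst := by
    intro inst
    funext z
    rcases z with z | z
    · exact @Function.update_of_ne (Y ⊕ Unit) (fun _ => K) inst (Sum.inl z) (Sum.inr ())
        (by simp) cst (Sum.elim (fun _ => cst) fun _ => c1)
    · exact @Function.update_self (Y ⊕ Unit) (fun _ => K) inst (Sum.inr ()) cst
        (Sum.elim (fun _ => cst) fun _ => c1)
  rw [key] at h'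
  obtain ⟨q2, h5⟩ : ∃ q2 : Y ⊕ Unit → PowerSeries ℤ,
    HubOn D S0 r cl p (Sum.elim s fun _ : Unit => s') (fun _ => cst) q2 := ⟨_, h'⟩
  refine ⟨Y ⊕ Unit, inferInstance, Sum.elim s fun _ : Unit => s', q2, ?_, h5⟩
  have h1 : (Finset.univ : Finset Unit).val = {()} := rfl
  have h2 : Multiset.map ((Sum.elim s fun _ : Unit => s') ∘ Sum.inl) Finset.univ.val = L := hL
  rw [← Finset.univ_disjSum_univ, Finset.val_disjSum, Multiset.disjSum, Multiset.map_add,
    Multiset.map_map, Multiset.map_map, h2, h1, Multiset.map_singleton, add_comm,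
    Multiset.singleton_add]
  rfl

/-- isolation at the hub `f`, the class is moved to `cst` -/
theorem Hub.div_f (h : Hub D S0 r cl cst p L) (hg : Good r (pFF p)) {ι : Type} [Fintype ι]
    (e : ι → F) (he : Function.Injective e) (hv : Visib p e)
    (hrep : Rep D (fun i => cl (some (e i)))) (f : F) (hc0 : 0 < D.tau cst)
    (hc : D.tau cst < D.lam⁻¹ * D.tau (cl (some f))) (s' : PowerSeries ℤ) (hs : TS r s')
    (hs0 : s' ≠ 0) (hs1 : sn r s' < 1) (hle : HN.Nn (p (some f) (some f) - s'))
    (hord : PowerSeries.coeff 1 s' = 0 ∨ s' = (PowerSeries.X : PowerSeries ℤ)) :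
    Hub D S0 r cl cst (p.updateRow (some f) (divRow p (some f) s')) (s' ::ₘ L) := by
  obtain ⟨Y, hY, s, q, hL, h1⟩ := h
  have hr : 0 ≤ r := by
    have := h1.r_gt
    by_contra hneg
    rw [not_le] at hneg
    have h2 := mul_neg_of_pos_of_neg (HMove_lam_pos D) hneg
    linarith
  have hg' : Good r (pFF (p.updateRow (some f) (divRow p (some f) s'))) := by
    obtain ⟨g, θ, hgw⟩ := hg
    refine ⟨g, θ, ?_⟩
    have h2 := hgw.divide hr (fun i j => h1.p_ts (some i) (some j)) f s' hs hs1 hle
    rw [HMove_pFF]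
    have h3 : (fun j => divRow p (some f) s' (some j)) =
        fun j => HN.geo s' * (pFF p f j - if j = f then s' else 0) := by
      funext j
      simp only [divRow, pFF, submatrix_apply, Option.some.injEq]
    rw [h3]
    exact h2
  have hv' : Visib (p.updateRow (some f) (divRow p (some f) s')) e := by
    intro i
    obtain ⟨a, ha⟩ := hv i
    refine ⟨a, ?_⟩
    rwa [updateRow_ne (by simp)]
  rcases hord with hord | hord
  · obtain ⟨q', h2⟩ := h1.isolate hg (some f) s' hs hs0 hs1 hle hord (by simp) (by simp)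
    exact HMove_finish hL h2 hg' e he hv' hrep hc0 (by rw [D.tau_X]; exact hc)
  · subst hord
    have hle1 : 1 ≤ PowerSeries.coeff 1 (p (some f) (some f)) := by
      have := hle 1
      rw [map_sub, PowerSeries.coeff_one_X] at this
      linarith
    obtain ⟨q', h2⟩ := h1.isolate_one hg f hle1
    refine HMove_finish hL h2 hg' e he hv' hrep hc0 (hc.trans ?_)
    have h3 := h1.cl_pos (some f)
    have h4 := mul_lt_mul_of_pos_right (HMove_inv_lt D) h3
    rwa [one_mul] at h4

end Pool.Agent.SSE
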