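import Pool.Agent.SSE.HExp
import Pool.Agent.SSE.HTau

/-!
# SSE project, hub part, HMoveR: the moves of (H3) in the limit
-/

set_option autoImplicit false

open scoped BigOperators
open Matrix Polynomial

namespace Pool.Agent.SSE

attribute [local instance] Classical.propDecidable

variable {K : Type} [AddCommGroup K] [Module ℤ[X] K] {δ : ℤ[X]} {D : PFM K δ} {qB : ℕ[X]}
  {S0 : PX K δ qB} {r : ℝ} {F : Type} [Fintype F] {cl : Option F → K} {cst : K}
  {p : Matrix (Option F) (Option F) (PowerSeries ℤ)} {L : Multiset (PowerSeries ℤ)}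
  {Y : Type} [Fintype Y] {s : Y → PowerSeries ℤ} {c : Y → K} {q : Y → PowerSeries ℤ}
  {φ : F → PowerSeries ℤ}

/-- the row `v` times the resolvent -/
private lemma hmr_res {G M : Matrix F F (PowerSeries ℤ)} (hG : G * (1 - M) = 1)
    (v : F → PowerSeries ℤ) (k : F) :
    (v ᵥ* G) k - ∑ j, (v ᵥ* G) j * M j k = v k := by
  have h1 : (v ᵥ* G) ᵥ* (1 - M) = v := by
    rw [Matrix.vecMul_vecMul, hG, Matrix.vecMul_one]
  rw [Matrix.vecMul_sub, Matrix.vecMul_one] at h1
  exact congrFun h1 k

private lemma hmr_dot {G M : Matrix F F (PowerSeries ℤ)} (hG : G * (1 - M) = 1)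
    (v b φ : F → PowerSeries ℤ) (hφ : ∀ f, φ f = b f + ∑ k, M f k * φ k) :
    ∑ k, (v ᵥ* G) k * b k = ∑ k, v k * φ k := by
  have h1 : (v ᵥ* G) ᵥ* (1 - M) = v := by
    rw [Matrix.vecMul_vecMul, hG, Matrix.vecMul_one]
  have h2 : (1 - M) *ᵥ φ = b := by
    rw [Matrix.sub_mulVec, Matrix.one_mulVec]
    funext f
    rw [Pi.sub_apply, hφ f]
    simp only [Matrix.mulVec, dotProduct]
    ring
  calc ∑ k, (v ᵥ* G) k * b k = (v ᵥ* G) ⬝ᵥ b := rfl
    _ = (v ᵥ* G) ⬝ᵥ ((1 - M) *ᵥ φ) := by rw [h2]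
    _ = ((v ᵥ* G) ᵥ* (1 - M)) ⬝ᵥ φ := by rw [Matrix.dotProduct_mulVec]
    _ = v ⬝ᵥ φ := by rw [h1]
    _ = ∑ k, v k * φ k := rfl

/-- expansion of the row of a loop vertex with the rows of the hubs: the row `(a, v)` becomes
`(a - W0 (1 - H) + (v - v') φ, v')` -/
theorem ReachE.rowpush (hr : 0 ≤ r) {P : Matrix (Option F ⊕ Y) (Option F ⊕ Y) (PowerSeries ℤ)}
    {g : Option F ⊕ Y → K} (h : ReachE S0 g (Sum.inl none) r P)
    (hP : ∀ a b, P (Sum.inl a) (Sum.inl b) = p a b) (hP0 : ∀ a z, P (Sum.inl a) (Sum.inr z) = 0)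
    (hg : Good r (pFF p)) (hφ : FP p φ) (y : Y) (W0 : PowerSeries ℤ) (hW0 : HN.Nn W0)
    (hW0f : FN r W0) (v' : F → PowerSeries ℤ) (hv' : ∀ f, HN.Nn (v' f)) (hv'f : ∀ f, FN r (v' f))
    (hb : ∀ f, HN.Nn (W0 * p none (some f) + P (Sum.inr y) (Sum.inl (some f)) - v' f))
    (a' : PowerSeries ℤ) (ha : a' = P (Sum.inr y) (Sum.inl none) - W0 * (1 - Hret p φ) +
      ∑ f, (P (Sum.inr y) (Sum.inl (some f)) - v' f) * φ f) (ha' : HN.Nn a') :
    ReachE S0 g (Sum.inl none) r (P.updateRow (Sum.inr y)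
      (Sum.elim (fun o => o.elim a' v') fun z => P (Sum.inr y) (Sum.inr z))) := by
  classical
  have hts := h.ts hr
  have hM : ∀ i j, TS r (pFF p i j) := by
    intro i j
    have := hts (Sum.inl (some i)) (Sum.inl (some j))
    rwa [hP] at this
  obtain ⟨G, hGn, hG1, -⟩ := hg.resolvent hr hM
  set u : F → PowerSeries ℤ := fun f =>
    W0 * p none (some f) + P (Sum.inr y) (Sum.inl (some f)) - v' f with hu
  have huf : ∀ f, FN r (u f) := by
    intro f
    have h1 : FN r (p none (some f)) := by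
      have := (hts (Sum.inl none) (Sum.inl (some f))).fn
      rwa [hP] at this
    have h2 : FN r (P (Sum.inr y) (Sum.inl (some f))) := (hts _ _).fn
    show PF.HasN r (HN.toRS (W0 * p none (some f) + P (Sum.inr y) (Sum.inl (some f)) - v' f))
    rw [map_sub, map_add, map_mul]
    exact PF.HasN.sub hr (PF.HasN.add hr (PF.HasN.mul hr hW0f h1) h2) (hv'f f)
  have hwn : ∀ k, HN.Nn ((u ᵥ* G) k) := by
    intro k
    exact HN.nn_sum _ _ fun l _ => (hb l).mul (hGn l k).1
  have hwf : ∀ k, FN r ((u ᵥ* G) k) := by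
    intro k
    show PF.HasN r (HN.toRS (∑ l, u l * G l k))
    rw [map_sum]
    refine PF.hasN_sum hr _ _ fun l _ => ?_
    rw [map_mul]
    exact PF.HasN.mul hr (huf l) (hGn l k).2
  set W : Option F ⊕ Y → PowerSeries ℤ :=
    Sum.elim (fun o => o.elim W0 (u ᵥ* G)) (fun _ => 0) with hW
  have key : ∀ j, (Sum.elim (fun o : Option F => o.elim a' v')
      fun z => P (Sum.inr y) (Sum.inr z)) j = P (Sum.inr y) j - W j + ∑ k, W k * P k j := by
    intro j
    have hsum : ∑ k, W k * P k j = W0 * P (Sum.inl none) j +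
        ∑ k, (u ᵥ* G) k * P (Sum.inl (some k)) j := by
      rw [Fintype.sum_sum_type, Fintype.sum_option]
      simp [hW]
    rw [hsum]
    rcases j with o | z
    · rcases o with _ | f
      · simp only [hW, Sum.elim_inl, Option.elim_none, hP]
        have hd : ∑ k, (u ᵥ* G) k * p (some k) none = ∑ k, u k * φ k :=
          hmr_dot hG1 u (fun k => p (some k) none) φ (fun f => hφ f)
        rw [hd, ha, Hret]
        have : ∑ k, u k * φ k = W0 * ∑ f, p none (some f) * φ f +
            ∑ f, (P (Sum.inr y) (Sum.inl (some f)) - v' f) * φ f := by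
          rw [Finset.mul_sum, ← Finset.sum_add_distrib]
          refine Finset.sum_congr rfl fun k _ => ?_
          simp only [hu]
          ring
        rw [this]
        ring
      · simp only [hW, Sum.elim_inl, Option.elim_some, hP]
        have h1 := hmr_res hG1 u f
        have h2 : ∑ j, (u ᵥ* G) j * pFF p j f = ∑ k, (u ᵥ* G) k * p (some k) (some f) := rfl
        rw [h2] at h1
        have h3 : u f = W0 * p none (some f) + P (Sum.inr y) (Sum.inl (some f)) - v' f := rfl
        rw [h3] at h1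
        linear_combination h1
    · simp [hW, hP0]
  have hWn : ∀ k, HN.Nn (W k) := by
    rintro (o | z)
    · rcases o with _ | f
      · exact hW0
      · exact hwn f
    · exact HN.nn_zero
  have hWf : ∀ k, FN r (W k) := by
    rintro (o | z)
    · rcases o with _ | f
      · exact hW0f
      · exact hwf f
    · show PF.HasN r (HN.toRS 0)
      rw [map_zero]
      exact PF.hasN_zero r
  have hNn : ∀ j, HN.Nn ((Sum.elim (fun o : Option F => o.elim a' v')
      fun z => P (Sum.inr y) (Sum.inr z)) j) := by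
    rintro (o | z)
    · rcases o with _ | f
      · exact ha'
      · exact hv' f
    · exact (hts _ _).nn
  have hfin := h.expand hr (Sum.inr y) W _ hWn hWf rfl key hNn
    (fun hc => absurd hc (by simp)) (fun hc => absurd hc (by simp))
  exact cast (by congr <;> exact Subsingleton.elim _ _) hfin

/-- the moves in the limit: `ζ` on the hubs `e i`, `W_x` with (a), (b), `N` as in the text;
`W_F := (W_x p_xF - ζ) (1 - p_FF)⁻¹`. The class of `y` changes by `∑ ζ_i • cl (e i)`. -/
theorem HubOn.move_raw (h : HubOn D S0 r cl p s c q) (hg : Good r (pFF p)) (hφ : FP p φ)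
    (hφt : ∀ f, TS r (φ f)) (y : Y) (ζ : F → ℕ[X]) (hζ0 : ∀ f, (ζ f).coeff 0 = 0)
    (hpos : 0 < D.tau (c y - ∑ f, toZ (ζ f) • cl (some f)))
    (Wx : PowerSeries ℤ) (hWx : HN.Nn Wx) (hWxf : FN r Wx)
    (hb : ∀ f, HN.Nn (Wx * p none (some f) - ps (toZ (ζ f))))
    (hN : HN.Nn (q y - (∑ f, ps (toZ (ζ f)) * φ f) - Wx * (1 - Hret p φ))) :
    ∃ q' : PowerSeries ℤ, HubOn D S0 r cl p s
      (Function.update c y (c y - ∑ f, toZ (ζ f) • cl (some f))) (Function.update q y q') := by
  classical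
  have hr : 0 ≤ r := by
    by_contra hneg
    have h1 := h.r_gt
    have h2 := D.one_lt
    nlinarith
  have hnnz : ∀ f, HN.Nn (ps (toZ (ζ f))) := by
    intro f d
    rw [coeff_ps, coeff_toZ]
    exact Int.natCast_nonneg _
  have hfnz : ∀ f, FN r (ps (toZ (ζ f))) := by
    intro f
    have h1 : HN.toRS (ps (toZ (ζ f))) =
        (((toZ (ζ f)).map (Int.castRingHom ℝ) : ℝ[X]) : PowerSeries ℝ) := by
      ext n
      rw [HN.coeff_toRS, coeff_ps, Polynomial.coeff_coe]
      exact (Polynomial.coeff_map (p := toZ (ζ f)) (Int.castRingHom ℝ) n).symm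
    show PF.HasN r (HN.toRS (ps (toZ (ζ f))))
    rw [h1]
    exact PF.hasN_poly r _
  set q1 : PowerSeries ℤ := q y - (∑ f, ps (toZ (ζ f)) * φ f) - Wx * (1 - Hret p φ) with hq1
  -- step 1
  have h1 := h.reach.rowpush (p := p) (φ := φ) hr (fun a b => rfl) (fun a z => rfl) hg hφ y Wx hWx
    hWxf (fun f => ps (toZ (ζ f))) hnnz hfnz (by
      intro f
      have : Wx * p none (some f) + hubM p s q (Sum.inr y) (Sum.inl (some f)) -
          ps (toZ (ζ f)) = Wx * p none (some f) - ps (toZ (ζ f)) := by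
        simp [hubM]
      rw [this]
      exact hb f) q1 (by
      simp only [hubM, hq1, zero_sub, neg_mul, Finset.sum_neg_distrib]
      ring) hN
  -- step 2
  set P0 := hubM p s q with hP0
  set N1 : Option F ⊕ Y → PowerSeries ℤ := Sum.elim
    (fun o => o.elim q1 fun f => ps (toZ (ζ f))) fun z => P0 (Sum.inr y) (Sum.inr z) with hN1
  set P1 := P0.updateRow (Sum.inr y) N1 with hP1
  have hP1l : ∀ a j, P1 (Sum.inl a) j = P0 (Sum.inl a) j := by
    intro a j
    rw [hP1, Matrix.updateRow_ne (by simp)]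
  have hP1y : ∀ j, P1 (Sum.inr y) j = N1 j := by
    intro j
    rw [hP1, Matrix.updateRow_self]
  have hP1z : ∀ z, z ≠ y → ∀ j, P1 (Sum.inr z) j = P0 (Sum.inr z) j := by
    intro z hz j
    rw [hP1, Matrix.updateRow_ne (by simpa using hz)]
  have hP0yy : P0 (Sum.inr y) (Sum.inr y) = s y := by simp [hP0, hubM]
  set ζ' : Option F ⊕ Y → ℕ[X] := Sum.elim (fun o => o.elim 0 ζ) fun _ => 0 with hζ'
  have hts1 := h1.ts hr
  have h2 := h1.class_move hr (Sum.inr y) (by simp) (by
      rintro (a | z) hne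
      · rw [hP1l]
        simp [hP0, hubM]
      · have hz : z ≠ y := by
          rintro rfl
          exact hne rfl
        rw [hP1z z hz]
        simp [hP0, hubM, hz]) ζ' (by
      rintro (o | z)
      · rcases o with _ | f
        · simp [hζ']
        · simpa [hζ'] using hζ0 f
      · simp [hζ']) (by simp [hζ']) (by
      rintro (o | z) n
      · rcases o with _ | f
        · simpa [hζ'] using (hts1 (Sum.inr y) (Sum.inl none)).nn n
        · rw [hP1y]
          simp [hζ', hN1]
      · simpa [hζ'] using (hts1 (Sum.inr y) (Sum.inr z)).nn n)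
  have hcls : ∑ j, toZ (ζ' j) • (Sum.elim cl c) j = ∑ f, toZ (ζ f) • cl (some f) := by
    rw [Fintype.sum_sum_type, Fintype.sum_option]
    simp [hζ', toZ]
  rw [hcls] at h2
  set c' := Function.update c y (c y - ∑ f, toZ (ζ f) • cl (some f)) with hc'
  have hcl : (Function.update (Sum.elim cl c) (Sum.inr y)
      ((Sum.elim cl c) (Sum.inr y) - ∑ f, toZ (ζ f) • cl (some f)) : Option F ⊕ Y → K) =
      Sum.elim cl c' := by
    funext j
    rcases j with o | z
    · simp
    · by_cases hz : z = y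
      · subst hz
        simp [hc']
      · simp [hc', hz]
  obtain ⟨P2, h2', hP2l, hP2z, hP2y⟩ : ∃ P2 : Matrix (Option F ⊕ Y) (Option F ⊕ Y) (PowerSeries ℤ),
      ReachE S0 (Sum.elim cl c') (Sum.inl none) r P2 ∧
      (∀ a j, P2 (Sum.inl a) j = P0 (Sum.inl a) j) ∧
      (∀ z, z ≠ y → ∀ j, P2 (Sum.inr z) j = P0 (Sum.inr z) j) ∧
      (∀ j, P2 (Sum.inr y) j = N1 j - ps (toZ (ζ' j)) + s y * ps (toZ (ζ' j))) := by
    refine ⟨P1.updateRow (Sum.inr y) (fun j => P1 (Sum.inr y) j - ps (toZ (ζ' j)) +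
      P1 (Sum.inr y) (Sum.inr y) * ps (toZ (ζ' j))), ?_, ?_, ?_, ?_⟩
    · rw [← hcl]
      exact cast (by congr <;> exact Subsingleton.elim _ _) h2
    · intro a j
      rw [Matrix.updateRow_ne (by simp), hP1l]
    · intro z hz j
      rw [Matrix.updateRow_ne (by simpa using hz), hP1z z hz]
    · intro j
      rw [Matrix.updateRow_self, hP1y, hP1y]
      simp [hN1, hP0yy]
  -- step 3
  set q' : PowerSeries ℤ := q1 + ∑ f, s y * ps (toZ (ζ f)) * φ f with hq'
  have hP2f : ∀ f, P2 (Sum.inr y) (Sum.inl (some f)) = s y * ps (toZ (ζ f)) := by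
    intro f
    rw [hP2y]
    simp [hN1, hζ']
  have hP2n : P2 (Sum.inr y) (Sum.inl none) = q1 := by
    rw [hP2y]
    simp [hN1, hζ', toZ]
  have hnnq' : HN.Nn q' := hN.add (HN.nn_sum _ _ fun f _ =>
    ((h.s_ts y).nn.mul (hnnz f)).mul (hφt f).nn)
  have h3 := h2'.rowpush (p := p) (φ := φ) hr (fun a b => by rw [hP2l]; rfl)
    (fun a z => by rw [hP2l]; rfl) hg hφ y 0 HN.nn_zero (by
      show PF.HasN r (HN.toRS 0)
      rw [map_zero]
      exact PF.hasN_zero r) (fun _ => 0) (fun _ => HN.nn_zero) (fun _ => by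
      show PF.HasN r (HN.toRS 0)
      rw [map_zero]
      exact PF.hasN_zero r) (by
      intro f
      rw [hP2f]
      simpa using (h.s_ts y).nn.mul (hnnz f)) q' (by
      simp only [hP2f, hP2n, hq']
      simp) hnnq'
  have hmat : P2.updateRow (Sum.inr y) (Sum.elim (fun o => o.elim q' fun _ => 0)
      fun z => P2 (Sum.inr y) (Sum.inr z)) = hubM p s (Function.update q y q') := by
    funext i j
    rcases i with a | z
    · rw [Matrix.updateRow_ne (by simp), hP2l]
      rcases j with b | w <;> simp [hP0, hubM]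
    · by_cases hz : z = y
      · subst hz
        rw [Matrix.updateRow_self]
        rcases j with b | w
        · rcases b with _ | f <;> simp [hubM]
        · rw [Sum.elim_inr, hP2y]
          simp [hN1, hζ', hP0, hubM, toZ]
      · rw [Matrix.updateRow_ne (by simpa using hz), hP2z z hz]
        rcases j with b | w
        · rcases b with _ | f <;> simp [hP0, hubM, hz]
        · simp [hP0, hubM]
  rw [hmat] at h3
  refine ⟨q', ?_⟩
  have hts3 := h3.ts hr
  refine { h with
    q_ts := ?_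
    c_pos := ?_
    reach := h3 }
  · intro z
    have := hts3 (Sum.inr z) (Sum.inl none)
    simpa [hubM] using this
  · intro z
    by_cases hz : z = y
    · subst hz
      simpa [hc'] using hpos
    · simpa [hc', hz] using h.c_pos z

end Pool.Agent.SSE
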