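import Pool.Agent.SSE.HN1

/-!
# SSE project (`MP_c782ad_an`), hub part, (5.4): growth of `1/(1-s)`
-/

set_option autoImplicit false
set_option linter.unusedSectionVars false

open scoped BigOperators
open PowerSeries

namespace Pool.Agent.SSE.HN

open Pool.Agent.SSE.PF

/-- the coefficients of `1/(1-s)` at degrees `i b + j (b+1)` are positive -/
lemma geo_pos_aux {s : ℤ⟦X⟧} (h0 : coeff 0 s = 0) (hs : Nn s) {b : ℕ} (hb : 1 ≤ b)
    (h1 : 1 ≤ coeff b s) (h2 : 1 ≤ coeff (b + 1) s) :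
    ∀ i j : ℕ, 1 ≤ coeff (i * b + j * (b + 1)) (geo s) := by
  have hg := nn_geo h0 hs
  have step : ∀ d k, 1 ≤ k → k ≤ d → 1 ≤ coeff k s → 1 ≤ coeff (d - k) (geo s) → 1 ≤ coeff d (geo s) := by
    intro d k hk hkd hsk hgk
    rw [geo_eq h0, map_add, coeff_mul_succ h0]
    have h3 : coeff (k - 1 + 1) s * coeff (d - 1 - (k - 1)) (geo s) ≤
        ∑ l ∈ Finset.range d, coeff (l + 1) s * coeff (d - 1 - l) (geo s) :=
      Finset.single_le_sum (f := fun l => coeff (l + 1) s * coeff (d - 1 - l) (geo s))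
        (fun l _ => mul_nonneg (hs _) (hg _)) (Finset.mem_range.2 (by omega))
    rw [show k - 1 + 1 = k by omega, show d - 1 - (k - 1) = d - k by omega] at h3
    have h4 : 0 ≤ coeff d (1 : ℤ⟦X⟧) := nn_one d
    nlinarith
  intro i
  induction i with
  | zero =>
    intro j
    induction j with
    | zero => simp [coeff_zero_geo h0]
    | succ j ih =>
      refine step _ (b + 1) (by omega) (by rw [Nat.succ_mul]; omega) h2 ?_
      convert ih using 3
      rw [Nat.succ_mul]
      omega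
  | succ i ih =>
    intro j
    refine step _ b hb (by rw [Nat.succ_mul]; omega) h1 ?_
    convert ih j using 3
    rw [Nat.succ_mul]
    omega

lemma geo_pos {s : ℤ⟦X⟧} (h0 : coeff 0 s = 0) (hs : Nn s) {b : ℕ} (hb : 1 ≤ b)
    (h1 : 1 ≤ coeff b s) (h2 : 1 ≤ coeff (b + 1) s) {d : ℕ} (hd : b * b ≤ d) : 1 ≤ coeff d (geo s) := by
  have hq : b ≤ d / b := (Nat.le_div_iff_mul_le (by omega)).2 hd
  have hr : d % b < b := Nat.mod_lt _ (by omega)
  have h3 := geo_pos_aux h0 hs hb h1 h2 (d / b - d % b) (d % b)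
  have h4 : (d / b - d % b) * b + d % b * (b + 1) = d := by
    have h5 := Nat.div_add_mod d b
    have h6 : (d / b - d % b) * b + (d % b) * b = (d / b) * b := by
      rw [← Nat.add_mul]
      congr 1
      omega
    have h7 : b * (d / b) = (d / b) * b := mul_comm _ _
    have h8 : d % b * (b + 1) = d % b * b + d % b := by ring
    omega
  rwa [h4] at h3

/-- (5.4): lower bound for the growth of `1/(1-s)`, `s` a polynomial -/
theorem growth {s : ℤ⟦X⟧} (h0 : coeff 0 s = 0) (hs : Nn s) {b N : ℕ} (hb : 1 ≤ b)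
    (h1 : 1 ≤ coeff b s) (h2 : 1 ≤ coeff (b + 1) s) (hN : ∀ d, N < d → coeff d s = 0) {ρ : ℝ} (hρ : 0 < ρ)
    (hev : 1 ≤ ∑ k ∈ Finset.range N, ((coeff (k + 1) s : ℤ) : ℝ) * ρ ^ (k + 1)) :
    ∃ κ : ℝ, 0 < κ ∧ ∀ d, b * b ≤ d → κ ≤ ((coeff d (geo s) : ℤ) : ℝ) * ρ ^ d := by
  have hg := nn_geo h0 hs
  set v : ℕ → ℝ := fun d => ((coeff d (geo s) : ℤ) : ℝ) * ρ ^ d with hv
  have hvpos : ∀ d, b * b ≤ d → 0 < v d := fun d hd =>
    mul_pos (by exact_mod_cast (geo_pos h0 hs hb h1 h2 hd)) (pow_pos hρ d)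
  obtain ⟨d1, hd1, hmin⟩ := Finset.exists_min_image (Finset.Icc (b * b) (b * b + N)) v
    ⟨b * b, Finset.mem_Icc.2 ⟨le_rfl, by omega⟩⟩
  refine ⟨v d1, hvpos d1 (Finset.mem_Icc.1 hd1).1, ?_⟩
  intro d
  induction d using Nat.strong_induction_on with
  | _ d ih =>
    intro hd
    change v d1 ≤ v d
    rcases le_or_gt d (b * b + N) with hdN | hdN
    · exact hmin d (Finset.mem_Icc.2 ⟨hd, hdN⟩)
    · have h3 : coeff d (geo s) = ∑ k ∈ Finset.range N, coeff (k + 1) s * coeff (d - 1 - k) (geo s) := by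
        rw [geo_eq h0, map_add, coeff_mul_succ h0, coeff_one, if_neg (by omega), zero_add]
        rw [← geo_eq h0]
        symm
        refine Finset.sum_subset (fun k hk => ?_) (fun k _ hk => ?_)
        · rw [Finset.mem_range] at hk ⊢
          omega
        · rw [Finset.mem_range] at hk
          rw [hN _ (by omega), zero_mul]
      have h4 : v d = ∑ k ∈ Finset.range N, ((coeff (k + 1) s : ℤ) : ℝ) * ρ ^ (k + 1) * v (d - 1 - k) := by
        simp only [hv]
        rw [h3]
        push_cast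
        rw [Finset.sum_mul]
        refine Finset.sum_congr rfl fun k hk => ?_
        rw [Finset.mem_range] at hk
        have h5 : ρ ^ d = ρ ^ (k + 1) * ρ ^ (d - 1 - k) := by
          rw [← pow_add]
          congr 1
          omega
        rw [h5]
        ring
      rw [h4]
      have hd1p : 0 ≤ v d1 := (hvpos d1 (Finset.mem_Icc.1 hd1).1).le
      calc v d1 = 1 * v d1 := (one_mul _).symm
        _ ≤ (∑ k ∈ Finset.range N, ((coeff (k + 1) s : ℤ) : ℝ) * ρ ^ (k + 1)) * v d1 :=
            mul_le_mul_of_nonneg_right hev hd1p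
        _ = ∑ k ∈ Finset.range N, ((coeff (k + 1) s : ℤ) : ℝ) * ρ ^ (k + 1) * v d1 := by rw [Finset.sum_mul]
        _ ≤ _ := by
            refine Finset.sum_le_sum fun k hk => ?_
            rw [Finset.mem_range] at hk
            refine mul_le_mul_of_nonneg_left (ih _ (by omega) (by omega)) ?_
            exact mul_nonneg (by exact_mod_cast hs _) (pow_nonneg hρ.le _)

end Pool.Agent.SSE.HN
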