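import Pool.Agent.SSE.HN2

/-!
# SSE project (`MP_c782ad_an`), hub part, (5.1) low loops and (5.3) equalisation

`sqf h m p P`: divide `h` by `X^(q+1)`, `m (q+1)` times, for `q = p, …, P-1`.
-/

set_option autoImplicit false
set_option linter.unusedSectionVars false

open scoped BigOperators
open PowerSeries

namespace Pool.Agent.SSE.HN

open Pool.Agent.SSE.PF

lemma coeff_zero_X_pow {p : ℕ} (hp : 1 ≤ p) : coeff 0 (X ^ p : ℤ⟦X⟧) = 0 := by
  rw [coeff_X_pow, if_neg (by omega)]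

lemma coeff_X_pow_lt {p d : ℕ} (hd : d < p) : coeff d (X ^ p : ℤ⟦X⟧) = 0 := by
  rw [coeff_X_pow, if_neg (by omega)]

/-- dividing `h` by `X^p`, `k` times -/
noncomputable def dvi (h : ℤ⟦X⟧) (p k : ℕ) : ℤ⟦X⟧ := 1 - (1 - h) * geo (X ^ p) ^ k

@[simp] lemma dvi_zero (h : ℤ⟦X⟧) (p : ℕ) : dvi h p 0 = h := by
  unfold dvi; rw [pow_zero]; ring

lemma one_sub_dvi (h : ℤ⟦X⟧) (p k : ℕ) : 1 - dvi h p k = (1 - h) * geo (X ^ p) ^ k := by
  unfold dvi; ring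

lemma dvi_succ (h : ℤ⟦X⟧) {p : ℕ} (hp : 1 ≤ p) (k : ℕ) : dvi h p (k + 1) = dv (dvi h p k) (X ^ p) := by
  have h1 := one_sub_dv (h := dvi h p k) (coeff_zero_X_pow hp)
  have h2 := one_sub_dvi h p k
  have h3 := one_sub_dvi h p (k + 1)
  rw [pow_succ] at h3
  linear_combination h1 - h3 + geo (X ^ p) * h2

lemma one_sub_dvi_mul (h : ℤ⟦X⟧) {p : ℕ} (hp : 1 ≤ p) (k : ℕ) : (1 - dvi h p k) * (1 - X ^ p) ^ k = 1 - h := by
  rw [one_sub_dvi, mul_assoc, ← mul_pow, geo_mul_one_sub (coeff_zero_X_pow hp), one_pow, mul_one]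

lemma nn_sub_X_pow {h : ℤ⟦X⟧} (hh : Nn h) {p : ℕ} (h1 : 1 ≤ coeff p h) : Nn (h - X ^ p) := by
  intro d
  rw [map_sub, coeff_X_pow]
  split_ifs with hd
  · rw [hd]; linarith
  · rw [sub_zero]; exact hh d

/-- the facts about `k` divisions by `X^p` -/
structure DviF (h : ℤ⟦X⟧) (p k : ℕ) : Prop where
  nn : Nn (dvi h p k)
  c0 : coeff 0 (dvi h p k) = 0
  lt : ∀ d < p, coeff d (dvi h p k) = coeff d h
  eq : coeff p (dvi h p k) = coeff p h - k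
  ge : ∀ d, d ≠ p → coeff d h ≤ coeff d (dvi h p k)

lemma dvi_facts {h : ℤ⟦X⟧} (hh : Nn h) (h0 : coeff 0 h = 0) {p : ℕ} (hp : 1 ≤ p) :
    ∀ k : ℕ, (k : ℤ) ≤ coeff p h → DviF h p k := by
  intro k
  induction k with
  | zero =>
    intro _
    refine ⟨by rwa [dvi_zero], by rwa [dvi_zero], fun d _ => by rw [dvi_zero], by simp, fun d _ => by rw [dvi_zero]⟩
  | succ k ih =>
    intro hk
    push_cast at hk
    obtain ⟨i1, i2, i3, i4, i5⟩ := ih (by linarith)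
    have h1 : Nn (dvi h p k - X ^ p) := nn_sub_X_pow i1 (by rw [i4]; linarith)
    have h2 := coeff_dv_of_lt (h := dvi h p k) (s := X ^ p) i2 hp (fun d hd => coeff_X_pow_lt hd)
    have h3 := dv_ge (coeff_zero_X_pow hp) (nn_X_pow p) h1
    refine ⟨?_, ?_, ?_, ?_, ?_⟩
    · rw [dvi_succ h hp]
      exact nn_dv (coeff_zero_X_pow hp) (nn_X_pow p) h1
    · rw [dvi_succ h hp]
      exact coeff_zero_dv (coeff_zero_X_pow hp) i2
    · intro d hd
      rw [dvi_succ h hp, h2.1 d hd, i3 d hd]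
    · rw [dvi_succ h hp, h2.2, i4, coeff_X_pow_self]
      push_cast
      ring
    · intro d hd
      have h4 := h3 d
      rw [map_sub, map_sub, coeff_X_pow, if_neg hd, sub_zero] at h4
      rw [dvi_succ h hp]
      exact (i5 d hd).trans (by linarith)

/-- the intermediate divisions by `X^p` are legitimate -/
lemma dvi_legit {h : ℤ⟦X⟧} (hh : Nn h) (h0 : coeff 0 h = 0) {p : ℕ} (hp : 1 ≤ p) {k j : ℕ}
    (hk : (k : ℤ) ≤ coeff p h) (hj : j < k) : Nn (dvi h p j - X ^ p) := by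
  have hjk : (j : ℤ) + 1 ≤ k := by exact_mod_cast hj
  obtain ⟨i1, -, -, i4, -⟩ := dvi_facts hh h0 hp j (by linarith)
  exact nn_sub_X_pow i1 (by rw [i4]; linarith)

/-- divide `h` by `X^(q+1)`, `m (q+1)` times, for `q = p, …, P-1` -/
noncomputable def sqf (h : ℤ⟦X⟧) (m : ℕ → ℕ) (p P : ℕ) : ℤ⟦X⟧ :=
  1 - (1 - h) * ∏ q ∈ Finset.Ico p P, geo (X ^ (q + 1)) ^ m (q + 1)

lemma one_sub_sqf (h : ℤ⟦X⟧) (m : ℕ → ℕ) (p P : ℕ) :
    1 - sqf h m p P = (1 - h) * ∏ q ∈ Finset.Ico p P, geo (X ^ (q + 1)) ^ m (q + 1) := by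
  unfold sqf; ring

@[simp] lemma sqf_self (h : ℤ⟦X⟧) (m : ℕ → ℕ) (p : ℕ) : sqf h m p p = h := by
  unfold sqf; rw [Finset.Ico_self, Finset.prod_empty]; ring

lemma sqf_succ (h : ℤ⟦X⟧) (m : ℕ → ℕ) {p P : ℕ} (hP : p ≤ P) :
    sqf h m p (P + 1) = dvi (sqf h m p P) (P + 1) (m (P + 1)) := by
  unfold sqf dvi
  rw [Finset.prod_Ico_succ_top hP]
  ring

/-- `∏ (1 - X^(q+1))^m(q+1)`, `q = p, …, P-1` -/
noncomputable def Pr (m : ℕ → ℕ) (p P : ℕ) : ℤ⟦X⟧ := ∏ q ∈ Finset.Ico p P, (1 - X ^ (q + 1)) ^ m (q + 1)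

lemma Pr_self (m : ℕ → ℕ) (p : ℕ) : Pr m p p = 1 := by
  unfold Pr; rw [Finset.Ico_self, Finset.prod_empty]

lemma Pr_succ_top (m : ℕ → ℕ) {p P : ℕ} (hP : p ≤ P) : Pr m p (P + 1) = Pr m p P * (1 - X ^ (P + 1)) ^ m (P + 1) := by
  unfold Pr; rw [Finset.prod_Ico_succ_top hP]

lemma Pr_succ_bot (m : ℕ → ℕ) {p P : ℕ} (hP : p < P) : Pr m p P = (1 - X ^ (p + 1)) ^ m (p + 1) * Pr m (p + 1) P := by
  unfold Pr; rw [Finset.prod_eq_prod_Ico_succ_bot hP]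

lemma Pr_mul (m : ℕ → ℕ) {p Q P : ℕ} (h1 : p ≤ Q) (h2 : Q ≤ P) : Pr m p Q * Pr m Q P = Pr m p P := by
  unfold Pr; rw [Finset.prod_Ico_consecutive _ h1 h2]

lemma Pr_add (m m' : ℕ → ℕ) (p P : ℕ) : Pr (fun q => m q + m' q) p P = Pr m p P * Pr m' p P := by
  unfold Pr
  rw [← Finset.prod_mul_distrib]
  refine Finset.prod_congr rfl fun q _ => ?_
  rw [pow_add]

lemma one_sub_sqf_mul (h : ℤ⟦X⟧) (m : ℕ → ℕ) (p P : ℕ) : (1 - sqf h m p P) * Pr m p P = 1 - h := by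
  rw [one_sub_sqf, mul_assoc]
  unfold Pr
  rw [← Finset.prod_mul_distrib, Finset.prod_eq_one, mul_one]
  intro q _
  rw [← mul_pow, geo_mul_one_sub (coeff_zero_X_pow (by omega)), one_pow]

/-- the facts about a sequence of divisions -/
structure SqF (h : ℤ⟦X⟧) (m : ℕ → ℕ) (p P : ℕ) : Prop where
  nn : Nn (sqf h m p P)
  c0 : coeff 0 (sqf h m p P) = 0
  low : ∀ d ≤ p, coeff d (sqf h m p P) = coeff d h
  mid : ∀ q, p ≤ q → q < P → coeff (q + 1) (sqf h m p P) = coeff (q + 1) (sqf h m p q) - m (q + 1)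
  high : ∀ d, P < d → coeff d h ≤ coeff d (sqf h m p P)

lemma sqf_facts {h : ℤ⟦X⟧} (hh : Nn h) (h0 : coeff 0 h = 0) {m : ℕ → ℕ} {p P : ℕ} (hP : p ≤ P)
    (hm : ∀ q, p ≤ q → q < P → (m (q + 1) : ℤ) ≤ coeff (q + 1) (sqf h m p q)) : SqF h m p P := by
  induction P, hP using Nat.le_induction with
  | base =>
    refine ⟨by rwa [sqf_self], by rwa [sqf_self], fun d _ => by rw [sqf_self], fun q h1 h2 => by omega,
      fun d _ => by rw [sqf_self]⟩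
  | succ P hP ih =>
    obtain ⟨i1, i2, i3, i4, i5⟩ := ih fun q h1 h2 => hm q h1 (by omega)
    obtain ⟨j1, j2, j3, j4, j5⟩ := dvi_facts i1 i2 (p := P + 1) (by omega) (m (P + 1)) (hm P hP (by omega))
    refine ⟨?_, ?_, ?_, ?_, ?_⟩
    · rwa [sqf_succ h m hP]
    · rwa [sqf_succ h m hP]
    · intro d hd
      rw [sqf_succ h m hP, j3 d (by omega), i3 d hd]
    · intro q h1 h2
      rcases (Nat.lt_succ_iff_lt_or_eq.1 h2) with h3 | h3
      · rw [sqf_succ h m hP, j3 _ (by omega), i4 q h1 h3]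
      · subst h3
        rw [sqf_succ h m hP, j4]
    · intro d hd
      rw [sqf_succ h m hP]
      exact (i5 d (by omega)).trans (j5 d (by omega))

/-! ### low loops -/

/-- successive series of (5.1) -/
noncomputable def lowS (c : ℤ⟦X⟧) : ℕ → ℤ⟦X⟧
  | 0 => c
  | P + 1 => dvi (lowS c P) (P + 1) (coeff (P + 1) (lowS c P)).toNat

/-- the numbers of loops `X^p` in (5.1) -/
noncomputable def lm (c : ℤ⟦X⟧) (p : ℕ) : ℕ := (coeff p (lowS c (p - 1))).toNat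

lemma lowS_eq (c : ℤ⟦X⟧) (P : ℕ) : lowS c P = sqf c (lm c) 0 P := by
  induction P with
  | zero => simp [lowS]
  | succ P ih =>
    rw [sqf_succ c (lm c) (Nat.zero_le P), ← ih]
    rfl

lemma low_aux {c : ℤ⟦X⟧} (hc : Nn c) (h0 : coeff 0 c = 0) (P : ℕ) :
    Nn (lowS c P) ∧ (∀ d ≤ P, coeff d (lowS c P) = 0) ∧ (lm c (P + 1) : ℤ) = coeff (P + 1) (lowS c P) := by
  induction P with
  | zero =>
    refine ⟨hc, fun d hd => ?_, ?_⟩
    · rw [Nat.le_zero.1 hd]; exact h0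
    · exact Int.toNat_of_nonneg (hc _)
  | succ P ih =>
    obtain ⟨i1, i2, i3⟩ := ih
    obtain ⟨j1, j2, j3, j4, j5⟩ := dvi_facts i1 (i2 0 (by omega)) (p := P + 1) (by omega) (lm c (P + 1)) i3.le
    have h1 : lowS c (P + 1) = dvi (lowS c P) (P + 1) (lm c (P + 1)) := rfl
    have h2 : Nn (lowS c (P + 1)) := by rwa [h1]
    refine ⟨h2, fun d hd => ?_, Int.toNat_of_nonneg (h2 _)⟩
    rcases Nat.lt_or_ge d (P + 1) with h3 | h3
    · rw [h1, j3 d h3, i2 d (by omega)]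
    · have h4 : d = P + 1 := by omega
      rw [h4, h1, j4, i3, sub_self]

/-- the facts of (5.1) -/
lemma low_facts {c : ℤ⟦X⟧} (hc : Nn c) (h0 : coeff 0 c = 0) (P : ℕ) :
    Nn (lowS c P) ∧ (∀ d ≤ P, coeff d (lowS c P) = 0) ∧ (lm c (P + 1) : ℤ) = coeff (P + 1) (lowS c P) ∧
      SqF c (lm c) 0 P := by
  obtain ⟨h1, h2, h3⟩ := low_aux hc h0 P
  refine ⟨h1, h2, h3, sqf_facts hc h0 (Nat.zero_le P) fun q _ _ => ?_⟩
  rw [← lowS_eq]
  exact (low_aux hc h0 q).2.2.le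

/-- (5.1): the product formula -/
lemma low_prod (c : ℤ⟦X⟧) (P : ℕ) : (1 - lowS c P) * Pr (lm c) 0 P = 1 - c := by
  rw [lowS_eq]; exact one_sub_sqf_mul c (lm c) 0 P

/-! ### congruences -/

/-- `f ≡ g mod X^(P+1)` -/
def Cg (P : ℕ) (f g : ℤ⟦X⟧) : Prop := ∀ d ≤ P, coeff d f = coeff d g

lemma Cg.refl {P : ℕ} (f : ℤ⟦X⟧) : Cg P f f := fun _ _ => rfl

lemma Cg.symm {P : ℕ} {f g : ℤ⟦X⟧} (h : Cg P f g) : Cg P g f := fun d hd => (h d hd).symm

lemma Cg.trans {P : ℕ} {f g h : ℤ⟦X⟧} (h1 : Cg P f g) (h2 : Cg P g h) : Cg P f h := fun d hd =>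
  (h1 d hd).trans (h2 d hd)

lemma Cg.mono {P Q : ℕ} {f g : ℤ⟦X⟧} (hPQ : P ≤ Q) (h : Cg Q f g) : Cg P f g := fun d hd => h d (hd.trans hPQ)

lemma Cg.mul {P : ℕ} {f f' g g' : ℤ⟦X⟧} (h1 : Cg P f f') (h2 : Cg P g g') : Cg P (f * g) (f' * g') := by
  intro d hd
  rw [coeff_mul, coeff_mul]
  refine Finset.sum_congr rfl fun p hp => ?_
  have := Finset.HasAntidiagonal.mem_antidiagonal.1 hp
  rw [h1 p.1 (by omega), h2 p.2 (by omega)]

lemma Cg.add {P : ℕ} {f f' g g' : ℤ⟦X⟧} (h1 : Cg P f f') (h2 : Cg P g g') : Cg P (f + g) (f' + g') := by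
  intro d hd
  rw [map_add, map_add, h1 d hd, h2 d hd]

lemma Cg.sub {P : ℕ} {f f' g g' : ℤ⟦X⟧} (h1 : Cg P f f') (h2 : Cg P g g') : Cg P (f - g) (f' - g') := by
  intro d hd
  rw [map_sub, map_sub, h1 d hd, h2 d hd]

lemma Cg.prod {P : ℕ} {α : Type*} (s : Finset α) {F G : α → ℤ⟦X⟧} (h : ∀ a ∈ s, Cg P (F a) (G a)) :
    Cg P (∏ a ∈ s, F a) (∏ a ∈ s, G a) := by
  classical
  induction s using Finset.induction_on with
  | empty => simpa using Cg.refl _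
  | insert a s ha ih =>
    rw [Finset.prod_insert ha, Finset.prod_insert ha]
    exact (h a (Finset.mem_insert_self a s)).mul (ih fun b hb => h b (Finset.mem_insert_of_mem hb))

lemma Cg.pow {P : ℕ} {f g : ℤ⟦X⟧} (h : Cg P f g) (k : ℕ) : Cg P (f ^ k) (g ^ k) := by
  induction k with
  | zero => simpa using Cg.refl _
  | succ k ih => rw [pow_succ, pow_succ]; exact ih.mul h

/-- cancel a factor with constant term `1` -/
lemma Cg.cancel {P : ℕ} {f g u : ℤ⟦X⟧} (hu : coeff 0 u = 1) (h : Cg P (f * u) (g * u)) : Cg P f g := by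
  have h0 : coeff 0 (1 - u) = 0 := by rw [map_sub, hu]; simp
  have h1 : u * geo (1 - u) = 1 := by
    have := one_sub_mul_geo h0
    rwa [sub_sub_cancel] at this
  have h2 := h.mul (Cg.refl (P := P) (geo (1 - u)))
  rwa [mul_assoc, mul_assoc, h1, mul_one, mul_one] at h2

lemma cg_one_sub_X_pow {P q : ℕ} (hq : P < q) (k : ℕ) : Cg P ((1 - X ^ q : ℤ⟦X⟧) ^ k) 1 := by
  have h1 : Cg P (1 - X ^ q : ℤ⟦X⟧) 1 := by
    intro d hd
    rw [map_sub, coeff_X_pow, if_neg (by omega), sub_zero]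
  have := h1.pow k
  rwa [one_pow] at this

lemma cg_Pr (m : ℕ → ℕ) {p Q P : ℕ} (hp : P ≤ p) : Cg P (Pr m p Q) 1 := by
  have h1 : (1 : ℤ⟦X⟧) = ∏ q ∈ Finset.Ico p Q, 1 := by simp
  rw [h1]
  unfold Pr
  refine Cg.prod _ fun q hq => ?_
  have := Finset.mem_Ico.1 hq
  exact cg_one_sub_X_pow (by omega) _

lemma coeff_zero_Pr (m : ℕ → ℕ) (p Q : ℕ) : coeff 0 (Pr m p Q) = 1 := by
  rw [cg_Pr m (P := 0) (Nat.zero_le p) 0 le_rfl]
  simp

lemma coeff_one_sub_X_pow_pow {p : ℕ} (hp : 1 ≤ p) (k : ℕ) :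
    (∀ d < p, coeff d ((1 - X ^ p : ℤ⟦X⟧) ^ k) = coeff d 1) ∧ coeff p ((1 - X ^ p : ℤ⟦X⟧) ^ k) = -(k : ℤ) := by
  refine ⟨fun d hd => cg_one_sub_X_pow hd k d le_rfl, ?_⟩
  have h1 := one_sub_dvi_mul (0 : ℤ⟦X⟧) hp k
  have h2 := one_sub_dvi (0 : ℤ⟦X⟧) p k
  clear h1 h2
  induction k with
  | zero => simp [coeff_one, show p ≠ 0 by omega]
  | succ k ih =>
    rw [pow_succ, mul_sub, mul_one, map_sub, ih, coeff_mul_X_pow', if_pos le_rfl, Nat.sub_self,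
      cg_one_sub_X_pow (P := 0) (by omega) k 0 le_rfl]
    simp
    ring

/-- one step of (5.3): coefficient `p` of the product formula -/
lemma eq_step {p : ℕ} (hp : 1 ≤ p) {a b : ℤ⟦X⟧} (kA kB : ℕ) (ha0 : coeff 0 a = 0) (hb0 : coeff 0 b = 0)
    (h : Cg p ((1 - a) * (1 - X ^ p) ^ kA) ((1 - b) * (1 - X ^ p) ^ kB)) :
    coeff p a + kA = coeff p b + kB := by
  have key : ∀ (f : ℤ⟦X⟧) (k : ℕ), coeff 0 f = 0 →
      coeff p ((1 - f) * (1 - X ^ p : ℤ⟦X⟧) ^ k) = - (coeff p f + k) := by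
    intro f k hf
    rw [sub_mul, one_mul, map_sub, (coeff_one_sub_X_pow_pow hp k).2, coeff_mul_succ hf]
    have h1 : ∑ l ∈ Finset.range p, coeff (l + 1) f * coeff (p - 1 - l) ((1 - X ^ p : ℤ⟦X⟧) ^ k) = coeff p f := by
      rw [Finset.sum_eq_single (p - 1)]
      · rw [show p - 1 + 1 = p by omega, show p - 1 - (p - 1) = 0 by omega,
          (coeff_one_sub_X_pow_pow hp k).1 0 (by omega)]
        simp
      · intro l hl hl2
        rw [Finset.mem_range] at hl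
        rw [(coeff_one_sub_X_pow_pow hp k).1 _ (by omega), coeff_one, if_neg (by omega), mul_zero]
      · intro h2
        rw [Finset.mem_range] at h2
        omega
    rw [h1]
    ring
  have h1 := h p le_rfl
  rw [key a kA ha0, key b kB hb0] at h1
  linarith

end Pool.Agent.SSE.HN
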