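import Pool.Agent.SSE.HN3

/-!
# SSE project (`MP_c782ad_an`), hub part, (5.3) equalisation phase; values of the products
-/

set_option autoImplicit false
set_option linter.unusedSectionVars false

open scoped BigOperators
open PowerSeries

namespace Pool.Agent.SSE.HN

open Pool.Agent.SSE.PF

/-- one phase of (5.3): the degrees `p+1, …, P` -/
theorem eq_phase {p P : ℕ} {a b U CA CB δ : ℤ⟦X⟧} {n nA nB dA dB : ℕ → ℕ}
    (hdA : ∀ q, dA q + nA q = n q) (hdB : ∀ q, dB q + nB q = n q) (hn : ∀ q, n q = nA q ∨ n q = nB q)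
    (hA : (1 - a) * U * Pr nA p P * CA = δ) (hB : (1 - b) * U * Pr nB p P * CB = δ)
    (hCA : Cg P CA 1) (hCB : Cg P CB 1) (hU : coeff 0 U = 1) (hab : Cg p a b)
    (ha : Nn a) (hb : Nn b) (ha0 : coeff 0 a = 0) (hb0 : coeff 0 b = 0) :
    ∀ j, p ≤ j → j ≤ P →
      (∀ q, p ≤ q → q < j → (dA (q + 1) : ℤ) ≤ coeff (q + 1) (sqf a dA p q)) ∧
      (∀ q, p ≤ q → q < j → (dB (q + 1) : ℤ) ≤ coeff (q + 1) (sqf b dB p q)) ∧
      Cg j (sqf a dA p j) (sqf b dB p j) := by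
  intro j hpj
  induction j, hpj using Nat.le_induction with
  | base =>
    intro _
    refine ⟨fun q h1 h2 => by omega, fun q h1 h2 => by omega, ?_⟩
    rwa [sqf_self, sqf_self]
  | succ j hpj ih =>
    intro hjP
    obtain ⟨i1, i2, i3⟩ := ih (by omega)
    have fA := sqf_facts ha ha0 hpj i1
    have fB := sqf_facts hb hb0 hpj i2
    have hnA : (fun q => dA q + nA q) = n := funext hdA
    have hnB : (fun q => dB q + nB q) = n := funext hdB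
    have key : ∀ (f : ℤ⟦X⟧) (d m : ℕ → ℕ) (C : ℤ⟦X⟧), (fun q => d q + m q) = n → Cg P C 1 →
        (1 - f) * U * Pr m p P * C = δ →
        Cg (j + 1) δ ((1 - sqf f d p j) * (1 - X ^ (j + 1)) ^ m (j + 1) * (U * Pr n p j)) := by
      intro f d m C hdm hC hf
      have h1 : δ = (1 - sqf f d p j) * (1 - X ^ (j + 1)) ^ m (j + 1) * (U * Pr n p j) *
          (Pr m (j + 1) P * C) := by
        rw [← hf, ← one_sub_sqf_mul f d p j, ← Pr_mul m hpj (by omega : j ≤ P), ← hdm, Pr_add,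
          Pr_succ_bot m (by omega : j < P)]
        ring
      have h2 : Cg (j + 1) (Pr m (j + 1) P * C) 1 := by
        have := (cg_Pr m (le_refl (j + 1)) (Q := P)).mul (hC.mono (by omega : j + 1 ≤ P))
        rwa [one_mul] at this
      have h3 := (Cg.refl (P := j + 1) ((1 - sqf f d p j) * (1 - X ^ (j + 1)) ^ m (j + 1) * (U * Pr n p j))).mul h2
      rw [mul_one] at h3
      rw [h1]
      exact h3
    have kA := key a dA nA CA hnA hCA hA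
    have kB := key b dB nB CB hnB hCB hB
    have hU' : coeff 0 (U * Pr n p j) = 1 := by
      rw [coeff_mul, Finset.Nat.antidiagonal_zero, Finset.sum_singleton, hU, coeff_zero_Pr, mul_one]
    have h4 := Cg.cancel hU' (kA.symm.trans kB)
    have h5 := eq_step (by omega : 1 ≤ j + 1) (nA (j + 1)) (nB (j + 1)) fA.c0 fB.c0 h4
    have hA1 := fA.nn (j + 1)
    have hB1 := fB.nn (j + 1)
    have eA := hdA (j + 1)
    have eB := hdB (j + 1)
    have legA : (dA (j + 1) : ℤ) ≤ coeff (j + 1) (sqf a dA p j) := by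
      rcases hn (j + 1) with h | h <;> omega
    have legB : (dB (j + 1) : ℤ) ≤ coeff (j + 1) (sqf b dB p j) := by
      rcases hn (j + 1) with h | h <;> omega
    refine ⟨?_, ?_, ?_⟩
    · intro q h1 h2
      rcases Nat.lt_succ_iff_lt_or_eq.1 h2 with h3 | h3
      · exact i1 q h1 h3
      · subst h3; exact legA
    · intro q h1 h2
      rcases Nat.lt_succ_iff_lt_or_eq.1 h2 with h3 | h3
      · exact i2 q h1 h3
      · subst h3; exact legB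
    · have gA := dvi_facts fA.nn fA.c0 (by omega : 1 ≤ j + 1) _ legA
      have gB := dvi_facts fB.nn fB.c0 (by omega : 1 ≤ j + 1) _ legB
      intro d hd
      rw [sqf_succ a dA hpj, sqf_succ b dB hpj]
      rcases Nat.lt_or_ge d (j + 1) with h6 | h6
      · rw [gA.lt d h6, gB.lt d h6]
        exact i3 d (by omega)
      · have h7 : d = j + 1 := by omega
        rw [h7, gA.eq, gB.eq]
        omega

/-! ### values -/

/-- the value of a series at `ρ` -/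
noncomputable def val (ρ : ℝ) (f : ℤ⟦X⟧) : ℝ := ev ρ (toRS f)

/-- finite norm at `ρ` -/
def Fin' (ρ : ℝ) (f : ℤ⟦X⟧) : Prop := HasN ρ (toRS f)

section values
variable {ρ : ℝ} {f g h s : ℤ⟦X⟧}

lemma Fin'.mul (hρ : 0 ≤ ρ) (hf : Fin' ρ f) (hg : Fin' ρ g) : Fin' ρ (f * g) := by
  unfold Fin' at *; rw [map_mul]; exact HasN.mul hρ hf hg

lemma Fin'.add (hρ : 0 ≤ ρ) (hf : Fin' ρ f) (hg : Fin' ρ g) : Fin' ρ (f + g) := by
  unfold Fin' at *; rw [map_add]; exact HasN.add hρ hf hg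

lemma Fin'.sub (hρ : 0 ≤ ρ) (hf : Fin' ρ f) (hg : Fin' ρ g) : Fin' ρ (f - g) := by
  unfold Fin' at *; rw [map_sub]; exact HasN.sub hρ hf hg

lemma fin_one : Fin' ρ 1 := by
  unfold Fin'; rw [map_one]; exact hasN_one ρ

lemma Fin'.pow (hρ : 0 ≤ ρ) (hf : Fin' ρ f) (k : ℕ) : Fin' ρ (f ^ k) := by
  unfold Fin' at *; rw [map_pow]; exact HasN.pow hρ hf k

lemma toRS_X_pow (p : ℕ) : toRS (X ^ p) = X ^ p := by
  rw [map_pow]
  congr 1
  ext d
  rw [coeff_toRS, coeff_X, coeff_X]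
  split_ifs <;> simp

lemma fin_X_pow (p : ℕ) : Fin' ρ (X ^ p) := by
  unfold Fin'
  rw [toRS_X_pow]
  have h1 : (X ^ p : ℝ⟦X⟧) = ((Polynomial.X ^ p : Polynomial ℝ) : ℝ⟦X⟧) := by
    rw [Polynomial.coe_pow, Polynomial.coe_X]
  rw [h1]
  exact hasN_poly ρ _

lemma val_X_pow (p : ℕ) : val ρ (X ^ p) = ρ ^ p := by
  unfold val
  rw [toRS_X_pow]
  have h1 : (X ^ p : ℝ⟦X⟧) = ((Polynomial.X ^ p : Polynomial ℝ) : ℝ⟦X⟧) := by
    rw [Polynomial.coe_pow, Polynomial.coe_X]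
  rw [h1, ev_poly]
  simp

lemma val_one : val ρ 1 = 1 := by
  unfold val; rw [map_one, ev_one]

lemma val_add (hρ : 0 ≤ ρ) (hf : Fin' ρ f) (hg : Fin' ρ g) : val ρ (f + g) = val ρ f + val ρ g := by
  unfold val; rw [map_add]; exact ev_add hf hg (by rw [Real.norm_of_nonneg hρ])

lemma val_sub (hρ : 0 ≤ ρ) (hf : Fin' ρ f) (hg : Fin' ρ g) : val ρ (f - g) = val ρ f - val ρ g := by
  unfold val; rw [map_sub]; exact ev_sub hf hg (by rw [Real.norm_of_nonneg hρ])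

lemma val_mul (hρ : 0 ≤ ρ) (hf : Fin' ρ f) (hg : Fin' ρ g) : val ρ (f * g) = val ρ f * val ρ g := by
  unfold val; rw [map_mul]; exact ev_mul hf hg (by rw [Real.norm_of_nonneg hρ])

lemma val_pow (hρ : 0 ≤ ρ) (hf : Fin' ρ f) (k : ℕ) : val ρ (f ^ k) = val ρ f ^ k := by
  induction k with
  | zero => rw [pow_zero, pow_zero, val_one]
  | succ k ih => rw [pow_succ, pow_succ, val_mul hρ (hf.pow hρ k) hf, ih]

lemma nS_eq_val (hρ : 0 ≤ ρ) (hf : Nn f) : nS ρ (toRS f) = val ρ f := nS_eq_ev hρ hf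

lemma val_nonneg (hρ : 0 ≤ ρ) (hf : Nn f) : 0 ≤ val ρ f := by
  rw [← nS_eq_val hρ hf]; exact nS_nonneg hρ _

lemma val_le_val (hρ : 0 ≤ ρ) (hf : Nn f) (hfg : Nn (g - f)) (hg : Fin' ρ g) : val ρ f ≤ val ρ g := by
  have hgn : Nn g := by
    have := hfg.add hf
    rwa [sub_add_cancel] at this
  rw [← nS_eq_val hρ hf, ← nS_eq_val hρ hgn]
  exact (hasN_of_le' hρ hf hfg hg).2

lemma Fin'.mono {ρ' : ℝ} (h0 : 0 ≤ ρ') (h1 : ρ' ≤ ρ) (hf : Fin' ρ f) : Fin' ρ' f := HasN.mono h0 h1 hf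

lemma coeff_mul_pow_le (hρ : 0 ≤ ρ) (hf : Nn f) (hN : Fin' ρ f) (d : ℕ) :
    ((coeff d f : ℤ) : ℝ) * ρ ^ d ≤ val ρ f := by
  rw [← nS_eq_val hρ hf]
  have := HasN.le hρ hN d
  rwa [norm_coeff hf] at this

lemma fin_geo_X_pow (hρ : 0 ≤ ρ) (hρ1 : ρ < 1) {p : ℕ} (hp : 1 ≤ p) : Fin' ρ (geo (X ^ p)) := by
  refine hasN_geo hρ (coeff_zero_X_pow hp) (fin_X_pow p) ?_
  rw [nS_eq_val hρ (nn_X_pow p), val_X_pow]
  exact pow_lt_one₀ hρ hρ1 (by omega)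

lemma fin_dvi (hρ : 0 ≤ ρ) (hρ1 : ρ < 1) {p : ℕ} (hp : 1 ≤ p) (hf : Fin' ρ f) (k : ℕ) : Fin' ρ (dvi f p k) := by
  unfold dvi
  exact fin_one.sub hρ ((fin_one.sub hρ hf).mul hρ ((fin_geo_X_pow hρ hρ1 hp).pow hρ k))

lemma fin_sqf (hρ : 0 ≤ ρ) (hρ1 : ρ < 1) (hf : Fin' ρ f) (m : ℕ → ℕ) {p P : ℕ} (hP : p ≤ P) : Fin' ρ (sqf f m p P) := by
  induction P, hP using Nat.le_induction with
  | base => rwa [sqf_self]
  | succ P hP ih =>
    rw [sqf_succ f m hP]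
    exact fin_dvi hρ hρ1 (by omega) ih _

/-- value of `Pr` -/
noncomputable def pv (ρ : ℝ) (m : ℕ → ℕ) (p P : ℕ) : ℝ := ∏ q ∈ Finset.Ico p P, (1 - ρ ^ (q + 1)) ^ m (q + 1)

lemma fin_Pr (hρ : 0 ≤ ρ) (m : ℕ → ℕ) {p P : ℕ} (hP : p ≤ P) : Fin' ρ (Pr m p P) ∧ val ρ (Pr m p P) = pv ρ m p P := by
  induction P, hP using Nat.le_induction with
  | base => rw [Pr_self, val_one]; exact ⟨fin_one, by simp [pv]⟩
  | succ P hP ih =>
    obtain ⟨i1, i2⟩ := ih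
    have h1 : Fin' ρ ((1 - X ^ (P + 1)) ^ m (P + 1)) := (fin_one.sub hρ (fin_X_pow (P + 1))).pow hρ _
    rw [Pr_succ_top m hP]
    refine ⟨i1.mul hρ h1, ?_⟩
    rw [val_mul hρ i1 h1, i2, val_pow hρ (fin_one.sub hρ (fin_X_pow (P + 1))),
      val_sub hρ fin_one (fin_X_pow (P + 1)), val_one, val_X_pow]
    unfold pv
    rw [Finset.prod_Ico_succ_top hP]

lemma pv_pos (hρ : 0 ≤ ρ) (hρ1 : ρ < 1) (m : ℕ → ℕ) (p P : ℕ) : 0 < pv ρ m p P :=
  Finset.prod_pos fun q _ => pow_pos (by linarith [pow_lt_one₀ hρ hρ1 (by omega : q + 1 ≠ 0)]) _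

lemma pv_le_one (hρ : 0 ≤ ρ) (hρ1 : ρ < 1) (m : ℕ → ℕ) (p P : ℕ) : pv ρ m p P ≤ 1 :=
  Finset.prod_le_one (fun q _ => pow_nonneg (by linarith [pow_lt_one₀ hρ hρ1 (by omega : q + 1 ≠ 0)]) _)
    fun q _ => pow_le_one₀ (by linarith [pow_lt_one₀ hρ hρ1 (by omega : q + 1 ≠ 0)])
      (by linarith [pow_nonneg hρ (q + 1)])

lemma pv_anti (hρ : 0 ≤ ρ) (hρ1 : ρ < 1) {m m' : ℕ → ℕ} (h : ∀ q, m q ≤ m' q) (p P : ℕ) : pv ρ m' p P ≤ pv ρ m p P :=
  Finset.prod_le_prod (fun q _ => pow_nonneg (by linarith [pow_lt_one₀ hρ hρ1 (by omega : q + 1 ≠ 0)]) _)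
    fun q _ => pow_le_pow_of_le_one (by linarith [pow_lt_one₀ hρ hρ1 (by omega : q + 1 ≠ 0)])
      (by linarith [pow_nonneg hρ (q + 1)]) (h (q + 1))

lemma pv_add (m m' : ℕ → ℕ) (p P : ℕ) : pv ρ (fun q => m q + m' q) p P = pv ρ m p P * pv ρ m' p P := by
  unfold pv
  rw [← Finset.prod_mul_distrib]
  exact Finset.prod_congr rfl fun q _ => pow_add _ _ _

/-- value of a sequence of divisions -/
lemma val_sqf (hρ : 0 ≤ ρ) (hρ1 : ρ < 1) (hf : Fin' ρ f) (m : ℕ → ℕ) {p P : ℕ} (hP : p ≤ P) :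
    (1 - val ρ (sqf f m p P)) * pv ρ m p P = 1 - val ρ f := by
  have h1 := one_sub_sqf_mul f m p P
  have h2 := fin_sqf hρ hρ1 hf m hP
  have h3 := fin_Pr hρ m hP
  have h4 := congrArg (val ρ) h1
  rw [val_mul hρ (fin_one.sub hρ h2) h3.1, val_sub hρ fin_one h2, val_sub hρ fin_one hf, val_one, h3.2] at h4
  exact h4

/-- (5.1): the norms of the low loops -/
lemma low_val (hρ : 0 ≤ ρ) (hρ1 : ρ < 1) {c : ℤ⟦X⟧} (hc : Nn c) (h0 : coeff 0 c = 0) (hcN : Fin' ρ c) {θ : ℝ}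
    (hθ1 : θ < 1) (hθ : val ρ c ≤ θ) (P : ℕ) :
    Fin' ρ (lowS c P) ∧ val ρ (lowS c P) ≤ θ ∧ 1 - θ ≤ pv ρ (lm c) 0 P := by
  have h1 := val_sqf hρ hρ1 hcN (lm c) (Nat.zero_le P)
  rw [← lowS_eq] at h1
  have h2 : Fin' ρ (lowS c P) := by
    rw [lowS_eq]
    exact fin_sqf hρ hρ1 hcN (lm c) (Nat.zero_le P)
  have h3 := pv_pos hρ hρ1 (lm c) 0 P
  have h4 := pv_le_one hρ hρ1 (lm c) 0 P
  have h5 := val_nonneg hρ (low_facts hc h0 P).1
  have h6 : 0 < 1 - val ρ (lowS c P) := by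
    by_contra hcon
    push Not at hcon
    have : (1 - val ρ (lowS c P)) * pv ρ (lm c) 0 P ≤ 0 := mul_nonpos_of_nonpos_of_nonneg hcon h3.le
    linarith
  refine ⟨h2, ?_, ?_⟩
  · nlinarith
  · nlinarith

end values

end Pool.Agent.SSE.HN
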