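import Pool.Agent.SSE.HN3

/-!
# SSE project (`MP_c782ad_an`), hub part, Section 5: definitions for the numbers theorem (helper81)

`DivL r e h l h'`: the series of the list `l` can be divided out of `h` one after the other, result
`h'`; at every division `s ≤ h - e` (`e`: the reserved loops), `s ≠ 0`, `s` of order `≥ 3` and of norm
`< 1` at the radius `r`.
`own c P`: the loops into which the loop series `c` of an own hub is split: `X^q` (`1 ≤ q ≤ P`) with
multiplicity `lm c q`, and the rest `lowS c P` if it is not zero.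
-/

set_option autoImplicit false
set_option linter.unusedSectionVars false

open scoped BigOperators
open PowerSeries

namespace Pool.Agent.SSE.HN

open Pool.Agent.SSE.PF

attribute [local instance] Classical.propDecidable

/-- successive legal divisions -/
inductive DivL (r : ℝ) (e : ℤ⟦X⟧) : ℤ⟦X⟧ → List ℤ⟦X⟧ → ℤ⟦X⟧ → Prop
  | nil (h : ℤ⟦X⟧) : DivL r e h [] h
  | cons {h s h' : ℤ⟦X⟧} {l : List ℤ⟦X⟧} (hs : Nn s) (s0 : s ≠ 0) (s3 : ∀ d < 3, coeff d s = 0)
      (sN : HasN r (toRS s)) (s1 : nS r (toRS s) < 1) (hle : Nn (h - s - e))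
      (H : DivL r e (dv h s) l h') : DivL r e h (s :: l) h'

/-- the loops of an own hub -/
noncomputable def own (c : ℤ⟦X⟧) (P : ℕ) : Multiset ℤ⟦X⟧ :=
  (∑ q ∈ Finset.range P, Multiset.replicate (lm c (q + 1)) (X ^ (q + 1))) +
    if lowS c P = 0 then 0 else {lowS c P}

/-- a loop series of an own hub -/
structure OwnC (ρ θ : ℝ) (c : ℤ⟦X⟧) : Prop where
  nn : Nn c
  c0 : coeff 0 c = 0
  N : HasN ρ (toRS c)
  le : nS ρ (toRS c) ≤ θ

/-- first return series of the hub -/
structure RetS (x0 ρ : ℝ) (b : ℕ) (H : ℤ⟦X⟧) : Prop where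
  nn : Nn H
  c3 : ∀ d < 3, coeff d H = 0
  N : HasN ρ (toRS H)
  one : ev x0 (toRS H) = 1
  pos : ∀ d, b ≤ d → 1 ≤ coeff d H

lemma DivL.append {r : ℝ} {e h h' h'' : ℤ⟦X⟧} {l l' : List ℤ⟦X⟧} (H : DivL r e h l h')
    (H' : DivL r e h' l' h'') : DivL r e h (l ++ l') h'' := by
  induction H with
  | nil h => simpa using H'
  | cons hs s0 s3 sN s1 hle _ ih => exact DivL.cons hs s0 s3 sN s1 hle (ih H')

end Pool.Agent.SSE.HN
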