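import Pool.Agent.SSE.HN4
import Pool.Agent.SSE.HNumDefs

/-!
# SSE project (`MP_c782ad_an`), hub part, Section 5: lists of divisions
-/

set_option autoImplicit false
set_option linter.unusedSectionVars false

open scoped BigOperators
open PowerSeries

namespace Pool.Agent.SSE.HN

open Pool.Agent.SSE.PF

attribute [local instance] Classical.propDecidable

variable {r : ℝ} {e h s : ℤ⟦X⟧}

lemma X_pow_ne_zero' (p : ℕ) : (X ^ p : ℤ⟦X⟧) ≠ 0 := by
  intro h
  have := congrArg (coeff p) h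
  rw [coeff_X_pow_self, map_zero] at this
  exact one_ne_zero this

lemma DivL.snoc {h' : ℤ⟦X⟧} {l : List ℤ⟦X⟧} (H : DivL r e h l h') (hs : Nn s) (s0 : s ≠ 0)
    (s3 : ∀ d < 3, coeff d s = 0) (sN : HasN r (toRS s)) (s1 : nS r (toRS s) < 1) (hle : Nn (h' - s - e)) :
    DivL r e h (l ++ [s]) (dv h' s) :=
  H.append (DivL.cons hs s0 s3 sN s1 hle (DivL.nil _))

/-- `k` divisions by `X^p` -/
lemma divL_dvi (hr : 0 ≤ r) (hr1 : r < 1) {p : ℕ} (hh : Nn h) (h0 : coeff 0 h = 0)
    (he : Nn (h - e)) (hep : coeff p e = 0) :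
    ∀ k : ℕ, (0 < k → 3 ≤ p) → (k : ℤ) ≤ coeff p h → DivL r e h (List.replicate k (X ^ p)) (dvi h p k) := by
  intro k
  induction k with
  | zero =>
    intro _ _
    rw [dvi_zero]
    exact DivL.nil _
  | succ k ih =>
    intro hp3 hk
    have hp : 3 ≤ p := hp3 (by omega)
    push_cast at hk
    have h1 := ih (fun _ => hp) (by linarith)
    have hf := dvi_facts hh h0 (by omega : 1 ≤ p) k (by linarith)
    rw [dvi_succ h (by omega), List.replicate_succ']
    refine h1.snoc (nn_X_pow p) (X_pow_ne_zero' p) (fun d hd => coeff_X_pow_lt (by omega)) (fin_X_pow p) ?_ ?_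
    · rw [nS_eq_val hr (nn_X_pow p), val_X_pow]
      exact pow_lt_one₀ hr hr1 (by omega)
    · intro d
      rw [map_sub, map_sub, coeff_X_pow]
      split_ifs with hd
      · rw [hd, hf.eq, hep]
        linarith
      · have h2 := hf.ge d hd
        have h3 := he d
        rw [map_sub] at h3
        linarith

/-- the list of the divisors `X^(q+1)`, `m (q+1)` times, `q = p, …, p+k-1` -/
noncomputable def lst (m : ℕ → ℕ) (p : ℕ) : ℕ → List ℤ⟦X⟧
  | 0 => []
  | k + 1 => lst m p k ++ List.replicate (m (p + k + 1)) (X ^ (p + k + 1))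

lemma coe_lst (m : ℕ → ℕ) (p k : ℕ) : (lst m p k : Multiset ℤ⟦X⟧) =
    ∑ q ∈ Finset.Ico p (p + k), Multiset.replicate (m (q + 1)) (X ^ (q + 1)) := by
  induction k with
  | zero => simp [lst]
  | succ k ih =>
    rw [← Nat.add_assoc, Finset.sum_Ico_succ_top (by omega), ← ih, lst, ← Multiset.coe_add,
      Multiset.coe_replicate]

lemma divL_sqf (hr : 0 ≤ r) (hr1 : r < 1) {m : ℕ → ℕ} {p : ℕ} (hh : Nn h) (h0 : coeff 0 h = 0)
    (he : Nn (h - e)) : ∀ k : ℕ, (∀ q, p ≤ q → q < p + k → 0 < m (q + 1) → 3 ≤ q + 1) →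
      (∀ q, p ≤ q → q < p + k → (m (q + 1) : ℤ) ≤ coeff (q + 1) (sqf h m p q)) →
      (∀ d ≤ p + k, coeff d e = 0) →
      DivL r e h (lst m p k) (sqf h m p (p + k)) := by
  intro k
  induction k with
  | zero =>
    intro _ _ _
    rw [Nat.add_zero, sqf_self]
    exact DivL.nil _
  | succ k ih =>
    intro hm3 hm hed
    have h1 := ih (fun q h1 h2 => hm3 q h1 (by omega)) (fun q h1 h2 => hm q h1 (by omega))
      (fun d hd => hed d (by omega))
    have hf := sqf_facts hh h0 (by omega : p ≤ p + k) (fun q h1 h2 => hm q h1 (by omega))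
    rw [← Nat.add_assoc, sqf_succ h m (by omega : p ≤ p + k)]
    refine h1.append (divL_dvi hr hr1 hf.nn hf.c0 ?_ (hed _ (by omega)) _ ?_ (hm _ (by omega) (by omega)))
    · intro d
      rw [map_sub]
      rcases Nat.lt_or_ge (p + k) d with h2 | h2
      · have h3 := hf.high d h2
        have h4 := he d
        rw [map_sub] at h4
        linarith
      · rw [hed d (by omega), sub_zero]
        exact hf.nn d
    · intro h2
      exact hm3 _ (by omega) (by omega) h2

/-- successive divisions -/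
noncomputable def divs (h : ℤ⟦X⟧) (l : List ℤ⟦X⟧) : ℤ⟦X⟧ := l.foldl dv h

lemma divs_prod : ∀ (l : List ℤ⟦X⟧) (h : ℤ⟦X⟧), (∀ s ∈ l, coeff 0 s = 0) →
    (1 - divs h l) * (l.map fun s => 1 - s).prod = 1 - h := by
  intro l
  induction l with
  | nil => intro h _; simp [divs]
  | cons s l ih =>
    intro h hl
    have h1 := ih (dv h s) fun s' hs' => hl s' (List.mem_cons_of_mem _ hs')
    have h2 := one_sub_dv_mul (h := h) (hl s List.mem_cons_self)
    rw [List.map_cons, List.prod_cons]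
    change (1 - divs (dv h s) l) * ((1 - s) * (l.map fun s => 1 - s).prod) = 1 - h
    linear_combination (1 - s) * h1 + h2

/-- hypotheses on a divisor of high order -/
structure Hi (r : ℝ) (P : ℕ) (R : ℕ → ℝ) (s : ℤ⟦X⟧) : Prop where
  nn : Nn s
  ne : s ≠ 0
  low : ∀ d ≤ P, coeff d s = 0
  fin : HasN r (toRS s)
  lt : nS r (toRS s) < 1
  le : ∀ d, ((coeff d s : ℤ) : ℝ) ≤ R d

lemma divs_hi (hr : 0 ≤ r) {P : ℕ} (hP : 2 ≤ P) {R : ℕ → ℝ} (hR : ∀ d, 0 ≤ R d) :
    ∀ (l : List ℤ⟦X⟧) (h : ℤ⟦X⟧), (∀ s ∈ l, Hi r P R s) → Nn h → coeff 0 h = 0 →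
      HasN r (toRS h) →
      (∀ d, P < d → (l.length : ℝ) * R d + 1 ≤ ((coeff d h : ℤ) : ℝ)) →
      Nn (divs h l) ∧ HasN r (toRS (divs h l)) ∧
      (∀ d, P < d → ((coeff d h : ℤ) : ℝ) - (l.length : ℝ) * R d ≤ ((coeff d (divs h l) : ℤ) : ℝ)) ∧
      ∀ e : ℤ⟦X⟧, (∀ d, coeff d e ≤ 1) → (∀ d ≤ P, coeff d e = 0) → DivL r e h l (divs h l) := by
  intro l
  induction l with
  | nil =>
    intro h _ hh h0 hN hb
    exact ⟨hh, hN, fun d _ => by simp [divs], fun e _ _ => DivL.nil _⟩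
  | cons s l ih =>
    intro h hl hh h0 hN hb
    have hs := hl s List.mem_cons_self
    have hs0 : coeff 0 s = 0 := hs.low 0 (by omega)
    rw [List.length_cons] at hb
    push_cast at hb
    have hle : ∀ e : ℤ⟦X⟧, (∀ d, coeff d e ≤ 1) → (∀ d ≤ P, coeff d e = 0) → Nn (h - s - e) := by
      intro e he1 he2 d
      rw [map_sub, map_sub]
      rcases Nat.lt_or_ge P d with h1 | h1
      · have h2 := hb d h1
        have h3 := hs.le d
        have h4 : (0 : ℝ) ≤ (l.length : ℝ) * R d := mul_nonneg (Nat.cast_nonneg _) (hR d)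
        have h5 : ((coeff d s : ℤ) : ℝ) + 1 ≤ ((coeff d h : ℤ) : ℝ) := by nlinarith
        have h6 : coeff d s + 1 ≤ coeff d h := by exact_mod_cast h5
        have h7 := he1 d
        linarith
      · rw [hs.low d h1, he2 d h1]
        simpa using hh d
    have hsub : Nn (h - s) := by
      have := hle 0 (fun d => by simp) (fun d _ => by simp)
      rwa [sub_zero] at this
    have hge := dv_ge hs0 hs.nn hsub
    have hge' : ∀ d, ((coeff d h : ℤ) : ℝ) - ((coeff d s : ℤ) : ℝ) ≤ ((coeff d (dv h s) : ℤ) : ℝ) := by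
      intro d
      have := hge d
      rw [map_sub, map_sub] at this
      exact_mod_cast (by linarith : coeff d h - coeff d s ≤ coeff d (dv h s))
    obtain ⟨i1, i2, i3, i4⟩ := ih (dv h s) (fun s' hs' => hl s' (List.mem_cons_of_mem _ hs'))
      (nn_dv hs0 hs.nn hsub) (coeff_zero_dv hs0 h0) (hasN_dv hr hs0 hs.fin hs.lt hN) (fun d hd => by
        have h1 := hb d hd
        have h2 := hge' d
        have h3 := hs.le d
        linarith)
    refine ⟨i1, i2, fun d hd => ?_, fun e he1 he2 => ?_⟩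
    · have h1 := i3 d hd
      have h2 := hge' d
      have h3 := hs.le d
      rw [List.length_cons]
      push_cast
      change _ ≤ ((coeff d (divs (dv h s) l) : ℤ) : ℝ)
      linarith
    · exact DivL.cons hs.nn hs.ne (fun d hd => hs.low d (by omega)) hs.fin hs.lt (hle e he1 he2) (i4 e he1 he2)

/-! ### the own loops of a list of hubs -/

/-- total multiplicities -/
noncomputable def nums (cs : List ℤ⟦X⟧) (q : ℕ) : ℕ := (cs.map fun c => lm c q).sum

/-- the rests -/
noncomputable def rest (cs : List ℤ⟦X⟧) (P : ℕ) : List ℤ⟦X⟧ := (cs.map fun c => lowS c P).filter fun s => s ≠ 0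

lemma rest_cons (c : ℤ⟦X⟧) (cs : List ℤ⟦X⟧) (P : ℕ) :
    rest (c :: cs) P = if lowS c P = 0 then rest cs P else lowS c P :: rest cs P := by
  unfold rest
  rw [List.map_cons, List.filter_cons]
  by_cases h : lowS c P = 0
  · simp [h]
  · simp [h]

lemma sum_own (cs : List ℤ⟦X⟧) (P : ℕ) : (cs.map fun c => own c P).sum =
    (∑ q ∈ Finset.range P, Multiset.replicate (nums cs (q + 1)) (X ^ (q + 1))) + (rest cs P : Multiset ℤ⟦X⟧) := by
  induction cs with
  | nil => simp [nums, rest]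
  | cons c cs ih =>
    rw [List.map_cons, List.sum_cons, ih, rest_cons]
    have h1 : ∑ q ∈ Finset.range P, Multiset.replicate (nums (c :: cs) (q + 1)) (X ^ (q + 1) : ℤ⟦X⟧) =
        (∑ q ∈ Finset.range P, Multiset.replicate (lm c (q + 1)) (X ^ (q + 1))) +
          ∑ q ∈ Finset.range P, Multiset.replicate (nums cs (q + 1)) (X ^ (q + 1)) := by
      rw [← Finset.sum_add_distrib]
      refine Finset.sum_congr rfl fun q _ => ?_
      rw [← Multiset.replicate_add]
      rfl
    rw [h1]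
    unfold own
    split_ifs with h
    · abel
    · rw [← Multiset.cons_coe, ← Multiset.singleton_add]
      abel

lemma prod_own (cs : List ℤ⟦X⟧) (P : ℕ) : (cs.map fun c => 1 - c).prod =
    ((rest cs P).map fun s => 1 - s).prod * Pr (nums cs) 0 P := by
  induction cs with
  | nil =>
    have : Pr (nums []) 0 P = 1 := by
      unfold Pr nums
      simp
    simp [rest, this]
  | cons c cs ih =>
    have h1 : Pr (nums (c :: cs)) 0 P = Pr (lm c) 0 P * Pr (nums cs) 0 P := by
      rw [← Pr_add]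
      rfl
    rw [List.map_cons, List.prod_cons, ih, h1, ← low_prod c P, rest_cons]
    split_ifs with h
    · rw [h]; ring
    · rw [List.map_cons, List.prod_cons]
      ring

lemma cg_rest {cs : List ℤ⟦X⟧} {P : ℕ} (hcs : ∀ c ∈ cs, Nn c ∧ coeff 0 c = 0) :
    Cg P ((rest cs P).map fun s => 1 - s).prod 1 := by
  induction cs with
  | nil => simpa [rest] using Cg.refl _
  | cons c cs ih =>
    have h1 := ih fun c' hc' => hcs c' (List.mem_cons_of_mem _ hc')
    rw [rest_cons]
    split_ifs with h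
    · exact h1
    · rw [List.map_cons, List.prod_cons]
      have h2 : Cg P (1 - lowS c P) 1 := by
        intro d hd
        rw [map_sub, (low_facts (hcs c List.mem_cons_self).1 (hcs c List.mem_cons_self).2 P).2.1 d hd, sub_zero]
      have := h2.mul h1
      rwa [one_mul] at this

lemma length_rest_le (cs : List ℤ⟦X⟧) (P : ℕ) : (rest cs P).length ≤ cs.length := by
  unfold rest
  refine (List.length_filter_le _ _).trans ?_
  rw [List.length_map]

lemma rest_hi {ρ θ : ℝ} (hρ : 0 < ρ) (hρ1 : ρ < 1) (hθ : θ < 1) (hr : 0 ≤ r) (hrρ : r ≤ ρ) {cs : List ℤ⟦X⟧}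
    (hcs : ∀ c ∈ cs, OwnC ρ θ c) (P : ℕ) : ∀ s ∈ rest cs P, Hi r P (fun d => (ρ ^ d)⁻¹) s := by
  intro s hs
  unfold rest at hs
  rw [List.mem_filter] at hs
  obtain ⟨h1, h2⟩ := hs
  obtain ⟨c, hc, rfl⟩ := List.mem_map.1 h1
  have h3 := hcs c hc
  have hf := low_facts h3.nn h3.c0 P
  have hle : val ρ c ≤ θ := by
    rw [← nS_eq_val hρ.le h3.nn]; exact h3.le
  obtain ⟨v1, v2, -⟩ := low_val hρ.le hρ1 h3.nn h3.c0 h3.N hθ hle P
  refine ⟨hf.1, by simpa using h2, hf.2.1, v1.mono hr hrρ, ?_, ?_⟩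
  · calc nS r (toRS (lowS c P)) ≤ nS ρ (toRS (lowS c P)) := nS_mono hr hrρ v1
      _ = val ρ (lowS c P) := nS_eq_val hρ.le hf.1
      _ < 1 := by linarith
  · intro d
    have h4 := coeff_mul_pow_le hρ.le hf.1 v1 d
    have h5 : 0 < ρ ^ d := pow_pos hρ d
    change ((coeff d (lowS c P) : ℤ) : ℝ) ≤ (ρ ^ d)⁻¹
    rw [← one_div, le_div_iff₀ h5]
    linarith

lemma pv_nums {ρ θ : ℝ} (hρ : 0 < ρ) (hρ1 : ρ < 1) (hθ : θ < 1) {cs : List ℤ⟦X⟧}
    (hcs : ∀ c ∈ cs, OwnC ρ θ c) (P : ℕ) : (1 - θ) ^ cs.length ≤ pv ρ (nums cs) 0 P := by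
  induction cs with
  | nil => simp [pv, nums]
  | cons c cs ih =>
    have h1 := ih fun c' hc' => hcs c' (List.mem_cons_of_mem _ hc')
    have h3 := hcs c List.mem_cons_self
    have hle : val ρ c ≤ θ := by
      rw [← nS_eq_val hρ.le h3.nn]; exact h3.le
    obtain ⟨-, -, v3⟩ := low_val hρ.le hρ1 h3.nn h3.c0 h3.N hθ hle P
    have h2 : pv ρ (nums (c :: cs)) 0 P = pv ρ (lm c) 0 P * pv ρ (nums cs) 0 P := by
      rw [← pv_add]
      rfl
    rw [h2, List.length_cons, pow_succ, mul_comm]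
    exact mul_le_mul v3 h1 (pow_nonneg (by linarith) _) (pv_pos hρ.le hρ1 _ _ _).le

end Pool.Agent.SSE.HN
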