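import Pool.Agent.SSE.HN5
import Pool.Agent.SSE.HM1

/-!
# SSE project (`MP_c782ad_an`), hub part, Section 5: analytic lemmas
-/

set_option autoImplicit false
set_option linter.unusedSectionVars false

open scoped BigOperators
open PowerSeries

namespace Pool.Agent.SSE.HN

open Pool.Agent.SSE.PF

variable {f g s : ℤ⟦X⟧}

lemma val_eq_tsum (x : ℝ) (f : ℤ⟦X⟧) : val x f = ∑' d, ((coeff d f : ℤ) : ℝ) * x ^ d := by
  unfold val ev
  exact tsum_congr fun d => by rw [coeff_toRS]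

lemma summable_val {ρ x : ℝ} (hx : 0 ≤ x) (hxρ : x ≤ ρ) (hf : Nn f) (hN : Fin' ρ f) :
    Summable fun d => ((coeff d f : ℤ) : ℝ) * x ^ d := by
  have h1 : Fin' x f := hN.mono hx hxρ
  refine (summable_congr fun d => ?_).1 h1
  rw [norm_coeff hf]

/-- strict monotonicity of the value -/
lemma val_lt_val {ρ x y : ℝ} (hx : 0 ≤ x) (hxy : x < y) (hyρ : y ≤ ρ) (hf : Nn f) (hN : Fin' ρ f) {k : ℕ}
    (hk : 1 ≤ k) (hfk : 1 ≤ coeff k f) : val x f < val y f := by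
  rw [val_eq_tsum, val_eq_tsum]
  have hy : 0 ≤ y := hx.trans hxy.le
  refine Summable.tsum_lt_tsum (i := k) (fun d => ?_) ?_ (summable_val hx (hxy.le.trans hyρ) hf hN)
    (summable_val hy hyρ hf hN)
  · have hc : (0 : ℝ) ≤ ((coeff d f : ℤ) : ℝ) := by exact_mod_cast hf d
    exact mul_le_mul_of_nonneg_left (pow_le_pow_left₀ hx hxy.le d) hc
  · refine mul_lt_mul_of_pos_left (pow_lt_pow_left₀ hxy hx (by omega)) ?_
    exact_mod_cast (by linarith : 0 < coeff k f)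

/-- value of a series with finitely many coefficients -/
lemma val_of_finite {D : ℕ} (h : ∀ d, D < d → coeff d f = 0) (x : ℝ) :
    val x f = ∑ d ∈ Finset.range (D + 1), ((coeff d f : ℤ) : ℝ) * x ^ d := by
  rw [val_eq_tsum]
  refine tsum_eq_sum fun d hd => ?_
  rw [Finset.mem_range] at hd
  rw [h d (by omega), Int.cast_zero, zero_mul]

lemma fin_of_finite {D : ℕ} (h : ∀ d, D < d → coeff d f = 0) (x : ℝ) : Fin' x f := by
  unfold Fin' HasN
  refine summable_of_ne_finset_zero (s := Finset.range (D + 1)) fun d hd => ?_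
  rw [Finset.mem_range] at hd
  rw [coeff_toRS, h d (by omega), Int.cast_zero, norm_zero, zero_mul]

/-- tail estimate -/
lemma val_tail {ρ ρ' : ℝ} (h0 : 0 < ρ') (h1 : ρ' ≤ ρ) (hf : Nn f) (hN : Fin' ρ f) (D : ℕ) :
    val ρ' f ≤ val ρ' (tr (D + 1) f) + (ρ' / ρ) ^ (D + 1) * val ρ f := by
  have hρ : 0 < ρ := h0.trans_le h1
  have hN' : Fin' ρ' f := hN.mono h0.le h1
  have htN : ∀ x, Fin' x (tr (D + 1) f) := fun x => hasN_tr x _ _
  set g := f - tr (D + 1) f with hg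
  have hgn : Nn g := by
    intro d
    rw [hg, map_sub, coeff_tr]
    split_ifs
    · rw [sub_self]
    · rw [sub_zero]; exact hf d
  have h2 : val ρ' f = val ρ' (tr (D + 1) f) + val ρ' g := by
    rw [← val_add h0.le (htN ρ') (hN'.sub h0.le (htN ρ'))]
    congr 1
    ring
  have h3 : val ρ' g ≤ (ρ' / ρ) ^ (D + 1) * val ρ g := by
    have hgN : Fin' ρ g := hN.sub hρ.le (htN ρ)
    rw [val_eq_tsum, val_eq_tsum, ← tsum_mul_left]
    refine Summable.tsum_le_tsum (fun d => ?_) (summable_val h0.le h1 hgn hgN)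
      ((summable_val hρ.le le_rfl hgn hgN).mul_left _)
    have hc : (0 : ℝ) ≤ ((coeff d g : ℤ) : ℝ) := by exact_mod_cast hgn d
    rcases Nat.lt_or_ge d (D + 1) with h | h
    · have : coeff d g = 0 := by rw [hg, map_sub, coeff_tr, if_pos h, sub_self]
      rw [this]; simp
    · have h4 : ρ' ^ d = (ρ' / ρ) ^ d * ρ ^ d := by
        rw [← mul_pow, div_mul_cancel₀ _ hρ.ne']
      have h5 : (ρ' / ρ) ^ d ≤ (ρ' / ρ) ^ (D + 1) :=
        pow_le_pow_of_le_one (div_nonneg h0.le hρ.le) ((div_le_one hρ).2 h1) h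
      rw [h4]
      calc ((coeff d g : ℤ) : ℝ) * ((ρ' / ρ) ^ d * ρ ^ d)
          = (ρ' / ρ) ^ d * (((coeff d g : ℤ) : ℝ) * ρ ^ d) := by ring
        _ ≤ (ρ' / ρ) ^ (D + 1) * (((coeff d g : ℤ) : ℝ) * ρ ^ d) :=
            mul_le_mul_of_nonneg_right h5 (mul_nonneg hc (pow_nonneg hρ.le _))
  have h6 : val ρ g ≤ val ρ f := val_le_val hρ.le hgn (by
    rw [hg, sub_sub_cancel]; exact nn_tr hf _) hN
  have h7 : 0 ≤ (ρ' / ρ) ^ (D + 1) := pow_nonneg (div_nonneg h0.le hρ.le) _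
  nlinarith

/-- the root of `s = 1` -/
lemma exists_root {x0 ρ' : ℝ} (hx : x0 < ρ') {D : ℕ} (h : ∀ d, D < d → coeff d s = 0)
    (h1 : val x0 s < 1) (h2 : 1 < val ρ' s) : ∃ ρs, x0 < ρs ∧ ρs < ρ' ∧ val ρs s = 1 := by
  have hc : Continuous fun x : ℝ => val x s := by
    have : (fun x : ℝ => val x s) = fun x => ∑ d ∈ Finset.range (D + 1), ((coeff d s : ℤ) : ℝ) * x ^ d :=
      funext fun x => val_of_finite h x
    rw [this]
    fun_prop
  obtain ⟨y, hy, hy1⟩ := intermediate_value_Ioo hx.le hc.continuousOn (Set.mem_Ioo.2 ⟨h1, h2⟩)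
  exact ⟨y, hy.1, hy.2, hy1⟩

/-- finite partial sums are below the norm -/
lemma sum_le_nS {r : ℝ} (hr : 0 ≤ r) (hf : Nn f) (hN : Fin' r f) (S : Finset ℕ) :
    ∑ d ∈ S, ((coeff d f : ℤ) : ℝ) * r ^ d ≤ nS r (toRS f) := by
  unfold nS
  refine le_trans (le_of_eq ?_) (Summable.sum_le_tsum S (fun d _ => mul_nonneg (norm_nonneg _) (pow_nonneg hr d)) hN)
  exact Finset.sum_congr rfl fun d _ => by rw [norm_coeff hf]

/-- choice of the radius -/
lemma exists_radius {x0 ρs : ℝ} (_hx0 : 0 < x0) (hx : x0 < ρs) {T : ℕ → ℝ} {κ : ℝ} (hκ : 0 < κ) {P : ℕ}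
    (hT : ∀ d, P < d → κ ≤ T d * ρs ^ d) (Q : ℝ) :
    ∃ r, x0 < r ∧ r < ρs ∧ ∃ S : Finset ℕ, (∀ d ∈ S, P < d) ∧ Q < ∑ d ∈ S, T d * r ^ d := by
  obtain ⟨M, hM⟩ := exists_nat_gt (Q / κ)
  have hM' : Q < M * κ := by rwa [div_lt_iff₀ hκ] at hM
  set S := Finset.Ioc P (P + M) with hS
  have hSP : ∀ d ∈ S, P < d := fun d hd => (Finset.mem_Ioc.1 hd).1
  have h1 : Q < ∑ d ∈ S, T d * ρs ^ d := by
    calc Q < M * κ := hM'
      _ = ∑ d ∈ S, κ := by rw [Finset.sum_const, hS, Nat.card_Ioc, nsmul_eq_mul]; simp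
      _ ≤ _ := Finset.sum_le_sum fun d hd => hT d (hSP d hd)
  have hc : Continuous fun x : ℝ => ∑ d ∈ S, T d * x ^ d := by fun_prop
  have h2 : ∀ᶠ x in nhds ρs, Q < ∑ d ∈ S, T d * x ^ d := hc.continuousAt.eventually (lt_mem_nhds h1)
  obtain ⟨δ, hδ, hball⟩ := Metric.eventually_nhds_iff.1 h2
  refine ⟨max ((x0 + ρs) / 2) (ρs - δ / 2), ?_, ?_, S, hSP, ?_⟩
  · exact lt_of_lt_of_le (by linarith) (le_max_left _ _)
  · exact max_lt (by linarith) (by linarith)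
  · refine hball ?_
    rw [Real.dist_eq, abs_lt]
    constructor
    · have := le_max_right ((x0 + ρs) / 2) (ρs - δ / 2)
      linarith
    · have : max ((x0 + ρs) / 2) (ρs - δ / 2) < ρs := max_lt (by linarith) (by linarith)
      linarith

end Pool.Agent.SSE.HN
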