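import Pool.Agent.SSE.HN6

/-!
# SSE project (`MP_c782ad_an`), hub part, Section 5: the first phase (degrees `1, …, D`)
-/

set_option autoImplicit false
set_option linter.unusedSectionVars false

open scoped BigOperators
open PowerSeries

namespace Pool.Agent.SSE.HN

open Pool.Agent.SSE.PF

attribute [local instance] Classical.propDecidable

/-- the data of the numbers theorem, with the multiplicities -/
structure NumD (x0 ρ θ : ℝ) (b : ℕ) (HA HB : ℤ⟦X⟧) (cA cB : List ℤ⟦X⟧) (n nA nB dA dB : ℕ → ℕ) : Prop where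
  x0_pos : 0 < x0
  x0_lt : x0 < ρ
  ρ_lt : ρ < 1
  θ_lt : θ < 1
  hA : RetS x0 ρ b HA
  hB : RetS x0 ρ b HB
  hcA : ∀ c ∈ cA, OwnC ρ θ c
  hcB : ∀ c ∈ cB, OwnC ρ θ c
  hδ : (1 - HA) * (cA.map fun c => 1 - c).prod = (1 - HB) * (cB.map fun c => 1 - c).prod
  hnA : nA = nums cA
  hnB : nB = nums cB
  hdA : ∀ q, dA q + nA q = n q
  hdB : ∀ q, dB q + nB q = n q
  hn : ∀ q, n q = nA q ∨ n q = nB q
  hmax : ∀ q, n q ≤ nA q + nB q

section
variable {x0 ρ θ : ℝ} {b : ℕ} {HA HB : ℤ⟦X⟧} {cA cB : List ℤ⟦X⟧} {n nA nB dA dB : ℕ → ℕ}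

lemma NumD.swap (N : NumD x0 ρ θ b HA HB cA cB n nA nB dA dB) : NumD x0 ρ θ b HB HA cB cA n nB nA dB dA :=
  ⟨N.x0_pos, N.x0_lt, N.ρ_lt, N.θ_lt, N.hB, N.hA, N.hcB, N.hcA, N.hδ.symm, N.hnB, N.hnA, N.hdB, N.hdA,
    fun q => (N.hn q).symm, fun q => by have := N.hmax q; omega⟩

lemma NumD.ρ_pos (N : NumD x0 ρ θ b HA HB cA cB n nA nB dA dB) : 0 < ρ := N.x0_pos.trans N.x0_lt

lemma RetS.c0 (h : RetS x0 ρ b HA) : coeff 0 HA = 0 := h.c3 0 (by norm_num)

lemma RetS.b3 (h : RetS x0 ρ b HA) : 3 ≤ b := by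
  by_contra hb
  have h1 := h.pos b le_rfl
  rw [h.c3 b (by omega)] at h1
  omega

lemma NumD.dA_le (N : NumD x0 ρ θ b HA HB cA cB n nA nB dA dB) (q : ℕ) : dA q ≤ nB q := by
  have h1 := N.hdA q
  have h2 := N.hmax q
  omega

/-- the product formula for the side `A` -/
lemma NumD.prodA (N : NumD x0 ρ θ b HA HB cA cB n nA nB dA dB) (P : ℕ) :
    (1 - HA) * 1 * Pr nA 0 P * ((rest cA P).map fun s => 1 - s).prod =
      (1 - HA) * (cA.map fun c => 1 - c).prod := by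
  rw [prod_own cA P, N.hnA]
  ring

lemma NumD.prodB (N : NumD x0 ρ θ b HA HB cA cB n nA nB dA dB) (P : ℕ) :
    (1 - HB) * 1 * Pr nB 0 P * ((rest cB P).map fun s => 1 - s).prod =
      (1 - HA) * (cA.map fun c => 1 - c).prod := by
  rw [N.hδ, prod_own cB P, N.hnB]
  ring

lemma NumD.phase1 (N : NumD x0 ρ θ b HA HB cA cB n nA nB dA dB) (D : ℕ) :
    (∀ q, 0 ≤ q → q < D → (dA (q + 1) : ℤ) ≤ coeff (q + 1) (sqf HA dA 0 q)) ∧
    (∀ q, 0 ≤ q → q < D → (dB (q + 1) : ℤ) ≤ coeff (q + 1) (sqf HB dB 0 q)) ∧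
    Cg D (sqf HA dA 0 D) (sqf HB dB 0 D) := by
  refine eq_phase N.hdA N.hdB N.hn (N.prodA D) (N.prodB D)
    (cg_rest fun c hc => ⟨(N.hcA c hc).nn, (N.hcA c hc).c0⟩)
    (cg_rest fun c hc => ⟨(N.hcB c hc).nn, (N.hcB c hc).c0⟩) (by simp) ?_ N.hA.nn N.hB.nn N.hA.c0 N.hB.c0 D
    (Nat.zero_le D) le_rfl
  intro d hd
  rw [Nat.le_zero.1 hd, N.hA.c0, N.hB.c0]

lemma NumD.sqF (N : NumD x0 ρ θ b HA HB cA cB n nA nB dA dB) (D : ℕ) : SqF HA dA 0 D :=
  sqf_facts N.hA.nn N.hA.c0 (Nat.zero_le D) (N.phase1 D).1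

lemma NumD.d12 (N : NumD x0 ρ θ b HA HB cA cB n nA nB dA dB) : dA 1 = 0 ∧ dA 2 = 0 := by
  have h1 := (N.phase1 2).1 0 le_rfl (by norm_num)
  rw [sqf_self, N.hA.c3 1 (by norm_num)] at h1
  have h1' : dA 1 = 0 := by exact_mod_cast le_antisymm h1 (by exact_mod_cast Nat.zero_le _)
  have h2 := (N.phase1 2).1 1 (by norm_num) (by norm_num)
  rw [sqf_succ HA dA (Nat.zero_le 0), sqf_self] at h2
  have h3 : dA (0 + 1) = 0 := h1'
  rw [h3, dvi_zero, N.hA.c3 2 (by norm_num)] at h2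
  exact ⟨h1', by exact_mod_cast le_antisymm h2 (by exact_mod_cast Nat.zero_le _)⟩

lemma NumD.three_le (N : NumD x0 ρ θ b HA HB cA cB n nA nB dA dB) (q : ℕ) (h : 0 < dA (q + 1)) : 3 ≤ q + 1 := by
  by_contra hcon
  have h1 := N.d12
  have : q = 0 ∨ q = 1 := by omega
  rcases this with rfl | rfl
  · rw [h1.1] at h; exact lt_irrefl _ h
  · rw [h1.2] at h; exact lt_irrefl _ h

/-- the coefficients stay `≥ 1` -/
lemma NumD.one_le (N : NumD x0 ρ θ b HA HB cA cB n nA nB dA dB) (D d : ℕ) (hd : b ≤ d) :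
    1 ≤ coeff d (sqf HA dA 0 D) := by
  have hf := N.sqF D
  rcases Nat.lt_or_ge D d with h | h
  · exact (N.hA.pos d hd).trans (hf.high d h)
  · have hb := N.hA.b3
    obtain ⟨q, rfl⟩ : ∃ q, d = q + 1 := ⟨d - 1, by omega⟩
    have eA := N.hdA (q + 1)
    have eB := N.hdB (q + 1)
    rcases N.hn (q + 1) with h1 | h1
    · have h2 := hf.mid q (Nat.zero_le q) (by omega)
      have h3 := (N.sqF q).high (q + 1) (by omega)
      have h4 := N.hA.pos (q + 1) hd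
      rw [h2]
      have h5 : dA (q + 1) = 0 := by omega
      rw [h5]
      push_cast
      linarith
    · have hfB := N.swap.sqF D
      have h2 := hfB.mid q (Nat.zero_le q) (by omega)
      have h3 := (N.swap.sqF q).high (q + 1) (by omega)
      have h4 := N.hB.pos (q + 1) hd
      rw [(N.phase1 D).2.2 (q + 1) h, h2]
      have h5 : dB (q + 1) = 0 := by omega
      rw [h5]
      push_cast
      linarith

lemma NumD.c3 (N : NumD x0 ρ θ b HA HB cA cB n nA nB dA dB) {D : ℕ} (hD : 3 ≤ D) :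
    ∀ d < 3, coeff d (sqf HA dA 0 D) = 0 := by
  intro d hd
  have hf := N.sqF D
  have h12 := N.d12
  rcases Nat.eq_zero_or_pos d with h | h
  · rw [h]; exact hf.c0
  · obtain ⟨q, rfl⟩ : ∃ q, d = q + 1 := ⟨d - 1, by omega⟩
    rw [hf.mid q (Nat.zero_le q) (by omega)]
    have : q = 0 ∨ q = 1 := by omega
    rcases this with rfl | rfl
    · rw [sqf_self, N.hA.c3 _ hd]
      change (0 : ℤ) - (dA 1 : ℤ) = 0
      rw [h12.1]; simp
    · rw [sqf_succ HA dA (Nat.zero_le 0), sqf_self]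
      have h3 : dA (0 + 1) = 0 := h12.1
      rw [h3, dvi_zero, N.hA.c3 _ hd]
      change (0 : ℤ) - (dA 2 : ℤ) = 0
      rw [h12.2]; simp

/-- values after the first phase -/
lemma NumD.vals (N : NumD x0 ρ θ b HA HB cA cB n nA nB dA dB) (D : ℕ) :
    Fin' ρ (sqf HA dA 0 D) ∧ val x0 (sqf HA dA 0 D) = 1 ∧
    (∀ y, x0 < y → y ≤ ρ → val y HA ≤ val y (sqf HA dA 0 D)) ∧
    val ρ (sqf HA dA 0 D) ≤ 1 + (val ρ HA - 1) / (1 - θ) ^ cB.length := by
  have hρ := N.ρ_pos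
  have hF : Fin' ρ HA := N.hA.N
  have h1 : Fin' ρ (sqf HA dA 0 D) := fin_sqf hρ.le N.ρ_lt hF dA (Nat.zero_le D)
  have hone : val x0 HA = 1 := N.hA.one
  have hgt : ∀ y, x0 < y → y ≤ ρ → 1 < val y HA := by
    intro y hy hyρ
    rw [← hone]
    exact val_lt_val N.x0_pos.le hy hyρ N.hA.nn hF (k := b) (by have := N.hA.b3; omega) (N.hA.pos b le_rfl)
  have hval : ∀ y, 0 ≤ y → y ≤ ρ → (1 - val y (sqf HA dA 0 D)) * pv y dA 0 D = 1 - val y HA := fun y hy hyρ =>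
    val_sqf hy (hyρ.trans_lt N.ρ_lt) (hF.mono hy hyρ) dA (Nat.zero_le D)
  refine ⟨h1, ?_, ?_, ?_⟩
  · have h2 := hval x0 N.x0_pos.le N.x0_lt.le
    have h3 := pv_pos N.x0_pos.le (N.x0_lt.trans N.ρ_lt) dA 0 D
    rw [hone, sub_self] at h2
    rcases mul_eq_zero.1 h2 with h | h
    · linarith
    · exact absurd h h3.ne'
  · intro y hy hyρ
    have hy0 : 0 ≤ y := N.x0_pos.le.trans hy.le
    have h2 := hval y hy0 hyρ
    have h3 := pv_pos hy0 (hyρ.trans_lt N.ρ_lt) dA 0 D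
    have h4 := pv_le_one hy0 (hyρ.trans_lt N.ρ_lt) dA 0 D
    have h5 := hgt y hy hyρ
    have h6 : 1 ≤ val y (sqf HA dA 0 D) := by
      by_contra hcon
      push Not at hcon
      have : 0 < (1 - val y (sqf HA dA 0 D)) * pv y dA 0 D := mul_pos (by linarith) h3
      linarith
    nlinarith
  · have h2 := hval ρ hρ.le le_rfl
    have h3 : (1 - θ) ^ cB.length ≤ pv ρ dA 0 D := by
      refine (pv_nums hρ N.ρ_lt N.θ_lt N.hcB D).trans ?_
      rw [← N.hnB]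
      exact pv_anti hρ.le N.ρ_lt N.dA_le 0 D
    have h4 : 0 < (1 - θ) ^ cB.length := pow_pos (by linarith [N.θ_lt]) _
    have h5 := hgt ρ N.x0_lt le_rfl
    have h6 : 0 < pv ρ dA 0 D := h4.trans_le h3
    have h7 : val ρ (sqf HA dA 0 D) - 1 = (val ρ HA - 1) / pv ρ dA 0 D := by
      rw [eq_div_iff h6.ne']
      linarith
    have h8 : (val ρ HA - 1) / pv ρ dA 0 D ≤ (val ρ HA - 1) / (1 - θ) ^ cB.length :=
      div_le_div_of_nonneg_left (by linarith) h4 h3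
    linarith

/-- (5.2): the choice of `b'`, `D` and the polynomial `s` -/
lemma NumD.choose (N : NumD x0 ρ θ b HA HB cA cB n nA nB dA dB) :
    ∃ (b' D : ℕ) (ρs : ℝ), b + 2 ≤ b' ∧ b' ≤ D ∧ x0 < ρs ∧ ρs < ρ ∧
      val ρs (tr (D + 1) (sqf HA dA 0 D) - X ^ b') = 1 := by
  have hρ := N.ρ_pos
  have hx0 := N.x0_pos
  have hxρ := N.x0_lt
  set ρ' := (x0 + ρ) / 2 with hρ'
  have h1 : x0 < ρ' := by rw [hρ']; linarith
  have h2 : ρ' < ρ := by rw [hρ']; linarith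
  have h0 : 0 < ρ' := hx0.trans h1
  have hρ'1 : ρ' < 1 := h2.trans N.ρ_lt
  set ε := val ρ' HA - 1 with hε
  have hεpos : 0 < ε := by
    have := val_lt_val hx0.le h1 h2.le N.hA.nn N.hA.N (k := b) (by have := N.hA.b3; omega) (N.hA.pos b le_rfl)
    have hone : val x0 HA = 1 := N.hA.one
    rw [hε]; linarith
  obtain ⟨b1, hb1⟩ := exists_pow_lt_of_lt_one (by linarith : 0 < ε / 4) hρ'1
  set b' := b1 + b + 2 with hb'
  have hb'ε : ρ' ^ b' < ε / 4 :=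
    lt_of_le_of_lt (pow_le_pow_of_le_one h0.le hρ'1.le (by omega)) hb1
  set C := 1 + (val ρ HA - 1) / (1 - θ) ^ cB.length with hC
  have hCpos : 0 < C := by
    have h3 := N.vals 0
    have h4 := val_nonneg hρ.le (N.sqF 0).nn
    have h5 : 0 ≤ C := h4.trans h3.2.2.2
    rcases h5.lt_or_eq with h | h
    · exact h
    · exfalso
      have h6 := h3.2.2.1 ρ hxρ le_rfl
      have h7 : val ρ HA ≤ 0 := by
        refine h6.trans ?_
        rw [h]; exact h3.2.2.2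
      have h8 := val_lt_val hx0.le hxρ le_rfl N.hA.nn N.hA.N (k := b) (by have := N.hA.b3; omega)
        (N.hA.pos b le_rfl)
      have hone : val x0 HA = 1 := N.hA.one
      linarith
  have hq1 : ρ' / ρ < 1 := (div_lt_one hρ).2 h2
  have hq0 : 0 ≤ ρ' / ρ := div_nonneg h0.le hρ.le
  obtain ⟨D1, hD1⟩ := exists_pow_lt_of_lt_one (by positivity : 0 < ε / 4 / C) hq1
  set D := D1 + b' with hD
  have hDε : (ρ' / ρ) ^ (D + 1) * C < ε / 4 := by
    have h3 : (ρ' / ρ) ^ (D + 1) ≤ (ρ' / ρ) ^ D1 := pow_le_pow_of_le_one hq0 hq1.le (by omega)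
    have h4 : (ρ' / ρ) ^ (D + 1) < ε / 4 / C := h3.trans_lt hD1
    rwa [lt_div_iff₀ hCpos] at h4
  set hh := sqf HA dA 0 D with hhh
  obtain ⟨v1, v2, v3, v4⟩ := N.vals D
  have hf := N.sqF D
  have htn : Nn (tr (D + 1) hh) := nn_tr hf.nn _
  have htF : ∀ x, Fin' x (tr (D + 1) hh) := fun x => hasN_tr x _ _
  have hfin : ∀ d, D < d → coeff d (tr (D + 1) hh - X ^ b') = 0 := by
    intro d hd
    rw [map_sub, coeff_tr, if_neg (by omega), coeff_X_pow, if_neg (by omega), sub_zero]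
  obtain ⟨ρs, r1, r2, r3⟩ := exists_root h1 hfin (s := tr (D + 1) hh - X ^ b') (by
    rw [val_sub hx0.le (htF x0) (fin_X_pow b'), val_X_pow]
    have h3 : val x0 (tr (D + 1) hh) ≤ val x0 hh := by
      refine val_le_val hx0.le htn (fun d => ?_) (v1.mono hx0.le hxρ.le)
      rw [map_sub, coeff_tr]
      split_ifs
      · rw [sub_self]
      · rw [sub_zero]; exact hf.nn d
    have h4 : 0 < x0 ^ b' := pow_pos hx0 b'
    rw [v2] at h3
    linarith) (by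
    rw [val_sub h0.le (htF ρ') (fin_X_pow b'), val_X_pow]
    have h3 := val_tail h0 h2.le hf.nn v1 D
    have h4 := v3 ρ' h1 h2.le
    have h5 : (ρ' / ρ) ^ (D + 1) * val ρ hh ≤ (ρ' / ρ) ^ (D + 1) * C :=
      mul_le_mul_of_nonneg_left v4 (pow_nonneg hq0 _)
    linarith)
  exact ⟨b', D, ρs, by omega, by omega, r1, r2.trans h2, r3⟩

end

end Pool.Agent.SSE.HN
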