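import Pool.Agent.SSE.HDefs

/-!
# SSE project, hub part, Section 7 (own hubs): algebra

* `ho_exists_solve`: solution of `W = v + W M` with nonnegative coefficients and finite norms;
* `own_step`: pushing `F - f` out of the row `f`: `c e_f + q e_x`;
* `own_alg`: all rows.
-/

set_option autoImplicit false
set_option linter.unusedSectionVars false

open scoped BigOperators
open Matrix

namespace Pool.Agent.SSE

attribute [local instance] Classical.propDecidable

section basics

variable {r : ℝ} {f g : PowerSeries ℤ}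

lemma TS.ho_add (hr : 0 ≤ r) (hf : TS r f) (hg : TS r g) : TS r (f + g) :=
  ⟨by rw [map_add, hf.c0, hg.c0, add_zero], hf.nn.add hg.nn, by
    unfold FN; rw [map_add]; exact PF.HasN.add hr hf.fn hg.fn⟩

lemma ho_ts_zero (r : ℝ) : TS r 0 :=
  ⟨by simp, HN.nn_zero, by unfold FN; rw [map_zero]; exact PF.hasN_zero r⟩

lemma ho_fn_mul (hr : 0 ≤ r) (hf : FN r f) (hg : FN r g) : FN r (f * g) := by
  unfold FN; rw [map_mul]; exact PF.HasN.mul hr hf hg

lemma ho_fn_add (hr : 0 ≤ r) (hf : FN r f) (hg : FN r g) : FN r (f + g) := by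
  unfold FN; rw [map_add]; exact PF.HasN.add hr hf hg

lemma ho_fn_sub (hr : 0 ≤ r) (hf : FN r f) (hg : FN r g) : FN r (f - g) := by
  unfold FN; rw [map_sub]; exact PF.HasN.sub hr hf hg

lemma ho_coeff0_mul (f g : PowerSeries ℤ) :
    PowerSeries.coeff 0 (f * g) = PowerSeries.coeff 0 f * PowerSeries.coeff 0 g := by
  simp

lemma TS.ho_mul (hr : 0 ≤ r) (hf : TS r f) (hg : TS r g) : TS r (f * g) :=
  ⟨by rw [ho_coeff0_mul, hf.c0, zero_mul], hf.nn.mul hg.nn, ho_fn_mul hr hf.fn hg.fn⟩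

lemma TS.ho_mul_right (hr : 0 ≤ r) (hf : TS r f) (hg : HN.Nn g) (hgN : FN r g) : TS r (f * g) :=
  ⟨by rw [ho_coeff0_mul, hf.c0, zero_mul], hf.nn.mul hg, ho_fn_mul hr hf.fn hgN⟩

lemma ho_ts_sum {α : Type} (hr : 0 ≤ r) (s : Finset α) (F : α → PowerSeries ℤ)
    (h : ∀ a ∈ s, TS r (F a)) : TS r (∑ a ∈ s, F a) := by
  induction s using Finset.induction_on with
  | empty => simpa using ho_ts_zero r
  | insert a s ha ih =>
    rw [Finset.sum_insert ha]
    exact (h a (Finset.mem_insert_self _ _)).ho_add hr (ih fun b hb => h b (Finset.mem_insert_of_mem hb))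

lemma TS.ho_mono {r' : ℝ} (hr' : 0 ≤ r') (h : r' ≤ r) (hf : TS r f) : TS r' f :=
  ⟨hf.c0, hf.nn, PF.HasN.mono hr' h hf.fn⟩

lemma ho_sn_nonneg (hr : 0 ≤ r) (f : PowerSeries ℤ) : 0 ≤ sn r f := PF.nS_nonneg hr _

lemma ho_sn_zero (r : ℝ) : sn r 0 = 0 := by
  unfold sn PF.nS
  simp

lemma ho_sn_add (hr : 0 ≤ r) (hf : TS r f) (hg : TS r g) : sn r (f + g) = sn r f + sn r g :=
  HN.nS_add_of_nn hr hf.nn hg.nn hf.fn hg.fn

lemma ho_sn_mul (hr : 0 ≤ r) (hf : TS r f) (hg : TS r g) : sn r (f * g) = sn r f * sn r g :=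
  HN.nS_mul_of_nn hr hf.nn hg.nn hf.fn hg.fn

lemma ho_sn_sum {α : Type} (hr : 0 ≤ r) (s : Finset α) (F : α → PowerSeries ℤ)
    (h : ∀ a ∈ s, TS r (F a)) : sn r (∑ a ∈ s, F a) = ∑ a ∈ s, sn r (F a) := by
  induction s using Finset.induction_on with
  | empty => simpa using ho_sn_zero r
  | insert a s ha ih =>
    rw [Finset.sum_insert ha, Finset.sum_insert ha,
      ho_sn_add hr (h a (Finset.mem_insert_self _ _))
        (ho_ts_sum hr s F fun b hb => h b (Finset.mem_insert_of_mem hb)),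
      ih fun b hb => h b (Finset.mem_insert_of_mem hb)]

/-- partial sums of the norm -/
noncomputable def ho_pn (r : ℝ) (N : ℕ) (f : PowerSeries ℤ) : ℝ :=
  ∑ d ∈ Finset.range N, ‖PowerSeries.coeff d (HN.toRS f)‖ * r ^ d

lemma ho_pn_nonneg (hr : 0 ≤ r) (N : ℕ) (f : PowerSeries ℤ) : 0 ≤ ho_pn r N f :=
  Finset.sum_nonneg fun _ _ => mul_nonneg (norm_nonneg _) (pow_nonneg hr _)

lemma ho_pn_le (hr : 0 ≤ r) (N : ℕ) (hf : FN r f) : ho_pn r N f ≤ sn r f :=
  hf.sum_le_tsum _ fun _ _ => mul_nonneg (norm_nonneg _) (pow_nonneg hr _)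

lemma ho_pn_add_le (hr : 0 ≤ r) (N : ℕ) (f g : PowerSeries ℤ) :
    ho_pn r N (f + g) ≤ ho_pn r N f + ho_pn r N g := by
  unfold ho_pn
  rw [← Finset.sum_add_distrib]
  refine Finset.sum_le_sum fun d _ => ?_
  rw [map_add, map_add, ← add_mul]
  exact mul_le_mul_of_nonneg_right (norm_add_le _ _) (pow_nonneg hr _)

lemma ho_pn_sum_le {α : Type} (hr : 0 ≤ r) (N : ℕ) (s : Finset α) (F : α → PowerSeries ℤ) :
    ho_pn r N (∑ a ∈ s, F a) ≤ ∑ a ∈ s, ho_pn r N (F a) := by
  induction s using Finset.induction_on with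
  | empty => simp [ho_pn]
  | insert a s ha ih =>
    rw [Finset.sum_insert ha, Finset.sum_insert ha]
    exact (ho_pn_add_le hr N _ _).trans (by linarith)

lemma ho_pn_mul_le (hr : 0 ≤ r) (N : ℕ) (f : PowerSeries ℤ) (hg : FN r g) :
    ho_pn r N (f * g) ≤ ho_pn r N f * sn r g := by
  set t : Polynomial ℝ := PowerSeries.trunc N (HN.toRS f) with ht
  have hcoef : ∀ n, t.coeff n = if n < N then PowerSeries.coeff n (HN.toRS f) else 0 := by
    intro n
    rw [ht, PowerSeries.coeff_trunc]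
  have h1 : ho_pn r N (f * g) = ∑ d ∈ Finset.range N,
      ‖PowerSeries.coeff d ((t : PowerSeries ℝ) * HN.toRS g)‖ * r ^ d := by
    unfold ho_pn
    refine Finset.sum_congr rfl fun d hd => ?_
    rw [map_mul, PowerSeries.coeff_mul, PowerSeries.coeff_mul]
    have hd' := Finset.mem_range.1 hd
    congr 2
    refine Finset.sum_congr rfl fun p hp => ?_
    have := Finset.HasAntidiagonal.mem_antidiagonal.1 hp
    rw [Polynomial.coeff_coe, hcoef, if_pos (by omega)]
  have h2 : ho_pn r N (f * g) ≤ PF.nS r ((t : PowerSeries ℝ) * HN.toRS g) := by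
    rw [h1]
    exact ((PF.hasN_poly r t).mul hr hg).sum_le_tsum _
      fun _ _ => mul_nonneg (norm_nonneg _) (pow_nonneg hr _)
  refine h2.trans ((PF.nS_mul_le hr (PF.hasN_poly r t) hg).trans
    (mul_le_mul_of_nonneg_right ?_ (ho_sn_nonneg hr g)))
  rw [PF.nS_poly]
  have h3 : ∀ n ∈ t.support, n ∈ Finset.range N := by
    intro n hn
    rw [Finset.mem_range]
    by_contra hcon
    exact (Polynomial.mem_support_iff.1 hn) (by rw [hcoef, if_neg hcon])
  calc ∑ n ∈ t.support, ‖t.coeff n‖ * r ^ n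
      ≤ ∑ n ∈ Finset.range N, ‖t.coeff n‖ * r ^ n :=
        Finset.sum_le_sum_of_subset_of_nonneg h3
          fun _ _ _ => mul_nonneg (norm_nonneg _) (pow_nonneg hr _)
    _ = ho_pn r N f := by
        unfold ho_pn
        refine Finset.sum_congr rfl fun n hn => ?_
        rw [hcoef, if_pos (Finset.mem_range.1 hn)]

lemma ho_fn_of_pn (hr : 0 ≤ r) {C : ℝ} (h : ∀ N, ho_pn r N f ≤ C) : FN r f :=
  summable_of_sum_range_le (fun _ => mul_nonneg (norm_nonneg _) (pow_nonneg hr _)) h

end basics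

section solve

variable {F : Type} [Fintype F] {r : ℝ}

/-- `1 - M` is invertible -/
lemma ho_isUnit_det (M : Matrix F F (PowerSeries ℤ))
    (h0 : ∀ i j, PowerSeries.coeff 0 (M i j) = 0) : IsUnit (1 - M).det := by
  rw [PowerSeries.isUnit_iff_constantCoeff]
  have h1 : PowerSeries.constantCoeff (1 - M).det =
      ((PowerSeries.constantCoeff (R := ℤ)).mapMatrix (1 - M)).det := by
    rw [RingHom.map_det]
  have h2 : (PowerSeries.constantCoeff (R := ℤ)).mapMatrix (1 - M) = 1 := by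
    ext i j
    have h3 : PowerSeries.constantCoeff (M i j) = 0 := by
      rw [← PowerSeries.coeff_zero_eq_constantCoeff_apply]
      exact h0 i j
    by_cases hij : i = j
    · subst hij
      simp [h3]
    · simp [Matrix.one_apply_ne hij, h3]
  rw [h1, h2, det_one]
  exact isUnit_one

lemma ho_nn_of_solve {M : Matrix F F (PowerSeries ℤ)} (h0 : ∀ i j, PowerSeries.coeff 0 (M i j) = 0)
    (hM : ∀ i j, HN.Nn (M i j)) {v W : F → PowerSeries ℤ} (hv : ∀ j, HN.Nn (v j))
    (hW : ∀ j, W j = v j + ∑ k, W k * M k j) (j : F) : HN.Nn (W j) := by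
  have key : ∀ d j, 0 ≤ PowerSeries.coeff d (W j) := by
    intro d
    induction d using Nat.strong_induction_on with
    | _ d ih =>
      intro j
      rw [hW j, map_add, map_sum]
      refine add_nonneg (hv j d) (Finset.sum_nonneg fun k _ => ?_)
      rw [PowerSeries.coeff_mul]
      refine Finset.sum_nonneg fun p hp => ?_
      have hp' := Finset.HasAntidiagonal.mem_antidiagonal.1 hp
      rcases Nat.eq_zero_or_pos p.2 with h | h
      · rw [h, h0, mul_zero]
      · exact mul_nonneg (ih _ (by omega) k) (hM k j _)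
  exact fun d => key d j

/-- existence of the solution of `W = v + W M` -/
theorem ho_exists_solve (hr : 0 ≤ r) {g : F → ℝ} {θ : ℝ} {M : Matrix F F (PowerSeries ℤ)}
    (hG : GoodW r g θ M) (hM : ∀ i j, TS r (M i j)) (v : F → PowerSeries ℤ)
    (hv : ∀ j, TS r (v j)) :
    ∃ W : F → PowerSeries ℤ, (∀ j, TS r (W j)) ∧ ∀ j, W j = v j + ∑ k, W k * M k j := by
  have hu := ho_isUnit_det M fun i j => (hM i j).c0
  set W : F → PowerSeries ℤ := v ᵥ* (1 - M)⁻¹ with hWdef
  have hW : ∀ j, W j = v j + ∑ k, W k * M k j := by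
    intro j
    have h1 : W ᵥ* (1 - M) = v := by
      rw [hWdef, vecMul_vecMul, nonsing_inv_mul _ hu, vecMul_one]
    have h2 := congrFun h1 j
    rw [vecMul_sub, vecMul_one] at h2
    have h3 : (W ᵥ* M) j = ∑ k, W k * M k j := rfl
    rw [← h2, Pi.sub_apply, h3]
    ring
  have hnn := ho_nn_of_solve (fun i j => (hM i j).c0) (fun i j => (hM i j).nn) (fun j => (hv j).nn) hW
  refine ⟨W, fun j => ⟨?_, hnn j, ?_⟩, hW⟩
  · rw [hW j, map_add, (hv j).c0, map_sum, Finset.sum_eq_zero, add_zero]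
    intro k _
    rw [ho_coeff0_mul, (hM k j).c0, mul_zero]
  · set A := ∑ j, sn r (v j) * g j with hA
    have hθ : 0 < 1 - θ := by linarith [hG.lt]
    have key : ∀ N, ∑ j, ho_pn r N (W j) * g j ≤ A / (1 - θ) := by
      intro N
      have h1 : ∀ j, ho_pn r N (W j) ≤ sn r (v j) + ∑ k, ho_pn r N (W k) * sn r (M k j) := by
        intro j
        conv_lhs => rw [hW j]
        refine (ho_pn_add_le hr N _ _).trans (add_le_add (ho_pn_le hr N (hv j).fn) ?_)
        refine (ho_pn_sum_le hr N _ _).trans (Finset.sum_le_sum fun k _ => ?_)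
        exact ho_pn_mul_le hr N _ (hM k j).fn
      have h2 : ∑ j, ho_pn r N (W j) * g j ≤ A + θ * ∑ j, ho_pn r N (W j) * g j := by
        calc ∑ j, ho_pn r N (W j) * g j
            ≤ ∑ j, (sn r (v j) + ∑ k, ho_pn r N (W k) * sn r (M k j)) * g j :=
              Finset.sum_le_sum fun j _ => mul_le_mul_of_nonneg_right (h1 j) (hG.pos j).le
          _ = A + ∑ k, ho_pn r N (W k) * ∑ j, sn r (M k j) * g j := by
              simp only [add_mul, Finset.sum_add_distrib, Finset.sum_mul, Finset.mul_sum]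
              rw [Finset.sum_comm, hA]
              congr 1
              refine Finset.sum_congr rfl fun k _ => Finset.sum_congr rfl fun j _ => ?_
              ring
          _ ≤ A + ∑ k, ho_pn r N (W k) * (θ * g k) := by
              refine add_le_add le_rfl (Finset.sum_le_sum fun k _ => ?_)
              exact mul_le_mul_of_nonneg_left (hG.row k) (ho_pn_nonneg hr N _)
          _ = A + θ * ∑ j, ho_pn r N (W j) * g j := by
              rw [Finset.mul_sum]
              congr 1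
              refine Finset.sum_congr rfl fun k _ => ?_
              ring
      rw [le_div_iff₀ hθ]
      linarith
    refine ho_fn_of_pn hr (C := A / (1 - θ) / g j) fun N => ?_
    rw [le_div_iff₀ (hG.pos j)]
    refine le_trans ?_ (key N)
    exact Finset.single_le_sum (f := fun j => ho_pn r N (W j) * g j)
      (fun k _ => mul_nonneg (ho_pn_nonneg hr N _) (hG.pos k).le) (Finset.mem_univ j)

/-- uniqueness -/
lemma ho_solve_unique {M : Matrix F F (PowerSeries ℤ)}
    (h0 : ∀ i j, PowerSeries.coeff 0 (M i j) = 0) {v W W' : F → PowerSeries ℤ}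
    (hW : ∀ j, W j = v j + ∑ k, W k * M k j) (hW' : ∀ j, W' j = v j + ∑ k, W' k * M k j) :
    W = W' := by
  have hu := ho_isUnit_det M h0
  have h1 : (W - W') ᵥ* (1 - M) = 0 := by
    funext j
    rw [vecMul_sub, vecMul_one]
    have h3 : ((W - W') ᵥ* M) j = ∑ k, (W k - W' k) * M k j := rfl
    rw [Pi.sub_apply, h3, Pi.sub_apply, Pi.zero_apply]
    simp only [sub_mul, Finset.sum_sub_distrib]
    linear_combination hW j - hW' j
  have h2 : W - W' = (W - W') ᵥ* (1 - M) ᵥ* (1 - M)⁻¹ := by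
    rw [vecMul_vecMul, mul_nonsing_inv _ hu, vecMul_one]
  rw [h1, zero_vecMul] at h2
  exact sub_eq_zero.1 h2

/-- uniqueness, columns -/
lemma ho_solve_unique' {M : Matrix F F (PowerSeries ℤ)}
    (h0 : ∀ i j, PowerSeries.coeff 0 (M i j) = 0) {v W W' : F → PowerSeries ℤ}
    (hW : ∀ j, W j = v j + ∑ k, M j k * W k) (hW' : ∀ j, W' j = v j + ∑ k, M j k * W' k) :
    W = W' := by
  refine ho_solve_unique (M := Mᵀ) (fun i j => h0 j i) (v := v) (fun j => ?_) fun j => ?_
  · rw [hW j]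
    congr 1
    exact Finset.sum_congr rfl fun k _ => mul_comm _ _
  · rw [hW' j]
    congr 1
    exact Finset.sum_congr rfl fun k _ => mul_comm _ _

end solve

end Pool.Agent.SSE
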