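import Pool.Agent.SSE.HOwn1
import Pool.Agent.SSE.HNum
import Pool.Agent.SSE.HN4

/-!
# SSE project, hub part, Section 7 (own hubs): the divisions of the loop of an own hub
-/

set_option autoImplicit false
set_option linter.unusedSectionVars false

open scoped BigOperators
open Matrix

namespace Pool.Agent.SSE

attribute [local instance] Classical.propDecidable

/-- legal divisions of the loop of an own hub -/
inductive DivF (r : ℝ) : PowerSeries ℤ → List (PowerSeries ℤ) → PowerSeries ℤ → Prop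
  | nil (h : PowerSeries ℤ) : DivF r h [] h
  | cons {h s h' : PowerSeries ℤ} {l : List (PowerSeries ℤ)} (hs : TS r s) (s0 : s ≠ 0)
      (s1 : sn r s < 1) (sX : s = PowerSeries.X ∨ PowerSeries.coeff 1 s = 0) (hle : HN.Nn (h - s))
      (H : DivF r (HN.dv h s) l h') : DivF r h (s :: l) h'

section

variable {r : ℝ}

lemma DivF.append {h h' h'' : PowerSeries ℤ} {l l' : List (PowerSeries ℤ)} (H : DivF r h l h')
    (H' : DivF r h' l' h'') : DivF r h (l ++ l') h'' := by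
  induction H with
  | nil h => simpa using H'
  | cons hs s0 s1 sX hle _ ih => exact DivF.cons hs s0 s1 sX hle (ih H')

lemma ho_ts_dv (hr : 0 ≤ r) {h s : PowerSeries ℤ} (hh : TS r h) (hs : TS r s) (s1 : sn r s < 1)
    (hle : HN.Nn (h - s)) : TS r (HN.dv h s) :=
  ⟨HN.coeff_zero_dv hs.c0 hh.c0, HN.nn_dv hs.c0 hs.nn hle, HN.hasN_dv hr hs.c0 hs.fn s1 hh.fn⟩

lemma ho_sn_dv_le (hr : 0 ≤ r) {h s : PowerSeries ℤ} (hh : TS r h) (h1 : sn r h ≤ 1) (hs : TS r s)
    (s1 : sn r s < 1) (hle : HN.Nn (h - s)) : sn r (HN.dv h s) ≤ sn r h := by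
  have e1 := HN.nS_dv hr hs.c0 hs.nn hs.fn s1 hle hh.fn
  change (1 - sn r (HN.dv h s)) * (1 - sn r s) = 1 - sn r h at e1
  have e2 := ho_sn_nonneg hr s
  have e3 := ho_sn_nonneg hr (HN.dv h s)
  by_contra hcon
  push Not at hcon
  nlinarith

theorem DivF.ts (hr : 0 ≤ r) {h h' : PowerSeries ℤ} {l : List (PowerSeries ℤ)} (H : DivF r h l h')
    (hh : TS r h) (h1 : sn r h ≤ 1) : TS r h' ∧ sn r h' ≤ sn r h := by
  induction H with
  | nil h => exact ⟨hh, le_rfl⟩
  | cons hs s0 s1 sX hle _ ih =>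
    have e1 := ho_sn_dv_le hr hh h1 hs s1 hle
    obtain ⟨e2, e3⟩ := ih (ho_ts_dv hr hh hs s1 hle) (e1.trans h1)
    exact ⟨e2, e3.trans e1⟩

theorem DivF.prod {h h' : PowerSeries ℤ} {l : List (PowerSeries ℤ)} (H : DivF r h l h') :
    (1 - h') * (l.map fun s => 1 - s).prod = 1 - h := by
  induction H with
  | nil h => simp
  | cons hs s0 s1 sX hle _ ih =>
    rw [List.map_cons, List.prod_cons, mul_left_comm, ih, mul_comm, HN.one_sub_dv_mul hs.c0]

lemma ho_ts_X_pow (hr : 0 ≤ r) {p : ℕ} (hp : 1 ≤ p) : TS r (PowerSeries.X ^ p) := by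
  refine ⟨HN.coeff_zero_X_pow hp, HN.nn_X_pow p, ?_⟩
  exact HN.fin_X_pow p

lemma ho_sn_X_pow (hr : 0 ≤ r) (p : ℕ) : sn r (PowerSeries.X ^ p) = r ^ p := by
  have h1 : sn r (PowerSeries.X ^ p) = HN.val r (PowerSeries.X ^ p) :=
    HN.nS_eq_val hr (HN.nn_X_pow p)
  rw [h1, HN.val_X_pow]

lemma ho_sn_X_pow_lt (hr : 0 ≤ r) (hr1 : r < 1) {p : ℕ} (hp : 1 ≤ p) :
    sn r (PowerSeries.X ^ p) < 1 := by
  rw [ho_sn_X_pow hr]
  exact pow_lt_one₀ hr hr1 (by omega)

lemma ho_X_pow_ne (p : ℕ) : (PowerSeries.X ^ p : PowerSeries ℤ) ≠ 0 := pow_ne_zero _ PowerSeries.X_ne_zero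

lemma divF_rep (hr : 0 ≤ r) (hr1 : r < 1) {h : PowerSeries ℤ} (hh : HN.Nn h)
    (h0 : PowerSeries.coeff 0 h = 0) {p : ℕ} (hp : 1 ≤ p) (k : ℕ)
    (hk : (k : ℤ) ≤ PowerSeries.coeff p h) :
    DivF r h (List.replicate k (PowerSeries.X ^ p)) (HN.dvi h p k) := by
  induction k with
  | zero => simpa using DivF.nil h
  | succ k ih =>
    have hk' : (k : ℤ) ≤ PowerSeries.coeff p h := by
      push_cast at hk
      linarith
    rw [List.replicate_succ']
    refine (ih hk').append ?_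
    rw [HN.dvi_succ h hp]
    refine DivF.cons (ho_ts_X_pow hr hp) (ho_X_pow_ne p) (ho_sn_X_pow_lt hr hr1 hp) ?_
      (HN.dvi_legit hh h0 hp hk (Nat.lt_succ_self k)) (DivF.nil _)
    rcases Nat.lt_or_ge 1 p with h2 | h2
    · right
      rw [PowerSeries.coeff_X_pow, if_neg (by omega)]
    · left
      rw [show p = 1 by omega, pow_one]

lemma divF_low (hr : 0 ≤ r) (hr1 : r < 1) {c : PowerSeries ℤ} (hc : HN.Nn c)
    (h0 : PowerSeries.coeff 0 c = 0) (P : ℕ) :
    ∃ l : List (PowerSeries ℤ), (l : Multiset (PowerSeries ℤ)) =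
      ∑ q ∈ Finset.range P, Multiset.replicate (HN.lm c (q + 1)) (PowerSeries.X ^ (q + 1)) ∧
      DivF r c l (HN.lowS c P) := by
  induction P with
  | zero => exact ⟨[], by simp, DivF.nil c⟩
  | succ P ih =>
    obtain ⟨l, hl, H⟩ := ih
    obtain ⟨i1, i2, i3⟩ := HN.low_aux hc h0 P
    refine ⟨l ++ List.replicate (HN.lm c (P + 1)) (PowerSeries.X ^ (P + 1)), ?_, H.append ?_⟩
    · rw [Finset.sum_range_succ, ← hl, ← Multiset.coe_replicate, ← Multiset.coe_add]
    · exact divF_rep hr hr1 i1 (i2 0 (by omega)) (by omega) _ i3.le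

/-- the divisions of the loop of an own hub -/
theorem exists_divF (hr : 0 ≤ r) (hr1 : r < 1) {c : PowerSeries ℤ} (hc : TS r c) (hc1 : sn r c < 1)
    {P : ℕ} (hP : 1 ≤ P) :
    ∃ l : List (PowerSeries ℤ), (l : Multiset (PowerSeries ℤ)) = HN.own c P ∧ DivF r c l 0 := by
  obtain ⟨l, hl, H⟩ := divF_low hr hr1 hc.nn hc.c0 P
  obtain ⟨e1, e2⟩ := H.ts hr hc hc1.le
  by_cases h0 : HN.lowS c P = 0
  · refine ⟨l, ?_, ?_⟩
    · unfold HN.own
      rw [if_pos h0, add_zero, hl]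
    · rw [← h0]
      exact H
  · refine ⟨l ++ [HN.lowS c P], ?_, ?_⟩
    · unfold HN.own
      rw [if_neg h0, ← hl]
      rfl
    · refine H.append (DivF.cons e1 h0 (lt_of_le_of_lt e2 hc1) (Or.inr ?_) ?_ ?_)
      · exact (HN.low_aux hc.nn hc.c0 P).2.1 1 hP
      · rw [sub_self]
        exact HN.nn_zero
      · have : HN.dv (HN.lowS c P) (HN.lowS c P) = 0 := by
          unfold HN.dv
          rw [sub_self, zero_mul]
        rw [this]
        exact DivF.nil 0

end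

end Pool.Agent.SSE
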