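import Pool.Agent.SSE.HOwn2
import Pool.Agent.SSE.HMove

/-!
# SSE project, hub part, Section 7 (own hubs): the hub states
-/

set_option autoImplicit false
set_option linter.unusedSectionVars false

open scoped BigOperators
open Matrix Polynomial

namespace Pool.Agent.SSE

attribute [local instance] Classical.propDecidable

variable {K : Type} [AddCommGroup K] [Module ℤ[X] K] {δ : ℤ[X]} {D : PFM K δ} {qB : ℕ[X]}
  {S0 : PX K δ qB} {r θ : ℝ} {F : Type} [Fintype F] {cl : Option F → K} {cst : K}
  {L : Multiset (PowerSeries ℤ)}

lemma glue_updateRow (w : Option F → PowerSeries ℤ) (R : F → Option F → PowerSeries ℤ) (f : F)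
    (N : Option F → PowerSeries ℤ) :
    (glue w R).updateRow (some f) N = glue w (Function.update R f N) := by
  refine Matrix.ext fun i j => ?_
  rcases i with _ | k
  · rw [updateRow_ne (by simp), glue_none, glue_none]
  · by_cases hk : k = f
    · subst hk
      rw [updateRow_self, glue_some, Function.update_self]
    · rw [updateRow_ne (by simp [hk]), glue_some, glue_some, Function.update_of_ne hk]

lemma divRow_loopR (w : Option F → PowerSeries ℤ) (R : F → Option F → PowerSeries ℤ) (f : F)
    (h q s : PowerSeries ℤ) :
    divRow (glue w (Function.update R f (loopR f h q))) (some f) s =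
      loopR f (HN.dv h s) (q * HN.geo s) := by
  funext j
  unfold divRow loopR
  rw [glue_some, Function.update_self]
  rcases j with _ | k
  · simp [mul_comm]
  · by_cases hk : k = f
    · subst hk
      simp only [Option.elim_some, if_true]
      unfold HN.dv
      ring
    · simp [hk]

lemma loopR_zero (f : F) (q : PowerSeries ℤ) : loopR f 0 q = pureR (F := F) q := by
  funext j
  rcases j with _ | k
  · rfl
  · simp [loopR, pureR]

/-- the hub data which are constant during the divisions -/
structure OwnCtx (D : PFM K δ) (r : ℝ) (cl : Option F → K) (cst : K) {ι : Type} [Fintype ι]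
    (e : ι → F) (w : Option F → PowerSeries ℤ) : Prop where
  inj : Function.Injective e
  vis : ∀ i, ∃ a, 1 ≤ PowerSeries.coeff a (w (some (e i)))
  rep : Rep D (fun i => cl (some (e i)))
  cpos : 0 < D.tau cst
  clt : ∀ f, D.tau cst < D.lam⁻¹ * D.tau (cl (some f))
  r0 : 0 ≤ r
  r1 : r < 1

lemma good_loop {g : F → ℝ} {R : F → Option F → PowerSeries ℤ} (hG : GoodW r g θ (rFF R)) (f : F)
    {h q : PowerSeries ℤ} (h1 : sn r h ≤ θ) (w : Option F → PowerSeries ℤ) :
    GoodW r g θ (pFF (glue w (Function.update R f (loopR f h q)))) := by
  refine ⟨hG.pos, hG.nonneg, hG.lt, fun k => ?_⟩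
  by_cases hk : k = f
  · subst hk
    have h0 : ∀ l, pFF (glue w (Function.update R k (loopR k h q))) k l = if l = k then h else 0 :=
      fun l => by
      unfold pFF
      rw [submatrix_apply, glue_some, Function.update_self]
      rfl
    simp only [h0]
    rw [Finset.sum_eq_single k]
    · rw [if_pos rfl]
      exact mul_le_mul_of_nonneg_right h1 (hG.pos k).le
    · intro l _ hl
      rw [if_neg hl, ho_sn_zero, zero_mul]
    · intro hk
      exact absurd (Finset.mem_univ _) hk
  · have h0 : ∀ l, pFF (glue w (Function.update R f (loopR f h q))) k l = rFF R k l := fun l => by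
      unfold pFF
      rw [submatrix_apply, glue_some, Function.update_of_ne hk]
      rfl
    simp only [h0]
    exact hG.row k

/-- division of the loop of the own hub `f` along a list -/
theorem Hub.divF {ι : Type} [Fintype ι] {e : ι → F} {w : Option F → PowerSeries ℤ}
    (C : OwnCtx D r cl cst e w) {g : F → ℝ} {R : F → Option F → PowerSeries ℤ}
    (hG : GoodW r g θ (rFF R)) (f : F) {h h' : PowerSeries ℤ} {l : List (PowerSeries ℤ)}
    (Hd : DivF r h l h') :
    ∀ {q : PowerSeries ℤ} {L : Multiset (PowerSeries ℤ)}, TS r h → sn r h ≤ θ →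
      Hub D S0 r cl cst (glue w (Function.update R f (loopR f h q))) L →
      ∃ q', q' * (l.map fun s => 1 - s).prod = q ∧
        Hub D S0 r cl cst (glue w (Function.update R f (loopR f h' q'))) ((l : Multiset _) + L) := by
  induction Hd with
  | nil h =>
    intro q L _ _ hH
    exact ⟨q, by simp, by simpa using hH⟩
  | @cons h s h' l hs s0 s1 sX hle Hd ih =>
    intro q L hh hθ hH
    have e1 : sn r h ≤ 1 := hθ.trans hG.lt.le
    have h2 := hH.div_f ⟨g, θ, good_loop hG f hθ w⟩ e C.inj
      (fun i => by rw [glue_none]; exact C.vis i) C.rep f C.cpos (C.clt f) s hs s0 s1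
      (by
        rw [glue_some, Function.update_self]
        simpa [loopR] using hle) sX.symm
    rw [divRow_loopR, glue_updateRow, Function.update_idem] at h2
    obtain ⟨q', hq', h3⟩ := ih (ho_ts_dv C.r0 hh hs s1 hle) ((ho_sn_dv_le C.r0 hh e1 hs s1 hle).trans hθ) h2
    refine ⟨q', ?_, ?_⟩
    · rw [List.map_cons, List.prod_cons, mul_left_comm, hq']
      linear_combination q * HN.one_sub_mul_geo hs.c0
    · have h4 : ((s :: l : List (PowerSeries ℤ)) : Multiset (PowerSeries ℤ)) + L =
          (l : Multiset (PowerSeries ℤ)) + (s ::ₘ L) := by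
        rw [← Multiset.cons_coe, Multiset.cons_add, Multiset.add_cons]
      rw [h4]
      exact h3

/-- the own hubs: all rows become pure, the loop vertices are the multisets `own c P` -/
theorem Hub.ownSeq {ι : Type} [Fintype ι] {e : ι → F} {w : Option F → PowerSeries ℤ}
    (C : OwnCtx D r cl cst e w) {R : F → Option F → PowerSeries ℤ} {cs : List (PowerSeries ℤ)}
    {φ : F → PowerSeries ℤ} (hO : OwnSeq r θ R cs φ) (hθ : θ < 1) {P : ℕ} (hP : 1 ≤ P) :
    ∀ {L : Multiset (PowerSeries ℤ)}, Hub D S0 r cl cst (glue w R) L →
      Hub D S0 r cl cst (glue w fun f => pureR (φ f)) ((cs.map fun c => HN.own c P).sum + L) := by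
  induction hO with
  | done φ hφ =>
    intro L h
    simpa using h
  | step R f W c q cs φ g hG hR hPf hO ih =>
    intro L h
    -- the push
    have h1 := h.expand (some f) (fun j => Option.elim j 0 W) (loopR f c q)
      (fun k => by
        rcases k with _ | k
        · exact HN.nn_zero
        · exact (hPf.W_ts k).nn)
      (fun k => by
        rcases k with _ | k
        · exact (ho_ts_zero r).fn
        · exact (hPf.W_ts k).fn)
      hPf.W_f
      (fun j => by
        rw [Fintype.sum_option]
        simp only [Option.elim_none, zero_mul, zero_add, Option.elim_some, glue_some]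
        rcases j with _ | k
        · simp only [loopR, Option.elim_none, sub_zero]
          exact hPf.ret.symm
        · simp only [loopR, Option.elim_some]
          by_cases hk : k = f
          · subst hk
            rw [if_pos rfl, hPf.W_f, sub_zero]
            exact hPf.loop.symm
          · rw [if_neg hk]
            linear_combination -(hPf.other k hk))
      (fun j => by
        rcases j with _ | k
        · exact hPf.q_ts.nn
        · simp only [loopR, Option.elim_some]
          split_ifs
          · exact hPf.c_ts.nn
          · exact HN.nn_zero)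
      (by simp) (by simp)
    rw [glue_updateRow] at h1
    -- the divisions
    have hc1 : sn r c < 1 := lt_of_le_of_lt hPf.c_le hG.lt
    obtain ⟨l, hl, Hd⟩ := exists_divF C.r0 C.r1 hPf.c_ts hc1 hP
    obtain ⟨q', hq', h2⟩ := Hub.divF C hG f Hd hPf.c_ts hPf.c_le h1
    have h3 : q' = q * HN.geo c := by
      have h4 := Hd.prod
      rw [sub_zero, one_mul] at h4
      rw [h4] at hq'
      have h5 := HN.one_sub_mul_geo hPf.c_ts.c0
      linear_combination HN.geo c * hq' - q' * h5
    rw [loopR_zero, h3, hl] at h2
    have h4 := ih h2
    rw [List.map_cons, List.sum_cons]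
    have h5 : HN.own c P + (cs.map fun c => HN.own c P).sum + L =
        (cs.map fun c => HN.own c P).sum + (HN.own c P + L) := by
      rw [add_comm (HN.own c P), add_assoc]
    rw [h5]
    exact h4

end Pool.Agent.SSE
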