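import Pool.Agent.SSE.HOwn3
import Pool.Agent.SSE.HIso

/-!
# SSE project, hub part: pure states, the divisions at the main hub
-/

set_option autoImplicit false
set_option linter.unusedSectionVars false

open scoped BigOperators
open Matrix Polynomial

namespace Pool.Agent.SSE

attribute [local instance] Classical.propDecidable

variable {K : Type} [AddCommGroup K] [Module ℤ[X] K] {δ : ℤ[X]} {D : PFM K δ} {qB : ℕ[X]}
  {S0 : PX K δ qB} {r : ℝ} {F : Type} [Fintype F] {cl : Option F → K} {cst : K}
  {L : Multiset (PowerSeries ℤ)} {φ : F → PowerSeries ℤ}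

lemma hp_coeff_one_mul {f g : PowerSeries ℤ} (hf : PowerSeries.coeff 0 f = 0)
    (hg : PowerSeries.coeff 0 g = 0) : PowerSeries.coeff 1 (f * g) = 0 := by
  rw [PowerSeries.coeff_mul]
  refine Finset.sum_eq_zero fun p hp => ?_
  have hp' := Finset.HasAntidiagonal.mem_antidiagonal.1 hp
  rcases Nat.eq_zero_or_pos p.1 with h | h
  · rw [h, hf, zero_mul]
  · rw [show p.2 = 0 by omega, hg, mul_zero]

/-- push of the hubs `F` out of the row of the main hub -/
theorem Hub.pushX (hr : 0 ≤ r) {w : Option F → PowerSeries ℤ}
    (h : Hub D S0 r cl cst (glue w fun f => pureR (φ f)) L) :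
    Hub D S0 r cl cst (pureM (w none + ∑ f, w (some f) * φ f) φ) L := by
  obtain ⟨Y, _, s, q, hL, hY⟩ := h
  have hp := hY.p_ts
  have hφ : ∀ f, TS r (φ f) := fun f => hp (some f) none
  have hw : ∀ j, TS r (w j) := fun j => hp none j
  have hprod : ∀ f, TS r (w (some f) * φ f) := fun f => (hw _).ho_mul hr (hφ f)
  have hsum : TS r (∑ f, w (some f) * φ f) := ho_ts_sum hr _ _ fun f _ => hprod f
  have h1 := hY.expand none (fun j => Option.elim j 0 fun f => w (some f))
    (fun j => Option.elim j (w none + ∑ f, w (some f) * φ f) fun _ => 0)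
    (fun k => by
      rcases k with _ | k
      · exact HN.nn_zero
      · exact (hw _).nn)
    (fun k => by
      rcases k with _ | k
      · exact (ho_ts_zero r).fn
      · exact (hw _).fn)
    rfl
    (fun j => by
      rw [Fintype.sum_option]
      rcases j with _ | j
      · simp [pureR]
      · simp [pureR])
    (fun j => by
      rcases j with _ | j
      · exact (hw _).nn.add hsum.nn
      · exact HN.nn_zero)
    (fun _ n => by
      simp only [Option.elim_none]
      rw [map_add]
      have e1 := hY.qB_le n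
      have e2 := hsum.nn n
      have e3 : PowerSeries.coeff n (glue w (fun f => pureR (φ f)) none none) =
        PowerSeries.coeff n (w none) := rfl
      rw [e3] at e1
      linarith)
    (fun _ j => by
      rcases j with _ | j
      · simp only [Option.elim_none]
        rw [map_add, map_sum, Finset.sum_eq_zero, add_zero]
        · exact hY.low none
        · intro f _
          exact hp_coeff_one_mul (hw _).c0 (hφ f).c0
      · simp)
  have h2 : (glue w fun f => pureR (φ f)).updateRow none
      (fun j => Option.elim j (w none + ∑ f, w (some f) * φ f) fun _ => 0) =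
      pureM (w none + ∑ f, w (some f) * φ f) φ := by
    refine Matrix.ext fun i j => ?_
    rcases i with _ | i
    · rw [updateRow_self]
      rcases j with _ | j <;> simp [pureM]
    · rw [updateRow_ne (by simp)]
      rcases j with _ | j <;> simp [pureM, pureR]
  rw [h2] at h1
  exact ⟨Y, inferInstance, s, q, hL, h1⟩

lemma good_pureM (H : PowerSeries ℤ) (φ : F → PowerSeries ℤ) : Good r (pFF (pureM H φ)) := by
  refine ⟨fun _ => 1, 0, fun _ => one_pos, le_rfl, one_pos, fun f => ?_⟩
  have h0 : ∀ k, pFF (pureM H φ) f k = 0 := fun k => by simp [pFF, pureM]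
  simp [h0, ho_sn_zero]

lemma divRow_pureM (H s : PowerSeries ℤ) (φ : F → PowerSeries ℤ) :
    (pureM H φ).updateRow none (divRow (pureM H φ) none s) = pureM (HN.dv H s) φ := by
  refine Matrix.ext fun i j => ?_
  rcases i with _ | i
  · rw [updateRow_self]
    unfold divRow HN.dv
    rcases j with _ | j
    · simp [pureM, mul_comm]
    · simp [pureM]
  · rw [updateRow_ne (by simp)]
    rcases j with _ | j <;> simp [pureM]

/-- the divisions at the main hub -/
theorem Hub.divL {H H' : PowerSeries ℤ} {l : List (PowerSeries ℤ)}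
    (Hd : HN.DivL r (ps (toZ qB)) H l H') :
    ∀ {L : Multiset (PowerSeries ℤ)}, Hub D S0 r cl ((X : ℤ[X]) • cl none) (pureM H φ) L →
      Hub D S0 r cl ((X : ℤ[X]) • cl none) (pureM H' φ) ((l : Multiset _) + L) := by
  induction Hd with
  | nil h =>
    intro L hH
    simpa using hH
  | @cons h s h' l hs s0 s3 sN s1 hle Hd ih =>
    intro L hH
    have h1 := hH.div_x (good_pureM h φ) s ⟨s3 0 (by norm_num), hs, sN⟩ s0 s1
      (fun d hd => s3 d hd) (fun n => by
        have e1 := hle n
        rw [map_sub, map_sub, coeff_ps, coeff_toZ] at e1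
        have e2 : pureM h φ none none = h := by simp [pureM]
        rw [e2]
        linarith)
    rw [divRow_pureM] at h1
    have h2 := ih h1
    have h4 : ((s :: l : List (PowerSeries ℤ)) : Multiset (PowerSeries ℤ)) + L =
        (l : Multiset (PowerSeries ℤ)) + (s ::ₘ L) := by
      rw [← Multiset.cons_coe, Multiset.cons_add, Multiset.add_cons]
    rw [h4]
    exact h2

/-- a smaller radius -/
theorem Hub.mono_r {p : Matrix (Option F) (Option F) (PowerSeries ℤ)} {r' : ℝ} (hr' : 1 < D.lam * r')
    (h : r' ≤ r) (hH : Hub D S0 r cl cst p L) : Hub D S0 r' cl cst p L := by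
  obtain ⟨Y, _, s, q, hL, hY⟩ := hH
  have hlam : 0 < D.lam := lt_trans one_pos D.one_lt
  have hr0 : 0 ≤ r' := by
    by_contra hcon
    push Not at hcon
    nlinarith
  obtain ⟨M, hM, hR⟩ := hY.reach
  refine ⟨Y, inferInstance, s, q, hL, hr', h.trans hY.r_le, fun i j => (hY.p_ts i j).ho_mono hr0 h,
    fun y => (hY.s_ts y).ho_mono hr0 h, hY.s_ne,
    fun y => lt_of_le_of_lt (PF.nS_mono hr0 h (hY.s_ts y).fn) (hY.s_lt y),
    fun y => (hY.q_ts y).ho_mono hr0 h, hY.c_pos, hY.cl_pos, hY.qB_le, hY.low,
    M, hM, hR.mono_r hr0 h⟩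

end Pool.Agent.SSE
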