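import Pool.Agent.SSE.K1a

/-!
# SSE-K1 : centrality modulo `ER univ k`

`central_mod`: let `g ∈ EG {i,j}`, `g = 1 mod X^k`. For `l ≠ i, j` (concrete matrix identity, `g` acts trivially on the coordinate `l`)
`g x_il(c) g⁻¹ = 1 + (g e_i) c e_lᵀ = x_il(g_ii c) x_jl(g_ji c) = x_il(c) x_il((g_ii - 1) c) x_jl(g_ji c)`, so
`g x_il(c) g⁻¹ x_il(c)⁻¹ ∈ ER univ k`; the same for `x_jl`, `x_li`, `x_lj`; `x_lm` (`l, m ≠ i, j`) commutes with `g`.
`{e ∈ EG univ : g e g⁻¹ e⁻¹ ∈ ER univ k}` is a subgroup (`ER_conj`), and `x_ij(c) = x_il(c) x_lj(1) x_il(c)⁻¹ x_lj(1)⁻¹` (`xx_stein`).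
`sy_Cg`: the four entries of `sy h a b` in the block `(i,j)` are `1 - ab, ab², -a²b, 1 + ab + a²b²`.
-/

set_option autoImplicit false

namespace Pool.Agent.SSE

open Polynomial Matrix

variable {J : Type} [Fintype J] [DecidableEq J]

private theorem K1_col {i j l : J} (hij : i ≠ j) (hil : i ≠ l) (hjl : j ≠ l)
    {g : SpecialLinearGroup J ℤ[X]} (hg : g ∈ EG ({i, j} : Set J)) (c : ℤ[X]) :
    g * xx hil c = xx hil ((g : Matrix J J ℤ[X]) i i * c) *
      xx hjl ((g : Matrix J J ℤ[X]) j i * c) * g := by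
  have hl : l ∉ ({i, j} : Set J) := by
    simp only [Set.mem_insert_iff, Set.mem_singleton_iff, not_or]
    exact ⟨hil.symm, hjl.symm⟩
  have hrow : ∀ b, (g : Matrix J J ℤ[X]) l b = (1 : Matrix J J ℤ[X]) l b :=
    fun b => (EG_apply hg hl b).1
  apply Subtype.ext
  change (g : Matrix J J ℤ[X]) * (1 + single i l c) =
    (1 + single i l ((g : Matrix J J ℤ[X]) i i * c)) *
      (1 + single j l ((g : Matrix J J ℤ[X]) j i * c)) * (g : Matrix J J ℤ[X])
  have e1 : (1 + single i l ((g : Matrix J J ℤ[X]) i i * c)) *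
      (1 + single j l ((g : Matrix J J ℤ[X]) j i * c)) =
      1 + single i l ((g : Matrix J J ℤ[X]) i i * c) +
        single j l ((g : Matrix J J ℤ[X]) j i * c) := by
    rw [mul_add, mul_one, add_mul, one_mul, single_mul_single_of_ne _ _ _ _ hjl.symm, add_zero]
  rw [e1, mul_add, mul_one, add_mul, add_mul, one_mul, add_assoc]
  congr 1
  ext1 a b
  rw [Matrix.add_apply]
  by_cases hb : b = l
  · subst hb
    rw [mul_single_apply_same]
    by_cases ha : a = i
    · subst ha
      rw [single_mul_apply_same, single_mul_apply_of_ne _ _ _ _ _ hij, hrow b, one_apply_eq,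
        mul_one, add_zero]
    · by_cases ha' : a = j
      · subst ha'
        rw [single_mul_apply_same, single_mul_apply_of_ne _ _ _ _ _ ha, hrow b, one_apply_eq,
          mul_one, zero_add]
      · rw [single_mul_apply_of_ne _ _ _ _ _ ha, single_mul_apply_of_ne _ _ _ _ _ ha']
        have ha2 : a ∉ ({i, j} : Set J) := by
          simp only [Set.mem_insert_iff, Set.mem_singleton_iff, not_or]
          exact ⟨ha, ha'⟩
        rw [(EG_apply hg ha2 i).1, one_apply_ne ha, zero_mul, add_zero]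
  · rw [mul_single_apply_of_ne _ _ _ _ _ hb]
    have hz : (g : Matrix J J ℤ[X]) l b = 0 := by
      rw [hrow b, one_apply_ne (Ne.symm hb)]
    have z1 : ∀ (p : J) (d : ℤ[X]), (single p l d * (g : Matrix J J ℤ[X])) a b = 0 := by
      intro p d
      by_cases ha : a = p
      · subst ha
        rw [single_mul_apply_same, hz, mul_zero]
      · rw [single_mul_apply_of_ne _ _ _ _ _ ha]
    rw [z1, z1, add_zero]

private theorem K1_row {i j l : J} (hij : i ≠ j) (hli : l ≠ i) (hlj : l ≠ j)
    {g : SpecialLinearGroup J ℤ[X]} (hg : g ∈ EG ({i, j} : Set J)) (c : ℤ[X]) :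
    xx hli c * g = g * (xx hlj ((g : Matrix J J ℤ[X]) i j * c) *
      xx hli ((g : Matrix J J ℤ[X]) i i * c)) := by
  have hl : l ∉ ({i, j} : Set J) := by
    simp only [Set.mem_insert_iff, Set.mem_singleton_iff, not_or]
    exact ⟨hli, hlj⟩
  have hcol : ∀ b, (g : Matrix J J ℤ[X]) b l = (1 : Matrix J J ℤ[X]) b l :=
    fun b => (EG_apply hg hl b).2
  apply Subtype.ext
  change (1 + single l i c) * (g : Matrix J J ℤ[X]) =
    (g : Matrix J J ℤ[X]) * ((1 + single l j ((g : Matrix J J ℤ[X]) i j * c)) *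
      (1 + single l i ((g : Matrix J J ℤ[X]) i i * c)))
  have e1 : (1 + single l j ((g : Matrix J J ℤ[X]) i j * c)) *
      (1 + single l i ((g : Matrix J J ℤ[X]) i i * c)) =
      1 + single l j ((g : Matrix J J ℤ[X]) i j * c) +
        single l i ((g : Matrix J J ℤ[X]) i i * c) := by
    rw [mul_add, mul_one, add_mul, one_mul, single_mul_single_of_ne _ _ _ _ hlj.symm, add_zero]
  rw [e1, mul_add, mul_add, mul_one, add_mul, one_mul, add_assoc]
  congr 1
  ext1 a b
  rw [Matrix.add_apply]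
  by_cases ha : a = l
  · subst ha
    rw [single_mul_apply_same]
    by_cases hb : b = i
    · subst hb
      rw [mul_single_apply_same, mul_single_apply_of_ne _ _ _ _ _ hij, hcol a, one_apply_eq,
        one_mul, zero_add, mul_comm]
    · by_cases hb' : b = j
      · subst hb'
        rw [mul_single_apply_same, mul_single_apply_of_ne _ _ _ _ _ hb, hcol a, one_apply_eq,
          one_mul, add_zero, mul_comm]
      · rw [mul_single_apply_of_ne _ _ _ _ _ hb, mul_single_apply_of_ne _ _ _ _ _ hb']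
        have hb2 : b ∉ ({i, j} : Set J) := by
          simp only [Set.mem_insert_iff, Set.mem_singleton_iff, not_or]
          exact ⟨hb, hb'⟩
        rw [(EG_apply hg hb2 i).2, one_apply_ne (Ne.symm hb), mul_zero, add_zero]
  · rw [single_mul_apply_of_ne _ _ _ _ _ ha]
    have hz : (g : Matrix J J ℤ[X]) a l = 0 := by
      rw [hcol a, one_apply_ne ha]
    have z1 : ∀ (p : J) (d : ℤ[X]), ((g : Matrix J J ℤ[X]) * single l p d) a b = 0 := by
      intro p d
      by_cases hb : b = p
      · subst hb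
        rw [mul_single_apply_same, hz, zero_mul]
      · rw [mul_single_apply_of_ne _ _ _ _ _ hb]
    rw [z1, z1, add_zero]

private theorem K1_fix {i j p q : J} (hpq : p ≠ q) (hp : p ∉ ({i, j} : Set J))
    (hq : q ∉ ({i, j} : Set J)) {g : SpecialLinearGroup J ℤ[X]} (hg : g ∈ EG ({i, j} : Set J))
    (c : ℤ[X]) : g * xx hpq c = xx hpq c * g := by
  apply Subtype.ext
  change (g : Matrix J J ℤ[X]) * (1 + single p q c) = (1 + single p q c) * (g : Matrix J J ℤ[X])
  rw [mul_add, mul_one, add_mul, one_mul]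
  congr 1
  ext1 a b
  by_cases hb : b = q
  · subst hb
    rw [mul_single_apply_same, (EG_apply hg hp a).2]
    by_cases ha : a = p
    · subst ha
      rw [single_mul_apply_same, (EG_apply hg hq b).1, one_apply_eq, one_apply_eq, one_mul, mul_one]
    · rw [single_mul_apply_of_ne _ _ _ _ _ ha, one_apply_ne ha, zero_mul]
  · rw [mul_single_apply_of_ne _ _ _ _ _ hb]
    by_cases ha : a = p
    · subst ha
      rw [single_mul_apply_same, (EG_apply hg hq b).1, one_apply_ne (Ne.symm hb), mul_zero]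
    · rw [single_mul_apply_of_ne _ _ _ _ _ ha]

/-- the subgroup of the `e` with `g e g⁻¹ e⁻¹ ∈ ER univ k` -/
private def K1_P (g : SpecialLinearGroup J ℤ[X]) (k : ℕ) :
    Subgroup (SpecialLinearGroup J ℤ[X]) where
  carrier := {e | e ∈ EG (Set.univ : Set J) ∧ g * e * g⁻¹ * e⁻¹ ∈ ER (Set.univ : Set J) k}
  one_mem' := by
    refine ⟨one_mem _, ?_⟩
    rw [mul_one, mul_inv_cancel, inv_one, mul_one]
    exact one_mem _
  mul_mem' := by
    rintro e f ⟨he, he'⟩ ⟨hf, hf'⟩
    refine ⟨mul_mem he hf, ?_⟩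
    have : g * (e * f) * g⁻¹ * (e * f)⁻¹ =
        (g * e * g⁻¹ * e⁻¹) * (e * (g * f * g⁻¹ * f⁻¹) * e⁻¹) := by group
    rw [this]
    exact mul_mem he' (ER_conj he hf')
  inv_mem' := by
    rintro e ⟨he, he'⟩
    refine ⟨inv_mem he, ?_⟩
    have : g * e⁻¹ * g⁻¹ * (e⁻¹)⁻¹ = e⁻¹ * (g * e * g⁻¹ * e⁻¹)⁻¹ * (e⁻¹)⁻¹ := by group
    rw [this]
    exact ER_conj (inv_mem he) (inv_mem he')

private theorem K1_mem_col {i j l : J} (hij : i ≠ j) (hil : i ≠ l) (hjl : j ≠ l) {k : ℕ}
    {g : SpecialLinearGroup J ℤ[X]} (hg : g ∈ EG ({i, j} : Set J)) (hk : Cg k g) (c : ℤ[X]) :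
    xx hil c ∈ K1_P g k := by
  refine ⟨xx_mem_EG hil (Set.mem_univ _) (Set.mem_univ _) c, ?_⟩
  have e1 : g * xx hil c * g⁻¹ = xx hil ((g : Matrix J J ℤ[X]) i i * c) *
      xx hjl ((g : Matrix J J ℤ[X]) j i * c) := by
    rw [K1_col hij hil hjl hg c, mul_inv_cancel_right]
  have e2 : xx hil ((g : Matrix J J ℤ[X]) i i * c) *
      xx hjl ((g : Matrix J J ℤ[X]) j i * c) * (xx hil c)⁻¹ =
      xx hil (((g : Matrix J J ℤ[X]) i i - 1) * c) * xx hjl ((g : Matrix J J ℤ[X]) j i * c) := by
    rw [mul_assoc, xx_inv, xx_comm hjl hil hil.symm hjl, ← mul_assoc, xx_mul]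
    congr 2
    ring
  rw [e1, e2]
  have h1 : X ^ k ∣ ((g : Matrix J J ℤ[X]) i i - 1) * c := by
    have := hk i i
    rw [one_apply_eq] at this
    exact Dvd.dvd.mul_right this c
  have h2 : X ^ k ∣ (g : Matrix J J ℤ[X]) j i * c := by
    have := hk j i
    rw [one_apply_ne hij.symm, sub_zero] at this
    exact Dvd.dvd.mul_right this c
  exact mul_mem (xx_mem_ER hil (Set.mem_univ _) (Set.mem_univ _) h1)
    (xx_mem_ER hjl (Set.mem_univ _) (Set.mem_univ _) h2)

private theorem K1_mem_row {i j l : J} (hij : i ≠ j) (hli : l ≠ i) (hlj : l ≠ j) {k : ℕ}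
    {g : SpecialLinearGroup J ℤ[X]} (hg : g ∈ EG ({i, j} : Set J)) (hk : Cg k g) (c : ℤ[X]) :
    xx hli c ∈ K1_P g k := by
  refine ⟨xx_mem_EG hli (Set.mem_univ _) (Set.mem_univ _) c, ?_⟩
  have hg' : g⁻¹ ∈ EG ({i, j} : Set J) := inv_mem hg
  have hk' : Cg k g⁻¹ := Cg_inv hk
  have e1 : g * xx hli c * g⁻¹ = xx hlj (((g⁻¹ : SpecialLinearGroup J ℤ[X]) : Matrix J J ℤ[X]) i j * c) *
      xx hli (((g⁻¹ : SpecialLinearGroup J ℤ[X]) : Matrix J J ℤ[X]) i i * c) := by
    rw [mul_assoc, K1_row hij hli hlj hg' c, mul_inv_cancel_left]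
  have e2 : xx hlj (((g⁻¹ : SpecialLinearGroup J ℤ[X]) : Matrix J J ℤ[X]) i j * c) *
      xx hli (((g⁻¹ : SpecialLinearGroup J ℤ[X]) : Matrix J J ℤ[X]) i i * c) * (xx hli c)⁻¹ =
      xx hlj (((g⁻¹ : SpecialLinearGroup J ℤ[X]) : Matrix J J ℤ[X]) i j * c) *
      xx hli ((((g⁻¹ : SpecialLinearGroup J ℤ[X]) : Matrix J J ℤ[X]) i i - 1) * c) := by
    rw [mul_assoc, xx_inv, xx_mul]
    congr 2
    ring
  rw [e1, e2]
  have h1 : X ^ k ∣ (((g⁻¹ : SpecialLinearGroup J ℤ[X]) : Matrix J J ℤ[X]) i i - 1) * c := by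
    have := hk' i i
    rw [one_apply_eq] at this
    exact Dvd.dvd.mul_right this c
  have h2 : X ^ k ∣ ((g⁻¹ : SpecialLinearGroup J ℤ[X]) : Matrix J J ℤ[X]) i j * c := by
    have := hk' i j
    rw [one_apply_ne hij, sub_zero] at this
    exact Dvd.dvd.mul_right this c
  exact mul_mem (xx_mem_ER hlj (Set.mem_univ _) (Set.mem_univ _) h2)
    (xx_mem_ER hli (Set.mem_univ _) (Set.mem_univ _) h1)

private theorem K1_mem_pair (h3 : ∀ i j : J, ∃ l, l ≠ i ∧ l ≠ j) {i j : J} (hij : i ≠ j) {k : ℕ}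
    {g : SpecialLinearGroup J ℤ[X]} (hg : g ∈ EG ({i, j} : Set J)) (hk : Cg k g) (c : ℤ[X]) :
    xx hij c ∈ K1_P g k := by
  obtain ⟨l, hli, hlj⟩ := h3 i j
  have hg' : g ∈ EG ({j, i} : Set J) := by rwa [Set.pair_comm]
  have m1 : xx hli.symm c ∈ K1_P g k := K1_mem_col hij hli.symm hlj.symm hg hk c
  have m2 : xx hlj 1 ∈ K1_P g k := K1_mem_row hij.symm hlj hli hg' hk 1
  have e : xx hij c = xx hli.symm c * xx hlj 1 * (xx hli.symm c)⁻¹ * (xx hlj 1)⁻¹ := by
    rw [xx_stein hli.symm hlj hij c 1, mul_one]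
    group
  rw [e]
  exact mul_mem (mul_mem (mul_mem m1 m2) (inv_mem m1)) (inv_mem m2)

theorem central_mod (h3 : ∀ i j : J, ∃ l, l ≠ i ∧ l ≠ j) {i j : J} (hij : i ≠ j) {k : ℕ}
    {g : SpecialLinearGroup J ℤ[X]} (hg : g ∈ EG ({i, j} : Set J)) (hk : Cg k g)
    {e : SpecialLinearGroup J ℤ[X]} (he : e ∈ EG (Set.univ : Set J)) :
    g * e * g⁻¹ * e⁻¹ ∈ ER (Set.univ : Set J) k := by
  have hle : EG (Set.univ : Set J) ≤ K1_P g k := by
    unfold EG
    rw [Subgroup.closure_le]
    rintro _ ⟨p, q, hpq, c, -, -, rfl⟩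
    have hg' : g ∈ EG ({j, i} : Set J) := by rwa [Set.pair_comm]
    by_cases hpi : p = i
    · subst hpi
      by_cases hqj : q = j
      · subst hqj
        exact K1_mem_pair h3 hpq hg hk c
      · exact K1_mem_col hij hpq (Ne.symm hqj) hg hk c
    · by_cases hpj : p = j
      · subst hpj
        by_cases hqi : q = i
        · subst hqi
          exact K1_mem_pair h3 hpq hg' hk c
        · exact K1_mem_col hij.symm hpq (Ne.symm hqi) hg' hk c
      · by_cases hqi : q = i
        · subst hqi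
          exact K1_mem_row hij hpq hpj hg hk c
        · by_cases hqj : q = j
          · subst hqj
            exact K1_mem_row hij.symm hpq hpi hg' hk c
          · refine ⟨xx_mem_EG hpq (Set.mem_univ _) (Set.mem_univ _) c, ?_⟩
            have hp : p ∉ ({i, j} : Set J) := by
              simp only [Set.mem_insert_iff, Set.mem_singleton_iff, not_or]
              exact ⟨hpi, hpj⟩
            have hq : q ∉ ({i, j} : Set J) := by
              simp only [Set.mem_insert_iff, Set.mem_singleton_iff, not_or]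
              exact ⟨hqi, hqj⟩
            rw [K1_fix hpq hp hq hg c, mul_inv_cancel_right, mul_inv_cancel]
            exact one_mem _
  exact (hle he).2

theorem sy_mem {i j : J} (h : i ≠ j) (a b : ℤ[X]) : sy h a b ∈ EG ({i, j} : Set J) := by
  have hi : i ∈ ({i, j} : Set J) := by simp
  have hj : j ∈ ({i, j} : Set J) := by simp
  unfold sy
  exact mul_mem (mul_mem (mul_mem (xx_mem_EG h.symm hj hi a) (xx_mem_EG h hi hj b))
    (inv_mem (xx_mem_EG h.symm hj hi a))) (inv_mem (xx_mem_EG h hi hj b))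

theorem sy_Cg {i j : J} (h : i ≠ j) {k : ℕ} {a b : ℤ[X]} (hd : X ^ k ∣ a * b) :
    Cg k (sy h a b) := by
  have e0 : ((sy h a b : SpecialLinearGroup J ℤ[X]) : Matrix J J ℤ[X]) =
      (1 + single j i a) * (1 + single i j b) * (1 + single j i (-a)) * (1 + single i j (-b)) := by
    unfold sy
    rw [xx_inv, xx_inv]
    rfl
  have e1 : ((sy h a b : SpecialLinearGroup J ℤ[X]) : Matrix J J ℤ[X]) =
      1 + (single i i (-(a * b)) + single i j (a * b * b) + single j i (-(a * b * a)) +
        single j j (a * b + a * b * (a * b))) := by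
    rw [e0]
    have z : (1 + single j i a) * (1 + single i j b) =
        (1 : Matrix J J ℤ[X]) + single j i a + single i j b + single j j (a * b) := by
      rw [mul_add, mul_one, add_mul, one_mul, single_mul_single_same]
      abel
    have z2 : ((1 : Matrix J J ℤ[X]) + single j i a + single i j b + single j j (a * b)) *
        (1 + single j i (-a)) = 1 + single i j b + single i i (-(a * b)) + single j j (a * b) +
          single j i (-(a * b * a)) := by
      have c1 : b * -a = -(a * b) := by ring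
      have c2 : a * b * -a = -(a * b * a) := by ring
      have c3 : (single j i (-a) : Matrix J J ℤ[X]) = -single j i a := by
        rw [← single_neg]
      simp only [mul_add, mul_one, add_mul, one_mul, single_mul_single_same,
        single_mul_single_of_ne _ _ _ _ h, c1, c2]
      rw [c3]
      abel
    have z3 : ((1 : Matrix J J ℤ[X]) + single i j b + single i i (-(a * b)) + single j j (a * b) +
          single j i (-(a * b * a))) * (1 + single i j (-b)) =
        1 + (single i i (-(a * b)) + single i j (a * b * b) + single j i (-(a * b * a)) +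
        single j j (a * b + a * b * (a * b))) := by
      have c1 : -(a * b) * -b = a * b * b := by ring
      have c2 : -(a * b * a) * -b = a * b * (a * b) := by ring
      have c3 : (single i j (-b) : Matrix J J ℤ[X]) = -single i j b := by
        rw [← single_neg]
      simp only [mul_add, mul_one, add_mul, one_mul, single_mul_single_same,
        single_mul_single_of_ne _ _ _ _ h.symm, c1, c2]
      rw [c3, single_add]
      abel
    rw [z, z2, z3]
  intro p q
  rw [e1, Matrix.add_apply, add_sub_cancel_left]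
  have hs : ∀ (u v : J) (c : ℤ[X]), X ^ k ∣ c → X ^ k ∣ (single u v c : Matrix J J ℤ[X]) p q := by
    intro u v c hc
    by_cases h' : u = p ∧ v = q
    · obtain ⟨rfl, rfl⟩ := h'
      rwa [single_apply_same]
    · rw [single_apply_of_ne _ _ _ _ _ h']
      exact dvd_zero _
  simp only [Matrix.add_apply]
  exact dvd_add (dvd_add (dvd_add (hs _ _ _ (hd.neg_right)) (hs _ _ _ (hd.mul_right b)))
    (hs _ _ _ ((hd.mul_right a).neg_right))) (hs _ _ _ (dvd_add hd (hd.mul_right _)))

end Pool.Agent.SSE
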