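import Pool.Agent.SSE.KDefs

/-!
# SSE-K1A : basic facts on `x_ij(c)`, `EG S`, `ER S k`, `Cg k`

All identities are identities of matrices `1 + c E_ij`.
`Cg k g` means that `g` is in the kernel of `SL(ℤ[X]) → SL(ℤ[X]/(X^k))` (or argue directly with entries).
`ER_conj`: closure induction.
-/

set_option autoImplicit false

namespace Pool.Agent.SSE

open Polynomial Matrix

variable {J : Type} [Fintype J] [DecidableEq J]

theorem xx_mul {i j : J} (h : i ≠ j) (a b : ℤ[X]) : xx h a * xx h b = xx h (a + b) :=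
  (SpecialLinearGroup.transvection_add h a b).symm

theorem xx_zero {i j : J} (h : i ≠ j) : xx h (0 : ℤ[X]) = 1 :=
  Matrix.SpecialLinearGroup.transvection_coeff_zero h

theorem xx_inv {i j : J} (h : i ≠ j) (a : ℤ[X]) : (xx h a)⁻¹ = xx h (-a) :=
  SpecialLinearGroup.transvection_inv h a

theorem xx_comm {i j p q : J} (h : i ≠ j) (h' : p ≠ q) (h1 : j ≠ p) (h2 : i ≠ q) (a b : ℤ[X]) :
    xx h a * xx h' b = xx h' b * xx h a := by
  apply Subtype.ext
  simp only [Matrix.SpecialLinearGroup.coe_mul, Matrix.SpecialLinearGroup.transvection_coe, mul_add, add_mul,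
    one_mul, mul_one]
  rw [Matrix.single_mul_single_of_ne (h := h1), Matrix.single_mul_single_of_ne (h := h2.symm)]
  abel

theorem xx_stein {i j l : J} (hij : i ≠ j) (hjl : j ≠ l) (hil : i ≠ l) (a b : ℤ[X]) :
    xx hij a * xx hjl b = xx hil (a * b) * xx hjl b * xx hij a := by
  apply Subtype.ext
  simp only [Matrix.SpecialLinearGroup.coe_mul, Matrix.SpecialLinearGroup.transvection_coe, mul_add, add_mul,
    one_mul, mul_one]
  rw [Matrix.single_mul_single_same, Matrix.single_mul_single_of_ne (h := hil.symm),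
    Matrix.single_mul_single_of_ne (h := hil.symm),
    Matrix.single_mul_single_of_ne (h := hjl.symm)]
  simp only [Matrix.zero_mul, add_zero]
  abel

/-- all entries divisible by `X^k` -/
def K1a_D (k : ℕ) (M : Matrix J J ℤ[X]) : Prop := ∀ i j, X ^ k ∣ M i j

theorem K1a_D_add {k : ℕ} {M N : Matrix J J ℤ[X]} (hM : K1a_D k M) (hN : K1a_D k N) :
    K1a_D k (M + N) := fun i j => by
  rw [Matrix.add_apply]; exact dvd_add (hM i j) (hN i j)

theorem K1a_D_neg {k : ℕ} {M : Matrix J J ℤ[X]} (hM : K1a_D k M) : K1a_D k (-M) := fun i j => by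
  rw [Matrix.neg_apply]; exact (dvd_neg).2 (hM i j)

theorem K1a_D_mul_right {k : ℕ} {M : Matrix J J ℤ[X]} (hM : K1a_D k M) (N : Matrix J J ℤ[X]) :
    K1a_D k (M * N) := fun i j => by
  rw [Matrix.mul_apply]; exact Finset.dvd_sum fun l _ => Dvd.dvd.mul_right (hM i l) _

theorem K1a_D_mul_left {k : ℕ} {M : Matrix J J ℤ[X]} (hM : K1a_D k M) (N : Matrix J J ℤ[X]) :
    K1a_D k (N * M) := fun i j => by
  rw [Matrix.mul_apply]; exact Finset.dvd_sum fun l _ => Dvd.dvd.mul_left (hM l j) _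

theorem K1a_Cg_iff {k : ℕ} {g : SpecialLinearGroup J ℤ[X]} :
    Cg k g ↔ K1a_D k ((g : Matrix J J ℤ[X]) - 1) := by
  unfold Cg K1a_D
  simp only [Matrix.sub_apply]

theorem Cg_one (k : ℕ) : Cg k (1 : SpecialLinearGroup J ℤ[X]) := by
  intro i j
  simp

theorem Cg_mul {k : ℕ} {g h : SpecialLinearGroup J ℤ[X]} (hg : Cg k g) (hh : Cg k h) :
    Cg k (g * h) := by
  rw [K1a_Cg_iff] at hg hh ⊢
  have e : ((g * h : SpecialLinearGroup J ℤ[X]) : Matrix J J ℤ[X]) - 1
      = ((g : Matrix J J ℤ[X]) - 1) * (h : Matrix J J ℤ[X]) + ((h : Matrix J J ℤ[X]) - 1) := by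
    rw [Matrix.SpecialLinearGroup.coe_mul, sub_mul, one_mul]; abel
  rw [e]
  exact K1a_D_add (K1a_D_mul_right hg _) hh

theorem K1a_coe_inv_mul (g : SpecialLinearGroup J ℤ[X]) :
    ((g⁻¹ : SpecialLinearGroup J ℤ[X]) : Matrix J J ℤ[X]) * (g : Matrix J J ℤ[X]) = 1 := by
  rw [← Matrix.SpecialLinearGroup.coe_mul, inv_mul_cancel, Matrix.SpecialLinearGroup.coe_one]

theorem K1a_coe_mul_inv (g : SpecialLinearGroup J ℤ[X]) :
    (g : Matrix J J ℤ[X]) * ((g⁻¹ : SpecialLinearGroup J ℤ[X]) : Matrix J J ℤ[X]) = 1 := by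
  rw [← Matrix.SpecialLinearGroup.coe_mul, mul_inv_cancel, Matrix.SpecialLinearGroup.coe_one]

theorem Cg_inv {k : ℕ} {g : SpecialLinearGroup J ℤ[X]} (hg : Cg k g) : Cg k g⁻¹ := by
  rw [K1a_Cg_iff] at hg ⊢
  have e : ((g⁻¹ : SpecialLinearGroup J ℤ[X]) : Matrix J J ℤ[X]) - 1
      = -(((g⁻¹ : SpecialLinearGroup J ℤ[X]) : Matrix J J ℤ[X]) * ((g : Matrix J J ℤ[X]) - 1)) := by
    rw [mul_sub, K1a_coe_inv_mul, mul_one, neg_sub]
  rw [e]
  exact K1a_D_neg (K1a_D_mul_left hg _)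

theorem Cg_conj {k : ℕ} {g : SpecialLinearGroup J ℤ[X]} (hg : Cg k g)
    (e : SpecialLinearGroup J ℤ[X]) : Cg k (e * g * e⁻¹) := by
  rw [K1a_Cg_iff] at hg ⊢
  have h : ((e * g * e⁻¹ : SpecialLinearGroup J ℤ[X]) : Matrix J J ℤ[X]) - 1
      = (e : Matrix J J ℤ[X]) * ((g : Matrix J J ℤ[X]) - 1)
        * ((e⁻¹ : SpecialLinearGroup J ℤ[X]) : Matrix J J ℤ[X]) := by
    rw [Matrix.SpecialLinearGroup.coe_mul, Matrix.SpecialLinearGroup.coe_mul, mul_sub, sub_mul, mul_one,
      K1a_coe_mul_inv]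
  rw [h]
  exact K1a_D_mul_right (K1a_D_mul_left hg _) _

theorem Cg_mono {k k' : ℕ} (h : k ≤ k') {g : SpecialLinearGroup J ℤ[X]} (hg : Cg k' g) :
    Cg k g := fun i j => dvd_trans (pow_dvd_pow X h) (hg i j)

theorem Cg_xx {k : ℕ} {i j : J} (h : i ≠ j) {c : ℤ[X]} (hc : X ^ k ∣ c) : Cg k (xx h c) := by
  intro a b
  rw [Matrix.SpecialLinearGroup.transvection_coe, Matrix.add_apply, add_sub_cancel_left]
  by_cases hab : i = a ∧ j = b
  · obtain ⟨rfl, rfl⟩ := hab
    rw [Matrix.single_apply_same]; exact hc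
  · rw [Matrix.single_apply_of_ne (h := hab)]; exact dvd_zero _

theorem xx_mem_EG {S : Set J} {i j : J} (h : i ≠ j) (hi : i ∈ S) (hj : j ∈ S) (c : ℤ[X]) :
    xx h c ∈ EG S :=
  Subgroup.subset_closure ⟨i, j, h, c, hi, hj, rfl⟩

theorem EG_mono {S T : Set J} (h : S ⊆ T) : EG S ≤ EG T := by
  unfold EG
  apply Subgroup.closure_mono
  rintro g ⟨i, j, hij, c, hi, hj, rfl⟩
  exact ⟨i, j, hij, c, h hi, h hj, rfl⟩

theorem ER_mono {S T : Set J} (h : S ⊆ T) (k : ℕ) : ER S k ≤ ER T k := by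
  unfold ER
  apply Subgroup.closure_mono
  rintro g ⟨e, he, i, j, hij, c, hi, hj, rfl⟩
  exact ⟨e, EG_mono h he, i, j, hij, c, h hi, h hj, rfl⟩

theorem ER_anti (S : Set J) {k k' : ℕ} (h : k ≤ k') : ER S k' ≤ ER S k := by
  unfold ER
  apply Subgroup.closure_mono
  rintro g ⟨e, he, i, j, hij, c, hi, hj, rfl⟩
  refine ⟨e, he, i, j, hij, X ^ (k' - k) * c, hi, hj, ?_⟩
  rw [← mul_assoc, ← pow_add, Nat.add_sub_cancel' h]

theorem ER_le_EG (S : Set J) (k : ℕ) : ER S k ≤ EG S := by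
  unfold ER
  rw [Subgroup.closure_le]
  rintro g ⟨e, he, i, j, hij, c, hi, hj, rfl⟩
  exact mul_mem (mul_mem he (xx_mem_EG hij hi hj _)) (inv_mem he)

theorem xx_mem_ER {S : Set J} {k : ℕ} {i j : J} (h : i ≠ j) (hi : i ∈ S) (hj : j ∈ S) {c : ℤ[X]}
    (hc : X ^ k ∣ c) : xx h c ∈ ER S k := by
  obtain ⟨d, rfl⟩ := hc
  exact Subgroup.subset_closure ⟨1, one_mem _, i, j, h, d, hi, hj, by rw [one_mul, inv_one, mul_one]⟩

theorem ER_conj {S : Set J} {k : ℕ} {e g : SpecialLinearGroup J ℤ[X]} (he : e ∈ EG S)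
    (hg : g ∈ ER S k) : e * g * e⁻¹ ∈ ER S k := by
  unfold ER at hg
  induction hg using Subgroup.closure_induction with
  | mem g hg =>
    obtain ⟨f, hf, i, j, hij, c, hi, hj, rfl⟩ := hg
    refine Subgroup.subset_closure ⟨e * f, mul_mem he hf, i, j, hij, c, hi, hj, ?_⟩
    group
  | one => rw [mul_one, mul_inv_cancel]; exact one_mem _
  | mul a b _ _ ha hb =>
    have h : e * (a * b) * e⁻¹ = (e * a * e⁻¹) * (e * b * e⁻¹) := by group
    rw [h]; exact mul_mem ha hb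
  | inv a _ ha =>
    have h : e * a⁻¹ * e⁻¹ = (e * a * e⁻¹)⁻¹ := by group
    rw [h]; exact inv_mem ha

theorem Cg_of_mem_ER {S : Set J} {k : ℕ} {g : SpecialLinearGroup J ℤ[X]} (hg : g ∈ ER S k) :
    Cg k g := by
  unfold ER at hg
  induction hg using Subgroup.closure_induction with
  | mem g hg =>
    obtain ⟨f, _, i, j, hij, c, _, _, rfl⟩ := hg
    exact Cg_conj (Cg_xx hij (dvd_mul_right _ _)) f
  | one => exact Cg_one k
  | mul a b _ _ ha hb => exact Cg_mul ha hb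
  | inv a _ ha => exact Cg_inv ha

theorem EG_apply {S : Set J} {g : SpecialLinearGroup J ℤ[X]} (hg : g ∈ EG S) {a : J} (ha : a ∉ S)
    (b : J) : (g : Matrix J J ℤ[X]) a b = (1 : Matrix J J ℤ[X]) a b ∧
      (g : Matrix J J ℤ[X]) b a = (1 : Matrix J J ℤ[X]) b a := by
  unfold EG at hg
  induction hg using Subgroup.closure_induction generalizing b with
  | mem g hg =>
    obtain ⟨i, j, hij, c, hi, hj, rfl⟩ := hg
    have hai : ¬ i = a := fun h => ha (h ▸ hi)
    have haj : ¬ j = a := fun h => ha (h ▸ hj)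
    rw [Matrix.SpecialLinearGroup.transvection_coe, Matrix.add_apply, Matrix.add_apply,
      Matrix.single_apply_of_ne (h := fun h => hai h.1),
      Matrix.single_apply_of_ne (h := fun h => haj h.2), add_zero, add_zero]
    exact ⟨rfl, rfl⟩
  | one => exact ⟨rfl, rfl⟩
  | mul g h _ _ hg hh =>
    constructor
    · rw [Matrix.SpecialLinearGroup.coe_mul, Matrix.mul_apply, ← (hh b).1]
      rw [Finset.sum_eq_single a]
      · rw [(hg a).1, Matrix.one_apply_eq, one_mul]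
      · intro l _ hl
        rw [(hg l).1, Matrix.one_apply_ne (Ne.symm hl), zero_mul]
      · intro h; exact absurd (Finset.mem_univ a) h
    · rw [Matrix.SpecialLinearGroup.coe_mul, Matrix.mul_apply, ← (hg b).2]
      rw [Finset.sum_eq_single a]
      · rw [(hh a).2, Matrix.one_apply_eq, mul_one]
      · intro l _ hl
        rw [(hh l).2, Matrix.one_apply_ne hl, mul_zero]
      · intro h; exact absurd (Finset.mem_univ a) h
  | inv g _ hg =>
    constructor
    · have h := congrFun (congrFun (K1a_coe_mul_inv g) a) b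
      rw [Matrix.mul_apply, Finset.sum_eq_single a] at h
      · rw [(hg a).1, Matrix.one_apply_eq, one_mul] at h
        exact h
      · intro l _ hl
        rw [(hg l).1, Matrix.one_apply_ne (Ne.symm hl), zero_mul]
      · intro h; exact absurd (Finset.mem_univ a) h
    · have h := congrFun (congrFun (K1a_coe_inv_mul g) b) a
      rw [Matrix.mul_apply, Finset.sum_eq_single a] at h
      · rw [(hg a).2, Matrix.one_apply_eq, mul_one] at h
        exact h
      · intro l _ hl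
        rw [(hg l).2, Matrix.one_apply_ne hl, mul_zero]
      · intro h; exact absurd (Finset.mem_univ a) h

end Pool.Agent.SSE
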