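import Pool.Agent.SSE.KDefs

/-!
# SSE-K1B : calculus of the symbols in an abstract group (`StC`)

`sg_add_left`: `[yy', z] = y [y', z] y⁻¹ [y, z]`, `[y',z]` commutes with `y`.
`hall_witt`: `y1 = x_ji(a)`, `y2 = x_il(b)`, `y3 = x_lj(c)`; the Hall-Witt identity in the form
`[[x,y], ʸz] [[y,z], ᶻx] [[z,x], ˣy] = 1` (proof by `group`; `[x,y] = x y x⁻¹ y⁻¹`, `ʸz = y z y⁻¹`); here `[x_ji(a), x_il(b)] = x_jl(ab)`,
`[x_il(b), x_lj(c)] = x_ij(bc)`, `[x_lj(c), x_ji(a)] = x_li(ca)` and the commutators of two of these three are of the form `x(X^k ..) = 1`, so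
`[[x,y], ʸz] = [[x,y], [y,z] z] = [[x,y], z]` (central), etc.
`sg_indep`: `hall_witt` with `c = 1`: `sg i j a b * sg l i b a = 1` (as `sg j l 1 (ab) = 1` by `kill`), so `sg i j a b = sg i l a b`; with `sg_swap`
also `= sg l j a b`; then go round.
`sg_split`: from `hall_witt`, `sg_swap`, `sg_indep`.
`sg_pow`: induction on `m` with `sg_split` for `(X^m, X, X^(k-1-m))`; `sigma_pow` is `m = k` (`x (X^k) = 1`).
`sg_tr`: `c = C (c.coeff 0) + X * c'`; `sg (X * (X c')) (C m X^(k-1)) = sg X (X^k ..) * sg (X c') (X^k ..) = 1` by `sg_split`;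
`sg (C n * X) (C m * X^(k-1)) = sg X (X^(k-1)) ^ (n m)` by biadditivity.
-/

set_option autoImplicit false

namespace Pool.Agent.SSE

open Polynomial

variable {J : Type} {Γ : Type} [Group Γ] {k : ℕ} {x : J → J → ℤ[X] → Γ}

theorem K1b_zero (hx : StG k x) {i j : J} (h : i ≠ j) : x i j 0 = 1 := by
  have h1 := hx.add i j h 0 0
  rw [add_zero] at h1
  exact (mul_eq_left.1 h1.symm)

theorem K1b_kill (hx : StG k x) {i j : J} (h : i ≠ j) {c : ℤ[X]} (hc : X ^ k ∣ c) :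
    x i j c = 1 := by
  obtain ⟨d, rfl⟩ := hc
  exact hx.kill i j h d

/-- centrality in the form used below -/
theorem K1b_cen (hx : StC k x) {i j : J} (h : i ≠ j) {a b : ℤ[X]} (hd : X ^ k ∣ a * b) {p q : J}
    (hpq : p ≠ q) (c : ℤ[X]) : sg x i j a b * x p q c = x p q c * sg x i j a b :=
  hx.cen i j h a b hd p q hpq c

theorem sg_swap (x : J → J → ℤ[X] → Γ) (i j : J) (a b : ℤ[X]) :
    sg x j i b a = (sg x i j a b)⁻¹ := by
  unfold sg
  group

theorem K1b_one_left (hx : StG k x) {i j : J} (h : i ≠ j) {a : ℤ[X]} (b : ℤ[X])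
    (ha : X ^ k ∣ a) : sg x i j a b = 1 := by
  unfold sg
  rw [K1b_kill hx h.symm ha]
  group

theorem K1b_one_right (hx : StG k x) {i j : J} (h : i ≠ j) (a : ℤ[X]) {b : ℤ[X]}
    (hb : X ^ k ∣ b) : sg x i j a b = 1 := by
  unfold sg
  rw [K1b_kill hx h hb]
  group

theorem sg_add_left (hx : StC k x) {i j : J} (h : i ≠ j) {a a' b : ℤ[X]} (h1 : X ^ k ∣ a * b)
    (h2 : X ^ k ∣ a' * b) : sg x i j (a + a') b = sg x i j a b * sg x i j a' b := by
  have c1 := K1b_cen hx h h2 h.symm a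
  have c2 := K1b_cen hx h h2 h b
  have e : sg x i j (a + a') b
      = x j i a * sg x i j a' b * (x i j b * (x j i a)⁻¹ * (x i j b)⁻¹) := by
    unfold sg
    rw [hx.add j i h.symm]
    group
  rw [e, ← c1]
  have c3 : sg x i j a' b * sg x i j a b = sg x i j a b * sg x i j a' b := by
    have k1 : Commute (sg x i j a' b) (x j i a) := c1
    have k2 : Commute (sg x i j a' b) (x i j b) := c2
    have k3 : Commute (sg x i j a' b) (sg x i j a b) := by
      unfold sg at k1 k2 ⊢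
      exact ((k1.mul_right k2).mul_right k1.inv_right).mul_right k2.inv_right
    exact k3
  rw [← c3]
  unfold sg
  group

theorem sg_add_right (hx : StC k x) {i j : J} (h : i ≠ j) {a b b' : ℤ[X]} (h1 : X ^ k ∣ a * b)
    (h2 : X ^ k ∣ a * b') : sg x i j a (b + b') = sg x i j a b * sg x i j a b' := by
  have c2 : sg x i j a b' * (x i j b)⁻¹ = (x i j b)⁻¹ * sg x i j a b' := by
    have k1 : Commute (sg x i j a b') (x i j b) := K1b_cen hx h h2 h b
    exact k1.inv_right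
  have e : sg x i j a (b + b')
      = x j i a * x i j b * (x j i a)⁻¹ * (sg x i j a b' * (x i j b)⁻¹) := by
    unfold sg
    rw [hx.add i j h]
    group
  rw [e, c2]
  unfold sg
  group

/-- Hall-Witt in the shape needed -/
theorem K1b_hw {y1 y2 y3 u v w : Γ} (h1 : y1 * y2 = u * y2 * y1) (h2 : y2 * y3 = v * y3 * y2)
    (h3 : y3 * y1 = w * y1 * y3) (huv : u * v = v * u) (hvw : v * w = w * v) (hwu : w * u = u * w)
    (c1 : Commute (u * y3 * u⁻¹ * y3⁻¹) v) (c2 : Commute (v * y1 * v⁻¹ * y1⁻¹) w)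
    (c3 : Commute (w * y2 * w⁻¹ * y2⁻¹) u) :
    (u * y3 * u⁻¹ * y3⁻¹) * (v * y1 * v⁻¹ * y1⁻¹) * (w * y2 * w⁻¹ * y2⁻¹) = 1 := by
  have eu : u = y1 * y2 * y1⁻¹ * y2⁻¹ := by rw [h1]; group
  have ev : v = y2 * y3 * y2⁻¹ * y3⁻¹ := by rw [h2]; group
  have ew : w = y3 * y1 * y3⁻¹ * y1⁻¹ := by rw [h3]; group
  have a1 : u * (y2 * y3 * y2⁻¹) * u⁻¹ * (y2 * y3 * y2⁻¹)⁻¹ = u * y3 * u⁻¹ * y3⁻¹ := by
    have t : y2 * y3 * y2⁻¹ = v * y3 := by rw [h2]; group
    rw [t]
    calc u * (v * y3) * u⁻¹ * (v * y3)⁻¹ = (u * v) * y3 * u⁻¹ * y3⁻¹ * v⁻¹ := by group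
      _ = v * (u * y3 * u⁻¹ * y3⁻¹) * v⁻¹ := by rw [huv]; group
      _ = u * y3 * u⁻¹ * y3⁻¹ := by rw [← c1.eq]; group
  have a2 : v * (y3 * y1 * y3⁻¹) * v⁻¹ * (y3 * y1 * y3⁻¹)⁻¹ = v * y1 * v⁻¹ * y1⁻¹ := by
    have t : y3 * y1 * y3⁻¹ = w * y1 := by rw [h3]; group
    rw [t]
    calc v * (w * y1) * v⁻¹ * (w * y1)⁻¹ = (v * w) * y1 * v⁻¹ * y1⁻¹ * w⁻¹ := by group
      _ = w * (v * y1 * v⁻¹ * y1⁻¹) * w⁻¹ := by rw [hvw]; group
      _ = v * y1 * v⁻¹ * y1⁻¹ := by rw [← c2.eq]; group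
  have a3 : w * (y1 * y2 * y1⁻¹) * w⁻¹ * (y1 * y2 * y1⁻¹)⁻¹ = w * y2 * w⁻¹ * y2⁻¹ := by
    have t : y1 * y2 * y1⁻¹ = u * y2 := by rw [h1]; group
    rw [t]
    calc w * (u * y2) * w⁻¹ * (u * y2)⁻¹ = (w * u) * y2 * w⁻¹ * y2⁻¹ * u⁻¹ := by group
      _ = u * (w * y2 * w⁻¹ * y2⁻¹) * u⁻¹ := by rw [hwu]; group
      _ = w * y2 * w⁻¹ * y2⁻¹ := by rw [← c3.eq]; group
  rw [← a1, ← a2, ← a3, eu, ev, ew]
  group

theorem hall_witt (hx : StC k x) {i j l : J} (hij : i ≠ j) (hil : i ≠ l) (hjl : j ≠ l)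
    {a b c : ℤ[X]} (hd : X ^ k ∣ a * b * c) :
    sg x i j a (b * c) * sg x l i b (c * a) * sg x j l c (a * b) = 1 := by
  have d1 : X ^ k ∣ (a * b) * c := hd
  have d2 : X ^ k ∣ (b * c) * a := by rw [show b * c * a = a * b * c by ring]; exact hd
  have d3 : X ^ k ∣ (c * a) * b := by rw [show c * a * b = a * b * c by ring]; exact hd
  have s1 := hx.stein j i l hij.symm hil hjl a b
  have s2 := hx.stein i l j hil hjl.symm hij b c
  have s3 := hx.stein l j i hjl.symm hij.symm hil.symm c a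
  -- commutations of `u = x_jl(ab)`, `v = x_ij(bc)`, `w = x_li(ca)`
  have huv : x j l (a * b) * x i j (b * c) = x i j (b * c) * x j l (a * b) := by
    have s := hx.stein i j l hij hjl hil (b * c) (a * b)
    rw [K1b_kill hx.toStG hil (by
      rw [show b * c * (a * b) = (a * b * c) * b by ring]; exact Dvd.dvd.mul_right hd _),
      one_mul] at s
    exact s.symm
  have hvw : x i j (b * c) * x l i (c * a) = x l i (c * a) * x i j (b * c) := by
    have s := hx.stein l i j hil.symm hij hjl.symm (c * a) (b * c)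
    rw [K1b_kill hx.toStG hjl.symm (by
      rw [show c * a * (b * c) = (a * b * c) * c by ring]; exact Dvd.dvd.mul_right hd _),
      one_mul] at s
    exact s.symm
  have hwu : x l i (c * a) * x j l (a * b) = x j l (a * b) * x l i (c * a) := by
    have s := hx.stein j l i hjl hil.symm hij.symm (a * b) (c * a)
    rw [K1b_kill hx.toStG hij.symm (by
      rw [show a * b * (c * a) = (a * b * c) * a by ring]; exact Dvd.dvd.mul_right hd _),
      one_mul] at s
    exact s.symm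
  have c1 : Commute (x j l (a * b) * x l j c * (x j l (a * b))⁻¹ * (x l j c)⁻¹)
      (x i j (b * c)) := K1b_cen hx hjl.symm d1 hij _
  have c2 : Commute (x i j (b * c) * x j i a * (x i j (b * c))⁻¹ * (x j i a)⁻¹)
      (x l i (c * a)) := K1b_cen hx hij.symm d2 hil.symm _
  have c3 : Commute (x l i (c * a) * x i l b * (x l i (c * a))⁻¹ * (x i l b)⁻¹)
      (x j l (a * b)) := K1b_cen hx hil d3 hjl _
  have key := K1b_hw s1 s2 s3 huv hvw hwu c1 c2 c3
  have e1 : x j l (a * b) * x l j c * (x j l (a * b))⁻¹ * (x l j c)⁻¹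
      = (sg x j l c (a * b))⁻¹ := by rw [← sg_swap]; rfl
  have e2 : x i j (b * c) * x j i a * (x i j (b * c))⁻¹ * (x j i a)⁻¹
      = (sg x i j a (b * c))⁻¹ := by rw [← sg_swap]; rfl
  have e3 : x l i (c * a) * x i l b * (x l i (c * a))⁻¹ * (x i l b)⁻¹
      = (sg x l i b (c * a))⁻¹ := by rw [← sg_swap]; rfl
  rw [e1, e2, e3] at key
  have key2 : sg x l i b (c * a) * sg x i j a (b * c) * sg x j l c (a * b) = 1 := by
    have := congrArg (fun z => z⁻¹) key
    simp only [mul_inv_rev, inv_inv, inv_one] at this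
    rw [mul_assoc]; exact this
  have comm : sg x i j a (b * c) * sg x l i b (c * a)
      = sg x l i b (c * a) * sg x i j a (b * c) := by
    have d4 : X ^ k ∣ a * (b * c) := by rw [← mul_assoc]; exact hd
    have k1 : Commute (sg x i j a (b * c)) (x i l b) := K1b_cen hx hij d4 hil _
    have k2 : Commute (sg x i j a (b * c)) (x l i (c * a)) := K1b_cen hx hij d4 hil.symm _
    have k3 : Commute (sg x i j a (b * c)) (sg x l i b (c * a)) := by
      unfold sg at k1 k2 ⊢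
      exact ((k1.mul_right k2).mul_right k1.inv_right).mul_right k2.inv_right
    exact k3
  rw [comm]; exact key2

theorem K1b_snd (hx : StC k x) {i j l : J} (hij : i ≠ j) (hil : i ≠ l) (hjl : j ≠ l)
    {a b : ℤ[X]} (hd : X ^ k ∣ a * b) : sg x i j a b = sg x i l a b := by
  have h := hall_witt hx hij hil hjl (a := a) (b := b) (c := 1) (by rw [mul_one]; exact hd)
  rw [K1b_one_right hx.toStG hjl 1 hd, mul_one, mul_one, one_mul] at h
  rw [sg_swap x l i b a]
  exact eq_inv_of_mul_eq_one_left h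

theorem K1b_fst (hx : StC k x) {i j l : J} (hij : i ≠ j) (hil : i ≠ l) (hjl : j ≠ l)
    {a b : ℤ[X]} (hd : X ^ k ∣ a * b) : sg x i j a b = sg x l j a b := by
  rw [sg_swap x j i b a, sg_swap x j l b a,
    K1b_snd hx hij.symm hjl hil (by rw [mul_comm]; exact hd)]

theorem sg_indep (hx : StC k x) (h3 : ∀ i j : J, ∃ l, l ≠ i ∧ l ≠ j) {i j p q : J} (hij : i ≠ j)
    (hpq : p ≠ q) {a b : ℤ[X]} (hd : X ^ k ∣ a * b) : sg x i j a b = sg x p q a b := by
  by_cases hpi : p = i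
  · subst hpi
    by_cases hqj : q = j
    · rw [hqj]
    · exact K1b_snd hx hij hpq (Ne.symm hqj) hd
  · by_cases hpj : p = j
    · subst hpj
      obtain ⟨l, hli, hlj⟩ := h3 i p
      rw [K1b_snd hx hij hli.symm hlj.symm hd, K1b_fst hx hli.symm hij hlj hd]
      by_cases hql : q = l
      · rw [hql]
      · exact K1b_snd hx hlj.symm hpq (Ne.symm hql) hd
    · rw [K1b_fst hx hij (Ne.symm hpi) (Ne.symm hpj) hd]
      by_cases hqj : q = j
      · rw [hqj]
      · exact K1b_snd hx hpj hpq (Ne.symm hqj) hd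

theorem sg_split (hx : StC k x) (h3 : ∀ i j : J, ∃ l, l ≠ i ∧ l ≠ j) {i j : J} (hij : i ≠ j)
    {a b c : ℤ[X]} (hd : X ^ k ∣ a * b * c) :
    sg x i j (a * b) c = sg x i j a (b * c) * sg x i j b (c * a) := by
  obtain ⟨l, hli, hlj⟩ := h3 i j
  have h := hall_witt hx hij hli.symm hlj.symm hd
  have d2 : X ^ k ∣ b * (c * a) := by rw [show b * (c * a) = a * b * c by ring]; exact hd
  have d3 : X ^ k ∣ c * (a * b) := by rw [show c * (a * b) = a * b * c by ring]; exact hd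
  rw [sg_indep hx h3 hli hij d2, sg_indep hx h3 hlj.symm hij.symm d3,
    sg_swap x i j (a * b) c] at h
  exact (mul_inv_eq_one.1 h).symm

theorem sg_pow (hx : StC k x) (h3 : ∀ i j : J, ∃ l, l ≠ i ∧ l ≠ j) {i j : J} (hij : i ≠ j)
    {m : ℕ} (hm : m ≤ k) : sg x i j (X ^ m) (X ^ (k - m)) = sg x i j X (X ^ (k - 1)) ^ m := by
  induction m with
  | zero =>
    rw [pow_zero, pow_zero, Nat.sub_zero]
    exact K1b_one_right hx.toStG hij _ dvd_rfl
  | succ m ih =>
    have h := sg_split hx h3 hij (a := X ^ m) (b := (X : ℤ[X])) (c := X ^ (k - (m + 1)))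
      (by rw [← pow_succ, ← pow_add]; exact pow_dvd_pow _ (by omega))
    have e1 : (X : ℤ[X]) * X ^ (k - (m + 1)) = X ^ (k - m) := by
      rw [← pow_succ']; congr 1; omega
    have e2 : (X : ℤ[X]) ^ (k - (m + 1)) * X ^ m = X ^ (k - 1) := by
      rw [← pow_add]; congr 1; omega
    rw [e1, e2, ih (by omega)] at h
    rw [pow_succ (X : ℤ[X]) m, h, pow_succ]

theorem sigma_pow (hx : StC k x) (h3 : ∀ i j : J, ∃ l, l ≠ i ∧ l ≠ j) {i j : J} (hij : i ≠ j) :
    sg x i j X (X ^ (k - 1)) ^ k = 1 := by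
  rw [← sg_pow hx h3 hij le_rfl]
  exact K1b_one_left hx.toStG hij _ dvd_rfl

theorem K1b_zpow_left (hx : StC k x) {i j : J} (h : i ≠ j) {a b : ℤ[X]} (hd : X ^ k ∣ a * b)
    (n : ℤ) : sg x i j (C n * a) b = sg x i j a b ^ n := by
  have hd' : ∀ n : ℤ, X ^ k ∣ (C n * a) * b := fun n => by
    rw [mul_assoc]; exact Dvd.dvd.mul_left hd _
  induction n using Int.induction_on with
  | zero =>
    rw [C_0, zero_mul, zpow_zero]
    exact K1b_one_left hx.toStG h _ (dvd_zero _)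
  | succ n ih =>
    rw [C_add, add_mul, C_1, one_mul, sg_add_left hx h (hd' _) hd, ih, zpow_add_one]
  | pred n ih =>
    have e : C (-(n : ℤ)) * a = C (-(n : ℤ) - 1) * a + a := by
      rw [C_sub, C_1]; ring
    rw [e, sg_add_left hx h (hd' _) hd] at ih
    rw [zpow_sub_one, ← ih, mul_inv_cancel_right]

theorem K1b_zpow_right (hx : StC k x) {i j : J} (h : i ≠ j) {a b : ℤ[X]} (hd : X ^ k ∣ a * b)
    (n : ℤ) : sg x i j a (C n * b) = sg x i j a b ^ n := by
  have hd' : X ^ k ∣ b * a := by rw [mul_comm]; exact hd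
  rw [sg_swap x j i (C n * b) a, K1b_zpow_left hx h.symm hd' n, sg_swap x j i b a,
    inv_zpow]

theorem sg_tr (hx : StC k x) (h3 : ∀ i j : J, ∃ l, l ≠ i ∧ l ≠ j) {i j : J} (hij : i ≠ j)
    (hk : 1 ≤ k) (c : ℤ[X]) (m : ℤ) :
    sg x i j (X * c) (C m * X ^ (k - 1)) = sg x i j X (X ^ (k - 1)) ^ (c.coeff 0 * m) := by
  have hX : (X : ℤ[X]) * X ^ (k - 1) = X ^ k := by
    rw [← pow_succ']; congr 1; omega
  have d0 : X ^ k ∣ (X : ℤ[X]) * X ^ (k - 1) := by rw [hX]
  have ec : X * c = C (c.coeff 0) * X + X * (X * c.divX) := by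
    have := Polynomial.divX_mul_X_add c
    calc X * c = X * (c.divX * X + C (c.coeff 0)) := by rw [this]
      _ = _ := by ring
  have d1 : X ^ k ∣ (C (c.coeff 0) * X) * (C m * X ^ (k - 1)) := by
    rw [show (C (c.coeff 0) * X) * (C m * X ^ (k - 1))
      = C (c.coeff 0) * C m * ((X : ℤ[X]) * X ^ (k - 1)) by ring, hX]
    exact dvd_mul_left _ _
  have d2 : X ^ k ∣ (X * (X * c.divX)) * (C m * X ^ (k - 1)) := by
    rw [show (X * (X * c.divX)) * (C m * X ^ (k - 1))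
      = (X * c.divX) * C m * ((X : ℤ[X]) * X ^ (k - 1)) by ring, hX]
    exact dvd_mul_left _ _
  rw [ec, sg_add_left hx hij d1 d2, sg_split hx h3 hij d2]
  have z1 : sg x i j X (X * c.divX * (C m * X ^ (k - 1))) = 1 := by
    apply K1b_one_right hx.toStG hij
    rw [show (X * c.divX * (C m * X ^ (k - 1)) : ℤ[X])
      = c.divX * C m * ((X : ℤ[X]) * X ^ (k - 1)) by ring, hX]
    exact dvd_mul_left _ _
  have z2 : sg x i j (X * c.divX) (C m * X ^ (k - 1) * X) = 1 := by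
    apply K1b_one_right hx.toStG hij
    rw [show (C m * X ^ (k - 1) * X : ℤ[X]) = C m * ((X : ℤ[X]) * X ^ (k - 1)) by ring, hX]
    exact dvd_mul_left _ _
  rw [z1, z2, mul_one, mul_one]
  have d3 : X ^ k ∣ (X : ℤ[X]) * (C m * X ^ (k - 1)) := by
    rw [show (X : ℤ[X]) * (C m * X ^ (k - 1)) = C m * ((X : ℤ[X]) * X ^ (k - 1)) by ring, hX]
    exact dvd_mul_left _ _
  rw [K1b_zpow_left hx hij d3, K1b_zpow_right hx hij d0, ← zpow_mul, mul_comm]

end Pool.Agent.SSE
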