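import Mathlib

/-!
# SSE-K2D : commuting generators with independent images

`π : H →* Q`, `lam : H →* Multiplicative A`, `gen : I → H` (`I` finite), the `π (gen s)` commute with each other, the `lam (gen s)` are linearly independent
over `ℤ`. Then `b ∈ closure (range gen)`, `lam b = 1` implies `π b = 1`.
Proof: by closure induction every `b` in the closure has a coordinate vector `n : I → ℤ` with `lam b = ∑ n_s lam (gen s)` and `π b = P(n)`,
`P(n) = ∏ π(gen s)^(n_s)` (product in some fixed order, or in the commutative group generated by the `π (gen s)`).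
-/

set_option autoImplicit false

namespace Pool.Agent.SSE

theorem eq_one_of_indep {H Q A I : Type} [Group H] [Group Q] [AddCommGroup A] [Fintype I]
    (π : H →* Q) (lam : H →* Multiplicative A) (gen : I → H)
    (hc : ∀ s s', π (gen s) * π (gen s') = π (gen s') * π (gen s))
    (hi : LinearIndependent ℤ (fun s => Multiplicative.toAdd (lam (gen s)))) {b : H}
    (hb : b ∈ Subgroup.closure (Set.range gen)) (h1 : lam b = 1) : π b = 1 := by
  classical
  have hcomm : Pairwise fun i j : I => ∀ (x y : Multiplicative ℤ),
      Commute ((zpowersHom Q (π (gen i))) x) ((zpowersHom Q (π (gen j))) y) := by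
    intro i j _ x y
    rw [zpowersHom_apply, zpowersHom_apply]
    exact Commute.zpow_zpow (hc i j) _ _
  let P : (I → Multiplicative ℤ) →* Q :=
    MonoidHom.noncommPiCoprod (fun i => zpowersHom Q (π (gen i))) hcomm
  let L : (I → Multiplicative ℤ) →* Multiplicative A :=
    { toFun := fun n => ∏ s, (lam (gen s)) ^ (Multiplicative.toAdd (n s))
      map_one' := by simp
      map_mul' := by
        intro n m
        rw [← Finset.prod_mul_distrib]
        refine Finset.prod_congr rfl fun s _ => ?_
        rw [Pi.mul_apply, toAdd_mul, zpow_add] }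
  have key : ∀ b ∈ Subgroup.closure (Set.range gen), ∃ n, lam b = L n ∧ π b = P n := by
    intro b hb
    induction hb using Subgroup.closure_induction with
    | mem x hx =>
      obtain ⟨s, rfl⟩ := hx
      refine ⟨Pi.mulSingle s (Multiplicative.ofAdd 1), ?_, ?_⟩
      · show lam (gen s) = ∏ s', (lam (gen s')) ^
          (Multiplicative.toAdd ((Pi.mulSingle s (Multiplicative.ofAdd (1 : ℤ)) :
            I → Multiplicative ℤ) s'))
        rw [Finset.prod_eq_single s]
        · rw [Pi.mulSingle_eq_same]
          simp
        · intro s' _ hs'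
          rw [Pi.mulSingle_eq_of_ne hs']
          simp
        · intro h
          exact absurd (Finset.mem_univ s) h
      · show π (gen s) = MonoidHom.noncommPiCoprod (fun i => zpowersHom Q (π (gen i))) hcomm
          (Pi.mulSingle s (Multiplicative.ofAdd 1))
        rw [MonoidHom.noncommPiCoprod_mulSingle, zpowersHom_apply]
        simp
    | one => exact ⟨1, by rw [map_one, map_one], by rw [map_one, map_one]⟩
    | mul x y _ _ hx hy =>
      obtain ⟨n, h1, h2⟩ := hx
      obtain ⟨m, h3, h4⟩ := hy
      exact ⟨n * m, by rw [map_mul, map_mul, h1, h3], by rw [map_mul, map_mul, h2, h4]⟩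
    | inv x _ hx =>
      obtain ⟨n, h1, h2⟩ := hx
      exact ⟨n⁻¹, by rw [map_inv, map_inv, h1], by rw [map_inv, map_inv, h2]⟩
  obtain ⟨n, h2, h3⟩ := key b hb
  have h4 : ∑ s, (Multiplicative.toAdd (n s)) • Multiplicative.toAdd (lam (gen s)) = 0 := by
    have h5 : Multiplicative.toAdd (L n) = 0 := by
      rw [← h2, h1]; rfl
    have h6 : Multiplicative.toAdd (L n) =
        ∑ s, (Multiplicative.toAdd (n s)) • Multiplicative.toAdd (lam (gen s)) := by
      show Multiplicative.toAdd (∏ s, (lam (gen s)) ^ (Multiplicative.toAdd (n s))) = _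
      rw [toAdd_prod]
      refine Finset.sum_congr rfl fun s _ => ?_
      rw [toAdd_zpow]
    rw [← h6, h5]
  have h7 := Fintype.linearIndependent_iff.1 hi _ h4
  have h8 : n = 1 := by
    funext s
    have := h7 s
    exact Multiplicative.toAdd.injective this
  rw [h3, h8, map_one]

end Pool.Agent.SSE
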