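import Pool.Agent.SSE.K1
import Pool.Agent.SSE.K1b

/-!
# SSE-K2E : the quotient group

`Nk h k` = the group generated by `ER univ k` and `σ_k = sy h X (X^(k-1))`. It is normalised by `EG univ` (`central_mod`: `e σ e⁻¹ σ⁻¹ ∈ ER univ k`), its
elements are `r * σ^m`.  `QQ h k := EG univ ⧸ (Nk h k).subgroupOf (EG univ)`, `xq h k i j c :=` the class of `xt i j c`.
(For `i = j` the value is `1`.) `xq_StG`, `xq_StC`: relations `xx_mul`, `xx_comm`, `xx_stein`, `xx_mem_ER`, `central_mod` with `sy_mem`, `sy_Cg`.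
`xq_StT`: `sg_tr` and `sg_indep`: `sg (xq) i j (X c) (C m X^(k-1)) = σ^(c(0) m) = 1`, as the class of `σ_k` is `1`.
`sigma_pow_mem`: `sigma_pow` in the quotient `EG univ ⧸ (ER univ k).subgroupOf (EG univ)`.
-/

set_option autoImplicit false

namespace Pool.Agent.SSE

open Polynomial Matrix

variable {J : Type} [Fintype J] [DecidableEq J]

/-- `ER univ k` together with `σ_k` -/
noncomputable def Nk {i j : J} (h : i ≠ j) (k : ℕ) : Subgroup (SpecialLinearGroup J ℤ[X]) :=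
  ER (Set.univ : Set J) k ⊔ Subgroup.zpowers (sy h X (X ^ (k - 1)))

private theorem k2e_sig {i j : J} (h : i ≠ j) (k : ℕ) :
    sy h X (X ^ (k - 1)) ∈ EG (Set.univ : Set J) :=
  EG_mono (Set.subset_univ _) (sy_mem h X (X ^ (k - 1)))

private theorem k2e_dvd {k : ℕ} (hk : 1 ≤ k) : (X ^ k : ℤ[X]) ∣ X * X ^ (k - 1) := by
  rw [← pow_succ', Nat.sub_add_cancel hk]

theorem mem_Nk (h3 : ∀ i j : J, ∃ l, l ≠ i ∧ l ≠ j) {i j : J} (h : i ≠ j) {k : ℕ} (hk : 1 ≤ k)
    {g : SpecialLinearGroup J ℤ[X]} (hg : g ∈ Nk h k) :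
    ∃ m : ℤ, g * sy h X (X ^ (k - 1)) ^ m ∈ ER (Set.univ : Set J) k := by
  set σ := sy h X (X ^ (k - 1)) with hσ
  have hσE : σ ∈ EG (Set.univ : Set J) := k2e_sig h k
  let N' : Subgroup (SpecialLinearGroup J ℤ[X]) :=
    { carrier := {g | ∃ m : ℤ, g * σ ^ m ∈ ER (Set.univ : Set J) k}
      one_mem' := ⟨0, by simp⟩
      mul_mem' := by
        rintro a b ⟨m, hm⟩ ⟨n, hn⟩
        refine ⟨m + n, ?_⟩
        have e : a * b * σ ^ (m + n) =
            (a * σ ^ m) * ((σ ^ (-m)) * (b * σ ^ n) * (σ ^ (-m))⁻¹) := by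
          group
        rw [e]
        exact mul_mem hm (ER_conj (zpow_mem hσE _) hn)
      inv_mem' := by
        rintro a ⟨m, hm⟩
        refine ⟨-m, ?_⟩
        have e : a⁻¹ * σ ^ (-m) = (σ ^ m) * (a * σ ^ m)⁻¹ * (σ ^ m)⁻¹ := by
          group
        rw [e]
        exact ER_conj (zpow_mem hσE _) (inv_mem hm) }
  have hle : Nk h k ≤ N' := by
    refine sup_le ?_ ?_
    · intro r hr
      exact ⟨0, by simpa using hr⟩
    · rw [Subgroup.zpowers_le]
      refine ⟨-1, ?_⟩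
      rw [← hσ]
      simp
  exact hle hg

theorem Nk_le {i j : J} (h : i ≠ j) {k : ℕ} (hk : 1 ≤ k) {g : SpecialLinearGroup J ℤ[X]}
    (hg : g ∈ Nk h k) : g ∈ EG (Set.univ : Set J) ∧ Cg k g := by
  let C' : Subgroup (SpecialLinearGroup J ℤ[X]) :=
    { carrier := {g | g ∈ EG (Set.univ : Set J) ∧ Cg k g}
      one_mem' := ⟨one_mem _, Cg_one k⟩
      mul_mem' := fun ha hb => ⟨mul_mem ha.1 hb.1, Cg_mul ha.2 hb.2⟩
      inv_mem' := fun ha => ⟨inv_mem ha.1, Cg_inv ha.2⟩ }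
  have hle : Nk h k ≤ C' := by
    refine sup_le ?_ ?_
    · intro r hr
      exact ⟨ER_le_EG _ _ hr, Cg_of_mem_ER hr⟩
    · rw [Subgroup.zpowers_le]
      exact ⟨k2e_sig h k, sy_Cg h (k2e_dvd hk)⟩
  exact hle hg

private theorem k2e_normal (h3 : ∀ i j : J, ∃ l, l ≠ i ∧ l ≠ j) {i j : J} (h : i ≠ j) {k : ℕ}
    (hk : 1 ≤ k) {e n : SpecialLinearGroup J ℤ[X]} (he : e ∈ EG (Set.univ : Set J))
    (hn : n ∈ Nk h k) : e * n * e⁻¹ ∈ Nk h k := by
  set σ := sy h X (X ^ (k - 1)) with hσ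
  have hσN : σ ∈ Nk h k := Subgroup.mem_sup_right (Subgroup.mem_zpowers σ)
  have hc : σ * e * σ⁻¹ * e⁻¹ ∈ ER (Set.univ : Set J) k :=
    central_mod h3 h (sy_mem h X (X ^ (k - 1))) (sy_Cg h (k2e_dvd hk)) he
  have hσe : e * σ * e⁻¹ ∈ Nk h k := by
    have e1 : e * σ * e⁻¹ = (σ * e * σ⁻¹ * e⁻¹)⁻¹ * σ := by
      group
    rw [e1]
    exact mul_mem (Subgroup.mem_sup_left (inv_mem hc)) hσN
  have hle : Nk h k ≤ (Nk h k).comap (MulAut.conj e).toMonoidHom := by
    refine sup_le ?_ ?_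
    · intro r hr
      rw [Subgroup.mem_comap]
      have : (MulAut.conj e).toMonoidHom r = e * r * e⁻¹ := rfl
      rw [this]
      exact Subgroup.mem_sup_left (ER_conj he hr)
    · rw [Subgroup.zpowers_le, Subgroup.mem_comap]
      exact hσe
  exact hle hn

private theorem k2e_xt_mem (p q : J) (c : ℤ[X]) : xt p q c ∈ EG (Set.univ : Set J) := by
  unfold xt
  split_ifs with h
  · exact xx_mem_EG h (Set.mem_univ _) (Set.mem_univ _) c
  · exact one_mem _

private theorem k2e_xt {p q : J} (h : p ≠ q) (c : ℤ[X]) : xt p q c = xx h c := dif_pos h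

/-- the classes of the `x_pq(c)` -/
private noncomputable def k2ex (N : Subgroup ↥(EG (Set.univ : Set J))) [N.Normal] (p q : J)
    (c : ℤ[X]) : ↥(EG (Set.univ : Set J)) ⧸ N :=
  QuotientGroup.mk' N ⟨xt p q c, k2e_xt_mem p q c⟩

private theorem k2e_eq {N : Subgroup ↥(EG (Set.univ : Set J))} [N.Normal]
    {a b : ↥(EG (Set.univ : Set J))} (h : (a : SpecialLinearGroup J ℤ[X]) = b) :
    QuotientGroup.mk' N a = QuotientGroup.mk' N b := by
  rw [Subtype.ext h]

private theorem k2e_one {N : Subgroup ↥(EG (Set.univ : Set J))} [N.Normal]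
    (a : ↥(EG (Set.univ : Set J))) : QuotientGroup.mk' N a = 1 ↔ a ∈ N :=
  QuotientGroup.eq_one_iff a

/-- the symbol in the quotient -/
private theorem k2e_sg {N : Subgroup ↥(EG (Set.univ : Set J))} [N.Normal] {i j : J} (h : i ≠ j)
    (a b : ℤ[X]) (hm : sy h a b ∈ EG (Set.univ : Set J)) :
    sg (k2ex N) i j a b = QuotientGroup.mk' N ⟨sy h a b, hm⟩ := by
  unfold sg k2ex
  rw [← map_inv, ← map_inv, ← map_mul, ← map_mul, ← map_mul]
  apply k2e_eq
  simp only [Subgroup.coe_mul, Subgroup.coe_inv]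
  rw [k2e_xt h.symm, k2e_xt h]
  rfl

private theorem k2e_StC (h3 : ∀ i j : J, ∃ l, l ≠ i ∧ l ≠ j) {k : ℕ}
    (N : Subgroup ↥(EG (Set.univ : Set J))) [N.Normal]
    (hN : ∀ g : ↥(EG (Set.univ : Set J)), (g : SpecialLinearGroup J ℤ[X]) ∈
      ER (Set.univ : Set J) k → g ∈ N) : StC k (k2ex N) where
  add := by
    intro i j h a b
    unfold k2ex
    rw [← map_mul]
    apply k2e_eq
    simp only [Subgroup.coe_mul]
    rw [k2e_xt h, k2e_xt h, k2e_xt h, xx_mul]
  comm := by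
    intro i j p q h h' h1 h2 a b
    unfold k2ex
    rw [← map_mul, ← map_mul]
    apply k2e_eq
    simp only [Subgroup.coe_mul]
    rw [k2e_xt h, k2e_xt h', xx_comm h h' h1 h2]
  stein := by
    intro i j l hij hjl hil a b
    unfold k2ex
    rw [← map_mul, ← map_mul, ← map_mul]
    apply k2e_eq
    simp only [Subgroup.coe_mul]
    rw [k2e_xt hij, k2e_xt hjl, k2e_xt hil, xx_stein hij hjl hil]
  kill := by
    intro i j h c
    unfold k2ex
    rw [k2e_one]
    apply hN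
    change xt i j (X ^ k * c) ∈ _
    rw [k2e_xt h]
    exact xx_mem_ER h (Set.mem_univ _) (Set.mem_univ _) (dvd_mul_right _ _)
  cen := by
    intro i j h a b hd p q hpq c
    have hm : sy h a b ∈ EG (Set.univ : Set J) := EG_mono (Set.subset_univ _) (sy_mem h a b)
    rw [k2e_sg h a b hm]
    have hc := central_mod h3 h (sy_mem h a b) (sy_Cg h hd) (k2e_xt_mem p q c)
    have h1 : QuotientGroup.mk' N ((⟨sy h a b, hm⟩ : ↥(EG (Set.univ : Set J))) *
        ⟨xt p q c, k2e_xt_mem p q c⟩ * (⟨sy h a b, hm⟩ : ↥(EG (Set.univ : Set J)))⁻¹ *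
        (⟨xt p q c, k2e_xt_mem p q c⟩ : ↥(EG (Set.univ : Set J)))⁻¹) = 1 := by
      rw [k2e_one]
      exact hN _ hc
    rw [map_mul, map_mul, map_mul, map_inv, map_inv, mul_inv_eq_one, mul_inv_eq_iff_eq_mul] at h1
    exact h1

/-- existence of the quotient: a group `Q`, a homomorphism from the elementary group with kernel `Nk h k`, `StT` for the images -/
theorem exists_quot (h3 : ∀ i j : J, ∃ l, l ≠ i ∧ l ≠ j) {i j : J} (h : i ≠ j) {k : ℕ}
    (hk : 1 ≤ k) : ∃ (Q : Type) (_ : Group Q) (π : ↥(EG (Set.univ : Set J)) →* Q)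
      (x : J → J → ℤ[X] → Q),
      (∀ g, π g = 1 ↔ (g : SpecialLinearGroup J ℤ[X]) ∈ Nk h k) ∧
      (∀ p q, p ≠ q → ∀ c, ∃ g, π g = x p q c ∧ (g : SpecialLinearGroup J ℤ[X]) = xt p q c) ∧
      StT k x := by
  have hnor : ((Nk h k).subgroupOf (EG (Set.univ : Set J))).Normal := by
    constructor
    intro n hn g
    rw [Subgroup.mem_subgroupOf] at hn ⊢
    exact k2e_normal h3 h hk g.2 hn
  have hN : ∀ g : ↥(EG (Set.univ : Set J)), (g : SpecialLinearGroup J ℤ[X]) ∈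
      ER (Set.univ : Set J) k → g ∈ (Nk h k).subgroupOf (EG (Set.univ : Set J)) := by
    intro g hg
    rw [Subgroup.mem_subgroupOf]
    exact Subgroup.mem_sup_left hg
  have hC := k2e_StC h3 ((Nk h k).subgroupOf (EG (Set.univ : Set J))) hN
  refine ⟨↥(EG (Set.univ : Set J)) ⧸ (Nk h k).subgroupOf (EG (Set.univ : Set J)), inferInstance,
    QuotientGroup.mk' _, k2ex _, ?_, ?_, ?_⟩
  · intro g
    rw [k2e_one, Subgroup.mem_subgroupOf]
  · intro p q _ c
    exact ⟨⟨xt p q c, k2e_xt_mem p q c⟩, rfl, rfl⟩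
  · refine { toStG := hC.toStG, tr := ?_ }
    intro p q hpq c m
    have h1 := sg_tr hC h3 hpq hk c m
    have h2 : sg (k2ex ((Nk h k).subgroupOf (EG (Set.univ : Set J)))) p q X (X ^ (k - 1)) = 1 := by
      rw [sg_indep hC h3 hpq h (k2e_dvd hk), k2e_sg h X (X ^ (k - 1)) (k2e_sig h k), k2e_one,
        Subgroup.mem_subgroupOf]
      exact Subgroup.mem_sup_right (Subgroup.mem_zpowers _)
    rw [h2, _root_.one_zpow] at h1
    unfold sg at h1
    rw [mul_inv_eq_one, mul_inv_eq_iff_eq_mul] at h1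
    exact h1

theorem sigma_pow_mem (h3 : ∀ i j : J, ∃ l, l ≠ i ∧ l ≠ j) {i j : J} (h : i ≠ j) {k : ℕ}
    (hk : 1 ≤ k) : sy h X (X ^ (k - 1)) ^ k ∈ ER (Set.univ : Set J) k := by
  have hnor : ((ER (Set.univ : Set J) k).subgroupOf (EG (Set.univ : Set J))).Normal := by
    constructor
    intro n hn g
    rw [Subgroup.mem_subgroupOf] at hn ⊢
    exact ER_conj g.2 hn
  have hN : ∀ g : ↥(EG (Set.univ : Set J)), (g : SpecialLinearGroup J ℤ[X]) ∈
      ER (Set.univ : Set J) k →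
      g ∈ (ER (Set.univ : Set J) k).subgroupOf (EG (Set.univ : Set J)) := by
    intro g hg
    rw [Subgroup.mem_subgroupOf]
    exact hg
  have hC := k2e_StC h3 ((ER (Set.univ : Set J) k).subgroupOf (EG (Set.univ : Set J))) hN
  have h1 := sigma_pow hC h3 h
  rw [k2e_sg h X (X ^ (k - 1)) (k2e_sig h k), ← map_pow, k2e_one, Subgroup.mem_subgroupOf] at h1
  exact h1

end Pool.Agent.SSE
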