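import Pool.Agent.SSE.K2c
import Pool.Agent.SSE.K2d
import Pool.Agent.SSE.K2e

/-!
# SSE-K2 : the graded step `ER(k-1) ∩ (1 mod t^k) ⊆ ER(k) ⟨σ_k⟩`

`H :=` the subgroup of `g ∈ EG univ` with `Cg (k-1) g`, `lam g :=` the matrix of coefficients of `X^(k-1)` in `g - 1`, a homomorphism `H →* Multiplicative
(Matrix J J ℤ)` because `2 (k-1) ≥ k`; its kernel is `Cg k`. `Q, π, x` from `exists_quot`, restricted to `H`. `gen : I → H`: the elements `x_ij(X^(k-1))` and
`x_jo(1) x_oj(X^(k-1)) x_jo(-1) x_oj(-X^(k-1)) x_jo(X^(k-1))`, `j ≠ o`; `lam`: `E_ij`, `E_jj - E_oo`: linearly independent. `π (gen s)` commute (`Gens_comm`).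
For `g ∈ ER univ (k-1)`: `π g ∈ closure (Gens ..)` (`conj_mem_Gens`), so `π g = π b`, `b ∈ closure (range gen)`; `b g⁻¹ ∈ Nk ⊆ Cg k`, so `lam b = lam g = 1`,
`eq_one_of_indep`: `π g = π b = 1`, `g ∈ Nk`, `mem_Nk`.
-/

set_option autoImplicit false

namespace Pool.Agent.SSE

open Polynomial Matrix

variable {J : Type} [Fintype J] [DecidableEq J]

/-- coefficients of `X^(k-1)` in `g - 1` -/
private noncomputable def K2_lm (k : ℕ) (g : SpecialLinearGroup J ℤ[X]) : Matrix J J ℤ :=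
  fun a b => ((g : Matrix J J ℤ[X]) a b - (1 : Matrix J J ℤ[X]) a b).coeff (k - 1)

private theorem K2_coeff_mul {k : ℕ} (hk : 2 ≤ k) {u v : ℤ[X]} (hu : X ^ (k - 1) ∣ u)
    (hv : X ^ (k - 1) ∣ v) : (u * v).coeff (k - 1) = 0 := by
  have h : X ^ k ∣ u * v := by
    refine (pow_dvd_pow X (show k ≤ (k - 1) + (k - 1) by omega)).trans ?_
    rw [pow_add]
    exact mul_dvd_mul hu hv
  exact (X_pow_dvd_iff.mp h) (k - 1) (by omega)

private theorem K2_lm_mul {k : ℕ} (hk : 2 ≤ k) {g h : SpecialLinearGroup J ℤ[X]}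
    (hg : Cg (k - 1) g) (hh : Cg (k - 1) h) : K2_lm k (g * h) = K2_lm k g + K2_lm k h := by
  have key : (g : Matrix J J ℤ[X]) * (h : Matrix J J ℤ[X]) - 1 =
      ((g : Matrix J J ℤ[X]) - 1) + ((h : Matrix J J ℤ[X]) - 1) +
        ((g : Matrix J J ℤ[X]) - 1) * ((h : Matrix J J ℤ[X]) - 1) := by
    noncomm_ring
  ext a b
  have e := congrFun (congrFun key a) b
  rw [Matrix.sub_apply, Matrix.add_apply, Matrix.add_apply, Matrix.sub_apply, Matrix.sub_apply,
    Matrix.mul_apply (M := (g : Matrix J J ℤ[X]) - 1)] at e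
  rw [Matrix.add_apply]
  have e2 : K2_lm k (g * h) a b = (((g : Matrix J J ℤ[X]) * (h : Matrix J J ℤ[X])) a b -
    (1 : Matrix J J ℤ[X]) a b).coeff (k - 1) := rfl
  rw [e2, e, coeff_add, coeff_add, finsetSum_coeff]
  have z : ∑ c, ((((g : Matrix J J ℤ[X]) - 1) a c) * (((h : Matrix J J ℤ[X]) - 1) c b)).coeff (k - 1)
      = 0 := by
    refine Finset.sum_eq_zero fun c _ => ?_
    exact K2_coeff_mul hk (hg a c) (hh c b)
  rw [z, add_zero]
  rfl

private theorem K2_lm_one (k : ℕ) : K2_lm k (1 : SpecialLinearGroup J ℤ[X]) = 0 := by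
  ext a b
  simp [K2_lm]

private theorem K2_lm_of_Cg {k : ℕ} (hk : 1 ≤ k) {g : SpecialLinearGroup J ℤ[X]} (hg : Cg k g) :
    K2_lm k g = 0 := by
  ext a b
  exact (X_pow_dvd_iff.mp (hg a b)) (k - 1) (by omega)

/-- the congruence subgroup of the elementary group -/
private def K2_H (J : Type) [Fintype J] [DecidableEq J] (k : ℕ) :
    Subgroup ↥(EG (Set.univ : Set J)) where
  carrier := {e | Cg (k - 1) (e : SpecialLinearGroup J ℤ[X])}
  mul_mem' := fun {a b} ha hb => by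
    show Cg (k - 1) ((a * b : ↥(EG (Set.univ : Set J))) : SpecialLinearGroup J ℤ[X])
    exact Cg_mul ha hb
  one_mem' := Cg_one _
  inv_mem' := fun {a} ha => by
    show Cg (k - 1) ((a⁻¹ : ↥(EG (Set.univ : Set J))) : SpecialLinearGroup J ℤ[X])
    exact Cg_inv ha

private noncomputable def K2_lam {k : ℕ} (hk : 2 ≤ k) :
    ↥(K2_H J k) →* Multiplicative (Matrix J J ℤ) where
  toFun e := Multiplicative.ofAdd (K2_lm k (e.1.1))
  map_one' := by
    show Multiplicative.ofAdd (K2_lm k (1 : SpecialLinearGroup J ℤ[X])) = 1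
    rw [K2_lm_one]; rfl
  map_mul' := fun a b => by
    show Multiplicative.ofAdd (K2_lm k (a.1.1 * b.1.1)) = _
    rw [K2_lm_mul hk a.2 b.2]; rfl

private theorem K2_lm_inv {k : ℕ} (hk : 2 ≤ k) {g : SpecialLinearGroup J ℤ[X]}
    (hg : Cg (k - 1) g) : K2_lm k g⁻¹ = -K2_lm k g := by
  have h := K2_lm_mul hk hg (Cg_inv hg)
  rw [mul_inv_cancel, K2_lm_one] at h
  exact (neg_eq_of_add_eq_zero_right h.symm).symm

private theorem K2_lm_xx {k : ℕ} {p q : J} (h : p ≠ q) :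
    K2_lm k (xx h (X ^ (k - 1))) = Matrix.single p q 1 := by
  ext a b
  simp only [K2_lm, xx, SpecialLinearGroup.transvection_coe, Matrix.add_apply, add_sub_cancel_left]
  by_cases hab : p = a ∧ q = b
  · obtain ⟨rfl, rfl⟩ := hab
    simp
  · rw [Matrix.single_apply_of_ne _ _ _ _ _ hab, Matrix.single_apply_of_ne _ _ _ _ _ hab]
    simp

private theorem K2_lm_conj {k : ℕ} {o j : J} (h : j ≠ o) :
    K2_lm k (xx h 1 * xx h.symm (X ^ (k - 1)) * (xx h 1)⁻¹) =
      Matrix.single o j 1 + Matrix.single j j 1 - Matrix.single o o 1 - Matrix.single j o 1 := by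
  have key : (xx h (1 : ℤ[X]) : Matrix J J ℤ[X]) * (xx h.symm (X ^ (k - 1)) : Matrix J J ℤ[X]) *
      (xx h (-1) : Matrix J J ℤ[X]) - 1 =
        Matrix.single o j (X ^ (k - 1)) + Matrix.single j j (X ^ (k - 1)) -
        Matrix.single o o (X ^ (k - 1)) - Matrix.single j o (X ^ (k - 1)) := by
    simp only [xx, SpecialLinearGroup.transvection_coe]
    simp only [mul_add, add_mul, one_mul, mul_one, Matrix.single_mul_single_same,
      Matrix.single_mul_single_of_ne _ _ _ _ h, Matrix.single_mul_single_of_ne _ _ _ _ h.symm,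
      add_zero, zero_add, mul_neg, neg_mul, neg_neg, mul_zero, zero_mul, neg_zero]
    have hn : ∀ (a b : J) (c : ℤ[X]), Matrix.single a b (-c) = -Matrix.single a b c := by
      intro a b c
      ext u v : 2
      by_cases huv : a = u ∧ b = v
      · obtain ⟨rfl, rfl⟩ := huv; simp
      · rw [Matrix.neg_apply, Matrix.single_apply_of_ne _ _ _ _ _ huv,
          Matrix.single_apply_of_ne _ _ _ _ _ huv, neg_zero]
    simp only [hn]
    abel
  have hs : ∀ (a b u v : J), (Matrix.single a b (X ^ (k - 1) : ℤ[X]) u v).coeff (k - 1) =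
      Matrix.single a b (1 : ℤ) u v := by
    intro a b u v
    by_cases huv : a = u ∧ b = v
    · obtain ⟨rfl, rfl⟩ := huv; simp
    · rw [Matrix.single_apply_of_ne _ _ _ _ _ huv, Matrix.single_apply_of_ne _ _ _ _ _ huv]
      simp
  ext u v
  have e := congrFun (congrFun key u) v
  rw [Matrix.sub_apply] at e
  rw [xx_inv]
  have e2 : K2_lm k (xx h 1 * xx h.symm (X ^ (k - 1)) * xx h (-1)) u v =
    (((xx h (1 : ℤ[X]) : Matrix J J ℤ[X]) * (xx h.symm (X ^ (k - 1)) : Matrix J J ℤ[X]) *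
      (xx h (-1) : Matrix J J ℤ[X])) u v - (1 : Matrix J J ℤ[X]) u v).coeff (k - 1) := rfl
  rw [e2, e]
  simp only [Matrix.sub_apply, Matrix.add_apply, coeff_sub, coeff_add, hs]

/-- index type of the basic elements -/
private abbrev K2_I (J : Type) (o : J) : Type := {p : J × J // p.1 ≠ p.2} ⊕ {j : J // j ≠ o}

private def K2_v (o : J) : K2_I J o → Matrix J J ℤ
  | Sum.inl p => Matrix.single p.1.1 p.1.2 1
  | Sum.inr j => Matrix.single j.1 j.1 1 - Matrix.single o o 1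

private theorem K2_indep (o : J) : LinearIndependent ℤ (K2_v (J := J) o) := by
  rw [Fintype.linearIndependent_iff]
  intro c hc
  have hev : ∀ a b : J, ∑ p : {p : J × J // p.1 ≠ p.2}, c (Sum.inl p) * Matrix.single p.1.1 p.1.2
      (1 : ℤ) a b + ∑ j : {j : J // j ≠ o}, c (Sum.inr j) * (Matrix.single j.1 j.1 (1 : ℤ) a b -
        Matrix.single o o (1 : ℤ) a b) = 0 := by
    intro a b
    have e := congrFun (congrFun hc a) b
    rw [Fintype.sum_sum_type, Matrix.add_apply, Matrix.sum_apply, Matrix.sum_apply] at e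
    simpa [K2_v, Matrix.smul_apply, smul_eq_mul] using e
  rintro (⟨⟨p, q⟩, hpq⟩ | ⟨j, hj⟩)
  · have e := hev p q
    rw [Finset.sum_eq_single (⟨(p, q), hpq⟩ : {p : J × J // p.1 ≠ p.2}), Finset.sum_eq_zero] at e
    · simpa using e
    · rintro ⟨j, hj⟩ _
      have h1 : Matrix.single j j (1 : ℤ) p q = 0 :=
        Matrix.single_apply_of_ne _ _ _ _ _ (fun h => hpq (h.1.symm.trans h.2))
      have h2 : Matrix.single o o (1 : ℤ) p q = 0 :=
        Matrix.single_apply_of_ne _ _ _ _ _ (fun h => hpq (h.1.symm.trans h.2))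
      simp only [h1, h2, sub_zero, mul_zero]
    · rintro ⟨⟨a, b⟩, hab⟩ _ hne
      have h1 : Matrix.single a b (1 : ℤ) p q = 0 :=
        Matrix.single_apply_of_ne _ _ _ _ _ (fun h => hne (by
          obtain ⟨h1, h2⟩ := h
          subst h1; subst h2; rfl))
      simp only [h1, mul_zero]
    · intro h; exact absurd (Finset.mem_univ _) h
  · have e := hev j j
    rw [Finset.sum_eq_zero, Finset.sum_eq_single (⟨j, hj⟩ : {j : J // j ≠ o})] at e
    · have h2 : Matrix.single o o (1 : ℤ) j j = 0 :=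
        Matrix.single_apply_of_ne _ _ _ _ _ (fun h => hj h.1.symm)
      simpa [h2] using e
    · rintro ⟨l, hl⟩ _ hne
      have h1 : Matrix.single l l (1 : ℤ) j j = 0 :=
        Matrix.single_apply_of_ne _ _ _ _ _ (fun h => hne (by
          obtain ⟨h1, _⟩ := h
          subst h1; rfl))
      have h2 : Matrix.single o o (1 : ℤ) j j = 0 :=
        Matrix.single_apply_of_ne _ _ _ _ _ (fun h => hj h.1.symm)
      simp only [h1, h2, sub_zero, mul_zero]
    · intro h; exact absurd (Finset.mem_univ _) h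
    · rintro ⟨⟨a, b⟩, hab⟩ _
      have h1 : Matrix.single a b (1 : ℤ) j j = 0 :=
        Matrix.single_apply_of_ne _ _ _ _ _ (fun h => hab (h.1.trans h.2.symm))
      simp only [h1, mul_zero]

/-- the basic elements in `SL` -/
private noncomputable def K2_g (k : ℕ) (o : J) : K2_I J o → SpecialLinearGroup J ℤ[X]
  | Sum.inl p => xx p.2 (X ^ (k - 1))
  | Sum.inr j => xx j.2 1 * xx j.2.symm (X ^ (k - 1)) * (xx j.2 1)⁻¹ *
      (xx j.2.symm (X ^ (k - 1)))⁻¹ * xx j.2 (X ^ (k - 1))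

private theorem K2_g_EG (k : ℕ) (o : J) (s : K2_I J o) :
    K2_g k o s ∈ EG (Set.univ : Set J) := by
  rcases s with p | j
  · exact xx_mem_EG p.2 (Set.mem_univ _) (Set.mem_univ _) _
  · have h1 : ∀ {a b : J} (h : a ≠ b) (c : ℤ[X]), xx h c ∈ EG (Set.univ : Set J) :=
      fun h c => xx_mem_EG h (Set.mem_univ _) (Set.mem_univ _) c
    exact mul_mem (mul_mem (mul_mem (mul_mem (h1 _ _) (h1 _ _)) (inv_mem (h1 _ _)))
      (inv_mem (h1 _ _))) (h1 _ _)

private theorem K2_g_Cg (k : ℕ) (o : J) (s : K2_I J o) : Cg (k - 1) (K2_g k o s) := by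
  rcases s with p | j
  · exact Cg_xx p.2 dvd_rfl
  · exact Cg_mul (Cg_mul (Cg_conj (Cg_xx _ dvd_rfl) _) (Cg_inv (Cg_xx _ dvd_rfl)))
      (Cg_xx _ dvd_rfl)

private theorem K2_lm_g {k : ℕ} (hk : 2 ≤ k) (o : J) (s : K2_I J o) :
    K2_lm k (K2_g k o s) = K2_v o s := by
  rcases s with p | j
  · exact K2_lm_xx p.2
  · show K2_lm k (xx j.2 1 * xx j.2.symm (X ^ (k - 1)) * (xx j.2 1)⁻¹ *
      (xx j.2.symm (X ^ (k - 1)))⁻¹ * xx j.2 (X ^ (k - 1))) = _
    have c1 : Cg (k - 1) (xx j.2 1 * xx j.2.symm (X ^ (k - 1)) * (xx j.2 1)⁻¹) :=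
      Cg_conj (Cg_xx _ dvd_rfl) _
    have c2 : Cg (k - 1) (xx j.2.symm (X ^ (k - 1)) : SpecialLinearGroup J ℤ[X]) :=
      Cg_xx _ dvd_rfl
    have c3 : Cg (k - 1) (xx j.2 (X ^ (k - 1)) : SpecialLinearGroup J ℤ[X]) := Cg_xx _ dvd_rfl
    rw [K2_lm_mul hk (Cg_mul c1 (Cg_inv c2)) c3, K2_lm_mul hk c1 (Cg_inv c2), K2_lm_inv hk c2,
      K2_lm_conj, K2_lm_xx, K2_lm_xx]
    show _ = Matrix.single j.1 j.1 1 - Matrix.single o o 1
    abel

/-- the basic elements in the congruence subgroup -/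
private noncomputable def K2_gen (k : ℕ) (o : J) (s : K2_I J o) : ↥(K2_H J k) :=
  ⟨⟨K2_g k o s, K2_g_EG k o s⟩, K2_g_Cg k o s⟩

theorem graded (h3 : ∀ i j : J, ∃ l, l ≠ i ∧ l ≠ j) {i j : J} (h : i ≠ j) {k : ℕ} (hk : 2 ≤ k)
    {g : SpecialLinearGroup J ℤ[X]} (hg : g ∈ ER (Set.univ : Set J) (k - 1)) (hc : Cg k g) :
    ∃ m : ℤ, g * sy h X (X ^ (k - 1)) ^ m ∈ ER (Set.univ : Set J) k := by
  classical
  have hk1 : 1 ≤ k := by omega
  refine mem_Nk h3 h hk1 ?_
  obtain ⟨Q, _, π, x, hπ, hx, hT⟩ := exists_quot h3 h hk1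
  -- images of transvections
  have hxx : ∀ {p q : J} (hpq : p ≠ q) (c : ℤ[X]) (hm : xx hpq c ∈ EG (Set.univ : Set J)),
      π ⟨xx hpq c, hm⟩ = x p q c := by
    intro p q hpq c hm
    obtain ⟨e, he, he'⟩ := hx p q hpq c
    rw [← he]
    congr 1
    apply Subtype.ext
    rw [he']
    simp [xt, hpq]
  have hmem : ∀ {p q : J} (hpq : p ≠ q) (c : ℤ[X]), xx hpq c ∈ EG (Set.univ : Set J) :=
    fun hpq c => xx_mem_EG hpq (Set.mem_univ _) (Set.mem_univ _) c
  -- the image of the elementary group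
  have hXg : ∀ e : ↥(EG (Set.univ : Set J)), π e ∈ Xg x := by
    rintro ⟨e, he⟩
    have he2 := he
    unfold EG at he2
    induction he2 using Subgroup.closure_induction with
    | mem y hy =>
      obtain ⟨a, b, hab, c, -, -, rfl⟩ := hy
      rw [hxx hab c]
      exact Subgroup.subset_closure ⟨a, b, c, hab, rfl⟩
    | one =>
      have : (⟨1, he⟩ : ↥(EG (Set.univ : Set J))) = 1 := rfl
      rw [this, map_one]; exact one_mem _
    | mul y z hy hz ihy ihz =>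
      have e1 : (⟨y * z, he⟩ : ↥(EG (Set.univ : Set J))) = ⟨y, hy⟩ * ⟨z, hz⟩ := rfl
      rw [e1, map_mul]
      exact mul_mem (ihy hy) (ihz hz)
    | inv y hy ihy =>
      have e1 : (⟨y⁻¹, he⟩ : ↥(EG (Set.univ : Set J))) = (⟨y, hy⟩)⁻¹ := rfl
      rw [e1, map_inv]
      exact inv_mem (ihy hy)
  -- the image of the relative elementary group
  have hER : ∀ y (hy : y ∈ ER (Set.univ : Set J) (k - 1)) (hy' : y ∈ EG (Set.univ : Set J)),
      π ⟨y, hy'⟩ ∈ Subgroup.closure (Gens k x i) := by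
    intro y hy hy'
    have hy2 : y ∈ Subgroup.closure {g | ∃ e ∈ EG (Set.univ : Set J), ∃ (i j : J) (h : i ≠ j)
      (c : ℤ[X]), i ∈ (Set.univ : Set J) ∧ j ∈ (Set.univ : Set J) ∧
        g = e * xx h (X ^ (k - 1) * c) * e⁻¹} := hy
    clear hy
    induction hy2 using Subgroup.closure_induction with
    | mem y hy3 =>
      obtain ⟨e, he, a, b, hab, c, -, -, rfl⟩ := hy3
      have e1 : (⟨e * xx hab (X ^ (k - 1) * c) * e⁻¹, hy'⟩ : ↥(EG (Set.univ : Set J))) =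
          ⟨e, he⟩ * ⟨xx hab (X ^ (k - 1) * c), hmem hab _⟩ * (⟨e, he⟩)⁻¹ := rfl
      rw [e1, map_mul, map_mul, map_inv, hxx hab]
      exact conj_mem_Gens hT h3 hk i hab c (hXg _)
    | one =>
      have : (⟨1, hy'⟩ : ↥(EG (Set.univ : Set J))) = 1 := rfl
      rw [this, map_one]; exact one_mem _
    | mul y z h1 h2 ihy ihz =>
      have e1 : (⟨y * z, hy'⟩ : ↥(EG (Set.univ : Set J))) =
        ⟨y, ER_le_EG _ (k - 1) h1⟩ * ⟨z, ER_le_EG _ (k - 1) h2⟩ := rfl
      rw [e1, map_mul]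
      exact mul_mem (ihy _) (ihz _)
    | inv y h1 ihy =>
      have e1 : (⟨y⁻¹, hy'⟩ : ↥(EG (Set.univ : Set J))) = (⟨y, ER_le_EG _ (k - 1) h1⟩)⁻¹ := rfl
      rw [e1, map_inv]
      exact inv_mem (ihy _)
  -- images of the basic elements
  let πH : ↥(K2_H J k) →* Q := π.comp (K2_H J k).subtype
  have hgen : ∀ s : K2_I J i, πH (K2_gen k i s) ∈ Gens k x i ∧
      ∀ y ∈ Gens k x i, ∃ s, πH (K2_gen k i s) = y := by
    intro s
    have hl : ∀ p : {p : J × J // p.1 ≠ p.2}, πH (K2_gen k i (Sum.inl p)) =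
        x p.1.1 p.1.2 (X ^ (k - 1)) := fun p => hxx p.2 _ _
    have hr : ∀ j : {j : J // j ≠ i}, πH (K2_gen k i (Sum.inr j)) = hm k x i j.1 := by
      intro j
      have e1 : (⟨K2_g k i (Sum.inr j), K2_g_EG k i (Sum.inr j)⟩ : ↥(EG (Set.univ : Set J))) =
          ⟨xx j.2 1, hmem _ _⟩ * ⟨xx j.2.symm (X ^ (k - 1)), hmem _ _⟩ *
            (⟨xx j.2 1, hmem _ _⟩)⁻¹ * (⟨xx j.2.symm (X ^ (k - 1)), hmem _ _⟩)⁻¹ *
            ⟨xx j.2 (X ^ (k - 1)), hmem _ _⟩ := rfl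
      show π ⟨K2_g k i (Sum.inr j), K2_g_EG k i (Sum.inr j)⟩ = _
      rw [e1, map_mul, map_mul, map_mul, map_mul, map_inv, map_inv, hxx j.2, hxx j.2.symm,
        hxx j.2]
      rfl
    refine ⟨?_, ?_⟩
    · rcases s with p | j
      · rw [hl]; exact Or.inl ⟨p.1.1, p.1.2, p.2, rfl⟩
      · rw [hr]; exact Or.inr ⟨j.1, j.2, rfl⟩
    · rintro y (⟨a, b, hab, rfl⟩ | ⟨b, hb, rfl⟩)
      · exact ⟨Sum.inl ⟨(a, b), hab⟩, hl _⟩
      · exact ⟨Sum.inr ⟨b, hb⟩, hr _⟩
  have hsub : Subgroup.closure (Gens k x i) ≤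
      Subgroup.map πH (Subgroup.closure (Set.range (K2_gen k i))) := by
    rw [Subgroup.closure_le]
    intro y hy
    have s0 : K2_I J i := Sum.inl ⟨(i, j), h⟩
    obtain ⟨s, hs⟩ := (hgen s0).2 y hy
    exact ⟨K2_gen k i s, Subgroup.subset_closure ⟨s, rfl⟩, hs⟩
  have hgE : g ∈ EG (Set.univ : Set J) := ER_le_EG _ _ hg
  obtain ⟨b, hb, hbg⟩ := hsub (hER g hg hgE)
  -- `lam b = 1`
  have hker : (b.1 * (⟨g, hgE⟩)⁻¹ : ↥(EG (Set.univ : Set J))).1 ∈ Nk h k := by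
    rw [← hπ, map_mul, map_inv]
    have : π b.1 = π ⟨g, hgE⟩ := hbg
    rw [this, mul_inv_cancel]
  have hCb : Cg k (b.1.1 * g⁻¹) := (Nk_le h hk1 hker).2
  have hCb2 : Cg k b.1.1 := by
    have := Cg_mul hCb hc
    rwa [inv_mul_cancel_right] at this
  have hlam : K2_lam hk b = 1 := by
    show Multiplicative.ofAdd (K2_lm k b.1.1) = 1
    rw [K2_lm_of_Cg hk1 hCb2]; rfl
  have hfin : πH b = 1 := by
    refine eq_one_of_indep πH (K2_lam hk) (K2_gen k i) ?_ ?_ hb hlam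
    · intro s s'
      exact Gens_comm hT h3 hk i (hgen s).1 (hgen s').1
    · have : (fun s => Multiplicative.toAdd (K2_lam hk (K2_gen k i s))) = K2_v i := by
        funext s
        exact K2_lm_g hk i s
      rw [this]
      exact K2_indep i
  have : π ⟨g, hgE⟩ = 1 := by rw [← hbg]; exact hfin
  exact (hπ _).mp this

end Pool.Agent.SSE
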