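import Pool.Agent.SSE.KDefs

/-!
# SSE-K2A (version of helper75): the conjugates of `e_ij(m) = x_ij(m X^(k-1))` commute

`T` = group generated by the `x_pq(X a)`; `z n i j m = x_ji(n) e_ij(m) x_ji(-n)` (`n ∈ ℤ`); `N` = group
generated by the `z`.  `T` centralises `N` (`zcent`), `N` is stable under all `x_pq(c)` (`N_x`), hence
`γ e_ij(m) γ⁻¹ ∈ N` commutes with `T` for all `γ ∈ Xg x`.
-/

set_option autoImplicit false

namespace Pool.Agent.SSE

open Polynomial MulAut

variable {J : Type} {Γ : Type} [Group Γ] {k : ℕ} {x : J → J → ℤ[X] → Γ}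

theorem x_eq_e (hx : StG k x) (hk : 1 ≤ k) {i j : J} (h : i ≠ j) (c : ℤ[X]) :
    x i j (X ^ (k - 1) * c) = x i j (C (c.coeff 0) * X ^ (k - 1)) := by
  have hc : X ^ (k - 1) * c = C (c.coeff 0) * X ^ (k - 1) + X ^ k * c.divX := by
    conv_lhs => rw [← Polynomial.divX_mul_X_add c]
    obtain ⟨n, rfl⟩ : ∃ n, k = n + 1 := ⟨k - 1, by omega⟩
    simp only [Nat.add_sub_cancel]
    ring
  rw [hc, hx.add i j h, hx.kill i j h, mul_one]

namespace K2A

theorem x_zero (hx : StG k x) {i j : J} (h : i ≠ j) : x i j 0 = 1 := by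
  have := hx.add i j h 0 0
  rw [add_zero] at this
  exact (left_eq_mul.mp this)

theorem x_neg (hx : StG k x) {i j : J} (h : i ≠ j) (a : ℤ[X]) : x i j (-a) = (x i j a)⁻¹ := by
  rw [eq_inv_iff_mul_eq_one, ← hx.add i j h, neg_add_cancel, x_zero hx h]

/-- `e_ij(m)` -/
noncomputable def e (k : ℕ) (x : J → J → ℤ[X] → Γ) (i j : J) (m : ℤ) : Γ := x i j (C m * X ^ (k - 1))

theorem e_add (hx : StG k x) {i j : J} (h : i ≠ j) (m n : ℤ) :
    e k x i j (m + n) = e k x i j m * e k x i j n := by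
  rw [e, e, e, ← hx.add i j h, ← add_mul, ← C_add]

theorem e_zero (hx : StG k x) {i j : J} (h : i ≠ j) : e k x i j 0 = 1 := by
  rw [e, C_0, zero_mul, x_zero hx h]

theorem e_neg (hx : StG k x) {i j : J} (h : i ≠ j) (a : ℤ) :
    e k x i j (-a) = (e k x i j a)⁻¹ := by
  rw [eq_inv_iff_mul_eq_one, ← e_add hx h, neg_add_cancel, e_zero hx h]

/-- the group `T` -/
def T (x : J → J → ℤ[X] → Γ) : Subgroup Γ :=
  Subgroup.closure {g | ∃ p q a, p ≠ q ∧ g = x p q (X * a)}

theorem memT {p q : J} (h : p ≠ q) (a : ℤ[X]) : x p q (X * a) ∈ T x :=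
  Subgroup.subset_closure ⟨p, q, a, h, rfl⟩

theorem memT' {p q : J} (h : p ≠ q) (a b : ℤ[X]) : x p q (b * (X * a)) ∈ T x := by
  rw [show b * (X * a) = X * (b * a) by ring]; exact memT h _

theorem memT'' {p q : J} (h : p ≠ q) (a b : ℤ[X]) : x p q (X * a * b) ∈ T x := by
  rw [show X * a * b = X * (b * a) by ring]; exact memT h _

theorem e_memT (hk : 2 ≤ k) {i j : J} (h : i ≠ j) (m : ℤ) : e k x i j m ∈ T x := by
  rw [e, show (C m * X ^ (k - 1) : ℤ[X]) = X * (C m * X ^ (k - 2)) by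
    obtain ⟨n, rfl⟩ : ∃ n, k = n + 2 := ⟨k - 2, by omega⟩
    simp only [Nat.add_sub_cancel, show n + 2 - 1 = n + 1 from rfl]
    ring]
  exact memT h _

/-- if a property `Commute · y` holds for the generators of `T` then it holds on `T` -/
theorem T_comm {y : Γ} (h : ∀ p q a, p ≠ q → Commute (x p q (X * a)) y) :
    ∀ t ∈ T x, Commute t y := by
  intro t ht
  induction ht using Subgroup.closure_induction with
  | mem g hg => obtain ⟨p, q, a, hpq, rfl⟩ := hg; exact h p q a hpq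
  | one => exact Commute.one_left _
  | mul a b _ _ ha hb => exact ha.mul_left hb
  | inv a _ ha => exact ha.inv_left

theorem kill' (hx : StG k x) (hk : 1 ≤ k) {i j : J} (h : i ≠ j) (a : ℤ[X]) (m : ℤ) :
    x i j (X * a * (C m * X ^ (k - 1))) = 1 := by
  rw [show X * a * (C m * X ^ (k - 1)) = X ^ k * (a * C m) by
    obtain ⟨n, rfl⟩ : ∃ n, k = n + 1 := ⟨k - 1, by omega⟩
    simp only [Nat.add_sub_cancel]
    ring]
  exact hx.kill i j h _

/-- (a) -/
theorem x_comm_e (hx : StT k x) (hk : 1 ≤ k) {i j p q : J} (h : i ≠ j) (hpq : p ≠ q)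
    (a : ℤ[X]) (m : ℤ) : Commute (x p q (X * a)) (e k x i j m) := by
  by_cases hqi : q = i
  · by_cases hpj : p = j
    · subst hqi hpj; exact hx.tr q p h a m
    · subst hqi
      have h1 := hx.stein p q j hpq h hpj (X * a) (C m * X ^ (k - 1))
      rw [kill' hx.toStG hk hpj, one_mul] at h1
      exact h1
  · by_cases hpj : p = j
    · subst hpj
      have h1 := hx.stein i p q h hpq (Ne.symm hqi) (C m * X ^ (k - 1)) (X * a)
      rw [mul_comm (C m * X ^ (k - 1)) (X * a), kill' hx.toStG hk (Ne.symm hqi), one_mul] at h1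
      exact h1.symm
    · exact hx.comm p q i j hpq h hqi hpj _ _

theorem T_comm_e (hx : StT k x) (hk : 1 ≤ k) {i j : J} (h : i ≠ j) (m : ℤ) :
    ∀ t ∈ T x, Commute t (e k x i j m) :=
  T_comm fun _ _ a hpq => x_comm_e hx hk h hpq a m

theorem conj_mul' (g h y : Γ) : conj (g * h) y = conj g (conj h y) := by
  rw [map_mul, MulAut.mul_apply]

theorem conj_comm {g h : Γ} (c : Commute g h) (y : Γ) :
    conj g (conj h y) = conj h (conj g y) := by
  rw [← conj_mul', ← conj_mul', c.eq]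

theorem conj_of_comm {g y : Γ} (c : Commute g y) : conj g y = y := by
  rw [MulAut.conj_apply, c.eq, mul_assoc, mul_inv_cancel, mul_one]

theorem conj_left (hx : StG k x) (hk : 1 ≤ k) {p i j : J} (h : i ≠ j) (hp : p ≠ i) (hpj : p ≠ j)
    (f : ℤ[X]) (m : ℤ) :
    conj (x p i f) (e k x i j m) = e k x p j (f.coeff 0 * m) * e k x i j m := by
  have h1 := hx.stein p i j hp h hpj f (C m * X ^ (k - 1))
  rw [MulAut.conj_apply, e, h1, mul_assoc, mul_inv_cancel, mul_one,
    show f * (C m * X ^ (k - 1)) = X ^ (k - 1) * (f * C m) by ring, x_eq_e hx hk hpj]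
  simp [e]

theorem conj_right (hx : StG k x) (hk : 1 ≤ k) {i j q : J} (h : i ≠ j) (hq : q ≠ i) (hqj : q ≠ j)
    (f : ℤ[X]) (m : ℤ) :
    conj (x j q f) (e k x i j m) = (e k x i q (f.coeff 0 * m))⁻¹ * e k x i j m := by
  have h1 := hx.stein i j q h hqj.symm hq.symm (C m * X ^ (k - 1)) f
  rw [show (C m * X ^ (k - 1)) * f = X ^ (k - 1) * (f * C m) by ring, x_eq_e hx hk hq.symm] at h1
  have h2 : x j q f * x i j (C m * X ^ (k - 1)) =
      (x i q (C ((f * C m).coeff 0) * X ^ (k - 1)))⁻¹ * (x i j (C m * X ^ (k - 1)) * x j q f) := by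
    rw [h1]; group
  rw [MulAut.conj_apply, e, h2, ← mul_assoc, mul_assoc _ (x j q f), mul_inv_cancel, mul_one]
  simp [e]

theorem conj_triv (hx : StG k x) {p q i j : J} (h : i ≠ j) (hpq : p ≠ q) (hq : q ≠ i) (hp : p ≠ j)
    (f : ℤ[X]) (m : ℤ) : conj (x p q f) (e k x i j m) = e k x i j m :=
  conj_of_comm (hx.comm p q i j hpq h hq hp _ _)

/-- `z n i j m = x_ji(n) e_ij(m) x_ji(-n)` -/
noncomputable def z (k : ℕ) (x : J → J → ℤ[X] → Γ) (n : ℤ) (i j : J) (m : ℤ) : Γ :=
  conj (x j i (C n)) (e k x i j m)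

/-- `e_ij(m)` commutes with `x_ji(-n) x_pq(X a) x_ji(n)` -/
theorem e_comm_w (hx : StT k x) (h3 : ∀ i j : J, ∃ l, l ≠ i ∧ l ≠ j) (hk : 1 ≤ k) {i j p q : J}
    (h : i ≠ j) (hpq : p ≠ q) (a : ℤ[X]) (n m : ℤ) :
    Commute (conj (x j i (C n))⁻¹ (x p q (X * a))) (e k x i j m) := by
  have key : ∀ u v : J, u ≠ v → ¬ (u = i ∧ v = j) → ∀ b : ℤ[X],
      conj (x j i (C n))⁻¹ (x u v (X * b)) ∈ T x := by
    intro u v huv hn b
    rw [← x_neg hx.toStG h.symm]
    by_cases huj : v = j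
    · have hui : u ≠ i := fun hh => hn ⟨hh, huj⟩
      subst huj
      -- x_vi(-n) x_uv(Xb) = x_uv(Xb) ... 
      have h1 := hx.stein u v i huv h.symm hui (X * b) (-C n)
      have h2 : conj (x v i (-C n)) (x u v (X * b)) =
          (x u i (X * b * -C n))⁻¹ * x u v (X * b) := by
        rw [MulAut.conj_apply]
        have : x v i (-C n) * x u v (X * b) =
            (x u i (X * b * -C n))⁻¹ * (x u v (X * b) * x v i (-C n)) := by rw [h1]; group
        rw [this, ← mul_assoc, mul_assoc _ (x v i (-C n)), mul_inv_cancel, mul_one]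
      rw [h2]
      exact (T x).mul_mem ((T x).inv_mem (memT'' hui _ _)) (memT huv _)
    · by_cases hui : u = i
      · subst hui
        have h1 := hx.stein j u v h.symm huv (Ne.symm huj) (-C n) (X * b)
        have h2 : conj (x j u (-C n)) (x u v (X * b)) = x j v (-C n * (X * b)) * x u v (X * b) := by
          rw [MulAut.conj_apply, h1, mul_assoc, mul_inv_cancel, mul_one]
        rw [h2]
        exact (T x).mul_mem (memT' (Ne.symm huj) _ _) (memT huv _)
      · rw [conj_of_comm (hx.comm j i u v h.symm huv (Ne.symm hui) (Ne.symm huj) _ _)]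
        exact memT huv _
  by_cases hn : p = i ∧ q = j
  · obtain ⟨rfl, rfl⟩ := hn
    obtain ⟨l, hl, hlj⟩ := h3 p q
    have h1 := hx.stein p l q hl.symm hlj h (X * a) 1
    rw [mul_one] at h1
    have h2 : x p q (X * a) = x p l (X * a) * (x l q 1 * (x p l (X * a))⁻¹ * (x l q 1)⁻¹) := by
      have : x p q (X * a) = x p l (X * a) * x l q 1 * (x p l (X * a))⁻¹ * (x l q 1)⁻¹ := by
        rw [h1]; group
      rw [this]; group
    set g := (x q p (C n))⁻¹ with hg
    have hB : conj g (x l q 1) = x l p (C n) * x l q 1 := by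
      have h4 := hx.stein l q p hlj h.symm hl 1 (C n)
      rw [one_mul] at h4
      have h5 := hx.comm l p q p hl h.symm h hl (C n) (C n)
      rw [MulAut.conj_apply, hg, inv_inv, mul_assoc, h4]
      have : x l p (C n) * x q p (C n) * x l q 1 = x q p (C n) * (x l p (C n) * x l q 1) := by
        rw [h5, mul_assoc]
      rw [this]; group
    set A := conj g (x p l (X * a)) with hA
    set B := conj g (x l q 1) with hBd
    have hAT : A ∈ T x := key p l hl.symm (fun hh => hlj hh.2) a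
    have hconj : conj g (x p q (X * a)) = A * (B * A⁻¹ * B⁻¹) := by
      rw [h2, map_mul, map_mul, map_mul, map_inv (conj g), map_inv (conj g)]
    have hy : conj B⁻¹ (e k x p q m) = e k x p q m * e k x l q (-(n * m)) := by
      rw [hB, mul_inv_rev, conj_mul', ← x_neg hx.toStG hl, ← x_neg hx.toStG hlj,
        conj_left hx.toStG hk h hl hlj, map_mul, conj_triv hx.toStG hlj hlj hlj.symm hlj,
        conj_triv hx.toStG h hlj h.symm hlj]
      have c : Commute (e k x l q (-(n * m))) (e k x p q m) :=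
        hx.comm l q p q hlj h h.symm hlj _ _
      rw [← c.eq]
      simp
    have hcy : Commute A (conj B⁻¹ (e k x p q m)) := by
      rw [hy]
      exact (T_comm_e hx hk h m A hAT).mul_right (T_comm_e hx hk hlj _ A hAT)
    have hc2 : Commute (B * A⁻¹ * B⁻¹) (e k x p q m) := by
      have := hcy.inv_left
      have h6 : Commute (conj B A⁻¹) (conj B (conj B⁻¹ (e k x p q m))) := by
        exact this.map (conj B)
      rw [← conj_mul', mul_inv_cancel, map_one, MulAut.one_apply, MulAut.conj_apply] at h6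
      exact h6
    rw [hconj]
    exact (T_comm_e hx hk h m A hAT).mul_left hc2
  · exact T_comm_e hx hk h m _ (key p q hpq hn a)

/-- (b): `T` commutes with the `z` -/
theorem T_comm_z (hx : StT k x) (h3 : ∀ i j : J, ∃ l, l ≠ i ∧ l ≠ j) (hk : 1 ≤ k) {i j : J}
    (h : i ≠ j) (n m : ℤ) : ∀ t ∈ T x, Commute t (z k x n i j m) := by
  apply T_comm
  intro p q a hpq
  have h1 := e_comm_w hx h3 hk h hpq a n m
  have h2 := h1.map (conj (x j i (C n)))
  rw [← conj_mul', mul_inv_cancel, map_one, MulAut.one_apply] at h2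
  exact h2

theorem z_zero (hx : StG k x) {i j : J} (h : i ≠ j) (m : ℤ) : z k x 0 i j m = e k x i j m := by
  simp [z, x_zero hx h.symm]

/-- the group generated by the `z n i j m` -/
noncomputable def N (k : ℕ) (x : J → J → ℤ[X] → Γ) : Subgroup Γ :=
  Subgroup.closure {g | ∃ n i j m, i ≠ j ∧ g = z k x n i j m}

theorem z_memN (n : ℤ) {i j : J} (m : ℤ) (h : i ≠ j) : z k x n i j m ∈ N k x :=
  Subgroup.subset_closure ⟨n, i, j, m, h, rfl⟩

theorem e_memN (hx : StG k x) {i j : J} (m : ℤ) (h : i ≠ j) : e k x i j m ∈ N k x := by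
  rw [← z_zero hx h m]; exact z_memN 0 m h

/-- first case: `x_pq` commutes with `x_ji` -/
theorem c1 (hx : StG k x) (hk : 1 ≤ k) (n : ℤ) {i j : J} (m : ℤ) {p q : J} (a : ℤ) (h : i ≠ j)
    (hpq : p ≠ q) (hp : p ≠ i) (hq : q ≠ j) (hn : ¬ (p = j ∧ q = i)) :
    conj (x p q (C a)) (z k x n i j m) ∈ N k x := by
  have hc : Commute (x p q (C a)) (x j i (C n)) := hx.comm p q j i hpq h.symm hq hp _ _
  have hz := z_memN (k := k) (x := x) n m h
  have e1 : conj (x p q (C a)) (z k x n i j m) =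
      conj (x j i (C n)) (conj (x p q (C a)) (e k x i j m)) := conj_comm hc _
  by_cases hqi : q = i
  · subst hqi
    have hpj : p ≠ j := fun hh => hn ⟨hh, rfl⟩
    rw [e1, conj_left hx hk h hp hpj, map_mul, conj_right hx hk hpj hpq.symm h]
    exact (N k x).mul_mem ((N k x).mul_mem ((N k x).inv_mem (e_memN hx _ hp)) (e_memN hx _ hpj)) hz
  by_cases hpj : p = j
  · subst hpj
    rw [e1, conj_right hx hk h hqi hq, map_mul, map_inv (conj (x p i (C n))),
      conj_left hx hk (Ne.symm hqi) hp hpq]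
    exact (N k x).mul_mem ((N k x).inv_mem ((N k x).mul_mem (e_memN hx _ hpq)
      (e_memN hx _ (Ne.symm hqi)))) hz
  · rw [e1, conj_triv hx h hpq hqi hpj]; exact hz

/-- conjugation by `x_pq`, `(p,q) ≠ (i,j)`, maps `z n i j m` to `N` -/
theorem good (hx : StG k x) (hk : 1 ≤ k) (n : ℤ) {i j : J} (m : ℤ) {p q : J} (a : ℤ) (h : i ≠ j)
    (hpq : p ≠ q) (hn : ¬ (p = i ∧ q = j)) : conj (x p q (C a)) (z k x n i j m) ∈ N k x := by
  by_cases hji : p = j ∧ q = i
  · obtain ⟨rfl, rfl⟩ := hji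
    rw [z, ← conj_mul', ← hx.add _ _ hpq, ← C_add]
    exact z_memN (a + n) m h
  by_cases hp : p = i
  · subst hp
    have hq : q ≠ j := fun hh => hn ⟨rfl, hh⟩
    -- x_pq(a) x_jp(n) = x_jq(na)⁻¹ x_jp(n) x_pq(a)
    have h1 := hx.stein j p q h.symm hpq hq.symm (C n) (C a)
    have h2 : x p q (C a) * x j p (C n) =
        x j q (-(C n * C a)) * (x j p (C n) * x p q (C a)) := by
      rw [x_neg hx hq.symm, h1]; group
    rw [z, ← conj_mul', h2, conj_mul', conj_mul', conj_triv hx h hpq hpq.symm h, ← C_mul, ← C_neg]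
    exact c1 hx hk n m _ h hq.symm h.symm hq (fun hh => hpq hh.2.symm)
  by_cases hq : q = j
  · subst hq
    have h1 := hx.stein p q i hpq h.symm hp (C a) (C n)
    rw [z, ← conj_mul', h1, conj_mul', conj_mul', conj_triv hx h hpq h.symm hpq, ← C_mul]
    exact c1 hx hk n m _ h hp hp h (fun hh => hpq hh.1)
  exact c1 hx hk n m a h hpq hp hq hji

/-- conjugation by `x_ij` maps `z n i j m` to `N` (third index) -/
theorem bad (hx : StG k x) (hk : 1 ≤ k) (n : ℤ) {i j l : J} (m a : ℤ) (h : i ≠ j) (hl : l ≠ i)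
    (hlj : l ≠ j) : conj (x i j (C a)) (z k x n i j m) ∈ N k x := by
  let P : Subgroup Γ := (N k x).comap (conj (x i j (C a))).toMonoidHom
  have hP : ∀ u, u ∈ P ↔ conj (x i j (C a)) u ∈ N k x := fun u => Iff.rfl
  have gz : ∀ (n' : ℤ) {i' j' : J} (m' : ℤ) (_ : i' ≠ j') (_ : ¬ (i = i' ∧ j = j')),
      z k x n' i' j' m' ∈ P := fun n' i' j' m' h' hn =>
    (hP _).2 (good hx hk n' m' a h' h hn)
  have ge : ∀ {i' j' : J} (m' : ℤ) (_ : i' ≠ j') (_ : ¬ (i = i' ∧ j = j')),
      e k x i' j' m' ∈ P := fun m' h' hn => by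
    rw [← z_zero hx h' m']; exact gz 0 m' h' hn
  have ge' : ∀ m', e k x i j m' ∈ P := fun m' => by
    rw [hP, conj_triv hx h h h.symm h]; exact e_memN hx _ h
  have hli := hl
  have f1 : z k x n i j m = conj (x j i (C n)) (conj (x l j (C 1)) (e k x i l (-m))) *
      conj (x j i (C n)) (e k x i l m) := by
    rw [← map_mul, conj_right hx hk hl.symm h.symm hlj.symm, z]
    congr 1
    rw [coeff_C_zero, one_mul, e_neg hx h, inv_inv, e_neg hx hl.symm]
    group
  have f2 : conj (x j i (C n)) (e k x i l m) ∈ P := by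
    rw [conj_left hx hk hl.symm h.symm hlj.symm]
    exact P.mul_mem (ge _ hlj.symm (fun hh => h hh.1)) (ge _ hl.symm (fun hh => hlj hh.2.symm))
  have h1 := hx.stein l j i hlj h.symm hl (C 1) (C n)
  have h2 : x j i (C n) * x l j (C 1) = x l i (C (-n)) * (x l j (C 1) * x j i (C n)) := by
    rw [h1, C_neg, x_neg hx hl, C_1, one_mul]; group
  have f3 : conj (x j i (C n)) (conj (x l j (C 1)) (e k x i l (-m))) ∈ P := by
    rw [← conj_mul', h2, conj_mul', conj_mul', conj_left hx hk hl.symm h.symm hlj.symm, map_mul,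
      map_mul, conj_right hx hk hl.symm h.symm hlj.symm, map_mul, map_inv (conj (x l i (C (-n))))]
    refine P.mul_mem ?_ (P.mul_mem (P.inv_mem ?_) ?_)
    · -- conj (x l i (-n)) (conj (x l j 1) (e j l _))
      have hc : Commute (x l i (C (-n))) (x l j (C 1)) :=
        hx.comm l i l j hl hlj hl.symm hlj _ _
      rw [conj_comm hc, conj_right hx hk hlj.symm h hl.symm, map_mul, map_inv (conj (x l j (C 1))),
        conj_left hx hk h.symm hlj hl]
      refine P.mul_mem (P.inv_mem (P.mul_mem ?_ ?_)) ?_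
      · exact ge _ hl (fun hh => hl hh.1.symm)
      · exact ge _ h.symm (fun hh => h hh.1)
      · exact gz 1 _ hlj.symm (fun hh => h hh.1)
    · rw [conj_left hx hk h hl hlj]
      exact P.mul_mem (ge _ hlj (fun hh => hl hh.1.symm)) (ge' _)
    · exact gz (-n) _ hl.symm (fun hh => hlj hh.2.symm)
  rw [← hP, f1]
  exact P.mul_mem f3 f2

/-- `N` is stable under conjugation by the `x_pq(c)`, `c ∈ ℤ[X]` -/
theorem N_x (hx : StT k x) (h3 : ∀ i j : J, ∃ l, l ≠ i ∧ l ≠ j) (hk : 1 ≤ k) {p q : J}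
    (hpq : p ≠ q) (c : ℤ[X]) : ∀ u ∈ N k x, conj (x p q c) u ∈ N k x := by
  intro u hu
  have hT : ∀ u ∈ N k x, ∀ t ∈ T x, Commute t u := by
    intro u hu t ht
    induction hu using Subgroup.closure_induction with
    | mem g hg => obtain ⟨n, i, j, m, h, rfl⟩ := hg; exact T_comm_z hx h3 hk h n m t ht
    | one => exact Commute.one_right _
    | mul a b _ _ ha hb => exact ha.mul_right hb
    | inv a _ ha => exact ha.inv_right
  have hc : x p q c = x p q (C (c.coeff 0)) * x p q (X * c.divX) := by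
    rw [← hx.add p q hpq]
    congr 1
    conv_lhs => rw [← Polynomial.divX_mul_X_add c]
    ring
  rw [hc, conj_mul', conj_of_comm (hT u hu _ (memT hpq _))]
  induction hu using Subgroup.closure_induction with
  | mem g hg =>
    obtain ⟨n, i, j, m, h, rfl⟩ := hg
    by_cases hn : p = i ∧ q = j
    · obtain ⟨rfl, rfl⟩ := hn
      obtain ⟨l, hl, hlj⟩ := h3 p q
      exact bad hx.toStG hk n m _ h hl hlj
    · exact good hx.toStG hk n m _ h hpq hn
  | one => rw [map_one]; exact (N k x).one_mem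
  | mul a b _ _ ha hb => rw [map_mul]; exact (N k x).mul_mem ha hb
  | inv a _ ha => rw [map_inv]; exact (N k x).inv_mem ha

theorem N_T (hx : StT k x) (h3 : ∀ i j : J, ∃ l, l ≠ i ∧ l ≠ j) (hk : 1 ≤ k) :
    ∀ u ∈ N k x, ∀ t ∈ T x, Commute t u := by
  intro u hu t ht
  induction hu using Subgroup.closure_induction with
  | mem g hg => obtain ⟨n, i, j, m, h, rfl⟩ := hg; exact T_comm_z hx h3 hk h n m t ht
  | one => exact Commute.one_right _
  | mul a b _ _ ha hb => exact ha.mul_right hb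
  | inv a _ ha => exact ha.inv_right

theorem N_Xg (hx : StT k x) (h3 : ∀ i j : J, ∃ l, l ≠ i ∧ l ≠ j) (hk : 1 ≤ k) {γ : Γ}
    (hγ : γ ∈ Xg x) : ∀ u ∈ N k x, conj γ u ∈ N k x := by
  have h1 : Xg x ≤ Subgroup.normalizer (N k x : Set Γ) := by
    rw [Xg, Subgroup.closure_le]
    rintro g ⟨i, j, c, h, rfl⟩
    rw [SetLike.mem_coe, Subgroup.mem_normalizer_iff]
    intro u
    constructor
    · intro hu
      have := N_x hx h3 hk h c u hu
      rwa [MulAut.conj_apply] at this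
    · intro hu
      have := N_x hx h3 hk h (-c) _ hu
      rw [x_neg hx.toStG h, MulAut.conj_apply] at this
      have e1 : (x i j c)⁻¹ * (x i j c * u * (x i j c)⁻¹) * ((x i j c)⁻¹)⁻¹ = u := by group
      rwa [e1] at this
  intro u hu
  rw [MulAut.conj_apply]
  exact (Subgroup.mem_normalizer_iff.1 (h1 hγ) u).1 hu

end K2A

open K2A

theorem conj_comm_x (hx : StT k x) (h3 : ∀ i j : J, ∃ l, l ≠ i ∧ l ≠ j) (hk : 2 ≤ k) {i j : J}
    (hij : i ≠ j) (m : ℤ) {p q : J} (hpq : p ≠ q) (a : ℤ[X]) {γ : Γ} (hγ : γ ∈ Xg x) :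
    (γ * x i j (C m * X ^ (k - 1)) * γ⁻¹) * x p q (X * a) =
      x p q (X * a) * (γ * x i j (C m * X ^ (k - 1)) * γ⁻¹) := by
  have h1 := N_Xg hx h3 (by omega) hγ _ (e_memN hx.toStG m hij)
  rw [MulAut.conj_apply] at h1
  exact (N_T hx h3 (by omega) _ h1 _ (memT hpq a)).eq.symm

theorem e_comm_conj (hx : StT k x) (h3 : ∀ i j : J, ∃ l, l ≠ i ∧ l ≠ j) (hk : 2 ≤ k) {i j : J}
    (hij : i ≠ j) (m : ℤ) {p q : J} (hpq : p ≠ q) (a : ℤ[X]) {γ : Γ} (hγ : γ ∈ Xg x) :
    x i j (C m * X ^ (k - 1)) * (γ * x p q (X * a) * γ⁻¹) =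
      (γ * x p q (X * a) * γ⁻¹) * x i j (C m * X ^ (k - 1)) := by
  have h1 := conj_comm_x hx h3 hk hij m hpq a ((Xg x).inv_mem hγ)
  have h2 := congrArg (fun y => γ * y * γ⁻¹) h1
  calc _ = γ * (γ⁻¹ * x i j (C m * X ^ (k - 1)) * γ⁻¹⁻¹ * x p q (X * a)) * γ⁻¹ := by group
    _ = _ := h2
    _ = _ := by group

theorem conj_comm_conj (hx : StT k x) (h3 : ∀ i j : J, ∃ l, l ≠ i ∧ l ≠ j) (hk : 2 ≤ k) {i j : J}
    (hij : i ≠ j) (m : ℤ) {p q : J} (hpq : p ≠ q) (n : ℤ) {γ δ : Γ} (hγ : γ ∈ Xg x)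
    (hδ : δ ∈ Xg x) :
    (γ * x i j (C m * X ^ (k - 1)) * γ⁻¹) * (δ * x p q (C n * X ^ (k - 1)) * δ⁻¹) =
      (δ * x p q (C n * X ^ (k - 1)) * δ⁻¹) * (γ * x i j (C m * X ^ (k - 1)) * γ⁻¹) := by
  have hX : (C n * X ^ (k - 1) : ℤ[X]) = X * (C n * X ^ (k - 2)) := by
    obtain ⟨r, rfl⟩ : ∃ r, k = r + 2 := ⟨k - 2, by omega⟩
    simp only [Nat.add_sub_cancel, show r + 2 - 1 = r + 1 from rfl]
    ring
  have h1 := conj_comm_x hx h3 hk hij m hpq (C n * X ^ (k - 2))
    ((Xg x).mul_mem ((Xg x).inv_mem hδ) hγ)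
  rw [← hX] at h1
  have h2 := congrArg (fun y => δ * y * δ⁻¹) h1
  calc _ = δ * (δ⁻¹ * γ * x i j (C m * X ^ (k - 1)) * (δ⁻¹ * γ)⁻¹ *
        x p q (C n * X ^ (k - 1))) * δ⁻¹ := by group
    _ = _ := h2
    _ = _ := by group

end Pool.Agent.SSE
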