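import Mathlib

/-!
# SSE-K2B : the abelian computation (d)-(g)

`A` an additive commutative group, `e i j m ∈ A` additive in `m ∈ ℤ`, `ρ i j n : A →+ A` (`i ≠ j`) with the Steinberg relations, acting on the `e_ij(m)` as
conjugation acts on matrices `m E_ij`, except that nothing is assumed about `ρ_ji(n) e_ij(m)`.
Put `h_ij(m) := ρ_ji(1) e_ij(m) - e_ij(m) + e_ji(m)`, `h'_ij(m) := ρ_ji(-1) e_ij(m) - e_ij(m) + e_ji(m)` (matrix: `m (E_jj - E_ii)`, `m (E_ii - E_jj)`).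
(d1) `l ≠ i, j`: `ρ_li(n) h_ij(m) = h_ij(m) - e_li(nm)` [`ρ_li` commutes with `ρ_ji`].
(d2) `ρ_il(n) h_ji(m) = h_ji(m) - e_il(nm)` [`ρ_il` commutes with `ρ_ij`].
(e) `h_ij(m) + h_jl(m) = - h'_il(m)` for distinct `i, j, l`: `e_ij(m) = e_il(m) - ρ_lj(1) e_il(m)`, `ρ_ji(1) ρ_lj(1) = ρ_li(-1) ρ_lj(1) ρ_ji(1)`,
 `ρ_ji(1) e_il = e_il + e_jl`, `ρ_lj(1) e_jl = h_jl + e_jl - e_lj`, `ρ_li(-1) e_il = h'_il + e_il - e_li`, `ρ_li(-1) e_ij = e_ij - e_lj`,
 `ρ_li(-1) h_jl = h_jl + e_li` (d2), `ρ_li(-1) e_jl = e_jl + e_ji`, `ρ_li(-1) e_lj = e_lj`; sum: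
 `ρ_ji(1) ρ_lj(1) e_il = h'_il + e_il - e_ij + h_jl + e_jl + e_ji`, so `ρ_ji(1) e_ij = - h'_il - h_jl + e_ij - e_ji`.
(f) apply `ρ_li(1)`: `ρ_li(1) (h_ij + h_jl) = h_ij + h_jl - 2 e_li` ((d1), (d2)), so `ρ_li(1) h'_il = h'_il + 2 e_li`; by definition
 `ρ_li(1) h'_il = e_il - ρ_li(1) e_il + e_li = - h_il + 2 e_li`. So `h'_il = - h_il`, `h_ij + h_jl = h_il`, `h_ij = - h_ji`.
(g) `ρ_ji(±1) e_ij(m) = e_ij(m) - e_ji(m) ± h_ij(m)`; `ρ_pq(n) h_ij(m) = h_ij(m) + c e_pq(1)` for some integer `c`, all `p ≠ q`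
 (for `(p,q) = (j,i)` use `h_ij = h_il + h_lj`).
So the subgroup `BB e ρ o` generated by the `e_ij(1)` and `h_oj(1)` contains all `e_ij(m)`, `h_ij(m)` (`h_ij = h_oj - h_oi`) and is stable under all
`ρ_pq(±1)`, hence under all `ρ_pq(n)`.
-/

set_option autoImplicit false

namespace Pool.Agent.SSE

variable {J : Type} {A : Type} [AddCommGroup A]

structure ActM (e : J → J → ℤ → A) (ρ : J → J → ℤ → A →+ A) : Prop where
  e_add : ∀ i j, i ≠ j → ∀ m n, e i j (m + n) = e i j m + e i j n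
  ρ_zero : ∀ i j, i ≠ j → ∀ v, ρ i j 0 v = v
  ρ_add : ∀ i j, i ≠ j → ∀ m n v, ρ i j (m + n) v = ρ i j m (ρ i j n v)
  ρ_comm : ∀ i j p q, i ≠ j → p ≠ q → j ≠ p → i ≠ q → ∀ m n v,
    ρ i j m (ρ p q n v) = ρ p q n (ρ i j m v)
  ρ_stein : ∀ i j l, i ≠ j → j ≠ l → i ≠ l → ∀ m n v,
    ρ i j m (ρ j l n v) = ρ i l (m * n) (ρ j l n (ρ i j m v))
  act_left : ∀ i j p, i ≠ j → p ≠ i → p ≠ j → ∀ m n,
    ρ p i n (e i j m) = e i j m + e p j (n * m)
  act_right : ∀ i j q, i ≠ j → q ≠ i → q ≠ j → ∀ m n,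
    ρ j q n (e i j m) = e i j m - e i q (m * n)
  act_triv : ∀ i j p q, i ≠ j → p ≠ q → q ≠ i → p ≠ j → ∀ m n, ρ p q n (e i j m) = e i j m

/-- `h_ij(m)` -/
def hh (e : J → J → ℤ → A) (ρ : J → J → ℤ → A →+ A) (i j : J) (m : ℤ) : A :=
  ρ j i 1 (e i j m) - e i j m + e j i m

/-- the subgroup generated by the `e_ij(1)` and the `h_oj(1)` -/
def BB (e : J → J → ℤ → A) (ρ : J → J → ℤ → A →+ A) (o : J) : AddSubgroup A :=
  AddSubgroup.closure ({v | ∃ i j, i ≠ j ∧ v = e i j 1} ∪ {v | ∃ j, j ≠ o ∧ v = hh e ρ o j 1})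

namespace K2b

variable {e : J → J → ℤ → A} {ρ : J → J → ℤ → A →+ A}

/-- `h'_ij(m)` -/
def hm (e : J → J → ℤ → A) (ρ : J → J → ℤ → A →+ A) (i j : J) (m : ℤ) : A :=
  ρ j i (-1) (e i j m) - e i j m + e j i m

lemma e_zero (h : ActM e ρ) {i j : J} (hij : i ≠ j) : e i j 0 = 0 := by
  have := h.e_add i j hij 0 0
  simpa using this

lemma e_neg (h : ActM e ρ) {i j : J} (hij : i ≠ j) (m : ℤ) : e i j (-m) = - e i j m := by
  have := h.e_add i j hij m (-m)
  rw [add_neg_cancel, e_zero h hij] at this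
  exact (neg_eq_of_add_eq_zero_right this.symm).symm

lemma e_mem (h : ActM e ρ) (o : J) {i j : J} (hij : i ≠ j) (m : ℤ) : e i j m ∈ BB e ρ o := by
  have h1 : e i j 1 ∈ BB e ρ o := AddSubgroup.subset_closure (Or.inl ⟨i, j, hij, rfl⟩)
  induction m using Int.induction_on with
  | zero => rw [e_zero h hij]; exact zero_mem _
  | succ k ih => rw [h.e_add i j hij]; exact add_mem ih h1
  | pred k ih => rw [sub_eq_add_neg, h.e_add i j hij, e_neg h hij 1]; exact add_mem ih (neg_mem h1)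

lemma d1 (h : ActM e ρ) {i j l : J} (hij : i ≠ j) (hli : l ≠ i) (hlj : l ≠ j) (m n : ℤ) :
    ρ l i n (hh e ρ i j m) = hh e ρ i j m - e l i (n * m) := by
  unfold hh
  rw [map_add, map_sub, h.ρ_comm l i j i hli hij.symm hij hli, h.act_left i j l hij hli hlj,
    h.act_triv j i l i hij.symm hli hij hli, map_add,
    h.act_right l j i hlj (Ne.symm hli) hij, mul_one]
  abel

lemma d2 (h : ActM e ρ) {i j q : J} (hij : i ≠ j) (hqi : q ≠ i) (hqj : q ≠ j) (m n : ℤ) :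
    ρ j q n (hh e ρ i j m) = hh e ρ i j m - e j q (n * m) := by
  unfold hh
  rw [map_add, map_sub, h.ρ_comm j q j i hqj.symm hij.symm hqj hij.symm,
    h.act_right i j q hij hqi hqj,
    h.act_triv j i j q hij.symm hqj.symm hqj hij.symm, map_sub,
    h.act_left i q j hqi.symm hij.symm hqj.symm, one_mul, mul_comm m n]
  abel

lemma ρ_neg_one (h : ActM e ρ) {i j : J} (hij : i ≠ j) (v : A) : ρ i j 1 (ρ i j (-1) v) = v := by
  rw [← h.ρ_add i j hij, add_neg_cancel, h.ρ_zero i j hij]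

lemma ρ_neg_one' (h : ActM e ρ) {i j : J} (hij : i ≠ j) (v : A) : ρ i j (-1) (ρ i j 1 v) = v := by
  rw [← h.ρ_add i j hij, neg_add_cancel, h.ρ_zero i j hij]

lemma r1 (i j : J) (m : ℤ) : ρ j i 1 (e i j m) = hh e ρ i j m + e i j m - e j i m := by
  unfold hh; abel

lemma rm (i j : J) (m : ℤ) : ρ j i (-1) (e i j m) = hm e ρ i j m + e i j m - e j i m := by
  unfold hm; abel

lemma ee (h : ActM e ρ) {i j l : J} (hij : i ≠ j) (hli : l ≠ i) (hlj : l ≠ j) (m : ℤ) :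
    hh e ρ i j m + hh e ρ j l m = - hm e ρ i l m := by
  have key : ρ j i 1 (ρ l j 1 (e i l m)) =
      hm e ρ i l m + e i l m - e i j m + hh e ρ j l m + e j l m + e j i m := by
    have hst : ρ j i 1 (ρ l j 1 (e i l m)) = ρ l i (-1) (ρ l j 1 (ρ j i 1 (e i l m))) := by
      have := h.ρ_stein l j i hlj hij.symm hli 1 1 (e i l m)
      rw [mul_one] at this
      rw [this, ρ_neg_one' h hli]
    rw [hst, h.act_left i l j hli.symm hij.symm hlj.symm, one_mul, map_add,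
      h.act_right i l j hli.symm hij.symm hlj.symm, mul_one, r1 j l m]
    rw [map_add, map_sub, map_sub, map_add, rm i l m, h.act_left i j l hij hli hlj,
      d2 h hlj.symm hij hli.symm, h.act_right j l i hlj.symm hij hli.symm,
      h.act_triv l j l i hlj hli (Ne.symm hli) hlj]
    rw [neg_one_mul, e_neg h hlj, e_neg h hli, mul_neg_one, e_neg h hij.symm]
    abel
  have h2 : ρ j i 1 (e i j m) = ρ j i 1 (e i l m) - ρ j i 1 (ρ l j 1 (e i l m)) := by
    rw [h.act_right i l j hli.symm hij.symm hlj.symm, mul_one, map_sub]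
    abel
  rw [key, h.act_left i l j hli.symm hij.symm hlj.symm, one_mul] at h2
  have h3 : hh e ρ i j m = ρ j i 1 (e i j m) - e i j m + e j i m := rfl
  rw [h3, h2]
  abel

lemma hm_eq (h : ActM e ρ) {i j l : J} (hij : i ≠ j) (hli : l ≠ i) (hlj : l ≠ j) (m : ℤ) :
    hm e ρ i l m = - hh e ρ i l m := by
  have h1 := congrArg (ρ l i 1) (ee h hij hli hlj m)
  rw [map_add, map_neg, d1 h hij hli hlj, d2 h hlj.symm hij hli.symm, one_mul] at h1
  have h2 : ρ l i 1 (hm e ρ i l m) = e i l m - ρ l i 1 (e i l m) + e l i m := by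
    unfold hm
    rw [map_add, map_sub, ρ_neg_one h hli, h.act_triv l i l i hli hli (Ne.symm hli) hli]
  rw [h2, r1 i l m] at h1
  have h3 := ee h hij hli hlj m
  have h4 : hm e ρ i l m = - (hh e ρ i j m + hh e ρ j l m) := by rw [h3]; abel
  rw [h4]
  have h5 : hh e ρ i j m + hh e ρ j l m
      = (hh e ρ i j m - e l i m + (hh e ρ j l m - e l i m)) + (e l i m + e l i m) := by abel
  rw [h5, h1]
  abel

lemma hadd (h : ActM e ρ) {i j l : J} (hij : i ≠ j) (hli : l ≠ i) (hlj : l ≠ j) (m : ℤ) :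
    hh e ρ i j m + hh e ρ j l m = hh e ρ i l m := by
  rw [ee h hij hli hlj, hm_eq h hij hli hlj, neg_neg]

lemma hneg (h : ActM e ρ) {i j l : J} (hij : i ≠ j) (hli : l ≠ i) (hlj : l ≠ j) (m : ℤ) :
    hh e ρ i j m = - hh e ρ j i m := by
  have h1 := hadd h hij hli hlj m
  have h2 := hadd h hij.symm hlj hli m
  rw [← h1] at h2
  have h3 : hh e ρ j i m + hh e ρ i j m = 0 := by
    have : hh e ρ j i m + hh e ρ i j m + hh e ρ j l m = hh e ρ j l m := by
      rw [add_assoc]; exact h2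
    simpa using this
  rw [eq_neg_iff_add_eq_zero, add_comm]; exact h3

lemma hh_mem (h : ActM e ρ) (h3 : ∀ i j : J, ∃ l, l ≠ i ∧ l ≠ j) (o : J) {i j : J}
    (hij : i ≠ j) : hh e ρ i j 1 ∈ BB e ρ o := by
  have hgen : ∀ {k : J}, k ≠ o → hh e ρ o k 1 ∈ BB e ρ o := fun {k} hk =>
    AddSubgroup.subset_closure (Or.inr ⟨k, hk, rfl⟩)
  by_cases hi : i = o
  · subst hi; exact hgen hij.symm
  · by_cases hj : j = o
    · subst hj
      obtain ⟨l, hl1, hl2⟩ := h3 i j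
      rw [hneg h hij hl1 hl2]
      exact neg_mem (hgen hi)
    · have := hadd h (Ne.symm hi) hj (Ne.symm hij) 1
      have h2 : hh e ρ i j 1 = hh e ρ o j 1 - hh e ρ o i 1 := by rw [← this]; abel
      rw [h2]
      exact sub_mem (hgen hj) (hgen hi)

/-- the case `(p,q) = (j,i)` -/
lemma g_ji (h : ActM e ρ) {i j l : J} (hij : i ≠ j) (hli : l ≠ i) (hlj : l ≠ j) (m n : ℤ) :
    ρ j i n (hh e ρ i j m) = hh e ρ i j m - e j i (n * m) - e j i (n * m) := by
  have h1 := hadd h hli.symm hij.symm hlj.symm m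
  rw [← h1, map_add, d1 h hli.symm hij.symm hlj.symm, d2 h hlj hli.symm hij]
  abel

lemma stab_h (h : ActM e ρ) (h3 : ∀ i j : J, ∃ l, l ≠ i ∧ l ≠ j) (o : J) {i j p q : J}
    (hij : i ≠ j) (hpq : p ≠ q) (n : ℤ) : ρ p q n (hh e ρ i j 1) ∈ BB e ρ o := by
  obtain ⟨l, hli, hlj⟩ := h3 i j
  have hmem := hh_mem h h3 o hij
  by_cases hqi : q = i
  · subst hqi
    by_cases hpj : p = j
    · subst hpj
      rw [g_ji h hij hli hlj]
      exact sub_mem (sub_mem hmem (e_mem h o hpq _)) (e_mem h o hpq _)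
    · rw [d1 h hij hpq hpj]
      exact sub_mem hmem (e_mem h o hpq _)
  · by_cases hpj : p = j
    · subst hpj
      rw [d2 h hij hqi hpq.symm]
      exact sub_mem hmem (e_mem h o hpq _)
    · by_cases hqj : q = j
      · subst hqj
        rw [hneg h hij hli hlj, map_neg]
        by_cases hpi : p = i
        · subst hpi
          rw [g_ji h hij.symm hlj hli]
          exact neg_mem (sub_mem (sub_mem (hh_mem h h3 o hij.symm) (e_mem h o hpq _))
            (e_mem h o hpq _))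
        · rw [d1 h hij.symm hpj hpi]
          exact neg_mem (sub_mem (hh_mem h h3 o hij.symm) (e_mem h o hpq _))
      · by_cases hpi : p = i
        · subst hpi
          rw [hneg h hij hli hlj, map_neg, d2 h hij.symm hqj hqi]
          exact neg_mem (sub_mem (hh_mem h h3 o hij.symm) (e_mem h o hpq _))
        · have : ρ p q n (hh e ρ i j 1) = hh e ρ i j 1 := by
            unfold hh
            rw [map_add, map_sub, h.ρ_comm p q j i hpq hij.symm hqj hpi,
              h.act_triv i j p q hij hpq hqi hpj, h.act_triv j i p q hij.symm hpq hqj hpi]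
          rw [this]; exact hmem

lemma stab_e (h : ActM e ρ) (h3 : ∀ i j : J, ∃ l, l ≠ i ∧ l ≠ j) (o : J) {i j p q : J}
    (hij : i ≠ j) (hpq : p ≠ q) (n : ℤ) (hn : n = 1 ∨ n = -1) :
    ρ p q n (e i j 1) ∈ BB e ρ o := by
  obtain ⟨l, hli, hlj⟩ := h3 i j
  obtain ⟨l', hli', hlj'⟩ := h3 i j
  by_cases hqi : q = i
  · subst hqi
    by_cases hpj : p = j
    · subst hpj
      rcases hn with rfl | rfl
      · rw [r1]
        exact sub_mem (add_mem (hh_mem h h3 o hij) (e_mem h o hij _)) (e_mem h o hpq _)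
      · rw [rm, hm_eq h hli.symm hij.symm hlj.symm]
        exact sub_mem (add_mem (neg_mem (hh_mem h h3 o hij)) (e_mem h o hij _)) (e_mem h o hpq _)
    · rw [h.act_left q j p hij hpq hpj]
      exact add_mem (e_mem h o hij _) (e_mem h o hpj _)
  · by_cases hpj : p = j
    · subst hpj
      rw [h.act_right i p q hij hqi hpq.symm]
      exact sub_mem (e_mem h o hij _) (e_mem h o (Ne.symm hqi) _)
    · rw [h.act_triv i j p q hij hpq hqi hpj]
      exact e_mem h o hij _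

end K2b

open K2b in
theorem BB_stable {e : J → J → ℤ → A} {ρ : J → J → ℤ → A →+ A} (h : ActM e ρ)
    (h3 : ∀ i j : J, ∃ l, l ≠ i ∧ l ≠ j) (o : J) {p q : J} (hpq : p ≠ q) (n : ℤ) {v : A}
    (hv : v ∈ BB e ρ o) : ρ p q n v ∈ BB e ρ o := by
  have one : ∀ n : ℤ, (n = 1 ∨ n = -1) → ∀ v ∈ BB e ρ o, ρ p q n v ∈ BB e ρ o := by
    intro n hn v hv
    unfold BB at hv
    induction hv using AddSubgroup.closure_induction with
    | mem x hx =>
      rcases hx with ⟨i, j, hij, rfl⟩ | ⟨j, hj, rfl⟩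
      · exact stab_e h h3 o hij hpq n hn
      · exact stab_h h h3 o (Ne.symm hj) hpq n
    | zero => rw [map_zero]; exact zero_mem _
    | add x y _ _ hx hy => rw [map_add]; exact add_mem hx hy
    | neg x _ hx => rw [map_neg]; exact neg_mem hx
  induction n using Int.induction_on generalizing v with
  | zero => rw [h.ρ_zero p q hpq]; exact hv
  | succ k ih => rw [add_comm, h.ρ_add p q hpq]; exact one 1 (Or.inl rfl) _ (ih hv)
  | pred k ih =>
    rw [sub_eq_add_neg, add_comm, h.ρ_add p q hpq]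
    exact one (-1) (Or.inr rfl) _ (ih hv)

end Pool.Agent.SSE
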