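import Pool.Agent.SSE.K2a
import Pool.Agent.SSE.K2b

/-!
# SSE-K2C : the normal closure of the `e_ij(m)` is generated by commuting basic elements

`M :=` closure of all `γ e_ij(m) γ⁻¹` (`γ ∈ Xg x`), an abelian group by `conj_comm_conj`, stable under conjugation by `Xg x`. On `A := Additive M` put
`ρ_pq(n) :=` conjugation by `x_pq(C n)` (for `p ≠ q`, `0` otherwise), `e i j m := x_ij(C m X^(k-1))`: `ActM` holds. By `BB_stable` the subgroup `BB` is
stable under the `x_pq(C n)`; the `x_pq(X a)` act trivially (`conj_comm_x`), `x_pq(c) = x_pq(C c(0)) x_pq(X c')`. So `BB` is stable under `Xg x`, contains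
all `e_ij(m)`, so it is everything. `γ x_ij(X^(k-1) c) γ⁻¹` is `γ e_ij(c(0)) γ⁻¹` by `x_eq_e`.
-/

set_option autoImplicit false

namespace Pool.Agent.SSE

open Polynomial

variable {J : Type} {Γ : Type} [Group Γ] {k : ℕ}

/-- `h_ij(1)` in multiplicative notation -/
noncomputable def hm (k : ℕ) (x : J → J → ℤ[X] → Γ) (i j : J) : Γ :=
  x j i 1 * x i j (X ^ (k - 1)) * (x j i 1)⁻¹ * (x i j (X ^ (k - 1)))⁻¹ * x j i (X ^ (k - 1))

/-- the basic elements -/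
noncomputable def Gens (k : ℕ) (x : J → J → ℤ[X] → Γ) (o : J) : Set Γ :=
  {g | ∃ i j, i ≠ j ∧ g = x i j (X ^ (k - 1))} ∪ {g | ∃ j, j ≠ o ∧ g = hm k x o j}

/-- the generators of `M` -/
def K2c_S (k : ℕ) (x : J → J → ℤ[X] → Γ) : Set Γ :=
  {g | ∃ γ ∈ Xg x, ∃ i j, ∃ m : ℤ, i ≠ j ∧ g = γ * x i j (C m * X ^ (k - 1)) * γ⁻¹}

/-- the group `M` -/
def K2c_M (k : ℕ) (x : J → J → ℤ[X] → Γ) : Subgroup Γ := Subgroup.closure (K2c_S k x)

theorem K2c_S_comm {x : J → J → ℤ[X] → Γ} (hx : StT k x) (h3 : ∀ i j : J, ∃ l, l ≠ i ∧ l ≠ j)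
    (hk : 2 ≤ k) : ∀ g ∈ K2c_S k x, ∀ g' ∈ K2c_S k x, g * g' = g' * g := by
  rintro g ⟨γ, hγ, i, j, m, hij, rfl⟩ g' ⟨δ, hδ, p, q, n, hpq, rfl⟩
  exact conj_comm_conj hx h3 hk hij m hpq n hγ hδ

theorem K2c_M_comm {x : J → J → ℤ[X] → Γ} (hx : StT k x) (h3 : ∀ i j : J, ∃ l, l ≠ i ∧ l ≠ j)
    (hk : 2 ≤ k) {g g' : Γ} (hg : g ∈ K2c_M k x) (hg' : g' ∈ K2c_M k x) : g * g' = g' * g := by
  unfold K2c_M at hg hg'
  induction hg using Subgroup.closure_induction with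
  | mem y hy =>
    induction hg' using Subgroup.closure_induction with
    | mem z hz => exact K2c_S_comm hx h3 hk y hy z hz
    | one => simp
    | mul a b _ _ ha hb => exact (Commute.mul_right (show Commute y a from ha) hb).eq
    | inv a _ ha => exact (Commute.inv_right (show Commute y a from ha)).eq
  | one => simp
  | mul a b _ _ ha hb => exact (Commute.mul_left (show Commute a g' from ha) hb).eq
  | inv a _ ha => exact (Commute.inv_left (show Commute a g' from ha)).eq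

theorem K2c_M_conj {x : J → J → ℤ[X] → Γ} {γ g : Γ} (hγ : γ ∈ Xg x) (hg : g ∈ K2c_M k x) :
    γ * g * γ⁻¹ ∈ K2c_M k x := by
  unfold K2c_M at hg ⊢
  induction hg using Subgroup.closure_induction with
  | mem y hy =>
    obtain ⟨δ, hδ, i, j, m, hij, rfl⟩ := hy
    exact Subgroup.subset_closure ⟨γ * δ, mul_mem hγ hδ, i, j, m, hij, by group⟩
  | one => simp
  | mul y z _ _ hy hz =>
    have : γ * (y * z) * γ⁻¹ = (γ * y * γ⁻¹) * (γ * z * γ⁻¹) := by group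
    rw [this]
    exact mul_mem hy hz
  | inv y _ hy =>
    have : γ * y⁻¹ * γ⁻¹ = (γ * y * γ⁻¹)⁻¹ := by group
    rw [this]
    exact inv_mem hy

theorem K2c_x_mem_M {x : J → J → ℤ[X] → Γ} {i j : J} (hij : i ≠ j) (m : ℤ) :
    x i j (C m * X ^ (k - 1)) ∈ K2c_M k x :=
  Subgroup.subset_closure ⟨1, one_mem _, i, j, m, hij, by simp⟩

theorem K2c_x_mem_Xg {x : J → J → ℤ[X] → Γ} {i j : J} (hij : i ≠ j) (c : ℤ[X]) :
    x i j c ∈ Xg x :=
  Subgroup.subset_closure ⟨i, j, c, hij, rfl⟩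

theorem K2c_x_zero {x : J → J → ℤ[X] → Γ} (hx : StT k x) {i j : J} (hij : i ≠ j) :
    x i j 0 = 1 := by
  have h := hx.add i j hij 0 0
  rw [add_zero] at h
  exact (mul_eq_left (a := x i j 0) (b := x i j 0)).mp h.symm

theorem K2c_x_neg {x : J → J → ℤ[X] → Γ} (hx : StT k x) {i j : J} (hij : i ≠ j) (c : ℤ[X]) :
    x i j (-c) = (x i j c)⁻¹ := by
  have h := hx.add i j hij (-c) c
  rw [neg_add_cancel, K2c_x_zero hx hij] at h
  exact eq_inv_of_mul_eq_one_left h.symm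

open Classical in
/-- total version of `x` -/
noncomputable def K2c_xp (x : J → J → ℤ[X] → Γ) (i j : J) (c : ℤ[X]) : Γ :=
  if i ≠ j then x i j c else 1

theorem K2c_xp_of_ne (x : J → J → ℤ[X] → Γ) {i j : J} (hij : i ≠ j) (c : ℤ[X]) :
    K2c_xp x i j c = x i j c := if_pos hij

theorem K2c_xp_mem_Xg (x : J → J → ℤ[X] → Γ) (i j : J) (c : ℤ[X]) : K2c_xp x i j c ∈ Xg x := by
  unfold K2c_xp
  split_ifs with h
  · exact K2c_x_mem_Xg h c
  · exact one_mem _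

theorem K2c_xp_mem_M (x : J → J → ℤ[X] → Γ) (i j : J) (m : ℤ) :
    K2c_xp x i j (C m * X ^ (k - 1)) ∈ K2c_M k x := by
  unfold K2c_xp
  split_ifs with h
  · exact K2c_x_mem_M h m
  · exact one_mem _

/-- conjugation on `M` -/
noncomputable def K2c_cj (k : ℕ) (x : J → J → ℤ[X] → Γ) (p q : J) (n : ℤ) :
    K2c_M k x →* K2c_M k x where
  toFun y := ⟨K2c_xp x p q (C n) * y * (K2c_xp x p q (C n))⁻¹, K2c_M_conj (K2c_xp_mem_Xg x p q _) y.2⟩
  map_one' := by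
    apply Subtype.ext
    simp
  map_mul' y z := by
    apply Subtype.ext
    simp

/-- the conjugation action on the additive group -/
noncomputable def K2c_rho (k : ℕ) (x : J → J → ℤ[X] → Γ) (p q : J) (n : ℤ) :
    Additive (K2c_M k x) →+ Additive (K2c_M k x) := MonoidHom.toAdditive (K2c_cj k x p q n)

/-- the basic elements in the additive group -/
noncomputable def K2c_e (k : ℕ) (x : J → J → ℤ[X] → Γ) (i j : J) (m : ℤ) :
    Additive (K2c_M k x) := Additive.ofMul ⟨K2c_xp x i j (C m * X ^ (k - 1)), K2c_xp_mem_M x i j m⟩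

/-- the underlying element -/
def K2c_v {x : J → J → ℤ[X] → Γ} (v : Additive (K2c_M k x)) : Γ := ((Additive.toMul v : K2c_M k x) : Γ)

theorem K2c_v_inj {x : J → J → ℤ[X] → Γ} {v w : Additive (K2c_M k x)} (h : K2c_v v = K2c_v w) :
    v = w := by
  unfold K2c_v at h
  exact Additive.toMul.injective (Subtype.ext h)

theorem K2c_v_add {x : J → J → ℤ[X] → Γ} (v w : Additive (K2c_M k x)) :
    K2c_v (v + w) = K2c_v v * K2c_v w := rfl

theorem K2c_v_neg {x : J → J → ℤ[X] → Γ} (v : Additive (K2c_M k x)) :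
    K2c_v (-v) = (K2c_v v)⁻¹ := rfl

theorem K2c_v_zero {x : J → J → ℤ[X] → Γ} :
    K2c_v (0 : Additive (K2c_M k x)) = 1 := rfl

theorem K2c_v_rho {x : J → J → ℤ[X] → Γ} {p q : J} (hpq : p ≠ q) (n : ℤ)
    (v : Additive (K2c_M k x)) :
    K2c_v (K2c_rho k x p q n v) = x p q (C n) * K2c_v v * (x p q (C n))⁻¹ := by
  rw [← K2c_xp_of_ne x hpq]
  rfl

theorem K2c_v_e {x : J → J → ℤ[X] → Γ} {i j : J} (hij : i ≠ j) (m : ℤ) :
    K2c_v (K2c_e k x i j m) = x i j (C m * X ^ (k - 1)) := by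
  rw [← K2c_xp_of_ne x hij]
  rfl

/-- `M` is abelian -/
@[reducible] noncomputable def K2c_inst {x : J → J → ℤ[X] → Γ} (hx : StT k x)
    (h3 : ∀ i j : J, ∃ l, l ≠ i ∧ l ≠ j) (hk : 2 ≤ k) : AddCommGroup (Additive (K2c_M k x)) :=
  { (inferInstance : AddGroup (Additive (K2c_M k x))) with
    add_comm := fun v w => K2c_v_inj
      (K2c_M_comm hx h3 hk (Additive.toMul v : K2c_M k x).2 (Additive.toMul w : K2c_M k x).2) }

theorem K2c_act {x : J → J → ℤ[X] → Γ} (hx : StT k x)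
    (h3 : ∀ i j : J, ∃ l, l ≠ i ∧ l ≠ j) (hk : 2 ≤ k) :
    letI := K2c_inst hx h3 hk
    ActM (K2c_e k x) (K2c_rho k x) := by
  let _ := K2c_inst hx h3 hk
  refine ⟨?_, ?_, ?_, ?_, ?_, ?_, ?_, ?_⟩
  · intro i j hij m n
    apply K2c_v_inj
    refine Eq.trans ?_ (K2c_v_add _ _).symm
    rw [K2c_v_e hij, K2c_v_e hij, K2c_v_e hij, C_add, add_mul, hx.add i j hij]
  · intro p q hpq v
    apply K2c_v_inj
    rw [K2c_v_rho hpq, C_0, K2c_x_zero hx hpq]
    simp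
  · intro p q hpq m n v
    apply K2c_v_inj
    rw [K2c_v_rho hpq, K2c_v_rho hpq, K2c_v_rho hpq, C_add, hx.add p q hpq]
    group
  · intro i j p q hij hpq hjp hiq m n v
    apply K2c_v_inj
    rw [K2c_v_rho hij, K2c_v_rho hpq, K2c_v_rho hpq, K2c_v_rho hij]
    have h := hx.comm i j p q hij hpq hjp hiq (C m) (C n)
    calc x i j (C m) * (x p q (C n) * K2c_v v * (x p q (C n))⁻¹) * (x i j (C m))⁻¹
        = (x i j (C m) * x p q (C n)) * K2c_v v * (x i j (C m) * x p q (C n))⁻¹ := by group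
      _ = x p q (C n) * (x i j (C m) * K2c_v v * (x i j (C m))⁻¹) * (x p q (C n))⁻¹ := by
          rw [h]; group
  · intro i j l hij hjl hil m n v
    apply K2c_v_inj
    rw [K2c_v_rho hij, K2c_v_rho hjl, K2c_v_rho hil, K2c_v_rho hjl, K2c_v_rho hij]
    have h := hx.stein i j l hij hjl hil (C m) (C n)
    rw [← C_mul] at h
    calc x i j (C m) * (x j l (C n) * K2c_v v * (x j l (C n))⁻¹) * (x i j (C m))⁻¹
        = (x i j (C m) * x j l (C n)) * K2c_v v * (x i j (C m) * x j l (C n))⁻¹ := by group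
      _ = _ := by rw [h]; group
  · intro i j p hij hpi hpj m n
    apply K2c_v_inj
    refine Eq.trans ?_ (K2c_v_add _ _).symm
    rw [K2c_v_rho hpi, K2c_v_e hij, K2c_v_e hpj]
    have h := hx.stein p i j hpi hij hpj (C n) (C m * X ^ (k - 1))
    rw [← mul_assoc, ← C_mul] at h
    rw [h, mul_inv_cancel_right]
    exact K2c_M_comm hx h3 hk (K2c_x_mem_M hpj _) (K2c_x_mem_M hij _)
  · intro i j q hij hqi hqj m n
    apply K2c_v_inj
    rw [sub_eq_add_neg]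
    refine Eq.trans ?_ (K2c_v_add _ _).symm
    rw [K2c_v_neg, K2c_v_rho hqj.symm, K2c_v_e hij, K2c_v_e hqi.symm]
    have h := hx.stein i j q hij hqj.symm hqi.symm (C m * X ^ (k - 1)) (C n)
    have e1 : C m * X ^ (k - 1) * C n = C (m * n) * X ^ (k - 1) := by
      rw [C_mul]; ring
    rw [e1] at h
    have h' : x j q (C n) * x i j (C m * X ^ (k - 1)) =
        (x i q (C (m * n) * X ^ (k - 1)))⁻¹ * (x i j (C m * X ^ (k - 1)) * x j q (C n)) := by
      rw [h]; group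
    rw [h', ← mul_assoc, mul_inv_cancel_right]
    exact K2c_M_comm hx h3 hk (inv_mem (K2c_x_mem_M hqi.symm _)) (K2c_x_mem_M hij _)
  · intro i j p q hij hpq hqi hpj m n
    apply K2c_v_inj
    rw [K2c_v_rho hpq, K2c_v_e hij, hx.comm p q i j hpq hij hqi hpj, mul_inv_cancel_right]

theorem K2c_e_mem {x : J → J → ℤ[X] → Γ} (hx : StT k x)
    (h3 : ∀ i j : J, ∃ l, l ≠ i ∧ l ≠ j) (hk : 2 ≤ k) (o : J) {i j : J} (hij : i ≠ j) (m : ℤ) :
    letI := K2c_inst hx h3 hk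
    K2c_e k x i j m ∈ BB (K2c_e k x) (K2c_rho k x) o := by
  letI := K2c_inst hx h3 hk
  have hA := K2c_act hx h3 hk
  have h1 : K2c_e k x i j 1 ∈ BB (K2c_e k x) (K2c_rho k x) o :=
    AddSubgroup.subset_closure (Or.inl ⟨i, j, hij, rfl⟩)
  let f : ℤ →+ Additive (K2c_M k x) := AddMonoidHom.mk' (K2c_e k x i j) (fun a b => hA.e_add i j hij a b)
  have h2 : K2c_e k x i j m = m • K2c_e k x i j 1 := by
    change f m = m • f 1
    rw [← map_zsmul, smul_eq_mul, mul_one]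
  rw [h2]
  exact zsmul_mem h1 m

/-- elements of `BB` give elements of the closure of `Gens` -/
theorem K2c_BB_closure {x : J → J → ℤ[X] → Γ} (hx : StT k x)
    (h3 : ∀ i j : J, ∃ l, l ≠ i ∧ l ≠ j) (hk : 2 ≤ k) (o : J) (v : Additive (K2c_M k x)) :
    letI := K2c_inst hx h3 hk
    v ∈ BB (K2c_e k x) (K2c_rho k x) o → K2c_v v ∈ Subgroup.closure (Gens k x o) := by
  letI := K2c_inst hx h3 hk
  intro hv
  unfold BB at hv
  induction hv using AddSubgroup.closure_induction with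
  | mem y hy =>
    rcases hy with ⟨i, j, hij, rfl⟩ | ⟨j, hjo, rfl⟩
    · rw [K2c_v_e hij, C_1, one_mul]
      exact Subgroup.subset_closure (Or.inl ⟨i, j, hij, rfl⟩)
    · have e1 : K2c_v (hh (K2c_e k x) (K2c_rho k x) o j 1) = hm k x o j := by
        unfold hh hm
        rw [sub_eq_add_neg]
        refine Eq.trans (K2c_v_add _ _) ?_
        refine Eq.trans (congrArg (· * _) (K2c_v_add _ _)) ?_
        rw [K2c_v_neg, K2c_v_rho hjo, K2c_v_e hjo.symm, K2c_v_e hjo, C_1, one_mul]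
      rw [e1]
      exact Subgroup.subset_closure (Or.inr ⟨j, hjo, rfl⟩)
  | zero => exact one_mem _
  | add y z _ _ hy hz => exact mul_mem hy hz
  | neg y _ hy => exact inv_mem hy

/-- conjugation by one generator -/
theorem K2c_conj_gen {x : J → J → ℤ[X] → Γ} (hx : StT k x)
    (h3 : ∀ i j : J, ∃ l, l ≠ i ∧ l ≠ j) (hk : 2 ≤ k) {p q : J} (hpq : p ≠ q) (c : ℤ[X])
    (v : Additive (K2c_M k x)) :
    K2c_v (K2c_rho k x p q (c.coeff 0) v) = x p q c * K2c_v v * (x p q c)⁻¹ := by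
  have htr : ∀ a : ℤ[X], ∀ g ∈ K2c_M k x, g * x p q (X * a) = x p q (X * a) * g := by
    intro a g hg
    unfold K2c_M at hg
    induction hg using Subgroup.closure_induction with
    | mem y hy =>
      obtain ⟨γ, hγ, i, j, m, hij, rfl⟩ := hy
      exact conj_comm_x hx h3 hk hij m hpq a hγ
    | one => simp
    | mul y z _ _ hy hz => exact (Commute.mul_left (show Commute y (x p q (X * a)) from hy) hz).eq
    | inv y _ hy => exact (Commute.inv_left (show Commute y (x p q (X * a)) from hy)).eq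
  have e1 : x p q c = x p q (C (c.coeff 0)) * x p q (X * c.divX) := by
    rw [← hx.add p q hpq]
    congr 1
    rw [add_comm]
    exact (X_mul_divX_add c).symm
  have e2 := htr c.divX (K2c_v v) (Additive.toMul v : K2c_M k x).2
  rw [K2c_v_rho hpq, e1]
  calc x p q (C (c.coeff 0)) * K2c_v v * (x p q (C (c.coeff 0)))⁻¹
      = x p q (C (c.coeff 0)) * (K2c_v v * x p q (X * c.divX)) * (x p q (X * c.divX))⁻¹ *
          (x p q (C (c.coeff 0)))⁻¹ := by group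
    _ = _ := by rw [e2]; group

theorem K2c_conj {x : J → J → ℤ[X] → Γ} (hx : StT k x)
    (h3 : ∀ i j : J, ∃ l, l ≠ i ∧ l ≠ j) (hk : 2 ≤ k) (o : J) {γ : Γ} (hγ : γ ∈ Xg x) :
    letI := K2c_inst hx h3 hk
    (∀ v ∈ BB (K2c_e k x) (K2c_rho k x) o, ∃ w ∈ BB (K2c_e k x) (K2c_rho k x) o,
      K2c_v w = γ * K2c_v v * γ⁻¹) ∧
    (∀ v ∈ BB (K2c_e k x) (K2c_rho k x) o, ∃ w ∈ BB (K2c_e k x) (K2c_rho k x) o,
      K2c_v w = γ⁻¹ * K2c_v v * γ) := by
  letI := K2c_inst hx h3 hk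
  have hA := K2c_act hx h3 hk
  unfold Xg at hγ
  induction hγ using Subgroup.closure_induction with
  | mem y hy =>
    obtain ⟨p, q, c, hpq, rfl⟩ := hy
    refine ⟨fun v hv => ⟨_, BB_stable hA h3 o hpq (c.coeff 0) hv, K2c_conj_gen hx h3 hk hpq c v⟩,
      fun v hv => ⟨_, BB_stable hA h3 o hpq ((-c).coeff 0) hv, ?_⟩⟩
    rw [K2c_conj_gen hx h3 hk hpq (-c) v, K2c_x_neg hx hpq, inv_inv]
  | one => exact ⟨fun v hv => ⟨v, hv, by simp⟩, fun v hv => ⟨v, hv, by simp⟩⟩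
  | mul y z _ _ hy hz =>
    refine ⟨fun v hv => ?_, fun v hv => ?_⟩
    · obtain ⟨w, hw, e⟩ := hz.1 v hv
      obtain ⟨u, hu, e'⟩ := hy.1 w hw
      exact ⟨u, hu, by rw [e', e]; group⟩
    · obtain ⟨w, hw, e⟩ := hy.2 v hv
      obtain ⟨u, hu, e'⟩ := hz.2 w hw
      exact ⟨u, hu, by rw [e', e]; group⟩
  | inv y _ hy =>
    refine ⟨fun v hv => ?_, fun v hv => ?_⟩
    · obtain ⟨w, hw, e⟩ := hy.2 v hv
      exact ⟨w, hw, by rw [e, inv_inv]⟩
    · obtain ⟨w, hw, e⟩ := hy.1 v hv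
      exact ⟨w, hw, by rw [e, inv_inv]⟩

theorem K2c_Gens_mem {x : J → J → ℤ[X] → Γ} (o : J) {g : Γ} (hg : g ∈ Gens k x o) :
    g ∈ K2c_M k x := by
  have h0 : ∀ i j : J, i ≠ j → x i j (X ^ (k - 1)) ∈ K2c_M k x := by
    intro i j hij
    have := K2c_x_mem_M (k := k) (x := x) hij 1
    rwa [C_1, one_mul] at this
  rcases hg with ⟨i, j, hij, rfl⟩ | ⟨j, hjo, rfl⟩
  · exact h0 i j hij
  · unfold hm
    exact mul_mem (mul_mem (K2c_M_conj (K2c_x_mem_Xg hjo 1) (h0 o j hjo.symm))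
      (inv_mem (h0 o j hjo.symm))) (h0 j o hjo)

theorem Gens_comm {x : J → J → ℤ[X] → Γ} (hx : StT k x) (h3 : ∀ i j : J, ∃ l, l ≠ i ∧ l ≠ j)
    (hk : 2 ≤ k) (o : J) {g g' : Γ} (hg : g ∈ Gens k x o) (hg' : g' ∈ Gens k x o) :
    g * g' = g' * g :=
  K2c_M_comm hx h3 hk (K2c_Gens_mem o hg) (K2c_Gens_mem o hg')

theorem conj_mem_Gens {x : J → J → ℤ[X] → Γ} (hx : StT k x)
    (h3 : ∀ i j : J, ∃ l, l ≠ i ∧ l ≠ j) (hk : 2 ≤ k) (o : J) {i j : J} (hij : i ≠ j) (c : ℤ[X])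
    {γ : Γ} (hγ : γ ∈ Xg x) :
    γ * x i j (X ^ (k - 1) * c) * γ⁻¹ ∈ Subgroup.closure (Gens k x o) := by
  letI := K2c_inst hx h3 hk
  obtain ⟨w, hw, e⟩ := (K2c_conj hx h3 hk o hγ).1 _ (K2c_e_mem hx h3 hk o hij (c.coeff 0))
  rw [x_eq_e hx.toStG (by omega) hij c]
  rw [K2c_v_e hij] at e
  rw [← e]
  exact K2c_BB_closure hx h3 hk o w hw

end Pool.Agent.SSE
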