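import Pool.Agent.SSE.K1a

/-!
# SSE-K5A : `SL_n(ℤ) = E_n(ℤ)` by Euclid, primitive vectors

`EZ S`: generated by `x_ij(n)`, `i, j ∈ S`. `prim_vec`: Euclid on `∑ |v_a|`: as long as two coordinates in `S` are nonzero, subtract a multiple; when one nonzero
coordinate is left it is `± 1` at some `a ∈ S`; with `2 ≤ card S` move it to `o` with sign `+` (`x_oa(± 1)`, `x_ao(∓ 1)`; if `a = o` and the value is `-1` go
through another index). `mem_EZ`: induction on `S`: choose `o ∈ S`; the column `g e_o` is primitive and supported on `S`; multiply on the left so that it becomes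
`e_o`; then clear the row `o` by right multiplications; the result is supported on `S \ {o}`. (`card S ≤ 1`: `g = 1` because `det g = 1`.)
-/

set_option autoImplicit false

namespace Pool.Agent.SSE

open Polynomial Matrix

variable {J : Type} [Fintype J] [DecidableEq J]

/-- the elementary group over `ℤ` on the indices of `S` -/
noncomputable def EZ (S : Finset J) : Subgroup (SpecialLinearGroup J ℤ) :=
  Subgroup.closure {g | ∃ (i j : J) (h : i ≠ j) (n : ℤ), i ∈ S ∧ j ∈ S ∧
    g = SpecialLinearGroup.transvection h n}

/-- constant matrices -/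
noncomputable def cstG : SpecialLinearGroup J ℤ →* SpecialLinearGroup J ℤ[X] :=
  SpecialLinearGroup.map (Polynomial.C : ℤ →+* ℤ[X])

private theorem K5a_gen {S : Finset J} {i j : J} (h : i ≠ j) (hi : i ∈ S) (hj : j ∈ S) (n : ℤ) :
    SpecialLinearGroup.transvection h n ∈ EZ S :=
  Subgroup.subset_closure ⟨i, j, h, n, hi, hj, rfl⟩

private theorem K5a_mono {S T : Finset J} (h : S ⊆ T) : EZ S ≤ EZ T := by
  unfold EZ
  apply Subgroup.closure_mono
  rintro g ⟨i, j, hij, n, hi, hj, rfl⟩
  exact ⟨i, j, hij, n, h hi, h hj, rfl⟩

private theorem K5a_mulVec {i j : J} (h : i ≠ j) (n : ℤ) (v : J → ℤ) (a : J) :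
    ((SpecialLinearGroup.transvection h n : SpecialLinearGroup J ℤ) : Matrix J J ℤ).mulVec v a
      = v a + if a = i then n * v j else 0 := by
  rw [SpecialLinearGroup.transvection_coe, Matrix.add_mulVec, Matrix.one_mulVec, Pi.add_apply]
  congr 1
  simp only [Matrix.mulVec, dotProduct, Matrix.single_apply]
  by_cases ha : a = i
  · subst ha
    simp
  · have : ¬ (i = a) := fun h' => ha h'.symm
    simp [ha, this]

/-- the vectors fixed from both sides -/
private theorem K5a_fix {S : Finset J} {g : SpecialLinearGroup J ℤ} (hg : g ∈ EZ S) :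
    ∀ a ∉ S, (g : Matrix J J ℤ).mulVec (Pi.single a 1) = Pi.single a 1 ∧
      Matrix.vecMul (Pi.single a 1) (g : Matrix J J ℤ) = Pi.single a 1 := by
  unfold EZ at hg
  induction hg using Subgroup.closure_induction with
  | mem g hg =>
    obtain ⟨i, j, hij, n, hi, hj, rfl⟩ := hg
    intro a ha
    have hai : a ≠ i := fun h => ha (h ▸ hi)
    have haj : a ≠ j := fun h => ha (h ▸ hj)
    constructor
    · ext b
      rw [K5a_mulVec]
      simp [haj.symm]
    · rw [SpecialLinearGroup.transvection_coe, Matrix.vecMul_add, Matrix.vecMul_one]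
      ext b
      simp [hai.symm]
  | one =>
    intro a ha
    rw [Matrix.SpecialLinearGroup.coe_one, Matrix.one_mulVec, Matrix.vecMul_one]
    exact ⟨rfl, rfl⟩
  | mul g h _ _ hg hh =>
    intro a ha
    constructor
    · rw [Matrix.SpecialLinearGroup.coe_mul, ← Matrix.mulVec_mulVec, (hh a ha).1, (hg a ha).1]
    · rw [Matrix.SpecialLinearGroup.coe_mul, ← Matrix.vecMul_vecMul, (hg a ha).2, (hh a ha).2]
  | inv g _ hg =>
    intro a ha
    have h1 : (g⁻¹ : SpecialLinearGroup J ℤ).1 * g.1 = 1 := by
      rw [← Matrix.SpecialLinearGroup.coe_mul]; simp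
    have h2 : g.1 * (g⁻¹ : SpecialLinearGroup J ℤ).1 = 1 := by
      rw [← Matrix.SpecialLinearGroup.coe_mul]; simp
    constructor
    · conv_lhs => rw [← (hg a ha).1]
      rw [Matrix.mulVec_mulVec, h1, Matrix.one_mulVec]
    · conv_lhs => rw [← (hg a ha).2]
      rw [Matrix.vecMul_vecMul, h2, Matrix.vecMul_one]

theorem EZ_apply {S : Finset J} {g : SpecialLinearGroup J ℤ} (hg : g ∈ EZ S) {a : J} (ha : a ∉ S)
    (b : J) : (g : Matrix J J ℤ) a b = (1 : Matrix J J ℤ) a b ∧
      (g : Matrix J J ℤ) b a = (1 : Matrix J J ℤ) b a := by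
  obtain ⟨h1, h2⟩ := K5a_fix hg a ha
  constructor
  · have := congrFun h2 b
    rw [Matrix.single_one_vecMul, Matrix.row_apply] at this
    rw [Matrix.one_apply, this, Pi.single_apply]
    by_cases h : a = b
    · simp [h]
    · rw [if_neg h, if_neg (fun h' : b = a => h h'.symm)]
  · have := congrFun h1 b
    rw [Matrix.mulVec_single_one, Matrix.col_apply] at this
    rw [Matrix.one_apply, this, Pi.single_apply]

/-- Euclid -/
private theorem K5a_euclid {S : Finset J} (N : ℕ) : ∀ {v : J → ℤ}, (∀ a ∉ S, v a = 0) →
    (∀ d : ℤ, (∀ a, d ∣ v a) → IsUnit d) → ∑ a ∈ S, (v a).natAbs ≤ N → S.Nonempty →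
    ∃ g ∈ EZ S, ∃ a ∈ S, ∃ e : ℤ, (e = 1 ∨ e = -1) ∧
      (g : Matrix J J ℤ).mulVec v = Pi.single a e := by
  induction N with
  | zero =>
    intro v hv hg hN hS
    exfalso
    have h0 : ∀ a, v a = 0 := by
      intro a
      by_cases ha : a ∈ S
      · have : (v a).natAbs ≤ 0 := le_trans
          (Finset.single_le_sum (f := fun a => (v a).natAbs) (fun _ _ => Nat.zero_le _) ha) hN
        omega
      · exact hv a ha
    have := hg 0 (fun a => by rw [h0 a])
    simp at this
  | succ N ih =>
    intro v hv hg hN hS
    by_cases hex : ∃ i j, i ≠ j ∧ v i ≠ 0 ∧ v j ≠ 0 ∧ (v j).natAbs ≤ (v i).natAbs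
    · obtain ⟨i, j, hij, hi, hj, hle⟩ := hex
      have hiS : i ∈ S := by
        by_contra h
        exact hi (hv i h)
      have hjS : j ∈ S := by
        by_contra h
        exact hj (hv j h)
      obtain ⟨n, hn⟩ : ∃ n : ℤ, (v i + n * v j).natAbs < (v i).natAbs := by
        rcases lt_or_gt_of_ne hi with h1 | h1 <;> rcases lt_or_gt_of_ne hj with h2 | h2
        · exact ⟨-1, by omega⟩
        · exact ⟨1, by omega⟩
        · exact ⟨1, by omega⟩
        · exact ⟨-1, by omega⟩
      set T : SpecialLinearGroup J ℤ := SpecialLinearGroup.transvection hij n with hT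
      have hTS : T ∈ EZ S := K5a_gen hij hiS hjS n
      set v' : J → ℤ := (T : Matrix J J ℤ).mulVec v with hv'
      have hv'a : ∀ a, v' a = v a + if a = i then n * v j else 0 := fun a => K5a_mulVec hij n v a
      have hsupp : ∀ a ∉ S, v' a = 0 := by
        intro a ha
        have hai : a ≠ i := fun h => ha (h ▸ hiS)
        rw [hv'a, hv a ha, if_neg hai]
        simp
      have hgcd : ∀ d : ℤ, (∀ a, d ∣ v' a) → IsUnit d := by
        intro d hd
        apply hg d
        intro a
        have hback : v = ((T⁻¹ : SpecialLinearGroup J ℤ) : Matrix J J ℤ).mulVec v' := by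
          rw [hv', Matrix.mulVec_mulVec, ← Matrix.SpecialLinearGroup.coe_mul]
          simp
        rw [hback, Matrix.mulVec, dotProduct]
        exact Finset.dvd_sum (fun b _ => Dvd.dvd.mul_left (hd b) _)
      have hsum : ∑ a ∈ S, (v' a).natAbs < ∑ a ∈ S, (v a).natAbs := by
        apply Finset.sum_lt_sum
        · intro a _
          rw [hv'a]
          by_cases h : a = i
          · subst h
            rw [if_pos rfl]
            exact le_of_lt hn
          · rw [if_neg h, add_zero]
        · refine ⟨i, hiS, ?_⟩
          rw [hv'a, if_pos rfl]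
          exact hn
      obtain ⟨g, hgS, a, ha, e, he, hge⟩ := ih hsupp hgcd (by omega) hS
      refine ⟨g * T, (EZ S).mul_mem hgS hTS, a, ha, e, he, ?_⟩
      rw [Matrix.SpecialLinearGroup.coe_mul, ← Matrix.mulVec_mulVec, ← hv', hge]
    · push Not at hex
      have huniq : ∀ i j, i ≠ j → v i ≠ 0 → v j = 0 := by
        intro i j hij hi
        by_contra hj
        have h1 := hex i j hij hi hj
        have h2 := hex j i hij.symm hj hi
        omega
      have hne : ∃ a, v a ≠ 0 := by
        by_contra h
        push Not at h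
        have := hg 0 (fun a => by rw [h a])
        simp at this
      obtain ⟨a, ha⟩ := hne
      have haS : a ∈ S := by
        by_contra h
        exact ha (hv a h)
      have hva : ∀ b, b ≠ a → v b = 0 := fun b hb => huniq a b (fun h => hb h.symm) ha
      have hunit : IsUnit (v a) := by
        apply hg
        intro b
        by_cases hb : b = a
        · subst hb
          exact dvd_rfl
        · rw [hva b hb]
          exact dvd_zero _
      refine ⟨1, (EZ S).one_mem, a, haS, v a, Int.isUnit_iff.mp hunit, ?_⟩
      rw [Matrix.SpecialLinearGroup.coe_one, Matrix.one_mulVec]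
      ext b
      by_cases hb : b = a
      · subst hb
        simp
      · rw [hva b hb, Pi.single_eq_of_ne hb]

/-- move `± e_a` to `e_o`, `a ≠ o` -/
private theorem K5a_move {S : Finset J} {a o : J} (ha : a ∈ S) (ho : o ∈ S) (hao : a ≠ o) {e : ℤ}
    (he : e = 1 ∨ e = -1) :
    ∃ g ∈ EZ S, (g : Matrix J J ℤ).mulVec (Pi.single a e) = Pi.single o 1 := by
  have hee : e * e = 1 := by
    rcases he with rfl | rfl <;> norm_num
  refine ⟨SpecialLinearGroup.transvection hao (-e) * SpecialLinearGroup.transvection hao.symm e,
    (EZ S).mul_mem (K5a_gen hao ha ho _) (K5a_gen hao.symm ho ha _), ?_⟩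
  rw [Matrix.SpecialLinearGroup.coe_mul, ← Matrix.mulVec_mulVec]
  ext b
  rw [K5a_mulVec, K5a_mulVec, K5a_mulVec]
  by_cases h1 : b = a
  · subst h1
    simp [hao, hao.symm, hee]
  · by_cases h2 : b = o
    · subst h2
      simp [h1, hee]
    · simp [h1, h2]

theorem prim_vec {S : Finset J} (hS : 2 ≤ S.card) {v : J → ℤ} (hv : ∀ a ∉ S, v a = 0)
    (hg : ∀ d : ℤ, (∀ a, d ∣ v a) → IsUnit d) {o : J} (ho : o ∈ S) :
    ∃ g ∈ EZ S, (g : Matrix J J ℤ).mulVec v = Pi.single o 1 := by
  obtain ⟨g, hgS, a, ha, e, he, hge⟩ := K5a_euclid _ hv hg le_rfl ⟨o, ho⟩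
  by_cases hao : a = o
  · subst hao
    rcases he with rfl | rfl
    · exact ⟨g, hgS, hge⟩
    · obtain ⟨b, hb, hba⟩ := Finset.exists_mem_ne (by omega : 1 < S.card) a
      obtain ⟨g1, hg1, h1⟩ := K5a_move ha hb hba.symm (Or.inr rfl : (-1 : ℤ) = 1 ∨ (-1 : ℤ) = -1)
      obtain ⟨g2, hg2, h2⟩ := K5a_move hb ha hba (Or.inl rfl : (1 : ℤ) = 1 ∨ (1 : ℤ) = -1)
      refine ⟨g2 * (g1 * g), (EZ S).mul_mem hg2 ((EZ S).mul_mem hg1 hgS), ?_⟩
      rw [Matrix.SpecialLinearGroup.coe_mul, ← Matrix.mulVec_mulVec, Matrix.SpecialLinearGroup.coe_mul,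
        ← Matrix.mulVec_mulVec, hge, h1, h2]
  · obtain ⟨g1, hg1, h1⟩ := K5a_move ha ho hao he
    refine ⟨g1 * g, (EZ S).mul_mem hg1 hgS, ?_⟩
    rw [Matrix.SpecialLinearGroup.coe_mul, ← Matrix.mulVec_mulVec, hge, h1]

/-- clear a row from the right -/
private theorem K5a_row {S : Finset J} {g : SpecialLinearGroup J ℤ} {o : J} (ho : o ∈ S)
    (hcol : ∀ b, (g : Matrix J J ℤ) b o = (1 : Matrix J J ℤ) b o) (T : Finset J) :
    T ⊆ S → o ∉ T → ∃ e ∈ EZ S,
      (∀ b, ((g * e : SpecialLinearGroup J ℤ) : Matrix J J ℤ) b o = (1 : Matrix J J ℤ) b o) ∧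
      (∀ b ∈ T, ((g * e : SpecialLinearGroup J ℤ) : Matrix J J ℤ) o b = 0) ∧
      (∀ b ∉ T, ((g * e : SpecialLinearGroup J ℤ) : Matrix J J ℤ) o b =
        (g : Matrix J J ℤ) o b) := by
  induction T using Finset.induction_on with
  | empty =>
    intro _ _
    refine ⟨1, (EZ S).one_mem, ?_, ?_, ?_⟩
    · intro b
      rw [mul_one, hcol]
    · intro b hb
      simp at hb
    · intro b _
      rw [mul_one]
  | insert c T hc ih =>
    intro hT hoT
    obtain ⟨e, he, h1, h2, h3⟩ := ih (fun x hx => hT (Finset.mem_insert_of_mem hx))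
      (fun h => hoT (Finset.mem_insert_of_mem h))
    have hoc : o ≠ c := fun h => hoT (h ▸ Finset.mem_insert_self _ _)
    have hcS : c ∈ S := hT (Finset.mem_insert_self _ _)
    set m : Matrix J J ℤ := ((g * e : SpecialLinearGroup J ℤ) : Matrix J J ℤ) with hm
    set n : ℤ := -(m o c) with hn
    have hnew : ((g * (e * SpecialLinearGroup.transvection hoc n) : SpecialLinearGroup J ℤ) :
        Matrix J J ℤ) = m * Matrix.transvection o c n := by
      rw [← mul_assoc, Matrix.SpecialLinearGroup.coe_mul, ← hm]
      rfl
    refine ⟨e * SpecialLinearGroup.transvection hoc n,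
      (EZ S).mul_mem he (K5a_gen hoc ho hcS n), ?_, ?_, ?_⟩
    · intro b
      rw [hnew, Matrix.mul_transvection_apply_of_ne _ _ _ _ hoc, h1]
    · intro b hb
      rw [hnew]
      by_cases hbc : b = c
      · subst hbc
        rw [Matrix.mul_transvection_apply_same, h1 o, Matrix.one_apply_eq, hn]
        ring
      · rw [Matrix.mul_transvection_apply_of_ne _ _ _ _ hbc]
        exact h2 b (Finset.mem_of_mem_insert_of_ne hb hbc)
    · intro b hb
      have hbc : b ≠ c := fun h => hb (h ▸ Finset.mem_insert_self _ _)
      rw [hnew, Matrix.mul_transvection_apply_of_ne _ _ _ _ hbc]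
      exact h3 b (fun h => hb (Finset.mem_insert_of_mem h))

private theorem K5a_main (N : ℕ) : ∀ (S : Finset J), S.card ≤ N →
    ∀ {g : SpecialLinearGroup J ℤ},
    (∀ a ∉ S, ∀ b, (g : Matrix J J ℤ) a b = (1 : Matrix J J ℤ) a b ∧
      (g : Matrix J J ℤ) b a = (1 : Matrix J J ℤ) b a) → g ∈ EZ S := by
  induction N with
  | zero =>
    intro S hS g hg
    have hS0 : S = ∅ := by
      rw [← Finset.card_eq_zero]
      omega
    subst hS0
    have : g = 1 := by
      ext a b
      rw [(hg a (by simp) b).1]
      rfl
    rw [this]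
    exact (EZ _).one_mem
  | succ N ih =>
    intro S hS g hg
    by_cases h2 : 2 ≤ S.card
    · obtain ⟨o, ho⟩ : S.Nonempty := by
        rw [← Finset.card_pos]
        omega
      have hcolv : (g : Matrix J J ℤ).mulVec (Pi.single o 1) = fun b => (g : Matrix J J ℤ) b o := by
        rw [Matrix.mulVec_single_one]
        rfl
      obtain ⟨e, he, hev⟩ := prim_vec (v := (g : Matrix J J ℤ).mulVec (Pi.single o 1)) h2
        (by
          intro a ha
          have hao : a ≠ o := fun h => ha (h ▸ ho)
          rw [hcolv]
          show (g : Matrix J J ℤ) a o = 0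
          rw [(hg a ha o).1, Matrix.one_apply_ne hao])
        (by
          intro d hd
          have hback : (Pi.single o 1 : J → ℤ) = ((g⁻¹ : SpecialLinearGroup J ℤ) :
              Matrix J J ℤ).mulVec ((g : Matrix J J ℤ).mulVec (Pi.single o 1)) := by
            rw [Matrix.mulVec_mulVec, ← Matrix.SpecialLinearGroup.coe_mul, inv_mul_cancel,
              Matrix.SpecialLinearGroup.coe_one, Matrix.one_mulVec]
          have h1 : d ∣ (Pi.single o 1 : J → ℤ) o := by
            rw [hback, Matrix.mulVec, dotProduct]
            exact Finset.dvd_sum (fun b _ => Dvd.dvd.mul_left (hd b) _)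
          rw [Pi.single_eq_same] at h1
          exact isUnit_of_dvd_one h1) ho
      have hcol : ∀ b, ((e * g : SpecialLinearGroup J ℤ) : Matrix J J ℤ) b o
          = (1 : Matrix J J ℤ) b o := by
        intro b
        have h1 : ((e * g : SpecialLinearGroup J ℤ) : Matrix J J ℤ).mulVec (Pi.single o 1)
            = Pi.single o 1 := by
          rw [Matrix.SpecialLinearGroup.coe_mul, ← Matrix.mulVec_mulVec, hev]
        have h2 := congrFun h1 b
        rw [Matrix.mulVec_single_one, Matrix.col_apply] at h2
        rw [h2, Matrix.one_apply, Pi.single_apply]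
      obtain ⟨e', he', h1, h3, h4⟩ := K5a_row ho hcol (S.erase o) (Finset.erase_subset _ _)
        (by simp)
      have hfin : e * g * e' ∈ EZ (S.erase o) := by
        apply ih
        · rw [Finset.card_erase_of_mem ho]
          omega
        · intro a ha b
          by_cases hao : a = o
          · subst hao
            refine ⟨?_, h1 b⟩
            by_cases hb : b ∈ S.erase a
            · rw [h3 b hb, Matrix.one_apply_ne (Finset.ne_of_mem_erase hb).symm]
            · rw [h4 b hb]
              by_cases hba : b = a
              · subst hba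
                exact hcol b
              · have hbS : b ∉ S := fun h => hb (Finset.mem_erase.mpr ⟨hba, h⟩)
                -- the column `b` of `e * g` is `e_b`
                have hgb : (g : Matrix J J ℤ).mulVec (Pi.single b 1) = Pi.single b 1 := by
                  ext c
                  rw [Matrix.mulVec_single_one, Matrix.col_apply, (hg b hbS c).2,
                    Matrix.one_apply, Pi.single_apply]
                have heb := (K5a_fix he b hbS).1
                have hegb : ((e * g : SpecialLinearGroup J ℤ) : Matrix J J ℤ).mulVec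
                    (Pi.single b 1) = Pi.single b 1 := by
                  rw [Matrix.SpecialLinearGroup.coe_mul, ← Matrix.mulVec_mulVec, hgb, heb]
                have h5 := congrFun hegb a
                rw [Matrix.mulVec_single_one, Matrix.col_apply] at h5
                rw [h5, Matrix.one_apply, Pi.single_apply]
          · have haS : a ∉ S := fun h => ha (Finset.mem_erase.mpr ⟨hao, h⟩)
            have hga : (g : Matrix J J ℤ).mulVec (Pi.single a 1) = Pi.single a 1 := by
              ext c
              rw [Matrix.mulVec_single_one, Matrix.col_apply, (hg a haS c).2,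
                Matrix.one_apply, Pi.single_apply]
            have hga' : Matrix.vecMul (Pi.single a 1) (g : Matrix J J ℤ) = Pi.single a 1 := by
              ext c
              rw [Matrix.single_one_vecMul, Matrix.row_apply, (hg a haS c).1,
                Matrix.one_apply, Pi.single_apply]
              by_cases h : a = c
              · simp [h]
              · rw [if_neg h, if_neg (fun h' : c = a => h h'.symm)]
            obtain ⟨h5, h6⟩ := K5a_fix he a haS
            obtain ⟨h7, h8⟩ := K5a_fix he' a haS
            have h9 : ((e * g * e' : SpecialLinearGroup J ℤ) : Matrix J J ℤ).mulVec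
                (Pi.single a 1) = Pi.single a 1 := by
              rw [Matrix.SpecialLinearGroup.coe_mul, Matrix.SpecialLinearGroup.coe_mul, ← Matrix.mulVec_mulVec,
                h7, ← Matrix.mulVec_mulVec, hga, h5]
            have h10 : Matrix.vecMul (Pi.single a 1)
                ((e * g * e' : SpecialLinearGroup J ℤ) : Matrix J J ℤ) = Pi.single a 1 := by
              rw [Matrix.SpecialLinearGroup.coe_mul, Matrix.SpecialLinearGroup.coe_mul, ← Matrix.vecMul_vecMul,
                ← Matrix.vecMul_vecMul, h6, hga', h8]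
            constructor
            · have h11 := congrFun h10 b
              rw [Matrix.single_one_vecMul, Matrix.row_apply] at h11
              rw [h11, Matrix.one_apply, Pi.single_apply]
              by_cases h : a = b
              · simp [h]
              · rw [if_neg h, if_neg (fun h' : b = a => h h'.symm)]
            · have h11 := congrFun h9 b
              rw [Matrix.mulVec_single_one, Matrix.col_apply] at h11
              rw [h11, Matrix.one_apply, Pi.single_apply]
      have hfin' : e * g * e' ∈ EZ S := K5a_mono (Finset.erase_subset _ _) hfin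
      have : g = e⁻¹ * (e * g * e') * e'⁻¹ := by group
      rw [this]
      exact (EZ S).mul_mem ((EZ S).mul_mem ((EZ S).inv_mem he) hfin') ((EZ S).inv_mem he')
    · by_cases h0 : S.card = 0
      · have hS0 : S = ∅ := by
          rw [← Finset.card_eq_zero]
          exact h0
        exact ih S (by omega) hg
      · have h1 : S.card = 1 := by omega
        obtain ⟨o, rfl⟩ := Finset.card_eq_one.mp h1
        have hdiag : (g : Matrix J J ℤ) = Matrix.diagonal
            (fun b => if b = o then (g : Matrix J J ℤ) o o else 1) := by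
          ext a b
          rw [Matrix.diagonal_apply]
          by_cases hao : a = o
          · by_cases hbo : b = o
            · subst hao
              subst hbo
              simp
            · rw [(hg b (by simp [hbo]) a).2, Matrix.one_apply]
              have : a ≠ b := fun h => hbo (h ▸ hao)
              rw [if_neg this, if_neg this]
          · rw [(hg a (by simp [hao]) b).1, Matrix.one_apply, if_neg hao]
        have hdet : (g : Matrix J J ℤ).det = (g : Matrix J J ℤ) o o := by
          conv_lhs => rw [hdiag]
          rw [Matrix.det_diagonal, Finset.prod_ite_eq' Finset.univ o]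
          simp
        have hoo : (g : Matrix J J ℤ) o o = 1 := by
          rw [← hdet]
          exact g.2
        have : g = 1 := by
          apply Subtype.ext
          rw [hdiag, hoo]
          simp
        rw [this]
        exact (EZ _).one_mem

theorem mem_EZ {S : Finset J} {g : SpecialLinearGroup J ℤ}
    (hg : ∀ a ∉ S, ∀ b, (g : Matrix J J ℤ) a b = (1 : Matrix J J ℤ) a b ∧
      (g : Matrix J J ℤ) b a = (1 : Matrix J J ℤ) b a) : g ∈ EZ S :=
  K5a_main S.card S le_rfl hg

theorem cst_mem {S : Finset J} {g : SpecialLinearGroup J ℤ} (hg : g ∈ EZ S) :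
    cstG g ∈ EG (S : Set J) := by
  unfold EZ at hg
  induction hg using Subgroup.closure_induction with
  | mem g hg =>
    obtain ⟨i, j, hij, n, hi, hj, rfl⟩ := hg
    have : cstG (SpecialLinearGroup.transvection hij n) = xx hij (Polynomial.C n) := by
      apply Subtype.ext
      show ((SpecialLinearGroup.transvection hij n : SpecialLinearGroup J ℤ) :
        Matrix J J ℤ).map (Polynomial.C : ℤ →+* ℤ[X]) = _
      rw [SpecialLinearGroup.transvection_coe, SpecialLinearGroup.transvection_coe]
      ext a b : 2
      rw [Matrix.map_apply, Matrix.add_apply, Matrix.add_apply, map_add, Matrix.one_apply,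
        Matrix.one_apply, Matrix.single_apply, Matrix.single_apply]
      split_ifs <;> simp
    rw [this]
    exact Subgroup.subset_closure ⟨i, j, hij, _, hi, hj, rfl⟩
  | one =>
    rw [map_one]
    exact (EG _).one_mem
  | mul g h _ _ hg hh =>
    rw [map_mul]
    exact (EG _).mul_mem hg hh
  | inv g _ hg =>
    rw [map_inv]
    exact (EG _).inv_mem hg

end Pool.Agent.SSE
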