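import Pool.Agent.SSE.K5a

/-!
# SSE-K5B : `1 + X N`, `N` nilpotent over `ℤ`, is elementary

Induction on `card S`. `card S ≤ 1`: `N = 0`. Otherwise `N` restricted to `S` is singular, so there is `v ≠ 0` supported on `S` with `N v = 0`
(over `ℤ`: `Matrix.exists_mulVec_eq_zero_iff` for the submatrix, or take the largest `k` with `N^k ≠ 0` and `v` a nonzero column of `N^k`, or `N = 0`), divide
by the gcd: primitive. `prim_vec`: `g v = e_o`. `N' = g N g⁻¹` is supported on `S`, its column `o` is `0`. `N' = N'' + e_o w`, `N''` (row `o` removed) is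
nilpotent and supported on `S \ {o}`, and `1 + X N' = (1 + X N'') (1 + X e_o w)`; `1 + X e_o w = ∏ x_ol(X w_l)`. Conjugate back with `cstG g`.
-/

set_option autoImplicit false

namespace Pool.Agent.SSE

open Polynomial Matrix

variable {J : Type} [Fintype J] [DecidableEq J]

/-- the row matrix `e_o w` restricted to `F` -/
private noncomputable def K5b_row (o : J) (F : Finset J) (w : J → ℤ[X]) : Matrix J J ℤ[X] :=
  Matrix.of fun a b => if a = o ∧ b ∈ F then w b else 0

private theorem K5b_row_mem {S : Finset J} {o : J} (ho : o ∈ S) (w : J → ℤ[X]) :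
    ∀ F : Finset J, F ⊆ S → o ∉ F → ∃ t : SpecialLinearGroup J ℤ[X], t ∈ EG (S : Set J) ∧
      (t : Matrix J J ℤ[X]) = 1 + K5b_row o F w := by
  intro F
  induction F using Finset.induction_on with
  | empty =>
    intro _ _
    refine ⟨1, one_mem _, ?_⟩
    have : K5b_row o ∅ w = 0 := by
      ext a b
      simp [K5b_row]
    rw [this]
    simp
  | insert l F hl ih =>
    intro hF ho'
    obtain ⟨t, ht, hte⟩ := ih (fun x hx => hF (Finset.mem_insert_of_mem hx))
      (fun h => ho' (Finset.mem_insert_of_mem h))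
    have hol : o ≠ l := fun h => ho' (by simp [h])
    refine ⟨t * xx hol (w l), mul_mem ht (xx_mem_EG hol (by simpa using ho)
      (by simpa using hF (Finset.mem_insert_self l F)) _), ?_⟩
    refine (Matrix.SpecialLinearGroup.coe_mul t (xx hol (w l))).trans ?_
    rw [hte]
    have hx : ((xx hol (w l) : SpecialLinearGroup J ℤ[X]) : Matrix J J ℤ[X]) =
        1 + Matrix.single o l (w l) := rfl
    rw [hx, add_mul, one_mul, mul_add, mul_one]
    have h0 : K5b_row o F w * Matrix.single o l (w l) = 0 := by
      ext1 a b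
      rw [Matrix.mul_apply, Matrix.zero_apply]
      apply Finset.sum_eq_zero
      intro c _
      have hoF : o ∉ F := fun h => ho' (Finset.mem_insert_of_mem h)
      by_cases hc : c = o
      · subst hc
        simp [K5b_row, hoF]
      · rw [Matrix.single_apply_of_ne]
        · simp
        · intro h
          exact hc h.1.symm
    rw [h0, add_zero]
    have h1 : K5b_row o (insert l F) w = Matrix.single o l (w l) + K5b_row o F w := by
      ext1 a b
      by_cases ha : a = o
      · subst ha
        by_cases hb : b = l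
        · subst hb
          simp [K5b_row, hl]
        · rw [Matrix.add_apply, Matrix.single_apply_of_ne]
          · simp [K5b_row, hb]
          · intro h
            exact hb h.2.symm
      · rw [Matrix.add_apply, Matrix.single_apply_of_ne]
        · simp [K5b_row, ha]
        · intro h
          exact ha h.1.symm
    rw [h1]
    abel

/-- a primitive vector in the kernel -/
private theorem K5b_ker {S : Finset J} {N : Matrix J J ℤ} (hN : IsNilpotent N)
    (hS : ∀ a b, a ∉ S ∨ b ∉ S → N a b = 0) (h0 : N ≠ 0) :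
    ∃ v : J → ℤ, (∀ a ∉ S, v a = 0) ∧ (∀ d : ℤ, (∀ a, d ∣ v a) → IsUnit d) ∧
      N.mulVec v = 0 := by
  classical
  -- least `k` with `N ^ k = 0`
  have hex : ∃ k, N ^ k = 0 := hN
  have hk := Nat.find_spec hex
  have hmin : ∀ m < Nat.find hex, N ^ m ≠ 0 := fun m hm => Nat.find_min hex hm
  set k := Nat.find hex with hkdef
  have hk0 : k ≠ 0 := by
    intro h
    rw [h, pow_zero] at hk
    apply h0
    calc N = N * 1 := (mul_one N).symm
      _ = 0 := by rw [hk, mul_zero]
  have hk1 : k ≠ 1 := by
    intro h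
    rw [h, pow_one] at hk
    exact h0 hk
  obtain ⟨m, hm⟩ : ∃ m, k = m + 2 := ⟨k - 2, by omega⟩
  have hne : N ^ (m + 1) ≠ 0 := hmin (m + 1) (by omega)
  have hz : N * N ^ (m + 1) = 0 := by
    rw [← pow_succ', ← hk, hm]
  obtain ⟨a0, b0, hab⟩ : ∃ a b, (N ^ (m + 1)) a b ≠ 0 := by
    by_contra hcon
    push Not at hcon
    apply hne
    ext a b
    simpa using hcon a b
  have : Nonempty J := ⟨a0⟩
  obtain ⟨v, hv1, hv2⟩ := Finset.extract_gcd (s := (Finset.univ : Finset J))
    (fun a => (N ^ (m + 1)) a b0) Finset.univ_nonempty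
  set d := (Finset.univ : Finset J).gcd (fun a => (N ^ (m + 1)) a b0) with hd
  have hd0 : d ≠ 0 := by
    intro h
    apply hab
    have := hv1 a0 (Finset.mem_univ _)
    rw [h, zero_mul] at this
    exact this
  refine ⟨v, ?_, ?_, ?_⟩
  · intro a ha
    have h1 : (N ^ (m + 1)) a b0 = 0 := by
      rw [pow_succ', Matrix.mul_apply]
      exact Finset.sum_eq_zero fun c _ => by rw [hS a c (Or.inl ha), zero_mul]
    have h2 := hv1 a (Finset.mem_univ _)
    simp only [h1] at h2
    rcases mul_eq_zero.mp h2.symm with h3 | h3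
    · exact absurd h3 hd0
    · exact h3
  · intro e he
    have : e ∣ (Finset.univ : Finset J).gcd v := Finset.dvd_gcd fun b _ => he b
    rw [hv2] at this
    exact isUnit_of_dvd_one this
  · have hmul : d • (N.mulVec v) = 0 := by
      ext a
      have h3 : (N * N ^ (m + 1)) a b0 = 0 := by rw [hz]; rfl
      rw [Matrix.mul_apply] at h3
      rw [Pi.smul_apply, Pi.zero_apply, Matrix.mulVec, dotProduct, Finset.smul_sum, ← h3]
      refine Finset.sum_congr rfl fun c _ => ?_
      rw [hv1 c (Finset.mem_univ _), smul_eq_mul]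
      ring
    ext a
    have := congrFun hmul a
    rw [Pi.smul_apply, Pi.zero_apply, smul_eq_mul] at this
    rcases mul_eq_zero.mp this with h3 | h3
    · exact absurd h3 hd0
    · simpa using h3

theorem one_add_nilp_mem {S : Finset J} {N : Matrix J J ℤ} (hN : IsNilpotent N)
    (hS : ∀ a b, a ∉ S ∨ b ∉ S → N a b = 0) {u : SpecialLinearGroup J ℤ[X]}
    (hu : (u : Matrix J J ℤ[X]) = 1 + (X : ℤ[X]) • N.map (Polynomial.C : ℤ →+* ℤ[X])) :
    u ∈ EG (S : Set J) := by
  classical
  induction hn : S.card using Nat.strong_induction_on generalizing S N u with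
  | _ n ih =>
  by_cases h0 : N = 0
  · have : u = 1 := by
      apply Subtype.ext
      rw [hu, h0]
      ext a b
      simp
    rw [this]
    exact one_mem _
  obtain ⟨v, hv1, hv2, hv3⟩ := K5b_ker hN hS h0
  -- `2 ≤ card S`
  have hcard : 2 ≤ S.card := by
    by_contra hlt
    push Not at hlt
    apply h0
    have hs1 : S.card ≤ 1 := by omega
    rw [Finset.card_le_one] at hs1
    ext a b
    by_cases ha : a ∈ S
    · by_cases hb : b ∈ S
      · have hab := hs1 a ha b hb
        subst hab
        have h1 := congrFun hv3 a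
        rw [Matrix.mulVec, dotProduct, Finset.sum_eq_single a] at h1
        · rw [Pi.zero_apply] at h1
          rcases mul_eq_zero.mp h1 with h2 | h2
          · simpa using h2
          · exfalso
            have : IsUnit (0 : ℤ) := by
              apply hv2
              intro c
              by_cases hc : c ∈ S
              · rw [hs1 c hc a ha, h2]
              · rw [hv1 c hc]
            simp at this
        · intro c _ hca
          by_cases hc : c ∈ S
          · exact absurd (hs1 c hc a ha) hca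
          · rw [hv1 c hc, mul_zero]
        · intro h
          exact absurd (Finset.mem_univ _) h
      · rw [hS a b (Or.inr hb)]; rfl
    · rw [hS a b (Or.inl ha)]; rfl
  obtain ⟨o, ho⟩ : S.Nonempty := by
    rw [← Finset.card_pos]; omega
  obtain ⟨g, hg, hgv⟩ := prim_vec hcard hv1 hv2 ho
  have hgi : g⁻¹ ∈ EZ S := inv_mem hg
  set G : Matrix J J ℤ := (g : Matrix J J ℤ) with hG
  set H : Matrix J J ℤ := ((g⁻¹ : SpecialLinearGroup J ℤ) : Matrix J J ℤ) with hH
  have hGH : G * H = 1 := by
    refine (Matrix.SpecialLinearGroup.coe_mul g g⁻¹).symm.trans ?_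
    rw [mul_inv_cancel]
    exact Matrix.SpecialLinearGroup.coe_one
  have hHG : H * G = 1 := by
    refine (Matrix.SpecialLinearGroup.coe_mul g⁻¹ g).symm.trans ?_
    rw [inv_mul_cancel]
    exact Matrix.SpecialLinearGroup.coe_one
  set N1 : Matrix J J ℤ := G * N * H with hN1
  -- support of `N1`
  have hGa : ∀ a ∉ S, ∀ c, G a c = (1 : Matrix J J ℤ) a c := fun a ha c => (EZ_apply hg ha c).1
  have hHb : ∀ b ∉ S, ∀ c, H c b = (1 : Matrix J J ℤ) c b := fun b hb c => (EZ_apply hgi hb c).2
  have hN1S : ∀ a b, a ∉ S ∨ b ∉ S → N1 a b = 0 := by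
    intro a b hab
    rcases hab with ha | hb
    · rw [hN1, mul_assoc, Matrix.mul_apply]
      refine Finset.sum_eq_zero fun c _ => ?_
      rw [hGa a ha c]
      by_cases hac : a = c
      · subst hac
        rw [Matrix.mul_apply]
        rw [Finset.sum_eq_zero, mul_zero]
        intro e _
        rw [hS a e (Or.inl ha), zero_mul]
      · rw [Matrix.one_apply_ne hac, zero_mul]
    · rw [hN1, Matrix.mul_apply]
      refine Finset.sum_eq_zero fun c _ => ?_
      rw [hHb b hb c]
      by_cases hcb : c = b
      · subst hcb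
        rw [Matrix.mul_apply]
        rw [Finset.sum_eq_zero, zero_mul]
        intro e _
        rw [hS e c (Or.inr hb), mul_zero]
      · rw [Matrix.one_apply_ne hcb, mul_zero]
  -- column `o` of `N1` is `0`
  have hHo : H.mulVec (Pi.single o 1) = v := by
    rw [← hgv, Matrix.mulVec_mulVec, hHG, Matrix.one_mulVec]
  have hcol : ∀ a, N1 a o = 0 := by
    intro a
    have h1 : N1.mulVec (Pi.single o 1) = 0 := by
      rw [hN1, ← Matrix.mulVec_mulVec, hHo, ← Matrix.mulVec_mulVec, hv3, Matrix.mulVec_zero]
    have h2 := congrFun h1 a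
    rw [Matrix.mulVec_single_one] at h2
    simpa using h2
  -- `N1` is nilpotent
  have hN1p : ∀ k, N1 ^ k = G * N ^ k * H := by
    intro k
    induction k with
    | zero => rw [pow_zero, pow_zero, mul_one, hGH]
    | succ k ihk =>
      rw [pow_succ, ihk, hN1, pow_succ]
      calc G * N ^ k * H * (G * N * H) = G * N ^ k * (H * G) * N * H := by
            simp only [Matrix.mul_assoc]
        _ = G * (N ^ k * N) * H := by
            rw [hHG, Matrix.mul_one, Matrix.mul_assoc G]
  -- remove row `o`
  set P : Matrix J J ℤ := Matrix.diagonal (fun a => if a = o then 0 else 1) with hP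
  have hNP : N1 * P = N1 := by
    ext a b
    rw [hP, Matrix.mul_diagonal]
    by_cases hb : b = o
    · subst hb
      rw [hcol a]; simp
    · simp [hb]
  have hPk : ∀ k, (P * N1) ^ (k + 1) = P * N1 ^ (k + 1) := by
    intro k
    induction k with
    | zero => simp
    | succ k ihk =>
      rw [pow_succ, ihk, pow_succ N1 (k + 1), pow_succ N1 k]
      calc P * (N1 ^ k * N1) * (P * N1) = P * N1 ^ k * (N1 * P) * N1 := by
            simp only [Matrix.mul_assoc]
        _ = P * (N1 ^ k * N1 * N1) := by
            rw [hNP]; simp only [Matrix.mul_assoc]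
  have hnil2 : IsNilpotent (P * N1) := by
    obtain ⟨k, hk⟩ := hN
    refine ⟨k + 1, ?_⟩
    rw [hPk, hN1p, pow_succ, hk]
    simp
  have hPN : ∀ a b, (P * N1) a b = if a = o then 0 else N1 a b := by
    intro a b
    rw [hP, Matrix.diagonal_mul]
    by_cases ha : a = o
    · simp [ha]
    · simp [ha]
  have hsupp : ∀ a b, a ∉ S.erase o ∨ b ∉ S.erase o → (P * N1) a b = 0 := by
    intro a b hab
    rw [hPN]
    by_cases ha : a = o
    · simp [ha]
    · rw [if_neg ha]
      rcases hab with h | h
      · apply hN1S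
        left
        intro h'
        exact h (Finset.mem_erase.mpr ⟨ha, h'⟩)
      · by_cases hb : b = o
        · rw [hb]; exact hcol a
        · apply hN1S
          right
          intro h'
          exact h (Finset.mem_erase.mpr ⟨hb, h'⟩)
  -- the row matrix
  set w : J → ℤ[X] := fun b => X * C (N1 o b) with hw
  obtain ⟨t, ht, hte⟩ := K5b_row_mem ho w (S.erase o) (Finset.erase_subset _ _)
    (Finset.notMem_erase o S)
  have hrow : K5b_row o (S.erase o) w =
      (X : ℤ[X]) • (N1 - P * N1).map (Polynomial.C : ℤ →+* ℤ[X]) := by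
    ext1 a b
    rw [Matrix.smul_apply, Matrix.map_apply, Matrix.sub_apply, hPN, smul_eq_mul]
    rw [K5b_row, Matrix.of_apply]
    by_cases ha : a = o
    · by_cases hb : b ∈ S.erase o
      · rw [if_pos ⟨ha, hb⟩, if_pos ha, hw, ha, sub_zero]
      · have : N1 o b = 0 := by
          by_cases hba : b = o
          · rw [hba]; exact hcol o
          · apply hN1S
            right
            intro h'
            exact hb (Finset.mem_erase.mpr ⟨hba, h'⟩)
        rw [if_neg (fun h => hb h.2), if_pos ha, ha, this, sub_zero, map_zero, mul_zero]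
    · rw [if_neg (fun h => ha h.1), if_neg ha, sub_self, map_zero, mul_zero]
  set T : SpecialLinearGroup J ℤ[X] := cstG g with hT
  have hTm : (T : Matrix J J ℤ[X]) = G.map (Polynomial.C : ℤ →+* ℤ[X]) := by
    rw [hT, cstG]
    rfl
  have hTi : ((T⁻¹ : SpecialLinearGroup J ℤ[X]) : Matrix J J ℤ[X]) =
      H.map (Polynomial.C : ℤ →+* ℤ[X]) := by
    rw [hT, ← map_inv, cstG]
    rfl
  have hTE : T ∈ EG (S : Set J) := cst_mem hg
  have hu1 : ((T * u * T⁻¹ : SpecialLinearGroup J ℤ[X]) : Matrix J J ℤ[X]) =
      1 + (X : ℤ[X]) • N1.map (Polynomial.C : ℤ →+* ℤ[X]) := by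
    have e1 : ((T * u * T⁻¹ : SpecialLinearGroup J ℤ[X]) : Matrix J J ℤ[X]) =
        (T : Matrix J J ℤ[X]) * (u : Matrix J J ℤ[X]) *
          ((T⁻¹ : SpecialLinearGroup J ℤ[X]) : Matrix J J ℤ[X]) := rfl
    rw [e1, hTm, hTi, hu, mul_add, add_mul,
      mul_one, ← Matrix.map_mul, hGH, Matrix.mul_smul, Matrix.smul_mul, ← Matrix.map_mul,
      ← Matrix.map_mul, hN1]
    congr 1
    exact Matrix.map_one _ (map_zero _) (map_one _)
  -- factorisation
  have hfac : (1 + (X : ℤ[X]) • (P * N1).map (Polynomial.C : ℤ →+* ℤ[X])) *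
      (t : Matrix J J ℤ[X]) = 1 + (X : ℤ[X]) • N1.map (Polynomial.C : ℤ →+* ℤ[X]) := by
    rw [hte, hrow, mul_add, mul_one, add_mul, one_mul]
    have hz : ((X : ℤ[X]) • (P * N1).map (Polynomial.C : ℤ →+* ℤ[X])) *
        ((X : ℤ[X]) • (N1 - P * N1).map (Polynomial.C : ℤ →+* ℤ[X])) = 0 := by
      rw [Matrix.smul_mul, Matrix.mul_smul, ← Matrix.map_mul]
      have : P * N1 * (N1 - P * N1) = 0 := by
        rw [mul_sub]
        have : P * N1 * (P * N1) = P * N1 * N1 := by
          calc P * N1 * (P * N1) = P * (N1 * P) * N1 := by simp only [Matrix.mul_assoc]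
            _ = P * N1 * N1 := by rw [hNP]
        rw [this, sub_self]
      rw [this]
      ext a b
      simp
    rw [hz, add_zero, add_assoc, ← smul_add]
    congr 2
    ext1 a b
    simp only [Matrix.add_apply, Matrix.map_apply, Matrix.sub_apply]
    rw [← map_add]
    congr 1
    ring
  have hu2 : ((T * u * T⁻¹ * t⁻¹ : SpecialLinearGroup J ℤ[X]) : Matrix J J ℤ[X]) =
      1 + (X : ℤ[X]) • (P * N1).map (Polynomial.C : ℤ →+* ℤ[X]) := by
    refine (Matrix.SpecialLinearGroup.coe_mul (T * u * T⁻¹) t⁻¹).trans ?_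
    rw [hu1, ← hfac, mul_assoc]
    have e2 : (t : Matrix J J ℤ[X]) * ((t⁻¹ : SpecialLinearGroup J ℤ[X]) : Matrix J J ℤ[X]) = 1 := by
      refine (Matrix.SpecialLinearGroup.coe_mul t t⁻¹).symm.trans ?_
      rw [mul_inv_cancel]
      exact Matrix.SpecialLinearGroup.coe_one
    rw [e2, mul_one]
  have hcl : (S.erase o).card < n := by
    rw [Finset.card_erase_of_mem ho]
    omega
  have hmem := ih _ hcl hnil2 hsupp hu2 rfl
  have hmem' : T * u * T⁻¹ * t⁻¹ ∈ EG (S : Set J) :=
    EG_mono (by
      intro x hx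
      have : x ∈ S.erase o := Finset.mem_coe.mp hx
      exact Finset.mem_coe.mpr (Finset.mem_of_mem_erase this)) hmem
  have h5 : u = T⁻¹ * (T * u * T⁻¹ * t⁻¹ * t) * T := by group
  rw [h5]
  exact mul_mem (mul_mem (inv_mem hTE) (mul_mem hmem' ht)) hTE

end Pool.Agent.SSE
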