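import Mathlib

/-!
# SSE project (`MP_c782ad_an`, `S06105`), part K: K-theory, definitions

Text: `/team-store/c782ad_h73_K.md`.  `R = ℤ[X]`, `x_ij(c)` = `SpecialLinearGroup.transvection h c`.
-/

set_option autoImplicit false

namespace Pool.Agent.SSE

open Polynomial Matrix

section concrete
variable {J : Type} [Fintype J] [DecidableEq J]

/-- `x_ij(c)` -/
noncomputable abbrev xx {i j : J} (h : i ≠ j) (c : ℤ[X]) : SpecialLinearGroup J ℤ[X] :=
  SpecialLinearGroup.transvection h c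

/-- `x_ij(c)` as a total function (`1` for `i = j`) -/
noncomputable def xt (i j : J) (c : ℤ[X]) : SpecialLinearGroup J ℤ[X] :=
  if h : i ≠ j then xx h c else 1

/-- the elementary group on the indices in `S` -/
noncomputable def EG (S : Set J) : Subgroup (SpecialLinearGroup J ℤ[X]) :=
  Subgroup.closure {g | ∃ (i j : J) (h : i ≠ j) (c : ℤ[X]), i ∈ S ∧ j ∈ S ∧ g = xx h c}

/-- the relative elementary group `E(R, (t^k))`: generated by the conjugates, under the elementary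
group of the indices in `S`, of `x_ij(t^k c)`, `i, j ∈ S` -/
noncomputable def ER (S : Set J) (k : ℕ) : Subgroup (SpecialLinearGroup J ℤ[X]) :=
  Subgroup.closure {g | ∃ e ∈ EG S, ∃ (i j : J) (h : i ≠ j) (c : ℤ[X]), i ∈ S ∧ j ∈ S ∧
    g = e * xx h (X ^ k * c) * e⁻¹}

/-- `g = 1 mod t^k` -/
def Cg (k : ℕ) (g : SpecialLinearGroup J ℤ[X]) : Prop :=
  ∀ i j, X ^ k ∣ ((g : Matrix J J ℤ[X]) i j - (1 : Matrix J J ℤ[X]) i j)

/-- `s_ij(a,b) = [x_ji(a), x_ij(b)]` -/
noncomputable def sy {i j : J} (h : i ≠ j) (a b : ℤ[X]) : SpecialLinearGroup J ℤ[X] :=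
  xx h.symm a * xx h b * (xx h.symm a)⁻¹ * (xx h b)⁻¹

end concrete

section abstr
variable {J : Type} {Γ : Type} [Group Γ]

/-- the symbol `s_ij(a,b) = [x_ji(a), x_ij(b)]` for an abstract family -/
def sg (x : J → J → ℤ[X] → Γ) (i j : J) (a b : ℤ[X]) : Γ :=
  x j i a * x i j b * (x j i a)⁻¹ * (x i j b)⁻¹

/-- the group generated by all `x_ij(c)` -/
def Xg (x : J → J → ℤ[X] → Γ) : Subgroup Γ := Subgroup.closure {g | ∃ i j c, i ≠ j ∧ g = x i j c}

/-- Steinberg relations, and `x_ij(t^k c) = 1` -/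
structure StG (k : ℕ) (x : J → J → ℤ[X] → Γ) : Prop where
  add : ∀ i j, i ≠ j → ∀ a b, x i j (a + b) = x i j a * x i j b
  comm : ∀ i j p q, i ≠ j → p ≠ q → j ≠ p → i ≠ q → ∀ a b,
    x i j a * x p q b = x p q b * x i j a
  stein : ∀ i j l, i ≠ j → j ≠ l → i ≠ l → ∀ a b,
    x i j a * x j l b = x i l (a * b) * x j l b * x i j a
  kill : ∀ i j, i ≠ j → ∀ c, x i j (X ^ k * c) = 1

/-- in addition the symbols `s_ij(a,b)`, `t^k ∣ ab`, are central -/
structure StC (k : ℕ) (x : J → J → ℤ[X] → Γ) : Prop extends StG k x where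
  cen : ∀ i j, i ≠ j → ∀ a b, X ^ k ∣ a * b → ∀ p q, p ≠ q → ∀ c,
    sg x i j a b * x p q c = x p q c * sg x i j a b

/-- in addition to `StG`: `x_ji(t c)` commutes with `x_ij(m t^(k-1))` -/
structure StT (k : ℕ) (x : J → J → ℤ[X] → Γ) : Prop extends StG k x where
  tr : ∀ i j, i ≠ j → ∀ c (m : ℤ),
    x j i (X * c) * x i j (C m * X ^ (k - 1)) = x i j (C m * X ^ (k - 1)) * x j i (X * c)

end abstr

end Pool.Agent.SSE
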