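import Pool.Agent.SSE.V3
import Pool.Agent.SSE.E6
import Pool.Agent.SSE.KDefs

/-!
# SSE-LC : Theorem E and `Frame.conn` combined; all constants depend only on `J`, `r`, `a`, `C`, `N`

`ρ := min (a/(C+1)) (1/2)`; `theoremE` for `ρ/3` gives `N₀`, `ε'`; `N₁ := max N N₀`, `ε := min (ε'/5) (ρ/6)` (or so). `u := W' W⁻¹ ∈ FLow p (2M)`, `nz r u ≤ ε'`, so
`Conn (AAll J M) r (ρ/3) 1 u`; `Conn.mul_right` by `W`: `Conn (AAll J N) r ρ W W'`; `Frame.conn`.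
-/

set_option autoImplicit false

open scoped BigOperators
open Matrix Polynomial

namespace Pool.Agent.SSE

attribute [local instance] Classical.propDecidable

theorem conn_small (J : Type) [Fintype J] [DecidableEq J] {r a C : ℝ} (hr : 0 < r) (hr1 : r < 1)
    (ha : 0 < a) (hC : 0 ≤ C) (N : ℕ) :
    ∃ (N₁ : ℕ) (ε : ℝ), N ≤ N₁ ∧ 0 < ε ∧ ∀ (κ : Type) [Fintype κ]
      (P : Matrix (κ ⊕ J) (κ ⊕ J) ℕ[X]) (S : Set κ) (D : Set (κ ⊕ J))
      (q : J → κ ⊕ J → PowerSeries ℤ), Frame P S D r a C N q →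
      ∀ M ≥ N₁, ∀ p : J, ∀ W W' : SpecialLinearGroup J ℤ[X], Cg N W → nz r W ≤ ε → nz r W' ≤ ε →
        W' * W⁻¹ ∈ FLow p (2 * M) → ∀ (S₁ S₂ : Set κ) (Q Q' : Matrix (κ ⊕ J) (κ ⊕ J) ℕ[X]),
          Fr P S₁ W Q → Fr P S₂ W' Q' → PEqv Q Q' := by
  have hC1 : 0 < C + 1 := by linarith
  set ρ : ℝ := min (a / (C + 1)) (1 / 2) with hρ
  have hρ0 : 0 < ρ := lt_min (div_pos ha hC1) (by norm_num)
  have hρa : ρ * (C + 1) ≤ a := by
    have h1 : ρ ≤ a / (C + 1) := min_le_left _ _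
    calc ρ * (C + 1) ≤ a / (C + 1) * (C + 1) := mul_le_mul_of_nonneg_right h1 hC1.le
      _ = a := by field_simp
  have hρ1 : ρ ≤ 1 / 2 := min_le_right _ _
  obtain ⟨N₀, ε', hε', hE⟩ := theoremE hr hr1 J (ε := ρ / 3) (by linarith)
  set ε : ℝ := min (ε' / 5) (ρ / 6) with hε
  have hε0 : 0 < ε := lt_min (by linarith) (by linarith)
  have hε1 : ε ≤ ε' / 5 := min_le_left _ _
  have hε2 : ε ≤ ρ / 6 := min_le_right _ _
  refine ⟨max N N₀, ε, le_max_left _ _, hε0, ?_⟩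
  intro κ _ P S D q hF M hM p W W' hCg hW hW' hu S₁ S₂ Q Q' hQ hQ'
  have hMN : N ≤ M := (le_max_left _ _).trans hM
  have hMN₀ : N₀ ≤ M := (le_max_right _ _).trans hM
  have hWinv : nz r W⁻¹ ≤ 2 * ε := by
    have h1 := nz_inv_le hr.le (g := W) (by linarith)
    linarith
  have hnu : nz r (W' * W⁻¹) ≤ ε' := by
    have h1 := nz_mul_le hr.le W' W⁻¹
    have h2 : nz r W' * nz r W⁻¹ ≤ ε * (2 * ε) :=
      mul_le_mul hW' hWinv (nz_nonneg hr.le _) hε0.le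
    have h3 : ε * (2 * ε) ≤ 1 * (2 * ε) :=
      mul_le_mul_of_nonneg_right (by linarith) (by linarith)
    linarith
  have hc1 := hE M hMN₀ p _ hu hnu
  have hc2 := hc1.mul_right hr.le hW (by linarith : (0 : ℝ) ≤ ρ / 3) hε0.le
  have hsub : AAll J M ⊆ AAll J N := by
    rintro x ⟨i, j, hij, d, c, hd, hc, e⟩
    exact ⟨i, j, hij, d, c, hMN.trans hd, hc, e⟩
  have hrad : ρ / 3 + ε + ρ / 3 * ε ≤ ρ := by
    have h1 : ρ / 3 * ε ≤ ρ / 3 * 1 := mul_le_mul_of_nonneg_left (by linarith) (by linarith)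
    have h2 : ρ / 3 * ε ≤ ρ / 3 := by linarith
    linarith
  have hc3 := hc2.mono hsub hrad
  rw [one_mul, inv_mul_cancel_right] at hc3
  exact hF.conn hρa hc3 hCg hQ hQ'

end Pool.Agent.SSE
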