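import Pool.Agent.SSE.PF1

/-!
# SSE project (`MP_c782ad_an`): the factorisation `det (1 - X A) = (1 - lam X) * f1`

`f1 = det (1 - X B)`, `B = A - lam v uᵀ`; `f1` has no complex zero `z` with `|z| th < 1`.
-/

set_option autoImplicit false
set_option linter.unusedSectionVars false

open scoped BigOperators
open Matrix Polynomial

namespace Pool.Agent.SSE.PF

variable {V : Type*} [Fintype V] [DecidableEq V]

/-- the deflated matrix -/
noncomputable def defl (A : Matrix V V ℝ) (lam : ℝ) (v u : V → ℝ) : Matrix V V ℝ :=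
  A - lam • vecMulVec v u

section
variable {A : Matrix V V ℝ} {lam : ℝ} {v u : V → ℝ}

lemma Data.mul_vv (hd : Data A lam v u) : A * vecMulVec v u = lam • vecMulVec v u := by
  rw [Matrix.mul_vecMulVec, hd.eig, Matrix.smul_vecMulVec]

lemma Data.vv_mul (hd : Data A lam v u) : vecMulVec v u * A = lam • vecMulVec v u := by
  rw [Matrix.vecMulVec_mul, hd.eig', Matrix.vecMulVec_smul]

lemma Data.vv_vv (hd : Data A lam v u) : vecMulVec v u * vecMulVec v u = vecMulVec v u := by
  rw [Matrix.vecMulVec_mul_vecMulVec, hd.norm, one_smul]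

lemma Data.defl_pow (hd : Data A lam v u) (m : ℕ) :
    defl A lam v u ^ (m + 1) = A ^ (m + 1) - lam ^ (m + 1) • vecMulVec v u := by
  induction m with
  | zero => simp [defl]
  | succ m ih =>
    have h1 : A ^ (m + 1) * vecMulVec v u = lam ^ (m + 1) • vecMulVec v u := by
      clear ih
      induction m with
      | zero => simpa using hd.mul_vv
      | succ m ih => rw [pow_succ' A, Matrix.mul_assoc, ih, mul_smul_comm, hd.mul_vv, smul_smul, ← pow_succ]
    have h2 : (A ^ (m + 1) - lam ^ (m + 1) • vecMulVec v u) * (A - lam • vecMulVec v u) =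
        A ^ (m + 1) * A - lam • (A ^ (m + 1) * vecMulVec v u) - lam ^ (m + 1) • (vecMulVec v u * A) +
          (lam ^ (m + 1) * lam) • (vecMulVec v u * vecMulVec v u) := by
      rw [sub_mul, mul_sub, mul_sub, mul_smul_comm, smul_mul_assoc, smul_mul_smul_comm]
      abel
    rw [pow_succ, ih, defl, h2, h1, hd.vv_mul, hd.vv_vv, smul_smul, smul_smul, ← pow_succ A,
      ← pow_succ lam, mul_comm lam (lam ^ (m + 1)), ← pow_succ lam]
    abel

/-- `det (1 - X A) = (1 - lam X) * f1` -/
theorem Data.factor (hd : Data A lam v u) :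
    A.charpolyRev = (1 - C lam * X) * (defl A lam v u).charpolyRev := by
  have hBv : (defl A lam v u) * vecMulVec v u = 0 := by
    rw [defl, sub_mul, hd.mul_vv, smul_mul_assoc, hd.vv_vv, sub_self]
  have h1 : (1 : Matrix V V ℝ[X]) - (X : ℝ[X]) • A.map C =
      (1 - (X : ℝ[X]) • (defl A lam v u).map C) * (1 - (C lam * X : ℝ[X]) • (vecMulVec v u).map C) := by
    have e1 : (defl A lam v u).map C * (vecMulVec v u).map C = (0 : Matrix V V ℝ[X]) := by
      have := congrArg (fun M : Matrix V V ℝ => M.map (C : ℝ → ℝ[X])) hBv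
      simp only [Matrix.map_mul] at this
      rw [this]
      ext i j
      simp
    have e2 : A.map C = (defl A lam v u).map C + (C lam : ℝ[X]) • (vecMulVec v u).map C := by
      refine Matrix.ext fun i j => ?_
      simp [defl]
    have e4 : (1 - (X : ℝ[X]) • (defl A lam v u).map C) * (1 - (C lam * X : ℝ[X]) • (vecMulVec v u).map C) =
        1 - (X : ℝ[X]) • (defl A lam v u).map C - (C lam * X : ℝ[X]) • (vecMulVec v u).map C +
          (X * (C lam * X)) • ((defl A lam v u).map C * (vecMulVec v u).map C) := by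
      rw [sub_mul, one_mul, mul_sub, mul_one, smul_mul_smul_comm]
      abel
    rw [e4, e1, smul_zero, e2, smul_add, smul_smul, mul_comm X (C lam)]
    abel
  have h2 : ((1 : Matrix V V ℝ[X]) - (C lam * X : ℝ[X]) • (vecMulVec v u).map C).det = 1 - C lam * X := by
    have e : ((1 : Matrix V V ℝ[X]) - (C lam * X : ℝ[X]) • (vecMulVec v u).map C) =
        1 + replicateCol Unit (fun i => - (C lam * X : ℝ[X]) * C (v i)) * replicateRow Unit (fun j => (C (u j) : ℝ[X])) := by
      refine Matrix.ext fun i j => ?_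
      simp [Matrix.mul_apply, vecMulVec_apply, replicateCol, replicateRow]
      ring
    rw [e, Matrix.det_one_add_replicateCol_mul_replicateRow]
    have e3 : (fun j => (C (u j) : ℝ[X])) ⬝ᵥ (fun i => - (C lam * X : ℝ[X]) * C (v i)) = - (C lam * X) * C (u ⬝ᵥ v) := by
      rw [dotProduct, dotProduct, map_sum, Finset.mul_sum]
      refine Finset.sum_congr rfl fun i _ => ?_
      rw [C_mul]
      ring
    rw [e3, hd.norm, C_1]
    ring
  rw [Matrix.charpolyRev, h1, Matrix.det_mul, h2, Matrix.charpolyRev, mul_comm]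

/-- complex zeros of `det (1 - X B)` when the powers of `B` are `O(th ^ m)` -/
theorem charpolyRev_ne_zero {B : Matrix V V ℝ} {K th : ℝ} (hth : 0 < th)
    (hB : ∀ m i j, |(B ^ (m + 1)) i j| ≤ K * th ^ (m + 1)) (z : ℂ) (hz : ‖z‖ * th < 1) :
    aeval z B.charpolyRev ≠ 0 := by
  intro h0
  -- a kernel vector
  have hdet : ((1 : Matrix V V ℂ) - z • B.map (fun x : ℝ => (x : ℂ))).det = 0 := by
    rw [← h0, Matrix.charpolyRev, AlgHom.map_det]
    congr 1
    refine Matrix.ext fun i j => ?_
    rw [AlgHom.mapMatrix_apply, Matrix.map_apply, Matrix.sub_apply, Matrix.sub_apply, map_sub,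
      Matrix.smul_apply, Matrix.smul_apply, Matrix.map_apply, Matrix.map_apply, smul_eq_mul, smul_eq_mul,
      map_mul, aeval_X, aeval_C]
    congr 1
    rw [Matrix.one_apply, Matrix.one_apply]
    split_ifs <;> simp
  obtain ⟨y, hy0, hy⟩ := Matrix.exists_mulVec_eq_zero_iff.2 hdet
  set Bc : Matrix V V ℂ := B.map (fun x : ℝ => (x : ℂ)) with hBc
  have hy1 : y = z • (Bc *ᵥ y) := by
    rw [Matrix.sub_mulVec, Matrix.one_mulVec, Matrix.smul_mulVec] at hy
    exact sub_eq_zero.1 hy
  have hym : ∀ m : ℕ, y = z ^ m • (Bc ^ m *ᵥ y) := by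
    intro m
    induction m with
    | zero => simp
    | succ m ih =>
      calc y = z ^ m • (Bc ^ m *ᵥ y) := ih
        _ = z ^ m • (Bc ^ m *ᵥ (z • (Bc *ᵥ y))) := by rw [← hy1]
        _ = z ^ (m + 1) • (Bc ^ (m + 1) *ᵥ y) := by
          rw [Matrix.mulVec_smul, Matrix.mulVec_mulVec, smul_smul, ← pow_succ, ← pow_succ]
  have hBcm : ∀ m i j, ‖(Bc ^ (m + 1)) i j‖ ≤ K * th ^ (m + 1) := by
    intro m i j
    have e : Bc ^ (m + 1) = (B ^ (m + 1)).map (fun x : ℝ => (x : ℂ)) := by
      have := (Matrix.map_pow B (Complex.ofRealHom) (m + 1))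
      exact this.symm
    rw [e, Matrix.map_apply, Complex.norm_real]
    exact hB m i j
  apply hy0
  ext i
  have h1 : ∀ m : ℕ, ‖y i‖ ≤ (K * ∑ j, ‖y j‖) * (‖z‖ * th) ^ (m + 1) := by
    intro m
    have e := congrFun (hym (m + 1)) i
    calc ‖y i‖ = ‖z ^ (m + 1) * ∑ j, (Bc ^ (m + 1)) i j * y j‖ := by
          conv_lhs => rw [e]
          rfl
      _ ≤ ‖z‖ ^ (m + 1) * ∑ j, K * th ^ (m + 1) * ‖y j‖ := by
          rw [norm_mul, norm_pow]
          refine mul_le_mul_of_nonneg_left ?_ (by positivity)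
          refine (norm_sum_le _ _).trans (Finset.sum_le_sum fun j _ => ?_)
          rw [norm_mul]
          exact mul_le_mul_of_nonneg_right (hBcm m i j) (norm_nonneg _)
      _ = _ := by
          rw [← Finset.mul_sum, mul_pow]
          ring
  have h2 : Filter.Tendsto (fun m : ℕ => (K * ∑ j, ‖y j‖) * (‖z‖ * th) ^ (m + 1)) Filter.atTop (nhds 0) := by
    have := (tendsto_pow_atTop_nhds_zero_of_lt_one (r := ‖z‖ * th) (by positivity) hz).comp (Filter.tendsto_add_atTop_nat 1)
    simpa using this.const_mul (K * ∑ j, ‖y j‖)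
  have h3 : ‖y i‖ ≤ 0 := ge_of_tendsto' h2 h1
  simpa using h3

/-- the factor `f1` has no zeros in a disc larger than `|z| ≤ 1 / lam` -/
theorem Data.exists_factor {k : ℕ} (h : Prim A k) (hd : Data A lam v u) :
    ∃ (th : ℝ) (f1 : ℝ[X]), 0 < th ∧ th < lam ∧ A.charpolyRev = (1 - C lam * X) * f1 ∧ f1.coeff 0 = 1 ∧
      ∀ z : ℂ, ‖z‖ * th < 1 → aeval z f1 ≠ 0 := by
  obtain ⟨K, th, hK, hth, hthl, hb⟩ := hd.asymp h
  refine ⟨th, (defl A lam v u).charpolyRev, hth, hthl, hd.factor, ?_, ?_⟩
  · rw [Polynomial.coeff_zero_eq_eval_zero, Matrix.eval_charpolyRev]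
  · intro z hz
    refine charpolyRev_ne_zero (K := K) hth (fun m i j => ?_) z hz
    rw [hd.defl_pow]
    have := hb (m + 1) i j
    simp only [Matrix.sub_apply, Matrix.smul_apply, smul_eq_mul, vecMulVec_apply]
    rwa [mul_comm (lam ^ (m + 1))]

end

end Pool.Agent.SSE.PF
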