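import Pool.Agent.SSE.PF2
import Pool.Agent.SSE.EDefs

/-!
# SSE project (`MP_c782ad_an`): power series with a finite weighted `l_1` norm

`HasN r f : ∑ |f_n| r ^ n < ∞`, `nS r f` its value, `ev x f = ∑ f_n x ^ n`.
-/

set_option autoImplicit false
set_option linter.unusedSectionVars false

open scoped BigOperators
open PowerSeries

namespace Pool.Agent.SSE.PF

section general
variable {𝕜 : Type*} [NormedField 𝕜]

/-- the weighted `l_1` norm is finite -/
def HasN (r : ℝ) (f : 𝕜⟦X⟧) : Prop := Summable fun n => ‖coeff n f‖ * r ^ n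

/-- weighted `l_1` norm of a power series -/
noncomputable def nS (r : ℝ) (f : 𝕜⟦X⟧) : ℝ := ∑' n, ‖coeff n f‖ * r ^ n

variable {r : ℝ} {f g : 𝕜⟦X⟧}

lemma nS_nonneg (hr : 0 ≤ r) (f : 𝕜⟦X⟧) : 0 ≤ nS r f :=
  tsum_nonneg fun n => mul_nonneg (norm_nonneg _) (pow_nonneg hr n)

lemma HasN.le (hr : 0 ≤ r) (hf : HasN r f) (n : ℕ) : ‖coeff n f‖ * r ^ n ≤ nS r f :=
  hf.le_tsum n fun m _ => mul_nonneg (norm_nonneg _) (pow_nonneg hr m)

lemma HasN.add (hr : 0 ≤ r) (hf : HasN r f) (hg : HasN r g) : HasN r (f + g) := by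
  refine Summable.of_nonneg_of_le (fun n => mul_nonneg (norm_nonneg _) (pow_nonneg hr n)) (fun n => ?_)
    (Summable.add hf hg)
  rw [← add_mul, map_add]
  exact mul_le_mul_of_nonneg_right (norm_add_le _ _) (pow_nonneg hr n)

lemma nS_add_le (hr : 0 ≤ r) (hf : HasN r f) (hg : HasN r g) : nS r (f + g) ≤ nS r f + nS r g := by
  unfold nS
  rw [← Summable.tsum_add hf hg]
  refine Summable.tsum_le_tsum (fun n => ?_) (hf.add hr hg) (Summable.add hf hg)
  rw [← add_mul, map_add]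
  exact mul_le_mul_of_nonneg_right (norm_add_le _ _) (pow_nonneg hr n)

lemma HasN.neg (hf : HasN r f) : HasN r (-f) := by
  refine (summable_congr fun n => ?_).1 hf
  rw [map_neg, norm_neg]

lemma nS_neg (f : 𝕜⟦X⟧) : nS r (-f) = nS r f := by
  unfold nS
  refine tsum_congr fun n => ?_
  rw [map_neg, norm_neg]

lemma HasN.sub (hr : 0 ≤ r) (hf : HasN r f) (hg : HasN r g) : HasN r (f - g) := by
  rw [sub_eq_add_neg]
  exact hf.add hr hg.neg

lemma nS_sub_le (hr : 0 ≤ r) (hf : HasN r f) (hg : HasN r g) : nS r (f - g) ≤ nS r f + nS r g := by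
  rw [sub_eq_add_neg, ← nS_neg g]
  exact nS_add_le hr hf hg.neg

lemma coeff_mul_le (hr : 0 ≤ r) (f g : 𝕜⟦X⟧) (n : ℕ) : ‖coeff n (f * g)‖ * r ^ n ≤
    ∑ p ∈ Finset.HasAntidiagonal.antidiagonal n, (‖coeff p.1 f‖ * r ^ p.1) * (‖coeff p.2 g‖ * r ^ p.2) := by
  rw [coeff_mul]
  calc ‖∑ p ∈ Finset.HasAntidiagonal.antidiagonal n, coeff p.1 f * coeff p.2 g‖ * r ^ n
      ≤ (∑ p ∈ Finset.HasAntidiagonal.antidiagonal n, ‖coeff p.1 f * coeff p.2 g‖) * r ^ n :=
        mul_le_mul_of_nonneg_right (norm_sum_le _ _) (pow_nonneg hr n)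
    _ = _ := by
      rw [Finset.sum_mul]
      refine Finset.sum_congr rfl fun p hp => ?_
      rw [norm_mul, ← Finset.HasAntidiagonal.mem_antidiagonal.1 hp, pow_add]
      ring

lemma HasN.mul (hr : 0 ≤ r) (hf : HasN r f) (hg : HasN r g) : HasN r (f * g) := by
  have h1 : Summable fun p : ℕ × ℕ => (‖coeff p.1 f‖ * r ^ p.1) * (‖coeff p.2 g‖ * r ^ p.2) :=
    Summable.mul_of_nonneg hf hg (fun n => mul_nonneg (norm_nonneg _) (pow_nonneg hr n))
      (fun n => mul_nonneg (norm_nonneg _) (pow_nonneg hr n))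
  have h2 := summable_sum_mul_antidiagonal_of_summable_mul (f := fun n => ‖coeff n f‖ * r ^ n)
    (g := fun n => ‖coeff n g‖ * r ^ n) h1
  exact Summable.of_nonneg_of_le (fun n => mul_nonneg (norm_nonneg _) (pow_nonneg hr n))
    (fun n => coeff_mul_le hr f g n) h2

lemma nS_mul_le (hr : 0 ≤ r) (hf : HasN r f) (hg : HasN r g) : nS r (f * g) ≤ nS r f * nS r g := by
  have h1 : Summable fun p : ℕ × ℕ => (‖coeff p.1 f‖ * r ^ p.1) * (‖coeff p.2 g‖ * r ^ p.2) :=
    Summable.mul_of_nonneg hf hg (fun n => mul_nonneg (norm_nonneg _) (pow_nonneg hr n))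
      (fun n => mul_nonneg (norm_nonneg _) (pow_nonneg hr n))
  have h2 := summable_sum_mul_antidiagonal_of_summable_mul (f := fun n => ‖coeff n f‖ * r ^ n)
    (g := fun n => ‖coeff n g‖ * r ^ n) h1
  have h3 : nS r f * nS r g = ∑' n, ∑ p ∈ Finset.HasAntidiagonal.antidiagonal n,
      (‖coeff p.1 f‖ * r ^ p.1) * (‖coeff p.2 g‖ * r ^ p.2) :=
    hf.tsum_mul_tsum_eq_tsum_sum_antidiagonal hg h1
  rw [h3]
  exact Summable.tsum_le_tsum (fun n => coeff_mul_le hr f g n) (hf.mul hr hg) h2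

lemma hasN_poly (r : ℝ) (p : Polynomial 𝕜) : HasN r (p : 𝕜⟦X⟧) := by
  refine summable_of_ne_finset_zero (s := p.support) fun n hn => ?_
  rw [Polynomial.coeff_coe, Polynomial.notMem_support_iff.1 hn, norm_zero, zero_mul]

lemma nS_poly (r : ℝ) (p : Polynomial 𝕜) : nS r (p : 𝕜⟦X⟧) = ∑ n ∈ p.support, ‖p.coeff n‖ * r ^ n := by
  unfold nS
  rw [tsum_eq_sum (s := p.support) fun n hn => by
    rw [Polynomial.coeff_coe, Polynomial.notMem_support_iff.1 hn, norm_zero, zero_mul]]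
  refine Finset.sum_congr rfl fun n _ => ?_
  rw [Polynomial.coeff_coe]

lemma hasN_one (r : ℝ) : HasN r (1 : 𝕜⟦X⟧) := by
  have := hasN_poly r (1 : Polynomial 𝕜)
  simpa using this

lemma hasN_zero (r : ℝ) : HasN r (0 : 𝕜⟦X⟧) := by
  have := hasN_poly r (0 : Polynomial 𝕜)
  simpa using this

lemma nS_one (r : ℝ) : nS r (1 : 𝕜⟦X⟧) = 1 := by
  unfold nS
  rw [tsum_eq_single 0 fun n hn => by rw [coeff_one, if_neg hn, norm_zero, zero_mul]]
  simp

lemma HasN.pow (hr : 0 ≤ r) (hf : HasN r f) (m : ℕ) : HasN r (f ^ m) := by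
  induction m with
  | zero => rw [pow_zero]; exact hasN_one r
  | succ m ih => rw [pow_succ]; exact ih.mul hr hf

lemma nS_pow_le (hr : 0 ≤ r) (hf : HasN r f) (m : ℕ) : nS r (f ^ m) ≤ nS r f ^ m := by
  induction m with
  | zero => rw [pow_zero, pow_zero, nS_one]
  | succ m ih =>
    rw [pow_succ, pow_succ]
    exact (nS_mul_le hr (hf.pow hr m) hf).trans (mul_le_mul_of_nonneg_right ih (nS_nonneg hr f))

lemma hasN_sum {α : Type*} (hr : 0 ≤ r) (s : Finset α) (F : α → 𝕜⟦X⟧) (h : ∀ a ∈ s, HasN r (F a)) :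
    HasN r (∑ a ∈ s, F a) := by
  classical
  induction s using Finset.induction_on with
  | empty => rw [Finset.sum_empty]; exact hasN_zero r
  | insert a s ha ih =>
    rw [Finset.sum_insert ha]
    exact (h a (Finset.mem_insert_self a s)).add hr (ih fun b hb => h b (Finset.mem_insert_of_mem hb))

lemma hasN_prod {α : Type*} (hr : 0 ≤ r) (s : Finset α) (F : α → 𝕜⟦X⟧) (h : ∀ a ∈ s, HasN r (F a)) :
    HasN r (∏ a ∈ s, F a) := by
  classical
  induction s using Finset.induction_on with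
  | empty => rw [Finset.prod_empty]; exact hasN_one r
  | insert a s ha ih =>
    rw [Finset.prod_insert ha]
    exact (h a (Finset.mem_insert_self a s)).mul hr (ih fun b hb => h b (Finset.mem_insert_of_mem hb))

/-- monotonicity in the radius -/
lemma HasN.mono {r' : ℝ} (hr' : 0 ≤ r') (h : r' ≤ r) (hf : HasN r f) : HasN r' f :=
  Summable.of_nonneg_of_le (fun n => mul_nonneg (norm_nonneg _) (pow_nonneg hr' n))
    (fun n => mul_le_mul_of_nonneg_left (pow_le_pow_left₀ hr' h n) (norm_nonneg _)) hf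

lemma nS_mono {r' : ℝ} (hr' : 0 ≤ r') (h : r' ≤ r) (hf : HasN r f) : nS r' f ≤ nS r f :=
  Summable.tsum_le_tsum (fun n => mul_le_mul_of_nonneg_left (pow_le_pow_left₀ hr' h n) (norm_nonneg _))
    (hf.mono hr' h) hf

/-- a geometric bound on the coefficients -/
lemma hasN_of_le {s K : ℝ} (hr : 0 ≤ r) (hs : 0 ≤ s) (hrs : r * s < 1) (h : ∀ n, ‖coeff n f‖ ≤ K * s ^ n) :
    HasN r f := by
  have h1 : Summable fun n : ℕ => K * (r * s) ^ n :=
    (summable_geometric_of_lt_one (mul_nonneg hr hs) hrs).mul_left K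
  refine Summable.of_nonneg_of_le (fun n => mul_nonneg (norm_nonneg _) (pow_nonneg hr n)) (fun n => ?_) h1
  calc ‖coeff n f‖ * r ^ n ≤ K * s ^ n * r ^ n := mul_le_mul_of_nonneg_right (h n) (pow_nonneg hr n)
    _ = K * (r * s) ^ n := by rw [mul_pow]; ring

/-- domination -/
lemma HasN.of_le {𝕜' : Type*} [NormedField 𝕜'] {f' : 𝕜'⟦X⟧} (hr : 0 ≤ r) (hf : HasN r f)
    (h : ∀ n, ‖coeff n f'‖ ≤ ‖coeff n f‖) : HasN r f' :=
  Summable.of_nonneg_of_le (fun n => mul_nonneg (norm_nonneg _) (pow_nonneg hr n))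
    (fun n => mul_le_mul_of_nonneg_right (h n) (pow_nonneg hr n)) hf

lemma nS_le_of_le {𝕜' : Type*} [NormedField 𝕜'] {f' : 𝕜'⟦X⟧} (hr : 0 ≤ r) (hf : HasN r f)
    (h : ∀ n, ‖coeff n f'‖ ≤ ‖coeff n f‖) : nS r f' ≤ nS r f :=
  Summable.tsum_le_tsum (fun n => mul_le_mul_of_nonneg_right (h n) (pow_nonneg hr n)) (hf.of_le hr h) hf

/-- evaluation of a power series -/
noncomputable def ev (x : 𝕜) (f : 𝕜⟦X⟧) : 𝕜 := ∑' n, coeff n f * x ^ n

variable [CompleteSpace 𝕜]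

lemma HasN.summable_ev {x : 𝕜} (hf : HasN r f) (hx : ‖x‖ ≤ r) :
    Summable fun n => ‖coeff n f * x ^ n‖ := by
  refine Summable.of_nonneg_of_le (fun n => norm_nonneg _) (fun n => ?_) hf
  rw [norm_mul, norm_pow]
  exact mul_le_mul_of_nonneg_left (pow_le_pow_left₀ (norm_nonneg x) hx n) (norm_nonneg _)

lemma ev_mul {x : 𝕜} (hf : HasN r f) (hg : HasN r g) (hx : ‖x‖ ≤ r) : ev x (f * g) = ev x f * ev x g := by
  unfold ev
  rw [tsum_mul_tsum_eq_tsum_sum_antidiagonal_of_summable_norm (hf.summable_ev hx) (hg.summable_ev hx)]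
  refine tsum_congr fun n => ?_
  rw [coeff_mul, Finset.sum_mul]
  refine Finset.sum_congr rfl fun p hp => ?_
  rw [← Finset.HasAntidiagonal.mem_antidiagonal.1 hp, pow_add]
  ring

lemma ev_add {x : 𝕜} (hf : HasN r f) (hg : HasN r g) (hx : ‖x‖ ≤ r) : ev x (f + g) = ev x f + ev x g := by
  unfold ev
  rw [← Summable.tsum_add (hf.summable_ev hx).of_norm (hg.summable_ev hx).of_norm]
  refine tsum_congr fun n => ?_
  rw [map_add, add_mul]

lemma ev_neg {x : 𝕜} : ev x (-f) = - ev x f := by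
  unfold ev
  rw [← tsum_neg]
  refine tsum_congr fun n => ?_
  rw [map_neg, neg_mul]

lemma ev_sub {x : 𝕜} (hf : HasN r f) (hg : HasN r g) (hx : ‖x‖ ≤ r) : ev x (f - g) = ev x f - ev x g := by
  rw [sub_eq_add_neg, ev_add hf hg.neg hx, ev_neg, sub_eq_add_neg]

lemma norm_ev_le {x : 𝕜} (hf : HasN r f) (hx : ‖x‖ ≤ r) : ‖ev x f‖ ≤ nS r f := by
  refine (norm_tsum_le_tsum_norm (hf.summable_ev hx)).trans ?_
  refine Summable.tsum_le_tsum (fun n => ?_) (hf.summable_ev hx) hf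
  rw [norm_mul, norm_pow]
  exact mul_le_mul_of_nonneg_left (pow_le_pow_left₀ (norm_nonneg x) hx n) (norm_nonneg _)

lemma ev_poly (x : 𝕜) (p : Polynomial 𝕜) : ev x (p : 𝕜⟦X⟧) = p.eval x := by
  unfold ev
  rw [Polynomial.eval_eq_sum, Polynomial.sum_def, tsum_eq_sum (s := p.support) fun n hn => by
    rw [Polynomial.coeff_coe, Polynomial.notMem_support_iff.1 hn, zero_mul]]
  refine Finset.sum_congr rfl fun n _ => ?_
  rw [Polynomial.coeff_coe]

lemma ev_one (x : 𝕜) : ev x (1 : 𝕜⟦X⟧) = 1 := by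
  have := ev_poly x (1 : Polynomial 𝕜)
  simpa using this

end general

end Pool.Agent.SSE.PF
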