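import Pool.Agent.SSE.G1
import Pool.Agent.SSE.K5
import Pool.Agent.SSE.E1

/-!
# SSE project, part PairU (section 6 of `c782ad_h23_P.md`): the pair frame

`DC x U U'` says `U' = D⁻¹ U D`, `D = diag(X at x, 1 elsewhere)`. The gadget `pg` is the tail
splitting of the hub row `x`, written with the index type `Unit ⊕ (I ⊕ F)`: the hub is `inl ()`,
the tail generator `z` is `inr (inl x)`, the generators `v ≠ x` are `inr (inl v)`, the fresh
sources are `inr (inr f)`.  If `IP PB = U * IP PA` then `Fr (pg PA) univ UJ (pg PB)` with an explicit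
`UJ`, small and `= 1 mod X^(T-1)`, and elementary.
-/

set_option autoImplicit false

open scoped BigOperators
open Matrix Polynomial

namespace Pool.Agent.SSE

section DCsec

variable {I : Type} [Fintype I] [DecidableEq I]

/-- `D = diag(X at x, 1 elsewhere)` -/
noncomputable def Dx (x : I) : Matrix I I ℤ[X] := Matrix.diagonal fun i => if i = x then X else 1

/-- `U' = D⁻¹ U D` -/
def DC (x : I) (U U' : Matrix I I ℤ[X]) : Prop := Dx x * U' = U * Dx x

/-- entrywise form -/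
lemma DC_iff {x : I} {U U' : Matrix I I ℤ[X]} : DC x U U' ↔
    ∀ i j, (if i = x then X else 1) * U' i j = U i j * (if j = x then X else 1) := by
  unfold DC Dx
  rw [← Matrix.ext_iff]
  simp only [Matrix.diagonal_mul, Matrix.mul_diagonal]

lemma DC.mul {x : I} {U U' V V' : Matrix I I ℤ[X]} (h : DC x U U') (h' : DC x V V') :
    DC x (U * V) (U' * V') := by
  unfold DC at *
  rw [← Matrix.mul_assoc, h, Matrix.mul_assoc, h', Matrix.mul_assoc]

lemma DC.one (x : I) : DC x (1 : Matrix I I ℤ[X]) 1 := by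
  unfold DC
  rw [Matrix.mul_one, Matrix.one_mul]

lemma DC.inv {x : I} {U U' : SpecialLinearGroup I ℤ[X]}
    (h : DC x (U : Matrix I I ℤ[X]) U') :
    DC x ((U⁻¹ : SpecialLinearGroup I ℤ[X]) : Matrix I I ℤ[X]) (U'⁻¹ : SpecialLinearGroup I ℤ[X]) := by
  unfold DC at *
  have h1 : ((U⁻¹ : SpecialLinearGroup I ℤ[X]) : Matrix I I ℤ[X]) * (U : Matrix I I ℤ[X]) = 1 :=
    K1a_coe_inv_mul U
  have h2 : (U' : Matrix I I ℤ[X]) * ((U'⁻¹ : SpecialLinearGroup I ℤ[X]) : Matrix I I ℤ[X]) = 1 :=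
    K1a_coe_mul_inv U'
  calc Dx x * ((U'⁻¹ : SpecialLinearGroup I ℤ[X]) : Matrix I I ℤ[X])
      = (((U⁻¹ : SpecialLinearGroup I ℤ[X]) : Matrix I I ℤ[X]) * (U : Matrix I I ℤ[X])) * Dx x *
        ((U'⁻¹ : SpecialLinearGroup I ℤ[X]) : Matrix I I ℤ[X]) := by rw [h1, Matrix.one_mul]
    _ = ((U⁻¹ : SpecialLinearGroup I ℤ[X]) : Matrix I I ℤ[X]) * ((U : Matrix I I ℤ[X]) * Dx x) *
        ((U'⁻¹ : SpecialLinearGroup I ℤ[X]) : Matrix I I ℤ[X]) := by simp only [Matrix.mul_assoc]
    _ = ((U⁻¹ : SpecialLinearGroup I ℤ[X]) : Matrix I I ℤ[X]) * Dx x * ((U' : Matrix I I ℤ[X]) *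
        ((U'⁻¹ : SpecialLinearGroup I ℤ[X]) : Matrix I I ℤ[X])) := by
          rw [← h]
          simp only [Matrix.mul_assoc]
    _ = _ := by rw [h2, Matrix.mul_one]

/-- the conjugate is unique -/
lemma DC.uniq {x : I} {U U' U'' : Matrix I I ℤ[X]} (h : DC x U U') (h' : DC x U U'') :
    U' = U'' := by
  rw [DC_iff] at h h'
  ext1 i j
  have h1 : (if i = x then (X : ℤ[X]) else 1) ≠ 0 := by
    split_ifs
    · exact X_ne_zero
    · exact one_ne_zero
  exact mul_left_cancel₀ h1 ((h i j).trans (h' i j).symm)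

/-- the entries of the conjugate -/
noncomputable def dcM (x : I) (U : Matrix I I ℤ[X]) : Matrix I I ℤ[X] := fun i j =>
  if i = x then (if j = x then U i j else divX (U i j)) else (if j = x then U i j * X else U i j)

lemma X_mul_divX' {p : ℤ[X]} (h : X ∣ p) : X * divX p = p := by
  have h1 := divX_mul_X_add p
  rw [X_dvd_iff] at h
  rw [h, map_zero, add_zero] at h1
  rw [mul_comm]
  exact h1

lemma dcM_spec {x : I} {U : Matrix I I ℤ[X]} (h : ∀ j, j ≠ x → X ∣ U x j) : DC x U (dcM x U) := by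
  rw [DC_iff]
  intro i j
  unfold dcM
  by_cases hi : i = x
  · subst hi
    by_cases hj : j = i
    · subst hj
      simp only [if_true]
      ring
    · simp only [hj, if_true, if_false, mul_one]
      exact X_mul_divX' (h j hj)
  · by_cases hj : j = x
    · simp only [hi, hj, if_true, if_false, one_mul]
    · simp only [hi, hj, if_false, one_mul, mul_one]

lemma det_Dx (x : I) : (Dx x).det = X := by
  unfold Dx
  rw [Matrix.det_diagonal, Finset.prod_ite_eq']
  simp

lemma DC.det {x : I} {U U' : Matrix I I ℤ[X]} (h : DC x U U') : U'.det = U.det := by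
  have h1 := congrArg Matrix.det h
  rw [Matrix.det_mul, Matrix.det_mul, det_Dx, mul_comm U.det] at h1
  exact mul_left_cancel₀ X_ne_zero h1

/-- the conjugate in `SL` -/
lemma exists_DC {x : I} (U : SpecialLinearGroup I ℤ[X])
    (h : ∀ j, j ≠ x → X ∣ (U : Matrix I I ℤ[X]) x j) :
    ∃ U' : SpecialLinearGroup I ℤ[X], DC x (U : Matrix I I ℤ[X]) U' ∧
      (U' : Matrix I I ℤ[X]) = dcM x (U : Matrix I I ℤ[X]) := by
  have h1 := dcM_spec h
  refine ⟨⟨dcM x (U : Matrix I I ℤ[X]), ?_⟩, h1, rfl⟩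
  rw [h1.det, U.det_coe]

/-- the group generated by the `x_ij(X c)` -/
noncomputable def EX (I : Type) [Fintype I] [DecidableEq I] :
    Subgroup (SpecialLinearGroup I ℤ[X]) :=
  Subgroup.closure {g | ∃ (i j : I) (h : i ≠ j) (c : ℤ[X]), g = xx h (X * c)}

lemma xx_mem_EX {i j : I} (h : i ≠ j) (c : ℤ[X]) : xx h (X * c) ∈ EX I :=
  Subgroup.subset_closure ⟨i, j, h, c, rfl⟩

lemma xx_coe_apply {i j : I} (h : i ≠ j) (c : ℤ[X]) (k l : I) :
    ((xx h c : SpecialLinearGroup I ℤ[X]) : Matrix I I ℤ[X]) k l =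
      (1 : Matrix I I ℤ[X]) k l + if i = k ∧ j = l then c else 0 := by
  change ((1 : Matrix I I ℤ[X]) + Matrix.single i j c) k l = _
  rw [Matrix.add_apply, Matrix.single_apply]

lemma DC_xx (x : I) {i j : I} (h : i ≠ j) (c : ℤ[X]) : ∃ c' : ℤ[X],
    DC x ((xx h (X * c) : SpecialLinearGroup I ℤ[X]) : Matrix I I ℤ[X])
      (xx h c' : SpecialLinearGroup I ℤ[X]) := by
  have hone : ∀ k l : I, (if k = x then (X : ℤ[X]) else 1) * (1 : Matrix I I ℤ[X]) k l =
      (1 : Matrix I I ℤ[X]) k l * (if l = x then X else 1) := by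
    intro k l
    by_cases hkl : k = l
    · subst hkl
      rw [Matrix.one_apply_eq, mul_one, one_mul]
    · rw [Matrix.one_apply_ne hkl, mul_zero, zero_mul]
  by_cases hi : i = x
  · refine ⟨c, ?_⟩
    rw [DC_iff]
    intro k l
    rw [xx_coe_apply, xx_coe_apply, mul_add, add_mul, hone]
    congr 1
    by_cases hkl : i = k ∧ j = l
    · obtain ⟨rfl, rfl⟩ := hkl
      have hj : j ≠ x := fun hh => h (hi.trans hh.symm)
      simp only [hi, hj, if_false, and_self, if_true, mul_one]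
    · rw [if_neg hkl, if_neg hkl, mul_zero, zero_mul]
  · by_cases hj : j = x
    · refine ⟨X * c * X, ?_⟩
      rw [DC_iff]
      intro k l
      rw [xx_coe_apply, xx_coe_apply, mul_add, add_mul, hone]
      congr 1
      by_cases hkl : i = k ∧ j = l
      · obtain ⟨rfl, rfl⟩ := hkl
        simp only [hi, hj, if_false, and_self, if_true, one_mul]
      · rw [if_neg hkl, if_neg hkl, mul_zero, zero_mul]
    · refine ⟨X * c, ?_⟩
      rw [DC_iff]
      intro k l
      rw [xx_coe_apply, mul_add, add_mul, hone]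
      congr 1
      by_cases hkl : i = k ∧ j = l
      · obtain ⟨rfl, rfl⟩ := hkl
        simp only [hi, hj, if_false, and_self, if_true, one_mul, mul_one]
      · rw [if_neg hkl, mul_zero, zero_mul]

/-- conjugates of elements of `EX` are elementary -/
lemma exists_DC_EX (x : I) {V : SpecialLinearGroup I ℤ[X]} (hV : V ∈ EX I) :
    ∃ V' ∈ EG (Set.univ : Set I), DC x (V : Matrix I I ℤ[X]) (V' : SpecialLinearGroup I ℤ[X]) := by
  unfold EX at hV
  induction hV using Subgroup.closure_induction with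
  | mem g hg =>
    obtain ⟨i, j, h, c, rfl⟩ := hg
    obtain ⟨c', hc'⟩ := DC_xx x h c
    exact ⟨xx h c', xx_mem_EG h (Set.mem_univ _) (Set.mem_univ _) _, hc'⟩
  | one =>
    refine ⟨1, one_mem _, ?_⟩
    rw [Matrix.SpecialLinearGroup.coe_one]
    exact DC.one x
  | mul a b _ _ ha hb =>
    obtain ⟨a', ha1, ha2⟩ := ha
    obtain ⟨b', hb1, hb2⟩ := hb
    refine ⟨a' * b', mul_mem ha1 hb1, ?_⟩
    rw [Matrix.SpecialLinearGroup.coe_mul, Matrix.SpecialLinearGroup.coe_mul]
    exact ha2.mul hb2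
  | inv a _ ha =>
    obtain ⟨a', ha1, ha2⟩ := ha
    exact ⟨a'⁻¹, inv_mem ha1, ha2.inv⟩

/-- one `m` for all `V U0 W⁻¹` with `V, W` in `EX` -/
theorem pair_elem (x : I) (U0 : SpecialLinearGroup I ℤ[X])
    (h0 : ∀ j, j ≠ x → X ∣ (U0 : Matrix I I ℤ[X]) x j) :
    ∃ m : ℕ, ∀ (V W : SpecialLinearGroup I ℤ[X]), V ∈ EX I → W ∈ EX I →
      ∃ U' : SpecialLinearGroup I ℤ[X],
        DC x ((V * U0 * W⁻¹ : SpecialLinearGroup I ℤ[X]) : Matrix I I ℤ[X]) U' ∧
        ∀ (J' : Type) [Fintype J'] [DecidableEq J'] (f : I ↪ J'),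
          Fintype.card I + m ≤ Fintype.card J' → emb f U' ∈ EG (Set.univ : Set J') := by
  obtain ⟨U0', hU0, -⟩ := exists_DC U0 h0
  obtain ⟨m, hm⟩ := stably_elementary U0'
  refine ⟨m, fun V W hV hW => ?_⟩
  obtain ⟨V', hV1, hV2⟩ := exists_DC_EX x hV
  obtain ⟨W', hW1, hW2⟩ := exists_DC_EX x hW
  refine ⟨V' * U0' * W'⁻¹, ?_, fun J' _ _ f hJ => ?_⟩
  · rw [Matrix.SpecialLinearGroup.coe_mul, Matrix.SpecialLinearGroup.coe_mul,
      Matrix.SpecialLinearGroup.coe_mul, Matrix.SpecialLinearGroup.coe_mul]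
    exact (hV2.mul hU0).mul hW2.inv
  · rw [map_mul, map_mul, map_inv]
    have h1 : ∀ g : SpecialLinearGroup I ℤ[X], g ∈ EG (Set.univ : Set I) →
        emb f g ∈ EG (Set.univ : Set J') := by
      intro g hg
      have h2 : emb f g ∈ (EG (Set.univ : Set I)).map (emb f) := Subgroup.mem_map_of_mem _ hg
      rw [map_EG] at h2
      exact EG_mono (Set.subset_univ _) h2
    exact mul_mem (mul_mem (h1 _ hV1) (hm J' f hJ)) (inv_mem (h1 _ hW1))

end DCsec

section pairsec

variable {I F : Type} [Fintype I] [DecidableEq I] [Fintype F] [DecidableEq F]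

/-- the reindexing of the gadget: hub, (tail, other generators), fresh sources -/
noncomputable def epe (F : Type) {I : Type} [DecidableEq I] (x : I) :
    Unit ⊕ (I ⊕ F) ≃ (I ⊕ Unit) ⊕ F where
  toFun := Sum.elim (fun _ => Sum.inl (Sum.inl x))
    (Sum.elim (fun i => if i = x then Sum.inl (Sum.inr ()) else Sum.inl (Sum.inl i))
      (fun f => Sum.inr f))
  invFun := Sum.elim (Sum.elim (fun i => if i = x then Sum.inl () else Sum.inr (Sum.inl i))
      (fun _ => Sum.inr (Sum.inl x))) (fun f => Sum.inr (Sum.inr f))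
  left_inv := by
    rintro (u | i | f)
    · simp
    · by_cases h : i = x
      · simp [h]
      · simp [h]
    · simp
  right_inv := by
    rintro ((i | u) | f)
    · by_cases h : i = x
      · simp [h]
      · simp [h]
    · simp
    · simp

@[simp] lemma epe_hub (x : I) (u : Unit) : epe F x (Sum.inl u) = Sum.inl (Sum.inl x) := rfl

@[simp] lemma epe_tail (x : I) : epe F x (Sum.inr (Sum.inl x)) = Sum.inl (Sum.inr ()) := by
  change (if x = x then _ else _) = _
  rw [if_pos rfl]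

@[simp] lemma epe_src (x : I) (f : F) : epe F x (Sum.inr (Sum.inr f)) = Sum.inr f := rfl

lemma epe_ne {x i : I} (h : i ≠ x) : epe F x (Sum.inr (Sum.inl i)) = Sum.inl (Sum.inl i) := by
  change (if i = x then _ else _) = _
  rw [if_neg h]

/-- the reindexed gadget -/
noncomputable def pg (P : Matrix I I ℕ[X]) (x : I) (q : I → ℕ[X]) (k : F → ℕ) (w : I → ℕ[X]) :
    Matrix (Unit ⊕ (I ⊕ F)) (Unit ⊕ (I ⊕ F)) ℕ[X] :=
  (gad P x q k w).submatrix (epe F x) (epe F x)

lemma IP_pg (P : Matrix I I ℕ[X]) (x : I) (q : I → ℕ[X]) (k : F → ℕ) (w : I → ℕ[X])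
    (i j : Unit ⊕ (I ⊕ F)) :
    IP (pg P x q k w) i j = IP (gad P x q k w) (epe F x i) (epe F x j) := by
  classical
  rw [IP_apply, IP_apply]
  unfold pg
  rw [submatrix_apply]
  congr 1
  by_cases h : i = j
  · rw [if_pos h, if_pos (by rw [h])]
  · rw [if_neg h, if_neg fun h' => h ((epe F x).injective h')]

/-- the reindexed gadget has the class of the presentation -/
theorem pg_peqv {P : Matrix I I ℕ[X]} {x : I} {q : I → ℕ[X]} {k : F → ℕ} {w : I → ℕ[X]}
    (h : Tail P x q k w) : PEqv (pg P x q k w) P :=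
  (PEqv.reindex _ (epe F x)).symm.trans h.peqv

theorem pg_pres {P : Matrix I I ℕ[X]} {x : I} {q : I → ℕ[X]} {k : F → ℕ} {w : I → ℕ[X]}
    (h : Tail P x q k w) : IsPres (pg P x q k w) := fun _ _ => h.isPres _ _

/-- the matrix `U^J` -/
noncomputable def uj (x : I) (k : F → ℕ) (U : Matrix I I ℤ[X]) :
    Matrix (I ⊕ F) (I ⊕ F) ℤ[X] :=
  fromBlocks (dcM x U)
    (of fun i f => if i = x then divX (U x x - 1) * X ^ (k f) else U i x * X ^ (k f)) 0 1

lemma pu_coeff0 {P : Matrix I I ℕ[X]} (hP : IsPres P) (i j : I) :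
    (IP P i j).coeff 0 = (1 : Matrix I I ℤ) i j := by
  rw [IP_apply, coeff_sub, coeff_toZ, hP, Matrix.one_apply]
  split_ifs <;> simp

/-- `U = 1 mod X` -/
lemma Cg_one_of_pres {PA PB : Matrix I I ℕ[X]} (hA : IsPres PA) (hB : IsPres PB)
    {U : SpecialLinearGroup I ℤ[X]} (hU : IP PB = (U : Matrix I I ℤ[X]) * IP PA) : Cg 1 U := by
  intro i j
  rw [pow_one, X_dvd_iff, coeff_sub]
  have h1 := congrFun (congrFun hU i) j
  rw [Matrix.mul_apply] at h1
  have h2 := congrArg (fun p => p.coeff 0) h1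
  simp only [finsetSum_coeff, mul_coeff_zero, pu_coeff0 hA, pu_coeff0 hB] at h2
  rw [Finset.sum_eq_single j] at h2
  · rw [Matrix.one_apply_eq, mul_one] at h2
    rw [← h2]
    simp only [Matrix.one_apply]
    split_ifs <;> simp
  · intro b _ hb
    rw [Matrix.one_apply_ne hb, mul_zero]
  · intro h
    exact absurd (Finset.mem_univ _) h

/-- the pair frame: the fresh rows of the gadget of `PB` in terms of those of the gadget of `PA` -/
theorem pair_fr {PA PB : Matrix I I ℕ[X]} {x : I} {q : I → ℕ[X]} {k : F → ℕ} {wA wB : I → ℕ[X]}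
    (hA : Tail PA x q k wA) (hB : Tail PB x q k wB) {U : SpecialLinearGroup I ℤ[X]}
    (hU : IP PB = (U : Matrix I I ℤ[X]) * IP PA) :
    ∃ UJ : SpecialLinearGroup (I ⊕ F) ℤ[X],
      (UJ : Matrix (I ⊕ F) (I ⊕ F) ℤ[X]) = uj x k (U : Matrix I I ℤ[X]) ∧
      Fr (pg PA x q k wA) Set.univ (UJ : Matrix (I ⊕ F) (I ⊕ F) ℤ[X]) (pg PB x q k wB) := by
  have hC := Cg_one_of_pres hA.pres hB.pres hU
  have hCx : X ∣ (U : Matrix I I ℤ[X]) x x - 1 := by
    have := hC x x
    rw [pow_one, Matrix.one_apply_eq] at this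
    exact this
  have hCn : ∀ j, j ≠ x → X ∣ (U : Matrix I I ℤ[X]) x j := by
    intro j hj
    have := hC x j
    rw [pow_one, Matrix.one_apply_ne (Ne.symm hj), sub_zero] at this
    exact this
  have hdet : (uj x k (U : Matrix I I ℤ[X])).det = 1 := by
    unfold uj
    rw [Matrix.det_fromBlocks_zero₂₁, Matrix.det_one, mul_one, (dcM_spec hCn).det, U.det_coe]
  refine ⟨⟨uj x k (U : Matrix I I ℤ[X]), hdet⟩, rfl, pg_pres hB, ?_, ?_⟩
  · rintro u
    funext j
    rcases j with u' | i | f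
    · simp [pg]
    · by_cases hi : i = x
      · subst hi
        simp [pg]
      · simp [pg, epe_ne hi]
    · simp [pg]
  · -- the relations of `PB` in the relations of the gadget of `PA`
    have key : ∀ (i : I) (j : (I ⊕ Unit) ⊕ F), ext0 F (IP PB i) j =
        (U : Matrix I I ℤ[X]) i x * (IP (gad PA x q k wA) (Sum.inl (Sum.inl x)) j +
          X * IP (gad PA x q k wA) (Sum.inl (Sum.inr ())) j +
          ∑ f, X ^ (k f) * IP (gad PA x q k wA) (Sum.inr f) j) +
        ∑ l ∈ Finset.univ.erase x, (U : Matrix I I ℤ[X]) i l *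
          IP (gad PA x q k wA) (Sum.inl (Sum.inl l)) j := by
      intro i j
      have e1 : ext0 F (IP PB i) j = ∑ l, (U : Matrix I I ℤ[X]) i l * ext0 F (IP PA l) j := by
        rw [hU]
        rcases j with (j | j) | j
        · simp [ext0, Matrix.mul_apply]
        · simp [ext0]
        · simp [ext0]
      rw [e1, ← Finset.add_sum_erase Finset.univ _ (Finset.mem_univ x), hA.rel j]
      congr 1
      exact Finset.sum_congr rfl fun l hl => by rw [rel_ne (Finset.ne_of_mem_erase hl) PA q k wA j]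
    -- common rows
    have hhub : ∀ j, IP (gad PB x q k wB) (Sum.inl (Sum.inl x)) j =
        IP (gad PA x q k wA) (Sum.inl (Sum.inl x)) j := by
      intro j
      rw [IP_apply, IP_apply]
      congr 2
      rcases j with (j | j) | j <;> simp
    have hsrc : ∀ f j, IP (gad PB x q k wB) (Sum.inr f) j =
        IP (gad PA x q k wA) (Sum.inr f) j := by
      intro f j
      rw [IP_apply, IP_apply]
      congr 2
    -- sums over the fresh rows
    have hsum : ∀ (b : I ⊕ F → ℤ[X]) (j : Unit ⊕ (I ⊕ F)),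
        ∑ ψ, b ψ * IP (pg PA x q k wA) (Sum.inr ψ) j =
        b (Sum.inl x) * IP (gad PA x q k wA) (Sum.inl (Sum.inr ())) (epe F x j) +
        ∑ l ∈ Finset.univ.erase x, b (Sum.inl l) *
          IP (gad PA x q k wA) (Sum.inl (Sum.inl l)) (epe F x j) +
        ∑ f, b (Sum.inr f) * IP (gad PA x q k wA) (Sum.inr f) (epe F x j) := by
      intro b j
      rw [Fintype.sum_sum_type, ← Finset.add_sum_erase Finset.univ
        (fun l => b (Sum.inl l) * IP (pg PA x q k wA) (Sum.inr (Sum.inl l)) j) (Finset.mem_univ x)]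
      simp only [IP_pg, epe_tail, epe_src]
      congr 2
      exact Finset.sum_congr rfl fun l hl => by rw [epe_ne (Finset.ne_of_mem_erase hl)]
    rintro (i | f)
    · by_cases hi : i = x
      · subst hi
        refine ⟨fun _ => divX ((U : Matrix I I ℤ[X]) i i - 1), fun k hk => absurd (Set.mem_univ k) hk,
          fun j => ?_⟩
        rw [hsum, Fintype.sum_unique (ι := Unit), IP_pg, IP_pg, epe_tail, epe_hub]
        have hX : (X : ℤ[X]) ≠ 0 := X_ne_zero
        refine mul_left_cancel₀ hX ?_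
        have h1 := hB.rel (epe F i j)
        rw [key, hhub] at h1
        simp only [hsrc] at h1
        have h2 : X * IP (gad PB i q k wB) (Sum.inl (Sum.inr ())) (epe F i j) =
            ((U : Matrix I I ℤ[X]) i i - 1) * (IP (gad PA i q k wA) (Sum.inl (Sum.inl i)) (epe F i j) +
              ∑ f, X ^ (k f) * IP (gad PA i q k wA) (Sum.inr f) (epe F i j)) +
            X * ((U : Matrix I I ℤ[X]) i i * IP (gad PA i q k wA) (Sum.inl (Sum.inr ())) (epe F i j)) +
            ∑ l ∈ Finset.univ.erase i, (U : Matrix I I ℤ[X]) i l *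
              IP (gad PA i q k wA) (Sum.inl (Sum.inl l)) (epe F i j) := by
          linear_combination -h1
        rw [h2]
        have h3 : ∑ l ∈ Finset.univ.erase i, (U : Matrix I I ℤ[X]) i l *
              IP (gad PA i q k wA) (Sum.inl (Sum.inl l)) (epe F i j) =
            X * ∑ l ∈ Finset.univ.erase i, uj i k (U : Matrix I I ℤ[X]) (Sum.inl i) (Sum.inl l) *
              IP (gad PA i q k wA) (Sum.inl (Sum.inl l)) (epe F i j) := by
          rw [Finset.mul_sum]
          refine Finset.sum_congr rfl fun l hl => ?_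
          have hl' := Finset.ne_of_mem_erase hl
          have e : uj i k (U : Matrix I I ℤ[X]) (Sum.inl i) (Sum.inl l) =
              divX ((U : Matrix I I ℤ[X]) i l) := by
            simp [uj, dcM, hl']
          rw [e, ← mul_assoc, X_mul_divX' (hCn l hl')]
        have h4 : ((U : Matrix I I ℤ[X]) i i - 1) *
              ∑ f, X ^ (k f) * IP (gad PA i q k wA) (Sum.inr f) (epe F i j) =
            X * ∑ f, uj i k (U : Matrix I I ℤ[X]) (Sum.inl i) (Sum.inr f) *
              IP (gad PA i q k wA) (Sum.inr f) (epe F i j) := by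
          rw [Finset.mul_sum, Finset.mul_sum]
          refine Finset.sum_congr rfl fun f _ => ?_
          have e : uj i k (U : Matrix I I ℤ[X]) (Sum.inl i) (Sum.inr f) =
              divX ((U : Matrix I I ℤ[X]) i i - 1) * X ^ (k f) := by
            simp [uj]
          rw [e]
          nth_rewrite 1 [← X_mul_divX' hCx]
          ring
        have h5 : uj i k (U : Matrix I I ℤ[X]) (Sum.inl i) (Sum.inl i) =
            (U : Matrix I I ℤ[X]) i i := by
          simp [uj, dcM]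
        have h6 : ((U : Matrix I I ℤ[X]) i i - 1) *
            IP (gad PA i q k wA) (Sum.inl (Sum.inl i)) (epe F i j) =
            X * (divX ((U : Matrix I I ℤ[X]) i i - 1) *
            IP (gad PA i q k wA) (Sum.inl (Sum.inl i)) (epe F i j)) := by
          rw [← mul_assoc, X_mul_divX' hCx]
        change _ = X * (uj i k (U : Matrix I I ℤ[X]) (Sum.inl i) (Sum.inl i) * _ +
          ∑ l ∈ Finset.univ.erase i, uj i k (U : Matrix I I ℤ[X]) (Sum.inl i) (Sum.inl l) * _ +
          ∑ f, uj i k (U : Matrix I I ℤ[X]) (Sum.inl i) (Sum.inr f) * _ + _)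
        rw [mul_add, h4, h6, h3, h5]
        ring
      · refine ⟨fun _ => (U : Matrix I I ℤ[X]) i x, fun k hk => absurd (Set.mem_univ k) hk,
          fun j => ?_⟩
        rw [hsum, Fintype.sum_unique (ι := Unit), IP_pg, IP_pg, epe_ne hi, epe_hub, ← rel_ne hi PB q k wB, key]
        have h3 : ∀ l, l ≠ x → uj x k (U : Matrix I I ℤ[X]) (Sum.inl i) (Sum.inl l) =
            (U : Matrix I I ℤ[X]) i l := by
          intro l hl
          simp [uj, dcM, hi, hl]
        have h4 : ∀ f, uj x k (U : Matrix I I ℤ[X]) (Sum.inl i) (Sum.inr f) =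
            (U : Matrix I I ℤ[X]) i x * X ^ (k f) := by
          intro f
          simp [uj, hi]
        have h5 : uj x k (U : Matrix I I ℤ[X]) (Sum.inl i) (Sum.inl x) =
            (U : Matrix I I ℤ[X]) i x * X := by
          simp [uj, dcM, hi]
        change _ = uj x k (U : Matrix I I ℤ[X]) (Sum.inl i) (Sum.inl x) * _ +
          ∑ l ∈ Finset.univ.erase x, uj x k (U : Matrix I I ℤ[X]) (Sum.inl i) (Sum.inl l) * _ +
          ∑ f, uj x k (U : Matrix I I ℤ[X]) (Sum.inl i) (Sum.inr f) * _ + _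
        rw [h5]
        simp only [h4]
        have h6 : ∑ l ∈ Finset.univ.erase x, uj x k (U : Matrix I I ℤ[X]) (Sum.inl i) (Sum.inl l) *
            IP (gad PA x q k wA) (Sum.inl (Sum.inl l)) (epe F x j) =
            ∑ l ∈ Finset.univ.erase x, (U : Matrix I I ℤ[X]) i l *
            IP (gad PA x q k wA) (Sum.inl (Sum.inl l)) (epe F x j) :=
          Finset.sum_congr rfl fun l hl => by rw [h3 l (Finset.ne_of_mem_erase hl)]
        rw [h6]
        have h7 : ∑ f, (U : Matrix I I ℤ[X]) i x * X ^ (k f) *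
            IP (gad PA x q k wA) (Sum.inr f) (epe F x j) = (U : Matrix I I ℤ[X]) i x *
            ∑ f, X ^ (k f) * IP (gad PA x q k wA) (Sum.inr f) (epe F x j) := by
          rw [Finset.mul_sum]
          exact Finset.sum_congr rfl fun f _ => by ring
        rw [h7]
        ring
    · refine ⟨0, fun _ _ => rfl, fun j => ?_⟩
      rw [hsum]
      have h1 : ∀ l, uj x k (U : Matrix I I ℤ[X]) (Sum.inr f) (Sum.inl l) = 0 := fun l => rfl
      have h2 : ∀ f', uj x k (U : Matrix I I ℤ[X]) (Sum.inr f) (Sum.inr f') =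
          (1 : Matrix F F ℤ[X]) f f' := fun f' => rfl
      change _ = uj x k (U : Matrix I I ℤ[X]) (Sum.inr f) (Sum.inl x) * _ +
          ∑ l ∈ Finset.univ.erase x, uj x k (U : Matrix I I ℤ[X]) (Sum.inr f) (Sum.inl l) * _ +
          ∑ f', uj x k (U : Matrix I I ℤ[X]) (Sum.inr f) (Sum.inr f') * _ + _
      simp only [h1, h2, zero_mul, Finset.sum_const_zero, zero_add, Pi.zero_apply, add_zero]
      rw [Finset.sum_eq_single f]
      · rw [Matrix.one_apply_eq, one_mul, IP_pg, epe_src, hsrc]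
      · intro b _ hb
        rw [Matrix.one_apply_ne (Ne.symm hb), zero_mul]
      · intro h
        exact absurd (Finset.mem_univ _) h

/-- elementarity of `U^J` -/
theorem uj_mem {x : I} {k : F → ℕ} {U U' : SpecialLinearGroup I ℤ[X]}
    (hU' : DC x (U : Matrix I I ℤ[X]) U')
    (hn : ∀ j, j ≠ x → X ∣ (U : Matrix I I ℤ[X]) x j)
    (he : emb (Function.Embedding.inl : I ↪ I ⊕ F) U' ∈ EG (Set.univ : Set (I ⊕ F)))
    {UJ : SpecialLinearGroup (I ⊕ F) ℤ[X]}
    (hUJ : (UJ : Matrix (I ⊕ F) (I ⊕ F) ℤ[X]) = uj x k (U : Matrix I I ℤ[X])) :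
    UJ ∈ EG (Set.univ : Set (I ⊕ F)) := by
  set B : Matrix I F ℤ[X] := of fun i f =>
    if i = x then divX ((U : Matrix I I ℤ[X]) x x - 1) * X ^ (k f) else (U : Matrix I I ℤ[X]) i x * X ^ (k f)
    with hB
  have h1 : (U' : Matrix I I ℤ[X]) = dcM x (U : Matrix I I ℤ[X]) := hU'.uniq (dcM_spec hn)
  set N : Matrix I F ℤ[X] := ((U'⁻¹ : SpecialLinearGroup I ℤ[X]) : Matrix I I ℤ[X]) * B with hN
  have hdet : (fromBlocks (1 : Matrix I I ℤ[X]) N 0 (1 : Matrix F F ℤ[X])).det = 1 := by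
    rw [Matrix.det_fromBlocks_zero₂₁, Matrix.det_one, Matrix.det_one, mul_one]
  set V : SpecialLinearGroup (I ⊕ F) ℤ[X] := ⟨fromBlocks (1 : Matrix I I ℤ[X]) N 0 (1 : Matrix F F ℤ[X]), hdet⟩
    with hV
  have hVm : V ∈ EG (Set.univ : Set (I ⊕ F)) := block_upper_mem N rfl
  have hemb : ((emb (Function.Embedding.inl : I ↪ I ⊕ F) U' : SpecialLinearGroup (I ⊕ F) ℤ[X]) :
      Matrix (I ⊕ F) (I ⊕ F) ℤ[X]) = fromBlocks (U' : Matrix I I ℤ[X]) 0 0 1 := by
    have hr : ∀ f : F, (Sum.inr f : I ⊕ F) ∉ Set.range (Function.Embedding.inl : I ↪ I ⊕ F) := by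
      rintro f ⟨i, hi⟩
      cases hi
    ext1 a b
    rcases a with i | f
    · rcases b with j | f'
      · exact emb_apply (Function.Embedding.inl : I ↪ I ⊕ F) U' i j
      · rw [emb_apply_right _ _ (hr f'), fromBlocks_apply₁₂, Matrix.zero_apply,
          Matrix.one_apply_ne (by simp)]
    · rw [emb_apply_left _ _ (hr f)]
      rcases b with j | f'
      · rw [fromBlocks_apply₂₁, Matrix.zero_apply, Matrix.one_apply_ne (by simp)]
      · rw [fromBlocks_apply₂₂]
        by_cases h : f = f'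
        · subst h
          rw [Matrix.one_apply_eq, Matrix.one_apply_eq]
        · rw [Matrix.one_apply_ne h, Matrix.one_apply_ne (fun hh => h (Sum.inr.inj hh))]
  have e : UJ = emb (Function.Embedding.inl : I ↪ I ⊕ F) U' * V := by
    apply Subtype.ext
    change (UJ : Matrix (I ⊕ F) (I ⊕ F) ℤ[X]) =
      ((emb (Function.Embedding.inl : I ↪ I ⊕ F) U' : SpecialLinearGroup (I ⊕ F) ℤ[X]) :
      Matrix (I ⊕ F) (I ⊕ F) ℤ[X]) * fromBlocks (1 : Matrix I I ℤ[X]) N 0 (1 : Matrix F F ℤ[X])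
    rw [hemb, fromBlocks_multiply, hUJ, hN, ← Matrix.mul_assoc, K1a_coe_mul_inv, Matrix.one_mul, h1]
    simp [uj, hB]
  rw [e]
  exact mul_mem he hVm

lemma X_pow_dvd_divX {T : ℕ} {p : ℤ[X]} (h : X ^ T ∣ p) : X ^ (T - 1) ∣ divX p := by
  rw [X_pow_dvd_iff] at h ⊢
  intro d hd
  rw [coeff_divX]
  exact h _ (by omega)

/-- congruences of `U^J` -/
theorem Cg_uj {x : I} {k : F → ℕ} {U : SpecialLinearGroup I ℤ[X]} {T : ℕ} (hT : Cg T U)
    {UJ : SpecialLinearGroup (I ⊕ F) ℤ[X]}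
    (hUJ : (UJ : Matrix (I ⊕ F) (I ⊕ F) ℤ[X]) = uj x k (U : Matrix I I ℤ[X])) : Cg (T - 1) UJ := by
  have hm : (X : ℤ[X]) ^ (T - 1) ∣ X ^ T := pow_dvd_pow _ (Nat.sub_le T 1)
  have h1 : ∀ i, i ≠ x → X ^ T ∣ (U : Matrix I I ℤ[X]) i x := by
    intro i hi
    have := hT i x
    rwa [Matrix.one_apply_ne hi, sub_zero] at this
  have h2 : ∀ i, x ≠ i → X ^ T ∣ (U : Matrix I I ℤ[X]) x i := by
    intro i hi
    have := hT x i
    rwa [Matrix.one_apply_ne hi, sub_zero] at this
  have h3 : X ^ T ∣ (U : Matrix I I ℤ[X]) x x - 1 := by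
    have := hT x x
    rwa [Matrix.one_apply_eq] at this
  rintro (i | f) (j | f')
  · have e1 : (1 : Matrix (I ⊕ F) (I ⊕ F) ℤ[X]) (Sum.inl i) (Sum.inl j) = (1 : Matrix I I ℤ[X]) i j := by
      by_cases h : i = j
      · subst h
        rw [Matrix.one_apply_eq, Matrix.one_apply_eq]
      · rw [Matrix.one_apply_ne h, Matrix.one_apply_ne (fun hh => h (Sum.inl.inj hh))]
    rw [e1, hUJ]
    change X ^ (T - 1) ∣ dcM x (U : Matrix I I ℤ[X]) i j - _
    unfold dcM
    by_cases hi : i = x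
    · by_cases hj : j = x
      · rw [if_pos hi, if_pos hj]
        exact hm.trans (hT i j)
      · rw [if_pos hi, if_neg hj, Matrix.one_apply_ne (by rw [hi]; exact Ne.symm hj), sub_zero, hi]
        exact X_pow_dvd_divX (h2 j (Ne.symm hj))
    · by_cases hj : j = x
      · rw [if_neg hi, if_pos hj, Matrix.one_apply_ne (by rw [hj]; exact hi), sub_zero, hj]
        exact (hm.trans (h1 i hi)).mul_right _
      · rw [if_neg hi, if_neg hj]
        exact hm.trans (hT i j)
  · rw [hUJ, Matrix.one_apply_ne (by simp), sub_zero]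
    change X ^ (T - 1) ∣ if i = x then _ else _
    split_ifs with hi
    · exact (X_pow_dvd_divX h3).mul_right _
    · exact (hm.trans (h1 i hi)).mul_right _
  · rw [hUJ, Matrix.one_apply_ne (by simp), sub_zero]
    change X ^ (T - 1) ∣ (0 : Matrix F I ℤ[X]) f j
    rw [Matrix.zero_apply]
    exact dvd_zero _
  · have e1 : (1 : Matrix (I ⊕ F) (I ⊕ F) ℤ[X]) (Sum.inr f) (Sum.inr f') = (1 : Matrix F F ℤ[X]) f f' := by
      by_cases h : f = f'
      · subst h
        rw [Matrix.one_apply_eq, Matrix.one_apply_eq]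
      · rw [Matrix.one_apply_ne h, Matrix.one_apply_ne (fun hh => h (Sum.inr.inj hh))]
    rw [e1, hUJ]
    change X ^ (T - 1) ∣ (1 : Matrix F F ℤ[X]) f f' - _
    rw [sub_self]
    exact dvd_zero _

/-- the size of an integral element as a sum over the entries -/
lemma nz_eq_sum {K : Type} [Fintype K] [DecidableEq K] (r : ℝ) (g : SpecialLinearGroup K ℤ[X]) :
    nz r g = ∑ a, ∑ b, wn r (toR ((g : Matrix K K ℤ[X]) a b - (1 : Matrix K K ℤ[X]) a b)) := by
  unfold nz nu mn
  refine Finset.sum_congr rfl fun i _ => Finset.sum_congr rfl fun j _ => ?_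
  congr 1
  rw [map_sub]
  have e1 : (toRG g : Matrix K K ℝ[X]) i j = toR ((g : Matrix K K ℤ[X]) i j) := rfl
  rw [Matrix.sub_apply, e1]
  congr 1
  by_cases hij : i = j
  · subst hij
    rw [Matrix.one_apply_eq, Matrix.one_apply_eq, map_one]
  · rw [Matrix.one_apply_ne hij, Matrix.one_apply_ne hij, map_zero]

lemma wn_divX_le {r : ℝ} (hr : 0 < r) (p : ℤ[X]) :
    wn r (toR (divX p)) ≤ r⁻¹ * wn r (toR p) := by
  have hc : ∀ (q : ℤ[X]) n, (toR q).coeff n = (q.coeff n : ℝ) := by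
    intro q n
    simp [toR]
  have hs : ∀ (q : ℤ[X]) D, q.natDegree < D → (toR q).support ⊆ Finset.range D := by
    intro q D hD n hn
    rw [Finset.mem_range]
    by_contra h
    rw [Polynomial.mem_support_iff, hc, Polynomial.coeff_eq_zero_of_natDegree_lt (by omega)] at hn
    simp at hn
  have h1 : (divX p).natDegree < p.natDegree + 1 := by
    rw [natDegree_divX_eq_natDegree_tsub_one]
    omega
  have e0 : ∑ n ∈ Finset.range (p.natDegree + 1 + 1), |(toR p).coeff n| * r ^ n =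
      ∑ n ∈ Finset.range (p.natDegree + 1), |(toR p).coeff (n + 1)| * r ^ (n + 1) +
      |(toR p).coeff 0| * r ^ 0 := Finset.sum_range_succ' _ _
  rw [wn_eq (hs _ _ h1), wn_eq (hs p (p.natDegree + 1 + 1) (by omega)), e0,
    mul_add, Finset.mul_sum]
  have h2 : 0 ≤ r⁻¹ * (|(toR p).coeff 0| * r ^ 0) := by positivity
  refine le_trans (le_of_eq ?_) (le_add_of_nonneg_right h2)
  refine Finset.sum_congr rfl fun n _ => ?_
  rw [hc, hc, coeff_divX, pow_succ]
  have h3 : r⁻¹ * r = 1 := inv_mul_cancel₀ hr.ne'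
  calc |((p.coeff (n + 1) : ℤ) : ℝ)| * r ^ n = (r⁻¹ * r) * (|((p.coeff (n + 1) : ℤ) : ℝ)| * r ^ n) := by
        rw [h3, one_mul]
    _ = _ := by ring

lemma wn_mul_X_pow_le {r : ℝ} (hr : 0 ≤ r) (p : ℤ[X]) (n : ℕ) :
    wn r (toR (p * X ^ n)) ≤ wn r (toR p) * r ^ n := by
  rw [map_mul]
  refine (wn_mul_le hr _ _).trans ?_
  refine mul_le_mul_of_nonneg_left ?_ (wn_nonneg hr _)
  have : toR (X ^ n) = monomial n (1 : ℝ) := by
    rw [map_pow, toR, coe_mapRingHom, map_X, X_pow_eq_monomial]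
  rw [this, wn_monomial, abs_one, one_mul]

/-- the size of `U^J` -/
theorem nz_uj {x : I} {k : F → ℕ} {U : SpecialLinearGroup I ℤ[X]}
    {UJ : SpecialLinearGroup (I ⊕ F) ℤ[X]}
    (hUJ : (UJ : Matrix (I ⊕ F) (I ⊕ F) ℤ[X]) = uj x k (U : Matrix I I ℤ[X])) {r : ℝ} (hr : 0 < r) :
    nz r UJ ≤ (1 + r + r⁻¹) * (1 + ∑ f, r ^ (k f)) * nz r U := by
  set u : I → I → ℝ := fun i j => wn r (toR ((U : Matrix I I ℤ[X]) i j - (1 : Matrix I I ℤ[X]) i j))
    with hu
  have hu0 : ∀ i j, 0 ≤ u i j := fun i j => wn_nonneg hr.le _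
  have hri : 0 < r⁻¹ := inv_pos.2 hr
  have h1r : (1 : ℝ) ≤ 1 + r + r⁻¹ := by linarith
  have hnzU : nz r U = ∑ i, ∑ j, u i j := nz_eq_sum r U
  have hrow : ∀ i, u i x ≤ ∑ j, u i j := fun i =>
    Finset.single_le_sum (f := fun j => u i j) (fun j _ => hu0 i j) (Finset.mem_univ x)
  -- entries of the first block
  have hA : ∀ i j, wn r (toR (dcM x (U : Matrix I I ℤ[X]) i j - (1 : Matrix I I ℤ[X]) i j)) ≤
      (1 + r + r⁻¹) * u i j := by
    intro i j
    have h0 := hu0 i j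
    unfold dcM
    by_cases hi : i = x
    · by_cases hj : j = x
      · rw [if_pos hi, if_pos hj]
        change u i j ≤ _
        nlinarith
      · have hij : i ≠ j := by rw [hi]; exact Ne.symm hj
        rw [if_pos hi, if_neg hj, Matrix.one_apply_ne hij, sub_zero]
        have h2 := wn_divX_le hr ((U : Matrix I I ℤ[X]) i j)
        have h3 : u i j = wn r (toR ((U : Matrix I I ℤ[X]) i j)) := by
          simp only [hu]
          rw [Matrix.one_apply_ne hij, sub_zero]
        rw [← h3] at h2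
        nlinarith
    · by_cases hj : j = x
      · have hij : i ≠ j := by rw [hj]; exact hi
        rw [if_neg hi, if_pos hj, Matrix.one_apply_ne hij, sub_zero]
        have h2 := wn_mul_X_pow_le hr.le ((U : Matrix I I ℤ[X]) i j) 1
        rw [pow_one, pow_one] at h2
        have h3 : u i j = wn r (toR ((U : Matrix I I ℤ[X]) i j)) := by
          simp only [hu]
          rw [Matrix.one_apply_ne hij, sub_zero]
        rw [← h3] at h2
        nlinarith
      · rw [if_neg hi, if_neg hj]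
        change u i j ≤ _
        nlinarith
  -- entries of the second block
  have hB : ∀ i f, wn r (toR (if i = x then divX ((U : Matrix I I ℤ[X]) x x - 1) * X ^ (k f) else
      (U : Matrix I I ℤ[X]) i x * X ^ (k f))) ≤ (1 + r + r⁻¹) * r ^ (k f) * u i x := by
    intro i f
    have h0 := hu0 i x
    have hk : 0 < r ^ (k f) := by positivity
    by_cases hi : i = x
    · rw [if_pos hi]
      refine (wn_mul_X_pow_le hr.le _ _).trans ?_
      have h2 := wn_divX_le hr ((U : Matrix I I ℤ[X]) x x - 1)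
      have h3 : u i x = wn r (toR ((U : Matrix I I ℤ[X]) x x - 1)) := by
        simp only [hu]
        rw [hi, Matrix.one_apply_eq]
      rw [← h3] at h2
      have h4 : wn r (toR (divX ((U : Matrix I I ℤ[X]) x x - 1))) ≤ (1 + r + r⁻¹) * u i x := by
        nlinarith
      calc _ ≤ (1 + r + r⁻¹) * u i x * r ^ (k f) := mul_le_mul_of_nonneg_right h4 hk.le
        _ = _ := by ring
    · rw [if_neg hi]
      refine (wn_mul_X_pow_le hr.le _ _).trans ?_
      have h3 : u i x = wn r (toR ((U : Matrix I I ℤ[X]) i x)) := by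
        simp only [hu]
        rw [Matrix.one_apply_ne hi, sub_zero]
      rw [← h3]
      have h4 : u i x ≤ (1 + r + r⁻¹) * u i x := by nlinarith
      calc _ ≤ (1 + r + r⁻¹) * u i x * r ^ (k f) := mul_le_mul_of_nonneg_right h4 hk.le
        _ = _ := by ring
  rw [nz_eq_sum, Fintype.sum_sum_type]
  have e1 : ∀ i j, wn r (toR ((UJ : Matrix (I ⊕ F) (I ⊕ F) ℤ[X]) (Sum.inl i) (Sum.inl j) -
      (1 : Matrix (I ⊕ F) (I ⊕ F) ℤ[X]) (Sum.inl i) (Sum.inl j))) ≤ (1 + r + r⁻¹) * u i j := by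
    intro i j
    have e1 : (1 : Matrix (I ⊕ F) (I ⊕ F) ℤ[X]) (Sum.inl i) (Sum.inl j) = (1 : Matrix I I ℤ[X]) i j := by
      by_cases h : i = j
      · subst h
        rw [Matrix.one_apply_eq, Matrix.one_apply_eq]
      · rw [Matrix.one_apply_ne h, Matrix.one_apply_ne (fun hh => h (Sum.inl.inj hh))]
    rw [e1, hUJ]
    exact hA i j
  have e2 : ∀ i f, wn r (toR ((UJ : Matrix (I ⊕ F) (I ⊕ F) ℤ[X]) (Sum.inl i) (Sum.inr f) -
      (1 : Matrix (I ⊕ F) (I ⊕ F) ℤ[X]) (Sum.inl i) (Sum.inr f))) ≤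
      (1 + r + r⁻¹) * r ^ (k f) * u i x := by
    intro i f
    rw [Matrix.one_apply_ne (by simp), sub_zero, hUJ]
    exact hB i f
  have e3 : ∀ f, ∑ b, wn r (toR ((UJ : Matrix (I ⊕ F) (I ⊕ F) ℤ[X]) (Sum.inr f) b -
      (1 : Matrix (I ⊕ F) (I ⊕ F) ℤ[X]) (Sum.inr f) b)) = 0 := by
    intro f
    refine Finset.sum_eq_zero fun b _ => ?_
    have : (UJ : Matrix (I ⊕ F) (I ⊕ F) ℤ[X]) (Sum.inr f) b -
      (1 : Matrix (I ⊕ F) (I ⊕ F) ℤ[X]) (Sum.inr f) b = 0 := by
      rw [hUJ]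
      rcases b with j | f'
      · rw [Matrix.one_apply_ne (by simp), sub_zero]
        rfl
      · change (1 : Matrix F F ℤ[X]) f f' - _ = 0
        by_cases h : f = f'
        · subst h
          rw [Matrix.one_apply_eq, Matrix.one_apply_eq, sub_self]
        · rw [Matrix.one_apply_ne h, Matrix.one_apply_ne (fun hh => h (Sum.inr.inj hh)), sub_zero]
    rw [this, map_zero, wn_zero]
  rw [Finset.sum_congr rfl fun f _ => e3 f, Finset.sum_const_zero, add_zero, hnzU, Finset.mul_sum]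
  refine Finset.sum_le_sum fun i _ => ?_
  rw [Fintype.sum_sum_type]
  have h5 : ∑ j, wn r (toR ((UJ : Matrix (I ⊕ F) (I ⊕ F) ℤ[X]) (Sum.inl i) (Sum.inl j) -
      (1 : Matrix (I ⊕ F) (I ⊕ F) ℤ[X]) (Sum.inl i) (Sum.inl j))) ≤ (1 + r + r⁻¹) * ∑ j, u i j := by
    rw [Finset.mul_sum]
    exact Finset.sum_le_sum fun j _ => e1 i j
  have h6 : ∑ f, wn r (toR ((UJ : Matrix (I ⊕ F) (I ⊕ F) ℤ[X]) (Sum.inl i) (Sum.inr f) -
      (1 : Matrix (I ⊕ F) (I ⊕ F) ℤ[X]) (Sum.inl i) (Sum.inr f))) ≤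
      (1 + r + r⁻¹) * (∑ f, r ^ (k f)) * ∑ j, u i j := by
    calc _ ≤ ∑ f, (1 + r + r⁻¹) * r ^ (k f) * u i x := Finset.sum_le_sum fun f _ => e2 i f
      _ = (1 + r + r⁻¹) * (∑ f, r ^ (k f)) * u i x := by rw [Finset.mul_sum, Finset.sum_mul]
      _ ≤ _ := mul_le_mul_of_nonneg_left (hrow i) (by positivity)
  calc _ ≤ (1 + r + r⁻¹) * ∑ j, u i j + (1 + r + r⁻¹) * (∑ f, r ^ (k f)) * ∑ j, u i j :=
        add_le_add h5 h6
    _ = _ := by ring

/-- THE PAIR FRAME: one `m` for all `V U0 W⁻¹`, `V, W` in `EX`. -/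
theorem pair_main (x : I) (U0 : SpecialLinearGroup I ℤ[X])
    (h0 : ∀ j, j ≠ x → X ∣ (U0 : Matrix I I ℤ[X]) x j) :
    ∃ m : ℕ, ∀ (F : Type) [Fintype F] [DecidableEq F] (k : F → ℕ), m ≤ Fintype.card F →
      ∀ (V W : SpecialLinearGroup I ℤ[X]), V ∈ EX I → W ∈ EX I →
      ∀ (PA PB : Matrix I I ℕ[X]) (q wA wB : I → ℕ[X]), Tail PA x q k wA → Tail PB x q k wB →
      IP PB = ((V * U0 * W⁻¹ : SpecialLinearGroup I ℤ[X]) : Matrix I I ℤ[X]) * IP PA →
      ∃ UJ : SpecialLinearGroup (I ⊕ F) ℤ[X], UJ ∈ EG (Set.univ : Set (I ⊕ F)) ∧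
        Fr (pg PA x q k wA) Set.univ (UJ : Matrix (I ⊕ F) (I ⊕ F) ℤ[X]) (pg PB x q k wB) ∧
        (∀ T, Cg T (V * U0 * W⁻¹) → Cg (T - 1) UJ) ∧
        ∀ r : ℝ, 0 < r → nz r UJ ≤ (1 + r + r⁻¹) * (1 + ∑ f, r ^ (k f)) * nz r (V * U0 * W⁻¹) := by
  obtain ⟨m, hm⟩ := pair_elem x U0 h0
  refine ⟨m, fun F _ _ k hF V W hV hW PA PB q wA wB hA hB hU => ?_⟩
  obtain ⟨U', hU1, hU2⟩ := hm V W hV hW
  obtain ⟨UJ, hUJ, hfr⟩ := pair_fr hA hB hU
  refine ⟨UJ, ?_, hfr, fun T hT => Cg_uj hT hUJ, fun r hr => nz_uj hUJ hr⟩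
  have hC := Cg_one_of_pres hA.pres hB.pres hU
  refine uj_mem hU1 (fun j hj => ?_) (hU2 (I ⊕ F) _ ?_) hUJ
  · have := hC x j
    rw [pow_one, Matrix.one_apply_ne (Ne.symm hj), sub_zero] at this
    exact this
  · rw [Fintype.card_sum]
    omega

end pairsec

end Pool.Agent.SSE
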