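import Pool.Agent.SSE.B7

/-!
# Presentations of a fixed module on given generators
-/

set_option autoImplicit false

open scoped BigOperators
open Matrix Polynomial

namespace Pool.Agent.SSE

open Pool.Agent.helper52.SSE

attribute [local instance] Classical.propDecidable

variable {ι κ μ : Type} [Fintype ι] [Fintype κ] [Fintype μ]
variable {K : Type} [AddCommGroup K] [Module ℤ[X] K]

/-- The rows of the square matrix `M` generate the relations of the generators `g` of `K`;
the determinant is `δ`. -/
structure RelOf (δ : ℤ[X]) (g : ι → K) (M : Matrix ι ι ℤ[X]) : Prop where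
  rel : ∀ i, ∑ j, M i j • g j = 0
  span : ∀ v : ι → ℤ[X], ∑ j, v j • g j = 0 → ∃ c : ι → ℤ[X], v = c ᵥ* M
  top : ∀ z : K, ∃ v : ι → ℤ[X], z = ∑ j, v j • g j
  det : M.det = δ

/-- `P` is a presentation of `K` on the generators `g`, the determinant of `1 - P` is `δ`. -/
structure PresOf (δ : ℤ[X]) (g : ι → K) (P : Matrix ι ι ℕ[X]) : Prop where
  pres : IsPres P
  relOf : RelOf δ g (IP P)

lemma rel_vecMul {g : ι → K} {M : Matrix κ ι ℤ[X]} (h : ∀ i, ∑ j, M i j • g j = 0)
    (c : κ → ℤ[X]) : ∑ j, (c ᵥ* M) j • g j = 0 := by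
  have h1 : ∀ j, (c ᵥ* M) j • g j = ∑ i, c i • (M i j • g j) := by
    intro j
    simp only [Matrix.vecMul, dotProduct, Finset.sum_smul, mul_smul]
  simp only [h1]
  rw [Finset.sum_comm]
  refine Finset.sum_eq_zero fun i _ => ?_
  rw [← Finset.smul_sum, h i, smul_zero]

/-- Every square matrix of relations has a determinant divisible by `δ`. -/
theorem RelOf.dvd {δ : ℤ[X]} {g0 : κ → K} {M0 : Matrix κ κ ℤ[X]} (h : RelOf δ g0 M0)
    {g : ι → K} (htop : ∀ z : K, ∃ v : ι → ℤ[X], z = ∑ j, v j • g j) (M : Matrix ι ι ℤ[X])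
    (hM : ∀ i, ∑ j, M i j • g j = 0) : δ ∣ M.det := by
  choose H hH using fun j => htop (g0 j)
  choose G hG using fun i => h.top (g i)
  have hspan : ∀ (v : ι → ℤ[X]) (w : κ → ℤ[X]), (∑ j, v j • g j) + ∑ j, w j • g0 j = 0 →
      ∃ c : κ → ℤ[X], w = c ᵥ* M0 - v ᵥ* (of G) := by
    intro v w hvw
    have h1 : ∑ j, ((v ᵥ* (of G) : κ → ℤ[X]) + w) j • g0 j = 0 := by
      simp only [Pi.add_apply, add_smul, Finset.sum_add_distrib]
      rw [← hvw]
      congr 1
      simp only [Matrix.vecMul, dotProduct, Finset.sum_smul, mul_smul, of_apply]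
      rw [Finset.sum_comm]
      refine Finset.sum_congr rfl fun i _ => ?_
      rw [← Finset.smul_sum, ← hG i]
    obtain ⟨c, hc⟩ := h.span _ h1
    exact ⟨c, by rw [← hc]; abel⟩
  -- the large matrices
  have h2 : ∀ i, (∑ j, M i j • g j) + ∑ j, (0 : κ → ℤ[X]) j • g0 j = 0 := by
    intro i
    simp [hM i]
  choose C1 hC1 using fun i => hspan (M i) 0 (h2 i)
  have h3 : ∀ k, (∑ j, (-H k : ι → ℤ[X]) j • g j) + ∑ j, (Pi.single k 1 : κ → ℤ[X]) j • g0 j = 0 := by
    intro k
    have h4 : ∑ j, (Pi.single k 1 : κ → ℤ[X]) j • g0 j = g0 k := by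
      rw [Finset.sum_eq_single k]
      · simp
      · intro b _ hb
        simp [Pi.single_eq_of_ne hb]
      · simp
    rw [h4]
    conv_lhs => rw [hH k]
    simp [Finset.sum_neg_distrib]
  choose C2 hC2 using fun k => hspan (-H k) (Pi.single k 1) (h3 k)
  have h5 : (fromBlocks M 0 (-(of H)) 1 : Matrix (ι ⊕ κ) (ι ⊕ κ) ℤ[X]) =
      fromBlocks M (of C1) (-(of H)) (of C2) *
        (fromBlocks 1 (-(of G)) 0 M0 : Matrix (ι ⊕ κ) (ι ⊕ κ) ℤ[X]) := by
    rw [fromBlocks_multiply]
    simp only [Matrix.mul_one, Matrix.mul_zero, add_zero]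
    congr 1
    · ext i j : 2
      have := congrFun (hC1 i) j
      simp only [Matrix.add_apply, Matrix.mul_neg, Matrix.neg_apply, Matrix.zero_apply,
        Matrix.mul_apply, of_apply]
      simp only [Matrix.vecMul, dotProduct, Pi.sub_apply, Pi.zero_apply, of_apply] at this
      rw [this]
      ring
    · ext i j : 2
      have := congrFun (hC2 i) j
      simp only [Matrix.add_apply, Matrix.mul_neg, Matrix.neg_apply, Matrix.one_apply,
        Matrix.mul_apply, of_apply]
      simp only [Matrix.vecMul, dotProduct, Pi.sub_apply, Pi.single_apply, of_apply, Pi.neg_apply]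
        at this
      rw [eq_comm] at this
      have h6 : (if i = j then (1 : ℤ[X]) else 0) = if j = i then 1 else 0 := by
        simp only [eq_comm]
      rw [h6, ← this]
      simp only [neg_mul, Finset.sum_neg_distrib, Matrix.neg_apply, of_apply]
      ring
  have h7 := congrArg Matrix.det h5
  rw [det_mul, det_fromBlocks_zero₁₂, det_fromBlocks_zero₂₁, det_one, det_one, mul_one, one_mul,
    h.det] at h7
  rw [h7]
  exact dvd_mul_left _ _

/-- A square matrix of relations with determinant `δ` generates the relations. -/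
theorem RelOf.of_det {δ : ℤ[X]} (hδ : δ ≠ 0) {g0 : κ → K} {M0 : Matrix κ κ ℤ[X]}
    (h : RelOf δ g0 M0) {g : ι → K} (htop : ∀ z : K, ∃ v : ι → ℤ[X], z = ∑ j, v j • g j)
    (M : Matrix ι ι ℤ[X]) (hM : ∀ i, ∑ j, M i j • g j = 0) (hdet : M.det = δ) : RelOf δ g M := by
  refine ⟨hM, fun v hv => ?_, htop, hdet⟩
  have h1 : ∀ i, ∃ q, (M.updateRow i v).det = δ * q := by
    intro i
    refine h.dvd htop _ fun l => ?_
    by_cases hl : l = i
    · subst hl
      simpa using hv
    · simpa [Matrix.updateRow_ne hl] using hM l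
  choose q hq using h1
  refine ⟨q, ?_⟩
  have h2 := Matrix.mulVec_cramer Mᵀ v
  have h3 : cramer Mᵀ v = δ • q := by
    ext1 i
    rw [Matrix.cramer_transpose_apply, hq i]
    rfl
  rw [h3, det_transpose, hdet, mulVec_smul, mulVec_transpose] at h2
  have h4 : δ • (q ᵥ* M) = δ • v := h2
  exact (smul_right_injective _ hδ h4).symm

theorem RelOf.unique {δ : ℤ[X]} (hδ : δ ≠ 0) {g : ι → K} {M N : Matrix ι ι ℤ[X]}
    (h : RelOf δ g M) (h' : RelOf δ g N) :
    ∃ U V : Matrix ι ι ℤ[X], N = U * M ∧ M = V * N ∧ U * V = 1 ∧ V * U = 1 ∧ U.det = 1 := by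
  choose U hU using fun i => h.span (N i) (h'.rel i)
  choose V hV using fun i => h'.span (M i) (h.rel i)
  have h1 : N = of U * M := Matrix.ext fun i j => congrFun (hU i) j
  have h2 : M = of V * N := Matrix.ext fun i j => congrFun (hV i) j
  have hdet : (of U).det = 1 := by
    have h3 := congrArg Matrix.det h1
    rw [det_mul, h.det, h'.det] at h3
    have h4 : (1 - (of U).det) * δ = 0 := by linear_combination h3
    rcases mul_eq_zero.1 h4 with h5 | h5
    · linear_combination -h5
    · exact absurd h5 hδ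
  have hcancel : ∀ Y : Matrix ι ι ℤ[X], Y * M = M → Y = 1 := by
    intro Y hY
    have h3 : (Y - 1) * M = 0 := by rw [Matrix.sub_mul, hY, Matrix.one_mul, sub_self]
    have h4 : (Y - 1) * M * M.adjugate = 0 := by rw [h3, Matrix.zero_mul]
    rw [Matrix.mul_assoc, mul_adjugate, h.det, Matrix.mul_smul, Matrix.mul_one] at h4
    have h5 : Y - 1 = 0 := (smul_eq_zero.1 h4).resolve_left hδ
    exact sub_eq_zero.1 h5
  have h6 : of V * of U = 1 := hcancel _ (by rw [Matrix.mul_assoc, ← h1, ← h2])
  exact ⟨of U, of V, h1, h2, mul_eq_one_comm.1 h6, h6, hdet⟩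

namespace PresOf

variable {δ : ℤ[X]} {g : ι → K} {P P' : Matrix ι ι ℕ[X]}

theorem det_IP (h : PresOf δ g P) : (IP P).det = δ := h.relOf.det

/-- the constant coefficient of the determinant -/
theorem coeff_zero (h : PresOf δ g P) : δ.coeff 0 = 1 := by
  rw [← h.det_IP, coeff_zero_eq_eval_zero, ← coe_evalRingHom, RingHom.map_det]
  have h1 : (evalRingHom (0 : ℤ)).mapMatrix (IP P) = 1 := by
    ext i j
    have h2 := h.pres i j
    rw [coeff_zero_eq_eval_zero] at h2
    simp only [RingHom.mapMatrix_apply, Matrix.map_apply, IP, coe_evalRingHom, eval_sub, toZ]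
    rw [Matrix.one_apply]
    have h3 : eval 0 ((P i j).map (Nat.castRingHom ℤ)) = 0 := by
      rw [← coeff_zero_eq_eval_zero, coeff_map, h.pres i j]
      simp
    rw [h3]
    split_ifs <;> simp
  rw [h1, det_one]

theorem ne_zero (h : PresOf δ g P) : δ ≠ 0 := by
  intro h0
  have := h.coeff_zero
  rw [h0] at this
  simp at this

/-- a presentation is given by its rows being relations and the determinant -/
theorem of_det {g0 : κ → K} {P0 : Matrix κ κ ℕ[X]} (h : PresOf δ g0 P0) (hP : IsPres P)
    (htop : ∀ z : K, ∃ v : ι → ℤ[X], z = ∑ j, v j • g j)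
    (hrel : ∀ i, ∑ j, IP P i j • g j = 0) (hdet : (IP P).det = δ) : PresOf δ g P :=
  ⟨hP, h.relOf.of_det h.ne_zero htop _ hrel hdet⟩

/-- Two presentations of the same module on the same generators. -/
theorem unique (h : PresOf δ g P) (h' : PresOf δ g P') :
    ∃ U V : Matrix ι ι ℤ[X], IP P' = U * IP P ∧ IP P = V * IP P' ∧ U * V = 1 ∧ V * U = 1 ∧
      U.det = 1 := h.relOf.unique h.ne_zero h'.relOf

/-- The one-row lemma. -/
theorem one_row (h : PresOf δ g P) (hP' : IsPres P') (i : ι) (hrow : ∀ l, l ≠ i → P' l = P l)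
    (hrel : ∑ j, IP P' i j • g j = 0) (hdet : (IP P').det = δ) : PEqv P P' ∧ PresOf δ g P' := by
  have hrow' : ∀ l, l ≠ i → IP P' l = IP P l := by
    intro l hl
    funext j
    unfold IP
    rw [hrow l hl]
  have h1 : PresOf δ g P' := h.of_det hP' h.relOf.top (fun l => by
    by_cases hl : l = i
    · rw [hl]; exact hrel
    · rw [hrow' l hl]; exact h.relOf.rel l) hdet
  refine ⟨?_, h1⟩
  obtain ⟨c, hc⟩ := h.relOf.span _ hrel
  have h2 : IP P' = (IP P).updateRow i (∑ l, c l • IP P l) := by
    ext l j : 2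
    by_cases hl : l = i
    · subst hl
      rw [Matrix.updateRow_self, congrFun hc j]
      simp [Matrix.vecMul, dotProduct]
    · rw [Matrix.updateRow_ne hl, hrow' l hl]
  have h3 : c i = 1 := by
    have h4 := congrArg Matrix.det h2
    rw [det_updateRow_sum, hdet, h.det_IP, smul_eq_mul] at h4
    have h5 : (c i - 1) * δ = 0 := by linear_combination -h4
    rcases mul_eq_zero.1 h5 with h6 | h6
    · linear_combination h6
    · exact absurd h6 h.ne_zero
  refine Pool.Agent.SSE.one_row h.pres hP' i (fun l hl => (hrow l hl).symm)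
    (fun l => if l = i then 0 else c l) (by simp) fun j => ?_
  rw [congrFun hc j]
  simp only [Matrix.vecMul, dotProduct]
  have h4 : ∀ l, (if l = i then (0 : ℤ[X]) else c l) * IP P l j =
      c l * IP P l j - if l = i then IP P i j else 0 := by
    intro l
    by_cases hl : l = i
    · subst hl
      simp [h3]
    · simp [hl]
  simp only [h4, Finset.sum_sub_distrib]
  simp

/-- Expansion: the row `i` changes by a combination of the other rows. -/
theorem add_rows (h : PresOf δ g P) (hP' : IsPres P') (i : ι) (hrow : ∀ l, l ≠ i → P' l = P l)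
    (c : ι → ℤ[X]) (hc : c i = 0) (hi : ∀ j, IP P' i j = IP P i j + ∑ l, c l * IP P l j) :
    PEqv P P' ∧ PresOf δ g P' := by
  have h2 : IP P' = (IP P).updateRow i (IP P i + ∑ l, c l • IP P l) := by
    ext l j : 2
    by_cases hl : l = i
    · subst hl
      rw [Matrix.updateRow_self, hi j]
      simp
    · rw [Matrix.updateRow_ne hl]
      unfold IP
      rw [hrow l hl]
  refine h.one_row hP' i hrow ?_ ?_
  · have h3 : ∀ j, IP P' i j • g j = IP P i j • g j + (c ᵥ* IP P) j • g j := by
      intro j
      rw [hi j, add_smul]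
      rfl
    simp only [h3, Finset.sum_add_distrib]
    rw [h.relOf.rel i, rel_vecMul h.relOf.rel, add_zero]
  · rw [h2, det_updateRow_add, det_updateRow_sum, hc, zero_smul, add_zero]
    rw [Matrix.updateRow_eq_self, h.det_IP]

theorem top_elim (h : PresOf δ g P) (g' : κ → K) (z : K) :
    ∃ v : ι ⊕ κ → ℤ[X], z = ∑ j, v j • (Sum.elim g g' : ι ⊕ κ → K) j := by
  obtain ⟨v, hv⟩ := h.relOf.top z
  refine ⟨Sum.elim v 0, ?_⟩
  rw [Fintype.sum_sum_type]
  simpa using hv

/-- adding sources -/
theorem sources (h : PresOf δ g P) (W : Matrix κ ι ℕ[X]) (hW : ∀ k j, (W k j).coeff 0 = 0) :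
    PEqv P (fromBlocks P 0 W 0 : Matrix (ι ⊕ κ) (ι ⊕ κ) ℕ[X]) ∧
    PresOf δ (Sum.elim g fun k => ∑ j, toZ (W k j) • g j)
      (fromBlocks P 0 W 0 : Matrix (ι ⊕ κ) (ι ⊕ κ) ℕ[X]) := by
  refine ⟨(Pool.Agent.SSE.sources P W).symm, h.of_det ?_ (h.top_elim _) ?_ ?_⟩
  · rintro (i | i) (j | j)
    · exact h.pres i j
    · simp
    · exact hW i j
    · simp
  · rintro (i | i)
    · rw [Fintype.sum_sum_type]
      have h1 : ∀ k : κ, IP (fromBlocks P 0 W 0 : Matrix (ι ⊕ κ) (ι ⊕ κ) ℕ[X]) (Sum.inl i)
          (Sum.inr k) = 0 := by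
        intro k
        simp [IP]
      have h2 : ∀ j : ι, IP (fromBlocks P 0 W 0 : Matrix (ι ⊕ κ) (ι ⊕ κ) ℕ[X]) (Sum.inl i)
          (Sum.inl j) = IP P i j := by
        intro j
        simp [IP]
      simp only [h1, h2, zero_smul, Finset.sum_const_zero, add_zero, Sum.elim_inl]
      exact h.relOf.rel i
    · rw [Fintype.sum_sum_type]
      have h1 : ∀ k : κ, IP (fromBlocks P 0 W 0 : Matrix (ι ⊕ κ) (ι ⊕ κ) ℕ[X]) (Sum.inr i)
          (Sum.inr k) = if k = i then 1 else 0 := by
        intro k
        simp only [IP, fromBlocks_apply₂₂, Matrix.zero_apply, Sum.inr.injEq, Polynomial.map_zero,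
          sub_zero, eq_comm]
      have h2 : ∀ j : ι, IP (fromBlocks P 0 W 0 : Matrix (ι ⊕ κ) (ι ⊕ κ) ℕ[X]) (Sum.inr i)
          (Sum.inl j) = - toZ (W i j) := by
        intro j
        simp [IP]
      simp only [h1, h2, Sum.elim_inl, Sum.elim_inr, neg_smul, Finset.sum_neg_distrib, ite_smul,
        one_smul, zero_smul, Finset.sum_ite_eq', Finset.mem_univ, if_true]
      abel
  · have h1 : IP (fromBlocks P 0 W 0 : Matrix (ι ⊕ κ) (ι ⊕ κ) ℕ[X]) =
        fromBlocks (IP P) 0 (-(W.map toZ)) 1 := by
      ext (i | i) (j | j) : 2 <;> simp [IP, Matrix.one_apply]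
    rw [h1]
    have h2 : (fromBlocks (IP P) 0 (-(W.map toZ)) 1 : Matrix (ι ⊕ κ) (ι ⊕ κ) ℤ[X]).det = δ := by
      rw [det_fromBlocks_zero₁₂, det_one, mul_one, h.det_IP]
    exact cast (by congr) h2

/-- isolating a loop -/
theorem isolate (h : PresOf δ g P) (x : ι) (s : ℕ[X]) (r : ι → ℕ[X])
    (hs : s.coeff 0 = 0) (hr : ∀ j, (r j).coeff 0 = 0)
    (hx : ∀ j, P x j = r j + if j = x then s else 0) :
    PEqv P (iso P x s r) ∧ PresOf δ (Sum.elim g fun _ => toZ s.divX • g x) (iso P x s r) := by
  have hrel := h.relOf.rel x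
  have h1 : ∀ j, IP P x j • g j = (if x = j then g j else 0) - toZ (r j) • g j
      - if x = j then toZ s • g j else 0 := by
    intro j
    unfold IP
    rw [hx j]
    by_cases hj : x = j
    · subst hj
      simp only [if_true, toZ, Polynomial.map_add, sub_smul, add_smul, one_smul]
      abel
    · have hj' : ¬ j = x := fun h => hj h.symm
      simp [hj, hj', toZ, sub_smul]
  simp only [h1, Finset.sum_sub_distrib, Finset.sum_ite_eq, Finset.mem_univ, if_true] at hrel
  have hsX : toZ s = X * toZ s.divX := by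
    conv_lhs => rw [← divX_mul_X_add s, hs]
    simp [toZ, mul_comm]
  have hIs : IsPres (iso P x s r) := by
    rintro (i | i) (j | j)
    · simp only [iso, fromBlocks_apply₁₁, setRow]
      split_ifs
      · exact hr j
      · exact h.pres i j
    · simp only [iso, fromBlocks_apply₁₂, of_apply]
      split_ifs <;> simp
    · simp [iso, hr j, mul_coeff_zero]
    · simp [iso, hs]
  refine ⟨Pool.Agent.SSE.isolate h.pres x s r hs hr hx, h.of_det hIs (h.top_elim _) ?_ ?_⟩
  · rintro (i | i)
    · rw [Fintype.sum_sum_type]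
      by_cases hi : i = x
      · subst hi
        have e1 : ∀ j, IP (iso P i s r) (Sum.inl i) (Sum.inl j) • (Sum.elim g
            (fun _ => toZ s.divX • g i) : ι ⊕ Unit → K) (Sum.inl j) =
            (if i = j then g j else 0) - toZ (r j) • g j := by
          intro j
          by_cases hj : i = j
          · subst hj
            simp [IP, iso, setRow, sub_smul]
          · simp [IP, iso, setRow, sub_smul, hj]
        simp only [e1, Finset.sum_sub_distrib, Finset.sum_ite_eq, Finset.mem_univ, if_true]
        have e2 : IP (iso P i s r) (Sum.inl i) (Sum.inr ()) = - X := by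
          simp [IP, iso]
        simp only [Finset.univ_unique, PUnit.default_eq_unit, Finset.sum_singleton, e2,
          Sum.elim_inr]
        rw [neg_smul, ← mul_smul, ← hsX]
        rw [← hrel]
        abel
      · have e1 : ∀ j, IP (iso P x s r) (Sum.inl i) (Sum.inl j) = IP P i j := by
          intro j
          simp [IP, iso, setRow, hi]
        have e2 : IP (iso P x s r) (Sum.inl i) (Sum.inr ()) = 0 := by
          simp [IP, iso, hi]
        simp only [e1, Finset.univ_unique, PUnit.default_eq_unit, Finset.sum_singleton, e2,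
          Sum.elim_inr, Sum.elim_inl, zero_smul, add_zero]
        exact h.relOf.rel i
    · rw [Fintype.sum_sum_type]
      have e1 : ∀ j, IP (iso P x s r) (Sum.inr i) (Sum.inl j) • (Sum.elim g
          (fun _ => toZ s.divX • g x) : ι ⊕ Unit → K) (Sum.inl j) =
          - (toZ s.divX • (toZ (r j) • g j)) := by
        intro j
        simp [IP, iso, toZ, mul_smul]
      have e2 : IP (iso P x s r) (Sum.inr i) (Sum.inr ()) = 1 - toZ s := by
        simp [IP, iso]
      simp only [e1, Finset.sum_neg_distrib, ← Finset.smul_sum, Finset.univ_unique,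
        PUnit.default_eq_unit, Finset.sum_singleton, e2, Sum.elim_inr]
      have e3 : (∑ j, toZ (r j) • g j) = g x - toZ s • g x := by
        rw [← sub_eq_zero, ← neg_eq_zero, ← hrel]
        abel
      rw [e3, smul_sub, sub_smul, one_smul, ← mul_smul, ← mul_smul, mul_comm (toZ s)]
      abel
  · have h2 : IP (iso P x s r) = transvection (Sum.inr ()) (Sum.inl x) (toZ s.divX) *
        (transvection (Sum.inl x) (Sum.inr ()) (-X) *
          (fromBlocks (IP P) 0 (of fun _ j => if j = x then - toZ s.divX else 0) 1 :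
            Matrix (ι ⊕ Unit) (ι ⊕ Unit) ℤ[X])) := by
      ext a b : 2
      rcases a with a | a
      · rw [transvection_mul_apply_of_ne _ _ _ _ (by simp)]
        by_cases ha : a = x
        · subst ha
          rw [transvection_mul_apply_same]
          rcases b with b | b
          · simp only [IP, iso, fromBlocks_apply₁₁, fromBlocks_apply₂₁, of_apply, setRow, if_true,
              Sum.inl.injEq]
            rw [hx b]
            by_cases hb : b = a
            · subst hb
              simp only [if_true, toZ, Polynomial.map_add] at hsX ⊢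
              rw [hsX]
              ring
            · have hb' : ¬ a = b := fun h => hb h.symm
              simp [hb, hb', toZ]
          · simp [IP, iso]
        · rw [transvection_mul_apply_of_ne _ _ _ _ (by simpa using ha)]
          rcases b with b | b
          · simp [IP, iso, setRow, ha]
          · simp [IP, iso, ha]
      · obtain rfl : a = () := rfl
        rw [transvection_mul_apply_same, transvection_mul_apply_of_ne _ _ _ _ (by simp),
          transvection_mul_apply_same]
        rcases b with b | b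
        · simp only [IP, iso, fromBlocks_apply₁₁, fromBlocks_apply₂₁, of_apply, if_true,
            reduceCtorEq, if_false]
          rw [hx b]
          by_cases hb : b = x
          · subst hb
            simp only [if_true, toZ, Polynomial.map_add, Polynomial.map_mul] at hsX ⊢
            rw [hsX]
            ring
          · have hb' : ¬ x = b := fun h => hb h.symm
            simp [hb, hb', toZ]
        · simp only [IP, iso, fromBlocks_apply₂₂, fromBlocks_apply₁₂, of_apply, if_true,
            Matrix.zero_apply, Matrix.one_apply_eq]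
          rw [hsX]
          ring
    have h3 : (fromBlocks (IP P) 0 (of fun _ j => if j = x then - toZ s.divX else 0) 1 :
            Matrix (ι ⊕ Unit) (ι ⊕ Unit) ℤ[X]).det = δ := by
      rw [det_fromBlocks_zero₁₂, det_one, mul_one, h.det_IP]
    have h4 : (IP (iso P x s r)).det = δ := by
      rw [h2, det_mul, det_mul, det_transvection_of_ne _ _ (by simp),
        det_transvection_of_ne _ _ (by simp), one_mul, one_mul, h3]
    exact cast (by congr) h4

theorem reindex (h : PresOf δ g P) (e : κ ≃ ι) :
    PEqv P (P.submatrix e e) ∧ PresOf δ (g ∘ e) (P.submatrix e e) := by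
  refine ⟨PEqv.reindex P e, h.of_det (fun i j => h.pres _ _) ?_ ?_ ?_⟩
  · intro z
    obtain ⟨v, hv⟩ := h.relOf.top z
    refine ⟨v ∘ e, ?_⟩
    rw [hv]
    exact (Equiv.sum_comp e fun j => v j • g j).symm
  · intro i
    have h1 := h.relOf.rel (e i)
    rw [← Equiv.sum_comp e] at h1
    rw [← h1]
    refine Finset.sum_congr rfl fun j _ => ?_
    simp [IP, e.injective.eq_iff]
  · have h1 : IP (P.submatrix e e) = (IP P).submatrix e e := by
      ext i j : 2
      simp [IP, e.injective.eq_iff]
    rw [h1, det_submatrix_equiv_self, h.det_IP]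

end PresOf

end Pool.Agent.SSE
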