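import Pool.Agent.SSE.PX
import Pool.Agent.SSE.PairU
import Pool.Agent.SSE.PF3

/-!
# Values, truncations and agreement of polynomials and series over `ℕ`
-/

set_option autoImplicit false

open scoped BigOperators
open Matrix Polynomial

namespace Pool.Agent.SSE

open Pool.Agent.helper52.SSE

attribute [local instance] Classical.propDecidable

/-- the value at `r` -/
noncomputable def nv (r : ℝ) : ℕ[X] →+* ℝ := Polynomial.eval₂RingHom (Nat.castRingHom ℝ) r

lemma nv_apply (r : ℝ) (p : ℕ[X]) : nv r p = ∑ k ∈ p.support, (p.coeff k : ℝ) * r ^ k := by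
  simp [nv, Polynomial.eval₂_eq_sum, Polynomial.sum]

lemma nv_range {r : ℝ} {p : ℕ[X]} {N : ℕ} (h : ∀ n, N ≤ n → p.coeff n = 0) :
    nv r p = ∑ k ∈ Finset.range N, (p.coeff k : ℝ) * r ^ k := by
  rw [nv_apply]
  refine Finset.sum_subset (fun k hk => ?_) fun k _ hk => ?_
  · rw [Finset.mem_range]
    by_contra hkN
    exact (mem_support_iff.1 hk) (h k (not_lt.1 hkN))
  · rw [notMem_support_iff.1 hk, Nat.cast_zero, zero_mul]

lemma wn_eq_nv (r : ℝ) (p : ℕ[X]) : wn r (toR (toZ p)) = nv r p := by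
  rw [nv_apply]
  unfold wn toR toZ
  have h1 : ∀ k, ((Polynomial.mapRingHom (Int.castRingHom ℝ)) (p.map (Nat.castRingHom ℤ))).coeff k
      = (p.coeff k : ℝ) := by
    intro k
    simp
  have h2 : ((Polynomial.mapRingHom (Int.castRingHom ℝ)) (p.map (Nat.castRingHom ℤ))).support
      = p.support := by
    ext k
    rw [mem_support_iff, mem_support_iff, h1]
    simp
  rw [h2]
  refine Finset.sum_congr rfl fun k _ => ?_
  rw [h1, abs_of_nonneg (Nat.cast_nonneg _)]

lemma nv_nonneg {r : ℝ} (hr : 0 ≤ r) (p : ℕ[X]) : 0 ≤ nv r p := by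
  rw [nv_apply]
  exact Finset.sum_nonneg fun k _ => mul_nonneg (Nat.cast_nonneg _) (pow_nonneg hr _)

lemma exists_add_of_coeff_le {p p' : ℕ[X]} (h : ∀ n, p.coeff n ≤ p'.coeff n) :
    ∃ d, p' = p + d := by
  refine ⟨∑ n ∈ Finset.range (p'.natDegree + 1), monomial n (p'.coeff n - p.coeff n), ?_⟩
  ext n
  rw [coeff_add, finsetSum_coeff]
  simp only [coeff_monomial]
  by_cases hn : n < p'.natDegree + 1
  · rw [Finset.sum_eq_single n]
    · rw [if_pos rfl]
      have := h n
      omega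
    · intro b _ hb
      rw [if_neg hb]
    · intro hn'
      exact absurd (Finset.mem_range.2 hn) hn'
  · rw [Finset.sum_eq_zero]
    · have h1 : p'.coeff n = 0 := coeff_eq_zero_of_natDegree_lt (by omega)
      have := h n
      omega
    · intro b hb
      rw [if_neg]
      intro hbn
      rw [Finset.mem_range] at hb
      omega

lemma nv_mono {r : ℝ} (hr : 0 ≤ r) {p p' : ℕ[X]} (h : ∀ n, p.coeff n ≤ p'.coeff n) :
    nv r p ≤ nv r p' := by
  obtain ⟨d, rfl⟩ := exists_add_of_coeff_le h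
  rw [map_add]
  have := nv_nonneg hr d
  linarith

lemma nv_mono_r {r r' : ℝ} (hr : 0 ≤ r) (hrr : r ≤ r') (p : ℕ[X]) : nv r p ≤ nv r' p := by
  rw [nv_apply, nv_apply]
  exact Finset.sum_le_sum fun k _ =>
    mul_le_mul_of_nonneg_left (pow_le_pow_left₀ hr hrr k) (Nat.cast_nonneg _)

lemma nv_X (r : ℝ) : nv r X = r := by
  simp [nv]

/-- the polynomial `p` and the series `f` agree below `T` -/
def Ag (T : ℕ) (p : ℕ[X]) (f : PowerSeries ℕ) : Prop :=
  ∀ k, k < T → p.coeff k = PowerSeries.coeff k f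

section ag
variable {T : ℕ} {p p' : ℕ[X]} {f f' : PowerSeries ℕ}

lemma Ag.mono {T' : ℕ} (h : Ag T p f) (hT : T' ≤ T) : Ag T' p f :=
  fun k hk => h k (lt_of_lt_of_le hk hT)

lemma Ag.add (h : Ag T p f) (h' : Ag T p' f') : Ag T (p + p') (f + f') := by
  intro k hk
  rw [coeff_add, map_add, h k hk, h' k hk]

lemma Ag.mul (h : Ag T p f) (h' : Ag T p' f') : Ag T (p * p') (f * f') := by
  intro k hk
  rw [Polynomial.coeff_mul, PowerSeries.coeff_mul]
  refine Finset.sum_congr rfl fun a ha => ?_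
  have ha' := Finset.HasAntidiagonal.mem_antidiagonal.1 ha
  rw [h _ (by omega), h' _ (by omega)]

lemma Ag.sum {ι : Type} (s : Finset ι) {P : ι → ℕ[X]} {F : ι → PowerSeries ℕ}
    (h : ∀ i ∈ s, Ag T (P i) (F i)) : Ag T (∑ i ∈ s, P i) (∑ i ∈ s, F i) := by
  intro k hk
  rw [finsetSum_coeff, map_sum]
  exact Finset.sum_congr rfl fun i hi => h i hi k hk

lemma ag_coe (T : ℕ) (p : ℕ[X]) : Ag T p (p : PowerSeries ℕ) := by
  intro k _
  rw [Polynomial.coeff_coe]

lemma ag_zero (T : ℕ) : Ag T 0 0 := by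
  intro k _
  simp

lemma ag_trunc (T : ℕ) (f : PowerSeries ℕ) : Ag T (PowerSeries.trunc T f) f := by
  intro k hk
  rw [PowerSeries.coeff_trunc, if_pos hk]

lemma trunc_coeff_le (T : ℕ) (f : PowerSeries ℕ) (n : ℕ) :
    (PowerSeries.trunc T f).coeff n ≤ PowerSeries.coeff n f := by
  rw [PowerSeries.coeff_trunc]
  split_ifs
  · exact le_rfl
  · exact Nat.zero_le _

lemma trunc_coeff_ge (T : ℕ) (f : PowerSeries ℕ) (n : ℕ) (hn : T ≤ n) :
    (PowerSeries.trunc T f).coeff n = 0 := by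
  rw [PowerSeries.coeff_trunc, if_neg (not_lt.2 hn)]

lemma Ag.trunc_le (h : Ag T p f) (n : ℕ) : (PowerSeries.trunc T f).coeff n ≤ p.coeff n := by
  by_cases hn : n < T
  · rw [PowerSeries.coeff_trunc, if_pos hn, h n hn]
  · rw [trunc_coeff_ge T f n (not_lt.1 hn)]
    exact Nat.zero_le _

lemma trunc_trunc_le {T T' : ℕ} (hT : T ≤ T') (f : PowerSeries ℕ) (n : ℕ) :
    (PowerSeries.trunc T f).coeff n ≤ (PowerSeries.trunc T' f).coeff n :=
  ((ag_trunc T' f).mono hT).trunc_le n

end ag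

/-- the series `f` converges at `r` -/
def Cv (r : ℝ) (f : PowerSeries ℕ) : Prop := ∃ C : ℝ, ∀ T, nv r (PowerSeries.trunc T f) ≤ C

section cv
variable {r : ℝ} {f f' : PowerSeries ℕ}

lemma Cv.mono (hr : 0 ≤ r) (h : Cv r f) (hf : ∀ n, PowerSeries.coeff n f' ≤ PowerSeries.coeff n f) :
    Cv r f' := by
  obtain ⟨C, hC⟩ := h
  refine ⟨C, fun T => le_trans (nv_mono hr fun n => ?_) (hC T)⟩
  rw [PowerSeries.coeff_trunc, PowerSeries.coeff_trunc]
  split_ifs
  · exact hf n
  · exact le_rfl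

lemma Cv.mono_r {r' : ℝ} (hr' : 0 ≤ r') (hrr : r' ≤ r) (h : Cv r f) : Cv r' f := by
  obtain ⟨C, hC⟩ := h
  exact ⟨C, fun T => le_trans (nv_mono_r hr' hrr _) (hC T)⟩

lemma Cv.add (h : Cv r f) (h' : Cv r f') : Cv r (f + f') := by
  obtain ⟨C, hC⟩ := h
  obtain ⟨C', hC'⟩ := h'
  refine ⟨C + C', fun T => ?_⟩
  rw [map_add, map_add]
  exact add_le_add (hC T) (hC' T)

lemma trunc_mul_le (T : ℕ) (f f' : PowerSeries ℕ) (n : ℕ) :
    (PowerSeries.trunc T (f * f')).coeff n ≤
      (PowerSeries.trunc T f * PowerSeries.trunc T f').coeff n :=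
  ((ag_trunc T f).mul (ag_trunc T f')).trunc_le n

lemma nv_trunc_mul_le (hr : 0 ≤ r) (T : ℕ) (f f' : PowerSeries ℕ) :
    nv r (PowerSeries.trunc T (f * f')) ≤
      nv r (PowerSeries.trunc T f) * nv r (PowerSeries.trunc T f') := by
  rw [← map_mul]
  exact nv_mono hr (trunc_mul_le T f f')

lemma Cv.mul (hr : 0 ≤ r) (h : Cv r f) (h' : Cv r f') : Cv r (f * f') := by
  obtain ⟨C, hC⟩ := h
  obtain ⟨C', hC'⟩ := h'
  refine ⟨C * C', fun T => le_trans (nv_trunc_mul_le hr T f f') ?_⟩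
  have h0 : 0 ≤ C := le_trans (nv_nonneg hr _) (hC 0)
  exact mul_le_mul (hC T) (hC' T) (nv_nonneg hr _) h0

lemma cv_coe (hr : 0 ≤ r) (p : ℕ[X]) : Cv r (p : PowerSeries ℕ) :=
  ⟨nv r p, fun T => nv_mono hr fun n => (ag_coe T p).trunc_le n⟩

lemma cv_zero (r : ℝ) : Cv r 0 := by
  refine ⟨0, fun T => ?_⟩
  rw [map_zero, map_zero]

lemma cv_sum {ι : Type} (s : Finset ι) (F : ι → PowerSeries ℕ) (h : ∀ i ∈ s, Cv r (F i)) :
    Cv r (∑ i ∈ s, F i) := by
  induction s using Finset.induction_on with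
  | empty => simpa using cv_zero r
  | insert a s ha ih =>
    rw [Finset.sum_insert ha]
    exact (h a (Finset.mem_insert_self _ _)).add (ih fun i hi => h i (Finset.mem_insert_of_mem hi))

/-- `Cv` in terms of `HasN` -/
lemma cv_iff (hr : 0 ≤ r) : Cv r f ↔ PF.HasN r (PowerSeries.map (Nat.castRingHom ℝ) f) := by
  have h1 : ∀ T, nv r (PowerSeries.trunc T f) =
      ∑ n ∈ Finset.range T, ‖PowerSeries.coeff n (PowerSeries.map (Nat.castRingHom ℝ) f)‖ * r ^ n := by
    intro T
    rw [nv_range (trunc_coeff_ge T f)]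
    refine Finset.sum_congr rfl fun k hk => ?_
    rw [PowerSeries.coeff_trunc, if_pos (Finset.mem_range.1 hk)]
    simp
  have h0 : ∀ n, 0 ≤ ‖PowerSeries.coeff n (PowerSeries.map (Nat.castRingHom ℝ) f)‖ * r ^ n :=
    fun n => mul_nonneg (norm_nonneg _) (pow_nonneg hr _)
  constructor
  · rintro ⟨C, hC⟩
    exact summable_of_sum_range_le h0 fun T => (h1 T) ▸ hC T
  · intro h
    refine ⟨PF.nS r (PowerSeries.map (Nat.castRingHom ℝ) f), fun T => ?_⟩
    rw [h1 T]
    exact h.sum_le_tsum _ fun n _ => h0 n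

end cv

/-! ### elementary matrices -/

lemma exists_EX_row {I : Type} [Fintype I] [DecidableEq I] (i : I) (c : I → ℤ[X]) (hc : c i = 0)
    (hX : ∀ k, X ∣ c k) : ∃ V ∈ EX I, ∀ a b, (V : Matrix I I ℤ[X]) a b =
      (1 : Matrix I I ℤ[X]) a b + if a = i then c b else 0 := by
  have key : ∀ s : Finset I, ∃ V ∈ EX I, ∀ a b, (V : Matrix I I ℤ[X]) a b =
      (1 : Matrix I I ℤ[X]) a b + if a = i then (if b ∈ s then c b else 0) else 0 := by
    intro s
    induction s using Finset.induction_on with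
    | empty =>
      refine ⟨1, Subgroup.one_mem _, fun a b => ?_⟩
      simp
    | insert k s hk ih =>
      obtain ⟨V, hV, hVe⟩ := ih
      by_cases hki : k = i
      · refine ⟨V, hV, fun a b => ?_⟩
        rw [hVe]
        by_cases hbk : b = k
        · subst hbk
          subst hki
          simp [hc]
        · simp [Finset.mem_insert, hbk]
      · obtain ⟨d, hd⟩ := hX k
        refine ⟨xx (Ne.symm hki) (X * d) * V, Subgroup.mul_mem _ (xx_mem_EX _ _) hV, fun a b => ?_⟩
        change (((xx (Ne.symm hki) (X * d) : SpecialLinearGroup I ℤ[X]) : Matrix I I ℤ[X]) *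
          (V : Matrix I I ℤ[X])) a b = _
        rw [Matrix.mul_apply]
        simp only [xx_coe_apply, add_mul, Finset.sum_add_distrib]
        rw [← Matrix.mul_apply, Matrix.one_mul, hVe]
        have h1 : ∀ l, (if i = a ∧ k = l then X * d else 0) * (V : Matrix I I ℤ[X]) l b =
            if l = k then (if a = i then c k * (1 : Matrix I I ℤ[X]) k b else 0) else 0 := by
          intro l
          by_cases hl : l = k
          · subst hl
            by_cases ha : a = i
            · subst ha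
              rw [hVe, if_neg hki, hd]
              simp
            · simp [ha, Ne.symm ha]
          · simp [hl, Ne.symm hl]
        simp only [h1, Finset.sum_ite_eq', Finset.mem_univ, if_true]
        by_cases ha : a = i
        · subst ha
          by_cases hbk : b = k
          · subst hbk
            simp [hk]
          · simp [Finset.mem_insert, hbk, Matrix.one_apply_ne (Ne.symm hbk)]
        · simp [ha]
  obtain ⟨V, hV, hVe⟩ := key Finset.univ
  exact ⟨V, hV, fun a b => by rw [hVe]; simp⟩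

/-- expansion of a row is the multiplication with an element of `EX` -/
lemma exists_EX_expand {I : Type} [Fintype I] {P P' : Matrix I I ℕ[X]} (i : I) (c : I → ℤ[X])
    (hc : c i = 0) (hX : ∀ k, X ∣ c k) (hi : ∀ l, l ≠ i → P' l = P l)
    (hr : ∀ j, IP P' i j = IP P i j + ∑ l, c l * IP P l j) :
    ∃ V ∈ EX I, IP P' = (V : Matrix I I ℤ[X]) * IP P := by
  obtain ⟨V, hV, hVe⟩ := exists_EX_row i c hc hX
  refine ⟨V, hV, ?_⟩
  ext1 a b
  rw [Matrix.mul_apply]
  simp only [hVe, add_mul, Finset.sum_add_distrib]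
  rw [← Matrix.mul_apply, Matrix.one_mul]
  by_cases ha : a = i
  · subst ha
    rw [hr b]
    simp
  · simp only [ha, if_false, zero_mul, Finset.sum_const_zero, add_zero]
    unfold IP
    rw [hi a ha]

end Pool.Agent.SSE
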