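import Pool.Agent.SSE.Reach

/-!
# The limit calculus: sources, isolation
-/

set_option autoImplicit false

open scoped BigOperators
open Matrix Polynomial

namespace Pool.Agent.SSE

open Pool.Agent.helper52.SSE

attribute [local instance] Classical.propDecidable

variable {K : Type} [AddCommGroup K] [Module ℤ[X] K] {δ : ℤ[X]} {q : ℕ[X]}

lemma ps_coeff_zero_mul (a b : PowerSeries ℕ) : PowerSeries.coeff 0 (a * b) =
    PowerSeries.coeff 0 a * PowerSeries.coeff 0 b := by
  simp [PowerSeries.coeff_mul]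

lemma ps_coeff_one_mul (a b : PowerSeries ℕ) : PowerSeries.coeff 1 (a * b) =
    PowerSeries.coeff 0 a * PowerSeries.coeff 1 b + PowerSeries.coeff 1 a * PowerSeries.coeff 0 b := by
  simp [PowerSeries.coeff_mul, Finset.Nat.antidiagonal_succ]

lemma EX_emb {I J : Type} [Fintype I] [Fintype J] (f : I ↪ J) {V : SpecialLinearGroup I ℤ[X]}
    (hV : V ∈ EX I) : emb f V ∈ EX J := by
  unfold EX at hV
  induction hV using Subgroup.closure_induction with
  | mem g hg =>
    obtain ⟨i, j, h, c, rfl⟩ := hg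
    rw [emb_xx]
    exact xx_mem_EX _ _
  | one =>
    rw [map_one]
    exact Subgroup.one_mem _
  | mul a b _ _ ha hb =>
    rw [map_mul]
    exact Subgroup.mul_mem _ ha hb
  | inv a _ ha =>
    rw [map_inv]
    exact Subgroup.inv_mem _ ha

lemma EX_comb {J : Type} [Fintype J] {A B M0 : Matrix J J ℤ[X]}
    (h1 : ∃ V ∈ EX J, B = (V : Matrix J J ℤ[X]) * M0)
    (h2 : ∃ V ∈ EX J, A = (V : Matrix J J ℤ[X]) * B) :
    ∃ V ∈ EX J, A = (V : Matrix J J ℤ[X]) * M0 := by
  obtain ⟨V, hV, rfl⟩ := h1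
  obtain ⟨V', hV', rfl⟩ := h2
  refine ⟨V' * V, Subgroup.mul_mem _ hV' hV, ?_⟩
  rw [Matrix.SpecialLinearGroup.coe_mul, Matrix.mul_assoc]

/-- `EX` and block matrices -/
lemma EX_src {I J : Type} [Fintype I] [Fintype J] (f : I ↪ J) {M M0 : Matrix I I ℤ[X]}
    (h : ∃ V ∈ EX I, M = (V : Matrix I I ℤ[X]) * M0) {N N0 : Matrix J J ℤ[X]}
    (h1 : ∀ i j, N (f i) (f j) = M i j) (h10 : ∀ i j, N0 (f i) (f j) = M0 i j)
    (h2 : ∀ a, a ∉ Set.range f → ∀ b, N a b = N0 a b)
    (h3 : ∀ i, ∀ b, b ∉ Set.range f → N (f i) b = 0)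
    (h30 : ∀ i, ∀ b, b ∉ Set.range f → N0 (f i) b = 0) :
    ∃ V ∈ EX J, N = (V : Matrix J J ℤ[X]) * N0 := by
  obtain ⟨V, hV, hVe⟩ := h
  refine ⟨emb f V, EX_emb f hV, ?_⟩
  ext1 a b
  rw [Matrix.mul_apply]
  by_cases ha : a ∈ Set.range f
  · obtain ⟨i, rfl⟩ := ha
    have e1 : ∑ c, (emb f V : Matrix J J ℤ[X]) (f i) c * N0 c b =
        ∑ k, (V : Matrix I I ℤ[X]) i k * N0 (f k) b := by
      rw [← Finset.sum_subset (Finset.subset_univ (Finset.univ.map f)), Finset.sum_map]
      · exact Finset.sum_congr rfl fun k _ => by rw [emb_apply]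
      · intro c _ hc
        have hc' : c ∉ Set.range f := by
          rintro ⟨k, rfl⟩
          exact hc (Finset.mem_map_of_mem f (Finset.mem_univ k))
        rw [emb_apply_right f V hc', Matrix.one_apply_ne, zero_mul]
        rintro rfl
        exact hc' ⟨i, rfl⟩
    rw [e1]
    by_cases hb : b ∈ Set.range f
    · obtain ⟨j, rfl⟩ := hb
      rw [h1, hVe, Matrix.mul_apply]
      exact Finset.sum_congr rfl fun k _ => by rw [h10]
    · rw [h3 i b hb, Finset.sum_eq_zero]
      intro k _
      rw [h30 k b hb, mul_zero]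
  · rw [h2 a ha b, Finset.sum_eq_single a]
    · rw [emb_apply_left f V ha, Matrix.one_apply_eq, one_mul]
    · intro c _ hc
      rw [emb_apply_left f V ha, Matrix.one_apply_ne (Ne.symm hc), zero_mul]
    · intro hc
      exact absurd (Finset.mem_univ a) hc

/-- the relation matrix with sources -/
lemma IP_src {I κ : Type} [Fintype I] [Fintype κ] (P : Matrix I I ℕ[X]) (W : Matrix κ I ℕ[X]) :
    IP (fromBlocks P 0 W 0 : Matrix (I ⊕ κ) (I ⊕ κ) ℕ[X]) =
      fromBlocks (IP P) 0 (-(W.map toZ)) 1 := by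
  ext1 a b
  rcases a with i | f <;> rcases b with j | f'
  · simp [IP]
  · simp [IP]
  · simp [IP]
  · simp [IP, Matrix.one_apply]

section
variable {S0 : PX K δ q} {I : Type} [Fintype I] {g : I → K} {x : I} {r : ℝ}
  {L L' : Matrix I I (PowerSeries ℕ)}

/-- (C4) SOURCE, and replacement of `n * ζ` by `n e_y` in the row `o` -/
theorem Reach.factor (hr : 0 ≤ r) (h : Reach S0 g x r L) (o : I) (ζ : I → ℕ[X])
    (hζ : ∀ j, (ζ j).coeff 0 = 0) (n : PowerSeries ℕ) (hn0 : PowerSeries.coeff 0 n = 0)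
    (hn : Cv r n) {L' : Matrix (I ⊕ Unit) (I ⊕ Unit) (PowerSeries ℕ)}
    (hL : ∀ a, a ≠ o → ∀ j, L' (Sum.inl a) (Sum.inl j) = L a j)
    (hL0 : ∀ a, a ≠ o → L' (Sum.inl a) (Sum.inr ()) = 0)
    (hLo : ∀ j, L' (Sum.inl o) (Sum.inl j) + n * (ζ j : PowerSeries ℕ) = L o j)
    (hLn : L' (Sum.inl o) (Sum.inr ()) = n)
    (hLζ : ∀ j, L' (Sum.inr ()) (Sum.inl j) = (ζ j : PowerSeries ℕ))
    (hL00 : L' (Sum.inr ()) (Sum.inr ()) = 0)
    (hxq : o = x → ∀ d, q.coeff d ≤ PowerSeries.coeff d (L' (Sum.inl x) (Sum.inl x)))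
    (hx1 : o = x → PowerSeries.coeff 1 n = 0) :
    Reach S0 (Sum.elim g fun _ : Unit => ∑ j, toZ (ζ j) • g j) (Sum.inl x) r L' := by
  obtain ⟨C, hC⟩ := hn
  have hC0 : 0 ≤ C := le_trans (nv_nonneg hr _) (hC 0)
  obtain ⟨B, M0, h⟩ := h
  set Z : Matrix Unit I ℕ[X] := fun _ j => ζ j with hZ
  set D := ∑ j, (ζ j).natDegree with hD
  have hDj : ∀ j, (ζ j).natDegree ≤ D := fun j =>
    Finset.single_le_sum (f := fun j => (ζ j).natDegree) (fun _ _ => Nat.zero_le _)
      (Finset.mem_univ j)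
  refine ⟨B + C + ∑ j, nv r (ζ j), fromBlocks M0 0 (-(Z.map toZ)) 1, fun T => ?_⟩
  set T0 := T + (q.natDegree + 2) with hT0
  obtain ⟨P, hP, hq, hx, hrel, ⟨V, hV, hVe⟩, hAg, hB⟩ := h (T0 + D)
  have hB0 : 0 ≤ B := le_trans (nv_nonneg hr _) (hB x x)
  have hs0 : 0 ≤ ∑ j, nv r (ζ j) := Finset.sum_nonneg fun j _ => nv_nonneg hr _
  set n' := PowerSeries.trunc T0 n with hn'
  -- the row `o`
  have hle : ∀ j d, (n' * ζ j).coeff d ≤ (P o j).coeff d := by
    intro j d
    by_cases hd : d < T0 + D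
    · have e1 : (n' * ζ j).coeff d ≤ PowerSeries.coeff d (n * (ζ j : PowerSeries ℕ)) := by
        rw [Polynomial.coeff_mul, PowerSeries.coeff_mul]
        refine Finset.sum_le_sum fun a _ => ?_
        rw [Polynomial.coeff_coe]
        exact Nat.mul_le_mul_right _ (trunc_coeff_le _ _ _)
      have e2 := congrArg (PowerSeries.coeff d) (hLo j)
      rw [map_add] at e2
      rw [hAg o j d hd]
      omega
    · rw [coeff_eq_zero_of_natDegree_lt]
      · exact Nat.zero_le _
      · have e1 : n'.natDegree < T0 := by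
          rw [hn', hT0, show T + (q.natDegree + 2) = T + (q.natDegree + 1) + 1 by omega]
          exact PowerSeries.natDegree_trunc_lt n _
        have e2 := natDegree_mul_le (p := n') (q := ζ j)
        have e3 := hDj j
        omega
  choose R' hR' using fun j => exists_add_of_coeff_le (hle j)
  have hAgR : ∀ j, Ag T0 (R' j) (L' (Sum.inl o) (Sum.inl j)) := by
    intro j k hk
    have e1 := hAg o j k (by omega)
    rw [hR' j, ← hLo j, coeff_add, map_add,
      ((ag_trunc T0 n).mul (ag_coe T0 (ζ j))) k hk] at e1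
    omega
  have hR'le : ∀ j d, (R' j).coeff d ≤ (P o j).coeff d := by
    intro j d
    rw [hR' j, coeff_add]
    omega
  -- the source
  obtain ⟨hP1, hq1, hx1', hrel1⟩ := PX.sources hP hq hx Z (fun _ j => hζ j)
  set P1 : Matrix (I ⊕ Unit) (I ⊕ Unit) ℕ[X] := fromBlocks P 0 Z 0 with hP1e
  -- the new row
  set P2 : Matrix (I ⊕ Unit) (I ⊕ Unit) ℕ[X] :=
    P1.updateRow (Sum.inl o) (Sum.elim R' fun _ => n') with hP2e
  have hP2o : P2 (Sum.inl o) = Sum.elim R' fun _ => n' := by rw [hP2e, updateRow_self]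
  have hP2a : ∀ a, a ≠ Sum.inl o → P2 a = P1 a := fun a ha => by rw [hP2e, updateRow_ne ha]
  have hn'0 : n'.coeff 0 = 0 := by rw [hn', PowerSeries.coeff_trunc, if_pos (by omega), hn0]
  have hR'0 : ∀ j, (R' j).coeff 0 = 0 := fun j => by
    have e1 := hR'le j 0
    rw [hP.pres o j] at e1
    omega
  have hpres : IsPres P2 := by
    intro a b
    by_cases ha : a = Sum.inl o
    · subst ha
      rw [hP2o]
      rcases b with j | u
      · exact hR'0 j
      · exact hn'0
    · rw [hP2a a ha]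
      exact hP1.pres a b
  have hq' : ∀ d, q.coeff d ≤ (P2 (Sum.inl x) (Sum.inl x)).coeff d := by
    intro d
    by_cases hox : o = x
    · subst hox
      rw [hP2o]
      by_cases hd : d < T0
      · rw [Sum.elim_inl, hAgR o d hd]
        exact hxq rfl d
      · rw [coeff_eq_zero_of_natDegree_lt (show q.natDegree < d by omega)]
        exact Nat.zero_le _
    · rw [hP2a _ (fun hh => hox (Sum.inl.inj hh).symm)]
      exact hq d
  have hx' : ∀ b, (P2 (Sum.inl x) b).coeff 1 = 0 := by
    intro b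
    by_cases hox : o = x
    · subst hox
      rw [hP2o]
      rcases b with j | u
      · have e1 := hR'le j 1
        rw [hx j] at e1
        exact Nat.le_zero.1 e1
      · change n'.coeff 1 = 0
        rw [hn', PowerSeries.coeff_trunc, if_pos (by omega), hx1 rfl]
    · rw [hP2a _ (fun hh => hox (Sum.inl.inj hh).symm)]
      exact hx1' b
  set c : I ⊕ Unit → ℤ[X] := Sum.elim 0 (fun _ => -toZ n') with hc
  have hrow : ∀ b, IP P2 (Sum.inl o) b = IP P1 (Sum.inl o) b + ∑ l, c l * IP P1 l b := by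
    intro b
    rw [Fintype.sum_sum_type]
    simp only [hc, Sum.elim_inl, Sum.elim_inr, Pi.zero_apply, zero_mul, Finset.sum_const_zero,
      zero_add, Finset.univ_unique, Finset.sum_singleton]
    rw [hP1e, IP_src]
    rcases b with j | u
    · have e1 := congrArg toZ (hR' j)
      have e2 : toZ (n' * ζ j + R' j) = toZ n' * toZ (ζ j) + toZ (R' j) := by
        unfold toZ
        rw [Polynomial.map_add, Polynomial.map_mul]
      rw [e2] at e1
      rw [fromBlocks_apply₁₁, fromBlocks_apply₂₁, Matrix.neg_apply, Matrix.map_apply, hZ]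
      unfold IP
      rw [hP2o, Sum.elim_inl]
      simp only [Sum.inl.injEq]
      linear_combination e1
    · rw [fromBlocks_apply₁₂, fromBlocks_apply₂₂]
      unfold IP
      rw [hP2o]
      simp
  obtain ⟨hP2, hrel2⟩ := PX.add_rows hP1 hq1 hx1' hpres hq' hx' (Sum.inl o) hP2a c (by simp [hc]) hrow
  refine ⟨P2, hP2, hq', hx', (hrel.trans hrel1).trans hrel2, ?_, ?_, ?_⟩
  · have hr1 : ∀ u : Unit, (Sum.inr u : I ⊕ Unit) ∉ Set.range (Function.Embedding.inl : I ↪ I ⊕ Unit)
        := by
      rintro u ⟨i, hi⟩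
      cases hi
    refine EX_comb (B := IP P1) ?_ (exists_EX_expand (Sum.inl o) c (by simp [hc])
      (fun k => by
        rcases k with k | u
        · simp [hc]
        · rw [hc, Sum.elim_inr, dvd_neg, X_dvd_iff]
          unfold toZ
          rw [coeff_map, hn'0, map_zero]) hP2a hrow)
    refine EX_src (Function.Embedding.inl : I ↪ I ⊕ Unit) ⟨V, hV, hVe⟩ ?_ ?_ ?_ ?_ ?_
    · intro i j
      rw [hP1e, IP_src]
      rfl
    · intro i j
      rfl
    · rintro (a | a) ha b
      · exact absurd ⟨a, rfl⟩ ha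
      · rw [hP1e, IP_src]
        rcases b with b | b
        · rfl
        · rw [fromBlocks_apply₂₂, fromBlocks_apply₂₂]
          simp [Matrix.one_apply]
    · rintro i (b | b) hb
      · exact absurd ⟨b, rfl⟩ hb
      · rw [hP1e, IP_src]
        rfl
    · rintro i (b | b) hb
      · exact absurd ⟨b, rfl⟩ hb
      · rfl
  · intro a b
    by_cases ha : a = Sum.inl o
    · subst ha
      rw [hP2o]
      rcases b with j | u
      · exact (hAgR j).mono (by omega)
      · rw [hLn]
        exact (ag_trunc T0 n).mono (by omega)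
    · rw [hP2a a ha, hP1e]
      rcases a with a | u <;> rcases b with j | v
      · rw [fromBlocks_apply₁₁, hL a (fun hh => ha (hh ▸ rfl)) j]
        exact (hAg a j).mono (by omega)
      · rw [fromBlocks_apply₁₂, hL0 a (fun hh => ha (hh ▸ rfl))]
        exact ag_zero T
      · rw [fromBlocks_apply₂₁, hLζ j]
        exact ag_coe T _
      · rw [fromBlocks_apply₂₂, hL00]
        exact ag_zero T
  · intro a b
    by_cases ha : a = Sum.inl o
    · subst ha
      rw [hP2o]
      rcases b with j | u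
      · have e1 := nv_mono hr (hR'le j)
        have e2 := hB o j
        change nv r (R' j) ≤ _
        linarith
      · have e1 := hC T0
        change nv r n' ≤ _
        linarith
    · rw [hP2a a ha, hP1e]
      rcases a with a | u <;> rcases b with j | v
      · have e2 := hB a j
        rw [fromBlocks_apply₁₁]
        linarith
      · rw [fromBlocks_apply₁₂, Matrix.zero_apply, map_zero]
        linarith
      · rw [fromBlocks_apply₂₁]
        have e1 := Finset.single_le_sum (f := fun j => nv r (ζ j)) (fun j _ => nv_nonneg hr _)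
          (Finset.mem_univ j)
        change nv r (ζ j) ≤ _
        linarith
      · rw [fromBlocks_apply₂₂, Matrix.zero_apply, map_zero]
        linarith

end

end Pool.Agent.SSE
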