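import Pool.Agent.SSE.Reach3

/-!
# The limit calculus: change of a class, renaming, weakening of `q`
-/

set_option autoImplicit false

open scoped BigOperators
open Matrix Polynomial

namespace Pool.Agent.SSE

open Pool.Agent.helper52.SSE

attribute [local instance] Classical.propDecidable

section
variable {K : Type} [AddCommGroup K] [Module ℤ[X] K] {δ : ℤ[X]} {q : ℕ[X]}
variable {S0 : PX K δ q} {I : Type} [Fintype I] {g : I → K} {x : I} {r : ℝ}
  {L L' : Matrix I I (PowerSeries ℕ)}

/-- the matrix after the change of the class of `v` in the columns of `s` -/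
noncomputable def cmM (P : Matrix I I ℕ[X]) (v : I) (ζ D : I → ℕ[X]) (s : Finset I) :
    Matrix I I ℕ[X] :=
  fun i j => if j ∈ s then (if i = v then D j else P i j) + P i v * ζ j else P i j

/-- change of the class of `v`: finite level -/
theorem PX.class_move {P : Matrix I I ℕ[X]} (h : PresOf δ g P)
    (hq : ∀ n, q.coeff n ≤ (P x x).coeff n) (hx : ∀ j, (P x j).coeff 1 = 0) (v : I) (hvx : v ≠ x)
    (ζ D : I → ℕ[X]) (hζv : ζ v = 0) (hD : ∀ j, P v j = ζ j + D j) (s : Finset I) :
    ∃ (h' : PresOf δ (Function.update g v (g v - ∑ j ∈ s, toZ (ζ j) • g j)) (cmM P v ζ D s))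
      (hq' : ∀ n, q.coeff n ≤ (cmM P v ζ D s x x).coeff n)
      (hx' : ∀ j, (cmM P v ζ D s x j).coeff 1 = 0),
      PX.Rel (K := K) ⟨I, inferInstance, g, P, x, h, hq, hx⟩
        ⟨I, inferInstance, _, cmM P v ζ D s, x, h', hq', hx'⟩ := by
  have hζ0 : ∀ j, (ζ j).coeff 0 = 0 := by
    intro j
    have e1 := h.pres v j
    rw [hD, coeff_add] at e1
    omega
  have hD0 : ∀ j, (D j).coeff 0 = 0 := by
    intro j
    have e1 := h.pres v j
    rw [hD, coeff_add] at e1
    omega
  induction s using Finset.induction_on with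
  | empty =>
    have e1 : cmM P v ζ D ∅ = P := by
      ext1 i j
      simp [cmM]
    have e2 : Function.update g v (g v - ∑ j ∈ (∅ : Finset I), toZ (ζ j) • g j) = g := by
      simp
    rw [e1, e2]
    exact ⟨h, hq, hx, PX.Rel.refl _⟩
  | insert k s hk ih =>
    obtain ⟨h1, hq1, hx1, hrel⟩ := ih
    by_cases hkv : k = v
    · subst hkv
      have e1 : cmM P k ζ D (insert k s) = cmM P k ζ D s := by
        ext1 i j
        unfold cmM
        by_cases hj : j = k
        · subst hj
          rw [if_pos (Finset.mem_insert_self _ _), if_neg hk, hζv, mul_zero, add_zero]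
          by_cases hi : i = j
          · subst hi
            rw [if_pos rfl, hD i, hζv, zero_add]
          · rw [if_neg hi]
        · simp [Finset.mem_insert, hj]
      have e2 : ∑ j ∈ insert k s, toZ (ζ j) • g j = ∑ j ∈ s, toZ (ζ j) • g j := by
        rw [Finset.sum_insert hk, hζv]
        simp [toZ]
      rw [e1, e2]
      exact ⟨h1, hq1, hx1, hrel⟩
    · have hcolv : ∀ i, cmM P v ζ D s i v = P i v := by
        intro i
        unfold cmM
        by_cases hvs : v ∈ s
        · rw [if_pos hvs, hζv, mul_zero, add_zero]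
          by_cases hi : i = v
          · subst hi
            rw [if_pos rfl, hD i, hζv, zero_add]
          · rw [if_neg hi]
        · rw [if_neg hvs]
      have hcol : ∀ i l, l ≠ k → cmM P v ζ D (insert k s) i l = cmM P v ζ D s i l := by
        intro i l hl
        unfold cmM
        simp [Finset.mem_insert, hl]
      have hj : ∀ i, IP (cmM P v ζ D (insert k s)) i k =
          IP (cmM P v ζ D s) i k + IP (cmM P v ζ D s) i v * toZ (ζ k) := by
        intro i
        have e1 : cmM P v ζ D (insert k s) i k = (if i = v then D k else P i k) + P i v * ζ k := by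
          unfold cmM
          rw [if_pos (Finset.mem_insert_self _ _)]
        have e2 : cmM P v ζ D s i k = P i k := by
          unfold cmM
          rw [if_neg hk]
        unfold IP
        rw [e1, e2, hcolv]
        by_cases hi : i = v
        · subst hi
          rw [if_pos rfl, if_pos rfl, if_neg (Ne.symm hkv), hD k]
          unfold toZ
          rw [Polynomial.map_add, Polynomial.map_add, Polynomial.map_mul]
          ring
        · rw [if_neg hi, if_neg hi]
          unfold toZ
          rw [Polynomial.map_add, Polynomial.map_mul]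
          ring
      have hpres : IsPres (cmM P v ζ D (insert k s)) := by
        intro i j
        unfold cmM
        split_ifs
        · rw [coeff_add, hD0, mul_coeff_zero, hζ0, mul_zero, add_zero]
        · rw [coeff_add, h.pres, mul_coeff_zero, hζ0, mul_zero, add_zero]
        · exact h.pres i j
      have hq' : ∀ n, q.coeff n ≤ (cmM P v ζ D (insert k s) x x).coeff n := by
        intro n
        unfold cmM
        rw [if_neg (Ne.symm hvx)]
        split_ifs
        · rw [coeff_add]
          exact le_trans (hq n) (Nat.le_add_right _ _)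
        · exact hq n
      have hx' : ∀ j, (cmM P v ζ D (insert k s) x j).coeff 1 = 0 := by
        intro j
        unfold cmM
        rw [if_neg (Ne.symm hvx)]
        split_ifs
        · rw [coeff_add, hx, zero_add, Polynomial.coeff_mul]
          refine Finset.sum_eq_zero fun a ha => ?_
          have ha' := Finset.HasAntidiagonal.mem_antidiagonal.1 ha
          by_cases h0 : a.1 = 0
          · rw [h0, h.pres, zero_mul]
          · have : a.2 = 0 := by omega
            rw [this, hζ0, mul_zero]
        · exact hx j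
      obtain ⟨-, h2⟩ := h1.col hpres v k (Ne.symm hkv) (toZ (ζ k)) hcol hj
      have hstep := PX.Step.col h1 hq1 hx1 v k (Ne.symm hkv) hvx (toZ (ζ k)) hcol hj h2 hq' hx'
      have e3 : Function.update (Function.update g v (g v - ∑ j ∈ s, toZ (ζ j) • g j)) v
          ((Function.update g v (g v - ∑ j ∈ s, toZ (ζ j) • g j)) v - toZ (ζ k) •
            (Function.update g v (g v - ∑ j ∈ s, toZ (ζ j) • g j)) k) =
          Function.update g v (g v - ∑ j ∈ insert k s, toZ (ζ j) • g j) := by
        rw [Function.update_idem, Function.update_self, Function.update_of_ne hkv,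
          Finset.sum_insert hk]
        congr 1
        abel
      have hfin : ∀ (g2 : I → K) (h2 : PresOf δ g2 (cmM P v ζ D (insert k s)))
          (_ : PX.Rel (K := K) ⟨I, inferInstance, g, P, x, h, hq, hx⟩
            ⟨I, inferInstance, g2, cmM P v ζ D (insert k s), x, h2, hq', hx'⟩)
          (_ : g2 = Function.update g v (g v - ∑ j ∈ insert k s, toZ (ζ j) • g j)),
          ∃ (h' : PresOf δ (Function.update g v (g v - ∑ j ∈ insert k s, toZ (ζ j) • g j))
            (cmM P v ζ D (insert k s)))
          (hq' : ∀ n, q.coeff n ≤ (cmM P v ζ D (insert k s) x x).coeff n)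
          (hx' : ∀ j, (cmM P v ζ D (insert k s) x j).coeff 1 = 0),
          PX.Rel (K := K) ⟨I, inferInstance, g, P, x, h, hq, hx⟩
            ⟨I, inferInstance, _, cmM P v ζ D (insert k s), x, h', hq', hx'⟩ := by
        intro g2 h2 hr2 hg2
        subst hg2
        exact ⟨h2, hq', hx', hr2⟩
      exact hfin _ h2 (hrel.trans hstep.rel) e3

/-- (C3) CLASS CHANGE: the class of `v ≠ x` becomes `g v - ∑ ζ_j g_j`, `ζ ≤ L_v` -/
theorem Reach.class_move (hr : 0 ≤ r) (h : Reach S0 g x r L) (v : I) (hvx : v ≠ x)
    (ζ : I → ℕ[X]) (hζv : ζ v = 0)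
    (hζ : ∀ j d, (ζ j).coeff d ≤ PowerSeries.coeff d (L v j))
    (hLi : ∀ i, i ≠ v → ∀ j, L' i j = L i j + L i v * (ζ j : PowerSeries ℕ))
    (hLv : ∀ j, L' v j + (ζ j : PowerSeries ℕ) = L v j + L v v * (ζ j : PowerSeries ℕ)) :
    Reach S0 (Function.update g v (g v - ∑ j, toZ (ζ j) • g j)) x r L' := by
  obtain ⟨B, M0, h⟩ := h
  set N := ∑ j, (ζ j).natDegree with hN
  have hNj : ∀ j, (ζ j).natDegree ≤ N := fun j =>
    Finset.single_le_sum (f := fun j => (ζ j).natDegree) (fun _ _ => Nat.zero_le _)
      (Finset.mem_univ j)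
  set C := ∑ j, nv r (ζ j) with hC
  have hCj : ∀ j, nv r (ζ j) ≤ C := fun j =>
    Finset.single_le_sum (f := fun j => nv r (ζ j)) (fun j _ => nv_nonneg hr _)
      (Finset.mem_univ j)
  refine ⟨B + B * C, M0 * (1 + Matrix.of fun a b => if a = v then toZ (ζ b) else 0), fun T => ?_⟩
  obtain ⟨P, hP, hq, hx, hrel, ⟨V, hV, hVe⟩, hAg, hB⟩ := h (T + N + 1)
  have hB0 : 0 ≤ B := le_trans (nv_nonneg hr _) (hB x x)
  have hle : ∀ j d, (ζ j).coeff d ≤ (P v j).coeff d := by
    intro j d
    by_cases hd : d < T + N + 1
    · rw [hAg v j d hd]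
      exact hζ j d
    · have := hNj j
      rw [coeff_eq_zero_of_natDegree_lt (by omega)]
      exact Nat.zero_le _
  choose D hD using fun j => exists_add_of_coeff_le (hle j)
  obtain ⟨h', hq', hx', hrel'⟩ := PX.class_move hP hq hx v hvx ζ D hζv hD Finset.univ
  have hD' : ∀ j, Ag T (D j + P v v * ζ j) (L' v j) := by
    intro j k hk
    have e1 := ((hAg v j).mono (by omega : T ≤ T + N + 1)) k hk
    have e2 := congrArg (PowerSeries.coeff k) (hLv j)
    have e3 := (((hAg v v).mono (by omega : T ≤ T + N + 1)).mul (ag_coe T (ζ j))) k hk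
    rw [hD j, coeff_add] at e1
    rw [map_add, map_add, Polynomial.coeff_coe] at e2
    rw [coeff_add, e3]
    omega
  refine ⟨cmM P v ζ D Finset.univ, h', hq', hx', hrel.trans hrel', ⟨V, hV, ?_⟩, ?_, ?_⟩
  · rw [← Matrix.mul_assoc, ← hVe, Matrix.mul_add, Matrix.mul_one]
    ext1 i j
    rw [Matrix.add_apply, Matrix.mul_apply]
    have e1 : ∑ k, IP P i k * (Matrix.of fun a b => if a = v then toZ (ζ b) else 0) k j =
        IP P i v * toZ (ζ j) := by
      rw [Finset.sum_eq_single v]
      · simp
      · intro k _ hk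
        simp [hk]
      · intro hj
        exact absurd (Finset.mem_univ v) hj
    rw [e1]
    unfold IP cmM
    rw [if_pos (Finset.mem_univ j)]
    by_cases hi : i = v
    · subst hi
      rw [if_pos rfl, if_pos rfl, hD j]
      unfold toZ
      rw [Polynomial.map_add, Polynomial.map_add, Polynomial.map_mul]
      ring
    · rw [if_neg hi, if_neg hi]
      unfold toZ
      rw [Polynomial.map_add, Polynomial.map_mul]
      ring
  · intro i j
    unfold cmM
    rw [if_pos (Finset.mem_univ j)]
    by_cases hi : i = v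
    · subst hi
      rw [if_pos rfl]
      exact hD' j
    · rw [if_neg hi, hLi i hi]
      exact ((hAg i j).mono (by omega)).add (((hAg i v).mono (by omega)).mul (ag_coe T (ζ j)))
  · intro i j
    unfold cmM
    rw [if_pos (Finset.mem_univ j), map_add, map_mul]
    have e1 : nv r (P i v) * nv r (ζ j) ≤ B * C :=
      mul_le_mul (hB i v) (hCj j) (nv_nonneg hr _) hB0
    have e2 : nv r (if i = v then D j else P i j) ≤ B := by
      by_cases hi : i = v
      · subst hi
        rw [if_pos rfl]
        refine le_trans (nv_mono hr fun d => ?_) (hB i j)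
        rw [hD j, coeff_add]
        omega
      · rw [if_neg hi]
        exact hB i j
    linarith

/-- renaming the generators -/
theorem Reach.rename {J : Type} [Fintype J] (h : Reach S0 g x r L) (e : J ≃ I) :
    Reach S0 (g ∘ e) (e.symm x) r (L.submatrix e e) := by
  obtain ⟨B, M0, h⟩ := h
  refine ⟨B, M0.submatrix e e, fun T => ?_⟩
  obtain ⟨P, hP, hq, hx, hrel, hV, hAg, hB⟩ := h T
  obtain ⟨h', hq', hx', hrel'⟩ := PX.rename hP hq hx e
  refine ⟨P.submatrix e e, h', hq', hx', hrel.trans hrel', ?_, fun i j => hAg (e i) (e j),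
    fun i j => hB (e i) (e j)⟩
  have hr1 : ∀ b, b ∈ Set.range e.symm.toEmbedding := fun b => ⟨e b, by simp⟩
  refine EX_src e.symm.toEmbedding hV ?_ ?_ ?_ ?_ ?_
  · intro i j
    unfold IP
    simp [Matrix.submatrix_apply]
  · intro i j
    simp [Matrix.submatrix_apply]
  · intro a ha
    exact absurd (hr1 a) ha
  · intro i b hb
    exact absurd (hr1 b) hb
  · intro i b hb
    exact absurd (hr1 b) hb

/-- smaller `q` -/
theorem Reach.weaken {q' : ℕ[X]} (hqq : ∀ n, q'.coeff n ≤ q.coeff n) (h : Reach S0 g x r L) :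
    Reach (S0.weaken hqq) g x r L := by
  obtain ⟨B, M0, h⟩ := h
  refine ⟨B, M0, fun T => ?_⟩
  obtain ⟨P, hP, hq, hx, hrel, hV, hAg, hB⟩ := h T
  exact ⟨P, hP, fun n => (hqq n).trans (hq n), hx, hrel.weaken hqq, hV, hAg, hB⟩

end

end Pool.Agent.SSE
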