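import Pool.Agent.SSE.Reach0

/-!
# SSE project: the clause `EX` under the isolation of a loop of length one

`isoE f = x_yf(1) x_fy(-X)`, `y` the new vertex. Conjugation by `isoE f` maps `EX I` (embedded in
`I ⊕ Unit`) into `EX (I ⊕ Unit)`.
-/

set_option autoImplicit false

open scoped BigOperators
open Matrix Polynomial

namespace Pool.Agent.SSE

attribute [local instance] Classical.propDecidable

variable {I : Type} [Fintype I]

private lemma isoE_ne1 (f : I) : (Sum.inr () : I ⊕ Unit) ≠ Sum.inl f := by simp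
private lemma isoE_ne2 (f : I) : (Sum.inl f : I ⊕ Unit) ≠ Sum.inr () := by simp

/-- `x_yf(1) x_fy(-X)` -/
noncomputable def isoE (f : I) : SpecialLinearGroup (I ⊕ Unit) ℤ[X] :=
  xx (isoE_ne1 f) 1 * xx (isoE_ne2 f) (-X)

private lemma xx_eq {J : Type} [Fintype J] [DecidableEq J] {i j : J} (h : i ≠ j) (c : ℤ[X]) :
    ((xx h c : SpecialLinearGroup J ℤ[X]) : Matrix J J ℤ[X]) = 1 + Matrix.single i j c := rfl

private lemma fromBlocks_single (i j : I) (c : ℤ[X]) :
    (fromBlocks (1 + Matrix.single i j c) 0 0 1 : Matrix (I ⊕ Unit) (I ⊕ Unit) ℤ[X]) =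
      1 + Matrix.single (Sum.inl i) (Sum.inl j) c := by
  ext (a | a) (b | b) : 2 <;>
  simp [Matrix.single_apply, Matrix.one_apply]

/-- the conjugate -/
private def Cj (f : I) (V : Matrix I I ℤ[X]) (V' : Matrix (I ⊕ Unit) (I ⊕ Unit) ℤ[X]) : Prop :=
  ((isoE f : SpecialLinearGroup (I ⊕ Unit) ℤ[X]) : Matrix (I ⊕ Unit) (I ⊕ Unit) ℤ[X]) *
    fromBlocks V 0 0 1 =
  V' * ((isoE f : SpecialLinearGroup (I ⊕ Unit) ℤ[X]) : Matrix (I ⊕ Unit) (I ⊕ Unit) ℤ[X])

private lemma Cj.mul {f : I} {V W : Matrix I I ℤ[X]} {V' W' : Matrix (I ⊕ Unit) (I ⊕ Unit) ℤ[X]}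
    (h : Cj f V V') (h' : Cj f W W') : Cj f (V * W) (V' * W') := by
  unfold Cj at *
  have h1 : (fromBlocks (V * W) 0 0 1 : Matrix (I ⊕ Unit) (I ⊕ Unit) ℤ[X]) =
      fromBlocks V 0 0 1 * fromBlocks W 0 0 1 := by
    rw [fromBlocks_multiply]
    simp
  rw [h1, ← Matrix.mul_assoc, h, Matrix.mul_assoc, h', ← Matrix.mul_assoc]

private lemma Cj.gen (f : I) {i j : I} (h : i ≠ j) (c : ℤ[X]) :
    ∃ V' ∈ EX (I ⊕ Unit), Cj f ((xx h (X * c) : SpecialLinearGroup I ℤ[X]) : Matrix I I ℤ[X])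
      ((V' : SpecialLinearGroup (I ⊕ Unit) ℤ[X]) : Matrix (I ⊕ Unit) (I ⊕ Unit) ℤ[X]) := by
  have hij : (Sum.inl i : I ⊕ Unit) ≠ Sum.inl j := fun h' => h (Sum.inl.inj h')
  by_cases hi : i = f
  · subst hi
    have hyj : (Sum.inr () : I ⊕ Unit) ≠ Sum.inl j := by simp
    refine ⟨xx hij (X * c) * xx hyj (X * c),
      Subgroup.mul_mem _ (xx_mem_EX _ _) (xx_mem_EX _ _), ?_⟩
    unfold Cj isoE
    rw [xx_eq, fromBlocks_single]
    simp only [Matrix.SpecialLinearGroup.coe_mul, xx_eq]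
    simp only [mul_add, add_mul, one_mul, mul_one]
    simp [Matrix.single_mul_single_same, Matrix.single_mul_single_of_ne, h, Ne.symm h]
    abel
  · by_cases hj : j = f
    · subst hj
      have hiy : (Sum.inl i : I ⊕ Unit) ≠ Sum.inr () := by simp
      refine ⟨xx hij (X * (c * (1 - X))) * xx hiy (X * (X * c)),
        Subgroup.mul_mem _ (xx_mem_EX _ _) (xx_mem_EX _ _), ?_⟩
      unfold Cj isoE
      rw [xx_eq, fromBlocks_single]
      simp only [Matrix.SpecialLinearGroup.coe_mul, xx_eq]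
      simp only [mul_add, add_mul, one_mul, mul_one]
      simp [Matrix.single_mul_single_same, Matrix.single_mul_single_of_ne, Ne.symm h]
      have e1 : Matrix.single (Sum.inl i : I ⊕ Unit) (Sum.inl j : I ⊕ Unit) (X * c : ℤ[X]) =
          Matrix.single (Sum.inl i) (Sum.inl j) (X * (c * (1 - X))) +
          Matrix.single (Sum.inl i) (Sum.inl j) (X * (X * c)) := by
        rw [← Matrix.single_add]
        congr 1
        ring
      have e2 : Matrix.single (Sum.inl i : I ⊕ Unit) (Sum.inr () : I ⊕ Unit) (X * (X * c) : ℤ[X]) +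
          Matrix.single (Sum.inl i) (Sum.inr ()) (-(X * (c * (1 - X)) * X)) +
          Matrix.single (Sum.inl i) (Sum.inr ()) (-(X * (X * c) * X)) = 0 := by
        rw [← Matrix.single_add, ← Matrix.single_add]
        have : (X * (X * c) + -(X * (c * (1 - X)) * X) + -(X * (X * c) * X) : ℤ[X]) = 0 := by ring
        rw [this, Matrix.single_zero]
      linear_combination (norm := abel) e1 - e2
    · refine ⟨xx hij (X * c), xx_mem_EX _ _, ?_⟩
      unfold Cj isoE
      rw [xx_eq, fromBlocks_single]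
      simp only [Matrix.SpecialLinearGroup.coe_mul, xx_eq]
      simp only [mul_add, add_mul, one_mul, mul_one]
      simp [Matrix.single_mul_single_of_ne, h, Ne.symm hi, hj]
      abel

/-- conjugation by `isoE f` maps `EX I` into `EX (I ⊕ Unit)` -/
theorem exists_isoE (f : I) {V : SpecialLinearGroup I ℤ[X]} (hV : V ∈ EX I) :
    ∃ V' ∈ EX (I ⊕ Unit),
      ((isoE f : SpecialLinearGroup (I ⊕ Unit) ℤ[X]) : Matrix (I ⊕ Unit) (I ⊕ Unit) ℤ[X]) *
        fromBlocks (V : Matrix I I ℤ[X]) 0 0 1 =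
      ((V' : SpecialLinearGroup (I ⊕ Unit) ℤ[X]) : Matrix (I ⊕ Unit) (I ⊕ Unit) ℤ[X]) *
        ((isoE f : SpecialLinearGroup (I ⊕ Unit) ℤ[X]) : Matrix (I ⊕ Unit) (I ⊕ Unit) ℤ[X]) := by
  change ∃ V' ∈ EX (I ⊕ Unit), Cj f (V : Matrix I I ℤ[X])
      ((V' : SpecialLinearGroup (I ⊕ Unit) ℤ[X]) : Matrix (I ⊕ Unit) (I ⊕ Unit) ℤ[X])
  unfold EX at hV
  induction hV using Subgroup.closure_induction with
  | mem g hg =>
    obtain ⟨i, j, h, c, rfl⟩ := hg
    exact Cj.gen f h c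
  | one =>
    refine ⟨1, one_mem _, ?_⟩
    unfold Cj
    rw [Matrix.SpecialLinearGroup.coe_one, Matrix.SpecialLinearGroup.coe_one, fromBlocks_one,
      Matrix.mul_one, Matrix.one_mul]
  | mul a b _ _ ha hb =>
    obtain ⟨a', ha1, ha2⟩ := ha
    obtain ⟨b', hb1, hb2⟩ := hb
    refine ⟨a' * b', mul_mem ha1 hb1, ?_⟩
    rw [Matrix.SpecialLinearGroup.coe_mul, Matrix.SpecialLinearGroup.coe_mul]
    exact ha2.mul hb2
  | inv a _ ha =>
    obtain ⟨a', ha1, ha2⟩ := ha
    refine ⟨a'⁻¹, inv_mem ha1, ?_⟩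
    unfold Cj at *
    have h1 : ((a : SpecialLinearGroup I ℤ[X]) : Matrix I I ℤ[X]) *
        ((a⁻¹ : SpecialLinearGroup I ℤ[X]) : Matrix I I ℤ[X]) = 1 := K1a_coe_mul_inv a
    have h2 : ((a'⁻¹ : SpecialLinearGroup (I ⊕ Unit) ℤ[X]) :
        Matrix (I ⊕ Unit) (I ⊕ Unit) ℤ[X]) *
        ((a' : SpecialLinearGroup (I ⊕ Unit) ℤ[X]) : Matrix (I ⊕ Unit) (I ⊕ Unit) ℤ[X]) = 1 :=
      K1a_coe_inv_mul a'
    have h3 : (fromBlocks (a : Matrix I I ℤ[X]) 0 0 1 : Matrix (I ⊕ Unit) (I ⊕ Unit) ℤ[X]) *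
        fromBlocks ((a⁻¹ : SpecialLinearGroup I ℤ[X]) : Matrix I I ℤ[X]) 0 0 1 = 1 := by
      rw [fromBlocks_multiply, h1]
      simp
    set E := ((isoE f : SpecialLinearGroup (I ⊕ Unit) ℤ[X]) : Matrix (I ⊕ Unit) (I ⊕ Unit) ℤ[X])
    calc E * fromBlocks ((a⁻¹ : SpecialLinearGroup I ℤ[X]) : Matrix I I ℤ[X]) 0 0 1
        = ((a'⁻¹ : SpecialLinearGroup (I ⊕ Unit) ℤ[X]) : Matrix (I ⊕ Unit) (I ⊕ Unit) ℤ[X]) *
          (((a' : SpecialLinearGroup (I ⊕ Unit) ℤ[X]) : Matrix (I ⊕ Unit) (I ⊕ Unit) ℤ[X]) * E) *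
          fromBlocks ((a⁻¹ : SpecialLinearGroup I ℤ[X]) : Matrix I I ℤ[X]) 0 0 1 := by
          rw [← Matrix.mul_assoc, h2, Matrix.one_mul]
      _ = ((a'⁻¹ : SpecialLinearGroup (I ⊕ Unit) ℤ[X]) : Matrix (I ⊕ Unit) (I ⊕ Unit) ℤ[X]) * E *
          (fromBlocks (a : Matrix I I ℤ[X]) 0 0 1 *
          fromBlocks ((a⁻¹ : SpecialLinearGroup I ℤ[X]) : Matrix I I ℤ[X]) 0 0 1) := by
          rw [← ha2]
          simp only [Matrix.mul_assoc]
      _ = _ := by rw [h3, Matrix.mul_one]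

/-- the matrix of `isoE` -/
noncomputable def isoM (f : I) : Matrix (I ⊕ Unit) (I ⊕ Unit) ℤ[X] :=
  ((isoE f : SpecialLinearGroup (I ⊕ Unit) ℤ[X]) : Matrix (I ⊕ Unit) (I ⊕ Unit) ℤ[X])

/-- the same for an arbitrary decidability instance -/
theorem exists_isoM (inst : DecidableEq (I ⊕ Unit)) (f : I) {V : SpecialLinearGroup I ℤ[X]}
    (hV : V ∈ EX I) : ∃ V' ∈ @EX (I ⊕ Unit) _ inst,
      isoM f * fromBlocks (V : Matrix I I ℤ[X]) 0 0 1 =
        (V'.1 : Matrix (I ⊕ Unit) (I ⊕ Unit) ℤ[X]) * isoM f := by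
  obtain rfl : inst = (fun a b => instDecidableEqSum a b) := Subsingleton.elim _ _
  exact exists_isoE f hV

/-- the relation matrix of the isolated presentation: row `f` is `X e_f + r`, then
`IP (iso P f X r) = E (IP P + ρ)`, `ρ = e_y - e_f` -/
theorem IP_iso_one {P : Matrix I I ℕ[X]} (f : I) (r : I → ℕ[X])
    (hf : ∀ j, P f j = r j + if j = f then X else 0) :
    IP (iso P f X r) =
      isoM f * fromBlocks (IP P) 0 (of fun _ j => if j = f then -1 else 0) 1 := by
  set M : Matrix (I ⊕ Unit) (I ⊕ Unit) ℤ[X] :=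
    fromBlocks (IP P) 0 (of fun _ j => if j = f then -1 else 0) 1 with hM
  have step : ∀ {i j : I ⊕ Unit} (h : i ≠ j) (c : ℤ[X])
      (N : Matrix (I ⊕ Unit) (I ⊕ Unit) ℤ[X]) (a b : I ⊕ Unit),
      (((xx h c : SpecialLinearGroup (I ⊕ Unit) ℤ[X]) : Matrix (I ⊕ Unit) (I ⊕ Unit) ℤ[X]) * N) a b
        = N a b + if a = i then c * N j b else 0 := by
    intro i j h c N a b
    rw [xx_eq, Matrix.add_mul, Matrix.one_mul, Matrix.add_apply]
    by_cases ha : a = i
    · subst ha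
      rw [if_pos rfl, Matrix.single_mul_apply_same]
    · rw [if_neg ha, Matrix.single_mul_apply_of_ne _ _ _ _ _ ha]
  have hX1 : toZ (X : ℕ[X]) = X := by simp [toZ]
  have hd : (X : ℕ[X]).divX = 1 := by
    ext n
    rw [coeff_divX, coeff_X, coeff_one]
    simp [eq_comm]
  ext1 a b
  unfold isoM isoE
  rw [Matrix.SpecialLinearGroup.coe_mul, Matrix.mul_assoc, step]
  simp only [step]
  rcases a with a | a
  · simp only [Sum.inl.injEq, reduceCtorEq, if_false, add_zero]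
    by_cases ha : a = f
    · subst ha
      rw [if_pos rfl]
      rcases b with b | b
      · simp only [hM, fromBlocks_apply₁₁, fromBlocks_apply₂₁, of_apply, IP_apply, iso, setRow,
          if_true, Sum.inl.injEq]
        rw [hf b]
        by_cases hb : b = a
        · subst hb
          simp [toZ]
          ring
        · have hb' : ¬ a = b := fun h => hb h.symm
          simp [hb, hb']
      · simp only [hM, fromBlocks_apply₁₂, fromBlocks_apply₂₂, of_apply, IP_apply, iso,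
          if_true, reduceCtorEq, if_false, hX1, Matrix.zero_apply, Matrix.one_apply]
        simp
    · rw [if_neg ha, add_zero]
      rcases b with b | b
      · simp [hM, IP_apply, iso, setRow, ha]
      · simp [hM, IP_apply, iso, ha]
  · simp only [reduceCtorEq, if_false, if_true, add_zero, one_mul]
    rcases b with b | b
    · simp only [hM, fromBlocks_apply₁₁, fromBlocks_apply₂₁, of_apply, IP_apply, iso,
        reduceCtorEq, if_false, hd, one_mul]
      rw [hf b]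
      by_cases hb : b = f
      · subst hb
        simp [toZ]
        ring
      · have hb' : ¬ f = b := fun h => hb h.symm
        simp [hb, hb']
    · simp only [hM, fromBlocks_apply₁₂, fromBlocks_apply₂₂, of_apply, IP_apply, iso,
        if_true, hX1, Matrix.zero_apply, Matrix.one_apply]
      simp
      ring

end Pool.Agent.SSE
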