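import Pool.Agent.SSE.V2

/-!
# SSE project, hub part, Lemma S1: growth of powers, the cycle

* `growth_large`: if some power of `A` has all entries `≥ 2` then the entries of `A ^ d` tend to
  infinity.
* `exists_col`: some column has sum `≥ 2`.
* `exists_cycle`: a cycle `o → i₁ → ... → i_p = o` with distinct vertices `i₁, ..., i_p`.
-/

set_option autoImplicit false

open scoped BigOperators
open Matrix Polynomial

namespace Pool.Agent.SSE

attribute [local instance] Classical.propDecidable

variable {ι : Type} [Fintype ι]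

theorem pow_ge {A : Matrix ι ι ℕ} {p : ℕ} (h : ∀ i j, 2 ≤ (A ^ p) i j) (q : ℕ) (hq : 0 < q)
    (i j : ι) : 2 ^ q ≤ (A ^ (p * q)) i j := by
  induction q, hq using Nat.le_induction generalizing i j with
  | base => simpa using h i j
  | succ q _ ih =>
    rw [Nat.mul_succ, pow_add A, Matrix.mul_apply, pow_succ 2]
    calc 2 ^ q * 2 ≤ (A ^ (p * q)) i i * (A ^ p) i j := Nat.mul_le_mul (ih i i) (h i j)
      _ ≤ _ := Finset.single_le_sum (f := fun k => (A ^ (p * q)) i k * (A ^ p) k j)
        (fun k _ => Nat.zero_le _) (Finset.mem_univ i)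

theorem growth_large {A : Matrix ι ι ℕ} {p : ℕ} (hp : 0 < p) (h : ∀ i j, 2 ≤ (A ^ p) i j) (N : ℕ) :
    ∃ D, ∀ d, D ≤ d → ∀ i j, N ≤ (A ^ d) i j := by
  refine ⟨p * (N + 1), fun d hd i j => ?_⟩
  obtain ⟨q, s, hs, hq, hd'⟩ : ∃ q s, s < p ∧ N + 1 ≤ q ∧ d = p * q + s :=
    ⟨d / p, d % p, Nat.mod_lt _ hp, (Nat.le_div_iff_mul_le hp).2 (by rwa [mul_comm] at hd),
      (Nat.div_add_mod d p).symm⟩
  have h1 : ∃ k, 1 ≤ (A ^ s) k j := by
    by_contra hcon
    push Not at hcon
    have h2 := h i j
    rw [show p = (p - s) + s by omega, pow_add, Matrix.mul_apply,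
      Finset.sum_eq_zero fun k _ => by rw [Nat.lt_one_iff.1 (hcon k), mul_zero]] at h2
    omega
  obtain ⟨k, hk⟩ := h1
  rw [hd', pow_add, Matrix.mul_apply]
  calc N ≤ 2 ^ q := by
        have := Nat.lt_two_pow_self (n := q)
        omega
    _ ≤ (A ^ (p * q)) i k := pow_ge h q (by omega) i k
    _ ≤ (A ^ (p * q)) i k * (A ^ s) k j := Nat.le_mul_of_pos_right _ hk
    _ ≤ _ := Finset.single_le_sum (f := fun k => (A ^ (p * q)) i k * (A ^ s) k j)
        (fun k _ => Nat.zero_le _) (Finset.mem_univ k)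

/-- some column has sum at least `2` -/
theorem exists_col [Nonempty ι] {A : Matrix ι ι ℕ} {p : ℕ} (h : ∀ i j, 2 ≤ (A ^ p) i j) :
    ∃ i1 o j' : ι, ∀ i, (if i = o then 1 else 0) + (if i = j' then 1 else 0) ≤ A i i1 := by
  by_contra hcon
  push Not at hcon
  have hcol : ∀ j, ∑ i, A i j ≤ 1 := by
    intro j
    by_contra hj
    push Not at hj
    obtain ⟨o, ho⟩ : ∃ o, 1 ≤ A o j := by
      by_contra h0
      push Not at h0
      rw [Finset.sum_eq_zero fun i _ => Nat.lt_one_iff.1 (h0 i)] at hj
      omega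
    by_cases h2 : 2 ≤ A o j
    · obtain ⟨i, hi⟩ := hcon j o o
      by_cases hio : i = o
      · subst hio
        simp only [if_true] at hi
        omega
      · simp only [hio, if_false] at hi
        omega
    · obtain ⟨j', hj', hne⟩ : ∃ j', 1 ≤ A j' j ∧ j' ≠ o := by
        by_contra h0
        push Not at h0
        rw [Finset.sum_eq_single o (fun i _ hi => by
          by_contra h3
          exact hi (h0 i (Nat.one_le_iff_ne_zero.2 h3))) (by simp)] at hj
        omega
      obtain ⟨i, hi⟩ := hcon j o j'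
      by_cases hio : i = o
      · subst hio
        simp only [if_true, if_neg (Ne.symm hne)] at hi
        omega
      · by_cases hij : i = j'
        · subst hij
          simp only [hio, if_false, if_true] at hi
          omega
        · simp only [hio, hij, if_false] at hi
          omega
  have hpow : ∀ d j, ∑ i, (A ^ d) i j ≤ 1 := by
    intro d
    induction d with
    | zero =>
      intro j
      rw [pow_zero]
      simp [Matrix.one_apply]
    | succ d ih =>
      intro j
      calc ∑ i, (A ^ (d + 1)) i j = ∑ k, (∑ i, (A ^ d) i k) * A k j := by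
            simp only [pow_succ, Matrix.mul_apply, Finset.sum_mul]
            exact Finset.sum_comm
        _ ≤ ∑ k, A k j := Finset.sum_le_sum fun k _ => by
            calc (∑ i, (A ^ d) i k) * A k j ≤ 1 * A k j := Nat.mul_le_mul_right _ (ih k)
              _ = A k j := one_mul _
        _ ≤ 1 := hcol j
  obtain ⟨i⟩ := ‹Nonempty ι›
  have h1 := (Finset.single_le_sum (f := fun k => (A ^ p) k i) (fun k _ => Nat.zero_le _)
    (Finset.mem_univ i)).trans (hpow p i)
  have h2 := h i i
  omega

/-- a cycle through a given edge `o → i1` (in a matrix in which everything reaches `o`) with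
distinct vertices -/
theorem exists_cycle {A : Matrix ι ι ℕ} {o i1 : ι} (h1 : 1 ≤ A o i1)
    (hreach : ∀ i, ∃ m, 1 ≤ (A ^ m) i o) :
    ∃ (p : ℕ) (c : ℕ → ι), 0 < p ∧ c 0 = o ∧ c 1 = i1 ∧ c p = o ∧
      (∀ k, k < p → 1 ≤ A (c k) (c (k + 1))) ∧
      (∀ k l, 1 ≤ k → k ≤ p → 1 ≤ l → l ≤ p → c k = c l → k = l) := by
  set D : ι → ℕ := fun i => Nat.find (hreach i) with hD
  have hDs : ∀ i, 1 ≤ (A ^ D i) i o := fun i => Nat.find_spec (hreach i)
  have hDm : ∀ i m, 1 ≤ (A ^ m) i o → D i ≤ m := fun i m hm => Nat.find_min' (hreach i) hm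
  have hD0 : ∀ i, D i = 0 → i = o := by
    intro i hi
    have := hDs i
    rw [hi, pow_zero, Matrix.one_apply] at this
    by_contra hne
    rw [if_neg hne] at this
    omega
  have hDo : D o = 0 := Nat.le_zero.1 (hDm o 0 (by simp))
  have hstep : ∀ i, ∃ k, D i ≠ 0 → 1 ≤ A i k ∧ D k + 1 = D i := by
    intro i
    by_cases h0 : D i = 0
    · exact ⟨i, fun h => absurd h0 h⟩
    obtain ⟨m, hm⟩ := Nat.exists_eq_succ_of_ne_zero h0
    have h2 := hDs i
    rw [hm, pow_succ', Matrix.mul_apply] at h2
    obtain ⟨k, hk⟩ : ∃ k, 1 ≤ A i k * (A ^ m) k o := by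
      by_contra h0
      push Not at h0
      rw [Finset.sum_eq_zero fun i _ => Nat.lt_one_iff.1 (h0 i)] at h2
      omega
    have hk1 : 1 ≤ A i k := Nat.one_le_iff_ne_zero.2 fun h => by rw [h, zero_mul] at hk; omega
    have hk2 : 1 ≤ (A ^ m) k o := Nat.one_le_iff_ne_zero.2 fun h => by
      rw [h, mul_zero] at hk; omega
    refine ⟨k, fun _ => ⟨hk1, ?_⟩⟩
    have h3 : D k ≤ m := hDm k m hk2
    have h4 : D i ≤ D k + 1 := by
      refine hDm i _ ?_
      rw [pow_succ', Matrix.mul_apply]
      refine le_trans ?_ (Finset.single_le_sum (f := fun l => A i l * (A ^ D k) l o)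
        (fun l _ => Nat.zero_le _) (Finset.mem_univ k))
      exact Nat.mul_le_mul hk1 (hDs k)
    omega
  choose nxt hnxt using hstep
  have hit : ∀ k, k ≤ D i1 → D (nxt^[k] i1) = D i1 - k := by
    intro k
    induction k with
    | zero => intro _; simp
    | succ k ih =>
      intro hk
      rw [Function.iterate_succ_apply']
      have h2 := ih (by omega)
      have h3 := (hnxt (nxt^[k] i1) (by omega)).2
      omega
  refine ⟨D i1 + 1, fun k => if k = 0 then o else nxt^[k - 1] i1, Nat.succ_pos _, by simp, by simp,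
    ?_, ?_, ?_⟩
  · simp only [Nat.add_eq_zero_iff, one_ne_zero, and_false, if_false, Nat.add_sub_cancel]
    exact hD0 _ (by rw [hit _ le_rfl]; omega)
  · intro k hk
    rcases Nat.eq_zero_or_pos k with rfl | hk0
    · simpa using h1
    · have h2 := hit (k - 1) (by omega)
      have h3 := (hnxt (nxt^[k - 1] i1) (by omega)).1
      simp only [if_neg hk0.ne', if_neg (Nat.succ_ne_zero k)]
      rw [← Function.iterate_succ_apply' nxt, show (k - 1).succ = k + 1 - 1 by omega] at h3
      exact h3
  · intro k l hk1 hkp hl1 hlp hkl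
    simp only [if_neg (show k ≠ 0 by omega), if_neg (show l ≠ 0 by omega)] at hkl
    have h2 := hit (k - 1) (by omega)
    have h3 := hit (l - 1) (by omega)
    rw [hkl] at h2
    omega

end Pool.Agent.SSE
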