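import Pool.Agent.SSE.S1a

/-!
# SSE project, hub part, Lemma S1: series of walks

`St Q w V` says `V = w + V Q` (row vectors of power series over `ℤ`). Existence, comparison,
supermultiplicativity.
-/

set_option autoImplicit false

open scoped BigOperators
open Matrix Polynomial

namespace Pool.Agent.SSE

attribute [local instance] Classical.propDecidable

variable {ι : Type} [Fintype ι]

/-- `V = w + V Q` -/
def St (Q : Matrix ι ι ℕ[X]) (w V : ι → PowerSeries ℤ) : Prop :=
  ∀ j, V j = w j + ∑ k, V k * ps (toZ (Q k j))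

theorem coeff_mul_toZ (V : PowerSeries ℤ) (q : ℕ[X]) (n : ℕ) :
    PowerSeries.coeff n (V * ps (toZ q)) =
      ∑ c ∈ Finset.range (n + 1), PowerSeries.coeff c V * (q.coeff (n - c) : ℤ) := by
  rw [PowerSeries.coeff_mul, Finset.Nat.sum_antidiagonal_eq_sum_range_succ
    (fun a b => PowerSeries.coeff a V * PowerSeries.coeff b (ps (toZ q)))]
  refine Finset.sum_congr rfl fun c _ => ?_
  rw [coeff_ps, coeff_toZ]

/-- if the constant coefficient of `q` is zero -/
theorem coeff_mul_toZ' (V : PowerSeries ℤ) {q : ℕ[X]} (hq : q.coeff 0 = 0) (n : ℕ) :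
    PowerSeries.coeff n (V * ps (toZ q)) =
      ∑ c ∈ Finset.range n, PowerSeries.coeff c V * (q.coeff (n - c) : ℤ) := by
  rw [coeff_mul_toZ, Finset.sum_range_succ, Nat.sub_self, hq]
  simp

theorem St.exists {Q : Matrix ι ι ℕ[X]} (hQ : IsPres Q) (w : ι → PowerSeries ℤ) :
    ∃ V, St Q w V := by
  set M : Matrix ι ι (PowerSeries ℤ) := 1 - Matrix.of fun k l => ps (toZ (Q k l)) with hM
  have h1 : IsUnit M.det := by
    rw [PowerSeries.isUnit_iff_constantCoeff, RingHom.map_det]
    have : (PowerSeries.constantCoeff (R := ℤ)).mapMatrix M = 1 := by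
      ext k l
      simp only [hM, map_sub, map_one, Matrix.sub_apply]
      have h2 : (PowerSeries.constantCoeff (R := ℤ)).mapMatrix
          (Matrix.of fun k l => ps (toZ (Q k l))) k l = 0 := by
        simp only [RingHom.mapMatrix_apply, Matrix.map_apply, Matrix.of_apply]
        rw [← PowerSeries.coeff_zero_eq_constantCoeff_apply, coeff_ps, coeff_toZ, hQ]
        rfl
      rw [h2, sub_zero]
    rw [this, det_one]
    exact isUnit_one
  refine ⟨Matrix.vecMul w M⁻¹, fun j => ?_⟩
  have h2 : Matrix.vecMul (Matrix.vecMul w M⁻¹) M = w := by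
    rw [Matrix.vecMul_vecMul, Matrix.nonsing_inv_mul _ h1, Matrix.vecMul_one]
  have h3 : ∑ l, Matrix.vecMul w M⁻¹ l * M l j = w j := congrFun h2 j
  have h4 : ∀ l, M l j = (1 : Matrix ι ι (PowerSeries ℤ)) l j - ps (toZ (Q l j)) := fun l => rfl
  have h5 : ∑ l, Matrix.vecMul w M⁻¹ l * (1 : Matrix ι ι (PowerSeries ℤ)) l j =
      Matrix.vecMul w M⁻¹ j := by
    rw [Finset.sum_eq_single j]
    · rw [Matrix.one_apply_eq, mul_one]
    · intro l _ hl
      rw [Matrix.one_apply_ne hl, mul_zero]
    · intro h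
      exact absurd (Finset.mem_univ _) h
  simp only [h4, mul_sub, Finset.sum_sub_distrib, h5] at h3
  rw [← h3]
  ring

/-- comparison, up to degree `T` -/
theorem le_of_super {Q Q' : Matrix ι ι ℕ[X]} (hQ : IsPres Q) (hQ' : IsPres Q')
    (hle : ∀ i j n, (Q' i j).coeff n ≤ (Q i j).coeff n)
    {w V V' : ι → PowerSeries ℤ} (hw : ∀ j n, 0 ≤ PowerSeries.coeff n (w j)) (T : ℕ)
    (hV : ∀ j n, n < T → PowerSeries.coeff n (w j) +
      PowerSeries.coeff n (∑ k, V k * ps (toZ (Q k j))) ≤ PowerSeries.coeff n (V j))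
    (hV' : St Q' w V') (n : ℕ) (hn : n < T) :
    ∀ j, 0 ≤ PowerSeries.coeff n (V' j) ∧ PowerSeries.coeff n (V' j) ≤ PowerSeries.coeff n (V j) := by
  induction n using Nat.strong_induction_on with
  | _ n ih =>
    intro j
    rw [hV' j, map_add]
    have h1 : 0 ≤ PowerSeries.coeff n (∑ k, V' k * ps (toZ (Q' k j))) ∧
        PowerSeries.coeff n (∑ k, V' k * ps (toZ (Q' k j))) ≤
        PowerSeries.coeff n (∑ k, V k * ps (toZ (Q k j))) := by
      rw [map_sum, map_sum]
      constructor
      · refine Finset.sum_nonneg fun k _ => ?_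
        rw [coeff_mul_toZ' _ (hQ' k j)]
        refine Finset.sum_nonneg fun c hc => ?_
        have hc' := Finset.mem_range.1 hc
        exact mul_nonneg (ih c hc' (hc'.trans hn) k).1 (by positivity)
      · refine Finset.sum_le_sum fun k _ => ?_
        rw [coeff_mul_toZ' _ (hQ' k j), coeff_mul_toZ' _ (hQ k j)]
        refine Finset.sum_le_sum fun c hc => ?_
        have hc' := Finset.mem_range.1 hc
        have h2 := ih c hc' (hc'.trans hn) k
        calc PowerSeries.coeff c (V' k) * ((Q' k j).coeff (n - c) : ℤ) ≤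
            PowerSeries.coeff c (V' k) * ((Q k j).coeff (n - c) : ℤ) :=
              mul_le_mul_of_nonneg_left (by exact_mod_cast hle _ _ _) h2.1
          _ ≤ _ := mul_le_mul_of_nonneg_right h2.2 (by positivity)
    have h3 := hV j n hn
    exact ⟨add_nonneg (hw _ _) h1.1, by linarith [h1.2]⟩

theorem St.nonneg {Q : Matrix ι ι ℕ[X]} (hQ : IsPres Q) {w V : ι → PowerSeries ℤ} (h : St Q w V)
    (hw : ∀ j n, 0 ≤ PowerSeries.coeff n (w j)) (j : ι) (n : ℕ) :
    0 ≤ PowerSeries.coeff n (V j) := by
  refine (le_of_super (V := V) hQ hQ (fun _ _ _ => le_rfl) hw (n + 1) ?_ h n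
    (Nat.lt_succ_self n) j).1
  intro j n _
  conv_rhs => rw [h j, map_add]

/-- uniqueness, up to degree `T` -/
theorem St.unique {Q : Matrix ι ι ℕ[X]} (hQ : IsPres Q) {w w' V V' : ι → PowerSeries ℤ}
    (h : St Q w V) (h' : St Q w' V') (T : ℕ)
    (hw : ∀ j n, n < T → PowerSeries.coeff n (w j) = PowerSeries.coeff n (w' j)) (n : ℕ)
    (hn : n < T) : ∀ j, PowerSeries.coeff n (V j) = PowerSeries.coeff n (V' j) := by
  induction n using Nat.strong_induction_on with
  | _ n ih =>
    intro j
    rw [h j, h' j, map_add, map_add, hw j n hn, map_sum, map_sum]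
    congr 1
    refine Finset.sum_congr rfl fun k _ => ?_
    rw [coeff_mul_toZ' _ (hQ k j), coeff_mul_toZ' _ (hQ k j)]
    refine Finset.sum_congr rfl fun c hc => ?_
    have hc' := Finset.mem_range.1 hc
    rw [ih c hc' (hc'.trans hn) k]

/-- the power series `1` at the vertex `i` -/
noncomputable def e1 (i : ι) : ι → PowerSeries ℤ := Pi.single i 1

omit [Fintype ι] in
lemma coeff_e1 (i j : ι) (n : ℕ) : PowerSeries.coeff n (e1 i j) = if n = 0 ∧ j = i then 1 else 0 := by
  unfold e1
  by_cases hj : j = i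
  · subst hj
    rw [Pi.single_eq_same, PowerSeries.coeff_one]
    simp
  · rw [Pi.single_eq_of_ne hj]
    simp [hj]

omit [Fintype ι] in
lemma e1_nonneg (i j : ι) (n : ℕ) : 0 ≤ PowerSeries.coeff n (e1 i j) := by
  rw [coeff_e1]
  split_ifs <;> norm_num

/-- supermultiplicativity: a walk of length `a` to `k` followed by a walk of length `b` from `k` -/
theorem St.mul_le {Q : Matrix ι ι ℕ[X]} (hQ : IsPres Q) {w V U : ι → PowerSeries ℤ}
    (h : St Q w V) (hw : ∀ j n, 0 ≤ PowerSeries.coeff n (w j)) {k : ι} (hU : St Q (e1 k) U)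
    (a b : ℕ) (j : ι) :
    PowerSeries.coeff a (V k) * PowerSeries.coeff b (U j) ≤ PowerSeries.coeff (a + b) (V j) := by
  have hVn := h.nonneg hQ hw
  set c := PowerSeries.coeff a (V k) with hc
  have hc0 : 0 ≤ c := hVn _ _
  -- the shifted series
  set V1 : ι → PowerSeries ℤ := fun j => PowerSeries.mk fun n => PowerSeries.coeff (a + n) (V j)
    with hV1
  have hcU : St Q (fun j => PowerSeries.C c * e1 k j) (fun j => PowerSeries.C c * U j) := by
    intro j
    simp only
    rw [hU j, mul_add, Finset.mul_sum]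
    simp only [mul_assoc]
  have h1 := le_of_super (V := V1) hQ hQ (fun _ _ _ => le_rfl)
    (w := fun j => PowerSeries.C c * e1 k j) (by
      intro j n
      rw [PowerSeries.coeff_C_mul]
      exact mul_nonneg hc0 (e1_nonneg _ _ _)) (b + 1) (by
      intro j n _
      rw [PowerSeries.coeff_C_mul, coeff_e1]
      simp only [hV1, PowerSeries.coeff_mk]
      rcases Nat.eq_zero_or_pos n with rfl | hn
      · have h2 : PowerSeries.coeff 0 (∑ l, (PowerSeries.mk fun n => PowerSeries.coeff (a + n) (V l)) *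
            ps (toZ (Q l j))) = 0 := by
          rw [map_sum]
          refine Finset.sum_eq_zero fun l _ => ?_
          rw [coeff_mul_toZ' _ (hQ l j)]
          simp
        rw [h2]
        by_cases hj : j = k
        · subst hj
          simp [hc]
        · simp only [hj, and_false, if_false, mul_zero, add_zero]
          exact hVn _ _
      · rw [if_neg (by omega), mul_zero, zero_add, h j, map_add, map_sum, map_sum]
        refine le_add_of_nonneg_of_le (hw _ _) (Finset.sum_le_sum fun l _ => ?_)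
        rw [coeff_mul_toZ' _ (hQ l j), coeff_mul_toZ' _ (hQ l j), Finset.sum_range_add]
        refine le_add_of_nonneg_of_le (Finset.sum_nonneg fun x _ => mul_nonneg (hVn _ _)
          (by positivity)) (Finset.sum_le_sum fun x hx => ?_)
        have hx' := Finset.mem_range.1 hx
        rw [PowerSeries.coeff_mk, show a + n - (a + x) = n - x by omega]) hcU b
      (Nat.lt_succ_self b) j
  have h2 := h1.2
  rw [PowerSeries.coeff_C_mul] at h2
  simpa [hV1] using h2

/-- a nonnegative series is at least its first term -/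
theorem St.ge_w {Q : Matrix ι ι ℕ[X]} (hQ : IsPres Q) {w V : ι → PowerSeries ℤ}
    (h : St Q w V) (hw : ∀ j n, 0 ≤ PowerSeries.coeff n (w j)) (j : ι) (n : ℕ) :
    PowerSeries.coeff n (w j) ≤ PowerSeries.coeff n (V j) := by
  have hVn := h.nonneg hQ hw
  conv_rhs => rw [h j, map_add, map_sum]
  refine le_add_of_nonneg_right (Finset.sum_nonneg fun k _ => ?_)
  rw [coeff_mul_toZ]
  exact Finset.sum_nonneg fun c _ => mul_nonneg (hVn _ _) (by positivity)

/-- one step of a walk -/
theorem St.step {Q : Matrix ι ι ℕ[X]} (hQ : IsPres Q) {w V : ι → PowerSeries ℤ}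
    (h : St Q w V) (hw : ∀ j n, 0 ≤ PowerSeries.coeff n (w j)) (k j : ι) (a b : ℕ) :
    PowerSeries.coeff a (V k) * ((Q k j).coeff b : ℤ) ≤ PowerSeries.coeff (a + b) (V j) := by
  have hVn := h.nonneg hQ hw
  conv_rhs => rw [h j, map_add, map_sum]
  refine le_add_of_nonneg_of_le (hw _ _) ?_
  refine le_trans ?_ (Finset.single_le_sum
    (f := fun l => PowerSeries.coeff (a + b) (V l * ps (toZ (Q l j)))) (fun l _ => ?_)
    (Finset.mem_univ k))
  · rw [coeff_mul_toZ]
    refine le_trans (le_of_eq ?_) (Finset.single_le_sum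
      (f := fun c => PowerSeries.coeff c (V k) * ((Q k j).coeff (a + b - c) : ℤ))
      (fun c _ => mul_nonneg (hVn _ _) (by positivity)) (Finset.mem_range.2
        (show a < a + b + 1 by omega)))
    rw [show a + b - a = b by omega]
  · rw [coeff_mul_toZ]
    exact Finset.sum_nonneg fun c _ => mul_nonneg (hVn _ _) (by positivity)

end Pool.Agent.SSE
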