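import Pool.Agent.SSE.S1b
import Pool.Agent.SSE.PresOf

/-!
# SSE project, hub part, Lemma S1: the environment
-/

set_option autoImplicit false

open scoped BigOperators
open Matrix Polynomial

namespace Pool.Agent.SSE

attribute [local instance] Classical.propDecidable

variable {ι : Type} [Fintype ι]

/-- the algebraic identity behind the environment -/
theorem env_identity {R' : Type} [CommRing R'] (x : R') (a : ι → ι → R') (V0 w : ι → R')
    (c : ℕ → ι) (o : ι) (q : ℕ) (h0 : c 0 = o) (hq : c (q + 1) = o)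
    (hne : ∀ k, k < q → c (k + 1) ≠ o) (hV0 : ∀ j, V0 j = w j + ∑ i, V0 i * a i j)
    (r : ι → R') (hr : ∀ j, r j = ∑ k ∈ Finset.range (q + 1),
      x ^ k * (a (c k) j - if j = c (k + 1) then x else 0)) (S T : R')
    (hS : (1 - x ^ (q + 1)) * S = 1 - T) (g Vb : ι → R')
    (hg : ∀ j, g j = ∑ k ∈ Finset.range (q + 1), if j = c (k + 1) then x ^ (k + 1) else 0)
    (hVb : ∀ j, Vb j = V0 j - g j * V0 o) (j : ι) :
    Vb j = (w j + T * (V0 o * r j)) + ∑ i, Vb i * (if i = o then S * r j else a i j) := by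
  have hgo : g o = x ^ (q + 1) := by
    rw [hg, Finset.sum_range_succ, Finset.sum_eq_zero, zero_add, if_pos hq.symm]
    intro k hk
    rw [if_neg fun h => hne k (Finset.mem_range.1 hk) h.symm]
  set Z := ∑ k ∈ Finset.range q, x ^ (k + 1) * a (c (k + 1)) j with hZ
  have hga : ∑ i, g i * a i j = Z + x ^ (q + 1) * a o j := by
    simp only [hg, Finset.sum_mul]
    rw [Finset.sum_comm, Finset.sum_range_succ]
    have h1 : ∀ k, ∑ i, (if i = c (k + 1) then x ^ (k + 1) else 0) * a i j =
        x ^ (k + 1) * a (c (k + 1)) j := by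
      intro k
      rw [Finset.sum_eq_single (c (k + 1))]
      · rw [if_pos rfl]
      · intro i _ hi
        rw [if_neg hi, zero_mul]
      · intro h
        exact absurd (Finset.mem_univ _) h
    rw [h1, hq]
    simp only [h1]
    rfl
  have hrj : r j = a o j + Z - g j := by
    rw [hr, hg]
    have h1 : ∀ k, x ^ k * (a (c k) j - if j = c (k + 1) then x else 0) =
        x ^ k * a (c k) j - if j = c (k + 1) then x ^ (k + 1) else 0 := by
      intro k
      split_ifs
      · ring
      · ring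
    simp only [h1, Finset.sum_sub_distrib]
    congr 1
    rw [Finset.sum_range_succ', h0, pow_zero, one_mul]
    ring
  have hsum : ∑ i, Vb i * (if i = o then S * r j else a i j) =
      Vb o * (S * r j) - Vb o * a o j + ∑ i, Vb i * a i j := by
    have h1 : ∀ i, Vb i * (if i = o then S * r j else a i j) =
        (if i = o then Vb o * (S * r j) - Vb o * a o j else 0) + Vb i * a i j := by
      intro i
      split_ifs with h
      · rw [h]; ring
      · ring
    simp only [h1, Finset.sum_add_distrib, Finset.sum_ite_eq', Finset.mem_univ, if_true]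
  have hVa : ∑ i, Vb i * a i j = (V0 j - w j) - V0 o * (Z + x ^ (q + 1) * a o j) := by
    have h1 : V0 j - w j = ∑ i, V0 i * a i j := by
      rw [hV0 j]; ring
    rw [← hga, Finset.mul_sum, h1, ← Finset.sum_sub_distrib]
    refine Finset.sum_congr rfl fun i _ => ?_
    rw [hVb]
    ring
  have hVo : Vb o = (1 - x ^ (q + 1)) * V0 o := by
    rw [hVb, hgo]; ring
  rw [hsum, hVa, hVo, hVb]
  have h3 : (1 - x ^ (q + 1)) * V0 o * (S * r j) = (1 - T) * (V0 o * r j) := by
    rw [← hS]; ring
  rw [h3]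
  linear_combination (-(V0 o)) * hrj

section env

variable (A : Matrix ι ι ℕ) (o : ι) (p : ℕ) (c : ℕ → ι)

/-- the row of `o` without the cycle -/
noncomputable def rrow (j : ι) : ℕ[X] :=
  ∑ k ∈ Finset.range p, X ^ k * (C (A (c k) j - if j = c (k + 1) then 1 else 0) * X)

/-- `1 + X ^ p + ... + X ^ (p J)` -/
noncomputable def sgeo (J : ℕ) : ℕ[X] := ∑ m ∈ Finset.range (J + 1), X ^ (p * m)

/-- the environment -/
noncomputable def env (J : ℕ) : Matrix ι ι ℕ[X] :=
  fun i j => if i = o then sgeo p J * rrow A p c j else C (A i j) * X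

omit [Fintype ι] in
lemma rrow_zero (j : ι) : (rrow A p c j).coeff 0 = 0 := by
  unfold rrow
  rw [finsetSum_coeff]
  refine Finset.sum_eq_zero fun k _ => ?_
  rw [mul_coeff_zero, mul_coeff_zero]
  simp

omit [Fintype ι] in
lemma isPres_env (J : ℕ) : IsPres (env A o p c J) := by
  intro i j
  unfold env
  split_ifs
  · rw [mul_coeff_zero, rrow_zero, mul_zero]
  · simp

end env

/-- the powers of `A` as walks -/
theorem St_pow (A : Matrix ι ι ℕ) (o : ι) :
    St (ofMat A) (e1 o) (fun j => PowerSeries.mk fun d => ((A ^ d) o j : ℤ)) := by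
  intro j
  ext n
  rw [PowerSeries.coeff_mk, map_add, map_sum, coeff_e1]
  rcases n with _ | n
  · rw [Finset.sum_eq_zero, add_zero, pow_zero, Matrix.one_apply]
    · simp [eq_comm]
    · intro k _
      rw [coeff_mul_toZ' _ (isPres_ofMat A k j)]
      simp
  · rw [if_neg (by simp), zero_add, pow_succ, Matrix.mul_apply]
    push_cast
    refine Finset.sum_congr rfl fun k _ => ?_
    rw [coeff_mul_toZ' _ (isPres_ofMat A k j), Finset.sum_range_succ, Finset.sum_eq_zero, zero_add]
    · rw [PowerSeries.coeff_mk, show n + 1 - n = 1 by omega]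
      simp [ofMat]
    · intro m hm
      have hm' := Finset.mem_range.1 hm
      have h1 : (ofMat A k j).coeff (n + 1 - m) = 0 := by
        unfold ofMat
        rw [coeff_C_mul, coeff_X, if_neg (by omega), mul_zero]
      rw [h1]
      simp

theorem toZ_sgeo (p J : ℕ) : (1 - (X : ℤ[X]) ^ p) * toZ (sgeo p J) = 1 - X ^ (p * (J + 1)) := by
  have h1 : toZ (sgeo p J) = ∑ m ∈ Finset.range (J + 1), ((X : ℤ[X]) ^ p) ^ m := by
    unfold sgeo toZ
    rw [Polynomial.map_sum]
    refine Finset.sum_congr rfl fun m _ => ?_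
    simp [pow_mul]
  rw [h1, mul_comm, geom_sum_mul_neg, ← pow_mul]

/-- the data of a good cycle -/
structure Cyc (A : Matrix ι ι ℕ) (o j' : ι) (q : ℕ) (c : ℕ → ι) : Prop where
  zero : c 0 = o
  last : c (q + 1) = o
  edge : ∀ k, k < q + 1 → 1 ≤ A (c k) (c (k + 1))
  inj : ∀ k l, k < q + 1 → l < q + 1 → c (k + 1) = c (l + 1) → k = l
  col : ∀ i, (if i = o then 1 else 0) + (if i = j' then 1 else 0) ≤ A i (c 1)

omit [Fintype ι] in
theorem Cyc.ne {A : Matrix ι ι ℕ} {o j' : ι} {q : ℕ} {c : ℕ → ι} (h : Cyc A o j' q c) (k : ℕ)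
    (hk : k < q) : c (k + 1) ≠ o := by
  intro h1
  have := h.inj k q (by omega) (by omega) (by rw [h1, h.last])
  omega

theorem exists_Cyc [Nonempty ι] {A : Matrix ι ι ℕ} {p : ℕ} (h : ∀ i j, 2 ≤ (A ^ p) i j) :
    ∃ (o j' : ι) (q : ℕ) (c : ℕ → ι), Cyc A o j' q c := by
  obtain ⟨i1, o, j', hcol⟩ := exists_col h
  have h1 : 1 ≤ A o i1 := by
    have := hcol o
    rw [if_pos rfl] at this
    omega
  obtain ⟨p', c, hp', c0, c1, cp, hedge, hinj⟩ := exists_cycle h1
    (fun i => ⟨p, le_trans (by norm_num) (h i o)⟩)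
  obtain ⟨q, rfl⟩ : ∃ q, p' = q + 1 := ⟨p' - 1, by omega⟩
  refine ⟨o, j', q, c, c0, cp, hedge, fun k l hk hl hkl => ?_, by rwa [c1]⟩
  have := hinj (k + 1) (l + 1) (by omega) (by omega) (by omega) (by omega) hkl
  omega

/-- a walk along the cycle -/
theorem Cyc.pow_ge {A : Matrix ι ι ℕ} {o j' : ι} {q : ℕ} {c : ℕ → ι} (h : Cyc A o j' q c) (k : ℕ)
    (hk : k < q + 1) (l : ι) :
    (if l = o then 1 else 0) + (if l = j' then 1 else 0) ≤ (A ^ (k + 1)) l (c (k + 1)) := by
  induction k with
  | zero => simpa using h.col l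
  | succ k ih =>
    refine (ih (by omega)).trans ?_
    rw [pow_succ _ (k + 1), Matrix.mul_apply]
    refine le_trans ?_ (Finset.single_le_sum
      (f := fun i => (A ^ (k + 1)) l i * A i (c (k + 1 + 1))) (fun i _ => Nat.zero_le _)
      (Finset.mem_univ (c (k + 1))))
    exact Nat.le_mul_of_pos_right _ (h.edge (k + 1) hk)

theorem ps_X_pow (n : ℕ) : ps (X ^ n : ℤ[X]) = (PowerSeries.X : PowerSeries ℤ) ^ n := by
  unfold ps
  rw [Polynomial.coe_pow, Polynomial.coe_X]

omit [Fintype ι] in
theorem ps_toZ_rrow {A : Matrix ι ι ℕ} {o j' : ι} {q : ℕ} {c : ℕ → ι} (h : Cyc A o j' q c)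
    (j : ι) : ps (toZ (rrow A (q + 1) c j)) = ∑ k ∈ Finset.range (q + 1),
      (PowerSeries.X : PowerSeries ℤ) ^ k * (ps (toZ (ofMat A (c k) j)) -
        if j = c (k + 1) then PowerSeries.X else 0) := by
  have h1 : toZ (rrow A (q + 1) c j) = ∑ k ∈ Finset.range (q + 1),
      (X : ℤ[X]) ^ k * (toZ (ofMat A (c k) j) - if j = c (k + 1) then X else 0) := by
    unfold rrow toZ
    rw [Polynomial.map_sum]
    refine Finset.sum_congr rfl fun k hk => ?_
    have hk' := Finset.mem_range.1 hk
    rw [Polynomial.map_mul, Polynomial.map_mul, Polynomial.map_pow, Polynomial.map_X,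
      Polynomial.map_C]
    congr 1
    unfold ofMat
    rw [Polynomial.map_mul, Polynomial.map_X, Polynomial.map_C]
    split_ifs with hj
    · have h2 := h.edge k hk'
      rw [hj]
      obtain ⟨t, ht⟩ : ∃ t, A (c k) (c (k + 1)) = t + 1 := ⟨_, (Nat.sub_add_cancel h2).symm⟩
      rw [ht, Nat.add_sub_cancel]
      simp
      ring
    · simp
  rw [h1, ps_sum]
  refine Finset.sum_congr rfl fun k _ => ?_
  rw [ps_mul, ps_sub, ps_X_pow]
  congr 2
  split_ifs
  · exact Polynomial.coe_X
  · exact Polynomial.coe_zero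

end Pool.Agent.SSE
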