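import Pool.Agent.SSE.S1c

/-!
# SSE project, hub part, Lemma S1: growth in the environment
-/

set_option autoImplicit false

open scoped BigOperators
open Matrix Polynomial

namespace Pool.Agent.SSE

attribute [local instance] Classical.propDecidable

variable {ι : Type} [Fintype ι]

/-- the series of walks of `A` -/
noncomputable def V0 (A : Matrix ι ι ℕ) (o j : ι) : PowerSeries ℤ :=
  PowerSeries.mk fun d => ((A ^ d) o j : ℤ)

/-- the part which is subtracted -/
noncomputable def gg (q : ℕ) (c : ℕ → ι) (j : ι) : PowerSeries ℤ :=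
  ∑ k ∈ Finset.range (q + 1), if j = c (k + 1) then PowerSeries.X ^ (k + 1) else 0

/-- the walks in the environment, in the limit -/
noncomputable def Vb (A : Matrix ι ι ℕ) (o : ι) (q : ℕ) (c : ℕ → ι) (j : ι) : PowerSeries ℤ :=
  V0 A o j - gg q c j * V0 A o o

theorem Cyc.St_Vb {A : Matrix ι ι ℕ} {o j' : ι} {q : ℕ} {c : ℕ → ι} (h : Cyc A o j' q c) (J : ℕ) :
    St (env A o (q + 1) c J) (fun j => e1 o j + PowerSeries.X ^ ((q + 1) * (J + 1)) *
      (V0 A o o * ps (toZ (rrow A (q + 1) c j)))) (Vb A o q c) := by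
  intro j
  have h1 := env_identity (PowerSeries.X : PowerSeries ℤ) (fun i j => ps (toZ (ofMat A i j)))
    (V0 A o) (e1 o) c o q h.zero h.last (fun k hk => h.ne k hk) (St_pow A o)
    (fun j => ps (toZ (rrow A (q + 1) c j))) (ps_toZ_rrow h)
    (ps (toZ (sgeo (q + 1) J))) (PowerSeries.X ^ ((q + 1) * (J + 1))) (by
      have := congrArg ps (toZ_sgeo (q + 1) J)
      rw [ps_mul, ps_sub, ps_sub, ps_X_pow, ps_X_pow] at this
      have e : ps (1 : ℤ[X]) = 1 := Polynomial.coe_one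
      rwa [e] at this) (gg q c) (Vb A o q c) (fun j => rfl) (fun j => rfl) j
  rw [h1]
  congr 1
  refine Finset.sum_congr rfl fun i _ => ?_
  congr 1
  unfold env
  split_ifs with hi
  · rw [← ps_mul]
    unfold toZ
    rw [Polynomial.map_mul]
  · rfl

omit [Fintype ι] in
theorem coeff_gg_mul (q : ℕ) (c : ℕ → ι) (j : ι) (W : PowerSeries ℤ) (d : ℕ) :
    PowerSeries.coeff d (gg q c j * W) = ∑ k ∈ Finset.range (q + 1),
      if j = c (k + 1) ∧ k + 1 ≤ d then PowerSeries.coeff (d - (k + 1)) W else 0 := by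
  unfold gg
  rw [Finset.sum_mul, map_sum]
  refine Finset.sum_congr rfl fun k _ => ?_
  by_cases hj : j = c (k + 1)
  · rw [if_pos hj, PowerSeries.coeff_X_pow_mul']
    simp only [hj, true_and]
  · rw [if_neg hj, zero_mul, map_zero, if_neg fun h => hj h.1]

theorem Cyc.Vb_large {A : Matrix ι ι ℕ} {o j' : ι} {q : ℕ} {c : ℕ → ι} (h : Cyc A o j' q c)
    {N D : ℕ} (hD : ∀ d, D ≤ d → ∀ i j, N ≤ (A ^ d) i j) (d : ℕ) (hd : D + (q + 1) ≤ d) (j : ι) :
    (N : ℤ) ≤ PowerSeries.coeff d (Vb A o q c j) := by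
  unfold Vb
  rw [map_sub, coeff_gg_mul]
  have e1 : ∀ i d, PowerSeries.coeff d (V0 A o i) = ((A ^ d) o i : ℤ) := by
    intro i d
    unfold V0
    rw [PowerSeries.coeff_mk]
  simp only [e1]
  by_cases hj : ∃ k, k < q + 1 ∧ j = c (k + 1)
  · obtain ⟨k, hk, rfl⟩ := hj
    rw [Finset.sum_eq_single k]
    · rw [if_pos ⟨rfl, by omega⟩]
      have h1 := h.pow_ge k hk
      have h2 : (A ^ (d - (k + 1))) o o + (A ^ (d - (k + 1))) o j' ≤ (A ^ d) o (c (k + 1)) := by
        conv_rhs => rw [show d = (d - (k + 1)) + (k + 1) by omega, pow_add, Matrix.mul_apply]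
        calc (A ^ (d - (k + 1))) o o + (A ^ (d - (k + 1))) o j' =
            ∑ l, (A ^ (d - (k + 1))) o l * ((if l = o then 1 else 0) + (if l = j' then 1 else 0)) := by
              simp only [mul_add, mul_ite, mul_one, mul_zero, Finset.sum_add_distrib,
                Finset.sum_ite_eq', Finset.mem_univ, if_true]
          _ ≤ _ := Finset.sum_le_sum fun l _ => Nat.mul_le_mul_left _ (h1 l)
      have h3 := hD (d - (k + 1)) (by omega) o j'
      have h4 : (N : ℤ) ≤ ((A ^ (d - (k + 1))) o j' : ℤ) := by exact_mod_cast h3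
      have h5 : (((A ^ (d - (k + 1))) o o : ℤ)) + ((A ^ (d - (k + 1))) o j' : ℤ) ≤
          ((A ^ d) o (c (k + 1)) : ℤ) := by exact_mod_cast h2
      linarith
    · intro l hl hlk
      have hl' := Finset.mem_range.1 hl
      rw [if_neg]
      rintro ⟨h1, -⟩
      exact hlk (h.inj k l hk hl' h1).symm
    · intro hk'
      exact absurd (Finset.mem_range.2 hk) hk'
  · rw [Finset.sum_eq_zero]
    · rw [sub_zero]
      exact_mod_cast hD d (by omega) o j
    · intro k hk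
      rw [if_neg]
      rintro ⟨h1, -⟩
      exact hj ⟨k, Finset.mem_range.1 hk, h1⟩

theorem coeff_X_pow_mul_lt {T n : ℕ} (h : n < T) (W : PowerSeries ℤ) :
    PowerSeries.coeff n (PowerSeries.X ^ T * W) = 0 := by
  rw [PowerSeries.coeff_X_pow_mul', if_neg (by omega)]

/-- the walks from `o` in the environment have large coefficients -/
theorem Cyc.env_start {A : Matrix ι ι ℕ} {o j' : ι} {q : ℕ} {c : ℕ → ι} (h : Cyc A o j' q c)
    {p : ℕ} (hp : 0 < p) (hA : ∀ i j, 2 ≤ (A ^ p) i j) :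
    ∃ d1 J : ℕ, 0 < d1 ∧ ∀ V, St (env A o (q + 1) c J) (e1 o) V → ∀ j,
      2 ≤ PowerSeries.coeff d1 (V j) ∧ 2 ≤ PowerSeries.coeff (d1 + 1) (V j) := by
  obtain ⟨D, hD⟩ := growth_large hp hA 2
  refine ⟨D + (q + 1), D + (q + 1) + 1, by omega, fun V hV j => ?_⟩
  set J := D + (q + 1) + 1 with hJ
  have hT : D + (q + 1) + 1 < (q + 1) * (J + 1) := by
    calc D + (q + 1) + 1 < J + 1 := by omega
      _ = 1 * (J + 1) := (one_mul _).symm
      _ ≤ (q + 1) * (J + 1) := Nat.mul_le_mul_right _ (by omega)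
  have h1 := fun n hn => St.unique (isPres_env A o (q + 1) c J) (h.St_Vb J) hV
    ((q + 1) * (J + 1)) (fun j n hn => by rw [map_add, coeff_X_pow_mul_lt hn, add_zero]) n hn j
  rw [← h1 _ (by omega : D + (q + 1) < (q + 1) * (J + 1)), ← h1 _ hT]
  have h2 := h.Vb_large hD (D + (q + 1)) le_rfl j
  have h3 := h.Vb_large hD (D + (q + 1) + 1) (by omega) j
  exact ⟨by exact_mod_cast h2, by exact_mod_cast h3⟩

/-- growth from two lengths -/
theorem St.pow_growth {Q : Matrix ι ι ℕ[X]} (hQ : IsPres Q) {o : ι} {V : ι → PowerSeries ℤ}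
    (h : St Q (e1 o) V) {d1 : ℕ} (h1 : 2 ≤ PowerSeries.coeff d1 (V o))
    (h2 : 2 ≤ PowerSeries.coeff (d1 + 1) (V o)) (a b : ℕ) :
    (2 : ℤ) ^ (a + b) ≤ PowerSeries.coeff (a * d1 + b * (d1 + 1)) (V o) := by
  induction a with
  | zero =>
    induction b with
    | zero =>
      have := h.ge_w hQ (e1_nonneg o) o 0
      rw [coeff_e1, if_pos ⟨rfl, rfl⟩] at this
      simpa using this
    | succ b ih =>
      have h3 := h.mul_le hQ (e1_nonneg o) h (0 * d1 + b * (d1 + 1)) (d1 + 1) o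
      rw [show 0 * d1 + (b + 1) * (d1 + 1) = 0 * d1 + b * (d1 + 1) + (d1 + 1) by ring]
      refine le_trans ?_ h3
      rw [show 0 + (b + 1) = (0 + b) + 1 by ring, pow_succ]
      exact mul_le_mul ih h2 (by norm_num) (le_trans (by positivity) ih)
  | succ a ih =>
    have h3 := h.mul_le hQ (e1_nonneg o) h (a * d1 + b * (d1 + 1)) d1 o
    rw [show (a + 1) * d1 + b * (d1 + 1) = a * d1 + b * (d1 + 1) + d1 by ring]
    refine le_trans ?_ h3
    rw [show a + 1 + b = (a + b) + 1 by ring, pow_succ]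
    exact mul_le_mul ih h1 (by norm_num) (le_trans (by positivity) ih)

theorem St.large {Q : Matrix ι ι ℕ[X]} (hQ : IsPres Q) {o : ι} {V : ι → PowerSeries ℤ}
    (h : St Q (e1 o) V) {d1 : ℕ} (hd1 : 0 < d1) (h1 : ∀ j, 2 ≤ PowerSeries.coeff d1 (V j))
    (h2 : 2 ≤ PowerSeries.coeff (d1 + 1) (V o)) (N : ℕ) :
    ∃ D, ∀ d, D ≤ d → ∀ j, (N : ℤ) ≤ PowerSeries.coeff d (V j) := by
  refine ⟨d1 * (N + d1 + 1) + d1, fun d hd j => ?_⟩
  obtain ⟨q, s, hs, hq, hd'⟩ : ∃ q s, s < d1 ∧ N + d1 + 1 ≤ q ∧ d = (d1 * q + s) + d1 :=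
    ⟨(d - d1) / d1, (d - d1) % d1, Nat.mod_lt _ hd1,
      (Nat.le_div_iff_mul_le hd1).2 (by rw [mul_comm]; omega),
      by rw [Nat.div_add_mod (d - d1) d1]; omega⟩
  have h3 := h.pow_growth hQ (h1 o) h2 (q - s) s
  have h4 : (q - s) * d1 + s * (d1 + 1) = d1 * q + s := by
    obtain ⟨t, rfl⟩ : ∃ t, q = t + s := ⟨q - s, by omega⟩
    rw [Nat.add_sub_cancel]
    ring
  rw [h4, show q - s + s = q by omega] at h3
  have h5 := h.mul_le hQ (e1_nonneg o) h (d1 * q + s) d1 j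
  rw [hd']
  refine le_trans ?_ h5
  have h6 : (N : ℤ) ≤ 2 ^ q := by
    have h7 := Nat.lt_two_pow_self (n := q)
    have h8 : N ≤ 2 ^ q := by omega
    exact_mod_cast h8
  have h9 : (0 : ℤ) ≤ PowerSeries.coeff (d1 * q + s) (V o) := le_trans (by positivity) h3
  have h10 := h1 j
  nlinarith

/-- every vertex reaches `o` in the environment -/
theorem env_reach {A : Matrix ι ι ℕ} {o : ι} {p : ℕ} {c : ℕ → ι} (J m : ℕ) :
    ∀ j, 1 ≤ (A ^ m) j o → ∀ U, St (env A o p c J) (e1 j) U →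
      ∃ e, 1 ≤ PowerSeries.coeff e (U o) := by
  induction m with
  | zero =>
    intro j hj U hU
    rw [pow_zero, Matrix.one_apply] at hj
    have hjo : j = o := by
      by_contra hne
      rw [if_neg hne] at hj
      omega
    subst hjo
    refine ⟨0, ?_⟩
    have := hU.ge_w (isPres_env A j p c J) (e1_nonneg j) j 0
    rwa [coeff_e1, if_pos ⟨rfl, rfl⟩] at this
  | succ m ih =>
    intro j hj U hU
    have hQ := isPres_env A o p c J
    have hU0 : 1 ≤ PowerSeries.coeff 0 (U j) := by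
      have := hU.ge_w hQ (e1_nonneg j) j 0
      rwa [coeff_e1, if_pos ⟨rfl, rfl⟩] at this
    by_cases hjo : j = o
    · subst hjo
      exact ⟨0, hU0⟩
    rw [pow_succ', Matrix.mul_apply] at hj
    obtain ⟨k, hk⟩ : ∃ k, 1 ≤ A j k * (A ^ m) k o := by
      by_contra h0
      push Not at h0
      rw [Finset.sum_eq_zero fun i _ => Nat.lt_one_iff.1 (h0 i)] at hj
      omega
    have hk1 : 1 ≤ A j k := Nat.one_le_iff_ne_zero.2 fun h => by rw [h, zero_mul] at hk; omega
    have hk2 : 1 ≤ (A ^ m) k o := Nat.one_le_iff_ne_zero.2 fun h => by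
      rw [h, mul_zero] at hk; omega
    obtain ⟨Uk, hUk⟩ := St.exists hQ (e1 k)
    obtain ⟨e, he⟩ := ih k hk2 Uk hUk
    have h1 : 1 ≤ PowerSeries.coeff (0 + 1) (U k) := by
      refine le_trans ?_ (hU.step hQ (e1_nonneg j) j k 0 1)
      have h2 : (env A o p c J j k).coeff 1 = A j k := by
        unfold env
        rw [if_neg hjo]
        simp
      rw [h2]
      have h3 : (1 : ℤ) ≤ (A j k : ℤ) := by exact_mod_cast hk1
      nlinarith
    refine ⟨0 + 1 + e, le_trans ?_ (hU.mul_le hQ (e1_nonneg j) hUk (0 + 1) e o)⟩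
    nlinarith

/-- all series of walks in the environment have coefficients tending to infinity -/
theorem env_large {A : Matrix ι ι ℕ} {o : ι} {p : ℕ} {c : ℕ → ι} {J d1 p0 : ℕ} (hd1 : 0 < d1)
    (hA : ∀ i j, 2 ≤ (A ^ p0) i j)
    (h : ∀ V, St (env A o p c J) (e1 o) V → ∀ j,
      2 ≤ PowerSeries.coeff d1 (V j) ∧ 2 ≤ PowerSeries.coeff (d1 + 1) (V j))
    {w V : ι → PowerSeries ℤ} (hw : ∀ j n, 0 ≤ PowerSeries.coeff n (w j))
    (hV : St (env A o p c J) w V) (hw1 : ∃ i e, 1 ≤ PowerSeries.coeff e (w i)) (N : ℕ) :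
    ∃ D, ∀ d, D ≤ d → ∀ j, (N : ℤ) ≤ PowerSeries.coeff d (V j) := by
  have hQ := isPres_env A o p c J
  obtain ⟨i, e, hie⟩ := hw1
  obtain ⟨Vo, hVo⟩ := St.exists hQ (e1 o)
  obtain ⟨Ui, hUi⟩ := St.exists hQ (e1 i)
  obtain ⟨e', he'⟩ := env_reach J p0 i (le_trans (by norm_num) (hA i o)) Ui hUi
  obtain ⟨D, hD⟩ := hVo.large hQ hd1 (fun j => (h Vo hVo j).1) (h Vo hVo o).2 N
  refine ⟨e + e' + D, fun d hd j => ?_⟩
  have h1 : 1 ≤ PowerSeries.coeff e (V i) := hie.trans (hV.ge_w hQ hw i e)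
  have h2 := hV.mul_le hQ hw hUi e e' o
  have h3 := hV.mul_le hQ hw hVo (e + e') (d - (e + e')) j
  rw [show e + e' + (d - (e + e')) = d by omega] at h3
  refine le_trans ?_ h3
  have h4 := hD (d - (e + e')) (by omega) j
  have h5 : 1 ≤ PowerSeries.coeff (e + e') (V o) := by nlinarith
  have h6 : (0 : ℤ) ≤ (N : ℤ) := by positivity
  nlinarith

/-- the row without the cycle is not zero -/
theorem rrow_ne {A : Matrix ι ι ℕ} {o : ι} {p : ℕ} {c : ℕ → ι} {J d1 : ℕ} (hd1 : 0 < d1)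
    (h : ∀ V, St (env A o p c J) (e1 o) V → ∀ j,
      2 ≤ PowerSeries.coeff d1 (V j) ∧ 2 ≤ PowerSeries.coeff (d1 + 1) (V j)) :
    ∃ j e, 1 ≤ (rrow A p c j).coeff e := by
  by_contra hcon
  push Not at hcon
  have h0 : ∀ j, rrow A p c j = 0 := by
    intro j
    ext e
    rw [coeff_zero]
    exact Nat.lt_one_iff.1 (hcon j e)
  have h1 : St (env A o p c J) (e1 o) (e1 o) := by
    intro j
    rw [Finset.sum_eq_zero, add_zero]
    intro k _
    by_cases hk : k = o
    · unfold env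
      rw [if_pos hk, h0 j, mul_zero]
      simp [toZ]
    · rw [e1, Pi.single_eq_of_ne hk, zero_mul]
  have h2 := (h _ h1 o).1
  rw [coeff_e1, if_neg (by omega)] at h2
  omega

end Pool.Agent.SSE
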