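import Pool.Agent.SSE.B5

/-!
# SSE project, part V1: the visits criterion

A row vector is equivalent, modulo the relations of the environment vertices, to a nonnegative row
vector if its series of visits are nonnegative (for the environment vertices: eventually
nonnegative).
-/

set_option autoImplicit false

open scoped BigOperators
open Matrix Polynomial

namespace Pool.Agent.SSE

attribute [local instance] Classical.propDecidable

variable {κ J : Type} [Fintype κ] [Fintype J]

/-- the power series of a polynomial with integer coefficients -/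
noncomputable abbrev ps (p : ℤ[X]) : PowerSeries ℤ := (p : PowerSeries ℤ)

/-- `V` is the vector of the series of visits of the row vector `w`, where only the vertices in
`S ⊆ κ` are expanded: `V = w + V_S P` -/
def Vis (P : Matrix (κ ⊕ J) (κ ⊕ J) ℕ[X]) (S : Set κ) (w : κ ⊕ J → ℤ[X])
    (V : κ ⊕ J → PowerSeries ℤ) : Prop :=
  ∀ j, V j = ps (w j) +
    ∑ k : κ, (if k ∈ S then V (Sum.inl k) else 0) * ps (toZ (P (Sum.inl k) j))

lemma coeff_ps (p : ℤ[X]) (n : ℕ) : PowerSeries.coeff n (ps p) = p.coeff n := by
  simp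

lemma coeff_toZ (p : ℕ[X]) (n : ℕ) : (toZ p).coeff n = (p.coeff n : ℤ) := by
  simp

lemma IP_apply {ι : Type} [Fintype ι] (P : Matrix ι ι ℕ[X]) (l j : ι) [Decidable (l = j)] :
    IP P l j = (if l = j then 1 else 0) - toZ (P l j) := by
  unfold IP
  congr

/-- truncation of a power series -/
noncomputable def tr (T : ℕ) (V : PowerSeries ℤ) : ℤ[X] := PowerSeries.trunc T V

lemma coeff_tr (T : ℕ) (V : PowerSeries ℤ) (n : ℕ) :
    (tr T V).coeff n = if n < T then PowerSeries.coeff n V else 0 := by
  simp [tr, PowerSeries.coeff_trunc]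

/-- the visits criterion -/
theorem visits {P : Matrix (κ ⊕ J) (κ ⊕ J) ℕ[X]} (hP : IsPres P) {S : Set κ} {w : κ ⊕ J → ℤ[X]}
    (hw : ∀ j, (w j).coeff 0 = 0) {V : κ ⊕ J → PowerSeries ℤ} (hV : Vis P S w V) (K : ℕ)
    (hK : ∀ k ∈ S, ∀ n, K ≤ n → 0 ≤ PowerSeries.coeff n (V (Sum.inl k)))
    (hN : ∀ k ∉ S, ∀ n, 0 ≤ PowerSeries.coeff n (V (Sum.inl k)))
    (hJ : ∀ j : J, ∀ n, 0 ≤ PowerSeries.coeff n (V (Sum.inr j))) :
    ∃ (c : κ → ℤ[X]) (w' : κ ⊕ J → ℕ[X]), (∀ k, k ∉ S → c k = 0) ∧ (∀ j, (w' j).coeff 0 = 0) ∧
      ∀ j, toZ (w' j) = w j - ∑ k, c k * IP P (Sum.inl k) j := by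
  -- degree bound
  set D := bd P with hD
  have hdeg : ∀ i j n, D < n → (P i j).coeff n = 0 := fun i j n hn =>
    Polynomial.coeff_eq_zero_of_natDegree_lt ((degLe_bd P i j).trans_lt hn)
  obtain ⟨L, hL⟩ : ∃ L, ∀ j n, L ≤ n → (w j).coeff n = 0 := by
    refine ⟨(Finset.univ.sup fun j => (w j).natDegree) + 1, fun j n hn => ?_⟩
    refine Polynomial.coeff_eq_zero_of_natDegree_lt ?_
    have : (w j).natDegree ≤ Finset.univ.sup fun j => (w j).natDegree :=
      Finset.le_sup (f := fun j => (w j).natDegree) (Finset.mem_univ j)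
    omega
  set T := K + L + D + 1 with hT
  -- the coefficients
  set V' : κ → PowerSeries ℤ := fun k => if k ∈ S then V (Sum.inl k) else 0 with hV'
  have hV'K : ∀ k n, K ≤ n → 0 ≤ PowerSeries.coeff n (V' k) := by
    intro k n hn
    simp only [hV']
    split_ifs with h
    · exact hK k h n hn
    · simp
  set c : κ → ℤ[X] := fun k => tr T (V' k) with hc
  set u : κ ⊕ J → ℤ[X] := fun j => w j - ∑ k, c k * IP P (Sum.inl k) j with hu
  have hcoef : ∀ j n, PowerSeries.coeff n (V j) = (w j).coeff n +
      ∑ k : κ, ∑ a ∈ Finset.HasAntidiagonal.antidiagonal n, PowerSeries.coeff a.1 (V' k) *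
        ((P (Sum.inl k) j).coeff a.2 : ℤ) := by
    intro j n
    rw [hV j, map_add, coeff_ps, map_sum]
    congr 1
    refine Finset.sum_congr rfl fun k _ => ?_
    rw [PowerSeries.coeff_mul]
    refine Finset.sum_congr rfl fun a _ => ?_
    rw [coeff_ps, coeff_toZ]
  have hucoef : ∀ j n, (u j).coeff n = (w j).coeff n
      - (∑ k : κ, (if (Sum.inl k : κ ⊕ J) = j then (c k).coeff n else 0)) +
      ∑ k : κ, ∑ a ∈ Finset.HasAntidiagonal.antidiagonal n, (c k).coeff a.1 * ((P (Sum.inl k) j).coeff a.2 : ℤ) := by
    intro j n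
    simp only [hu, coeff_sub, finsetSum_coeff, IP_apply, mul_sub, Finset.sum_sub_distrib, coeff_mul,
      coeff_toZ]
    have h1 : ∀ k : κ, ∑ a ∈ Finset.HasAntidiagonal.antidiagonal n, (c k).coeff a.1 *
        (if (Sum.inl k : κ ⊕ J) = j then (1 : ℤ[X]) else 0).coeff a.2 =
        if (Sum.inl k : κ ⊕ J) = j then (c k).coeff n else 0 := by
      intro k
      split_ifs with h
      · have := coeff_mul (c k) (1 : ℤ[X]) n
        rw [mul_one] at this
        exact this.symm
      · simp
    rw [Finset.sum_congr rfl fun k _ => h1 k]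
    ring
  have hpos : ∀ j n, 0 ≤ (u j).coeff n := by
    intro j n
    rw [hucoef]
    by_cases hn : n < T
    · -- below `T` all truncations are invisible
      have e1 : ∀ k : κ, ∑ a ∈ Finset.HasAntidiagonal.antidiagonal n, (c k).coeff a.1 *
          ((P (Sum.inl k) j).coeff a.2 : ℤ) = ∑ a ∈ Finset.HasAntidiagonal.antidiagonal n,
          PowerSeries.coeff a.1 (V' k) * ((P (Sum.inl k) j).coeff a.2 : ℤ) := by
        intro k
        refine Finset.sum_congr rfl fun a ha => ?_
        have := Finset.HasAntidiagonal.mem_antidiagonal.1 ha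
        rw [hc, coeff_tr, if_pos (by omega)]
      simp only [e1]
      have e2 := hcoef j n
      rcases j with k0 | j0
      · have e3 : (∑ k : κ, (if (Sum.inl k : κ ⊕ J) = Sum.inl k0 then (c k).coeff n else 0)) =
            PowerSeries.coeff n (V' k0) := by
          rw [Finset.sum_eq_single k0]
          · rw [if_pos rfl, hc, coeff_tr, if_pos hn]
          · intro k _ hk
            rw [if_neg fun h => hk (Sum.inl.inj h)]
          · intro h
            exact absurd (Finset.mem_univ _) h
        rw [e3]
        by_cases hk : k0 ∈ S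
        · have e4 : V' k0 = V (Sum.inl k0) := if_pos hk
          rw [e4]
          linarith
        · have e4 : V' k0 = 0 := if_neg hk
          have := hN k0 hk n
          rw [e4]
          simp only [map_zero]
          linarith
      · have e3 : (∑ k : κ, (if (Sum.inl k : κ ⊕ J) = Sum.inr j0 then (c k).coeff n else 0)) = 0 := by
          refine Finset.sum_eq_zero fun k _ => ?_
          rw [if_neg (by simp)]
        rw [e3]
        have := hJ j0 n
        linarith
    · have e0 : (w j).coeff n = 0 := hL j n (by omega)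
      have e3 : (∑ k : κ, (if (Sum.inl k : κ ⊕ J) = j then (c k).coeff n else 0)) = 0 := by
        refine Finset.sum_eq_zero fun k _ => ?_
        rw [hc, coeff_tr, if_neg hn]
        simp
      rw [e0, e3, sub_zero, zero_add]
      refine Finset.sum_nonneg fun k _ => Finset.sum_nonneg fun a ha => ?_
      have ha' := Finset.HasAntidiagonal.mem_antidiagonal.1 ha
      by_cases h2 : D < a.2
      · rw [hdeg _ _ _ h2]
        simp
      · refine mul_nonneg ?_ (by positivity)
        rw [hc, coeff_tr]
        split_ifs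
        · exact hV'K _ _ (by omega)
        · exact le_rfl
  have hu0 : ∀ j, (u j).coeff 0 = 0 := by
    intro j
    rw [hucoef, hw]
    have h1 : ∀ k : κ, (c k).coeff 0 = 0 := by
      intro k
      rw [hc, coeff_tr, if_pos (by omega)]
      simp only [hV']
      split_ifs
      · rw [hcoef, hw]
        simp [hP _ _]
      · simp
    simp [h1]
  refine ⟨c, fun j => ∑ n ∈ (u j).support, monomial n ((u j).coeff n).toNat, ?_, ?_, ?_⟩
  · intro k hk
    have e4 : V' k = 0 := if_neg hk
    ext n
    rw [hc, coeff_tr, e4]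
    simp
  · intro j
    rw [finsetSum_coeff]
    refine Finset.sum_eq_zero fun n hn => ?_
    rw [coeff_monomial]
    split_ifs with h
    · rw [h, hu0]
      rfl
    · rfl
  · intro j
    change _ = u j
    ext n
    rw [coeff_toZ, finsetSum_coeff]
    simp only [coeff_monomial]
    rw [Finset.sum_ite_eq']
    split_ifs with h
    · exact Int.toNat_of_nonneg (hpos j n)
    · rw [Polynomial.notMem_support_iff.1 h]
      rfl

end Pool.Agent.SSE
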