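import Pool.Agent.SSE.V1
import Pool.Agent.SSE.EDefs

/-!
# SSE project, part V2: series of visits, the ball lemma
-/

set_option autoImplicit false

open scoped BigOperators
open Matrix Polynomial

namespace Pool.Agent.SSE

attribute [local instance] Classical.propDecidable

variable {κ J : Type} [Fintype κ] [Fintype J]

/-- every row vector has a vector of series of visits -/
theorem exists_vis {P : Matrix (κ ⊕ J) (κ ⊕ J) ℕ[X]} (hP : IsPres P) (S : Set κ)
    (w : κ ⊕ J → ℤ[X]) : ∃ V, Vis P S w V := by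
  set E : κ → κ ⊕ J → PowerSeries ℤ := fun k j => if k ∈ S then ps (toZ (P (Sum.inl k) j)) else 0
    with hE
  have hE' : ∀ (V : κ ⊕ J → PowerSeries ℤ) k j, (if k ∈ S then V (Sum.inl k) else 0) *
      ps (toZ (P (Sum.inl k) j)) = V (Sum.inl k) * E k j := by
    intro V k j
    simp only [hE]
    split_ifs <;> simp
  set M : Matrix κ κ (PowerSeries ℤ) := 1 - Matrix.of fun k l => E k (Sum.inl l)
    with hM
  have h1 : IsUnit M.det := by
    rw [PowerSeries.isUnit_iff_constantCoeff, RingHom.map_det]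
    have : (PowerSeries.constantCoeff (R := ℤ)).mapMatrix M = 1 := by
      ext k l
      simp only [hM, map_sub, map_one, Matrix.sub_apply]
      have h2 : (PowerSeries.constantCoeff (R := ℤ)).mapMatrix
          (Matrix.of fun k l => E k (Sum.inl l)) k l = 0 := by
        simp only [RingHom.mapMatrix_apply, Matrix.map_apply, Matrix.of_apply, hE]
        split_ifs
        · rw [← PowerSeries.coeff_zero_eq_constantCoeff_apply, coeff_ps, coeff_toZ, hP]
          rfl
        · simp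
      rw [h2, sub_zero]
    rw [this, det_one]
    exact isUnit_one
  set v : κ → PowerSeries ℤ := Matrix.vecMul (fun l => ps (w (Sum.inl l))) M⁻¹ with hv
  have h2 : Matrix.vecMul v M = fun l => ps (w (Sum.inl l)) := by
    rw [hv, Matrix.vecMul_vecMul, Matrix.nonsing_inv_mul _ h1, Matrix.vecMul_one]
  refine ⟨fun j => ps (w j) + ∑ k : κ, v k * E k j, fun j => ?_⟩
  simp only [hE' (fun j => ps (w j) + ∑ k : κ, v k * E k j)]
  refine congrArg (fun t => ps (w j) + t) (Finset.sum_congr rfl fun k _ => ?_)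
  refine congrArg (fun t => t * E k j) ?_
  have h3 : ∑ l, v l * M l k = ps (w (Sum.inl k)) := congrFun h2 k
  have h4 : ∀ l, M l k = (1 : Matrix κ κ (PowerSeries ℤ)) l k - E l (Sum.inl k) := fun l => rfl
  have h5 : ∑ l, v l * (1 : Matrix κ κ (PowerSeries ℤ)) l k = v k := by
    rw [Finset.sum_eq_single k]
    · rw [Matrix.one_apply_eq, mul_one]
    · intro l _ hl
      rw [Matrix.one_apply_ne hl, mul_zero]
    · intro h
      exact absurd (Finset.mem_univ _) h
  simp only [h4, mul_sub, Finset.sum_sub_distrib, h5] at h3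
  rw [← h3]
  ring

lemma ps_add (p q : ℤ[X]) : ps (p + q) = ps p + ps q := Polynomial.coe_add p q
lemma ps_sub (p q : ℤ[X]) : ps (p - q) = ps p - ps q := Polynomial.coe_sub p q
lemma ps_mul (p q : ℤ[X]) : ps (p * q) = ps p * ps q := Polynomial.coe_mul p q
lemma ps_sum {α : Type} (s : Finset α) (f : α → ℤ[X]) : ps (∑ i ∈ s, f i) = ∑ i ∈ s, ps (f i) :=
  map_sum (Polynomial.coeToPowerSeries.ringHom (R := ℤ)) f s

/-- the series of visits of a nonnegative vector are nonnegative -/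
theorem Vis.nonneg {P : Matrix (κ ⊕ J) (κ ⊕ J) ℕ[X]} (hP : IsPres P) {S : Set κ}
    {w : κ ⊕ J → ℤ[X]} {V : κ ⊕ J → PowerSeries ℤ} (h : Vis P S w V) (hw : ∀ j n, 0 ≤ (w j).coeff n) (n : ℕ) :
    ∀ j, 0 ≤ PowerSeries.coeff n (V j) := by
  induction n using Nat.strong_induction_on with
  | _ n ih =>
    intro j
    rw [h j, map_add, coeff_ps, map_sum]
    refine add_nonneg (hw _ _) (Finset.sum_nonneg fun k _ => ?_)
    rw [PowerSeries.coeff_mul]
    refine Finset.sum_nonneg fun a ha => ?_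
    have ha' := Finset.HasAntidiagonal.mem_antidiagonal.1 ha
    rw [coeff_ps, coeff_toZ]
    rcases Nat.eq_zero_or_pos a.2 with h0 | h0
    · rw [h0, hP]
      simp
    · refine mul_nonneg ?_ (by positivity)
      split_ifs
      · exact ih _ (by omega) _
      · simp

/-- the weighted norm of an integer polynomial as a sum over a range -/
lemma coeff_mul_bound {r C : ℝ} (hr : 0 < r) (hC : 0 ≤ C) (f : ℤ[X]) (s : PowerSeries ℤ)
    (hs : ∀ n, |((PowerSeries.coeff n s : ℤ) : ℝ)| ≤ C * (r⁻¹) ^ n) (n : ℕ) :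
    |((PowerSeries.coeff n (ps f * s) : ℤ) : ℝ)| ≤ wn r (toR f) * C * (r⁻¹) ^ n := by
  rw [PowerSeries.coeff_mul]
  push_cast
  refine (Finset.abs_sum_le_sum_abs _ _).trans ?_
  have h1 : ∀ a ∈ Finset.HasAntidiagonal.antidiagonal n,
      |((f.coeff a.1 : ℤ) : ℝ) * ((PowerSeries.coeff a.2 s : ℤ) : ℝ)| ≤
      (|((f.coeff a.1 : ℤ) : ℝ)| * r ^ a.1) * (C * (r⁻¹) ^ n) := by
    intro a ha
    have ha' := Finset.HasAntidiagonal.mem_antidiagonal.1 ha
    rw [abs_mul]
    have h2 : (r⁻¹) ^ n * r ^ a.1 = (r⁻¹) ^ a.2 := by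
      rw [← ha', pow_add]
      have : (r⁻¹) ^ a.1 * r ^ a.1 = 1 := by
        rw [← mul_pow, inv_mul_cancel₀ hr.ne', one_pow]
      calc (r⁻¹) ^ a.1 * (r⁻¹) ^ a.2 * r ^ a.1 = (r⁻¹) ^ a.2 * ((r⁻¹) ^ a.1 * r ^ a.1) := by ring
        _ = _ := by rw [this, mul_one]
    have h3 := hs a.2
    calc |((f.coeff a.1 : ℤ) : ℝ)| * |((PowerSeries.coeff a.2 s : ℤ) : ℝ)|
        ≤ |((f.coeff a.1 : ℤ) : ℝ)| * (C * (r⁻¹) ^ a.2) :=
          mul_le_mul_of_nonneg_left h3 (abs_nonneg _)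
      _ = (|((f.coeff a.1 : ℤ) : ℝ)| * r ^ a.1) * (C * (r⁻¹) ^ n) := by rw [← h2]; ring
  refine (Finset.sum_le_sum h1).trans ?_
  rw [← Finset.sum_mul, mul_assoc]
  refine mul_le_mul_of_nonneg_right ?_ (by positivity)
  have h4 : ∑ a ∈ Finset.HasAntidiagonal.antidiagonal n, |((f.coeff a.1 : ℤ) : ℝ)| * r ^ a.1 =
      ∑ k ∈ Finset.range (n + 1), |((f.coeff k : ℤ) : ℝ)| * r ^ k :=
    Finset.Nat.sum_antidiagonal_eq_sum_range_succ (fun a _ => |((f.coeff a : ℤ) : ℝ)| * r ^ a) n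
  rw [h4]
  have h5 : wn r (toR f) = ∑ k ∈ (toR f).support, |((f.coeff k : ℤ) : ℝ)| * r ^ k := by
    refine Finset.sum_congr rfl fun k _ => ?_
    simp [toR]
  rw [h5]
  rw [← Finset.sum_filter_add_sum_filter_not (Finset.range (n + 1)) (fun k => k ∈ (toR f).support)]
  have h6 : ∑ k ∈ Finset.range (n + 1) with k ∉ (toR f).support,
      |((f.coeff k : ℤ) : ℝ)| * r ^ k = 0 := by
    refine Finset.sum_eq_zero fun k hk => ?_
    have := (Finset.mem_filter.1 hk).2
    rw [Polynomial.notMem_support_iff] at this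
    have h7 : ((f.coeff k : ℤ) : ℝ) = 0 := by simpa [toR] using this
    rw [h7]
    simp
  rw [h6, add_zero]
  refine Finset.sum_le_sum_of_subset_of_nonneg ?_ fun k _ _ => by positivity
  intro k hk
  exact (Finset.mem_filter.1 hk).2

variable [DecidableEq J]

/-- The frame data: the series of visits of the fresh rows grow exactly like `r⁻ⁿ` from degree `N`
on, in the columns `D`; in the other columns the fresh rows are `0`. -/
structure Frame (P : Matrix (κ ⊕ J) (κ ⊕ J) ℕ[X]) (S : Set κ) (D : Set (κ ⊕ J)) (r a C : ℝ) (N : ℕ)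
    (q : J → κ ⊕ J → PowerSeries ℤ) : Prop where
  pres : IsPres P
  vis : ∀ φ, Vis P S (fun j => toZ (P (Sum.inr φ) j)) (q φ)
  rpos : 0 < r
  Npos : 0 < N
  Cnn : 0 ≤ C
  DS : ∀ k ∈ S, Sum.inl k ∈ D
  DJ : ∀ φ : J, Sum.inr φ ∈ D
  zero : ∀ φ, ∀ j ∉ D, P (Sum.inr φ) j = 0
  low : ∀ φ, ∀ j ∈ D, ∀ n, N ≤ n → a * (r⁻¹) ^ n ≤ ((PowerSeries.coeff n (q φ j) : ℤ) : ℝ)
  up : ∀ φ, ∀ j ∈ D, ∀ n, |((PowerSeries.coeff n (q φ j) : ℤ) : ℝ)| ≤ C * (r⁻¹) ^ n

/-- The ball lemma. -/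
theorem Frame.ball {P : Matrix (κ ⊕ J) (κ ⊕ J) ℕ[X]} {S : Set κ} {D : Set (κ ⊕ J)} {r a C : ℝ}
    {N : ℕ} {q : J → κ ⊕ J → PowerSeries ℤ} (F : Frame P S D r a C N q) (g : Matrix J J ℤ[X])
    (hg : ∀ φ ψ, X ^ N ∣ g φ ψ - (1 : Matrix J J ℤ[X]) φ ψ)
    (hb : ∀ φ, (∑ ψ, wn r (toR (g φ ψ - (1 : Matrix J J ℤ[X]) φ ψ))) * (C + 1) ≤ a) (φ : J) :
    ∃ (c : κ → ℤ[X]) (w' : κ ⊕ J → ℕ[X]), (∀ k, k ∉ S → c k = 0) ∧ (∀ j, (w' j).coeff 0 = 0) ∧
      ∀ j, (if Sum.inr φ = j then 1 else 0) - toZ (w' j) =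
        ∑ ψ, g φ ψ * IP P (Sum.inr ψ) j + ∑ k, c k * IP P (Sum.inl k) j := by
  set f : J → ℤ[X] := fun ψ => g φ ψ - (1 : Matrix J J ℤ[X]) φ ψ with hf
  set δ : J → κ ⊕ J → ℤ[X] := fun ψ j => if Sum.inr ψ = j then 1 else 0 with hδ
  set w : κ ⊕ J → ℤ[X] := fun j => toZ (P (Sum.inr φ) j) +
    ∑ ψ, f ψ * (toZ (P (Sum.inr ψ) j) - δ ψ j) with hw
  set V : κ ⊕ J → PowerSeries ℤ := fun j => q φ j + ∑ ψ, ps (f ψ) * (q ψ j - ps (δ ψ j)) with hV
  have hf0 : ∀ ψ n, n < N → (f ψ).coeff n = 0 := fun ψ n hn =>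
    (Polynomial.X_pow_dvd_iff.1 (hg φ ψ)) n hn
  have hvis : Vis P S w V := by
    intro j
    set Q : J → κ → PowerSeries ℤ := fun ψ k => if k ∈ S then q ψ (Sum.inl k) else 0 with hQ
    have e1 : ∀ k : κ, (if k ∈ S then V (Sum.inl k) else 0) =
        Q φ k + ∑ ψ, ps (f ψ) * Q ψ k := by
      intro k
      simp only [hQ]
      split_ifs
      · simp [hV, hδ]
      · simp
    have e2 : ps (w j) = ps (toZ (P (Sum.inr φ) j)) +
        ∑ ψ, ps (f ψ) * (ps (toZ (P (Sum.inr ψ) j)) - ps (δ ψ j)) := by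
      simp only [hw, ps_add, ps_sum, ps_mul, ps_sub]
    have e3 : ∑ k : κ, (if k ∈ S then V (Sum.inl k) else 0) * ps (toZ (P (Sum.inl k) j)) =
        ∑ k : κ, Q φ k * ps (toZ (P (Sum.inl k) j)) +
        ∑ ψ, ps (f ψ) * ∑ k : κ, Q ψ k * ps (toZ (P (Sum.inl k) j)) := by
      simp only [e1, add_mul, Finset.sum_add_distrib, Finset.sum_mul, Finset.mul_sum]
      congr 1
      rw [Finset.sum_comm]
      refine Finset.sum_congr rfl fun ψ _ => Finset.sum_congr rfl fun k _ => ?_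
      ring
    rw [e2, e3]
    simp only [hV]
    have e4 : ∀ ψ, q ψ j - ps (δ ψ j) = (ps (toZ (P (Sum.inr ψ) j)) - ps (δ ψ j)) +
        ∑ k : κ, Q ψ k * ps (toZ (P (Sum.inl k) j)) := by
      intro ψ
      have := F.vis ψ j
      rw [this]
      ring
    have e5 : q φ j = ps (toZ (P (Sum.inr φ) j)) +
        ∑ k : κ, Q φ k * ps (toZ (P (Sum.inl k) j)) := F.vis φ j
    rw [e5]
    simp only [e4, mul_add, Finset.sum_add_distrib]
    ring
  have hw0 : ∀ j, (w j).coeff 0 = 0 := by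
    intro j
    simp only [hw, coeff_add, finsetSum_coeff, mul_coeff_zero]
    rw [coeff_toZ, F.pres]
    have : ∀ ψ, (f ψ).coeff 0 = 0 := fun ψ => hf0 ψ 0 F.Npos
    simp [this]
  have hnnD : ∀ j ∈ D, ∀ n, 0 ≤ PowerSeries.coeff n (V j) := by
    intro j hj n
    have hq0 : 0 ≤ PowerSeries.coeff n (q φ j) := by
      refine (F.vis φ).nonneg F.pres (fun i m => ?_) n j
      rw [coeff_toZ]
      positivity
    by_cases hn : n < N
    · have : PowerSeries.coeff n (V j) = PowerSeries.coeff n (q φ j) := by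
        simp only [hV, map_add, map_sum]
        rw [add_eq_left]
        refine Finset.sum_eq_zero fun ψ _ => ?_
        rw [PowerSeries.coeff_mul]
        refine Finset.sum_eq_zero fun b hb' => ?_
        have := Finset.HasAntidiagonal.mem_antidiagonal.1 hb'
        rw [coeff_ps, hf0 ψ b.1 (by omega), zero_mul]
      rw [this]
      exact hq0
    · have h1 := F.low φ j hj n (not_lt.1 hn)
      have h2 : ∀ ψ, |((PowerSeries.coeff n (ps (f ψ) * (q ψ j - ps (δ ψ j))) : ℤ) : ℝ)| ≤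
          wn r (toR (f ψ)) * (C + 1) * (r⁻¹) ^ n := by
        intro ψ
        refine coeff_mul_bound F.rpos (by linarith [F.Cnn]) _ _ (fun m => ?_) n
        rw [map_sub, coeff_ps]
        push_cast
        refine (abs_sub _ _).trans ?_
        have h3 := F.up ψ j hj m
        have h4 : |(((δ ψ j).coeff m : ℤ) : ℝ)| ≤ (r⁻¹) ^ m := by
          simp only [hδ]
          split_ifs
          · rw [coeff_one]
            split_ifs with h5
            · simp [h5]
            · simp only [Int.cast_zero, abs_zero]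
              have := F.rpos
              positivity
          · simp only [coeff_zero, Int.cast_zero, abs_zero]
            have := F.rpos
            positivity
        linarith
      have h5 : ((PowerSeries.coeff n (V j) : ℤ) : ℝ) = ((PowerSeries.coeff n (q φ j) : ℤ) : ℝ) +
          ∑ ψ, ((PowerSeries.coeff n (ps (f ψ) * (q ψ j - ps (δ ψ j))) : ℤ) : ℝ) := by
        simp only [hV, map_add, map_sum]
        push_cast
        rfl
      have h6 : |∑ ψ, ((PowerSeries.coeff n (ps (f ψ) * (q ψ j - ps (δ ψ j))) : ℤ) : ℝ)| ≤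
          a * (r⁻¹) ^ n := by
        refine (Finset.abs_sum_le_sum_abs _ _).trans ?_
        refine (Finset.sum_le_sum fun ψ _ => h2 ψ).trans ?_
        rw [← Finset.sum_mul, ← Finset.sum_mul]
        refine mul_le_mul_of_nonneg_right (hb φ) ?_
        have := F.rpos
        positivity
      have h7 : (0 : ℝ) ≤ ((PowerSeries.coeff n (V j) : ℤ) : ℝ) := by
        rw [h5]
        have := (abs_le.1 h6).1
        linarith
      exact_mod_cast h7
  have hnn : ∀ j n, 0 ≤ PowerSeries.coeff n (V j) := by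
    intro j n
    by_cases hj : j ∈ D
    · exact hnnD j hj n
    · have hj' : ∀ ψ, Sum.inr ψ ≠ j := fun ψ h => hj (h ▸ F.DJ ψ)
      have hwj : w j = 0 := by
        simp only [hw, F.zero _ j hj, hδ, if_neg (hj' _)]
        simp
      rw [hvis j, hwj, map_add, coeff_ps, coeff_zero, zero_add, map_sum]
      refine Finset.sum_nonneg fun k _ => ?_
      rw [PowerSeries.coeff_mul]
      refine Finset.sum_nonneg fun b _ => ?_
      rw [coeff_ps, coeff_toZ]
      refine mul_nonneg ?_ (by positivity)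
      split_ifs with hk
      · exact hnnD _ (F.DS k hk) _
      · simp
  obtain ⟨c, w', h0, h1, h2⟩ := visits F.pres hw0 hvis 0 (fun k _ n _ => hnn _ _)
    (fun k _ n => hnn _ _) (fun j n => hnn _ _)
  refine ⟨c, w', h0, h1, fun j => ?_⟩
  rw [h2]
  simp only [hw]
  have e1 : ∀ ψ, IP P (Sum.inr ψ) j = δ ψ j - toZ (P (Sum.inr ψ) j) := fun ψ => by
    rw [IP_apply]
  have e3 : ∑ ψ, (1 : Matrix J J ℤ[X]) φ ψ * (toZ (P (Sum.inr ψ) j) - δ ψ j) =
      toZ (P (Sum.inr φ) j) - δ φ j := by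
    rw [Finset.sum_eq_single φ]
    · rw [Matrix.one_apply_eq, one_mul]
    · intro ψ _ h
      rw [Matrix.one_apply_ne h.symm, zero_mul]
    · intro h
      exact absurd (Finset.mem_univ _) h
  have e4 : (if Sum.inr φ = j then 1 else 0) = δ φ j := rfl
  have e5 : ∑ ψ, f ψ * (toZ (P (Sum.inr ψ) j) - δ ψ j) =
      - (∑ ψ, g φ ψ * IP P (Sum.inr ψ) j) - (toZ (P (Sum.inr φ) j) - δ φ j) := by
    rw [← e3, ← Finset.sum_neg_distrib, ← Finset.sum_sub_distrib]
    refine Finset.sum_congr rfl fun ψ _ => ?_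
    rw [e1]
    simp only [hf]
    ring
  rw [e4, e5]
  ring

end Pool.Agent.SSE
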