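import Pool.Agent.SSE.V2

/-!
# SSE project, part V3: chains of elementary steps inside the ball give PEqv
-/

set_option autoImplicit false

open scoped BigOperators
open Matrix Polynomial

namespace Pool.Agent.SSE

attribute [local instance] Classical.propDecidable

variable {κ J : Type} [Fintype κ] [Fintype J] [DecidableEq J]

/-- `Q` is a presentation with the environment rows of `P` and fresh rows `g * (fresh rows of P)`
modulo the environment rows in `S`. -/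
def Fr (P : Matrix (κ ⊕ J) (κ ⊕ J) ℕ[X]) (S : Set κ) (g : Matrix J J ℤ[X])
    (Q : Matrix (κ ⊕ J) (κ ⊕ J) ℕ[X]) : Prop :=
  IsPres Q ∧ (∀ k : κ, Q (Sum.inl k) = P (Sum.inl k)) ∧
    ∀ φ : J, ∃ c : κ → ℤ[X], (∀ k, k ∉ S → c k = 0) ∧ ∀ j, IP Q (Sum.inr φ) j =
      ∑ ψ, g φ ψ * IP P (Sum.inr ψ) j + ∑ k, c k * IP P (Sum.inl k) j

lemma Fr.mono {P Q : Matrix (κ ⊕ J) (κ ⊕ J) ℕ[X]} {S S' : Set κ} {g : Matrix J J ℤ[X]}
    (h : Fr P S g Q) (hS : S ⊆ S') : Fr P S' g Q := by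
  refine ⟨h.1, h.2.1, fun φ => ?_⟩
  obtain ⟨c, h0, hc⟩ := h.2.2 φ
  exact ⟨c, fun k hk => h0 k fun h => hk (hS h), hc⟩

lemma Fr.refl {P : Matrix (κ ⊕ J) (κ ⊕ J) ℕ[X]} (hP : IsPres P) (S : Set κ) : Fr P S 1 P := by
  refine ⟨hP, fun _ => rfl, fun φ => ⟨0, fun _ _ => rfl, fun j => ?_⟩⟩
  rw [Finset.sum_eq_single φ]
  · simp
  · intro ψ _ h
    rw [Matrix.one_apply_ne h.symm, zero_mul]
  · intro h
    exact absurd (Finset.mem_univ _) h

lemma IP_congr {P Q : Matrix (κ ⊕ J) (κ ⊕ J) ℕ[X]} {i : κ ⊕ J} (h : Q i = P i) (j : κ ⊕ J) :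
    IP Q i j = IP P i j := by
  simp only [IP_apply, h]

/-- changing the fresh rows modulo the environment rows -/
theorem rows {Q Q' : Matrix (κ ⊕ J) (κ ⊕ J) ℕ[X]} (hQ : IsPres Q) (hQ' : IsPres Q')
    (he : ∀ k : κ, Q' (Sum.inl k) = Q (Sum.inl k))
    (h : ∀ φ : J, ∃ c : κ → ℤ[X], ∀ j, IP Q' (Sum.inr φ) j =
      IP Q (Sum.inr φ) j + ∑ k, c k * IP Q (Sum.inl k) j) : PEqv Q Q' := by
  -- hybrids
  set H : Finset J → Matrix (κ ⊕ J) (κ ⊕ J) ℕ[X] := fun s i =>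
    if (∃ φ ∈ s, i = Sum.inr φ) then Q' i else Q i with hH
  have hin : ∀ s (φ : J), φ ∈ s → H s (Sum.inr φ) = Q' (Sum.inr φ) := by
    intro s φ hφ
    simp only [hH]
    rw [if_pos ⟨φ, hφ, rfl⟩]
  have hout : ∀ s (φ : J), φ ∉ s → H s (Sum.inr φ) = Q (Sum.inr φ) := by
    intro s φ hφ
    simp only [hH]
    rw [if_neg]
    rintro ⟨ψ, h1, h2⟩
    rw [Sum.inr.inj h2] at hφ
    exact hφ h1
  have henv : ∀ s (k : κ), H s (Sum.inl k) = Q (Sum.inl k) := by
    intro s k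
    simp only [hH]
    rw [if_neg]
    rintro ⟨ψ, h1, h2⟩
    simp at h2
  have hpres : ∀ s, IsPres (H s) := by
    intro s i j
    rcases i with k | φ
    · rw [henv]
      exact hQ _ _
    · by_cases hφ : φ ∈ s
      · rw [hin s φ hφ]
        exact hQ' _ _
      · rw [hout s φ hφ]
        exact hQ _ _
  have key : ∀ s, PEqv Q (H s) := by
    intro s
    induction s using Finset.induction_on with
    | empty =>
      have : H ∅ = Q := by
        funext i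
        rcases i with k | φ
        · exact henv _ _
        · exact hout _ _ (by simp)
      rw [this]
      exact PEqv.refl _
    | insert φ s hφ ih =>
      refine ih.trans ?_
      obtain ⟨c, hc⟩ := h φ
      refine one_row (hpres s) (hpres _) (Sum.inr φ) ?_ (Sum.elim c 0) (by simp) ?_
      · intro l hl
        rcases l with k | ψ
        · rw [henv, henv]
        · have hψ : ψ ≠ φ := fun h => hl (by rw [h])
          by_cases h1 : ψ ∈ s
          · rw [hin s ψ h1, hin _ ψ (Finset.mem_insert_of_mem h1)]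
          · rw [hout s ψ h1, hout _ ψ (by simp [hψ, h1])]
      · intro j
        rw [IP_congr (hin _ φ (Finset.mem_insert_self _ _)), hc, Fintype.sum_sum_type,
          IP_congr (hout s φ hφ)]
        simp only [Sum.elim_inl, Sum.elim_inr, Pi.zero_apply, zero_mul, Finset.sum_const_zero,
          add_zero]
        congr 1
        refine Finset.sum_congr rfl fun k _ => ?_
        rw [IP_congr (henv s k)]
  have : H Finset.univ = Q' := by
    funext i
    rcases i with k | φ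
    · rw [henv, he]
    · exact hin _ _ (Finset.mem_univ _)
  rw [← this]
  exact key _

/-- the class depends only on the coefficient matrix (not on the expanded rows `S`) -/
lemma Fr.peqv {P Q Q' : Matrix (κ ⊕ J) (κ ⊕ J) ℕ[X]} {S S' : Set κ} {g : Matrix J J ℤ[X]}
    (h : Fr P S g Q) (h' : Fr P S' g Q') : PEqv Q Q' := by
  refine rows h.1 h'.1 (fun k => by rw [h'.2.1, h.2.1]) fun φ => ?_
  obtain ⟨c, -, hc⟩ := h.2.2 φ
  obtain ⟨c', -, hc'⟩ := h'.2.2 φ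
  refine ⟨fun k => c' k - c k, fun j => ?_⟩
  rw [hc, hc', add_assoc, ← Finset.sum_add_distrib]
  congr 1
  refine Finset.sum_congr rfl fun k _ => ?_
  rw [IP_congr (h.2.1 k)]
  ring

/-- one elementary step -/
theorem Fr.step {P Q Q' : Matrix (κ ⊕ J) (κ ⊕ J) ℕ[X]} {S S' : Set κ} {g g' : Matrix J J ℤ[X]}
    (h : Fr P S g Q) (h' : Fr P S' g' Q') {φ ψ : J} (hne : φ ≠ ψ) (c : ℤ[X])
    (hrow : ∀ χ, χ ≠ φ → g' χ = g χ) (hφ : ∀ χ, g' φ χ = g φ χ + c * g ψ χ) : PEqv Q Q' := by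
  -- intermediate presentation: row `φ` of `Q'`, other rows of `Q`
  set R : Matrix (κ ⊕ J) (κ ⊕ J) ℕ[X] := fun i => if i = Sum.inr φ then Q' i else Q i with hR
  have hRφ : R (Sum.inr φ) = Q' (Sum.inr φ) := by simp [hR]
  have hRo : ∀ i, i ≠ Sum.inr φ → R i = Q i := fun i hi => by simp [hR, hi]
  have hRp : IsPres R := by
    intro i j
    by_cases hi : i = Sum.inr φ
    · rw [hi, hRφ]
      exact h'.1 _ _
    · rw [hRo i hi]
      exact h.1 _ _
  have hRe : ∀ k : κ, R (Sum.inl k) = P (Sum.inl k) := fun k => by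
    rw [hRo _ (by simp), h.2.1]
  have hFR : Fr P Set.univ g' R := by
    refine ⟨hRp, hRe, fun χ => ?_⟩
    by_cases hχ : χ = φ
    · subst hχ
      obtain ⟨c', -, hc'⟩ := h'.2.2 χ
      refine ⟨c', fun k hk => absurd (Set.mem_univ k) hk, fun j => ?_⟩
      rw [IP_congr hRφ, hc']
    · obtain ⟨c', -, hc'⟩ := h.2.2 χ
      refine ⟨c', fun k hk => absurd (Set.mem_univ k) hk, fun j => ?_⟩
      rw [IP_congr (hRo _ fun h => hχ (Sum.inr.inj h)), hc', hrow χ hχ]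
  refine PEqv.trans ?_ (hFR.peqv h')
  obtain ⟨c1, -, hc1⟩ := h.2.2 φ
  obtain ⟨c2, -, hc2⟩ := h.2.2 ψ
  obtain ⟨c3, -, hc3⟩ := h'.2.2 φ
  refine one_row h.1 hRp (Sum.inr φ) (fun l hl => (hRo l hl).symm)
    (Sum.elim (fun k => c3 k - c1 k - c * c2 k) (Pi.single ψ c)) ?_ fun j => ?_
  · simp [hne]
  · rw [IP_congr hRφ, hc3, hc1, Fintype.sum_sum_type]
    simp only [Sum.elim_inl, Sum.elim_inr]
    have e1 : ∑ χ, (Pi.single ψ c : J → ℤ[X]) χ * IP Q (Sum.inr χ) j = c * IP Q (Sum.inr ψ) j := by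
      rw [Finset.sum_eq_single ψ]
      · rw [Pi.single_eq_same]
      · intro χ _ hχ
        rw [Pi.single_eq_of_ne hχ, zero_mul]
      · intro h
        exact absurd (Finset.mem_univ _) h
    have e2 : ∀ k : κ, IP Q (Sum.inl k) j = IP P (Sum.inl k) j := fun k => IP_congr (h.2.1 k) j
    have e3 : ∑ χ, g' φ χ * IP P (Sum.inr χ) j = ∑ χ, g φ χ * IP P (Sum.inr χ) j +
        c * ∑ χ, g ψ χ * IP P (Sum.inr χ) j := by
      rw [Finset.mul_sum, ← Finset.sum_add_distrib]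
      refine Finset.sum_congr rfl fun χ _ => ?_
      rw [hφ]
      ring
    have e4 : ∑ k, (c3 k - c1 k - c * c2 k) * IP P (Sum.inl k) j =
        ∑ k, c3 k * IP P (Sum.inl k) j - ∑ k, c1 k * IP P (Sum.inl k) j -
        c * ∑ k, c2 k * IP P (Sum.inl k) j := by
      rw [Finset.mul_sum, ← Finset.sum_sub_distrib, ← Finset.sum_sub_distrib]
      refine Finset.sum_congr rfl fun k _ => ?_
      ring
    simp only [e2]
    rw [e1, hc2, e3, e4]
    ring

lemma dvd_mul_sub_one {N : ℕ} {g h : Matrix J J ℤ[X]}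
    (hg : ∀ φ ψ, X ^ N ∣ g φ ψ - (1 : Matrix J J ℤ[X]) φ ψ)
    (hh : ∀ φ ψ, X ^ N ∣ h φ ψ - (1 : Matrix J J ℤ[X]) φ ψ) (φ ψ : J) :
    X ^ N ∣ (g * h) φ ψ - (1 : Matrix J J ℤ[X]) φ ψ := by
  have e : (g * h) φ ψ - (1 : Matrix J J ℤ[X]) φ ψ =
      ∑ χ, (g φ χ - (1 : Matrix J J ℤ[X]) φ χ) * h χ ψ +
      (h φ ψ - (1 : Matrix J J ℤ[X]) φ ψ) := by
    have e1 : ∑ χ, (1 : Matrix J J ℤ[X]) φ χ * h χ ψ = h φ ψ := by
      rw [← Matrix.mul_apply, Matrix.one_mul]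
    simp only [sub_mul, Finset.sum_sub_distrib, e1, Matrix.mul_apply]
    ring
  rw [e]
  refine dvd_add (Finset.dvd_sum fun χ _ => Dvd.dvd.mul_right (hg φ χ) _) (hh φ ψ)

lemma tv_mul {i j : J} (hij : i ≠ j) (c : ℤ[X]) (g : SpecialLinearGroup J ℤ[X]) :
    ((SpecialLinearGroup.transvection hij c * g : SpecialLinearGroup J ℤ[X]) : Matrix J J ℤ[X]) =
      (g : Matrix J J ℤ[X]) + Matrix.single i j c * (g : Matrix J J ℤ[X]) := by
  rw [Matrix.SpecialLinearGroup.coe_mul, SpecialLinearGroup.transvection_coe, add_mul, one_mul]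

lemma wn_nonneg' {r : ℝ} (hr : 0 < r) (f : ℝ[X]) : 0 ≤ wn r f :=
  Finset.sum_nonneg fun k _ => by positivity

/-- in the ball the presentations exist -/
theorem Frame.exists_fr {P : Matrix (κ ⊕ J) (κ ⊕ J) ℕ[X]} {S : Set κ} {D : Set (κ ⊕ J)}
    {r a C ρ : ℝ} {N : ℕ} {q : J → κ ⊕ J → PowerSeries ℤ} (F : Frame P S D r a C N q) (hρ : ρ * (C + 1) ≤ a)
    (p : SpecialLinearGroup J ℤ[X]) (hp : nz r p ≤ ρ)
    (hpN : ∀ φ ψ, X ^ N ∣ (p : Matrix J J ℤ[X]) φ ψ - (1 : Matrix J J ℤ[X]) φ ψ) :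
    ∃ R, Fr P S p R := by
  have hrow : ∀ φ, ∑ ψ, wn r (toR ((p : Matrix J J ℤ[X]) φ ψ - (1 : Matrix J J ℤ[X]) φ ψ)) ≤
      nz r p := by
    intro φ
    have e : nz r p = ∑ φ, ∑ ψ, wn r (toR ((p : Matrix J J ℤ[X]) φ ψ -
        (1 : Matrix J J ℤ[X]) φ ψ)) := by
      unfold nz nu mn
      refine Finset.sum_congr rfl fun i _ => Finset.sum_congr rfl fun j _ => ?_
      congr 1
      rw [map_sub]
      have e1 : (toRG p : Matrix J J ℝ[X]) i j = toR ((p : Matrix J J ℤ[X]) i j) := rfl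
      rw [Matrix.sub_apply, e1]
      congr 1
      by_cases hij : i = j
      · subst hij
        rw [Matrix.one_apply_eq, Matrix.one_apply_eq, map_one]
      · rw [Matrix.one_apply_ne hij, Matrix.one_apply_ne hij, map_zero]
    rw [e]
    exact Finset.single_le_sum (f := fun φ => ∑ ψ, wn r (toR ((p : Matrix J J ℤ[X]) φ ψ -
        (1 : Matrix J J ℤ[X]) φ ψ)))
      (fun φ _ => Finset.sum_nonneg fun ψ _ => wn_nonneg' F.rpos _) (Finset.mem_univ φ)
  have hC := F.Cnn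
  have hb := F.ball (p : Matrix J J ℤ[X]) hpN (fun φ => le_trans
    (mul_le_mul_of_nonneg_right ((hrow φ).trans hp) (by linarith)) hρ)
  choose c w' h0 h1 h2 using hb
  refine ⟨fun i => Sum.elim (fun k => P (Sum.inl k)) (fun φ => w' φ) i, ?_, fun k => rfl,
    fun φ => ⟨c φ, h0 φ, fun j => ?_⟩⟩
  · intro i j
    rcases i with k | φ
    · exact F.pres _ _
    · exact h1 φ j
  · refine (IP_apply _ _ _).trans ?_
    exact h2 φ j

/-- elements reached inside the ball are `= 1 mod X^N` -/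
lemma Conn.dvd {r ρ : ℝ} {N : ℕ} {g b : SpecialLinearGroup J ℤ[X]}
    (hab : Conn (AAll J N) r ρ g b)
    (hg : ∀ φ ψ, X ^ N ∣ (g : Matrix J J ℤ[X]) φ ψ - (1 : Matrix J J ℤ[X]) φ ψ) :
    ∀ φ ψ, X ^ N ∣ (b : Matrix J J ℤ[X]) φ ψ - (1 : Matrix J J ℤ[X]) φ ψ := by
  induction hab with
  | refl => exact hg
  | tail hab' hbc' ih' =>
    obtain ⟨⟨y, ⟨i, j, hij, d, s, hd, -, rfl⟩, rfl⟩, -, -⟩ := hbc'
    rw [Matrix.SpecialLinearGroup.coe_mul]
    refine dvd_mul_sub_one (fun φ ψ => ?_) ih'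
    rw [SpecialLinearGroup.transvection_coe, Matrix.add_apply,
      add_sub_cancel_left, Matrix.single_apply]
    split_ifs
    · rw [← C_mul_X_pow_eq_monomial]
      exact Dvd.dvd.mul_left (pow_dvd_pow _ hd) _
    · exact dvd_zero _

/-- The frame theorem: chains of elementary steps inside the ball. -/
theorem Frame.conn {P : Matrix (κ ⊕ J) (κ ⊕ J) ℕ[X]} {S S1 S2 : Set κ} {D : Set (κ ⊕ J)}
    {r a C ρ : ℝ} {N : ℕ} {q : J → κ ⊕ J → PowerSeries ℤ} (F : Frame P S D r a C N q) (hρ : ρ * (C + 1) ≤ a)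
    {g g' : SpecialLinearGroup J ℤ[X]} (hc : Conn (AAll J N) r ρ g g')
    (hg : ∀ φ ψ, X ^ N ∣ (g : Matrix J J ℤ[X]) φ ψ - (1 : Matrix J J ℤ[X]) φ ψ)
    {Q Q' : Matrix (κ ⊕ J) (κ ⊕ J) ℕ[X]} (hQ : Fr P S1 g Q) (hQ' : Fr P S2 g' Q') : PEqv Q Q' := by
  induction hc generalizing Q' S2 with
  | refl => exact hQ.peqv hQ'
  | tail hab hbc ih =>
    rename_i b c
    obtain ⟨⟨x, hx, rfl⟩, hb1, hb2⟩ := hbc
    obtain ⟨R, hR⟩ := F.exists_fr hρ b hb1 (Conn.dvd hab hg)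
    refine (ih hR).trans ?_
    obtain ⟨i, j, hij, d, s, hd, -, rfl⟩ := hx
    refine hR.step hQ' hij (monomial d s) (fun χ hχ => ?_) fun χ => ?_
    · rw [tv_mul]
      funext ψ
      rw [Matrix.add_apply, Matrix.single_mul_apply_of_ne _ _ _ _ _ hχ, add_zero]
    · rw [tv_mul, Matrix.add_apply, Matrix.single_mul_apply_same]

end Pool.Agent.SSE
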