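import Pool.Agent.SSE.V3

/-!
# SSE project, part V4: transfer between frames

If an environment row `i ∉ S` of `P` is changed by a combination of the other rows, the
presentations `Fr P S W` (with `W` invertible) move along by `PEqv`.
-/

set_option autoImplicit false

open scoped BigOperators
open Matrix Polynomial

namespace Pool.Agent.SSE

attribute [local instance] Classical.propDecidable

variable {κ J : Type} [Fintype κ] [Fintype J] [DecidableEq J]

/-- the relation of a fresh vertex of `P` in terms of the rows of `Q` -/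
lemma Fr.inv {P Q : Matrix (κ ⊕ J) (κ ⊕ J) ℕ[X]} {S : Set κ} {W : SpecialLinearGroup J ℤ[X]}
    (h : Fr P S W Q) (ψ : J) : ∃ c : κ → ℤ[X], (∀ k, k ∉ S → c k = 0) ∧ ∀ j,
      IP P (Sum.inr ψ) j = ∑ φ, (W⁻¹ : SpecialLinearGroup J ℤ[X]) ψ φ * IP Q (Sum.inr φ) j +
        ∑ k, c k * IP P (Sum.inl k) j := by
  choose c h0 hc using h.2.2
  refine ⟨fun k => - ∑ φ, (W⁻¹ : SpecialLinearGroup J ℤ[X]) ψ φ * c φ k, fun k hk => ?_,
    fun j => ?_⟩
  · simp only [h0 _ k hk, mul_zero, Finset.sum_const_zero, neg_zero]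
  · simp only [hc, mul_add, Finset.sum_add_distrib]
    have e1 : ∑ φ, (W⁻¹ : SpecialLinearGroup J ℤ[X]) ψ φ * ∑ χ, (W : Matrix J J ℤ[X]) φ χ *
        IP P (Sum.inr χ) j = IP P (Sum.inr ψ) j := by
      have e2 : ∀ χ, ∑ φ, (W⁻¹ : SpecialLinearGroup J ℤ[X]) ψ φ * (W : Matrix J J ℤ[X]) φ χ =
          (1 : Matrix J J ℤ[X]) ψ χ := by
        intro χ
        have h1 : ((W⁻¹ * W : SpecialLinearGroup J ℤ[X]) : Matrix J J ℤ[X]) ψ χ =
            ((1 : SpecialLinearGroup J ℤ[X]) : Matrix J J ℤ[X]) ψ χ := by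
          rw [inv_mul_cancel W]
        rw [Matrix.SpecialLinearGroup.coe_mul, Matrix.mul_apply,
          Matrix.SpecialLinearGroup.coe_one] at h1
        exact h1
      simp only [Finset.mul_sum]
      rw [Finset.sum_comm]
      have e3 : ∀ χ, ∑ φ, (W⁻¹ : SpecialLinearGroup J ℤ[X]) ψ φ * ((W : Matrix J J ℤ[X]) φ χ *
          IP P (Sum.inr χ) j) = (1 : Matrix J J ℤ[X]) ψ χ * IP P (Sum.inr χ) j := by
        intro χ
        rw [← e2, Finset.sum_mul]
        refine Finset.sum_congr rfl fun φ _ => ?_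
        ring
      simp only [e3]
      rw [Finset.sum_eq_single ψ]
      · rw [Matrix.one_apply_eq, one_mul]
      · intro χ _ hχ
        rw [Matrix.one_apply_ne hχ.symm, zero_mul]
      · intro h
        exact absurd (Finset.mem_univ _) h
    rw [e1]
    have e4 : ∑ k, (-∑ φ, (W⁻¹ : SpecialLinearGroup J ℤ[X]) ψ φ * c φ k) * IP P (Sum.inl k) j =
        - ∑ φ, (W⁻¹ : SpecialLinearGroup J ℤ[X]) ψ φ * ∑ k, c φ k * IP P (Sum.inl k) j := by
      simp only [neg_mul, Finset.sum_neg_distrib, Finset.sum_mul, Finset.mul_sum]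
      rw [Finset.sum_comm]
      congr 1
      refine Finset.sum_congr rfl fun φ _ => Finset.sum_congr rfl fun k _ => ?_
      ring
    rw [e4]
    ring

/-- (T1) transfer along a change of one environment row outside `S` -/
theorem Fr.transfer {P P' Q : Matrix (κ ⊕ J) (κ ⊕ J) ℕ[X]} {S : Set κ} {i : κ} (hi : i ∉ S)
    (hP' : IsPres P') (he : ∀ l, l ≠ Sum.inl i → P' l = P l) (b : κ ⊕ J → ℤ[X])
    (hb : b (Sum.inl i) = 0)
    (hrow : ∀ j, IP P' (Sum.inl i) j = IP P (Sum.inl i) j + ∑ l, b l * IP P l j)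
    {W : SpecialLinearGroup J ℤ[X]} (h : Fr P S W Q) : ∃ Q', Fr P' S W Q' ∧ PEqv Q Q' := by
  set Q' : Matrix (κ ⊕ J) (κ ⊕ J) ℕ[X] := fun l => if l = Sum.inl i then P' l else Q l with hQ'
  have hQi : Q' (Sum.inl i) = P' (Sum.inl i) := by simp [hQ']
  have hQo : ∀ l, l ≠ Sum.inl i → Q' l = Q l := fun l hl => by simp [hQ', hl]
  have hQp : IsPres Q' := by
    intro l j
    by_cases hl : l = Sum.inl i
    · rw [hl, hQi]
      exact hP' _ _
    · rw [hQo l hl]
      exact h.1 _ _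
  refine ⟨Q', ⟨hQp, fun k => ?_, fun φ => ?_⟩, ?_⟩
  · by_cases hk : k = i
    · rw [hk, hQi]
    · have hk' : (Sum.inl k : κ ⊕ J) ≠ Sum.inl i := fun h => hk (Sum.inl.inj h)
      rw [hQo _ hk', h.2.1, he _ hk']
  · obtain ⟨c, h0, hc⟩ := h.2.2 φ
    refine ⟨c, h0, fun j => ?_⟩
    rw [IP_congr (hQo _ (by simp)), hc]
    congr 1
    · refine Finset.sum_congr rfl fun ψ _ => ?_
      rw [IP_congr (he _ (by simp))]
    · refine Finset.sum_congr rfl fun k _ => ?_
      by_cases hk : k = i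
      · rw [hk, h0 i hi, zero_mul, zero_mul]
      · rw [IP_congr (he _ fun h => hk (Sum.inl.inj h))]
  · choose c h0 hc using fun ψ => h.inv ψ
    refine one_row h.1 hQp (Sum.inl i) (fun l hl => (hQo l hl).symm)
      (Sum.elim (fun k => b (Sum.inl k) + ∑ ψ, b (Sum.inr ψ) * c ψ k)
        (fun φ => ∑ ψ, b (Sum.inr ψ) * (W⁻¹ : SpecialLinearGroup J ℤ[X]) ψ φ)) ?_ fun j => ?_
    · simp only [Sum.elim_inl, hb, zero_add]
      refine Finset.sum_eq_zero fun ψ _ => ?_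
      rw [h0 ψ i hi, mul_zero]
    · rw [IP_congr hQi, hrow, IP_congr (h.2.1 i)]
      congr 1
      rw [Fintype.sum_sum_type, Fintype.sum_sum_type]
      simp only [Sum.elim_inl, Sum.elim_inr, hc, IP_congr (h.2.1 _)]
      simp only [mul_add, add_mul, Finset.sum_add_distrib]
      have e1 : ∑ ψ, b (Sum.inr ψ) * ∑ φ, (W⁻¹ : SpecialLinearGroup J ℤ[X]) ψ φ *
          IP Q (Sum.inr φ) j = ∑ φ, (∑ ψ, b (Sum.inr ψ) *
          (W⁻¹ : SpecialLinearGroup J ℤ[X]) ψ φ) * IP Q (Sum.inr φ) j := by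
        simp only [Finset.mul_sum, Finset.sum_mul]
        rw [Finset.sum_comm]
        refine Finset.sum_congr rfl fun φ _ => Finset.sum_congr rfl fun ψ _ => ?_
        ring
      have e2 : ∑ ψ, b (Sum.inr ψ) * ∑ k, c ψ k * IP P (Sum.inl k) j =
          ∑ k, (∑ ψ, b (Sum.inr ψ) * c ψ k) * IP P (Sum.inl k) j := by
        simp only [Finset.mul_sum, Finset.sum_mul]
        rw [Finset.sum_comm]
        refine Finset.sum_congr rfl fun φ _ => Finset.sum_congr rfl fun ψ _ => ?_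
        ring
      rw [e1, e2]
      ring

/-- (T2) changing the fresh rows of `P` modulo the environment rows does not change the class -/
theorem Fr.peqv_of_fresh {P P' Q Q' : Matrix (κ ⊕ J) (κ ⊕ J) ℕ[X]} {S S' : Set κ}
    (he : ∀ k : κ, P' (Sum.inl k) = P (Sum.inl k))
    (hf : ∀ φ : J, ∃ c : κ → ℤ[X], ∀ j, IP P' (Sum.inr φ) j =
      IP P (Sum.inr φ) j + ∑ k, c k * IP P (Sum.inl k) j)
    {g : Matrix J J ℤ[X]} (h : Fr P S g Q) (h' : Fr P' S' g Q') : PEqv Q Q' := by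
  refine h.peqv (S' := Set.univ) (g := g) ⟨h'.1, fun k => by rw [h'.2.1, he], fun φ => ?_⟩
  obtain ⟨c, -, hc⟩ := h'.2.2 φ
  choose d hd using hf
  refine ⟨fun k => c k + ∑ ψ, g φ ψ * d ψ k, fun k hk => absurd (Set.mem_univ k) hk, fun j => ?_⟩
  rw [hc]
  simp only [hd, IP_congr (he _), mul_add, add_mul, Finset.sum_add_distrib]
  have e2 : ∑ ψ, g φ ψ * ∑ k, d ψ k * IP P (Sum.inl k) j =
      ∑ k, (∑ ψ, g φ ψ * d ψ k) * IP P (Sum.inl k) j := by
    simp only [Finset.mul_sum, Finset.sum_mul]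
    rw [Finset.sum_comm]
    refine Finset.sum_congr rfl fun φ _ => Finset.sum_congr rfl fun ψ _ => ?_
    ring
  rw [e2]
  ring

/-- composition: a frame over a presentation of the frame -/
theorem Fr.comp {P Q R : Matrix (κ ⊕ J) (κ ⊕ J) ℕ[X]} {S : Set κ} {g h : Matrix J J ℤ[X]}
    (hQ : Fr P S h Q) (hR : Fr Q S g R) : Fr P S (g * h) R := by
  refine ⟨hR.1, fun k => by rw [hR.2.1, hQ.2.1], fun φ => ?_⟩
  obtain ⟨c, h0, hc⟩ := hR.2.2 φ
  choose d d0 hd using hQ.2.2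
  refine ⟨fun k => c k + ∑ ψ, g φ ψ * d ψ k, fun k hk => ?_, fun j => ?_⟩
  · show c k + ∑ ψ, g φ ψ * d ψ k = 0
    rw [h0 k hk, zero_add]
    refine Finset.sum_eq_zero fun ψ _ => ?_
    rw [d0 ψ k hk, mul_zero]
  · rw [hc]
    simp only [hd, IP_congr (hQ.2.1 _), mul_add, add_mul, Finset.sum_add_distrib, Matrix.mul_apply]
    have e2 : ∑ ψ, g φ ψ * ∑ k, d ψ k * IP P (Sum.inl k) j =
        ∑ k, (∑ ψ, g φ ψ * d ψ k) * IP P (Sum.inl k) j := by
      simp only [Finset.mul_sum, Finset.sum_mul]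
      rw [Finset.sum_comm]
      refine Finset.sum_congr rfl fun φ _ => Finset.sum_congr rfl fun ψ _ => ?_
      ring
    have e3 : ∑ ψ, g φ ψ * ∑ χ, h ψ χ * IP P (Sum.inr χ) j =
        ∑ χ, (∑ ψ, g φ ψ * h ψ χ) * IP P (Sum.inr χ) j := by
      simp only [Finset.mul_sum, Finset.sum_mul]
      rw [Finset.sum_comm]
      refine Finset.sum_congr rfl fun φ _ => Finset.sum_congr rfl fun ψ _ => ?_
      ring
    rw [e2, e3]
    ring

end Pool.Agent.SSE
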