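import Pool.Agent.SSE.V4

/-!
# SSE project, part V5: the renewal lemma

`s : ℕ[X]` with `s(0) = 0`, `gcd` of the exponents `1`, `s(r) = 1`, `0 < r < 1`: the coefficients of
`u = 1/(1-s)` satisfy `c r⁻ⁿ ≤ u_n` for `n ≥ n0` and `u_n ≤ r⁻ⁿ` for all `n`.
-/

set_option autoImplicit false

open scoped BigOperators
open Matrix Polynomial

namespace Pool.Agent.SSE

attribute [local instance] Classical.propDecidable

/-- `1/(1-s)` -/
noncomputable def geo (s : ℕ[X]) : PowerSeries ℤ := PowerSeries.invOfUnit (1 - ps (toZ s)) 1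

lemma geo_mul {s : ℕ[X]} (h0 : s.coeff 0 = 0) : geo s * (1 - ps (toZ s)) = 1 := by
  rw [mul_comm]
  refine PowerSeries.mul_invOfUnit _ _ ?_
  have : PowerSeries.constantCoeff (ps (toZ s)) = 0 := by
    rw [← PowerSeries.coeff_zero_eq_constantCoeff_apply, coeff_ps, coeff_toZ, h0]
    rfl
  rw [map_sub, this]
  simp

lemma geo_eq {s : ℕ[X]} (h0 : s.coeff 0 = 0) : geo s = 1 + geo s * ps (toZ s) := by
  have := geo_mul h0
  rw [mul_sub, mul_one] at this
  rw [← this]
  ring

lemma coeff_geo {s : ℕ[X]} (h0 : s.coeff 0 = 0) (n : ℕ) :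
    PowerSeries.coeff n (geo s) = (if n = 0 then 1 else 0) +
      ∑ a ∈ Finset.HasAntidiagonal.antidiagonal n,
        PowerSeries.coeff a.1 (geo s) * (s.coeff a.2 : ℤ) := by
  conv_lhs => rw [geo_eq h0]
  rw [map_add, PowerSeries.coeff_one, PowerSeries.coeff_mul]
  congr 1
  refine Finset.sum_congr rfl fun a _ => ?_
  rw [coeff_ps, coeff_toZ]

lemma geo_nonneg {s : ℕ[X]} (h0 : s.coeff 0 = 0) (n : ℕ) : 0 ≤ PowerSeries.coeff n (geo s) := by
  induction n using Nat.strong_induction_on with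
  | _ n ih =>
    rw [coeff_geo h0]
    refine add_nonneg (by split_ifs <;> simp) (Finset.sum_nonneg fun a ha => ?_)
    have ha' := Finset.HasAntidiagonal.mem_antidiagonal.1 ha
    rcases Nat.eq_zero_or_pos a.2 with h | h
    · rw [h, h0]
      simp
    · exact mul_nonneg (ih _ (by omega)) (by positivity)

lemma geo_zero {s : ℕ[X]} (h0 : s.coeff 0 = 0) : PowerSeries.coeff 0 (geo s) = 1 := by
  rw [coeff_geo h0]
  simp [h0]

lemma geo_step {s : ℕ[X]} (h0 : s.coeff 0 = 0) {d : ℕ} (hd : s.coeff d ≠ 0) {m : ℕ}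
    (hm : 1 ≤ PowerSeries.coeff m (geo s)) : 1 ≤ PowerSeries.coeff (m + d) (geo s) := by
  have hd0 : d ≠ 0 := fun h => hd (h ▸ h0)
  rw [coeff_geo h0, if_neg (by omega), zero_add]
  have hmem : (m, d) ∈ Finset.HasAntidiagonal.antidiagonal (m + d) :=
    Finset.HasAntidiagonal.mem_antidiagonal.2 rfl
  refine le_trans ?_ (Finset.single_le_sum (f := fun a : ℕ × ℕ =>
    PowerSeries.coeff a.1 (geo s) * (s.coeff a.2 : ℤ)) (fun a _ =>
    mul_nonneg (geo_nonneg h0 _) (by positivity)) hmem)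
  have : (1 : ℤ) ≤ (s.coeff d : ℤ) := by
    have := Nat.one_le_iff_ne_zero.2 hd
    exact_mod_cast this
  show (1 : ℤ) ≤ PowerSeries.coeff m (geo s) * (s.coeff d : ℤ)
  nlinarith

lemma geo_pos {s : ℕ[X]} (h0 : s.coeff 0 = 0) {n : ℕ}
    (hn : n ∈ AddSubmonoid.closure {d | s.coeff d ≠ 0}) : 1 ≤ PowerSeries.coeff n (geo s) := by
  induction hn using AddSubmonoid.closure_induction_right with
  | zero => rw [geo_zero h0]
  | add_right x hx y hy ih => exact geo_step h0 hy ih

/-- data of a renewal polynomial -/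
structure Ren (s : ℕ[X]) (r c : ℝ) (n0 : ℕ) : Prop where
  s0 : s.coeff 0 = 0
  r0 : 0 < r
  r1 : r < 1
  root : wn r (toR (toZ s)) = 1
  cpos : 0 < c
  low : ∀ n, n0 ≤ n → c * (r⁻¹) ^ n ≤ ((PowerSeries.coeff n (geo s) : ℤ) : ℝ)
  up : ∀ n, ((PowerSeries.coeff n (geo s) : ℤ) : ℝ) ≤ (r⁻¹) ^ n

lemma wn_toZ (r : ℝ) (s : ℕ[X]) : wn r (toR (toZ s)) = ∑ k ∈ s.support, (s.coeff k : ℝ) * r ^ k := by
  unfold wn
  have h : (toR (toZ s)).support = s.support := by
    ext k
    simp [toR]
  rw [h]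
  refine Finset.sum_congr rfl fun k _ => ?_
  simp [toR]

lemma wn_toZ_range (r : ℝ) {s : ℕ[X]} {D : ℕ} (hD : s.natDegree < D) :
    wn r (toR (toZ s)) = ∑ k ∈ Finset.range D, (s.coeff k : ℝ) * r ^ k := by
  rw [wn_toZ]
  refine Finset.sum_subset (fun k hk => ?_) fun k _ hk => ?_
  · have := Polynomial.le_natDegree_of_mem_supp k hk
    exact Finset.mem_range.2 (by omega)
  · rw [Polynomial.notMem_support_iff.1 hk]
    simp

/-- the recursion for `w n = u n * r ^ n` -/
lemma geo_w {s : ℕ[X]} (h0 : s.coeff 0 = 0) {r : ℝ} (n : ℕ) (hn : n ≠ 0) :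
    ((PowerSeries.coeff n (geo s) : ℤ) : ℝ) * r ^ n =
      ∑ k ∈ Finset.range (n + 1), ((s.coeff k : ℝ) * r ^ k) *
        (((PowerSeries.coeff (n - k) (geo s) : ℤ) : ℝ) * r ^ (n - k)) := by
  rw [coeff_geo h0, if_neg hn, zero_add]
  push_cast
  rw [← Finset.Nat.sum_antidiagonal_swap, Finset.sum_mul,
    Finset.Nat.sum_antidiagonal_eq_sum_range_succ_mk]
  refine Finset.sum_congr rfl fun k hk => ?_
  have hk' : k ≤ n := by
    have := Finset.mem_range.1 hk
    omega
  have : r ^ n = r ^ k * r ^ (n - k) := by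
    rw [← pow_add]
    congr 1
    omega
  simp only [Prod.swap_prod_mk]
  rw [this]
  ring

theorem exists_ren {s : ℕ[X]} (h0 : s.coeff 0 = 0) {r : ℝ} (r0 : 0 < r) (r1 : r < 1)
    (hr : wn r (toR (toZ s)) = 1) (hg : ∀ g : ℕ, (∀ d, s.coeff d ≠ 0 → g ∣ d) → g = 1) :
    ∃ c n0, Ren s r c n0 := by
  -- positivity for large `n`
  obtain ⟨n1, hn1⟩ := Nat.exists_mem_closure_of_ge {d | s.coeff d ≠ 0}
  have hgcd : Nat.setGcd {d | s.coeff d ≠ 0} = 1 := by
    refine hg _ fun d hd => Nat.setGcd_dvd_of_mem hd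
  have hpos : ∀ n, n1 ≤ n → 1 ≤ PowerSeries.coeff n (geo s) := fun n hn =>
    geo_pos h0 (hn1 n hn (hgcd ▸ one_dvd _))
  set D := s.natDegree + 1 with hD
  set w : ℕ → ℝ := fun n => ((PowerSeries.coeff n (geo s) : ℤ) : ℝ) * r ^ n with hw
  have hroot : ∀ M, D ≤ M → ∑ k ∈ Finset.range M, (s.coeff k : ℝ) * r ^ k = 1 := fun M hM => by
    rw [← wn_toZ_range r (by omega), hr]
  have hwnn : ∀ n, 0 ≤ w n := fun n => by
    have := geo_nonneg h0 n
    have h' : (0 : ℝ) ≤ ((PowerSeries.coeff n (geo s) : ℤ) : ℝ) := by exact_mod_cast this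
    positivity
  have hup : ∀ n, w n ≤ 1 := by
    intro n
    induction n using Nat.strong_induction_on with
    | _ n ih =>
      rcases eq_or_ne n 0 with h | h
      · subst h
        simp [hw, geo_zero h0]
      · rw [hw]
        simp only
        rw [geo_w h0 n h]
        calc ∑ k ∈ Finset.range (n + 1), ((s.coeff k : ℝ) * r ^ k) *
              (((PowerSeries.coeff (n - k) (geo s) : ℤ) : ℝ) * r ^ (n - k))
            ≤ ∑ k ∈ Finset.range (n + 1), (s.coeff k : ℝ) * r ^ k := by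
              refine Finset.sum_le_sum fun k hk => ?_
              rcases Nat.eq_zero_or_pos k with hk0 | hk0
              · rw [hk0, h0]
                simp
              · have h1 := ih (n - k) (by omega)
                exact mul_le_of_le_one_right (by positivity) h1
          _ ≤ ∑ k ∈ Finset.range (n + 1 + D), (s.coeff k : ℝ) * r ^ k := by
              refine Finset.sum_le_sum_of_subset_of_nonneg (Finset.range_mono (by omega))
                fun k _ _ => by positivity
          _ = 1 := hroot _ (by omega)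
  have hlow : ∀ n, n1 ≤ n → r ^ (n1 + D) ≤ w n := by
    intro n
    induction n using Nat.strong_induction_on with
    | _ n ih =>
      intro hn
      by_cases hn2 : n < n1 + D
      · have h1 := hpos n hn
        have h2 : (1 : ℝ) ≤ ((PowerSeries.coeff n (geo s) : ℤ) : ℝ) := by exact_mod_cast h1
        calc r ^ (n1 + D) ≤ r ^ n := pow_le_pow_of_le_one r0.le r1.le (by omega)
          _ = 1 * r ^ n := (one_mul _).symm
          _ ≤ w n := mul_le_mul_of_nonneg_right h2 (by positivity)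
      · have h : n ≠ 0 := by omega
        rw [hw]
        simp only
        rw [geo_w h0 n h]
        calc r ^ (n1 + D) = ∑ k ∈ Finset.range (n + 1), ((s.coeff k : ℝ) * r ^ k) * r ^ (n1 + D) := by
              rw [← Finset.sum_mul, hroot _ (by omega), one_mul]
          _ ≤ _ := by
              refine Finset.sum_le_sum fun k hk => ?_
              by_cases hkD : k < D
              · rcases Nat.eq_zero_or_pos k with hk0 | hk0
                · rw [hk0, h0]
                  simp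
                · exact mul_le_mul_of_nonneg_left (ih (n - k) (by omega) (by omega)) (by positivity)
              · rw [Polynomial.coeff_eq_zero_of_natDegree_lt (by omega)]
                simp
  refine ⟨r ^ (n1 + D), n1, h0, r0, r1, hr, by positivity, fun n hn => ?_, fun n => ?_⟩
  · have := hlow n hn
    have h1 : r ^ n * (r⁻¹) ^ n = 1 := by
      rw [← mul_pow, mul_inv_cancel₀ r0.ne', one_pow]
    calc r ^ (n1 + D) * (r⁻¹) ^ n ≤ w n * (r⁻¹) ^ n :=
          mul_le_mul_of_nonneg_right this (by positivity)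
      _ = ((PowerSeries.coeff n (geo s) : ℤ) : ℝ) * (r ^ n * (r⁻¹) ^ n) := by rw [hw]; ring
      _ = _ := by rw [h1, mul_one]
  · have := hup n
    have h1 : r ^ n * (r⁻¹) ^ n = 1 := by
      rw [← mul_pow, mul_inv_cancel₀ r0.ne', one_pow]
    calc ((PowerSeries.coeff n (geo s) : ℤ) : ℝ) =
          ((PowerSeries.coeff n (geo s) : ℤ) : ℝ) * (r ^ n * (r⁻¹) ^ n) := by rw [h1, mul_one]
      _ = w n * (r⁻¹) ^ n := by rw [hw]; ring
      _ ≤ 1 * (r⁻¹) ^ n := mul_le_mul_of_nonneg_right this (by positivity)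
      _ = _ := one_mul _

/-- existence of the root -/
theorem exists_root {s : ℕ[X]} (h0 : s.coeff 0 = 0) (h1 : 2 ≤ s.eval 1) :
    ∃ r : ℝ, 0 < r ∧ r < 1 ∧ wn r (toR (toZ s)) = 1 := by
  set f : ℝ → ℝ := fun r => ∑ k ∈ s.support, (s.coeff k : ℝ) * r ^ k with hf
  have hcont : Continuous f := by
    rw [hf]
    fun_prop
  have hf0 : f 0 = 0 := by
    rw [hf]
    refine Finset.sum_eq_zero fun k hk => ?_
    rcases Nat.eq_zero_or_pos k with h | h
    · rw [h, h0]
      simp
    · rw [zero_pow h.ne', mul_zero]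
  have hf1 : 2 ≤ f 1 := by
    rw [Polynomial.eval_eq_sum, Polynomial.sum] at h1
    simp only [one_pow, mul_one] at h1
    rw [hf]
    simp only [one_pow, mul_one]
    exact_mod_cast h1
  obtain ⟨r, hr, hr1⟩ : ∃ r ∈ Set.Ioo (0 : ℝ) 1, f r = 1 := by
    have := intermediate_value_Ioo (zero_le_one' ℝ) hcont.continuousOn
    exact this ⟨by rw [hf0]; norm_num, by linarith⟩
  exact ⟨r, hr.1, hr.2, by rw [wn_toZ]; exact hr1⟩

end Pool.Agent.SSE
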