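import Pool.Agent.SSE.V5

/-!
# SSE project, part V6: frames over one exact hub row
-/

set_option autoImplicit false

open scoped BigOperators
open Matrix Polynomial

namespace Pool.Agent.SSE

attribute [local instance] Classical.propDecidable

variable {κ J : Type} [Fintype κ] [Fintype J]

/-- the series of visits when only the hub `x` is expanded -/
noncomputable def hvis (P : Matrix (κ ⊕ J) (κ ⊕ J) ℕ[X]) (x : κ) (w : κ ⊕ J → ℤ[X]) (j : κ ⊕ J) :
    PowerSeries ℤ :=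
  ps (w j) + ps (w (Sum.inl x)) * geo (P (Sum.inl x) (Sum.inl x)) * ps (toZ (P (Sum.inl x) j))

lemma hvis_hub {P : Matrix (κ ⊕ J) (κ ⊕ J) ℕ[X]} (hP : IsPres P) (x : κ) (w : κ ⊕ J → ℤ[X]) :
    hvis P x w (Sum.inl x) = ps (w (Sum.inl x)) * geo (P (Sum.inl x) (Sum.inl x)) := by
  unfold hvis
  have := geo_eq (hP (Sum.inl x) (Sum.inl x))
  calc ps (w (Sum.inl x)) + ps (w (Sum.inl x)) * geo (P (Sum.inl x) (Sum.inl x)) *
        ps (toZ (P (Sum.inl x) (Sum.inl x))) = ps (w (Sum.inl x)) *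
        (1 + geo (P (Sum.inl x) (Sum.inl x)) * ps (toZ (P (Sum.inl x) (Sum.inl x)))) := by ring
    _ = _ := by rw [← this]

lemma hvis_vis {P : Matrix (κ ⊕ J) (κ ⊕ J) ℕ[X]} (hP : IsPres P) (x : κ) (w : κ ⊕ J → ℤ[X]) :
    Vis P {x} w (hvis P x w) := by
  intro j
  rw [Finset.sum_eq_single x]
  · rw [if_pos (Set.mem_singleton x), hvis_hub hP]
    rfl
  · intro k _ hk
    rw [if_neg (by simpa using hk), zero_mul]
  · intro h
    exact absurd (Finset.mem_univ _) h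

lemma coeff_mul_nonneg {u : PowerSeries ℤ} (hu : ∀ n, 0 ≤ PowerSeries.coeff n u) (q : ℕ[X]) (n : ℕ) :
    0 ≤ PowerSeries.coeff n (u * ps (toZ q)) := by
  rw [PowerSeries.coeff_mul]
  refine Finset.sum_nonneg fun a _ => ?_
  rw [coeff_ps, coeff_toZ]
  exact mul_nonneg (hu _) (by positivity)

lemma le_coeff_mul {u : PowerSeries ℤ} (hu : ∀ n, 0 ≤ PowerSeries.coeff n u) {q : ℕ[X]} {a : ℕ}
    (ha : 1 ≤ q.coeff a) {n : ℕ} (hn : a ≤ n) :
    PowerSeries.coeff (n - a) u ≤ PowerSeries.coeff n (u * ps (toZ q)) := by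
  rw [PowerSeries.coeff_mul]
  have hmem : (n - a, a) ∈ Finset.HasAntidiagonal.antidiagonal n :=
    Finset.HasAntidiagonal.mem_antidiagonal.2 (Nat.sub_add_cancel hn)
  refine le_trans ?_ (Finset.single_le_sum (f := fun b : ℕ × ℕ =>
    PowerSeries.coeff b.1 u * PowerSeries.coeff b.2 (ps (toZ q))) (fun b _ => ?_) hmem)
  · show PowerSeries.coeff (n - a) u ≤ PowerSeries.coeff (n - a) u * PowerSeries.coeff a (ps (toZ q))
    rw [coeff_ps, coeff_toZ]
    have h1 : (1 : ℤ) ≤ (q.coeff a : ℤ) := by exact_mod_cast ha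
    nlinarith [hu (n - a)]
  · simp only [coeff_ps, coeff_toZ]
    exact mul_nonneg (hu _) (by positivity)

lemma wn_toZ_nonneg {r : ℝ} (hr : 0 < r) (p : ℕ[X]) : 0 ≤ wn r (toR (toZ p)) := by
  rw [wn_toZ]
  exact Finset.sum_nonneg fun k _ => by positivity

lemma coeff_one_bound {r : ℝ} (hr : 0 < r) (n : ℕ) :
    |((PowerSeries.coeff n (1 : PowerSeries ℤ) : ℤ) : ℝ)| ≤ 1 * (r⁻¹) ^ n := by
  rw [PowerSeries.coeff_one]
  split_ifs with h
  · subst h
    simp
  · simp only [Int.cast_zero, abs_zero]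
    positivity

variable [DecidableEq J]

/-- A frame from one exact hub row, with uniform constants. -/
theorem Ren.frame {P : Matrix (κ ⊕ J) (κ ⊕ J) ℕ[X]} (hP : IsPres P) {x : κ} {D : Set (κ ⊕ J)}
    {r c B : ℝ} {n0 b A : ℕ} (R : Ren (P (Sum.inl x) (Sum.inl x)) r c n0)
    (hx : Sum.inl x ∈ D) (DJ : ∀ φ : J, Sum.inr φ ∈ D)
    (zero : ∀ φ, ∀ j ∉ D, P (Sum.inr φ) j = 0)
    (hcol : ∀ j ∈ D, j ≠ Sum.inl x → ∃ a ≤ A, 1 ≤ (P (Sum.inl x) j).coeff a)
    (hrow : ∀ φ, ∃ b' ≤ b, 1 ≤ (P (Sum.inr φ) (Sum.inl x)).coeff b')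
    (hB : ∀ j ∈ D, wn r (toR (toZ (P (Sum.inl x) j))) ≤ B)
    (hB' : ∀ φ, ∀ j ∈ D, wn r (toR (toZ (P (Sum.inr φ) j))) ≤ B) :
    Frame P {x} D r (c * r ^ (b + A)) (B * (1 + B)) (n0 + b + A + 1)
      (fun φ => hvis P x (fun j => toZ (P (Sum.inr φ) j))) := by
  have hr := R.r0
  have hB1 : 1 ≤ B := by
    rw [← R.root]
    exact hB _ hx
  have hgn := geo_nonneg R.s0
  have hrr : ∀ n m, m ≤ n → (r⁻¹) ^ (n - m) = r ^ m * (r⁻¹) ^ n := by
    intro n m hm
    have h1 : (r⁻¹) ^ n = (r⁻¹) ^ (n - m) * (r⁻¹) ^ m := by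
      rw [← pow_add]
      congr 1
      omega
    have h2 : r ^ m * (r⁻¹) ^ m = 1 := by
      rw [← mul_pow, mul_inv_cancel₀ hr.ne', one_pow]
    rw [h1]
    calc (r⁻¹) ^ (n - m) = (r⁻¹) ^ (n - m) * (r ^ m * (r⁻¹) ^ m) := by rw [h2, mul_one]
      _ = _ := by ring
  refine ⟨hP, fun φ => hvis_vis hP x _, hr, by omega, by nlinarith, ?_, DJ, zero, ?_, ?_⟩
  · intro k hk
    rw [Set.mem_singleton_iff.1 hk]
    exact hx
  · intro φ j hj n hn
    obtain ⟨b', hb', h1⟩ := hrow φ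
    set u : PowerSeries ℤ := ps (toZ (P (Sum.inr φ) (Sum.inl x))) *
      geo (P (Sum.inl x) (Sum.inl x)) with hu
    have hun : ∀ n, 0 ≤ PowerSeries.coeff n u := fun n => by
      rw [hu, mul_comm]
      exact coeff_mul_nonneg hgn _ n
    have hul : ∀ n, b' ≤ n → PowerSeries.coeff (n - b') (geo (P (Sum.inl x) (Sum.inl x))) ≤
        PowerSeries.coeff n u := fun n hn => by
      rw [hu, mul_comm]
      exact le_coeff_mul hgn h1 hn
    obtain ⟨m, hm1, hm2⟩ : ∃ m ≤ b + A, PowerSeries.coeff (n - m) (geo (P (Sum.inl x) (Sum.inl x)))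
        ≤ PowerSeries.coeff n (hvis P x (fun j => toZ (P (Sum.inr φ) j)) j) := by
      by_cases hjx : j = Sum.inl x
      · refine ⟨b', by omega, ?_⟩
        rw [hjx, hvis_hub hP]
        exact hul n (by omega)
      · obtain ⟨a, ha, h2⟩ := hcol j hj hjx
        refine ⟨a + b', by omega, ?_⟩
        have h3 := hul (n - a) (by omega)
        have h4 := le_coeff_mul hun h2 (n := n) (by omega)
        have h5 : 0 ≤ PowerSeries.coeff n (ps (toZ (P (Sum.inr φ) j))) := by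
          rw [coeff_ps, coeff_toZ]
          positivity
        rw [show n - (a + b') = n - a - b' by omega]
        unfold hvis
        rw [map_add]
        linarith
    have h3 := R.low (n - m) (by omega)
    rw [hrr n m (by omega)] at h3
    have h4 : ((PowerSeries.coeff (n - m) (geo (P (Sum.inl x) (Sum.inl x))) : ℤ) : ℝ) ≤
        ((PowerSeries.coeff n (hvis P x (fun j => toZ (P (Sum.inr φ) j)) j) : ℤ) : ℝ) := by
      exact_mod_cast hm2
    refine le_trans ?_ (h3.trans h4)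
    have h5 : r ^ (b + A) ≤ r ^ m := pow_le_pow_of_le_one hr.le R.r1.le hm1
    have h6 : 0 ≤ (r⁻¹) ^ n := by positivity
    have h7 := R.cpos
    calc c * r ^ (b + A) * r⁻¹ ^ n = c * (r ^ (b + A) * r⁻¹ ^ n) := by ring
      _ ≤ _ := mul_le_mul_of_nonneg_left (mul_le_mul_of_nonneg_right h5 h6) h7.le
  · intro φ j hj n
    have h1 := coeff_mul_bound hr zero_le_one (toZ (P (Sum.inr φ) j)) 1 (coeff_one_bound hr) n
    have h2 : ∀ n, |((PowerSeries.coeff n (geo (P (Sum.inl x) (Sum.inl x))) : ℤ) : ℝ)| ≤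
        1 * (r⁻¹) ^ n := by
      intro n
      rw [abs_of_nonneg (by exact_mod_cast hgn n), one_mul]
      exact R.up n
    have h3 := coeff_mul_bound hr zero_le_one (toZ (P (Sum.inr φ) (Sum.inl x))) _ h2
    have hw1 := wn_toZ_nonneg hr (P (Sum.inr φ) (Sum.inl x))
    have h4 := coeff_mul_bound hr (C := wn r (toR (toZ (P (Sum.inr φ) (Sum.inl x)))) * 1)
      (by positivity) (toZ (P (Sum.inl x) j)) _ h3 n
    unfold hvis
    rw [map_add, Int.cast_add]
    refine (abs_add_le _ _).trans ?_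
    rw [mul_one] at h1
    have h5 : ps (toZ (P (Sum.inr φ) (Sum.inl x))) * geo (P (Sum.inl x) (Sum.inl x)) *
        ps (toZ (P (Sum.inl x) j)) = ps (toZ (P (Sum.inl x) j)) *
        (ps (toZ (P (Sum.inr φ) (Sum.inl x))) * geo (P (Sum.inl x) (Sum.inl x))) := by ring
    rw [h5]
    rw [coeff_ps] at h1 ⊢
    refine (add_le_add h1 h4).trans ?_
    rw [← add_mul]
    refine mul_le_mul_of_nonneg_right ?_ (by positivity)
    have h6 := hB j hj
    have h7 := hB' φ j hj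
    have h8 := hB' φ _ hx
    have h9 := wn_toZ_nonneg hr (P (Sum.inl x) j)
    nlinarith [mul_le_mul h6 h8 hw1 (by linarith)]

end Pool.Agent.SSE
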