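import Pool.Agent.SSE.V6

/-!
# SSE project, part V7: transfer lemmas TR2, TR3
-/

set_option autoImplicit false

open scoped BigOperators
open Matrix Polynomial

namespace Pool.Agent.SSE

attribute [local instance] Classical.propDecidable

variable {κ J μ : Type} [Fintype κ] [Fintype J] [Fintype μ] [DecidableEq J]

/-- (TR2) one environment row (possibly in `S`) is changed by a combination of the other
environment rows; the fresh rows may be changed modulo the environment rows. -/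
theorem Fr.transfer_env {P P' Q Q' : Matrix (κ ⊕ J) (κ ⊕ J) ℕ[X]} {S S' : Set κ} (i : κ)
    (he : ∀ k, k ≠ i → P' (Sum.inl k) = P (Sum.inl k)) (b : κ → ℤ[X]) (hb : b i = 0)
    (hrow : ∀ j, IP P' (Sum.inl i) j = IP P (Sum.inl i) j + ∑ l, b l * IP P (Sum.inl l) j)
    (hf : ∀ φ : J, ∃ c : κ → ℤ[X], ∀ j, IP P' (Sum.inr φ) j =
      IP P (Sum.inr φ) j + ∑ k, c k * IP P (Sum.inl k) j)
    {g : Matrix J J ℤ[X]} (h : Fr P S g Q) (h' : Fr P' S' g Q') : PEqv Q Q' := by
  set Q1 : Matrix (κ ⊕ J) (κ ⊕ J) ℕ[X] := fun l => if l = Sum.inl i then Q' l else Q l with hQ1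
  have hQi : Q1 (Sum.inl i) = Q' (Sum.inl i) := by simp [hQ1]
  have hQo : ∀ l, l ≠ Sum.inl i → Q1 l = Q l := fun l hl => by simp [hQ1, hl]
  have hQp : IsPres Q1 := by
    intro l j
    by_cases hl : l = Sum.inl i
    · rw [hl, hQi]
      exact h'.1 _ _
    · rw [hQo l hl]
      exact h.1 _ _
  have hbs : ∀ (R : Matrix (κ ⊕ J) (κ ⊕ J) ℕ[X]) (f : κ → ℤ[X]) (j : κ ⊕ J),
      (∀ k, k ≠ i → R (Sum.inl k) = P (Sum.inl k)) → f i = 0 →
      ∑ k, f k * IP P (Sum.inl k) j = ∑ k, f k * IP R (Sum.inl k) j := by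
    intro R f j hR hf
    refine Finset.sum_congr rfl fun k _ => ?_
    by_cases hk : k = i
    · rw [hk, hf, zero_mul, zero_mul]
    · rw [IP_congr (hR k hk)]
  refine PEqv.trans (Q := Q1) ?_ ?_
  · refine one_row h.1 hQp (Sum.inl i) (fun l hl => (hQo l hl).symm) (Sum.elim b 0) (by simp [hb])
      fun j => ?_
    rw [IP_congr hQi, IP_congr (h'.2.1 i), hrow, IP_congr (h.2.1 i)]
    congr 1
    rw [Fintype.sum_sum_type]
    simp only [Sum.elim_inl, Sum.elim_inr, Pi.zero_apply, zero_mul, Finset.sum_const_zero, add_zero]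
    exact hbs Q b j (fun k _ => h.2.1 k) hb
  · have henv : ∀ k : κ, Q1 (Sum.inl k) = P' (Sum.inl k) := by
      intro k
      by_cases hk : k = i
      · rw [hk, hQi, h'.2.1]
      · rw [hQo _ fun h => hk (Sum.inl.inj h), h.2.1, he k hk]
    refine rows hQp h'.1 (fun k => by rw [h'.2.1, henv]) fun φ => ?_
    obtain ⟨c, -, hc⟩ := h.2.2 φ
    obtain ⟨c', -, hc'⟩ := h'.2.2 φ
    choose d hd using hf
    -- the rows of `P` in terms of the rows of `P'`
    have hPi : ∀ j, IP P (Sum.inl i) j = IP P' (Sum.inl i) j - ∑ l, b l * IP P' (Sum.inl l) j := by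
      intro j
      rw [hrow, hbs P' b j he hb]
      ring
    have hsum : ∀ (f : κ → ℤ[X]) (j : κ ⊕ J), ∑ k, f k * IP P (Sum.inl k) j =
        ∑ k, (f k - f i * b k) * IP P' (Sum.inl k) j := by
      intro f j
      have e1 : ∑ k, f k * IP P (Sum.inl k) j =
          ∑ k, (f k - Pi.single (M := fun _ => ℤ[X]) i (f i) k) * IP P (Sum.inl k) j +
          f i * IP P (Sum.inl i) j := by
        have e2 : ∑ k, Pi.single (M := fun _ => ℤ[X]) i (f i) k * IP P (Sum.inl k) j =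
            f i * IP P (Sum.inl i) j := by
          rw [Finset.sum_eq_single i]
          · rw [Pi.single_eq_same]
          · intro k _ hk
            rw [Pi.single_eq_of_ne hk, zero_mul]
          · intro h
            exact absurd (Finset.mem_univ _) h
        simp only [sub_mul, Finset.sum_sub_distrib, e2]
        ring
      rw [e1, hbs P' (fun k => f k - Pi.single (M := fun _ => ℤ[X]) i (f i) k) j he (by simp), hPi]
      have e3 : ∑ k, Pi.single (M := fun _ => ℤ[X]) i (f i) k * IP P' (Sum.inl k) j =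
          f i * IP P' (Sum.inl i) j := by
        rw [Finset.sum_eq_single i]
        · rw [Pi.single_eq_same]
        · intro k _ hk
          rw [Pi.single_eq_of_ne hk, zero_mul]
        · intro h
          exact absurd (Finset.mem_univ _) h
      simp only [sub_mul, Finset.sum_sub_distrib, e3, mul_sub, Finset.mul_sum, mul_assoc]
      ring
    -- everything in terms of `P'`
    refine ⟨fun k => (c' k + ∑ ψ, g φ ψ * (d ψ k - d ψ i * b k)) - (c k - c i * b k), fun j => ?_⟩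
    have e0 : IP Q1 (Sum.inr φ) j = IP Q (Sum.inr φ) j := IP_congr (hQo _ (by simp)) j
    rw [e0, hc', hc]
    simp only [IP_congr (henv _)]
    have e4 : ∑ ψ, g φ ψ * IP P' (Sum.inr ψ) j = ∑ ψ, g φ ψ * IP P (Sum.inr ψ) j +
        ∑ k, (∑ ψ, g φ ψ * (d ψ k - d ψ i * b k)) * IP P' (Sum.inl k) j := by
      simp only [hd, mul_add, Finset.sum_add_distrib]
      congr 1
      simp only [hsum, Finset.mul_sum, Finset.sum_mul]
      rw [Finset.sum_comm]
      refine Finset.sum_congr rfl fun k _ => Finset.sum_congr rfl fun ψ _ => ?_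
      ring
    rw [e4, hsum c j]
    simp only [sub_mul, add_mul, Finset.sum_add_distrib, Finset.sum_sub_distrib]
    ring

/-- the reindexing for sources -/
def esrc (κ μ J : Type) : (κ ⊕ μ) ⊕ J ≃ (κ ⊕ J) ⊕ μ where
  toFun := Sum.elim (Sum.elim (fun k => Sum.inl (Sum.inl k)) Sum.inr) fun φ => Sum.inl (Sum.inr φ)
  invFun := Sum.elim (Sum.elim (fun k => Sum.inl (Sum.inl k)) Sum.inr) fun m => Sum.inl (Sum.inr m)
  left_inv := by rintro ((k | m) | φ) <;> rfl
  right_inv := by rintro ((k | φ) | m) <;> rfl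

/-- add sources `μ` with rows `W` to the environment -/
noncomputable def addSrc (P : Matrix (κ ⊕ J) (κ ⊕ J) ℕ[X]) (W : Matrix μ (κ ⊕ J) ℕ[X]) :
    Matrix ((κ ⊕ μ) ⊕ J) ((κ ⊕ μ) ⊕ J) ℕ[X] :=
  (fromBlocks P 0 W 0).submatrix (esrc κ μ J) (esrc κ μ J)

/-- the old index of an environment/fresh vertex after adding sources -/
def oi (μ : Type) {κ J : Type} (j : κ ⊕ J) : (κ ⊕ μ) ⊕ J :=
  Sum.elim (fun k => Sum.inl (Sum.inl k)) (fun φ => Sum.inr φ) j

omit [Fintype κ] [Fintype J] [Fintype μ] [DecidableEq J] in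
lemma esrc_oi (j : κ ⊕ J) : esrc κ μ J (oi μ j) = Sum.inl j := by
  rcases j with k | φ <;> rfl

omit [Fintype κ] [Fintype J] [Fintype μ] [DecidableEq J] in
lemma esrc_src (m : μ) : esrc κ μ J (Sum.inl (Sum.inr m)) = Sum.inr m := rfl

omit [Fintype κ] [Fintype J] [Fintype μ] [DecidableEq J] in
lemma cases_oi {p : (κ ⊕ μ) ⊕ J → Prop} (h1 : ∀ j : κ ⊕ J, p (oi μ j))
    (h2 : ∀ m : μ, p (Sum.inl (Sum.inr m))) : ∀ j, p j := by
  rintro ((k | m) | φ)
  · exact h1 (Sum.inl k)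
  · exact h2 m
  · exact h1 (Sum.inr φ)

lemma addSrc_oi (P : Matrix (κ ⊕ J) (κ ⊕ J) ℕ[X]) (W : Matrix μ (κ ⊕ J) ℕ[X]) (i j : κ ⊕ J) :
    addSrc P W (oi μ i) (oi μ j) = P i j := by
  unfold addSrc
  rw [submatrix_apply, esrc_oi, esrc_oi]
  rfl

lemma addSrc_oi_src (P : Matrix (κ ⊕ J) (κ ⊕ J) ℕ[X]) (W : Matrix μ (κ ⊕ J) ℕ[X]) (i : κ ⊕ J)
    (m : μ) : addSrc P W (oi μ i) (Sum.inl (Sum.inr m)) = 0 := by
  unfold addSrc
  rw [submatrix_apply, esrc_oi, esrc_src]
  rfl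

lemma addSrc_src (P : Matrix (κ ⊕ J) (κ ⊕ J) ℕ[X]) (W : Matrix μ (κ ⊕ J) ℕ[X]) (m : μ) (j : κ ⊕ J) :
    addSrc P W (Sum.inl (Sum.inr m)) (oi μ j) = W m j := by
  unfold addSrc
  rw [submatrix_apply, esrc_oi, esrc_src]
  rfl

lemma addSrc_src_src (P : Matrix (κ ⊕ J) (κ ⊕ J) ℕ[X]) (W : Matrix μ (κ ⊕ J) ℕ[X]) (m m' : μ) :
    addSrc P W (Sum.inl (Sum.inr m)) (Sum.inl (Sum.inr m')) = 0 := by
  unfold addSrc
  rw [submatrix_apply, esrc_src, esrc_src]
  rfl

omit [DecidableEq J] in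
theorem addSrc_peqv (P : Matrix (κ ⊕ J) (κ ⊕ J) ℕ[X]) (W : Matrix μ (κ ⊕ J) ℕ[X]) :
    PEqv (addSrc P W) P :=
  (PEqv.reindex _ (esrc κ μ J)).symm.trans (sources P W)

lemma oi_inj {i j : κ ⊕ J} : oi μ i = oi μ j ↔ i = j := by
  constructor
  · intro h
    have := congrArg (esrc κ μ J) h
    rw [esrc_oi, esrc_oi] at this
    exact Sum.inl.inj this
  · rintro rfl
    rfl

lemma IP_addSrc (P : Matrix (κ ⊕ J) (κ ⊕ J) ℕ[X]) (W : Matrix μ (κ ⊕ J) ℕ[X]) (i j : κ ⊕ J) :
    IP (addSrc P W) (oi μ i) (oi μ j) = IP P i j := by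
  rw [IP_apply, IP_apply, addSrc_oi]
  congr 1
  by_cases h : i = j
  · rw [if_pos h, if_pos (by rw [h])]
  · rw [if_neg h, if_neg fun h' => h (oi_inj.1 h')]

lemma IP_addSrc_src (P : Matrix (κ ⊕ J) (κ ⊕ J) ℕ[X]) (W : Matrix μ (κ ⊕ J) ℕ[X]) (i : κ ⊕ J)
    (m : μ) : IP (addSrc P W) (oi μ i) (Sum.inl (Sum.inr m)) = 0 := by
  rw [IP_apply, addSrc_oi_src, if_neg]
  · simp
  · intro h
    have := congrArg (esrc κ μ J) h
    rw [esrc_oi, esrc_src] at this
    cases this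

/-- (TR3) adding sources to the environment -/
theorem Fr.add_src {P Q : Matrix (κ ⊕ J) (κ ⊕ J) ℕ[X]} {S : Set κ} {g : Matrix J J ℤ[X]}
    (h : Fr P S g Q) {W : Matrix μ (κ ⊕ J) ℕ[X]} (hW : ∀ m j, (W m j).coeff 0 = 0) :
    Fr (addSrc P W) (Sum.inl '' S) g (addSrc Q W) := by
  refine ⟨?_, ?_, fun φ => ?_⟩
  · intro i j
    induction i using cases_oi with
    | h1 i =>
      induction j using cases_oi with
      | h1 j => rw [addSrc_oi]; exact h.1 _ _
      | h2 m => rw [addSrc_oi_src]; simp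
    | h2 m =>
      induction j using cases_oi with
      | h1 j => rw [addSrc_src]; exact hW _ _
      | h2 m => rw [addSrc_src_src]; simp
  · rintro (k | m)
    · funext j
      induction j using cases_oi with
      | h1 j =>
        have e1 := addSrc_oi Q W (Sum.inl k) j
        have e2 := addSrc_oi P W (Sum.inl k) j
        rw [h.2.1] at e1
        exact e1.trans e2.symm
      | h2 m => exact (addSrc_oi_src Q W (Sum.inl k) m).trans (addSrc_oi_src P W (Sum.inl k) m).symm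
    · funext j
      induction j using cases_oi with
      | h1 j => rw [addSrc_src, addSrc_src]
      | h2 m => rw [addSrc_src_src, addSrc_src_src]
  · obtain ⟨c, h0, hc⟩ := h.2.2 φ
    refine ⟨Sum.elim c 0, ?_, ?_⟩
    · rintro (k | m) hk
      · refine h0 k fun hk' => hk ⟨k, hk', rfl⟩
      · rfl
    · intro j
      rw [Fintype.sum_sum_type (f := fun k : κ ⊕ μ => (Sum.elim c 0 : κ ⊕ μ → ℤ[X]) k *
        IP (addSrc P W) (Sum.inl k) j)]
      simp only [Sum.elim_inl, Sum.elim_inr, Pi.zero_apply, zero_mul, Finset.sum_const_zero, add_zero]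
      induction j using cases_oi with
      | h1 j =>
        have e1 : IP (addSrc Q W) (Sum.inr φ) (oi μ j) = IP Q (Sum.inr φ) j := IP_addSrc Q W (Sum.inr φ) j
        have e2 : ∀ ψ : J, IP (addSrc P W) (Sum.inr ψ) (oi μ j) = IP P (Sum.inr ψ) j :=
          fun ψ => IP_addSrc P W (Sum.inr ψ) j
        have e3 : ∀ k : κ, IP (addSrc P W) (Sum.inl (Sum.inl k)) (oi μ j) = IP P (Sum.inl k) j :=
          fun k => IP_addSrc P W (Sum.inl k) j
        rw [e1, hc]
        simp only [e2, e3]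
      | h2 m =>
        have e1 : IP (addSrc Q W) (Sum.inr φ) (Sum.inl (Sum.inr m)) = 0 :=
          IP_addSrc_src Q W (Sum.inr φ) m
        have e2 : ∀ ψ : J, IP (addSrc P W) (Sum.inr ψ) (Sum.inl (Sum.inr m)) = 0 :=
          fun ψ => IP_addSrc_src P W (Sum.inr ψ) m
        have e3 : ∀ k : κ, IP (addSrc P W) (Sum.inl (Sum.inl k)) (Sum.inl (Sum.inr m)) = 0 :=
          fun k => IP_addSrc_src P W (Sum.inl k) m
        rw [e1]
        simp only [e2, e3, mul_zero, Finset.sum_const_zero, add_zero]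

/-- (TR3) adding or removing sources does not change the class -/
theorem Fr.peqv_add_src {P Q : Matrix (κ ⊕ J) (κ ⊕ J) ℕ[X]} {S : Set κ} {g : Matrix J J ℤ[X]}
    (h : Fr P S g Q) {W : Matrix μ (κ ⊕ J) ℕ[X]} (hW : ∀ m j, (W m j).coeff 0 = 0)
    {S' : Set (κ ⊕ μ)} {Q' : Matrix ((κ ⊕ μ) ⊕ J) ((κ ⊕ μ) ⊕ J) ℕ[X]}
    (h' : Fr (addSrc P W) S' g Q') : PEqv Q Q' :=
  (addSrc_peqv Q W).symm.trans ((h.add_src hW).peqv h')

end Pool.Agent.SSE
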